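import Pool.Agent.Lib.MP_d7353d_co.ChGeo

namespace Pool.Agent.Lib.MP_d7353d_co

variable {V : Type} {G : SimpleGraph V}

lemma exists_id (V : Type) [Fintype V] : ∃ id : V → ℤ, (∀ v, 0 ≤ id v) ∧ ∀ u v, u ≠ v → id u ≠ id v :=
  ⟨fun v => (Fintype.equivFin V v : ℕ), fun _ => Int.natCast_nonneg _, fun u v h e =>
    h ((Fintype.equivFin V).injective (Fin.ext (by simpa using e)))⟩

/-- an odd cycle of tips around a clique -/
theorem arr [Fintype V] {Q T : Set V} {n : ℤ} {ix A : V → ℤ} (hn : n % 2 = 1) (n3 : 3 ≤ n) (hQ : Clq G Q)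
    (cov : ∀ v, v ∈ Q ∨ v ∈ T) (tt : ∀ t ∈ T, ∀ t' ∈ T, ¬ G.Adj t t')
    (hix : ∀ t ∈ T, 0 ≤ ix t ∧ ix t < n) (inj : ∀ t ∈ T, ∀ t' ∈ T, t ≠ t' → ix t ≠ ix t')
    (hA : ∀ s ∈ Q, 0 ≤ A s ∧ A s < 2 * n)
    (adj : ∀ t ∈ T, ∀ s ∈ Q, (G.Adj t s ↔ (2 * ix t - 1 ≤ A s ∧ A s ≤ 2 * ix t + 1) ∨
      (ix t = 0 ∧ A s = 2 * n - 1))) : LinOn G Set.univ := by
  classical
  obtain ⟨id, -, idi⟩ := exists_id V
  refine linOn_of_repO
    (f := fun v => if v ∈ T then toLex (4 * ix v - 3 + (if ix v % 2 = 0 then 4 * n else 0), 0)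
      else toLex (2 * A v, id v))
    (g := fun v => if v ∈ T then toLex (4 * ix v + 3 + (if ix v % 2 = 0 then 4 * n else 0), 0)
      else toLex (2 * A v + 4 * n, id v)) ⟨fun v _ => ?_, fun u _ v _ huv => ?_⟩
  · by_cases hv : v ∈ T
    · simp only [if_pos hv, lex_lt]; grind
    · have := hA v ((cov v).resolve_right hv)
      simp only [if_neg hv, lex_lt]; grind
  · have := idi u v huv
    by_cases hu : u ∈ T <;> by_cases hv : v ∈ T
    · have := hix u hu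
      have := hix v hv
      have := inj u hu v hv huv
      simp only [if_pos hu, if_pos hv, lex_lt, lex_ne, Cross, tt u hu v hv, false_iff]
      split_ifs <;> grind
    · have hq := (cov v).resolve_right hv
      have := hix u hu
      have := hA v hq
      simp only [if_pos hu, if_neg hv, lex_lt, lex_ne, Cross, adj u hu v hq]
      split_ifs <;> grind
    · have hq := (cov u).resolve_right hu
      have := hix v hv
      have := hA u hq
      rw [G.adj_comm]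
      simp only [if_neg hu, if_pos hv, lex_lt, lex_ne, Cross, adj v hv u hq]
      split_ifs <;> grind
    · have hq := (cov u).resolve_right hu
      have hq' := (cov v).resolve_right hv
      have := hA u hq
      have := hA v hq'
      simp only [if_neg hu, if_neg hv, lex_lt, lex_ne, Cross, hQ u hq v hq' huv, true_iff]
      grind

/-- pulling a representation back along a map that reflects adjacency -/
theorem LinOn.pull {W : Type} [Fintype W] {H : SimpleGraph W} {S : Set V} (h : LinOn G S) (φ : W → V)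
    (hS : ∀ a, φ a ∈ S) (hφ : ∀ a b, H.Adj a b ↔ G.Adj (φ a) (φ b)) : LinOn H Set.univ := by
  obtain ⟨f, g, h1, h2⟩ := h
  obtain ⟨id, -, idi⟩ := exists_id W
  refine linOn_of_repO (f := fun a => toLex (f (φ a), id a)) (g := fun a => toLex (g (φ a), - id a))
    ⟨fun a _ => ?_, fun a _ b _ hab => ?_⟩
  · have := h1 _ (hS a)
    simp only [lex_lt]; grind
  · have := idi a b hab
    have := h1 _ (hS a)
    have := h1 _ (hS b)
    rw [hφ]
    by_cases e : φ a = φ b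
    · simp only [e, lex_lt, lex_ne, Cross, G.irrefl, false_iff] at *; grind
    · obtain ⟨a1, a2, a3, a4⟩ := h2 _ (hS a) _ (hS b) e
      obtain ⟨-, -, a5, -⟩ := h2 _ (hS b) _ (hS a) (Ne.symm e)
      simp only [lex_lt, lex_ne, Cross, a4]; grind

/-- the Naji system -/
structure Naji (G : SimpleGraph V) (S : Set V) (β : V → V → ℤ) : Prop where
  n0 : ∀ x y, x ∈ S ∧ y ∈ S ∧ G.Adj x y → (β x y + β y x) % 2 = 1
  n1 : ∀ x y z, x ∈ S ∧ y ∈ S ∧ z ∈ S ∧ (G.Adj y z ∨ y = z) ∧ ¬ G.Adj x y ∧ ¬ G.Adj x z ∧ x ≠ y ∧ x ≠ z →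
    (β x y + β x z) % 2 = 0
  n2 : ∀ x y z, x ∈ S ∧ y ∈ S ∧ z ∈ S ∧ G.Adj x y ∧ G.Adj x z ∧ ¬ G.Adj y z ∧ y ≠ z →
    (β y z + β z y + β x y + β x z) % 2 = 1

theorem naji_of_linOn {S : Set V} (h : LinOn G S) : ∃ β, Naji G S β := by
  obtain ⟨f, g, h1, h2⟩ := h
  have k : ∀ u ∈ S, ∀ v ∈ S, u ≠ v → f u < g u ∧ f v < g v ∧ f u ≠ f v ∧ g u ≠ g v ∧ f u ≠ g v ∧ f v ≠ g u ∧
      (G.Adj u v ↔ Cross (f u) (g u) (f v) (g v)) := fun u hu v hv huv =>
    ⟨h1 u hu, h1 v hv, (h2 u hu v hv huv).1, (h2 u hu v hv huv).2.1,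
      (h2 u hu v hv huv).2.2.1, (h2 v hv u hu huv.symm).2.2.1, (h2 u hu v hv huv).2.2.2⟩
  refine ⟨fun x y => if f x < g y ∧ g y < g x then 1 else 0, ?_, ?_, ?_⟩
  · rintro x y ⟨hx, hy, hxy⟩
    obtain ⟨a1, a2, a3, a4, a5, a6, a7⟩ := k x hx y hy hxy.ne
    rw [a7] at hxy
    unfold Cross at hxy
    split_ifs <;> omega
  · rintro x y z ⟨hx, hy, hz, hyz | rfl, hxy, hxz, e1, e2⟩
    swap
    · omega
    obtain ⟨a1, a2, a3, a4, a5, a6, a7⟩ := k x hx y hy e1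
    obtain ⟨b1, b2, b3, b4, b5, b6, b7⟩ := k x hx z hz e2
    obtain ⟨c1, c2, c3, c4, c5, c6, c7⟩ := k y hy z hz hyz.ne
    rw [a7] at hxy
    rw [b7] at hxz
    rw [c7] at hyz
    unfold Cross at *
    split_ifs <;> omega
  · rintro x y z ⟨hx, hy, hz, hxy, hxz, hyz, e⟩
    obtain ⟨a1, a2, a3, a4, a5, a6, a7⟩ := k x hx y hy hxy.ne
    obtain ⟨b1, b2, b3, b4, b5, b6, b7⟩ := k x hx z hz hxz.ne
    obtain ⟨c1, c2, c3, c4, c5, c6, c7⟩ := k y hy z hz e
    rw [a7] at hxy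
    rw [b7] at hxz
    rw [c7] at hyz
    unfold Cross at *
    split_ifs <;> omega

end Pool.Agent.Lib.MP_d7353d_co
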