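import Pool.Agent.Lib.MP_d7353d_co.Strip

namespace Pool.Agent.Lib.MP_d7353d_co

def Obs {V : Type} (G : SimpleGraph V) : Prop :=
  (∃ i, Nonempty (intGraph (spor i) ↪g G)) ∨ ∃ N, 6 ≤ N ∧ Nonempty (fam N ↪g G)

variable {V : Type} {G : SimpleGraph V} {L R : V → ℕ}

lemma embed {W : Type} {H : SimpleGraph W} (hR : Red G L R) (φ : W → V)
    (h : ∀ a b, a ≠ b → (H.Adj a b ↔ L (φ a) ≤ R (φ b) ∧ L (φ b) ≤ R (φ a)))
    (tw : ∀ a b, H.Adj a b → ∃ c, c ≠ a ∧ c ≠ b ∧ ¬ (H.Adj a c ↔ H.Adj b c)) : Nonempty (H ↪g G) := by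
  have inj : Function.Injective φ := by
    intro a b hab
    by_contra hne
    have h1 : H.Adj a b := (h a b hne).2 (by rw [hab]; exact ⟨hR.le _, hR.le _⟩)
    obtain ⟨c, hca, hcb, hc⟩ := tw a b h1
    apply hc
    rw [h a c hca.symm, h b c hcb.symm, hab]
  refine ⟨⟨⟨φ, inj⟩, fun {a b} => ?_⟩⟩
  by_cases hab : a = b
  · subst hab; simp
  · simp only [Function.Embedding.coeFn_mk]
    rw [h a b hab, hR.adj _ _ (fun e => hab (inj e))]

lemma intGraph_adj (I : Fin 8 → ℕ × ℕ) (a b : Fin 8) :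
    (intGraph I).Adj a b ↔ a ≠ b ∧ (I a).1 ≤ (I b).2 ∧ (I b).1 ≤ (I a).2 := by
  simp only [intGraph, SimpleGraph.fromRel_adj]; tauto

lemma spor_tw : ∀ (i : Fin 6) (a b : Fin 8), (intGraph (spor i)).Adj a b →
    ∃ c, c ≠ a ∧ c ≠ b ∧ ¬ ((intGraph (spor i)).Adj a c ↔ (intGraph (spor i)).Adj b c) := by
  simp only [intGraph_adj]
  decide +kernel

lemma spor_embed (hR : Red G L R) (i : Fin 6) (φ : Fin 8 → V)
    (h : ∀ a b, ((spor i a).1 ≤ (spor i b).2 ∧ (spor i b).1 ≤ (spor i a).2) ↔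
      (L (φ a) ≤ R (φ b) ∧ L (φ b) ≤ R (φ a))) : Obs G :=
  Or.inl ⟨i, embed hR φ (fun a b hab => by rw [intGraph_adj, ← h]; tauto) (spor_tw i)⟩

lemma wl (hR : Red G L R) {a u b : V} (h1 : L a < L b) (h2 : L u < L b) :
    ∃ x, L a ≤ R x ∧ L u ≤ R x ∧ R x < L b := by
  rcases le_total (L a) (L u) with h | h
  · obtain ⟨x, hx, hx'⟩ := hR.w1 u b h2; exact ⟨x, by omega, hx, hx'⟩
  · obtain ⟨x, hx, hx'⟩ := hR.w1 a b h1; exact ⟨x, hx, by omega, hx'⟩

lemma wr (hR : Red G L R) {a u b : V} (h1 : R b < R a) (h2 : R b < R u) :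
    ∃ z, L z ≤ R a ∧ L z ≤ R u ∧ R b < L z := by
  rcases le_total (R a) (R u) with h | h
  · obtain ⟨x, hx, hx'⟩ := hR.w2 b a h1; exact ⟨x, hx', by omega, hx⟩
  · obtain ⟨x, hx, hx'⟩ := hR.w2 b u h2; exact ⟨x, by omega, hx', hx⟩

lemma obs_T (hR : Red G L R) {a b c : V} (h1 : Ov L R a b) (h2 : Ov L R b c) (h3 : L c ≤ R a)
    (hn : Nest L R b) : Obs G := by
  obtain ⟨u, hu1, hu2⟩ := hn
  obtain ⟨a1, a2, a3⟩ := h1
  obtain ⟨b1, b2, b3⟩ := h2
  obtain ⟨x, x1, x2, x3⟩ := wl hR a1 hu1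
  obtain ⟨z, z1, z2, z3⟩ := wr hR b3 hu2
  obtain ⟨w, w1, w2⟩ := hR.w1 b c b1
  obtain ⟨y, y1, y2⟩ := hR.w2 a b a3
  have := hR.le x
  have := hR.le z
  have := hR.le w
  have := hR.le y
  by_cases k1 : L w ≤ R x <;> by_cases k2 : L z ≤ R y
  · apply spor_embed hR 5 ![x, w, a, u, b, c, y, z]
    intro i j; fin_cases i <;> fin_cases j <;> simp [spor] <;> omega
  · apply spor_embed hR 4 ![z, c, u, y, b, a, w, x]
    intro i j; fin_cases i <;> fin_cases j <;> simp [spor] <;> omega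
  · apply spor_embed hR 4 ![x, a, u, w, b, c, y, z]
    intro i j; fin_cases i <;> fin_cases j <;> simp [spor] <;> omega
  · apply spor_embed hR 3 ![x, a, u, w, b, c, y, z]
    intro i j; fin_cases i <;> fin_cases j <;> simp [spor] <;> omega

lemma obs_short (hR : Red G L R) {y p z u v : V} (h1 : Ov L R y p) (h2 : Ov L R p z) (h3 : R y < L z)
    (hy : Ov L R y v) (hv : L v ≤ L p) (hu : R p ≤ R u) (huz : Ov L R u z) (huv : Ov L R u v)
    (hn : Nest L R p) : Obs G := by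
  obtain ⟨a1, a2, a3⟩ := h1
  obtain ⟨b1, b2, b3⟩ := h2
  obtain ⟨c1, c2, c3⟩ := hy
  obtain ⟨d1, d2, d3⟩ := huz
  obtain ⟨e1, e2, e3⟩ := huv
  obtain ⟨x, x1, x2, x3⟩ := wl hR c1 e1
  obtain ⟨t, t1, t2, t3⟩ := wr hR d3 e3
  have := hR.le x
  have := hR.le t
  by_cases k1 : R p < R u
  · obtain ⟨s, s1, s2⟩ := hR.w2 p u k1
    have := hR.le s
    by_cases k2 : L t ≤ R s
    · apply spor_embed hR 1 ![x, y, u, p, v, z, s, t]
      intro i j; fin_cases i <;> fin_cases j <;> simp [spor] <;> omega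
    · apply spor_embed hR 2 ![t, z, v, s, u, p, y, x]
      intro i j; fin_cases i <;> fin_cases j <;> simp [spor] <;> omega
  · by_cases k3 : L v < L p
    · obtain ⟨s, s1, s2⟩ := hR.w1 v p k3
      have := hR.le s
      by_cases k2 : L s ≤ R x
      · apply spor_embed hR 1 ![t, z, v, p, u, y, s, x]
        intro i j; fin_cases i <;> fin_cases j <;> simp [spor] <;> omega
      · apply spor_embed hR 2 ![x, y, u, s, v, p, z, t]
        intro i j; fin_cases i <;> fin_cases j <;> simp [spor] <;> omega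
    · obtain ⟨w, w1, w2⟩ := hn
      obtain ⟨x', x1', x2', x3'⟩ := wl hR (a := w) (u := if L y ≤ L u then u else y) (b := v) (by omega)
        (by split_ifs <;> omega)
      obtain ⟨t', t1', t2', t3'⟩ := wr hR (a := w) (u := if R z ≤ R v then z else v) (b := u) (by omega)
        (by split_ifs <;> omega)
      have := hR.le x'
      have := hR.le t'
      have : L y ≤ R x' ∧ L u ≤ R x' := by split_ifs at x2' <;> omega
      have : L t' ≤ R z ∧ L t' ≤ R v := by split_ifs at t2' <;> omega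
      apply spor_embed hR 0 ![x', y, u, w, p, v, z, t']
      intro i j; fin_cases i <;> fin_cases j <;> simp [spor] <;> omega

lemma fam_ll {N : ℕ} (i j : Fin N) :
    (fam N).Adj (Sum.inl i) (Sum.inl j) ↔ i.val + 1 = j.val ∨ j.val + 1 = i.val := by
  simp only [fam, SimpleGraph.fromRel_adj, ne_eq, Sum.inl.injEq, Fin.ext_iff]; omega

lemma fam_ls {N : ℕ} (i : Fin N) :
    (fam N).Adj (Sum.inl i) (Sum.inr false) ↔ 1 ≤ i.val ∧ (i.val + 1 < N ∨ N % 2 = 1) := by
  simp [fam, SimpleGraph.fromRel_adj, Nat.odd_iff]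

lemma fam_lt {N : ℕ} (i : Fin N) :
    (fam N).Adj (Sum.inl i) (Sum.inr true) ↔ (i.val + 1 < N ∨ N % 2 = 0) := by
  simp [fam, SimpleGraph.fromRel_adj, Nat.even_iff]

lemma fam_sl {N : ℕ} (i : Fin N) :
    (fam N).Adj (Sum.inr false) (Sum.inl i) ↔ 1 ≤ i.val ∧ (i.val + 1 < N ∨ N % 2 = 1) := by
  rw [SimpleGraph.adj_comm, fam_ls]

lemma fam_tl {N : ℕ} (i : Fin N) :
    (fam N).Adj (Sum.inr true) (Sum.inl i) ↔ (i.val + 1 < N ∨ N % 2 = 0) := by
  rw [SimpleGraph.adj_comm, fam_lt]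

lemma fam_rr {N : ℕ} (a b : Bool) : (fam N).Adj (Sum.inr a) (Sum.inr b) ↔ a ≠ b := by
  simp [fam, SimpleGraph.fromRel_adj]

lemma fam_tw {N : ℕ} (hN : 6 ≤ N) : ∀ a b, (fam N).Adj a b →
    ∃ c, c ≠ a ∧ c ≠ b ∧ ¬ ((fam N).Adj a c ↔ (fam N).Adj b c) := by
  have far : ∀ i : Fin N, ∃ j : Fin N, 1 ≤ j.val ∧ j.val + 1 < N ∧ j.val ≠ i.val ∧ j.val + 1 ≠ i.val ∧
      i.val + 1 ≠ j.val := by
    intro i
    by_cases h : i.val ≤ 2
    · exact ⟨⟨4, by omega⟩, by simp; omega⟩
    · exact ⟨⟨1, by omega⟩, by simp; omega⟩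
  rintro (i | a) (j | b) h
  · rw [fam_ll] at h
    by_cases h1 : max i.val j.val + 1 < N
    · refine ⟨Sum.inl ⟨max i.val j.val + 1, h1⟩, ?_, ?_, ?_⟩
      · simp [Fin.ext_iff]; omega
      · simp [Fin.ext_iff]; omega
      · simp only [fam_ll]; omega
    · refine ⟨Sum.inl ⟨min i.val j.val - 1, by omega⟩, ?_, ?_, ?_⟩
      · simp only [ne_eq, Sum.inl.injEq, Fin.ext_iff]; omega
      · simp only [ne_eq, Sum.inl.injEq, Fin.ext_iff]; omega
      · simp only [fam_ll]; omega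
  · obtain ⟨j, hj⟩ := far i
    refine ⟨Sum.inl j, by simp only [ne_eq, Sum.inl.injEq, Fin.ext_iff]; omega, by simp, ?_⟩
    cases b <;> simp only [fam_ll, fam_sl, fam_tl] <;> omega
  · obtain ⟨i, hi⟩ := far j
    refine ⟨Sum.inl i, by simp, by simp only [ne_eq, Sum.inl.injEq, Fin.ext_iff]; omega, ?_⟩
    cases a <;> simp only [fam_ll, fam_sl, fam_tl] <;> omega
  · refine ⟨Sum.inl ⟨0, by omega⟩, by simp, by simp, ?_⟩
    rw [fam_rr] at h
    cases a <;> cases b <;> simp only [fam_sl, fam_tl] <;> first | omega | simp at h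

lemma fam_embed (hR : Red G L R) (N : ℕ) (hN : 6 ≤ N) (P : ℕ → V) (s t : V)
    (hP1 : ∀ i, i + 1 < N → L (P (i + 1)) ≤ R (P i) ∧ L (P i) ≤ R (P (i + 1)))
    (hP2 : ∀ i j, i + 2 ≤ j → j < N → R (P i) < L (P j))
    (hs : ∀ i, i < N → ((L s ≤ R (P i) ∧ L (P i) ≤ R s) ↔ (1 ≤ i ∧ (i + 1 < N ∨ N % 2 = 1))))
    (ht : ∀ i, i < N → ((L t ≤ R (P i) ∧ L (P i) ≤ R t) ↔ (i + 1 < N ∨ N % 2 = 0)))
    (hst : L s ≤ R t ∧ L t ≤ R s) : Obs G := by
  refine Or.inr ⟨N, hN, embed hR (Sum.elim (fun i => P i.val) fun b => if b then t else s) ?_ (fam_tw hN)⟩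
  rintro (i | a) (j | b) hab
  · simp only [fam_ll, Sum.elim_inl]
    have hij : i.val ≠ j.val := fun h => hab (by rw [Fin.ext h])
    have := i.2
    have := j.2
    constructor
    · rintro (h | h)
      · rw [← h]; exact (hP1 _ (by omega)).symm
      · rw [← h]; exact hP1 _ (by omega)
    · intro h
      by_contra hc
      rcases lt_or_gt_of_ne hij with h' | h'
      · have := hP2 i j (by omega) j.2; omega
      · have := hP2 j i (by omega) i.2; omega
  · cases b
    · simp only [fam_ls, Sum.elim_inl, Sum.elim_inr, Bool.false_eq_true, if_false]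
      rw [← hs i i.2]; exact and_comm
    · simp only [fam_lt, Sum.elim_inl, Sum.elim_inr, if_true]
      rw [← ht i i.2]; exact and_comm
  · cases a
    · simp only [fam_sl, Sum.elim_inl, Sum.elim_inr, Bool.false_eq_true, if_false]
      rw [← hs j j.2]
    · simp only [fam_tl, Sum.elim_inl, Sum.elim_inr, if_true]
      rw [← ht j j.2]
  · cases a <;> cases b <;> simp [fam_rr, hst.1, hst.2] at hab ⊢

lemma obs_stair (hR : Red G L R) (k : ℕ) (Q : ℕ → V) (u v : V) (hk : 1 ≤ k)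
    (h1 : ∀ i, i < k → Ov L R (Q i) (Q (i + 1)))
    (h3 : ∀ i j, i + 2 ≤ j → j ≤ k → R (Q i) < L (Q j))
    (hy : Ov L R (Q 0) v) (hv : L v ≤ L (Q 1)) (hu : R (Q (k - 1)) ≤ R u) (huz : Ov L R u (Q k))
    (hn : 2 ≤ k → Nest L R (Q 1))
    (hc : (Ov L R u v ∧ k % 2 = 0) ∨ (u = v ∧ Nest L R u ∧ k % 2 = 1)) : Obs G := by
  have mono : ∀ i j, i ≤ j → j ≤ k → L (Q i) ≤ L (Q j) ∧ R (Q i) ≤ R (Q j) := by
    intro i j hij
    induction j, hij using Nat.le_induction with
    | base => intro _; exact ⟨le_rfl, le_rfl⟩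
    | succ j hij ih =>
      intro hj
      have := ih (by omega)
      have := h1 j (by omega)
      unfold Ov at this
      omega
  have build : ∀ x t s s' : V, 3 ≤ k → L (Q 0) ≤ R x → R x < L v → L t ≤ R (Q k) → R u < L t →
      (L s ≤ R (Q 1) ∧ R x < L s ∧ L s ≤ R (Q 0) ∧ L (Q k) ≤ R s ∧ (L t ≤ R s ↔ k % 2 = 0)) →
      (L s' ≤ R x ∧ L (Q k) ≤ R s' ∧ (L t ≤ R s' ↔ k % 2 = 1)) → Obs G := by
    intro x t s s' k3 x1 x2 t1 t2 hs hs'
    have := hR.le x
    have := hR.le t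
    have := hR.le s
    have := hR.le s'
    have := hy.1
    have := hy.2.1
    have := huz.2.1
    have := huz.2.2
    have := hR.le (Q 0)
    have := hR.le (Q k)
    have := mono 0 k (by omega) le_rfl
    have := mono 0 (k - 1) (by omega) (by omega)
    have := h3 0 k (by omega) le_rfl
    apply fam_embed hR (k + 3) (by omega) (fun i => if i = 0 then x else if i ≤ k + 1 then Q (i - 1) else t)
      s s'
    · intro i hi
      by_cases i0 : i = 0
      · subst i0; simp; omega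
      · by_cases i1 : i ≤ k
        · have := h1 (i - 1) (by omega)
          rw [show i - 1 + 1 = i by omega] at this
          unfold Ov at this
          simp only [if_neg i0, if_pos (show i ≤ k + 1 by omega), if_pos (show i + 1 ≤ k + 1 by omega),
            Nat.add_sub_cancel, if_neg (show i + 1 ≠ 0 by omega)]
          omega
        · obtain rfl : i = k + 1 := by omega
          simp; omega
    · intro i j hij hj
      by_cases i0 : i = 0
      · subst i0
        simp only [if_true, if_neg (show j ≠ 0 by omega)]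
        split_ifs with j1
        · have := mono 1 (j - 1) (by omega) (by omega); omega
        · omega
      · simp only [if_neg i0, if_neg (show j ≠ 0 by omega), if_pos (show i ≤ k + 1 by omega)]
        split_ifs with j1
        · exact h3 _ _ (by omega) (by omega)
        · have := mono (i - 1) (k - 1) (by omega) (by omega); omega
    · intro i hi
      split_ifs with i0 i1
      · omega
      · have := mono (i - 1) k (by omega) le_rfl
        have := mono 0 (i - 1) (by omega) (by omega)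
        omega
      · omega
    · intro i hi
      split_ifs with i0 i1
      · omega
      · have := mono (i - 1) k (by omega) le_rfl
        have := mono 0 (i - 1) (by omega) (by omega)
        omega
      · omega
    · omega
  have := mono 0 1 (by omega) hk
  have := hR.le (Q 1)
  rcases hc with ⟨huv, hk2⟩ | ⟨rfl, hnu, hk2⟩
  · by_cases k2 : k = 2
    · subst k2
      exact obs_short hR (h1 0 (by omega)) (h1 1 (by omega)) (h3 0 2 le_rfl le_rfl) hy hv hu huz huv
        (hn le_rfl)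
    · obtain ⟨x, x1, x2, x3⟩ := wl hR hy.1 huv.1
      obtain ⟨t, t1, t2, t3⟩ := wr hR huz.2.2 huv.2.2
      unfold Ov at hy huz huv
      exact build x t v u (by omega) x1 x3 t1 t3 (by omega) (by omega)
  · by_cases k1 : k = 1
    · subst k1
      exact obs_T hR hy huz (h1 0 (by omega)).2.1 hnu
    · obtain ⟨w, w1, w2⟩ := hnu
      obtain ⟨x, x1, x2, x3⟩ := wl hR hy.1 w1
      obtain ⟨t, t1, t2, t3⟩ := wr hR huz.2.2 w2
      unfold Ov at hy huz
      exact build x t u w (by omega) x1 x3 t1 t3 (by omega) (by omega)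

end Pool.Agent.Lib.MP_d7353d_co
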