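import Pool.Agent.Lib.MP_d7353d_co.ChArr
import Pool.Agent.Lib.MP_d7353d_co.Obs

namespace Pool.Agent.Lib.MP_d7353d_co

variable {V : Type} {G : SimpleGraph V}

def Has {W : Type} (H : SimpleGraph W) (G : SimpleGraph V) : Prop :=
  ∃ φ : W → V, ∀ a b, H.Adj a b ↔ G.Adj (φ a) (φ b)

def Bad (G : SimpleGraph V) : Prop :=
  (∃ L ∈ sporadic, Has (ofLists L) G) ∨ (∃ N, 6 ≤ N ∧ Has (fam N) G) ∨ (∃ N, 5 ≤ N ∧ Has (famQ N) G) ∨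
    ∃ τ k, sunMin τ ≤ k ∧ Has (sun τ k) G

lemma Has.trans {W U : Type} {H : SimpleGraph W} {K : SimpleGraph U} (h : Has H K) (h' : Has K G) :
    Has H G := by
  obtain ⟨φ, h⟩ := h
  obtain ⟨ψ, h'⟩ := h'
  exact ⟨ψ ∘ φ, fun a b => (h a b).trans (h' _ _)⟩

lemma Bad.mono {U : Type} {K : SimpleGraph U} (h : Bad K) (h' : Has K G) : Bad G := by
  rcases h with ⟨L, h1, h⟩ | ⟨L, h1, h⟩ | ⟨L, h1, h⟩ | ⟨τ, k, h1, h⟩
  · exact Or.inl ⟨L, h1, h.trans h'⟩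
  · exact Or.inr (Or.inl ⟨L, h1, h.trans h'⟩)
  · exact Or.inr (Or.inr (Or.inl ⟨L, h1, h.trans h'⟩))
  · exact Or.inr (Or.inr (Or.inr ⟨τ, k, h1, h.trans h'⟩))

structure Ok (G : SimpleGraph V) : Prop where
  nh : NoHole G
  nb : ¬ Bad G

lemma hasF {z : ℕ → V} {n : ℕ} {s t : V} (hz : IPa G z n) (st : G.Adj s t)
    (hs : ∀ i, i ≤ n → (G.Adj (z i) s ↔ 1 ≤ i ∧ (i < n ∨ n % 2 = 0)))
    (ht : ∀ i, i ≤ n → (G.Adj (z i) t ↔ i < n ∨ n % 2 = 1)) : Has (fam (n + 1)) G := by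
  refine ⟨Sum.elim (fun i => z i.val) fun c => cond c t s, ?_⟩
  rintro (i | _ | _) (j | _ | _) <;> simp only [Sum.elim_inl, Sum.elim_inr, cond_true, cond_false, fam_ll,
    fam_ls, fam_lt, fam_sl, fam_tl, fam_rr]
  · rw [hz _ _ (by omega) (by omega)]
  · rw [hs _ (by omega)]; omega
  · rw [ht _ (by omega)]; omega
  · rw [G.adj_comm, hs _ (by omega)]; omega
  · simp
  · simp [st]
  · rw [G.adj_comm, ht _ (by omega)]; omega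
  · simp [st.symm]
  · simp

lemma fq_ll {N : ℕ} (i j : Fin N) :
    (famQ N).Adj (Sum.inl i) (Sum.inl j) ↔ i.val + 1 = j.val ∨ j.val + 1 = i.val := by
  simp only [famQ, SimpleGraph.fromRel_adj, ne_eq, Sum.inl.injEq, Fin.ext_iff]; omega

lemma fq_lr {N : ℕ} (i : Fin N) (e : Fin 3) : (famQ N).Adj (Sum.inl i) (Sum.inr e) ↔
    (e.val = 0 ∧ 1 ≤ i.val ∧ (i.val + 1 < N ∨ N % 2 = 0)) ∨ (e.val = 1 ∧ (i.val + 1 < N ∨ N % 2 = 1)) := by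
  simp only [famQ, SimpleGraph.fromRel_adj, Nat.even_iff, Nat.odd_iff, Fin.ext_iff, ne_eq, reduceCtorEq,
    not_false_eq_true, true_and, or_false]
  rfl

lemma fq_rl {N : ℕ} (i : Fin N) (e : Fin 3) : (famQ N).Adj (Sum.inr e) (Sum.inl i) ↔
    (e.val = 0 ∧ 1 ≤ i.val ∧ (i.val + 1 < N ∨ N % 2 = 0)) ∨ (e.val = 1 ∧ (i.val + 1 < N ∨ N % 2 = 1)) := by
  rw [SimpleGraph.adj_comm, fq_lr]

lemma fq_rr {N : ℕ} (a b : Fin 3) : (famQ N).Adj (Sum.inr a) (Sum.inr b) ↔ a.val ≠ b.val := by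
  simp only [famQ, SimpleGraph.fromRel_adj, ne_eq, Sum.inr.injEq, Fin.ext_iff, or_self, and_true]

lemma hasG {z : ℕ → V} {n : ℕ} {s t q : V} (hz : IPa G z n) (st : G.Adj s t) (sq : G.Adj q s)
    (tq : G.Adj q t) (hq : ∀ i, i ≤ n → ¬ G.Adj q (z i))
    (hs : ∀ i, i ≤ n → (G.Adj (z i) s ↔ 1 ≤ i ∧ (i < n ∨ n % 2 = 1)))
    (ht : ∀ i, i ≤ n → (G.Adj (z i) t ↔ i < n ∨ n % 2 = 0)) : Has (famQ (n + 1)) G := by
  refine ⟨Sum.elim (fun i => z i.val) ![s, t, q], ?_⟩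
  have k : ∀ (i : Fin (n + 1)) (e : Fin 3), (famQ (n + 1)).Adj (Sum.inl i) (Sum.inr e) ↔
      G.Adj (z i.val) (![s, t, q] e) := by
    intro i e
    have := i.2
    rw [fq_lr]
    fin_cases e
    · simp only [Fin.zero_eta, Matrix.cons_val_zero]; rw [hs _ (by omega)]; simp; omega
    · simp only [Fin.mk_one, Matrix.cons_val_one, Matrix.cons_val_zero]; rw [ht _ (by omega)]; simp; omega
    · have := hq i (by omega)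
      simp [G.adj_comm, this]
  rintro (i | e) (j | e') <;> simp only [Sum.elim_inl, Sum.elim_inr]
  · rw [fq_ll, hz _ _ (by omega) (by omega)]
  · exact k _ _
  · rw [SimpleGraph.adj_comm, G.adj_comm]; exact k _ _
  · rw [fq_rr]
    fin_cases e <;> fin_cases e' <;> simp [st, sq, tq, st.symm, sq.symm, tq.symm]

section
variable {τ : Fin 4} {k : ℕ}

lemma sa_tt (i j : Fin (k + 1)) : (sunAll τ k).Adj (Sum.inl i) (Sum.inl j) ↔ False := by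
  simp [sunAll, SimpleGraph.fromRel_adj]

lemma sa_ty (i : Fin (k + 1)) (j : Fin (k + 2)) :
    (sunAll τ k).Adj (Sum.inl i) (Sum.inr (Sum.inl j)) ↔ j.val = i.val ∨ j.val = i.val + 1 := by
  simp [sunAll, SimpleGraph.fromRel_adj]

lemma sa_yt (i : Fin (k + 1)) (j : Fin (k + 2)) :
    (sunAll τ k).Adj (Sum.inr (Sum.inl j)) (Sum.inl i) ↔ j.val = i.val ∨ j.val = i.val + 1 := by
  rw [SimpleGraph.adj_comm, sa_ty]

lemma sa_te (i : Fin (k + 1)) (e : Fin 3) :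
    (sunAll τ k).Adj (Sum.inl i) (Sum.inr (Sum.inr e)) ↔ False := by
  simp [sunAll, SimpleGraph.fromRel_adj]

lemma sa_et (i : Fin (k + 1)) (e : Fin 3) :
    (sunAll τ k).Adj (Sum.inr (Sum.inr e)) (Sum.inl i) ↔ False := by
  simp [sunAll, SimpleGraph.fromRel_adj]

lemma sa_yy (i j : Fin (k + 2)) : (sunAll τ k).Adj (Sum.inr (Sum.inl i)) (Sum.inr (Sum.inl j)) ↔
    i.val ≠ j.val ∧ ¬ (τ.val = 1 ∧ ((i.val = 0 ∧ j.val = k + 1) ∨ (j.val = 0 ∧ i.val = k + 1))) := by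
  simp only [sunAll, SimpleGraph.fromRel_adj, ne_eq, Sum.inr.injEq, Sum.inl.injEq, Fin.ext_iff, Fin.val_one]
  omega

lemma sa_ey (e : Fin 3) (j : Fin (k + 2)) : (sunAll τ k).Adj (Sum.inr (Sum.inr e)) (Sum.inr (Sum.inl j)) ↔
    (e.val = 0 ∧ τ.val = 0 ∧ (j.val = 0 ∨ j.val = k + 1)) ∨ (e.val = 0 ∧ τ.val = 2 ∧ 1 ≤ j.val ∧ j.val ≤ k) ∨
      (e.val = 0 ∧ τ.val = 3 ∧ j.val ≤ k) ∨ (e.val = 1 ∧ 1 ≤ j.val) ∨ e.val = 2 := by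
  simp only [sunAll, SimpleGraph.fromRel_adj, ne_eq, Sum.inr.injEq, reduceCtorEq, not_false_eq_true,
    true_and, or_false, Fin.ext_iff]
  rfl

lemma sa_ye (e : Fin 3) (j : Fin (k + 2)) : (sunAll τ k).Adj (Sum.inr (Sum.inl j)) (Sum.inr (Sum.inr e)) ↔
    (e.val = 0 ∧ τ.val = 0 ∧ (j.val = 0 ∨ j.val = k + 1)) ∨ (e.val = 0 ∧ τ.val = 2 ∧ 1 ≤ j.val ∧ j.val ≤ k) ∨
      (e.val = 0 ∧ τ.val = 3 ∧ j.val ≤ k) ∨ (e.val = 1 ∧ 1 ≤ j.val) ∨ e.val = 2 := by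
  rw [SimpleGraph.adj_comm, sa_ey]

lemma sa_ee (e e' : Fin 3) : (sunAll τ k).Adj (Sum.inr (Sum.inr e)) (Sum.inr (Sum.inr e')) ↔
    e.val ≠ e'.val ∧ (e.val = 2 ∨ e'.val = 2) ∧ τ.val ≠ 0 := by
  simp only [sunAll, SimpleGraph.fromRel_adj, ne_eq, Sum.inr.injEq, Fin.ext_iff]
  have : ((2 : Fin 3) : ℕ) = 2 := rfl
  have : ((0 : Fin 4) : ℕ) = 0 := rfl
  omega

/-- the vertices present in `sun τ k` -/
lemma sun_mem (v : Fin (k + 1) ⊕ Fin (k + 2) ⊕ Fin 3) :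
    ((v = Sum.inr (Sum.inr 0) → τ ≠ 1) ∧ (v = Sum.inr (Sum.inr 1) → τ = 3) ∧
      (v = Sum.inr (Sum.inr 2) → (Odd k ↔ τ ≠ 2))) ↔ ∀ e : Fin 3, v = Sum.inr (Sum.inr e) →
      (e.val = 0 → τ.val ≠ 1) ∧ (e.val = 1 → τ.val = 3) ∧ (e.val = 2 → (k % 2 = 1 ↔ τ.val ≠ 2)) := by
  rw [Fin.forall_fin_succ, Fin.forall_fin_two, Nat.odd_iff]
  simp [Fin.ext_iff]

end

structure OS (G : SimpleGraph V) (t y : ℕ → V) (k : ℕ) : Prop where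
  k1 : 1 ≤ k
  tt : ∀ i j, i ≤ k → j ≤ k → ¬ G.Adj (t i) (t j)
  ty : ∀ i j, i ≤ k → j ≤ k + 1 → (G.Adj (t i) (y j) ↔ j = i ∨ j = i + 1)
  yy : ∀ i j, i < j → j ≤ k + 1 → (0 < i ∨ j ≤ k) → G.Adj (y i) (y j)

/-- a vertex that sees no tip and does not distinguish the middle vertices -/
def Un (G : SimpleGraph V) (t y : ℕ → V) (k : ℕ) (x : V) : Prop :=
  (∀ i, i ≤ k → ¬ G.Adj (t i) x) ∧ ∀ j, 1 ≤ j → j ≤ k → (G.Adj x (y j) ↔ G.Adj x (y 1))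

/-- a centre -/
def Cen (G : SimpleGraph V) (t y : ℕ → V) (k : ℕ) (c : V) : Prop :=
  Un G t y k c ∧ G.Adj c (y 0) ∧ G.Adj c (y 1) ∧ G.Adj c (y (k + 1))

theorem hasSun {t y : ℕ → V} {k : ℕ} (h : OS G t y k) (τ : Fin 4) (q r c : V)
    (cl : G.Adj (y 0) (y (k + 1)) ↔ τ.val ≠ 1)
    (hq : τ.val ≠ 1 → Un G t y k q ∧ (G.Adj q (y 0) ↔ τ.val ≠ 2) ∧ (G.Adj q (y 1) ↔ τ.val ≠ 0) ∧
      (G.Adj q (y (k + 1)) ↔ τ.val = 0))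
    (hr : τ.val = 3 → Un G t y k r ∧ ¬ G.Adj r (y 0) ∧ G.Adj r (y 1) ∧ G.Adj r (y (k + 1)) ∧ ¬ G.Adj q r)
    (hc : (k % 2 = 1 ↔ τ.val ≠ 2) → Cen G t y k c ∧ (τ.val ≠ 1 → (G.Adj c q ↔ τ.val ≠ 0)) ∧
      (τ.val = 3 → G.Adj c r)) : Has (sun τ k) G := by
  have t4 := τ.2
  have k1 := h.k1
  have sy := G.adj_comm
  have ir := G.irrefl (v := q)
  have ir := G.irrefl (v := r)
  have ir := G.irrefl (v := c)
  refine ⟨fun v => Sum.elim (fun i => t i.val) (Sum.elim (fun j => y j.val) ![q, r, c]) v.1, ?_⟩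
  have yy : ∀ i j, i ≤ k + 1 → j ≤ k + 1 → (G.Adj (y i) (y j) ↔
      i ≠ j ∧ ¬ (τ.val = 1 ∧ ((i = 0 ∧ j = k + 1) ∨ (j = 0 ∧ i = k + 1)))) := by
    intro i j hi hj
    have := h.yy i j
    have := h.yy j i
    have := G.irrefl (v := y i)
    clear hq hr hc
    grind
  have un : ∀ x, Un G t y k x → ∀ j, j ≤ k + 1 → (G.Adj x (y j) ↔
      (j = 0 ∧ G.Adj x (y 0)) ∨ (1 ≤ j ∧ j ≤ k ∧ G.Adj x (y 1)) ∨ (j = k + 1 ∧ G.Adj x (y (k + 1)))) := by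
    intro x hx j hj
    have := hx.2 j
    clear hq hr hc yy
    grind
  have ex : ∀ e : Fin 3, ((e.val = 0 → τ.val ≠ 1) ∧ (e.val = 1 → τ.val = 3) ∧
      (e.val = 2 → (k % 2 = 1 ↔ τ.val ≠ 2))) → (∀ i, i ≤ k → ¬ G.Adj (t i) (![q, r, c] e)) ∧
      ∀ j, j ≤ k + 1 → (G.Adj (![q, r, c] e) (y j) ↔
      (e.val = 0 ∧ τ.val = 0 ∧ (j = 0 ∨ j = k + 1)) ∨ (e.val = 0 ∧ τ.val = 2 ∧ 1 ≤ j ∧ j ≤ k) ∨
      (e.val = 0 ∧ τ.val = 3 ∧ j ≤ k) ∨ (e.val = 1 ∧ 1 ≤ j) ∨ e.val = 2) := by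
    intro e he
    fin_cases e
    · obtain ⟨a1, a2⟩ := hq (he.1 rfl)
      refine ⟨a1.1, fun j hj => (un q a1 j hj).trans ?_⟩
      have := he.1 rfl
      grind
    · obtain ⟨a1, a2⟩ := hr (he.2.1 rfl)
      refine ⟨a1.1, fun j hj => (un r a1 j hj).trans ?_⟩
      grind
    · obtain ⟨⟨a1, a2⟩, -⟩ := hc (he.2.2 rfl)
      refine ⟨a1.1, fun j hj => (un c a1 j hj).trans ?_⟩
      grind
  rintro ⟨a, ha⟩ ⟨b, hb⟩
  have ha' := (sun_mem a).1 ha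
  have hb' := (sun_mem b).1 hb
  change (sunAll τ k).Adj a b ↔ _
  rcases a with i | i | e <;> rcases b with j | j | e' <;>
    simp only [Sum.elim_inl, Sum.elim_inr, sa_tt, sa_ty, sa_yt, sa_te, sa_et, sa_yy, sa_ey, sa_ye, sa_ee,
      false_iff]
  · exact h.tt _ _ (by omega) (by omega)
  · rw [h.ty _ _ (by omega) (by omega)]
  · exact (ex e' (hb' e' rfl)).1 _ (by omega)
  · rw [sy, h.ty _ _ (by omega) (by omega)]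
  · rw [yy _ _ (by omega) (by omega)]
  · rw [sy, (ex e' (hb' e' rfl)).2 _ (by omega)]
  · rw [sy]; exact (ex e (ha' e rfl)).1 _ (by omega)
  · rw [(ex e (ha' e rfl)).2 _ (by omega)]
  · have a1 := ha' e rfl
    have a2 := hb' e' rfl
    unfold Cen at hc
    fin_cases e <;> fin_cases e' <;>
      simp only [Fin.zero_eta, Fin.mk_one, Fin.reduceFinMk, Matrix.cons_val] at a1 a2 ⊢ <;> grind

variable {t y : ℕ → V} {k : ℕ}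

theorem badA (h : OS G t y k) (q c : V) (cl : G.Adj (y 0) (y (k + 1)))
    (hq : Un G t y k q ∧ G.Adj q (y 0) ∧ ¬ G.Adj q (y 1) ∧ G.Adj q (y (k + 1)))
    (hc : k % 2 = 1 → Cen G t y k c ∧ ¬ G.Adj c q) : Bad G :=
  Or.inr (Or.inr (Or.inr ⟨0, k, h.k1, hasSun h 0 q q c (by simpa) (by simpa) (by simp) (by simpa)⟩))

theorem badB (h : OS G t y k) (k3 : 3 ≤ k) (c : V) (cl : ¬ G.Adj (y 0) (y (k + 1)))
    (hc : k % 2 = 1 → Cen G t y k c) : Bad G :=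
  Or.inr (Or.inr (Or.inr ⟨1, k, k3, hasSun h 1 c c c (by simpa) (by simp) (by simp) (by simpa)⟩))

theorem badC (h : OS G t y k) (k2 : 2 ≤ k) (q c : V) (cl : G.Adj (y 0) (y (k + 1)))
    (hq : Un G t y k q ∧ ¬ G.Adj q (y 0) ∧ G.Adj q (y 1) ∧ ¬ G.Adj q (y (k + 1)))
    (hc : k % 2 = 0 → Cen G t y k c ∧ G.Adj c q) : Bad G :=
  Or.inr (Or.inr (Or.inr ⟨2, k, k2, hasSun h 2 q q c (by simpa) (by simpa) (by simp) (by simpa)⟩))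

theorem badD (h : OS G t y k) (q r c : V) (cl : G.Adj (y 0) (y (k + 1)))
    (hq : Un G t y k q ∧ G.Adj q (y 0) ∧ G.Adj q (y 1) ∧ ¬ G.Adj q (y (k + 1)))
    (hr : Un G t y k r ∧ ¬ G.Adj r (y 0) ∧ G.Adj r (y 1) ∧ G.Adj r (y (k + 1)) ∧ ¬ G.Adj q r)
    (hc : k % 2 = 1 → Cen G t y k c ∧ G.Adj c q ∧ G.Adj c r) : Bad G :=
  Or.inr (Or.inr (Or.inr ⟨3, k, h.k1, hasSun h 3 q r c (by simpa) (by simpa) (by simpa) (by simpa)⟩))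

end Pool.Agent.Lib.MP_d7353d_co
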