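import Pool.Agent.Lib.MP_d7353d_co.ChLab

namespace Pool.Agent.Lib.MP_d7353d_co

variable {V : Type} {G : SimpleGraph V} {Q T : Set V} {D : Bool → Set V} {α : Bool → V → ℤ}
  {cp ix C A : V → ℤ}

theorem Cfg.pc2 (H : Ok G) (F : Cfg G Q T D α) (L : Lab G Q T cp ix C A) {t0 t1 x z : V} {k : ℕ} {θ : ℤ}
    (h0 : t0 ∈ T) (h1 : t1 ∈ T) (e : cp t0 = cp t1) (e' : ix t1 = ix t0 + k) (k1 : 1 ≤ k)
    (lv : ∀ v ∈ Q, ∀ j, C v = cp t0 → A v = 2 * j + 1 → ix t0 ≤ j → j < ix t1 → wt α v = θ)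
    (hx : x ∈ Q) (hz : z ∈ Q) (ax : G.Adj t0 x) (az : G.Adj t1 z) {a b : Bool}
    (ha : ∀ v ∈ Q, wt α v = θ → α a x ≠ α a v) (hb : ∀ v ∈ Q, wt α v = θ → α b z ≠ α b v) (c : V)
    (hc : (a = b ↔ k % 2 = 0) → c ∈ Q ∧ wt α c = θ ∧ C c ≠ cp t0) : False := by
  have : ∀ i : ℕ, ∃ m, i ≤ k → m ∈ T ∧ cp m = cp t0 ∧ ix m = ix t0 + i := by
    intro i
    by_cases hi : i ≤ k
    · obtain ⟨m, hm⟩ := L.cont t0 h0 t1 h1 e (ix t0 + i) (by omega) (by omega)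
      exact ⟨m, fun _ => hm⟩
    · exact ⟨x, fun h => absurd h hi⟩
  choose t ht using this
  have x1 := (L.adj t0 h0 x hx).1 ax
  have z1 := (L.adj t1 h1 z hz).1 az
  have x2 : A x ≤ 2 * ix t0 := by
    have := lv x hx (ix t0)
    have := ha x hx
    omega
  have z2 : 2 * ix t1 ≤ A z := by
    have := lv z hz (ix t1 - 1)
    have := hb z hz
    omega
  have : ∀ j : ℕ, ∃ v, j ≤ k + 1 → v ∈ Q ∧ C v = cp t0 ∧ (j = 0 → v = x) ∧ (j = k + 1 → v = z) ∧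
      (1 ≤ j → j ≤ k → A v = 2 * (ix t0 + j) - 1) := by
    intro j
    by_cases j0 : j = 0
    · exact ⟨x, by grind⟩
    by_cases jk : k + 1 ≤ j
    · exact ⟨z, by grind⟩
    have a1 := ht (j - 1) (by omega)
    have a2 := ht j (by omega)
    obtain ⟨v, hv, v1, v2⟩ := L.jun _ a1.1 _ a2.1 (by omega) (by omega)
    have := (L.adj _ a1.1 v hv).1 v1
    have := (L.adj _ a2.1 v hv).1 v2
    exact ⟨v, fun _ => ⟨hv, by omega⟩⟩
  choose y hy using this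
  have y0 : y 0 = x := (hy 0 (by omega)).2.2.1 rfl
  have y1 : y (k + 1) = z := (hy _ le_rfl).2.2.2.1 rfl
  have lv' : ∀ j, 1 ≤ j → j ≤ k → wt α (y j) = θ := fun j h h' => by
    have := hy j (by omega)
    exact lv _ this.1 (ix t0 + j - 1) this.2.1 (by omega) (by omega) (by omega)
  have ty : ∀ i j, i ≤ k → j ≤ k + 1 → (G.Adj (t i) (y j) ↔ j = i ∨ j = i + 1) := by
    intro i j hi hj
    have a1 := ht i hi
    have a2 := hy j hj
    rw [L.adj _ a1.1 _ a2.1]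
    grind
  have O : OS G t y k := by
    refine ⟨k1, fun i j hi hj => F.tt _ (ht i hi).1 _ (ht j hj).1, ty, fun i j hi hj _ => ?_⟩
    refine F.clq _ (hy i (by omega)).1 _ (hy j hj).1 fun e => ?_
    have := ty i i
    have := ty i j
    have := ty k i
    have := ty k j
    have := ty 0 i
    have := ty 0 j
    grind
  have l1 := lv' 1 le_rfl k1
  have l2 := lv' k k1 le_rfl
  have q1 := (hy 1 (by omega)).1
  have qk := (hy k (by omega)).1
  have a1 := ha _ q1 l1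
  have b1 := hb _ q1 l1
  have w1 := F.wle hx q1 a
  have w2 := F.wle hz q1 b
  have t00 : t 0 = t0 := by
    have := ht 0 (by omega)
    exact L.inj _ this.1 _ h0 this.2.1 (by omega)
  have t11 : t k = t1 := by
    have := ht k le_rfl
    exact L.inj _ this.1 _ h1 (by omega) (by omega)
  have c1 : G.Adj t0 (y 1) := t00 ▸ (ty 0 1 (by omega) (by omega)).2 (by omega)
  have c2 : G.Adj t1 (y k) := t11 ▸ (ty k k (by omega) (by omega)).2 (by omega)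
  have ne : t0 ≠ t1 := by grind
  have f1 := F.f2 H h0 h1 ne hx q1 hz qk ⟨ax, c1, az, c2⟩
  have f2 := F.f2 H h0 h1 ne q1 hx qk hz ⟨c1, ax, c2, az⟩
  refine F.pc H O (fun i hi => (ht i hi).1) (fun j hj => (hy j hj).1) (fun j h h' => by rw [lv' j h h', l1])
    (by rw [y0, y1]; unfold Mid; omega) (y0 ▸ a1) (y1 ▸ b1) c fun h => ?_
  obtain ⟨d1, d2, d3⟩ := hc h
  refine ⟨d1, by omega, fun i hi => ?_⟩
  have := ht i hi
  rw [L.adj _ this.1 _ d1]; omega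

lemma Cfg.side_ne (F : Cfg G Q T D α) {x v : V} (hv : v ∈ Q) (h : wt α x ≠ wt α v) :
    ∃ a, ∀ s ∈ Q, wt α s = wt α v → α a x ≠ α a s := by
  obtain ⟨a, ha⟩ := wt_ne h
  refine ⟨a, fun s hs e => ?_⟩
  have := F.wle hs hv a
  omega

theorem Cfg.nc (H : Ok G) (F : Cfg G Q T D α) (L : Lab G Q T cp ix C A) {x y c : V} (hx : x ∈ Q)
    (hy : y ∈ Q) (hc : c ∈ Q) (e : C x = C y) (ne : C c ≠ C x) (h1 : wt α x < wt α c)
    (h2 : wt α c < wt α y) : False := by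
  have W := F.tw H
  obtain ⟨t, ht, a1⟩ := L.cov x hx y hy (by grind) e
  obtain ⟨t', ht', a2⟩ := L.cov y hy x hx (by grind) e.symm
  have b1 := (L.adj t ht x hx).1 a1
  have b2 := (L.adj t' ht' y hy).1 a2
  have S1 := @Lab.step' V G Q T _ _ _ _ _ L W (fun a b => wt α a < wt α c ∧ wt α c ≤ wt α b)
    (fun a b v h => by omega) (fun a b h => by omega)
  have S2 := @Lab.step' V G Q T _ _ _ _ _ L W (fun a b => wt α a ≤ wt α c ∧ wt α c < wt α b)
    (fun a b v h => by omega) (fun a b h => by omega)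
  obtain ⟨p, hp, p1, -, a, ha, b, hb, p2, p3, p4⟩ := S1 ht ht' (by omega) hx hy a1 a2 (by omega)
  obtain ⟨q, hq, q1, -, a', ha', b', hb', q2, q3, q4⟩ := S2 ht ht' (by omega) hx hy a1 a2 (by omega)
  have pc : ¬ G.Adj p c := by rw [L.adj p hp c hc]; omega
  have qc : ¬ G.Adj q c := by rw [L.adj q hq c hc]; omega
  have pq : p ≠ q := by
    rintro rfl
    exact pc (F.f1 H hp ha hc hb' p2 q3 p4.1 q4.2)
  have lv : ∀ v ∈ Q, ∀ j, C v = cp p → A v = 2 * j + 1 →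
      (ix p ≤ j ∧ j < ix q) ∨ (ix q ≤ j ∧ j < ix p) → wt α v = wt α c := by
    intro v hv j v1 v2 v3
    obtain ⟨m, hm, m1, m2⟩ : ∃ m ∈ T, cp m = cp p ∧ ix m = j := by
      rcases v3 with h | h
      · exact L.cont p hp q hq (by omega) j (by omega) (by omega)
      · simpa [p1, q1] using L.cont q hq p hp (by omega) j (by omega) (by omega)
    obtain ⟨n, hn, n1, n2⟩ : ∃ m ∈ T, cp m = cp p ∧ ix m = j + 1 := by
      rcases v3 with h | h
      · exact L.cont p hp q hq (by omega) _ (by omega) (by omega)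
      · simpa [p1, q1] using L.cont q hq p hp (by omega) (j + 1) (by omega) (by omega)
    have mv := (L.adj m hm v hv).2 (by omega)
    have nv := (L.adj n hn v hv).2 (by omega)
    obtain ⟨r, hr, r1, r2, r3⟩ : ∃ r ∈ T, cp r = cp p ∧ G.Adj r v ∧
        ((ix p < ix r ∧ ix r ≤ ix q) ∨ (ix q ≤ ix r ∧ ix r < ix p)) := by
      rcases v3 with h | h
      · exact ⟨n, hn, n1, nv, by omega⟩
      · exact ⟨m, hm, m1, mv, by omega⟩
    obtain ⟨s, hs, s1, s2, s3⟩ : ∃ r ∈ T, cp r = cp p ∧ G.Adj r v ∧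
        ((ix p ≤ ix r ∧ ix r < ix q) ∨ (ix q < ix r ∧ ix r ≤ ix p)) := by
      rcases v3 with h | h
      · exact ⟨m, hm, m1, mv, by omega⟩
      · exact ⟨n, hn, n1, nv, by omega⟩
    rcases lt_trichotomy (wt α v) (wt α c) with h | h | h
    · obtain ⟨u, hu, u1, u2, d, hd, d', hd', u3, u4, u5⟩ := S1 hr hq (by omega) hv hb' r2 q3 (by omega)
      have := F.f2 H hp hu (by rintro rfl; omega) ha hb hd hd' ⟨p2, p3, u3, u4⟩
      omega
    · exact h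
    · obtain ⟨u, hu, u1, u2, d, hd, d', hd', u3, u4, u5⟩ := S2 hp hs (by omega) ha hv p2 s2 (by omega)
      have := F.f2 H hq hu (by rintro rfl; omega) ha' hb' hd hd' ⟨q2, q3, u3, u4⟩
      omega
  obtain ⟨i, hi⟩ := F.side_ne (x := a) hc (by omega)
  obtain ⟨j, hj⟩ := F.side_ne (x := b') hc (by omega)
  rcases lt_trichotomy (ix p) (ix q) with h | h | h
  · exact F.pc2 H L (k := (ix q - ix p).toNat) hp hq (by omega) (by omega) (by omega)
      (fun v hv j a b c d => lv v hv j a b (by omega)) ha hb' p2 q3 hi hj c fun _ => ⟨hc, rfl, by omega⟩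
  · exact pq (L.inj p hp q hq (by omega) h)
  · exact F.pc2 H L (k := (ix p - ix q).toNat) hq hp (by omega) (by omega) (by omega)
      (fun v hv j a b c d => lv v hv j (by omega) b (by omega)) hb' ha q3 p2 hj hi c fun _ => ⟨hc, rfl, by omega⟩

theorem Cfg.sep (H : Ok G) (F : Cfg G Q T D α) (L : Lab G Q T cp ix C A) {x y x' y' : V} (hx : x ∈ Q)
    (hy : y ∈ Q) (hx' : x' ∈ Q) (hy' : y' ∈ Q) (e : C x = C y) (e' : C x' = C y') (ne : C x ≠ C x')
    (h1 : wt α x' < wt α x) : wt α y' ≤ wt α y := by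
  by_contra h2
  have W := F.tw H
  have : ¬ _ := F.nc H L hx' hy' hx e' ne h1
  have : ¬ _ := F.nc H L hy hx hy' e.symm (by omega) (by omega)
  have str : ∀ θ, ∀ x ∈ Q, ∀ y ∈ Q, C x = C y → wt α x ≤ θ → θ < wt α y → ∃ t ∈ T, cp t = C x ∧
      ∃ a ∈ Q, ∃ b ∈ Q, G.Adj t a ∧ G.Adj t b ∧ wt α a ≤ θ ∧ θ < wt α b := by
    intro θ x hx y hy e h1 h2
    obtain ⟨t, ht, a1⟩ := L.cov x hx y hy (by grind) e
    obtain ⟨t', ht', a2⟩ := L.cov y hy x hx (by grind) e.symm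
    have b1 := (L.adj t ht x hx).1 a1
    have b2 := (L.adj t' ht' y hy).1 a2
    obtain ⟨m, hm, m1, -, m2⟩ := L.step' W (fun a b => wt α a ≤ θ ∧ θ < wt α b)
      (fun a b v h => by omega) (fun a b h => by omega) ht ht' (by omega) hx hy a1 a2 ⟨h1, h2⟩
    exact ⟨m, hm, by omega, m2⟩
  obtain ⟨t, ht, t1, a, ha, b, hb, t2, t3, t4⟩ := str (max (wt α x') (wt α y)) y hy x hx e.symm
    (by omega) (by omega)
  obtain ⟨s, hs, s1, c, hc, d, hd, s2, s3, s4⟩ := str (max (wt α x') (wt α y)) x' hx' y' hy' e'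
    (by omega) (by omega)
  have := F.f2 H ht hs (by rintro rfl; omega) ha hb hc hd ⟨t2, t3, s2, s3⟩
  omega

def Spl (G : SimpleGraph V) (Q : Set V) (β : V → ℤ) (t : V) : Prop :=
  ∃ a ∈ Q, ∃ b ∈ Q, G.Adj t a ∧ G.Adj t b ∧ β a ≠ β b

theorem Cfg.par (H : Ok G) (F : Cfg G Q T D α) (L : Lab G Q T cp ix C A) : ∀ k : ℕ, ∀ t ∈ T, ∀ t' ∈ T,
    cp t = cp t' → ix t' = ix t + k → ∀ a b, Spl G Q (α a) t → Spl G Q (α b) t' → (a = b ↔ k % 2 = 0) := by
  intro k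
  induction k using Nat.strong_induction_on with
  | _ k ih =>
    intro t ht t' ht' e e' a b ha hb
    by_cases k0 : k = 0
    · obtain rfl := L.inj t ht t' ht' e (by omega)
      obtain ⟨x, hx, y, hy, a1, a2, a3⟩ := ha
      obtain ⟨z, hz, u, hu, b1, b2, b3⟩ := hb
      have := F.p1 H ht a hx hy hz hu a1 a2 b1 b2 a3
      revert this b3
      cases a <;> cases b <;> simp [k0]
    by_cases hm : ∃ m ∈ T, cp m = cp t ∧ ix t < ix m ∧ ix m < ix t' ∧ ∃ c, Spl G Q (α c) m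
    · obtain ⟨m, hm, m1, m2, m3, c, hc⟩ := hm
      have h1 := ih (ix m - ix t).toNat (by omega) t ht m hm m1.symm (by omega) a c ha hc
      have h2 := ih (ix t' - ix m).toNat (by omega) m hm t' ht' (by omega) (by omega) c b hc hb
      revert h1 h2
      cases a <;> cases b <;> cases c <;> simp <;> omega
    by_contra hp
    obtain ⟨m, hm', m1, m2⟩ := L.cont t ht t' ht' e (ix t + 1) (by omega) (by omega)
    obtain ⟨n, hn, n1, n2⟩ := L.cont t ht t' ht' e (ix t' - 1) (by omega) (by omega)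
    obtain ⟨v, hv, v1, v2⟩ := L.jun t ht m hm' m1.symm m2.symm
    obtain ⟨u, hu, u1, u2⟩ := L.jun n hn t' ht' (by omega) (by omega)
    have b1 := (L.adj t ht v hv).1 v1
    have b2 := (L.adj n hn u hu).1 u1
    have b3 := (L.adj t' ht' u hu).1 u2
    have lv : ∀ s ∈ Q, ∀ j, C s = cp t → A s = 2 * j + 1 → ix t ≤ j → j < ix t' → wt α s = wt α v := by
      intro s hs j s1 s2 s3 s4
      by_contra hne
      by_cases j0 : j = ix t
      · exact hne (F.jc H ht hm' (by grind) hs hv ⟨(L.adj t ht s hs).2 (by omega),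
          (L.adj m hm' s hs).2 (by omega), v1, v2⟩)
      obtain ⟨r, hr, r1, r2⟩ := L.cont t ht t' ht' e j (by omega) (by omega)
      obtain ⟨p, hp, p1, p2, c, hc, d, hd, p3, p4, p5⟩ := L.step' (F.tw H) (fun a b => wt α a ≠ wt α b)
        (fun a b v h => by omega) (fun a b h => h) hr hm' (by omega) hs hv
        ((L.adj r hr s hs).2 (by omega)) v2 hne
      obtain ⟨i, hi⟩ := wt_ne p5
      exact hm ⟨p, hp, by omega, by omega, by omega, i, c, hc, d, hd, p3, p4, hi⟩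
    have lu := lv u hu (ix t' - 1) (by omega) (by omega) (by omega) (by omega)
    obtain ⟨x, hx, x1, x2⟩ : ∃ x ∈ Q, G.Adj t x ∧ α a x ≠ α a v := by
      obtain ⟨x, hx, y, hy, a1, a2, a3⟩ := ha
      grind
    obtain ⟨z, hz, z1, z2⟩ : ∃ x ∈ Q, G.Adj t' x ∧ α b x ≠ α b u := by
      obtain ⟨x, hx, y, hy, a1, a2, a3⟩ := hb
      grind
    refine F.pc2 H L ht ht' e e' (by omega) lv hx hz x1 z1 (a := a) (b := b) (fun s hs h => ?_)
      (fun s hs h => ?_) v fun h => absurd h hp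
    · have := F.wle hs hv a; omega
    · have := F.wle hs hu b; omega

theorem Cfg.col (H : Ok G) (F : Cfg G Q T D α) (L : Lab G Q T cp ix C A) : ∃ χ : V → Bool,
    (∀ t ∈ T, ¬ Spl G Q (α (χ t)) t) ∧ ∀ t ∈ T, ∀ t' ∈ T, t ≠ t' → χ t = χ t' → ∀ s ∈ Q,
      G.Adj t s → ¬ G.Adj t' s := by
  have : ∀ κ : ℤ, ∃ e : ℤ, ∀ t ∈ T, cp t = κ → ∀ a, Spl G Q (α a) t → (a = true ↔ (ix t + e) % 2 = 0) := by
    intro κ
    by_cases h : ∃ t ∈ T, cp t = κ ∧ ∃ a, Spl G Q (α a) t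
    swap
    · exact ⟨0, fun t ht e a ha => absurd ⟨t, ht, e, a, ha⟩ h⟩
    obtain ⟨t0, h0, e0, a0, ha0⟩ := h
    refine ⟨ix t0 + cond a0 0 1, fun t ht e a ha => ?_⟩
    rcases le_total (ix t) (ix t0) with h | h
    · have := F.par H L (ix t0 - ix t).toNat t ht t0 h0 (by omega) (by omega) a a0 ha ha0
      revert this
      cases a <;> cases a0 <;> simp <;> omega
    · have := F.par H L (ix t - ix t0).toNat t0 h0 t ht (by omega) (by omega) a0 a ha0 ha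
      revert this
      cases a <;> cases a0 <;> simp <;> omega
  choose e he using this
  refine ⟨fun t => decide ((ix t + e (cp t)) % 2 = 1), fun t ht h => ?_, fun t ht t' ht' ne h s hs a1 a2 => ?_⟩
  · have := he _ t ht rfl _ h
    simp only [decide_eq_true_eq] at this
    omega
  · have b1 := (L.adj t ht s hs).1 a1
    have b2 := (L.adj t' ht' s hs).1 a2
    have := L.inj t ht t' ht' (by omega)
    simp only [decide_eq_decide, show cp t' = cp t by omega] at h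
    grind

lemma exists_min [Fintype V] (Q : Set V) (C w : V → ℤ) : ∃ mn : ℤ → ℤ, ∀ s ∈ Q, mn (C s) ≤ w s ∧
    ∃ a ∈ Q, C a = C s ∧ w a = mn (C s) := by
  have : ∀ κ : ℤ, ∃ z : ℤ, ∀ s ∈ Q, C s = κ → z ≤ w s ∧ ∃ a ∈ Q, C a = κ ∧ w a = z := by
    intro κ
    by_cases h : {s | s ∈ Q ∧ C s = κ}.Nonempty
    · obtain ⟨a, ha, hm⟩ := Set.exists_min_image _ w (Set.toFinite _) h
      exact ⟨w a, fun s hs e => ⟨hm s ⟨hs, e⟩, a, ha.1, ha.2, rfl⟩⟩
    · exact ⟨0, fun s hs e => absurd ⟨s, hs, e⟩ h⟩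
  choose mn h using this
  exact ⟨mn, fun s hs => h _ s hs rfl⟩

lemma exists_rank5 [Fintype V] (a b c d : V → ℤ) : ∃ ρ : V → ℤ, (∀ s s', s ≠ s' → ρ s ≠ ρ s') ∧
    ∀ s s', (ρ s ≤ ρ s' → a s < a s' ∨ (a s = a s' ∧ (b s < b s' ∨ (b s = b s' ∧ c s ≤ c s')))) ∧
      (a s < a s' ∨ (a s = a s' ∧ b s = b s' ∧ (c s < c s' ∨ (c s = c s' ∧ d s < d s'))) → ρ s < ρ s') := by
  obtain ⟨id, -, idi⟩ := exists_id V
  obtain ⟨ρ, h1, h2⟩ := exists_rankZ fun s => toLex (a s, toLex (b s, toLex (c s, toLex (d s, id s))))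
  simp only [Prod.Lex.toLex_lt_toLex, toLex_inj, Prod.mk.injEq] at h1 h2
  refine ⟨ρ, fun s s' h e => idi s s' h ((h2 s s').1 e).2.2.2.2, fun s s' => ?_⟩
  have := h1 s s'
  have := h1 s' s
  omega

theorem Cfg.rho [Fintype V] (H : Ok G) (F : Cfg G Q T D α) (L : Lab G Q T cp ix C A) : ∃ ρ : V → ℤ,
    (∀ s s', s ≠ s' → ρ s ≠ ρ s') ∧ (∀ s ∈ Q, ∀ s' ∈ Q, wt α s < wt α s' → ρ s < ρ s') ∧
    ∀ t ∈ T, ∀ a ∈ Q, ∀ b ∈ Q, ∀ s ∈ Q, G.Adj t a → G.Adj t b → ρ a ≤ ρ s → ρ s ≤ ρ b → G.Adj t s := by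
  choose σ h1 h2 using L.mono (F.tw H)
  obtain ⟨mn, hmn⟩ := exists_min Q C (wt α)
  obtain ⟨mx, hmx⟩ := exists_min Q C fun v => - wt α v
  obtain ⟨ρ, r1, r2⟩ := exists_rank5 (fun s => mn (C s) - mx (C s)) C (fun s => σ (C s) * A s) (wt α)
  refine ⟨ρ, r1, fun s hs s' hs' h => (r2 s s').2 ?_, fun t ht a ha b hb s hs a1 a2 a3 a4 => ?_⟩
  · by_cases e : C s = C s'
    · have := h2 (C s) s' hs' s hs e.symm rfl
      rw [← e]
      omega
    · obtain ⟨c1, a, ha, a1, a2⟩ := hmn s' hs'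
      obtain ⟨c2, b, hb, b1, b2⟩ := hmx s hs
      have := (hmn s hs).1
      have := (hmx s' hs').1
      have := F.sep H L hs' ha hs hb a1.symm b1.symm (Ne.symm e) h
      omega
  · have b1 := (L.adj t ht a ha).1 a1
    have b2 := (L.adj t ht b hb).1 a2
    have c1 := (r2 a s).1 a3
    have c2 := (r2 s b).1 a4
    rw [b1.1] at c1
    rw [b2.1] at c2
    have e : C s = cp t := by omega
    rw [e] at c1 c2
    rw [L.adj t ht s hs]
    rcases h1 (cp t) with h | h <;> rw [h] at c1 c2 <;> omega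

theorem Cfg.cyc [Fintype V] (H : Ok G) (F : Cfg G Q T D α) {U : Set V}
    (cov : ∀ v, v ∈ Q ∨ v ∈ T ∨ (∃ i, v ∈ D i) ∨ v ∈ U) (hU : ∀ c ∈ U, ∀ s ∈ Q, G.Adj c s)
    (uT : ∀ c ∈ U, ∀ t ∈ T, ¬ G.Adj c t) {p : ℕ → V} {n : ℕ} (h : Cyc (ov G Q T) p n) :
    LinOn G Set.univ := by
  obtain ⟨n2, inj, adj⟩ := h
  obtain ⟨k, rfl⟩ : ∃ k, n = k + 1 := ⟨n - 1, by omega⟩
  have : ∀ j, ∃ v, j ≤ k + 1 → v ∈ Q ∧ p j ∈ T ∧ G.Adj (p j) v ∧
      G.Adj (p (if j = 0 then k + 1 else j - 1)) v := by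
    intro j
    by_cases hj : j ≤ k + 1
    · obtain ⟨-, h1, -, v, h2⟩ := (adj j (if j = 0 then k + 1 else j - 1) hj (by split_ifs <;> omega)).2
        (by split_ifs <;> omega)
      exact ⟨v, fun _ => ⟨h2.1, h1, h2.2⟩⟩
    · exact ⟨p 0, fun h => absurd h hj⟩
  choose y hy using this
  have pT : ∀ i, i ≤ k + 1 → p i ∈ T := fun i hi => (hy i hi).2.1
  have py : ∀ i j, i ≤ k + 1 → j ≤ k + 1 →
      (G.Adj (p i) (y j) ↔ j = i ∨ j = i + 1 ∨ (j = 0 ∧ i = k + 1)) := by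
    intro i j hi hj
    obtain ⟨a1, a2, a3, a4⟩ := hy j hj
    have hj' : (if j = 0 then k + 1 else j - 1) ≤ k + 1 := by split_ifs <;> omega
    have := F.t3 H (pT i hi) a2 (pT _ hj') a1
    have := inj _ _ hi hj
    have := inj _ _ hi hj'
    have := inj _ _ hj hj'
    grind
  have yy : ∀ i j, i < j → j ≤ k + 1 → G.Adj (y i) (y j) := by
    intro i j hi hj
    refine F.clq _ (hy i (by omega)).1 _ (hy j hj).1 fun e => ?_
    have := py i i
    have := py i j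
    have := py j i
    have := py j j
    grind
  have O : OS G p y k := ⟨by omega, fun i j hi hj => F.tt _ (pT i (by omega)) _ (pT j (by omega)),
    fun i j hi hj => by rw [py i j (by omega) hj]; omega, fun i j a b _ => yy i j a b⟩
  have key : ∀ c, ¬ (k % 2 = 1 → (∀ j, j ≤ k + 1 → G.Adj c (y j)) ∧ ∀ i, i ≤ k + 1 → ¬ G.Adj c (p i)) := by
    intro c hc
    have sy := G.adj_comm
    refine H.nb (badA O (p (k + 1)) c (yy _ _ (by omega) le_rfl) ⟨⟨fun i hi => F.tt _ (pT i (by omega)) _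
      (pT _ le_rfl), fun j _ _ => ?_⟩, ?_⟩ fun h => ⟨⟨⟨?_, ?_⟩, ?_⟩, ?_⟩)
    all_goals grind
  have kodd : k % 2 = 1 := by
    by_contra h
    exact key (p 0) fun h' => absurd h' h
  have nf : ∀ c, (∀ s ∈ Q, G.Adj c s) → (∀ t ∈ T, ¬ G.Adj c t) → False := fun c h1 h2 =>
    key c fun _ => ⟨fun j hj => h1 _ (hy j hj).1, fun i hi => h2 _ (pT i hi)⟩
  have qc : ∀ s ∈ Q, ∃ i, i ≤ k + 1 ∧ G.Adj (p i) s := by
    intro s hs
    by_contra hn
    push Not at hn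
    refine key s fun _ => ⟨fun j hj => F.clq s hs _ (hy j hj).1 ?_, fun i hi e => hn i hi e.symm⟩
    rintro rfl
    exact hn j hj (hy j hj).2.2.1
  have tc : ∀ t, ∃ i : ℕ, t ∈ T → i ≤ k + 1 ∧ p i = t := by
    intro t
    by_cases ht : t ∈ T
    swap
    · exact ⟨0, fun h => absurd h ht⟩
    obtain ⟨s, hs, a1⟩ := F.ne t ht
    obtain ⟨i, hi, a2⟩ := qc s hs
    by_contra hn
    push Not at hn
    have b1 : (if i = 0 then k + 1 else i - 1) ≤ k + 1 := by split_ifs <;> omega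
    have b2 : (if i = k + 1 then 0 else i + 1) ≤ k + 1 := by split_ifs <;> omega
    have := F.d3 H (w := p i) (x := t) ⟨(hn i).2 hi, pT i hi, ht, s, hs, a2, a1⟩
      ((adj i _ hi b1).2 (by split_ifs <;> omega)) ((adj i _ hi b2).2 (by split_ifs <;> omega))
    have := (hn _).2 b1
    have := (hn _).2 b2
    have := inj _ _ b1 b2
    grind
  choose I hI using tc
  have ac : ∀ s, ∃ a : ℤ, s ∈ Q → 0 ≤ a ∧ a < 2 * (k + 2) ∧ ∀ i : ℕ, i ≤ k + 1 → (G.Adj (p i) s ↔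
      (2 * (i : ℤ) - 1 ≤ a ∧ a ≤ 2 * i + 1) ∨ ((i : ℤ) = 0 ∧ a = 2 * (k + 2) - 1)) := by
    intro s
    by_cases hs : s ∈ Q
    swap
    · exact ⟨0, fun h => absurd h hs⟩
    obtain ⟨i, hi, a1⟩ := qc s hs
    by_cases h : ∃ j, j ≤ k + 1 ∧ j ≠ i ∧ G.Adj (p j) s
    · obtain ⟨j, hj, ne, a2⟩ := h
      have b := (adj i j hi hj).1 ⟨fun e => ne (inj _ _ hi hj e).symm, pT i hi, pT j hj, s, hs, a1, a2⟩
      have t3 : ∀ l, l ≤ k + 1 → (G.Adj (p l) s ↔ l = i ∨ l = j) := by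
        intro l hl
        have := F.t3 H (pT l hl) (pT i hi) (pT j hj) hs
        have := inj _ _ hl hi
        have := inj _ _ hl hj
        have := inj _ _ hi hj
        grind
      refine ⟨if i + 1 = j ∨ j + 1 = i then i + j else 2 * (k + 2) - 1, fun _ => ⟨?_, ?_, fun l hl => ?_⟩⟩
      · split_ifs <;> omega
      · split_ifs <;> omega
      · rw [t3 l hl]; split_ifs <;> omega
    · refine ⟨2 * i, fun _ => ⟨by omega, by omega, fun l hl => ?_⟩⟩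
      grind
  choose A hA using ac
  refine arr (Q := Q) (T := T) (n := k + 2) (ix := fun t => I t) (A := A) (by omega) (by omega) F.clq
    (fun v => ?_) F.tt (fun t ht => ?_) (fun t ht t' ht' ne e => ?_)
    (fun s hs => ⟨(hA s hs).1, (hA s hs).2.1⟩) fun t ht s hs => ?_
  · rcases cov v with h | h | ⟨i, h⟩ | h
    · exact Or.inl h
    · exact Or.inr h
    · obtain ⟨z, hz, z1⟩ := (F.sd i).full v h
      exact (nf z z1 fun t ht e => F.td t ht i z hz e.symm).elim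
    · exact (nf v (hU v h) (uT v h)).elim
  · have := hI t ht
    omega
  · have := hI t ht
    have := hI t' ht'
    grind
  · rw [← (hA s hs).2.2 _ (hI t ht).1, (hI t ht).2]

theorem Cfg.core [Fintype V] (H : Ok G) (F : Cfg G Q T D α) {U : Set V} (tq : ∀ t ∈ T, t ∉ Q)
    (cov : ∀ v, v ∈ Q ∨ v ∈ T ∨ (∃ i, v ∈ D i) ∨ v ∈ U) (hU : ∀ c ∈ U, ∀ s ∈ Q, G.Adj c s)
    (uq : ∀ c ∈ U, c ∉ Q) (uT : ∀ c ∈ U, ∀ t ∈ T, ¬ G.Adj c t) (uu : ∀ c ∈ U, ∀ t ∈ U, ¬ G.Adj c t)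
    (uD : ∀ c ∈ U, ∀ i, ∀ x ∈ D i, c ≠ x ∧ ¬ G.Adj c x) (dd : ∀ x ∈ D false, x ∉ D true)
    (td : ∀ t ∈ T, ∀ i, t ∉ D i) : LinOn G Set.univ := by
  by_cases nc : ∃ p n, Cyc (ov G Q T) p n
  · obtain ⟨p, n, h⟩ := nc
    exact F.cyc H cov hU uT h
  push Not at nc
  obtain ⟨cp, ix, C, A, L⟩ := F.lab H tq nc
  obtain ⟨χ, c1, c2⟩ := F.col H L
  obtain ⟨ρ, r1, r2, r3⟩ := F.rho H L
  have : ∀ t, ∃ lo hi, t ∈ T → lo ∈ Q ∧ hi ∈ Q ∧ G.Adj t lo ∧ G.Adj t hi ∧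
      ∀ s ∈ Q, (G.Adj t s ↔ ρ lo ≤ ρ s ∧ ρ s ≤ ρ hi) := by
    intro t
    by_cases ht : t ∈ T
    swap
    · exact ⟨t, t, fun h => absurd h ht⟩
    obtain ⟨lo, h1, h2⟩ := Set.exists_min_image {s | s ∈ Q ∧ G.Adj t s} ρ (Set.toFinite _) (F.ne t ht)
    obtain ⟨hi, h3, h4⟩ := Set.exists_max_image {s | s ∈ Q ∧ G.Adj t s} ρ (Set.toFinite _) (F.ne t ht)
    exact ⟨lo, hi, fun _ => ⟨h1.1, h3.1, h1.2, h3.2, fun s hs => ⟨fun h => ⟨h2 s ⟨hs, h⟩, h4 s ⟨hs, h⟩⟩,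
      fun h => r3 t ht lo h1.1 hi h3.1 s hs h1.2 h3.2 h.1 h.2⟩⟩⟩
  choose lo hi hl using this
  have ext : ∀ i, ∃ f g p : V → ℤ, Word G Q (D i ∪ {t | t ∈ T ∧ χ t = i}) f g p ∧
      ∀ s ∈ Q, ∀ s' ∈ Q, (ρ s < ρ s' → p s < p s') := by
    intro i
    obtain ⟨f, g, h⟩ := (F.sd i).side
    refine h.extend ρ lo hi (fun s hs s' hs' e => r2 s hs s' hs' ?_) ?_ ?_ ?_
      fun t ht t' ht' => F.tt t ht.1 t' ht'.1
    · have := F.wle hs hs' i; omega
    · rintro t ⟨ht, rfl⟩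
      obtain ⟨a1, a2, a3, a4, a5⟩ := hl t ht
      refine ⟨a1, a2, ?_, ((a5 _ a1).1 a3).2, a5⟩
      by_contra e
      exact c1 t ht ⟨_, a1, _, a2, a3, a4, e⟩
    · rintro t ⟨ht, e⟩ t' ⟨ht', e'⟩ ne
      obtain ⟨a1, a2, a3, a4, a5⟩ := hl t ht
      obtain ⟨b1, b2, b3, b4, b5⟩ := hl t' ht'
      have k := c2 t ht t' ht' ne (e.trans e'.symm)
      have := k _ a1
      have := k _ b1
      have := a5 _ a1
      have := a5 _ b1
      have := b5 _ a1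
      have := b5 _ b1
      grind
    · rintro c hc t ⟨ht, -⟩
      exact ⟨fun e => td t ht i (e ▸ hc), fun e => F.td t ht i c hc e.symm⟩
  obtain ⟨f, g, p, h1, h2⟩ := ext false
  obtain ⟨f', g', p', h3, h4⟩ := ext true
  have sy := G.adj_comm
  have an := F.an false
  have t1 := F.td
  have t2 := F.tt
  have ut : ∀ c ∈ U, c ∉ T := fun c hc ht => by
    obtain ⟨s, hs, h⟩ := F.prp c ht
    exact h (hU c hc s hs)
  simp only [Bool.not_false] at an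
  refine glue (U := U) F.clq h1 h3 (fun s _ s' _ => r1 s s') h2 h4 (fun v => ?_) ?_ ?_ uq ?_ ?_ ?_ uu hU
  · rcases cov v with h | h | ⟨i, h⟩ | h
    · exact Or.inl h
    · cases e : χ v
      · exact Or.inr (Or.inl (Or.inr ⟨h, e⟩))
      · exact Or.inr (Or.inr (Or.inl (Or.inr ⟨h, e⟩)))
    · cases i
      · exact Or.inr (Or.inl (Or.inl h))
      · exact Or.inr (Or.inr (Or.inl (Or.inl h)))
    · exact Or.inr (Or.inr (Or.inr h))
  · rintro c (h | h)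
    exacts [(F.sd _).dq c h, tq c h.1]
  · rintro c (h | h)
    exacts [(F.sd _).dq c h, tq c h.1]
  · rintro c (h | ⟨h, e⟩) c' (h' | ⟨h', e'⟩) <;> grind
  · rintro c (h | ⟨h, e⟩) c' h' <;> grind
  · rintro c (h | ⟨h, e⟩) c' h' <;> grind

end Pool.Agent.Lib.MP_d7353d_co
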