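import Pool.Agent.Lib.MP_d7353d_co.Defs

namespace Pool.Agent.Lib.MP_d7353d_co

/-- Chordal graph: no induced cycle of length at least four. -/
def IsChordal {V : Type} (G : SimpleGraph V) : Prop :=
  ∀ n, 4 ≤ n → IsEmpty (SimpleGraph.cycleGraph n ↪g G)

/-- The graph on `0, ..., L.length - 1` in which `a` is joined to the members of the `a`-th list. -/
def ofLists (L : List (List ℕ)) : SimpleGraph (Fin L.length) :=
  SimpleGraph.fromRel fun a b => b.val ∈ L.get a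

/-- The twenty sporadic graphs. -/
def sporadic : List (List (List ℕ)) :=
  [[[4,5,6], [3,5,6], [3,4,6], [4,5,6], [5,6], [6], []],
   [[5,6], [4,6], [3,6], [4,5,6], [5,6], [6], []],
   [[3,6,7], [2,5,7], [4,5,7], [4,6,7], [5,6,7], [6,7], [7], []],
   [[6,7], [5,7], [3,6], [4,6,7], [5,6,7], [6,7], [7], []],
   [[6,7], [4,7], [3,5,6], [5,6,7], [5,6,7], [6,7], [7], []],
   [[6,7], [4,5,7], [3,5,6], [5,6,7], [5,6,7], [6,7], [7], []],
   [[5,7], [4,7], [3,6], [6,7], [6,7], [6,7], [7], []],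
   [[5,7], [3,6], [5,6,7], [4,6,7], [5,6,7], [6,7], [7], []],
   [[3,7], [2,5,6], [5,6,7], [4,6,7], [5,6,7], [6,7], [7], []],
   [[6,7], [5,7], [3,4], [4,5,6], [5,6,7], [6,7], [7], []],
   [[4,6,7], [2,5,7], [3,5,6,7], [4,5,6,7], [5,6,7], [6,7], [7], []],
   [[6,7], [5,6,7], [3,4,7], [4,5,7], [5,6,7], [6,7], [7], []],
   [[5,7], [4,6,7], [3,6,7], [5,6,7], [5,6,7], [6,7], [7], []],
   [[5,7], [4,7], [3,7], [6,7], [6,7], [6,7], [7], []],
   [[5,6,7], [4,6,7], [3,5,7], [4,5,6,7], [5,6,7], [6,7], [7], []],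
   [[5,8], [4,7], [3,6], [6,7,8], [6,7,8], [6,7,8], [7,8], [8], []],
   [[5,8], [4,7], [3,6], [6,7,8], [5,6,7,8], [6,7,8], [7,8], [8], []],
   [[6,8], [5,7], [3,7,8], [4,7,8], [5,6,7,8], [6,7,8], [7,8], [8], []],
   [[6,8], [5,7], [4,7,8], [5,6,7,8], [5,6,7,8], [6,7,8], [7,8], [8], []],
   [[6,9], [5,8], [4,7], [7,8,9], [5,6,7,8,9], [6,7,8,9], [7,8,9], [8,9], [9], []]]

/-- The path `0, ..., N-1` plus a triangle `s = inr 0`, `t = inr 1`, `q = inr 2`; `s` and `t` are joined to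
all inner vertices of the path, `t` is joined to `0`, the end `N-1` is joined to `t` for odd `N` and to
`s` for even `N`; `q` has no neighbour on the path. -/
def famQ (N : ℕ) : SimpleGraph (Fin N ⊕ Fin 3) :=
  SimpleGraph.fromRel fun a b =>
    match a, b with
    | Sum.inl i, Sum.inl j => i.val + 1 = j.val
    | Sum.inl i, Sum.inr e =>
        (e = 0 ∧ 1 ≤ i.val ∧ (i.val + 1 < N ∨ Even N)) ∨ (e = 1 ∧ (i.val + 1 < N ∨ Odd N))
    | Sum.inr _, Sum.inl _ => False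
    | Sum.inr _, Sum.inr _ => True

/-- Tips `t 0, ..., t k`, vertices `y 0, ..., y (k+1)` and three extra vertices `q = 0`, `r = 1`, `c = 2`.
`t i` is joined to `y i` and `y (i+1)`; the `y j` are pairwise adjacent, except `y 0`, `y (k+1)` in type 1;
`q` is joined to `y 0`, `y (k+1)` (type 0), to `y 1, ..., y k` (type 2), to `y 0, ..., y k` (type 3);
`r` is joined to `y 1, ..., y (k+1)`; `c` is joined to every `y j` and, except in type 0, to `q` and `r`. -/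
def sunAll (τ : Fin 4) (k : ℕ) : SimpleGraph (Fin (k + 1) ⊕ Fin (k + 2) ⊕ Fin 3) :=
  SimpleGraph.fromRel fun a b =>
    match a, b with
    | Sum.inl i, Sum.inr (Sum.inl j) => j.val = i.val ∨ j.val = i.val + 1
    | Sum.inr (Sum.inl i), Sum.inr (Sum.inl j) => i.val < j.val ∧ ¬ (τ = 1 ∧ i.val = 0 ∧ j.val = k + 1)
    | Sum.inr (Sum.inr e), Sum.inr (Sum.inl j) =>
        (e = 0 ∧ τ = 0 ∧ (j.val = 0 ∨ j.val = k + 1)) ∨ (e = 0 ∧ τ = 2 ∧ 1 ≤ j.val ∧ j.val ≤ k) ∨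
          (e = 0 ∧ τ = 3 ∧ j.val ≤ k) ∨ (e = 1 ∧ 1 ≤ j.val) ∨ e = 2
    | Sum.inr (Sum.inr e), Sum.inr (Sum.inr _) => e = 2 ∧ τ ≠ 0
    | _, _ => False

/-- The sun-like graph of type `τ`: `q` is present except in type 1, `r` only in type 3, and `c` is present
for odd `k` in types 0, 1, 3 and for even `k` in type 2. -/
def sun (τ : Fin 4) (k : ℕ) :=
  (sunAll τ k).induce {v | (v = Sum.inr (Sum.inr 0) → τ ≠ 1) ∧ (v = Sum.inr (Sum.inr 1) → τ = 3) ∧
    (v = Sum.inr (Sum.inr 2) → (Odd k ↔ τ ≠ 2))}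

/-- The least admissible `k` for each type. -/
def sunMin : Fin 4 → ℕ := ![1, 3, 2, 1]

end Pool.Agent.Lib.MP_d7353d_co
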