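import Pool.Agent.Lib.MP_d7353d_co.ChBad

namespace Pool.Agent.Lib.MP_d7353d_co

def sunSet (τ : Fin 4) (k : ℕ) : Set (Fin (k + 1) ⊕ Fin (k + 2) ⊕ Fin 3) :=
  {v | ∀ e : Fin 3, v = Sum.inr (Sum.inr e) →
    (e.val = 0 → τ.val ≠ 1) ∧ (e.val = 1 → τ.val = 3) ∧ (e.val = 2 → (k % 2 = 1 ↔ τ.val ≠ 2))}

structure SF {V : Type} (G : SimpleGraph V) (S : Set V) (τ k : ℕ) (T Y X : ℕ → V) : Prop where
  tt : ∀ i j, ¬ G.Adj (T i) (T j)
  ty : ∀ i j, i ≤ k → j ≤ k + 1 → (G.Adj (T i) (Y j) ↔ j = i ∨ j = i + 1)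
  yy : ∀ i j, i ≤ k + 1 → j ≤ k + 1 → (G.Adj (Y i) (Y j) ↔
    i ≠ j ∧ ¬ (τ = 1 ∧ ((i = 0 ∧ j = k + 1) ∨ (j = 0 ∧ i = k + 1))))
  tx : ∀ i e, ¬ G.Adj (T i) (X e)
  xy : ∀ e j, e ≤ 2 → j ≤ k + 1 → (G.Adj (X e) (Y j) ↔ (e = 0 ∧ τ = 0 ∧ (j = 0 ∨ j = k + 1)) ∨
    (e = 0 ∧ τ = 2 ∧ 1 ≤ j ∧ j ≤ k) ∨ (e = 0 ∧ τ = 3 ∧ j ≤ k) ∨ (e = 1 ∧ 1 ≤ j) ∨ e = 2)
  xx : ∀ e e', e ≤ 2 → e' ≤ 2 → (G.Adj (X e) (X e') ↔ e ≠ e' ∧ (e = 2 ∨ e' = 2) ∧ τ ≠ 0)
  it : ∀ i j, i ≤ k → j ≤ k → T i = T j → i = j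
  iy : ∀ i j, i ≤ k + 1 → j ≤ k + 1 → Y i = Y j → i = j
  ix : X 0 ≠ X 1 ∧ X 0 ≠ X 2
  d1 : ∀ i j, T i ≠ Y j
  d2 : ∀ i j, T i ≠ X j
  d3 : ∀ i j, Y i ≠ X j
  m1 : ∀ i, T i ∈ S
  m2 : ∀ i, Y i ∈ S
  m3 : (τ ≠ 1 → X 0 ∈ S) ∧ (τ = 3 → X 1 ∈ S) ∧ ((k % 2 = 1 ↔ τ ≠ 2) → X 2 ∈ S)

lemma sun_sf (τ : Fin 4) (k : ℕ) : SF (sunAll τ k) (sunSet τ k) τ.val k
    (fun i => Sum.inl ⟨min i k, by omega⟩) (fun j => Sum.inr (Sum.inl ⟨min j (k + 1), by omega⟩))
    (fun e => Sum.inr (Sum.inr ⟨min e 2, by omega⟩)) := by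
  refine ⟨?_, ?_, ?_, ?_, ?_, ?_, ?_, ?_, by simp, by simp, by simp, by simp, by simp [sunSet],
    by simp [sunSet], by simp [sunSet]⟩
  all_goals
    intros
    simp only [sa_tt, sa_ty, sa_yy, sa_te, sa_ey, sa_ee, Sum.inl.injEq, Sum.inr.injEq, Fin.mk.injEq] at *
    first | omega | simp

theorem SF.no {V : Type} {G : SimpleGraph V} {S : Set V} {τ : Fin 4} {k : ℕ} {T Y X : ℕ → V}
    (F : SF G S τ.val k T Y X) (hk : sunMin τ ≤ k) (h : LinOn G S) : False := by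
  obtain ⟨β, N⟩ := naji_of_linOn h
  obtain ⟨tt, ty, yy, tx, xy, xx, it, iy, ix, d1, d2, d3, m1, m2, m3⟩ := F
  have sy := G.adj_comm
  have run : ∀ z i0, i0 ≤ k → (z ∈ S ∧ ∀ i, i0 ≤ i → i ≤ k → ¬ G.Adj (T i) z ∧ T i ≠ z) →
      (∀ i, i0 ≤ i → i < k → G.Adj (Y (i + 1)) z) →
      (∀ i, i0 ≤ i → i < k → (β (T i) z + β (T i) (Y (i + 2))) % 2 = 0) →
      (∀ i, i0 ≤ i → i < k → (β (T (i + 1)) z + β (T (i + 1)) (Y i)) % 2 = 0) →
      (β z (T i0) + β z (T k) + k + i0) % 2 = 0 := by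
    intro z i0 h0 ⟨hz, h1⟩ h2 h3 h4
    clear m3 xx xy yy
    have : ∀ d, i0 + d ≤ k → (β z (T i0) + β z (T (i0 + d)) + d) % 2 = 0 := by
      intro d
      induction d with
      | zero => intro _; simp only [Nat.add_zero]; omega
      | succ d ih =>
        intro hd
        have := ih (by omega)
        rw [← Nat.add_assoc]
        generalize hi : i0 + d = i at *
        have := h1 i (by omega) (by omega)
        have := h1 (i + 1) (by omega) (by omega)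
        have := h2 i (by omega) (by omega)
        have := N.n2 (Y (i + 1)) (T i) (T (i + 1)) (by grind)
        have := N.n2 (Y (i + 1)) (T i) z (by grind)
        have := N.n2 (Y (i + 1)) (T (i + 1)) z (by grind)
        have := N.n1 (T i) (T (i + 1)) (Y (i + 2)) (by grind)
        have := N.n1 (T (i + 1)) (T i) (Y i) (by grind)
        have := h3 i (by omega) (by omega)
        have := h4 i (by omega) (by omega)
        omega
    have := this (k - i0) (by omega)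
    rw [show i0 + (k - i0) = k by omega] at this
    omega
  fin_cases τ
  all_goals simp only at yy xy xx m3
  · have k1 : 1 ≤ k := hk
    by_cases par : k % 2 = 1
    · have := run (X 2) 0 (by omega) (by grind) (by grind) (fun i _ _ => N.n1 _ _ _ (by grind))
        (fun i _ _ => N.n1 _ _ _ (by grind))
      have := N.n1 (T k) (X 0) (Y 0) (by clear * - k1 par tt ty yy tx xy xx it iy ix d1 d2 d3 m1 m2 m3 sy; grind)
      have := N.n1 (X 0) (T 0) (Y 1) (by clear * - k1 par tt ty yy tx xy xx it iy ix d1 d2 d3 m1 m2 m3 sy; grind)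
      have := N.n2 (Y 0) (X 2) (T 0) (by clear * - k1 par tt ty yy tx xy xx it iy ix d1 d2 d3 m1 m2 m3 sy; grind)
      have := N.n1 (T k) (X 2) (Y 0) (by clear * - k1 par tt ty yy tx xy xx it iy ix d1 d2 d3 m1 m2 m3 sy; grind)
      have := N.n2 (Y 0) (X 2) (X 0) (by clear * - k1 par tt ty yy tx xy xx it iy ix d1 d2 d3 m1 m2 m3 sy; grind)
      have := N.n1 (X 0) (T k) (Y k) (by clear * - k1 par tt ty yy tx xy xx it iy ix d1 d2 d3 m1 m2 m3 sy; grind)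
      have := N.n1 (X 0) (Y 1) (Y k) (by clear * - k1 par tt ty yy tx xy xx it iy ix d1 d2 d3 m1 m2 m3 sy; grind)
      have := N.n2 (Y (k + 1)) (X 2) (T k) (by clear * - k1 par tt ty yy tx xy xx it iy ix d1 d2 d3 m1 m2 m3 sy; grind)
      have := N.n2 (Y (k + 1)) (X 0) (T k) (by clear * - k1 par tt ty yy tx xy xx it iy ix d1 d2 d3 m1 m2 m3 sy; grind)
      have := N.n2 (Y (k + 1)) (X 2) (X 0) (by clear * - k1 par tt ty yy tx xy xx it iy ix d1 d2 d3 m1 m2 m3 sy; grind)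
      have := N.n1 (T 0) (X 0) (Y (k + 1)) (by clear * - k1 par tt ty yy tx xy xx it iy ix d1 d2 d3 m1 m2 m3 sy; grind)
      have := N.n1 (T 0) (X 2) (Y (k + 1)) (by clear * - k1 par tt ty yy tx xy xx it iy ix d1 d2 d3 m1 m2 m3 sy; grind)
      have := N.n2 (Y 0) (X 0) (T 0) (by clear * - k1 par tt ty yy tx xy xx it iy ix d1 d2 d3 m1 m2 m3 sy; grind)
      clear run N; omega
    · have := run (Y 0) 1 (by omega) (by grind) (by grind) (fun i _ _ => N.n1 _ _ _ (by grind))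
        (fun i _ _ => N.n1 _ _ _ (by grind))
      have := N.n2 (Y 1) (T 0) (T 1) (by clear * - k1 par tt ty yy tx xy xx it iy ix d1 d2 d3 m1 m2 m3 sy; grind)
      have := N.n2 (Y (k + 1)) (X 0) (T k) (by clear * - k1 par tt ty yy tx xy xx it iy ix d1 d2 d3 m1 m2 m3 sy; grind)
      have := N.n1 (T 0) (Y 2) (Y (k + 1)) (by clear * - k1 par tt ty yy tx xy xx it iy ix d1 d2 d3 m1 m2 m3 sy; grind)
      have := N.n1 (X 0) (Y 1) (Y k) (by clear * - k1 par tt ty yy tx xy xx it iy ix d1 d2 d3 m1 m2 m3 sy; grind)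
      have := N.n1 (X 0) (T 0) (Y 1) (by clear * - k1 par tt ty yy tx xy xx it iy ix d1 d2 d3 m1 m2 m3 sy; grind)
      have := N.n2 (Y 0) (X 0) (Y 1) (by clear * - k1 par tt ty yy tx xy xx it iy ix d1 d2 d3 m1 m2 m3 sy; grind)
      have := N.n1 (T 0) (T 1) (Y 2) (by clear * - k1 par tt ty yy tx xy xx it iy ix d1 d2 d3 m1 m2 m3 sy; grind)
      have := N.n0 (Y 1) (Y (k + 1)) (by clear * - k1 par tt ty yy tx xy xx it iy ix d1 d2 d3 m1 m2 m3 sy; grind)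
      have := N.n1 (T k) (X 0) (Y 0) (by clear * - k1 par tt ty yy tx xy xx it iy ix d1 d2 d3 m1 m2 m3 sy; grind)
      have := N.n2 (Y 0) (X 0) (T 0) (by clear * - k1 par tt ty yy tx xy xx it iy ix d1 d2 d3 m1 m2 m3 sy; grind)
      have := N.n0 (Y 0) (Y 1) (by clear * - k1 par tt ty yy tx xy xx it iy ix d1 d2 d3 m1 m2 m3 sy; grind)
      have := N.n2 (Y (k + 1)) (X 0) (Y 1) (by clear * - k1 par tt ty yy tx xy xx it iy ix d1 d2 d3 m1 m2 m3 sy; grind)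
      have := N.n2 (Y 1) (T 0) (Y (k + 1)) (by clear * - k1 par tt ty yy tx xy xx it iy ix d1 d2 d3 m1 m2 m3 sy; grind)
      have := N.n1 (T 1) (T 0) (Y 0) (by clear * - k1 par tt ty yy tx xy xx it iy ix d1 d2 d3 m1 m2 m3 sy; grind)
      have := N.n2 (Y 1) (T 1) (Y 0) (by clear * - k1 par tt ty yy tx xy xx it iy ix d1 d2 d3 m1 m2 m3 sy; grind)
      have := N.n0 (Y 0) (Y (k + 1)) (by clear * - k1 par tt ty yy tx xy xx it iy ix d1 d2 d3 m1 m2 m3 sy; grind)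
      have := N.n2 (Y 0) (T 0) (Y (k + 1)) (by clear * - k1 par tt ty yy tx xy xx it iy ix d1 d2 d3 m1 m2 m3 sy; grind)
      have := N.n2 (Y (k + 1)) (T k) (Y 0) (by clear * - k1 par tt ty yy tx xy xx it iy ix d1 d2 d3 m1 m2 m3 sy; grind)
      have := N.n1 (T 0) (X 0) (Y (k + 1)) (by clear * - k1 par tt ty yy tx xy xx it iy ix d1 d2 d3 m1 m2 m3 sy; grind)
      have := N.n1 (X 0) (T k) (Y k) (by clear * - k1 par tt ty yy tx xy xx it iy ix d1 d2 d3 m1 m2 m3 sy; grind)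
      clear run N; omega
  · have k1 : 3 ≤ k := hk
    by_cases par : k % 2 = 1
    · have := run (X 2) 0 (by omega) (by grind) (by grind) (fun i _ _ => N.n1 _ _ _ (by grind))
        (fun i _ _ => N.n1 _ _ _ (by grind))
      have := N.n2 (Y (k + 1)) (X 2) (T k) (by clear * - k1 par tt ty yy tx xy xx it iy ix d1 d2 d3 m1 m2 m3 sy; grind)
      have := N.n2 (Y k) (T k) (Y 0) (by clear * - k1 par tt ty yy tx xy xx it iy ix d1 d2 d3 m1 m2 m3 sy; grind)
      have := N.n0 (Y 1) (Y (k + 1)) (by clear * - k1 par tt ty yy tx xy xx it iy ix d1 d2 d3 m1 m2 m3 sy; grind)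
      have := N.n0 (Y 1) (Y k) (by clear * - k1 par tt ty yy tx xy xx it iy ix d1 d2 d3 m1 m2 m3 sy; grind)
      have := N.n1 (T k) (X 2) (Y 0) (by clear * - k1 par tt ty yy tx xy xx it iy ix d1 d2 d3 m1 m2 m3 sy; grind)
      have := N.n2 (Y 0) (X 2) (T 0) (by clear * - k1 par tt ty yy tx xy xx it iy ix d1 d2 d3 m1 m2 m3 sy; grind)
      have := N.n2 (Y 0) (T 0) (Y k) (by clear * - k1 par tt ty yy tx xy xx it iy ix d1 d2 d3 m1 m2 m3 sy; grind)
      have := N.n1 (T 0) (X 2) (Y (k + 1)) (by clear * - k1 par tt ty yy tx xy xx it iy ix d1 d2 d3 m1 m2 m3 sy; grind)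
      have := N.n0 (Y 0) (Y k) (by clear * - k1 par tt ty yy tx xy xx it iy ix d1 d2 d3 m1 m2 m3 sy; grind)
      have := N.n2 (Y 1) (T 0) (Y (k + 1)) (by clear * - k1 par tt ty yy tx xy xx it iy ix d1 d2 d3 m1 m2 m3 sy; grind)
      have := N.n1 (Y 0) (T k) (Y (k + 1)) (by clear * - k1 par tt ty yy tx xy xx it iy ix d1 d2 d3 m1 m2 m3 sy; grind)
      have := N.n0 (X 2) (Y (k + 1)) (by clear * - k1 par tt ty yy tx xy xx it iy ix d1 d2 d3 m1 m2 m3 sy; grind)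
      have := N.n2 (Y (k + 1)) (T k) (Y 1) (by clear * - k1 par tt ty yy tx xy xx it iy ix d1 d2 d3 m1 m2 m3 sy; grind)
      have := N.n2 (Y 1) (T 0) (Y k) (by clear * - k1 par tt ty yy tx xy xx it iy ix d1 d2 d3 m1 m2 m3 sy; grind)
      have := N.n2 (Y k) (T k) (Y 1) (by clear * - k1 par tt ty yy tx xy xx it iy ix d1 d2 d3 m1 m2 m3 sy; grind)
      have := N.n2 (X 2) (Y 0) (Y (k + 1)) (by clear * - k1 par tt ty yy tx xy xx it iy ix d1 d2 d3 m1 m2 m3 sy; grind)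
      have := N.n0 (X 2) (Y 0) (by clear * - k1 par tt ty yy tx xy xx it iy ix d1 d2 d3 m1 m2 m3 sy; grind)
      have := N.n1 (Y (k + 1)) (T 0) (Y 0) (by clear * - k1 par tt ty yy tx xy xx it iy ix d1 d2 d3 m1 m2 m3 sy; grind)
      clear run N; omega
    · have := run (Y 0) 1 (by omega) (by grind) (by grind) (fun i _ _ => ?_)
        (fun i _ _ => N.n1 _ _ _ (by grind))
      swap
      · by_cases e : i + 1 = k
        · have := N.n1 (T i) (Y 0) (Y 1) (by grind)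
          have := N.n1 (T i) (Y 1) (Y (i + 2)) (by grind)
          clear run N; omega
        · exact N.n1 _ _ _ (by grind)
      have := N.n1 (T 0) (Y 2) (Y (k + 1)) (by clear * - k1 par tt ty yy tx xy xx it iy ix d1 d2 d3 m1 m2 m3 sy; grind)
      have := N.n2 (Y 1) (Y 0) (Y (k + 1)) (by clear * - k1 par tt ty yy tx xy xx it iy ix d1 d2 d3 m1 m2 m3 sy; grind)
      have := N.n1 (Y (k + 1)) (T 0) (Y 0) (by clear * - k1 par tt ty yy tx xy xx it iy ix d1 d2 d3 m1 m2 m3 sy; grind)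
      have := N.n1 (T 0) (T 1) (Y 2) (by clear * - k1 par tt ty yy tx xy xx it iy ix d1 d2 d3 m1 m2 m3 sy; grind)
      have := N.n2 (Y 1) (T 1) (Y 0) (by clear * - k1 par tt ty yy tx xy xx it iy ix d1 d2 d3 m1 m2 m3 sy; grind)
      have := N.n1 (T 1) (T 0) (Y 0) (by clear * - k1 par tt ty yy tx xy xx it iy ix d1 d2 d3 m1 m2 m3 sy; grind)
      have := N.n2 (Y 1) (T 0) (T 1) (by clear * - k1 par tt ty yy tx xy xx it iy ix d1 d2 d3 m1 m2 m3 sy; grind)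
      have := N.n1 (Y 0) (T k) (Y (k + 1)) (by clear * - k1 par tt ty yy tx xy xx it iy ix d1 d2 d3 m1 m2 m3 sy; grind)
      have := N.n2 (Y 1) (T 0) (Y (k + 1)) (by clear * - k1 par tt ty yy tx xy xx it iy ix d1 d2 d3 m1 m2 m3 sy; grind)
      clear run N; omega
  · have k1 : 2 ≤ k := hk
    by_cases par : k % 2 = 0
    · have := run (X 2) 0 (by omega) (by grind) (by grind) (fun i _ _ => N.n1 _ _ _ (by grind))
        (fun i _ _ => N.n1 _ _ _ (by grind))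
      have := N.n1 (T 0) (X 2) (X 0) (by clear * - k1 par tt ty yy tx xy xx it iy ix d1 d2 d3 m1 m2 m3 sy; grind)
      have := N.n1 (X 0) (Y 0) (Y (k + 1)) (by clear * - k1 par tt ty yy tx xy xx it iy ix d1 d2 d3 m1 m2 m3 sy; grind)
      have := N.n2 (X 2) (X 0) (Y (k + 1)) (by clear * - k1 par tt ty yy tx xy xx it iy ix d1 d2 d3 m1 m2 m3 sy; grind)
      have := N.n2 (Y 0) (X 2) (T 0) (by clear * - k1 par tt ty yy tx xy xx it iy ix d1 d2 d3 m1 m2 m3 sy; grind)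
      have := N.n2 (Y k) (X 0) (T k) (by clear * - k1 par tt ty yy tx xy xx it iy ix d1 d2 d3 m1 m2 m3 sy; grind)
      have := N.n2 (Y 1) (T 0) (Y (k + 1)) (by clear * - k1 par tt ty yy tx xy xx it iy ix d1 d2 d3 m1 m2 m3 sy; grind)
      have := N.n1 (X 0) (T k) (Y (k + 1)) (by clear * - k1 par tt ty yy tx xy xx it iy ix d1 d2 d3 m1 m2 m3 sy; grind)
      have := N.n1 (T k) (X 2) (X 0) (by clear * - k1 par tt ty yy tx xy xx it iy ix d1 d2 d3 m1 m2 m3 sy; grind)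
      have := N.n2 (X 2) (X 0) (Y 0) (by clear * - k1 par tt ty yy tx xy xx it iy ix d1 d2 d3 m1 m2 m3 sy; grind)
      have := N.n0 (Y 0) (Y (k + 1)) (by clear * - k1 par tt ty yy tx xy xx it iy ix d1 d2 d3 m1 m2 m3 sy; grind)
      have := N.n1 (X 0) (T 0) (Y 0) (by clear * - k1 par tt ty yy tx xy xx it iy ix d1 d2 d3 m1 m2 m3 sy; grind)
      have := N.n2 (Y 0) (T 0) (Y (k + 1)) (by clear * - k1 par tt ty yy tx xy xx it iy ix d1 d2 d3 m1 m2 m3 sy; grind)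
      have := N.n2 (Y (k + 1)) (T k) (Y 0) (by clear * - k1 par tt ty yy tx xy xx it iy ix d1 d2 d3 m1 m2 m3 sy; grind)
      have := N.n2 (Y k) (T k) (Y 0) (by clear * - k1 par tt ty yy tx xy xx it iy ix d1 d2 d3 m1 m2 m3 sy; grind)
      have := N.n0 (X 2) (Y 0) (by clear * - k1 par tt ty yy tx xy xx it iy ix d1 d2 d3 m1 m2 m3 sy; grind)
      have := N.n2 (Y (k + 1)) (X 2) (T k) (by clear * - k1 par tt ty yy tx xy xx it iy ix d1 d2 d3 m1 m2 m3 sy; grind)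
      have := N.n2 (Y 1) (X 0) (T 0) (by clear * - k1 par tt ty yy tx xy xx it iy ix d1 d2 d3 m1 m2 m3 sy; grind)
      have := N.n0 (X 2) (Y (k + 1)) (by clear * - k1 par tt ty yy tx xy xx it iy ix d1 d2 d3 m1 m2 m3 sy; grind)
      have := N.n2 (Y k) (X 0) (Y 0) (by clear * - k1 par tt ty yy tx xy xx it iy ix d1 d2 d3 m1 m2 m3 sy; grind)
      have := N.n2 (Y 1) (X 0) (Y (k + 1)) (by clear * - k1 par tt ty yy tx xy xx it iy ix d1 d2 d3 m1 m2 m3 sy; grind)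
      clear run N; omega
    · have := run (X 0) 0 (by omega) (by grind) (by grind) (fun i _ _ => ?_) (fun i _ _ => ?_)
      rotate_left
      · by_cases e : i + 1 = k
        · have := N.n1 (T i) (X 0) (Y 1) (by grind)
          have := N.n1 (T i) (Y 1) (Y (i + 2)) (by grind)
          clear run N; omega
        · exact N.n1 _ _ _ (by grind)
      · by_cases e : i = 0
        · have := N.n1 (T (i + 1)) (X 0) (Y k) (by grind)
          have := N.n1 (T (i + 1)) (Y k) (Y i) (by grind)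
          clear run N; omega
        · exact N.n1 _ _ _ (by grind)
      have := N.n1 (X 0) (Y 0) (Y (k + 1)) (by clear * - k1 par tt ty yy tx xy xx it iy ix d1 d2 d3 m1 m2 m3 sy; grind)
      have := N.n1 (X 0) (T k) (Y (k + 1)) (by clear * - k1 par tt ty yy tx xy xx it iy ix d1 d2 d3 m1 m2 m3 sy; grind)
      have := N.n1 (X 0) (T 0) (Y 0) (by clear * - k1 par tt ty yy tx xy xx it iy ix d1 d2 d3 m1 m2 m3 sy; grind)
      clear run N; omega
  · have k1 : 1 ≤ k := hk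
    by_cases par : k % 2 = 1
    · have := run (X 2) 0 (by omega) (by grind) (by grind) (fun i _ _ => N.n1 _ _ _ (by grind))
        (fun i _ _ => N.n1 _ _ _ (by grind))
      have := N.n1 (X 1) (T 0) (Y 0) (by clear * - k1 par tt ty yy tx xy xx it iy ix d1 d2 d3 m1 m2 m3 sy; grind)
      have := N.n0 (Y 0) (Y (k + 1)) (by clear * - k1 par tt ty yy tx xy xx it iy ix d1 d2 d3 m1 m2 m3 sy; grind)
      have := N.n2 (Y 1) (X 0) (T 0) (by clear * - k1 par tt ty yy tx xy xx it iy ix d1 d2 d3 m1 m2 m3 sy; grind)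
      have := N.n2 (Y 1) (X 1) (T 0) (by clear * - k1 par tt ty yy tx xy xx it iy ix d1 d2 d3 m1 m2 m3 sy; grind)
      have := N.n2 (Y k) (X 1) (T k) (by clear * - k1 par tt ty yy tx xy xx it iy ix d1 d2 d3 m1 m2 m3 sy; grind)
      have := N.n0 (X 2) (Y 0) (by clear * - k1 par tt ty yy tx xy xx it iy ix d1 d2 d3 m1 m2 m3 sy; grind)
      have := N.n2 (Y k) (X 0) (X 1) (by clear * - k1 par tt ty yy tx xy xx it iy ix d1 d2 d3 m1 m2 m3 sy; grind)
      have := N.n2 (X 2) (X 0) (X 1) (by clear * - k1 par tt ty yy tx xy xx it iy ix d1 d2 d3 m1 m2 m3 sy; grind)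
      have := N.n1 (X 1) (X 0) (Y 0) (by clear * - k1 par tt ty yy tx xy xx it iy ix d1 d2 d3 m1 m2 m3 sy; grind)
      have := N.n2 (Y 0) (X 2) (T 0) (by clear * - k1 par tt ty yy tx xy xx it iy ix d1 d2 d3 m1 m2 m3 sy; grind)
      have := N.n1 (T 0) (X 2) (X 1) (by clear * - k1 par tt ty yy tx xy xx it iy ix d1 d2 d3 m1 m2 m3 sy; grind)
      have := N.n2 (Y k) (X 0) (T k) (by clear * - k1 par tt ty yy tx xy xx it iy ix d1 d2 d3 m1 m2 m3 sy; grind)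
      have := N.n2 (X 2) (X 1) (Y 0) (by clear * - k1 par tt ty yy tx xy xx it iy ix d1 d2 d3 m1 m2 m3 sy; grind)
      have := N.n1 (X 0) (T k) (Y (k + 1)) (by clear * - k1 par tt ty yy tx xy xx it iy ix d1 d2 d3 m1 m2 m3 sy; grind)
      have := N.n2 (Y 1) (X 0) (X 1) (by clear * - k1 par tt ty yy tx xy xx it iy ix d1 d2 d3 m1 m2 m3 sy; grind)
      have := N.n0 (X 2) (Y (k + 1)) (by clear * - k1 par tt ty yy tx xy xx it iy ix d1 d2 d3 m1 m2 m3 sy; grind)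
      have := N.n2 (Y (k + 1)) (X 1) (T k) (by clear * - k1 par tt ty yy tx xy xx it iy ix d1 d2 d3 m1 m2 m3 sy; grind)
      have := N.n2 (Y 0) (X 0) (Y (k + 1)) (by clear * - k1 par tt ty yy tx xy xx it iy ix d1 d2 d3 m1 m2 m3 sy; grind)
      have := N.n1 (X 0) (X 1) (Y (k + 1)) (by clear * - k1 par tt ty yy tx xy xx it iy ix d1 d2 d3 m1 m2 m3 sy; grind)
      have := N.n1 (T k) (X 2) (X 0) (by clear * - k1 par tt ty yy tx xy xx it iy ix d1 d2 d3 m1 m2 m3 sy; grind)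
      have := N.n2 (Y 0) (X 0) (T 0) (by clear * - k1 par tt ty yy tx xy xx it iy ix d1 d2 d3 m1 m2 m3 sy; grind)
      have := N.n2 (X 2) (X 0) (Y (k + 1)) (by clear * - k1 par tt ty yy tx xy xx it iy ix d1 d2 d3 m1 m2 m3 sy; grind)
      have := N.n2 (Y (k + 1)) (X 1) (Y 0) (by clear * - k1 par tt ty yy tx xy xx it iy ix d1 d2 d3 m1 m2 m3 sy; grind)
      have := N.n2 (Y (k + 1)) (X 2) (T k) (by clear * - k1 par tt ty yy tx xy xx it iy ix d1 d2 d3 m1 m2 m3 sy; grind)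
      clear run N; omega
    · have := run (X 0) 0 (by omega) (by grind) (by grind) (fun i _ _ => ?_)
        (fun i _ _ => N.n1 _ _ _ (by grind))
      swap
      · by_cases e : i + 1 = k
        · have := N.n1 (T i) (X 0) (Y 0) (by grind)
          have := N.n1 (T i) (Y 0) (Y (i + 2)) (by grind)
          clear run N; omega
        · exact N.n1 _ _ _ (by grind)
      have := N.n1 (X 0) (T k) (Y (k + 1)) (by clear * - k1 par tt ty yy tx xy xx it iy ix d1 d2 d3 m1 m2 m3 sy; grind)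
      have := N.n1 (T 0) (X 1) (Y k) (by clear * - k1 par tt ty yy tx xy xx it iy ix d1 d2 d3 m1 m2 m3 sy; grind)
      have := N.n1 (X 1) (X 0) (Y 0) (by clear * - k1 par tt ty yy tx xy xx it iy ix d1 d2 d3 m1 m2 m3 sy; grind)
      have := N.n2 (Y 1) (X 1) (T 0) (by clear * - k1 par tt ty yy tx xy xx it iy ix d1 d2 d3 m1 m2 m3 sy; grind)
      have := N.n1 (T 0) (X 0) (Y k) (by clear * - k1 par tt ty yy tx xy xx it iy ix d1 d2 d3 m1 m2 m3 sy; grind)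
      have := N.n2 (Y 1) (X 0) (T 0) (by clear * - k1 par tt ty yy tx xy xx it iy ix d1 d2 d3 m1 m2 m3 sy; grind)
      have := N.n2 (Y 1) (X 0) (X 1) (by clear * - k1 par tt ty yy tx xy xx it iy ix d1 d2 d3 m1 m2 m3 sy; grind)
      have := N.n1 (X 0) (X 1) (Y (k + 1)) (by clear * - k1 par tt ty yy tx xy xx it iy ix d1 d2 d3 m1 m2 m3 sy; grind)
      have := N.n1 (X 1) (T 0) (Y 0) (by clear * - k1 par tt ty yy tx xy xx it iy ix d1 d2 d3 m1 m2 m3 sy; grind)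
      clear run N; omega

end Pool.Agent.Lib.MP_d7353d_co
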