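import Pool.Agent.Lib.MP_d7353d_co.Core

namespace Pool.Agent.Lib.MP_d7353d_co

variable {V : Type} {G : SimpleGraph V}

theorem sysN (h : IsCircle G) : ∃ β : V → V → ℕ, (∀ a b, G.Adj a b → (β a b + β b a) % 2 = 1) ∧
    ∀ a c x y, (a ≠ c ∧ ¬ G.Adj a c ∧ G.Adj x a ∧ G.Adj x c ∧ G.Adj y a ∧ G.Adj y c) →
      (β x a + β x c + β y a + β y c) % 2 = 0 := by
  obtain ⟨β, h1, h2⟩ := sys_of_lin (lin_of_circle h)
  have k1 : ∀ p q : ZMod 2, p + q = 1 → (p.val + q.val) % 2 = 1 := by decide
  have k2 : ∀ p q r s : ZMod 2, p + q = r + s → (p.val + q.val + r.val + s.val) % 2 = 0 := by decide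
  exact ⟨fun a b => (β a b).val, fun a b hab => k1 _ _ (h1 a b hab),
    fun a c x y ⟨e1, e2, e3, e4, e5, e6⟩ => k2 _ _ _ _ (h2 a c x y e1 e2 e3 e4 e5 e6)⟩

instance decInt (I : Fin 8 → ℕ × ℕ) : DecidableRel (intGraph I).Adj :=
  fun a b => decidable_of_iff _ (intGraph_adj I a b).symm

theorem spor_not_circle (i : Fin 6) : ¬ IsCircle (intGraph (spor i)) := by
  intro h
  obtain ⟨β, h1, h2⟩ := sysN h
  fin_cases i
  · have := h2 0 4 1 3 (by decide)
    have := h2 0 5 1 2 (by decide)
    have := h2 0 6 2 3 (by decide)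
    have := h2 1 6 3 4 (by decide)
    have := h2 1 7 3 5 (by decide)
    have := h2 2 7 5 6 (by decide)
    have := h2 4 7 3 6 (by decide)
    have := h1 1 4 (by decide)
    have := h1 1 5 (by decide)
    have := h1 2 5 (by decide)
    have := h1 2 6 (by decide)
    have := h1 4 6 (by decide)
    omega
  · have := h2 0 3 1 2 (by decide)
    have := h2 0 4 1 2 (by decide)
    have := h2 1 5 2 3 (by decide)
    have := h2 1 6 2 4 (by decide)
    have := h2 2 7 4 5 (by decide)
    have := h2 3 6 2 4 (by decide)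
    have := h2 3 7 4 5 (by decide)
    have := h1 1 3 (by decide)
    have := h1 1 4 (by decide)
    have := h1 2 4 (by decide)
    have := h1 2 5 (by decide)
    have := h1 3 5 (by decide)
    omega
  · have := h2 0 3 1 2 (by decide)
    have := h2 0 4 1 2 (by decide)
    have := h2 1 6 4 5 (by decide)
    have := h2 2 7 4 6 (by decide)
    have := h2 3 5 1 4 (by decide)
    have := h2 3 6 2 4 (by decide)
    have := h2 5 7 4 6 (by decide)
    have := h1 1 4 (by decide)
    have := h1 1 5 (by decide)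
    have := h1 2 4 (by decide)
    have := h1 2 6 (by decide)
    have := h1 5 6 (by decide)
    omega
  · have := h2 0 3 1 2 (by decide)
    have := h2 0 4 1 2 (by decide)
    have := h2 1 6 2 4 (by decide)
    have := h2 1 7 2 5 (by decide)
    have := h2 3 5 1 4 (by decide)
    have := h2 3 6 2 4 (by decide)
    have := h2 4 7 2 5 (by decide)
    have := h1 1 4 (by decide)
    have := h1 1 5 (by decide)
    have := h1 4 5 (by decide)
    omega
  · have := h2 0 3 1 2 (by decide)
    have := h2 0 4 1 2 (by decide)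
    have := h2 1 6 2 4 (by decide)
    have := h2 1 7 2 5 (by decide)
    have := h2 3 5 1 4 (by decide)
    have := h2 3 6 2 4 (by decide)
    have := h2 4 7 2 5 (by decide)
    have := h1 1 4 (by decide)
    have := h1 1 5 (by decide)
    have := h1 4 5 (by decide)
    omega
  · have := h2 0 4 2 3 (by decide)
    have := h2 0 5 2 3 (by decide)
    have := h2 1 5 3 4 (by decide)
    have := h2 1 6 3 4 (by decide)
    have := h2 2 6 3 4 (by decide)
    have := h2 2 7 3 5 (by decide)
    have := h2 4 7 3 5 (by decide)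
    have := h1 2 4 (by decide)
    have := h1 2 5 (by decide)
    have := h1 4 5 (by decide)
    omega

theorem fam_not_circle {N : ℕ} (hN : 6 ≤ N) : ¬ IsCircle (fam N) := by
  intro h
  obtain ⟨β, h1, h2⟩ := sysN h
  let P : ℕ → Fin N ⊕ Bool := fun i => Sum.inl ⟨min i (N - 1), by omega⟩
  let s : Fin N ⊕ Bool := Sum.inr false
  let t : Fin N ⊕ Bool := Sum.inr true
  have pp : ∀ i j, i < N → j < N → ((fam N).Adj (P i) (P j) ↔ i + 1 = j ∨ j + 1 = i) := by
    intro i j hi hj; simp only [P, fam_ll]; omega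
  have pn : ∀ i j, i < N → j < N → (P i ≠ P j ↔ i ≠ j) := by
    intro i j hi hj; simp only [P, ne_eq, Sum.inl.injEq, Fin.ext_iff]; omega
  have ps : ∀ i, i < N → ((fam N).Adj (P i) s ↔ 1 ≤ i ∧ (i + 1 < N ∨ N % 2 = 1)) := by
    intro i hi; simp only [P, s, fam_ls]; omega
  have sp : ∀ i, i < N → ((fam N).Adj s (P i) ↔ 1 ≤ i ∧ (i + 1 < N ∨ N % 2 = 1)) := by
    intro i hi; simp only [P, s, fam_sl]; omega
  have pt' : ∀ i, i < N → ((fam N).Adj (P i) t ↔ (i + 1 < N ∨ N % 2 = 0)) := by
    intro i hi; simp only [P, t, fam_lt]; omega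
  have tp : ∀ i, i < N → ((fam N).Adj t (P i) ↔ (i + 1 < N ∨ N % 2 = 0)) := by
    intro i hi; simp only [P, t, fam_tl]; omega
  have st : (fam N).Adj s t := by simp [s, t, fam_rr]
  have ns : ∀ i, P i ≠ s := fun i => by simp [P, s]
  have nt : ∀ i, P i ≠ t := fun i => by simp [P, t]
  have d1 : ∀ i j, 1 ≤ i → i + 2 ≤ j → j + 1 < N →
      (β t (P i) + β t (P j) + β s (P i) + β s (P j)) % 2 = 0 := by
    intro i j a1 a2 a3
    apply h2
    rw [pn _ _ (by omega) (by omega), pp _ _ (by omega) (by omega), tp _ (by omega), tp _ (by omega),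
      sp _ (by omega), sp _ (by omega)]
    omega
  have d2 : ∀ i, 1 ≤ i → i + 1 < N → (β t (P i) + β s (P i)) % 2 = (β t (P 1) + β s (P 1)) % 2 := by
    intro i a1 a2
    by_cases i3 : 3 ≤ i
    · have := d1 1 i le_rfl i3 a2; omega
    · by_cases i1 : i = 1
      · rw [i1]
      · obtain rfl : i = 2 := by omega
        have := d1 1 4 le_rfl (by omega) (by omega)
        have := d1 2 4 (by omega) (by omega) (by omega)
        omega
  have q : ∀ i, i + 1 < N → (β (P i) (P (i + 1)) + β (P (i + 1)) (P i)) % 2 = 1 := by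
    intro i hi
    apply h1
    rw [pp _ _ (by omega) (by omega)]; omega
  have al : ∀ x, ∀ i, i + 2 < N → (fam N).Adj x (P i) → (fam N).Adj x (P (i + 2)) →
      (β x (P i) + β x (P (i + 2)) + β (P (i + 1)) (P i) + β (P (i + 1)) (P (i + 2))) % 2 = 0 := by
    intro x i hi a1 a2
    apply h2
    refine ⟨?_, ?_, a1, a2, ?_, ?_⟩
    · rw [pn _ _ (by omega) (by omega)]; omega
    all_goals rw [pp _ _ (by omega) (by omega)]; omega
  have e : ∀ i, i + 2 < N → (β t (P i) + β (P i) (P (i + 1)) + β t (P (i + 1))) % 2 =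
      (β t (P 0) + β (P 0) (P 1) + β t (P 1) + i) % 2 := by
    intro i
    induction i with
    | zero => intro _; rfl
    | succ i ih =>
      intro hi
      have := ih (by omega)
      have := q i (by omega)
      have := al t i (by omega) ((tp _ (by omega)).2 (by omega)) ((tp _ (by omega)).2 (by omega))
      rw [show i + 1 + 1 = i + 2 by omega]
      omega
  have E1 := h2 (P 0) s t (P 1) ⟨ns _, by rw [ps _ (by omega)]; omega, by rw [tp _ (by omega)]; omega,
    st.symm, by rw [pp _ _ (by omega) (by omega)]; omega, by rw [ps _ (by omega)]; omega⟩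
  obtain ⟨m, hm⟩ : ∃ m, N = m + 3 := ⟨N - 3, by omega⟩
  have := e m (by omega)
  have := q 0 (by omega)
  have := q m (by omega)
  have := q (m + 1) (by omega)
  have := d2 m (by omega) (by omega)
  have := d2 (m + 1) (by omega) (by omega)
  have := h1 s t st
  have := h1 s (P 1) ((sp _ (by omega)).2 (by omega))
  have := h1 s (P (m + 1)) ((sp _ (by omega)).2 (by omega))
  have := h1 t (P (m + 1)) ((tp _ (by omega)).2 (by omega))
  simp only [Nat.zero_add, show m + 1 + 1 = m + 2 by omega] at *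
  by_cases hp : N % 2 = 1
  · have := al s m (by omega) ((sp _ (by omega)).2 (by omega)) ((sp _ (by omega)).2 (by omega))
    have := h2 (P (m + 2)) t s (P (m + 1)) ⟨nt _, by rw [pt' _ (by omega)]; omega,
      by rw [sp _ (by omega)]; omega, st, by rw [pp _ _ (by omega) (by omega)]; omega,
      by rw [pt' _ (by omega)]; omega⟩
    omega
  · have := al t m (by omega) ((tp _ (by omega)).2 (by omega)) ((tp _ (by omega)).2 (by omega))
    have := h2 (P (m + 2)) s t (P (m + 1)) ⟨ns _, by rw [ps _ (by omega)]; omega,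
      by rw [tp _ (by omega)]; omega, st.symm, by rw [pp _ _ (by omega) (by omega)]; omega,
      by rw [ps _ (by omega)]; omega⟩
    omega

theorem not_circle_of_obs (h : Obs G) : ¬ IsCircle G := by
  rcases h with ⟨i, ⟨e⟩⟩ | ⟨N, hN, ⟨e⟩⟩
  · exact fun h => spor_not_circle i (h.comap e)
  · exact fun h => fam_not_circle hN (h.comap e)

lemma big_deg {W : Type} {H : SimpleGraph W} {N : ℕ} (φ : H ↪g fam N) (a : W) (nb : Fin 5 → W)
    (hi : Function.Injective nb) (h : ∀ m, H.Adj a (nb m)) : ∃ b, φ a = Sum.inr b := by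
  rcases e : φ a with i | b
  swap
  · exact ⟨b, rfl⟩
  exfalso
  let code : Fin N ⊕ Bool → Fin 4 := fun w => match w with
    | Sum.inl j => if j.val + 1 = i.val then 0 else 1
    | Sum.inr false => 2
    | Sum.inr true => 3
  obtain ⟨m, m', hne, hm⟩ := Fintype.exists_ne_map_eq_of_card_lt (fun m => code (φ (nb m))) (by simp)
  have a1 : (fam N).Adj (Sum.inl i) (φ (nb m)) := by rw [← e, φ.map_adj_iff]; exact h m
  have a2 : (fam N).Adj (Sum.inl i) (φ (nb m')) := by rw [← e, φ.map_adj_iff]; exact h m'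
  apply hne
  apply hi
  apply φ.injective
  revert hm a1 a2
  rcases φ (nb m) with j | (_ | _) <;> rcases φ (nb m') with j' | (_ | _) <;>
    simp only [code, fam_ll, Sum.inl.injEq, Fin.ext_iff] <;> (try split_ifs) <;> simp <;> omega

lemma spor_big (i : Fin 6) : ∃ (a : Fin 3 → Fin 8) (nb : Fin 3 → Fin 5 → Fin 8), Function.Injective a ∧
    ∀ k, Function.Injective (nb k) ∧ ∀ m, (intGraph (spor i)).Adj (a k) (nb k m) := by
  fin_cases i
  · exact ⟨![1, 2, 3], ![![0, 2, 3, 4, 5], ![0, 1, 3, 4, 5], ![0, 1, 2, 4, 5]], by decide⟩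
  · exact ⟨![2, 4, 5], ![![0, 1, 3, 4, 5], ![1, 2, 3, 5, 6], ![2, 3, 4, 6, 7]], by decide⟩
  · exact ⟨![1, 2, 4], ![![0, 2, 3, 4, 5], ![0, 1, 3, 4, 5], ![1, 2, 3, 5, 6]], by decide⟩
  · exact ⟨![1, 2, 4], ![![0, 2, 3, 4, 5], ![0, 1, 3, 4, 5], ![1, 2, 3, 5, 6]], by decide⟩
  · exact ⟨![1, 2, 4], ![![0, 2, 3, 4, 5], ![0, 1, 3, 4, 5], ![1, 2, 3, 5, 6]], by decide⟩
  · exact ⟨![2, 3, 4], ![![0, 1, 3, 4, 5], ![0, 1, 2, 4, 5], ![1, 2, 3, 5, 6]], by decide⟩

lemma spor_not_fam (i : Fin 6) {N : ℕ} (φ : intGraph (spor i) ↪g fam N) : False := by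
  obtain ⟨a, nb, ha, h⟩ := spor_big i
  choose b hb using fun k => big_deg φ (a k) (nb k) (h k).1 (h k).2
  obtain ⟨k, k', hne, hk⟩ := Fintype.exists_ne_map_eq_of_card_lt b (by simp)
  exact hne (ha (φ.injective (by rw [hb, hb, hk])))

lemma fam_le {M N : ℕ} (hM : 6 ≤ M) (φ : fam M ↪g fam N) : N ≤ M := by
  have hb : ∀ c : Bool, ∃ b, φ (Sum.inr c) = Sum.inr b := by
    intro c
    apply big_deg φ (Sum.inr c) (fun m => if m.val = 0 then Sum.inr (!c) else Sum.inl ⟨m.val, by omega⟩)
    · intro m m' h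
      simp only at h
      split_ifs at h with h1 h2
      · exact Fin.ext (by omega)
      · simp only [Sum.inl.injEq, Fin.mk.injEq] at h; exact Fin.ext h
    · intro m
      split_ifs with h1
      · cases c <;> simp [fam_rr]
      · have := m.2
        cases c <;> simp only [fam_sl, fam_tl] <;> omega
  choose b hb using hb
  have hbne : b false ≠ b true := fun h => by
    have : φ (Sum.inr false) = φ (Sum.inr true) := by rw [hb, hb, h]
    simpa using φ.injective this
  have hψ : ∀ i : Fin M, ∃ j, φ (Sum.inl i) = Sum.inl j := by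
    intro i
    rcases e : φ (Sum.inl i) with j | c
    · exact ⟨j, rfl⟩
    · exfalso
      have : c = b false ∨ c = b true := by
        revert hbne; cases c <;> cases b false <;> cases b true <;> simp
      rcases this with rfl | rfl <;> rw [← hb] at e <;> simpa using φ.injective e
  choose ψ hψ using hψ
  have ends : ∀ (i : Fin M) (c : Bool), ¬ (fam M).Adj (Sum.inl i) (Sum.inr c) →
      (ψ i).val = 0 ∨ (ψ i).val + 1 = N := by
    intro i c h
    rw [← φ.map_adj_iff, hψ, hb] at h
    have := (ψ i).2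
    revert h
    cases b c <;> simp only [fam_ls, fam_lt] <;> omega
  have lip : ∀ i (hi : i < M), (ψ ⟨i, hi⟩).val ≤ (ψ ⟨0, by omega⟩).val + i ∧
      (ψ ⟨0, by omega⟩).val ≤ (ψ ⟨i, hi⟩).val + i := by
    intro i
    induction i with
    | zero => intro _; exact ⟨le_rfl, le_rfl⟩
    | succ i ih =>
      intro hi
      have := ih (by omega)
      have h : (fam M).Adj (Sum.inl ⟨i, by omega⟩) (Sum.inl ⟨i + 1, hi⟩) := by rw [fam_ll]; simp
      rw [← φ.map_adj_iff, hψ, hψ, fam_ll] at h
      omega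
  have e0 := ends ⟨0, by omega⟩ false (by rw [fam_ls]; simp)
  have e1 : (ψ ⟨M - 1, by omega⟩).val = 0 ∨ (ψ ⟨M - 1, by omega⟩).val + 1 = N := by
    by_cases hp : M % 2 = 0
    · exact ends _ false (by rw [fam_ls]; simp only; omega)
    · exact ends _ true (by rw [fam_lt]; simp only; omega)
  have e2 : (ψ ⟨M - 1, by omega⟩).val ≠ (ψ ⟨0, by omega⟩).val := fun h => by
    have : φ (Sum.inl ⟨M - 1, by omega⟩) = φ (Sum.inl ⟨0, by omega⟩) := by rw [hψ, hψ, Fin.ext h]
    have := φ.injective this
    simp only [Sum.inl.injEq, Fin.mk.injEq] at this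
    omega
  have := lip (M - 1) (by omega)
  omega

theorem IsInterval.comap {W : Type} {H : SimpleGraph W} (e : H ↪g G) (h : IsInterval G) :
    IsInterval H := by
  obtain ⟨l, r, h1, h2⟩ := h
  exact ⟨fun v => l (e v), fun v => r (e v), fun v => h1 _, fun u v huv => by
    rw [← h2 _ _ (fun h => huv (e.injective h)), e.map_adj_iff]⟩

theorem interval_of_nat (L R : V → ℕ) (le : ∀ v, L v ≤ R v)
    (adj : ∀ u v, u ≠ v → (G.Adj u v ↔ L u ≤ R v ∧ L v ≤ R u)) : IsInterval G := by
  refine ⟨fun v => L v, fun v => R v, fun v => Nat.cast_le.2 (le v), fun u v huv => ?_⟩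
  rw [adj u v huv, Set.Icc_inter_Icc, Set.nonempty_Icc]
  simp only [sup_le_iff, le_inf_iff, Nat.cast_le, le, true_and, and_true]
  exact and_comm

theorem spor_interval (i : Fin 6) : IsInterval (intGraph (spor i)) :=
  interval_of_nat (fun a => (spor i a).1) (fun a => (spor i a).2) (by revert i; decide)
    (fun u v huv => by rw [intGraph_adj]; tauto)

def famL (N : ℕ) : Fin N ⊕ Bool → ℕ
  | Sum.inl i => i.val - 1
  | Sum.inr false => 1
  | Sum.inr true => 0

def famR (N : ℕ) : Fin N ⊕ Bool → ℕ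
  | Sum.inl i => min i.val (N - 2)
  | Sum.inr false => N - 3 + N % 2
  | Sum.inr true => N - 2 - N % 2

theorem fam_interval {N : ℕ} (hN : 6 ≤ N) : IsInterval (fam N) := by
  apply interval_of_nat (famL N) (famR N)
  · rintro (i | _ | _) <;> simp only [famL, famR]
    · have := i.2; omega
    all_goals omega
  · rintro (i | _ | _) (j | _ | _) h <;>
      simp only [famL, famR, fam_ll, fam_ls,
        fam_lt, fam_sl, fam_tl, fam_rr, ne_eq, Sum.inl.injEq, Fin.ext_iff, not_true_eq_false,
        Bool.true_eq_false, Bool.false_eq_true, not_false_eq_true, true_iff] at h ⊢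
    · have := i.2; have := j.2; omega
    · have := i.2; omega
    · have := i.2; omega
    · have := j.2; omega
    · omega
    · have := j.2; omega
    · omega

lemma card_lt [Fintype V] {W : Type} [Fintype W] (x : V) {H : SimpleGraph W}
    (e : H ↪g G.induce {v | v ≠ x}) : Fintype.card W < Fintype.card V := by
  classical
  apply Fintype.card_lt_of_injective_of_notMem (fun w => (e w).val) (b := x)
  · intro a b h; exact e.injective (Subtype.ext h)
  · rintro ⟨w, hw⟩; exact (e w).2 hw

theorem main [Fintype V] : (IsInterval G ∧ IsMinNonCircle G) ↔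
    (∃ i : Fin 6, Nonempty (G ≃g intGraph (spor i))) ∨ ∃ N, 6 ≤ N ∧ Nonempty (G ≃g fam N) := by
  classical
  constructor
  · rintro ⟨hI, hn, hm⟩
    have iso : ∀ {W : Type} {H : SimpleGraph W}, ¬ IsCircle H → (H ↪g G) → Nonempty (G ≃g H) := by
      intro W H hH e
      have : Function.Surjective e := by
        intro x
        by_contra hx
        push Not at hx
        exact hH ((hm x).comap ⟨⟨fun w => ⟨e w, hx w⟩, fun a b h => e.injective (congrArg Subtype.val h)⟩,
          fun {a b} => by simp⟩)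
      exact ⟨(RelIso.ofSurjective e this).symm⟩
    have : Obs G := by
      by_contra h; exact hn (circle_of_no_obs hI h)
    rcases this with ⟨i, ⟨e⟩⟩ | ⟨N, hN, ⟨e⟩⟩
    · exact Or.inl ⟨i, iso (spor_not_circle i) e⟩
    · exact Or.inr ⟨N, hN, iso (fam_not_circle hN) e⟩
  · rintro (⟨i, ⟨e⟩⟩ | ⟨N, hN, ⟨e⟩⟩)
    · have hI := (spor_interval i).comap e.toEmbedding
      refine ⟨hI, fun h => spor_not_circle i (h.comap e.symm.toEmbedding), fun x => ?_⟩
      apply circle_of_no_obs (hI.comap (SimpleGraph.Embedding.induce _))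
      have hc : Fintype.card V = 8 := by simpa using Fintype.card_congr e.toEquiv
      rintro (⟨j, ⟨f⟩⟩ | ⟨M, hM, ⟨f⟩⟩)
      · have := card_lt x f; simp at this; omega
      · have := card_lt x f; simp at this; omega
    · have hI := (fam_interval hN).comap e.toEmbedding
      refine ⟨hI, fun h => fam_not_circle hN (h.comap e.symm.toEmbedding), fun x => ?_⟩
      apply circle_of_no_obs (hI.comap (SimpleGraph.Embedding.induce _))
      have hc : Fintype.card V = N + 2 := by simpa using Fintype.card_congr e.toEquiv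
      rintro (⟨j, ⟨f⟩⟩ | ⟨M, hM, ⟨f⟩⟩)
      · exact spor_not_fam j ((f.trans (SimpleGraph.Embedding.induce _)).trans e.toEmbedding)
      · have := card_lt x f
        have := fam_le hM ((f.trans (SimpleGraph.Embedding.induce _)).trans e.toEmbedding)
        simp at *; omega

end Pool.Agent.Lib.MP_d7353d_co
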