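import Pool.Agent.Lib.MP_d7353d_co.ChSpor
import Pool.Agent.Lib.MP_d7353d_co.ChSun
import Pool.Agent.Lib.MP_d7353d_co.Main

namespace Pool.Agent.Lib.MP_d7353d_co

theorem fam_mem {N : ℕ} (hN : 6 ≤ N) : Mem (fam N) := by
  obtain ⟨-, h1, h2⟩ := (main (G := fam N)).2 (Or.inr ⟨N, hN, ⟨SimpleGraph.Iso.refl⟩⟩)
  refine ⟨chordal_of_rank (Sum.elim (fun i => if i.val + 1 = N then 0 else i.val) fun _ => N) ?_,
    fun h => h1 (circle_of_lin (lin_of_linOn h)), fun x => linOn_of_lin (lin_of_circle (h2 x))⟩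
  rintro (i | _ | _) (j | _ | _) (l | _ | _) <;>
    simp only [fam_ll, fam_ls, fam_lt, fam_sl, fam_tl, fam_rr, Sum.elim_inl, Sum.elim_inr, ne_eq,
      Sum.inl.injEq, Sum.inr.injEq, Fin.ext_iff, reduceCtorEq] <;> grind

theorem famQ_not {N : ℕ} (hN : 5 ≤ N) : ¬ LinOn (famQ N) Set.univ := by
  intro h
  obtain ⟨β, B⟩ := naji_of_linOn h
  obtain ⟨z, s, t, q, zz, zs, zt, zq, iz, d1, qs, qt⟩ : ∃ (z : ℕ → Fin N ⊕ Fin 3) (s t q : Fin N ⊕ Fin 3),
      (∀ i j, i < N → j < N → ((famQ N).Adj (z i) (z j) ↔ i + 1 = j ∨ j + 1 = i)) ∧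
      (∀ i, i < N → ((famQ N).Adj (z i) s ↔ 1 ≤ i ∧ (i + 1 < N ∨ N % 2 = 0))) ∧
      (∀ i, i < N → ((famQ N).Adj (z i) t ↔ (i + 1 < N ∨ N % 2 = 1))) ∧ (∀ i, ¬ (famQ N).Adj (z i) q) ∧
      (∀ i j, i < N → j < N → z i = z j → i = j) ∧ (∀ i, z i ≠ s ∧ z i ≠ t ∧ z i ≠ q) ∧
      (famQ N).Adj q s ∧ (famQ N).Adj q t := by
    refine ⟨fun i => Sum.inl ⟨min i (N - 1), by omega⟩, Sum.inr 0, Sum.inr 1, Sum.inr 2, ?_, ?_, ?_, ?_, ?_,
      by simp, by simp [fq_rr], by simp [fq_rr]⟩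
    all_goals
      intros
      simp only [fq_ll, fq_lr, Sum.inl.injEq, Fin.mk.injEq, Fin.val_zero, Fin.val_one, Fin.val_two] at *
      grind
  generalize famQ N = G at *
  have sy := G.adj_comm
  have mem : ∀ x : Fin N ⊕ Fin 3, x ∈ Set.univ := Set.mem_univ
  have c1 : ∀ j, j < N → (β q (z 0) + β q (z j)) % 2 = 0 := by
    intro j
    induction j with
    | zero => omega
    | succ j ih =>
      intro hj
      have := ih (by omega)
      have := B.n1 q (z j) (z (j + 1)) (by grind)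
      omega
  have c2 : ∀ j, j + 3 < N → (β (z 1) (z 3) + β (z 1) (z (j + 3))) % 2 = 0 := by
    intro j
    induction j with
    | zero => simp only [Nat.zero_add]; omega
    | succ j ih =>
      intro hj
      have := ih (by omega)
      have := B.n1 (z 1) (z (j + 3)) (z (j + 1 + 3)) (by grind)
      omega
  have ne : ∀ i j x, i + 1 < j → j < N → G.Adj (z i) x → G.Adj (z j) x → G.Adj q x →
      (β (z i) (z j) + β (z i) q + β (z j) (z i) + β (z j) q) % 2 = 1 := by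
    intro i j x h1 h2 h3 h4 h5
    have := B.n2 x (z i) (z j) (by grind)
    have := B.n2 x (z i) q (by grind)
    have := B.n2 x (z j) q (by grind)
    have := c1 i (by omega)
    have := c1 j (by omega)
    omega
  obtain ⟨m, rfl⟩ : ∃ m, N = m + 4 := ⟨N - 4, by omega⟩
  have := c2 m (by omega)
  have := ne 0 3 t (by omega) (by omega) (by grind) (by grind) qt
  have := ne 1 3 t (by omega) (by omega) (by grind) (by grind) qt
  have := B.n1 (z 3) (z 0) (z 1) (by grind)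
  have := B.n1 (z 0) (z 3) s (by grind)
  have := B.n1 (z 0) q s (by grind)
  by_cases par : m % 2 = 0
  · have := ne 1 (m + 3) s (by omega) (by omega) (by grind) (by grind) qs
    have := B.n1 (z (m + 3)) (z 1) t (by grind)
    have := B.n1 (z (m + 3)) q t (by grind)
    omega
  · have := ne 1 (m + 3) t (by omega) (by omega) (by grind) (by grind) qt
    have := B.n1 (z (m + 3)) (z 1) s (by grind)
    have := B.n1 (z (m + 3)) q s (by grind)
    omega

def qF (N m : ℕ) (ql : ℤ) : Fin N ⊕ Fin 3 → ℤ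
  | Sum.inl i => (if i.val < m then - (4 * N + 10) - 4 * i.val else 4 * N + 10 - 4 * (N - 1 - i.val) : ℤ) -
      6 * (i.val % 2 : ℤ)
  | Sum.inr e => if e.val = 2 then ql else - (4 * N + 10) - 2 + 4 * e.val

def qE (N m : ℕ) (b : Bool) (qr : ℤ) : Fin N ⊕ Fin 3 → ℤ
  | Sum.inl i => if b = true ∧ i.val = 0 then 13 else
      (if i.val < m then - (4 * N + 10) + 4 * i.val else 4 * N + 10 + 4 * (N - 1 - i.val) : ℤ) +
        6 * (1 - i.val % 2 : ℤ)
  | Sum.inr e => if e.val = 2 then qr else 4 * N + 10 - 2 + 4 * e.val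

theorem famQ_mem {N : ℕ} (hN : 5 ≤ N) : Mem (famQ N) := by
  refine ⟨chordal_of_rank (Sum.elim (fun i => if i.val + 1 = N then 0 else i.val)
    fun e => if e.val = 2 then 0 else N) ?_, famQ_not hN, ?_⟩
  · rintro (i | e) (j | e') (l | e'') <;>
      simp only [fq_ll, fq_lr, fq_rl, fq_rr, Sum.elim_inl, Sum.elim_inr, ne_eq,
        Sum.inl.injEq, Sum.inr.injEq, Fin.ext_iff, reduceCtorEq] <;> grind
  rintro (⟨x, bx⟩ | ⟨x, bx⟩)
  · refine ⟨qF N x 0, qE N x false (12 * N + 30), ?_, ?_⟩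
    · rintro (i | e) - <;> simp only [qF, qE] <;> grind
    · rintro (⟨i, bi⟩ | ⟨e, be⟩) hi (⟨j, bj⟩ | ⟨e', be'⟩) hj ne <;>
        simp only [qF, qE, Cross, fq_ll, fq_lr, fq_rl, fq_rr, Set.mem_ofPred_eq, ne_eq,
          Sum.inl.injEq, Sum.inr.injEq, Fin.ext_iff, reduceCtorEq, true_and, false_and, if_false] at * <;>
        split_ifs <;> omega
  · refine ⟨qF N 1 (- (4 * N + 10) + 1 - 4 * x), qE N 1 true (- (4 * N + 10) + 3 - 4 * x), ?_, ?_⟩
    · rintro (i | e) - <;> simp only [qF, qE] <;> grind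
    · rintro (⟨i, bi⟩ | ⟨e, be⟩) hi (⟨j, bj⟩ | ⟨e', be'⟩) hj ne <;>
        simp only [qF, qE, Cross, fq_ll, fq_lr, fq_rl, fq_rr, Set.mem_ofPred_eq, ne_eq,
          Sum.inl.injEq, Sum.inr.injEq, Fin.ext_iff, reduceCtorEq, true_and, false_and, if_false] at * <;>
        split_ifs <;> omega

end Pool.Agent.Lib.MP_d7353d_co
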