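import Pool.Agent.Lib.MP_d7353d_co.ChSpor
import Pool.Agent.Lib.MP_d7353d_co.ChSun

namespace Pool.Agent.Lib.MP_d7353d_co

set_option linter.unusedSimpArgs false

def sT (τ k : ℕ) (m g : ℤ) (i : ℕ) : ℤ :=
  4 * i + (if i < m then (if (i + if τ = 2 then 1 else 0) % 2 = 0 then 0 else 4 * k + 20)
    else (if (i + k) % 2 = 1 then g else g + 4 * k + 20) : ℤ)

def sF (τ k : ℕ) (m g : ℤ) : Fin (k + 1) ⊕ Fin (k + 2) ⊕ Fin 3 → ℤ
  | Sum.inl i => sT τ k m g i.val - 1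
  | Sum.inr (Sum.inl j) => 4 * j.val + (if m < j.val then g else 0 : ℤ)
  | Sum.inr (Sum.inr e) => if e.val = 2 then 4 * m + 4 else if e.val = 1 then 4 * k + 22 else
      if τ = 0 then 4 * k + 3 + g else if τ = 2 then 2 else -2

def sE (τ k : ℕ) (m g : ℤ) : Fin (k + 1) ⊕ Fin (k + 2) ⊕ Fin 3 → ℤ
  | Sum.inl i => sT τ k m g i.val + 5
  | Sum.inr (Sum.inl j) => if τ = 1 ∧ j.val = 0 then 4 * k + 2 + g else
      4 * j.val + 4 * k + 20 + (if m < j.val then g else 0 : ℤ)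
  | Sum.inr (Sum.inr e) => if e.val = 2 then 4 * m + 4 * k + 24 else if e.val = 1 then 8 * k + 34 else
      if τ = 0 then 4 * k + 21 else 4 * k + 2 + g

variable {τ : Fin 4} {k : ℕ}

lemma ss_t (i : Fin (k + 1)) : Sum.inl i ∈ sunSet τ k ↔ True := by simp [sunSet]
lemma ss_y (i : Fin (k + 2)) : Sum.inr (Sum.inl i) ∈ sunSet τ k ↔ True := by simp [sunSet]
lemma ss_e (e : Fin 3) : Sum.inr (Sum.inr e) ∈ sunSet τ k ↔
    (e.val = 0 → τ.val ≠ 1) ∧ (e.val = 1 → τ.val = 3) ∧ (e.val = 2 → (k % 2 = 1 ↔ τ.val ≠ 2)) := by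
  simp [sunSet]

/-- the conditions on the cut -/
theorem sun_rep (k1 : 1 ≤ k) (m g : ℤ) (a b : ℤ) (e0 : ℕ)
    (h : (g = 8 ∧ 0 ≤ m ∧ m ≤ k + 1 ∧ ((a = m ∧ m ≤ k) ∨ b = m)) ∨ (g = 8 ∧ m = k + 1 ∧ e0 = 0 ∧ τ.val ≠ 1) ∨
      (g = 8 ∧ m = -1 ∧ e0 = 1 ∧ τ.val = 3) ∨ (g = 0 ∧ m = 0 ∧ e0 = 2 ∧ (k % 2 = 1 ↔ τ.val ≠ 2))) :
    RepO (sunAll τ k) {v | v ∈ sunSet τ k ∧
      Sum.elim (fun i => (i.val : ℤ) ≠ a) (Sum.elim (fun j => (j.val : ℤ) ≠ b) fun e => e.val ≠ e0) v}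
      (sF τ.val k m g) (sE τ.val k m g) := by
  obtain ⟨τ, bτ⟩ := τ
  constructor
  · rintro (⟨i, bi⟩ | ⟨i, bi⟩ | ⟨i, bi⟩) ⟨h1, h2⟩ <;>
      simp only [sF, sE, ss_t, ss_y, ss_e, Sum.elim_inl, Sum.elim_inr] at * <;> (try split_ifs) <;> omega
  · have S : ∀ {P : Prop}, (τ = 0 → P) → (τ = 1 → P) → (τ = 2 → P) → (τ = 3 → P) → P := by
      intro P _ _ _ _
      have : τ = 0 ∨ τ = 1 ∨ τ = 2 ∨ τ = 3 := by omega
      tauto
    have S' : ∀ {P : Prop} (i : ℕ), i < 3 → (i = 0 → P) → (i = 1 → P) → (i = 2 → P) → P := by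
      intro P i _ _ _ _
      have : i = 0 ∨ i = 1 ∨ i = 2 := by omega
      tauto
    refine S ?_ ?_ ?_ ?_ <;> rintro rfl <;> clear S
    all_goals
      rintro (⟨i, bi⟩ | ⟨i, bi⟩ | ⟨i, bi⟩) ⟨h1, h2⟩ (⟨j, bj⟩ | ⟨j, bj⟩ | ⟨j, bj⟩) ⟨h3, h4⟩ ne
      all_goals
        (try refine S' i bi ?_ ?_ ?_ <;> rintro rfl) <;> (try refine S' j bj ?_ ?_ ?_ <;> rintro rfl) <;>
        simp only [sF, sE, sT, ss_t, ss_y, ss_e, Sum.elim_inl, Sum.elim_inr, Cross, sa_tt, sa_ty, sa_yt, sa_te,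
          sa_et, sa_yy, sa_ey, sa_ye, sa_ee, ne_eq, Sum.inl.injEq, Sum.inr.injEq, Fin.mk.injEq, reduceCtorEq,
          false_iff, Nat.reduceEqDiff, OfNat.ofNat_ne_zero, OfNat.zero_ne_ofNat, OfNat.ofNat_ne_one,
          OfNat.one_ne_ofNat, zero_ne_one, one_ne_zero, if_true, if_false, true_and, false_and, and_true,
          and_false, or_false, false_or, true_or, or_true, not_true_eq_false, not_false_eq_true, true_iff,
          iff_true, iff_false, forall_const, false_imp_iff, true_imp_iff] at * <;>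
        (try split_ifs) <;> omega

theorem sun_mem' (hk : sunMin τ ≤ k) : Mem (sun τ k) := by
  have k1 : 1 ≤ k := le_trans (by clear hk; revert τ; decide) hk
  have e : sun τ k = (sunAll τ k).induce _ := rfl
  refine ⟨chordal_of_rank (fun v => Sum.elim (fun _ => 0) (Sum.elim (fun j => if j.val = 0 then 1 else 2)
    fun e => if e.val = 2 then 2 else 0) v.1) ?_, fun h => ?_, ?_⟩
  · rintro ⟨v, hv⟩ ⟨a, ha⟩ ⟨b, hb⟩
    replace hv : v ∈ sunSet τ k := (sun_mem v).1 hv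
    replace ha : a ∈ sunSet τ k := (sun_mem a).1 ha
    replace hb : b ∈ sunSet τ k := (sun_mem b).1 hb
    change (sunAll τ k).Adj v a → (sunAll τ k).Adj v b → _ → _ → _ → (sunAll τ k).Adj a b
    obtain ⟨τ, bτ⟩ := τ
    rcases v with ⟨i, bi⟩ | ⟨i, bi⟩ | ⟨i, bi⟩ <;> rcases a with ⟨j, bj⟩ | ⟨j, bj⟩ | ⟨j, bj⟩ <;>
      rcases b with ⟨l, bl⟩ | ⟨l, bl⟩ | ⟨l, bl⟩ <;>
      simp only [ss_t, ss_y, ss_e, Sum.elim_inl, Sum.elim_inr, sa_tt, sa_ty, sa_yt, sa_te,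
        sa_et, sa_yy, sa_ey, sa_ye, sa_ee, ne_eq, Sum.inl.injEq, Sum.inr.injEq, Fin.mk.injEq, reduceCtorEq,
        Subtype.mk.injEq, false_imp_iff, imp_true_iff] at * <;> grind
  · exact (sun_sf τ k).no hk ((linOn_of_lin (lin_of_linOn h)).mono fun v hv => (sun_mem v).2 hv)
  · have key : ∀ (x : Fin (k + 1) ⊕ Fin (k + 2) ⊕ Fin 3) (P : _ → Prop) (f g : _ → ℤ), (∀ v, v ≠ x → P v) →
        RepO (sunAll τ k) {v | v ∈ sunSet τ k ∧ P v} f g → ∀ hx, LinOn (sun τ k) {v | v ≠ ⟨x, hx⟩} := by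
      intro x P f g hP h hx
      have m : ∀ v : {v // _}, v ≠ ⟨x, hx⟩ → v.1 ∈ {v | v ∈ sunSet τ k ∧ P v} := fun v hv =>
        ⟨(sun_mem v.1).1 v.2, hP _ fun e => hv (Subtype.ext e)⟩
      exact ⟨fun v => f v.1, fun v => g v.1, fun v hv => h.1 _ (m v hv), fun u hu v hv ne =>
        h.2 _ (m u hu) _ (m v hv) fun e => ne (Subtype.ext e)⟩
    rintro ⟨x | x | x, hx⟩
    · refine key _ _ _ _ ?_ (sun_rep k1 x.val 8 x.val (-1) 3 (by omega)) hx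
      rintro (i | i | i) <;> simp [Fin.ext_iff] <;> omega
    · refine key _ _ _ _ ?_ (sun_rep k1 x.val 8 (-1) x.val 3 (by omega)) hx
      rintro (i | i | i) <;> simp [Fin.ext_iff] <;> omega
    · have := (ss_e x).1 ((sun_mem _).1 hx)
      refine key _ _ _ _ ?_ (sun_rep k1 (if x.val = 0 then k + 1 else if x.val = 1 then -1 else 0)
        (if x.val = 2 then 0 else 8) (-1) (-1) x.val (by split_ifs <;> omega)) hx
      rintro (i | i | i) <;> simp [Fin.ext_iff] <;> omega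

end Pool.Agent.Lib.MP_d7353d_co
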