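import Pool.Agent.Lib.MP_d7353d_co.ChMain
import Pool.Agent.Lib.MP_d7353d_co.ChFam
import Pool.Agent.Lib.MP_d7353d_co.ChSun2

namespace Pool.Agent.Lib.MP_d7353d_co

variable {V W : Type} {G : SimpleGraph V} {H : SimpleGraph W}

theorem Mem.iso [Fintype W] (M : Mem H) (hm : ∀ x, LinOn G {v | v ≠ x}) (h : Has H G) :
    Nonempty (G ≃g H) := by
  classical
  obtain ⟨φ, hφ⟩ := h
  have sur : Function.Surjective φ := by
    intro x
    by_contra hx
    push Not at hx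
    exact M.nl ((hm x).pull φ hx hφ)
  have inj : Function.Injective φ := by
    intro a b e
    by_contra ne
    refine M.nl ((M.mn b).pull (fun v => if v = b then a else v) (fun v => ?_) fun u v => ?_)
    · dsimp only [Set.mem_ofPred_eq]
      split_ifs <;> assumption
    · rw [hφ, hφ]
      split_ifs with h1 h2 h2 <;> simp [*]
  exact ⟨(RelIso.symm ⟨Equiv.ofBijective φ ⟨inj, sur⟩, fun {a b} => (hφ a b).symm⟩)⟩

theorem Mem.of_iso [Fintype V] [Fintype W] (M : Mem H) (e : G ≃g H) : IsChordal G ∧ IsMinNonCircle G := by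
  refine ⟨fun n hn => ⟨fun f => (M.ch n hn).false (f.trans e.toEmbedding)⟩, fun h => M.nl ?_, fun x => ?_⟩
  · have : LinOn G Set.univ := linOn_of_lin ((lin_of_circle h).comap (SimpleGraph.Embedding.induce _))
    exact this.pull e.symm (fun _ => trivial) fun a b => e.symm.map_adj_iff.symm
  · classical
    refine circle_of_lin (lin_of_linOn ((M.mn (e x)).pull (fun v => e v.1) (fun v h => v.2 (e.injective h))
      fun a b => ?_))
    rw [e.map_adj_iff]; rfl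

theorem chordal_main [Fintype V] : (IsChordal G ∧ IsMinNonCircle G) ↔
    (∃ L ∈ sporadic, Nonempty (G ≃g ofLists L)) ∨ (∃ N, 6 ≤ N ∧ Nonempty (G ≃g fam N)) ∨
      (∃ N, 5 ≤ N ∧ Nonempty (G ≃g famQ N)) ∨ ∃ τ k, sunMin τ ≤ k ∧ Nonempty (G ≃g sun τ k) := by
  classical
  constructor
  · rintro ⟨hc, hn, hm⟩
    have hm' : ∀ x, LinOn G {v | v ≠ x} := fun x => linOn_of_lin (lin_of_circle (hm x))
    have : Bad G := by
      by_contra hb
      exact hn (circle_of_lin (lin_of_linOn (core_main ⟨noHole_of_chordal hc, hb⟩ hm')))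
    rcases this with ⟨L, h1, h⟩ | ⟨N, h1, h⟩ | ⟨N, h1, h⟩ | ⟨τ, k, h1, h⟩
    · exact Or.inl ⟨L, h1, (spor_mem L h1).iso hm' h⟩
    · exact Or.inr (Or.inl ⟨N, h1, (fam_mem h1).iso hm' h⟩)
    · exact Or.inr (Or.inr (Or.inl ⟨N, h1, (famQ_mem h1).iso hm' h⟩))
    · exact Or.inr (Or.inr (Or.inr ⟨τ, k, h1, (sun_mem' h1).iso hm' h⟩))
  · rintro (⟨L, h1, ⟨e⟩⟩ | ⟨N, h1, ⟨e⟩⟩ | ⟨N, h1, ⟨e⟩⟩ | ⟨τ, k, h1, ⟨e⟩⟩)
    · exact (spor_mem L h1).of_iso e
    · exact (fam_mem h1).of_iso e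
    · exact (famQ_mem h1).of_iso e
    · exact (sun_mem' h1).of_iso e

end Pool.Agent.Lib.MP_d7353d_co
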