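import Pool.Agent.Lib.MP_d7353d_co.Geom

namespace Pool.Agent.Lib.MP_d7353d_co

/-- reduced integer interval model -/
structure Red {V : Type} (G : SimpleGraph V) (L R : V → ℕ) : Prop where
  le : ∀ v, L v ≤ R v
  adj : ∀ u v, u ≠ v → (G.Adj u v ↔ L u ≤ R v ∧ L v ≤ R u)
  w1 : ∀ a b, L a < L b → ∃ x, L a ≤ R x ∧ R x < L b
  w2 : ∀ a b, R a < R b → ∃ z, R a < L z ∧ L z ≤ R b

theorem exists_red {V : Type} [Fintype V] {G : SimpleGraph V} (h : IsInterval G) :
    ∃ L R, Red G L R := by
  classical
  obtain ⟨l, r, hlr, hadj⟩ := h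
  let L : V → ℕ := fun b => (Finset.univ.filter fun x => r x < l b).card
  let R : V → ℕ := fun a => (Finset.univ.filter fun b => l b ≤ r a).sup L
  have mono : ∀ a b, l a ≤ l b → L a ≤ L b := fun a b hab =>
    Finset.card_le_card fun x hx => by
      simp only [Finset.mem_filter, Finset.mem_univ, true_and] at hx ⊢; linarith
  have key : ∀ a b, L b ≤ R a ↔ l b ≤ r a := by
    intro a b
    constructor
    · intro hb
      by_contra hc
      push Not at hc
      obtain ⟨b', hb', e⟩ := Finset.exists_mem_eq_sup (Finset.univ.filter fun b => l b ≤ r a)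
        ⟨a, by simpa using hlr a⟩ L
      have hb'' : l b' ≤ r a := by simpa using hb'
      have : L b' < L b := by
        apply Finset.card_lt_card
        refine ⟨fun x hx => ?_, fun hs => ?_⟩
        · simp only [Finset.mem_filter, Finset.mem_univ, true_and] at hx ⊢; linarith
        · have := hs (show a ∈ _ by simpa using hc)
          simp only [Finset.mem_filter, Finset.mem_univ, true_and] at this
          linarith
      have e' : R a = L b' := e
      omega
    · intro hb
      exact Finset.le_sup (f := L) (by simpa using hb)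
  refine ⟨L, R, fun v => (key v v).2 (hlr v), fun u v huv => ?_, fun a b hab => ?_, fun a b hab => ?_⟩
  · rw [hadj u v huv, key, key, Set.Icc_inter_Icc, Set.nonempty_Icc]
    simp only [sup_le_iff, le_inf_iff, hlr, true_and, and_true]
    exact and_comm
  · obtain ⟨x, hx, hx'⟩ := Finset.exists_mem_notMem_of_card_lt_card hab
    simp only [Finset.mem_filter, Finset.mem_univ, true_and, not_lt] at hx hx'
    refine ⟨x, (key x a).2 hx', ?_⟩
    by_contra hc
    have := (key x b).1 (not_lt.1 hc)
    linarith
  · obtain ⟨z, hz, e⟩ := Finset.exists_mem_eq_sup (Finset.univ.filter fun c => l c ≤ r b)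
      ⟨b, by simpa using hlr b⟩ L
    have e' : R b = L z := e
    exact ⟨z, by omega, by omega⟩

lemma exists_rank {E α : Type} [Fintype E] [LinearOrder α] (k : E → α) :
    ∃ rk : E → ℕ, (∀ e, 1 ≤ rk e) ∧ ∀ e e', rk e < rk e' ↔ k e < k e' := by
  classical
  have h1 : ∀ e e', k e < k e' → (Finset.univ.filter fun x => k x < k e).card <
      (Finset.univ.filter fun x => k x < k e').card := by
    intro e e' h
    apply Finset.card_lt_card
    refine ⟨fun x hx => ?_, fun hs => ?_⟩
    · simp only [Finset.mem_filter, Finset.mem_univ, true_and] at hx ⊢; exact hx.trans h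
    · have := hs (show e ∈ _ by simpa using h)
      simp at this
  refine ⟨fun e => (Finset.univ.filter fun x => k x < k e).card + 1, fun e => Nat.le_add_left _ _,
    fun e e' => ⟨fun h => ?_, fun h => Nat.add_lt_add_right (h1 e e' h) 1⟩⟩
  replace h := Nat.lt_of_add_lt_add_right h
  by_contra hc
  have : (Finset.univ.filter fun x => k x < k e').card ≤ (Finset.univ.filter fun x => k x < k e).card :=
    Finset.card_le_card fun x hx => by
      simp only [Finset.mem_filter, Finset.mem_univ, true_and] at hx ⊢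
      exact hx.trans_le (not_lt.1 hc)
  omega

theorem lin_of_time {V : Type} {G : SimpleGraph V} (tl tr : V → ℕ) (lam rho : V → Bool)
    (pos : ∀ v, 1 ≤ tl v) (hlt : ∀ v, tl v < tr v)
    (n1 : ∀ a b, a ≠ b → tl a ≠ tl b) (n2 : ∀ a b, a ≠ b → tr a ≠ tr b) (n3 : ∀ a b, tl a ≠ tr b)
    (hadj : ∀ a b, a ≠ b → (G.Adj a b ↔ tl a < tr b ∧ tl b < tr a))
    (hov : ∀ a b, tl a < tl b → tl b < tr a → tr a < tr b → rho a = lam b)
    (hne : ∀ a b, tl a < tl b → tr b < tr a → lam b ≠ rho b) : Lin G := by
  let pl : V → ℤ := fun v => if lam v then (tl v : ℤ) else -(tl v : ℤ)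
  let pr : V → ℤ := fun v => if rho v then (tr v : ℤ) else -(tr v : ℤ)
  refine ⟨fun v => ((min (pl v) (pr v) : ℤ) : ℝ), fun v => ((max (pl v) (pr v) : ℤ) : ℝ), ?_, ?_, ?_⟩
  · intro v
    have := pos v
    have := hlt v
    simp only [Int.cast_lt, pl, pr]
    split_ifs <;> omega
  · rintro (a | a) (b | b) h <;> simp only [Sum.elim_inl, Sum.elim_inr, Int.cast_inj, pl, pr] at h
    all_goals
      have := pos a
      have := pos b
      have := hlt a
      have := hlt b
      have := n3 a b
      have := n3 b a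
      by_cases hab : a = b
      · first | (rw [hab]; done) | (exfalso; subst hab; split_ifs at h <;> omega)
      · have := n1 a b hab
        have := n2 a b hab
        exfalso; split_ifs at h <;> omega
  · intro a b hab
    rw [hadj a b hab]
    have := pos a
    have := pos b
    have := hlt a
    have := hlt b
    have := n3 a b
    have := n3 b a
    have := n1 a b hab
    have := n2 a b hab
    have h1 := hov a b
    have h2 := hov b a
    have h3 := hne a b
    have h4 := hne b a
    simp only [Cross, Int.cast_lt, pl, pr]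
    rcases hla : lam a <;> rcases hlb : lam b <;> rcases hra : rho a <;> rcases hrb : rho b <;>
      simp only [hla, hlb, hra, hrb, ne_eq, not_true_eq_false, imp_false, Bool.false_eq_true,
        Bool.true_eq_false, if_true, if_false, not_false_eq_true, implies_true] at h1 h2 h3 h4 ⊢ <;> omega

theorem lin_of_cls {V : Type} [Fintype V] {G : SimpleGraph V} (L R : V → ℕ) (lam rho : V → Bool)
    (le : ∀ v, L v ≤ R v) (adj : ∀ u v, u ≠ v → (G.Adj u v ↔ L u ≤ R v ∧ L v ≤ R u))
    (c1 : ∀ a b, L a < L b → L b ≤ R a → R a < R b → rho a = lam b)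
    (c2 : ∀ a b, L a < L b → R b < R a → lam b ≠ rho b)
    (c3 : ∀ a b, L a = L b → R b ≤ R a → lam b ≠ rho b ∨ lam a = lam b)
    (c4 : ∀ a b, R a = R b → L a ≤ L b → lam b ≠ rho b ∨ rho a = rho b) : Lin G := by
  classical
  let idx : V → ℤ := fun v => ((Fintype.equivFin V v : ℕ) : ℤ)
  have hidx : ∀ a b, a ≠ b → idx a ≠ idx b := fun a b hab h => hab (by
    apply (Fintype.equivFin V).injective
    apply Fin.ext
    simpa [idx] using h)
  let k : V ⊕ V → ℤ ×ₗ ℤ ×ₗ ℤ ×ₗ ℤ := fun e => match e with
    | Sum.inl b => toLex (2 * (L b : ℤ), toLex (if lam b = rho b then 0 else 1,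
        toLex (if lam b = rho b then (R b : ℤ) else -(R b : ℤ), if lam b = rho b then idx b else -idx b)))
    | Sum.inr b => toLex (2 * (R b : ℤ) + 1, toLex (if lam b = rho b then 1 else 0,
        toLex (if lam b = rho b then (L b : ℤ) else -(L b : ℤ), idx b)))
  obtain ⟨rk, h1, hrk⟩ := exists_rank k
  have hne : ∀ e e', k e < k e' ∨ k e' < k e → rk e ≠ rk e' := by
    rintro e e' (h | h)
    · exact ((hrk _ _).2 h).ne
    · exact ((hrk _ _).2 h).ne'
  apply lin_of_time (fun v => rk (Sum.inl v)) (fun v => rk (Sum.inr v)) lam rho (fun v => h1 _)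
  · intro v
    rw [hrk]
    have := le v
    simp only [k, Prod.Lex.toLex_lt_toLex]
    omega
  · intro a b hab
    apply hne
    have := hidx a b hab
    simp only [k, Prod.Lex.toLex_lt_toLex]
    split_ifs <;> omega
  · intro a b hab
    apply hne
    have := hidx a b hab
    simp only [k, Prod.Lex.toLex_lt_toLex]
    split_ifs <;> omega
  · intro a b
    apply hne
    simp only [k, Prod.Lex.toLex_lt_toLex]
    omega
  · intro a b hab
    rw [adj a b hab, hrk, hrk]
    simp only [k, Prod.Lex.toLex_lt_toLex]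
    omega
  · intro a b
    rw [hrk, hrk, hrk]
    have := le a
    have := le b
    have d1 := c1 a b
    have d3 := c3 a b
    have d3' := c3 b a
    have d4 := c4 a b
    have d4' := c4 b a
    simp only [k, Prod.Lex.toLex_lt_toLex]
    rcases hla : lam a <;> rcases hlb : lam b <;> rcases hra : rho a <;> rcases hrb : rho b <;>
      simp only [hla, hlb, hra, hrb, ne_eq, not_true_eq_false, imp_false, Bool.false_eq_true,
        Bool.true_eq_false, if_true, if_false, not_false_eq_true, implies_true, or_self, or_true,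
        true_or] at d1 d3 d3' d4 d4' ⊢ <;> omega
  · intro a b
    rw [hrk, hrk]
    have := le a
    have := le b
    have d2 := c2 a b
    have d3 := c3 a b
    have d3' := c3 b a
    have d4 := c4 a b
    have d4' := c4 b a
    simp only [k, Prod.Lex.toLex_lt_toLex]
    rcases hla : lam a <;> rcases hlb : lam b <;> rcases hra : rho a <;> rcases hrb : rho b <;>
      simp only [hla, hlb, hra, hrb, ne_eq, not_true_eq_false, imp_false, Bool.false_eq_true,
        Bool.true_eq_false, if_true, if_false, not_false_eq_true, implies_true, or_self, or_true,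
        true_or] at d2 d3 d3' d4 d4' ⊢ <;> omega

/-- `a` overlaps `b` from the left -/
def Ov {V : Type} (L R : V → ℕ) (a b : V) : Prop := L a < L b ∧ L b ≤ R a ∧ R a < R b

/-- strictly nested -/
def Nest {V : Type} (L R : V → ℕ) (b : V) : Prop := ∃ u, L u < L b ∧ R b < R u

theorem lin_of_col {V : Type} [Fintype V] {G : SimpleGraph V} (L R : V → ℕ) (c d : V → Bool)
    (le : ∀ v, L v ≤ R v) (adj : ∀ u v, u ≠ v → (G.Adj u v ↔ L u ≤ R v ∧ L v ≤ R u))
    (e1 : ∀ a b, Ov L R a b → d a = c b) (e2 : ∀ a, Nest L R a → d a ≠ c a) : Lin G := by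
  classical
  let S : V → Prop := fun b => ∃ y, L y < L b ∧ L b ≤ R y
  let T : V → Prop := fun a => ∃ z, L z ≤ R a ∧ R a < R z
  let lI : V → Prop := fun b => ¬ Nest L R b ∧ ¬ ∃ y, Ov L R y b
  let rI : V → Prop := fun a => ¬ Nest L R a ∧ ¬ ∃ z, Ov L R a z
  let rho : V → Bool := fun a => if rI a then (if T a then (if lI a then true else !c a) else false) else d a
  let lam : V → Bool := fun b => if lI b then (if S b then !rho b else false) else c b
  have f1 : ∀ b, ¬ lI b → lam b = c b := fun b h => by simp only [lam, if_neg h]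
  have f2 : ∀ b, ¬ rI b → rho b = d b := fun b h => by simp only [rho, if_neg h]
  have f3 : ∀ b, ¬ S b → lam b = false := fun b h => by
    have : lI b := ⟨fun ⟨u, h1, h2⟩ => h ⟨u, h1, by have := le b; omega⟩,
      fun ⟨y, h1, h2, _⟩ => h ⟨y, h1, h2⟩⟩
    simp only [lam, if_pos this, if_neg h]
  have f4 : ∀ b, ¬ T b → rho b = false := fun b h => by
    have : rI b := ⟨fun ⟨u, h1, h2⟩ => h ⟨u, by have := le b; omega, h2⟩,
      fun ⟨y, _, h2, h3⟩ => h ⟨y, h2, h3⟩⟩
    simp only [rho, if_pos this, if_neg h]
  have f5 : ∀ b, Nest L R b → lam b ≠ rho b := fun b h => by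
    rw [f1 b (fun hh => hh.1 h), f2 b (fun hh => hh.1 h)]; exact (e2 b h).symm
  have f6 : ∀ b, lI b → S b → lam b ≠ rho b := fun b h h' => by
    simp only [lam, if_pos h, if_pos h']; cases rho b <;> simp
  have f7 : ∀ b, rI b → T b → lam b ≠ rho b := fun b h h' => by
    by_cases h1 : lI b
    · by_cases h2 : S b
      · exact f6 b h1 h2
      · rw [f3 b h2]; simp only [rho, if_pos h, if_pos h', if_pos h1]; simp
    · rw [f1 b h1]; simp only [rho, if_pos h, if_pos h', if_neg h1]; cases c b <;> simp
  have f8 : ∀ a b, Ov L R a b → rho a = lam b := fun a b h => by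
    rw [f1 b (fun hh => hh.2 ⟨a, h⟩), f2 a (fun hh => hh.2 ⟨b, h⟩)]; exact e1 a b h
  apply lin_of_cls L R lam rho le adj
  · intro a b h1 h2 h3; exact f8 a b ⟨h1, h2, h3⟩
  · intro a b h1 h2; exact f5 b ⟨a, h1, h2⟩
  · intro a b h1 h2
    by_cases hS : S b
    · by_cases hn : Nest L R b
      · exact Or.inl (f5 b hn)
      · by_cases hy : ∃ y, Ov L R y b
        · obtain ⟨y, hy⟩ := hy
          right
          rw [← f8 y b hy, ← f8 y a ⟨by have := hy.1; omega, by have := hy.2.1; omega,
            by have := hy.2.2; omega⟩]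
        · exact Or.inl (f6 b ⟨hn, hy⟩ hS)
    · right
      rw [f3 b hS, f3 a fun ⟨y, h3, h4⟩ => hS ⟨y, by omega, by omega⟩]
  · intro a b h1 h2
    by_cases hT : T b
    · by_cases hn : Nest L R b
      · exact Or.inl (f5 b hn)
      · by_cases hy : ∃ z, Ov L R b z
        · obtain ⟨z, hz⟩ := hy
          right
          rw [f8 b z hz, f8 a z ⟨by have := hz.1; omega, by have := hz.2.1; omega,
            by have := hz.2.2; omega⟩]
        · exact Or.inl (f7 b ⟨hn, hy⟩ hT)
    · right
      rw [f4 b hT, f4 a fun ⟨y, h3, h4⟩ => hT ⟨y, by omega, by omega⟩]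

end Pool.Agent.Lib.MP_d7353d_co
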