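import Pool.Agent.Lib.MP_d7353d_co.ChPath
import Pool.Agent.Lib.MP_d7353d_co.Strip

namespace Pool.Agent.Lib.MP_d7353d_co

variable {V : Type} {G : SimpleGraph V}

def RepO {Λ : Type} [LinearOrder Λ] (G : SimpleGraph V) (S : Set V) (f g : V → Λ) : Prop :=
  (∀ v ∈ S, f v < g v) ∧ ∀ u ∈ S, ∀ v ∈ S, u ≠ v →
    f u ≠ f v ∧ g u ≠ g v ∧ f u ≠ g v ∧ (G.Adj u v ↔ Cross (f u) (g u) (f v) (g v))

def LinOn (G : SimpleGraph V) (S : Set V) : Prop := ∃ f g : V → ℤ, RepO G S f g

lemma exists_rankZ {E α : Type} [Fintype E] [LinearOrder α] (k : E → α) :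
    ∃ rk : E → ℤ, (∀ e e', rk e < rk e' ↔ k e < k e') ∧ ∀ e e', rk e = rk e' ↔ k e = k e' := by
  obtain ⟨rk, -, h⟩ := exists_rank k
  refine ⟨fun e => rk e, fun e e' => by simpa using h e e', fun e e' => ?_⟩
  have h1 := h e e'
  have h2 := h e' e
  constructor
  · intro h3
    have h4 : rk e = rk e' := by simpa using h3
    rcases lt_trichotomy (k e) (k e') with h5 | h5 | h5
    · have := h1.2 h5; omega
    · exact h5
    · have := h2.2 h5; omega
  · intro h3
    rw [h3] at h1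
    rw [h3] at h2
    simp only [lt_self_iff_false, iff_false] at h1 h2
    simp only [Nat.cast_inj]; omega

theorem linOn_of_repO [Fintype V] {Λ : Type} [LinearOrder Λ] {S : Set V} {f g : V → Λ}
    (h : RepO G S f g) : LinOn G S := by
  obtain ⟨rk, h1, h2⟩ := exists_rankZ (Sum.elim f g)
  refine ⟨fun v => rk (Sum.inl v), fun v => rk (Sum.inr v), fun v hv => (h1 _ _).2 (h.1 v hv), ?_⟩
  intro u hu v hv huv
  obtain ⟨a1, a2, a3, a4⟩ := h.2 u hu v hv huv
  simp only [ne_eq, h2, Cross, h1, Sum.elim_inl, Sum.elim_inr]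
  exact ⟨a1, a2, a3, a4⟩

theorem lin_of_linOn (h : LinOn G Set.univ) : Lin G := by
  obtain ⟨f, g, h1, h2⟩ := h
  refine ⟨fun v => f v, fun v => g v, fun v => Int.cast_lt.2 (h1 v trivial), ?_, ?_⟩
  · rintro (a | a) (b | b) h <;> simp only [Sum.elim_inl, Sum.elim_inr, Int.cast_inj] at h
    all_goals
      by_cases hab : a = b
      · first | (rw [hab]; done) | (exfalso; subst hab; have := h1 a trivial; omega)
      · have := h2 a trivial b trivial hab
        have := h2 b trivial a trivial (Ne.symm hab)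
        exfalso; omega
  · intro a b hab
    rw [(h2 a trivial b trivial hab).2.2.2]
    simp only [Cross, Int.cast_lt]

theorem linOn_of_lin [Fintype V] {S : Set V} (h : Lin (G.induce S)) : LinOn G S := by
  classical
  obtain ⟨f, g, h1, h2, h3⟩ := h
  refine linOn_of_repO (f := fun v => if h : v ∈ S then f ⟨v, h⟩ else 0)
    (g := fun v => if h : v ∈ S then g ⟨v, h⟩ else 0) ⟨fun v hv => ?_, fun u hu v hv huv => ?_⟩
  · simp only [dif_pos hv]; exact h1 _
  · simp only [dif_pos hv, dif_pos hu]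
    have hne : (⟨u, hu⟩ : S) ≠ ⟨v, hv⟩ := fun e => huv (congrArg Subtype.val e)
    refine ⟨fun e => hne ?_, fun e => hne ?_, fun e => ?_, ?_⟩
    · simpa using h2 (a₁ := Sum.inl ⟨u, hu⟩) (a₂ := Sum.inl ⟨v, hv⟩) (by simpa using e)
    · simpa using h2 (a₁ := Sum.inr ⟨u, hu⟩) (a₂ := Sum.inr ⟨v, hv⟩) (by simpa using e)
    · simpa using h2 (a₁ := Sum.inl ⟨u, hu⟩) (a₂ := Sum.inr ⟨v, hv⟩) (by simpa using e)
    · rw [← h3 _ _ hne]; simp

theorem lin_induce {S : Set V} (h : LinOn G S) : Lin (G.induce S) := by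
  obtain ⟨f, g, h1, h2⟩ := h
  refine lin_of_linOn ⟨fun v => f v.1, fun v => g v.1, fun v _ => h1 _ v.2, fun u _ v _ huv => ?_⟩
  simpa using h2 _ u.2 _ v.2 (fun e => huv (Subtype.ext e))

theorem LinOn.mono {S S' : Set V} (h : LinOn G S) (hs : S' ⊆ S) : LinOn G S' := by
  obtain ⟨f, g, h1, h2⟩ := h
  exact ⟨f, g, fun v hv => h1 v (hs hv), fun u hu v hv => h2 u (hs hu) v (hs hv)⟩

/-- a word: chords of `L` on a line and one point for each vertex of `Q` -/
structure Word {Λ : Type} [LinearOrder Λ] (G : SimpleGraph V) (Q L : Set V) (f g p : V → Λ) : Prop where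
  rep : RepO G L f g
  na : ∀ c ∈ L, ∀ s ∈ Q, f c ≠ p s ∧ g c ≠ p s
  dq : ∀ c ∈ L, ∀ s ∈ Q, (G.Adj c s ↔ f c < p s ∧ p s < g c)

structure Side (G : SimpleGraph V) (Q D : Set V) (f g α : V → ℤ) : Prop extends Word G Q D f g α where
  tw : ∀ s ∈ Q, ∀ s' ∈ Q, α s ≠ α s' → ∃ c ∈ D, ¬ (G.Adj c s ↔ G.Adj c s')

theorem Word.toZ [Fintype V] {Λ : Type} [LinearOrder Λ] {Q L : Set V} {f g p : V → Λ}
    (h : Word G Q L f g p) : ∃ f' g' p' : V → ℤ, Word G Q L f' g' p' ∧ ∀ s s', p' s < p' s' ↔ p s < p s' := by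
  obtain ⟨rk, h1, h2⟩ := exists_rankZ (Sum.elim f (Sum.elim g p))
  refine ⟨fun v => rk (Sum.inl v), fun v => rk (Sum.inr (Sum.inl v)), fun v => rk (Sum.inr (Sum.inr v)),
    ⟨⟨fun v hv => (h1 _ _).2 (h.rep.1 v hv), ?_⟩, ?_, ?_⟩, fun s s' => h1 _ _⟩
  · intro u hu v hv huv
    obtain ⟨a1, a2, a3, a4⟩ := h.rep.2 u hu v hv huv
    simp only [ne_eq, h2, Cross, h1, Sum.elim_inl, Sum.elim_inr]
    exact ⟨a1, a2, a3, a4⟩
  · intro c hc s hs
    simp only [ne_eq, h2, Sum.elim_inl, Sum.elim_inr]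
    exact h.na c hc s hs
  · intro c hc s hs
    simp only [h1, Sum.elim_inl, Sum.elim_inr]
    exact h.dq c hc s hs

theorem Word.side {Q D : Set V} {f g p : V → ℤ} (h : Word G Q D f g p) : ∃ α, Side G Q D f g α := by
  classical
  let P : V → V → Prop := fun s s' => s' ∈ Q ∧ ∀ c ∈ D, (G.Adj c s ↔ G.Adj c s')
  let r : V → V := fun s => @Classical.epsilon V ⟨s⟩ (P s)
  have hr : ∀ s ∈ Q, P s (r s) := fun s hs => Classical.epsilon_spec (p := P s) ⟨s, hs, fun _ _ => Iff.rfl⟩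
  refine ⟨fun s => p (r s), ⟨h.rep, fun c hc s hs => h.na c hc _ (hr s hs).1, fun c hc s hs => ?_⟩, ?_⟩
  · rw [(hr s hs).2 c hc]; exact h.dq c hc _ (hr s hs).1
  · intro s _ s' _ hne
    by_contra hc
    push Not at hc
    apply hne
    have : P s = P s' := by
      funext x
      exact propext (and_congr_right fun _ => forall₂_congr fun c hc' => by rw [hc c hc'])
    simp only [r, this]

theorem side_empty (Q : Set V) : Side G Q ∅ (fun _ => 0) (fun _ => 0) (fun _ => 0) :=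
  ⟨⟨⟨by simp, by simp⟩, by simp, by simp⟩, by simp⟩

theorem Side.mirror {Q D : Set V} {f g α : V → ℤ} (h : Side G Q D f g α) :
    Side G Q D (fun v => - g v) (fun v => - f v) (fun v => - α v) := by
  refine ⟨⟨⟨fun v hv => ?_, fun u hu v hv huv => ?_⟩, fun c hc s hs => ?_, fun c hc s hs => ?_⟩,
    fun s hs s' hs' hne => h.tw s hs s' hs' (by omega)⟩
  · have := h.rep.1 v hv; dsimp only; omega
  · obtain ⟨a1, a2, a3, a4⟩ := h.rep.2 u hu v hv huv
    obtain ⟨-, -, a5, -⟩ := h.rep.2 v hv u hu huv.symm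
    rw [a4]; unfold Cross; dsimp only; omega
  · have := h.na c hc s hs; omega
  · rw [h.dq c hc s hs]; omega

theorem Side.twin {Q D : Set V} {f g α : V → ℤ} (h : Side G Q D f g α) {s s' c : V} (hs : s ∈ Q)
    (hs' : s' ∈ Q) (e : α s = α s') (hc : c ∈ D) : G.Adj c s ↔ G.Adj c s' := by
  rw [h.dq c hc s hs, h.dq c hc s' hs', e]

theorem side_of_linOn [Fintype V] {Q D : Set V} {u : V} (h : LinOn G (D ∪ Q ∪ {u})) (hD : Cnn G D)
    (hdq : ∀ c ∈ D, c ∉ Q) (huq : ∀ s ∈ Q, G.Adj u s) (huD : u ∉ D) (hud : ∀ c ∈ D, ¬ G.Adj u c) :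
    ∃ f g α, Side G Q D f g α := by
  obtain ⟨F, E, h1, h2⟩ := h
  have mu : u ∈ D ∪ Q ∪ {u} := by simp
  have mD : ∀ c ∈ D, c ∈ D ∪ Q ∪ {u} := fun c hc => by simp [hc]
  have mQ : ∀ c ∈ Q, c ∈ D ∪ Q ∪ {u} := fun c hc => by simp [hc]
  have lu := h1 u mu
  have fD : ∀ c ∈ D, F c < E c ∧ ((F u < F c ∧ E c < E u) ∨
      ((F c < F u ∨ E u < F c) ∧ (E c < F u ∨ E u < E c))) := by
    intro c hc
    have hne : u ≠ c := fun e => huD (e ▸ hc)
    obtain ⟨a1, a2, a3, a4⟩ := h2 u mu c (mD c hc) hne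
    obtain ⟨-, -, a5, -⟩ := h2 c (mD c hc) u mu hne.symm
    have a6 := h1 c (mD c hc)
    have a7 := hud c hc
    rw [a4] at a7
    unfold Cross at a7; omega
  have fQ : ∀ s ∈ Q, F s < E s ∧ Cross (F u) (E u) (F s) (E s) := fun s hs =>
    ⟨h1 s (mQ s hs), (h2 u mu s (mQ s hs) (huq s hs).ne).2.2.2.1 (huq s hs)⟩
  have fDD : ∀ c ∈ D, ∀ c' ∈ D, c ≠ c' → F c ≠ F c' ∧ E c ≠ E c' ∧ F c ≠ E c' ∧ F c' ≠ E c ∧
      (G.Adj c c' ↔ Cross (F c) (E c) (F c') (E c')) := by
    intro c hc c' hc' hne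
    obtain ⟨a1, a2, a3, a4⟩ := h2 c (mD c hc) c' (mD c' hc') hne
    obtain ⟨-, -, a5, -⟩ := h2 c' (mD c' hc') c (mD c hc) hne.symm
    exact ⟨a1, a2, a3, a5, a4⟩
  have fDQ : ∀ c ∈ D, ∀ s ∈ Q, F c ≠ F s ∧ E c ≠ E s ∧ F c ≠ E s ∧ F s ≠ E c ∧
      (G.Adj c s ↔ Cross (F c) (E c) (F s) (E s)) := by
    intro c hc s hs
    have hne : c ≠ s := fun e => hdq c hc (e ▸ hs)
    obtain ⟨a1, a2, a3, a4⟩ := h2 c (mD c hc) s (mQ s hs) hne
    obtain ⟨-, -, a5, -⟩ := h2 s (mQ s hs) c (mD c hc) hne.symm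
    exact ⟨a1, a2, a3, a5, a4⟩
  have same : ∀ c ∈ D, ∀ c' ∈ D, (F u < F c ∧ E c < E u) → (F u < F c' ∧ E c' < E u) := by
    intro c hc c' hc' hin
    have := hD c hc c' hc'
    induction this with
    | refl => exact hin
    | tail _ hs ih =>
      have b1 := ih hs.2.1
      have b2 := fD _ hs.2.1
      have b3 := fD _ hs.2.2
      have b4 := (fDD _ hs.2.1 _ hs.2.2 hs.1.ne).2.2.2.2.1 hs.1
      unfold Cross at b4; omega
  suffices hw : ∃ f g p : V → ℤ, Word G Q D f g p by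
    obtain ⟨f, g, p, hw⟩ := hw
    obtain ⟨α, hα⟩ := hw.side
    exact ⟨f, g, α, hα⟩
  by_cases hin : ∀ c ∈ D, F u < F c ∧ E c < E u
  · refine ⟨F, E, fun s => if F u < F s then F s else E s, ⟨fun c hc => (fD c hc).1, ?_⟩, ?_, ?_⟩
    · intro c hc c' hc' hne
      obtain ⟨a1, a2, a3, -, a4⟩ := fDD c hc c' hc' hne
      exact ⟨a1, a2, a3, a4⟩
    · intro c hc s hs
      obtain ⟨a1, a2, a3, a4, -⟩ := fDQ c hc s hs
      split_ifs <;> omega
    · intro c hc s hs
      obtain ⟨a1, a2, a3, a4, a5⟩ := fDQ c hc s hs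
      have := hin c hc
      have := fD c hc
      have := fQ s hs
      rw [a5]; unfold Cross at *
      split_ifs <;> omega
  · have hout : ∀ c ∈ D, (F c < F u ∨ E u < F c) ∧ (E c < F u ∨ E u < E c) := by
      intro c hc
      rcases (fD c hc).2 with h3 | h3
      · exact absurd (fun c' hc' => same c hc c' hc' h3) hin
      · exact h3
    obtain ⟨M, hM⟩ := Finite.exists_le (fun v => |F v| + |E v|)
    have bd : ∀ v, -M ≤ F v ∧ F v ≤ M ∧ -M ≤ E v ∧ E v ≤ M := by
      intro v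
      have := hM v
      have := abs_nonneg (F v)
      have := abs_nonneg (E v)
      have := le_abs_self (F v)
      have := le_abs_self (E v)
      have := neg_abs_le (F v)
      have := neg_abs_le (E v)
      omega
    refine ⟨fun c => if E c < F u then F c + (2 * M + 1) else if F c < F u then E c else F c,
      fun c => if E c < F u then E c + (2 * M + 1) else if F c < F u then F c + (2 * M + 1) else E c,
      fun s => if F u < F s then E s else F s + (2 * M + 1), ⟨?_, ?_⟩, ?_, ?_⟩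
    · intro c hc
      have := bd c
      have := (fD c hc).1
      dsimp only
      split_ifs <;> omega
    · intro c hc c' hc' hne
      obtain ⟨a1, a2, a3, a5, a4⟩ := fDD c hc c' hc' hne
      have := bd c
      have := bd c'
      have := (fD c hc).1
      have := (fD c' hc').1
      have := hout c hc
      have := hout c' hc'
      rw [a4]; unfold Cross; dsimp only
      split_ifs <;> omega
    · intro c hc s hs
      obtain ⟨a1, a2, a3, a4, -⟩ := fDQ c hc s hs
      have := bd c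
      have := bd s
      have := (fD c hc).1
      have := hout c hc
      have := fQ s hs
      unfold Cross at *
      split_ifs <;> omega
    · intro c hc s hs
      obtain ⟨a1, a2, a3, a4, a5⟩ := fDQ c hc s hs
      have := bd c
      have := bd s
      have := (fD c hc).1
      have := hout c hc
      have := fQ s hs
      rw [a5]; unfold Cross at *
      split_ifs <;> omega

lemma lex_lt (a b c d : ℤ) : toLex (a, b) < toLex (c, d) ↔ a < c ∨ (a = c ∧ b < d) :=
  Prod.Lex.toLex_lt_toLex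

lemma lex_ne (a b c d : ℤ) : toLex (a, b) ≠ toLex (c, d) ↔ a ≠ c ∨ b ≠ d := by
  simp only [ne_eq, toLex_inj, Prod.mk.injEq]; tauto

/-- adding tips to a side -/
theorem Side.extend [Fintype V] {Q D T : Set V} {f g α : V → ℤ} (h : Side G Q D f g α) (ρ : V → ℤ)
    (lo hi : V → V) (mono : ∀ s ∈ Q, ∀ s' ∈ Q, α s < α s' → ρ s < ρ s')
    (hlo : ∀ t ∈ T, lo t ∈ Q ∧ hi t ∈ Q ∧ α (lo t) = α (hi t) ∧ ρ (lo t) ≤ ρ (hi t) ∧
      ∀ s ∈ Q, (G.Adj t s ↔ ρ (lo t) ≤ ρ s ∧ ρ s ≤ ρ (hi t)))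
    (dis : ∀ t ∈ T, ∀ t' ∈ T, t ≠ t' → ρ (hi t) < ρ (lo t') ∨ ρ (hi t') < ρ (lo t))
    (dt : ∀ c ∈ D, ∀ t ∈ T, c ≠ t ∧ ¬ G.Adj c t) (tt : ∀ t ∈ T, ∀ t' ∈ T, ¬ G.Adj t t') :
    ∃ f' g' p' : V → ℤ, Word G Q (D ∪ T) f' g' p' ∧ ∀ s ∈ Q, ∀ s' ∈ Q, (ρ s < ρ s' → p' s < p' s') := by
  classical
  have nT : ∀ c ∈ D, c ∉ T := fun c hc ht => (dt c hc c ht).1 rfl
  have W : Word G Q (D ∪ T) (fun v => if v ∈ T then toLex (α (lo v), 3 * ρ (lo v)) else toLex (f v, 0))
      (fun v => if v ∈ T then toLex (α (lo v), 3 * ρ (hi v) + 2) else toLex (g v, 0))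
      (fun s => toLex (α s, 3 * ρ s + 1)) := by
    refine ⟨⟨?_, ?_⟩, ?_, ?_⟩
    · rintro v (hv | hv)
      · simp only [if_neg (nT v hv), lex_lt]; exact Or.inl (h.rep.1 v hv)
      · simp only [if_pos hv, lex_lt]; have := hlo v hv; grind
    · rintro u (hu | hu) v (hv | hv) huv
      · obtain ⟨a1, a2, a3, a4⟩ := h.rep.2 u hu v hv huv
        simp only [if_neg (nT v hv), if_neg (nT u hu), lex_lt, lex_ne, Cross, a4]; grind
      · have := h.na u hu _ (hlo v hv).1
        have := h.rep.1 u hu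
        have := (hlo v hv).2.2.2.1
        simp only [if_pos hv, if_neg (nT u hu), lex_lt, lex_ne, Cross, (dt u hu v hv).2, false_iff]; grind
      · have := h.na v hv _ (hlo u hu).1
        have := h.rep.1 v hv
        have := (hlo u hu).2.2.2.1
        have h3 : ¬ G.Adj u v := fun e => (dt v hv u hu).2 e.symm
        simp only [if_pos hu, if_neg (nT v hv), lex_lt, lex_ne, Cross, h3, false_iff]; grind
      · have := (hlo u hu).2.2.2.1
        have := (hlo v hv).2.2.2.1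
        have := dis u hu v hv huv
        simp only [if_pos hu, if_pos hv, lex_lt, lex_ne, Cross, tt u hu v hv, false_iff]; grind
    · rintro v (hv | hv) s hs
      · have := h.na v hv s hs
        simp only [if_neg (nT v hv), lex_ne]; grind
      · simp only [if_pos hv, lex_ne]; grind
    · rintro v (hv | hv) s hs
      · have := h.na v hv s hs
        simp only [if_neg (nT v hv), lex_lt, h.dq v hv s hs]; grind
      · obtain ⟨b1, b2, b3, b4, b5⟩ := hlo v hv
        have := mono _ b1 s hs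
        have := mono s hs _ b1
        have := mono _ b2 s hs
        have := mono s hs _ b2
        simp only [if_pos hv, lex_lt, b5 s hs]; grind
  obtain ⟨f', g', p', hw, hp⟩ := W.toZ
  refine ⟨f', g', p', hw, fun s hs s' hs' hlt => ?_⟩
  have := mono s' hs' s hs
  rw [hp, lex_lt]; grind

/-- gluing two words along a clique -/
theorem glue [Fintype V] {Q L R U : Set V} {f g p f' g' p' ρ : V → ℤ} (hQ : Clq G Q)
    (hL : Word G Q L f g p) (hR : Word G Q R f' g' p')
    (inj : ∀ s ∈ Q, ∀ s' ∈ Q, s ≠ s' → ρ s ≠ ρ s')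
    (m1 : ∀ s ∈ Q, ∀ s' ∈ Q, (ρ s < ρ s' → p s < p s'))
    (m2 : ∀ s ∈ Q, ∀ s' ∈ Q, (ρ s < ρ s' → p' s < p' s'))
    (cov : ∀ v, v ∈ Q ∨ v ∈ L ∨ v ∈ R ∨ v ∈ U)
    (lq : ∀ c ∈ L, c ∉ Q) (rq : ∀ c ∈ R, c ∉ Q) (uq : ∀ c ∈ U, c ∉ Q)
    (lr : ∀ c ∈ L, ∀ c' ∈ R, c ≠ c' ∧ ¬ G.Adj c c') (lu : ∀ c ∈ L, ∀ c' ∈ U, c ≠ c' ∧ ¬ G.Adj c c')
    (ru : ∀ c ∈ R, ∀ c' ∈ U, c ≠ c' ∧ ¬ G.Adj c c') (uu : ∀ c ∈ U, ∀ c' ∈ U, ¬ G.Adj c c')
    (hU : ∀ c ∈ U, ∀ s ∈ Q, G.Adj c s) : LinOn G Set.univ := by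
  classical
  let id : V → ℤ := fun v => (Fintype.equivFin V v : ℕ)
  have id0 : ∀ v, 0 ≤ id v ∧ id v < Fintype.card V := fun v =>
    ⟨Int.natCast_nonneg _, Int.ofNat_lt.2 (Fintype.equivFin V v).2⟩
  have idi : ∀ u v, u ≠ v → id u ≠ id v := fun u v h e =>
    h ((Fintype.equivFin V).injective (Fin.ext (by simpa [id] using e)))
  set M : ℤ := Fintype.card V + 1 with hM
  let F : V → ℤ ×ₗ ℤ := fun v => if v ∈ Q then toLex (0, p v) else if v ∈ L then toLex (0, f v) else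
    if v ∈ R then toLex (M, f' v) else toLex (-id v - 1, 0)
  let E : V → ℤ ×ₗ ℤ := fun v => if v ∈ Q then toLex (M, p' v) else if v ∈ L then toLex (0, g v) else
    if v ∈ R then toLex (M, g' v) else toLex (id v + 1, 0)
  have eQ : ∀ v ∈ Q, F v = toLex (0, p v) ∧ E v = toLex (M, p' v) := fun v hv => by simp [F, E, hv]
  have eL : ∀ v ∈ L, F v = toLex (0, f v) ∧ E v = toLex (0, g v) := fun v hv => by
    simp [F, E, hv, lq v hv]
  have eR : ∀ v ∈ R, F v = toLex (M, f' v) ∧ E v = toLex (M, g' v) := fun v hv => by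
    have : v ∉ L := fun h => (lr v h v hv).1 rfl
    simp [F, E, hv, rq v hv, this]
  have eU : ∀ v ∈ U, F v = toLex (-id v - 1, 0) ∧ E v = toLex (id v + 1, 0) := fun v hv => by
    have h1 : v ∉ L := fun h => (lu v h v hv).1 rfl
    have h2 : v ∉ R := fun h => (ru v h v hv).1 rfl
    simp [F, E, uq v hv, h1, h2]
  have M0 : 0 < M := by positivity
  refine linOn_of_repO (f := F) (g := E) ⟨fun v _ => ?_, fun u _ v _ huv => ?_⟩
  · have := id0 v
    rcases cov v with h | h | h | h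
    · rw [(eQ v h).1, (eQ v h).2, lex_lt]; grind
    · have := hL.rep.1 v h
      rw [(eL v h).1, (eL v h).2, lex_lt]; grind
    · have := hR.rep.1 v h
      rw [(eR v h).1, (eR v h).2, lex_lt]; grind
    · rw [(eU v h).1, (eU v h).2, lex_lt]; grind
  · have := id0 v
    have := id0 u
    have := idi u v huv
    rcases cov u with h | h | h | h <;> rcases cov v with h' | h' | h' | h'
    · have := inj u h v h' huv
      have := m1 u h v h'
      have := m1 v h' u h
      have := m2 u h v h'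
      have := m2 v h' u h
      simp only [eQ u h, eQ v h', lex_lt, lex_ne, Cross, hQ u h v h' huv, true_iff]; grind
    · have := hL.na v h' u h
      rw [G.adj_comm]
      simp only [eQ u h, eL v h', lex_lt, lex_ne, Cross, hL.dq v h' u h]; grind
    · have := hR.na v h' u h
      rw [G.adj_comm]
      simp only [eQ u h, eR v h', lex_lt, lex_ne, Cross, hR.dq v h' u h]; grind
    · rw [G.adj_comm]
      simp only [eQ u h, eU v h', lex_lt, lex_ne, Cross, hU v h' u h, true_iff]; grind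
    · have := hL.na u h v h'
      simp only [eL u h, eQ v h', lex_lt, lex_ne, Cross, hL.dq u h v h']; grind
    · obtain ⟨a1, a2, a3, a4⟩ := hL.rep.2 u h v h' huv
      simp only [eL u h, eL v h', lex_lt, lex_ne, Cross, a4]; grind
    · simp only [eL u h, eR v h', lex_lt, lex_ne, Cross, (lr u h v h').2, false_iff]; grind
    · simp only [eL u h, eU v h', lex_lt, lex_ne, Cross, (lu u h v h').2, false_iff]; grind
    · have := hR.na u h v h'
      simp only [eR u h, eQ v h', lex_lt, lex_ne, Cross, hR.dq u h v h']; grind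
    · rw [G.adj_comm]
      simp only [eR u h, eL v h', lex_lt, lex_ne, Cross, (lr v h' u h).2, false_iff]; grind
    · obtain ⟨a1, a2, a3, a4⟩ := hR.rep.2 u h v h' huv
      simp only [eR u h, eR v h', lex_lt, lex_ne, Cross, a4]; grind
    · simp only [eR u h, eU v h', lex_lt, lex_ne, Cross, (ru u h v h').2, false_iff]; grind
    · simp only [eU u h, eQ v h', lex_lt, lex_ne, Cross, hU u h v h', true_iff]; grind
    · rw [G.adj_comm]
      simp only [eU u h, eL v h', lex_lt, lex_ne, Cross, (lu v h' u h).2, false_iff]; grind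
    · rw [G.adj_comm]
      simp only [eU u h, eR v h', lex_lt, lex_ne, Cross, (ru v h' u h).2, false_iff]; grind
    · simp only [eU u h, eU v h', lex_lt, lex_ne, Cross, uu u h v h', false_iff]; grind

/-- substituting a component that does not distinguish the vertices of the clique -/
theorem subst_triv [Fintype V] {Q D : Set V} {f g α : V → ℤ} (h : Side G Q D f g α) {z : V} (hz : z ∈ D)
    (zq : ∀ s ∈ Q, G.Adj z s) (triv : ∀ s ∈ Q, ∀ s' ∈ Q, α s = α s')
    (out : ∀ c ∈ D, ∀ x, x ∉ D → x ∉ Q → ¬ G.Adj c x)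
    (hrest : LinOn G {v | v ∉ D ∨ v = z}) : LinOn G Set.univ := by
  classical
  obtain ⟨F, E, h1, h2⟩ := hrest
  obtain ⟨a0, ha0, hb0⟩ : ∃ a0 : ℤ, (∀ s ∈ Q, α s = a0) ∧ True := by
    by_cases hq : Q.Nonempty
    · obtain ⟨s, hs⟩ := hq
      exact ⟨α s, fun s' hs' => triv s' hs' s hs, trivial⟩
    · exact ⟨0, fun s hs => absurd ⟨s, hs⟩ hq, trivial⟩
  have lz := h1 z (Or.inr rfl)
  have mix : ∀ c ∈ D, ∀ x, x ∉ D → F x < E x ∧ F z ≠ F x ∧ E z ≠ E x ∧ F z ≠ E x ∧ F x ≠ E z ∧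
      (G.Adj c x ↔ (f c < a0 ∧ a0 ≤ g c) ∧ Cross (F z) (E z) (F x) (E x)) := by
    intro c hc x hx
    have hne : z ≠ x := fun e => hx (e ▸ hz)
    obtain ⟨a1, a2, a3, a4⟩ := h2 z (Or.inr rfl) x (Or.inl hx) hne
    obtain ⟨-, -, a5, -⟩ := h2 x (Or.inl hx) z (Or.inr rfl) hne.symm
    refine ⟨h1 x (Or.inl hx), a1, a2, a3, a5, ?_⟩
    rw [← a4]
    by_cases hq : x ∈ Q
    · have := h.na c hc x hq
      rw [h.dq c hc x hq, ha0 x hq] at *
      simp only [zq x hq, and_true]; omega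
    · simp [out c hc x hx hq, out z hz x hx hq]
  refine linOn_of_repO
    (f := fun v => if v ∈ D then toLex (if f v < a0 then F z else E z, f v) else toLex (F v, 0))
    (g := fun v => if v ∈ D then toLex (if g v < a0 then F z else E z, g v) else toLex (E v, 0))
    ⟨fun v _ => ?_, fun u _ v _ huv => ?_⟩
  · by_cases hv : v ∈ D
    · have := h.rep.1 v hv
      simp only [if_pos hv, lex_lt]; split_ifs <;> grind
    · have := h1 v (Or.inl hv)
      simp only [if_neg hv, lex_lt]; grind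
  · by_cases hu : u ∈ D <;> by_cases hv : v ∈ D
    · obtain ⟨a1, a2, a3, a4⟩ := h.rep.2 u hu v hv huv
      have := h.rep.1 v hv
      have := h.rep.1 u hu
      simp only [if_pos hu, if_pos hv, lex_lt, lex_ne, Cross, a4]; split_ifs <;> grind
    · obtain ⟨a0, a1, a2, a3, a4, a5⟩ := mix u hu v hv
      have := h.rep.1 u hu
      simp only [if_pos hu, if_neg hv, lex_lt, lex_ne, Cross, a5]; split_ifs <;> grind
    · obtain ⟨a0, a1, a2, a3, a4, a5⟩ := mix v hv u hu
      have := h.rep.1 v hv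
      rw [G.adj_comm]
      simp only [if_neg hu, if_pos hv, lex_lt, lex_ne, Cross, a5]; split_ifs <;> grind
    · obtain ⟨a1, a2, a3, a4⟩ := h2 u (Or.inl hu) v (Or.inl hv) huv
      simp only [if_neg hu, if_neg hv, lex_lt, lex_ne, Cross, a4]; grind

/-- parity of a zigzag -/
theorem Side.zigzag {Q D : Set V} {f g α : V → ℤ} (h : Side G Q D f g α) {a b c : V} (ha : a ∈ Q)
    (hb : b ∈ Q) (hc : c ∈ Q) (ab : α a < α b) (bc : α b < α c) {p : ℕ → V} {n : ℕ} (n1 : 1 ≤ n)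
    (hp : IP G p n) (pD : ∀ i, i ≤ n → p i ∈ D) (c0 : G.Adj (p 0) c)
    (cn : ∀ i, 0 < i → i ≤ n → ¬ G.Adj (p i) c) (inn : ∀ i, i < n → G.Adj (p i) a ∧ G.Adj (p i) b)
    (sp : ¬ (G.Adj (p n) a ↔ G.Adj (p n) b)) : G.Adj (p n) a ↔ n % 2 = 1 := by
  have pr : ∀ i j, i ≤ n → j ≤ n → i ≠ j → f (p i) ≠ f (p j) ∧ g (p i) ≠ g (p j) ∧
      ((i + 1 = j ∨ j + 1 = i) ↔ Cross (f (p i)) (g (p i)) (f (p j)) (g (p j))) := by
    intro i j hi hj hij
    obtain ⟨a1, a2, -, a4⟩ := h.rep.2 _ (pD i hi) _ (pD j hj) (fun e => hij (hp.2 _ _ hi hj e))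
    exact ⟨a1, a2, by rw [← a4, hp.1 _ _ hi hj]⟩
  have ins : ∀ i, i < n → f (p i) < α a ∧ α b < g (p i) := fun i hi =>
    ⟨((h.dq _ (pD i hi.le) a ha).1 (inn i hi).1).1, ((h.dq _ (pD i hi.le) b hb).1 (inn i hi).2).2⟩
  have e0 := (h.dq _ (pD 0 (by omega)) c hc).1 c0
  have en : ∀ i, 0 < i → i ≤ n → ¬ (f (p i) < α c ∧ α c < g (p i)) ∧ g (p i) ≠ α c := fun i i0 hi =>
    ⟨by rw [← h.dq _ (pD i hi) c hc]; exact cn i i0 hi, (h.na _ (pD i hi) c hc).2⟩
  have key : ∀ i, i + 1 < n → ((i % 2 = 0 → f (p (i + 1)) < f (p i) ∧ g (p (i + 1)) < g (p i)) ∧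
      (i % 2 = 1 → f (p i) < f (p (i + 1)) ∧ g (p i) < g (p (i + 1)))) ∧
      ∀ j, j + 1 = i → f (p j) < f (p (i + 1)) ∧ g (p (i + 1)) < g (p j) := by
    intro i
    induction i using Nat.strong_induction_on with
    | _ i ih =>
      intro hi
      have c1 := pr i (i + 1) (by omega) (by omega) (by omega)
      have i1 := ins i (by omega)
      have i2 := ins (i + 1) (by omega)
      have e1 := en (i + 1) (by omega) (by omega)
      rcases i with _ | i
      · unfold Cross at c1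
        refine ⟨by omega, by omega⟩
      have c2 := pr i (i + 1 + 1) (by omega) (by omega) (by omega)
      have i3 := ins i (by omega)
      have k1 := ih i (by omega) (by omega)
      rcases i with _ | i
      · unfold Cross at c1 c2
        refine ⟨by omega, ?_⟩
        intro j hj
        obtain rfl : j = 0 := by omega
        omega
      have c3 := pr i (i + 1 + 1 + 1) (by omega) (by omega) (by omega)
      have i4 := ins i (by omega)
      have k2 := k1.2 i rfl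
      have k3 := (ih i (by omega) (by omega)).1
      unfold Cross at c1 c2 c3
      refine ⟨by omega, ?_⟩
      intro j hj
      obtain rfl : j = i + 1 := by omega
      omega
  obtain ⟨m, rfl⟩ : ∃ m, n = m + 1 := ⟨n - 1, by omega⟩
  have c1 := pr m (m + 1) (by omega) (by omega) (by omega)
  have i1 := ins m (by omega)
  have e1 := en (m + 1) (by omega) (by omega)
  have n1 := h.na _ (pD (m + 1) le_rfl) a ha
  have n2 := h.na _ (pD (m + 1) le_rfl) b hb
  rw [h.dq _ (pD (m + 1) le_rfl) a ha] at sp ⊢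
  rw [h.dq _ (pD (m + 1) le_rfl) b hb] at sp
  rcases m with _ | m
  · unfold Cross at c1; omega
  have c2 := pr m (m + 1 + 1) (by omega) (by omega) (by omega)
  have i2 := ins m (by omega)
  have k1 := (key m (by omega)).1
  unfold Cross at c1 c2; omega

end Pool.Agent.Lib.MP_d7353d_co
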