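import Pool.Agent.Lib.MP_d7353d_co.ChPC

namespace Pool.Agent.Lib.MP_d7353d_co

variable {V : Type} {G : SimpleGraph V}

def Cyc (H : SimpleGraph V) (p : ℕ → V) (n : ℕ) : Prop :=
  2 ≤ n ∧ (∀ i j, i ≤ n → j ≤ n → p i = p j → i = j) ∧ ∀ i j, i ≤ n → j ≤ n →
    (H.Adj (p i) (p j) ↔ i + 1 = j ∨ j + 1 = i ∨ (i = 0 ∧ j = n) ∨ (j = 0 ∧ i = n))

lemma closed_path [Fintype V] (H : SimpleGraph V)
    (d3 : ∀ w x y z, H.Adj w x → H.Adj w y → H.Adj w z → x = y ∨ x = z ∨ y = z)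
    (nc : ∀ p n, ¬ Cyc H p n) (a : V) : ∃ p n, IP H p n ∧ (∃ i, i ≤ n ∧ p i = a) ∧
      ∀ i, i ≤ n → ∀ x, H.Adj (p i) x → ∃ j, j ≤ n ∧ p j = x := by
  classical
  let P : ℕ → Prop := fun n => ∃ p, IP H p n ∧ ∃ i, i ≤ n ∧ p i = a
  have bd : ∀ n, P n → n ≤ Fintype.card V := by
    rintro n ⟨p, hp, -⟩
    have := Fintype.card_le_of_injective (fun i : Fin (n + 1) => p i.val)
      fun i j e => Fin.ext (hp.2 _ _ (by omega) (by omega) e)
    simp at this; omega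
  have p0 : P 0 := ⟨fun _ => a, ip_const a, 0, le_rfl, rfl⟩
  obtain ⟨p, hp, i0, hi0, e0⟩ : P (Nat.findGreatest P (Fintype.card V)) :=
    Nat.findGreatest_spec (Nat.zero_le _) p0
  have mx : ∀ m, Nat.findGreatest P (Fintype.card V) < m → ¬ P m := fun m hm h =>
    Nat.findGreatest_is_greatest hm (bd m h) h
  generalize Nat.findGreatest P (Fintype.card V) = n at *
  refine ⟨p, n, hp, ⟨i0, hi0, e0⟩, fun i hi x hx => ?_⟩
  by_contra hc
  push Not at hc
  have inn : ∀ j, 0 < j → j < n → ¬ H.Adj (p j) x := by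
    intro j j0 jn h
    have := d3 _ _ _ _ h ((hp.1 j (j + 1) (by omega) (by omega)).2 (by omega))
      ((hp.1 j (j - 1) (by omega) (by omega)).2 (by omega))
    have := hc (j + 1) (by omega)
    have := hc (j - 1) (by omega)
    have := hp.2 (j + 1) (j - 1) (by omega) (by omega)
    grind
  have sy := H.adj_comm
  by_cases h1 : H.Adj (p n) x
  · by_cases h2 : 0 < n ∧ H.Adj (p 0) x
    · have ir := H.irrefl (v := x)
      refine nc (cat p n fun _ => x) (n + 1) ⟨by omega, fun i j hi hj => ?_, fun i j hi hj => ?_⟩ <;> unfold cat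
      · have := hp.2 i j
        grind
      · have := hp.1 i j
        have := inn i
        have := inn j
        grind
    · refine mx (n + 1 + 0) (by omega) ⟨_, hp.cat (ip_const x) (fun i j hi hj => ?_) (fun i j hi _ => hc i hi),
        i0, by omega, by simp [cat, hi0, e0]⟩
      have := inn i
      grind
  · refine mx (0 + 1 + n) (by omega) ⟨_, (ip_const x).cat hp (fun i j hi hj => ?_)
      (fun i j _ hj => (hc j hj).symm), i0 + 1, by omega, by simp [cat, e0]⟩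
    have := inn j
    have := inn i
    grind

theorem label [Fintype V] (H : SimpleGraph V)
    (d3 : ∀ w x y z, H.Adj w x → H.Adj w y → H.Adj w z → x = y ∨ x = z ∨ y = z)
    (nc : ∀ p n, ¬ Cyc H p n) : ∃ cp ix : V → ℤ,
      (∀ a b, H.Adj a b ↔ cp a = cp b ∧ (ix a + 1 = ix b ∨ ix b + 1 = ix a)) ∧
      (∀ a b, cp a = cp b → ix a = ix b → a = b) ∧
      ∀ a b, cp a = cp b → ∀ j, ix a ≤ j → j ≤ ix b → ∃ c, cp c = cp a ∧ ix c = j := by
  classical
  have key : ∀ K : H.ConnectedComponent, ∃ p n, IP H p n ∧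
      ∀ x, H.connectedComponentMk x = K ↔ ∃ i, i ≤ n ∧ p i = x := by
    refine SimpleGraph.ConnectedComponent.ind fun a => ?_
    obtain ⟨p, n, hp, ⟨i0, hi0, e0⟩, cl⟩ := closed_path H d3 nc a
    have r0 : ∀ i, i ≤ n → H.Reachable (p 0) (p i) := by
      intro i
      induction i with
      | zero => intro _; rfl
      | succ i ih => exact fun hi => (ih (by omega)).trans ((hp.1 i (i + 1) (by omega) hi).2 (by omega)).reachable
    refine ⟨p, n, hp, fun x => ?_⟩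
    rw [SimpleGraph.ConnectedComponent.eq]
    constructor
    · intro h
      have := (SimpleGraph.reachable_iff_reflTransGen _ _).1 h.symm
      clear h
      induction this with
      | refl => exact ⟨i0, hi0, e0⟩
      | tail _ h2 ih =>
        obtain ⟨i, hi, rfl⟩ := ih
        exact cl i hi _ h2
    · rintro ⟨i, hi, rfl⟩
      exact (r0 i hi).symm.trans (e0 ▸ r0 i0 hi0)
  choose P N hP hK using key
  choose I hI eI using fun x => (hK _ x).1 rfl
  let _ : Fintype H.ConnectedComponent := Fintype.ofFinite _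
  obtain ⟨id, -, idi⟩ := exists_id H.ConnectedComponent
  have e : ∀ a b, id (H.connectedComponentMk a) = id (H.connectedComponentMk b) ↔
      H.connectedComponentMk a = H.connectedComponentMk b := fun a b =>
    ⟨fun h => by_contra fun h' => idi _ _ h' h, fun h => by rw [h]⟩
  refine ⟨fun a => id (H.connectedComponentMk a), fun a => I a, fun a b => ?_, fun a b h1 h2 => ?_,
    fun a b h j h1 h2 => ?_⟩
  · rw [e]
    by_cases h : H.connectedComponentMk a = H.connectedComponentMk b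
    · have := (hP _).1 (I a) (I b) (hI a) (h ▸ hI b)
      rw [eI a] at this
      rw [h, eI b] at this
      rw [this]; simp only [h, true_and]; omega
    · simp only [h, false_and, iff_false]
      exact fun h' => h (SimpleGraph.ConnectedComponent.eq.2 h'.reachable)
  · rw [e] at h1
    have h3 : I a = I b := by simpa using h2
    rw [← eI a, ← eI b, h1, h3]
  · rw [e] at h
    dsimp only at *
    have h3 := hI b
    rw [← h] at h3
    have h4 : j.toNat ≤ N (H.connectedComponentMk a) := by omega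
    have h5 := (hK _ _).2 ⟨_, h4, rfl⟩
    refine ⟨P (H.connectedComponentMk a) j.toNat, by rw [h5], ?_⟩
    have h6 := eI (P (H.connectedComponentMk a) j.toNat)
    have h7 := hI (P (H.connectedComponentMk a) j.toNat)
    rw [h5] at h6 h7
    have := (hP _).2 _ _ h7 h4 h6
    omega

structure Lab (G : SimpleGraph V) (Q T : Set V) (cp ix C A : V → ℤ) : Prop where
  adj : ∀ t ∈ T, ∀ s ∈ Q, (G.Adj t s ↔ C s = cp t ∧ 2 * ix t - 1 ≤ A s ∧ A s ≤ 2 * ix t + 1)
  inj : ∀ t ∈ T, ∀ t' ∈ T, cp t = cp t' → ix t = ix t' → t = t'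
  cont : ∀ t ∈ T, ∀ t' ∈ T, cp t = cp t' → ∀ j, ix t ≤ j → j ≤ ix t' → ∃ m ∈ T, cp m = cp t ∧ ix m = j
  jun : ∀ t ∈ T, ∀ t' ∈ T, cp t = cp t' → ix t + 1 = ix t' → ∃ s ∈ Q, G.Adj t s ∧ G.Adj t' s
  odd : ∀ t ∈ T, ∀ s ∈ Q, G.Adj t s → A s ≠ 2 * ix t → ∃ m ∈ T, cp m = cp t ∧ ix m + ix t = A s
  cov : ∀ s ∈ Q, ∀ s' ∈ Q, s ≠ s' → C s = C s' → ∃ t ∈ T, G.Adj t s

variable {Q T : Set V} {D : Bool → Set V} {α : Bool → V → ℤ}

lemma Cfg.two (H : Ok G) (C : Cfg G Q T D α) {s : V} (hs : s ∈ Q) (h : ∃ t ∈ T, G.Adj t s) :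
    ∃ t1 ∈ T, ∃ t2 ∈ T, G.Adj t1 s ∧ G.Adj t2 s ∧ ∀ t ∈ T, G.Adj t s → t = t1 ∨ t = t2 := by
  obtain ⟨t1, h1, a1⟩ := h
  by_cases h : ∃ t2 ∈ T, G.Adj t2 s ∧ t2 ≠ t1
  · obtain ⟨t2, h2, a2, e⟩ := h
    refine ⟨t1, h1, t2, h2, a1, a2, fun t ht a => ?_⟩
    have := C.t3 H h1 h2 ht hs a1 a2 a
    grind
  · exact ⟨t1, h1, t1, h1, a1, a1, by grind⟩

theorem Cfg.lab [Fintype V] (H : Ok G) (C : Cfg G Q T D α) (tq : ∀ t ∈ T, t ∉ Q)
    (nc : ∀ p n, ¬ Cyc (ov G Q T) p n) : ∃ cp ix C A, Lab G Q T cp ix C A := by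
  obtain ⟨cp, ix, h1, h2, h3⟩ := label (ov G Q T) (fun w x y z => C.d3 H) nc
  have iso : ∀ a b, cp a = cp b → a = b ∨ a ∈ T := by
    intro a b e
    rcases lt_trichotomy (ix a) (ix b) with h | h | h
    · obtain ⟨c, c1, c2⟩ := h3 a b e (ix a + 1) (by omega) (by omega)
      exact Or.inr ((h1 a c).2 (by omega)).2.1
    · exact Or.inl (h2 a b e h)
    · obtain ⟨c, c1, c2⟩ := h3 b a e.symm (ix a - 1) (by omega) (by omega)
      exact Or.inr ((h1 a c).2 (by omega)).2.1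
  have : ∀ s, ∃ r1 r2, s ∈ Q → (r1 ∈ T ∧ r2 ∈ T ∧ G.Adj r1 s ∧ G.Adj r2 s ∧ cp r1 = cp r2 ∧
      (r1 = r2 ∨ ix r1 + 1 = ix r2 ∨ ix r2 + 1 = ix r1) ∧ ∀ t ∈ T, G.Adj t s → t = r1 ∨ t = r2) ∨
      (r1 = s ∧ ∀ t ∈ T, ¬ G.Adj t s) := by
    intro s
    by_cases hs : s ∈ Q
    swap
    · exact ⟨s, s, fun h => absurd h hs⟩
    by_cases h : ∃ t ∈ T, G.Adj t s
    · obtain ⟨t1, a1, t2, a2, a3, a4, a5⟩ := C.two H hs h
      refine ⟨t1, t2, fun _ => Or.inl ?_⟩
      by_cases e : t1 = t2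
      · grind
      · have := (h1 t1 t2).1 ⟨e, a1, a2, s, hs, a3, a4⟩
        grind
    · exact ⟨s, s, fun _ => Or.inr (by grind)⟩
  choose r1 r2 hr using this
  refine ⟨cp, ix, fun s => cp (r1 s), fun s => ix (r1 s) + ix (r2 s), fun t ht s hs => ?_,
    fun t _ t' _ => h2 t t', fun t ht t' ht' e j a1 a2 => ?_, fun t ht t' ht' e e' => ?_,
    fun t ht s hs a1 a2 => ?_, fun s hs s' hs' e e' => ?_⟩
  · have := h2 t (r1 s)
    have := h2 t (r2 s)
    have := iso s t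
    have := tq t ht
    have := tq s
    rcases hr s hs with h | h <;> grind
  · obtain ⟨c, c1, c2⟩ := h3 t t' e j a1 a2
    have := iso c t c1
    exact ⟨c, by grind, c1, c2⟩
  · exact ((h1 t t').2 ⟨e, Or.inl e'⟩).2.2.2
  · rcases hr s hs with h | h
    · rcases h.2.2.2.2.2.2 t ht a1 with e | e
      · exact ⟨r2 s, by grind⟩
      · exact ⟨r1 s, by grind⟩
    · exact absurd a1 (h.2 t ht)
  · rcases hr s hs with h | h
    · exact ⟨_, h.1, h.2.2.1⟩
    · have := iso (r1 s) (r1 s') e'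
      have := tq s
      have := tq s'
      rcases hr s' hs' with h' | h' <;> grind

/-- facts about the level function on the neighbourhoods of tips -/
structure TW (G : SimpleGraph V) (Q T : Set V) (w : V → ℤ) : Prop where
  jc : ∀ t ∈ T, ∀ s ∈ T, t ≠ s → ∀ a ∈ Q, ∀ b ∈ Q, G.Adj t a ∧ G.Adj s a ∧ G.Adj t b ∧ G.Adj s b → w a = w b
  f2 : ∀ t ∈ T, ∀ s ∈ T, t ≠ s → ∀ a ∈ Q, ∀ b ∈ Q, ∀ c ∈ Q, ∀ d ∈ Q,
    G.Adj t a ∧ G.Adj t b ∧ G.Adj s c ∧ G.Adj s d → w a < w b → w c < w d → w b ≤ w c ∨ w d ≤ w a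
  s2 : ∀ t ∈ T, ∀ s ∈ T, t ≠ s → ∀ a ∈ Q, ∀ v ∈ Q, ∀ b ∈ Q,
    G.Adj t a ∧ G.Adj t v ∧ G.Adj t b ∧ G.Adj s v → w a < w v → w b ≤ w v
  s3 : ∀ t ∈ T, ∀ m ∈ T, ∀ n ∈ T, t ≠ m → t ≠ n → (∀ s ∈ Q, G.Adj m s → ¬ G.Adj n s) → ∀ a ∈ Q, ∀ b ∈ Q,
    ∀ x ∈ Q, G.Adj t a ∧ G.Adj m a ∧ G.Adj t b ∧ G.Adj n b ∧ G.Adj t x → w a = w b → w x = w a

lemma Cfg.tw (H : Ok G) (C : Cfg G Q T D α) : TW G Q T (wt α) :=
  ⟨fun _ a _ b c _ d _ e => C.jc H a b c d e, fun _ a _ b c _ d _ e _ f _ g => C.f2 H a b c d e f g,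
    fun _ a _ b c _ d _ e _ f => C.s2 H a b c d e f, fun _ a _ b _ c d e f _ g _ h _ i => C.s3 H a b c d e f g h i⟩

variable {w cp ix C A : V → ℤ}

lemma TW.neg (h : TW G Q T w) : TW G Q T fun v => - w v := by
  refine ⟨fun t ht s hs e a ha b hb k => ?_, fun t ht s hs e a ha b hb c hc d hd k => ?_,
    fun t ht s hs e a ha v hv b hb k => ?_, fun t ht m hm n hn e1 e2 e3 a ha b hb x hx k => ?_⟩
  · have := h.jc t ht s hs e a ha b hb k; omega
  · have := h.f2 t ht s hs e b hb a ha d hd c hc (by tauto); omega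
  · have := h.s2 t ht s hs e b hb v hv a ha (by tauto); omega
  · have := h.s3 t ht m hm n hn e1 e2 e3 a ha b hb x hx k; omega

theorem Lab.step (L : Lab G Q T cp ix C A) (W : TW G Q T w) (R : V → V → Prop)
    (co : ∀ a b v, R a b → R a v ∨ R v b) (ne : ∀ a b, R a b → w a ≠ w b) :
    ∀ n : ℕ, ∀ t ∈ T, ∀ t' ∈ T, cp t = cp t' → ix t' = ix t + n → ∀ s ∈ Q, ∀ s' ∈ Q, G.Adj t s →
      G.Adj t' s' → R s s' → ∃ m ∈ T, cp m = cp t ∧ ix t ≤ ix m ∧ ix m ≤ ix t' ∧ ∃ a ∈ Q, ∃ b ∈ Q,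
        G.Adj m a ∧ G.Adj m b ∧ R a b ∧ ((t = t' → A s < A s') → A a < A b) := by
  intro n
  induction n with
  | zero =>
    intro t ht t' ht' e e' s hs s' hs' a1 a2 r
    obtain rfl := L.inj t ht t' ht' e (by omega)
    exact ⟨t, ht, rfl, le_rfl, le_rfl, s, hs, s', hs', a1, a2, r, fun h => h rfl⟩
  | succ n ih =>
    intro t ht t' ht' e e' s hs s' hs' a1 a2 r
    obtain ⟨m, hm, m1, m2⟩ := L.cont t ht t' ht' e (ix t + 1) (by omega) (by omega)
    obtain ⟨v, hv, v1, v2⟩ := L.jun t ht m hm m1.symm m2.symm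
    have j := W.jc t ht m hm (by grind)
    have b1 := L.adj t ht v hv
    have b2 := L.adj m hm v hv
    rcases co s s' v r with r' | r'
    · refine ⟨t, ht, rfl, le_rfl, by omega, s, hs, v, hv, a1, v1, r', fun _ => ?_⟩
      have := ne _ _ r'
      have := j s hs v hv
      have := L.adj t ht s hs
      have := L.adj m hm s hs
      grind
    · obtain ⟨x, hx, x1, x2, x3, a, ha, b, hb, c1, c2, c3, c4⟩ :=
        ih m hm t' ht' (by omega) (by omega) v hv s' hs' v2 a2 r'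
      refine ⟨x, hx, by omega, by omega, x3, a, ha, b, hb, c1, c2, c3, fun _ => c4 ?_⟩
      rintro rfl
      have := ne _ _ r'
      have := j v hv s' hs'
      have := L.adj t ht s' hs'
      have := L.adj m hm s' hs'
      grind

theorem Lab.step' (L : Lab G Q T cp ix C A) (W : TW G Q T w) (R : V → V → Prop)
    (co : ∀ a b v, R a b → R a v ∨ R v b) (ne : ∀ a b, R a b → w a ≠ w b) {t t' s s' : V} (ht : t ∈ T)
    (ht' : t' ∈ T) (e : cp t = cp t') (hs : s ∈ Q) (hs' : s' ∈ Q) (a1 : G.Adj t s) (a2 : G.Adj t' s')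
    (r : R s s') : ∃ m ∈ T, cp m = cp t ∧ ((ix t ≤ ix m ∧ ix m ≤ ix t') ∨ (ix t' ≤ ix m ∧ ix m ≤ ix t)) ∧
      ∃ a ∈ Q, ∃ b ∈ Q, G.Adj m a ∧ G.Adj m b ∧ R a b := by
  rcases le_total (ix t) (ix t') with h | h
  · obtain ⟨m, hm, m1, m2, m3, a, ha, b, hb, c1, c2, c3, -⟩ :=
      L.step W R co ne (ix t' - ix t).toNat t ht t' ht' e (by omega) s hs s' hs' a1 a2 r
    exact ⟨m, hm, m1, Or.inl ⟨m2, m3⟩, a, ha, b, hb, c1, c2, c3⟩
  · obtain ⟨m, hm, m1, m2, m3, a, ha, b, hb, c1, c2, c3, -⟩ :=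
      L.step W (fun a b => R b a) (fun a b v h => (co b a v h).symm) (fun a b h => (ne b a h).symm)
        (ix t - ix t').toNat t' ht' t ht e.symm (by omega) s' hs' s hs a2 a1 r
    exact ⟨m, hm, by omega, Or.inr ⟨m2, m3⟩, b, hb, a, ha, c2, c1, c3⟩

def Asc (G : SimpleGraph V) (Q : Set V) (A w : V → ℤ) (t : V) : Prop :=
  ∃ a ∈ Q, ∃ b ∈ Q, G.Adj t a ∧ G.Adj t b ∧ w a < w b ∧ A a < A b

lemma Lab.loc (L : Lab G Q T cp ix C A) (W : TW G Q T w) {t v : V} (ht : t ∈ T) (h : Asc G Q A w t)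
    (hv : v ∈ Q) (tv : G.Adj t v) : (A v = 2 * ix t + 1 → ∃ a ∈ Q, G.Adj t a ∧ w a < w v) ∧
      (A v = 2 * ix t - 1 → ∃ a ∈ Q, G.Adj t a ∧ w v < w a) := by
  obtain ⟨a, ha, b, hb, h1, h2, h3, h4⟩ := h
  have b1 := (L.adj t ht a ha).1 h1
  have b2 := (L.adj t ht b hb).1 h2
  have b3 := (L.adj t ht v hv).1 tv
  constructor
  · intro e
    obtain ⟨n, hn, n1, n2⟩ := L.odd t ht v hv tv (by omega)
    have nv := (L.adj n hn v hv).2 (by omega)
    by_cases hb' : A b = 2 * ix t + 1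
    · have := W.jc t ht n hn (by grind) b hb v hv ⟨h2, (L.adj n hn b hb).2 (by omega), tv, nv⟩
      exact ⟨a, ha, h1, by omega⟩
    obtain ⟨m, hm, m1, m2⟩ := L.odd t ht a ha h1 (by omega)
    have ma := (L.adj m hm a ha).2 (by omega)
    have := W.s3 t ht m hm n hn (by grind) (by grind)
      (fun s hs => by rw [L.adj m hm s hs, L.adj n hn s hs]; omega) a ha v hv b hb ⟨h1, ma, tv, nv, h2⟩
    have := W.s2 t ht m hm (by grind) v hv a ha b hb ⟨tv, h1, h2, ma⟩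
    exact ⟨a, ha, h1, by omega⟩
  · intro e
    obtain ⟨n, hn, n1, n2⟩ := L.odd t ht v hv tv (by omega)
    have nv := (L.adj n hn v hv).2 (by omega)
    by_cases hb' : A a = 2 * ix t - 1
    · have := W.jc t ht n hn (by grind) a ha v hv ⟨h1, (L.adj n hn a ha).2 (by omega), tv, nv⟩
      exact ⟨b, hb, h2, by omega⟩
    obtain ⟨m, hm, m1, m2⟩ := L.odd t ht b hb h2 (by omega)
    have ma := (L.adj m hm b hb).2 (by omega)
    have := W.s3 t ht m hm n hn (by grind) (by grind)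
      (fun s hs => by rw [L.adj m hm s hs, L.adj n hn s hs]; omega) b hb v hv a ha ⟨h2, ma, tv, nv, h1⟩
    have := W.s2 t ht m hm (by grind) a ha b hb v hv ⟨h1, h2, tv, ma⟩
    exact ⟨b, hb, h2, by omega⟩

lemma Lab.ad (L : Lab G Q T cp ix C A) (W : TW G Q T w) : ∀ n : ℕ, ∀ t ∈ T, ∀ t' ∈ T, cp t = cp t' →
    ix t' = ix t + n → Asc G Q A w t → Asc G Q A (fun v => - w v) t' → False := by
  intro n
  induction n using Nat.strong_induction_on with
  | _ n ih =>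
    intro t ht t' ht' e e' h h'
    by_cases n0 : n = 0
    · obtain rfl := L.inj t ht t' ht' e (by omega)
      have key : ∀ v ∈ Q, G.Adj t v → A v = 2 * ix t := by
        intro v hv tv
        by_contra hne
        obtain ⟨m, hm, m1, m2⟩ := L.odd t ht v hv tv hne
        have b := (L.adj t ht v hv).1 tv
        have mv := (L.adj m hm v hv).2 (by omega)
        have k1 := L.loc W ht h hv tv
        have k2 := L.loc W.neg ht h' hv tv
        have s2 := fun a ha b hb => W.s2 t ht m hm (by grind) a ha v hv b hb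
        by_cases e : A v = 2 * ix t + 1
        · obtain ⟨a, ha, a1⟩ := k1.1 e
          obtain ⟨b, hb, b1⟩ := k2.1 e
          have := s2 a ha b hb
          grind
        · have e2 : A v = 2 * ix t - 1 := by clear k1 k2; omega
          obtain ⟨a, ha, a1⟩ := k1.2 e2
          obtain ⟨b, hb, b1⟩ := k2.2 e2
          have := s2 b hb a ha
          grind
      obtain ⟨a, ha, b, hb, h1, h2, -, h4⟩ := h
      have := key a ha h1
      have := key b hb h2
      omega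
    obtain ⟨m, hm, m1, m2⟩ := L.cont t ht t' ht' e (ix t + 1) (by omega) (by omega)
    obtain ⟨m', hm', m3, m4⟩ := L.cont t ht t' ht' e (ix t' - 1) (by omega) (by omega)
    obtain ⟨v, hv, v1, v2⟩ := L.jun t ht m hm m1.symm m2.symm
    obtain ⟨v', hv', v3, v4⟩ := L.jun m' hm' t' ht' (by omega) (by omega)
    have b1 := (L.adj t ht v hv).1 v1
    have b2 := (L.adj m hm v hv).1 v2
    have b3 := (L.adj m' hm' v' hv').1 v3
    have b4 := (L.adj t' ht' v' hv').1 v4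
    obtain ⟨a, ha, a1, a2⟩ := (L.loc W ht h hv v1).1 (by omega)
    obtain ⟨b, hb, a3, a4⟩ := (L.loc W.neg ht' h' hv' v4).2 (by omega)
    have f2 := W.f2 t ht t' ht' (by grind) a ha v hv b hb v' hv' ⟨a1, v1, a3, v4⟩ a2 (by omega)
    have n2 : 2 ≤ n := by
      by_contra hn
      have := W.jc t ht t' ht' (by grind) v hv v' hv' ⟨v1, (L.adj t' ht' v hv).2 (by omega),
        (L.adj t ht v' hv').2 (by omega), v4⟩
      omega
    rcases lt_or_gt_of_ne (show w v ≠ w v' by omega) with hl | hl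
    · obtain ⟨x, hx, x1, x2, x3, c, hc, d, hd, c1, c2, c3, c4⟩ := L.step W (fun a b => w a < w b)
        (fun a b v h => by omega) (fun a b h => by omega) (n - 2) m hm m' hm' (by omega) (by omega)
        v hv v' hv' v2 v3 hl
      exact ih (ix t' - ix x).toNat (by omega) x hx t' ht' (by omega) (by omega)
        ⟨c, hc, d, hd, c1, c2, c3, c4 (by omega)⟩ h'
    · obtain ⟨x, hx, x1, x2, x3, c, hc, d, hd, c1, c2, c3, c4⟩ := L.step W (fun a b => w b < w a)
        (fun a b v h => by omega) (fun a b h => by omega) (n - 2) m hm m' hm' (by omega) (by omega)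
        v hv v' hv' v2 v3 hl
      exact ih (ix x - ix t).toNat (by omega) t ht x hx (by omega) (by omega) h
        ⟨c, hc, d, hd, c1, c2, by dsimp only; omega, c4 (by omega)⟩

lemma Lab.asc (L : Lab G Q T cp ix C A) (W : TW G Q T w) {s s' : V} (hs : s ∈ Q) (hs' : s' ∈ Q)
    (e : C s = C s') (h1 : A s < A s') (h2 : w s < w s') : ∃ t ∈ T, cp t = C s ∧ Asc G Q A w t := by
  obtain ⟨t, ht, a1⟩ := L.cov s hs s' hs' (by grind) e
  obtain ⟨t', ht', a2⟩ := L.cov s' hs' s hs (by grind) e.symm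
  have b1 := (L.adj t ht s hs).1 a1
  have b2 := (L.adj t' ht' s' hs').1 a2
  obtain ⟨x, hx, x1, x2, x3, c, hc, d, hd, c1, c2, c3, c4⟩ := L.step W (fun a b => w a < w b)
    (fun a b v h => by omega) (fun a b h => by omega) (ix t' - ix t).toNat t ht t' ht' (by omega) (by omega)
    s hs s' hs' a1 a2 h2
  exact ⟨x, hx, by omega, c, hc, d, hd, c1, c2, c3, c4 fun _ => h1⟩

theorem Lab.mono (L : Lab G Q T cp ix C A) (W : TW G Q T w) (κ : ℤ) : ∃ σ : ℤ, (σ = 1 ∨ σ = -1) ∧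
    ∀ s ∈ Q, ∀ s' ∈ Q, C s = κ → C s' = κ → σ * A s < σ * A s' → w s ≤ w s' := by
  by_contra hc
  push Not at hc
  obtain ⟨a, ha, b, hb, a1, a2, a3, a4⟩ := hc 1 (Or.inl rfl)
  obtain ⟨c, hc, d, hd, b1, b2, b3, b4⟩ := hc (-1) (Or.inr rfl)
  obtain ⟨t, ht, t1, t2⟩ := L.asc W hd hc (by omega) (by omega) b4
  obtain ⟨t', ht', t3, t4⟩ := L.asc W.neg ha hb (by omega) (by omega) (by omega)
  rcases le_total (ix t) (ix t') with h | h
  · exact L.ad W (ix t' - ix t).toNat t ht t' ht' (by omega) (by omega) t2 t4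
  · exact L.ad W.neg (ix t - ix t').toNat t' ht' t ht (by omega) (by omega) t4 (by simpa using t2)

end Pool.Agent.Lib.MP_d7353d_co
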