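import Pool.Agent.Lib.MP_d7353d_co.ChCore

namespace Pool.Agent.Lib.MP_d7353d_co

variable {V : Type} {G : SimpleGraph V}

lemma Rch.closed {D K : Set V} {a b : V} (h : Rch G D a b) (ha : a ∈ K)
    (hK : ∀ c ∈ K, ∀ v ∈ D, G.Adj c v → v ∈ K) : b ∈ K := by
  induction h with
  | refl => exact ha
  | tail _ h2 ih => exact hK _ ih _ h2.2.2 h2.1

lemma Rch.stuck {D : Set V} {a b : V} (h : Rch G D a b) (hb : ∀ v, G.Adj b v → v ∉ D) : a = b :=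
  h.symm.closed (K := {b}) rfl (by rintro c rfl v hv e; exact absurd hv (hb v e))

def comp (G : SimpleGraph V) (D : Set V) (x : V) : Set V := {v | Rch G D x v}

lemma comp_self (D : Set V) (x : V) : x ∈ comp G D x := Relation.ReflTransGen.refl

lemma comp_conn (D : Set V) (x : V) : Cnn G (comp G D x) := by
  have : ∀ v, Rch G D x v → Rch G (comp G D x) x v := by
    intro v h
    induction h with
    | refl => exact Relation.ReflTransGen.refl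
    | tail h1 h2 ih => exact ih.trans (Rch.step h2.1 h1 (Relation.ReflTransGen.tail h1 h2))
  exact fun a ha b hb => (this a ha).symm.trans (this b hb)

lemma comp_step {D : Set V} {x c v : V} (hx : x ∈ D) (hc : c ∈ comp G D x) (hv : v ∈ D) (h : G.Adj c v) :
    v ∈ comp G D x := Rch.trans hc (Rch.step h (Rch.mem hc hx) hv)

def Red2 (G : SimpleGraph V) (Q : Set V) : Prop :=
  Clq G Q ∧ (∃ x y, x ∉ Q ∧ y ∉ Q ∧ (∀ s ∈ Q, G.Adj x s) ∧ (∀ s ∈ Q, G.Adj y s) ∧ ¬ Rch G Qᶜ x y) ∧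
    ∀ x, x ∉ Q → ∀ u, ∃ v, v ∉ Q ∧ ¬ Rch G Qᶜ x v ∧ v ≠ u

lemma nr {S : Set V} (hS : Clq G S) {x y : V} (hx : x ∉ S) (hy : y ∉ S) (fx : ∀ s ∈ S, G.Adj x s)
    (fy : ∀ s ∈ S, G.Adj y s) (xy : ¬ Rch G Sᶜ x y) (h : ¬ Red2 G S) :
    ((∀ v, v ∉ S → v ≠ x → Rch G Sᶜ y v) ∧ ∀ v, G.Adj x v → v ∈ S) ∨
      ((∀ v, v ∉ S → v ≠ y → Rch G Sᶜ x v) ∧ ∀ v, G.Adj y v → v ∈ S) := by
  have : ∃ a, a ∉ S ∧ ∃ u, ∀ v, v ∉ S → ¬ Rch G Sᶜ a v → v = u := by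
    by_contra hc
    push Not at hc
    exact h ⟨hS, ⟨x, y, hx, hy, fx, fy, xy⟩, hc⟩
  obtain ⟨a, ha, u, hu⟩ := this
  have key : ∀ x y, x ∉ S → y ∉ S → ¬ Rch G Sᶜ x y → ¬ Rch G Sᶜ a x →
      (∀ v, v ∉ S → v ≠ x → Rch G Sᶜ y v) ∧ ∀ v, G.Adj x v → v ∈ S := by
    intro x y hx hy xy ax
    have e := hu x hx ax
    have r : ∀ v, v ∉ S → v ≠ x → Rch G Sᶜ a v := fun v hv ne => by
      by_contra hc
      exact ne ((hu v hv hc).trans e.symm)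
    have ay := r y hy (by rintro rfl; exact xy Relation.ReflTransGen.refl)
    refine ⟨fun v hv ne => ay.symm.trans (r v hv ne), fun v hv => ?_⟩
    by_contra hc
    exact ax ((r v hc hv.ne.symm).trans (Rch.step hv.symm hc hx))
  by_cases h1 : Rch G Sᶜ a x
  · exact Or.inr (key y x hy hx (fun e => xy e.symm) fun e => xy (h1.symm.trans e))
  · exact Or.inl (key x y hx hy xy h1)

lemma sd_empty {Q : Set V} (hQ : Clq G Q) : SD G Q ∅ fun _ => 0 :=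
  ⟨⟨_, _, side_empty Q⟩, by simp [Cnn], by simp, by simp, hQ⟩

theorem caseI [Fintype V] (H : Ok G) (ni : ∀ v, ∃ w, G.Adj v w) (h : ∀ Q, ¬ Red2 G Q) :
    LinOn G Set.univ := by
  let Tp : Set V := {t | Clq G {s | G.Adj t s} ∧ ∃ y, ¬ G.Adj t y ∧ y ≠ t ∧ (∀ s, G.Adj t s → G.Adj y s) ∧
    ∀ v, ¬ G.Adj t v → v ≠ t → Rch G {s | G.Adj t s}ᶜ y v}
  have hQ : Clq G Tpᶜ := by
    intro x hx y hy ne
    by_contra xy
    let K := comp G {s | G.Adj x s}ᶜ y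
    let S : Set V := {s | G.Adj x s ∧ ∃ c ∈ K, G.Adj c s}
    have Kx : ∀ c ∈ K, ¬ G.Adj x c := fun c hc => Rch.mem hc xy
    have xK : x ∉ K := fun hc => ne (Rch.stuck hc fun v hv hv' => hv' hv).symm
    have hS : Clq G S := by
      rintro s ⟨s1, c, hc, s2⟩ s' ⟨s3, c', hc', s4⟩ ne
      by_contra ss
      obtain ⟨p, n, hp, pK, p0, pn, p1, p2⟩ := short_path (G := G) (fun v => G.Adj v s) (fun v => G.Adj v s') hc
        (comp_conn _ _ c hc c' hc') s2 s4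
      have sy := G.adj_comm
      have P1 : IP G (cat (fun _ => s) 0 p) (0 + 1 + n) :=
        (ip_const s).cat hp (by grind) (by grind)
      have P2 : IP G (cat (cat (fun _ => s) 0 p) (0 + 1 + n) fun _ => s') (0 + 1 + n + 1 + 0) :=
        P1.cat (ip_const s') (by unfold cat; grind) (by unfold cat; grind)
      refine H.nh _ _ (by omega) P2 x ?_ ?_ ?_ ?_ <;> unfold cat
      · have := s1.ne
        have := s3.ne
        grind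
      all_goals grind
    obtain ⟨z, hz, zS⟩ := full_vertex H.nh hS (comp_conn _ y) (fun c hc e => Kx c hc e.1) (comp_self _ y)
    have zS' : ∀ s ∈ S, G.Adj z s := fun s hs => zS s hs hs.2
    have xz : ¬ Rch G Sᶜ x z := fun e => xK (e.symm.closed hz fun c hc v hv e' =>
      comp_step xy hc (fun e'' => hv ⟨e'', c, hc, e'⟩) e')
    rcases nr hS (fun e => G.irrefl e.1) (fun e => Kx z hz e.1) (fun s hs => hs.1) zS' xz (h S) with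
      ⟨h1, h2⟩ | ⟨h1, h2⟩
    · have e : S = {s | G.Adj x s} := Set.ext fun s => ⟨fun hs => hs.1, h2 s⟩
      rw [e] at hS h1 zS'
      exact hx ⟨hS, z, Kx z hz, fun e => xK (e ▸ hz), zS', h1⟩
    · obtain rfl : y = z := Rch.stuck hz fun v hv hv' => hv' (h2 v hv).1
      have e : S = {s | G.Adj y s} := Set.ext fun s => ⟨zS' s, h2 s⟩
      rw [e] at hS h1
      exact hy ⟨hS, x, fun e => xy e.symm, ne, fun s hs => (h2 s hs).1, h1⟩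
  have tt : ∀ t ∈ Tp, ∀ t' ∈ Tp, ¬ G.Adj t t' := by
    rintro t ⟨-, y, y1, y2, y3, -⟩ t' ⟨h', -⟩ e
    exact y1 (h' t e.symm y (y3 t' e).symm y2.symm)
  have F : Cfg G Tpᶜ {t | t ∈ Tp ∧ ∃ c ∈ Tpᶜ, ¬ G.Adj t c} (fun _ => ∅) fun _ _ => 0 := by
    refine ⟨fun _ => sd_empty hQ, by simp, by simp, fun t ht t' ht' => tt t ht.1 t' ht'.1, fun t ht => ht.2,
      fun t ht => ?_, ?_, by simp, by simp⟩
    · obtain ⟨w, hw⟩ := ni t
      exact ⟨w, fun e => tt t ht.1 w e hw, hw⟩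
    · rintro t ⟨ht, -⟩ t' ⟨ht', q, hq, q1⟩ ne
      by_contra hc
      push Not at hc
      have sub : ∀ v, G.Adj t v → v ∉ {s | G.Adj t' s}ᶜ := fun v hv e =>
        e (hc v (fun e' => tt t ht v e' hv) hv)
      have a1 := tt t' ht' t ht
      obtain ⟨-, y, -, -, -, y4⟩ := id ht'
      obtain rfl := (y4 t a1 ne).stuck sub
      obtain rfl := (y4 q q1 (fun e => hq (e ▸ ht'))).symm.stuck sub
      exact hq ht
  refine F.core H (U := {t | t ∈ Tp ∧ ∀ c ∈ Tpᶜ, G.Adj t c}) (fun t ht e => e ht.1) (fun v => ?_)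
    (fun c hc => hc.2) (fun c hc e => e hc.1) (fun c hc t ht => tt c hc.1 t ht.1)
    (fun c hc t ht => tt c hc.1 t ht.1) (by simp) (by simp) (by simp)
  by_cases hv : v ∈ Tp
  · by_cases h' : ∀ c ∈ Tpᶜ, G.Adj v c
    · exact Or.inr (Or.inr (Or.inr ⟨hv, h'⟩))
    · push Not at h'
      exact Or.inr (Or.inl ⟨hv, h'⟩)
  · exact Or.inl hv

theorem caseII [Fintype V] (H : Ok G) (hm : ∀ x, LinOn G {v | v ≠ x}) (ni : ∀ v, ∃ w, G.Adj v w)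
    {Q : Set V} (hR : Red2 G Q) (mn : ∀ S, S ⊂ Q → ¬ Red2 G S) : LinOn G Set.univ := by
  obtain ⟨hQ, ⟨x0, y0, hx0, hy0, fx, fy, xy⟩, h3⟩ := hR
  let T : Set V := {t | t ∉ Q ∧ (∀ v, G.Adj t v → v ∈ Q) ∧ ∃ q ∈ Q, ¬ G.Adj t q}
  have kQ : ∀ x, x ∉ Q → ∀ c ∈ comp G Qᶜ x, c ∉ Q := fun x hx c hc => Rch.mem hc hx
  have dich : ∀ x, x ∉ Q → (∃ z ∈ comp G Qᶜ x, ∀ s ∈ Q, G.Adj z s) ∨ (x ∈ T ∧ ∃ q ∈ Q,
      ∀ v, ¬ G.Adj x v → v ≠ x → Rch G {s | G.Adj x s}ᶜ q v) := by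
    intro x hx
    let S : Set V := {s | s ∈ Q ∧ ∃ c ∈ comp G Qᶜ x, G.Adj c s}
    obtain ⟨z, hz, zS⟩ := full_vertex H.nh hQ (comp_conn _ x) (kQ x hx) (comp_self _ x)
    by_cases hq : ∃ q ∈ Q, q ∉ S
    swap
    · push Not at hq
      exact Or.inl ⟨z, hz, fun s hs => zS s hs (hq s hs).2⟩
    obtain ⟨q, hq, qS⟩ := hq
    have zS' : ∀ s ∈ S, G.Adj z s := fun s hs => zS s hs.1 hs.2
    have cl : ∀ v, Rch G Sᶜ z v → v ∈ comp G Qᶜ x := fun v e => e.closed hz fun c hc v hv e' =>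
      comp_step hx hc (fun e'' => hv ⟨e'', c, hc, e'⟩) e'
    rcases nr (S := S) (fun a ha b hb => hQ a ha.1 b hb.1) (fun e => kQ x hx z hz e.1) qS zS'
      (fun s hs => hQ q hq s hs.1 fun e => qS (e ▸ hs)) (fun e => kQ x hx q (cl q e) hq)
      (mn S ⟨fun s hs => hs.1, fun e => qS (e hq)⟩) with ⟨h1, h2⟩ | ⟨h1, -⟩
    · obtain rfl : x = z := Rch.stuck hz fun v hv hv' => hv' (h2 v hv).1
      have e : S = {s | G.Adj x s} := Set.ext fun s => ⟨zS' s, h2 s⟩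
      rw [e] at h1 qS h2
      exact Or.inr ⟨⟨hx, fun v hv => (e ▸ hv : v ∈ S).1, q, hq, qS⟩, q, hq, h1⟩
    · have a1 := cl x0 (h1 x0 (fun e => hx0 e.1) fun e => hx0 (e ▸ hq))
      have a2 := cl y0 (h1 y0 (fun e => hy0 e.1) fun e => hy0 (e ▸ hq))
      exact absurd (Rch.trans (Rch.symm a1) a2) xy
  have oth : ∀ x, x ∉ Q → ∃ u, u ∉ Q ∧ (∀ s ∈ Q, G.Adj u s) ∧ u ∉ comp G Qᶜ x ∧
      ∀ c ∈ comp G Qᶜ x, ¬ G.Adj u c := by
    intro x hx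
    by_cases h : x0 ∈ comp G Qᶜ x
    · have : y0 ∉ comp G Qᶜ x := fun e => xy (Rch.trans (Rch.symm h) e)
      exact ⟨y0, hy0, fy, this, fun c hc e => this (comp_step hx hc hy0 e.symm)⟩
    · exact ⟨x0, hx0, fx, h, fun c hc e => h (comp_step hx hc hx0 e.symm)⟩
  have sd : ∀ x, x ∉ Q → x ∉ T → ∃ α, SD G Q (comp G Qᶜ x) α := by
    intro x hx ht
    obtain ⟨u, u1, u2, u3, u4⟩ := oth x hx
    obtain ⟨v, v1, v2, v3⟩ := h3 x hx u
    obtain ⟨f, g, α, h⟩ := side_of_linOn ((hm v).mono (S' := comp G Qᶜ x ∪ Q ∪ {u}) (by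
      rintro a ((ha | ha) | ha) rfl
      exacts [v2 ha, v1 ha, v3 ha])) (comp_conn _ x) (kQ x hx) u2 u3 u4
    exact ⟨α, ⟨f, g, h⟩, comp_conn _ x, kQ x hx, fun _ _ => (dich x hx).resolve_right fun e => ht e.1, hQ⟩
  let NT : V → Prop := fun x => x ∉ Q ∧ x ∉ T ∧ ∃ c ∈ comp G Qᶜ x, ∃ s ∈ Q, ∃ s' ∈ Q, G.Adj c s ∧ ¬ G.Adj c s'
  by_cases big : ∃ x, x ∉ Q ∧ x ∉ T ∧ ¬ NT x ∧ ∃ v, v ∉ Q ∧ G.Adj x v
  · obtain ⟨x, hx, ht, nt, v, hv, xv⟩ := big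
    obtain ⟨α, ⟨f, g, h⟩, -, -, fl, -⟩ := sd x hx ht
    obtain ⟨z, hz, zq⟩ := fl x (comp_self _ x)
    obtain ⟨c, hc, ne⟩ : ∃ c ∈ comp G Qᶜ x, c ≠ z := by
      by_cases e : x = z
      · exact ⟨v, comp_step hx (comp_self _ x) hv xv, e ▸ xv.ne.symm⟩
      · exact ⟨x, comp_self _ x, e⟩
    refine subst_triv h hz zq (fun s hs s' hs' => ?_) (fun c hc v hv hv' e => hv (comp_step hx hc hv' e))
      ((hm c).mono ?_)
    · by_contra e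
      obtain ⟨c, hc, e'⟩ := h.tw s hs s' hs' e
      by_cases e2 : G.Adj c s
      · exact nt ⟨hx, ht, c, hc, s, hs, s', hs', e2, by tauto⟩
      · exact nt ⟨hx, ht, c, hc, s', hs', s, hs, by tauto, e2⟩
    · rintro a (ha | ha) rfl
      exacts [ha hc, ne ha]
  have an : ∀ x y, x ∉ Q → y ∉ Q → y ∉ comp G Qᶜ x → ∀ a ∈ comp G Qᶜ x, ∀ b ∈ comp G Qᶜ y,
      a ≠ b ∧ ¬ G.Adj a b := by
    intro x y hx hy xy a ha b hb
    refine ⟨?_, fun e => xy (Rch.trans (comp_step hx ha (kQ y hy b hb) e) (Rch.symm hb))⟩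
    rintro rfl
    exact xy (Rch.trans ha (Rch.symm hb))
  have nt : ∀ x α, NT x → SD G Q (comp G Qᶜ x) α → ∃ s ∈ Q, ∃ s' ∈ Q, α s ≠ α s' := by
    rintro x α ⟨-, -, c, hc, s, hs, s', hs', a1, a2⟩ S
    exact ⟨s, hs, s', hs', fun e => a2 (S.twin c hc s hs s' hs' e a1)⟩
  let P : Set V → Prop := fun D => D = ∅ ∨ ∃ x, NT x ∧ D = comp G Qᶜ x
  obtain ⟨D0, D1, p0, p1, dd, cv⟩ : ∃ D0 D1, P D0 ∧ P D1 ∧ (∀ a ∈ D0, ∀ b ∈ D1, a ≠ b ∧ ¬ G.Adj a b) ∧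
      ∀ x, NT x → x ∈ D0 ∨ x ∈ D1 := by
    by_cases h1 : ∃ x, NT x
    swap
    · exact ⟨∅, ∅, Or.inl rfl, Or.inl rfl, by simp, fun x h => absurd ⟨x, h⟩ h1⟩
    obtain ⟨x, hx⟩ := h1
    by_cases h2 : ∃ y, NT y ∧ y ∉ comp G Qᶜ x
    swap
    · push Not at h2
      exact ⟨_, ∅, Or.inr ⟨x, hx, rfl⟩, Or.inl rfl, by simp, fun y h => Or.inl (h2 y h)⟩
    obtain ⟨y, hy, xy⟩ := h2
    refine ⟨_, _, Or.inr ⟨x, hx, rfl⟩, Or.inr ⟨y, hy, rfl⟩, an x y hx.1 hy.1 xy, fun z hz => ?_⟩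
    by_contra hc
    push Not at hc
    obtain ⟨α, S1⟩ := sd x hx.1 hx.2.1
    obtain ⟨β, S2⟩ := sd y hy.1 hy.2.1
    obtain ⟨γ, S3⟩ := sd z hz.1 hz.2.1
    exact S1.f3 H S2 S3 (fun a ha b hb => (an x y hx.1 hy.1 xy a ha b hb).2)
      (fun a ha b hb => (an x z hx.1 hz.1 hc.1 a ha b hb).2)
      (fun a ha b hb => (an y z hy.1 hz.1 hc.2 a ha b hb).2) (nt _ _ hx S1) (nt _ _ hy S2) (nt _ _ hz S3)
  have pp : ∀ D, P D → (∃ α, SD G Q D α) ∧ (∀ x ∈ D, NT x) ∧ ∀ x ∈ D, ∃ u, (∀ s ∈ Q, G.Adj u s) ∧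
      (∀ y ∈ D, ¬ G.Adj u y) ∧ ∀ t ∈ T, ¬ G.Adj u t := by
    rintro D (rfl | ⟨x, hx, rfl⟩)
    · exact ⟨⟨_, sd_empty hQ⟩, by simp, by simp⟩
    refine ⟨sd x hx.1 hx.2.1, fun y hy => ⟨kQ x hx.1 y hy, fun ht => ?_, ?_⟩, fun _ _ => ?_⟩
    · obtain rfl : x = y := Rch.stuck hy fun v hv hv' => hv' (ht.2.1 v hv)
      exact hx.2.1 ht
    · obtain ⟨c, hc, h⟩ := hx.2.2
      exact ⟨c, Rch.trans (Rch.symm hy) hc, h⟩
    · obtain ⟨u, u1, u2, -, u4⟩ := oth x hx.1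
      exact ⟨u, u2, u4, fun t ht e => u1 (ht.2.1 u e.symm)⟩
  obtain ⟨⟨α, S0⟩, n0, o0⟩ := pp D0 p0
  obtain ⟨⟨β0, S1⟩, n1, o1⟩ := pp D1 p1
  obtain ⟨β, S1, cmp⟩ : ∃ β, SD G Q D1 β ∧ ∀ s ∈ Q, ∀ s' ∈ Q, α s < α s' → β s ≤ β s' := by
    rcases S0.compat H S1 fun x hx y hy e => (dd y hy x hx).2 e.symm with h | h
    · exact ⟨β0, S1, h⟩
    · exact ⟨_, S1.mirror, fun s hs s' hs' e => by have := h s hs s' hs' e; omega⟩
  have nD : ∀ i, ∀ x ∈ cond i D1 D0, NT x := by rintro (_ | _); exacts [n0, n1]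
  have F : Cfg G Q T (fun i => cond i D1 D0) fun i => cond i β α := by
    refine ⟨?_, ?_, fun t ht i x hx e => (nD i x hx).1 (ht.2.1 x e), fun t ht t' ht' e => ht'.1 (ht.2.1 _ e),
      fun t ht => ht.2.2, fun t ht => ?_, fun t ht t' ht' ne => ?_, ?_, cmp⟩
    · rintro (_ | _); exacts [S0, S1]
    · rintro (_ | _) x hx y hy
      exacts [(dd x hx y hy).2, fun e => (dd y hy x hx).2 e.symm]
    · obtain ⟨w, hw⟩ := ni t
      exact ⟨w, ht.2.1 w hw, hw⟩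
    · by_contra hc
      push Not at hc
      rcases dich t' ht'.1 with ⟨z, hz, zq⟩ | ⟨-, q, hq, h⟩
      · obtain rfl : t' = z := (Rch.stuck (Rch.symm hz) fun v hv hv' => hv' (ht'.2.1 v hv)).symm
        obtain ⟨q, hq, e⟩ := ht'.2.2
        exact e (zq q hq)
      · obtain rfl := (h t (fun e => ht.1 (ht'.2.1 _ e)) ne).stuck fun v hv e => e (hc v (ht.2.1 v hv) hv)
        exact ht.1 hq
    · rintro (_ | _); exacts [o0, o1]
  push Not at big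
  refine F.core H (U := {x | x ∉ Q ∧ x ∉ T ∧ ¬ NT x}) (fun t ht => ht.1) (fun v => ?_) (fun c hc => ?_)
    (fun c hc => hc.1) (fun c hc t ht => big c hc.1 hc.2.1 hc.2.2 t ht.1)
    (fun c hc t ht => big c hc.1 hc.2.1 hc.2.2 t ht.1)
    (fun c hc i x hx => ⟨fun e => hc.2.2 (e ▸ nD i x hx), big c hc.1 hc.2.1 hc.2.2 x (nD i x hx).1⟩)
    (fun x hx e => (dd x hx x e).1 rfl) fun t ht i e => (nD i t e).2.1 ht
  · by_cases h1 : v ∈ Q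
    · exact Or.inl h1
    by_cases h2 : v ∈ T
    · exact Or.inr (Or.inl h2)
    by_cases h3 : NT v
    · rcases cv v h3 with h | h
      exacts [Or.inr (Or.inr (Or.inl ⟨false, h⟩)), Or.inr (Or.inr (Or.inl ⟨true, h⟩))]
    · exact Or.inr (Or.inr (Or.inr ⟨h1, h2, h3⟩))
  · obtain ⟨z, hz, zq⟩ := (dich c hc.1).resolve_right fun e => hc.2.1 e.1
    obtain rfl : c = z := (Rch.stuck (Rch.symm hz) fun v hv hv' => big c hc.1 hc.2.1 hc.2.2 v hv' hv).symm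
    exact zq

theorem core_main [Fintype V] (H : Ok G) (hm : ∀ x, LinOn G {v | v ≠ x}) : LinOn G Set.univ := by
  by_cases ni : ∀ v, ∃ w, G.Adj v w
  swap
  · push Not at ni
    obtain ⟨u, hu⟩ := ni
    obtain ⟨f, g, h⟩ := hm u
    refine glue (Q := ∅) (L := {v | v ≠ u}) (R := ∅) (U := {u}) (p := f) (f' := f) (g' := f) (p' := f) (ρ := f)
      (by simp [Clq]) ⟨h, by simp, by simp⟩ ⟨⟨by simp, by simp⟩, by simp, by simp⟩ (by simp) (by simp) (by simp)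
      (fun v => by by_cases e : v = u <;> simp [e]) (by simp) (by simp) (by simp) (by simp) ?_ (by simp)
      (by simp) (by simp)
    rintro c hc c' rfl
    exact ⟨hc, fun e => hu c e.symm⟩
  by_cases h : {Q | Red2 G Q}.Nonempty
  · obtain ⟨Q, hQ, mn⟩ := Set.exists_min_image _ Set.ncard (Set.toFinite _) h
    exact caseII H hm ni hQ fun S hS e => absurd (mn S e) (not_le.2 (Set.ncard_lt_ncard hS))
  · exact caseI H ni fun Q e => h ⟨Q, e⟩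

end Pool.Agent.Lib.MP_d7353d_co
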