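import Pool.Agent.Lib.MP_d7353d_co.ChTip

namespace Pool.Agent.Lib.MP_d7353d_co

variable {V : Type} {G : SimpleGraph V}

set_option linter.unusedSimpArgs false

section
variable {t y : ℕ → V} {k : ℕ}

/-- the two split tips are split by different sides -/
theorem pcA (H : Ok G) (O : OS G t y k) (cl : G.Adj (y 0) (y (k + 1))) {p x q z c : V}
    (u : Un G t y k p ∧ Un G t y k x ∧ Un G t y k q ∧ Un G t y k z)
    (e : G.Adj p x ∧ G.Adj q z ∧ ¬ G.Adj p q ∧ ¬ G.Adj p z ∧ ¬ G.Adj x q ∧ ¬ G.Adj x z ∧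
      G.Adj p (y 0) ∧ G.Adj p (y 1) ∧ G.Adj p (y (k + 1)) ∧ G.Adj q (y 0) ∧ G.Adj q (y 1) ∧
      G.Adj q (y (k + 1)) ∧ ¬ (G.Adj x (y 0) ↔ G.Adj x (y 1)) ∧ (G.Adj x (y (k + 1)) ↔ G.Adj x (y 1)) ∧
      ¬ (G.Adj z (y (k + 1)) ↔ G.Adj z (y 1)) ∧ (G.Adj z (y 0) ↔ G.Adj z (y 1)))
    (hc : k % 2 = 1 → Cen G t y k c ∧ G.Adj p c ∧ G.Adj q c ∧ (G.Adj x c ↔ G.Adj x (y 1)) ∧
      (G.Adj z c ↔ G.Adj z (y 1))) : False := by
  obtain ⟨up, ux, uq, uz⟩ := u
  have sy := G.adj_comm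
  have k1 := O.k1
  apply H.nb
  by_cases h1 : G.Adj x (y 1) <;> by_cases h2 : G.Adj z (y 1)
  · exact badD O z x c cl ⟨uz, by grind⟩ ⟨ux, by grind⟩ fun h => ⟨(hc h).1, by grind⟩
  · refine badC (O.snc cl (p := q) (x := z) ⟨uq, uz, by grind⟩) (by omega) x c ?_ ⟨ux.snc (by grind), ?_⟩
      fun h => ⟨(hc (by omega)).1.snc (by grind), by grind⟩
    all_goals simp only [snc0, snc1, snc2]; grind
  · refine badC (O.cns cl (p := p) (x := x) ⟨up, ux, by grind⟩) (by omega) z c ?_ ⟨uz.cns (by grind), ?_⟩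
      fun h => ⟨(hc (by omega)).1.cns (by grind), by grind⟩
    all_goals simp only [cns0, cns1, cns2]; grind
  · refine badB ((O.cns cl (p := p) (x := x) ⟨up, ux, by grind⟩).snc (p := q) (x := z) ?_
      ⟨uq.cns (by grind), uz.cns (by grind), ?_⟩) (by omega) c ?_
      fun h => ((hc (by omega)).1.cns (by grind)).snc (by grind)
    all_goals simp only [snc0, snc1, snc2, cns0, cns1, cns2]; grind

/-- an adjacent pair with traces `y 0` and `y 0, y 1` -/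
theorem pcB (H : Ok G) (O : OS G t y k) (k2 : 2 ≤ k) (cl : G.Adj (y 0) (y (k + 1))) {p x c : V}
    (up : Un G t y k p) (ux : Un G t y k x) (px : G.Adj p x)
    (e : (G.Adj p (y 0) ∧ G.Adj p (y 1) ∧ ¬ G.Adj p (y (k + 1)) ∧ ¬ G.Adj x (y (k + 1)) ∧
      ¬ (G.Adj x (y 0) ↔ G.Adj x (y 1))) ∨ (G.Adj p (y (k + 1)) ∧ G.Adj p (y 1) ∧ ¬ G.Adj p (y 0) ∧
      ¬ G.Adj x (y 0) ∧ ¬ (G.Adj x (y (k + 1)) ↔ G.Adj x (y 1))))
    (hc : k % 2 = 0 → Cen G t y k c ∧ G.Adj p c ∧ (G.Adj x c ↔ G.Adj x (y 1))) : False := by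
  have sy := G.adj_comm
  apply H.nb
  by_cases h1 : G.Adj x (y 1)
  · exact badC O k2 x c cl ⟨ux, by grind⟩ fun h => ⟨(hc h).1, by grind⟩
  rcases e with e | e
  · refine badB (O.cns cl (p := p) (x := x) ⟨up, ux, by grind⟩) (by omega) c ?_
      fun h => (hc (by omega)).1.cns (by grind)
    simp only [cns0, cns2]; grind
  · refine badB (O.snc cl (p := p) (x := x) ⟨up, ux, by grind⟩) (by omega) c ?_
      fun h => (hc (by omega)).1.snc (by grind)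
    simp only [snc0, snc2]; grind

theorem pcM0 (H : Ok G) (O : OS G t y k) (k2 : 2 ≤ k) (cl : G.Adj (y 0) (y (k + 1))) {x z r u c : V}
    (un : Un G t y k x ∧ Un G t y k z ∧ Un G t y k r ∧ Un G t y k u)
    (e : ¬ (G.Adj x (y 0) ↔ G.Adj x (y 1)) ∧ (G.Adj x (y 1) ↔ G.Adj x (y (k + 1))) ∧
      (G.Adj z (y 0) ↔ G.Adj z (y 1)) ∧ ¬ (G.Adj z (y 1) ↔ G.Adj z (y (k + 1))) ∧ G.Adj x r ∧ G.Adj z r ∧
      G.Adj r (y 0) ∧ G.Adj r (y 1) ∧ G.Adj r (y (k + 1)) ∧ (G.Adj x z → (G.Adj x (y 0) ↔ G.Adj z (y 0))) ∧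
      G.Adj u (y 0) ∧ G.Adj u (y 1) ∧ G.Adj u (y (k + 1)) ∧ ¬ G.Adj u x ∧ ¬ G.Adj u z ∧ ¬ G.Adj u r)
    (hc : k % 2 = 0 → Cen G t y k c ∧ G.Adj r c ∧ G.Adj u c ∧ (G.Adj x c ↔ G.Adj x (y 1)) ∧
      (G.Adj z c ↔ G.Adj z (y 1))) : False := by
  obtain ⟨ux, uz, ur, uu⟩ := un
  have sy := G.adj_comm
  by_cases xz : G.Adj x z
  · by_cases h1 : G.Adj x (y 0)
    · exact pcB H O k2 cl uz ux xz.symm (Or.inl (by grind)) fun h => ⟨(hc h).1, by grind⟩
    · exact pcB H O k2 cl ux uz xz (Or.inr (by grind)) fun h => ⟨(hc h).1, by grind⟩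
  apply H.nb
  by_cases h1 : G.Adj x (y 1) <;> by_cases h2 : G.Adj z (y 1)
  · exact badD O z x r cl ⟨uz, by grind⟩ ⟨ux, by grind⟩ fun h => ⟨⟨ur, by grind⟩, by grind⟩
  · refine badD (O.snc cl (p := r) (x := z) ⟨ur, uz, by grind⟩) u x c ?_ ⟨uu.snc (by grind), ?_⟩
      ⟨ux.snc (by grind), ?_⟩ fun h => ⟨(hc (by omega)).1.snc (by grind), by grind⟩
    all_goals simp only [snc0, snc1, snc2]; grind
  · refine badD (O.cns cl (p := r) (x := x) ⟨ur, ux, by grind⟩) z u c ?_ ⟨uz.cns (by grind), ?_⟩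
      ⟨uu.cns (by grind), ?_⟩ fun h => ⟨(hc (by omega)).1.cns (by grind), by grind⟩
    all_goals simp only [cns0, cns1, cns2]; grind
  · refine badA (O.cns cl (p := r) (x := x) ⟨ur, ux, by grind⟩) z c ?_ ⟨uz.cns (by grind), ?_⟩
      fun h => ⟨(hc (by omega)).1.cns (by grind), by grind⟩
    all_goals simp only [cns0, cns1, cns2]; grind

theorem pcM1 (H : Ok G) (O : OS G t y k) (cl : G.Adj (y 0) (y (k + 1))) {x z r s u c : V}
    (un : Un G t y k x ∧ Un G t y k z ∧ Un G t y k r ∧ Un G t y k s ∧ Un G t y k u)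
    (e : ¬ (G.Adj x (y 0) ↔ G.Adj x (y 1)) ∧ (G.Adj x (y 1) ↔ G.Adj x (y (k + 1))) ∧
      (G.Adj z (y 0) ↔ G.Adj z (y 1)) ∧ ¬ (G.Adj z (y 1) ↔ G.Adj z (y (k + 1))) ∧ G.Adj x r ∧ G.Adj z s ∧
      G.Adj r s ∧ ¬ G.Adj x z ∧ ¬ G.Adj x s ∧ ¬ G.Adj z r ∧
      G.Adj r (y 0) ∧ G.Adj r (y 1) ∧ G.Adj r (y (k + 1)) ∧ G.Adj s (y 0) ∧ G.Adj s (y 1) ∧
      G.Adj s (y (k + 1)) ∧ G.Adj u (y 0) ∧ G.Adj u (y 1) ∧ G.Adj u (y (k + 1)) ∧ ¬ G.Adj u x ∧
      ¬ G.Adj u z ∧ ¬ G.Adj u r ∧ ¬ G.Adj u s)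
    (hc : k % 2 = 0 → Cen G t y k c ∧ G.Adj r c ∧ G.Adj s c ∧ G.Adj u c ∧ (G.Adj x c ↔ G.Adj x (y 1)) ∧
      (G.Adj z c ↔ G.Adj z (y 1))) : False := by
  obtain ⟨ux, uz, ur, us, uu⟩ := un
  have sy := G.adj_comm
  have k1 := O.k1
  have y1 := O.yy 0 1 (by omega) (by omega) (by omega)
  have y2 := O.yy 1 (k + 1) (by omega) (by omega) (by omega)
  by_cases h1 : G.Adj x (y 1) <;> by_cases h2 : G.Adj z (y 1)
  · exact T3chain H x z u (y 1) r (y (k + 1)) (y 0) s (by clear hc; and_intros <;> grind)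
  · exact T3net H x z u (y (k + 1)) r s (y 0) (by clear hc; and_intros <;> grind)
  · exact T3net H x z u (y 0) r s (y (k + 1)) (by clear hc; and_intros <;> grind)
  · apply H.nb
    refine badC ((O.cns cl (p := r) (x := x) ⟨ur, ux, by grind⟩).snc (p := s) (x := z) ?_
      ⟨us.cns (by grind), uz.cns (by grind), ?_⟩) (by omega) u c ?_ ⟨(uu.cns (by grind)).snc ?_, ?_⟩
      fun h => ⟨((hc (by omega)).1.cns (by grind)).snc (by grind), by grind⟩
    all_goals simp only [snc0, snc1, snc2, cns0, cns1, cns2]; grind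

end

variable {Q T : Set V} {D : Bool → Set V} {α : Bool → V → ℤ}

theorem Cfg.pc (H : Ok G) (C : Cfg G Q T D α) {t y : ℕ → V} {k : ℕ} (O : OS G t y k)
    (tT : ∀ i, i ≤ k → t i ∈ T) (yQ : ∀ j, j ≤ k + 1 → y j ∈ Q)
    (lv : ∀ j, 1 ≤ j → j ≤ k → wt α (y j) = wt α (y 1)) (md : Mid (wt α) (y 0) (y 1) (y (k + 1)))
    {a b : Bool} (ha : α a (y 0) ≠ α a (y 1)) (hb : α b (y (k + 1)) ≠ α b (y 1)) (c : V)
    (hc : (a = b ↔ k % 2 = 0) → c ∈ Q ∧ wt α c = wt α (y 1) ∧ ∀ i, i ≤ k → ¬ G.Adj (t i) c) : False := by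
  have k1 := O.k1
  have q0 := yQ 0 (by omega)
  have q1 := yQ 1 (by omega)
  have qk := yQ k (by omega)
  have q2 := yQ (k + 1) le_rfl
  unfold Mid at md
  have cl : G.Adj (y 0) (y (k + 1)) := C.clq _ q0 _ q2 (by grind)
  have UD : ∀ i, ∀ x ∈ D i, Un G t y k x ∧ ((a = b ↔ k % 2 = 0) → (G.Adj x c ↔ G.Adj x (y 1))) := by
    intro i x hx
    have tw := (C.sd i).twin x hx
    refine ⟨⟨fun j hj => C.td _ (tT j hj) i x hx, fun j h1 hj => ?_⟩, fun h => ?_⟩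
    · have := C.wle (yQ j (by omega)) q1 i
      have := lv j h1 hj
      have := yQ j (by omega)
      grind
    · have := C.wle (hc h).1 q1 i
      grind
  have cen : (a = b ↔ k % 2 = 0) → Cen G t y k c := by
    intro h
    obtain ⟨h1, -, h3⟩ := hc h
    have : ∀ j, j ≤ k + 1 → G.Adj c (y j) := by
      intro j hj
      refine C.clq _ h1 _ (yQ j hj) ?_
      rintro rfl
      by_cases e : j ≤ k
      · exact h3 j e ((O.ty j j e hj).2 (Or.inl rfl))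
      · exact h3 k le_rfl ((O.ty k j le_rfl hj).2 (by omega))
    exact ⟨⟨h3, fun j _ _ => by grind⟩, by grind⟩
  have t0 := (O.ty 0 0 (by omega) (by omega)).2 (by omega)
  have t1 := (O.ty 0 1 (by omega) (by omega)).2 (by omega)
  have t2 := (O.ty k k le_rfl (by omega)).2 (by omega)
  have t3 := (O.ty k (k + 1) le_rfl le_rfl).2 (by omega)
  have l1 := lv k k1 le_rfl
  have w1 := C.wle qk q1 b
  have w2 := C.wle qk q1 (!b)
  have e0 := C.p1 H (tT 0 (by omega)) a q0 q1 q0 q1 t0 t1 t0 t1 ha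
  have e1 := C.p1 H (tT k le_rfl) b q2 qk q2 qk t3 t2 t3 t2 (by omega)
  have sy := G.adj_comm
  by_cases ab : a = b
  swap
  · obtain rfl : b = !a := by revert ab; cases a <;> cases b <;> simp
    rw [Bool.not_not] at e1 w2
    obtain ⟨p, hp, x, hx, a1⟩ := (C.sd a).edge2 H q0 q1 ha
    obtain ⟨q, hq, z, hz, a2⟩ := (C.sd (!a)).edge2 H q2 q1 hb
    have an := C.an a
    refine pcA H O cl (c := c) ⟨(UD _ p hp).1, (UD _ x hx).1, (UD _ q hq).1, (UD _ z hz).1⟩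
      (by clear UD; and_intros <;> grind) fun h => ?_
    have h' : a = !a ↔ k % 2 = 0 := by grind
    have := (UD _ p hp).2 h'
    have := (UD _ x hx).2 h'
    have := (UD _ q hq).2 h'
    have := (UD _ z hz).2 h'
    exact ⟨cen h', by clear UD; and_intros <;> grind⟩
  subst ab
  simp only [true_iff] at hc UD cen
  have k2 : 2 ≤ k := by
    by_contra h
    obtain rfl : k = 1 := by omega
    exact hb (C.aa H (tT 0 (by omega)) (tT 1 le_rfl) (by have := O.ty 1 0; grind) a q1 q0 q1 q2 q1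
      (by grind) ha)
  obtain ⟨u, u1, u2, u3⟩ := C.u q0 q1 ha
  have uu : Un G t y k u := ⟨by grind, by grind⟩
  have := (C.wle q0 q1 a).2.2
  have := (C.wle q2 q1 a).2.2
  rcases (C.sd a).three H q0 q1 q2 (by unfold Mid; omega) (u1 _ q0) (u1 _ q2) u2 with
    ⟨p, n, a1, a2, a3, -⟩ | ⟨p, n, a1, a2, a3, -⟩ | ⟨x, hx, z, hz, r, hr, a1, a2 | ⟨s, hs, a2⟩⟩
  iterate 2
    obtain ⟨m, rfl⟩ : ∃ m, n = m + 1 := ⟨n - 1, by omega⟩
    have b1 := UD _ _ (a3 m (by omega))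
    have b2 := UD _ _ (a3 (m + 1) le_rfl)
    have := a2.inn m (by omega)
    have := a2.cn m (by omega) (by omega)
    have := a2.cn (m + 1) (by omega) le_rfl
    have := a2.sp
    exact pcB H O k2 cl b1.1 b2.1 ((a2.ip m (m + 1) (by omega) le_rfl).2 (Or.inl rfl)) (by clear UD; grind)
      (c := c) fun h => ⟨cen h, by clear UD; grind⟩
  · refine pcM0 H O k2 cl (c := c) ⟨(UD _ x hx).1, (UD _ z hz).1, (UD _ r hr).1, uu⟩
      (by clear UD; and_intros <;> grind) fun h => ?_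
    have := (UD _ x hx).2 h
    have := (UD _ z hz).2 h
    have := (UD _ r hr).2 h
    exact ⟨cen h, by clear UD; and_intros <;> grind⟩
  · refine pcM1 H O cl (c := c) ⟨(UD _ x hx).1, (UD _ z hz).1, (UD _ r hr).1, (UD _ s hs).1, uu⟩
      (by clear UD; and_intros <;> grind) fun h => ?_
    have := (UD _ x hx).2 h
    have := (UD _ z hz).2 h
    have := (UD _ r hr).2 h
    have := (UD _ s hs).2 h
    exact ⟨cen h, by clear UD; and_intros <;> grind⟩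

/-- no three tips through a vertex -/
theorem Cfg.t3 (H : Ok G) (C : Cfg G Q T D α) {x y z v : V} (hx : x ∈ T) (hy : y ∈ T) (hz : z ∈ T)
    (hv : v ∈ Q) (xv : G.Adj x v) (yv : G.Adj y v) (zv : G.Adj z v) : x = y ∨ x = z ∨ y = z := by
  by_contra hn
  have hQ := C.clq
  unfold Clq at hQ
  have key : ∀ x ∈ T, ∀ y ∈ T, ∀ z ∈ T, x ≠ y → x ≠ z → y ≠ z → G.Adj x v → G.Adj y v → G.Adj z v →
      ∃ c ∈ Q, G.Adj z c ∧ ¬ G.Adj x c ∧ ¬ G.Adj y c := by
    intro x hx y hy z hz xy xz yz xv yv zv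
    by_contra h
    obtain ⟨b, hb, b1⟩ := C.anti z hz y hy yz.symm
    obtain ⟨c, hc, c1⟩ := C.anti z hz x hx xz.symm
    obtain ⟨a, ha, a1⟩ := C.anti x hx z hz xz
    obtain ⟨d, hd, d1⟩ := C.anti y hy z hz yz
    have := C.tt x hx y hy
    have := C.tt x hx z hz
    have := C.tt y hy z hz
    have := C.tt z hz x hx
    have := C.tt z hz y hy
    by_cases h1 : G.Adj y a
    · exact T3tent H x y z v c b a (by and_intros <;> grind)
    by_cases h2 : G.Adj x d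
    · exact T3tent H x y z v c b d (by and_intros <;> grind)
    · exact T3chain H x y z v a b c d (by and_intros <;> grind)
  obtain ⟨a, ha, a1⟩ := key y hy z hz x hx (by grind) (by grind) (by grind) yv zv xv
  obtain ⟨b, hb, b1⟩ := key x hx z hz y hy (by grind) (by grind) (by grind) xv zv yv
  obtain ⟨c, hc, c1⟩ := key x hx y hy z hz (by grind) (by grind) (by grind) xv yv zv
  have := C.tt x hx y hy
  have := C.tt x hx z hz
  have := C.tt y hy z hz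
  clear key
  exact T3net H x y z v a b c (by and_intros <;> grind)

/-- the overlap graph of the tips -/
def ov (G : SimpleGraph V) (Q T : Set V) : SimpleGraph V where
  Adj t s := t ≠ s ∧ t ∈ T ∧ s ∈ T ∧ ∃ v ∈ Q, G.Adj t v ∧ G.Adj s v
  symm := ⟨fun _ _ ⟨h1, h2, h3, v, h4, h5, h6⟩ => ⟨h1.symm, h3, h2, v, h4, h6, h5⟩⟩
  loopless := ⟨fun _ h => h.1 rfl⟩

theorem Cfg.d3 (H : Ok G) (C : Cfg G Q T D α) {w x y z : V} (hx : (ov G Q T).Adj w x)
    (hy : (ov G Q T).Adj w y) (hz : (ov G Q T).Adj w z) : x = y ∨ x = z ∨ y = z := by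
  by_contra hn
  have key : ∀ x y z, (ov G Q T).Adj w x → (ov G Q T).Adj w y → (ov G Q T).Adj w z → x ≠ y → x ≠ z → y ≠ z →
      ∀ e ∈ Q, G.Adj x e → ¬ G.Adj y e := by
    rintro x y z ⟨x1, hw, hx, a, ha, a1⟩ ⟨y1, -, hy, b, hb, b1⟩ ⟨z1, -, hz, c, hc, c1⟩ xy xz yz e he e1 e2
    obtain ⟨f, hf, f1⟩ := C.anti z hz w hw z1.symm
    have t := fun v hv => C.t3 H hw hx hy (v := v) hv
    have t := fun v hv => C.t3 H hw hx hz (v := v) hv
    have t := fun v hv => C.t3 H hw hy hz (v := v) hv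
    have t := fun v hv => C.t3 H hx hy hz (v := v) hv
    have tt := C.tt
    by_cases h1 : G.Adj x f
    · exact pA2 H C.clq w y x z c b e f (by and_intros <;> grind)
    by_cases h2 : G.Adj y f
    · exact pA2 H C.clq w x y z c a e f (by and_intros <;> grind)
    · exact pA1 H C.clq w x y b a e f (by and_intros <;> grind)
  have k1 := key x y z hx hy hz (by grind) (by grind) (by grind)
  have k2 := key x z y hx hz hy (by grind) (by grind) (by grind)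
  have k3 := key y z x hy hz hx (by grind) (by grind) (by grind)
  clear key
  obtain ⟨x1, hw, hx, a, ha, a1⟩ := hx
  obtain ⟨y1, -, hy, b, hb, b1⟩ := hy
  obtain ⟨z1, -, hz, c, hc, c1⟩ := hz
  obtain ⟨d, hd, d1⟩ := C.anti x hx w hw x1.symm
  obtain ⟨e, he, e1⟩ := C.anti y hy w hw y1.symm
  obtain ⟨f, hf, f1⟩ := C.anti z hz w hw z1.symm
  have tt := C.tt
  exact pD3 H C.clq w x y z a b c d e f (by and_intros <;> grind)

end Pool.Agent.Lib.MP_d7353d_co
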