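import Pool.Agent.Lib.MP_d7353d_co.ChTab

namespace Pool.Agent.Lib.MP_d7353d_co

variable {V : Type} {G : SimpleGraph V}

set_option synthInstance.maxSize 4000

lemma dT3net : chk 7 [[false, false, true, true, false, false], [false, true, false, true, false], [true, false, false, true], [true, true, true], [true, true], [true], []]
    [(1, [2, 1, 0, 4, 5, 6, 3])] = true := by decide +kernel

theorem T3net (H : Ok G) (x y z v a b c : V)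
    (h : ¬ G.Adj x y ∧ ¬ G.Adj x z ∧ G.Adj x v ∧ G.Adj x a ∧ ¬ G.Adj x b ∧ ¬ G.Adj x c ∧ ¬ G.Adj y z ∧
      G.Adj y v ∧ ¬ G.Adj y a ∧ G.Adj y b ∧ ¬ G.Adj y c ∧ G.Adj z v ∧ ¬ G.Adj z a ∧ ¬ G.Adj z b ∧
      G.Adj z c ∧ G.Adj v a ∧ G.Adj v b ∧ G.Adj v c ∧ G.Adj a b ∧ G.Adj a c ∧ G.Adj b c) : False := by
  classical
  obtain ⟨hx_y, hx_z, hx_v, hx_a, hx_b, hx_c, hy_z, hy_v, hy_a, hy_b, hy_c, hz_v, hz_a, hz_b, hz_c,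
    hv_a, hv_b, hv_c, ha_b, ha_c, hb_c⟩ := h
  exact H.tab [x, y, z, v, a, b, c] _ _ dT3net
    ⟨⟨hx_y, hx_z, hx_v, hx_a, hx_b, hx_c, trivial⟩,
    ⟨hy_z, hy_v, hy_a, hy_b, hy_c, trivial⟩,
    ⟨hz_v, hz_a, hz_b, hz_c, trivial⟩,
    ⟨hv_a, hv_b, hv_c, trivial⟩,
    ⟨ha_b, ha_c, trivial⟩,
    ⟨hb_c, trivial⟩,
    trivial,
    trivial⟩

lemma dT3tent : chk 7 [[false, false, true, false, true, true], [false, true, true, false, true], [true, true, true, false], [true, true, true], [true, true], [true], []]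
    [(0, [0, 1, 2, 4, 5, 6, 3])] = true := by decide +kernel

theorem T3tent (H : Ok G) (x y z v a b c : V)
    (h : ¬ G.Adj x y ∧ ¬ G.Adj x z ∧ G.Adj x v ∧ ¬ G.Adj x a ∧ G.Adj x b ∧ G.Adj x c ∧ ¬ G.Adj y z ∧
      G.Adj y v ∧ G.Adj y a ∧ ¬ G.Adj y b ∧ G.Adj y c ∧ G.Adj z v ∧ G.Adj z a ∧ G.Adj z b ∧
      ¬ G.Adj z c ∧ G.Adj v a ∧ G.Adj v b ∧ G.Adj v c ∧ G.Adj a b ∧ G.Adj a c ∧ G.Adj b c) : False := by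
  classical
  obtain ⟨hx_y, hx_z, hx_v, hx_a, hx_b, hx_c, hy_z, hy_v, hy_a, hy_b, hy_c, hz_v, hz_a, hz_b, hz_c,
    hv_a, hv_b, hv_c, ha_b, ha_c, hb_c⟩ := h
  exact H.tab [x, y, z, v, a, b, c] _ _ dT3tent
    ⟨⟨hx_y, hx_z, hx_v, hx_a, hx_b, hx_c, trivial⟩,
    ⟨hy_z, hy_v, hy_a, hy_b, hy_c, trivial⟩,
    ⟨hz_v, hz_a, hz_b, hz_c, trivial⟩,
    ⟨hv_a, hv_b, hv_c, trivial⟩,
    ⟨ha_b, ha_c, trivial⟩,
    ⟨hb_c, trivial⟩,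
    trivial,
    trivial⟩

lemma dT3chain : chk 8 [[false, false, true, true, true, false, false], [false, true, false, false, true, true], [true, false, true, true, false], [true, true, true, true], [true, true, true], [true, true], [true], []]
    [(14, [2, 1, 0, 4, 7, 5, 6, 3])] = true := by decide +kernel

theorem T3chain (H : Ok G) (x y z v a b c d : V)
    (h : ¬ G.Adj x y ∧ ¬ G.Adj x z ∧ G.Adj x v ∧ G.Adj x a ∧ G.Adj x b ∧ ¬ G.Adj x c ∧ ¬ G.Adj x d ∧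
      ¬ G.Adj y z ∧ G.Adj y v ∧ ¬ G.Adj y a ∧ ¬ G.Adj y b ∧ G.Adj y c ∧ G.Adj y d ∧ G.Adj z v ∧
      ¬ G.Adj z a ∧ G.Adj z b ∧ G.Adj z c ∧ ¬ G.Adj z d ∧ G.Adj v a ∧ G.Adj v b ∧ G.Adj v c ∧
      G.Adj v d ∧ G.Adj a b ∧ G.Adj a c ∧ G.Adj a d ∧ G.Adj b c ∧ G.Adj b d ∧ G.Adj c d) : False := by
  classical
  obtain ⟨hx_y, hx_z, hx_v, hx_a, hx_b, hx_c, hx_d, hy_z, hy_v, hy_a, hy_b, hy_c, hy_d, hz_v, hz_a,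
    hz_b, hz_c, hz_d, hv_a, hv_b, hv_c, hv_d, ha_b, ha_c, ha_d, hb_c, hb_d, hc_d⟩ := h
  exact H.tab [x, y, z, v, a, b, c, d] _ _ dT3chain
    ⟨⟨hx_y, hx_z, hx_v, hx_a, hx_b, hx_c, hx_d, trivial⟩,
    ⟨hy_z, hy_v, hy_a, hy_b, hy_c, hy_d, trivial⟩,
    ⟨hz_v, hz_a, hz_b, hz_c, hz_d, trivial⟩,
    ⟨hv_a, hv_b, hv_c, hv_d, trivial⟩,
    ⟨ha_b, ha_c, ha_d, trivial⟩,
    ⟨hb_c, hb_d, trivial⟩,
    ⟨hc_d, trivial⟩,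
    trivial,
    trivial⟩

lemma dpD3 : chk 10 [[false, false, false, true, true, true, false, false, false], [false, false, true, false, false, true, false, false], [false, false, true, false, false, true, false], [false, false, true, false, false, true], [true, true, true, true, true], [true, true, true, true], [true, true, true], [true, true], [true], []]
    [(19, [3, 2, 1, 0, 7, 8, 9, 4, 5, 6])] = true := by decide +kernel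

theorem pD3 (H : Ok G) {Q : Set V} (hQ : Clq G Q) (w x y z a b c d e f : V)
    (h : a ∈ Q ∧ b ∈ Q ∧ c ∈ Q ∧ d ∈ Q ∧ e ∈ Q ∧ f ∈ Q ∧ ¬ G.Adj w x ∧ ¬ G.Adj w y ∧ ¬ G.Adj w z ∧
      G.Adj w a ∧ G.Adj w b ∧ G.Adj w c ∧ ¬ G.Adj w d ∧ ¬ G.Adj w e ∧ ¬ G.Adj w f ∧ ¬ G.Adj x y ∧
      ¬ G.Adj x z ∧ G.Adj x a ∧ ¬ G.Adj x b ∧ ¬ G.Adj x c ∧ G.Adj x d ∧ ¬ G.Adj x e ∧ ¬ G.Adj x f ∧
      ¬ G.Adj y z ∧ ¬ G.Adj y a ∧ G.Adj y b ∧ ¬ G.Adj y c ∧ ¬ G.Adj y d ∧ G.Adj y e ∧ ¬ G.Adj y f ∧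
      ¬ G.Adj z a ∧ ¬ G.Adj z b ∧ G.Adj z c ∧ ¬ G.Adj z d ∧ ¬ G.Adj z e ∧ G.Adj z f) : False := by
  classical
  obtain ⟨ma, mb, mc, md, me, mf, hw_x, hw_y, hw_z, hw_a, hw_b, hw_c, hw_d, hw_e, hw_f, hx_y, hx_z,
    hx_a, hx_b, hx_c, hx_d, hx_e, hx_f, hy_z, hy_a, hy_b, hy_c, hy_d, hy_e, hy_f, hz_a, hz_b,
    hz_c, hz_d, hz_e, hz_f⟩ := h
  exact H.tab [w, x, y, z, a, b, c, d, e, f] _ _ dpD3
    ⟨⟨hw_x, hw_y, hw_z, hw_a, hw_b, hw_c, hw_d, hw_e, hw_f, trivial⟩,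
    ⟨hx_y, hx_z, hx_a, hx_b, hx_c, hx_d, hx_e, hx_f, trivial⟩,
    ⟨hy_z, hy_a, hy_b, hy_c, hy_d, hy_e, hy_f, trivial⟩,
    ⟨hz_a, hz_b, hz_c, hz_d, hz_e, hz_f, trivial⟩,
    ⟨hQ _ ma _ mb (by grind), hQ _ ma _ mc (by grind), hQ _ ma _ md (by grind), hQ _ ma _ me (by grind), hQ _ ma _ mf (by grind), trivial⟩,
    ⟨hQ _ mb _ mc (by grind), hQ _ mb _ md (by grind), hQ _ mb _ me (by grind), hQ _ mb _ mf (by grind), trivial⟩,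
    ⟨hQ _ mc _ md (by grind), hQ _ mc _ me (by grind), hQ _ mc _ mf (by grind), trivial⟩,
    ⟨hQ _ md _ me (by grind), hQ _ md _ mf (by grind), trivial⟩,
    ⟨hQ _ me _ mf (by grind), trivial⟩,
    trivial,
    trivial⟩

lemma dpA1 : chk 7 [[false, false, true, true, false, false], [false, false, true, true, false], [true, false, true, false], [true, true, true], [true, true], [true], []]
    [(20, [0, 1, 3, 4, 5, 2, 6])] = true := by decide +kernel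

theorem pA1 (H : Ok G) {Q : Set V} (hQ : Clq G Q) (x y z a b c d : V)
    (h : a ∈ Q ∧ b ∈ Q ∧ c ∈ Q ∧ d ∈ Q ∧ ¬ G.Adj x y ∧ ¬ G.Adj x z ∧ G.Adj x a ∧ G.Adj x b ∧
      ¬ G.Adj x c ∧ ¬ G.Adj x d ∧ ¬ G.Adj y z ∧ ¬ G.Adj y a ∧ G.Adj y b ∧ G.Adj y c ∧ ¬ G.Adj y d ∧
      G.Adj z a ∧ ¬ G.Adj z b ∧ G.Adj z c ∧ ¬ G.Adj z d) : False := by
  classical
  obtain ⟨ma, mb, mc, md, hx_y, hx_z, hx_a, hx_b, hx_c, hx_d, hy_z, hy_a, hy_b, hy_c, hy_d, hz_a, hz_b,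
    hz_c, hz_d⟩ := h
  exact H.tab [x, y, z, a, b, c, d] _ _ dpA1
    ⟨⟨hx_y, hx_z, hx_a, hx_b, hx_c, hx_d, trivial⟩,
    ⟨hy_z, hy_a, hy_b, hy_c, hy_d, trivial⟩,
    ⟨hz_a, hz_b, hz_c, hz_d, trivial⟩,
    ⟨hQ _ ma _ mb (by grind), hQ _ ma _ mc (by grind), hQ _ ma _ md (by grind), trivial⟩,
    ⟨hQ _ mb _ mc (by grind), hQ _ mb _ md (by grind), trivial⟩,
    ⟨hQ _ mc _ md (by grind), trivial⟩,
    trivial,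
    trivial⟩

lemma dpA2 : chk 8 [[false, false, false, true, true, false, false], [false, false, false, true, true, false], [false, false, false, true, true], [true, false, false, true], [true, true, true], [true, true], [true], []]
    [(21, [0, 1, 2, 4, 5, 6, 7, 3])] = true := by decide +kernel

theorem pA2 (H : Ok G) {Q : Set V} (hQ : Clq G Q) (w x y z a b c d : V)
    (h : a ∈ Q ∧ b ∈ Q ∧ c ∈ Q ∧ d ∈ Q ∧ ¬ G.Adj w x ∧ ¬ G.Adj w y ∧ ¬ G.Adj w z ∧ G.Adj w a ∧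
      G.Adj w b ∧ ¬ G.Adj w c ∧ ¬ G.Adj w d ∧ ¬ G.Adj x y ∧ ¬ G.Adj x z ∧ ¬ G.Adj x a ∧ G.Adj x b ∧
      G.Adj x c ∧ ¬ G.Adj x d ∧ ¬ G.Adj y z ∧ ¬ G.Adj y a ∧ ¬ G.Adj y b ∧ G.Adj y c ∧ G.Adj y d ∧
      G.Adj z a ∧ ¬ G.Adj z b ∧ ¬ G.Adj z c ∧ G.Adj z d) : False := by
  classical
  obtain ⟨ma, mb, mc, md, hw_x, hw_y, hw_z, hw_a, hw_b, hw_c, hw_d, hx_y, hx_z, hx_a, hx_b, hx_c, hx_d,
    hy_z, hy_a, hy_b, hy_c, hy_d, hz_a, hz_b, hz_c, hz_d⟩ := h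
  exact H.tab [w, x, y, z, a, b, c, d] _ _ dpA2
    ⟨⟨hw_x, hw_y, hw_z, hw_a, hw_b, hw_c, hw_d, trivial⟩,
    ⟨hx_y, hx_z, hx_a, hx_b, hx_c, hx_d, trivial⟩,
    ⟨hy_z, hy_a, hy_b, hy_c, hy_d, trivial⟩,
    ⟨hz_a, hz_b, hz_c, hz_d, trivial⟩,
    ⟨hQ _ ma _ mb (by grind), hQ _ ma _ mc (by grind), hQ _ ma _ md (by grind), trivial⟩,
    ⟨hQ _ mb _ mc (by grind), hQ _ mb _ md (by grind), trivial⟩,
    ⟨hQ _ mc _ md (by grind), trivial⟩,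
    trivial,
    trivial⟩

lemma dF3a : ∀ x_a x_b y_a y_b z_a z_b : Bool, (¬ (x_a = true ↔ x_b = true) ∧ ¬ (y_a = true ↔ y_b = true) ∧ ¬ (z_a = true ↔ z_b = true)) →
    chk 8 [[false, false, true, false, false, true, true], [false, false, true, false, true, true], [false, false, true, true, true], [false, false, x_a, x_b], [false, y_a, y_b], [z_a, z_b], [true], []]
    [(13, [5, 4, 3, 0, 1, 2, 6, 7]), (6, [4, 3, 5, 2, 0, 1, 6, 7]), (6, [5, 3, 4, 1, 0, 2, 6, 7]), (6, [5, 4, 3, 0, 1, 2, 7, 6]), (6, [5, 4, 3, 0, 1, 2, 6, 7]), (6, [5, 3, 4, 1, 0, 2, 7, 6]), (6, [4, 3, 5, 2, 0, 1, 7, 6]), (13, [5, 4, 3, 0, 1, 2, 7, 6])] = true := by decide +kernel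

theorem F3a (H : Ok G) {Q : Set V} (hQ : Clq G Q) (p q r x y z a b : V)
    (h : a ∈ Q ∧ b ∈ Q ∧ ¬ G.Adj p q ∧ ¬ G.Adj p r ∧ G.Adj p x ∧ ¬ G.Adj p y ∧ ¬ G.Adj p z ∧
      G.Adj p a ∧ G.Adj p b ∧ ¬ G.Adj q r ∧ ¬ G.Adj q x ∧ G.Adj q y ∧ ¬ G.Adj q z ∧ G.Adj q a ∧
      G.Adj q b ∧ ¬ G.Adj r x ∧ ¬ G.Adj r y ∧ G.Adj r z ∧ G.Adj r a ∧ G.Adj r b ∧ ¬ G.Adj x y ∧
      ¬ G.Adj x z ∧ ¬ G.Adj y z ∧
      (¬ (G.Adj x a ↔ G.Adj x b) ∧ ¬ (G.Adj y a ↔ G.Adj y b) ∧ ¬ (G.Adj z a ↔ G.Adj z b))) : False := by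
  classical
  obtain ⟨ma, mb, hp_q, hp_r, hp_x, hp_y, hp_z, hp_a, hp_b, hq_r, hq_x, hq_y, hq_z, hq_a, hq_b, hr_x,
    hr_y, hr_z, hr_a, hr_b, hx_y, hx_z, hy_z, hc⟩ := h
  exact H.tab [p, q, r, x, y, z, a, b] _ _ (dF3a (decide (G.Adj x a)) (decide (G.Adj x b)) (decide (G.Adj y a)) (decide (G.Adj y b))
    (decide (G.Adj z a)) (decide (G.Adj z b))
    (by simpa only [decide_eq_true_eq] using hc))
    ⟨⟨hp_q, hp_r, hp_x, hp_y, hp_z, hp_a, hp_b, trivial⟩,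
    ⟨hq_r, hq_x, hq_y, hq_z, hq_a, hq_b, trivial⟩,
    ⟨hr_x, hr_y, hr_z, hr_a, hr_b, trivial⟩,
    ⟨hx_y, hx_z, cd _, cd _, trivial⟩,
    ⟨hy_z, cd _, cd _, trivial⟩,
    ⟨cd _, cd _, trivial⟩,
    ⟨hQ _ ma _ mb (by grind), trivial⟩,
    trivial,
    trivial⟩

lemma dF3b : ∀ x_a x_b x_c y_a y_b y_c z_a z_b z_c : Bool, ((x_a = true ∨ x_b = true) ∧ ¬ (x_a = true ∧ x_b = true ∧ x_c = true) ∧ (y_a = true ∨ y_b = true) ∧ ¬ (y_a = true ∧ y_b = true ∧ y_c = true) ∧ (z_a = true ↔ z_b = true) ∧ ¬ (z_a = true ↔ z_c = true)) →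
    chk 9 [[false, false, true, false, false, true, true, true], [false, false, true, false, true, true, true], [false, false, true, true, true, true], [false, false, x_a, x_b, x_c], [false, y_a, y_b, y_c], [z_a, z_b, z_c], [true, true], [true], []]
    [(6, [4, 3, 5, 2, 0, 1, 8, 7]), (13, [5, 4, 3, 0, 1, 2, 8, 7]), (3, [4, 5, 3, 0, 6, 2, 7, 8]), (1, [4, 5, 3, 0, 6, 8, 7]), (15, [5, 3, 4, 1, 0, 2, 6, 7, 8]), (3, [5, 3, 4, 1, 8, 0, 6, 7]), (6, [5, 4, 3, 0, 1, 2, 7, 8]), (4, [5, 3, 4, 1, 0, 8, 6, 7]), (3, [3, 5, 4, 1, 6, 2, 7, 8]), (1, [3, 5, 4, 1, 6, 8, 7]), (13, [5, 4, 3, 0, 1, 2, 6, 8]), (6, [4, 3, 5, 2, 0, 1, 6, 8]), (6, [5, 3, 4, 1, 0, 2, 6, 8]), (4, [5, 4, 3, 0, 1, 8, 7, 6]), (1, [3, 4, 5, 2, 6, 7, 8]), (5, [3, 4, 5, 2, 1, 6, 7, 8]), (6, [5, 4, 3, 0, 1, 2, 8, 6]), (15, [5, 4, 3, 0, 1, 2, 6,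 7, 8]), (3, [5, 4, 3, 0, 8, 1, 6, 7]), (6, [5, 4, 3, 0, 1, 2, 6, 8]), (4, [5, 3, 4, 1, 0, 8, 7, 6]), (6, [4, 3, 5, 2, 0, 1, 8, 6]), (13, [5, 4, 3, 0, 1, 2, 8, 6]), (3, [4, 5, 3, 0, 7, 2, 6, 8]), (1, [4, 5, 3, 0, 7, 8, 6]), (6, [5, 3, 4, 1, 0, 2, 7, 8]), (4, [5, 4, 3, 0, 1, 8, 6, 7]), (1, [4, 3, 5, 2, 6, 7, 8]), (5, [4, 3, 5, 2, 0, 6, 7, 8]), (3, [3, 5, 4, 1, 7, 2, 6, 8]), (1, [3, 5, 4, 1, 7, 8, 6]), (13, [5, 4, 3, 0, 1, 2, 7, 8]), (6, [4, 3, 5, 2, 0, 1, 7, 8]), (6, [5, 4, 3, 0, 1, 2, 8, 7]), (6, [5, 3, 4, 1, 0, 2, 8, 6]), (6, [5, 3, 4, 1, 0, 2, 8, 7])] = true := by decide +kernel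

theorem F3b (H : Ok G) {Q : Set V} (hQ : Clq G Q) (p q r x y z a b c : V)
    (h : a ∈ Q ∧ b ∈ Q ∧ c ∈ Q ∧ ¬ G.Adj p q ∧ ¬ G.Adj p r ∧ G.Adj p x ∧ ¬ G.Adj p y ∧ ¬ G.Adj p z ∧
      G.Adj p a ∧ G.Adj p b ∧ G.Adj p c ∧ ¬ G.Adj q r ∧ ¬ G.Adj q x ∧ G.Adj q y ∧ ¬ G.Adj q z ∧
      G.Adj q a ∧ G.Adj q b ∧ G.Adj q c ∧ ¬ G.Adj r x ∧ ¬ G.Adj r y ∧ G.Adj r z ∧ G.Adj r a ∧
      G.Adj r b ∧ G.Adj r c ∧ ¬ G.Adj x y ∧ ¬ G.Adj x z ∧ ¬ G.Adj y z ∧ a ≠ b ∧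
      ((G.Adj x a ∨ G.Adj x b) ∧ ¬ (G.Adj x a ∧ G.Adj x b ∧ G.Adj x c) ∧ (G.Adj y a ∨ G.Adj y b) ∧ ¬ (G.Adj y a ∧ G.Adj y b ∧ G.Adj y c) ∧ (G.Adj z a ↔ G.Adj z b) ∧ ¬ (G.Adj z a ↔ G.Adj z c))) : False := by
  classical
  obtain ⟨ma, mb, mc, hp_q, hp_r, hp_x, hp_y, hp_z, hp_a, hp_b, hp_c, hq_r, hq_x, hq_y, hq_z, hq_a,
    hq_b, hq_c, hr_x, hr_y, hr_z, hr_a, hr_b, hr_c, hx_y, hx_z, hy_z, na_b, hc⟩ := h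
  exact H.tab [p, q, r, x, y, z, a, b, c] _ _ (dF3b (decide (G.Adj x a)) (decide (G.Adj x b)) (decide (G.Adj x c)) (decide (G.Adj y a))
    (decide (G.Adj y b)) (decide (G.Adj y c)) (decide (G.Adj z a)) (decide (G.Adj z b))
    (decide (G.Adj z c))
    (by simpa only [decide_eq_true_eq] using hc))
    ⟨⟨hp_q, hp_r, hp_x, hp_y, hp_z, hp_a, hp_b, hp_c, trivial⟩,
    ⟨hq_r, hq_x, hq_y, hq_z, hq_a, hq_b, hq_c, trivial⟩,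
    ⟨hr_x, hr_y, hr_z, hr_a, hr_b, hr_c, trivial⟩,
    ⟨hx_y, hx_z, cd _, cd _, cd _, trivial⟩,
    ⟨hy_z, cd _, cd _, cd _, trivial⟩,
    ⟨cd _, cd _, cd _, trivial⟩,
    ⟨hQ _ ma _ mb na_b, hQ _ ma _ mc (by grind), trivial⟩,
    ⟨hQ _ mb _ mc (by grind), trivial⟩,
    trivial,
    trivial⟩

lemma dgrid : ∀ x_a x_b x_c x_d y_a y_b y_c y_d : Bool, ((x_a = true ↔ x_b = true) ∧ (x_c = true ↔ x_d = true) ∧ ¬ (x_a = true ↔ x_c = true) ∧ (y_a = true ↔ y_c = true) ∧ (y_b = true ↔ y_d = true) ∧ ¬ (y_a = true ↔ y_b = true)) →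
    chk 8 [[false, true, false, true, true, true, true], [false, true, true, true, true, true], [false, x_a, x_b, x_c, x_d], [y_a, y_b, y_c, y_d], [true, true, true], [true, true], [true], []]
    [(10, [2, 3, 1, 4, 0, 5, 6, 7]), (10, [2, 3, 1, 5, 0, 4, 7, 6]), (10, [3, 2, 0, 6, 1, 4, 7, 5]), (10, [3, 2, 0, 7, 1, 5, 6, 4])] = true := by decide +kernel

theorem grid (H : Ok G) {Q : Set V} (hQ : Clq G Q) (p q x y a b c d : V)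
    (h : a ∈ Q ∧ b ∈ Q ∧ c ∈ Q ∧ d ∈ Q ∧ ¬ G.Adj p q ∧ G.Adj p x ∧ ¬ G.Adj p y ∧ G.Adj p a ∧
      G.Adj p b ∧ G.Adj p c ∧ G.Adj p d ∧ ¬ G.Adj q x ∧ G.Adj q y ∧ G.Adj q a ∧ G.Adj q b ∧
      G.Adj q c ∧ G.Adj q d ∧ ¬ G.Adj x y ∧
      ((G.Adj x a ↔ G.Adj x b) ∧ (G.Adj x c ↔ G.Adj x d) ∧ ¬ (G.Adj x a ↔ G.Adj x c) ∧ (G.Adj y a ↔ G.Adj y c) ∧ (G.Adj y b ↔ G.Adj y d) ∧ ¬ (G.Adj y a ↔ G.Adj y b))) : False := by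
  classical
  obtain ⟨ma, mb, mc, md, hp_q, hp_x, hp_y, hp_a, hp_b, hp_c, hp_d, hq_x, hq_y, hq_a, hq_b, hq_c, hq_d,
    hx_y, hc⟩ := h
  exact H.tab [p, q, x, y, a, b, c, d] _ _ (dgrid (decide (G.Adj x a)) (decide (G.Adj x b)) (decide (G.Adj x c)) (decide (G.Adj x d))
    (decide (G.Adj y a)) (decide (G.Adj y b)) (decide (G.Adj y c)) (decide (G.Adj y d))
    (by simpa only [decide_eq_true_eq] using hc))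
    ⟨⟨hp_q, hp_x, hp_y, hp_a, hp_b, hp_c, hp_d, trivial⟩,
    ⟨hq_x, hq_y, hq_a, hq_b, hq_c, hq_d, trivial⟩,
    ⟨hx_y, cd _, cd _, cd _, cd _, trivial⟩,
    ⟨cd _, cd _, cd _, cd _, trivial⟩,
    ⟨hQ _ ma _ mb (by grind), hQ _ ma _ mc (by grind), hQ _ ma _ md (by grind), trivial⟩,
    ⟨hQ _ mb _ mc (by grind), hQ _ mb _ md (by grind), trivial⟩,
    ⟨hQ _ mc _ md (by grind), trivial⟩,
    trivial,
    trivial⟩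

lemma dMXA0 : ∀ x_y x_a x_b x_c y_a y_b y_c u_w w_a w_b w_c : Bool, (¬ (x_a = true ↔ x_b = true) ∧ (x_b = true ↔ x_c = true) ∧ (y_a = true ↔ y_b = true) ∧ ¬ (y_b = true ↔ y_c = true) ∧ (x_y = true → (x_a = true ↔ y_a = true)) ∧ (w_a = true ↔ w_c = true) ∧ ¬ (w_a = true ↔ w_b = true) ∧ (w_b = true → u_w = true)) →
    chk 8 [[x_y, true, false, false, x_a, x_b, x_c], [true, false, false, y_a, y_b, y_c], [false, false, true, true, true], [u_w, true, true, true], [w_a, w_b, w_c], [true, true], [true], []]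
    [(24, [1, 4, 2, 7, 5, 0, 3, 6]), (7, [1, 4, 0, 3, 5, 2, 6, 7]), (11, [1, 0, 4, 3, 5, 6, 2, 7]), (0, [3, 0, 1, 2, 5, 7, 6]), (20, [0, 4, 2, 5, 7, 1, 6]), (9, [1, 0, 4, 3, 6, 5, 7, 2]), (24, [0, 4, 2, 5, 7, 1, 3, 6]), (7, [0, 4, 1, 3, 7, 2, 6, 5]), (11, [0, 1, 4, 3, 7, 6, 2, 5]), (11, [4, 3, 1, 0, 2, 6, 5, 7]), (8, [4, 1, 0, 3, 5, 2, 7, 6]), (2, [4, 1, 0, 3, 6, 2, 5, 7]), (11, [4, 3, 0, 1, 2, 6, 7, 5]), (8, [4, 0, 1, 3, 7, 2, 5, 6]), (2, [4, 0, 1, 3, 6, 2, 7, 5])] = true := by decide +kernel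

theorem MXA0 (H : Ok G) {Q : Set V} (hQ : Clq G Q) (x y r u w a b c : V)
    (h : a ∈ Q ∧ b ∈ Q ∧ c ∈ Q ∧ G.Adj x r ∧ ¬ G.Adj x u ∧ ¬ G.Adj x w ∧ G.Adj y r ∧ ¬ G.Adj y u ∧
      ¬ G.Adj y w ∧ ¬ G.Adj r u ∧ ¬ G.Adj r w ∧ G.Adj r a ∧ G.Adj r b ∧ G.Adj r c ∧ G.Adj u a ∧
      G.Adj u b ∧ G.Adj u c ∧
      (¬ (G.Adj x a ↔ G.Adj x b) ∧ (G.Adj x b ↔ G.Adj x c) ∧ (G.Adj y a ↔ G.Adj y b) ∧ ¬ (G.Adj y b ↔ G.Adj y c) ∧ (G.Adj x y → (G.Adj x a ↔ G.Adj y a)) ∧ (G.Adj w a ↔ G.Adj w c) ∧ ¬ (G.Adj w a ↔ G.Adj w b) ∧ (G.Adj w b → G.Adj u w))) : False := by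
  classical
  obtain ⟨ma, mb, mc, hx_r, hx_u, hx_w, hy_r, hy_u, hy_w, hr_u, hr_w, hr_a, hr_b, hr_c, hu_a, hu_b,
    hu_c, hc⟩ := h
  exact H.tab [x, y, r, u, w, a, b, c] _ _ (dMXA0 (decide (G.Adj x y)) (decide (G.Adj x a)) (decide (G.Adj x b)) (decide (G.Adj x c))
    (decide (G.Adj y a)) (decide (G.Adj y b)) (decide (G.Adj y c)) (decide (G.Adj u w))
    (decide (G.Adj w a)) (decide (G.Adj w b)) (decide (G.Adj w c))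
    (by simpa only [decide_eq_true_eq] using hc))
    ⟨⟨cd _, hx_r, hx_u, hx_w, cd _, cd _, cd _, trivial⟩,
    ⟨hy_r, hy_u, hy_w, cd _, cd _, cd _, trivial⟩,
    ⟨hr_u, hr_w, hr_a, hr_b, hr_c, trivial⟩,
    ⟨cd _, hu_a, hu_b, hu_c, trivial⟩,
    ⟨cd _, cd _, cd _, trivial⟩,
    ⟨hQ _ ma _ mb (by grind), hQ _ ma _ mc (by grind), trivial⟩,
    ⟨hQ _ mb _ mc (by grind), trivial⟩,
    trivial,
    trivial⟩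

lemma dMXA1 : ∀ x_a x_b x_c y_a y_b y_c u_w w_a w_b w_c : Bool, (¬ (x_a = true ↔ x_b = true) ∧ (x_b = true ↔ x_c = true) ∧ (y_a = true ↔ y_b = true) ∧ ¬ (y_b = true ↔ y_c = true) ∧ (w_a = true ↔ w_c = true) ∧ ¬ (w_a = true ↔ w_b = true) ∧ (w_b = true → u_w = true)) →
    chk 9 [[false, true, false, false, false, x_a, x_b, x_c], [false, true, false, false, y_a, y_b, y_c], [true, false, false, true, true, true], [false, false, true, true, true], [u_w, true, true, true], [w_a, w_b, w_c], [true, true], [true], []]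
    [(1, [4, 1, 0, 2, 3, 6, 8]), (14, [4, 0, 1, 3, 2, 6, 8, 7]), (22, [0, 5, 1, 2, 6, 8, 3, 4, 7]), (16, [1, 0, 5, 4, 2, 3, 7, 6, 8]), (17, [1, 0, 5, 4, 7, 2, 3, 6, 8]), (1, [4, 1, 0, 2, 3, 8, 6])] = true := by decide +kernel

theorem MXA1 (H : Ok G) {Q : Set V} (hQ : Clq G Q) (x y r s u w a b c : V)
    (h : a ∈ Q ∧ b ∈ Q ∧ c ∈ Q ∧ ¬ G.Adj x y ∧ G.Adj x r ∧ ¬ G.Adj x s ∧ ¬ G.Adj x u ∧ ¬ G.Adj x w ∧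
      ¬ G.Adj y r ∧ G.Adj y s ∧ ¬ G.Adj y u ∧ ¬ G.Adj y w ∧ G.Adj r s ∧ ¬ G.Adj r u ∧ ¬ G.Adj r w ∧
      G.Adj r a ∧ G.Adj r b ∧ G.Adj r c ∧ ¬ G.Adj s u ∧ ¬ G.Adj s w ∧ G.Adj s a ∧ G.Adj s b ∧
      G.Adj s c ∧ G.Adj u a ∧ G.Adj u b ∧ G.Adj u c ∧
      (¬ (G.Adj x a ↔ G.Adj x b) ∧ (G.Adj x b ↔ G.Adj x c) ∧ (G.Adj y a ↔ G.Adj y b) ∧ ¬ (G.Adj y b ↔ G.Adj y c) ∧ (G.Adj w a ↔ G.Adj w c) ∧ ¬ (G.Adj w a ↔ G.Adj w b) ∧ (G.Adj w b → G.Adj u w))) : False := by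
  classical
  obtain ⟨ma, mb, mc, hx_y, hx_r, hx_s, hx_u, hx_w, hy_r, hy_s, hy_u, hy_w, hr_s, hr_u, hr_w, hr_a,
    hr_b, hr_c, hs_u, hs_w, hs_a, hs_b, hs_c, hu_a, hu_b, hu_c, hc⟩ := h
  exact H.tab [x, y, r, s, u, w, a, b, c] _ _ (dMXA1 (decide (G.Adj x a)) (decide (G.Adj x b)) (decide (G.Adj x c)) (decide (G.Adj y a))
    (decide (G.Adj y b)) (decide (G.Adj y c)) (decide (G.Adj u w)) (decide (G.Adj w a))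
    (decide (G.Adj w b)) (decide (G.Adj w c))
    (by simpa only [decide_eq_true_eq] using hc))
    ⟨⟨hx_y, hx_r, hx_s, hx_u, hx_w, cd _, cd _, cd _, trivial⟩,
    ⟨hy_r, hy_s, hy_u, hy_w, cd _, cd _, cd _, trivial⟩,
    ⟨hr_s, hr_u, hr_w, hr_a, hr_b, hr_c, trivial⟩,
    ⟨hs_u, hs_w, hs_a, hs_b, hs_c, trivial⟩,
    ⟨cd _, hu_a, hu_b, hu_c, trivial⟩,
    ⟨cd _, cd _, cd _, trivial⟩,
    ⟨hQ _ ma _ mb (by grind), hQ _ ma _ mc (by grind), trivial⟩,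
    ⟨hQ _ mb _ mc (by grind), trivial⟩,
    trivial,
    trivial⟩

lemma dMXB1 : ∀ u_w : Bool, (u_w = true ∨ ¬ u_w = true) →
    chk 8 [[true, false, false, false, true, true, true], [true, false, false, true, true, false], [false, false, false, true, false], [u_w, true, true, true], [true, false, true], [true, true], [true], []]
    [(7, [4, 2, 3, 1, 0, 7, 6, 5]), (8, [2, 4, 3, 1, 0, 7, 5, 6])] = true := by decide +kernel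

theorem MXB1 (H : Ok G) {Q : Set V} (hQ : Clq G Q) (p x y u w a b c : V)
    (h : a ∈ Q ∧ b ∈ Q ∧ c ∈ Q ∧ G.Adj p x ∧ ¬ G.Adj p y ∧ ¬ G.Adj p u ∧ ¬ G.Adj p w ∧ G.Adj p a ∧
      G.Adj p b ∧ G.Adj p c ∧ G.Adj x y ∧ ¬ G.Adj x u ∧ ¬ G.Adj x w ∧ G.Adj x a ∧ G.Adj x b ∧
      ¬ G.Adj x c ∧ ¬ G.Adj y u ∧ ¬ G.Adj y w ∧ ¬ G.Adj y a ∧ G.Adj y b ∧ ¬ G.Adj y c ∧ G.Adj u a ∧
      G.Adj u b ∧ G.Adj u c ∧ G.Adj w a ∧ ¬ G.Adj w b ∧ G.Adj w c ∧ (G.Adj u w ∨ ¬ G.Adj u w)) : False := by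
  classical
  obtain ⟨ma, mb, mc, hp_x, hp_y, hp_u, hp_w, hp_a, hp_b, hp_c, hx_y, hx_u, hx_w, hx_a, hx_b, hx_c,
    hy_u, hy_w, hy_a, hy_b, hy_c, hu_a, hu_b, hu_c, hw_a, hw_b, hw_c, hc⟩ := h
  exact H.tab [p, x, y, u, w, a, b, c] _ _ (dMXB1 (decide (G.Adj u w))
    (by simpa only [decide_eq_true_eq] using hc))
    ⟨⟨hp_x, hp_y, hp_u, hp_w, hp_a, hp_b, hp_c, trivial⟩,
    ⟨hx_y, hx_u, hx_w, hx_a, hx_b, hx_c, trivial⟩,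
    ⟨hy_u, hy_w, hy_a, hy_b, hy_c, trivial⟩,
    ⟨cd _, hu_a, hu_b, hu_c, trivial⟩,
    ⟨hw_a, hw_b, hw_c, trivial⟩,
    ⟨hQ _ ma _ mb (by grind), hQ _ ma _ mc (by grind), trivial⟩,
    ⟨hQ _ mb _ mc (by grind), trivial⟩,
    trivial,
    trivial⟩

lemma dpP1 : ∀ x_a x_b x_c y_a y_b y_c : Bool, (¬ (x_a = true ↔ x_b = true) ∧ ¬ (y_a = true ↔ y_b = true)) →
    chk 8 [[false, false, false, false, true, true, false], [false, true, false, true, true, true], [false, true, true, true, true], [false, x_a, x_b, x_c], [y_a, y_b, y_c], [true, true], [true], []]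
    [(26, [3, 1, 7, 2, 4, 5, 6, 0]), (1, [4, 0, 3, 1, 5, 7, 6]), (3, [0, 3, 4, 2, 7, 1, 5, 6]), (4, [0, 3, 4, 2, 1, 7, 5, 6]), (1, [3, 0, 4, 2, 5, 7, 6]), (12, [0, 4, 3, 1, 2, 5, 7, 6]), (4, [0, 4, 3, 1, 2, 7, 6, 5]), (5, [0, 3, 4, 2, 1, 7, 5, 6]), (3, [0, 4, 3, 1, 7, 2, 5, 6]), (4, [0, 3, 4, 2, 1, 7, 6, 5]), (26, [3, 1, 7, 2, 4, 6, 5, 0]), (1, [4, 0, 3, 1, 6, 7, 5]), (4, [0, 4, 3, 1, 2, 7, 5, 6]), (5, [0, 4, 3, 1, 2, 7, 5, 6]), (1, [3, 0, 4, 2, 6, 7, 5]), (12, [0, 4, 3, 1, 2, 6, 7, 5])] = true := by decide +kernel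

theorem pP1 (H : Ok G) {Q : Set V} (hQ : Clq G Q) (t p q x y a b c : V)
    (h : a ∈ Q ∧ b ∈ Q ∧ c ∈ Q ∧ ¬ G.Adj t p ∧ ¬ G.Adj t q ∧ ¬ G.Adj t x ∧ ¬ G.Adj t y ∧ G.Adj t a ∧
      G.Adj t b ∧ ¬ G.Adj t c ∧ ¬ G.Adj p q ∧ G.Adj p x ∧ ¬ G.Adj p y ∧ G.Adj p a ∧ G.Adj p b ∧
      G.Adj p c ∧ ¬ G.Adj q x ∧ G.Adj q y ∧ G.Adj q a ∧ G.Adj q b ∧ G.Adj q c ∧ ¬ G.Adj x y ∧
      (¬ (G.Adj x a ↔ G.Adj x b) ∧ ¬ (G.Adj y a ↔ G.Adj y b))) : False := by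
  classical
  obtain ⟨ma, mb, mc, ht_p, ht_q, ht_x, ht_y, ht_a, ht_b, ht_c, hp_q, hp_x, hp_y, hp_a, hp_b, hp_c,
    hq_x, hq_y, hq_a, hq_b, hq_c, hx_y, hc⟩ := h
  exact H.tab [t, p, q, x, y, a, b, c] _ _ (dpP1 (decide (G.Adj x a)) (decide (G.Adj x b)) (decide (G.Adj x c)) (decide (G.Adj y a))
    (decide (G.Adj y b)) (decide (G.Adj y c))
    (by simpa only [decide_eq_true_eq] using hc))
    ⟨⟨ht_p, ht_q, ht_x, ht_y, ht_a, ht_b, ht_c, trivial⟩,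
    ⟨hp_q, hp_x, hp_y, hp_a, hp_b, hp_c, trivial⟩,
    ⟨hq_x, hq_y, hq_a, hq_b, hq_c, trivial⟩,
    ⟨hx_y, cd _, cd _, cd _, trivial⟩,
    ⟨cd _, cd _, cd _, trivial⟩,
    ⟨hQ _ ma _ mb (by grind), hQ _ ma _ mc (by grind), trivial⟩,
    ⟨hQ _ mb _ mc (by grind), trivial⟩,
    trivial,
    trivial⟩

lemma dpP4 : ∀ w_a w_b w_c w_d : Bool, ((w_a = true ↔ w_b = true) ∧ (w_c = true ↔ w_d = true) ∧ ¬ (w_a = true ↔ w_c = true)) →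
    chk 9 [[false, false, false, false, true, false, true, false], [false, false, false, false, true, false, true], [false, true, true, true, true, true], [false, true, true, true, true], [w_a, w_b, w_c, w_d], [true, true, true], [true, true], [true], []]
    [(18, [1, 0, 4, 3, 2, 5, 6, 7, 8]), (18, [1, 0, 4, 3, 2, 7, 8, 5, 6])] = true := by decide +kernel

theorem pP4 (H : Ok G) {Q : Set V} (hQ : Clq G Q) (t s p u w a b c d : V)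
    (h : a ∈ Q ∧ b ∈ Q ∧ c ∈ Q ∧ d ∈ Q ∧ ¬ G.Adj t s ∧ ¬ G.Adj t p ∧ ¬ G.Adj t u ∧ ¬ G.Adj t w ∧
      G.Adj t a ∧ ¬ G.Adj t b ∧ G.Adj t c ∧ ¬ G.Adj t d ∧ ¬ G.Adj s p ∧ ¬ G.Adj s u ∧ ¬ G.Adj s w ∧
      ¬ G.Adj s a ∧ G.Adj s b ∧ ¬ G.Adj s c ∧ G.Adj s d ∧ ¬ G.Adj p u ∧ G.Adj p w ∧ G.Adj p a ∧
      G.Adj p b ∧ G.Adj p c ∧ G.Adj p d ∧ ¬ G.Adj u w ∧ G.Adj u a ∧ G.Adj u b ∧ G.Adj u c ∧
      G.Adj u d ∧ ((G.Adj w a ↔ G.Adj w b) ∧ (G.Adj w c ↔ G.Adj w d) ∧ ¬ (G.Adj w a ↔ G.Adj w c))) : False := by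
  classical
  obtain ⟨ma, mb, mc, md, ht_s, ht_p, ht_u, ht_w, ht_a, ht_b, ht_c, ht_d, hs_p, hs_u, hs_w, hs_a, hs_b,
    hs_c, hs_d, hp_u, hp_w, hp_a, hp_b, hp_c, hp_d, hu_w, hu_a, hu_b, hu_c, hu_d, hc⟩ := h
  exact H.tab [t, s, p, u, w, a, b, c, d] _ _ (dpP4 (decide (G.Adj w a)) (decide (G.Adj w b)) (decide (G.Adj w c)) (decide (G.Adj w d))
    (by simpa only [decide_eq_true_eq] using hc))
    ⟨⟨ht_s, ht_p, ht_u, ht_w, ht_a, ht_b, ht_c, ht_d, trivial⟩,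
    ⟨hs_p, hs_u, hs_w, hs_a, hs_b, hs_c, hs_d, trivial⟩,
    ⟨hp_u, hp_w, hp_a, hp_b, hp_c, hp_d, trivial⟩,
    ⟨hu_w, hu_a, hu_b, hu_c, hu_d, trivial⟩,
    ⟨cd _, cd _, cd _, cd _, trivial⟩,
    ⟨hQ _ ma _ mb (by grind), hQ _ ma _ mc (by grind), hQ _ ma _ md (by grind), trivial⟩,
    ⟨hQ _ mb _ mc (by grind), hQ _ mb _ md (by grind), trivial⟩,
    ⟨hQ _ mc _ md (by grind), trivial⟩,
    trivial,
    trivial⟩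

lemma dpTT : ∀ w_a w_b w_c w_d : Bool, ((w_a = true ↔ w_c = true) ∧ (w_b = true ↔ w_d = true) ∧ ¬ (w_a = true ↔ w_b = true)) →
    chk 8 [[false, false, false, true, true, true, false], [false, false, true, true, false, true], [true, true, true, true, true], [w_a, w_b, w_c, w_d], [true, true, true], [true, true], [true], []]
    [(14, [1, 3, 0, 6, 2, 4, 7, 5]), (14, [0, 3, 1, 7, 2, 5, 6, 4])] = true := by decide +kernel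

theorem pTT (H : Ok G) {Q : Set V} (hQ : Clq G Q) (t s p w a b c d : V)
    (h : a ∈ Q ∧ b ∈ Q ∧ c ∈ Q ∧ d ∈ Q ∧ ¬ G.Adj t s ∧ ¬ G.Adj t p ∧ ¬ G.Adj t w ∧ G.Adj t a ∧
      G.Adj t b ∧ G.Adj t c ∧ ¬ G.Adj t d ∧ ¬ G.Adj s p ∧ ¬ G.Adj s w ∧ G.Adj s a ∧ G.Adj s b ∧
      ¬ G.Adj s c ∧ G.Adj s d ∧ G.Adj p w ∧ G.Adj p a ∧ G.Adj p b ∧ G.Adj p c ∧ G.Adj p d ∧
      ((G.Adj w a ↔ G.Adj w c) ∧ (G.Adj w b ↔ G.Adj w d) ∧ ¬ (G.Adj w a ↔ G.Adj w b))) : False := by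
  classical
  obtain ⟨ma, mb, mc, md, ht_s, ht_p, ht_w, ht_a, ht_b, ht_c, ht_d, hs_p, hs_w, hs_a, hs_b, hs_c, hs_d,
    hp_w, hp_a, hp_b, hp_c, hp_d, hc⟩ := h
  exact H.tab [t, s, p, w, a, b, c, d] _ _ (dpTT (decide (G.Adj w a)) (decide (G.Adj w b)) (decide (G.Adj w c)) (decide (G.Adj w d))
    (by simpa only [decide_eq_true_eq] using hc))
    ⟨⟨ht_s, ht_p, ht_w, ht_a, ht_b, ht_c, ht_d, trivial⟩,
    ⟨hs_p, hs_w, hs_a, hs_b, hs_c, hs_d, trivial⟩,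
    ⟨hp_w, hp_a, hp_b, hp_c, hp_d, trivial⟩,
    ⟨cd _, cd _, cd _, cd _, trivial⟩,
    ⟨hQ _ ma _ mb (by grind), hQ _ ma _ mc (by grind), hQ _ ma _ md (by grind), trivial⟩,
    ⟨hQ _ mb _ mc (by grind), hQ _ mb _ md (by grind), trivial⟩,
    ⟨hQ _ mc _ md (by grind), trivial⟩,
    trivial,
    trivial⟩

lemma dAA1 : ∀ w_a w_b w_c : Bool, ((w_a = true ↔ w_c = true) ∧ ¬ (w_a = true ↔ w_b = true)) →
    chk 8 [[false, false, false, false, true, true, false], [false, false, false, false, true, true], [false, true, true, true, true], [false, true, true, true], [w_a, w_b, w_c], [true, true], [true], []]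
    [(1, [1, 0, 4, 2, 5, 7, 6]), (20, [0, 1, 5, 6, 7, 4, 3])] = true := by decide +kernel

theorem AA1 (H : Ok G) {Q : Set V} (hQ : Clq G Q) (t s p u w a b c : V)
    (h : a ∈ Q ∧ b ∈ Q ∧ c ∈ Q ∧ ¬ G.Adj t s ∧ ¬ G.Adj t p ∧ ¬ G.Adj t u ∧ ¬ G.Adj t w ∧ G.Adj t a ∧
      G.Adj t b ∧ ¬ G.Adj t c ∧ ¬ G.Adj s p ∧ ¬ G.Adj s u ∧ ¬ G.Adj s w ∧ ¬ G.Adj s a ∧ G.Adj s b ∧
      G.Adj s c ∧ ¬ G.Adj p u ∧ G.Adj p w ∧ G.Adj p a ∧ G.Adj p b ∧ G.Adj p c ∧ ¬ G.Adj u w ∧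
      G.Adj u a ∧ G.Adj u b ∧ G.Adj u c ∧ ((G.Adj w a ↔ G.Adj w c) ∧ ¬ (G.Adj w a ↔ G.Adj w b))) : False := by
  classical
  obtain ⟨ma, mb, mc, ht_s, ht_p, ht_u, ht_w, ht_a, ht_b, ht_c, hs_p, hs_u, hs_w, hs_a, hs_b, hs_c,
    hp_u, hp_w, hp_a, hp_b, hp_c, hu_w, hu_a, hu_b, hu_c, hc⟩ := h
  exact H.tab [t, s, p, u, w, a, b, c] _ _ (dAA1 (decide (G.Adj w a)) (decide (G.Adj w b)) (decide (G.Adj w c))
    (by simpa only [decide_eq_true_eq] using hc))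
    ⟨⟨ht_s, ht_p, ht_u, ht_w, ht_a, ht_b, ht_c, trivial⟩,
    ⟨hs_p, hs_u, hs_w, hs_a, hs_b, hs_c, trivial⟩,
    ⟨hp_u, hp_w, hp_a, hp_b, hp_c, trivial⟩,
    ⟨hu_w, hu_a, hu_b, hu_c, trivial⟩,
    ⟨cd _, cd _, cd _, trivial⟩,
    ⟨hQ _ ma _ mb (by grind), hQ _ ma _ mc (by grind), trivial⟩,
    ⟨hQ _ mb _ mc (by grind), trivial⟩,
    trivial,
    trivial⟩

lemma dAA20 : ∀ x_y x_a x_b x_c y_a y_b y_c : Bool, (¬ (x_a = true ↔ x_b = true) ∧ (x_b = true ↔ x_c = true) ∧ (y_a = true ↔ y_b = true) ∧ ¬ (y_b = true ↔ y_c = true) ∧ (x_y = true → (x_a = true ↔ y_a = true))) →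
    chk 9 [[x_y, true, false, false, false, x_a, x_b, x_c], [true, false, false, false, y_a, y_b, y_c], [false, false, false, true, true, true], [false, false, true, true, true], [false, true, true, false], [false, true, true], [true, true], [true], []]
    [(25, [4, 5, 1, 6, 7, 8, 2, 3, 0]), (0, [3, 0, 1, 2, 6, 8, 7]), (21, [0, 4, 5, 2, 6, 7, 8, 1]), (25, [0, 4, 5, 2, 6, 7, 8, 1, 3]), (4, [5, 4, 1, 0, 6, 2, 8, 7]), (4, [4, 5, 0, 1, 8, 2, 6, 7])] = true := by decide +kernel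

theorem AA20 (H : Ok G) {Q : Set V} (hQ : Clq G Q) (x y r u t s a b c : V)
    (h : a ∈ Q ∧ b ∈ Q ∧ c ∈ Q ∧ G.Adj x r ∧ ¬ G.Adj x u ∧ ¬ G.Adj x t ∧ ¬ G.Adj x s ∧ G.Adj y r ∧
      ¬ G.Adj y u ∧ ¬ G.Adj y t ∧ ¬ G.Adj y s ∧ ¬ G.Adj r u ∧ ¬ G.Adj r t ∧ ¬ G.Adj r s ∧
      G.Adj r a ∧ G.Adj r b ∧ G.Adj r c ∧ ¬ G.Adj u t ∧ ¬ G.Adj u s ∧ G.Adj u a ∧ G.Adj u b ∧
      G.Adj u c ∧ ¬ G.Adj t s ∧ G.Adj t a ∧ G.Adj t b ∧ ¬ G.Adj t c ∧ ¬ G.Adj s a ∧ G.Adj s b ∧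
      G.Adj s c ∧
      (¬ (G.Adj x a ↔ G.Adj x b) ∧ (G.Adj x b ↔ G.Adj x c) ∧ (G.Adj y a ↔ G.Adj y b) ∧ ¬ (G.Adj y b ↔ G.Adj y c) ∧ (G.Adj x y → (G.Adj x a ↔ G.Adj y a)))) : False := by
  classical
  obtain ⟨ma, mb, mc, hx_r, hx_u, hx_t, hx_s, hy_r, hy_u, hy_t, hy_s, hr_u, hr_t, hr_s, hr_a, hr_b,
    hr_c, hu_t, hu_s, hu_a, hu_b, hu_c, ht_s, ht_a, ht_b, ht_c, hs_a, hs_b, hs_c, hc⟩ := h
  exact H.tab [x, y, r, u, t, s, a, b, c] _ _ (dAA20 (decide (G.Adj x y)) (decide (G.Adj x a)) (decide (G.Adj x b)) (decide (G.Adj x c))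
    (decide (G.Adj y a)) (decide (G.Adj y b)) (decide (G.Adj y c))
    (by simpa only [decide_eq_true_eq] using hc))
    ⟨⟨cd _, hx_r, hx_u, hx_t, hx_s, cd _, cd _, cd _, trivial⟩,
    ⟨hy_r, hy_u, hy_t, hy_s, cd _, cd _, cd _, trivial⟩,
    ⟨hr_u, hr_t, hr_s, hr_a, hr_b, hr_c, trivial⟩,
    ⟨hu_t, hu_s, hu_a, hu_b, hu_c, trivial⟩,
    ⟨ht_s, ht_a, ht_b, ht_c, trivial⟩,
    ⟨hs_a, hs_b, hs_c, trivial⟩,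
    ⟨hQ _ ma _ mb (by grind), hQ _ ma _ mc (by grind), trivial⟩,
    ⟨hQ _ mb _ mc (by grind), trivial⟩,
    trivial,
    trivial⟩

lemma dAA21 : ∀ x_a x_b x_c y_a y_b y_c : Bool, (¬ (x_a = true ↔ x_b = true) ∧ (x_b = true ↔ x_c = true) ∧ (y_a = true ↔ y_b = true) ∧ ¬ (y_b = true ↔ y_c = true)) →
    chk 10 [[false, true, false, false, false, false, x_a, x_b, x_c], [false, true, false, false, false, y_a, y_b, y_c], [true, false, false, false, true, true, true], [false, false, false, true, true, true], [false, false, true, true, true], [false, true, true, false], [false, true, true], [true, true], [true], []]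
    [(1, [4, 1, 0, 2, 3, 7, 9]), (14, [4, 0, 1, 3, 2, 7, 9, 8]), (23, [0, 5, 6, 1, 2, 7, 8, 9, 3, 4]), (1, [4, 1, 0, 2, 3, 9, 7])] = true := by decide +kernel

theorem AA21 (H : Ok G) {Q : Set V} (hQ : Clq G Q) (x y r q u t s a b c : V)
    (h : a ∈ Q ∧ b ∈ Q ∧ c ∈ Q ∧ ¬ G.Adj x y ∧ G.Adj x r ∧ ¬ G.Adj x q ∧ ¬ G.Adj x u ∧ ¬ G.Adj x t ∧
      ¬ G.Adj x s ∧ ¬ G.Adj y r ∧ G.Adj y q ∧ ¬ G.Adj y u ∧ ¬ G.Adj y t ∧ ¬ G.Adj y s ∧ G.Adj r q ∧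
      ¬ G.Adj r u ∧ ¬ G.Adj r t ∧ ¬ G.Adj r s ∧ G.Adj r a ∧ G.Adj r b ∧ G.Adj r c ∧ ¬ G.Adj q u ∧
      ¬ G.Adj q t ∧ ¬ G.Adj q s ∧ G.Adj q a ∧ G.Adj q b ∧ G.Adj q c ∧ ¬ G.Adj u t ∧ ¬ G.Adj u s ∧
      G.Adj u a ∧ G.Adj u b ∧ G.Adj u c ∧ ¬ G.Adj t s ∧ G.Adj t a ∧ G.Adj t b ∧ ¬ G.Adj t c ∧
      ¬ G.Adj s a ∧ G.Adj s b ∧ G.Adj s c ∧
      (¬ (G.Adj x a ↔ G.Adj x b) ∧ (G.Adj x b ↔ G.Adj x c) ∧ (G.Adj y a ↔ G.Adj y b) ∧ ¬ (G.Adj y b ↔ G.Adj y c))) : False := by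
  classical
  obtain ⟨ma, mb, mc, hx_y, hx_r, hx_q, hx_u, hx_t, hx_s, hy_r, hy_q, hy_u, hy_t, hy_s, hr_q, hr_u,
    hr_t, hr_s, hr_a, hr_b, hr_c, hq_u, hq_t, hq_s, hq_a, hq_b, hq_c, hu_t, hu_s, hu_a, hu_b,
    hu_c, ht_s, ht_a, ht_b, ht_c, hs_a, hs_b, hs_c, hc⟩ := h
  exact H.tab [x, y, r, q, u, t, s, a, b, c] _ _ (dAA21 (decide (G.Adj x a)) (decide (G.Adj x b)) (decide (G.Adj x c)) (decide (G.Adj y a))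
    (decide (G.Adj y b)) (decide (G.Adj y c))
    (by simpa only [decide_eq_true_eq] using hc))
    ⟨⟨hx_y, hx_r, hx_q, hx_u, hx_t, hx_s, cd _, cd _, cd _, trivial⟩,
    ⟨hy_r, hy_q, hy_u, hy_t, hy_s, cd _, cd _, cd _, trivial⟩,
    ⟨hr_q, hr_u, hr_t, hr_s, hr_a, hr_b, hr_c, trivial⟩,
    ⟨hq_u, hq_t, hq_s, hq_a, hq_b, hq_c, trivial⟩,
    ⟨hu_t, hu_s, hu_a, hu_b, hu_c, trivial⟩,
    ⟨ht_s, ht_a, ht_b, ht_c, trivial⟩,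
    ⟨hs_a, hs_b, hs_c, trivial⟩,
    ⟨hQ _ ma _ mb (by grind), hQ _ ma _ mc (by grind), trivial⟩,
    ⟨hQ _ mb _ mc (by grind), trivial⟩,
    trivial,
    trivial⟩

lemma dpP6 : ∀ w_x w_a w_b w_c w_d : Bool, ((w_a = true ↔ w_b = true) ∧ (w_a = true ↔ w_c = true) ∧ (w_a = true ↔ w_d = true) ∧ ¬ (w_a = true ↔ w_x = true)) →
    chk 11 [[false, false, false, false, false, true, true, true, false, false], [false, false, false, false, false, true, false, true, false], [false, false, false, false, false, true, false, true], [false, true, true, true, true, true, true], [false, true, true, true, true, true], [w_x, w_a, w_b, w_c, w_d], [true, true, true, true], [true, true, true], [true, true], [true], []]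
    [(18, [2, 1, 0, 5, 6, 9, 10, 7, 8]), (19, [2, 1, 5, 0, 3, 9, 10, 6, 7, 8])] = true := by decide +kernel

theorem pP6 (H : Ok G) {Q : Set V} (hQ : Clq G Q) (t m n p u w x a b c d : V)
    (h : x ∈ Q ∧ a ∈ Q ∧ b ∈ Q ∧ c ∈ Q ∧ d ∈ Q ∧ ¬ G.Adj t m ∧ ¬ G.Adj t n ∧ ¬ G.Adj t p ∧
      ¬ G.Adj t u ∧ ¬ G.Adj t w ∧ G.Adj t x ∧ G.Adj t a ∧ G.Adj t b ∧ ¬ G.Adj t c ∧ ¬ G.Adj t d ∧
      ¬ G.Adj m n ∧ ¬ G.Adj m p ∧ ¬ G.Adj m u ∧ ¬ G.Adj m w ∧ ¬ G.Adj m x ∧ G.Adj m a ∧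
      ¬ G.Adj m b ∧ G.Adj m c ∧ ¬ G.Adj m d ∧ ¬ G.Adj n p ∧ ¬ G.Adj n u ∧ ¬ G.Adj n w ∧
      ¬ G.Adj n x ∧ ¬ G.Adj n a ∧ G.Adj n b ∧ ¬ G.Adj n c ∧ G.Adj n d ∧ ¬ G.Adj p u ∧ G.Adj p w ∧
      G.Adj p x ∧ G.Adj p a ∧ G.Adj p b ∧ G.Adj p c ∧ G.Adj p d ∧ ¬ G.Adj u w ∧ G.Adj u x ∧
      G.Adj u a ∧ G.Adj u b ∧ G.Adj u c ∧ G.Adj u d ∧
      ((G.Adj w a ↔ G.Adj w b) ∧ (G.Adj w a ↔ G.Adj w c) ∧ (G.Adj w a ↔ G.Adj w d) ∧ ¬ (G.Adj w a ↔ G.Adj w x))) : False := by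
  classical
  obtain ⟨mx, ma, mb, mc, md, ht_m, ht_n, ht_p, ht_u, ht_w, ht_x, ht_a, ht_b, ht_c, ht_d, hm_n, hm_p,
    hm_u, hm_w, hm_x, hm_a, hm_b, hm_c, hm_d, hn_p, hn_u, hn_w, hn_x, hn_a, hn_b, hn_c, hn_d,
    hp_u, hp_w, hp_x, hp_a, hp_b, hp_c, hp_d, hu_w, hu_x, hu_a, hu_b, hu_c, hu_d, hc⟩ := h
  exact H.tab [t, m, n, p, u, w, x, a, b, c, d] _ _ (dpP6 (decide (G.Adj w x)) (decide (G.Adj w a)) (decide (G.Adj w b)) (decide (G.Adj w c))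
    (decide (G.Adj w d))
    (by simpa only [decide_eq_true_eq] using hc))
    ⟨⟨ht_m, ht_n, ht_p, ht_u, ht_w, ht_x, ht_a, ht_b, ht_c, ht_d, trivial⟩,
    ⟨hm_n, hm_p, hm_u, hm_w, hm_x, hm_a, hm_b, hm_c, hm_d, trivial⟩,
    ⟨hn_p, hn_u, hn_w, hn_x, hn_a, hn_b, hn_c, hn_d, trivial⟩,
    ⟨hp_u, hp_w, hp_x, hp_a, hp_b, hp_c, hp_d, trivial⟩,
    ⟨hu_w, hu_x, hu_a, hu_b, hu_c, hu_d, trivial⟩,
    ⟨cd _, cd _, cd _, cd _, cd _, trivial⟩,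
    ⟨hQ _ mx _ ma (by grind), hQ _ mx _ mb (by grind), hQ _ mx _ mc (by grind), hQ _ mx _ md (by grind), trivial⟩,
    ⟨hQ _ ma _ mb (by grind), hQ _ ma _ mc (by grind), hQ _ ma _ md (by grind), trivial⟩,
    ⟨hQ _ mb _ mc (by grind), hQ _ mb _ md (by grind), trivial⟩,
    ⟨hQ _ mc _ md (by grind), trivial⟩,
    trivial,
    trivial⟩

lemma dLP4 : ∀ x_a x_b w_a w_b : Bool, (¬ (x_a = true ↔ x_b = true) ∧ ¬ (w_a = true ↔ w_b = true) ∧ (x_a = true ↔ w_a = true)) →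
    chk 7 [[true, false, false, false, x_a, x_b], [true, false, false, true, true], [true, false, true, true], [false, w_a, w_b], [true, true], [true], []]
    [(1, [4, 3, 0, 1, 2, 5, 6]), (1, [4, 3, 0, 1, 2, 6, 5])] = true := by decide +kernel

theorem LP4 (H : Ok G) (x y z w q a b : V)
    (h : G.Adj x y ∧ ¬ G.Adj x z ∧ ¬ G.Adj x w ∧ ¬ G.Adj x q ∧ G.Adj y z ∧ ¬ G.Adj y w ∧ ¬ G.Adj y q ∧
      G.Adj y a ∧ G.Adj y b ∧ G.Adj z w ∧ ¬ G.Adj z q ∧ G.Adj z a ∧ G.Adj z b ∧ ¬ G.Adj w q ∧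
      G.Adj q a ∧ G.Adj q b ∧ G.Adj a b ∧
      (¬ (G.Adj x a ↔ G.Adj x b) ∧ ¬ (G.Adj w a ↔ G.Adj w b) ∧ (G.Adj x a ↔ G.Adj w a))) : False := by
  classical
  obtain ⟨hx_y, hx_z, hx_w, hx_q, hy_z, hy_w, hy_q, hy_a, hy_b, hz_w, hz_q, hz_a, hz_b, hw_q, hq_a,
    hq_b, ha_b, hc⟩ := h
  exact H.tab [x, y, z, w, q, a, b] _ _ (dLP4 (decide (G.Adj x a)) (decide (G.Adj x b)) (decide (G.Adj w a)) (decide (G.Adj w b))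
    (by simpa only [decide_eq_true_eq] using hc))
    ⟨⟨hx_y, hx_z, hx_w, hx_q, cd _, cd _, trivial⟩,
    ⟨hy_z, hy_w, hy_q, hy_a, hy_b, trivial⟩,
    ⟨hz_w, hz_q, hz_a, hz_b, trivial⟩,
    ⟨hw_q, cd _, cd _, trivial⟩,
    ⟨hq_a, hq_b, trivial⟩,
    ⟨ha_b, trivial⟩,
    trivial,
    trivial⟩

lemma dLP5 : ∀ x_a x_b w_a w_b : Bool, (¬ (x_a = true ↔ x_b = true) ∧ ¬ (w_a = true ↔ w_b = true)) →
    chk 8 [[true, false, false, false, false, x_a, x_b], [true, false, false, false, true, true], [true, false, false, true, true], [true, false, true, true], [false, w_a, w_b], [true, true], [true], []]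
    [(26, [0, 1, 2, 3, 4, 6, 7, 5]), (3, [5, 0, 4, 3, 2, 1, 6, 7]), (3, [5, 4, 0, 1, 2, 3, 6, 7]), (26, [0, 1, 2, 3, 4, 7, 6, 5])] = true := by decide +kernel

theorem LP5 (H : Ok G) (x y z v w q a b : V)
    (h : G.Adj x y ∧ ¬ G.Adj x z ∧ ¬ G.Adj x v ∧ ¬ G.Adj x w ∧ ¬ G.Adj x q ∧ G.Adj y z ∧ ¬ G.Adj y v ∧
      ¬ G.Adj y w ∧ ¬ G.Adj y q ∧ G.Adj y a ∧ G.Adj y b ∧ G.Adj z v ∧ ¬ G.Adj z w ∧ ¬ G.Adj z q ∧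
      G.Adj z a ∧ G.Adj z b ∧ G.Adj v w ∧ ¬ G.Adj v q ∧ G.Adj v a ∧ G.Adj v b ∧ ¬ G.Adj w q ∧
      G.Adj q a ∧ G.Adj q b ∧ G.Adj a b ∧ (¬ (G.Adj x a ↔ G.Adj x b) ∧ ¬ (G.Adj w a ↔ G.Adj w b))) : False := by
  classical
  obtain ⟨hx_y, hx_z, hx_v, hx_w, hx_q, hy_z, hy_v, hy_w, hy_q, hy_a, hy_b, hz_v, hz_w, hz_q, hz_a,
    hz_b, hv_w, hv_q, hv_a, hv_b, hw_q, hq_a, hq_b, ha_b, hc⟩ := h
  exact H.tab [x, y, z, v, w, q, a, b] _ _ (dLP5 (decide (G.Adj x a)) (decide (G.Adj x b)) (decide (G.Adj w a)) (decide (G.Adj w b))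
    (by simpa only [decide_eq_true_eq] using hc))
    ⟨⟨hx_y, hx_z, hx_v, hx_w, hx_q, cd _, cd _, trivial⟩,
    ⟨hy_z, hy_v, hy_w, hy_q, hy_a, hy_b, trivial⟩,
    ⟨hz_v, hz_w, hz_q, hz_a, hz_b, trivial⟩,
    ⟨hv_w, hv_q, hv_a, hv_b, trivial⟩,
    ⟨hw_q, cd _, cd _, trivial⟩,
    ⟨hq_a, hq_b, trivial⟩,
    ⟨ha_b, trivial⟩,
    trivial,
    trivial⟩

end Pool.Agent.Lib.MP_d7353d_co
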