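import Pool.Agent.Lib.MP_d7353d_co.ChDefs

namespace Pool.Agent.Lib.MP_d7353d_co

variable {V : Type} {G : SimpleGraph V}

/-- adjacency pattern of an induced path -/
def IPa (G : SimpleGraph V) (p : ℕ → V) (n : ℕ) : Prop :=
  ∀ i j, i ≤ n → j ≤ n → (G.Adj (p i) (p j) ↔ i + 1 = j ∨ j + 1 = i)

def IP (G : SimpleGraph V) (p : ℕ → V) (n : ℕ) : Prop :=
  IPa G p n ∧ ∀ i j, i ≤ n → j ≤ n → p i = p j → i = j

def NoHole (G : SimpleGraph V) : Prop :=
  ∀ p n, 2 ≤ n → IP G p n → ∀ s, (∀ i, i ≤ n → s ≠ p i) → G.Adj s (p 0) → G.Adj s (p n) →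
    (∀ i, 0 < i → i < n → ¬ G.Adj s (p i)) → False

lemma cyc_adj (m : ℕ) (hm : 1 ≤ m) (u v : Fin (m + 2)) : (SimpleGraph.cycleGraph (m + 2)).Adj u v ↔
    u.val + 1 = v.val ∨ v.val + 1 = u.val ∨ (u.val = 0 ∧ v.val = m + 1) ∨ (v.val = 0 ∧ u.val = m + 1) := by
  rw [SimpleGraph.cycleGraph_adj']
  have hu := u.2
  have hv := v.2
  simp only [Fin.sub_def]
  have key : ∀ a b : ℕ, a < m + 2 → b < m + 2 →
      ((m + 2 - b + a) % (m + 2) = 1 ↔ b + 1 = a ∨ (a = 0 ∧ b = m + 1)) := by
    intro a b ha hb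
    by_cases h : b ≤ a
    · have : m + 2 - b + a = (a - b) + (m + 2) := by omega
      rw [this, Nat.add_mod_right, Nat.mod_eq_of_lt (by omega)]; omega
    · rw [Nat.mod_eq_of_lt (by omega)]; omega
  rw [key _ _ hu hv, key _ _ hv hu]; omega

theorem noHole_of_chordal (h : IsChordal G) : NoHole G := by
  intro p n hn hp s hs h0 h1 h2
  refine (h (n + 2) (by omega)).false ⟨⟨fun i => if i.val ≤ n then p i.val else s, ?_⟩, ?_⟩
  · intro a b hab
    have ha := a.2
    have hb := b.2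
    simp only at hab
    apply Fin.ext
    split_ifs at hab with h3 h4 h4
    · exact hp.2 _ _ h3 h4 hab
    · exact absurd hab.symm (hs _ h3)
    · exact absurd hab (hs _ h4)
    · omega
  · intro a b
    have ha := a.2
    have hb := b.2
    have key : ∀ i, i ≤ n → (G.Adj s (p i) ↔ i = 0 ∨ i = n) := by
      intro i hi
      constructor
      · intro hh
        by_contra hc
        exact h2 i (by omega) (by omega) hh
      · rintro (rfl | rfl) <;> assumption
    simp only [Function.Embedding.coeFn_mk]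
    rw [cyc_adj n (by omega)]
    split_ifs with h3 h4 h4
    · rw [hp.1 _ _ h3 h4]; omega
    · rw [G.adj_comm, key _ h3]; omega
    · rw [key _ h4]; omega
    · simp only [G.irrefl, false_iff]; omega

lemma IPa.mono {p : ℕ → V} {n m : ℕ} (h : IPa G p n) (hm : m ≤ n) : IPa G p m :=
  fun i j hi hj => h i j (by omega) (by omega)

lemma IP.shift {p : ℕ → V} {n : ℕ} (h : IP G p n) (a m : ℕ) (hm : a + m ≤ n) :
    IP G (fun i => p (a + i)) m := by
  refine ⟨fun i j hi hj => ?_, fun i j hi hj e => ?_⟩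
  · rw [h.1 _ _ (by omega) (by omega)]; omega
  · have := h.2 _ _ (by omega) (by omega) e; omega

lemma IPa.rev {p : ℕ → V} {n : ℕ} (h : IPa G p n) : IPa G (fun i => p (n - i)) n := by
  intro i j hi hj
  rw [h _ _ (by omega) (by omega)]; omega

/-- concatenation of two sequences -/
def cat (p : ℕ → V) (n : ℕ) (q : ℕ → V) : ℕ → V := fun k => if k ≤ n then p k else q (k - (n + 1))

lemma IPa.cat {p q : ℕ → V} {n m : ℕ} (hp : IPa G p n) (hq : IPa G q m)
    (h : ∀ i j, i ≤ n → j ≤ m → (G.Adj (p i) (q j) ↔ i = n ∧ j = 0)) : IPa G (cat p n q) (n + 1 + m) := by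
  intro i j hi hj
  unfold MP_d7353d_co.cat
  split_ifs with h1 h2 h2
  · exact hp _ _ h1 h2
  · rw [h _ _ h1 (by omega)]; omega
  · rw [G.adj_comm, h _ _ h2 (by omega)]; omega
  · rw [hq _ _ (by omega) (by omega)]; omega

lemma IP.cat {p q : ℕ → V} {n m : ℕ} (hp : IP G p n) (hq : IP G q m)
    (h : ∀ i j, i ≤ n → j ≤ m → (G.Adj (p i) (q j) ↔ i = n ∧ j = 0))
    (h' : ∀ i j, i ≤ n → j ≤ m → p i ≠ q j) : IP G (cat p n q) (n + 1 + m) := by
  refine ⟨hp.1.cat hq.1 h, fun i j hi hj e => ?_⟩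
  unfold MP_d7353d_co.cat at e
  split_ifs at e with h1 h2 h2
  · exact hp.2 _ _ h1 h2 e
  · exact absurd e (h' _ _ h1 (by omega))
  · exact absurd e.symm (h' _ _ h2 (by omega))
  · have := hq.2 _ _ (by omega) (by omega) e; omega

lemma ip_const (x : V) : IP G (fun _ => x) 0 :=
  ⟨fun i j hi hj => by simp only [G.irrefl, false_iff]; omega, fun i j hi hj _ => by omega⟩

/-- neighbours of a vertex on an induced path are consecutive -/
theorem NoHole.fill (hG : NoHole G) {p : ℕ → V} {n : ℕ} (hp : IP G p n) {s : V}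
    (hs : ∀ i, i ≤ n → s ≠ p i) : ∀ d a, a + d ≤ n → G.Adj s (p a) → G.Adj s (p (a + d)) →
      ∀ i, a ≤ i → i ≤ a + d → G.Adj s (p i) := by
  intro d
  induction d using Nat.strong_induction_on with
  | _ d ih =>
    intro a had h0 h1 i hi hi'
    by_cases hd : d ≤ 1
    · have : i = a ∨ i = a + d := by omega
      rcases this with rfl | rfl <;> assumption
    by_cases hex : ∃ j, 0 < j ∧ j < d ∧ G.Adj s (p (a + j))
    · obtain ⟨j, j0, jd, hj⟩ := hex
      by_cases hij : i ≤ a + j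
      · exact ih j jd a (by omega) h0 hj i hi hij
      · refine ih (d - j) (by omega) (a + j) (by omega) hj ?_ i (by omega) (by omega)
        have : a + j + (d - j) = a + d := by omega
        rw [this]; exact h1
    · exfalso
      refine hG _ d (by omega) (hp.shift a d had) s (fun i hi => hs _ (by omega)) h0 h1 ?_
      intro j j0 jd hj
      exact hex ⟨j, j0, jd, hj⟩

theorem NoHole.down (hG : NoHole G) {p : ℕ → V} {n : ℕ} (hp : IP G p n) {s : V}
    (hs : ∀ i, i ≤ n → s ≠ p i) (h0 : G.Adj s (p 0)) {j : ℕ} (hj : j ≤ n) (h1 : G.Adj s (p j))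
    {i : ℕ} (hi : i ≤ j) : G.Adj s (p i) :=
  hG.fill hp hs j 0 (by omega) h0 (by simpa using h1) i (by omega) (by omega)

theorem NoHole.c4 (hG : NoHole G) {x y z w : V} (h1 : G.Adj x y) (h2 : G.Adj y z) (h3 : G.Adj z w)
    (h4 : G.Adj w x) (n1 : ¬ G.Adj x z) (n2 : ¬ G.Adj y w) (e1 : x ≠ z) (e2 : y ≠ w) : False := by
  have a1 := h1.ne
  have a2 := h2.ne
  have a3 := h3.ne
  have a4 := h4.ne
  have s1 := h1.symm
  have s2 := h2.symm
  have n3 : ¬ G.Adj z x := fun h => n1 h.symm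
  refine hG (fun i => if i = 0 then x else if i = 1 then y else z) 2 le_rfl ⟨?_, ?_⟩ w ?_ ?_ ?_ ?_
  · intro i j hi hj
    interval_cases i <;> interval_cases j <;> simp [*]
  · intro i j hi hj
    interval_cases i <;> interval_cases j <;> simp [*, a1.symm, a2.symm, e1.symm]
  · intro i hi
    interval_cases i <;> simp [*, a3.symm, e2.symm]
  · simpa using h4
  · simpa using h3.symm
  · intro i h0 h1
    obtain rfl : i = 1 := by omega
    simpa using fun h => n2 h.symm

/-- reachability inside a set -/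
def Rch (G : SimpleGraph V) (D : Set V) : V → V → Prop :=
  Relation.ReflTransGen fun x y => G.Adj x y ∧ x ∈ D ∧ y ∈ D

def Cnn (G : SimpleGraph V) (D : Set V) : Prop := ∀ a ∈ D, ∀ b ∈ D, Rch G D a b

lemma Rch.symm {D : Set V} {a b : V} (h : Rch G D a b) : Rch G D b a := by
  induction h with
  | refl => exact Relation.ReflTransGen.refl
  | tail _ h2 ih => exact Relation.ReflTransGen.head ⟨h2.1.symm, h2.2.2, h2.2.1⟩ ih

lemma Rch.trans {D : Set V} {a b c : V} (h : Rch G D a b) (h' : Rch G D b c) : Rch G D a c :=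
  Relation.ReflTransGen.trans h h'

lemma Rch.mem {D : Set V} {a b : V} (h : Rch G D a b) (ha : a ∈ D) : b ∈ D := by
  induction h with
  | refl => exact ha
  | tail _ h2 _ => exact h2.2.2

lemma Rch.step {D : Set V} {a b : V} (h : G.Adj a b) (ha : a ∈ D) (hb : b ∈ D) : Rch G D a b :=
  Relation.ReflTransGen.single ⟨h, ha, hb⟩

/-- shortest path between two sets -/
theorem short_path {D : Set V} (S R : V → Prop) {a b : V} (ha : a ∈ D) (hab : Rch G D a b) (hS : S a)
    (hR : R b) : ∃ p n, IP G p n ∧ (∀ i, i ≤ n → p i ∈ D) ∧ S (p 0) ∧ R (p n) ∧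
      (∀ i, 0 < i → i ≤ n → ¬ S (p i)) ∧ ∀ i, i < n → ¬ R (p i) := by
  classical
  let W : ℕ → Prop := fun n => ∃ p : ℕ → V, (∀ i, i < n → G.Adj (p i) (p (i + 1))) ∧
    (∀ i, i ≤ n → p i ∈ D) ∧ S (p 0) ∧ R (p n)
  have ex : ∃ n, W n := by
    have : ∃ n, ∃ p : ℕ → V, (∀ i, i < n → G.Adj (p i) (p (i + 1))) ∧
        (∀ i, i ≤ n → p i ∈ D) ∧ p 0 = a ∧ p n = b := by
      clear hR
      induction hab with
      | refl => exact ⟨0, fun _ => a, by omega, fun _ _ => ha, rfl, rfl⟩
      | @tail x y _ h2 ih =>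
        obtain ⟨n, p, h3, h4, h5, h6⟩ := ih
        refine ⟨n + 1, fun k => if k ≤ n then p k else y, ?_, ?_, by simpa using h5, by simp⟩
        · intro i hi
          by_cases hin : i < n
          · simp only [if_pos hin.le, if_pos (show i + 1 ≤ n from hin)]; exact h3 i hin
          · obtain rfl : i = n := by omega
            simp only [le_refl, if_true, if_neg (show ¬ i + 1 ≤ i by omega)]
            rw [h6]; exact h2.1
        · intro i hi
          dsimp only
          split_ifs with h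
          · exact h4 i h
          · exact h2.2.2
    obtain ⟨n, p, h1, h2, h3, h4⟩ := this
    exact ⟨n, p, h1, h2, h3 ▸ hS, h4 ▸ hR⟩
  obtain ⟨p, h1, h2, h3, h4⟩ := Nat.find_spec ex
  set n := Nat.find ex with hn
  have mn : ∀ m, m < n → ¬ W m := fun m hm => Nat.find_min ex hm
  have cut : ∀ i j, i < j → j ≤ n → (j < n → G.Adj (p i) (p (j + 1))) → (j = n → R (p i)) → False := by
    intro i j hij hj ha' hb'
    refine mn (n - (j - i)) (by omega) ⟨fun k => if k ≤ i then p k else p (k + (j - i)), ?_, ?_, ?_, ?_⟩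
    · intro k hk
      by_cases h5 : k < i
      · simp only [if_pos h5.le, if_pos (show k + 1 ≤ i from h5)]; exact h1 k (by omega)
      by_cases h6 : k = i
      · subst h6
        simp only [le_refl, if_true, if_neg (show ¬ k + 1 ≤ k by omega)]
        have : k + 1 + (j - k) = j + 1 := by omega
        rw [this]; exact ha' (by omega)
      · simp only [if_neg (show ¬ k ≤ i by omega), if_neg (show ¬ k + 1 ≤ i by omega)]
        have : k + 1 + (j - i) = k + (j - i) + 1 := by omega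
        rw [this]; exact h1 _ (by omega)
    · intro k hk
      dsimp only
      split_ifs with h
      · exact h2 _ (by omega)
      · exact h2 _ (by omega)
    · simpa using h3
    · dsimp only
      split_ifs with h
      · have : n - (j - i) = i := by omega
        rw [this]; exact hb' (by omega)
      · have : n - (j - i) + (j - i) = n := by omega
        rw [this]; exact h4
  have inj : ∀ i j, i < j → j ≤ n → p i ≠ p j := by
    intro i j hij hj e
    exact cut i j hij hj (fun h => e ▸ h1 j h) (fun h => by rw [e, h]; exact h4)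
  have nad : ∀ i j, i + 1 < j → j ≤ n → ¬ G.Adj (p i) (p j) := by
    intro i j hij hj e
    refine cut i (j - 1) (by omega) (by omega) (fun _ => ?_) (fun h => by omega)
    have : j - 1 + 1 = j := by omega
    rw [this]; exact e
  refine ⟨p, n, ⟨?_, ?_⟩, h2, h3, h4, ?_, ?_⟩
  · intro i j hi hj
    constructor
    · intro h
      by_contra hc
      rcases lt_trichotomy i j with h7 | h7 | h7
      · exact nad i j (by omega) hj h
      · subst h7; exact G.irrefl h
      · exact nad j i (by omega) hi h.symm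
    · rintro (rfl | rfl)
      · exact h1 i (by omega)
      · exact (h1 j (by omega)).symm
  · intro i j hi hj e
    by_contra hc
    rcases lt_or_gt_of_ne hc with h7 | h7
    · exact inj i j h7 hj e
    · exact inj j i h7 hi e.symm
  · intro i i0 hi hs
    refine mn (n - i) (by omega) ⟨fun k => p (i + k), fun k hk => h1 _ (by omega),
      fun k hk => h2 _ (by omega), hs, ?_⟩
    have : i + (n - i) = n := by omega
    simp only [this]; exact h4
  · intro i hi hr
    exact mn i hi ⟨p, fun k hk => h1 _ (by omega), fun k hk => h2 _ (by omega), h3, hr⟩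

def Clq (G : SimpleGraph V) (Q : Set V) : Prop := ∀ a ∈ Q, ∀ b ∈ Q, a ≠ b → G.Adj a b

/-- a connected set has a vertex complete to its neighbourhood in a clique -/
theorem full_vertex [Fintype V] (hG : NoHole G) {Q D : Set V} (hQ : Clq G Q) (hD : Cnn G D)
    (hdq : ∀ c ∈ D, c ∉ Q) {x : V} (hx : x ∈ D) :
    ∃ z ∈ D, ∀ s ∈ Q, (∃ c ∈ D, G.Adj c s) → G.Adj z s := by
  classical
  obtain ⟨z, hz, hmax⟩ := Set.exists_max_image D
    (fun z => (Finset.univ.filter fun s => s ∈ Q ∧ G.Adj z s).card) (Set.toFinite D) ⟨x, hx⟩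
  refine ⟨z, hz, ?_⟩
  rintro s hs ⟨c, hc, hcs⟩
  by_contra hzs
  obtain ⟨p, n, hp, hpD, h0, hn, -, hR⟩ := short_path (G := G) (fun v => v = z) (fun v => G.Adj v s) hz
    (hD z hz c hc) rfl hcs
  have hp' : IP G (cat p n fun _ => s) (n + 1 + 0) := by
    refine hp.cat (ip_const s) ?_ ?_
    · intro i j hi hj
      constructor
      · intro h
        refine ⟨?_, by omega⟩
        by_contra hc
        exact hR i (by omega) h
      · rintro ⟨rfl, -⟩; exact hn
    · intro i j hi _ e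
      exact hdq _ (hpD i hi) (e ▸ hs)
  have key : ∀ s' ∈ Q, G.Adj z s' → G.Adj (p n) s' := by
    intro s' hs' hzs'
    have hne : s' ≠ s := fun e => hzs (e ▸ hzs')
    have := hG.down hp' (s := s') (fun i hi => ?_) (j := n + 1) ?_ (by omega) ?_ (i := n) (by omega)
    · simpa [cat] using this.symm
    · unfold cat
      split_ifs with h
      · exact fun e => hdq _ (hpD i h) (e ▸ hs')
      · exact hne
    · simpa [cat, h0] using hzs'.symm
    · simpa [cat] using hQ _ hs' _ hs hne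
  have := hmax (p n) (hpD n le_rfl)
  refine absurd this (not_le.2 (Finset.card_lt_card ⟨?_, ?_⟩))
  · intro s'
    simp only [Finset.mem_filter, Finset.mem_univ, true_and]
    exact fun h => ⟨h.1, key _ h.1 h.2⟩
  · intro h
    have := h (x := s) (by simp [hs, hn])
    simp [hzs] at this

/-- path from a vertex complete to `C` to a vertex splitting `a`, `b` -/
theorem walk (hG : NoHole G) {D : Set V} (hD : Cnn G D) (C : Set V) (hdq : ∀ c ∈ D, c ∉ C)
    {z : V} (hz : z ∈ D) (hzC : ∀ s ∈ C, G.Adj z s) {a b : V} (ha : a ∈ C) (hb : b ∈ C)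
    {x : V} (hx : x ∈ D) (hs : ¬ (G.Adj x a ↔ G.Adj x b)) :
    ∃ p n, 1 ≤ n ∧ IP G p n ∧ (∀ i, i ≤ n → p i ∈ D) ∧ (∀ s ∈ C, G.Adj (p 0) s) ∧
      (∀ i, 0 < i → i ≤ n → ∃ s ∈ C, ¬ G.Adj (p i) s) ∧
      (∀ i, i < n → G.Adj (p i) a ∧ G.Adj (p i) b) ∧ ¬ (G.Adj (p n) a ↔ G.Adj (p n) b) ∧
      ∀ s ∈ C, ∀ i j, i ≤ j → j ≤ n → G.Adj (p j) s → G.Adj (p i) s := by
  obtain ⟨p, n, hp, hpD, h0, hn, hS, hR⟩ := short_path (G := G) (fun v => ∀ s ∈ C, G.Adj v s)
    (fun v => ¬ (G.Adj v a ↔ G.Adj v b)) hz (hD z hz x hx) hzC hs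
  have mono : ∀ s ∈ C, ∀ i j, i ≤ j → j ≤ n → G.Adj (p j) s → G.Adj (p i) s := by
    intro s hs i j hij hj h
    exact (hG.down hp (fun k hk e => hdq _ (hpD k hk) (e ▸ hs)) (h0 s hs).symm hj h.symm hij).symm
  refine ⟨p, n, ?_, hp, hpD, h0, ?_, ?_, hn, mono⟩
  · by_contra hc
    obtain rfl : n = 0 := by omega
    exact hn ⟨fun _ => h0 b hb, fun _ => h0 a ha⟩
  · intro i i0 hi
    have := hS i i0 hi
    push Not at this
    exact this
  · intro i hi
    have h1 := not_not.1 (hR i hi)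
    by_cases h2 : G.Adj (p n) a
    · have := mono a ha i n hi.le le_rfl h2
      exact ⟨this, h1.1 this⟩
    · have h3 : G.Adj (p n) b := by
        by_contra h3
        exact hn ⟨fun h => absurd h h2, fun h => absurd h h3⟩
      have := mono b hb i n hi.le le_rfl h3
      exact ⟨h1.2 this, this⟩

/-- linking two vertices that have neighbours complete to `C` -/
theorem link (hG : NoHole G) {D : Set V} (hD : Cnn G D) (C : Set V) (hdq : ∀ c ∈ D, c ∉ C)
    {x x' p p' : V} (hx : x ∈ D) (hx' : x' ∈ D) (hp : p ∈ D) (hp' : p' ∈ D)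
    (c1 : ∀ s ∈ C, G.Adj p s) (c2 : ∀ s ∈ C, G.Adj p' s) (a1 : G.Adj x p) (a2 : G.Adj x' p')
    (n1 : ∃ s ∈ C, ¬ G.Adj x s) (n2 : ∃ s ∈ C, ¬ G.Adj x' s) :
    (∃ r ∈ D, (∀ s ∈ C, G.Adj r s) ∧ G.Adj x r ∧ G.Adj x' r) ∨
    (¬ G.Adj x x' ∧ ∃ r ∈ D, ∃ r' ∈ D, (∀ s ∈ C, G.Adj r s) ∧ (∀ s ∈ C, G.Adj r' s) ∧ G.Adj r r' ∧
      G.Adj x r ∧ G.Adj x' r' ∧ ¬ G.Adj x r' ∧ ¬ G.Adj x' r) ∨
    ∃ z n, 4 ≤ n ∧ IPa G z n ∧ z 0 = x ∧ z n = x' ∧ (∀ i, i ≤ n → z i ∈ D) ∧
      ∀ i, 0 < i → i < n → ∀ s ∈ C, G.Adj (z i) s := by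
  let E : Set V := {v | v ∈ D ∧ ∀ s ∈ C, G.Adj v s}
  have hE : Rch G E p p' := by
    obtain ⟨q, m, hq, hqD, h0, hm, -, -⟩ := short_path (G := G) (fun v => v = p) (fun v => v = p') hp
      (hD p hp p' hp') rfl rfl
    have hqE : ∀ i, i ≤ m → q i ∈ E := fun i hi => ⟨hqD i hi, fun s hs =>
      (hG.down hq (fun k hk e => hdq _ (hqD k hk) (e ▸ hs)) (h0 ▸ (c1 s hs).symm) le_rfl
        (hm ▸ (c2 s hs).symm) hi).symm⟩
    have : ∀ i, i ≤ m → Rch G E p (q i) := by
      intro i
      induction i with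
      | zero => intro _; rw [h0]; exact Relation.ReflTransGen.refl
      | succ i ih =>
        intro hi
        exact (ih (by omega)).trans (Rch.step ((hq.1 _ _ (by omega) hi).2 (Or.inl rfl))
          (hqE _ (by omega)) (hqE _ hi))
    exact hm ▸ this m le_rfl
  obtain ⟨q, m, hq, hqE, h0, hm, hS, hR⟩ := short_path (G := G) (D := E) (fun v => G.Adj x v)
    (fun v => G.Adj x' v) ⟨hp, c1⟩ hE a1 a2
  by_cases m0 : m = 0
  · subst m0
    exact Or.inl ⟨q 0, (hqE 0 le_rfl).1, (hqE 0 le_rfl).2, h0, hm⟩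
  have xq : ∀ i, i ≤ m → x ≠ q i := by
    intro i hi e
    obtain ⟨s, hs, hn⟩ := n1
    exact hn (e ▸ (hqE i hi).2 s hs)
  have xq' : ∀ i, i ≤ m → x' ≠ q i := by
    intro i hi e
    obtain ⟨s, hs, hn⟩ := n2
    exact hn (e ▸ (hqE i hi).2 s hs)
  have ax : ∀ j, j ≤ m → (G.Adj x (q j) ↔ j = 0) := by
    intro j hj
    refine ⟨fun h => ?_, fun h => h ▸ h0⟩
    by_contra hc
    exact hS j (by omega) hj h
  have ax' : ∀ j, j ≤ m → (G.Adj x' (q j) ↔ j = m) := by
    intro j hj
    refine ⟨fun h => ?_, fun h => h ▸ hm⟩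
    by_contra hc
    exact hR j (by omega) h
  have P1 : IP G (cat (fun _ => x) 0 q) (0 + 1 + m) :=
    (ip_const x).cat hq (fun i j hi hj => by rw [ax j hj]; omega) (fun i j _ hj => xq j hj)
  have nxx : ¬ G.Adj x x' := by
    intro h
    refine hG _ _ (by omega) P1 x' ?_ (by simpa [cat] using h.symm) (by simpa [cat] using hm) ?_
    · intro i hi
      unfold cat
      split_ifs
      · exact h.ne.symm
      · exact xq' _ (by omega)
    · intro i i0 hi
      unfold cat
      rw [if_neg (by omega), ax' _ (by omega)]; omega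
  by_cases m1 : m = 1
  · subst m1
    refine Or.inr (Or.inl ⟨nxx, q 0, (hqE 0 (by omega)).1, q 1, (hqE 1 le_rfl).1, (hqE 0 (by omega)).2,
      (hqE 1 le_rfl).2, (hq.1 _ _ (by omega) le_rfl).2 (Or.inl rfl), h0, hm, ?_, ?_⟩)
    · rw [ax _ le_rfl]; omega
    · rw [ax' _ (by omega)]; omega
  refine Or.inr (Or.inr ⟨cat (cat (fun _ => x) 0 q) (0 + 1 + m) fun _ => x', 0 + 1 + m + 1 + 0, by omega,
    P1.1.cat (ip_const x').1 ?_, by simp [cat], by simp [cat], ?_, ?_⟩)
  · intro i j hi hj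
    unfold cat
    split_ifs with h
    · simp only [nxx, false_iff]; omega
    · rw [G.adj_comm, ax' _ (by omega)]; omega
  · intro i hi
    unfold cat
    split_ifs
    · exact hx
    · exact (hqE _ (by omega)).1
    · exact hx'
  · intro i i0 hi
    unfold cat
    rw [if_pos (by omega), if_neg (by omega)]
    exact (hqE _ (by omega)).2

end Pool.Agent.Lib.MP_d7353d_co
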