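import Pool.Agent.Lib.MP_d7353d_co.ChPat

namespace Pool.Agent.Lib.MP_d7353d_co

variable {V : Type} {G : SimpleGraph V}

theorem LPF (H : Ok G) {z : ℕ → V} {n : ℕ} {a b : V} (hz : IPa G z n) (ab : G.Adj a b)
    (inn : ∀ i, 0 < i → i < n → G.Adj (z i) a ∧ G.Adj (z i) b)
    (e0 : ¬ (G.Adj (z 0) a ↔ G.Adj (z 0) b)) (en : ¬ (G.Adj (z n) a ↔ G.Adj (z n) b)) (n5 : 5 ≤ n)
    (par : (G.Adj (z 0) a ↔ G.Adj (z n) a) ↔ n % 2 = 1) : False := by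
  refine H.nb (Or.inr (Or.inl ⟨n + 1, by omega, ?_⟩))
  by_cases h : G.Adj (z 0) b
  · refine hasF hz ab (fun i hi => ?_) (fun i hi => ?_) <;> have := inn i <;> grind
  · refine hasF hz ab.symm (fun i hi => ?_) (fun i hi => ?_) <;> have := inn i <;> grind

theorem LP (H : Ok G) {z : ℕ → V} {n : ℕ} {a b q : V} (hz : IPa G z n) (ab : G.Adj a b)
    (inn : ∀ i, 0 < i → i < n → G.Adj (z i) a ∧ G.Adj (z i) b)
    (e0 : ¬ (G.Adj (z 0) a ↔ G.Adj (z 0) b)) (en : ¬ (G.Adj (z n) a ↔ G.Adj (z n) b)) (n4 : 4 ≤ n)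
    (qa : G.Adj q a) (qb : G.Adj q b) (qz : ∀ i, i ≤ n → ¬ G.Adj q (z i)) : False := by
  by_cases h4 : n = 4
  · subst h4
    have sy := G.adj_comm
    unfold IPa at hz
    exact LP5 H (z 0) (z 1) (z 2) (z 3) (z 4) q a b (by and_intros <;> grind)
  by_cases par : (G.Adj (z 0) a ↔ G.Adj (z n) a) ↔ n % 2 = 1
  · exact LPF H hz ab inn e0 en (by omega) par
  refine H.nb (Or.inr (Or.inr (Or.inl ⟨n + 1, by omega, ?_⟩)))
  by_cases h : G.Adj (z 0) b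
  · refine hasG hz ab qa qb qz (fun i hi => ?_) (fun i hi => ?_) <;> have := inn i <;> grind
  · refine hasG hz ab.symm qb qa qz (fun i hi => ?_) (fun i hi => ?_) <;> have := inn i <;> grind

structure Arm (G : SimpleGraph V) (a b c : V) (p : ℕ → V) (n : ℕ) : Prop where
  ip : IPa G p n
  c0 : G.Adj (p 0) c
  cn : ∀ i, 0 < i → i ≤ n → ¬ G.Adj (p i) c
  inn : ∀ i, i < n → G.Adj (p i) a ∧ G.Adj (p i) b
  sp : ¬ (G.Adj (p n) a ↔ G.Adj (p n) b)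

lemma Arm.symm {a b c : V} {p : ℕ → V} {n : ℕ} (h : Arm G a b c p n) : Arm G b a c p n :=
  ⟨h.ip, h.c0, h.cn, fun i hi => (h.inn i hi).symm, fun e => h.sp e.symm⟩

lemma arm0 {a b c w : V} (h1 : G.Adj w c) (h2 : ¬ (G.Adj w a ↔ G.Adj w b)) : Arm G a b c (fun _ => w) 0 :=
  ⟨(ip_const w).1, h1, by omega, by omega, h2⟩

lemma arm1 {a b c u w : V} (uw : G.Adj u w) (h0 : G.Adj u a ∧ G.Adj u b ∧ G.Adj u c) (h1 : ¬ G.Adj w c)
    (h2 : ¬ (G.Adj w a ↔ G.Adj w b)) : Arm G a b c (fun i => if i = 0 then u else w) 1 := by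
  have := uw.symm
  have := G.irrefl (v := u)
  have := G.irrefl (v := w)
  refine ⟨fun i j hi hj => ?_, ?_, ?_, ?_, ?_⟩ <;> grind

lemma Arm.join {a b c : V} {p q : ℕ → V} {r s : ℕ} (hp : Arm G a b c p r) (hq : Arm G a b c q s)
    (an : ∀ i j, i ≤ r → j ≤ s → ¬ G.Adj (p i) (q j)) (ca : G.Adj c a) (cb : G.Adj c b) :
    ∃ z, IPa G z (r + s + 2) ∧ z 0 = p r ∧ z (r + s + 2) = q s ∧
      (∀ i, 0 < i → i < r + s + 2 → G.Adj (z i) a ∧ G.Adj (z i) b) ∧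
      ∀ i, i ≤ r + s + 2 → z i = c ∨ (∃ j, j ≤ r ∧ z i = p j) ∨ ∃ j, j ≤ s ∧ z i = q j := by
  have pc : ∀ i, i ≤ r → (G.Adj (p i) c ↔ i = 0) := fun i hi => by
    have := hp.c0
    have := hp.cn i
    grind
  have qc : ∀ i, i ≤ s → (G.Adj c (q i) ↔ i = 0) := fun i hi => by
    have := hq.c0
    have := hq.cn i
    rw [G.adj_comm]; grind
  have P1 : IPa G (cat (fun i => p (r - i)) r fun _ => c) (r + 1 + 0) :=
    hp.ip.rev.cat (ip_const c).1 fun i j hi hj => by rw [pc _ (by omega)]; omega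
  have P2 := P1.cat hq.ip fun i j hi hj => by
    unfold cat
    split_ifs
    · simp only [an _ _ (Nat.sub_le r i) hj, false_iff]; omega
    · rw [qc _ hj]; omega
  refine ⟨_, P2.mono (by omega), by simp [cat], ?_, fun i i0 hi => ?_, fun i hi => ?_⟩
  · unfold cat
    rw [if_neg (by omega)]; congr 1; omega
  · unfold cat
    split_ifs
    · exact hp.inn _ (by omega)
    · exact ⟨ca, cb⟩
    · exact hq.inn _ (by omega)
  · unfold cat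
    split_ifs
    · exact Or.inr (Or.inl ⟨_, by omega, rfl⟩)
    · exact Or.inl rfl
    · exact Or.inr (Or.inr ⟨_, by omega, rfl⟩)

theorem LPF2 (H : Ok G) {a b c : V} {p q : ℕ → V} {r s : ℕ} (hp : Arm G a b c p r) (hq : Arm G a b c q s)
    (an : ∀ i j, i ≤ r → j ≤ s → ¬ G.Adj (p i) (q j)) (ab : G.Adj a b) (ca : G.Adj c a) (cb : G.Adj c b)
    (n3 : 3 ≤ r + s) (par : (G.Adj (p r) a ↔ G.Adj (q s) a) ↔ (r + s) % 2 = 1) : False := by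
  obtain ⟨z, h1, h2, h3, h4, -⟩ := hp.join hq an ca cb
  refine LPF H h1 ab h4 (h2 ▸ hp.sp) (h3 ▸ hq.sp) (by omega) ?_
  rw [h2, h3, par]; omega

theorem LP2 (H : Ok G) {a b c x : V} {p q : ℕ → V} {r s : ℕ} (hp : Arm G a b c p r) (hq : Arm G a b c q s)
    (an : ∀ i j, i ≤ r → j ≤ s → ¬ G.Adj (p i) (q j)) (ab : G.Adj a b) (ca : G.Adj c a) (cb : G.Adj c b)
    (n3 : 2 ≤ r + s) (xa : G.Adj x a) (xb : G.Adj x b) (xc : ¬ G.Adj x c)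
    (xp : ∀ i, i ≤ r → ¬ G.Adj x (p i)) (xq : ∀ i, i ≤ s → ¬ G.Adj x (q i)) : False := by
  obtain ⟨z, h1, h2, h3, h4, h5⟩ := hp.join hq an ca cb
  refine LP H h1 ab h4 (h2 ▸ hp.sp) (h3 ▸ hq.sp) (by omega) xa xb fun i hi => ?_
  rcases h5 i hi with e | ⟨j, hj, e⟩ | ⟨j, hj, e⟩ <;> rw [e]
  exacts [xc, xp j hj, xq j hj]

/-- a full component with its points on the clique -/
structure SD (G : SimpleGraph V) (Q D : Set V) (α : V → ℤ) : Prop where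
  side : ∃ f g, Side G Q D f g α
  conn : Cnn G D
  dq : ∀ c ∈ D, c ∉ Q
  full : ∀ x ∈ D, ∃ z ∈ D, ∀ s ∈ Q, G.Adj z s
  clq : Clq G Q

def Mid (α : V → ℤ) (a b c : V) : Prop := (α a < α b ∧ α b < α c) ∨ (α c < α b ∧ α b < α a)

variable {Q D : Set V} {α : V → ℤ}

lemma SD.mirror (S : SD G Q D α) : SD G Q D fun v => - α v := by
  obtain ⟨f, g, h⟩ := S.side
  exact ⟨⟨_, _, h.mirror⟩, S.conn, S.dq, S.full, S.clq⟩

lemma SD.twin (S : SD G Q D α) : ∀ x ∈ D, ∀ s ∈ Q, ∀ s' ∈ Q, α s = α s' → G.Adj x s → G.Adj x s' := by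
  obtain ⟨f, g, h⟩ := S.side
  exact fun x hx s hs s' hs' e => (h.twin hs hs' e hx).1

lemma SD.conv (S : SD G Q D α) {x a b c : V} (hx : x ∈ D) (ha : a ∈ Q) (hb : b ∈ Q) (hc : c ∈ Q)
    (h1 : α a ≤ α b) (h2 : α b ≤ α c) (xa : G.Adj x a) (xc : G.Adj x c) : G.Adj x b := by
  obtain ⟨f, g, h⟩ := S.side
  rw [h.dq x hx _ ha] at xa
  rw [h.dq x hx _ hc] at xc
  rw [h.dq x hx _ hb]; omega

lemma SD.walk (H : Ok G) (S : SD G Q D α) (C : Set V) (hC : C ⊆ Q) {a b : V} (ha : a ∈ C) (hb : b ∈ C)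
    (ab : α a ≠ α b) : ∃ p n, 1 ≤ n ∧ IP G p n ∧ (∀ i, i ≤ n → p i ∈ D) ∧ (∀ s ∈ C, G.Adj (p 0) s) ∧
      (∀ i, 0 < i → i ≤ n → ∃ s ∈ C, ¬ G.Adj (p i) s) ∧
      (∀ i, i < n → G.Adj (p i) a ∧ G.Adj (p i) b) ∧ ¬ (G.Adj (p n) a ↔ G.Adj (p n) b) ∧
      ∀ s ∈ C, ∀ i j, i ≤ j → j ≤ n → G.Adj (p j) s → G.Adj (p i) s := by
  obtain ⟨f, g, h⟩ := S.side
  obtain ⟨x, hx, hs⟩ := h.tw a (hC ha) b (hC hb) ab
  obtain ⟨z, hz, hzq⟩ := S.full x hx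
  exact MP_d7353d_co.walk H.nh S.conn C (fun c hc e => S.dq c hc (hC e)) hz (fun s hs => hzq s (hC hs)) ha hb hx hs

lemma SD.edge (H : Ok G) (S : SD G Q D α) (C : Set V) (hC : C ⊆ Q) {a b : V} (ha : a ∈ C) (hb : b ∈ C)
    (ab : α a ≠ α b) : ∃ p ∈ D, ∃ x ∈ D, G.Adj p x ∧ (∀ s ∈ C, G.Adj p s) ∧ (∃ s ∈ C, ¬ G.Adj x s) ∧
      (G.Adj x a ∨ G.Adj x b) := by
  obtain ⟨p, n, n1, hp, hD, h0, h1, h2, h3, -⟩ := S.walk H C hC ha hb ab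
  refine ⟨p 0, hD 0 (by omega), p 1, hD 1 n1, (hp.1 0 1 (by omega) n1).2 (Or.inl rfl), h0, h1 1 (by omega) n1, ?_⟩
  have := h2 1
  grind

lemma SD.edge2 (H : Ok G) (S : SD G Q D α) {a b : V} (ha : a ∈ Q) (hb : b ∈ Q) (ab : α a ≠ α b) :
    ∃ p ∈ D, ∃ x ∈ D, G.Adj p x ∧ (∀ s ∈ Q, α s = α a ∨ α s = α b → G.Adj p s) ∧
      ¬ (G.Adj x a ↔ G.Adj x b) ∧ ∀ s ∈ Q, ∀ s' ∈ Q, α s = α s' → G.Adj x s → G.Adj x s' := by
  obtain ⟨p, hp, x, hx, h1, h2, ⟨s, ⟨hs, e⟩, h3⟩, h4⟩ := S.edge H {s | s ∈ Q ∧ (α s = α a ∨ α s = α b)}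
    (fun s hs => hs.1) ⟨ha, Or.inl rfl⟩ ⟨hb, Or.inr rfl⟩ ab
  refine ⟨p, hp, x, hx, h1, fun s hs e => h2 s ⟨hs, e⟩, ?_, S.twin x hx⟩
  have := S.twin x hx a ha s hs
  have := S.twin x hx b hb s hs
  grind

lemma SD.arm (H : Ok G) (S : SD G Q D α) {a b c : V} (ha : a ∈ Q) (hb : b ∈ Q) (hc : c ∈ Q)
    (ab : α a ≠ α b) : ∃ p n, Arm G a b c p n ∧ (∀ i, i ≤ n → p i ∈ D) ∧
      (n ≤ 1 → ∃ z ∈ D, G.Adj z (p n) ∧ G.Adj z a ∧ G.Adj z b ∧ G.Adj z c) ∧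
      (Mid α a b c → (G.Adj (p n) a ↔ n % 2 = 1)) := by
  obtain ⟨p, n, n1, hp, hD, h0, h1, h2, h3, h4⟩ := S.walk H {a, b, c} (by simp [Set.insert_subset_iff, *])
    (by simp) (by simp) ab
  simp only [Set.mem_insert_iff, Set.mem_singleton_iff, forall_eq_or_imp, forall_eq, exists_eq_or_imp,
    exists_eq_left] at h0 h1 h4
  have e1 : G.Adj (p 0) (p 1) := (hp.1 0 1 (by omega) n1).2 (Or.inl rfl)
  by_cases hn : G.Adj (p n) c
  · obtain rfl : n = 1 := by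
      have := h1 1
      have := h2 1
      have := h4.2.2 1 n
      grind
    refine ⟨_, 0, arm0 hn h3, fun _ _ => hD 1 le_rfl, fun _ => ⟨p 0, hD 0 (by omega), e1, h0⟩, fun hm => ?_⟩
    have := S.conv (hD 1 le_rfl) ha hb hc
    have := S.conv (hD 1 le_rfl) hc hb ha
    unfold Mid at hm
    grind
  have cn : ∀ i, 0 < i → i ≤ n → ¬ G.Adj (p i) c := fun i i0 hi => by
    have := h1 i
    have := h2 i
    grind
  refine ⟨p, n, ⟨hp.1, h0.2.2, cn, h2, h3⟩, hD, fun h => ⟨p 0, hD 0 (by omega), ?_, h0⟩, ?_⟩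
  · obtain rfl : n = 1 := by omega
    exact e1
  · obtain ⟨f, g, h⟩ := S.side
    rintro (hm | hm)
    · exact h.zigzag ha hb hc hm.1 hm.2 n1 hp hD h0.2.2 cn h2 h3
    · exact h.mirror.zigzag ha hb hc (by omega) (by omega) n1 hp hD h0.2.2 cn h2 h3

/-- the possible shapes of a side around three points -/
theorem SD.three (H : Ok G) (S : SD G Q D α) {a b c u : V} (ha : a ∈ Q) (hb : b ∈ Q) (hc : c ∈ Q)
    (hm : Mid α a b c) (ua : G.Adj u a) (uc : G.Adj u c) (uD : ∀ x ∈ D, ¬ G.Adj u x) :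
    (∃ p n, 2 ≤ n ∧ Arm G a b c p n ∧ (∀ i, i ≤ n → p i ∈ D) ∧ (G.Adj (p n) a ↔ n % 2 = 1)) ∨
    (∃ p n, 2 ≤ n ∧ Arm G c b a p n ∧ (∀ i, i ≤ n → p i ∈ D) ∧ (G.Adj (p n) c ↔ n % 2 = 1)) ∨
    ∃ x ∈ D, ∃ y ∈ D, ∃ r ∈ D, (¬ (G.Adj x a ↔ G.Adj x b) ∧ (G.Adj x b ↔ G.Adj x c) ∧
      (G.Adj y a ↔ G.Adj y b) ∧ ¬ (G.Adj y b ↔ G.Adj y c) ∧ G.Adj x r ∧ G.Adj r a ∧ G.Adj r b ∧ G.Adj r c) ∧
      ((G.Adj y r ∧ (G.Adj x y → (G.Adj x a ↔ G.Adj y a))) ∨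
        ∃ s ∈ D, ¬ G.Adj x y ∧ G.Adj y s ∧ G.Adj r s ∧ ¬ G.Adj x s ∧ ¬ G.Adj y r ∧
          G.Adj s a ∧ G.Adj s b ∧ G.Adj s c) := by
  have hm' : Mid α c b a := Or.symm hm
  obtain ⟨p, n, A1, A2, A3, A4⟩ := S.arm H ha hb hc (by unfold Mid at hm; omega)
  obtain ⟨q, m, B1, B2, B3, B4⟩ := S.arm H hc hb ha (by unfold Mid at hm; omega)
  by_cases n2 : 2 ≤ n
  · exact Or.inl ⟨p, n, n2, A1, A2, A4 hm⟩
  by_cases m2 : 2 ≤ m
  · exact Or.inr (Or.inl ⟨q, m, m2, B1, B2, B4 hm'⟩)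
  obtain ⟨z, hz, z1⟩ := A3 (by omega)
  obtain ⟨z', hz', z2⟩ := B3 (by omega)
  have hx := A2 n le_rfl
  have hy := B2 m le_rfl
  have x1 : ¬ (G.Adj (p n) a ↔ G.Adj (p n) b) ∧ (G.Adj (p n) b ↔ G.Adj (p n) c) := by
    have := A1.sp
    have := A1.c0
    have := A1.cn n
    have := A4 hm
    grind
  have y1 : (G.Adj (q m) a ↔ G.Adj (q m) b) ∧ ¬ (G.Adj (q m) b ↔ G.Adj (q m) c) := by
    have := B1.sp
    have := B1.c0
    have := B1.cn m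
    have := B4 hm'
    grind
  generalize p n = x at *
  generalize q m = y at *
  have ac : G.Adj a c := S.clq a ha c hc (by unfold Mid at hm; grind)
  have dq := S.dq
  rcases link H.nh S.conn {a, b, c} (by grind) hx hy hz hz' (by grind) (by grind) z1.1.symm z2.1.symm
    (by grind) (by grind) with ⟨r, hr, h1, h2, h3⟩ | ⟨h0, r, hr, s, hs, h1, h2, h3⟩ | ⟨w, k, h1, h2, h3, h4, h5, h6⟩
  · refine Or.inr (Or.inr ⟨x, hx, y, hy, r, hr, by grind, Or.inl ⟨h3, fun xy => ?_⟩⟩)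
    by_contra hne
    by_cases xa : G.Adj x a
    · exact H.nh.c4 xy (w := a) (z := c) (by grind) ac.symm xa.symm (by grind) (by grind) (by grind) (by grind)
    · exact H.nh.c4 xy (w := c) (z := a) (by grind) ac (SimpleGraph.Adj.symm (by grind)) (by grind) (by grind) (by grind)
        (by grind)
  · exact Or.inr (Or.inr ⟨x, hx, y, hy, r, hr, by grind, Or.inr ⟨s, hs, by grind⟩⟩)
  · exact (LP H h2 ac (fun i h h' => by grind) (by grind) (by grind) h1 ua uc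
      fun i hi => uD _ (h5 i hi)).elim

theorem SD.mxl (H : Ok G) (S : SD G Q D α) {a b c u w : V} (ha : a ∈ Q) (hb : b ∈ Q) (hc : c ∈ Q)
    (hm : Mid α a b c) (hu : G.Adj u a ∧ G.Adj u b ∧ G.Adj u c) (uD : ∀ x ∈ D, ¬ G.Adj u x)
    (wD : ∀ x ∈ D, ¬ G.Adj w x)
    (hw : (G.Adj w a ↔ G.Adj w c) ∧ ¬ (G.Adj w a ↔ G.Adj w b) ∧ (G.Adj w b → G.Adj u w))
    {p : ℕ → V} {n : ℕ} (n2 : 2 ≤ n) (A : Arm G a b c p n) (pD : ∀ i, i ≤ n → p i ∈ D)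
    (par : G.Adj (p n) a ↔ n % 2 = 1) : False := by
  have ab : G.Adj a b := S.clq a ha b hb (by unfold Mid at hm; grind)
  have ca : G.Adj c a := S.clq c hc a ha (by unfold Mid at hm; grind)
  have cb : G.Adj c b := S.clq c hc b hb (by unfold Mid at hm; grind)
  have sy := G.adj_comm
  by_cases wa : G.Adj w a
  · by_cases n3 : 3 ≤ n
    · exact LPF2 H A (arm0 (hw.1.1 wa) hw.2.1) (by grind) ab ca cb (by omega) (by grind)
    · obtain rfl : n = 2 := by omega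
      obtain ⟨a1, a2, a3, a4, a5⟩ := A
      unfold IPa at a1
      exact MXB1 H S.clq (p 0) (p 1) (p 2) u w a b c (by and_intros <;> grind)
  · exact LPF2 H A (arm1 (by grind) hu (by grind) hw.2.1) (by grind) ab ca cb (by omega) (by grind)

theorem SD.mx (H : Ok G) (S : SD G Q D α) {a b c u w : V} (ha : a ∈ Q) (hb : b ∈ Q) (hc : c ∈ Q)
    (hm : Mid α a b c) (hu : G.Adj u a ∧ G.Adj u b ∧ G.Adj u c) (uD : ∀ x ∈ D, ¬ G.Adj u x)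
    (wD : ∀ x ∈ D, ¬ G.Adj w x)
    (hw : (G.Adj w a ↔ G.Adj w c) ∧ ¬ (G.Adj w a ↔ G.Adj w b) ∧ (G.Adj w b → G.Adj u w)) : False := by
  have sy := G.adj_comm
  rcases S.three H ha hb hc hm hu.1 hu.2.2 uD with ⟨p, n, h1, h2, h3, h4⟩ | ⟨p, n, h1, h2, h3, h4⟩ |
    ⟨x, hx, y, hy, r, hr, h1, h2 | ⟨s, hs, h2⟩⟩
  · exact S.mxl H ha hb hc hm hu uD wD hw h1 h2 h3 h4
  · exact S.mxl H hc hb ha (Or.symm hm) (by grind) uD wD (by grind) h1 h2 h3 h4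
  · exact MXA0 H S.clq x y r u w a b c (by and_intros <;> grind)
  · exact MXA1 H S.clq x y r s u w a b c (by and_intros <;> grind)

variable {D' : Set V} {β : V → ℤ}

theorem SD.tr0 (H : Ok G) (S : SD G Q D α) (S' : SD G Q D' β) (an : ∀ x ∈ D', ∀ y ∈ D, ¬ G.Adj x y)
    {a b c : V} (ha : a ∈ Q) (hb : b ∈ Q) (hc : c ∈ Q) (hm : Mid α a b c) (h1 : β b < β a)
    (h2 : β a ≤ β c) : False := by
  have sy := G.adj_comm
  obtain ⟨q, s, B1, B2, B3, B4⟩ := S'.arm H hb ha hc (by omega)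
  have hq := B2 s le_rfl
  have cv := S'.conv hq hb ha hc h1.le h2
  have tw := S'.twin _ hq a ha c hc
  have sp := B1.sp
  have c0 := B1.c0
  have cn := B1.cn s
  unfold Mid at B4
  by_cases s1 : s ≤ 1
  · obtain ⟨z, hz, z1⟩ := B3 s1
    refine S.mx H ha hb hc hm (u := z) (w := q s) (by grind) (an z hz) (an _ hq) ?_
    obtain rfl | rfl : s = 0 ∨ s = 1 := by omega
    all_goals grind
  have h3 : β a < β c := by
    have := S'.twin _ (B2 1 (by omega)) a ha c hc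
    have := B1.inn 1
    have := B1.cn 1
    grind
  obtain ⟨p, r, A1, A2, A3, A4⟩ := S.arm H ha hb hc (by unfold Mid at hm; omega)
  have A5 := A4 hm
  have ab : G.Adj a b := S.clq a ha b hb (by grind)
  have ca : G.Adj c a := S.clq c hc a ha (by grind)
  have cb : G.Adj c b := S.clq c hc b hb (by grind)
  by_cases n3 : 3 ≤ r + s
  · exact LPF2 H A1 B1.symm (by grind) ab ca cb n3 (by grind)
  obtain rfl : r = 0 := by omega
  obtain ⟨z, hz, z1⟩ := A3 (by omega)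
  have := A1.c0
  have := A1.sp
  have := A2 0 le_rfl
  exact S'.mx H hb ha hc (Or.inl ⟨h1, h3⟩) (u := z) (w := p 0) (by grind) (by grind) (by grind) (by grind)

theorem SD.tr (H : Ok G) (S : SD G Q D α) (S' : SD G Q D' β) (an : ∀ x ∈ D', ∀ y ∈ D, ¬ G.Adj x y)
    {a b c : V} (ha : a ∈ Q) (hb : b ∈ Q) (hc : c ∈ Q) (hm : Mid α a b c) :
    (β a ≤ β b ∧ β b ≤ β c) ∨ (β c ≤ β b ∧ β b ≤ β a) := by
  have k1 := S.tr0 H S' an ha hb hc hm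
  have k2 := S.tr0 H S' an hc hb ha (Or.symm hm)
  have k3 := S.tr0 H S'.mirror an ha hb hc hm
  have k4 := S.tr0 H S'.mirror an hc hb ha (Or.symm hm)
  grind

theorem SD.grid (H : Ok G) (S : SD G Q D α) (S' : SD G Q D' β) (an : ∀ x ∈ D', ∀ y ∈ D, ¬ G.Adj x y)
    {a b c d : V} (ha : a ∈ Q) (hb : b ∈ Q) (hc : c ∈ Q) (hd : d ∈ Q) (h1 : α a = α b) (h2 : α c = α d)
    (h3 : α a ≠ α c) (h4 : β a = β c) (h5 : β b = β d) (h6 : β a ≠ β b) : False := by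
  have sy := G.adj_comm
  obtain ⟨p, hp, x, hx, a1, a2, a3, a4⟩ := S.edge2 H ha hc h3
  obtain ⟨q, hq, y, hy, b1, b2, b3, b4⟩ := S'.edge2 H ha hb h6
  exact MP_d7353d_co.grid H S.clq p q x y a b c d (by and_intros <;> grind)

theorem SD.compat (H : Ok G) (S : SD G Q D α) (S' : SD G Q D' β) (an : ∀ x ∈ D', ∀ y ∈ D, ¬ G.Adj x y) :
    (∀ s ∈ Q, ∀ s' ∈ Q, α s < α s' → β s ≤ β s') ∨ (∀ s ∈ Q, ∀ s' ∈ Q, α s < α s' → β s' ≤ β s) := by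
  by_contra hc
  push Not at hc
  obtain ⟨⟨a, ha, b, hb, h1, h2⟩, c, hc, d, hd, h3, h4⟩ := hc
  have an' : ∀ x ∈ D, ∀ y ∈ D', ¬ G.Adj x y := fun x hx y hy e => an y hy x hx e.symm
  have T : ∀ x ∈ Q, ∀ y ∈ Q, ∀ z ∈ Q, (α x < α y → α y < α z →
      (β x ≤ β y ∧ β y ≤ β z) ∨ (β z ≤ β y ∧ β y ≤ β x)) ∧ (β x < β y → β y < β z →
      (α x ≤ α y ∧ α y ≤ α z) ∨ (α z ≤ α y ∧ α y ≤ α x)) := fun x hx y hy z hz =>
    ⟨fun e e' => S.tr H S' an hx hy hz (Or.inl ⟨e, e'⟩), fun e e' => S'.tr H S an' hx hy hz (Or.inl ⟨e, e'⟩)⟩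
  have k1 : ∀ e ∈ Q, (α e ≤ α a ∧ β a ≤ β e) ∨ (α b ≤ α e ∧ β e ≤ β b) ∨
      (α a ≤ α e ∧ α e ≤ α b ∧ β b ≤ β e ∧ β e ≤ β a) := by
    intro e he
    have := (T e he a ha b hb).1
    have := (T a ha e he b hb).1
    have := (T a ha b hb e he).1
    have := (T e he b hb a ha).2
    have := (T b hb e he a ha).2
    have := (T b hb a ha e he).2
    omega
  have k2 : ∀ e ∈ Q, (α e ≤ α c ∧ β e ≤ β c) ∨ (α d ≤ α e ∧ β d ≤ β e) ∨
      (α c ≤ α e ∧ α e ≤ α d ∧ β c ≤ β e ∧ β e ≤ β d) := by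
    intro e he
    have := T e he c hc d hd
    have := T c hc e he d hd
    have := T c hc d hd e he
    omega
  have := k1 c hc
  have := k1 d hd
  have := k2 a ha
  have := k2 b hb
  exact S.grid H S' an ha hc hd hb (by omega) (by omega) (by omega) (by omega) (by omega) (by omega)

theorem SD.f3 (H : Ok G) {D'' : Set V} {γ : V → ℤ} (S : SD G Q D α) (S' : SD G Q D' β) (S'' : SD G Q D'' γ)
    (a1 : ∀ x ∈ D, ∀ y ∈ D', ¬ G.Adj x y) (a2 : ∀ x ∈ D, ∀ y ∈ D'', ¬ G.Adj x y)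
    (a3 : ∀ x ∈ D', ∀ y ∈ D'', ¬ G.Adj x y) (n1 : ∃ s ∈ Q, ∃ s' ∈ Q, α s ≠ α s')
    (n2 : ∃ s ∈ Q, ∃ s' ∈ Q, β s ≠ β s') (n3 : ∃ s ∈ Q, ∃ s' ∈ Q, γ s ≠ γ s') : False := by
  obtain ⟨a, ha, b, hb, h1, h2⟩ : ∃ a ∈ Q, ∃ b ∈ Q, α a ≠ α b ∧ β a ≠ β b := by
    obtain ⟨a, ha, b, hb, h⟩ := n1
    obtain ⟨c, hc, d, hd, h'⟩ := n2
    by_contra hn
    push Not at hn
    have := hn a ha b hb
    have := hn c hc d hd
    have := hn a ha c hc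
    have := hn a ha d hd
    have := hn b hb c hc
    have := hn b hb d hd
    omega
  have sy := G.adj_comm
  by_cases h3 : γ a = γ b
  · obtain ⟨c, hc, h4⟩ : ∃ c ∈ Q, γ a ≠ γ c := by grind
    have hC : ({a, b, c} : Set V) ⊆ Q := by simp [Set.insert_subset_iff, *]
    obtain ⟨p, hp, x, hx, b1⟩ := S.edge H _ hC (by simp) (by simp) h1
    obtain ⟨q, hq, y, hy, b2⟩ := S'.edge H _ hC (by simp) (by simp) h2
    obtain ⟨r, hr, z, hz, b3⟩ := S''.edge2 H ha hc h4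
    simp only [Set.mem_insert_iff, Set.mem_singleton_iff, forall_eq_or_imp, forall_eq, exists_eq_or_imp,
      exists_eq_left] at b1 b2
    exact F3b H S.clq p q r x y z a b c (by and_intros <;> grind)
  · obtain ⟨p, hp, x, hx, b1⟩ := S.edge2 H ha hb h1
    obtain ⟨q, hq, y, hy, b2⟩ := S'.edge2 H ha hb h2
    obtain ⟨r, hr, z, hz, b3⟩ := S''.edge2 H ha hb h3
    exact F3a H S.clq p q r x y z a b (by and_intros <;> grind)

end Pool.Agent.Lib.MP_d7353d_co
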