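import Pool.Agent.Lib.MP_d7353d_co.ChTab

namespace Pool.Agent.Lib.MP_d7353d_co

variable {V : Type} {G : SimpleGraph V}

theorem chordal_of_rank (r : V → ℕ)
    (h : ∀ v a b, G.Adj v a → G.Adj v b → a ≠ b → r v ≤ r a → r v ≤ r b → G.Adj a b) : IsChordal G := by
  intro n hn
  obtain ⟨m, rfl⟩ : ∃ m, n = m + 2 := ⟨n - 2, by omega⟩
  refine ⟨fun e => ?_⟩
  obtain ⟨i, hi⟩ := Finite.exists_min fun i => r (e i)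
  have i2 := i.2
  let a : Fin (m + 2) := ⟨if i.val = 0 then m + 1 else i.val - 1, by split_ifs <;> omega⟩
  let b : Fin (m + 2) := ⟨if i.val = m + 1 then 0 else i.val + 1, by split_ifs <;> omega⟩
  have := h (e i) (e a) (e b) ?_ ?_ ?_ (hi a) (hi b)
  · rw [e.map_adj_iff, cyc_adj m (by omega)] at this
    simp only [a, b] at this
    grind
  · rw [e.map_adj_iff, cyc_adj m (by omega)]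
    simp only [a]
    split_ifs <;> omega
  · rw [e.map_adj_iff, cyc_adj m (by omega)]
    simp only [b]
    split_ifs <;> omega
  · intro h
    have := congrArg Fin.val (e.injective h)
    simp only [a, b] at this
    split_ifs at this <;> omega

/-- the properties of a member of the list -/
structure Mem (G : SimpleGraph V) : Prop where
  ch : IsChordal G
  nl : ¬ LinOn G Set.univ
  mn : ∀ x, LinOn G {v | v ≠ x}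

def sporCert : List (List (ℕ × ℕ × ℕ × ℕ)) :=
  [[(1,2,0,5), (2,6,0,2), (1,0,2,3), (2,6,0,1), (1,0,1,3), (1,2,1,5), (1,1,2,4), (1,1,0,4), (2,6,1,2)],
   [(2,6,1,2), (1,2,4,5), (1,2,0,5), (1,0,1,4), (1,0,3,4), (1,1,3,5), (2,6,0,1), (1,0,2,3), (1,1,0,5), (1,1,2,3), (1,2,1,4), (2,6,0,2)],
   [(2,7,2,6), (0,5,6,6), (2,7,2,3), (2,5,1,4), (2,5,1,6), (2,4,2,6), (2,7,0,5), (2,6,0,5), (2,4,3,5), (2,4,2,3), (0,4,6,6), (2,7,0,4), (2,7,1,4), (2,7,3,5), (2,7,1,6), (0,4,5,5), (2,6,0,4)],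
   [(1,0,4,5), (2,6,0,2), (2,7,0,1), (2,6,0,3), (1,0,2,3), (1,0,1,5), (1,2,5,7), (1,2,0,7), (2,7,0,3), (2,6,2,5), (1,1,3,6), (2,6,3,5), (1,3,1,5), (1,0,3,4), (1,1,0,6), (1,5,2,3), (2,7,1,3)],
   [(2,7,0,1), (1,1,0,6), (1,2,0,7), (1,2,4,7), (1,0,4,5), (1,0,2,5), (2,6,2,4), (1,4,2,3), (1,1,3,6), (1,3,1,4), (2,7,0,4), (1,0,1,4), (2,7,3,4), (2,6,0,2), (2,6,0,4), (2,7,1,3)],
   [(2,7,1,3), (1,4,2,3), (2,7,0,1), (1,2,4,7), (1,1,0,6), (2,7,0,3), (1,0,2,5), (2,6,2,4), (1,1,3,6), (2,6,3,4), (1,0,1,5), (2,6,0,3), (2,6,0,2), (1,3,1,4), (1,2,0,7)],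
   [(1,2,4,7), (1,3,0,5), (1,3,1,4), (1,1,0,5), (2,6,2,5), (1,1,3,6), (1,0,3,6), (1,5,2,3), (1,1,5,6), (2,6,2,4), (2,7,1,3), (2,6,3,5), (2,7,0,3), (2,6,3,4), (1,2,5,7), (2,7,0,1), (1,4,2,3), (1,0,1,4), (1,0,4,6)],
   [(2,6,2,3), (2,6,1,7), (2,3,1,4), (0,3,7,7), (2,7,2,3), (0,4,5,5), (2,6,1,4), (2,7,2,4), (0,5,6,6), (2,5,0,6), (2,4,3,5), (2,3,1,7), (2,6,2,4), (0,6,7,7), (2,7,0,6), (2,5,0,4), (0,3,4,4), (2,7,0,4), (2,6,3,5)],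
   [(2,6,1,7), (2,7,3,5), (2,7,2,3), (2,7,0,6), (2,6,1,4), (2,3,0,6), (0,5,7,7), (2,6,2,4), (2,7,0,4), (0,3,4,4), (2,5,1,7), (2,7,2,4), (0,4,5,5), (2,4,3,5), (2,5,1,4), (2,6,2,3), (0,6,7,7), (2,3,0,4), (0,3,6,6)],
   [(2,5,1,6), (0,4,5,5), (0,3,5,5), (2,5,3,7), (2,6,0,4), (2,7,1,6), (0,3,6,6), (2,6,0,5), (2,4,2,6), (0,5,7,7), (2,4,2,5), (0,4,6,6), (2,6,3,7), (2,5,1,4), (2,3,2,5), (0,6,7,7), (2,7,1,4), (0,5,6,6), (2,7,0,5), (2,3,2,6), (2,7,0,4)],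
   [(2,2,1,6), (2,6,0,2), (2,5,1,4), (2,2,1,3), (2,4,0,3), (2,7,0,2), (2,7,0,3), (0,4,5,5), (0,2,3,3), (2,3,2,4), (0,5,6,6), (2,4,0,5), (0,3,4,4), (2,7,1,4), (2,7,2,4), (0,2,6,6), (2,5,1,6), (2,6,0,5), (2,7,1,3)],
   [(2,7,1,4), (0,4,5,5), (2,7,2,6), (2,5,1,4), (2,5,1,3), (2,5,3,6), (2,7,0,5), (2,4,2,5), (2,7,3,6), (2,6,0,4), (2,7,0,4), (2,7,1,3), (0,5,6,6), (2,7,2,5), (2,6,0,5), (0,4,6,6), (2,4,2,6)],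
   [(1,1,3,5), (1,2,0,5), (2,7,1,2), (2,7,0,2), (1,1,0,5), (1,1,2,3), (1,2,1,4), (1,0,1,6), (2,7,0,1), (1,0,2,6), (1,2,4,5)],
   [(1,2,1,4), (1,2,4,6), (1,0,2,3), (1,2,0,5), (1,0,1,4), (2,7,1,2), (1,1,0,5), (1,1,2,3), (1,1,5,6), (1,2,5,6), (2,7,0,1), (1,1,3,6), (1,0,4,6), (1,0,3,6), (2,7,0,2)],
   [(2,7,1,2), (1,2,1,6), (1,0,3,4), (1,0,1,4), (1,1,2,5), (2,7,0,2), (1,2,0,6), (2,7,0,1), (1,1,0,5), (1,0,2,3)],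
   [(2,8,3,4), (1,1,5,8), (2,8,0,3), (1,3,1,4), (2,6,2,5), (1,5,1,4), (1,2,5,8), (1,2,4,8), (1,4,0,5), (1,0,4,6), (1,1,3,8), (1,4,2,3), (2,6,2,4), (2,8,0,4), (1,5,2,3), (2,6,4,5), (2,7,3,5), (2,7,1,3), (1,3,0,5), (2,7,1,5), (1,0,3,6)],
   [(2,6,2,7), (2,6,3,5), (2,4,1,6), (2,8,0,4), (2,7,3,5), (0,6,7,7), (0,4,5,5), (2,8,0,6), (2,7,1,6), (0,3,7,7), (2,3,2,8), (0,4,6,6), (2,5,0,6), (2,8,3,4), (2,6,2,8), (2,4,1,5), (2,7,1,5), (0,3,8,8), (0,5,6,6), (2,5,0,4), (2,3,2,7), (2,6,3,4), (0,6,8,8)],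
   [(0,4,5,5), (2,8,2,4), (0,4,6,6), (2,7,2,4), (2,5,1,6), (2,4,3,5), (2,5,1,4), (0,5,6,6), (2,7,2,6), (2,8,0,5), (2,7,1,4), (2,7,1,6), (2,8,3,6), (2,4,3,6), (2,8,2,6), (2,8,3,5), (2,6,0,4), (2,8,0,4), (2,6,0,5)],
   [(0,4,5,5), (2,8,2,3), (2,6,0,5), (2,7,2,6), (2,8,0,4), (2,7,1,3), (2,5,1,6), (2,8,0,5), (2,7,1,6), (2,8,3,4), (2,6,0,4), (0,4,6,6), (2,8,2,5), (2,5,1,3), (2,5,3,4), (2,7,2,3), (0,5,6,6), (2,4,2,5), (2,4,2,6)],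
   [(2,7,2,6), (2,4,2,6), (2,5,1,6), (2,9,3,4), (2,8,1,6), (2,6,0,4), (0,4,6,6), (2,9,0,4), (2,6,0,5), (2,7,2,5), (0,5,6,6), (2,8,3,6), (2,8,3,4), (2,4,2,5), (2,8,1,4), (2,9,3,5), (0,4,5,5), (2,7,3,5), (2,9,0,5), (2,5,1,4), (2,7,3,6)]]

def sporWord : List (List (List ℕ)) :=
  [[[5,1,2,4,3,6,2,5,4,1,3,6], [4,5,0,2,3,6,4,2,5,3,0,6], [5,4,0,1,3,6,5,1,4,3,0,6], [5,1,0,2,4,6,2,5,0,4,1,6], [5,0,1,2,3,6,2,5,1,3,0,6], [4,0,2,1,3,6,1,4,2,3,0,6], [2,0,5,4,0,1,3,5,1,2,4,3]],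
   [[4,1,5,2,3,6,2,4,5,3,1,6], [5,0,4,2,3,6,2,5,4,3,0,6], [0,4,3,5,1,6,4,1,3,0,5,6], [2,5,0,1,4,6,1,5,4,0,2,6], [1,5,0,2,3,6,2,5,3,0,1,6], [0,4,1,2,3,6,2,4,3,1,0,6], [2,0,5,0,1,4,1,3,5,4,2,3]],
   [[5,2,1,3,6,4,7,3,5,6,2,4,1,7], [2,6,5,3,4,0,7,6,3,0,2,5,4,7], [3,0,5,4,6,1,7,5,1,3,4,0,6,7], [5,1,4,2,0,6,7,0,5,4,6,1,2,7], [1,2,6,5,0,3,7,6,0,3,1,2,5,7], [2,1,3,6,4,0,7,3,6,0,2,4,1,7], [3,0,2,5,4,1,7,2,5,1,3,4,0,7], [2,6,5,3,4,0,6,3,0,1,2,5,1,4]],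
   [[5,3,7,4,2,6,3,2,1,5,7,1,4,6], [0,5,3,4,7,2,6,3,2,5,4,0,7,6], [4,5,3,0,7,6,0,4,3,1,5,7,1,6], [2,0,4,1,5,7,1,6,4,5,0,7,2,6], [5,0,3,7,2,6,3,2,0,1,5,7,1,6], [0,3,4,1,7,1,2,6,3,2,4,0,7,6], [0,1,4,5,2,3,2,7,4,3,1,5,0,7], [0,4,1,5,1,2,3,6,2,4,3,5,0,6]],
   [[5,4,3,7,2,6,5,3,2,1,4,7,1,6], [0,5,4,3,7,2,6,5,3,2,4,0,7,6], [5,4,3,0,7,6,0,5,3,1,4,7,1,6], [5,2,4,0,7,6,0,5,1,4,7,1,2,6], [3,5,2,0,1,7,1,6,0,3,5,7,2,6], [4,0,3,7,2,6,3,2,0,1,4,7,1,6], [0,4,1,2,3,5,2,7,3,4,5,1,0,7], [0,1,4,1,2,3,5,6,2,3,4,5,0,6]],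
   [[7,4,1,2,3,6,5,2,7,3,4,6,1,5], [4,3,7,2,6,5,3,2,4,0,7,6,0,5], [7,1,6,4,3,5,0,7,6,0,3,1,4,5], [4,7,1,2,6,5,2,4,0,7,6,0,1,5], [7,1,2,6,3,5,2,0,7,6,0,3,1,5], [4,0,3,7,2,6,3,2,0,1,4,7,1,6], [1,4,3,0,7,0,2,5,3,2,1,4,7,5], [4,1,2,3,0,6,0,5,2,3,4,6,1,5]],
   [[4,1,5,2,3,6,2,7,3,5,4,6,1,7], [5,0,4,2,3,6,2,7,3,4,5,6,0,7], [4,1,3,5,6,0,7,5,0,3,4,6,1,7], [5,0,4,2,6,2,1,7,4,1,5,6,0,7], [1,5,0,2,3,6,2,7,3,5,6,0,1,7], [0,4,1,2,3,6,2,7,3,4,6,1,0,7], [0,5,1,4,2,3,2,7,3,1,4,0,5,7], [0,5,0,1,4,1,2,3,6,2,3,4,5,6]],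
   [[3,1,5,4,2,7,6,5,2,3,4,7,1,6], [4,3,2,0,5,7,0,6,2,4,5,3,7,6], [3,1,0,5,7,0,4,6,5,3,7,4,1,6], [1,2,4,0,5,7,0,6,4,2,5,7,1,6], [3,1,2,0,5,7,0,6,2,5,3,7,1,6], [2,3,4,0,7,0,1,6,3,1,4,2,7,6], [4,1,3,1,0,2,5,7,2,0,4,5,3,7], [1,4,3,2,0,5,0,6,2,4,5,1,3,6]],
   [[3,5,4,2,7,1,6,5,2,1,3,4,7,6], [4,3,2,5,7,6,2,4,5,0,3,7,0,6], [3,5,7,4,1,6,5,1,0,3,7,0,4,6], [5,4,2,0,7,0,1,6,5,2,1,4,7,6], [3,2,5,7,1,6,2,5,1,0,3,7,0,6], [4,3,2,7,1,6,2,1,4,0,3,7,0,6], [0,4,3,1,2,5,1,7,2,4,5,0,3,7], [4,0,3,0,1,2,5,6,1,2,4,5,3,6]],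
   [[2,6,5,3,7,4,6,1,5,7,1,2,3,4], [3,2,0,7,6,0,5,4,7,3,6,5,2,4], [6,3,1,7,5,1,4,0,6,7,0,3,5,4], [2,0,6,7,0,5,4,6,1,7,5,1,2,4], [2,3,2,0,7,6,0,1,5,7,1,3,6,5], [3,2,0,1,7,1,6,0,4,7,3,6,2,4], [3,2,1,0,7,0,5,1,4,7,3,5,2,4], [3,2,0,6,0,1,5,1,4,3,6,5,2,4]],
   [[4,2,3,6,1,5,7,2,1,4,3,6,5,7], [6,4,0,2,3,5,7,6,2,4,3,5,0,7], [4,6,0,3,1,5,7,1,4,6,3,5,0,7], [6,4,0,1,2,5,7,1,6,2,4,5,0,7], [6,0,3,1,2,5,7,1,6,3,2,5,0,7], [4,0,2,3,6,1,7,2,1,4,3,0,6,7], [4,0,2,3,1,5,7,2,1,4,3,5,0,7], [4,2,6,3,1,5,2,1,0,4,6,0,3,5]],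
   [[2,5,3,6,4,1,7,5,6,1,2,3,4,7], [3,2,6,5,4,0,7,6,0,3,5,2,4,7], [5,4,3,1,0,6,7,0,5,1,4,6,3,7], [6,0,5,1,2,4,7,2,6,5,4,1,0,7], [3,2,6,1,5,0,7,6,0,1,3,5,2,7], [2,3,6,4,0,1,7,6,1,0,2,3,4,7], [0,5,1,2,3,4,7,2,5,3,4,1,0,7], [3,2,1,0,6,0,5,1,4,6,3,5,2,4]],
   [[4,1,3,5,2,6,7,3,2,4,5,1,6,7], [5,0,4,2,3,6,7,2,5,3,4,6,0,7], [1,5,4,3,6,0,7,5,0,3,1,4,6,7], [2,1,5,4,6,0,7,5,0,1,4,2,6,7], [1,2,5,3,6,0,7,5,0,2,3,1,6,7], [0,1,4,2,3,6,7,2,3,1,4,6,0,7], [4,1,0,3,5,2,7,3,2,0,4,5,1,7], [4,1,3,0,5,0,2,6,3,2,4,5,1,6]],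
   [[4,1,5,3,6,2,7,3,2,5,4,6,1,7], [5,0,4,3,6,2,7,3,2,4,5,6,0,7], [4,1,3,5,6,0,7,5,0,3,4,6,1,7], [2,5,0,4,6,1,7,4,1,5,6,0,2,7], [1,5,0,3,6,2,7,3,2,5,6,0,1,7], [0,4,1,3,6,2,7,3,2,4,6,1,0,7], [0,5,1,4,2,3,7,2,3,1,4,0,5,7], [0,5,0,1,4,1,2,3,2,6,3,4,5,6]],
   [[4,6,1,2,3,5,7,2,4,6,3,5,1,7], [0,3,4,6,2,5,7,3,2,4,0,6,5,7], [6,0,4,3,5,1,7,6,4,1,3,0,5,7], [2,6,0,4,5,1,7,6,4,1,0,2,5,7], [6,1,0,2,3,5,7,2,6,3,0,5,1,7], [0,1,3,4,6,2,7,3,2,1,4,0,6,7], [0,2,4,3,5,1,7,4,1,2,3,0,5,7], [0,3,1,4,6,1,2,5,3,2,4,0,6,5]],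
   [[8,1,7,4,1,5,2,3,6,2,8,7,3,5,4,6], [5,4,3,8,7,2,6,3,2,4,0,5,8,0,7,6], [8,4,3,5,7,6,0,8,5,0,3,1,4,7,1,6], [2,0,8,5,0,1,4,7,1,6,8,4,5,7,2,6], [5,3,8,1,7,1,2,6,3,2,0,5,8,0,7,6], [0,8,0,1,7,4,1,2,3,6,2,8,7,3,4,6], [4,1,2,3,2,0,5,8,0,7,5,3,4,8,1,7], [5,1,4,1,3,8,2,6,3,2,4,0,5,8,0,6], [4,0,5,0,3,7,2,6,3,2,5,1,4,7,1,6]],
   [[2,8,7,3,4,5,6,8,1,7,4,1,5,2,3,6], [3,2,4,0,5,8,0,7,6,4,5,3,8,7,2,6], [8,3,5,1,4,7,1,6,0,8,5,0,4,3,7,6], [2,0,5,8,0,1,4,7,1,6,5,8,4,7,2,6], [3,2,0,5,8,0,1,7,1,6,5,3,8,7,2,6], [2,0,8,0,7,3,4,6,8,1,7,4,1,2,3,6], [2,3,2,4,0,5,8,0,1,7,4,1,5,3,8,7], [3,2,1,4,1,0,5,8,0,6,4,5,3,8,2,6], [3,2,0,5,0,1,4,7,1,6,5,4,3,7,2,6]],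
   [[3,2,5,6,4,8,1,7,5,1,6,3,4,2,8,7], [2,4,3,5,0,6,8,0,7,4,5,6,2,3,8,7], [4,8,3,6,1,5,7,1,4,0,8,6,0,5,3,7], [2,5,4,0,6,8,0,1,7,5,1,4,6,2,8,7], [2,3,5,0,6,8,0,1,7,5,1,6,2,3,8,7], [1,2,4,3,0,6,8,0,7,4,6,2,3,8,1,7], [3,2,5,4,0,8,0,1,7,5,1,3,4,2,8,7], [3,2,6,1,5,1,4,0,8,6,0,5,3,4,2,8], [3,2,5,0,6,0,4,1,7,5,1,6,3,4,2,7]],
   [[5,1,6,3,2,4,8,7,2,5,6,4,3,8,1,7], [3,4,5,6,2,8,7,4,2,3,5,0,6,8,0,7], [5,1,3,4,0,6,8,0,7,5,4,3,6,8,1,7], [2,5,0,6,8,0,4,1,7,5,1,6,2,8,4,7], [2,5,3,0,6,8,0,1,7,5,1,3,6,2,8,7], [1,3,4,6,2,8,7,4,2,3,0,6,8,0,1,7], [5,1,3,2,4,0,8,0,7,2,5,4,3,8,1,7], [6,0,1,5,1,3,2,4,8,2,6,5,4,3,0,8], [1,3,4,0,6,0,5,2,7,4,2,3,6,1,5,7]],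
   [[9,8,3,5,6,2,4,7,2,9,1,8,5,1,6,4,3,7], [3,4,5,0,6,9,0,8,2,7,4,2,5,6,3,9,8,7], [9,3,6,4,1,5,8,1,7,0,9,6,0,4,5,3,8,7], [4,2,0,6,9,0,1,5,8,1,7,4,6,9,5,8,2,7], [2,9,3,6,1,5,8,1,7,0,9,6,0,5,3,8,2,7], [3,4,0,6,9,0,1,8,1,2,7,4,2,6,3,9,8,7], [0,9,0,8,3,5,2,4,7,2,9,1,8,5,1,4,3,7], [3,5,2,4,2,0,6,9,0,1,8,5,1,4,6,3,9,8], [3,4,1,5,1,0,6,9,0,2,7,4,2,5,6,3,9,7], [3,4,0,6,0,1,5,8,1,2,7,4,2,6,5,3,8,7]]]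

def nval (L : List (List ℕ)) (e : ℕ × ℕ × ℕ × ℕ) : Bool :=
  decide (e.2.1 < L.length) && decide (e.2.2.1 < L.length) && decide (e.2.2.2 < L.length) &&
    if e.1 = 0 then adjL L e.2.1 e.2.2.1
    else if e.1 = 1 then adjL L e.2.2.1 e.2.2.2 && !adjL L e.2.1 e.2.2.1 && !adjL L e.2.1 e.2.2.2 &&
      e.2.1 != e.2.2.1 && e.2.1 != e.2.2.2
    else adjL L e.2.1 e.2.2.1 && adjL L e.2.1 e.2.2.2 && !adjL L e.2.2.1 e.2.2.2 && e.2.2.1 != e.2.2.2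

def nvar (e : ℕ × ℕ × ℕ × ℕ) : List (ℕ × ℕ) :=
  if e.1 = 0 then [(e.2.1, e.2.2.1), (e.2.2.1, e.2.1)]
  else if e.1 = 1 then [(e.2.1, e.2.2.1), (e.2.1, e.2.2.2)]
  else [(e.2.2.1, e.2.2.2), (e.2.2.2, e.2.2.1), (e.2.1, e.2.2.1), (e.2.1, e.2.2.2)]

def nchk (L : List (List ℕ)) (es : List (ℕ × ℕ × ℕ × ℕ)) : Bool :=
  es.all (nval L) && (es.flatMap nvar).all (fun p => (es.flatMap nvar).count p % 2 == 0) &&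
    es.countP (fun e => e.1 != 1) % 2 == 1

theorem not_lin_of_nchk {L : List (List ℕ)} {es : List (ℕ × ℕ × ℕ × ℕ)} (h : nchk L es = true) :
    ¬ LinOn (ofLists L) Set.univ := by
  intro hl
  obtain ⟨β, N⟩ := naji_of_linOn hl
  let B : ℕ × ℕ → ℤ := fun p => if h : p.1 < L.length ∧ p.2 < L.length then β ⟨p.1, h.1⟩ ⟨p.2, h.2⟩ else 0
  have one : ∀ e, nval L e = true → ((nvar e).map B).sum % 2 = if e.1 = 1 then 0 else 1 := by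
    rintro ⟨k, x, y, z⟩ he
    simp only [nval, Bool.and_eq_true, decide_eq_true_eq] at he
    obtain ⟨⟨⟨hx, hy⟩, hz⟩, he⟩ := he
    unfold nvar
    by_cases k0 : k = 0
    · have := N.n0 ⟨x, hx⟩ ⟨y, hy⟩ (by simpa [ofLists_adj, k0] using he)
      simpa [k0, B, hx, hy] using this
    by_cases k1 : k = 1
    · have := N.n1 ⟨x, hx⟩ ⟨y, hy⟩ ⟨z, hz⟩ (by simp [ofLists_adj, k1] at he ⊢; tauto)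
      simpa [k1, B, hx, hy, hz] using this
    · have := N.n2 ⟨x, hx⟩ ⟨y, hy⟩ ⟨z, hz⟩ (by simp [ofLists_adj, k0, k1] at he ⊢; tauto)
      simpa [k0, k1, B, hx, hy, hz, add_assoc] using this
  have all : ∀ es : List (ℕ × ℕ × ℕ × ℕ), es.all (nval L) = true →
      ((es.flatMap nvar).map B).sum % 2 = (es.countP fun e => e.1 != 1 : ℕ) % 2 := by
    intro es
    induction es with
    | nil => simp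
    | cons e es ih =>
      intro h
      simp only [List.all_cons, Bool.and_eq_true] at h
      have := ih h.2
      have := one e h.1
      simp only [List.flatMap_cons, List.map_append, List.sum_append, List.countP_cons, bne_iff_ne]
      split_ifs at * <;> omega
  simp only [nchk, Bool.and_eq_true, beq_iff_eq] at h
  have h1 := all es h.1.1
  have h2 : 2 ∣ ((es.flatMap nvar).map B).sum := by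
    rw [Finset.sum_list_map_count]
    refine Finset.dvd_sum fun p hp => ?_
    have := List.all_eq_true.1 h.1.2 p (List.mem_toFinset.1 hp)
    rw [beq_iff_eq] at this
    have e : @List.count _ instBEqOfDecidableEq p (es.flatMap nvar) = List.count p (es.flatMap nvar) := by
      congr 1; exact lawful_beq_subsingleton _ _
    rw [nsmul_eq_mul, e]
    exact Dvd.dvd.mul_right (by omega) _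
  omega

def wchk (L : List (List ℕ)) (x : ℕ) (w : List ℕ) : Bool :=
  (List.range L.length).all fun u => u == x || (decide (w.idxOf u + w.reverse.idxOf u < w.length - 1) &&
    (List.range L.length).all fun v => v == x || u == v ||
      decide (w.idxOf u ≠ w.idxOf v ∧ w.reverse.idxOf u ≠ w.reverse.idxOf v ∧
        w.idxOf u + w.reverse.idxOf v ≠ w.length - 1 ∧ (adjL L u v = true ↔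
          (w.idxOf u < w.idxOf v ∧ w.idxOf v + w.reverse.idxOf u < w.length - 1 ∧
            w.reverse.idxOf v < w.reverse.idxOf u) ∨ (w.idxOf v < w.idxOf u ∧
              w.idxOf u + w.reverse.idxOf v < w.length - 1 ∧ w.reverse.idxOf u < w.reverse.idxOf v))))

theorem lin_of_wchk {L : List (List ℕ)} {x : Fin L.length} {w : List ℕ} (h : wchk L x w = true) :
    LinOn (ofLists L) {v | v ≠ x} := by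
  simp only [wchk, List.all_eq_true, List.mem_range, Bool.or_eq_true, Bool.and_eq_true, beq_iff_eq,
    decide_eq_true_eq] at h
  refine ⟨fun u => w.idxOf u.val, fun u => (w.length - 1 : ℕ) - w.reverse.idxOf u.val, fun u hu => ?_,
    fun u hu v hv ne => ?_⟩
  · have := ((h u u.2).resolve_left fun e => hu (Fin.ext e)).1
    dsimp only; omega
  · have := (((h u u.2).resolve_left fun e => hu (Fin.ext e)).2 v v.2).resolve_left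
      (not_or.2 ⟨fun e => hv (Fin.ext e), fun e => ne (Fin.ext e)⟩)
    rw [ofLists_adj, this.2.2.2]
    unfold Cross; dsimp only; omega

theorem spor_mem : ∀ L ∈ sporadic, Mem (ofLists L) := by
  have h1 : ∀ L ∈ sporadic, ∀ v a b : Fin L.length, (ofLists L).Adj v a → (ofLists L).Adj v b → a ≠ b →
      v.val ≤ a.val → v.val ≤ b.val → (ofLists L).Adj a b := by decide +kernel
  have h2 : ∀ i < sporadic.length, nchk (sporadic.getD i []) (sporCert.getD i []) = true ∧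
      ∀ x < (sporadic.getD i []).length,
        wchk (sporadic.getD i []) x ((sporWord.getD i []).getD x []) = true := by decide +kernel
  intro L hL
  obtain ⟨i, hi, rfl⟩ := List.getElem_of_mem hL
  have := h2 i hi
  rw [List.getD_eq_getElem _ _ hi] at this
  exact ⟨chordal_of_rank Fin.val (h1 _ hL), not_lin_of_nchk this.1, fun x => lin_of_wchk (this.2 x x.2)⟩

end Pool.Agent.Lib.MP_d7353d_co
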