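import Pool.Agent.Lib.MP_d7353d_co.ChBad

namespace Pool.Agent.Lib.MP_d7353d_co

variable {V : Type} {G : SimpleGraph V}

def Row (G : SimpleGraph V) (x : V) : List V → List Bool → Prop
  | [], _ => True
  | y :: l, r => cond (r.headD false) (G.Adj x y) (¬ G.Adj x y) ∧ Row G x l r.tail

def Tab (G : SimpleGraph V) : List V → List (List Bool) → Prop
  | [], _ => True
  | x :: l, M => Row G x l (M.headD []) ∧ Tab G l M.tail

def tb (M : List (List Bool)) (i j : ℕ) : Bool :=
  if i < j then (M.getD i []).getD (j - i - 1) false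
  else if j < i then (M.getD j []).getD (i - j - 1) false else false

lemma cd (P : Prop) [Decidable P] : cond (decide P) P (¬ P) := by
  by_cases h : P <;> simp [h]

lemma Row.adj {x : V} : ∀ {l : List V} {r : List Bool}, Row G x l r → ∀ j (hj : j < l.length),
    (G.Adj x l[j] ↔ r.getD j false = true)
  | [], _, _, j, hj => absurd hj (by simp)
  | y :: l, r, h, j, hj => by
    rcases j with _ | j
    · have := h.1
      rcases r with _ | ⟨b, r⟩
      · simpa using this
      · cases b <;> simpa using this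
    · have := Row.adj h.2 j (by simpa using hj)
      rcases r with _ | ⟨b, r⟩ <;> simpa using this

lemma Tab.adj' : ∀ {l : List V} {M : List (List Bool)}, Tab G l M → ∀ i j (hij : i < j) (hj : j < l.length),
    (G.Adj l[i] l[j] ↔ (M.getD i []).getD (j - i - 1) false = true)
  | [], _, _, i, j, _, hj => absurd hj (by simp)
  | x :: l, M, h, i, j, hij, hj => by
    obtain ⟨j, rfl⟩ : ∃ j', j = j' + 1 := ⟨j - 1, by omega⟩
    rcases i with _ | i
    · have := h.1.adj j (by simpa using hj)
      rcases M with _ | ⟨r, M⟩ <;> simpa using this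
    · have := Tab.adj' h.2 i j (by omega) (by simpa using hj)
      rw [show j + 1 - (i + 1) - 1 = j - i - 1 by omega]
      rcases M with _ | ⟨r, M⟩ <;> simpa using this

lemma Tab.adj {l : List V} {M : List (List Bool)} (h : Tab G l M) (i j : ℕ) (hi : i < l.length)
    (hj : j < l.length) : G.Adj l[i] l[j] ↔ tb M i j = true := by
  unfold tb
  split_ifs with h1 h2
  · exact h.adj' i j h1 hj
  · rw [G.adj_comm]; exact h.adj' j i h2 hi
  · obtain rfl : i = j := by omega
    simp

def adjL (L : List (List ℕ)) (a b : ℕ) : Bool :=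
  a != b && ((L.getD a []).contains b || (L.getD b []).contains a)

lemma ofLists_adj (L : List (List ℕ)) (a b : Fin L.length) :
    (ofLists L).Adj a b ↔ adjL L a b = true := by
  simp [ofLists, adjL, SimpleGraph.fromRel_adj, Fin.ext_iff]

instance decOf (L : List (List ℕ)) : DecidableRel (ofLists L).Adj :=
  fun a b => decidable_of_iff _ (ofLists_adj L a b).symm

def chkE (n : ℕ) (M : List (List Bool)) (L : List (List ℕ)) (e : List ℕ) : Bool :=
  (List.range L.length).all fun a => decide (e.getD a 0 < n) &&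
    (List.range L.length).all fun b => adjL L a b == tb M (e.getD a 0) (e.getD b 0)

def small : List (List (List ℕ)) :=
  [[[2, 3], [3, 4], [3, 4, 5, 6], [4, 6], [5, 6], [], []],
   [[3, 4], [4, 5], [5, 6], [4, 5, 6, 7], [5, 6], [6], [7], []],
   [[3, 4], [4, 5], [5, 6], [4, 5, 6, 8], [5, 6, 7, 8], [6, 7, 8], [8], [8], []],
   [[4, 5], [5, 6], [6, 7], [7, 8], [5, 6, 7, 8], [6, 7, 8, 9], [7, 8, 9], [8, 9], [], []],
   [[2, 3], [3, 4], [3, 4, 5, 7], [4, 5, 6, 7], [6, 7], [7], [7], []],
   [[3, 4], [4, 5], [5, 6], [4, 5, 6, 7], [5, 6, 7, 8], [6, 7, 8], [8], [], []],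
   [[1, 6], [2, 5, 6], [3, 5, 6], [4, 5, 6], [6], [6, 7], [7], []]]

def mems : List (List (List ℕ)) := sporadic ++ small

lemma os_of {t y : ℕ → V} {k : ℕ} (k1 : 1 ≤ k) (tt : ∀ i ≤ k, ∀ j ≤ k, ¬ G.Adj (t i) (t j))
    (ty : ∀ i ≤ k, ∀ j ≤ k + 1, (G.Adj (t i) (y j) ↔ j = i ∨ j = i + 1))
    (yy : ∀ j ≤ k + 1, ∀ i < j, (0 < i ∨ j ≤ k) → G.Adj (y i) (y j)) : OS G t y k :=
  ⟨k1, fun i j hi hj => tt i hi j hj, fun i j hi hj => ty i hi j hj, fun i j h hj => yy j hj i h⟩

lemma un_of {t y : ℕ → V} {k : ℕ} {x : V} (h1 : ∀ i ≤ k, ¬ G.Adj (t i) x)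
    (h2 : ∀ j ≤ k, 1 ≤ j → (G.Adj x (y j) ↔ G.Adj x (y 1))) : Un G t y k x :=
  ⟨h1, fun j a b => h2 j b a⟩

theorem mems_bad : ∀ L ∈ mems, Bad (ofLists L) := by
  intro L hL
  rcases List.mem_append.1 hL with h | h
  · exact Or.inl ⟨L, h, id, fun _ _ => Iff.rfl⟩
  simp only [small, List.mem_cons, List.not_mem_nil, or_false] at h
  rcases h with rfl | rfl | rfl | rfl | rfl | rfl | rfl
  · exact badA (k := 1) (t := fun i => Fin.ofNat 7 i) (y := fun i => Fin.ofNat 7 (i + 2))
      (os_of (by decide) (by decide) (by decide) (by decide)) (Fin.ofNat 7 5) (Fin.ofNat 7 6) (by decide)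
      ⟨un_of (by decide) (by decide), by decide⟩ fun _ => ⟨⟨un_of (by decide) (by decide), by decide⟩, by decide⟩
  · exact badA (k := 2) (t := fun i => Fin.ofNat 8 i) (y := fun i => Fin.ofNat 8 (i + 3))
      (os_of (by decide) (by decide) (by decide) (by decide)) (Fin.ofNat 8 7) (Fin.ofNat 8 7) (by decide)
      ⟨un_of (by decide) (by decide), by decide⟩ fun h => absurd h (by decide)
  · exact badC (k := 2) (t := fun i => Fin.ofNat 9 i) (y := fun i => Fin.ofNat 9 (i + 3))
      (os_of (by decide) (by decide) (by decide) (by decide)) (by decide) (Fin.ofNat 9 7) (Fin.ofNat 9 8)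
      (by decide) ⟨un_of (by decide) (by decide), by decide⟩
      fun _ => ⟨⟨un_of (by decide) (by decide), by decide⟩, by decide⟩
  · exact badC (k := 3) (t := fun i => Fin.ofNat 10 i) (y := fun i => Fin.ofNat 10 (i + 4))
      (os_of (by decide) (by decide) (by decide) (by decide)) (by decide) (Fin.ofNat 10 9) (Fin.ofNat 10 9)
      (by decide) ⟨un_of (by decide) (by decide), by decide⟩ fun h => absurd h (by decide)
  · exact badD (k := 1) (t := fun i => Fin.ofNat 8 i) (y := fun i => Fin.ofNat 8 (i + 2))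
      (os_of (by decide) (by decide) (by decide) (by decide)) (Fin.ofNat 8 5) (Fin.ofNat 8 6) (Fin.ofNat 8 7)
      (by decide) ⟨un_of (by decide) (by decide), by decide⟩ ⟨un_of (by decide) (by decide), by decide⟩
      fun _ => ⟨⟨un_of (by decide) (by decide), by decide⟩, by decide⟩
  · exact badD (k := 2) (t := fun i => Fin.ofNat 9 i) (y := fun i => Fin.ofNat 9 (i + 3))
      (os_of (by decide) (by decide) (by decide) (by decide)) (Fin.ofNat 9 7) (Fin.ofNat 9 8) (Fin.ofNat 9 8)
      (by decide) ⟨un_of (by decide) (by decide), by decide⟩ ⟨un_of (by decide) (by decide), by decide⟩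
      fun h => absurd h (by decide)
  · refine Or.inr (Or.inr (Or.inl ⟨5, le_rfl, hasG (n := 4) (z := fun i => Fin.ofNat 8 i) (s := Fin.ofNat 8 5)
      (t := Fin.ofNat 8 6) (q := Fin.ofNat 8 7) ?_ (by decide) (by decide) (by decide) (by decide) (by decide)
      (by decide)⟩))
    intro i j hi hj
    interval_cases i <;> interval_cases j <;> decide

def chk (n : ℕ) (M : List (List Bool)) (hs : List (ℕ × List ℕ)) : Bool :=
  hs.any fun h => decide (h.1 < mems.length) && chkE n M (mems.getD h.1 []) h.2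

theorem Ok.tab (H : Ok G) (l : List V) (M : List (List Bool)) (hs : List (ℕ × List ℕ))
    (hc : chk l.length M hs = true) (h : Tab G l M) : False := by
  simp only [chk, List.any_eq_true, Bool.and_eq_true, decide_eq_true_eq] at hc
  obtain ⟨⟨m, e⟩, -, h1, h2⟩ := hc
  simp only [chkE, List.all_eq_true, List.mem_range, Bool.and_eq_true, decide_eq_true_eq, beq_iff_eq] at h2
  have hm : mems.getD m [] ∈ mems := by
    rw [List.getD_eq_getElem _ _ h1]; exact List.getElem_mem _
  refine H.nb ((mems_bad _ hm).mono ⟨fun a => l[e.getD a 0]'(h2 a a.2).1, fun a b => ?_⟩)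
  rw [ofLists_adj, h.adj, (h2 a a.2).2 b b.2]

end Pool.Agent.Lib.MP_d7353d_co
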