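import Pool.Agent.Lib.MP_d7353d_co.ChSide

namespace Pool.Agent.Lib.MP_d7353d_co

variable {V : Type} {G : SimpleGraph V}

def cns (x : V) (t : ℕ → V) : ℕ → V
  | 0 => x
  | i + 1 => t i

def snc (t : ℕ → V) (n : ℕ) (x : V) : ℕ → V := fun i => if i ≤ n then t i else x

lemma cns0 (x : V) (t : ℕ → V) : cns x t 0 = x := rfl
lemma cns1 (x : V) (t : ℕ → V) : cns x t 1 = t 0 := rfl
lemma cns2 (x : V) (t : ℕ → V) (i : ℕ) : cns x t (i + 1) = t i := rfl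
lemma snc0 (x : V) (t : ℕ → V) (n : ℕ) : snc t n x 0 = t 0 := by simp [snc]
lemma snc1 (x : V) (t : ℕ → V) (n : ℕ) : snc t (n + 1) x 1 = t 1 := by simp [snc]
lemma snc2 (x : V) (t : ℕ → V) (n : ℕ) : snc t n x (n + 1) = x := by simp [snc]

section
variable {t y : ℕ → V} {k : ℕ} {p x z : V}

lemma OS.cns (h : OS G t y k) (cl : G.Adj (y 0) (y (k + 1)))
    (e : Un G t y k p ∧ Un G t y k x ∧ G.Adj p (y 0) ∧ G.Adj p (y 1) ∧ G.Adj x p ∧ G.Adj x (y 0) ∧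
      ¬ G.Adj x (y 1) ∧ ¬ G.Adj x (y (k + 1))) : OS G (cns x t) (cns p y) (k + 1) := by
  obtain ⟨⟨p1, p2⟩, ⟨x1, x2⟩, e⟩ := e
  have sy := G.adj_comm
  refine ⟨by omega, ?_, ?_, ?_⟩
  · rintro (_ | i) (_ | j) hi hj <;> simp only [cns0, cns2]
    · exact G.irrefl
    · grind
    · grind
    · exact h.tt _ _ (by omega) (by omega)
  · rintro (_ | i) (_ | j) hi hj <;> simp only [cns0, cns2]
    · grind
    · have := x2 j
      grind
    · grind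
    · rw [h.ty _ _ (by omega) (by omega)]; omega
  · rintro (_ | i) (_ | j) hi hj h0 <;> simp only [cns0, cns2]
    · omega
    · have := p2 j
      grind
    · omega
    · have := h.yy i j
      grind

lemma Un.cns (h : Un G t y k z) (e : ¬ G.Adj x z ∧ (G.Adj z (y 0) ↔ G.Adj z (y 1))) :
    Un G (cns x t) (cns p y) (k + 1) z := by
  refine ⟨?_, ?_⟩
  · rintro (_ | i) hi
    · exact e.1
    · exact h.1 i (by omega)
  · rintro (_ | j) h1 hj
    · omega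
    · have := h.2 j
      simp only [cns2]; grind

lemma Cen.cns (h : Cen G t y k z) (e : ¬ G.Adj x z ∧ G.Adj z p) : Cen G (cns x t) (cns p y) (k + 1) z :=
  ⟨h.1.cns ⟨e.1, iff_of_true h.2.1 h.2.2.1⟩, e.2, h.2.1, h.2.2.2⟩

lemma OS.snc (h : OS G t y k) (cl : G.Adj (y 0) (y (k + 1)))
    (e : Un G t y k p ∧ Un G t y k x ∧ G.Adj p (y (k + 1)) ∧ G.Adj p (y 1) ∧ G.Adj x p ∧
      G.Adj x (y (k + 1)) ∧ ¬ G.Adj x (y 1) ∧ ¬ G.Adj x (y 0)) :
    OS G (snc t k x) (snc y (k + 1) p) (k + 1) := by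
  obtain ⟨⟨p1, p2⟩, ⟨x1, x2⟩, e⟩ := e
  have sy := G.adj_comm
  have ir := G.irrefl (v := x)
  refine ⟨by omega, fun i j hi hj => ?_, fun i j hi hj => ?_, fun i j hi hj h0 => ?_⟩ <;> unfold MP_d7353d_co.snc
  · have := h.tt i j
    grind
  · have := h.ty i j
    have := x2 j
    grind
  · have := h.yy i j
    have := p2 i
    grind

lemma Un.snc (h : Un G t y k z) (e : ¬ G.Adj x z ∧ (G.Adj z (y (k + 1)) ↔ G.Adj z (y 1))) :
    Un G (snc t k x) (snc y (k + 1) p) (k + 1) z := by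
  refine ⟨fun i hi => ?_, fun j h1 hj => ?_⟩ <;> unfold MP_d7353d_co.snc
  · have := h.1 i
    grind
  · have := h.2 j
    grind

lemma Cen.snc (h : Cen G t y k z) (e : ¬ G.Adj x z ∧ G.Adj z p) :
    Cen G (snc t k x) (snc y (k + 1) p) (k + 1) z :=
  ⟨h.1.snc ⟨e.1, iff_of_true h.2.2.2 h.2.2.1⟩, by rw [snc0]; exact h.2.1, by rw [snc1]; exact h.2.2.1,
    by rw [snc2]; exact e.2⟩

end

structure Cfg (G : SimpleGraph V) (Q T : Set V) (D : Bool → Set V) (α : Bool → V → ℤ) : Prop where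
  sd : ∀ i, SD G Q (D i) (α i)
  an : ∀ i, ∀ x ∈ D i, ∀ y ∈ D (!i), ¬ G.Adj x y
  td : ∀ t ∈ T, ∀ i, ∀ x ∈ D i, ¬ G.Adj t x
  tt : ∀ t ∈ T, ∀ t' ∈ T, ¬ G.Adj t t'
  prp : ∀ t ∈ T, ∃ c ∈ Q, ¬ G.Adj t c
  ne : ∀ t ∈ T, ∃ c ∈ Q, G.Adj t c
  anti : ∀ t ∈ T, ∀ t' ∈ T, t ≠ t' → ∃ s ∈ Q, G.Adj t s ∧ ¬ G.Adj t' s
  oth : ∀ i, ∀ x ∈ D i, ∃ u, (∀ s ∈ Q, G.Adj u s) ∧ (∀ y ∈ D i, ¬ G.Adj u y) ∧ ∀ t ∈ T, ¬ G.Adj u t
  cmp : ∀ s ∈ Q, ∀ s' ∈ Q, α false s < α false s' → α true s ≤ α true s'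

def wt (α : Bool → V → ℤ) (s : V) : ℤ := α false s + α true s

variable {Q T : Set V} {D : Bool → Set V} {α : Bool → V → ℤ}

lemma Cfg.clq (C : Cfg G Q T D α) : Clq G Q := (C.sd true).clq

lemma Cfg.wle (C : Cfg G Q T D α) {s s' : V} (hs : s ∈ Q) (hs' : s' ∈ Q) (i : Bool) :
    (wt α s ≤ wt α s' → α i s ≤ α i s') ∧ (wt α s' ≤ wt α s → α i s' ≤ α i s) ∧
      wt α s = α i s + α (!i) s ∧ wt α s' = α i s' + α (!i) s' := by
  have := C.cmp s hs s' hs'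
  have := C.cmp s' hs' s hs
  unfold wt
  cases i <;> grind

lemma Cfg.u (C : Cfg G Q T D α) {i : Bool} {a b : V} (ha : a ∈ Q) (hb : b ∈ Q) (h : α i a ≠ α i b) :
    ∃ u, (∀ s ∈ Q, G.Adj u s) ∧ (∀ y ∈ D i, ¬ G.Adj u y) ∧ ∀ t ∈ T, ¬ G.Adj u t := by
  obtain ⟨f, g, h'⟩ := (C.sd i).side
  obtain ⟨x, hx, -⟩ := h'.tw a ha b hb h
  exact C.oth i x hx

theorem Cfg.p1 (H : Ok G) (C : Cfg G Q T D α) {t : V} (ht : t ∈ T) (i : Bool) {a b c d : V} (ha : a ∈ Q)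
    (hb : b ∈ Q) (hc : c ∈ Q) (hd : d ∈ Q) (ta : G.Adj t a) (tb : G.Adj t b) (tc : G.Adj t c)
    (td : G.Adj t d) (h1 : α i a ≠ α i b) : α (!i) c = α (!i) d := by
  by_contra h2
  have key : ∀ x ∈ Q, ∀ y ∈ Q, G.Adj t x → G.Adj t y → α i x ≠ α i y → α (!i) x = α (!i) y := by
    intro x hx y hy tx ty e1
    by_contra e2
    obtain ⟨c, hc, tc⟩ := C.prp t ht
    obtain ⟨p, r, A1, A2, A3, -⟩ := (C.sd i).arm H hx hy hc e1
    obtain ⟨q, s, B1, B2, B3, -⟩ := (C.sd (!i)).arm H hx hy hc e2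
    have an := C.an i
    have t1 := C.td t ht i
    have t2 := C.td t ht (!i)
    have sy := G.adj_comm
    by_cases h : r ≤ 1 ∧ s ≤ 1
    · obtain ⟨z, hz, z1⟩ := A3 h.1
      obtain ⟨z', hz', z2⟩ := B3 h.2
      have := A1.sp
      have := B1.sp
      have := A2 r le_rfl
      have := B2 s le_rfl
      exact pP1 H C.clq t z z' (p r) (q s) x y c (by and_intros <;> grind)
    · exact LP2 H A1 B1 (by grind) (C.clq x hx y hy (by grind)) (C.clq c hc x hx (by grind))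
        (C.clq c hc y hy (by grind)) (by omega) tx ty tc (by grind) (by grind)
  have := key a ha b hb ta tb
  have := key c hc d hd tc td
  have := key a ha c hc ta tc
  have := key a ha d hd ta td
  have := key b hb c hc tb tc
  have := key b hb d hd tb td
  omega

theorem Cfg.f1 (H : Ok G) (C : Cfg G Q T D α) {t : V} (ht : t ∈ T) {x c y : V} (hx : x ∈ Q) (hc : c ∈ Q)
    (hy : y ∈ Q) (tx : G.Adj t x) (ty : G.Adj t y) (h1 : wt α x < wt α c) (h2 : wt α c < wt α y) :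
    G.Adj t c := by
  by_contra tc
  obtain ⟨i, hi⟩ : ∃ i, α i x ≠ α i y := by
    by_contra hn
    push Not at hn
    have := hn true
    have := hn false
    unfold wt at h1 h2; omega
  have := C.p1 H ht i hx hy hx hy tx ty tx ty hi
  have := C.wle hx hc i
  have := C.wle hc hy i
  have := C.wle hx hc (!i)
  have := C.wle hc hy (!i)
  obtain ⟨u, u1, u2, u3⟩ := C.u hx hy hi
  exact (C.sd i).mx H hx hc hy (Or.inl (by omega)) (u := u) (w := t) (by grind) u2 (C.td t ht i) (by grind)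

theorem Cfg.aa0 (H : Ok G) (C : Cfg G Q T D α) {t s : V} (ht : t ∈ T) (hs : s ∈ T) (i : Bool) {g v h : V}
    (hg : g ∈ Q) (hv : v ∈ Q) (hh : h ∈ Q) (e : G.Adj t v ∧ G.Adj s v ∧ G.Adj t g ∧ ¬ G.Adj s g ∧
      G.Adj s h ∧ ¬ G.Adj t h) (h1 : α i g ≠ α i v) (h2 : α i h ≠ α i v) : False := by
  obtain ⟨tv, sv, tg, sg, sh, th⟩ := e
  have := C.p1 H ht i hg hv hg hv tg tv tg tv h1
  have := C.p1 H hs i hh hv hh hv sh sv sh sv h2
  have := C.f1 H ht hg hh hv tg tv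
  have := C.f1 H ht hv hh hg tv tg
  have := C.f1 H hs hh hg hv sh sv
  have := C.f1 H hs hv hg hh sv sh
  have := (C.wle hg hv i).2.2
  have := (C.wle hh hv i).2.2
  obtain ⟨u, u1, u2, u3⟩ := C.u hg hv h1
  have t1 := C.td t ht i
  have t2 := C.td s hs i
  have t3 := C.tt t ht s hs
  have sy := G.adj_comm
  by_cases e : α i g = α i h
  · obtain ⟨p, hp, x, hx, b⟩ := (C.sd i).edge2 H hg hv h1
    exact AA1 H C.clq t s p u x g v h (by and_intros <;> grind)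
  have gv := C.clq g hg v hv (by grind)
  have gh := C.clq g hg h hh (by grind)
  have hv' := C.clq h hh v hv (by grind)
  rcases (C.sd i).three H hg hv hh (by unfold Mid; grind) (u1 g hg) (u1 h hh) u2 with
    ⟨p, n, a1, a2, a3, -⟩ | ⟨p, n, a1, a2, a3, -⟩ | ⟨x, hx, y, hy, r, hr, a1, a2 | ⟨q, hq, a2⟩⟩
  · exact LP2 H a2 (arm0 sh (by grind)) (by grind) gv gh.symm hv' (by omega) tg tv th (by grind) (by grind)
  · exact LP2 H a2 (arm0 tg (by grind)) (by grind) hv' gh gv (by omega) sh sv sg (by grind) (by grind)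
  · exact AA20 H C.clq x y r u t s g v h (by and_intros <;> grind)
  · exact AA21 H C.clq x y r q u t s g v h (by and_intros <;> grind)

theorem Cfg.aa (H : Ok G) (C : Cfg G Q T D α) {t s : V} (ht : t ∈ T) (hs : s ∈ T) (ts : t ≠ s) (i : Bool)
    {v a b c d : V} (hv : v ∈ Q) (ha : a ∈ Q) (hb : b ∈ Q) (hc : c ∈ Q) (hd : d ∈ Q)
    (e : G.Adj t v ∧ G.Adj s v ∧ G.Adj t a ∧ G.Adj t b ∧ G.Adj s c ∧ G.Adj s d) (h1 : α i a ≠ α i b) :
    α i c = α i d := by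
  by_contra h2
  have jc : ∀ v ∈ Q, ∀ v' ∈ Q, G.Adj t v → G.Adj s v → G.Adj t v' → G.Adj s v' → α i v = α i v' := by
    intro v hv v' hv' a1 a2 a3 a4
    by_contra h3
    obtain ⟨g, hg, g1, g2⟩ := C.anti t ht s hs ts
    obtain ⟨h, hh, g3, g4⟩ := C.anti s hs t ht ts.symm
    have k1 := C.aa0 H ht hs i hg hv hh (by grind)
    have k2 := C.aa0 H ht hs i hg hv' hh (by grind)
    obtain ⟨p, hp, x, hx, b⟩ := (C.sd i).edge2 H hv hv' h3
    have t1 := C.td t ht i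
    have t2 := C.td s hs i
    have t3 := C.tt t ht s hs
    by_cases e : α i g = α i v
    · exact pTT H C.clq t s p x v v' g h (by and_intros <;> grind)
    · exact pTT H C.clq t s p x v' v g h (by and_intros <;> grind)
  obtain ⟨g, hg, g1, g2⟩ : ∃ g ∈ Q, G.Adj t g ∧ α i g ≠ α i v := by grind
  obtain ⟨h, hh, g3, g4⟩ : ∃ h ∈ Q, G.Adj s h ∧ α i h ≠ α i v := by grind
  exact C.aa0 H ht hs i hg hv hh (by grind) g2 g4

lemma wt_ne {a b : V} (h : wt α a ≠ wt α b) : ∃ i, α i a ≠ α i b := by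
  by_contra hn
  push Not at hn
  have := hn true
  have := hn false
  unfold wt at h; omega

theorem Cfg.jc (H : Ok G) (C : Cfg G Q T D α) {t s : V} (ht : t ∈ T) (hs : s ∈ T) (ts : t ≠ s)
    {a b : V} (ha : a ∈ Q) (hb : b ∈ Q) (e : G.Adj t a ∧ G.Adj s a ∧ G.Adj t b ∧ G.Adj s b) :
    wt α a = wt α b := by
  by_contra h
  obtain ⟨i, hi⟩ := wt_ne h
  exact hi (C.aa H ht hs ts i ha ha hb ha hb (by grind) hi)

theorem Cfg.f2 (H : Ok G) (C : Cfg G Q T D α) {t s : V} (ht : t ∈ T) (hs : s ∈ T) (ts : t ≠ s)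
    {a b c d : V} (ha : a ∈ Q) (hb : b ∈ Q) (hc : c ∈ Q) (hd : d ∈ Q)
    (e : G.Adj t a ∧ G.Adj t b ∧ G.Adj s c ∧ G.Adj s d) (h1 : wt α a < wt α b) (h2 : wt α c < wt α d) :
    wt α b ≤ wt α c ∨ wt α d ≤ wt α a := by
  by_contra hn
  obtain ⟨ta, tb, sc, sd⟩ := e
  have f1 := C.f1 H ht ha hc hb ta tb
  have f2 := C.f1 H ht ha hd hb ta tb
  have f3 := C.f1 H hs hc ha hd sc sd
  have f4 := C.f1 H hs hc hb hd sc sd
  have j1 := C.jc H ht hs ts hc hd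
  have j2 := C.jc H ht hs ts hc hb
  have j3 := C.jc H ht hs ts ha hd
  have j4 := C.jc H ht hs ts ha hb
  obtain ⟨i, hi⟩ := wt_ne h1.ne
  obtain ⟨j, hj⟩ := wt_ne h2.ne
  have w1 := C.wle ha hc
  have w2 := C.wle hb hd
  have a1 := fun v hv e => C.aa H ht hs ts i (v := v) hv ha hb hc hb e hi
  have a2 := fun v hv e => C.aa H ht hs ts i (v := v) hv ha hb ha hd e hi
  have a3 := fun v hv e => C.aa H ht hs ts i (v := v) hv ha hb hc hd e hi
  have a4 := fun v hv e => C.aa H hs ht ts.symm j (v := v) hv hc hd hc hb e hj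
  have a5 := fun v hv e => C.aa H hs ht ts.symm j (v := v) hv hc hd ha hd e hj
  have w3 := w1 i
  have w4 := w2 i
  have w5 := w1 j
  have w6 := w2 j
  have a6 := a1 b hb
  have a7 := a2 a ha
  have a8 := a4 c hc
  have a9 := a5 d hd
  have e : wt α a = wt α c ∧ wt α b = wt α d := by grind
  have := a3 a ha
  have := a3 b hb
  have := a3 c hc
  have := a3 d hd
  obtain ⟨u, u1, u2, u3⟩ := C.u ha hb hi
  obtain ⟨p, hp, x, hx, b0⟩ := (C.sd i).edge2 H ha hb hi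
  have t1 := C.td t ht i
  have t2 := C.td s hs i
  have t3 := C.tt t ht s hs
  have sy := G.adj_comm
  clear a1 a2 a3 a4 a5 w1 w2 f1 f2 f3 f4 j1 j2 j3 j4 a6 a7 a8 a9 w5 w6
  exact pP4 H C.clq t s p u x a c b d (by and_intros <;> grind)

theorem Cfg.s2 (H : Ok G) (C : Cfg G Q T D α) {t s : V} (ht : t ∈ T) (hs : s ∈ T) (ts : t ≠ s)
    {a v b : V} (ha : a ∈ Q) (hv : v ∈ Q) (hb : b ∈ Q)
    (e : G.Adj t a ∧ G.Adj t v ∧ G.Adj t b ∧ G.Adj s v) (h1 : wt α a < wt α v) : wt α b ≤ wt α v := by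
  obtain ⟨g, hg, g1, g2⟩ := C.anti s hs t ht ts.symm
  have := C.f1 H ht ha hg hb e.1 e.2.2.1
  have := C.f2 H ht hs ts ha hb hg hv (by grind)
  have := C.f2 H ht hs ts ha hb hv hg (by grind)
  grind

theorem Cfg.s3 (H : Ok G) (C : Cfg G Q T D α) {t m n : V} (ht : t ∈ T) (hm : m ∈ T) (hn : n ∈ T)
    (tm : t ≠ m) (tn : t ≠ n) (dj : ∀ s ∈ Q, G.Adj m s → ¬ G.Adj n s) {a b x : V} (ha : a ∈ Q)
    (hb : b ∈ Q) (hx : x ∈ Q) (e : G.Adj t a ∧ G.Adj m a ∧ G.Adj t b ∧ G.Adj n b ∧ G.Adj t x)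
    (h1 : wt α a = wt α b) : wt α x = wt α a := by
  by_contra h
  obtain ⟨i, hi⟩ := wt_ne h
  obtain ⟨c, hc, c1, c2⟩ := C.anti m hm t ht tm.symm
  obtain ⟨d, hd, d1, d2⟩ := C.anti n hn t ht tn.symm
  have := C.aa H ht hm tm i ha hx ha ha hc (by grind) hi
  have := C.aa H ht hn tn i hb hx ha hb hd (by grind) hi
  have := C.wle ha hb i
  have := C.jc H ht hm tm ha hx
  have := C.jc H ht hn tn hb hx
  obtain ⟨u, u1, u2, u3⟩ := C.u hx ha hi
  obtain ⟨p, hp, w, hw, b0⟩ := (C.sd i).edge2 H hx ha hi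
  have := C.td t ht i
  have := C.td m hm i
  have := C.td n hn i
  have := C.tt t ht m hm
  have := C.tt t ht n hn
  have := C.tt m hm n hn
  have sy := G.adj_comm
  exact pP6 H C.clq t m n p u w x a b c d (by and_intros <;> grind)

end Pool.Agent.Lib.MP_d7353d_co
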