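import Pool.Agent.Lib.MP_d7353d_co.Obs

namespace Pool.Agent.Lib.MP_d7353d_co

variable {V : Type} {G : SimpleGraph V} {L R : V → ℕ}

/-- adjacency of the right end of `a` and the left end of `b` in the signed graph -/
def Ed (L R : V → ℕ) (a b : V) : Prop := Ov L R a b ∨ (a = b ∧ Nest L R a)

def Conn (L R : V → ℕ) (A : Finset V) : ℕ → V → V → Prop
  | 0, v, z => v = z
  | n + 1, v, z => ∃ w h, Conn L R A n v w ∧ h ∈ A ∧ Ed L R h w ∧ Ed L R h z

lemma Conn.trans {A : Finset V} {m n : ℕ} {a b c : V} (h1 : Conn L R A m a b) (h2 : Conn L R A n b c) :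
    Conn L R A (m + n) a c := by
  induction n generalizing c with
  | zero => obtain rfl : b = c := h2; exact h1
  | succ n ih =>
    obtain ⟨w, h, k1, k2⟩ := h2
    exact ⟨w, h, ih k1, k2⟩

lemma Conn.one {A : Finset V} {a b h : V} (h1 : h ∈ A) (h2 : Ed L R h a) (h3 : Ed L R h b) :
    Conn L R A 1 a b := ⟨a, h, rfl, h1, h2, h3⟩

lemma Conn.symm {A : Finset V} {n : ℕ} {a b : V} (h1 : Conn L R A n a b) : Conn L R A n b a := by
  induction n generalizing b with
  | zero => exact (show a = b from h1).symm
  | succ n ih =>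
    obtain ⟨w, h, k1, k2, k3, k4⟩ := h1
    have := (Conn.one k2 k4 k3).trans (ih k1)
    rwa [Nat.add_comm] at this

lemma Conn.seq {A : Finset V} {n : ℕ} {a b : V} (h1 : Conn L R A n a b) :
    ∃ Vs Hs : ℕ → V, Vs 0 = a ∧ Vs n = b ∧
      ∀ i, i < n → Hs i ∈ A ∧ Ed L R (Hs i) (Vs i) ∧ Ed L R (Hs i) (Vs (i + 1)) := by
  induction n generalizing b with
  | zero => exact ⟨fun _ => a, fun _ => a, rfl, h1, fun i hi => by omega⟩
  | succ n ih =>
    obtain ⟨w, h, k1, k2, k3, k4⟩ := h1
    obtain ⟨Vs, Hs, e1, e2, e3⟩ := ih k1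
    refine ⟨fun i => if i ≤ n then Vs i else b, fun i => if i < n then Hs i else h, by simpa using e1,
      by simp, fun i hi => ?_⟩
    by_cases hin : i < n
    · simp only [if_pos hin, if_pos hin.le, if_pos (show i + 1 ≤ n by omega)]
      exact e3 i hin
    · obtain rfl : i = n := by omega
      simp only [lt_irrefl, if_false, le_refl, if_true, if_neg (show ¬ i + 1 ≤ i by omega), e2]
      exact ⟨k2, k3, k4⟩

lemma Conn.of_seq {A : Finset V} {n : ℕ} {Vs Hs : ℕ → V}
    (h : ∀ i, i < n → Hs i ∈ A ∧ Ed L R (Hs i) (Vs i) ∧ Ed L R (Hs i) (Vs (i + 1))) (i d : ℕ)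
    (hd : i + d ≤ n) : Conn L R A d (Vs i) (Vs (i + d)) := by
  induction d with
  | zero => rfl
  | succ d ih => exact ⟨Vs (i + d), Hs (i + d), ih (by omega), h _ (by omega)⟩

open Classical in
noncomputable def val (c : V → Bool) (a b : V) : Bool := if a = b then !c b else c b

def Bal (L R : V → ℕ) (A : Finset V) (c : V → Bool) : Prop :=
  ∀ a ∈ A, ∀ b b', Ed L R a b → Ed L R a b' → val c a b = val c a b'

lemma Ed.le (hR : Red G L R) {a b : V} (h : Ed L R a b) : L a ≤ L b ∧ L b ≤ R a ∧ R a ≤ R b := by
  rcases h with h | ⟨rfl, _⟩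
  · unfold Ov at h; omega
  · exact ⟨le_rfl, hR.le _, le_rfl⟩

lemma Ov.ne {a b : V} (h : Ov L R a b) : a ≠ b := by
  rintro rfl; exact lt_irrefl _ h.1

lemma key_min (hR : Red G L R) (hno : ¬ Obs G) {A : Finset V} {u : V}
    (hu : ∀ a ∈ A, R a < R u ∨ (R a = R u ∧ L u ≤ L a)) (hu' : u ∉ A) {c : V → Bool} (hc : Bal L R A c)
    {k : ℕ} {v z : V} (hk : 1 ≤ k) (hv : Ed L R u v) (hz : Ov L R u z) (hvz : L v ≤ L z)
    {Vs Hs : ℕ → V} (h0 : Vs 0 = v) (hkz : Vs k = z)
    (hst : ∀ i, i < k → Hs i ∈ A ∧ Ed L R (Hs i) (Vs i) ∧ Ed L R (Hs i) (Vs (i + 1)))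
    (hs : ∀ k', k' < k → ¬ Conn L R A k' v z) (hmid : ∀ j, 0 < j → j < k → ¬ Ed L R u (Vs j)) :
    val c u v = val c u z := by
  have pre : ∀ i, i ≤ k → Conn L R A i v (Vs i) := fun i hi => by
    have := Conn.of_seq hst 0 i (by omega)
    rwa [h0, Nat.zero_add] at this
  have suf : ∀ j, j ≤ k → Conn L R A (k - j) (Vs j) z := fun j hj => by
    have := Conn.of_seq hst j (k - j) (by omega)
    rwa [show j + (k - j) = k by omega, hkz] at this
  have chordF : ∀ i j, i + 1 < j → j ≤ k → ¬ Ed L R (Hs i) (Vs j) := fun i j h1 h2 h =>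
    hs _ (by omega) (((pre i (by omega)).trans
      (Conn.one (hst i (by omega)).1 (hst i (by omega)).2.1 h)).trans (suf j h2))
  have chordB : ∀ i, 0 < i → i < k → ¬ Ed L R (Hs i) v := fun i h1 h2 h =>
    hs _ (by omega) ((Conn.one (hst i h2).1 h (hst i h2).2.2).trans (suf (i + 1) h2))
  have short : ∀ i j x, i + 1 < j → j < k → Ed L R (Hs i) x → Ed L R (Hs j) x → False :=
    fun i j x h1 h2 h3 h4 =>
    hs _ (by omega) ((((pre i (by omega)).trans
      (Conn.one (hst i (by omega)).1 (hst i (by omega)).2.1 h3)).trans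
      (Conn.one (hst j h2).1 h4 (hst j h2).2.2)).trans (suf (j + 1) h2))
  have huv := hv.le hR
  have cr : ∀ a ∈ A, L a < L v → L v ≤ R a → Ov L R a v := by
    intro a ha h1 h2
    refine ⟨h1, h2, ?_⟩
    have := hu a ha
    rcases hv with hv | ⟨rfl, _⟩
    · have := hv.2.2; omega
    · omega
  have hRu : ∀ i, i < k → R (Hs i) ≤ R u := fun i hi => by have := hu _ (hst i hi).1; omega
  have hy : Ov L R (Hs 0) v := by
    have h1 := (hst 0 hk).2.1
    rw [h0] at h1
    rcases h1 with h1 | ⟨h1, _⟩
    · exact h1
    · exfalso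
      rcases hv with hv | ⟨rfl, _⟩
      · have := hv.2.2; have := hRu 0 hk; rw [h1] at this; omega
      · exact hu' (h1 ▸ (hst 0 hk).1)
  have LV : ∀ j, j ≤ k → L v ≤ L (Vs j) := by
    intro j hj
    by_contra hlt
    have j0 : j ≠ 0 := by rintro rfl; rw [h0] at hlt; exact hlt le_rfl
    have : ∀ j', j ≤ j' → j' ≤ k → L (Vs j') < L v := by
      intro j' hj'
      induction j', hj' using Nat.le_induction with
      | base => intro _; omega
      | succ m hm ih =>
        intro hmk
        have h1 := ih (by omega)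
        have h2 := (hst m (by omega)).2.1.le hR
        have h3 := (hst m (by omega)).2.2.le hR
        by_contra h4
        exact chordB m (by omega) (by omega) (Or.inl (cr _ (hst m (by omega)).1 (by omega) (by omega)))
    have := this k hj le_rfl
    rw [hkz] at this; omega
  have LH : ∀ j, 0 < j → j < k → L v ≤ L (Hs j) := by
    intro j h1 h2
    by_contra h3
    have h4 := (hst j h2).2.1.le hR
    have := LV j h2.le
    exact chordB j h1 h2 (Or.inl (cr _ (hst j h2).1 (by omega) (by omega)))
  have nestH : ∀ j, 0 < j → j < k → Ov L R (Hs j) (Vs j) → Nest L R (Hs j) := by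
    intro j h1 h2 h3
    have := LH j h1 h2
    have := hRu j h2
    rcases hv with hv | ⟨rfl, w, w1, w2⟩
    · refine ⟨u, by have := hv.1; omega, ?_⟩
      have h5 : ¬ Ov L R u (Vs j) := fun h => hmid j h1 h2 (Or.inl h)
      unfold Ov at h5 h3 hv
      omega
    · exact ⟨w, by omega, by omega⟩
  have St : ∀ j, j < k → (∀ i, 1 ≤ i → i ≤ j → Hs i = Vs i ∧ Nest L R (Hs i)) ∧
      (∀ i, i ≤ j → Ov L R (Hs i) (Vs (i + 1))) := by
    intro j
    induction j with
    | zero =>
      intro _
      refine ⟨fun i h1 h2 => by omega, fun i hi => ?_⟩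
      obtain rfl : i = 0 := by omega
      rcases (hst 0 hk).2.2 with h | ⟨h, _⟩
      · exact h
      · have := LV 1 hk
        have := hy.1
        rw [h] at this
        simp only [Nat.zero_add] at this
        omega
    | succ j ih =>
      intro hj
      obtain ⟨s1, s2⟩ := ih (by omega)
      have mono : ∀ i, i ≤ j → ∀ d, i + d ≤ j → R (Hs i) ≤ R (Hs (i + d)) := by
        intro i _ d
        induction d with
        | zero => intro _; exact le_rfl
        | succ d ihd =>
          intro hd
          have h1 := ihd (by omega)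
          have h2 := (s2 (i + d) (by omega)).2.2
          rw [← (s1 (i + d + 1) (by omega) (by omega)).1] at h2
          exact h1.trans h2.le
      have cover : ∀ b, L (Hs 0) < L b → R (Hs j) < R b → ∀ i, i ≤ j → L b ≤ R (Hs i) →
          ∃ i', i' ≤ i ∧ Ov L R (Hs i') b := by
        intro b hb1 hb2 i
        induction i with
        | zero =>
          intro _ h
          have := mono 0 (by omega) j (by omega)
          rw [Nat.zero_add] at this
          exact ⟨0, le_rfl, hb1, h, by omega⟩
        | succ i ihi =>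
          intro hi h
          by_cases h1 : L (Hs (i + 1)) < L b
          · have := mono (i + 1) hi (j - (i + 1)) (by omega)
            rw [show i + 1 + (j - (i + 1)) = j by omega] at this
            exact ⟨i + 1, le_rfl, h1, h, by omega⟩
          · have h2 := (s2 i (by omega)).2.1
            rw [← (s1 (i + 1) (by omega) hi).1] at h2
            obtain ⟨i', h3, h4⟩ := ihi (by omega) (by omega)
            exact ⟨i', by omega, h4⟩
      have heq : Hs (j + 1) = Vs (j + 1) ∧ Nest L R (Hs (j + 1)) := by
        rcases (hst (j + 1) hj).2.1 with hov | h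
        swap
        · exact h
        exfalso
        have hy1 := hy.1
        by_cases hcase : R (Hs (j + 1)) ≤ R (Hs j)
        · have step : ∀ m, j + 1 ≤ m → m < k → R (Hs m) ≤ R (Hs j) → R (Vs (m + 1)) ≤ R (Hs j) := by
            intro m h1 h2 h3
            by_contra h4
            have h5 := (hst m h2).2.2.le hR
            have h6 := LV (m + 1) h2
            obtain ⟨i', h7, h8⟩ := cover (Vs (m + 1)) (by omega) (by omega) j le_rfl (by omega)
            exact chordF i' (m + 1) (by omega) h2 (Or.inl h8)
          have trap : ∀ m, j + 1 ≤ m → m < k → R (Hs m) ≤ R (Hs j) := by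
            intro m hm
            induction m, hm using Nat.le_induction with
            | base => intro _; exact hcase
            | succ m hm ihm =>
              intro hmk
              have h1 := step m hm (by omega) (ihm (by omega))
              have h2 := (hst (m + 1) hmk).2.1.le hR
              omega
          have h1 := step (k - 1) (by omega) (by omega) (trap (k - 1) (by omega) (by omega))
          rw [show k - 1 + 1 = k by omega, hkz] at h1
          have := hRu j (by omega)
          have := hz.2.2
          omega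
        · have h1 := LH (j + 1) (by omega) hj
          have h2 := (s2 j le_rfl).2.1
          have h3 := hov.1
          have hn := nestH (j + 1) (by omega) hj hov
          obtain ⟨i', h7, h8⟩ := cover (Hs (j + 1)) (by omega) (by omega) j le_rfl (by omega)
          rcases Nat.lt_or_eq_of_le h7 with h9 | rfl
          · exact short i' (j + 1) _ (by omega) hj (Or.inl h8) (Or.inr ⟨rfl, hn⟩)
          · exact hno (obs_T hR h8 hov h2 hn)
      refine ⟨fun i h1 h2 => ?_, fun i hi => ?_⟩
      · rcases Nat.lt_or_eq_of_le h2 with h | rfl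
        · exact s1 i h1 (by omega)
        · exact heq
      · rcases Nat.lt_or_eq_of_le hi with h | rfl
        · exact s2 i (by omega)
        · rcases (hst (j + 1) hj).2.2 with h | ⟨h, _⟩
          · exact h
          · exfalso
            apply chordF j (j + 1 + 1) (by omega) hj
            rw [← h, heq.1]
            exact (hst j (by omega)).2.2
  obtain ⟨s1, s2⟩ := St (k - 1) (by omega)
  have par : ∀ j, j < k → (c (Vs (j + 1)) = c v ↔ j % 2 = 0) := by
    intro j
    induction j with
    | zero =>
      intro _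
      have := hc _ (hst 0 hk).1 _ _ (Or.inl hy) (hst 0 hk).2.2
      rw [val, val, if_neg hy.ne, if_neg (s2 0 (by omega)).ne] at this
      simp [this]
    | succ j ih =>
      intro hj
      have h1 := ih (by omega)
      have := hc _ (hst (j + 1) hj).1 _ _ (hst (j + 1) hj).2.1 (hst (j + 1) hj).2.2
      rw [val, val, if_pos (s1 (j + 1) (by omega) (by omega)).1, if_neg (s2 (j + 1) (by omega)).ne] at this
      rw [← this]
      have h2 : (j + 1) % 2 = 0 ↔ ¬ j % 2 = 0 := by omega
      rw [h2, ← h1]
      cases c (Vs (j + 1)) <;> cases c v <;> simp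
  have pk := par (k - 1) (by omega)
  rw [show k - 1 + 1 = k by omega, hkz] at pk
  by_contra hne
  apply hno
  have hQ : ∀ i, i < k → (if i = 0 then Hs 0 else Vs i) = Hs i := by
    intro i hi
    split_ifs with h
    · rw [h]
    · exact (s1 i (by omega) (by omega)).1.symm
  have mon : ∀ i j, i + 1 ≤ j → j ≤ k → L (Hs i) < L (Vs j) ∧ R (Hs i) < R (Vs j) := by
    intro i j hij
    induction j, hij using Nat.le_induction with
    | base => intro h; have := s2 i (by omega); exact ⟨this.1, this.2.2⟩
    | succ j hij ih =>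
      intro hj
      have h1 := ih (by omega)
      have h2 := s2 j (by omega)
      rw [(s1 j (by omega) (by omega)).1] at h2
      unfold Ov at h2
      omega
  apply obs_stair hR k (fun i => if i = 0 then Hs 0 else Vs i) u v hk
  · intro i hi
    simp only [hQ i hi, if_neg (show i + 1 ≠ 0 by omega)]
    exact s2 i (by omega)
  · intro i j hij hj
    simp only [hQ i (by omega), if_neg (show j ≠ 0 by omega)]
    have h1 := mon i j (by omega) hj
    have h2 : ¬ Ov L R (Hs i) (Vs j) := fun h => chordF i j (by omega) hj (Or.inl h)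
    unfold Ov at h2
    omega
  · simpa using hy
  · simpa using LV 1 hk
  · simp only [hQ (k - 1) (by omega)]; exact hRu _ (by omega)
  · simp only [if_neg (show k ≠ 0 by omega), hkz]; exact hz
  · intro h2
    simp only [if_neg (show (1 : ℕ) ≠ 0 by omega)]
    have := s1 1 le_rfl (by omega)
    rw [← this.1]; exact this.2
  · rw [val, val, if_neg hz.ne] at hne
    rcases hv with hv | ⟨rfl, hn⟩
    · left
      rw [if_neg hv.ne] at hne
      refine ⟨hv, ?_⟩
      have : ¬ (k - 1) % 2 = 0 := fun h => hne (pk.2 h).symm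
      omega
    · right
      rw [if_pos rfl] at hne
      refine ⟨rfl, hn, ?_⟩
      have : (k - 1) % 2 = 0 := pk.1 (by revert hne; cases c u <;> cases c z <;> simp)
      omega

lemma key (hR : Red G L R) (hno : ¬ Obs G) {A : Finset V} {u : V}
    (hu : ∀ a ∈ A, R a < R u ∨ (R a = R u ∧ L u ≤ L a)) (hu' : u ∉ A) {c : V → Bool} (hc : Bal L R A c)
    (k : ℕ) : ∀ v z, Conn L R A k v z → Ed L R u v → Ed L R u z → val c u v = val c u z := by
  induction k using Nat.strong_induction_on with
  | _ k ih =>
    have main : ∀ v z, L v ≤ L z → Conn L R A k v z → Ed L R u v → Ed L R u z →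
        val c u v = val c u z := by
      intro v z hvz h hv hz
      by_cases e : v = z
      · rw [e]
      have hk : 1 ≤ k := by
        rcases k with _ | k
        · exact absurd h e
        · omega
      have hz' : Ov L R u z := by
        rcases hz with hz | ⟨rfl, _⟩
        · exact hz
        · rcases hv with hv | ⟨hv, _⟩
          · have := hv.1; omega
          · exact absurd hv.symm e
      by_cases hs : ∃ k', k' < k ∧ Conn L R A k' v z
      · obtain ⟨k', h1, h2⟩ := hs
        exact ih k' h1 v z h2 hv hz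
      obtain ⟨Vs, Hs, h0, hkz, hst⟩ := h.seq
      by_cases hm : ∃ j, 0 < j ∧ j < k ∧ Ed L R u (Vs j)
      · obtain ⟨j, h1, h2, h3⟩ := hm
        have a1 := Conn.of_seq hst 0 j (by omega)
        have a2 := Conn.of_seq hst j (k - j) (by omega)
        rw [h0, Nat.zero_add] at a1
        rw [show j + (k - j) = k by omega, hkz] at a2
        rw [ih j h2 _ _ a1 hv h3, ih (k - j) (by omega) _ _ a2 h3 hz]
      exact key_min hR hno hu hu' hc hk hv hz' hvz h0 hkz hst (fun k' h1 h2 => hs ⟨k', h1, h2⟩)
        (fun j h1 h2 h3 => hm ⟨j, h1, h2, h3⟩)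
    intro v z h hv hz
    rcases le_total (L v) (L z) with h1 | h1
    · exact main v z h1 h hv hz
    · exact (main z v h1 h.symm hz hv).symm

lemma exists_bal (hR : Red G L R) (hno : ¬ Obs G) (A : Finset V) : ∃ c, Bal L R A c := by
  classical
  induction A using Finset.strongInduction with
  | _ A ih =>
    rcases A.eq_empty_or_nonempty with rfl | hA
    · exact ⟨fun _ => false, fun a ha => by simp at ha⟩
    obtain ⟨u0, hu0, m0⟩ := Finset.exists_max_image A R hA
    obtain ⟨u, hu, m1⟩ := Finset.exists_min_image (A.filter fun a => R a = R u0) L ⟨u0, by simp [hu0]⟩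
    simp only [Finset.mem_filter] at hu m1
    obtain ⟨c, hc⟩ := ih (A.erase u) (Finset.erase_ssubset hu.1)
    have hkey := key hR hno (A := A.erase u) (u := u) (fun a ha => by
      have ha' := Finset.mem_of_mem_erase ha
      have := m0 a ha'
      by_cases h : R a = R u0
      · exact Or.inr ⟨by omega, m1 a ⟨ha', h⟩⟩
      · left; omega) (Finset.notMem_erase u A) hc
    let flag : V → Prop := fun b => ∃ n k, Ed L R u n ∧ Conn L R (A.erase u) k n b ∧ val c u n = true
    refine ⟨fun b => if flag b then !c b else c b, fun a ha b b' h1 h2 => ?_⟩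
    have hval : ∀ x, val (fun b => if flag b then !c b else c b) a x =
        if flag x then !val c a x else val c a x := by
      intro x; simp only [val]; split_ifs <;> rfl
    rw [hval, hval]
    by_cases e : a = u
    · subst e
      have : ∀ x, Ed L R a x → (if flag x then !val c a x else val c a x) = false := by
        intro x hx
        by_cases hf : flag x
        · rw [if_pos hf]
          obtain ⟨n, k, k1, k2, k3⟩ := hf
          rw [← hkey k n x k2 k1 hx, k3]; rfl
        · rw [if_neg hf]
          by_contra h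
          exact hf ⟨x, 0, hx, rfl, by simpa using h⟩
      rw [this b h1, this b' h2]
    · have ha' : a ∈ A.erase u := Finset.mem_erase.2 ⟨e, ha⟩
      have hf : flag b ↔ flag b' :=
        ⟨fun ⟨n, k, k1, k2, k3⟩ => ⟨n, k + 1, k1, k2.trans (Conn.one ha' h1 h2), k3⟩,
          fun ⟨n, k, k1, k2, k3⟩ => ⟨n, k + 1, k1, k2.trans (Conn.one ha' h2 h1), k3⟩⟩
      rw [hc a ha' b b' h1 h2]
      simp only [hf]

theorem circle_of_no_obs [Fintype V] (hG : IsInterval G) (hno : ¬ Obs G) : IsCircle G := by
  classical
  obtain ⟨L, R, hR⟩ := exists_red hG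
  obtain ⟨c, hc⟩ := exists_bal hR hno Finset.univ
  apply circle_of_lin
  apply lin_of_col L R c (fun a => if h : ∃ b, Ov L R a b then c h.choose else !c a) hR.le hR.adj
  · intro a b h
    have h' : ∃ b, Ov L R a b := ⟨b, h⟩
    rw [dif_pos h']
    have := hc a (Finset.mem_univ _) _ _ (Or.inl h'.choose_spec) (Or.inl h)
    rwa [val, val, if_neg h'.choose_spec.ne, if_neg h.ne] at this
  · intro a hn
    by_cases h' : ∃ b, Ov L R a b
    · rw [dif_pos h']
      have := hc a (Finset.mem_univ _) _ _ (Or.inl h'.choose_spec) (Or.inr ⟨rfl, hn⟩)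
      rw [val, val, if_neg h'.choose_spec.ne, if_pos rfl] at this
      rw [this]; cases c a <;> simp
    · rw [dif_neg h']; cases c a <;> simp

end Pool.Agent.Lib.MP_d7353d_co
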