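import Mathlib

namespace Pool.Agent.Lib.MP_d7353d_co

/-- Circle graph: intersection graph of chords of the unit circle with pairwise distinct ends. -/
def IsCircle {V : Type} (G : SimpleGraph V) : Prop :=
  ∃ p q : V → ℂ, (∀ v, ‖p v‖ = 1 ∧ ‖q v‖ = 1) ∧ Function.Injective (Sum.elim p q) ∧
    ∀ u v, u ≠ v → (G.Adj u v ↔ (segment ℝ (p u) (q u) ∩ segment ℝ (p v) (q v)).Nonempty)

/-- Minimal non-circle graph. -/
def IsMinNonCircle {V : Type} (G : SimpleGraph V) : Prop :=
  ¬ IsCircle G ∧ ∀ x : V, IsCircle (G.induce {v | v ≠ x})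

/-- Interval graph: intersection graph of nonempty closed real intervals. -/
def IsInterval {V : Type} (G : SimpleGraph V) : Prop :=
  ∃ l r : V → ℝ, (∀ v, l v ≤ r v) ∧
    ∀ u v, u ≠ v → (G.Adj u v ↔ (Set.Icc (l u) (r u) ∩ Set.Icc (l v) (r v)).Nonempty)

/-- The intersection graph of eight intervals with integer ends. -/
def intGraph (I : Fin 8 → ℕ × ℕ) : SimpleGraph (Fin 8) :=
  SimpleGraph.fromRel fun a b => (I a).1 ≤ (I b).2 ∧ (I b).1 ≤ (I a).2

/-- The six sporadic families of eight intervals. -/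
def spor : Fin 6 → Fin 8 → ℕ × ℕ :=
  ![![(0,0), (0,1), (0,2), (0,3), (1,2), (1,3), (2,3), (3,3)],
    ![(0,0), (0,1), (0,3), (1,2), (1,4), (2,4), (3,4), (4,4)],
    ![(0,0), (0,2), (0,3), (1,1), (1,4), (2,3), (3,4), (4,4)],
    ![(0,0), (0,2), (0,4), (1,1), (1,3), (2,4), (3,3), (4,4)],
    ![(0,0), (0,2), (0,4), (1,1), (1,3), (2,4), (3,4), (4,4)],
    ![(0,0), (0,1), (0,2), (0,4), (1,3), (2,4), (3,4), (4,4)]]

/-- The path `0, 1, ..., N-1` plus two adjacent vertices `s = inr false`, `t = inr true`, both joined to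
all inner vertices of the path; `t` is joined to `0`; the end `N-1` is joined to `s` for odd `N` and
to `t` for even `N`. -/
def fam (N : ℕ) : SimpleGraph (Fin N ⊕ Bool) :=
  SimpleGraph.fromRel fun a b =>
    match a, b with
    | Sum.inl i, Sum.inl j => i.val + 1 = j.val
    | Sum.inl i, Sum.inr false => 1 ≤ i.val ∧ (i.val + 1 < N ∨ Odd N)
    | Sum.inl i, Sum.inr true => i.val + 1 < N ∨ Even N
    | Sum.inr _, Sum.inl _ => False
    | Sum.inr _, Sum.inr _ => True

end Pool.Agent.Lib.MP_d7353d_co
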