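import Pool.Agent.Lib.MP_d7353d_co.Defs

namespace Pool.Agent.Lib.MP_d7353d_co

open Real

noncomputable def pt (a : ℝ) : ℂ := ⟨Real.cos a, Real.sin a⟩

def det3 (a b c : ℂ) : ℝ := (b.re - a.re) * (c.im - a.im) - (b.im - a.im) * (c.re - a.re)

lemma norm_pt (a : ℝ) : ‖pt a‖ = 1 := by
  rw [Complex.norm_eq_sqrt_sq_add_sq]
  simp [pt]

lemma det_pt (a b c : ℝ) :
    det3 (pt a) (pt b) (pt c) = 4 * sin ((b - a) / 2) * sin ((c - b) / 2) * sin ((c - a) / 2) := by
  have h1 : det3 (pt a) (pt b) (pt c) = sin (b - a) + sin (c - b) - sin (c - a) := by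
    simp only [det3, pt, sin_sub]; ring
  rw [h1]
  set x := (b - a) / 2 with hx
  set y := (c - b) / 2 with hy
  have e1 : b - a = 2 * x := by rw [hx]; ring
  have e2 : c - b = 2 * y := by rw [hy]; ring
  have e3 : c - a = 2 * (x + y) := by rw [hx, hy]; ring
  have e4 : (c - a) / 2 = x + y := by rw [hx, hy]; ring
  rw [e4, e1, e2, e3, sin_two_mul, sin_two_mul, sin_two_mul, sin_add, cos_add]
  have p1 := sin_sq_add_cos_sq x
  have p2 := sin_sq_add_cos_sq y
  linear_combination (-2 * sin y * cos y) * p1 + (-2 * sin x * cos x) * p2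

lemma det_pos {a b c : ℝ} (ha : -π < a) (hab : a < b) (hbc : b < c) (hc : c ≤ π) :
    0 < det3 (pt a) (pt b) (pt c) := by
  rw [det_pt]
  have s1 : 0 < sin ((b - a) / 2) := sin_pos_of_pos_of_lt_pi (by linarith) (by linarith)
  have s2 : 0 < sin ((c - b) / 2) := sin_pos_of_pos_of_lt_pi (by linarith) (by linarith)
  have s3 : 0 < sin ((c - a) / 2) := sin_pos_of_pos_of_lt_pi (by linarith) (by linarith)
  positivity

lemma seg_disj {A C B D : ℂ} (h : 0 < det3 A C B * det3 A C D) :
    ¬ (segment ℝ A C ∩ segment ℝ B D).Nonempty := by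
  rintro ⟨x, ⟨s, t, hs, ht, hst, hx⟩, ⟨s', t', hs', ht', hst', hx'⟩⟩
  have e1 : det3 A C x = 0 := by
    rw [← hx]
    have : s = 1 - t := by linarith
    subst this
    simp [det3]; ring
  have e2 : det3 A C x = s' * det3 A C B + t' * det3 A C D := by
    rw [← hx']
    have : s' = 1 - t' := by linarith
    subst this
    simp [det3]; ring
  rw [e1] at e2
  rcases pos_and_pos_or_neg_and_neg_of_mul_pos h with ⟨h1, h2⟩ | ⟨h1, h2⟩
  · have : s' * det3 A C B = 0 := by nlinarith [mul_nonneg hs' h1.le, mul_nonneg ht' h2.le]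
    have h3 : t' * det3 A C D = 0 := by linarith
    rcases mul_eq_zero.1 this with h4 | h4 <;> rcases mul_eq_zero.1 h3 with h5 | h5 <;> linarith
  · have : s' * det3 A C B = 0 := by
      nlinarith [mul_nonneg hs' (neg_pos.2 h1).le, mul_nonneg ht' (neg_pos.2 h2).le]
    have h3 : t' * det3 A C D = 0 := by linarith
    rcases mul_eq_zero.1 this with h4 | h4 <;> rcases mul_eq_zero.1 h3 with h5 | h5 <;> linarith

lemma seg_meet {A B C D : ℂ} (h1 : 0 < det3 B C D) (h2 : 0 < det3 A C D) (h3 : 0 < det3 A B D)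
    (h4 : 0 < det3 A B C) : (segment ℝ A C ∩ segment ℝ B D).Nonempty := by
  have hs : det3 B C D + det3 A B D = det3 A C D + det3 A B C := by simp only [det3]; ring
  set T := det3 B C D + det3 A B D with hT
  have hTpos : 0 < T := by linarith
  refine ⟨(det3 B C D / T) • A + (det3 A B D / T) • C,
    ⟨_, _, by positivity, by positivity, by field_simp; rfl, rfl⟩,
    ⟨det3 A C D / T, det3 A B C / T, by positivity, by positivity, by field_simp; linarith, ?_⟩⟩
  apply Complex.ext
  · simp only [Complex.add_re, Complex.smul_re, smul_eq_mul]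
    field_simp
    simp only [det3]; ring
  · simp only [Complex.add_im, Complex.smul_im, smul_eq_mul]
    field_simp
    simp only [det3]; ring

lemma det_swap (A B C : ℂ) : det3 A C B = - det3 A B C := by simp only [det3]; ring
lemma det_rot (A B C : ℂ) : det3 B C A = det3 A B C := by simp only [det3]; ring

/-- interleaving -/
def Cross {α : Type} [LT α] (a c b d : α) : Prop := (a < b ∧ b < c ∧ c < d) ∨ (b < a ∧ a < d ∧ d < c)

lemma cross_aux {a c b d : ℝ} (ha : -π < a) (hc : c ≤ π) (hd : d ≤ π) (hac : a < c) (hbd : b < d)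
    (hab : a < b) (hbc : b ≠ c) (hcd : c ≠ d) :
    (segment ℝ (pt a) (pt c) ∩ segment ℝ (pt b) (pt d)).Nonempty ↔ Cross a c b d := by
  rcases lt_or_gt_of_ne hbc with h | h
  · rcases lt_or_gt_of_ne hcd with h' | h'
    · refine ⟨fun _ => Or.inl ⟨hab, h, h'⟩, fun _ => ?_⟩
      exact seg_meet (det_pos (by linarith) h h' hd) (det_pos ha hac h' hd) (det_pos ha hab hbd hd)
        (det_pos ha hab h hc)
    · refine ⟨fun hh => absurd hh (seg_disj ?_), fun hh => ?_⟩
      · rw [det_swap, det_swap (pt a) (pt d)]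
        have := det_pos ha hab h hc
        have := det_pos ha (hab.trans hbd) h' hc
        nlinarith
      · rcases hh with hh | hh <;> linarith [hh.1, hh.2.1, hh.2.2]
  · refine ⟨fun hh => absurd hh (seg_disj ?_), fun hh => ?_⟩
    · have := det_pos ha hac h (by linarith)
      have := det_pos ha hac (h.trans hbd) hd
      positivity
    · rcases hh with hh | hh <;> linarith [hh.1, hh.2.1, hh.2.2]

lemma cross_iff {a c b d : ℝ} (ha : -π < a) (hb : -π < b) (hc : c ≤ π) (hd : d ≤ π) (hac : a < c)
    (hbd : b < d) (hab : a ≠ b) (hbc : b ≠ c) (hcd : c ≠ d) (had : a ≠ d) :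
    (segment ℝ (pt a) (pt c) ∩ segment ℝ (pt b) (pt d)).Nonempty ↔ Cross a c b d := by
  rcases lt_or_gt_of_ne hab with h | h
  · exact cross_aux ha hc hd hac hbd h hbc hcd
  · rw [Set.inter_comm, cross_aux hb hd hc hbd hac h had hcd.symm]
    unfold Cross; tauto

/-- linear model -/
def Lin {V : Type} (G : SimpleGraph V) : Prop :=
  ∃ f g : V → ℝ, (∀ v, f v < g v) ∧ Function.Injective (Sum.elim f g) ∧
    ∀ u v, u ≠ v → (G.Adj u v ↔ Cross (f u) (g u) (f v) (g v))

lemma pt_arg {z : ℂ} (h : ‖z‖ = 1) : pt (Complex.arg z) = z := by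
  have hz : z ≠ 0 := by intro h0; simp [h0] at h
  apply Complex.ext
  · simp [pt, Complex.cos_arg hz, h]
  · simp [pt, Complex.sin_arg, h]

lemma pt_inj {a b : ℝ} (ha : -π < a) (ha' : a ≤ π) (hb : -π < b) (hb' : b ≤ π) (h : pt a = pt b) :
    a = b := by
  have e : ∀ x : ℝ, pt x = Complex.cos x + Complex.sin x * Complex.I := by
    intro x; apply Complex.ext <;> simp [pt, Complex.cos_ofReal_re, Complex.sin_ofReal_re]
  rw [e, e] at h
  have h1 := Complex.arg_cos_add_sin_mul_I (θ := a) ⟨ha, ha'⟩
  have h2 := Complex.arg_cos_add_sin_mul_I (θ := b) ⟨hb, hb'⟩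
  rw [← h1, ← h2, h]

theorem lin_of_circle {V : Type} {G : SimpleGraph V} (h : IsCircle G) : Lin G := by
  obtain ⟨p, q, hn, hi, hadj⟩ := h
  have hpp : ∀ u v, u ≠ v → (p u).arg ≠ (p v).arg := fun u v huv h => huv (by
    have : Sum.elim p q (Sum.inl u) = Sum.elim p q (Sum.inl v) := by
      simp only [Sum.elim_inl]; rw [← pt_arg (hn u).1, ← pt_arg (hn v).1, h]
    simpa using hi this)
  have hqq : ∀ u v, u ≠ v → (q u).arg ≠ (q v).arg := fun u v huv h => huv (by
    have : Sum.elim p q (Sum.inr u) = Sum.elim p q (Sum.inr v) := by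
      simp only [Sum.elim_inr]; rw [← pt_arg (hn u).2, ← pt_arg (hn v).2, h]
    simpa using hi this)
  have hpq : ∀ u v, (p u).arg ≠ (q v).arg := fun u v h => by
    have : Sum.elim p q (Sum.inl u) = Sum.elim p q (Sum.inr v) := by
      simp only [Sum.elim_inl, Sum.elim_inr]; rw [← pt_arg (hn u).1, ← pt_arg (hn v).2, h]
    simpa using hi this
  have hseg : ∀ v, segment ℝ (p v) (q v) =
      segment ℝ (pt (min (p v).arg (q v).arg)) (pt (max (p v).arg (q v).arg)) := by
    intro v
    rcases le_total (p v).arg (q v).arg with h | h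
    · rw [min_eq_left h, max_eq_right h, pt_arg (hn v).1, pt_arg (hn v).2]
    · rw [min_eq_right h, max_eq_left h, pt_arg (hn v).1, pt_arg (hn v).2, segment_symm]
  have hlt : ∀ v, min (p v).arg (q v).arg < max (p v).arg (q v).arg := fun v => min_lt_max.2 (hpq v v)
  have hne : ∀ u v, u ≠ v → ∀ x y : ℝ, (x = (p u).arg ∨ x = (q u).arg) → (y = (p v).arg ∨ y = (q v).arg) →
      x ≠ y := by
    rintro u v huv x y (rfl | rfl) (rfl | rfl)
    exacts [hpp u v huv, hpq u v, (hpq v u).symm, hqq u v huv]
  refine ⟨fun v => min (p v).arg (q v).arg, fun v => max (p v).arg (q v).arg, hlt, ?_, ?_⟩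
  · rintro (u | u) (v | v) h <;> simp only [Sum.elim_inl, Sum.elim_inr] at h
    · by_contra hc
      exact hne u v (fun e => hc (by rw [e])) _ _ (min_choice _ _) (min_choice _ _) h
    · by_cases huv : u = v
      · subst huv; exact absurd h (hlt u).ne
      · exact absurd h (hne u v huv _ _ (min_choice _ _) (max_choice _ _))
    · by_cases huv : u = v
      · subst huv; exact absurd h (hlt u).ne'
      · exact absurd h (hne u v huv _ _ (max_choice _ _) (min_choice _ _))
    · by_contra hc
      exact hne u v (fun e => hc (by rw [e])) _ _ (max_choice _ _) (max_choice _ _) h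
  · intro u v huv
    rw [hadj u v huv, hseg u, hseg v]
    exact cross_iff (lt_min (Complex.neg_pi_lt_arg _) (Complex.neg_pi_lt_arg _))
      (lt_min (Complex.neg_pi_lt_arg _) (Complex.neg_pi_lt_arg _))
      (max_le (Complex.arg_le_pi _) (Complex.arg_le_pi _))
      (max_le (Complex.arg_le_pi _) (Complex.arg_le_pi _)) (hlt u) (hlt v)
      (hne u v huv _ _ (min_choice _ _) (min_choice _ _))
      (hne v u huv.symm _ _ (min_choice _ _) (max_choice _ _))
      (hne u v huv _ _ (max_choice _ _) (max_choice _ _))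
      (hne u v huv _ _ (min_choice _ _) (max_choice _ _))

theorem circle_of_lin {V : Type} {G : SimpleGraph V} (h : Lin G) : IsCircle G := by
  obtain ⟨f, g, hlt, hi, hadj⟩ := h
  have lo : ∀ x : ℝ, -π < arctan x := fun x => by linarith [neg_pi_div_two_lt_arctan x, pi_pos]
  have hi' : ∀ x : ℝ, arctan x ≤ π := fun x => by linarith [arctan_lt_pi_div_two x, pi_pos]
  have mono : ∀ x y : ℝ, arctan x < arctan y ↔ x < y := fun x y => arctan_strictMono.lt_iff_lt
  refine ⟨fun v => pt (arctan (f v)), fun v => pt (arctan (g v)), fun v => ⟨norm_pt _, norm_pt _⟩, ?_, ?_⟩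
  · intro a b h
    apply hi
    rcases a with a | a <;> rcases b with b | b <;> simp only [Sum.elim_inl, Sum.elim_inr] at h ⊢ <;>
      exact arctan_injective (pt_inj (lo _) (hi' _) (lo _) (hi' _) h)
  · intro u v huv
    have n1 : f u ≠ f v := fun h => huv (by
      simpa using hi (a₁ := Sum.inl u) (a₂ := Sum.inl v) (by simpa using h))
    have n2 : g u ≠ g v := fun h => huv (by
      simpa using hi (a₁ := Sum.inr u) (a₂ := Sum.inr v) (by simpa using h))
    have n3 : ∀ a b, f a ≠ g b := fun a b h => by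
      simpa using hi (a₁ := Sum.inl a) (a₂ := Sum.inr b) (by simpa using h)
    rw [hadj u v huv, cross_iff (lo _) (lo _) (hi' _) (hi' _) ((mono _ _).2 (hlt u)) ((mono _ _).2 (hlt v))
      (fun h => n1 (arctan_injective h)) (fun h => n3 _ _ (arctan_injective h))
      (fun h => n2 (arctan_injective h)) (fun h => n3 _ _ (arctan_injective h))]
    simp only [Cross, mono]

theorem circle_iff_lin {V : Type} {G : SimpleGraph V} : IsCircle G ↔ Lin G :=
  ⟨lin_of_circle, circle_of_lin⟩

theorem Lin.comap {V W : Type} {G : SimpleGraph V} {H : SimpleGraph W} (e : H ↪g G) (h : Lin G) :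
    Lin H := by
  obtain ⟨f, g, hlt, hi, hadj⟩ := h
  refine ⟨fun v => f (e v), fun v => g (e v), fun v => hlt _, ?_, fun u v huv => ?_⟩
  · intro a b h
    have : Sum.map e e a = Sum.map e e b := by
      apply hi
      rcases a with a | a <;> rcases b with b | b <;> simpa using h
    exact (Sum.map_injective.2 ⟨e.injective, e.injective⟩) this
  · rw [← hadj _ _ (fun h => huv (e.injective h)), e.map_adj_iff]

theorem IsCircle.comap {V W : Type} {G : SimpleGraph V} {H : SimpleGraph W} (e : H ↪g G)
    (h : IsCircle G) : IsCircle H :=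
  circle_of_lin ((lin_of_circle h).comap e)

/-- the orientation system -/
def Sys {V : Type} (G : SimpleGraph V) (β : V → V → ZMod 2) : Prop :=
  (∀ a b, G.Adj a b → β a b + β b a = 1) ∧
    ∀ a c x y, a ≠ c → ¬ G.Adj a c → G.Adj x a → G.Adj x c → G.Adj y a → G.Adj y c →
      β x a + β x c = β y a + β y c

theorem sys_of_lin {V : Type} {G : SimpleGraph V} (h : Lin G) : ∃ β, Sys G β := by
  classical
  obtain ⟨f, g, hlt, hi, hadj⟩ := h
  refine ⟨fun x a => if f a < f x then 1 else 0, ?_, ?_⟩
  · intro a b hab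
    rcases (hadj a b hab.ne).1 hab with h | h
    · simp [h.1, h.1.not_gt]
    · simp [h.1, h.1.not_gt]
  · intro a c x y hac hn h1 h2 h3 h4
    have k1 := (hadj _ _ h1.ne).1 h1
    have k2 := (hadj _ _ h2.ne).1 h2
    have k3 := (hadj _ _ h3.ne).1 h3
    have k4 := (hadj _ _ h4.ne).1 h4
    have k5 := fun hh => hn ((hadj a c hac).2 hh)
    have n1 : f a ≠ f c := fun h => hac (by
      simpa using hi (a₁ := Sum.inl a) (a₂ := Sum.inl c) (by simpa using h))
    have n2 : g a ≠ g c := fun h => hac (by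
      simpa using hi (a₁ := Sum.inr a) (a₂ := Sum.inr c) (by simpa using h))
    have key : ∀ z, Cross (f z) (g z) (f a) (g a) → Cross (f z) (g z) (f c) (g c) →
        ((if f a < f z then (1 : ZMod 2) else 0) + (if f c < f z then 1 else 0)) =
          if g a < f c ∨ g c < f a then 1 else 0 := by
      intro z m1 m2
      unfold Cross at k5
      rcases m1 with m1 | m1 <;> rcases m2 with m2 | m2
      · rw [if_neg m1.1.not_gt, if_neg m2.1.not_gt, if_neg]
        · rfl
        · rintro (hh | hh) <;> linarith [m1.2.1, m1.2.2, m2.2.1, m2.2.2]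
      · rw [if_neg m1.1.not_gt, if_pos m2.1, if_pos]
        · rfl
        · right
          by_contra hh
          apply k5; right
          refine ⟨by linarith [m1.1, m2.1], ?_, by linarith [m1.2.2, m2.2.2]⟩
          rcases lt_or_eq_of_le (not_lt.1 hh) with e | e
          · exact e
          · exact absurd (hi (a₁ := Sum.inl a) (a₂ := Sum.inr c) (by simpa using e)) (by simp)
      · rw [if_pos m1.1, if_neg m2.1.not_gt, if_pos]
        · rfl
        · left
          by_contra hh
          apply k5; left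
          refine ⟨by linarith [m1.1, m2.1], ?_, by linarith [m1.2.2, m2.2.2]⟩
          rcases lt_or_eq_of_le (not_lt.1 hh) with e | e
          · exact e
          · exact absurd (hi (a₁ := Sum.inl c) (a₂ := Sum.inr a) (by simpa using e)) (by simp)
      · rw [if_pos m1.1, if_pos m2.1, if_neg]
        · rfl
        · rintro (hh | hh) <;> linarith [m1.1, m1.2.1, m1.2.2, m2.1, m2.2.1, m2.2.2]
    rw [key x k1 k2, key y k3 k4]

end Pool.Agent.Lib.MP_d7353d_co
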