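import Pool.Agent.Lib.MP_d7353d_co.ChFinal

namespace Pool.Agent.Lib.MP_d7353d_co.OldChordalCase

open Pool.Agent.Lib.MP_d7353d_co

theorem result (V : Type) [Fintype V] (G : SimpleGraph V) :
    (IsChordal G ∧ IsMinNonCircle G) ↔
      (∃ L ∈ sporadic, Nonempty (G ≃g ofLists L)) ∨ (∃ N, 6 ≤ N ∧ Nonempty (G ≃g fam N)) ∨
        (∃ N, 5 ≤ N ∧ Nonempty (G ≃g famQ N)) ∨ ∃ τ k, sunMin τ ≤ k ∧ Nonempty (G ≃g sun τ k) :=
  chordal_main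

end Pool.Agent.Lib.MP_d7353d_co.OldChordalCase
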