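import Pool.Agent.Lib.MP_d7353d_co.Defs

/-! Definitions and stub statements for the obstruction theorem (vertex-minors W5, W7, BW3). -/

namespace Pool.Agent.Lib.MP_d7353d_co.T

variable {V : Type} [DecidableEq V]

/-- graphs as Boolean functions; only the values on a finite vertex set `S` matter -/
abbrev Gr (V : Type) := V → V → Bool

def Sy (G : Gr V) : Prop := (∀ u v, G u v = G v u) ∧ ∀ v, G v v = false

/-- local complementation at `y` -/
def lc (G : Gr V) (y : V) : Gr V :=
  fun u v => if u = v then false else (G u v ^^ (G u y && G y v))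

/-- reachable by local complementations at vertices of `S` -/
inductive LE (S : Finset V) (G : Gr V) : Gr V → Prop
  | refl : LE S G G
  | step {H : Gr V} (y : V) : y ∈ S → LE S G H → LE S G (lc H y)

/-- parity of the number of occurrences -/
def par : List V → V → Bool
  | [], _ => false
  | a :: l, u => decide (a = u) ^^ par l u

/-- parity of the number of pairs (occurrence of `u`, later occurrence of `v`) -/
def inv : List V → V → V → Bool
  | [], _, _ => false
  | a :: l, u, v => (decide (a = u) && par l v) ^^ inv l u v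

/-- every letter of `S` occurs twice, no other letter occurs -/
def Dbl (S : Finset V) (W : List V) : Prop := ∀ v, W.count v = if v ∈ S then 2 else 0

/-- `W` is a double occurrence word for `G` on `S` -/
def Rep (G : Gr V) (S : Finset V) (W : List V) : Prop :=
  Dbl S W ∧ ∀ u ∈ S, ∀ v ∈ S, u ≠ v → G u v = inv W u v

def Circ (G : Gr V) (S : Finset V) : Prop := ∃ W, Rep G S W

/-- number of vertices of `S` of colour `b` -/
def nc (S : Finset V) (f : V → Bool) (b : Bool) : ℕ := (S.filter fun v => f v = b).card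

def Split (G : Gr V) (S : Finset V) (f : V → Bool) : Prop :=
  2 ≤ nc S f true ∧ 2 ≤ nc S f false ∧
    ∃ φ : V → Bool, ∀ a ∈ S, ∀ b ∈ S, f a = true → f b = false → G a b = (φ a && φ b)

def Prime (G : Gr V) (S : Finset V) : Prop := ∀ f, ¬ Split G S f

/-- cycle `0..k-1` plus the hub `k` joined to the vertices `i` with `h i` -/
def wheel (k : ℕ) (h : ℕ → Bool) : Gr ℕ := fun i j =>
  if i = k then decide (j < k) && h j else if j = k then decide (i < k) && h i
  else decide ((i + 1) % k = j ∨ (j + 1) % k = i)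

/-- `G` on `S` contains the graph `O` on `0..n-1` as an induced subgraph -/
def Emb (G : Gr V) (S : Finset V) (n : ℕ) (O : Gr ℕ) : Prop :=
  ∃ σ : ℕ → V, (∀ i < n, σ i ∈ S) ∧ ∀ i < n, ∀ j < n, i ≠ j → σ i ≠ σ j ∧ G (σ i) (σ j) = O i j

/-- `W5`, `W7` or `BW3` is a vertex-minor of `G` on `S` -/
def HasO (G : Gr V) (S : Finset V) : Prop :=
  ∃ H, LE S G H ∧ (Emb H S 6 (wheel 5 fun _ => true) ∨ Emb H S 8 (wheel 7 fun _ => true) ∨
    Emb H S 7 (wheel 6 fun i => decide (i % 2 = 0)))

/-- rotation, reversal, reversal between the two occurrences of a letter -/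
inductive Eqv (W : List V) : List V → Prop
  | refl : Eqv W W
  | rot (A B : List V) : Eqv W (A ++ B) → Eqv W (B ++ A)
  | rev (A : List V) : Eqv W A → Eqv W A.reverse
  | lcs (y : V) (A B : List V) : y ∉ A → y ∉ B → Eqv W (y :: A ++ y :: B) →
      Eqv W (y :: A.reverse ++ y :: B)

/-! signed multigraphs -/

abbrev Ed (V : Type) := Sym2 V × Bool

/-- the edge crosses the colouring -/
def cr (f : V → Bool) : Sym2 V → Bool :=
  Sym2.lift ⟨fun u v => f u ^^ f v, fun u v => Bool.xor_comm (f u) (f v)⟩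

def cut (f : V → Bool) (E : Multiset (Ed V)) : ℕ := E.countP fun e => cr f e.1 = true

/-- number of negative edges after resigning by `f` -/
def neg (f : V → Bool) (E : Multiset (Ed V)) : ℕ := E.countP fun e => (cr f e.1 ^^ e.2) = true

def mult (y : V) : Sym2 V → ℕ :=
  Sym2.lift ⟨fun u v => (if u = y then 1 else 0) + (if v = y then 1 else 0),
    fun _ _ => Nat.add_comm _ _⟩

def deg (y : V) (E : Multiset (Ed V)) : ℕ := (E.map fun e => mult y e.1).sum

/-- 4-regular on `S`, even -/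
def Reg (S : Finset V) (E : Multiset (Ed V)) : Prop :=
  (∀ e ∈ E, ∀ v ∈ e.1, v ∈ S) ∧ (∀ y ∈ S, deg y E = 4) ∧ ∀ f, Even (neg f E)

def C4 (S : Finset V) (E : Multiset (Ed V)) : Prop :=
  ∀ f, 1 ≤ nc S f true → 1 ≤ nc S f false → 4 ≤ cut f E

def PrE (S : Finset V) (E : Multiset (Ed V)) : Prop :=
  C4 S E ∧ ∀ f, 2 ≤ nc S f true → 2 ≤ nc S f false → 6 ≤ cut f E

def Heavy (E : Multiset (Ed V)) : Prop := ∀ f, 4 ≤ neg f E

/-- the four edges at `y` and the rest -/
def Star (E : Multiset (Ed V)) (y : V) (h1 h2 h3 h4 : V × Bool) (R : Multiset (Ed V)) : Prop :=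
  (∀ e ∈ R, y ∉ e.1) ∧ h1.1 ≠ y ∧ h2.1 ≠ y ∧ h3.1 ≠ y ∧ h4.1 ≠ y ∧
    E = (s(y, h1.1), h1.2) ::ₘ (s(y, h2.1), h2.2) ::ₘ (s(y, h3.1), h3.2) ::ₘ (s(y, h4.1), h4.2) ::ₘ R

/-- the edge replacing two edges at a smoothed vertex -/
def mg (h k : V × Bool) : Ed V := (s(h.1, k.1), h.2 ^^ k.2)

def Smooth (y : V) (E E' : Multiset (Ed V)) : Prop :=
  ∃ h1 h2 h3 h4 R, Star E y h1 h2 h3 h4 R ∧ E' = mg h1 h2 ::ₘ mg h3 h4 ::ₘ R

inductive Minor (S : Finset V) (E : Multiset (Ed V)) : Finset V → Multiset (Ed V) → Prop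
  | refl : Minor S E S E
  | step {S' : Finset V} {E' E'' : Multiset (Ed V)} (y : V) : Minor S E S' E' → y ∈ S' → C4 S' E' →
      Smooth y E' E'' → Minor S E (S'.erase y) E''

/-! signed words: a letter with the sign of the gap after it -/

def wk : V → Bool → List (V × Bool) → V → Multiset (Ed V)
  | p, s, [], q => {(s(p, q), s)}
  | p, s, a :: l, q => (s(p, a.1), s) ::ₘ wk a.1 a.2 l q

def cyc : List (V × Bool) → Multiset (Ed V)
  | [] => 0
  | a :: l => wk a.1 a.2 l a.1

def tot : List (V × Bool) → Bool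
  | [] => false
  | a :: l => a.2 ^^ tot l

/-- parity of the number of pairs (occurrence of `u`, later negative gap) -/
def sp : List (V × Bool) → V → Bool
  | [], _ => false
  | a :: l, u => (decide (a.1 = u) && (a.2 ^^ tot l)) ^^ sp l u

/-- the signed word `L` represents `G` on `S` together with the neighbourhood of `x` -/
def SR (G : Gr V) (x : V) (S : Finset V) (L : List (V × Bool)) : Prop :=
  Rep G S (L.map Prod.fst) ∧ (∀ u ∈ S, G u x = sp L u) ∧ tot L = false

/-- the unsigned edges of a word -/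
def ue (W : List V) : Multiset (Ed V) := cyc (W.map fun v => (v, false))

/-! simple signed graphs -/

structure SG (V : Type) where
  S : Finset V
  D : Finset (Sym2 V)
  sg : Sym2 V → Bool

namespace SG

variable (F : SG V)

def N (f : V → Bool) : Finset (Sym2 V) := F.D.filter fun e => (cr f e ^^ F.sg e) = true

def X (f : V → Bool) : Finset (Sym2 V) := F.D.filter fun e => cr f e = true

/-- `a b c d` are the four neighbours of `y` -/
def Nb (y a b c d : V) : Prop :=
  a ≠ b ∧ a ≠ c ∧ a ≠ d ∧ b ≠ c ∧ b ≠ d ∧ c ≠ d ∧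
    ∀ w, s(y, w) ∈ F.D ↔ w = a ∨ w = b ∨ w = c ∨ w = d

structure Ok : Prop where
  ins : ∀ u v, s(u, v) ∈ F.D → u ∈ F.S ∧ v ∈ F.S ∧ u ≠ v
  nb : ∀ y ∈ F.S, ∃ a b c d, F.Nb y a b c d
  c4 : ∀ f, 1 ≤ nc F.S f true → 1 ≤ nc F.S f false → 4 ≤ (F.X f).card
  c6 : ∀ f, 2 ≤ nc F.S f true → 2 ≤ nc F.S f false → 6 ≤ (F.X f).card

/-- the transition `ab|cd` at `y` is not big -/
def NB (y a b c d : V) : Prop :=
  ∀ g, g y = false → g a = true → g b = true → g c = false → g d = false → (F.X g).card ≤ 6 →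
    (∀ v ∈ F.S, g v = true → v = a ∨ v = b) ∨ (∀ v ∈ F.S, g v = false → v = y ∨ v = c ∨ v = d)

def OddT (y a b : V) : Prop :=
  s(a, b) ∈ F.D ∧ (F.sg s(y, a) ^^ F.sg s(y, b) ^^ F.sg s(a, b)) = true

def Light (y a b : V) : Prop :=
  ∃ f, (F.N f).card ≤ 4 ∧ s(y, a) ∈ F.N f ∧ s(y, b) ∈ F.N f

def Tri (z a b c d : V) : Prop :=
  ∃ f, ((F.N f).filter fun e => z ∉ e ∧ a ∉ e ∧ b ∉ e).card +
    (if (s(z, c) ∈ F.N f ↔ s(z, d) ∈ F.N f) then 0 else 1) ≤ 1

/-- what the minors tell about a transition that is not big -/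
def Info : Prop :=
  ∀ y a b c d, F.Nb y a b c d → F.NB y a b c d → ¬ F.OddT y c d →
    (¬ F.OddT y a b → F.Light y a b) ∧ (F.OddT y a b → F.Tri y a b c d)

def Hv : Prop := ∀ f, 4 ≤ (F.N f).card

/-- the multiset of signed edges -/
def E : Multiset (Ed V) := F.D.val.map fun e => (e, F.sg e)

end SG

end Pool.Agent.Lib.MP_d7353d_co.T
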