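import Pool.Agent.Lib.MP_d7353d_co.TG

/-! The normal form with negative edges `ab`, `a a1`, `b b1`, `p q`. -/

namespace Pool.Agent.Lib.MP_d7353d_co.T

set_option linter.unusedSectionVars false
set_option linter.unusedSimpArgs false
set_option linter.unusedVariables false

variable {V : Type} [DecidableEq V] {F : SG V}

theorem bet_sym {u v : V} (h : s(u, v) ∈ F.D) : s(v, u) ∈ F.D := Sym2.eq_swap ▸ h

/-- a colour class of two vertices with a cut of size at most six is an edge -/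
theorem bet_adj (k : F.Ok) {h : V → Bool} {u u' w : V} (hu : u ∈ F.S) (hu' : u' ∈ F.S) (hw : w ∈ F.S)
    (huu : u ≠ u') (hwf : h w = false) (t1 : h u = true) (t2 : h u' = true)
    (hs : ∀ v ∈ F.S, h v = true → v = u ∨ v = u') (hc : (F.X h).card ≤ 6) : s(u, u') ∈ F.D := by
  by_contra hn
  obtain ⟨a, b, c, d, n⟩ := k.nb u hu
  obtain ⟨m0, m1, m2, m3, m4, n1, n2, n3, n4⟩ := n.mem k
  obtain ⟨e1, e2, e3, e4⟩ := n.adj
  have key : ∀ v ∈ F.S, u ≠ v → s(u, v) ∈ F.D → h v = false := by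
    intro v hv e1 e2
    cases e : h v
    · rfl
    · rcases hs v hv e with rfl | rfl
      · exact absurd rfl e1
      · exact absurd e2 hn
  have t := n.card_X_tg k h
  simp only [t1, key a m1 n1 e1, key b m2 n2 e2, key c m3 n3 e3, key d m4 n4 e4] at t
  have c4 := k.c4 (tg h u) (one_le_nc.2 ⟨u', hu', by rw [tg_ne h huu.symm, t2]⟩)
    (one_le_nc.2 ⟨u, hu, by simp [t1]⟩)
  simp at t
  omega

/-- a cut of size at most six through a transition that is not big -/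
theorem bet_small (k : F.Ok) {y y1 y2 y3 y4 : V} (n : F.Nb y y1 y2 y3 y4) (nb : F.NB y y1 y2 y3 y4)
    {g : V → Bool} (g0 : g y = false) (g1 : g y1 = true) (g2 : g y2 = true) (g3 : g y3 = false)
    (g4 : g y4 = false) (hc : (F.X g).card ≤ 6) :
    ∃ u u' c, s(y, u) ∈ F.D ∧ s(y, u') ∈ F.D ∧ s(u, u') ∈ F.D ∧
      ∀ v ∈ F.S, v ≠ y → (g v = c ↔ v = u ∨ v = u') := by
  obtain ⟨m0, m1, m2, m3, m4, n1, n2, n3, n4⟩ := n.mem k
  obtain ⟨e1, e2, e3, e4⟩ := n.adj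
  obtain ⟨d1, d2, d3, d4, d5, d6, -⟩ := id n
  rcases nb g g0 g1 g2 g3 g4 hc with h | h
  · refine ⟨y1, y2, true, e1, e2, bet_adj k m1 m2 m0 d1 g0 g1 g2 h hc, fun v hv _ => ⟨h v hv, ?_⟩⟩
    rintro (rfl | rfl) <;> assumption
  · refine ⟨y3, y4, false, e3, e4, ?_, fun v hv e => ⟨fun c => (h v hv c).resolve_left e, ?_⟩⟩
    · have t := n.card_X_tg k g
      simp only [g0, g1, g2, g3, g4] at t
      refine bet_adj k (h := fun v => !tg g y v) m3 m4 m0 d6 (by simp [g0])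
        (by simp [tg_ne g n3.symm, g3]) (by simp [tg_ne g n4.symm, g4]) (fun v hv e => ?_)
        (by rw [SG.X_not]; simp at t; omega)
      have hy : v ≠ y := fun hy => by simp [hy, g0] at e
      exact (h v hv (by simpa [tg_ne g hy] using e)).resolve_left hy
    · rintro (rfl | rfl) <;> assumption

theorem bet_na {y a z b a1 a2 : V} (na : F.Nb a z b a1 a2) (h1 : y ≠ z) (h2 : y ≠ b) (h3 : y ≠ a1)
    (h4 : y ≠ a2) : s(y, a) ∉ F.D := fun e => by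
  rcases (na.2.2.2.2.2.2 y).1 (bet_sym e) with t | t | t | t
  exacts [h1 t, h2 t, h3 t, h4 t]

theorem bet_or {A B C D : Prop} (h : (A ∨ B) ∨ C ∨ D) : (A ∨ B ∨ C ∨ D) ∧ (B ∨ A ∨ D ∨ C) := by
  tauto

/-- what a vertex outside the named ones sees -/
def BetG (F : SG V) (a1 a2 b1 b2 p q y : V) : Prop :=
  ∃ u, s(y, p) ∈ F.D ∧ s(y, u) ∈ F.D ∧ s(p, u) ∈ F.D ∧ u ≠ q ∧
    (a1 = p ∨ a1 = u ∨ a2 = p ∨ a2 = u) ∧ (b1 = p ∨ b1 = u ∨ b2 = p ∨ b2 = u)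

theorem bet_fin (k : F.Ok) {y y1 y2 y3 y4 z a b a1 a2 b1 b2 p q : V} (n : F.Nb y y1 y2 y3 y4)
    (nb : F.NB y y1 y2 y3 y4) (na : F.Nb a z b a1 a2) (nb' : F.Nb b z a b1 b2) (hpq : s(p, q) ∈ F.D)
    (ya : y ≠ a) (yb : y ≠ b) (ya1 : y ≠ a1) (ya2 : y ≠ a2) (yb1 : y ≠ b1) (yb2 : y ≠ b2)
    (yp : y ≠ p) (yq : y ≠ q) (yz : y ≠ z)
    {g : V → Bool} (g0 : g y = false) (g1 : g y1 = true) (g2 : g y2 = true) (g3 : g y3 = false)
    (g4 : g y4 = false) (hc : (F.X g).card ≤ 6)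
    (hx : g a = g b → (g a ≠ g a1 ∨ g a ≠ g a2) ∧ (g b ≠ g b1 ∨ g b ≠ g b2) ∧ g p ≠ g q) :
    BetG F a1 a2 b1 b2 p q y ∨ BetG F a1 a2 b1 b2 q p y := by
  obtain ⟨u, u', c, e1, e2, e3, h⟩ := bet_small k n nb g0 g1 g2 g3 g4 hc
  obtain ⟨ma, mz, mb, ma1, ma2, -⟩ := na.mem k
  obtain ⟨-, -, -, mb1, mb2, -⟩ := nb'.mem k
  obtain ⟨mp, mq, pq⟩ := k.ins _ _ hpq
  have nya : s(y, a) ∉ F.D := bet_na na yz yb ya1 ya2
  have nyb : s(y, b) ∉ F.D := bet_na nb' yz ya yb1 yb2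
  have ga : g a ≠ c := fun e => by
    rcases (h a ma ya.symm).1 e with rfl | rfl
    · exact nya e1
    · exact nya e2
  have gb : g b ≠ c := fun e => by
    rcases (h b mb yb.symm).1 e with rfl | rfl
    · exact nyb e1
    · exact nyb e2
  have bb : ∀ s t : Bool, s ≠ c → s ≠ t → t = c := by cases c <;> decide
  obtain ⟨x1, x2, x3⟩ := hx (by revert ga gb; cases g a <;> cases g b <;> cases c <;> simp)
  have x1' : (a1 = u ∨ a1 = u') ∨ a2 = u ∨ a2 = u' :=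
    x1.imp (fun e => (h a1 ma1 ya1.symm).1 (bb _ _ ga e)) fun e => (h a2 ma2 ya2.symm).1 (bb _ _ ga e)
  have x2' : (b1 = u ∨ b1 = u') ∨ b2 = u ∨ b2 = u' :=
    x2.imp (fun e => (h b1 mb1 yb1.symm).1 (bb _ _ gb e)) fun e => (h b2 mb2 yb2.symm).1 (bb _ _ gb e)
  have hp := h p mp yp.symm
  have hq := h q mq yq.symm
  by_cases e : g p = c
  · have e' : ¬ (q = u ∨ q = u') := fun t => x3 (e.trans (hq.2 t).symm)
    rw [not_or] at e'
    left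
    rcases hp.1 e with rfl | rfl
    · exact ⟨u', e1, e2, e3, Ne.symm e'.2, (bet_or x1').1, (bet_or x2').1⟩
    · exact ⟨u, e2, e1, bet_sym e3, Ne.symm e'.1, (bet_or x1').2, (bet_or x2').2⟩
  · have e' : ¬ (p = u ∨ p = u') := fun t => e (hp.2 t)
    rw [not_or] at e'
    right
    rcases hq.1 (bb _ _ e x3) with rfl | rfl
    · exact ⟨u', e1, e2, e3, Ne.symm e'.2, (bet_or x1').1, (bet_or x2').1⟩
    · exact ⟨u, e2, e1, bet_sym e3, Ne.symm e'.1, (bet_or x1').2, (bet_or x2').2⟩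

theorem bet_cut (k : F.Ok) {y y1 y2 y3 y4 z a b a1 a2 b1 b2 p q : V} (n : F.Nb y y1 y2 y3 y4)
    (nb : F.NB y y1 y2 y3 y4) (na : F.Nb a z b a1 a2) (nb' : F.Nb b z a b1 b2) (hpq : s(p, q) ∈ F.D)
    (ya : y ≠ a) (yb : y ≠ b) (ya1 : y ≠ a1) (ya2 : y ≠ a2) (yb1 : y ≠ b1) (yb2 : y ≠ b2)
    (yp : y ≠ p) (yq : y ≠ q) (yz : y ≠ z) (pa : p ≠ a) (qa : q ≠ a)
    {g : V → Bool} (g0 : g y = false) (g1 : g y1 = true) (g2 : g y2 = true) (g3 : g y3 = false)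
    (g4 : g y4 = false) (hc : (F.X g).card ≤ 8)
    (c1 : g a ≠ g b) (c2 : g a ≠ g a1) (c3 : g b ≠ g b1) (c4 : g p ≠ g q) (c5 : g a ≠ g z) :
    BetG F a1 a2 b1 b2 p q y ∨ BetG F a1 a2 b1 b2 q p y := by
  obtain ⟨m0, m1, m2, m3, m4, n1, n2, n3, n4⟩ := n.mem k
  obtain ⟨e1, e2, e3, e4⟩ := n.adj
  obtain ⟨d1, d2, d3, d4, d5, d6, -⟩ := id n
  obtain ⟨-, -, -, -, -, az, ab, aa1, aa2⟩ := na.mem k
  have nya : s(y, a) ∉ F.D := bet_na na yz yb ya1 ya2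
  have t1 : y1 ≠ a := fun e => nya (e ▸ e1)
  have t2 : y2 ≠ a := fun e => nya (e ▸ e2)
  have t3 : y3 ≠ a := fun e => nya (e ▸ e3)
  have t4 : y4 ≠ a := fun e => nya (e ▸ e4)
  have b1a : b1 ≠ a := fun e => nb'.2.2.2.1 e.symm
  have t := na.card_X_tg k g
  have c6 := k.c6 (tg g a)
    (two_le_nc.2 ⟨y1, m1, y2, m2, d1, by rw [tg_ne g t1, g1], by rw [tg_ne g t2, g2]⟩)
    (two_le_nc.2 ⟨y, m0, y3, m3, n3, by rw [tg_ne g ya, g0], by rw [tg_ne g t3, g3]⟩)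
  rw [if_neg c5, if_neg c1, if_neg c2] at t
  have c7 : g a = g a2 := by
    by_contra e
    rw [if_neg e] at t
    omega
  rw [if_pos c7] at t
  refine bet_fin k n nb na nb' hpq ya yb ya1 ya2 yb1 yb2 yp yq yz (g := tg g a)
    (by rw [tg_ne g ya, g0]) (by rw [tg_ne g t1, g1]) (by rw [tg_ne g t2, g2])
    (by rw [tg_ne g t3, g3]) (by rw [tg_ne g t4, g4]) (by omega) fun _ => ⟨Or.inr ?_, Or.inl ?_, ?_⟩
  · rw [tg_self, tg_ne g aa2.symm, c7]; simp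
  · rwa [tg_ne g ab.symm, tg_ne g b1a]
  · rwa [tg_ne g pa, tg_ne g qa]

theorem BetG.swap {a1 a2 b1 b2 p q y : V} (h : BetG F a1 a2 b1 b2 p q y) : BetG F b1 b2 a1 a2 p q y :=
  h.imp fun _ ⟨h1, h2, h3, h4, h5, h6⟩ => ⟨h1, h2, h3, h4, h6, h5⟩

theorem bet_light (k : F.Ok) (hv : F.Hv) {y y1 y2 y3 y4 z a b a1 a2 b1 b2 p q : V} {f : V → Bool}
    (n : F.Nb y y1 y2 y3 y4) (nb : F.NB y y1 y2 y3 y4) (hl : F.Light y y1 y2)
    (na : F.Nb a z b a1 a2) (nb' : F.Nb b z a b1 b2)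
    (hN : F.N f = {s(a, b), s(a, a1), s(b, b1), s(p, q)})
    (ya : y ≠ a) (yb : y ≠ b) (ya1 : y ≠ a1) (ya2 : y ≠ a2) (yb1 : y ≠ b1) (yb2 : y ≠ b2)
    (yp : y ≠ p) (yq : y ≠ q) (yz : y ≠ z) (pa : p ≠ a) (pb : p ≠ b) (qa : q ≠ a) (qb : q ≠ b) :
    BetG F a1 a2 b1 b2 p q y ∨ BetG F a1 a2 b1 b2 q p y := by
  obtain ⟨f', h4, l1, l2, l3, l4, -⟩ := hl.sw k hv n
  obtain ⟨m0, m1, m2, m3, m4, n1, n2, n3, n4⟩ := n.mem k
  obtain ⟨e1, e2, e3, e4⟩ := n.adj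
  obtain ⟨d1, d2, d3, d4, d5, d6, -⟩ := id n
  obtain ⟨-, -, -, -, -, az, ab, aa1, aa2⟩ := na.mem k
  obtain ⟨-, -, -, -, -, bz, ba, bb1, bb2⟩ := nb'.mem k
  have ba1 : b ≠ a1 := na.2.2.2.1
  have ab1 : a ≠ b1 := nb'.2.2.2.1
  have hy : ∀ w, s(y, w) ∉ F.N f := fun w => by
    rw [hN]; simp [ya, yb, ya1, yb1, yp, yq]
  have k1 : s(a, b) ∈ F.N f := by rw [hN]; simp
  have k2 : s(a, a1) ∈ F.N f := by rw [hN]; simp
  have k3 : s(b, b1) ∈ F.N f := by rw [hN]; simp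
  have k4 : s(p, q) ∈ F.N f := by rw [hN]; simp
  have hpq : s(p, q) ∈ F.D := SG.N_sub f k4
  have c4 : (F.N f).card ≤ 4 := by rw [hN]; exact Finset.card_le_four
  -- the normalised colouring
  obtain ⟨g, g0, hg⟩ : ∃ g : V → Bool, g y = false ∧ F.X g = F.X fun v => f v ^^ f' v := by
    cases e : (f y ^^ f' y)
    · exact ⟨_, e, rfl⟩
    · exact ⟨fun v => !(f v ^^ f' v), by simp only [e]; rfl, SG.X_not _⟩
  have hX : ∀ u v, s(u, v) ∈ F.D → (g u ≠ g v ↔ ¬ (s(u, v) ∈ F.N f ↔ s(u, v) ∈ F.N f')) := by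
    intro u v e
    rw [← SG.mem_X_xor, ← hg, SG.mem_X]
    simp [e]
  have g1 : g y1 = true := by
    have := (hX y y1 e1).2 (by simp [hy, l1]); simpa [g0] using this
  have g2 : g y2 = true := by
    have := (hX y y2 e2).2 (by simp [hy, l2]); simpa [g0] using this
  have g3 : g y3 = false := by
    have := (hX y y3 e3).1.mt (by simp [hy, l3]); simpa [g0] using this
  have g4 : g y4 = false := by
    have := (hX y y4 e4).1.mt (by simp [hy, l4]); simpa [g0] using this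
  have cx := SG.card_X_xor (F := F) f f'
  rw [← hg] at cx
  have c6 := k.c6 g (two_le_nc.2 ⟨y1, m1, y2, m2, d1, g1, g2⟩) (two_le_nc.2 ⟨y, m0, y3, m3, n3, g0, g3⟩)
  have c1 : (F.N f ∩ F.N f').card ≤ 1 := by omega
  have hin : ∀ u v, s(u, v) ∈ F.N f → g u = g v → s(u, v) ∈ F.N f ∩ F.N f' := by
    intro u v e e'
    have := (hX u v (SG.N_sub f e)).2.mt (by simp [e'])
    rw [not_not] at this
    exact Finset.mem_inter.2 ⟨e, this.1 e⟩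
  rw [Finset.card_le_one] at c1
  by_cases hab : g a = g b
  · have i1 := hin a b k1 hab
    have : 1 ≤ (F.N f ∩ F.N f').card := Finset.one_le_card.2 ⟨_, i1⟩
    refine bet_fin k n nb na nb' hpq ya yb ya1 ya2 yb1 yb2 yp yq yz g0 g1 g2 g3 g4 (by omega)
      fun _ => ⟨Or.inl fun e => ?_, Or.inl fun e => ?_, fun e => ?_⟩
    · have := c1 _ i1 _ (hin _ _ k2 e); simp [ba1, ab, aa1, ba] at this
    · have := c1 _ i1 _ (hin _ _ k3 e); simp [ab1, ab, bb1, ba] at this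
    · have := c1 _ i1 _ (hin _ _ k4 e); simp [pa.symm, qa.symm] at this
  have small : ∀ u v, s(u, v) ∈ F.N f → g u ≠ g v := fun u v e e' => by
    have : 1 ≤ (F.N f ∩ F.N f').card := Finset.one_le_card.2 ⟨_, hin u v e e'⟩
    obtain ⟨u, u', c, e1, e2, e3, h⟩ := bet_small k n nb g0 g1 g2 g3 g4 (by omega)
    have nya : s(y, a) ∉ F.D := bet_na na yz yb ya1 ya2
    have nyb : s(y, b) ∉ F.D := bet_na nb' yz ya yb1 yb2
    have ga : g a ≠ c := fun e => by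
      rcases (h a (na.mem k).1 ya.symm).1 e with rfl | rfl
      · exact nya e1
      · exact nya e2
    have gb : g b ≠ c := fun e => by
      rcases (h b (nb'.mem k).1 yb.symm).1 e with rfl | rfl
      · exact nyb e1
      · exact nyb e2
    revert ga gb hab; cases g a <;> cases g b <;> cases c <;> simp
  by_cases hz : g a = g z
  · refine (bet_cut k n nb nb' na hpq yb ya yb1 yb2 ya1 ya2 yp yq yz pb qb g0 g1 g2 g3 g4 (by omega)
      (Ne.symm hab) (small _ _ k3) (small _ _ k2) (small _ _ k4) fun e => hab (hz.trans e.symm)).imp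
      BetG.swap BetG.swap
  · exact bet_cut k n nb na nb' hpq ya yb ya1 ya2 yb1 yb2 yp yq yz pa qa g0 g1 g2 g3 g4 (by omega)
      hab (small _ _ k2) (small _ _ k3) (small _ _ k4) hz

theorem bet_out (k : F.Ok) (hv : F.Hv) (hi : F.Info) {y z a b a1 a2 b1 b2 p q : V} {f : V → Bool}
    (na : F.Nb a z b a1 a2) (nb' : F.Nb b z a b1 b2)
    (hN : F.N f = {s(a, b), s(a, a1), s(b, b1), s(p, q)}) (hy : y ∈ F.S)
    (ya : y ≠ a) (yb : y ≠ b) (ya1 : y ≠ a1) (ya2 : y ≠ a2) (yb1 : y ≠ b1) (yb2 : y ≠ b2)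
    (yp : y ≠ p) (yq : y ≠ q) (yz : y ≠ z) (pa : p ≠ a) (pb : p ≠ b) (qa : q ≠ a) (qb : q ≠ b) :
    BetG F a1 a2 b1 b2 p q y ∨ BetG F a1 a2 b1 b2 q p y := by
  obtain ⟨y1, y2, y3, y4, n, h1, h2⟩ := k.two_NB hy
  obtain ⟨e1, e2, e3, e4⟩ := n.adj
  obtain ⟨d1, d2, d3, d4, d5, d6, -⟩ := id n
  have nya : s(y, a) ∉ F.D := bet_na na yz yb ya1 ya2
  have nyb : s(y, b) ∉ F.D := bet_na nb' yz ya yb1 yb2
  have hN' : ∀ w, s(y, w) ∉ F.N f := fun w => by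
    rw [hN]; simp [ya, yb, ya1, yb1, yp, yq]
  have odd : ∀ u v, s(y, u) ∈ F.D → s(y, v) ∈ F.D → F.OddT y u v → s(u, v) = s(p, q) := by
    intro u v hu hw ho
    have t := ho.par hu hw f
    have t' : s(u, v) ∈ F.N f := by simpa [hN'] using t
    have ua : u ≠ a := fun e => nya (e ▸ hu)
    have ub : u ≠ b := fun e => nyb (e ▸ hu)
    have va : v ≠ a := fun e => nya (e ▸ hw)
    have vb : v ≠ b := fun e => nyb (e ▸ hw)
    rw [hN] at t'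
    simp only [Finset.mem_insert, Finset.mem_singleton] at t'
    rcases t' with t | t | t | t
    · simp [ua, ub] at t
    · simp [ua, va] at t
    · simp [ub, vb] at t
    · exact t
  by_cases o : F.OddT y y1 y2 ∨ F.OddT y y3 y4
  · have o1 : ¬ F.OddT y y1 y3 := fun e => by
      have t := odd _ _ e1 e3 e
      rcases o with o | o
      · have := (odd _ _ e1 e2 o).trans t.symm; simp [d1, d2, d4, d1.symm] at this
      · have := (odd _ _ e3 e4 o).trans t.symm; simp [d2, d3, d6, d2.symm, d3.symm, d6.symm] at this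
    have o2 : ¬ F.OddT y y2 y4 := fun e => by
      have t := odd _ _ e2 e4 e
      rcases o with o | o
      · have := (odd _ _ e1 e2 o).trans t.symm; simp [d1, d3, d5] at this
      · have := (odd _ _ e3 e4 o).trans t.symm; simp [d4, d5, d6, d4.symm, d5.symm] at this
    exact bet_light k hv n.s23 h2 ((hi _ _ _ _ _ n.s23 h2 o2).1 o1) na nb' hN ya yb ya1 ya2 yb1 yb2
      yp yq yz pa pb qa qb
  · rw [not_or] at o
    exact bet_light k hv n h1 ((hi _ _ _ _ _ n h1 o.2).1 o.1) na nb' hN ya yb ya1 ya2 yb1 yb2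
      yp yq yz pa pb qa qb

theorem bet_nine {S : Finset V} (x1 x2 x3 x4 x5 x6 x7 x8 x9 : V)
    (h : ∀ v ∈ S, v = x1 ∨ v = x2 ∨ v = x3 ∨ v = x4 ∨ v = x5 ∨ v = x6 ∨ v = x7 ∨ v = x8 ∨ v = x9) :
    S.card ≤ 9 :=
  (Finset.card_le_card (t := [x1, x2, x3, x4, x5, x6, x7, x8, x9].toFinset) fun v hv => by
    simpa using h v hv).trans (List.toFinset_card_le _)

/-- the second vertex is a neighbour of `a` or of `b` -/
theorem bet_u (k : F.Ok) {y z a b a1 a2 b1 b2 p q u : V} (na : F.Nb a z b a1 a2)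
    (nb' : F.Nb b z a b1 b2) (hpq : s(p, q) ∈ F.D) (nya : s(y, a) ∉ F.D) (nyb : s(y, b) ∉ F.D)
    (ya : y ≠ a) (yb : y ≠ b) (yq : y ≠ q) (qa : q ≠ a) (qb : q ≠ b)
    (e1 : s(y, p) ∈ F.D) (e2 : s(y, u) ∈ F.D) (e3 : s(p, u) ∈ F.D) (uq : u ≠ q)
    (h1 : a1 = p ∨ a1 = u ∨ a2 = p ∨ a2 = u) (h2 : b1 = p ∨ b1 = u ∨ b2 = p ∨ b2 = u) :
    (s(p, a) ∈ F.D ∨ s(u, a) ∈ F.D) ∧ (s(p, b) ∈ F.D ∨ s(u, b) ∈ F.D) ∧
      (s(u, a) ∈ F.D ∨ s(u, b) ∈ F.D) ∧ u ≠ a ∧ u ≠ b ∧ u ≠ y := by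
  obtain ⟨-, s1, s2, s3⟩ := na.adj
  obtain ⟨-, -, s4, s5⟩ := nb'.adj
  have ab : a ≠ b := (k.ins _ _ s1).2.2
  have ua : u ≠ a := fun e => nya (e ▸ e2)
  have ub : u ≠ b := fun e => nyb (e ▸ e2)
  have yu : y ≠ u := (k.ins _ _ e2).2.2
  have t1 : s(p, a) ∈ F.D ∨ s(u, a) ∈ F.D := by
    rcases h1 with rfl | rfl | rfl | rfl
    exacts [Or.inl (bet_sym s2), Or.inr (bet_sym s2), Or.inl (bet_sym s3), Or.inr (bet_sym s3)]
  have t2 : s(p, b) ∈ F.D ∨ s(u, b) ∈ F.D := by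
    rcases h2 with rfl | rfl | rfl | rfl
    exacts [Or.inl (bet_sym s4), Or.inr (bet_sym s4), Or.inl (bet_sym s5), Or.inr (bet_sym s5)]
  refine ⟨t1, t2, ?_, ua, ub, yu.symm⟩
  rcases t1 with t1 | t1
  · rcases t2 with t2 | t2
    · have := k.five t1 t2 hpq (bet_sym e1) e3
      simp [ab, qa.symm, ya.symm, ua.symm, qb.symm, yb.symm, ub.symm, yq.symm, uq.symm, yu] at this
    · exact Or.inr t2
  · exact Or.inl t1

/-- two outside vertices cannot use the same end -/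
theorem bet_uniq (k : F.Ok) {y y' z a b a1 a2 b1 b2 p q : V} (na : F.Nb a z b a1 a2)
    (nb' : F.Nb b z a b1 b2) (hpq : s(p, q) ∈ F.D)
    (ya : y ≠ a) (yb : y ≠ b) (ya1 : y ≠ a1) (ya2 : y ≠ a2) (yb1 : y ≠ b1) (yb2 : y ≠ b2)
    (yq : y ≠ q) (yz : y ≠ z)
    (ya' : y' ≠ a) (yb' : y' ≠ b) (ya1' : y' ≠ a1) (ya2' : y' ≠ a2) (yb1' : y' ≠ b1) (yb2' : y' ≠ b2)
    (yq' : y' ≠ q) (yz' : y' ≠ z) (pa : p ≠ a) (pb : p ≠ b) (qa : q ≠ a) (qb : q ≠ b)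
    (h : BetG F a1 a2 b1 b2 p q y) (h' : BetG F a1 a2 b1 b2 p q y') : y' = y := by
  by_contra yy
  obtain ⟨u, e1, e2, e3, uq, h1, h2⟩ := h
  obtain ⟨u', e1', e2', e3', uq', h1', h2'⟩ := h'
  have nya := bet_na na yz yb ya1 ya2
  have nyb := bet_na nb' yz ya yb1 yb2
  have nya' := bet_na na yz' yb' ya1' ya2'
  have nyb' := bet_na nb' yz' ya' yb1' yb2'
  obtain ⟨t1, t2, t3, ua, ub, uy⟩ := bet_u k na nb' hpq nya nyb ya yb yq qa qb e1 e2 e3 uq h1 h2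
  obtain ⟨-, -, t3', -, -, uy'⟩ := bet_u k na nb' hpq nya' nyb' ya' yb' yq' qa qb e1' e2' e3' uq' h1' h2'
  have v1 : u ≠ y' := by rintro rfl; exact t3.elim nya' nyb'
  have v2 : u' ≠ y := by rintro rfl; exact t3'.elim nya nyb
  have yy' : y ≠ y' := fun e => yy e.symm
  have uu : u = u' := by
    have := k.five hpq (bet_sym e1) (bet_sym e1') e3 e3'
    simpa [yq.symm, yq'.symm, uq.symm, uq'.symm, yy', uy.symm, v2.symm, v1.symm, uy'.symm] using this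
  subst uu
  have n1 : s(p, a) ∉ F.D := fun e => by
    have := k.five hpq (bet_sym e1) (bet_sym e1') e3 e
    simp [yq.symm, yq'.symm, uq.symm, yy', uy.symm, v1.symm, qa, ya, ya', ua] at this
  have n2 : s(p, b) ∉ F.D := fun e => by
    have := k.five hpq (bet_sym e1) (bet_sym e1') e3 e
    simp [yq.symm, yq'.symm, uq.symm, yy', uy.symm, v1.symm, qb, yb, yb', ub] at this
  have := k.five (bet_sym e3) (bet_sym e2) (bet_sym e2') (t1.resolve_left n1) (t2.resolve_left n2)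
  have ab : a ≠ b := (k.ins _ _ na.adj.2.1).2.2
  simp [(k.ins _ _ e1).2.2.symm, (k.ins _ _ e1').2.2.symm, pa, pb, yy', ya, yb, ya', yb', ab] at this

/-- the counting, when some outside vertex uses the end `p` -/
theorem bet_count (k : F.Ok) {y z a b a1 a2 b1 b2 p q : V} (na : F.Nb a z b a1 a2)
    (nb' : F.Nb b z a b1 b2) (hpq : s(p, q) ∈ F.D) (pa : p ≠ a) (pb : p ≠ b) (qa : q ≠ a) (qb : q ≠ b)
    (hall : ∀ y ∈ F.S, y ≠ a → y ≠ b → y ≠ a1 → y ≠ a2 → y ≠ b1 → y ≠ b2 → y ≠ p → y ≠ q → y ≠ z →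
      BetG F a1 a2 b1 b2 p q y ∨ BetG F a1 a2 b1 b2 q p y)
    (ya : y ≠ a) (yb : y ≠ b) (ya1 : y ≠ a1) (ya2 : y ≠ a2) (yb1 : y ≠ b1) (yb2 : y ≠ b2)
    (yp : y ≠ p) (yq : y ≠ q) (yz : y ≠ z) (h : BetG F a1 a2 b1 b2 p q y) : F.S.card ≤ 9 := by
  by_cases ex : ∃ y', y' ≠ a ∧ y' ≠ b ∧ y' ≠ a1 ∧ y' ≠ a2 ∧ y' ≠ b1 ∧ y' ≠ b2 ∧ y' ≠ p ∧ y' ≠ q ∧
      y' ≠ z ∧ y ≠ y' ∧ BetG F a1 a2 b1 b2 q p y'
  · obtain ⟨y', ya', yb', ya1', ya2', yb1', yb2', yp', yq', yz', yy, h'⟩ := ex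
    obtain ⟨u, e1, e2, e3, uq, h1, h2⟩ := id h
    obtain ⟨u', e1', e2', e3', uq', h1', h2'⟩ := id h'
    have nya := bet_na na yz yb ya1 ya2
    have nyb := bet_na nb' yz ya yb1 yb2
    have nya' := bet_na na yz' yb' ya1' ya2'
    have nyb' := bet_na nb' yz' ya' yb1' yb2'
    obtain ⟨-, -, t3, ua, ub, uy⟩ := bet_u k na nb' hpq nya nyb ya yb yq qa qb e1 e2 e3 uq h1 h2
    obtain ⟨-, -, t3', ua', ub', uy'⟩ :=
      bet_u k na nb' (bet_sym hpq) nya' nyb' ya' yb' yp' pa pb e1' e2' e3' uq' h1' h2'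
    have pq : p ≠ q := (k.ins _ _ hpq).2.2
    have a12 : a1 ≠ a2 := na.2.2.2.2.2.1
    have b12 : b1 ≠ b2 := nb'.2.2.2.2.2.1
    have uu : u ≠ u' := by
      rintro rfl
      rcases t3 with t | t
      · have := k.five (bet_sym e3) (bet_sym e3') (bet_sym e2) (bet_sym e2') t
        simp [pq, yp.symm, yp'.symm, pa, yq.symm, yq'.symm, qa, yy, ya, ya'] at this
      · have := k.five (bet_sym e3) (bet_sym e3') (bet_sym e2) (bet_sym e2') t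
        simp [pq, yp.symm, yp'.symm, pb, yq.symm, yq'.symm, qb, yy, yb, yb'] at this
    have four : ∀ s t : V, s ≠ t → (s = p ∨ s = u ∨ t = p ∨ t = u) → (s = q ∨ s = u' ∨ t = q ∨ t = u') →
        (s = p ∨ s = u ∨ s = q ∨ s = u') ∧ (t = p ∨ t = u ∨ t = q ∨ t = u') := by
      intro s t st c1 c2
      clear * - c1 c2 st uu pq uq uq'
      grind
    have fa := four a1 a2 a12 h1 h1'
    have fb := four b1 b2 b12 h2 h2'
    refine bet_nine z a b y y' p u q u' fun v hv => ?_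
    by_contra c
    simp only [not_or] at c
    obtain ⟨c1, c2, c3, c4, c5, c6, c7, c8, c9⟩ := c
    have w : ∀ s : V, (s = p ∨ s = u ∨ s = q ∨ s = u') → v ≠ s := by
      rintro s (rfl | rfl | rfl | rfl) <;> assumption
    rcases hall v hv c2 c3 (w _ fa.1) (w _ fa.2) (w _ fb.1) (w _ fb.2) c6 c8 c1 with t | t
    · exact c4 (bet_uniq k na nb' hpq ya yb ya1 ya2 yb1 yb2 yq yz c2 c3 (w _ fa.1) (w _ fa.2)
        (w _ fb.1) (w _ fb.2) c8 c1 pa pb qa qb h t)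
    · exact c5 (bet_uniq k na nb' (bet_sym hpq) ya' yb' ya1' ya2' yb1' yb2' yp' yz' c2 c3 (w _ fa.1)
        (w _ fa.2) (w _ fb.1) (w _ fb.2) c6 c1 qa qb pa pb h' t)
  · obtain ⟨u, e1, e2, e3, uq, h1, h2⟩ := id h
    obtain ⟨s, hs⟩ : ∃ s, ∀ v, v ≠ p → v ≠ u → v ≠ s → v ≠ a1 ∧ v ≠ a2 := by
      rcases h1 with rfl | rfl | rfl | rfl
      exacts [⟨a2, fun v c1 c2 c3 => ⟨c1, c3⟩⟩, ⟨a2, fun v c1 c2 c3 => ⟨c2, c3⟩⟩,
        ⟨a1, fun v c1 c2 c3 => ⟨c3, c1⟩⟩, ⟨a1, fun v c1 c2 c3 => ⟨c3, c2⟩⟩]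
    obtain ⟨t, ht⟩ : ∃ s, ∀ v, v ≠ p → v ≠ u → v ≠ s → v ≠ b1 ∧ v ≠ b2 := by
      rcases h2 with rfl | rfl | rfl | rfl
      exacts [⟨b2, fun v c1 c2 c3 => ⟨c1, c3⟩⟩, ⟨b2, fun v c1 c2 c3 => ⟨c2, c3⟩⟩,
        ⟨b1, fun v c1 c2 c3 => ⟨c3, c1⟩⟩, ⟨b1, fun v c1 c2 c3 => ⟨c3, c2⟩⟩]
    refine bet_nine z a b y p u q s t fun v hv => ?_
    by_contra c
    simp only [not_or] at c
    obtain ⟨c1, c2, c3, c4, c5, c6, c7, c8, c9⟩ := c
    have w1 := hs v c5 c6 c8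
    have w2 := ht v c5 c6 c9
    rcases hall v hv c2 c3 w1.1 w1.2 w2.1 w2.2 c5 c7 c1 with r | r
    · exact c4 (bet_uniq k na nb' hpq ya yb ya1 ya2 yb1 yb2 yq yz c2 c3 w1.1 w1.2 w2.1 w2.2 c7 c1
        pa pb qa qb h r)
    · exact ex ⟨v, c2, c3, w1.1, w1.2, w2.1, w2.2, c5, c7, c1, Ne.symm c4, r⟩

theorem bet : StBet := by
  intro V _ F z a b a1 a2 b1 b2 p q f k hv hi na nb' pa pb qa qb hN
  have hpq : s(p, q) ∈ F.D := SG.N_sub f (by rw [hN]; simp)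
  have hall : ∀ y ∈ F.S, y ≠ a → y ≠ b → y ≠ a1 → y ≠ a2 → y ≠ b1 → y ≠ b2 → y ≠ p → y ≠ q → y ≠ z →
      BetG F a1 a2 b1 b2 p q y ∨ BetG F a1 a2 b1 b2 q p y :=
    fun y hy ya yb ya1 ya2 yb1 yb2 yp yq yz =>
      bet_out k hv hi na nb' hN hy ya yb ya1 ya2 yb1 yb2 yp yq yz pa pb qa qb
  by_contra c
  refine c (bet_nine z a b a1 a2 b1 b2 p q fun v hv => ?_)
  by_contra c'
  simp only [not_or] at c'
  obtain ⟨c1, c2, c3, c4, c5, c6, c7, c8, c9⟩ := c'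
  rcases hall v hv c2 c3 c4 c5 c6 c7 c8 c9 c1 with t | t
  · exact c (bet_count k na nb' hpq pa pb qa qb hall c2 c3 c4 c5 c6 c7 c8 c9 c1 t)
  · exact c (bet_count k na nb' (bet_sym hpq) qa qb pa pb
      (fun y hy h1 h2 h3 h4 h5 h6 h7 h8 h9 => (hall y hy h1 h2 h3 h4 h5 h6 h8 h7 h9).symm)
      c2 c3 c4 c5 c6 c7 c9 c8 c1 t)

end Pool.Agent.Lib.MP_d7353d_co.T
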