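import Pool.Agent.Lib.MP_d7353d_co.TChain

/-! A Bixby type lemma for prime graphs. -/

namespace Pool.Agent.Lib.MP_d7353d_co.T

set_option linter.unusedSectionVars false
set_option linter.unusedSimpArgs false

variable {V : Type} [DecidableEq V] {S : Finset V} {G : Gr V}

/-- the equations of a split -/
def SW (G : Gr V) (S : Finset V) (f φ : V → Bool) : Prop :=
  ∀ a ∈ S, ∀ b ∈ S, f a = true → f b = false → G a b = (φ a && φ b)

theorem SW.not (hG : Sy G) {f φ : V → Bool} (h : SW G S f φ) : SW G S (fun t => !f t) φ :=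
  fun a ha b hb fa fb => by
    rw [hG.1, h b hb a ha (by simpa using fb) (by simpa using fa), Bool.and_comm]

theorem Split.not (hG : Sy G) {f : V → Bool} (h : Split G S f) : Split G S fun t => !f t := by
  obtain ⟨h1, h2, φ, h3⟩ := h
  exact ⟨by rwa [nc_not], by rwa [nc_not], φ, SW.not hG h3⟩

theorem bx_rank (hP : Prime G S) {v : V} (hv : v ∈ S) {f g φ ψ : V → Bool}
    (s1 : SW G (S.erase v) f φ) (s2 : SW (lc G v) (S.erase v) g ψ) {a0 a1 q : V}
    (m0 : a0 ∈ S.erase v) (m1 : a1 ∈ S.erase v) (ne : a0 ≠ a1) (f0 : f a0 = true) (g0 : g a0 = true)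
    (f1 : f a1 = true) (g1 : g a1 = true) (mq : q ∈ S.erase v) (fq : f q = false) :
    ∃ a ∈ S.erase v, ∃ b ∈ S.erase v, f a = true ∧ g a = true ∧ f b = true ∧ g b = true ∧
      (φ a || ψ a || G a v) = true ∧ (φ b || ψ b || G b v) = true ∧
      ((φ a ^^ φ b) || (ψ a ^^ ψ b) || (G a v ^^ G b v)) = true := by
  by_contra k
  obtain ⟨c, hc⟩ : ∃ c, ∀ a ∈ S.erase v, f a = true → g a = true → (φ a || ψ a || G a v) = true →
      φ a = φ c ∧ ψ a = ψ c ∧ G a v = G c v := by
    by_cases e : ∃ c ∈ S.erase v, f c = true ∧ g c = true ∧ (φ c || ψ c || G c v) = true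
    · obtain ⟨c, mc, fc, gc, nz⟩ := e
      refine ⟨c, fun a ma fa ga na => ?_⟩
      have : ¬ ((φ a ^^ φ c) || (ψ a ^^ ψ c) || (G a v ^^ G c v)) = true := fun z =>
        k ⟨a, ma, c, mc, fa, ga, fc, gc, na, nz, z⟩
      revert this
      cases φ a <;> cases φ c <;> cases ψ a <;> cases ψ c <;> cases G a v <;> cases G c v <;> simp
    · exact ⟨v, fun a ma fa ga na => absurd ⟨a, ma, fa, ga, na⟩ e⟩
  have n0 := Finset.mem_erase.1 m0
  have n1 := Finset.mem_erase.1 m1
  have nq := Finset.mem_erase.1 mq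
  refine hP (fun t => !decide (t = v) && f t && g t)
    ⟨two_le_nc.2 ⟨a0, n0.2, a1, n1.2, ne, by simp [n0.1, f0, g0], by simp [n1.1, f1, g1]⟩,
    two_le_nc.2 ⟨v, hv, q, nq.2, nq.1.symm, by simp, by simp [fq]⟩,
    fun t => if t = v then G c v else if f t = false then φ c && φ t else
      if g t = false then (ψ c && ψ t) ^^ (G c v && G v t) else (φ t || ψ t || G t v), ?_⟩
  intro a ha b hb fa fb
  simp only [Bool.and_eq_true, Bool.not_eq_true', decide_eq_false_iff_not] at fa
  obtain ⟨⟨av, fa⟩, ga⟩ := fa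
  have ma : a ∈ S.erase v := Finset.mem_erase.2 ⟨av, ha⟩
  have h1 := hc a ma fa ga
  simp only [av, fa, ga, if_false, Bool.true_eq_false]
  by_cases bv : b = v
  · simp only [bv, if_true]
    revert h1
    cases φ a <;> cases φ c <;> cases ψ a <;> cases ψ c <;> cases G a v <;> cases G c v <;> simp
  have mb : b ∈ S.erase v := Finset.mem_erase.2 ⟨bv, hb⟩
  cases e : f b
  · simp only [bv, if_true, if_false, s1 a ma b mb fa e]
    revert h1
    cases φ a <;> cases φ c <;> cases ψ a <;> cases ψ c <;> cases G a v <;> cases G c v <;> simp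
  · have gb : g b = false := by simpa [bv, e] using fb
    have ab : a ≠ b := fun z => by simp [← z, ga] at gb
    have h2 := s2 a ma b mb ga gb
    rw [ch_lc G v ab] at h2
    simp only [bv, gb, if_true, if_false, Bool.true_eq_false]
    revert h1 h2
    cases φ a <;> cases φ c <;> cases ψ a <;> cases ψ c <;> cases G a v <;> cases G c v <;>
      cases G a b <;> cases ψ b <;> cases G v b <;> simp

theorem bx_dec : ∀ a1 a2 a3 b1 b2 b3 c1 c2 c3 d1 d2 d3 : Bool, (a1 || a2 || a3) = true →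
    (b1 || b2 || b3) = true → ((a1 ^^ b1) || (a2 ^^ b2) || (a3 ^^ b3)) = true →
    (c1 || c2 || c3) = true → (d1 || d2 || d3) = true →
    ((c1 ^^ d1) || (c2 ^^ d2) || (c3 ^^ d3)) = true →
    ((a1 && c1) ^^ (a3 && c3)) = (a2 && c2) → ((a1 && d1) ^^ (a3 && d3)) = (a2 && d2) →
    ((b1 && c1) ^^ (b3 && c3)) = (b2 && c2) → ((b1 && d1) ^^ (b3 && d3)) = (b2 && d2) → False := by
  decide

theorem bx_corner (hG : Sy G) (hP : Prime G S) {v : V} (hv : v ∈ S) {f g : V → Bool}
    (s1 : Split G (S.erase v) f) (s2 : Split (lc G v) (S.erase v) g) :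
    nc (S.erase v) (fun t => f t && g t) true ≤ 1 ∨
      nc (S.erase v) (fun t => !f t && !g t) true ≤ 1 := by
  by_contra k
  simp only [not_or, not_le, Nat.lt_iff_add_one_le] at k
  obtain ⟨a0, m0, a1, m1, ne, e0, e1⟩ := two_le_nc.1 k.1
  obtain ⟨b0, n0, b1, n1, ne', e2, e3⟩ := two_le_nc.1 k.2
  simp only [Bool.and_eq_true] at e0 e1 e2 e3
  obtain ⟨-, -, φ, h1⟩ := s1
  obtain ⟨-, -, ψ, h2⟩ := s2
  obtain ⟨a, ma, b, mb, fa, ga, fb, gb, x1, x2, x3⟩ :=
    bx_rank hP hv h1 h2 m0 m1 ne e0.1 e0.2 e1.1 e1.2 n0 (by simpa using e2.1)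
  obtain ⟨c, mc, d, md, fc, gc, fd, gd, y1, y2, y3⟩ :=
    bx_rank hP hv (SW.not hG h1) (SW.not (hG.lc v) h2) n0 n1 ne' e2.1 e2.2 e3.1 e3.2 m0
      (by simp [e0.1])
  simp only [Bool.not_eq_true'] at fc gc fd gd
  have o : ∀ p ∈ S.erase v, ∀ q ∈ S.erase v, f p = true → g p = true → f q = false → g q = false →
      ((φ p && φ q) ^^ (G p v && G q v)) = (ψ p && ψ q) := fun p mp q mq f1 g1 f2 g2 => by
    have pq : p ≠ q := fun z => by simp [← z, f1] at f2
    rw [← h2 p mp q mq g1 g2, ch_lc G v pq, h1 p mp q mq f1 f2, hG.1 v q]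
  exact bx_dec _ _ _ _ _ _ _ _ _ _ _ _ x1 x2 x3 y1 y2 y3 (o a ma c mc fa ga fc gc)
    (o a ma d md fa ga fd gd) (o b mb c mc fb gb fc gc) (o b mb d md fb gb fd gd)

theorem bx_le (T : Finset V) {p q r : V → Bool} {b : Bool}
    (h : ∀ t, p t = b → q t = true ∨ r t = true) : nc T p b ≤ nc T q true + nc T r true := by
  unfold nc
  refine le_trans (Finset.card_le_card fun t ht => ?_) (Finset.card_union_le _ _)
  simp only [Finset.mem_filter, Finset.mem_union] at ht ⊢
  exact (h t ht.2).imp (fun e => ⟨ht.1, e⟩) fun e => ⟨ht.1, e⟩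

theorem bixG : StBixG := by
  intro V _ G S v f g hG hP hv s1 s2
  have c1 := bx_corner hG hP hv s1 s2
  have c2 := bx_corner hG hP hv s1 (s2.not (hG.lc v))
  obtain ⟨a1, a2, -⟩ := s1
  obtain ⟨a3, a4, -⟩ := s2
  rcases c1 with c1 | c1 <;> rcases c2 with c2 | c2
  · have := bx_le (S.erase v) (p := f) (b := true) (q := fun t => f t && g t)
      (r := fun t => f t && !g t) fun t => by cases f t <;> cases g t <;> simp
    exact Or.inl ⟨true, by omega⟩
  · have := bx_le (S.erase v) (p := g) (b := true) (q := fun t => f t && g t)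
      (r := fun t => !f t && !!g t) fun t => by cases f t <;> cases g t <;> simp
    exact Or.inr ⟨true, by omega⟩
  · have := bx_le (S.erase v) (p := g) (b := false) (q := fun t => !f t && !g t)
      (r := fun t => f t && !g t) fun t => by cases f t <;> cases g t <;> simp
    exact Or.inr ⟨false, by omega⟩
  · have := bx_le (S.erase v) (p := f) (b := false) (q := fun t => !f t && !g t)
      (r := fun t => !f t && !!g t) fun t => by cases f t <;> cases g t <;> simp
    exact Or.inl ⟨false, by omega⟩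

end Pool.Agent.Lib.MP_d7353d_co.T
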