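import Pool.Agent.Lib.MP_d7353d_co.TCt

/-! Two odd triangles at a transition that is not big. -/

namespace Pool.Agent.Lib.MP_d7353d_co.T

set_option linter.unusedSectionVars false
set_option linter.unusedSimpArgs false

variable {V : Type} [DecidableEq V]

/-- the cut of a triangle -/
theorem bow_cut3 {F : SG V} (k : F.Ok) {a b w : V} (ab : s(a, b) ∈ F.D) (aw : s(a, w) ∈ F.D)
    (bw : s(b, w) ∈ F.D) : (F.X (tg (tg (tg (fun _ => false) a) b) w)).card ≤ 6 := by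
  have n1 := (k.ins _ _ ab).2.2
  have n2 := (k.ins _ _ aw).2.2
  have n3 := (k.ins _ _ bw).2.2
  obtain ⟨p1, p2, na⟩ := k.nb2 ab aw n3
  obtain ⟨q1, q2, nb⟩ := k.nb2 (y := b) (a := a) (b := w) (Sym2.eq_swap ▸ ab) bw n2
  obtain ⟨r1, r2, nw⟩ := k.nb2 (y := w) (a := a) (b := b) (Sym2.eq_swap ▸ aw) (Sym2.eq_swap ▸ bw) n1
  have e0 : (F.X fun _ => false).card = 0 := by
    rw [Finset.card_eq_zero]
    ext e
    induction e using Sym2.ind with
    | _ u v => simp [SG.mem_X]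
  have c1 := na.card_X_tg k fun _ => false
  have c2 := nb.card_X_tg k (tg (fun _ => false) a)
  have c3 := nw.card_X_tg k (tg (tg (fun _ => false) a) b)
  have t1 : (if tg (fun _ => false) a b = tg (fun _ => false) a a then 0 else 1) = 1 := by
    simp [tg, n1.symm]
  have t2 : (if tg (tg (fun _ => false) a) b w = tg (tg (fun _ => false) a) b a then 0 else 1) = 1 := by
    simp [tg, n1, n2.symm, n3.symm]
  have t3 : (if tg (tg (fun _ => false) a) b w = tg (tg (fun _ => false) a) b b then 0 else 1) = 1 := by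
    simp [tg, n1.symm, n2.symm, n3.symm]
  rw [t1] at c2
  rw [t2, t3] at c3
  omega

theorem bow_nc {F : SG V} (k : F.Ok) (h10 : 10 ≤ F.S.card) {z a b c d : V} (nz : F.Nb z a b c d)
    (hn : F.NB z a b c d) (ab : s(a, b) ∈ F.D) {w : V} (aw : s(a, w) ∈ F.D) (bw : s(b, w) ∈ F.D) :
    w = z := by
  by_contra hw
  have c3 := bow_cut3 k ab aw bw
  obtain ⟨mz, ma, mb, mc, md, z1, z2, z3, z4⟩ := nz.mem k
  obtain ⟨w1, w2, w3, w4, w5, w6, -⟩ := id nz
  obtain ⟨-, mw, n2⟩ := k.ins _ _ aw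
  have n3 := (k.ins _ _ bw).2.2
  set g := tg (tg (tg (fun _ => false) a) b) w with hg
  have gv : ∀ v, g v = true ↔ v = a ∨ v = b ∨ v = w := fun v => by
    simp only [hg, tg]
    by_cases h1 : v = w
    · simp [h1, n2.symm, n3.symm]
    · by_cases h2 : v = b
      · simp [h2, n3, w1.symm]
      · by_cases h3 : v = a <;> simp [h1, h2, h3, n2, w1]
  have gf : ∀ v, v ≠ a → v ≠ b → v ≠ w → g v = false := fun v h1 h2 h3 => by
    have := gv v
    cases e : g v
    · rfl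
    · rw [e] at this; tauto
  have ga : g a = true := (gv a).2 (by simp)
  have gb : g b = true := (gv b).2 (by simp)
  have gw : g w = true := (gv w).2 (by simp)
  have gz : g z = false := gf z z1 z2 (Ne.symm hw)
  by_cases hcd : w = c ∨ w = d
  · have t := nz.card_X_tg k g
    have t4 : (F.X (tg g z)).card ≤ 4 := by
      rcases hcd with e | e
      · rw [← e] at t
        simp only [gz, ga, gb, gw, Bool.false_eq_true, if_false] at t
        omega
      · rw [← e] at t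
        simp only [gz, ga, gb, gw, Bool.false_eq_true, if_false] at t
        omega
    have s := nc_add F.S (tg g z)
    have s1 : nc F.S (tg g z) true ≤ 4 := by
      refine le_trans (Finset.card_le_card (t := {z, a, b, w}) fun v hv => ?_) Finset.card_le_four
      have hv' := (Finset.mem_filter.1 hv).2
      by_cases e : v = z
      · simp [e]
      · rw [tg_ne g e, gv] at hv'
        simp only [Finset.mem_insert, Finset.mem_singleton]
        tauto
    have := k.c6 (tg g z) (two_le_nc.2 ⟨a, ma, b, mb, w1, by rw [tg_ne g z1.symm, ga],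
      by rw [tg_ne g z2.symm, gb]⟩) (by omega)
    omega
  · rw [not_or] at hcd
    rcases hn g gz ga gb (gf c w2.symm w4.symm (Ne.symm hcd.1)) (gf d w3.symm w5.symm (Ne.symm hcd.2))
      c3 with t | t
    · rcases t w mw gw with e | e
      · exact n2 e.symm
      · exact n3 e.symm
    · have : F.S ⊆ {a, b, w} ∪ {z, c, d} := fun v hv => by
        simp only [Finset.mem_union, Finset.mem_insert, Finset.mem_singleton]
        cases e : g v
        · exact Or.inr (t v hv e)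
        · exact Or.inl ((gv v).1 e)
      have h1 := Finset.card_le_card this
      have h2 := Finset.card_union_le ({a, b, w} : Finset V) {z, c, d}
      have h3 : ({a, b, w} : Finset V).card ≤ 3 := Finset.card_le_three
      have h4 : ({z, c, d} : Finset V).card ≤ 3 := Finset.card_le_three
      omega

theorem bow_half {F : SG V} (k : F.Ok) (hv : F.Hv) (hi : F.Info) {z a b c d : V} (nz : F.Nb z a b c d)
    (o1 : F.OddT z a b) (o2 : F.OddT z c d) (hc : ∀ w, s(a, w) ∈ F.D → s(b, w) ∈ F.D → w = z) :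
    (∃ z' a' b' c' d', F.Nb z' a' b' c' d' ∧ F.OddT z' a' b' ∧ F.Tri z' a' b' c' d') ∨
    ∃ f a', (F.N f).card = 4 ∧ s(a, a') ∈ F.N f ∧ a' ≠ z ∧ a' ≠ b ∧ s(a, b) ∈ F.N f ∧
      s(c, d) ∈ F.N f ∧ ∀ w, w ≠ a → s(b, w) ∉ F.N f := by
  obtain ⟨za, zb, zc, zd⟩ := nz.adj
  obtain ⟨-, -, -, -, -, z1, z2, z3, z4⟩ := nz.mem k
  obtain ⟨w1, w2, w3, w4, w5, w6, -⟩ := id nz
  obtain ⟨a1, a2, na, hn⟩ : ∃ a1 a2, F.Nb a z b a1 a2 ∧ F.NB a z a1 a2 b := by
    obtain ⟨a1, a2, na⟩ := k.nb2 (y := a) (a := z) (b := b) (Sym2.eq_swap ▸ za) o1.1 z2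
    rcases bix V F a z a1 a2 b k na.s23.s34 with h | h
    · exact ⟨a1, a2, na, h⟩
    · exact ⟨a2, a1, na.s34, h⟩
  obtain ⟨b1, b2, nb⟩ := k.nb2 (y := b) (a := z) (b := a) (Sym2.eq_swap ▸ zb) (Sym2.eq_swap ▸ o1.1) z1
  obtain ⟨az, ab, aa1, aa2⟩ := na.adj
  obtain ⟨u1, u2, u3, u4, u5, u6, -⟩ := id na
  have no : ¬ F.OddT a a2 b := fun h => u3 (hc a2 aa2 (Sym2.eq_swap ▸ h.1)).symm
  obtain ⟨i1, i2⟩ := hi a z a1 a2 b na.s23.s34 hn no
  by_cases o3 : F.OddT a z a1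
  · exact Or.inl ⟨a, z, a1, a2, b, na.s23.s34, o3, i2 o3⟩
  obtain ⟨f0, -, f1, f2, f3, f4, c4⟩ := (i1 o3).sw k hv na.s23.s34
  have g1 : s(z, a) ∉ F.N (tg f0 a) := fun h => (SG.mem_N_tg' k az).1 (Sym2.eq_swap ▸ h) f1
  have g2 : s(a, a1) ∉ F.N (tg f0 a) := fun h => (SG.mem_N_tg' k aa1).1 h f2
  have g3 : s(a, a2) ∈ F.N (tg f0 a) := (SG.mem_N_tg' k aa2).2 f3
  have g4 : s(a, b) ∈ F.N (tg f0 a) := (SG.mem_N_tg' k ab).2 f4
  generalize tg f0 a = f at c4 g1 g2 g3 g4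
  have p1 := o1.par za zb f
  have p2 := o2.par zc zd f
  have g5 : s(z, b) ∉ F.N f := fun h => g1 (p1.2 ⟨fun _ => g4, fun _ => h⟩)
  have cnt := SG.cardT k nz na nb (SG.N_sub f)
  simp only [g1, g2, g3, g4, g5, if_true, if_false, c4] at cnt
  by_cases h : s(z, c) ∈ F.N f ∨ s(z, d) ∈ F.N f
  · refine Or.inl ⟨b, z, a, b1, b2, nb, ?_, f, ?_⟩
    · refine SG.oddT_of (f := f) (Sym2.eq_swap ▸ zb) (Sym2.eq_swap ▸ ab) za ?_
      rw [Sym2.eq_swap (a := b) (b := z), Sym2.eq_swap (a := b) (b := a)]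
      exact ⟨fun h => absurd h g5, fun h => absurd (h.1 g4) g1⟩
    · have e : ((F.N f).filter fun e => b ∉ e ∧ z ∉ e ∧ a ∉ e) =
          (F.N f).filter fun e => z ∉ e ∧ a ∉ e ∧ b ∉ e := by
        exact Finset.filter_congr fun x _ => ⟨fun h => ⟨h.2.1, h.2.2, h.1⟩, fun h => ⟨h.2.2, h.1, h.2.1⟩⟩
      rw [e]
      by_cases e1 : s(z, c) ∈ F.N f <;> by_cases e2 : s(z, d) ∈ F.N f <;>
        by_cases e3 : s(b, b1) ∈ F.N f <;> by_cases e4 : s(b, b2) ∈ F.N f <;>
        simp only [e1, e2, e3, e4, if_true, if_false, or_self, iff_true, iff_false, not_true,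
          not_false_eq_true, iff_self] at cnt h ⊢ <;> omega
  rw [not_or] at h
  have g6 : s(c, d) ∈ F.N f := by
    by_contra e
    exact h.1 (p2.2 ⟨fun t => absurd t h.2, fun t => absurd t e⟩)
  simp only [h.1, h.2, if_false] at cnt
  by_cases hr : ((F.N f).filter fun e => z ∉ e ∧ a ∉ e ∧ b ∉ e).card ≤ 1
  · refine Or.inl ⟨z, a, b, c, d, nz, o1, f, ?_⟩
    simpa only [h.1, h.2, iff_self, if_true, add_zero] using hr
  refine Or.inr ⟨f, a2, c4, g3, u3.symm, u5.symm, g4, g6, fun w hw e => ?_⟩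
  rcases (nb.2.2.2.2.2.2 w).1 (SG.N_sub f e) with rfl | rfl | rfl | rfl
  · exact g5 (Sym2.eq_swap ▸ e)
  · exact hw rfl
  · simp only [e, if_true] at cnt; omega
  · simp only [e, if_true] at cnt; omega

theorem bow : StBow := by
  intro V _ F z a b c d k hv hi h10 nz hn o1 o2
  have hc : ∀ w, s(a, w) ∈ F.D → s(b, w) ∈ F.D → w = z := fun w => bow_nc k h10 nz hn o1.1
  rcases bow_half k hv hi nz o1 o2 hc with h | ⟨f, a', c1, f1, f2, f3, f4, f5, f6⟩
  · exact h
  rcases bow_half k hv hi nz.s12 o1.symm o2 (fun w h1 h2 => hc w h2 h1) with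
    h | ⟨g, b', c2, g1, g2, g3, g4, g5, g6⟩
  · exact h
  exfalso
  obtain ⟨w1, w2, w3, w4, w5, w6, -⟩ := id nz
  have c3 := SG.card_X_xor (F := F) f g
  have c4 : 2 ≤ (F.N f ∩ F.N g).card := by
    refine Finset.one_lt_card.2 ⟨s(a, b), Finset.mem_inter.2 ⟨f4, Sym2.eq_swap ▸ g4⟩, s(c, d),
      Finset.mem_inter.2 ⟨f5, g5⟩, ?_⟩
    simp [w2, w3]
  have x1 : s(a, a') ∈ F.X fun v => f v ^^ g v := by
    rw [SG.mem_X_xor]; exact fun t => g6 a' f3 (t.1 f1)
  have x2 : s(b, b') ∈ F.X fun v => f v ^^ g v := by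
    rw [SG.mem_X_xor]; exact fun t => f6 b' g3 (t.2 g1)
  generalize (fun v => f v ^^ g v) = u at c3 x1 x2
  rw [SG.mem_X] at x1 x2
  obtain ⟨ma, ma', -⟩ := k.ins _ _ x1.1
  obtain ⟨mb, mb', -⟩ := k.ins _ _ x2.1
  have ne : a' ≠ b' := fun e => f2 (hc a' x1.1 (e ▸ x2.1))
  have two : ∀ t, 2 ≤ nc F.S u t := fun t => by
    have y1 : u a = t ∨ u a' = t := by
      have := x1.2; revert this; cases u a <;> cases u a' <;> cases t <;> simp
    have y2 : u b = t ∨ u b' = t := by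
      have := x2.2; revert this; cases u b <;> cases u b' <;> cases t <;> simp
    rcases y1 with y1 | y1 <;> rcases y2 with y2 | y2
    · exact two_le_nc.2 ⟨a, ma, b, mb, w1, y1, y2⟩
    · exact two_le_nc.2 ⟨a, ma, b', mb', g3.symm, y1, y2⟩
    · exact two_le_nc.2 ⟨a', ma', b, mb, f3, y1, y2⟩
    · exact two_le_nc.2 ⟨a', ma', b', mb', ne, y1, y2⟩
  have := k.c6 u (two true) (two false)
  omega

end Pool.Agent.Lib.MP_d7353d_co.T
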