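import Pool.Agent.Lib.MP_d7353d_co.TS2

/-! The chain theorem for prime graphs. -/

namespace Pool.Agent.Lib.MP_d7353d_co.T

set_option linter.unusedSectionVars false
set_option linter.unusedSimpArgs false

variable {V : Type} [DecidableEq V] {S : Finset V} {G : Gr V}

theorem ch_lc (G : Gr V) (y : V) {s t : V} (h : s ≠ t) :
    lc G y s t = (G s t ^^ (G s y && G y t)) := if_neg h

theorem ch_split (hG : Sy G) {f : V → Bool} (h : Split G S f) {y : V} (hy : y ∈ S) :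
    Split (lc G y) S f := by
  obtain ⟨h1, h2, φ, h3⟩ := h
  refine ⟨h1, h2, fun a => if f a = f y then φ a ^^ (G a y && φ y) else φ a, ?_⟩
  intro a ha b hb fa fb
  have ab : a ≠ b := fun e => by simp [e, fb] at fa
  rw [ch_lc G y ab, h3 a ha b hb fa fb]
  cases fy : f y
  · simp only [fa, fb, h3 a ha y hy fa fy, hG.1 y b, if_true, Bool.true_eq_false, if_false]
    cases φ a <;> cases φ b <;> cases φ y <;> cases G b y <;> rfl
  · simp only [fa, fb, h3 y hy b hb fy fb, if_true, Bool.false_eq_true, if_false]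
    cases φ a <;> cases φ b <;> cases φ y <;> cases G a y <;> rfl

theorem ch_prime (hG : Sy G) (h : Prime G S) {y : V} (hy : y ∈ S) : Prime (lc G y) S := fun f k => by
  have := ch_split (hG.lc y) k hy
  rw [lc_lc hG] at this
  exact h f this

theorem ch_dep (h : Prime G S) (hc : 4 ≤ S.card) {a b : V} (ha : a ∈ S) (hb : b ∈ S) (ab : a ≠ b)
    {α β : Bool} (h0 : (α || β) = true)
    (hd : ∀ t ∈ S, t ≠ a → t ≠ b → (α && G a t) = (β && G b t)) : False := by
  have n1 : nc S (fun v => decide (v = a ∨ v = b)) true = 2 := by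
    rw [nc, ← Finset.card_pair ab]
    congr 1
    ext v
    simp only [Finset.mem_filter, decide_eq_true_eq, Finset.mem_insert, Finset.mem_singleton]
    exact ⟨fun k => k.2, fun k => ⟨k.elim (· ▸ ha) (· ▸ hb), k⟩⟩
  have n2 := nc_add S (fun v => decide (v = a ∨ v = b))
  refine h (fun v => decide (v = a ∨ v = b)) ⟨by omega, by omega,
    fun v => if v = a then β else if v = b then α else (G a v || G b v), ?_⟩
  intro x _ t ht fx ft
  simp only [decide_eq_true_eq, decide_eq_false_iff_not, not_or] at fx ft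
  have := hd t ht ft.1 ft.2
  rcases fx with rfl | rfl
  · simp only [if_true, ft.1, ft.2, if_false]
    revert this h0
    cases α <;> cases β <;> cases G x t <;> cases G b t <;> simp
  · simp only [if_true, ft.1, ft.2, if_false, ab.symm]
    revert this h0
    cases α <;> cases β <;> cases G x t <;> cases G a t <;> simp

/-- a split of the deletion with a side of two vertices -/
def Sm (S : Finset V) (G : Gr V) (v : V) : Prop :=
  ∃ f b, Split G (S.erase v) f ∧ nc (S.erase v) f b = 2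

theorem Sm.dep (hG : Sy G) {v : V} (h : Sm S G v) : ∃ a ∈ S, ∃ b ∈ S, a ≠ v ∧ b ≠ v ∧ a ≠ b ∧
    ∃ α β : Bool, (α || β) = true ∧
      ∀ t ∈ S, t ≠ v → t ≠ a → t ≠ b → (α && G a t) = (β && G b t) := by
  obtain ⟨f, c, ⟨-, -, φ, h3⟩, h4⟩ := h
  obtain ⟨a, b, ab, e⟩ := Finset.card_eq_two.1 h4
  have m : ∀ t, (t ∈ S.erase v ∧ f t = c) ↔ t = a ∨ t = b := fun t => by
    rw [← Finset.mem_filter (p := fun v => f v = c), e]; simp
  have ma := (m a).2 (Or.inl rfl)
  have mb := (m b).2 (Or.inr rfl)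
  have k : ∀ x, x ∈ S.erase v ∧ f x = c → ∀ t ∈ S, t ≠ v → t ≠ a → t ≠ b → G x t = (φ x && φ t) := by
    intro x hx t ht t1 t2 t3
    have mt : t ∈ S.erase v := Finset.mem_erase.2 ⟨t1, ht⟩
    have ft : f t ≠ c := fun z => ((m t).1 ⟨mt, z⟩).elim t2 t3
    cases c
    · rw [hG.1, h3 t mt x hx.1 (by simpa using ft) hx.2, Bool.and_comm]
    · exact h3 x hx.1 t mt hx.2 (by simpa using ft)
  refine ⟨a, Finset.mem_of_mem_erase ma.1, b, Finset.mem_of_mem_erase mb.1,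
    Finset.ne_of_mem_erase ma.1, Finset.ne_of_mem_erase mb.1, ab, φ b || !φ a, φ a,
    by cases φ a <;> simp, fun t ht t1 t2 t3 => ?_⟩
  rw [k a ma t ht t1 t2 t3, k b mb t ht t1 t2 t3]
  cases φ a <;> cases φ b <;> cases φ t <;> rfl

theorem Sm.lc (hG : Sy G) {v y : V} (h : Sm S G v) (hy : y ∈ S) (e : y ≠ v) : Sm S (lc G y) v := by
  obtain ⟨f, c, h1, h2⟩ := h
  exact ⟨f, c, ch_split hG h1 (Finset.mem_erase.2 ⟨e, hy⟩), h2⟩

/-- a counterexample -/
structure Bad (S : Finset V) (G : Gr V) : Prop where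
  sy : Sy G
  pr : Prime G S
  c6 : 6 ≤ S.card
  no : ∀ H, LE S G H → ∀ x ∈ S, ¬ Prime H (S.erase x)

theorem Bad.lc (h : Bad S G) {y : V} (hy : y ∈ S) : Bad S (lc G y) :=
  ⟨h.sy.lc y, ch_prime h.sy h.pr hy, h.c6, fun H k => h.no H ((LE.one G hy).trans k)⟩

theorem Bad.dep (h : Bad S G) {a b : V} (ha : a ∈ S) (hb : b ∈ S) (ab : a ≠ b)
    {α β : Bool} (h0 : (α || β) = true)
    (hd : ∀ t ∈ S, t ≠ a → t ≠ b → (α && G a t) = (β && G b t)) : False :=
  ch_dep h.pr (by have := h.c6; omega) ha hb ab h0 hd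

theorem Bad.deg (h : Bad S G) {a b : V} (ha : a ∈ S) (hb : b ∈ S) (ab : a ≠ b) :
    ∃ t ∈ S, t ≠ a ∧ t ≠ b ∧ G a t = true := by
  by_contra k
  refine h.dep ha hb ab (α := true) (β := false) rfl fun t ht t1 t2 => ?_
  cases e : G a t
  · rfl
  · exact absurd ⟨t, ht, t1, t2, e⟩ k

theorem Bad.sm (hb : StBixG) (h : Bad S G) {v : V} (hv : v ∈ S) : Sm S G v ∨ Sm S (T.lc G v) v := by
  have h1 := h.no G .refl v hv
  have h2 := h.no _ (LE.one G hv) v hv
  simp only [Prime, not_forall, not_not] at h1 h2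
  obtain ⟨f, h1⟩ := h1
  obtain ⟨g, h2⟩ := h2
  rcases hb V G S v f g h.sy h.pr hv h1 h2 with ⟨b, e⟩ | ⟨b, e⟩
  · exact Or.inl ⟨f, b, h1, e⟩
  · exact Or.inr ⟨g, b, h2, e⟩

/-- a vertex of degree two -/
structure N2 (S : Finset V) (G : Gr V) (u v w : V) : Prop where
  mu : u ∈ S
  mv : v ∈ S
  mw : w ∈ S
  uv : u ≠ v
  uw : u ≠ w
  vw : v ≠ w
  ev : G u v = true
  ew : G u w = true
  no : ∀ t ∈ S, t ≠ v → t ≠ w → G u t = false

theorem Bad.n2 (h : Bad S G) {u v w : V} (mu : u ∈ S) (mv : v ∈ S) (mw : w ∈ S) (uv : u ≠ v)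
    (uw : u ≠ w) (vw : v ≠ w) (no : ∀ t ∈ S, t ≠ u → t ≠ v → t ≠ w → G u t = false) :
    N2 S G u v w := by
  refine ⟨mu, mv, mw, uv, uw, vw, ?_, ?_, fun t ht t1 t2 => ?_⟩
  · obtain ⟨t, ht, t1, t2, e⟩ := h.deg mu mw uw
    by_cases k : t = v
    · exact k ▸ e
    · simp [no t ht t1 k t2] at e
  · obtain ⟨t, ht, t1, t2, e⟩ := h.deg mu mv uv
    by_cases k : t = w
    · exact k ▸ e
    · simp [no t ht t1 t2 k] at e
  · by_cases k : t = u
    · rw [k, h.sy.2]
    · exact no t ht k t1 t2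

theorem N2.iff {u v w : V} (n : N2 S G u v w) : ∀ t ∈ S, G u t = true ↔ t = v ∨ t = w := by
  intro t ht
  refine ⟨fun e => ?_, fun e => e.elim (· ▸ n.ev) (· ▸ n.ew)⟩
  by_contra k
  rw [not_or] at k
  simp [n.no t ht k.1 k.2] at e

theorem N2.self (hG : Sy G) {u v w : V} (n : N2 S G u v w) : N2 S (lc G u) u v w :=
  ⟨n.mu, n.mv, n.mw, n.uv, n.uw, n.vw, by rw [lc_left hG, n.ev], by rw [lc_left hG, n.ew],
    fun t ht t1 t2 => by rw [lc_left hG, n.no t ht t1 t2]⟩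

theorem N2.far (hG : Sy G) {u v w c : V} (n : N2 S G u v w) (e : G u c = false) :
    N2 S (lc G c) u v w := by
  have k : ∀ t, lc G c u t = G u t := fun t => by
    by_cases z : u = t
    · rw [← z, (hG.lc c).2, hG.2]
    · simp [ch_lc G c z, e]
  exact ⟨n.mu, n.mv, n.mw, n.uv, n.uw, n.vw, by rw [k, n.ev], by rw [k, n.ew],
    fun t ht t1 t2 => by rw [k, n.no t ht t1 t2]⟩

/-- near twins give a vertex of degree two -/
theorem Bad.tw1 (h : Bad S G) {v a b : V} (mv : v ∈ S) (ma : a ∈ S) (mb : b ∈ S) (av : a ≠ v)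
    (bv : b ≠ v) (ab : a ≠ b) (e : G a b = true)
    (hd : ∀ t ∈ S, t ≠ v → t ≠ a → t ≠ b → G a t = G b t) : N2 S (T.lc G b) a v b :=
  (h.lc mb).n2 ma mv mb av ab bv.symm fun t ht t1 t2 t3 => by
    simp [ch_lc G b t1.symm, e, hd t ht t2 t1 t3]

theorem ch_tw {a b c t : V} (ea : G a c = true) (eb : G b c = true) (t1 : t ≠ a)
    (t2 : t ≠ b) (e : G a t = G b t) : lc G c a t = lc G c b t := by
  rw [ch_lc G c t1.symm, ch_lc G c t2.symm, ea, eb, e]

theorem Bad.two (hb : StBixG) (h : Bad S G) : ∃ H u v w, Bad S H ∧ N2 S H u v w := by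
  obtain ⟨v, mv⟩ : S.Nonempty := Finset.card_pos.1 (by have := h.c6; omega)
  obtain ⟨H, k, s⟩ : ∃ H, Bad S H ∧ Sm S H v :=
    (h.sm hb mv).elim (fun s => ⟨G, h, s⟩) fun s => ⟨_, h.lc mv, s⟩
  obtain ⟨a, ma, b, mb, av, bv, ab, α, β, h0, hd⟩ := s.dep k.sy
  cases α
  · obtain rfl : β = true := by simpa using h0
    exact ⟨H, b, v, a, k, k.n2 mb mv ma bv ab.symm av.symm fun t ht t1 t2 t3 => by
      simpa using hd t ht t2 t3 t1⟩
  cases β
  · exact ⟨H, a, v, b, k, k.n2 ma mv mb av ab bv.symm fun t ht t1 t2 t3 => by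
      simpa using hd t ht t2 t1 t3⟩
  simp only [Bool.true_and] at hd
  cases e : H a b
  · obtain ⟨c, mc, c1, c2, ec⟩ := k.deg ma mv av
    have c3 : c ≠ b := fun z => by simp [z, e] at ec
    have ec2 : H b c = true := hd c mc c2 c1 c3 ▸ ec
    refine ⟨_, a, v, b, (k.lc mc).lc mb, (k.lc mc).tw1 mv ma mb av bv ab ?_ fun t ht t1 t2 t3 =>
      ch_tw ec ec2 t2 t3 (hd t ht t1 t2 t3)⟩
    simp [ch_lc H c ab, e, ec, k.sy.1 c b, ec2]
  · exact ⟨_, a, v, b, k.lc mb, k.tw1 mv ma mb av bv ab e hd⟩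

theorem Bad.f0 (ht : StThread) (h : Bad S G) {u v w b : V} (n : N2 S G u v w) (mb : b ∈ S)
    (bu : b ≠ u) (bv : b ≠ v) (hd : ∀ t ∈ S, t ≠ v → t ≠ b → t ≠ u → G v t = false) : False := by
  obtain ⟨H, x, hx, k1, k2⟩ := ht V G S u v b w h.sy h.pr h.c6 n.mu n.mv mb n.mw
    (h.n2 n.mv mb n.mu bv.symm n.uv.symm bu hd).iff n.iff
  exact h.no H k1 x hx k2

theorem ch_u (hG : Sy G) {u v w s t : V} (n : N2 S G u v w) (mt : t ∈ S) (t1 : t ≠ v)
    (t2 : t ≠ w) : lc G u s t = G s t := by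
  by_cases z : s = t
  · rw [← z, (hG.lc u).2, hG.2]
  · simp [ch_lc G u z, n.no t mt t1 t2]

theorem ch_vw (hG : Sy G) {u v w : V} (n : N2 S G u v w) : lc G u v w = !G v w := by
  simp [ch_lc G u n.vw, hG.1 v u, n.ev, n.ew]

theorem Bad.f1 (ht : StThread) (h : Bad S G) {u v w b : V} (n : N2 S G u v w) (mb : b ∈ S)
    (bu : b ≠ u) (bv : b ≠ v)
    (hd : ∀ t ∈ S, t ≠ v → t ≠ b → t ≠ u → t ≠ w → G v t = false) : False := by
  cases e : G v w
  · refine h.f0 ht n mb bu bv fun t mt t1 t2 t3 => ?_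
    by_cases z : t = w
    · rw [z, e]
    · exact hd t mt t1 t2 t3 z
  · refine (h.lc n.mu).f0 ht (n.self h.sy) mb bu bv fun t mt t1 t2 t3 => ?_
    by_cases z : t = w
    · rw [z, ch_vw h.sy n, e]; rfl
    · rw [ch_u h.sy n mt t1 z, hd t mt t1 t2 t3 z]

theorem Bad.f2a (ht : StThread) (h : Bad S G) {u v w b : V} (n : N2 S G u v w) (mb : b ∈ S)
    (bu : b ≠ u) (bv : b ≠ v) (bw : b ≠ w) (e : G v b = true)
    (hd : ∀ t ∈ S, t ≠ u → t ≠ v → t ≠ b → G v t = G b t) : False :=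
  (h.lc mb).f0 ht (n.far h.sy (n.no b mb bv bw)) mb bu bv fun t mt _ t2 t3 =>
    (h.tw1 n.mu n.mv mb n.uv.symm bu bv.symm e hd).no t mt t3 t2

theorem Bad.f2b (ht : StThread) (h : Bad S G) {u v w b : V} (n : N2 S G u v w) (mb : b ∈ S)
    (bu : b ≠ u) (bv : b ≠ v) (bw : b ≠ w)
    (hd : ∀ t ∈ S, t ≠ u → t ≠ v → t ≠ b → G v t = G b t) : False := by
  cases e : G v b
  · obtain ⟨c, mc, c1, c2, ec⟩ := h.deg mb n.mw bw
    have c3 : c ≠ v := fun z => by simp [z, h.sy.1 b v, e] at ec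
    have c4 : c ≠ u := fun z => by simp [z, h.sy.1 b u, n.no b mb bv bw] at ec
    have ec2 : G v c = true := (hd c mc c4 c3 c1).symm ▸ ec
    refine (h.lc mc).f2a ht (n.far h.sy (n.no c mc c3 c2)) mb bu bv bw ?_ fun t mt t1 t2 t3 =>
      ch_tw ec2 ec t2 t3 (hd t mt t1 t2 t3)
    simp [ch_lc G c bv.symm, e, ec2, h.sy.1 c b, ec]
  · exact h.f2a ht n mb bu bv bw e hd

theorem Bad.f2 (ht : StThread) (h : Bad S G) {u v w b : V} (n : N2 S G u v w) (mb : b ∈ S)
    (bu : b ≠ u) (bv : b ≠ v) (bw : b ≠ w)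
    (hd : ∀ t ∈ S, t ≠ v → t ≠ b → t ≠ u → t ≠ w → G v t = G b t) : False := by
  by_cases e : G v w = G b w
  · refine h.f2b ht n mb bu bv bw fun t mt t1 t2 t3 => ?_
    by_cases z : t = w
    · rw [z, e]
    · exact hd t mt t2 t3 t1 z
  · refine (h.lc n.mu).f2b ht (n.self h.sy) mb bu bv bw fun t mt t1 t2 t3 => ?_
    by_cases z : t = w
    · rw [z, ch_vw h.sy n, (h.sy.lc u).1 b w, ch_u h.sy n mb bv bw, h.sy.1 w b]
      revert e
      cases G v w <;> cases G b w <;> simp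
    · rw [ch_u h.sy n mt t2 z, ch_u h.sy n mt t2 z, hd t mt t2 t3 t1 z]

theorem Bad.f12 (ht : StThread) (h : Bad S G) {u v w b : V} (n : N2 S G u v w) (mb : b ∈ S)
    (bu : b ≠ u) (bv : b ≠ v) (β : Bool)
    (hd : ∀ t ∈ S, t ≠ v → t ≠ b → t ≠ u → t ≠ w → G v t = (β && G b t)) : False := by
  cases β
  · exact h.f1 ht n mb bu bv hd
  by_cases bw : b = w
  · subst bw
    refine h.dep n.mv mb n.vw (α := true) (β := true) rfl fun t mt t1 t2 => ?_
    by_cases z : t = u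
    · rw [z, h.sy.1 v u, h.sy.1 b u, n.ev, n.ew]
    · rw [hd t mt t1 t2 z t2]; rfl
  · exact h.f2 ht n mb bu bv bw hd

theorem Bad.f3 (ht : StThread) (h : Bad S G) {u v w b : V} (n : N2 S G u v w) (mb : b ∈ S)
    (bu : b ≠ u) (bv : b ≠ v) (bw : b ≠ w) (β : Bool)
    (hd : ∀ t ∈ S, t ≠ v → t ≠ b → t ≠ u → t ≠ w → G v t = (G w t ^^ (β && G b t))) : False := by
  have k1 := h.lc n.mu
  have k2 := k1.lc n.mw
  have k3 := k2.lc n.mu
  have s := h.sy.1
  have a1 : ∀ t ∈ S, t ≠ v → t ≠ w → ∀ x, T.lc G u x t = G x t := fun t mt t1 t2 x =>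
    ch_u h.sy n mt t1 t2
  have a2 : ∀ t ∈ S, t ≠ v → t ≠ w → t ≠ u → T.lc (T.lc G u) w u t = G w t := fun t mt t1 t2 t3 => by
    simp [ch_lc _ w t3.symm, a1 t mt t1 t2, n.no t mt t1 t2, lc_left h.sy, n.ew]
  have a3 : T.lc (T.lc G u) w u w = true := by rw [lc_right k1.sy, lc_left h.sy, n.ew]
  refine k3.f12 ht (u := w) (v := v) (w := u) (k3.n2 n.mw n.mv n.mu n.vw.symm n.uw.symm n.uv.symm
    fun t mt t1 t2 t3 => ?_) mb bw bv β fun t mt t1 t2 t3 t4 => ?_
  · rw [ch_lc _ u t1.symm, k2.sy.1 w u, a3, a2 t mt t2 t1 t3, lc_left k1.sy, a1 t mt t2 t1]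
    simp
  · rw [ch_lc _ u t1.symm, ch_lc _ u t2.symm, k2.sy.1 b u, a2 t mt t1 t3 t4, a2 b mb bv bw bu,
      ch_lc _ w t1.symm, ch_lc _ w t2.symm, ch_lc _ w n.uv.symm, a1 t mt t1 t3, a1 t mt t1 t3,
      a1 t mt t1 t3, k1.sy.1 b w, a1 b mb bv bw, lc_right h.sy, lc_right h.sy, s v u, s w u, n.ev,
      n.ew, hd t mt t1 t2 t4 t3]
    cases T.lc G u v w <;> cases G w t <;> cases G w b <;> cases G b t <;> cases β <;> rfl

theorem Bad.fin (ht : StThread) (h : Bad S G) {u v w : V} (n : N2 S G u v w)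
    (s : Sm S (T.lc G v) v) : False := by
  obtain ⟨a, ma, b, mb, av, bv, ab, α, β, h0, hd⟩ := s.dep (h.sy.lc v)
  have e : ∀ t ∈ S, t ≠ v → t ≠ a → t ≠ b →
      (α && (G a t ^^ (G a v && G v t))) = (β && (G b t ^^ (G b v && G v t))) := fun t mt t1 t2 t3 => by
    rw [← ch_lc G v t2.symm, ← ch_lc G v t3.symm]; exact hd t mt t1 t2 t3
  have g : (α && G a v) ≠ (β && G b v) := fun g => by
    refine h.dep ma mb ab h0 fun t mt t2 t3 => ?_
    by_cases z : t = v
    · rw [z, g]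
    · have := e t mt z t2 t3
      revert this g
      cases α <;> cases β <;> cases G a t <;> cases G b t <;> cases G a v <;> cases G b v <;>
        cases G v t <;> simp
  have E : ∀ t ∈ S, t ≠ v → t ≠ a → t ≠ b → G v t = ((α && G a t) ^^ (β && G b t)) := by
    intro t mt t1 t2 t3
    have := e t mt t1 t2 t3
    revert this g
    cases α <;> cases β <;> cases G a t <;> cases G b t <;> cases G a v <;> cases G b v <;>
      cases G v t <;> simp
  clear e g hd h0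
  by_cases au : a = u
  · subst au
    exact h.f12 ht n mb ab.symm bv β fun t mt t1 t2 t3 t4 => by
      simp [E t mt t1 t3 t2, n.no t mt t1 t4]
  by_cases bu : b = u
  · subst bu
    exact h.f12 ht n ma ab av α fun t mt t1 t2 t3 t4 => by
      simp [E t mt t1 t2 t3, n.no t mt t1 t4]
  have Eu := E u n.mu n.uv (Ne.symm au) (Ne.symm bu)
  rw [h.sy.1 v u, h.sy.1 a u, h.sy.1 b u, n.ev] at Eu
  by_cases aw : a = w
  · subst aw
    obtain rfl : α = true := by simpa [n.ew, n.no b mb bv ab.symm] using Eu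
    exact h.f3 ht n mb bu bv ab.symm β fun t mt t1 t2 t3 t4 => by simp [E t mt t1 t4 t2]
  by_cases bw : b = w
  · subst bw
    obtain rfl : β = true := by simpa [n.ew, n.no a ma av ab] using Eu
    exact h.f3 ht n ma au av ab α fun t mt t1 t2 t3 t4 => by
      simp [E t mt t1 t2 t4, Bool.xor_comm]
  simp [n.no a ma av aw, n.no b mb bv bw] at Eu

theorem ch_piv (hG : Sy G) {u v : V} (uv : u ≠ v) (e : G u v = true) :
    lc (lc (lc G v) u) v = lc (lc (lc G u) v) u := by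
  have e' : G v u = true := by rw [hG.1, e]
  have vu := uv.symm
  have d1 := hG.2 u
  have d2 := hG.2 v
  funext x y
  by_cases xy : x = y
  · simp [lc, xy]
  by_cases xu : x = u
  · subst xu
    by_cases yv : y = v
    · subst yv
      simp [lc, *]
    · have vy := Ne.symm yv
      simp [lc, *]
      cases G x y <;> cases G v y <;> rfl
  by_cases xv : x = v
  · subst xv
    by_cases yu : y = u
    · subst yu
      simp [lc, *]
    · have uy := Ne.symm yu
      simp [lc, *]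
      cases G x y <;> cases G u y <;> rfl
  by_cases yu : y = u
  · subst yu
    simp [lc, *]
    cases G x y <;> cases G x v <;> rfl
  by_cases yv : y = v
  · subst yv
    simp [lc, *]
    cases G x y <;> cases G x u <;> rfl
  have vy := Ne.symm yv
  have uy := Ne.symm yu
  simp only [lc, xy, xu, xv, vy, uy, uv, vu, e, e', d1, d2, if_false]
  cases G x y <;> cases G x u <;> cases G x v <;> cases G u y <;> cases G v y <;> rfl

theorem chain (hb : StBixG) (ht : StThread) : StChain := by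
  intro V _ G S h1 h2 h3
  by_contra k
  obtain ⟨H, u, v, w, h, n⟩ := Bad.two hb ⟨h1, h2, h3, fun H a x hx b => k ⟨H, x, hx, a, b⟩⟩
  rcases ((h.lc n.mv).lc n.mu).sm hb n.mv with s | s
  · have := s.lc ((h.sy.lc v).lc u) n.mu n.uv
    rw [lc_lc (h.sy.lc v)] at this
    exact h.fin ht n this
  · rw [ch_piv h.sy n.uv n.ev] at s
    have := s.lc (((h.sy.lc u).lc v).lc u) n.mu n.uv
    rw [lc_lc ((h.sy.lc u).lc v)] at this
    exact (h.lc n.mu).fin ht (n.self h.sy) this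

end Pool.Agent.Lib.MP_d7353d_co.T
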