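import Pool.Agent.Lib.MP_d7353d_co.TS2

/-! Chain theorem for prime 4-regular graphs. -/

namespace Pool.Agent.Lib.MP_d7353d_co.T

set_option linter.unusedSectionVars false
set_option linter.unusedSimpArgs false

variable {V : Type} [DecidableEq V]

namespace SG

variable {F : SG V}

theorem Ok.nb3 (k : F.Ok) {y a b c : V} (ha : s(y, a) ∈ F.D) (hb : s(y, b) ∈ F.D)
    (hc : s(y, c) ∈ F.D) (hab : a ≠ b) (hac : a ≠ c) (hbc : b ≠ c) : ∃ d, F.Nb y a b c d := by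
  obtain ⟨p, q, n⟩ := k.nb2 ha hb hab
  rcases (n.2.2.2.2.2.2 c).1 hc with rfl | rfl | rfl | rfl
  · exact absurd rfl hac
  · exact absurd rfl hbc
  · exact ⟨_, n⟩
  · exact ⟨_, n.s34⟩

/-- no complete graph on four vertices -/
theorem Ok.no_K4 (k : F.Ok) (h6 : 6 ≤ F.S.card) {y a b c : V} (ya : s(y, a) ∈ F.D)
    (yb : s(y, b) ∈ F.D) (yc : s(y, c) ∈ F.D) (ab : s(a, b) ∈ F.D) (ac : s(a, c) ∈ F.D)
    (bc : s(b, c) ∈ F.D) : False := by
  obtain ⟨my, ma, n1⟩ := k.ins _ _ ya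
  obtain ⟨-, mb, n2⟩ := k.ins _ _ yb
  obtain ⟨-, mc, n3⟩ := k.ins _ _ yc
  have n4 := (k.ins _ _ ab).2.2
  have n5 := (k.ins _ _ ac).2.2
  have n6 := (k.ins _ _ bc).2.2
  have sw : ∀ {u v : V}, s(u, v) ∈ F.D → s(v, u) ∈ F.D := fun h => Sym2.eq_swap ▸ h
  obtain ⟨y4, Ny⟩ := k.nb3 ya yb yc n4 n5 n6
  obtain ⟨a4, Na⟩ := k.nb3 (sw ya) ab ac n2 n3 n6
  obtain ⟨b4, Nb⟩ := k.nb3 (sw yb) (sw ab) bc n1 n3 n5
  obtain ⟨c4, Nc⟩ := k.nb3 (sw yc) (sw ac) (sw bc) n1 n2 n4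
  have h0 : (F.X fun _ => false).card = 0 := by
    rw [Finset.card_eq_zero]
    ext x
    induction x using Sym2.ind with
    | _ u v => simp [mem_X]
  have h1 := Ny.card_X_tg k fun _ => false
  have h2 := Na.card_X_tg k (tg (fun _ => false) y)
  have h3 := Nb.card_X_tg k (tg (tg (fun _ => false) y) a)
  have h4 := Nc.card_X_tg k (tg (tg (tg (fun _ => false) y) a) b)
  simp only [tg_self, tg_ne _ n1, tg_ne _ n2, tg_ne _ n3, tg_ne _ n4, tg_ne _ n5, tg_ne _ n6,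
    tg_ne _ n1.symm, tg_ne _ n2.symm, tg_ne _ n3.symm, tg_ne _ n4.symm, tg_ne _ n5.symm,
    tg_ne _ n6.symm, Bool.not_false, Bool.false_eq_true, if_false] at h2 h3 h4
  set g := tg (tg (tg (tg (fun _ => false) y) a) b) c with hg
  have gy : g y = true := by simp [hg, tg_ne _ n1, tg_ne _ n2, tg_ne _ n3]
  have ga : g a = true := by simp [hg, tg_ne _ n4, tg_ne _ n5, tg_ne _ n1.symm]
  have t1 : nc F.S g true ≤ 4 := by
    refine le_trans (Finset.card_le_card (t := {y, a, b, c}) fun w hw => ?_) Finset.card_le_four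
    by_contra hh
    simp only [Finset.mem_insert, Finset.mem_singleton, not_or] at hh
    have := (Finset.mem_filter.1 hw).2
    simp [hg, tg_ne _ hh.1, tg_ne _ hh.2.1, tg_ne _ hh.2.2.1, tg_ne _ hh.2.2.2] at this
  have t2 := nc_add F.S g
  have h5 := k.c6 g (two_le_nc.2 ⟨y, my, a, ma, n1, gy, ga⟩) (by omega)
  omega

/-- two triangles on the edge `y a` make the third transition small -/
theorem Nb.third (k : F.Ok) {y a b c d : V} (n : F.Nb y a b c d) (ab : s(a, b) ∈ F.D)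
    (ac : s(a, c) ∈ F.D) : F.NB y a d b c := by
  intro g g0 g1 g2 g3 g4 g5
  obtain ⟨m0, m1, m2, m3, m4, n1, n2, n3, n4⟩ := n.mem k
  obtain ⟨d1, d2, d3, d4, d5, d6, -⟩ := id n
  obtain ⟨a4, Na⟩ := k.nb3 (Sym2.eq_swap ▸ n.adj.1 : s(a, y) ∈ F.D) ab ac n2 n3 d4
  have h := Na.card_X_tg k g
  simp only [g0, g1, g3, g4, Bool.true_eq_false, if_false] at h
  refine Or.inl fun v hv e => ?_
  by_contra hh
  rw [not_or] at hh
  have := k.c6 (tg g a)
    (two_le_nc.2 ⟨d, m4, v, hv, Ne.symm hh.2, by rw [tg_ne g d3.symm, g2], by rw [tg_ne g hh.1, e]⟩)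
    (two_le_nc.2 ⟨b, m2, c, m3, d4, by rw [tg_ne g d1.symm, g3], by rw [tg_ne g d2.symm, g4]⟩)
  omega

end SG

theorem chainF (hc : StClean) : StChainF := by
  intro V _ F k h6
  by_contra hh
  have sw : ∀ {u v : V}, s(u, v) ∈ F.D → s(v, u) ∈ F.D := fun h => Sym2.eq_swap ▸ h
  have H : ∀ y a b c d, F.Nb y a b c d → F.NB y a b c d → s(a, b) ∈ F.D ∨ s(c, d) ∈ F.D := by
    intro y a b c d n hN
    by_contra h
    rw [not_or] at h
    exact hh ⟨y, (n.mem k).1, hc V F y a b c d k n hN h.1 h.2⟩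
  have key : ∀ y a b c d, F.Nb y a b c d → s(a, b) ∈ F.D → s(a, c) ∈ F.D → False := by
    intro y a b c d n ab ac
    obtain ⟨ya, yb, yc, yd⟩ := n.adj
    obtain ⟨m0, m1, m2, m3, m4, n1, n2, n3, n4⟩ := n.mem k
    obtain ⟨d1, d2, d3, d4, d5, d6, hy⟩ := id n
    rcases H y a d b c n.s34.s23 (n.third k ab ac) with ad | bc
    · obtain ⟨a4, Na⟩ := k.nb3 ab ac ad d4 d5 d6
      have e4 : y = a4 := by
        have := (Na.2.2.2.2.2.2 y).1 (sw ya)
        tauto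
      subst e4
      have ha := Na.2.2.2.2.2.2
      obtain ⟨p, q, Nb⟩ := k.nb2 (sw yb) (sw ab) n1
      obtain ⟨-, -, bp, bq⟩ := Nb.adj
      obtain ⟨-, -, -, -, -, -, -, r3, r4⟩ := Nb.mem k
      obtain ⟨-, e2, e3, e4, e5, -⟩ := id Nb
      have P : ∀ w, s(b, w) ∈ F.D → y ≠ w → a ≠ w → s(y, w) ∉ F.D ∧ s(w, a) ∉ F.D := by
        intro w bw w1 w2
        have w3 := (k.ins _ _ bw).2.2
        have w4 : w ≠ c := fun e => k.no_K4 h6 ya yb yc ab ac (e ▸ bw)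
        have w5 : w ≠ d := fun e => k.no_K4 h6 ya yb yd ab ad (e ▸ bw)
        refine ⟨fun h => ?_, fun h => ?_⟩
        · have := (hy w).1 h
          grind
        · have := (ha w).1 (sw h)
          grind
      have Pp := P p bp e2 e4
      have Pq := P q bq e3 e5
      rcases bix V F b y p q a k Nb.s23.s34 with t | t
      · exact (H b y p q a Nb.s23.s34 t).elim Pp.1 Pq.2
      · exact (H b y q p a Nb.s23.s34.s23 t).elim Pq.1 Pp.2
    · exact k.no_K4 h6 ya yb yc ab ac bc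
  obtain ⟨y, hy⟩ : F.S.Nonempty := Finset.card_pos.1 (by omega)
  obtain ⟨a, b, c, d, n, t1, t2⟩ := k.two_NB hy
  rcases H y a b c d n t1 with u | u <;> rcases H y a c b d n.s23 t2 with w | w
  · exact key y a b c d n u w
  · exact key y b a d c n.s12.s34 (sw u) w
  · exact key y c d a b n.sw u (sw w)
  · exact key y d c b a n.sw.s12.s34 (sw u) (sw w)

end Pool.Agent.Lib.MP_d7353d_co.T
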