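import Pool.Agent.Lib.MP_d7353d_co.TS2

/-! Smoothing along a transition that is not big. -/

namespace Pool.Agent.Lib.MP_d7353d_co.T

set_option linter.unusedSectionVars false
set_option linter.unusedSimpArgs false

variable {V : Type} [DecidableEq V]

namespace SG

variable {F : SG V}

/-- every cut of a 4-regular graph is even -/
theorem Ok.X_even (k : F.Ok) (f : V → Bool) : Even (F.X f).card := by
  have H : ∀ A : Finset V, A ⊆ F.S → Even (F.X fun v => decide (v ∈ A)).card := by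
    intro A
    induction A using Finset.induction_on with
    | empty =>
      intro _
      have : (F.X fun v => decide (v ∈ (∅ : Finset V))) = ∅ := by
        ext x
        induction x using Sym2.ind with
        | _ u v => simp [mem_X]
      rw [this]; simp
    | insert y A hy ih =>
      intro hA
      obtain ⟨a, b, c, d, n⟩ := k.nb y (hA (Finset.mem_insert_self _ _))
      have h1 := ih fun v hv => hA (Finset.mem_insert_of_mem hv)
      have h2 := n.card_X_tg k fun v => decide (v ∈ A)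
      have e : (fun v => decide (v ∈ insert y A)) = tg (fun v => decide (v ∈ A)) y := by
        funext v
        by_cases hv : v = y
        · subst hv; simp [hy]
        · simp [tg_ne _ hv, hv]
      rw [e]
      obtain ⟨m, hm⟩ := h1
      rw [Nat.even_iff]
      omega
  have e : F.X f = F.X fun v => decide (v ∈ F.S.filter fun v => f v = true) :=
    X_congr k fun v hv => by simp [hv]
  rw [e]
  exact H _ (Finset.filter_subset _ _)

/-- the cut around two non adjacent vertices -/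
theorem Ok.pair8 (k : F.Ok) {u w t : V} {g : V → Bool} {β : Bool} (hu : u ∈ F.S) (hw : w ∈ F.S)
    (ht : t ∈ F.S) (huw : u ≠ w) (h1 : t ≠ u) (hn : s(u, w) ∉ F.D)
    (hg : ∀ v ∈ F.S, g v = β ↔ v = u ∨ v = w) : 8 ≤ (F.X g).card := by
  obtain ⟨a, b, c, d, n⟩ := k.nb w hw
  obtain ⟨-, m1, m2, m3, m4, n1, n2, n3, n4⟩ := n.mem k
  obtain ⟨a1, a2, a3, a4⟩ := n.adj
  have nu : ∀ v, s(w, v) ∈ F.D → g w ≠ g v := fun v hv e => by
    have h2 := (hg v (k.ins _ _ hv).2.1).1 (e ▸ (hg w hw).2 (Or.inr rfl))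
    rcases h2 with rfl | rfl
    · exact hn (Sym2.eq_swap ▸ hv)
    · exact (k.ins _ _ hv).2.2 rfl
  have h3 := n.card_X_tg k g
  simp only [nu a a1, nu b a2, nu c a3, nu d a4, if_false] at h3
  have gu : tg g w u = β := by rw [tg_ne g huw]; exact (hg u hu).2 (Or.inl rfl)
  have gt : tg g w t = !β := by
    by_cases e : t = w
    · subst e; rw [tg_self, (hg t ht).2 (Or.inr rfl)]
    · rw [tg_ne g e]
      have := hg t ht
      cases β <;> cases h : g t <;> simp_all
  have h4 : 4 ≤ (F.X (tg g w)).card := by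
    cases β
    · exact k.c4 _ (one_le_nc.2 ⟨t, ht, gt⟩) (one_le_nc.2 ⟨u, hu, gu⟩)
    · exact k.c4 _ (one_le_nc.2 ⟨u, hu, gu⟩) (one_le_nc.2 ⟨t, ht, gt⟩)
  omega

variable (F) in
/-- the edges after smoothing `y` along the transition `ab|cd` -/
def sm (y a b c d : V) : Multiset (Ed V) :=
  mg (a, F.sg s(y, a)) (b, F.sg s(y, b)) ::ₘ mg (c, F.sg s(y, c)) (d, F.sg s(y, d)) ::ₘ
    ((F.D.filter fun e => y ∉ e).val.map fun e => (e, F.sg e))

theorem Nb.smooth (k : F.Ok) {y a b c d : V} (n : F.Nb y a b c d) :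
    Smooth y F.E (F.sm y a b c d) := ⟨_, _, _, _, _, n.star k, rfl⟩

/-- the cut after smoothing against the cut before -/
theorem Nb.cut_sm (k : F.Ok) {y a b c d : V} (n : F.Nb y a b c d) (g : V → Bool) :
    cut g (F.sm y a b c d) + ((if g y = g a then 0 else 1) + (if g y = g b then 0 else 1) +
      (if g y = g c then 0 else 1) + (if g y = g d then 0 else 1)) =
    (F.X g).card + ((if g a = g b then 0 else 1) + (if g c = g d then 0 else 1)) := by
  have h := (n.star k).2.2.2.2.2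
  rw [← cut_E, h]
  have e : ∀ (u v : V) (s : Bool) (R : Multiset (Ed V)),
      cut g ((s(u, v), s) ::ₘ R) = cut g R + if g u = g v then 0 else 1 := by
    intro u v s R
    rw [cut, Multiset.countP_cons]
    by_cases h : g u = g v
    · simp [cut, h]
    · have : (g u ^^ g v) = true := by simpa using h
      simp [cut, h, this]
  simp only [sm, mg, e]
  omega

theorem Nb.cut_sm_tg (k : F.Ok) {y a b c d : V} (n : F.Nb y a b c d) (g : V → Bool) :
    cut (tg g y) (F.sm y a b c d) = cut g (F.sm y a b c d) := by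
  obtain ⟨-, -, -, -, -, n1, n2, n3, n4⟩ := n.mem k
  have h1 := n.cut_sm k g
  have h2 := n.cut_sm k (tg g y)
  have h3 := n.card_X_tg k g
  simp only [tg_self, tg_ne g n1.symm, tg_ne g n2.symm, tg_ne g n3.symm, tg_ne g n4.symm] at h2
  revert h1 h2 h3
  cases g y <;> cases g a <;> cases g b <;> cases g c <;> cases g d <;> simp <;> omega

theorem cut_not (g : V → Bool) (E : Multiset (Ed V)) : cut (fun v => !g v) E = cut g E := by
  simp only [cut, cr_not]

theorem nc_erase_le (S : Finset V) (y : V) (g : V → Bool) (β : Bool) :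
    nc (S.erase y) g β ≤ nc S g β :=
  Finset.card_le_card (Finset.filter_subset_filter _ (Finset.erase_subset _ _))

theorem nc_erase_tg (S : Finset V) (y : V) (g : V → Bool) (β : Bool) :
    nc (S.erase y) (tg g y) β = nc (S.erase y) g β := by
  unfold nc
  congr 1
  exact Finset.filter_congr fun v hv => by rw [tg_ne g (Finset.mem_erase.1 hv).1]

/-- unless the colouring separates the two pairs, the cut is a cut of the old graph -/
theorem Nb.cut_ext (k : F.Ok) {y a b c d : V} (n : F.Nb y a b c d) (g : V → Bool)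
    (h : ¬ (g a = g b ∧ g c = g d ∧ g a ≠ g c)) :
    (F.X g).card ≤ cut g (F.sm y a b c d) ∨ (F.X (tg g y)).card ≤ cut g (F.sm y a b c d) := by
  have h1 := n.cut_sm k g
  have h3 := n.card_X_tg k g
  revert h h1 h3
  cases g y <;> cases g a <;> cases g b <;> cases g c <;> cases g d <;> simp <;> omega

theorem Nb.pair_cut (k : F.Ok) {y a b c d : V} (n : F.Nb y a b c d) (hN : F.NB y a b c d)
    (g : V → Bool) (g0 : g y = false) (g1 : g a = true) (g2 : g b = true) (g3 : g c = false)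
    (g4 : g d = false) : 4 ≤ cut g (F.sm y a b c d) ∧ (6 ≤ cut g (F.sm y a b c d) ∨
      (s(a, b) ∈ F.D ∧ ∀ v ∈ F.S.erase y, g v = true ↔ v = a ∨ v = b) ∨
      (s(c, d) ∈ F.D ∧ ∀ v ∈ F.S.erase y, g v = false ↔ v = c ∨ v = d)) := by
  obtain ⟨m0, m1, m2, m3, m4, n1, n2, n3, n4⟩ := n.mem k
  obtain ⟨d1, d2, d3, d4, d5, d6, -⟩ := id n
  have h1 := n.cut_sm k g
  have h3 := n.card_X_tg k g
  simp only [g0, g1, g2, g3, g4] at h1 h3
  have h2 := k.c6 g (two_le_nc.2 ⟨a, m1, b, m2, d1, g1, g2⟩) (two_le_nc.2 ⟨c, m3, d, m4, d6, g3, g4⟩)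
  have h4 := Nat.even_iff.1 (k.X_even g)
  simp at h1 h3
  refine ⟨by omega, ?_⟩
  by_cases h5 : (F.X g).card ≤ 6
  · refine Or.inr ?_
    rcases hN g g0 g1 g2 g3 g4 h5 with t | t
    · have t' : ∀ v ∈ F.S, g v = true ↔ v = a ∨ v = b := fun v hv =>
        ⟨t v hv, by rintro (rfl | rfl) <;> assumption⟩
      refine Or.inl ⟨?_, fun v hv => t' v (Finset.mem_of_mem_erase hv)⟩
      by_contra hn
      have := k.pair8 m1 m2 m0 d1 n1 hn t'
      omega
    · have t' : ∀ v ∈ F.S, tg g y v = false ↔ v = c ∨ v = d := fun v hv => by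
        by_cases e : v = y
        · subst e; simp [g0, n3, n4]
        · rw [tg_ne g e]
          exact ⟨fun h => (t v hv h).resolve_left e, by rintro (rfl | rfl) <;> assumption⟩
      refine Or.inr ⟨?_, fun v hv => ?_⟩
      · by_contra hn
        have := k.pair8 m3 m4 m0 d6 n3 hn t'
        omega
      · rw [← t' v (Finset.mem_of_mem_erase hv), tg_ne g (Finset.mem_erase.1 hv).1]
  · exact Or.inl (by omega)

theorem Nb.pair_cut' (k : F.Ok) {y a b c d : V} (n : F.Nb y a b c d) (hN : F.NB y a b c d)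
    (g : V → Bool) (g1 : g a = true) (g2 : g b = true) (g3 : g c = false)
    (g4 : g d = false) : 4 ≤ cut g (F.sm y a b c d) ∧ (6 ≤ cut g (F.sm y a b c d) ∨
      (s(a, b) ∈ F.D ∧ ∀ v ∈ F.S.erase y, g v = true ↔ v = a ∨ v = b) ∨
      (s(c, d) ∈ F.D ∧ ∀ v ∈ F.S.erase y, g v = false ↔ v = c ∨ v = d)) := by
  cases g0 : g y
  · exact n.pair_cut k hN g g0 g1 g2 g3 g4
  · obtain ⟨m0, m1, m2, m3, m4, n1, n2, n3, n4⟩ := n.mem k
    have h := n.pair_cut k hN (tg g y) (by simp [g0]) (by rw [tg_ne g n1.symm, g1])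
      (by rw [tg_ne g n2.symm, g2]) (by rw [tg_ne g n3.symm, g3]) (by rw [tg_ne g n4.symm, g4])
    rw [n.cut_sm_tg k] at h
    refine ⟨h.1, h.2.imp id (Or.imp (And.imp id fun t v hv => ?_) (And.imp id fun t v hv => ?_))⟩ <;>
      rw [← t v hv, tg_ne g (Finset.mem_erase.1 hv).1]

/-- weakly prime: the only small cuts are the triangles at the smoothed vertex -/
theorem Nb.wp (k : F.Ok) {y a b c d : V} (n : F.Nb y a b c d) (hN : F.NB y a b c d) :
    C4 (F.S.erase y) (F.sm y a b c d) ∧ ∀ f, 2 ≤ nc (F.S.erase y) f true →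
      2 ≤ nc (F.S.erase y) f false → 6 ≤ cut f (F.sm y a b c d) ∨
        (s(a, b) ∈ F.D ∧ ∃ β, ∀ v ∈ F.S.erase y, f v = β ↔ v = a ∨ v = b) ∨
        (s(c, d) ∈ F.D ∧ ∃ β, ∀ v ∈ F.S.erase y, f v = β ↔ v = c ∨ v = d) := by
  have P : ∀ f : V → Bool, f a = f b ∧ f c = f d ∧ f a ≠ f c →
      4 ≤ cut f (F.sm y a b c d) ∧ (6 ≤ cut f (F.sm y a b c d) ∨
        (s(a, b) ∈ F.D ∧ ∃ β, ∀ v ∈ F.S.erase y, f v = β ↔ v = a ∨ v = b) ∨
        (s(c, d) ∈ F.D ∧ ∃ β, ∀ v ∈ F.S.erase y, f v = β ↔ v = c ∨ v = d)) := by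
    rintro f ⟨e1, e2, e3⟩
    cases g1 : f a
    · have g3 : f c = true := by rw [g1] at e3; simpa using e3
      have h := n.pair_cut' k hN (fun v => !f v) (by simp [g1]) (by simp [← e1, g1]) (by simp [g3])
        (by simp [← e2, g3])
      rw [cut_not] at h
      exact ⟨h.1, h.2.imp id (Or.imp (And.imp id fun t => ⟨false, fun v hv => by simpa using t v hv⟩)
        (And.imp id fun t => ⟨true, fun v hv => by simpa using t v hv⟩))⟩
    · have g3 : f c = false := by rw [g1] at e3; simpa using e3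
      have h := n.pair_cut' k hN f g1 (e1 ▸ g1) g3 (e2 ▸ g3)
      exact ⟨h.1, h.2.imp id (Or.imp (And.imp id fun t => ⟨true, t⟩) (And.imp id fun t => ⟨false, t⟩))⟩
  have L : ∀ (f : V → Bool) β, nc (F.S.erase y) f β ≤ nc F.S (tg f y) β := fun f β =>
    (nc_erase_tg F.S y f β).symm.le.trans (nc_erase_le _ _ _ _)
  refine ⟨fun f h1 h2 => ?_, fun f h1 h2 => ?_⟩
  · by_cases h : f a = f b ∧ f c = f d ∧ f a ≠ f c
    · exact (P f h).1
    · rcases n.cut_ext k f h with t | t
      · exact (k.c4 f (h1.trans (nc_erase_le _ _ _ _)) (h2.trans (nc_erase_le _ _ _ _))).trans t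
      · exact (k.c4 _ (h1.trans (L f _)) (h2.trans (L f _))).trans t
  · by_cases h : f a = f b ∧ f c = f d ∧ f a ≠ f c
    · exact (P f h).2
    · refine Or.inl ?_
      rcases n.cut_ext k f h with t | t
      · exact (k.c6 f (h1.trans (nc_erase_le _ _ _ _)) (h2.trans (nc_erase_le _ _ _ _))).trans t
      · exact (k.c6 _ (h1.trans (L f _)) (h2.trans (L f _))).trans t

end SG

theorem clean : StClean := by
  intro V _ F y a b c d k n hN h1 h2
  refine ⟨_, n.smooth k, (n.wp k hN).1, fun f t1 t2 => ?_⟩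
  rcases (n.wp k hN).2 f t1 t2 with h | h | h
  · exact h
  · exact absurd h.1 h1
  · exact absurd h.1 h2

end Pool.Agent.Lib.MP_d7353d_co.T
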