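import Pool.Agent.Lib.MP_d7353d_co.TG

/-! Split composition of circle graphs. -/

namespace Pool.Agent.Lib.MP_d7353d_co.T

set_option linter.unusedSectionVars false
set_option linter.unusedSimpArgs false
set_option linter.unusedVariables false

variable {V : Type} [DecidableEq V]

theorem comp_pick (X : Finset V) (φ : V → Bool) (h : X.Nonempty) :
    ∃ a ∈ X, ∀ u ∈ X, φ u = true → φ a = true := by
  by_cases e : ∃ a ∈ X, φ a = true
  · obtain ⟨a, ha, e⟩ := e
    exact ⟨a, ha, fun _ _ _ => e⟩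
  · obtain ⟨a, ha⟩ := h
    exact ⟨a, ha, fun u hu k => absurd ⟨u, hu, k⟩ e⟩

/-- what the word of `insert y X` says about `X` -/
theorem comp_half {G : Gr V} {X : Finset V} {y : V} {A B : List V} (hy : y ∉ X)
    (h : Rep G (insert y X) (y :: A ++ y :: B)) :
    (∀ v, A.count v + B.count v = if v ∈ X then 2 else 0) ∧ (∀ v, v ∉ X → v ∉ A ∧ v ∉ B) ∧
      (∀ v, par B v = par A v) ∧ (∀ v ∈ X, G y v = par A v) ∧
      ∀ u ∈ X, ∀ v ∈ X, u ≠ v → G u v = (inv A u v ^^ inv B u v ^^ (par A u && par B v)) := by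
  obtain ⟨-, hA, hB⟩ := h.1.not_mem
  have c : ∀ v, A.count v + B.count v = if v ∈ X then 2 else 0 := by
    intro v
    by_cases e : v = y
    · subst e
      rw [List.count_eq_zero_of_not_mem hA, List.count_eq_zero_of_not_mem hB, if_neg hy]
    · have := h.1 v
      simpa [List.count_cons, List.count_append, e, Ne.symm e] using this
  refine ⟨c, fun v hv => ?_, fun v => ?_, fun v hv => ?_, fun u hu v hv huv => ?_⟩
  · have := c v
    rw [if_neg hv] at this
    exact ⟨List.count_eq_zero.1 (by omega), List.count_eq_zero.1 (by omega)⟩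
  · have := h.1.par v
    simp only [List.cons_append, par, par_append] at this
    revert this
    cases decide (y = v) <;> cases par A v <;> cases par B v <;> simp
  · exact h.adj (Finset.mem_insert_of_mem hv) fun e => hy (e ▸ hv)
  · have e1 : ¬ y = u := fun e => hy (e ▸ hu)
    have e2 : ¬ y = v := fun e => hy (e ▸ hv)
    rw [h.2 u (Finset.mem_insert_of_mem hu) v (Finset.mem_insert_of_mem hv) huv]
    simp only [List.cons_append, inv, inv_append, par, e1, e2, decide_false]
    cases par A u <;> cases par B v <;> cases inv A u v <;> cases inv B u v <;> rfl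

theorem comp : StComp := by
  intro V _ G S f hG ⟨h1, h2, φ, hφ⟩ hS
  obtain ⟨x1, m1, x2, m2, x12, f1, f2⟩ := two_le_nc.1 h1
  obtain ⟨y1, n1, y2, n2, y12, g1, g2⟩ := two_le_nc.1 h2
  set X := S.filter fun v => f v = true with hX
  set Y := S.filter fun v => f v = false with hY
  have mX : ∀ v, v ∈ X ↔ v ∈ S ∧ f v = true := fun v => Finset.mem_filter
  have mY : ∀ v, v ∈ Y ↔ v ∈ S ∧ f v = false := fun v => Finset.mem_filter
  obtain ⟨a, ha, pa⟩ := comp_pick X φ ⟨x1, (mX _).2 ⟨m1, f1⟩⟩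
  obtain ⟨b, hb, pb⟩ := comp_pick Y φ ⟨y1, (mY _).2 ⟨n1, g1⟩⟩
  have dXY : ∀ v ∈ X, v ∉ Y := fun v h k => by
    have := ((mX v).1 h).2.symm.trans ((mY v).1 k).2; simp at this
  have dYX : ∀ v ∈ Y, v ∉ X := fun v h k => dXY v k h
  have s1 : insert b X ⊂ S := by
    refine ⟨Finset.insert_subset ((mY _).1 hb).1 (Finset.filter_subset _ _), fun k => ?_⟩
    have k1 := Finset.mem_insert.1 (k n1)
    have k2 := Finset.mem_insert.1 (k n2)
    simp only [mX, g1, g2, Bool.false_eq_true, and_false, or_false] at k1 k2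
    exact y12 (k1.trans k2.symm)
  have s2 : insert a Y ⊂ S := by
    refine ⟨Finset.insert_subset ((mX _).1 ha).1 (Finset.filter_subset _ _), fun k => ?_⟩
    have k1 := Finset.mem_insert.1 (k m1)
    have k2 := Finset.mem_insert.1 (k m2)
    simp only [mY, f1, f2, Bool.true_eq_false, and_false, or_false] at k1 k2
    exact x12 (k1.trans k2.symm)
  obtain ⟨W1, w1⟩ := hS _ s1
  obtain ⟨W2, w2⟩ := hS _ s2
  obtain ⟨A, B, r1⟩ := w1.at (Finset.mem_insert_self _ _)
  obtain ⟨C, D, r2⟩ := w2.at (Finset.mem_insert_self _ _)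
  obtain ⟨a1, a2, a3, a4, a5⟩ := comp_half (dYX b hb) r1
  obtain ⟨b1, b2, b3, b4, b5⟩ := comp_half (dXY a ha) r2
  have cross : ∀ u ∈ X, ∀ w ∈ Y, G u w = (par A u && par C w) := by
    intro u hu w hw
    have e : ∀ u ∈ X, ∀ w ∈ Y, G u w = (φ u && φ w) := fun u hu w hw =>
      hφ u ((mX u).1 hu).1 w ((mY w).1 hw).1 ((mX u).1 hu).2 ((mY w).1 hw).2
    rw [← a4 u hu, ← b4 w hw, hG.1 b u, e u hu w hw, e u hu b hb, e a ha w hw]
    have t1 := pa u hu
    have t2 := pb w hw
    revert t1 t2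
    cases φ u <;> cases φ w <;> cases φ a <;> cases φ b <;> simp
  have cas : ∀ v ∈ S, v ∈ X ∨ v ∈ Y := fun v hv => by
    rw [mX, mY]; cases f v <;> simp [hv]
  refine ⟨A ++ C ++ B ++ D, fun v => ?_, fun u hu v hv huv => ?_⟩
  · have t1 := a1 v
    have t2 := b1 v
    simp only [List.count_append]
    by_cases hv : v ∈ S
    · rw [if_pos hv]
      rcases cas v hv with e | e
      · rw [if_pos e] at t1; rw [if_neg (dXY v e)] at t2; omega
      · rw [if_pos e] at t2; rw [if_neg (dYX v e)] at t1; omega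
    · rw [if_neg hv]
      rw [if_neg fun e => hv ((mX v).1 e).1] at t1
      rw [if_neg fun e => hv ((mY v).1 e).1] at t2
      omega
  simp only [inv_append, par_append]
  rcases cas u hu with e1 | e1 <;> rcases cas v hv with e2 | e2
  · obtain ⟨c1, c2⟩ := b2 u (dXY u e1)
    obtain ⟨c3, c4⟩ := b2 v (dXY v e2)
    rw [a5 u e1 v e2 huv, inv_left c1, inv_left c2, par_of_not_mem c1, par_of_not_mem c3,
      par_of_not_mem c4]
    cases par A u <;> cases par B v <;> cases par B u <;> cases inv A u v <;> cases inv B u v <;> rfl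
  · obtain ⟨c1, c2⟩ := b2 u (dXY u e1)
    obtain ⟨c3, c4⟩ := a2 v (dYX v e2)
    rw [cross u e1 v e2, inv_left c1, inv_left c2, inv_right c3, inv_right c4, par_of_not_mem c1,
      par_of_not_mem c4, a3 u, b3 v]
    cases par A u <;> cases par C v <;> rfl
  · obtain ⟨c1, c2⟩ := a2 u (dYX u e1)
    obtain ⟨c3, c4⟩ := b2 v (dXY v e2)
    rw [hG.1, cross v e2 u e1, inv_left c1, inv_left c2, inv_right c3, inv_right c4, par_of_not_mem c1,
      par_of_not_mem c2, par_of_not_mem c3, par_of_not_mem c4, a3 v]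
    cases par A v <;> cases par C u <;> rfl
  · obtain ⟨c1, c2⟩ := a2 u (dYX u e1)
    obtain ⟨c3, c4⟩ := a2 v (dYX v e2)
    rw [b5 u e1 v e2 huv, inv_left c1, inv_left c2, par_of_not_mem c1, par_of_not_mem c2,
      par_of_not_mem c4]
    cases par C u <;> cases par D v <;> cases par C v <;> cases inv C u v <;> cases inv D u v <;> rfl

end Pool.Agent.Lib.MP_d7353d_co.T
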