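import Pool.Agent.Lib.MP_d7353d_co.TG

/-! A small cut of the word gives a split. -/

namespace Pool.Agent.Lib.MP_d7353d_co.T

set_option linter.unusedSectionVars false
set_option linter.unusedSimpArgs false
set_option linter.unusedVariables false

variable {V : Type} [DecidableEq V]

/-- number of colour changes along a word, from colour `c` to colour `d` -/
def chc (f : V → Bool) : Bool → List V → Bool → ℕ
  | c, [], d => if c = d then 0 else 1
  | c, a :: W, d => (if c = f a then 0 else 1) + chc f (f a) W d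

theorem cut_wk (f : V → Bool) (l : List (V × Bool)) (p : V) (s : Bool) (q : V) :
    cut f (wk p s l q) = chc f (f p) (l.map Prod.fst) (f q) := by
  induction l generalizing p s with
  | nil =>
    have : cut f (wk p s [] q) = if (f p ^^ f q) = true then 1 else 0 := by
      rw [wk, cut, ← Multiset.cons_zero, Multiset.countP_cons]; simp
    rw [this, List.map_nil, chc]
    cases f p <;> cases f q <;> rfl
  | cons a l ih =>
    have := ih a.1 a.2
    rw [cut] at this
    rw [wk, cut, Multiset.countP_cons, this, List.map_cons, chc, cr_mk, Nat.add_comm]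
    cases f p <;> cases f a.1 <;> rfl

theorem chc_pos (f : V → Bool) (W : List V) (c d : Bool) (h : c ≠ d) : 1 ≤ chc f c W d := by
  induction W generalizing c with
  | nil => simp [chc, h]
  | cons a W ih =>
    rw [chc]
    by_cases e : c = f a
    · have := ih (f a) (e ▸ h); omega
    · rw [if_neg e]; omega

theorem chc_peel (f : V → Bool) (W : List V) (c d : Bool) (n : ℕ) (h : W = [] ∨ chc f c W d ≤ n + 1) :
    ∃ B R, W = B ++ R ∧ (∀ v ∈ B, f v = c) ∧ (R = [] ∨ chc f (!c) R d ≤ n) := by
  induction W with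
  | nil => exact ⟨[], [], rfl, by simp, Or.inl rfl⟩
  | cons a W ih =>
    have h := h.resolve_left (by simp)
    rw [chc] at h
    by_cases e : c = f a
    · rw [if_pos e, ← e] at h
      obtain ⟨B, R, e1, e2, e3⟩ := ih (Or.inr (by omega))
      refine ⟨a :: B, R, by rw [e1]; rfl, fun v hv => ?_, e3⟩
      rcases List.mem_cons.1 hv with rfl | hv
      · exact e.symm
      · exact e2 v hv
    · rw [if_neg e] at h
      refine ⟨[], a :: W, rfl, by simp, Or.inr ?_⟩
      have : (!c) = f a := by revert e; cases c <;> cases f a <;> simp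
      rw [chc, if_pos this]
      omega

theorem chc_end (f : V → Bool) (W : List V) (h : W = [] ∨ chc f false W true ≤ 0) : W = [] :=
  h.resolve_right fun k => by have := chc_pos f W false true (by simp); omega

theorem cut_blocks {G : Gr V} {S : Finset V} {f : V → Bool} {B1 B2 B3 B4 B5 : List V}
    (h : Rep G S (B1 ++ (B2 ++ (B3 ++ (B4 ++ B5))))) (h1 : ∀ v ∈ B1, f v = true)
    (h2 : ∀ v ∈ B2, f v = false) (h3 : ∀ v ∈ B3, f v = true) (h4 : ∀ v ∈ B4, f v = false)
    (h5 : ∀ v ∈ B5, f v = true) :
    ∀ a ∈ S, ∀ b ∈ S, f a = true → f b = false → G a b = (par B3 a && par B4 b) := by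
  intro a ha b hb fa fb
  have n : ∀ (B : List V) (c : Bool) (v : V), (∀ v ∈ B, f v = c) → f v = !c → v ∉ B := fun B c v k e m => by
    rw [k v m] at e; simp at e
  have a2 := n B2 _ a h2 fa
  have a4 := n B4 _ a h4 fa
  have b1 := n B1 _ b h1 fb
  have b3 := n B3 _ b h3 fb
  have b5 := n B5 _ b h5 fb
  have p := h.1.par b
  rw [h.2 a ha b hb fun e => by simp [e, fb] at fa]
  simp only [inv_append, par_append, inv_left a2, inv_left a4, inv_right b1, inv_right b3, inv_right b5,
    par_of_not_mem a2, par_of_not_mem a4, par_of_not_mem b1, par_of_not_mem b3, par_of_not_mem b5] at p ⊢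
  revert p
  cases par B1 a <;> cases par B3 a <;> cases par B2 b <;> cases par B4 b <;> simp

theorem cut_iso {G : Gr V} {S : Finset V} (hP : Prime G S) (h4 : 4 ≤ S.card) {u : V} (hu : u ∈ S)
    (h : ∀ b ∈ S, b ≠ u → G u b = false) : False := by
  obtain ⟨w, x, y, hw, hx, hy, d1, d2, d3⟩ := Finset.two_lt_card_iff.1
    (show 2 < (S.erase u).card by rw [Finset.card_erase_of_mem hu]; omega)
  rw [Finset.mem_erase] at hw hx hy
  refine hP (fun v => decide (v = u ∨ v = w)) ⟨two_le_nc.2 ⟨u, hu, w, hw.2, hw.1.symm, by simp, by simp⟩,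
    two_le_nc.2 ⟨x, hx.2, y, hy.2, d3, by simp [hx.1, d1.symm], by simp [hy.1, d2.symm]⟩,
    fun v => if v = u then false else if v = w then true else G w v, fun a ha b hb fa fb => ?_⟩
  simp only [decide_eq_true_eq, decide_eq_false_iff_not, not_or] at fa fb
  rcases fa with rfl | rfl
  · simp [h b hb fb.1]
  · simp [hw.1, fb.1, fb.2]

theorem cut_main {G : Gr V} {S : Finset V} {W : List V} (hG : Sy G) (h : Rep G S W) (hP : Prime G S)
    (h4 : 4 ≤ S.card) (f : V → Bool) :
    (1 ≤ nc S f true → 1 ≤ nc S f false → 4 ≤ chc f true W true) ∧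
      (2 ≤ nc S f true → 2 ≤ nc S f false → 6 ≤ chc f true W true) := by
  refine ⟨fun h1 h2 => ?_, fun h1 h2 => ?_⟩
  · by_contra c
    obtain ⟨B1, R1, rfl, k1, c1⟩ := chc_peel f W true true 2 (Or.inr (by omega))
    obtain ⟨B2, R2, rfl, k2, c2⟩ := chc_peel f R1 false true 1 c1
    obtain ⟨B3, R3, rfl, k3, c3⟩ := chc_peel f R2 true true 0 c2
    obtain rfl := chc_end f R3 c3
    have t := cut_blocks (B4 := []) (B5 := []) h k1 k2 k3 (by simp) (by simp)
    simp only [par, Bool.and_false] at t
    by_cases e1 : 2 ≤ nc S f true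
    · by_cases e2 : 2 ≤ nc S f false
      · exact hP f ⟨e1, e2, fun _ => false, t⟩
      · obtain ⟨u, hu, fu⟩ := one_le_nc.1 h2
        refine cut_iso hP h4 hu fun b hb bu => ?_
        cases e : f b
        · exact absurd (two_le_nc.2 ⟨b, hb, u, hu, bu, e, fu⟩) e2
        · rw [hG.1]; exact t b hb u hu e fu
    · obtain ⟨u, hu, fu⟩ := one_le_nc.1 h1
      refine cut_iso hP h4 hu fun b hb bu => ?_
      cases e : f b
      · exact t u hu b hb fu e
      · exact absurd (two_le_nc.2 ⟨b, hb, u, hu, bu, e, fu⟩) e1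
  · by_contra c
    obtain ⟨B1, R1, rfl, k1, c1⟩ := chc_peel f W true true 4 (Or.inr (by omega))
    obtain ⟨B2, R2, rfl, k2, c2⟩ := chc_peel f R1 false true 3 c1
    obtain ⟨B3, R3, rfl, k3, c3⟩ := chc_peel f R2 true true 2 c2
    obtain ⟨B4, R4, rfl, k4, c4⟩ := chc_peel f R3 false true 1 c3
    obtain ⟨B5, R5, rfl, k5, c5⟩ := chc_peel f R4 true true 0 c4
    obtain rfl := chc_end f R5 c5
    have t := cut_blocks h k1 k2 k3 k4 (by simpa using k5)
    refine hP f ⟨h1, h2, fun v => if f v = true then par B3 v else par B4 v, fun a ha b hb fa fb => ?_⟩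
    rw [t a ha b hb fa fb]
    simp [fa, fb]

theorem cutp : StCut := by
  intro V _ G S L hG h hP h4
  cases L with
  | nil =>
    have := h.1.length
    simp at this
    simp [this] at h4
  | cons a l =>
    have key : ∀ f : V → Bool, f a.1 = true →
        cut f (cyc (a :: l)) = chc f true ((a :: l).map Prod.fst) true := fun f e => by
      rw [cyc, cut_wk, List.map_cons, chc, e]; simp
    have cn : ∀ f : V → Bool, cut (fun v => !f v) (cyc (a :: l)) = cut f (cyc (a :: l)) := fun f => by
      simp only [cut, cr_not]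
    refine ⟨fun f h1 h2 => ?_, fun f h1 h2 => ?_⟩
    · cases e : f a.1
      · rw [← cn, key _ (by simp [e])]
        exact (cut_main hG h hP h4 _).1 (by rwa [nc_not]) (by rwa [nc_not])
      · rw [key _ e]
        exact (cut_main hG h hP h4 _).1 h1 h2
    · cases e : f a.1
      · rw [← cn, key _ (by simp [e])]
        exact (cut_main hG h hP h4 _).2 (by rwa [nc_not]) (by rwa [nc_not])
      · rw [key _ e]
        exact (cut_main hG h hP h4 _).2 h1 h2

end Pool.Agent.Lib.MP_d7353d_co.T
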