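import Pool.Agent.Lib.MP_d7353d_co.TG

/-! Drawing a chord from a small signature, and the converse. -/

namespace Pool.Agent.Lib.MP_d7353d_co.T

set_option linter.unusedSectionVars false
set_option linter.unusedSimpArgs false

variable {V : Type} [DecidableEq V]

def drNx : List (V × Bool) → V → V
  | [], q => q
  | a :: _, _ => a.1

/-- resigning a signed word -/
def drRs (f : V → Bool) (q : V) : List (V × Bool) → List (V × Bool)
  | [] => []
  | a :: l => (a.1, a.2 ^^ f a.1 ^^ f (drNx l q)) :: drRs f q l

/-- the letter `x` is written in every negative gap -/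
def drFlat (x : V) : List (V × Bool) → List V
  | [] => []
  | a :: l => a.1 :: (if a.2 = true then x :: drFlat x l else drFlat x l)

theorem dr_fst (f : V → Bool) (q : V) (l : List (V × Bool)) :
    (drRs f q l).map Prod.fst = l.map Prod.fst := by
  induction l with
  | nil => rfl
  | cons a l ih => simp [drRs, ih]

theorem dr_tot (f : V → Bool) (q : V) (l : List (V × Bool)) :
    tot (drRs f q l) = (tot l ^^ f (drNx l q) ^^ f q) := by
  induction l with
  | nil => simp [drRs, tot, drNx]
  | cons a l ih =>
    simp only [drRs, tot, ih, show drNx (a :: l) q = a.1 from rfl]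
    cases a.2 <;> cases f a.1 <;> cases f (drNx l q) <;> cases tot l <;> cases f q <;> rfl

theorem dr_sp (f : V → Bool) (q : V) (l : List (V × Bool)) (u : V) :
    sp (drRs f q l) u = (sp l u ^^ (par (l.map Prod.fst) u && (f u ^^ f q))) := by
  induction l with
  | nil => simp [drRs, sp, par]
  | cons a l ih =>
    simp only [drRs, sp, ih, dr_tot, List.map_cons, par]
    by_cases h : a.1 = u
    · simp only [h, decide_true]
      cases a.2 <;> cases f u <;> cases f (drNx l q) <;> cases tot l <;> cases f q <;>
        cases sp l u <;> cases par (l.map Prod.fst) u <;> rfl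
    · simp [h]

theorem dr_neg_cons (f : V → Bool) (u v : V) (s : Bool) (R : Multiset (Ed V)) :
    neg f ((s(u, v), s) ::ₘ R) = neg f R + if (f u ^^ f v ^^ s) = true then 1 else 0 := by
  rw [neg, Multiset.countP_cons]
  rfl

theorem dr_neg_one (f : V → Bool) (u v : V) (s : Bool) :
    neg f {(s(u, v), s)} = if (f u ^^ f v ^^ s) = true then 1 else 0 := by
  rw [← Multiset.cons_zero, dr_neg_cons]
  simp [neg]

theorem dr_ct (f : V → Bool) (q : V) (l : List (V × Bool)) (a : V × Bool) :
    (drRs f q (a :: l)).countP (fun e => e.2) = neg f (wk a.1 a.2 l q) := by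
  induction l generalizing a with
  | nil =>
    simp only [drRs, wk, dr_neg_one, drNx, List.countP_cons, List.countP_nil]
    cases a.2 <;> cases f a.1 <;> cases f q <;> rfl
  | cons b l ih =>
    rw [drRs, List.countP_cons, ih, wk, dr_neg_cons]
    have e : (a.2 ^^ f a.1 ^^ f (drNx (b :: l) q)) = (f a.1 ^^ f b.1 ^^ a.2) := by
      simp only [drNx]
      cases a.2 <;> cases f a.1 <;> cases f b.1 <;> rfl
    simp only [e]

theorem dr_tot_ct (l : List (V × Bool)) : tot l = decide (l.countP (fun e => e.2) % 2 = 1) := by
  induction l with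
  | nil => rfl
  | cons a l ih =>
    rw [tot, ih, List.countP_cons]
    rcases Nat.mod_two_eq_zero_or_one (l.countP fun e => e.2) with e | e <;> cases a.2 <;>
      simp [e, Nat.add_mod]

theorem dr_count {x : V} {l : List (V × Bool)} (h : x ∉ l.map Prod.fst) :
    (drFlat x l).count x = l.countP fun e => e.2 := by
  induction l with
  | nil => rfl
  | cons a l ih =>
    simp only [List.map_cons, List.mem_cons, not_or] at h
    rw [drFlat, List.count_cons_of_ne (Ne.symm h.1), List.countP_cons]
    cases a.2 <;> simp [ih h.2]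

theorem dr_filter {x : V} {l : List (V × Bool)} (h : x ∉ l.map Prod.fst) :
    (drFlat x l).filter (fun v => decide (v ≠ x)) = l.map Prod.fst := by
  induction l with
  | nil => rfl
  | cons a l ih =>
    simp only [List.map_cons, List.mem_cons, not_or] at h
    have := ih h.2
    rw [drFlat, List.filter_cons_of_pos (by simpa using Ne.symm h.1), List.map_cons]
    cases a.2
    · simpa using this
    · simpa using this

theorem dr_par {x : V} {l : List (V × Bool)} (h : x ∉ l.map Prod.fst) :
    par (drFlat x l) x = tot l := by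
  rw [par_eq, dr_count h, dr_tot_ct]

theorem dr_inv {x u : V} (hu : u ≠ x) {l : List (V × Bool)} (h : x ∉ l.map Prod.fst) :
    inv (drFlat x l) u x = sp l u := by
  induction l with
  | nil => rfl
  | cons a l ih =>
    simp only [List.map_cons, List.mem_cons, not_or] at h
    rw [drFlat, inv, sp]
    cases a.2 <;> simp [inv, par, ih h.2, dr_par h.2, hu.symm]

theorem draw : StDraw := by
  intro V _ G x S L f hG hx h hn
  obtain ⟨L', e1, e2, e3, e4⟩ : ∃ L' : List (V × Bool), L'.map Prod.fst = L.map Prod.fst ∧
      tot L' = false ∧ (∀ u, sp L' u = sp L u) ∧ L'.countP (fun e => e.2) ≤ 3 := by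
    cases L with
    | nil => exact ⟨[], rfl, rfl, fun _ => rfl, by simp⟩
    | cons a l =>
      refine ⟨drRs f a.1 (a :: l), dr_fst _ _ _, ?_, fun u => ?_, by rw [dr_ct]; exact hn⟩
      · rw [dr_tot, h.2.2]; simp [drNx]
      · rw [dr_sp, h.1.1.par]; simp
  have hx' : x ∉ L'.map Prod.fst := by rw [e1, h.1.1.mem]; exact hx
  have c1 : ∀ v, v ≠ x → (drFlat x L').count v = if v ∈ S then 2 else 0 := fun v hv => by
    rw [← h.1.1 v, ← e1, ← dr_filter hx', List.count_filter (by simpa using hv)]
  have c2 : ∀ u ∈ insert x S, ∀ v ∈ insert x S, u ≠ v → G u v = inv (drFlat x L') u v := by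
    intro u hu v hv huv
    have k : ∀ u ∈ S, G u x = inv (drFlat x L') u x := fun u hu => by
      rw [dr_inv (fun e : u = x => hx (e ▸ hu)) hx', e3, h.2.1 u hu]
    by_cases a1 : u = x
    · subst a1
      have hv' := (Finset.mem_insert.1 hv).resolve_left huv.symm
      rw [hG.1, k v hv', inv_swap _ huv.symm, dr_par hx', e2]
      simp
    have hu' := (Finset.mem_insert.1 hu).resolve_left a1
    by_cases a2 : v = x
    · subst a2
      exact k u hu'
    have hv' := (Finset.mem_insert.1 hv).resolve_left a2
    rw [h.1.2 u hu' v hv' huv, ← e1, ← dr_filter hx',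
      inv_filter _ _ (by simpa using a1) (by simpa using a2)]
  have c3 := dr_count hx'
  rw [dr_tot_ct] at e2
  simp only [decide_eq_false_iff_not] at e2
  by_cases c4 : L'.countP (fun e => e.2) = 2
  · refine ⟨drFlat x L', fun v => ?_, c2⟩
    by_cases e : v = x
    · subst e; simp [c3, c4]
    · simp [c1 v e, e]
  · refine ⟨x :: x :: drFlat x L', fun v => ?_, fun u hu v hv huv => ?_⟩
    · by_cases e : v = x
      · subst e
        simp only [List.count_cons_self, c3, Finset.mem_insert_self, if_true]
        omega
      · simp [c1 v e, e, List.count_cons_of_ne (Ne.symm e)]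
    · rw [c2 u hu v hv huv]
      simp only [inv, par]
      by_cases e : x = u
      · have e' : ¬ x = v := fun w => huv (e.symm.trans w)
        simp only [e', decide_false]
        cases decide (x = u) <;> cases par (drFlat x L') v <;> cases inv (drFlat x L') u v <;> rfl
      · simp [e]

/-- the letters with the colours they should get -/
def sgTv (c : Bool) : List (V × Bool) → List (V × Bool)
  | [] => []
  | a :: l => (a.1, a.2 ^^ tot l ^^ c) :: sgTv c l

def sgXs : List (V × Bool) → V → Bool
  | [], _ => false
  | e :: P, u => (decide (e.1 = u) && e.2) ^^ sgXs P u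

theorem sg_fst (c : Bool) (l : List (V × Bool)) : (sgTv c l).map Prod.fst = l.map Prod.fst := by
  induction l with
  | nil => rfl
  | cons a l ih => simp [sgTv, ih]

theorem sg_xs (c : Bool) (l : List (V × Bool)) (u : V) :
    sgXs (sgTv c l) u = (sp l u ^^ (par (l.map Prod.fst) u && c)) := by
  induction l with
  | nil => simp [sgTv, sgXs, sp, par]
  | cons a l ih =>
    simp only [sgTv, sgXs, sp, ih, List.map_cons, par]
    cases decide (a.1 = u) <;> cases a.2 <;> cases c <;> cases tot l <;>
      cases sp l u <;> cases par (l.map Prod.fst) u <;> rfl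

theorem sg_app (P Q : List (V × Bool)) (u : V) : sgXs (P ++ Q) u = (sgXs P u ^^ sgXs Q u) := by
  induction P with
  | nil => simp [sgXs]
  | cons a l ih => simp [sgXs, ih]

theorem sg_tot (P Q : List (V × Bool)) : tot (P ++ Q) = (tot P ^^ tot Q) := by
  induction P with
  | nil => simp [tot]
  | cons a l ih => simp [tot, ih]

theorem sg_sp (P Q : List (V × Bool)) (u : V) :
    sp (P ++ Q) u = (sp P u ^^ (par (P.map Prod.fst) u && tot Q) ^^ sp Q u) := by
  induction P with
  | nil => simp [sp, par]
  | cons a l ih =>
    simp only [List.cons_append, sp, ih, sg_tot, List.map_cons, par]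
    cases decide (a.1 = u) <;> cases a.2 <;> cases tot Q <;> cases tot l <;>
      cases sp l u <;> cases par (l.map Prod.fst) u <;> cases sp Q u <;> rfl

theorem sg_val {f : V → Bool} {P : List (V × Bool)} (h : ∀ e ∈ P, f e.1 = e.2) (u : V) :
    sgXs P u = (par (P.map Prod.fst) u && f u) := by
  induction P with
  | nil => rfl
  | cons a l ih =>
    simp only [sgXs, List.map_cons, par, ih fun e he => h e (List.mem_cons_of_mem _ he)]
    by_cases e : a.1 = u
    · rw [← h a List.mem_cons_self, e]
      cases f u <;> simp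
    · simp [e]

theorem sg_ex (P : List (V × Bool)) (h1 : ∀ u, (P.map Prod.fst).count u ≤ 2)
    (h2 : ∀ u, (P.map Prod.fst).count u = 2 → sgXs P u = false) :
    ∃ f : V → Bool, ∀ e ∈ P, f e.1 = e.2 := by
  induction P with
  | nil => exact ⟨fun _ => false, by simp⟩
  | cons a l ih =>
    simp only [List.map_cons] at h1 h2
    have k := h1 a.1
    rw [List.count_cons_self] at k
    obtain ⟨f, hf⟩ := ih (fun u => List.count_le_count_cons.trans (h1 u)) fun u hu => by
      have e : a.1 ≠ u := fun e => by rw [e] at k; omega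
      simpa [sgXs, e] using h2 u (by rw [List.count_cons_of_ne e, hu])
    by_cases m : a.1 ∈ l.map Prod.fst
    · have c := List.count_pos_iff.2 m
      have t := h2 a.1 (by rw [List.count_cons_self]; omega)
      rw [sgXs, sg_val hf, par_eq, show (l.map Prod.fst).count a.1 = 1 by omega] at t
      refine ⟨f, fun e he => ?_⟩
      rcases List.mem_cons.1 he with rfl | he
      · revert t
        cases e.2 <;> cases f e.1 <;> simp
      · exact hf e he
    · refine ⟨fun v => if v = a.1 then a.2 else f v, fun e he => ?_⟩
      rcases List.mem_cons.1 he with rfl | he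
      · simp
      · have : e.1 ≠ a.1 := fun w => m (w ▸ List.mem_map_of_mem he)
        simp [this, hf e he]

theorem sg_neg {f : V → Bool} {c : Bool} (q : V) (l : List (V × Bool)) (a : V × Bool)
    (h : ∀ e ∈ sgTv c (a :: l), f e.1 = e.2) :
    neg f (wk a.1 a.2 l q) = if (f q ^^ c) = true then 1 else 0 := by
  induction l generalizing a with
  | nil =>
    have t : f a.1 = (a.2 ^^ false ^^ c) := h (a.1, _) List.mem_cons_self
    rw [wk, dr_neg_one, t]
    cases a.2 <;> cases c <;> cases f q <;> rfl
  | cons b l ih =>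
    have t : f a.1 = (a.2 ^^ (b.2 ^^ tot l) ^^ c) := h (a.1, _) List.mem_cons_self
    have t' : f b.1 = (b.2 ^^ tot l ^^ c) := h (b.1, _) (List.mem_cons_of_mem _ List.mem_cons_self)
    rw [wk, dr_neg_cons, ih b fun e he => h e (List.mem_cons_of_mem _ he), t, t']
    cases a.2 <;> cases c <;> cases b.2 <;> cases tot l <;> simp

theorem sg_wk (f : V → Bool) (p : V) (s : Bool) (l1 l2 : List (V × Bool)) (b : V × Bool) (q : V) :
    neg f (wk p s (l1 ++ b :: l2) q) = neg f (wk p s l1 b.1) + neg f (wk b.1 b.2 l2 q) := by
  induction l1 generalizing p s with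
  | nil => rw [List.nil_append, wk, wk, dr_neg_cons, dr_neg_one, Nat.add_comm]
  | cons a l ih =>
    rw [List.cons_append, wk, wk, dr_neg_cons, dr_neg_cons, ih]
    omega

theorem seg : StSeg := by
  intro V _ G x S L A B C h e hA hB
  obtain ⟨L1, LC, rfl, e1, rfl⟩ := List.map_eq_append_iff.1 e
  obtain ⟨LA, LB, rfl, rfl, rfl⟩ := List.map_eq_append_iff.1 e1
  obtain ⟨h1, h2, h3⟩ := h
  have m : (sgTv (tot LB ^^ tot LC) LA ++ sgTv (!tot LC) LB ++ sgTv false LC).map Prod.fst =
      (LA ++ LB ++ LC).map Prod.fst := by simp [sg_fst]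
  obtain ⟨f, hf⟩ := sg_ex (sgTv (tot LB ^^ tot LC) LA ++ sgTv (!tot LC) LB ++ sgTv false LC)
    (fun u => by rw [m, h1.1 u]; split_ifs <;> simp) fun u hu => by
      rw [m, h1.1 u] at hu
      have hu' : u ∈ S := by by_contra w; simp [w] at hu
      have t := (hB u hu').symm.trans (h2 u hu')
      rw [sg_sp, sg_sp, List.map_append, par_append] at t
      rw [sg_app, sg_app, sg_xs, sg_xs, sg_xs]
      revert t
      cases sp LA u <;> cases sp LB u <;> cases sp LC u <;> cases tot LB <;> cases tot LC <;>
        cases par (LA.map Prod.fst) u <;> cases par (LB.map Prod.fst) u <;> simp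
  have fA := fun e he => hf e (List.mem_append_left _ (List.mem_append_left _ he))
  have fB := fun e he => hf e (List.mem_append_left _ (List.mem_append_right _ he))
  have fC := fun e he => hf e (List.mem_append_right _ he)
  refine ⟨f, ?_⟩
  obtain _ | ⟨a, LA⟩ := LA
  · exact absurd rfl hA
  have fa : f a.1 = false := by
    have t : f a.1 = (a.2 ^^ tot LA ^^ (tot LB ^^ tot LC)) := fA (a.1, _) List.mem_cons_self
    rw [sg_tot, sg_tot, tot] at h3
    rw [t, ← h3]
    simp
  obtain _ | ⟨b, LB⟩ := LB <;> obtain _ | ⟨c, LC⟩ := LC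
  · simp only [List.append_nil, cyc]
    rw [sg_neg _ _ _ fA]
    split_ifs <;> omega
  · simp only [List.append_nil, List.cons_append, cyc]
    rw [sg_wk, sg_neg _ _ _ fA, sg_neg _ _ _ fC]
    split_ifs <;> omega
  · simp only [List.append_nil, List.cons_append, cyc]
    rw [sg_wk, sg_neg _ _ _ fA, sg_neg _ _ _ fB]
    split_ifs <;> omega
  · simp only [List.append_nil, List.cons_append, List.append_assoc, cyc]
    rw [sg_wk, sg_wk, sg_neg _ _ _ fA, sg_neg _ _ _ fB, sg_neg _ _ _ fC, fa]
    simp only [Bool.xor_false, Bool.false_eq_true, if_false]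
    split_ifs <;> omega

end Pool.Agent.Lib.MP_d7353d_co.T
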