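import Pool.Agent.Lib.MP_d7353d_co.TFin1
import Pool.Agent.Lib.MP_d7353d_co.TFin2
import Pool.Agent.Lib.MP_d7353d_co.TFin3
import Pool.Agent.Lib.MP_d7353d_co.TFin4
import Pool.Agent.Lib.MP_d7353d_co.TFin5
import Pool.Agent.Lib.MP_d7353d_co.TFin6

/-! Words on at most nine letters. -/

namespace Pool.Agent.Lib.MP_d7353d_co.T

set_option linter.unusedSectionVars false
set_option linter.unusedSimpArgs false

variable {V : Type} [DecidableEq V]

theorem obs_all : ∀ k < 10, 5 ≤ k → ∀ p ∈ reps k, ∃ big, obsAll k p.1 p.2 big 0 (2 ^ k) = true := by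
  intro k hk h5 p hp
  interval_cases k <;> simp only [reps, List.mem_cons, List.not_mem_nil, or_false] at hp
  · rcases hp with rfl
    exacts [⟨_, ob_5_0⟩]
  · rcases hp with rfl
    exacts [⟨_, ob_6_0⟩]
  · rcases hp with rfl | rfl
    exacts [⟨_, ob_7_0⟩, ⟨_, ob_7_1⟩]
  · rcases hp with rfl | rfl | rfl | rfl | rfl
    exacts [⟨_, ob_8_0⟩, ⟨_, ob_8_1⟩, ⟨_, ob_8_2⟩, ⟨_, ob_8_3⟩, ⟨_, ob_8_4⟩]
  · rcases hp with rfl | rfl | rfl | rfl | rfl | rfl | rfl | rfl | rfl | rfl | rfl | rfl | rfl | rfl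
    exacts [⟨_, ob_9_0⟩, ⟨_, ob_9_1⟩, ⟨_, ob_9_2⟩, ⟨_, ob_9_3⟩, ⟨_, ob_9_4⟩, ⟨_, ob_9_5⟩, ⟨_, ob_9_6⟩, ⟨_, ob_9_7⟩, ⟨_, ob_9_8⟩, ⟨_, ob_9_9⟩, ⟨_, ob_9_10⟩, ⟨_, ob_9_11⟩, ⟨_, ob_9_12⟩, ⟨_, ob_9_13⟩]

theorem dbl_ins {k : ℕ} {A B C : List ℕ} (h : Dbl (Finset.range k) (A ++ B ++ C)) :
    Dbl (Finset.range (k + 1)) (A ++ k :: B ++ k :: C) := fun v => by
  have := h v
  simp only [List.count_append, List.count_cons, Finset.mem_range, beq_iff_eq] at this ⊢
  split_ifs at this ⊢ <;> omega

theorem map_update {k : ℕ} {A : List ℕ} (h : ∀ a ∈ A, a < k) (σ : ℕ → V) (y : V) :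
    A.map (Function.update σ k y) = A.map σ :=
  List.map_congr_left fun a ha => Function.update_of_ne (h a ha).ne _ _

theorem cls (sign : StSign) (reg : StReg) (smooth : StSmooth) (move : StMove) (lift : StLift)
    (simple : StSimple) (chainF : StChainF) (x : V) (k : ℕ) : k < 10 →
    ∀ (S : Finset V) (G : Gr V) (L : List (V × Bool)), S.card = k → Sy G → x ∉ S → SR G x S L →
      (5 ≤ k → PrE S (cyc L)) → ∃ p ∈ reps k, ∃ σ : ℕ → V, Eqv (L.map Prod.fst) (p.1.map σ) := by
  induction k with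
  | zero =>
    intro _ S G L hS _ _ h _
    have := h.1.1.length
    rw [hS, List.length_eq_zero_iff] at this
    exact ⟨([], 0), by simp [reps], fun _ => x, by rw [this]; exact .refl⟩
  | succ k ih =>
    intro hk S G L hS hG hx h hp
    have : ∃ y ∈ S, ∃ G' L' W', Sy G' ∧ SR G' x (S.erase y) L' ∧ (5 ≤ k → PrE (S.erase y) (cyc L')) ∧
        Eqv (L.map Prod.fst) W' ∧ W'.filter (fun v => decide (v ≠ y)) = L'.map Prod.fst := by
      by_cases h5 : 5 ≤ k
      · have pr := hp (by omega)
        obtain ⟨F, e1, e2, ok⟩ := simple V S (cyc L) (reg V S L h.1.1 h.2.2) pr (by omega)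
        obtain ⟨y, hy, E', sm, pe⟩ := chainF V F ok (by rw [e1]; omega)
        rw [e1] at hy pe
        rw [e2] at sm
        obtain ⟨G', L', W', a1, a2, a3, a4, a5⟩ := smooth V G x y S L E' hG hx h hy pr.1 sm
        exact ⟨y, hy, G', L', W', a1.sy hG, a2, fun _ => a3 ▸ pe, a4, a5⟩
      · obtain ⟨y, hy⟩ := Finset.card_pos.1 (show 0 < S.card by omega)
        obtain ⟨L', a1, a2⟩ := sign V G x _ _ (h.1.erase y)
        exact ⟨y, hy, G, L', _, hG, a2, fun e => absurd e h5, .refl, a1.symm⟩
    obtain ⟨y, hy, G', L', W', g1, g2, g3, g4, g5⟩ := this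
    obtain ⟨p, hp', σ, e⟩ := ih (by omega) (S.erase y) G' L' (by rw [Finset.card_erase_of_mem hy]; omega)
      g1 (fun q => hx (S.erase_subset y q)) g2 g3
    obtain ⟨M, m1, m2⟩ := lift V y W' _ (g5 ▸ e)
    have em := g4.trans m1
    have dM : Dbl S M := h.1.1.perm em.perm
    obtain ⟨A, B, C, rfl, nA, nB, nC⟩ := dM.split hy
    have fl : ∀ X : List V, y ∉ X → X.filter (fun v => decide (v ≠ y)) = X := fun X hX =>
      List.filter_eq_self.2 fun a ha => by simpa using fun q : a = y => hX (q ▸ ha)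
    simp only [List.filter_append, List.filter_cons, fl A nA, fl B nB, fl C nC, ne_eq, not_true_eq_false,
      decide_false, Bool.false_eq_true, if_false] at m2
    obtain ⟨AB, C0, e1, e2, rfl⟩ := List.map_eq_append_iff.1 m2.symm
    obtain ⟨A0, B0, rfl, rfl, rfl⟩ := List.map_eq_append_iff.1 e2
    have dR := dbl_of (reps_ok k (by omega) p hp').1
    rw [e1] at dR
    have lt : ∀ a ∈ A0 ++ B0 ++ C0, a < k := fun a ha => by simpa using dR.mem.1 ha
    have eM : A0.map σ ++ y :: B0.map σ ++ y :: C0.map σ =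
        (A0 ++ k :: B0 ++ k :: C0).map (Function.update σ k y) := by
      rw [List.map_append, List.map_append, List.map_cons, List.map_cons, Function.update_self,
        map_update (A := A0) fun a ha => lt a (by simp [ha]),
        map_update (A := B0) fun a ha => lt a (by simp [ha]),
        map_update (A := C0) fun a ha => lt a (by simp [ha])]
    rw [eM] at em dM
    have d0 := dbl_ins dR
    generalize Function.update σ k y = τ at em dM
    rcases step_all k (by omega) p hp' A0 B0 C0 e1 with ⟨T, hT, π, q⟩ | ⟨h4, f, f1, f2, f3⟩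
    · obtain ⟨p', hp'', rfl⟩ := List.mem_map.1 hT
      refine ⟨p', hp'', τ ∘ π, em.trans ?_⟩
      rw [← List.map_map]
      exact q.map fun a ha b hb => d0.inj dM (d0.mem.1 ha) (d0.mem.1 hb)
    · exfalso
      obtain ⟨G2, L2, -, -, l1, l2⟩ := move V G x S L _ hG hx h em
      have hf : ∀ u ∈ Finset.range (k + 1),
          (List.range (k + 1)).any (fun i => decide (τ i = τ u) && f i) = f u := fun u hu => by
        rw [Bool.eq_iff_iff, List.any_eq_true]
        simp only [Bool.and_eq_true, decide_eq_true_eq, List.mem_range]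
        exact ⟨fun ⟨i, hi, a, b⟩ => d0.inj dM (Finset.mem_range.2 hi) hu a ▸ b,
          fun b => ⟨u, Finset.mem_range.1 hu, rfl, b⟩⟩
      have two : ∀ b, 2 ≤ nc (Finset.range (k + 1)) f b →
          2 ≤ nc S (fun v => (List.range (k + 1)).any fun i => decide (τ i = v) && f i) b := fun b hb => by
        obtain ⟨i, hi, j, hj, n, a1, a2⟩ := two_le_nc.1 hb
        exact two_le_nc.2 ⟨τ i, dM.mem.1 (List.mem_map_of_mem (d0.mem.2 hi)), τ j,
          dM.mem.1 (List.mem_map_of_mem (d0.mem.2 hj)), fun q => n (d0.inj dM hi hj q),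
          (hf i hi).trans a1, (hf j hj).trans a2⟩
      have := (hp (by omega)).2 _ (two _ f1) (two _ f2)
      rw [← l2, cut_cyc, l1, cutW_map τ _ f _ fun u hu => hf u (d0.mem.1 hu)] at this
      omega

def bits (p : ℕ → Bool) : ℕ → ℕ
  | 0 => 0
  | n + 1 => (if p n then 2 ^ n else 0) ^^^ bits p n

theorem bits_test (p : ℕ → Bool) (n j : ℕ) : (bits p n).testBit j = (decide (j < n) && p j) := by
  induction n with
  | zero => simp [bits]
  | succ n ih =>
    rw [bits, Nat.testBit_xor, ih]
    by_cases e : n = j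
    · subst e; cases p n <;> simp
    · have : j < n + 1 ↔ j < n := by omega
      cases p n <;> simp [Nat.testBit_two_pow, e, this]

theorem sim_of {G : Gr V} {x : V} {S : Finset V} {σ : ℕ → V} {k M : ℕ} {R : List ℕ} (hk : k < 10)
    (hG : Sy G) (hx : x ∉ S) (h : Rep G S (R.map σ)) (d : Dbl (Finset.range k) R)
    (m : matOk k R M = true) :
    Sim G (insert x S) (Function.update σ k x) (k + 1) (addX k M (bits (fun i => G (σ i) x) k)) := by
  have mem : ∀ i < k, σ i ∈ S := fun i hi =>
    h.1.mem.1 (List.mem_map_of_mem (d.mem.2 (by simpa using hi)))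
  have inj : ∀ i < k, ∀ j < k, σ i = σ j → i = j := fun i hi j hj =>
    d.inj h.1 (by simpa using hi) (by simpa using hj)
  have up : ∀ i < k, Function.update σ k x i = σ i := fun i hi => Function.update_of_ne hi.ne _ _
  have nk : k ∉ R := fun e => by simpa using d.mem.1 e
  refine ⟨hG, by omega, fun i hi => ?_, fun i hi j hj => ?_, fun i hi j hj => ?_⟩
  · rcases Nat.lt_succ_iff_lt_or_eq.1 hi with a | rfl
    · rw [up i a]; exact Finset.mem_insert_of_mem (mem i a)
    · simp
  · rcases Nat.lt_succ_iff_lt_or_eq.1 hi with a | rfl <;> rcases Nat.lt_succ_iff_lt_or_eq.1 hj with b | rfl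
    · rw [up i a, up j b]; exact inj i a j b
    · rw [up i a, Function.update_self]; exact fun e => absurd (e ▸ mem i a) hx
    · rw [up j b, Function.update_self]; exact fun e => absurd (e ▸ mem j b) hx
    · exact fun _ => rfl
  · have m1 : am M i j = (decide (i ≠ j) && inv R i j) := by
      simpa using allB_spec (allB_spec m i hi) j hj
    rw [addX, am, Nat.testBit_xor]
    change _ = (am M i j ^^ am _ i j)
    rw [m1, am_rows _ _ _ (by omega)]
    rcases Nat.lt_succ_iff_lt_or_eq.1 hi with a | rfl <;> rcases Nat.lt_succ_iff_lt_or_eq.1 hj with b | rfl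
    · have i1 : ∀ i < k, ∀ a ∈ R, σ a = σ i → a = i := fun i hi a ha =>
        inj a (by simpa using d.mem.1 ha) i hi
      have z : (if i = k then bits (fun i => G (σ i) x) k
          else if (bits (fun i => G (σ i) x) k).testBit i = true then 2 ^ k else 0).testBit j = false := by
        rw [if_neg a.ne]
        split_ifs <;> simp [Nat.testBit_two_pow, b.ne']
      rw [up i a, up j b, z]
      by_cases e : i = j
      · simp [e, hG.2]
      · rw [h.2 _ (mem i a) _ (mem j b) fun q => e (inj i a j b q), inv_map (i1 i a) (i1 j b)]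
        simp [e]
    · rw [up i a, Function.update_self, inv_right nk, if_neg a.ne, bits_test]
      cases G (σ i) x <;> simp [a, hi]
    · rw [up j b, Function.update_self, inv_left nk, if_pos rfl, bits_test, hG.1]
      simp [b]
    · rw [Function.update_self, hG.2, if_pos rfl, bits_test]; simp

theorem fin (sign : StSign) (seg : StSeg) (reg : StReg) (smooth : StSmooth) (move : StMove)
    (lift : StLift) (simple : StSimple) (chainF : StChainF) : StFin := by
  intro V _ G x S L hG hx h h9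
  have main : (5 ≤ S.card → PrE S (cyc L)) → ∃ p ∈ reps S.card, ∃ (σ : ℕ → V) (G' : Gr V)
      (L' : List (V × Bool)), LE S G G' ∧ SR G' x S L' ∧ L'.map Prod.fst = p.1.map σ ∧ cyc L' = cyc L ∧
      Sim G' (insert x S) (Function.update σ S.card x) (S.card + 1)
        (addX S.card p.2 (bits (fun i => G' (σ i) x) S.card)) := fun hp => by
    obtain ⟨p, hp', σ, e⟩ := cls sign reg smooth move lift simple chainF x S.card (by omega) S G L rfl
      hG hx h hp
    obtain ⟨G', L', a1, a2, a3, a4⟩ := move V G x S L _ hG hx h e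
    have := reps_ok _ (by omega) p hp'
    exact ⟨p, hp', σ, G', L', a1, a2, a3, a4,
      sim_of (by omega) (a1.sy hG) hx (a3 ▸ a2.1) (dbl_of this.1) this.2⟩
  have lt : ∀ p : ℕ → Bool, bits p S.card < 2 ^ S.card := fun p =>
    Nat.lt_pow_two_of_testBit _ fun i hi => by rw [bits_test]; simp [hi]
  have on : ∀ p ∈ reps S.card, ∀ σ : ℕ → V, Dbl S (p.1.map σ) → ∀ v ∈ S, ∃ i < S.card, σ i = v :=
    fun p hp σ d v hv => by
      obtain ⟨i, hi, e⟩ := List.mem_map.1 (d.mem.2 hv)
      exact ⟨i, by simpa using (dbl_of (reps_ok _ (by omega) p hp).1).mem.1 hi, e⟩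
  refine ⟨fun h4 => ?_, fun h5 hp hh => ?_⟩
  · obtain ⟨p, hp, σ, G', L', a1, a2, a3, -, s⟩ := main fun e => by omega
    obtain ⟨big, hb⟩ := cir_all _ (by omega) p hp
    have := allB_spec hb _ (lt fun i => G' (σ i) x)
    rw [seqN_eq] at this
    refine (cir_of this s fun v hv => ?_).le (a1.sy hG) ((a1.symm hG).mono (Finset.subset_insert x S))
    rcases Finset.mem_insert.1 hv with rfl | hv
    · exact ⟨S.card, by omega, by simp⟩
    · obtain ⟨i, hi, e⟩ := on p hp σ (a3 ▸ a2.1.1) v hv
      exact ⟨i, by omega, by rw [Function.update_of_ne hi.ne, e]⟩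
  · obtain ⟨p, hp', σ, G', L', a1, a2, a3, a4, s⟩ := main fun _ => hp
    obtain ⟨big, hb⟩ := obs_all _ (by omega) h5 p hp'
    have := allB_spec hb _ (lt fun i => G' (σ i) x)
    rw [seqN_eq, Nat.zero_add] at this
    have d := dbl_of (reps_ok _ (by omega) p hp').1
    have d' : Dbl S (p.1.map σ) := a3 ▸ a2.1.1
    have ne : p.1 ≠ [] := fun e => by
      have := d.length
      rw [e, Finset.card_range, List.length_nil] at this
      omega
    rcases obs_of (V := V) ne this with ⟨A, B, C, e, nA, q⟩ | q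
    · obtain ⟨f, hf⟩ := seg V G' x S L' (A.map σ) (B.map σ) (C.map σ) a2 (by rw [a3, e]; simp)
        (by simpa using nA) fun u hu => by
          obtain ⟨i, hi, rfl⟩ := on p hp' σ d' u hu
          rw [par_map fun a ha => d.inj d' (d.mem.1 (by rw [e]; simp [ha])) (by simpa using hi),
            ← q i hi, bits_test]
          simp [hi]
      have := hh f
      rw [a4] at hf
      omega
    · exact HasO.up (a1.mono (Finset.subset_insert x S)) subset_rfl (q _ _ _ s)

end Pool.Agent.Lib.MP_d7353d_co.T
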