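import Pool.Agent.Lib.MP_d7353d_co.TG

/-! An odd triangle with three negative edges and one more negative edge. -/

namespace Pool.Agent.Lib.MP_d7353d_co.T

variable {V : Type} [DecidableEq V] {F : SG V}

/-- a light transition has a pair made of a triangle vertex and an end of the fourth edge -/
theorem gam_light (k : F.Ok) (hv : F.Hv) {z a b p q y y1 y2 y3 y4 : V} {f : V → Bool}
    (hN : F.N f = {s(z, a), s(z, b), s(a, b), s(p, q)})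
    (hp : p ≠ z ∧ p ≠ a ∧ p ≠ b) (hq : q ≠ z ∧ q ≠ a ∧ q ≠ b)
    (hy : y ≠ z ∧ y ≠ a ∧ y ≠ b ∧ y ≠ p ∧ y ≠ q)
    (n : F.Nb y y1 y2 y3 y4) (nb : F.NB y y1 y2 y3 y4) (l : F.Light y y1 y2) :
    ∃ s u, (s = z ∨ s = a ∨ s = b) ∧ (u = p ∨ u = q) ∧
      (((s = y1 ∨ s = y2) ∧ (u = y1 ∨ u = y2)) ∨ ((s = y3 ∨ s = y4) ∧ (u = y3 ∨ u = y4))) := by
  obtain ⟨f', c4, e1, e2, e3, e4, -⟩ := SG.Light.sw k hv n l
  obtain ⟨m0, m1, m2, m3, m4, n1, n2, n3, n4⟩ := n.mem k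
  obtain ⟨a1, a2, a3, a4⟩ := n.adj
  obtain ⟨y0, ya, yb, yp, yq⟩ := hy
  have hyN : ∀ w, s(y, w) ∉ F.N f := by
    intro w
    rw [hN]
    simp [y0, ya, yb, yp, yq]
  have cf : (F.N f).card ≤ 4 := by rw [hN]; exact Finset.card_le_four
  have t1 : s(z, a) ∈ F.N f := by rw [hN]; simp
  have t2 : s(z, b) ∈ F.N f := by rw [hN]; simp
  have t3 : s(a, b) ∈ F.N f := by rw [hN]; simp
  have t4 : s(p, q) ∈ F.N f := by rw [hN]; simp
  have d1 := SG.N_sub f t1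
  have d2 := SG.N_sub f t2
  have d3 := SG.N_sub f t3
  have d4 := SG.N_sub f t4
  obtain ⟨sz, sa, za⟩ := k.ins _ _ d1
  obtain ⟨-, sb, zb⟩ := k.ins _ _ d2
  obtain ⟨-, -, ab⟩ := k.ins _ _ d3
  obtain ⟨sp, sq, pq⟩ := k.ins _ _ d4
  obtain ⟨g, g0, hX⟩ : ∃ g : V → Bool, g y = false ∧ F.X g = F.X fun v => f' v ^^ f v := by
    cases e : (f' y ^^ f y)
    · exact ⟨_, e, rfl⟩
    · exact ⟨fun v => !(f' v ^^ f v), by simp [e], SG.X_not _⟩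
  have hm : ∀ e, e ∈ F.X g ↔ (e ∈ F.N f' ∧ e ∉ F.N f) ∨ (e ∉ F.N f' ∧ e ∈ F.N f) := by
    intro e
    rw [hX, SG.mem_X_xor]
    tauto
  have g1 : g y1 = true := by
    have := (hm _).2 (Or.inl ⟨e1, hyN _⟩)
    rw [SG.mem_X, g0] at this
    simpa using this.2
  have g2 : g y2 = true := by
    have := (hm _).2 (Or.inl ⟨e2, hyN _⟩)
    rw [SG.mem_X, g0] at this
    simpa using this.2
  have g3 : g y3 = false := by
    have : s(y, y3) ∉ F.X g := fun h => by simpa [e3, hyN] using (hm _).1 h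
    rw [SG.mem_X, g0] at this
    simpa [a3] using this
  have g4 : g y4 = false := by
    have : s(y, y4) ∉ F.X g := fun h => by simpa [e4, hyN] using (hm _).1 h
    rw [SG.mem_X, g0] at this
    simpa [a4] using this
  have c6 := k.c6 g (two_le_nc.2 ⟨y1, m1, y2, m2, n.1, g1, g2⟩)
    (two_le_nc.2 ⟨y, m0, y3, m3, n3, g0, g3⟩)
  have cx := SG.card_X_xor (F := F) f' f
  rw [← hX] at cx
  have one : ∀ u v, s(u, v) ∈ F.N f → g u = g v → s(u, v) ∈ F.N f' ∩ F.N f := by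
    intro u v h e
    refine Finset.mem_inter.2 ⟨?_, h⟩
    by_contra hh
    exact (SG.mem_X.1 ((hm _).2 (Or.inr ⟨hh, h⟩))).2 e
  have le1 : (F.N f' ∩ F.N f).card ≤ 1 := by omega
  have uniq : ∀ u v u' v', s(u, v) ∈ F.N f → g u = g v → s(u', v') ∈ F.N f → g u' = g v' →
      s(u, v) = s(u', v') := fun u v u' v' h e h' e' =>
    Finset.card_le_one.1 le1 _ (one u v h e) _ (one u' v' h' e')
  have tri : g z = g a ∨ g z = g b ∨ g a = g b := by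
    cases g z <;> cases g a <;> cases g b <;> simp
  have ge1 : 1 ≤ (F.N f' ∩ F.N f).card := by
    rw [Finset.one_le_card]
    rcases tri with e | e | e
    exacts [⟨_, one _ _ t1 e⟩, ⟨_, one _ _ t2 e⟩, ⟨_, one _ _ t3 e⟩]
  have gpq : g p ≠ g q := by
    intro e
    obtain ⟨p1, p2, p3⟩ := hp
    rcases tri with e' | e' | e'
    · have := uniq _ _ _ _ t4 e t1 e'
      simp [p1, p2] at this
    · have := uniq _ _ _ _ t4 e t2 e'
      simp [p1, p3] at this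
    · have := uniq _ _ _ _ t4 e t3 e'
      simp [p2, p3] at this
  have spl : ¬ (g z = g a ∧ g z = g b) := by
    rintro ⟨e, e'⟩
    have := uniq _ _ _ _ t1 e t2 e'
    simp [ab, zb] at this
  have hs : ∀ c : Bool, ∃ s, (s = z ∨ s = a ∨ s = b) ∧ s ∈ F.S ∧ s ≠ y ∧ g s = c := by
    intro c
    by_cases e : g z = c
    · exact ⟨z, by simp, sz, Ne.symm y0, e⟩
    by_cases e' : g a = c
    · exact ⟨a, by simp, sa, Ne.symm ya, e'⟩
    refine ⟨b, by simp, sb, Ne.symm yb, ?_⟩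
    revert e e' spl
    cases g z <;> cases g a <;> cases g b <;> cases c <;> simp
  have hu : ∀ c : Bool, ∃ u, (u = p ∨ u = q) ∧ u ∈ F.S ∧ u ≠ y ∧ g u = c := by
    intro c
    by_cases e : g p = c
    · exact ⟨p, by simp, sp, Ne.symm yp, e⟩
    refine ⟨q, by simp, sq, Ne.symm yq, ?_⟩
    revert e gpq
    cases g p <;> cases g q <;> cases c <;> simp
  rcases nb g g0 g1 g2 g3 g4 (by omega) with h | h
  · obtain ⟨s, s1, s2, -, s4⟩ := hs true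
    obtain ⟨u, u1, u2, -, u4⟩ := hu true
    exact ⟨s, u, s1, u1, Or.inl ⟨h s s2 s4, h u u2 u4⟩⟩
  · obtain ⟨s, s1, s2, s3, s4⟩ := hs false
    obtain ⟨u, u1, u2, u3, u4⟩ := hu false
    exact ⟨s, u, s1, u1, Or.inr ⟨(h s s2 s4).resolve_left s3, (h u u2 u4).resolve_left u3⟩⟩

/-- the edge opposite to `y` in an odd triangle is negative -/
theorem gam_odd {z a b p q y s t : V} {f : V → Bool}
    (hN : F.N f = {s(z, a), s(z, b), s(a, b), s(p, q)})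
    (hy : y ≠ z ∧ y ≠ a ∧ y ≠ b ∧ y ≠ p ∧ y ≠ q) (hs : s(y, s) ∈ F.D) (ht : s(y, t) ∈ F.D)
    (o : F.OddT y s t) :
    ((s = z ∨ s = a ∨ s = b) ∧ (t = z ∨ t = a ∨ t = b)) ∨ ((s = p ∨ s = q) ∧ (t = p ∨ t = q)) := by
  obtain ⟨y0, ya, yb, yp, yq⟩ := hy
  have hyN : ∀ w, s(y, w) ∉ F.N f := by
    intro w
    rw [hN]
    simp [y0, ya, yb, yp, yq]
  have := o.par hs ht f
  simp only [hyN, false_iff, not_not] at this
  rw [hN] at this
  simp only [Finset.mem_insert, Finset.mem_singleton, Sym2.eq_iff] at this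
  tauto

theorem gam_two (k : F.Ok) (hv : F.Hv) (hi : F.Info) {z a b p q y : V} {f : V → Bool}
    (hN : F.N f = {s(z, a), s(z, b), s(a, b), s(p, q)})
    (hp : p ≠ z ∧ p ≠ a ∧ p ≠ b) (hq : q ≠ z ∧ q ≠ a ∧ q ≠ b)
    (hy : y ≠ z ∧ y ≠ a ∧ y ≠ b ∧ y ≠ p ∧ y ≠ q) (hS : y ∈ F.S) :
    ∃ s t, s ≠ t ∧ (s = z ∨ s = a ∨ s = b ∨ s = p) ∧ (t = z ∨ t = a ∨ t = b ∨ t = p) ∧
      s(y, s) ∈ F.D ∧ s(y, t) ∈ F.D := by
  have key : ∀ y1 y2 y3 y4, F.Nb y y1 y2 y3 y4 → F.NB y y1 y2 y3 y4 →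
      ∃ s u, ((s = y1 ∧ u = y2) ∨ (s = y2 ∧ u = y1) ∨ (s = y3 ∧ u = y4) ∨ (s = y4 ∧ u = y3)) ∧
        (((s = z ∨ s = a ∨ s = b) ∧ (u = z ∨ u = a ∨ u = b)) ∨ (s = p ∧ u = q) ∨
          ((s = z ∨ s = a ∨ s = b) ∧ (u = p ∨ u = q))) := by
    intro y1 y2 y3 y4 n nb
    obtain ⟨a1, a2, a3, a4⟩ := n.adj
    have d12 := n.1
    have d34 := n.2.2.2.2.2.1
    by_cases o2 : F.OddT y y3 y4
    · rcases gam_odd hN hy a3 a4 o2 with h | ⟨h | h, h' | h'⟩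
      · exact ⟨y3, y4, by simp, Or.inl h⟩
      · exact absurd (h.trans h'.symm) d34
      · exact ⟨y3, y4, by simp, Or.inr (Or.inl ⟨h, h'⟩)⟩
      · exact ⟨y4, y3, by simp, Or.inr (Or.inl ⟨h', h⟩)⟩
      · exact absurd (h.trans h'.symm) d34
    by_cases o1 : F.OddT y y1 y2
    · rcases gam_odd hN hy a1 a2 o1 with h | ⟨h | h, h' | h'⟩
      · exact ⟨y1, y2, by simp, Or.inl h⟩
      · exact absurd (h.trans h'.symm) d12
      · exact ⟨y1, y2, by simp, Or.inr (Or.inl ⟨h, h'⟩)⟩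
      · exact ⟨y2, y1, by simp, Or.inr (Or.inl ⟨h', h⟩)⟩
      · exact absurd (h.trans h'.symm) d12
    obtain ⟨s, u, s1, u1, h⟩ := gam_light k hv hN hp hq hy n nb ((hi y y1 y2 y3 y4 n nb o2).1 o1)
    have su : s ≠ u := by
      rcases s1 with rfl | rfl | rfl <;> rcases u1 with rfl | rfl
      exacts [hp.1.symm, hq.1.symm, hp.2.1.symm, hq.2.1.symm, hp.2.2.symm, hq.2.2.symm]
    refine ⟨s, u, ?_, Or.inr (Or.inr ⟨s1, u1⟩)⟩
    rcases h with ⟨e | e, e' | e'⟩ | ⟨e | e, e' | e'⟩ <;>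
      first
      | exact absurd (e.trans e'.symm) su
      | simp [e, e']
  obtain ⟨y1, y2, y3, y4, n, nb1, nb2⟩ := k.two_NB hS
  obtain ⟨s, u, h1, h2⟩ := key _ _ _ _ n nb1
  obtain ⟨s', u', h1', h2'⟩ := key _ _ _ _ n.s23 nb2
  obtain ⟨a1, a2, a3, a4⟩ := n.adj
  obtain ⟨d1, d2, d3, d4, d5, d6, -⟩ := n
  clear key hN hi hv k nb1 nb2
  have as : s(y, s) ∈ F.D ∧ s(y, u) ∈ F.D ∧ s ≠ u := by
    rcases h1 with ⟨rfl, rfl⟩ | ⟨rfl, rfl⟩ | ⟨rfl, rfl⟩ | ⟨rfl, rfl⟩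
    exacts [⟨a1, a2, d1⟩, ⟨a2, a1, d1.symm⟩, ⟨a3, a4, d6⟩, ⟨a4, a3, d6.symm⟩]
  have as' : s(y, s') ∈ F.D ∧ s(y, u') ∈ F.D ∧ s' ≠ u' := by
    rcases h1' with ⟨rfl, rfl⟩ | ⟨rfl, rfl⟩ | ⟨rfl, rfl⟩ | ⟨rfl, rfl⟩
    exacts [⟨a1, a3, d2⟩, ⟨a3, a1, d2.symm⟩, ⟨a2, a4, d5⟩, ⟨a4, a2, d5.symm⟩]
  have ne : ¬ (s = s' ∧ u = u') := by
    clear a1 a2 a3 a4 as as' h2 h2' hS
    rintro ⟨rfl, rfl⟩
    rcases h1 with ⟨rfl, rfl⟩ | ⟨rfl, rfl⟩ | ⟨rfl, rfl⟩ | ⟨rfl, rfl⟩ <;>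
      rcases h1' with ⟨e, e'⟩ | ⟨e, e'⟩ | ⟨e, e'⟩ | ⟨e, e'⟩ <;> simp_all
  have w : ∀ {x : V}, (x = z ∨ x = a ∨ x = b) → (x = z ∨ x = a ∨ x = b ∨ x = p) :=
    fun h => h.imp_right (Or.imp_right Or.inl)
  have w' : ∀ {x : V}, x = p → (x = z ∨ x = a ∨ x = b ∨ x = p) :=
    fun h => Or.inr (Or.inr (Or.inr h))
  have np : ∀ {x x' : V}, x = p → (x' = z ∨ x' = a ∨ x' = b) → x ≠ x' := by
    rintro x x' rfl (rfl | rfl | rfl)
    exacts [hp.1, hp.2.1, hp.2.2]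
  rcases h2 with h2 | h2 | h2
  · exact ⟨s, u, as.2.2, w h2.1, w h2.2, as.1, as.2.1⟩
  · rcases h2' with h2' | h2' | h2'
    · exact ⟨s', u', as'.2.2, w h2'.1, w h2'.2, as'.1, as'.2.1⟩
    · exact absurd ⟨h2.1.trans h2'.1.symm, h2.2.trans h2'.2.symm⟩ ne
    · exact ⟨s, s', np h2.1 h2'.1, w' h2.1, w h2'.1, as.1, as'.1⟩
  · rcases h2' with h2' | h2' | h2'
    · exact ⟨s', u', as'.2.2, w h2'.1, w h2'.2, as'.1, as'.2.1⟩
    · exact ⟨s, s', (np h2'.1 h2.1).symm, w h2.1, w' h2'.1, as.1, as'.1⟩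
    · by_cases e : s = s'
      · rcases h2.2 with e' | e'
        · exact ⟨s, u, as.2.2, w h2.1, w' e', as.1, as.2.1⟩
        · rcases h2'.2 with e'' | e''
          · exact ⟨s', u', as'.2.2, w h2'.1, w' e'', as'.1, as'.2.1⟩
          · exact absurd ⟨e, e'.trans e''.symm⟩ ne
      · exact ⟨s, s', e, w h2.1, w h2'.1, as.1, as'.1⟩

theorem gam : StGam := by
  intro V _ F z a b p q f k hv hi hp hq hN
  by_contra hc
  simp only [Finset.mem_insert, Finset.mem_singleton, not_or] at hp hq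
  have d1 : s(z, a) ∈ F.D := SG.N_sub f (by rw [hN]; simp)
  have d2 : s(z, b) ∈ F.D := SG.N_sub f (by rw [hN]; simp)
  have d3 : s(a, b) ∈ F.D := SG.N_sub f (by rw [hN]; simp)
  have d4 : s(p, q) ∈ F.D := SG.N_sub f (by rw [hN]; simp)
  have za := (k.ins _ _ d1).2.2
  have zb := (k.ins _ _ d2).2.2
  have ab := (k.ins _ _ d3).2.2
  set Y := F.S \ {z, a, b, p, q} with hY
  have mY : ∀ y ∈ Y, y ∈ F.S ∧ y ≠ z ∧ y ≠ a ∧ y ≠ b ∧ y ≠ p ∧ y ≠ q := by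
    intro y hy
    simpa [hY, not_or] using hy
  have cY : 5 ≤ Y.card := by
    have h1 := Finset.le_card_sdiff ({z, a, b, p, q} : Finset V) F.S
    have h2 : ({z, a, b, p, q} : Finset V).card ≤ 5 := Finset.card_le_five
    rw [← hY] at h1
    omega
  have two : ∀ t u v, s(t, u) ∈ F.D → s(t, v) ∈ F.D → u ≠ v → u ∉ Y → v ∉ Y →
      (Y.filter fun y => s(y, t) ∈ F.D).card ≤ 2 := by
    intro t u v hu hv' uv uY vY
    obtain ⟨c, d, n⟩ := k.nb2 hu hv' uv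
    refine (Finset.card_le_card fun y hy => ?_).trans (Finset.card_le_two (a := c) (b := d))
    obtain ⟨h1, h2⟩ := Finset.mem_filter.1 hy
    rw [Sym2.eq_swap, n.2.2.2.2.2.2] at h2
    rcases h2 with rfl | rfl | rfl | rfl
    · exact absurd h1 uY
    · exact absurd h1 vY
    · simp
    · simp
  have zY : z ∉ Y := fun h => (mY _ h).2.1 rfl
  have aY : a ∉ Y := fun h => (mY _ h).2.2.1 rfl
  have bY : b ∉ Y := fun h => (mY _ h).2.2.2.1 rfl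
  have qY : q ∉ Y := fun h => (mY _ h).2.2.2.2.2 rfl
  have c1 := two z a b d1 d2 ab aY bY
  have c2 := two a z b (Sym2.eq_swap ▸ d1) d3 zb zY bY
  have c3 := two b z a (Sym2.eq_swap ▸ d2) (Sym2.eq_swap ▸ d3) za zY aY
  have c4 : (Y.filter fun y => s(y, p) ∈ F.D).card ≤ 3 := by
    obtain ⟨r, hr, rq⟩ : ∃ r, s(p, r) ∈ F.D ∧ q ≠ r := by
      obtain ⟨c, d, c', d', n⟩ := k.nb p (k.ins _ _ d4).1
      by_cases e : q = c
      · exact ⟨d, n.adj.2.1, e ▸ n.1⟩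
      · exact ⟨c, n.adj.1, e⟩
    obtain ⟨c, d, n⟩ := k.nb2 d4 hr rq
    refine (Finset.card_le_card fun y hy => ?_).trans
      (Finset.card_le_three (a := r) (b := c) (c := d))
    obtain ⟨h1, h2⟩ := Finset.mem_filter.1 hy
    rw [Sym2.eq_swap, n.2.2.2.2.2.2] at h2
    rcases h2 with rfl | rfl | rfl | rfl
    · exact absurd h1 qY
    · simp
    · simp
    · simp
  have sum : ∑ _y ∈ Y, 2 ≤ ∑ y ∈ Y, ((if s(y, z) ∈ F.D then 1 else 0) +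
      (if s(y, a) ∈ F.D then 1 else 0) + (if s(y, b) ∈ F.D then 1 else 0) +
      (if s(y, p) ∈ F.D then 1 else 0)) := by
    refine Finset.sum_le_sum fun y hy => ?_
    obtain ⟨s, t, st, h1, h2, h3, h4⟩ := gam_two k hv hi hN hp hq (mY y hy).2 (mY y hy).1
    rcases h1 with rfl | rfl | rfl | rfl <;> rcases h2 with rfl | rfl | rfl | rfl <;>
      first
      | exact absurd rfl st
      | (simp only [h3, h4, if_true]; omega)
  simp only [Finset.sum_add_distrib, ← Finset.card_filter, Finset.sum_const, smul_eq_mul] at sum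
  omega

end Pool.Agent.Lib.MP_d7353d_co.T
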