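import Pool.Agent.Lib.MP_d7353d_co.TInfoB

/-! Information from the prime minors. -/

namespace Pool.Agent.Lib.MP_d7353d_co.T

set_option linter.unusedSectionVars false
set_option linter.unusedSimpArgs false

variable {V : Type} [DecidableEq V]

theorem info_mem {F : SG V} {y : V} {e : Sym2 V} (he : e ∈ F.D) (hy : y ∉ e) :
    (e, F.sg e) ∈ ((F.D.filter fun e => y ∉ e).val.map fun e => (e, F.sg e)) :=
  Multiset.mem_map.2 ⟨e, Finset.mem_filter.2 ⟨he, hy⟩, rfl⟩

/-- removal of the even digon `c d` -/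
theorem info_red {F : SG V} (k : F.Ok) (hr : Reg F.S F.E) {y a b c d : V} (n : F.Nb y a b c d)
    (hN : F.NB y a b c d) (ho : ¬ F.OddT y c d) :
    ∃ S1 E1, Minor F.S F.E S1 E1 ∧ Reg S1 E1 ∧ F.S.card ≤ S1.card + 2 ∧ S1.card < F.S.card ∧
      WP S1 E1 (fun f => s(a, b) ∈ F.D ∧ Ex a b S1 f) ∧
      (s(a, b) ∈ F.D → (s(a, b), F.sg s(y, a) ^^ F.sg s(y, b)) ::ₘ {(s(a, b), F.sg s(a, b))} ≤ E1) ∧
      ∀ p : Sym2 V → Bool, (∀ w, p s(c, w) = p s(d, w)) → ∀ f, ∃ f',
        ngp p f' (F.sm y a b c d) = ngp p f E1 := by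
  obtain ⟨m0, m1, m2, m3, m4, n1, n2, n3, n4⟩ := n.mem k
  obtain ⟨d1, d2, d3, d4, d5, d6, -⟩ := id n
  have C0 : C4 F.S F.E := fun f h1 h2 => by rw [SG.cut_E]; exact k.c4 f h1 h2
  have M1 : Minor F.S F.E (F.S.erase y) (F.sm y a b c d) := .step y .refl m0 C0 (n.smooth k)
  have R1 := info_reg hr (n.smooth k)
  have W := n.wp k hN
  have c1 := Finset.card_erase_add_one m0
  have T1 : s(a, b) ∈ F.D → (s(a, b), F.sg s(y, a) ^^ F.sg s(y, b)) ::ₘ {(s(a, b), F.sg s(a, b))} ≤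
      F.sm y a b c d := fun h =>
    Multiset.cons_le_cons _ (Multiset.singleton_le.2
      (Multiset.mem_cons_of_mem (info_mem h (by simp [n1, n2]))))
  by_cases hcd : s(c, d) ∈ F.D
  · have es : (F.sg s(y, c) ^^ F.sg s(y, d)) = F.sg s(c, d) := by
      have : ¬ (F.sg s(y, c) ^^ F.sg s(y, d) ^^ F.sg s(c, d)) = true := fun h => ho ⟨hcd, h⟩
      revert this
      cases F.sg s(y, c) <;> cases F.sg s(y, d) <;> cases F.sg s(c, d) <;> decide
    have T2 : (s(c, d), F.sg s(c, d)) ::ₘ {(s(c, d), F.sg s(c, d))} ≤ F.sm y a b c d := by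
      unfold SG.sm
      refine le_trans ?_ (Multiset.le_cons_self _ _)
      simp only [mg, es]
      exact Multiset.cons_le_cons _ (Multiset.singleton_le.2 (info_mem hcd (by simp [n3, n4])))
    obtain ⟨hc, hd, x1, x2, R, st⟩ := info_star R1 W.1 d6 T2
    have c2 := Finset.card_erase_add_one hc
    refine ⟨_, _, .step c M1 hc W.1 (info_smooth st), info_reg R1 (info_smooth st), by omega,
      by omega, info_contr st ⟨W.1, fun f h1 h2 => (W.2 f h1 h2).imp id (Or.imp id fun h => h.2)⟩,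
      fun h => ?_, fun p hp f => info_lift st p hp f⟩
    have T3 := T1 h
    have nm : ∀ (w : V) (t : Bool), (s(c, w), t) ∉
        (s(a, b), F.sg s(y, a) ^^ F.sg s(y, b)) ::ₘ {(s(a, b), F.sg s(a, b))} := by
      intro w t
      simp [d2.symm, d4.symm]
    rw [st.2.2.2.2.2, Multiset.le_cons_of_notMem (nm _ _), Multiset.le_cons_of_notMem (nm _ _),
      Multiset.le_cons_of_notMem (nm _ _), Multiset.le_cons_of_notMem (nm _ _)] at T3
    exact T3.trans ((Multiset.le_cons_self _ _).trans (Multiset.le_cons_self _ _))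
  · exact ⟨_, _, M1, R1, by omega, by omega,
      ⟨W.1, fun f h1 h2 => (W.2 f h1 h2).imp id fun h => h.resolve_right fun h => hcd h.1⟩, T1,
      fun p _ f => ⟨f, rfl⟩⟩

theorem info_light {F : SG V} (k : F.Ok) (hv : F.Hv) {y a b c d : V} (n : F.Nb y a b c d)
    {f : V → Bool} (h : neg f (F.sm y a b c d) ≤ 2) : F.Light y a b := by
  obtain ⟨m0, m1, m2, m3, m4, n1, n2, n3, n4⟩ := n.mem k
  obtain ⟨a1, a2, a3, a4⟩ := n.adj
  have e := (n.star k).2.2.2.2.2
  have h1 := SG.neg_E (F := F) f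
  rw [e] at h1
  have h2 := hv f
  have h3 := hv (tg f y)
  have h4 := n.card_N_tg k f
  have h5 : s(y, a) ∈ F.N (tg f y) ↔ s(y, a) ∉ F.N f := SG.mem_N_tg' k a1
  have h6 : s(y, b) ∈ F.N (tg f y) ↔ s(y, b) ∉ F.N f := SG.mem_N_tg' k a2
  simp only [SG.sm, mg, info_neg_cons] at h h1
  by_cases ha : s(y, a) ∈ F.N f
  · refine ⟨f, ?_, ha, ?_⟩ <;>
    · simp only [SG.mem_N, a1, a2, a3, a4, true_and] at ha h4 ⊢
      revert h h1 h4 ha
      rw [info_xr (f y) (f a), info_xr (f y) (f c)]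
      generalize (f y ^^ f a ^^ F.sg s(y, a)) = p1
      generalize (f y ^^ f b ^^ F.sg s(y, b)) = p2
      generalize (f y ^^ f c ^^ F.sg s(y, c)) = p3
      generalize (f y ^^ f d ^^ F.sg s(y, d)) = p4
      cases p1 <;> cases p2 <;> cases p3 <;> cases p4 <;> simp <;> omega
  · refine ⟨tg f y, ?_, h5.2 ha, h6.2 ?_⟩ <;>
    · simp only [SG.mem_N, a1, a2, a3, a4, true_and] at ha h4 ⊢
      revert h h1 h4 ha
      rw [info_xr (f y) (f a), info_xr (f y) (f c)]
      generalize (f y ^^ f a ^^ F.sg s(y, a)) = p1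
      generalize (f y ^^ f b ^^ F.sg s(y, b)) = p2
      generalize (f y ^^ f c ^^ F.sg s(y, c)) = p3
      generalize (f y ^^ f d ^^ F.sg s(y, d)) = p4
      cases p1 <;> cases p2 <;> cases p3 <;> cases p4 <;> simp <;> omega

theorem info_tri {F : SG V} (k : F.Ok) {y a b c d : V} (n : F.Nb y a b c d) {f : V → Bool}
    (h : ngp (fun e => decide (a ∉ e ∧ b ∉ e)) f (F.sm y a b c d) ≤ 1) : F.Tri y a b c d := by
  obtain ⟨d1, d2, d3, d4, d5, d6, -⟩ := id n
  obtain ⟨a1, a2, a3, a4⟩ := n.adj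
  refine ⟨f, ?_⟩
  have e : ((F.N f).filter fun e => y ∉ e ∧ a ∉ e ∧ b ∉ e).card =
      ngp (fun e => decide (a ∉ e ∧ b ∉ e)) f
        ((F.D.filter fun e => y ∉ e).val.map fun e => (e, F.sg e)) := by
    rw [ngp, Multiset.countP_map, SG.N, Finset.filter_filter]
    change _ = ((F.D.filter fun e => y ∉ e).filter _).card
    rw [Finset.filter_filter]
    congr 1
    refine Finset.filter_congr fun e _ => ?_
    simp only [Bool.and_eq_true, decide_eq_true_eq]
    tauto
  rw [e]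
  simp only [SG.sm, mg, ngp_cons] at h
  simp only [SG.mem_N, a3, a4, true_and]
  revert h
  cases f y <;> cases f c <;> cases f d <;> cases F.sg s(y, c) <;> cases F.sg s(y, d) <;>
    simp [d2, d3, d4, d5] <;> omega

theorem info : StInfo := by
  intro V _ F k hr hv hS H y a b c d n hN ho
  obtain ⟨S1, E1, M1, R1, c1, c2, W, T, L⟩ := info_red k hr n hN ho
  obtain ⟨d1, d2, d3, d4, d5, d6, -⟩ := id n
  have H1 : ∀ x ∈ S1, ∀ E', Smooth x E1 E' → PrE (S1.erase x) E' → ∃ f, neg f E' ≤ 3 := by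
    intro x hx E' sm pr
    have := Finset.card_erase_add_one hx
    exact H _ _ (.step x M1 hx W.1 sm) (by omega) (by omega) pr
  refine ⟨fun hab => ?_, fun hab => ?_⟩
  · have G : ∃ f, neg f E1 ≤ 2 := by
      by_cases h : s(a, b) ∈ F.D
      · have es : (F.sg s(y, a) ^^ F.sg s(y, b)) = F.sg s(a, b) := by
          have : ¬ (F.sg s(y, a) ^^ F.sg s(y, b) ^^ F.sg s(a, b)) = true := fun t => hab ⟨h, t⟩
          revert this
          cases F.sg s(y, a) <;> cases F.sg s(y, b) <;> cases F.sg s(a, b) <;> decide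
        have T1 := T h
        rw [es] at T1
        obtain ⟨ha, hb, x1, x2, R, st⟩ := info_star R1 W.1 d1 T1
        obtain ⟨f, hf⟩ := info_pre st R1 ha (W.mono fun f t => t.2) H1
        obtain ⟨f', hf'⟩ := info_lift st (fun _ => true) (fun _ => rfl) f
        rw [ngp_of _ _ fun _ _ => rfl, ngp_of _ _ fun _ _ => rfl] at hf'
        exact ⟨f', by omega⟩
      · obtain ⟨f, hf⟩ := H _ _ M1 c2 (by omega)
          ⟨W.1, fun f h1 h2 => (W.2 f h1 h2).resolve_right fun t => h t.1⟩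
        have := Nat.even_iff.1 (R1.2.2 f)
        exact ⟨f, by omega⟩
    obtain ⟨f, hf⟩ := G
    obtain ⟨f', hf'⟩ := L (fun _ => true) (fun _ => rfl) f
    rw [ngp_of _ _ fun _ _ => rfl, ngp_of _ _ fun _ _ => rfl] at hf'
    exact info_light k hv n (f := f') (by omega)
  · have es : F.sg s(a, b) = !(F.sg s(y, a) ^^ F.sg s(y, b)) := by
      have := hab.2
      revert this
      cases F.sg s(y, a) <;> cases F.sg s(y, b) <;> cases F.sg s(a, b) <;> decide
    have T1 := T hab.1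
    rw [es] at T1
    obtain ⟨f, hf⟩ := info_odd R1 (W.mono fun f t => t.2) d1 T1 (by omega) H1
    obtain ⟨f', hf'⟩ := L (fun e => decide (a ∉ e ∧ b ∉ e))
      (fun w => by simp [d2, d3, d4, d5]) f
    exact info_tri k n (f := f') (by omega)

end Pool.Agent.Lib.MP_d7353d_co.T
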