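import Pool.Agent.Lib.MP_d7353d_co.TS
import Pool.Agent.Lib.MP_d7353d_co.Geom

/-! Circle graphs and double occurrence words. -/

namespace Pool.Agent.Lib.MP_d7353d_co.T

set_option linter.unusedSectionVars false
set_option linter.unusedSimpArgs false

set_option linter.unusedVariables false

attribute [-instance] Sum.instBEq

variable {V : Type} [DecidableEq V]

/-- the chord of an end -/
def lkP : V ⊕ V → V := Sum.elim id id

theorem lk_dec (e : V ⊕ V) (v : V) :
    decide (lkP e = v) = (decide (e = .inl v) ^^ decide (e = .inr v)) := by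
  rcases e with a | a <;> simp [lkP]

theorem lk_par (M : List (V ⊕ V)) (v : V) :
    par (M.map lkP) v = (par M (.inl v) ^^ par M (.inr v)) := by
  induction M with
  | nil => rfl
  | cons e M ih =>
    simp only [List.map_cons, par, ih, lk_dec]
    cases decide (e = .inl v) <;> cases decide (e = .inr v) <;> cases par M (.inl v) <;>
      cases par M (.inr v) <;> rfl

theorem lk_inv (M : List (V ⊕ V)) (u v : V) :
    inv (M.map lkP) u v = (inv M (.inl u) (.inl v) ^^ inv M (.inl u) (.inr v) ^^
      inv M (.inr u) (.inl v) ^^ inv M (.inr u) (.inr v)) := by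
  induction M with
  | nil => rfl
  | cons e M ih =>
    simp only [List.map_cons, inv, ih, lk_dec, lk_par]
    cases decide (e = .inl u) <;> cases decide (e = .inr u) <;> cases par M (.inl v) <;>
      cases par M (.inr v) <;> cases inv M (.inl u) (.inl v) <;> cases inv M (.inl u) (.inr v) <;>
      cases inv M (.inr u) (.inl v) <;> cases inv M (.inr u) (.inr v) <;> rfl

theorem lk_nodup {k : V → ℝ} {M : List V} (h : M.Pairwise fun a b => k a < k b) : M.Nodup :=
  h.imp fun {a b} l e => by rw [e] at l; exact lt_irrefl _ l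

theorem lk_sorted {k : V → ℝ} {M : List V} (h : M.Pairwise fun a b => k a < k b) {e e' : V}
    (he : e ∈ M) (he' : e' ∈ M) : inv M e e' = decide (k e < k e') := by
  induction M with
  | nil => simp at he
  | cons a M ih =>
    obtain ⟨h1, h2⟩ := List.pairwise_cons.1 h
    have hn : a ∉ M := fun m => lt_irrefl _ (h1 a m)
    rw [inv]
    by_cases e1 : a = e
    · subst e1
      rw [inv_left hn]
      rcases List.mem_cons.1 he' with rfl | m
      · simp [par_of_not_mem hn]
      · simp [par_eq, List.count_eq_one_of_mem (lk_nodup h2) m, h1 _ m]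
    · have m : e ∈ M := (List.mem_cons.1 he).resolve_left (Ne.symm e1)
      rcases List.mem_cons.1 he' with rfl | m'
      · simp [e1, inv_right hn, (h1 _ m).le]
      · simp [e1, ih h2 m m']

theorem lk_cross {a c b d : ℝ} (h1 : a < c) (h2 : b < d) (n1 : a ≠ b) (n2 : a ≠ d) (n3 : c ≠ b)
    (n4 : c ≠ d) : (decide (a < b) ^^ decide (a < d) ^^ decide (c < b) ^^ decide (c < d)) = true ↔
      Cross a c b d := by
  unfold Cross
  by_cases e1 : a < b <;> by_cases e2 : a < d <;> by_cases e3 : c < b <;> by_cases e4 : c < d <;>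
    simp [e1, e2, e3, e4] <;> grind

theorem lk_main {f g : V → ℝ} {M : List (V ⊕ V)}
    (h : M.Pairwise fun a b => Sum.elim f g a < Sum.elim f g b) (hM : ∀ e, e ∈ M)
    (hi : Function.Injective (Sum.elim f g)) (hl : ∀ v, f v < g v) {u v : V} (huv : u ≠ v) :
    inv (M.map lkP) u v = true ↔ Cross (f u) (g u) (f v) (g v) := by
  rw [lk_inv, lk_sorted h (hM _) (hM _), lk_sorted h (hM _) (hM _), lk_sorted h (hM _) (hM _),
    lk_sorted h (hM _) (hM _)]
  refine lk_cross (hl u) (hl v) (fun e => ?_) (fun e => ?_) (fun e => ?_) (fun e => ?_)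
  · exact huv (by simpa using hi (a₁ := .inl u) (a₂ := .inl v) e)
  · simpa using hi (a₁ := .inl u) (a₂ := .inr v) e
  · simpa using hi (a₁ := .inr u) (a₂ := .inl v) e
  · exact huv (by simpa using hi (a₁ := .inr u) (a₂ := .inr v) e)

theorem lk_count (M : List (V ⊕ V)) (v : V) :
    (M.map lkP).count v = M.count (.inl v) + M.count (.inr v) := by
  induction M with
  | nil => rfl
  | cons e M ih =>
    simp only [List.map_cons, List.count_cons, ih]
    rcases e with a | a <;> simp [lkP] <;> omega

/-- mark first and second occurrences -/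
def lkM : List V → List (V ⊕ V)
  | [] => []
  | a :: l => (if a ∈ l then .inl a else .inr a) :: lkM l

theorem lkM_map (W : List V) : (lkM W).map lkP = W := by
  induction W with
  | nil => rfl
  | cons a l ih =>
    rw [lkM, List.map_cons, ih]
    split_ifs <;> rfl

theorem lkM_inr (W : List V) (v : V) : (lkM W).count (.inr v) = if v ∈ W then 1 else 0 := by
  induction W with
  | nil => rfl
  | cons a l ih =>
    rw [lkM, List.count_cons, ih]
    by_cases h1 : a ∈ l <;> by_cases h2 : a = v
    · subst h2; simp [h1]
    · simp [h1, h2, Ne.symm h2]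
    · subst h2; simp [h1]
    · simp [h1, h2, Ne.symm h2]

theorem lkM_inv (W : List V) (v : V) : inv (lkM W) (.inr v) (.inl v) = false := by
  induction W with
  | nil => rfl
  | cons a l ih =>
    rw [lkM, inv, ih]
    by_cases h1 : a ∈ l
    · simp [h1]
    · by_cases h2 : a = v
      · subst h2
        have : Sum.inl a ∉ lkM l := fun m =>
          h1 (lkM_map l ▸ List.mem_map.2 ⟨_, m, rfl⟩)
        simp [par_of_not_mem this]
      · simp [h1, h2]

theorem link : StLink := by
  intro V _ _ G _
  rw [circle_iff_lin]
  constructor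
  · rintro ⟨f, g, hl, hi, ha⟩
    let M := (Finset.univ : Finset (V ⊕ V)).toList.mergeSort
      fun a b => decide (Sum.elim f g a ≤ Sum.elim f g b)
    have p : M.Perm (Finset.univ : Finset (V ⊕ V)).toList := List.mergeSort_perm _ _
    have nd : M.Nodup := p.nodup_iff.2 (Finset.nodup_toList _)
    have hM : ∀ e, e ∈ M := fun e => p.mem_iff.2 (by simp)
    have s : M.Pairwise fun a b => decide (Sum.elim f g a ≤ Sum.elim f g b) = true :=
      List.pairwise_mergeSort (fun a b c h1 h2 => by simp only [decide_eq_true_eq] at *; exact h1.trans h2)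
        (fun a b => by simpa using le_total _ _) _
    have s' : M.Pairwise fun a b => Sum.elim f g a < Sum.elim f g b :=
      (s.and nd).imp fun {a b} h => lt_of_le_of_ne (of_decide_eq_true h.1) fun e => h.2 (hi e)
    refine ⟨M.map lkP, fun v => ?_, fun u _ v _ huv => ?_⟩
    · rw [lk_count, List.count_eq_one_of_mem nd (hM _), List.count_eq_one_of_mem nd (hM _)]
      simp
    · rw [Bool.eq_iff_iff, lk_main s' hM hi hl huv, decide_eq_true_eq, ha u v huv]
  · rintro ⟨W, hD, ha⟩
    have c2 : ∀ v, (lkM W).count (.inr v) = 1 := fun v => by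
      rw [lkM_inr, if_pos (hD.mem.2 (Finset.mem_univ v))]
    have c1 : ∀ v, (lkM W).count (.inl v) = 1 := fun v => by
      have h1 := lk_count (lkM W) v
      rw [lkM_map, hD v, if_pos (Finset.mem_univ v), c2] at h1
      omega
    have c : ∀ e, (lkM W).count e = 1 := fun e => by
      rcases e with a | a
      exacts [c1 a, c2 a]
    have nd : (lkM W).Nodup := List.nodup_iff_count_le_one.2 fun e => (c e).le
    have hM : ∀ e, e ∈ lkM W := fun e => List.count_pos_iff.1 (by rw [c]; exact one_pos)
    let f : V → ℝ := fun v => ((lkM W).idxOf (.inl v) : ℕ)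
    let g : V → ℝ := fun v => ((lkM W).idxOf (.inr v) : ℕ)
    have hk : ∀ e, Sum.elim f g e = ((lkM W).idxOf e : ℕ) := fun e => by
      rcases e with a | a <;> rfl
    have hi : Function.Injective (Sum.elim f g) := fun a b e => by
      rw [hk, hk, Nat.cast_inj] at e
      exact (List.idxOf_inj (hM a)).1 e
    have s : (lkM W).Pairwise fun a b => Sum.elim f g a < Sum.elim f g b := by
      rw [List.pairwise_iff_getElem]
      intro i j hi hj hij
      rw [hk, hk, nd.idxOf_getElem, nd.idxOf_getElem]
      exact_mod_cast hij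
    have hl : ∀ v, f v < g v := fun v => by
      have h1 := lk_sorted s (hM (.inr v)) (hM (.inl v))
      rw [lkM_inv] at h1
      have h2 : ¬ g v < f v := by simpa using h1
      refine lt_of_le_of_ne (not_lt.1 h2) fun e => ?_
      simpa using hi (a₁ := .inl v) (a₂ := .inr v) e
    refine ⟨f, g, hl, hi, fun u v huv => ?_⟩
    rw [← lk_main s hM hi hl huv, lkM_map, ← ha u (Finset.mem_univ _) v (Finset.mem_univ _) huv,
      decide_eq_true_eq]

end Pool.Agent.Lib.MP_d7353d_co.T
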