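import Pool.Agent.Lib.MP_d7353d_co.TG

/-! Signs follow the moves on words; every smoothing is realised by a vertex-minor. -/

namespace Pool.Agent.Lib.MP_d7353d_co.T

set_option linter.unusedSectionVars false
set_option linter.unusedSimpArgs false

variable {V : Type} [DecidableEq V]

theorem mv_wk_append (p : V) (s : Bool) (A : List (V × Bool)) (a : V × Bool) (B : List (V × Bool))
    (q : V) : wk p s (A ++ a :: B) q = wk p s A a.1 + wk a.1 a.2 B q := by
  induction A generalizing p s with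
  | nil => simp [wk]
  | cons c A ih => simp [wk, ih]

theorem mv_tot_append (A B : List (V × Bool)) : tot (A ++ B) = (tot A ^^ tot B) := by
  induction A with
  | nil => simp [tot]
  | cons c A ih => simp [tot, ih]

theorem mv_sp_append (A B : List (V × Bool)) (u : V) :
    sp (A ++ B) u = (sp A u ^^ sp B u ^^ (par (A.map Prod.fst) u && tot B)) := by
  induction A with
  | nil => simp [sp, par]
  | cons c A ih =>
    simp only [List.cons_append, sp, ih, mv_tot_append, List.map_cons, par]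
    cases decide (c.1 = u) <;> cases c.2 <;> cases tot A <;> cases tot B <;> cases sp A u <;>
      cases sp B u <;> cases par (A.map Prod.fst) u <;> rfl

theorem mv_sp_not_mem {A : List (V × Bool)} {u : V} (h : u ∉ A.map Prod.fst) : sp A u = false := by
  induction A with
  | nil => rfl
  | cons c A ih =>
    simp only [List.map_cons, List.mem_cons, not_or] at h
    have h1 : ¬ c.1 = u := fun e => h.1 e.symm
    simp [sp, h1, ih h.2]

theorem mv_cyc_rot (A B : List (V × Bool)) : cyc (B ++ A) = cyc (A ++ B) := by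
  cases A with
  | nil => simp
  | cons a A =>
    cases B with
    | nil => simp
    | cons b B => simp only [List.cons_append, cyc, mv_wk_append, add_comm]

theorem SR.rot {G : Gr V} {x : V} {S : Finset V} {A B : List (V × Bool)} (h : SR G x S (A ++ B)) :
    SR G x S (B ++ A) := by
  obtain ⟨h1, h2, h3⟩ := h
  rw [List.map_append] at h1
  refine ⟨by rw [List.map_append]; exact h1.rot, fun u hu => ?_, ?_⟩
  · have k := h1.1.par u
    rw [par_append] at k
    rw [mv_tot_append] at h3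
    rw [h2 u hu, mv_sp_append, mv_sp_append]
    revert k h3
    cases tot A <;> cases tot B <;> cases sp A u <;> cases sp B u <;>
      cases par (A.map Prod.fst) u <;> cases par (B.map Prod.fst) u <;> simp
  · rw [mv_tot_append] at h3 ⊢
    rw [Bool.xor_comm, h3]

/-- reversal of a signed segment whose entering gap has the sign `s` -/
def rv : Bool → List (V × Bool) → Bool × List (V × Bool)
  | s, [] => (s, [])
  | s, a :: A => ((rv a.2 A).1, (rv a.2 A).2 ++ [(a.1, s)])

theorem rv_map (s : Bool) (A : List (V × Bool)) :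
    (rv s A).2.map Prod.fst = (A.map Prod.fst).reverse := by
  induction A generalizing s with
  | nil => rfl
  | cons a A ih => simp [rv, ih]

theorem rv_wk (p : V) (s : Bool) (A : List (V × Bool)) (q : V) :
    wk p (rv s A).1 (rv s A).2 q = wk q s A p := by
  induction A generalizing s q with
  | nil => simp only [rv, wk, Sym2.eq_swap (a := p)]
  | cons a A ih =>
    simp only [rv, mv_wk_append, ih, wk, Sym2.eq_swap (a := q)]
    rw [add_comm, Multiset.singleton_add]

theorem rv_tot (s : Bool) (A : List (V × Bool)) :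
    ((rv s A).1 ^^ tot (rv s A).2) = (s ^^ tot A) := by
  induction A generalizing s with
  | nil => rfl
  | cons a A ih =>
    have := ih a.2
    simp only [rv, mv_tot_append, tot]
    revert this
    cases (rv a.2 A).1 <;> cases tot (rv a.2 A).2 <;> cases s <;> cases a.2 <;> cases tot A <;> simp

theorem rv_sp (s : Bool) (A : List (V × Bool)) (u : V) :
    sp (rv s A).2 u = (sp A u ^^ (par (A.map Prod.fst) u && (s ^^ tot A))) := by
  induction A generalizing s with
  | nil => simp [rv, sp, par]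
  | cons a A ih =>
    simp only [rv, mv_sp_append, ih, sp, tot, rv_map, par_reverse, List.map_cons, par]
    cases decide (a.1 = u) <;> cases a.2 <;> cases tot A <;> cases s <;> cases sp A u <;>
      cases par (A.map Prod.fst) u <;> rfl

theorem rv_append (s : Bool) (X : List (V × Bool)) (c : V × Bool) (Y : List (V × Bool)) :
    rv s (X ++ c :: Y) = ((rv c.2 Y).1, (rv c.2 Y).2 ++ (c.1, (rv s X).1) :: (rv s X).2) := by
  induction X generalizing s with
  | nil => simp [rv]
  | cons a X ih => simp [rv, ih]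

theorem SR.rev {G : Gr V} {x : V} {S : Finset V} {a : V × Bool} {A : List (V × Bool)}
    (h : SR G x S (a :: A)) : SR G x S ((rv a.2 A).2 ++ [(a.1, (rv a.2 A).1)]) := by
  obtain ⟨h1, h2, h3⟩ := h
  have k := rv_tot a.2 A
  rw [tot] at h3
  refine ⟨?_, fun u hu => ?_, ?_⟩
  · have := h1.rev
    simpa [rv_map] using this
  · have k2 := h1.1.par u
    rw [h2 u hu]
    simp only [mv_sp_append, rv_sp, sp, tot, h3, rv_map, par_reverse, List.map_cons, par] at k2 ⊢
    revert k2
    cases decide (a.1 = u) <;> cases (rv a.2 A).1 <;> cases sp A u <;>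
      cases par (A.map Prod.fst) u <;> simp
  · rw [h3] at k
    simp only [mv_tot_append, tot]
    revert k
    cases (rv a.2 A).1 <;> cases tot (rv a.2 A).2 <;> simp

theorem SR.lcs {G : Gr V} (hG : Sy G) {x : V} {S : Finset V} (hx : x ∉ S) {y : V} {s t : Bool}
    {A B : List (V × Bool)} (h : SR G x S ((y, s) :: A ++ (y, t) :: B)) :
    SR (lc G y) x S ((y, (rv s A).1) :: (rv s A).2 ++ (y, t) :: B) := by
  obtain ⟨h1, h2, h3⟩ := h
  have h1' : Rep G S (y :: A.map Prod.fst ++ y :: B.map Prod.fst) := by simpa using h1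
  obtain ⟨hy, hA, hB⟩ := h1'.1.not_mem
  have k := rv_tot s A
  simp only [List.cons_append, tot, mv_tot_append] at h3
  refine ⟨?_, fun u hu => ?_, ?_⟩
  · have := h1'.lcs hG
    simpa [rv_map] using this
  · have hux : u ≠ x := fun e => hx (e ▸ hu)
    have gy : G u y = par (A.map Prod.fst) u := by
      by_cases e : y = u
      · rw [← e, hG.2, par_of_not_mem hA]
      · rw [hG.1 u y, h1'.adj hu e]
    rw [lc, if_neg hux, gy, h2 u hu, h2 y hy]
    simp only [List.cons_append, sp, mv_sp_append, mv_tot_append, tot, rv_sp, rv_map, par_reverse,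
      mv_sp_not_mem hA, mv_sp_not_mem hB, par_of_not_mem hA, decide_true]
    revert k h3
    cases decide (y = u) <;> cases (rv s A).1 <;> cases tot (rv s A).2 <;> cases s <;> cases t <;>
      cases tot A <;> cases tot B <;> cases sp A u <;> cases sp B u <;>
      cases par (A.map Prod.fst) u <;> simp
  · simp only [List.cons_append, tot, mv_tot_append]
    revert k h3
    cases (rv s A).1 <;> cases tot (rv s A).2 <;> cases s <;> cases t <;>
      cases tot A <;> cases tot B <;> simp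

/-- a state reached from `L` by moves -/
def Sta (G : Gr V) (x : V) (S : Finset V) (L : List (V × Bool)) (G' : Gr V)
    (L' : List (V × Bool)) : Prop :=
  LE S G G' ∧ SR G' x S L' ∧ Eqv (L.map Prod.fst) (L'.map Prod.fst) ∧ cyc L' = cyc L

variable {G G' : Gr V} {x : V} {S : Finset V} {L : List (V × Bool)}

theorem Sta.rot {A B : List (V × Bool)} (h : Sta G x S L G' (A ++ B)) : Sta G x S L G' (B ++ A) := by
  obtain ⟨h1, h2, h3, h4⟩ := h
  refine ⟨h1, h2.rot, ?_, by rw [mv_cyc_rot, h4]⟩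
  rw [List.map_append] at h3 ⊢
  exact .rot _ _ h3

theorem Sta.rev {a : V × Bool} {A : List (V × Bool)} (h : Sta G x S L G' (a :: A)) :
    Sta G x S L G' ((rv a.2 A).2 ++ [(a.1, (rv a.2 A).1)]) := by
  obtain ⟨h1, h2, h3, h4⟩ := h
  refine ⟨h1, h2.rev, ?_, ?_⟩
  · have := Eqv.rev _ h3
    simpa [rv_map] using this
  · rw [mv_cyc_rot, ← h4]
    simp only [List.cons_append, List.nil_append, cyc, rv_wk]

theorem Sta.lcs (hG : Sy G) (hx : x ∉ S) {y : V} {s t : Bool} {A B : List (V × Bool)}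
    (h : Sta G x S L G' ((y, s) :: A ++ (y, t) :: B)) :
    Sta G x S L (lc G' y) ((y, (rv s A).1) :: (rv s A).2 ++ (y, t) :: B) := by
  obtain ⟨h1, h2, h3, h4⟩ := h
  have h1' : Rep G' S (y :: A.map Prod.fst ++ y :: B.map Prod.fst) := by simpa using h2.1
  obtain ⟨hy, hA, hB⟩ := h1'.1.not_mem
  refine ⟨.step y hy h1, h2.lcs (h1.sy hG) hx, ?_, ?_⟩
  · have := Eqv.lcs y _ _ hA hB (by simpa using h3 : Eqv (L.map Prod.fst)
      (y :: A.map Prod.fst ++ y :: B.map Prod.fst))
    simpa [rv_map] using this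
  · rw [← h4]
    simp only [List.cons_append, cyc, mv_wk_append, rv_wk]

theorem move : StMove := by
  intro V _ G x S L W' hG hx h e
  suffices k : ∃ G' L', Sta G x S L G' L' ∧ L'.map Prod.fst = W' by
    obtain ⟨G', L', ⟨k1, k2, -, k4⟩, k5⟩ := k
    exact ⟨G', L', k1, k2, k5, k4⟩
  induction e with
  | refl => exact ⟨G, L, ⟨.refl, h, .refl, rfl⟩, rfl⟩
  | rot A B _ ih =>
    obtain ⟨G', L', k, e⟩ := ih
    obtain ⟨X, Y, rfl, rfl, rfl⟩ := List.map_eq_append_iff.1 e
    exact ⟨G', _, k.rot, List.map_append⟩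
  | rev A _ ih =>
    obtain ⟨G', L', k, rfl⟩ := ih
    cases L' with
    | nil => exact ⟨G', [], k, rfl⟩
    | cons a A => exact ⟨G', _, k.rev, by simp [rv_map]⟩
  | lcs y A B _ _ _ ih =>
    obtain ⟨G', L', k, e⟩ := ih
    obtain ⟨X, Y, rfl, e1, e2⟩ := List.map_eq_append_iff.1 e
    obtain ⟨⟨y1, s⟩, X, rfl, rfl, rfl⟩ := List.map_eq_cons_iff.1 e1
    obtain ⟨⟨y2, t⟩, Y, rfl, e3, rfl⟩ := List.map_eq_cons_iff.1 e2
    simp only at e3
    subst e3
    exact ⟨_, _, k.lcs hG hx, by simp [rv_map]⟩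

/-- first half edge of a segment entered with sign `s` and followed by `q` -/
def fe : Bool → List (V × Bool) → V → V × Bool
  | s, [], q => (q, s)
  | s, a :: _, _ => (a.1, s)

/-- last letter with its sign -/
def la : V → Bool → List (V × Bool) → V × Bool
  | p, s, [] => (p, s)
  | _, _, a :: l => la a.1 a.2 l

/-- the inner edges of a segment -/
def pe : V → Bool → List (V × Bool) → Multiset (Ed V)
  | _, _, [] => 0
  | p, s, a :: l => (s(p, a.1), s) ::ₘ pe a.1 a.2 l

/-- add `t` to the last sign -/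
def ad (t : Bool) : Bool → List (V × Bool) → Bool × List (V × Bool)
  | s, [] => (s ^^ t, [])
  | s, a :: l => (s, (a.1, (ad t a.2 l).1) :: (ad t a.2 l).2)

theorem fe_append (s : Bool) (X : List (V × Bool)) (c : V × Bool) (Y : List (V × Bool)) (q : V) :
    fe s (X ++ c :: Y) q = fe s X c.1 := by cases X <;> rfl

theorem la_append (p : V) (s : Bool) (X : List (V × Bool)) (c : V × Bool) (Y : List (V × Bool)) :
    la p s (X ++ c :: Y) = la c.1 c.2 Y := by
  induction X generalizing p s with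
  | nil => rfl
  | cons a X ih => simp [la, ih]

theorem la_rv (p : V) (s : Bool) (A : List (V × Bool)) : la p (rv s A).1 (rv s A).2 = fe s A p := by
  cases A with
  | nil => rfl
  | cons a A => simp only [rv, la_append, la, fe]

theorem fe_rv (s : Bool) (A : List (V × Bool)) (q : V) : fe (rv s A).1 (rv s A).2 q = la q s A := by
  induction A generalizing s q with
  | nil => rfl
  | cons a A ih => simp only [rv, fe_append, la, ih]

theorem wk_la (p : V) (s : Bool) (l : List (V × Bool)) (q : V) :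
    wk p s l q = (s((la p s l).1, q), (la p s l).2) ::ₘ pe p s l := by
  induction l generalizing p s with
  | nil => rfl
  | cons a l ih => simp only [wk, la, pe, ih]; rw [Multiset.cons_swap]

theorem la_mem (p : V) (s : Bool) (l : List (V × Bool)) : (la p s l).1 ∈ p :: l.map Prod.fst := by
  induction l generalizing p s with
  | nil => simp [la]
  | cons a l ih => exact List.mem_cons_of_mem _ (ih a.1 a.2)

theorem pe_mem (p : V) (s : Bool) (l : List (V × Bool)) :
    ∀ e ∈ pe p s l, ∀ v ∈ e.1, v ∈ p :: l.map Prod.fst := by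
  induction l generalizing p s with
  | nil => simp [pe]
  | cons a l ih =>
    intro e he v hv
    rcases Multiset.mem_cons.1 he with rfl | he
    · rcases Sym2.mem_iff.1 hv with rfl | rfl <;> simp
    · exact List.mem_cons_of_mem _ (ih a.1 a.2 e he v hv)

theorem pe_cut (f : V → Bool) (c : Bool) (p : V) (s : Bool) (l : List (V × Bool))
    (h : ∀ v ∈ p :: l.map Prod.fst, f v = c) : cut f (pe p s l) = 0 := by
  rw [cut, Multiset.countP_eq_zero]
  rintro ⟨e, σ⟩ he
  have := pe_mem p s l _ he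
  induction e using Sym2.ind with
  | _ u v => simp [h u (this u (by simp)), h v (this v (by simp))]

theorem ad_map (t s : Bool) (l : List (V × Bool)) : (ad t s l).2.map Prod.fst = l.map Prod.fst := by
  induction l generalizing s with
  | nil => rfl
  | cons a l ih => simp [ad, ih]

theorem ad_tot (t s : Bool) (l : List (V × Bool)) :
    ((ad t s l).1 ^^ tot (ad t s l).2) = (s ^^ tot l ^^ t) := by
  induction l generalizing s with
  | nil => simp [ad, tot]
  | cons a l ih => simp [ad, tot, ih]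

theorem ad_sp (t s : Bool) (l : List (V × Bool)) (u : V) :
    sp (ad t s l).2 u = (sp l u ^^ (par (l.map Prod.fst) u && t)) := by
  induction l generalizing s with
  | nil => simp [ad, sp, par]
  | cons a l ih =>
    simp only [ad, sp, ad_tot, ih, List.map_cons, par]
    cases decide (a.1 = u) <;> cases a.2 <;> cases tot l <;> cases t <;> cases sp l u <;>
      cases par (l.map Prod.fst) u <;> rfl

theorem ad_wk (t : Bool) (p : V) (s : Bool) (l : List (V × Bool)) (q : V) :
    wk p (ad t s l).1 (ad t s l).2 q = (s((la p s l).1, q), (la p s l).2 ^^ t) ::ₘ pe p s l := by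
  induction l generalizing p s with
  | nil => rfl
  | cons a l ih => simp only [ad, wk, la, pe, ih]; rw [Multiset.cons_swap]

theorem Star.no_loop {E R : Multiset (Ed V)} {y : V} {k1 k2 k3 k4 : V × Bool}
    (h : Star E y k1 k2 k3 k4 R) (σ : Bool) : (s(y, y), σ) ∉ E := by
  obtain ⟨h0, h1, h2, h3, h4, rfl⟩ := h
  simp only [Multiset.mem_cons, Prod.mk.injEq, Sym2.congr_right, not_or]
  exact ⟨fun e => h1 e.1.symm, fun e => h2 e.1.symm, fun e => h3 e.1.symm, fun e => h4 e.1.symm,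
    fun e => h0 _ e (by simp)⟩

theorem Star.uniq {E R R' : Multiset (Ed V)} {y : V} {h1 h2 h3 h4 k1 k2 k3 k4 : V × Bool}
    (h : Star E y h1 h2 h3 h4 R) (k : Star E y k1 k2 k3 k4 R') :
    R = R' ∧ (h1 ::ₘ h2 ::ₘ h3 ::ₘ {h4} : Multiset (V × Bool)) = k1 ::ₘ k2 ::ₘ k3 ::ₘ {k4} := by
  have key : ∀ {R : Multiset (Ed V)} {a b c d : V × Bool}, Star E y a b c d R →
      E.filter (fun e => y ∉ e.1) = R ∧
      E = (a ::ₘ b ::ₘ c ::ₘ {d} : Multiset (V × Bool)).map (fun h => (s(y, h.1), h.2)) + R := by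
    rintro R a b c d ⟨h0, -, -, -, -, rfl⟩
    refine ⟨?_, by simp⟩
    simp only [Multiset.filter_cons, Sym2.mem_mk_left, not_true, if_false, zero_add]
    exact Multiset.filter_eq_self.2 h0
  have e : R = R' := (key h).1.symm.trans (key k).1
  refine ⟨e, ?_⟩
  have e2 := (key h).2.symm.trans (key k).2
  rw [e, add_left_inj] at e2
  refine Multiset.map_injective (fun a b e => ?_) e2
  simp only [Prod.mk.injEq, Sym2.congr_right] at e
  exact Prod.ext e.1 e.2

theorem mg_comm (h k : V × Bool) : mg h k = mg k h := by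
  rw [mg, mg, Sym2.eq_swap, Bool.xor_comm]

theorem mv_pair {α : Type} {a b c d : α} (h : (a ::ₘ {b} : Multiset α) = c ::ₘ {d}) :
    (a = c ∧ b = d) ∨ (a = d ∧ b = c) := by
  have ha : a ∈ (c ::ₘ {d} : Multiset α) := h ▸ Multiset.mem_cons_self _ _
  rcases Multiset.mem_cons.1 ha with rfl | ha
  · exact Or.inl ⟨rfl, by simpa using h⟩
  · rw [Multiset.mem_singleton] at ha
    subst ha
    have : (c ::ₘ {a} : Multiset α) = a ::ₘ {c} := Multiset.cons_swap c a 0
    rw [this] at h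
    exact Or.inr ⟨rfl, by simpa using h⟩

theorem mv_three {α : Type} {a b c d : α} {K : Multiset α} (h : a ::ₘ K = b ::ₘ c ::ₘ {d}) :
    (a = b ∧ K = c ::ₘ {d}) ∨ (a = c ∧ K = b ::ₘ {d}) ∨ (a = d ∧ K = b ::ₘ {c}) := by
  have ha : a ∈ (b ::ₘ c ::ₘ {d} : Multiset α) := h ▸ Multiset.mem_cons_self _ _
  simp only [Multiset.mem_cons, Multiset.mem_singleton] at ha
  rcases ha with rfl | rfl | rfl
  · exact Or.inl ⟨rfl, by simpa using h⟩
  · rw [Multiset.cons_swap b a] at h
    exact Or.inr (Or.inl ⟨rfl, by simpa using h⟩)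
  · have : (b ::ₘ c ::ₘ {a} : Multiset α) = a ::ₘ b ::ₘ {c} := by
      rw [show (c ::ₘ {a} : Multiset α) = a ::ₘ {c} from Multiset.cons_swap c a 0, Multiset.cons_swap]
    rw [this] at h
    exact Or.inr (Or.inr ⟨rfl, by simpa using h⟩)

theorem mv_four {α : Type} {a b c d e : α} {K : Multiset α} (h : a ::ₘ K = b ::ₘ c ::ₘ d ::ₘ {e}) :
    (a = b ∧ K = c ::ₘ d ::ₘ {e}) ∨ (a = c ∧ K = b ::ₘ d ::ₘ {e}) ∨ (a = d ∧ K = b ::ₘ c ::ₘ {e}) ∨
      (a = e ∧ K = b ::ₘ c ::ₘ {d}) := by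
  have ha : a ∈ (b ::ₘ c ::ₘ d ::ₘ {e} : Multiset α) := h ▸ Multiset.mem_cons_self _ _
  simp only [Multiset.mem_cons, Multiset.mem_singleton] at ha
  rcases ha with rfl | rfl | rfl | rfl
  · exact Or.inl ⟨rfl, by simpa using h⟩
  · rw [Multiset.cons_swap b a] at h
    exact Or.inr (Or.inl ⟨rfl, by simpa using h⟩)
  · rw [Multiset.cons_swap c a, Multiset.cons_swap b a] at h
    exact Or.inr (Or.inr (Or.inl ⟨rfl, by simpa using h⟩))
  · have : (b ::ₘ c ::ₘ d ::ₘ {a} : Multiset α) = a ::ₘ b ::ₘ c ::ₘ {d} := by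
      rw [show (d ::ₘ {a} : Multiset α) = a ::ₘ {d} from Multiset.cons_swap d a 0,
        Multiset.cons_swap c a, Multiset.cons_swap b a]
    rw [this] at h
    exact Or.inr (Or.inr (Or.inr ⟨rfl, by simpa using h⟩))

theorem mv_pairing {h1 h2 h3 h4 k1 k2 k3 k4 : V × Bool} (R : Multiset (Ed V))
    (e : (k1 ::ₘ k2 ::ₘ k3 ::ₘ {k4} : Multiset (V × Bool)) = h1 ::ₘ h2 ::ₘ h3 ::ₘ {h4}) :
    mg h2 h3 ::ₘ mg h4 h1 ::ₘ R = mg k1 k2 ::ₘ mg k3 k4 ::ₘ R ∨
    mg h1 h3 ::ₘ mg h4 h2 ::ₘ R = mg k1 k2 ::ₘ mg k3 k4 ::ₘ R ∨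
    mg h1 h2 ::ₘ mg h4 h3 ::ₘ R = mg k1 k2 ::ₘ mg k3 k4 ::ₘ R := by
  have q : ∀ a b c d : V × Bool, (mg a b ::ₘ mg c d ::ₘ R = mg a b ::ₘ mg d c ::ₘ R) ∧
      (mg a b ::ₘ mg c d ::ₘ R = mg b a ::ₘ mg c d ::ₘ R) ∧
      (mg a b ::ₘ mg c d ::ₘ R = mg b a ::ₘ mg d c ::ₘ R) ∧
      (mg a b ::ₘ mg c d ::ₘ R = mg c d ::ₘ mg a b ::ₘ R) ∧
      (mg a b ::ₘ mg c d ::ₘ R = mg c d ::ₘ mg b a ::ₘ R) ∧
      (mg a b ::ₘ mg c d ::ₘ R = mg d c ::ₘ mg a b ::ₘ R) ∧
      (mg a b ::ₘ mg c d ::ₘ R = mg d c ::ₘ mg b a ::ₘ R) := fun a b c d => by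
    rw [mg_comm b a, mg_comm d c, Multiset.cons_swap (mg c d)]
    exact ⟨rfl, rfl, rfl, rfl, rfl, rfl, rfl⟩
  obtain ⟨a1, a2, a3, a4, a5, a6, a7⟩ := q h2 h3 h4 h1
  obtain ⟨b1, b2, b3, b4, b5, b6, b7⟩ := q h1 h3 h4 h2
  obtain ⟨c1, c2, c3, c4, c5, c6, c7⟩ := q h1 h2 h4 h3
  rcases mv_four e with ⟨rfl, e2⟩ | ⟨rfl, e2⟩ | ⟨rfl, e2⟩ | ⟨rfl, e2⟩ <;>
    rcases mv_three e2 with ⟨rfl, e3⟩ | ⟨rfl, e3⟩ | ⟨rfl, e3⟩ <;>
    rcases mv_pair e3 with ⟨rfl, rfl⟩ | ⟨rfl, rfl⟩ <;>
    first
    | exact Or.inl rfl | exact Or.inr (Or.inl rfl) | exact Or.inr (Or.inr rfl)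
    | exact Or.inl (by assumption) | exact Or.inr (Or.inl (by assumption))
    | exact Or.inr (Or.inr (by assumption))

theorem mv_ne {y : V} {s t : Bool} {A B : List (V × Bool)} {k1 k2 k3 k4 : V × Bool}
    {R : Multiset (Ed V)} (st : Star (cyc ((y, s) :: A ++ (y, t) :: B)) y k1 k2 k3 k4 R) :
    A ≠ [] ∧ B ≠ [] := by
  constructor
  · rintro rfl
    exact st.no_loop s (by simp [cyc, wk])
  · rintro rfl
    exact st.no_loop t (by simp [cyc, mv_wk_append, wk])

theorem mv_bool : ∀ p1 p2 p3 p4 p5 p6 p7 p8 p9 p10 s t : Bool,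
    (s ^^ (p9 ^^ (p7 ^^ (t ^^ (p10 ^^ p8))))) = false →
    (false ^^ (p1 ^^ (p3 ^^ (false ^^ (p2 ^^ p4))))) = false →
    (false && (s ^^ (p9 ^^ (p7 ^^ (t ^^ (p10 ^^ p8))))) ^^
      (p1 && (p9 ^^ (p7 ^^ (t ^^ (p10 ^^ p8)))) ^^
        (p5 ^^ (false && (t ^^ (p10 ^^ p8)) ^^ (p2 && (p10 ^^ p8) ^^ p6)) ^^
          p3 && (t ^^ (p10 ^^ p8))))) =
    (p1 && (p9 ^^ p7 ^^ t ^^ (p10 ^^ p8 ^^ s)) ^^
      (p5 ^^ p3 && t ^^ (p2 && (p10 ^^ p8 ^^ s) ^^ (p6 ^^ p4 && s)) ^^ p3 && (p10 ^^ p8 ^^ s))) := by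
  intro p1 p2 p3 p4 p5 p6 p7 p8 p9 p10 s t
  cases p1 <;> cases p2 <;> cases p3 <;> cases p4 <;> cases s <;> cases t <;> cases p9 <;>
    cases p10 <;> cases p7 <;> cases p8 <;> simp

/-- deleting a letter -/
theorem mv_del {y : V} {s t : Bool} {A B : List (V × Bool)} {k1 k2 k3 k4 : V × Bool}
    {R : Multiset (Ed V)} (h : SR G x S ((y, s) :: A ++ (y, t) :: B))
    (st : Star (cyc ((y, s) :: A ++ (y, t) :: B)) y k1 k2 k3 k4 R) :
    (k1 ::ₘ k2 ::ₘ k3 ::ₘ {k4} : Multiset (V × Bool)) =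
      fe s A y ::ₘ la y s A ::ₘ fe t B y ::ₘ {la y t B} ∧
    ∃ L', SR G x (S.erase y) L' ∧
      cyc L' = mg (la y s A) (fe t B y) ::ₘ mg (la y t B) (fe s A y) ::ₘ R ∧
      (((y, s) :: A ++ (y, t) :: B).map Prod.fst).filter (fun v => decide (v ≠ y)) =
        L'.map Prod.fst := by
  obtain ⟨nA, nB⟩ := mv_ne st
  obtain ⟨a, A, rfl⟩ := List.exists_cons_of_ne_nil nA
  obtain ⟨b, B, rfl⟩ := List.exists_cons_of_ne_nil nB
  obtain ⟨h1, h2, h3⟩ := h
  have h1' : Rep G S (y :: (a :: A).map Prod.fst ++ y :: (b :: B).map Prod.fst) := by simpa using h1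
  obtain ⟨hy, hA, hB⟩ := h1'.1.not_mem
  have st' : Star (cyc ((y, s) :: (a :: A) ++ (y, t) :: b :: B)) y (a.1, s) (la a.1 a.2 A) (b.1, t)
      (la b.1 b.2 B) (pe a.1 a.2 A + pe b.1 b.2 B) := by
    refine ⟨fun e he hv => ?_, fun e => hA (by simp [← e]), fun e => hA (e ▸ la_mem a.1 a.2 A),
      fun e => hB (by simp [← e]), fun e => hB (e ▸ la_mem b.1 b.2 B), ?_⟩
    · rcases Multiset.mem_add.1 he with he | he
      · exact hA (pe_mem _ _ _ e he y hv)
      · exact hB (pe_mem _ _ _ e he y hv)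
    · simp only [List.cons_append, cyc, wk, mv_wk_append]
      rw [wk_la a.1 a.2 A, wk_la b.1 b.2 B, Sym2.eq_swap (b := y) (a := (la a.1 a.2 A).1),
        Sym2.eq_swap (b := y) (a := (la b.1 b.2 B).1)]
      simp only [Multiset.cons_add, Multiset.add_cons]
      congr 1
      rw [Multiset.cons_swap (s(y, (la b.1 b.2 B).1), (la b.1 b.2 B).2), Multiset.cons_swap]
  obtain ⟨e1, e2⟩ := st.uniq st'
  have fl : (((y, s) :: (a :: A) ++ (y, t) :: b :: B).map Prod.fst).filter (fun v => decide (v ≠ y)) =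
      (a :: A).map Prod.fst ++ (b :: B).map Prod.fst := by
    have f1 : ∀ l : List V, y ∉ l → l.filter (fun v => decide (v ≠ y)) = l := fun l hl =>
      List.filter_eq_self.2 fun v hv => by
        simp only [decide_eq_true_eq]; exact fun e => hl (e ▸ hv)
    rw [List.cons_append, List.map_cons, List.map_append, List.map_cons (a := (y, t)),
      List.filter_cons_of_neg (by simp), List.filter_append, List.filter_cons_of_neg (a := y) (by simp),
      f1 _ hA, f1 _ hB]
  have mp : (((a.1, (ad t a.2 A).1) :: (ad t a.2 A).2) ++ (b.1, (ad s b.2 B).1) :: (ad s b.2 B).2).map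
      Prod.fst = (a :: A).map Prod.fst ++ (b :: B).map Prod.fst := by simp [ad_map]
  refine ⟨e2, ((a.1, (ad t a.2 A).1) :: (ad t a.2 A).2) ++ (b.1, (ad s b.2 B).1) :: (ad s b.2 B).2,
    ⟨?_, fun u hu => ?_, ?_⟩, ?_, by rw [fl, mp]⟩
  · rw [mp, ← fl]; exact h1.erase y
  · obtain ⟨hu1, hu2⟩ := Finset.mem_erase.1 hu
    have k := h1'.1.par u
    have n : ¬ y = u := fun e => hu1 e.symm
    rw [h2 u hu2]
    simp only [List.cons_append, tot, mv_tot_append] at h3
    have ta := ad_tot t a.2 A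
    have tb := ad_tot s b.2 B
    simp only [List.cons_append, sp, mv_sp_append, mv_tot_append, tot, ad_sp, ad_map, par, par_append,
      List.map_cons, n, decide_false] at k ⊢
    rw [← Bool.xor_assoc (ad t a.2 A).1, ta, tb]
    revert k h3
    generalize decide (a.1 = u) = p1
    generalize decide (b.1 = u) = p2
    generalize par (A.map Prod.fst) u = p3
    generalize par (B.map Prod.fst) u = p4
    generalize sp A u = p5
    generalize sp B u = p6
    generalize tot A = p7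
    generalize tot B = p8
    generalize a.2 = p9
    generalize b.2 = p10
    exact mv_bool p1 p2 p3 p4 p5 p6 p7 p8 p9 p10 s t
  · simp only [List.cons_append, tot, mv_tot_append] at h3 ⊢
    have ta := ad_tot t a.2 A
    have tb := ad_tot s b.2 B
    revert h3 ta tb
    cases (ad t a.2 A).1 <;> cases (ad s b.2 B).1 <;> cases tot (ad t a.2 A).2 <;>
      cases tot (ad s b.2 B).2 <;> cases tot A <;> cases tot B <;> cases a.2 <;> cases b.2 <;>
      cases s <;> cases t <;> simp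
  · simp only [List.cons_append, cyc, mv_wk_append, ad_wk, e1, la, fe, mg, Multiset.cons_add,
      Multiset.add_cons]
    rw [Multiset.cons_swap]

/-- a letter occurs on both sides -/
theorem mv_both {y : V} {s t : Bool} {A B : List (V × Bool)}
    (h : SR G x S ((y, s) :: A ++ (y, t) :: B)) (nA : A ≠ [])
    (c : C4 S (cyc ((y, s) :: A ++ (y, t) :: B))) :
    ∃ w, w ∈ A.map Prod.fst ∧ w ∈ B.map Prod.fst := by
  by_contra hh
  obtain ⟨a, A, rfl⟩ := List.exists_cons_of_ne_nil nA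
  have h1' : Rep G S (y :: (a :: A).map Prod.fst ++ y :: B.map Prod.fst) := by simpa using h.1
  obtain ⟨hy, hA, hB⟩ := h1'.1.not_mem
  have fB : ∀ v ∈ y :: B.map Prod.fst, decide (v ∈ (a :: A).map Prod.fst) = false := by
    intro v hv
    rw [decide_eq_false_iff_not]
    rcases List.mem_cons.1 hv with rfl | hv
    · exact hA
    · exact fun k => hh ⟨v, k, hv⟩
  have k := c (fun v => decide (v ∈ (a :: A).map Prod.fst))
    (one_le_nc.2 ⟨a.1, h1'.1.mem.1 (by simp), by simp⟩)
    (one_le_nc.2 ⟨y, hy, fB y (by simp)⟩)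
  have z1 := pe_cut (fun v => decide (v ∈ (a :: A).map Prod.fst)) true a.1 a.2 A
    (fun v hv => decide_eq_true hv)
  have z2 := pe_cut (fun v => decide (v ∈ (a :: A).map Prod.fst)) false y t B fB
  simp only [List.cons_append, cyc, wk, mv_wk_append] at k
  rw [wk_la a.1 a.2 A, wk_la y t B] at k
  unfold cut at k z1 z2
  simp only [Multiset.countP_cons, Multiset.countP_add, z1, z2] at k
  split_ifs at k <;> omega

theorem smooth : StSmooth := by
  intro V _ G x y S L E' hG hx h hy c ⟨k1, k2, k3, k4, R, st, e⟩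
  obtain ⟨s, A, t, B, s0⟩ : ∃ s A t B, Sta G x S L G ((y, s) :: A ++ (y, t) :: B) := by
    obtain ⟨A, B, C, e, -⟩ := h.1.1.split hy
    obtain ⟨X, Y, rfl, e1, e2⟩ := List.map_eq_append_iff.1 e
    obtain ⟨X, Z, rfl, -, e3⟩ := List.map_eq_append_iff.1 e1
    obtain ⟨⟨y1, s⟩, Z, rfl, rfl, -⟩ := List.map_eq_cons_iff.1 e3
    obtain ⟨⟨y2, t⟩, Y, rfl, e3, -⟩ := List.map_eq_cons_iff.1 e2
    simp only at e3
    subst e3
    refine ⟨s, Z, t, Y ++ X, ?_⟩
    have : Sta G x S (X ++ (y2, s) :: Z ++ (y2, t) :: Y) G (X ++ ((y2, s) :: Z ++ (y2, t) :: Y)) := by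
      rw [← List.append_assoc]; exact ⟨.refl, h, .refl, rfl⟩
    simpa using this.rot
  have fin : ∀ {G' s A t B}, Sta G x S L G' ((y, s) :: A ++ (y, t) :: B) →
      mg (la y s A) (fe t B y) ::ₘ mg (la y t B) (fe s A y) ::ₘ R = mg k1 k2 ::ₘ mg k3 k4 ::ₘ R →
      ∃ G' L' W', LE S G G' ∧ SR G' x (S.erase y) L' ∧ cyc L' = E' ∧ Eqv (L.map Prod.fst) W' ∧
        W'.filter (fun v => decide (v ≠ y)) = L'.map Prod.fst := by
    rintro G' s A t B ⟨q1, q2, q3, q4⟩ q
    obtain ⟨-, L', r1, r2, r3⟩ := mv_del q2 (q4 ▸ st)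
    exact ⟨G', L', _, q1, r1, by rw [r2, q, e], q3, r3⟩
  have st0 := s0.2.2.2 ▸ st
  rcases mv_pairing R (mv_del s0.2.1 st0).1 with q | q | q
  · exact fin s0 q
  · exact fin (s0.lcs hG hx) (by rw [la_rv, fe_rv]; exact q)
  · obtain ⟨w, w1, w2⟩ := mv_both s0.2.1 (mv_ne st0).1 (s0.2.2.2 ▸ c)
    obtain ⟨⟨w, p⟩, m1, rfl⟩ := List.mem_map.1 w1
    obtain ⟨⟨w', r⟩, m2, e3⟩ := List.mem_map.1 w2
    simp only at e3
    subst e3
    obtain ⟨X1, X2, rfl⟩ := List.append_of_mem m1
    obtain ⟨Y1, Y2, rfl⟩ := List.append_of_mem m2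
    have s1 : Sta G x S L G ((w', p) :: (X2 ++ (y, t) :: Y1) ++ (w', r) :: (Y2 ++ (y, s) :: X1)) := by
      have : Sta G x S L G (((y, s) :: X1) ++ ((w', p) :: X2 ++ (y, t) :: (Y1 ++ (w', r) :: Y2))) := by
        simpa using s0
      simpa using this.rot
    have s2 := s1.lcs hG hx
    rw [rv_append] at s2
    have s3 : Sta G x S L (lc G w') ((y, s) :: (X1 ++ (w', (rv t Y1).1) :: (rv t Y1).2) ++
        (y, (rv p X2).1) :: ((rv p X2).2 ++ (w', r) :: Y2)) := by
      have : Sta G x S L (lc G w') (((w', (rv t Y1).1) :: (rv t Y1).2 ++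
          (y, (rv p X2).1) :: (rv p X2).2 ++ (w', r) :: Y2) ++ ((y, s) :: X1)) := by
        simpa using s2
      simpa using this.rot
    refine fin (s3.lcs hG hx) ?_
    rw [la_rv, fe_rv]
    simpa only [fe_append, la_append, la_rv, fe_rv] using q

end Pool.Agent.Lib.MP_d7353d_co.T
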