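import Pool.Agent.Lib.MP_d7353d_co.TG

/-! Signs exist on a double occurrence word; the signed cycle of a word is 4-regular and even. -/

namespace Pool.Agent.Lib.MP_d7353d_co.T

set_option linter.unusedSectionVars false
set_option linter.unusedSimpArgs false

variable {V : Type} [DecidableEq V]

def sgChi (g : V → Bool) : List V → Bool
  | [] => false
  | v :: W => if v ∈ W then false else g v

def sgMk (g : V → Bool) : List V → List (V × Bool)
  | [] => []
  | v :: W => (v, sgChi g (v :: W) ^^ sgChi g W) :: sgMk g W

theorem sgMk_fst (g : V → Bool) (W : List V) : (sgMk g W).map Prod.fst = W := by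
  induction W with
  | nil => rfl
  | cons v W ih => simp [sgMk, ih]

theorem sgMk_tot (g : V → Bool) (W : List V) : tot (sgMk g W) = sgChi g W := by
  induction W with
  | nil => rfl
  | cons v W ih =>
    simp only [sgMk, tot, ih]
    cases sgChi g (v :: W) <;> cases sgChi g W <;> rfl

theorem sgMk_sp (g : V → Bool) (W : List V) (u : V) :
    sp (sgMk g W) u = if u ∈ W then g u else false := by
  induction W with
  | nil => rfl
  | cons v W ih =>
    have h : ((sgChi g (v :: W) ^^ sgChi g W) ^^ sgChi g W) = sgChi g (v :: W) := by
      cases sgChi g (v :: W) <;> cases sgChi g W <;> rfl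
    simp only [sgMk, sp, ih, sgMk_tot, h]
    by_cases e : v = u
    · subst e
      by_cases m : v ∈ W <;> simp [sgChi, m]
    · have e' : u ≠ v := fun k => e k.symm
      simp [e, e']

theorem sign : StSign := by
  intro V _ G x S W hW
  refine ⟨sgMk (fun u => G u x) W, sgMk_fst _ _, ?_, ?_, ?_⟩
  · rw [sgMk_fst]; exact hW
  · intro u hu
    have h2 := hW.1 u
    rw [if_pos hu] at h2
    have : u ∈ W := List.count_pos_iff.1 (by omega)
    rw [sgMk_sp, if_pos this]
  · rw [sgMk_tot]
    cases W with
    | nil => rfl
    | cons v W =>
      have h2 := hW.1 v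
      rw [List.count_cons_self] at h2
      have : v ∈ W := List.count_pos_iff.1 (by split_ifs at h2 <;> omega)
      simp [sgChi, this]

theorem sg_wk_mem (l : List (V × Bool)) : ∀ (p : V) (s : Bool) (q : V), ∀ e ∈ wk p s l q,
    ∀ v ∈ e.1, v = p ∨ v = q ∨ v ∈ l.map Prod.fst := by
  induction l with
  | nil =>
    intro p s q e he v hv
    simp only [wk, Multiset.mem_singleton] at he
    subst he
    rcases Sym2.mem_iff.1 hv with h | h
    · exact Or.inl h
    · exact Or.inr (Or.inl h)
  | cons a l ih =>
    intro p s q e he v hv
    simp only [wk, Multiset.mem_cons] at he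
    rcases he with he | he
    · subst he
      rcases Sym2.mem_iff.1 hv with h | h
      · exact Or.inl h
      · exact Or.inr (Or.inr (by simp [h]))
    · rcases ih a.1 a.2 q e he v hv with h | h | h
      · exact Or.inr (Or.inr (by simp [h]))
      · exact Or.inr (Or.inl h)
      · exact Or.inr (Or.inr (by rw [List.map_cons]; exact List.mem_cons_of_mem _ h))

theorem sg_wk_deg (y : V) (l : List (V × Bool)) : ∀ (p : V) (s : Bool) (q : V),
    deg y (wk p s l q) =
      (if p = y then 1 else 0) + (if q = y then 1 else 0) + 2 * (l.map Prod.fst).count y := by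
  induction l with
  | nil => intro p s q; simp [wk, deg]
  | cons a l ih =>
    intro p s q
    have h := ih a.1 a.2 q
    simp only [deg] at h
    simp only [wk, deg, Multiset.map_cons, Multiset.sum_cons, mult_mk, h, List.map_cons,
      List.count_cons, beq_iff_eq]
    split_ifs <;> omega

theorem sg_even_ite (b : Bool) (i : Decidable (b = true)) :
    Even (@ite ℕ (b = true) i 1 0) ↔ b = false := by
  cases b <;> simp

theorem sg_wk_neg (f : V → Bool) (l : List (V × Bool)) : ∀ (p : V) (s : Bool) (q : V),
    (Even (neg f (wk p s l q)) ↔ (f p ^^ f q ^^ s ^^ tot l) = false) := by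
  induction l with
  | nil =>
    intro p s q
    have : wk p s ([] : List (V × Bool)) q = (s(p, q), s) ::ₘ 0 := rfl
    simp only [this, neg, Multiset.countP_cons, Multiset.countP_zero, cr_mk, tot, zero_add,
      sg_even_ite]
    cases f p <;> cases f q <;> cases s <;> simp
  | cons a l ih =>
    intro p s q
    have h := ih a.1 a.2 q
    simp only [neg] at h
    simp only [wk, neg, Multiset.countP_cons, cr_mk, tot, Nat.even_add, h, sg_even_ite]
    cases f p <;> cases f q <;> cases s <;> cases f a.1 <;> cases a.2 <;> cases tot l <;> simp

theorem reg : StReg := by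
  intro V _ S L hD hT
  cases L with
  | nil =>
    refine ⟨by simp [cyc], ?_, by simp [cyc, neg]⟩
    intro y hy
    have := hD y
    simp [hy] at this
  | cons a l =>
    have hS : ∀ v ∈ (a :: l).map Prod.fst, v ∈ S := by
      intro v hv
      have h := hD v
      have := List.count_pos_iff.2 hv
      by_contra k
      rw [if_neg k] at h
      omega
    refine ⟨?_, ?_, ?_⟩
    · intro e he v hv
      apply hS
      rcases sg_wk_mem l a.1 a.2 a.1 e he v hv with h | h | h
      · simp [h]
      · simp [h]
      · rw [List.map_cons]; exact List.mem_cons_of_mem _ h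
    · intro y hy
      have h := hD y
      rw [if_pos hy, List.map_cons, List.count_cons] at h
      simp only [cyc, sg_wk_deg]
      simp only [beq_iff_eq] at h
      split_ifs at h ⊢ <;> omega
    · intro f
      simp only [cyc]
      rw [sg_wk_neg]
      simp only [tot] at hT
      revert hT
      cases f a.1 <;> cases a.2 <;> cases tot l <;> simp

end Pool.Agent.Lib.MP_d7353d_co.T
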