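import Pool.Agent.Lib.MP_d7353d_co.TG

/-! A prime 4-regular multigraph is simple. -/

namespace Pool.Agent.Lib.MP_d7353d_co.T

set_option linter.unusedSectionVars false
set_option linter.unusedSimpArgs false

variable {V : Type} [DecidableEq V]

theorem cut_cons' (g : V → Bool) (u v : V) (s : Bool) (R : Multiset (Ed V)) :
    cut g ((s(u, v), s) ::ₘ R) = cut g R + if g u = g v then 0 else 1 := by
  rw [cut, Multiset.countP_cons]
  by_cases h : g u = g v
  · simp [cut, h]
  · have : (g u ^^ g v) = true := by simpa using h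
    simp [cut, h, this]

theorem deg_cons' (y u v : V) (s : Bool) (R : Multiset (Ed V)) :
    deg y ((s(u, v), s) ::ₘ R) = deg y R + ((if u = y then 1 else 0) + if v = y then 1 else 0) := by
  rw [deg, Multiset.map_cons, Multiset.sum_cons, mult_mk, deg, add_comm]

theorem cut_le_deg2 (p q : V) (R : Multiset (Ed V)) :
    cut (fun w => decide (w = p ∨ w = q)) R ≤ deg p R + if p = q then 0 else deg q R := by
  induction R using Multiset.induction_on with
  | empty => simp [cut]
  | cons e R ih =>
    obtain ⟨e, s⟩ := e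
    induction e using Sym2.ind with
    | _ u v =>
      rw [cut_cons', deg_cons', deg_cons']
      simp only [decide_eq_decide]
      split_ifs at ih ⊢ <;> first | omega | (exfalso; grind)

theorem nc_pair_false {S : Finset V} (p q : V) :
    S.card ≤ nc S (fun w => decide (w = p ∨ w = q)) false + 2 := by
  have h1 := nc_add S (fun w => decide (w = p ∨ w = q))
  have h2 : nc S (fun w => decide (w = p ∨ w = q)) true ≤ 2 := by
    refine le_trans (Finset.card_le_card (t := {p, q}) fun w hw => ?_) Finset.card_le_two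
    simpa using (Finset.mem_filter.1 hw).2
  omega

theorem no_loop {S : Finset V} {E : Multiset (Ed V)} (hR : Reg S E) (hP : PrE S E)
    (hc : 4 ≤ S.card) {u v : V} {s : Bool} (h : (s(u, v), s) ∈ E) : u ≠ v := by
  rintro rfl
  have hu : u ∈ S := hR.1 _ h u (by simp)
  obtain ⟨R, rfl⟩ := Multiset.exists_cons_of_mem h
  have h1 := hR.2.1 u hu
  have h2 := hP.1 (fun w => decide (w = u ∨ w = u)) (one_le_nc.2 ⟨u, hu, by simp⟩)
    (by have := nc_pair_false (S := S) u u; omega)
  have h3 := cut_le_deg2 u u R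
  rw [deg_cons'] at h1
  rw [cut_cons'] at h2
  simp only [if_true] at h1 h2 h3
  omega

theorem no_par {S : Finset V} {E : Multiset (Ed V)} (hR : Reg S E) (hP : PrE S E)
    (hc : 4 ≤ S.card) : (E.map Prod.fst).Nodup := by
  classical
  rw [Multiset.nodup_iff_ne_cons_cons]
  intro a t h
  obtain ⟨⟨a1, s1⟩, m1, rfl, h'⟩ := (Multiset.map_eq_cons _ _ _ _).2 h
  obtain ⟨⟨a2, s2⟩, m2, e2, -⟩ := (Multiset.map_eq_cons _ _ _ _).2 h'
  simp only at e2
  subst e2
  induction a2 using Sym2.ind with
  | _ u v =>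
    have huv := no_loop hR hP hc m1
    have hu : u ∈ S := hR.1 _ m1 u (by simp)
    have hv : v ∈ S := hR.1 _ m1 v (by simp)
    obtain ⟨R, e⟩ := Multiset.exists_cons_of_mem m2
    have e' : E = (s(u, v), s1) ::ₘ (s(u, v), s2) ::ₘ R := by
      rw [← e, Multiset.cons_erase m1]
    have h1 := hR.2.1 u hu
    have h2 := hR.2.1 v hv
    have h3 := hP.2 (fun w => decide (w = u ∨ w = v))
      (two_le_nc.2 ⟨u, hu, v, hv, huv, by simp, by simp⟩)
      (by have := nc_pair_false (S := S) u v; omega)
    have h4 := cut_le_deg2 u v R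
    rw [e', deg_cons', deg_cons'] at h1 h2
    rw [e', cut_cons', cut_cons'] at h3
    simp [huv, huv.symm] at h1 h2 h3 h4
    omega

theorem simple : StSimple := by
  intro V _ S E hR hP hc
  classical
  have hn := no_par hR hP hc
  let F : SG V := ⟨S, ⟨E.map Prod.fst, hn⟩, fun e => decide ((e, true) ∈ E)⟩
  have hE : F.E = E := by
    show (E.map Prod.fst).map (fun e => (e, decide ((e, true) ∈ E))) = E
    rw [Multiset.map_map]
    conv_rhs => rw [← Multiset.map_id E]
    refine Multiset.map_congr rfl fun x hx => ?_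
    obtain ⟨e, s⟩ := x
    cases s
    · have : (e, true) ∉ E := fun k => by
        simpa using Multiset.inj_on_of_nodup_map hn _ hx _ k rfl
      simp [this]
    · simp [hx]
  have hD : ∀ e, e ∈ F.D ↔ ∃ s, (e, s) ∈ E := fun e => by
    show e ∈ E.map Prod.fst ↔ _
    simp
  have ins : ∀ u v, s(u, v) ∈ F.D → u ∈ F.S ∧ v ∈ F.S ∧ u ≠ v := fun u v h => by
    obtain ⟨s, hs⟩ := (hD _).1 h
    exact ⟨hR.1 _ hs u (by simp), hR.1 _ hs v (by simp), no_loop hR hP hc hs⟩
  refine ⟨F, rfl, hE, ins, fun y hy => ?_, fun f h1 h2 => ?_, fun f h1 h2 => ?_⟩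
  · have h1 := hR.2.1 y hy
    have h2 : deg y E = (F.D.filter fun e => y ∈ e).card := by
      rw [Finset.card_filter, ← hE, deg, SG.E, Multiset.map_map]
      refine Finset.sum_congr rfl fun e he => ?_
      induction e using Sym2.ind with
      | _ u v =>
        have := (ins u v he).2.2
        by_cases a1 : u = y <;> by_cases a2 : v = y
        · exact absurd (a1.trans a2.symm) this
        · simp [a1, a2]
        · simp [a1, a2]
        · simp [a1, a2, Ne.symm a1, Ne.symm a2]
    have h3 : (F.D.filter fun e => y ∈ e) =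
        (S.filter fun w => s(y, w) ∈ F.D).image fun w => s(y, w) := by
      ext e
      simp only [Finset.mem_filter, Finset.mem_image]
      constructor
      · rintro ⟨a1, a2⟩
        obtain ⟨w, rfl⟩ := Sym2.mem_iff_exists.1 a2
        exact ⟨w, ⟨(ins _ _ a1).2.1, a1⟩, rfl⟩
      · rintro ⟨w, ⟨-, a1⟩, rfl⟩
        exact ⟨a1, by simp⟩
    rw [h3, Finset.card_image_of_injective _ fun a b e => Sym2.congr_right.1 e, h1] at h2
    obtain ⟨a, b, c, d, n1, n2, n3, n4, n5, n6, e⟩ := Finset.card_eq_four.1 h2.symm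
    refine ⟨a, b, c, d, n1, n2, n3, n4, n5, n6, fun w => ?_⟩
    have := Finset.ext_iff.1 e w
    simp only [Finset.mem_filter, Finset.mem_insert, Finset.mem_singleton] at this
    rw [← this]
    exact ⟨fun k => ⟨(ins _ _ k).2.1, k⟩, fun k => k.2⟩
  · rw [← SG.cut_E, hE]; exact hP.1 f h1 h2
  · rw [← SG.cut_E, hE]; exact hP.2 f h1 h2

end Pool.Agent.Lib.MP_d7353d_co.T
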