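import Pool.Agent.Lib.MP_d7353d_co.TBixG

/-! A prime graph with two adjacent vertices of degree two has a prime deletion. -/

namespace Pool.Agent.Lib.MP_d7353d_co.T

set_option linter.unusedSectionVars false
set_option linter.unusedSimpArgs false

variable {V : Type} [DecidableEq V] {S : Finset V} {G : Gr V}

/-- a split of a deletion extends when the deleted vertex fits on a side -/
theorem th_ext (hG : Sy G) (hP : Prime G S) {x : V} {f φ : V → Bool}
    (h1 : 2 ≤ nc (S.erase x) f true) (h2 : 2 ≤ nc (S.erase x) f false) (h : SW G (S.erase x) f φ)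
    (c e : Bool) (k : ∀ b ∈ S.erase x, f b = !c → G x b = (e && φ b)) : False := by
  have m : ∀ b, 2 ≤ nc (S.erase x) f b → 2 ≤ nc S (fun t => if t = x then c else f t) b := fun b z => by
    obtain ⟨p, mp, q, mq, ne, fp, fq⟩ := two_le_nc.1 z
    rw [Finset.mem_erase] at mp mq
    exact two_le_nc.2 ⟨p, mp.2, q, mq.2, ne, by simp [mp.1, fp], by simp [mq.1, fq]⟩
  refine hP _ ⟨m _ h1, m _ h2, fun t => if t = x then e else φ t, fun a ha b hb fa fb => ?_⟩
  by_cases ax : a = x <;> by_cases bx : b = x <;> simp only [ax, bx, if_true, if_false] at fa fb ⊢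
  · simp [fa] at fb
  · exact k b (Finset.mem_erase.2 ⟨bx, hb⟩) (by simp [fa, fb])
  · rw [hG.1, k a (Finset.mem_erase.2 ⟨ax, ha⟩) (by simp [fa, fb]), Bool.and_comm]
  · exact h a (Finset.mem_erase.2 ⟨ax, ha⟩) b (Finset.mem_erase.2 ⟨bx, hb⟩) fa fb

/-- no cut vertex -/
theorem th_cut (hP : Prime G S) (X : V → Bool) (w : V) (h1 : 2 ≤ nc S X true)
    (h2 : 2 ≤ nc S X false)
    (h : ∀ a ∈ S, ∀ b ∈ S, X a = true → X b = false → a ≠ w → G a b = false) : False := by
  refine hP X ⟨h1, h2, fun a => if X a then decide (a = w) else G w a, fun a ha b hb fa fb => ?_⟩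
  by_cases e : a = w
  · subst e; simp [fa, fb]
  · simp [fa, fb, e, h a ha b hb fa fb e]

theorem th_split (hG : Sy G) (h : ¬ Prime G S) (a : V) : ∃ f, Split G S f ∧ f a = true := by
  simp only [Prime, not_forall, not_not] at h
  obtain ⟨f, h⟩ := h
  cases e : f a
  · exact ⟨_, h.not hG, by simp [e]⟩
  · exact ⟨f, h, e⟩

/-- the five cycle case -/
theorem th_five (hG : Sy G) (hP : Prime G S) (hc : 6 ≤ S.card) {u v w1 w2 z : V} (hu : u ∈ S)
    (hv : v ∈ S) (h1 : w1 ∈ S) (h2 : w2 ∈ S) (hz : z ∈ S)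
    (nv : ∀ t ∈ S, G v t = true ↔ t = w1 ∨ t = u) (nu : ∀ t ∈ S, G u t = true ↔ t = v ∨ t = w2)
    (nz : ∀ t ∈ S, G z t = true ↔ t = w1 ∨ t = w2) (d1 : u ≠ w1) (d2 : v ≠ w2) (d3 : z ≠ u)
    (d4 : z ≠ v) : Prime G (S.erase z) := by
  by_contra k
  obtain ⟨f, ⟨c1, c2, φ, s⟩, f1⟩ := th_split hG k w1
  have e1 := nv v hv
  have e2 := nu u hu
  have e3 := nz z hz
  simp only [hG.2, Bool.false_eq_true, false_iff, not_or] at e1 e2 e3
  have mu : u ∈ S.erase z := Finset.mem_erase.2 ⟨d3.symm, hu⟩
  have mv : v ∈ S.erase z := Finset.mem_erase.2 ⟨d4.symm, hv⟩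
  have m1 : w1 ∈ S.erase z := Finset.mem_erase.2 ⟨Ne.symm e3.1, h1⟩
  have m2 : w2 ∈ S.erase z := Finset.mem_erase.2 ⟨Ne.symm e3.2, h2⟩
  cases f2 : f w2
  swap
  · refine th_ext hG hP c1 c2 s true false fun b mb fb => ?_
    have := nz b (Finset.mem_of_mem_erase mb)
    grind
  have guv : G u v = true := (nu v hv).2 (Or.inl rfl)
  have mix : f u ≠ f v → False := fun ne => by
    have p : φ u = true ∧ φ v = true := by
      cases fu : f u
      · have := s v mv u mu (by simpa [fu] using ne.symm) fu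
        rw [hG.1, guv] at this
        simpa [and_comm] using this.symm
      · have := s u mu v mv fu (by simpa [fu] using ne.symm)
        rw [guv] at this
        simpa using this.symm
    have q : ∀ a ∈ S.erase z, a ≠ u → a ≠ v → a ≠ w1 → a ≠ w2 → φ a = false := by
      intro a ma a1 a2 a3 a4
      have x1 := nv a (Finset.mem_of_mem_erase ma)
      have x2 := nu a (Finset.mem_of_mem_erase ma)
      have x3 := s a ma u mu
      have x4 := s a ma v mv
      have x5 := s u mu a ma
      have x6 := s v mv a ma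
      have x7 := hG.1 a u
      have x8 := hG.1 a v
      cases fa : f a <;> cases fu : f u <;> cases fv : f v <;> grind
    have r : ∀ (c : Bool) (w w' : V), w ∈ S → f w = c → f w' = !c → w ≠ u → w ≠ v → w ≠ z →
        (w = w1 ∧ w' = w2 ∨ w = w2 ∧ w' = w1) → ∀ t ∈ S, f t = c → t = u ∨ t = v ∨ t = z ∨ t = w := by
      intro c w w' hw fw fw' n1 n2 n3 o t ht ft
      by_contra j
      simp only [not_or] at j
      refine th_cut hP (fun t => decide (f t = c ∧ t ≠ u ∧ t ≠ v ∧ t ≠ z)) w
        (two_le_nc.2 ⟨t, ht, w, hw, j.2.2.2, by simp [ft, j], by simp [fw, n1, n2, n3]⟩)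
        (two_le_nc.2 ⟨u, hu, v, hv, e2.1, by simp, by simp⟩) fun a ha b hb xa xb aw => ?_
      simp only [decide_eq_true_eq, decide_eq_false_iff_not] at xa xb
      have ma : a ∈ S.erase z := Finset.mem_erase.2 ⟨xa.2.2.2, ha⟩
      have y := q a ma xa.2.1 xa.2.2.1 (by grind) (by grind)
      have x1 := nv a ha
      have x2 := nu a ha
      have x3 := nz a ha
      have x7 := hG.1 a b
      by_cases bz : b = z
      · grind
      have mb : b ∈ S.erase z := Finset.mem_erase.2 ⟨bz, hb⟩
      have x4 := s a ma b mb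
      have x5 := s b mb a ma
      grind
    have r1 := r true w1 w2 h1 f1 f2 d1.symm (Ne.symm e1.1) (Ne.symm e3.1) (Or.inl ⟨rfl, rfl⟩)
    have r2 := r false w2 w1 h2 f2 f1 (Ne.symm e2.2) d2.symm (Ne.symm e3.2) (Or.inr ⟨rfl, rfl⟩)
    have : S ⊆ {u, v, z, w1, w2} := fun t ht => by
      have := r1 t ht
      have := r2 t ht
      simp only [Finset.mem_insert, Finset.mem_singleton]
      grind
    have := (Finset.card_le_card this).trans Finset.card_le_five
    omega
  cases fu : f u <;> cases fv : f v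
  · refine th_ext hG hP c1 c2 s false true fun b mb fb => ?_
    have x1 := nz b (Finset.mem_of_mem_erase mb)
    have x2 := nv b (Finset.mem_of_mem_erase mb)
    have x3 := s b mb v mv (by simpa using fb) fv
    have x4 := s w1 m1 v mv f1 fv
    have x5 := nv w1 h1
    have x6 := hG.1 b v
    have x7 := hG.1 w1 v
    grind
  · exact mix (by simp [fu, fv])
  · exact mix (by simp [fu, fv])
  · refine th_ext hG hP c1 c2 s true true fun b mb fb => ?_
    have x1 := nz b (Finset.mem_of_mem_erase mb)
    have x2 := nu b (Finset.mem_of_mem_erase mb)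
    have x3 := s u mu b mb fu (by simpa using fb)
    have x4 := s u mu w2 m2 fu f2
    have x5 := nu w2 h2
    grind

theorem thread : StThread := by
  intro V _ G S u v w1 w2 hG hP hc hu hv h1 h2 nv nu
  by_contra k
  have k1 : ¬ Prime (lc G v) (S.erase v) := fun z => k ⟨_, v, hv, LE.one G hv, z⟩
  have e1 := nv v hv
  have e2 := nu u hu
  simp only [hG.2, Bool.false_eq_true, false_iff, not_or] at e1 e2
  have d1 : u ≠ w1 := fun e => ch_dep hP (by omega) hv hu e1.2 (α := true) (β := false) rfl
    fun t ht _ _ => by have := nv t ht; grind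
  have d2 : v ≠ w2 := fun e => ch_dep hP (by omega) hu hv e2.1 (α := true) (β := false) rfl
    fun t ht _ _ => by have := nu t ht; grind
  have d3 : w1 ≠ w2 := fun e => ch_dep hP (by omega) hu hv e2.1 (α := true) (β := true) rfl
    fun t ht _ _ => by have := nu t ht; have := nv t ht; grind
  obtain ⟨f, ⟨c1, c2, φ, s⟩, fu⟩ := th_split (hG.lc v) k1 u
  have mu : u ∈ S.erase v := Finset.mem_erase.2 ⟨e2.1, hu⟩
  have m1 : w1 ∈ S.erase v := Finset.mem_erase.2 ⟨Ne.symm e1.1, h1⟩
  have m2 : w2 ∈ S.erase v := Finset.mem_erase.2 ⟨d2.symm, h2⟩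
  have s' : ∀ a ∈ S.erase v, ∀ b ∈ S.erase v, f a = true → f b = false →
      (G a b ^^ (G v a && G v b)) = (φ a && φ b) := fun a ma b mb fa fb => by
    rw [← s a ma b mb fa fb, ch_lc G v (fun e => by simp [← e, fa] at fb), hG.1 a v]
  cases f1 : f w1
  swap
  · refine th_ext hG hP c1 c2 (φ := φ) (fun a ma b mb fa fb => ?_) true false fun b mb fb => ?_
    · have := s' a ma b mb fa fb
      have := nv b (Finset.mem_of_mem_erase mb)
      grind
    · have := nv b (Finset.mem_of_mem_erase mb)
      grind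
  have gu : G v u = true := (nv u hu).2 (Or.inr rfl)
  have pu : φ u = true := by
    have := s' u mu w1 m1 fu f1
    have := nv w1 h1
    have := nu w1 h1
    grind
  have pb : ∀ b ∈ S.erase v, f b = false → (φ b = true ↔ b = w1 ∨ b = w2) := fun b mb fb => by
    have := s' u mu b mb fu fb
    have := nv b (Finset.mem_of_mem_erase mb)
    have := nu b (Finset.mem_of_mem_erase mb)
    have := Finset.ne_of_mem_erase mb
    grind
  have sa : ∀ a ∈ S.erase v, ∀ b ∈ S.erase v, f a = true → f b = false → a ≠ u →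
      G a b = (φ a && φ b) := fun a ma b mb fa fb au => by
    have := s' a ma b mb fa fb
    have := nv a (Finset.mem_of_mem_erase ma)
    grind
  cases f2 : f w2
  swap
  · refine th_ext hG hP c1 c2 (φ := fun t => if t = u then false else φ t)
      (fun a ma b mb fa fb => ?_) true true fun b mb fb => ?_
    · have := sa a ma b mb fa fb
      have := nu b (Finset.mem_of_mem_erase mb)
      have := Finset.ne_of_mem_erase mb
      grind
    · have := nv b (Finset.mem_of_mem_erase mb)
      have := pb b mb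
      grind
  obtain ⟨z, mz, zu, fz⟩ : ∃ z ∈ S.erase v, z ≠ u ∧ f z = true := by
    obtain ⟨p, mp, q, mq, ne, fp, fq⟩ := two_le_nc.1 c1
    by_cases e : p = u
    · exact ⟨q, mq, fun j => ne (e.trans j.symm), fq⟩
    · exact ⟨p, mp, e, fp⟩
  have hz := Finset.mem_of_mem_erase mz
  have zv := Finset.ne_of_mem_erase mz
  have sb : ∀ a ∈ S.erase v, ∀ b ∈ S, f a = true → a ≠ u → (f b = false ∨ b = u ∨ b = v) →
      G a b = (φ a && (if b = u ∨ b = v then false else φ b)) := fun a ma b hb fa au o => by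
    have := nv a (Finset.mem_of_mem_erase ma)
    have := nu a (Finset.mem_of_mem_erase ma)
    have := Finset.ne_of_mem_erase ma
    have := hG.1 a b
    by_cases bv : b = v
    · grind
    have := sa a ma b (Finset.mem_erase.2 ⟨bv, hb⟩) fa
    grind
  have one : ∀ t ∈ S, f t = false ∨ t = u ∨ t = v ∨ t = z := fun t ht => by
    by_contra j
    simp only [not_or, Bool.not_eq_false] at j
    refine hP (fun t => decide (f t = true ∧ t ≠ u ∧ t ≠ v))
      ⟨two_le_nc.2 ⟨t, ht, z, hz, j.2.2.2, by simp [j], by simp [fz, zu, zv]⟩,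
      two_le_nc.2 ⟨u, hu, v, hv, e2.1, by simp, by simp⟩,
      fun b => if b = u ∨ b = v then false else φ b, fun a ha b hb xa xb => ?_⟩
    simp only [decide_eq_true_eq, decide_eq_false_iff_not] at xa xb
    have := sb a (Finset.mem_erase.2 ⟨xa.2.2, ha⟩) b hb xa.1 xa.2.1 (by grind)
    grind
  have pz : φ z = true := by
    by_contra j
    refine ch_dep hP (by omega) hz hu zu (α := true) (β := false) rfl fun t ht tz _ => ?_
    have := sb z mz t ht fz zu (by have := one t ht; grind)
    grind
  refine k ⟨G, z, hz, .refl, th_five hG hP hc hu hv h1 h2 hz nv nu (fun t ht => ?_) d1 d2 zu zv⟩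
  by_cases tz : t = z
  · have := hG.2 z
    grind
  have := sb z mz t ht fz zu (by have := one t ht; grind)
  by_cases tv : t = v
  · grind
  have := pb t (Finset.mem_erase.2 ⟨tv, ht⟩)
  have := one t ht
  grind

end Pool.Agent.Lib.MP_d7353d_co.T
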