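import Pool.Agent.Lib.MP_d7353d_co.TCt

/-! Normal forms of a signature around an odd triangle. -/

namespace Pool.Agent.Lib.MP_d7353d_co.T

set_option linter.unusedSectionVars false
set_option linter.unusedSimpArgs false

variable {V : Type} [DecidableEq V]

/-- change the colours of three vertices -/
def tri3 (f : V → Bool) (z a b : V) (i j k : Bool) : V → Bool :=
  fun v => if v = z then f z ^^ i else if v = a then f a ^^ j else if v = b then f b ^^ k else f v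

set_option synthInstance.maxSize 8000 in
set_option synthInstance.maxHeartbeats 400000 in
theorem tri_bool : ∀ (x1 x2 x3 x4 x5 x6 x7 x8 x9 r : Bool), (x1 ^^ x2 ^^ x3) = true →
    r.toNat + (x4 ^^ x5).toNat ≤ 1 →
    (∀ i j k : Bool, 4 ≤ (x1 ^^ i ^^ j).toNat + (x2 ^^ i ^^ k).toNat + (x3 ^^ j ^^ k).toNat +
      (x4 ^^ i).toNat + (x5 ^^ i).toNat + (x6 ^^ j).toNat + (x7 ^^ j).toNat + (x8 ^^ k).toNat +
      (x9 ^^ k).toNat + r.toNat) →
    ∃ i j k : Bool, (x1 ^^ i ^^ j).toNat + (x2 ^^ i ^^ k).toNat + (x3 ^^ j ^^ k).toNat +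
      (x4 ^^ i).toNat + (x5 ^^ i).toNat + (x6 ^^ j).toNat + (x7 ^^ j).toNat + (x8 ^^ k).toNat +
      (x9 ^^ k).toNat + r.toNat = 4 ∧ (x3 ^^ j ^^ k) = true ∧
      (((x1 ^^ i ^^ j) = true ∧ (x2 ^^ i ^^ k) = true ∧ (x4 ^^ i) = false ∧ (x5 ^^ i) = false ∧
        (x6 ^^ j) = false ∧ (x7 ^^ j) = false ∧ (x8 ^^ k) = false ∧ (x9 ^^ k) = false) ∨
       ((x1 ^^ i ^^ j) = false ∧ (x2 ^^ i ^^ k) = false ∧ (x6 ^^ j) = !(x7 ^^ j) ∧
        (x8 ^^ k) = !(x9 ^^ k))) := by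
  decide +kernel

/-- a set of four elements, three of them known -/
theorem four_of_three {α : Type} [DecidableEq α] {A : Finset α} {x y z : α} (h : A.card = 4)
    (hx : x ∈ A) (hy : y ∈ A) (hz : z ∈ A) (h1 : x ≠ y) (h2 : x ≠ z) (h3 : y ≠ z) :
    ∃ e ∈ A, e ≠ x ∧ e ≠ y ∧ e ≠ z ∧ A = {x, y, z, e} := by
  have s : ({x, y, z} : Finset α) ⊆ A := by
    intro t ht
    simp only [Finset.mem_insert, Finset.mem_singleton] at ht
    rcases ht with rfl | rfl | rfl <;> assumption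
  have c : ({x, y, z} : Finset α).card = 3 := Finset.card_eq_three.2 ⟨x, y, z, h1, h2, h3, rfl⟩
  have c1 : (A \ {x, y, z}).card = 1 := by rw [Finset.card_sdiff_of_subset s]; omega
  obtain ⟨e, he⟩ := Finset.card_eq_one.1 c1
  have m : ∀ t, t ∈ A \ {x, y, z} ↔ t = e := fun t => by rw [he, Finset.mem_singleton]
  have me := (m e).2 rfl
  simp only [Finset.mem_sdiff, Finset.mem_insert, Finset.mem_singleton, not_or] at me m
  refine ⟨e, me.1, me.2.1, me.2.2.1, me.2.2.2, ?_⟩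
  ext t
  simp only [Finset.mem_insert, Finset.mem_singleton]
  constructor
  · intro ht
    by_contra hh
    simp only [not_or] at hh
    exact hh.2.2.2 ((m t).1 ⟨ht, hh.1, hh.2.1, hh.2.2.1⟩)
  · rintro (rfl | rfl | rfl | rfl) <;> first | assumption | exact me.1

theorem tri_bet (hb : StBet) {F : SG V} {z a b a1 a2 b1 b2 : V} {f : V → Bool} (k : F.Ok) (hv : F.Hv)
    (hi : F.Info) (na : F.Nb a z b a1 a2) (nb : F.Nb b z a b1 b2) (c4 : (F.N f).card = 4)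
    (h1 : s(z, a) ∉ F.N f) (h2 : s(z, b) ∉ F.N f) (h3 : s(a, b) ∈ F.N f) (h4 : s(a, a1) ∈ F.N f)
    (h5 : s(a, a2) ∉ F.N f) (h6 : s(b, b1) ∈ F.N f) (h7 : s(b, b2) ∉ F.N f) : F.S.card ≤ 9 := by
  obtain ⟨-, -, -, -, -, p1, p2, p3, p4⟩ := na.mem k
  obtain ⟨-, -, -, -, -, q1, q2, q3, q4⟩ := nb.mem k
  obtain ⟨u1, u2, u3, u4, u5, u6, u7⟩ := id na
  obtain ⟨v1, v2, v3, v4, v5, v6, v7⟩ := id nb
  obtain ⟨e, he, e1, e2, e3, e4⟩ := four_of_three c4 h3 h4 h6 (by simp [u4, p2, p3])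
    (by simp [v4, p2, q2]) (by simp [p2, v4])
  have ha : a ∉ e := fun h => by
    obtain ⟨w, rfl⟩ := Sym2.mem_iff_exists.1 h
    rcases (u7 w).1 (SG.N_sub f he) with rfl | rfl | rfl | rfl
    · exact h1 (Sym2.eq_swap ▸ he)
    · exact e1 rfl
    · exact e2 rfl
    · exact h5 he
  have hb' : b ∉ e := fun h => by
    obtain ⟨w, rfl⟩ := Sym2.mem_iff_exists.1 h
    rcases (v7 w).1 (SG.N_sub f he) with rfl | rfl | rfl | rfl
    · exact h2 (Sym2.eq_swap ▸ he)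
    · exact e1 Sym2.eq_swap
    · exact e3 rfl
    · exact h7 he
  induction e using Sym2.ind with
  | _ p q =>
    simp only [Sym2.mem_iff, not_or] at ha hb'
    exact hb V F z a b a1 a2 b1 b2 p q f k hv hi na nb (Ne.symm ha.1) (Ne.symm hb'.1) (Ne.symm ha.2)
      (Ne.symm hb'.2) e4

theorem tri_gam (hg : StGam) {F : SG V} {z a b c d a1 a2 b1 b2 : V} {f : V → Bool} (k : F.Ok)
    (hv : F.Hv) (hi : F.Info) (nz : F.Nb z a b c d) (na : F.Nb a z b a1 a2) (nb : F.Nb b z a b1 b2)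
    (c4 : (F.N f).card = 4) (h1 : s(z, a) ∈ F.N f) (h2 : s(z, b) ∈ F.N f) (h3 : s(a, b) ∈ F.N f)
    (g1 : s(z, c) ∉ F.N f) (g2 : s(z, d) ∉ F.N f) (h4 : s(a, a1) ∉ F.N f)
    (h5 : s(a, a2) ∉ F.N f) (h6 : s(b, b1) ∉ F.N f) (h7 : s(b, b2) ∉ F.N f) : F.S.card ≤ 9 := by
  obtain ⟨-, -, -, -, -, p1, p2, p3, p4⟩ := na.mem k
  obtain ⟨-, -, -, -, -, q1, q2, q3, q4⟩ := nb.mem k
  obtain ⟨w1, w2, w3, w4, w5, w6, w7⟩ := id nz
  obtain ⟨u1, u2, u3, u4, u5, u6, u7⟩ := id na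
  obtain ⟨v1, v2, v3, v4, v5, v6, v7⟩ := id nb
  obtain ⟨e, he, e1, e2, e3, e4⟩ := four_of_three c4 h1 h2 h3 (by simp [p2, u1])
    (by simp [v1, u1]) (by simp [v1, u1])
  have hz : z ∉ e := fun h => by
    obtain ⟨w, rfl⟩ := Sym2.mem_iff_exists.1 h
    rcases (w7 w).1 (SG.N_sub f he) with rfl | rfl | rfl | rfl
    · exact e1 rfl
    · exact e2 rfl
    · exact g1 he
    · exact g2 he
  have ha : a ∉ e := fun h => by
    obtain ⟨w, rfl⟩ := Sym2.mem_iff_exists.1 h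
    rcases (u7 w).1 (SG.N_sub f he) with rfl | rfl | rfl | rfl
    · exact e1 Sym2.eq_swap
    · exact e3 rfl
    · exact h4 he
    · exact h5 he
  have hb' : b ∉ e := fun h => by
    obtain ⟨w, rfl⟩ := Sym2.mem_iff_exists.1 h
    rcases (v7 w).1 (SG.N_sub f he) with rfl | rfl | rfl | rfl
    · exact e2 Sym2.eq_swap
    · exact e3 Sym2.eq_swap
    · exact h6 he
    · exact h7 he
  induction e using Sym2.ind with
  | _ p q =>
    simp only [Sym2.mem_iff, not_or] at hz ha hb'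
    refine hg V F z a b p q f k hv hi ?_ ?_ e4
    · simp [Ne.symm hz.1, Ne.symm ha.1, Ne.symm hb'.1]
    · simp [Ne.symm hz.2, Ne.symm ha.2, Ne.symm hb'.2]

theorem tri (hg : StGam) (hb : StBet) : StTri := by
  intro V _ F z a b c d k hv hi nz ho ht
  obtain ⟨f, hf⟩ := ht
  obtain ⟨za, zb, zc, zd⟩ := nz.adj
  obtain ⟨-, -, -, -, -, z1, z2, z3, z4⟩ := nz.mem k
  obtain ⟨w1, w2, w3, w4, w5, w6, -⟩ := id nz
  obtain ⟨a1, a2, na⟩ := k.nb2 (y := a) (a := z) (b := b) (Sym2.eq_swap ▸ za) ho.1 z2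
  obtain ⟨b1, b2, nb⟩ := k.nb2 (y := b) (a := z) (b := a) (Sym2.eq_swap ▸ zb) (Sym2.eq_swap ▸ ho.1) z1
  obtain ⟨-, ab, aa1, aa2⟩ := na.adj
  obtain ⟨-, -, bb1, bb2⟩ := nb.adj
  obtain ⟨-, -, -, -, -, p1, p2, p3, p4⟩ := na.mem k
  obtain ⟨-, -, -, -, -, q1, q2, q3, q4⟩ := nb.mem k
  obtain ⟨u1, u2, u3, u4, u5, u6, -⟩ := id na
  obtain ⟨v1, v2, v3, v4, v5, v6, -⟩ := id nb
  have gz : ∀ i j l, tri3 f z a b i j l z = (f z ^^ i) := fun i j l => by simp [tri3]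
  have ga : ∀ i j l, tri3 f z a b i j l a = (f a ^^ j) := fun i j l => by simp [tri3, p1]
  have gb : ∀ i j l, tri3 f z a b i j l b = (f b ^^ l) := fun i j l => by simp [tri3, q1, q2]
  have go : ∀ i j l v, z ≠ v → a ≠ v → b ≠ v → tri3 f z a b i j l v = f v := fun i j l v h1 h2 h3 => by
    simp [tri3, h1.symm, h2.symm, h3.symm]
  have x3 : ∀ x y s i j : Bool, ((x ^^ i) ^^ (y ^^ j) ^^ s) = (x ^^ y ^^ s ^^ i ^^ j) := by decide
  have x2 : ∀ x y s i : Bool, ((x ^^ i) ^^ y ^^ s) = (x ^^ y ^^ s ^^ i) := by decide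
  have m1 : ∀ i j l, s(z, a) ∈ F.N (tri3 f z a b i j l) ↔ (f z ^^ f a ^^ F.sg s(z, a) ^^ i ^^ j) = true :=
    fun i j l => by rw [SG.mem_N, gz, ga, x3]; simp only [za, true_and]
  have m2 : ∀ i j l, s(z, b) ∈ F.N (tri3 f z a b i j l) ↔ (f z ^^ f b ^^ F.sg s(z, b) ^^ i ^^ l) = true :=
    fun i j l => by rw [SG.mem_N, gz, gb, x3]; simp only [zb, true_and]
  have m3 : ∀ i j l, s(a, b) ∈ F.N (tri3 f z a b i j l) ↔ (f a ^^ f b ^^ F.sg s(a, b) ^^ j ^^ l) = true :=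
    fun i j l => by rw [SG.mem_N, ga, gb, x3]; simp only [ab, true_and]
  have m4 : ∀ i j l, s(z, c) ∈ F.N (tri3 f z a b i j l) ↔ (f z ^^ f c ^^ F.sg s(z, c) ^^ i) = true :=
    fun i j l => by rw [SG.mem_N, gz, go i j l c z3 w2 w4, x2]; simp only [zc, true_and]
  have m5 : ∀ i j l, s(z, d) ∈ F.N (tri3 f z a b i j l) ↔ (f z ^^ f d ^^ F.sg s(z, d) ^^ i) = true :=
    fun i j l => by rw [SG.mem_N, gz, go i j l d z4 w3 w5, x2]; simp only [zd, true_and]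
  have m6 : ∀ i j l, s(a, a1) ∈ F.N (tri3 f z a b i j l) ↔ (f a ^^ f a1 ^^ F.sg s(a, a1) ^^ j) = true :=
    fun i j l => by rw [SG.mem_N, ga, go i j l a1 u2 p3 u4, x2]; simp only [aa1, true_and]
  have m7 : ∀ i j l, s(a, a2) ∈ F.N (tri3 f z a b i j l) ↔ (f a ^^ f a2 ^^ F.sg s(a, a2) ^^ j) = true :=
    fun i j l => by rw [SG.mem_N, ga, go i j l a2 u3 p4 u5, x2]; simp only [aa2, true_and]
  have m8 : ∀ i j l, s(b, b1) ∈ F.N (tri3 f z a b i j l) ↔ (f b ^^ f b1 ^^ F.sg s(b, b1) ^^ l) = true :=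
    fun i j l => by rw [SG.mem_N, gb, go i j l b1 v2 v4 q3, x2]; simp only [bb1, true_and]
  have m9 : ∀ i j l, s(b, b2) ∈ F.N (tri3 f z a b i j l) ↔ (f b ^^ f b2 ^^ F.sg s(b, b2) ^^ l) = true :=
    fun i j l => by rw [SG.mem_N, gb, go i j l b2 v3 v5 q4, x2]; simp only [bb2, true_and]
  have mr : ∀ i j l, ((F.N (tri3 f z a b i j l)).filter fun e => z ∉ e ∧ a ∉ e ∧ b ∉ e) =
      (F.N f).filter fun e => z ∉ e ∧ a ∉ e ∧ b ∉ e := fun i j l => by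
    ext e
    simp only [Finset.mem_filter]
    refine and_congr_left fun h => ?_
    have : cr (tri3 f z a b i j l) e = cr f e := cr_congr fun v hv' =>
      go i j l v (fun t => h.1 (t ▸ hv')) (fun t => h.2.1 (t ▸ hv')) (fun t => h.2.2 (t ▸ hv'))
    simp only [SG.N, Finset.mem_filter, this]
  obtain ⟨r, hr⟩ : ∃ r : Bool, ((F.N f).filter fun e => z ∉ e ∧ a ∉ e ∧ b ∉ e).card = r.toNat := by
    rcases Nat.le_one_iff_eq_zero_or_eq_one.1 (le_trans (Nat.le_add_right _ _) hf) with h | h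
    · exact ⟨false, h⟩
    · exact ⟨true, h⟩
  have it : ∀ x : Bool, (if x = true then 1 else 0) = x.toNat := by decide
  have cnt := fun i j l => SG.cardT k nz na nb (SG.N_sub (tri3 f z a b i j l))
  simp only [m1, m2, m3, m4, m5, m6, m7, m8, m9, mr, hr, it] at cnt
  have o : ((f z ^^ f a ^^ F.sg s(z, a)) ^^ (f z ^^ f b ^^ F.sg s(z, b)) ^^
      (f a ^^ f b ^^ F.sg s(a, b))) = true := by
    have := ho.2
    revert this
    cases f z <;> cases f a <;> cases f b <;> cases F.sg s(z, a) <;> cases F.sg s(z, b) <;>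
      cases F.sg s(a, b) <;> simp
  have o2 : r.toNat + ((f z ^^ f c ^^ F.sg s(z, c)) ^^ (f z ^^ f d ^^ F.sg s(z, d))).toNat ≤ 1 := by
    rw [hr] at hf
    simp only [SG.mem_N, zc, zd, true_and] at hf
    revert hf
    cases (f z ^^ f c ^^ F.sg s(z, c)) <;> cases (f z ^^ f d ^^ F.sg s(z, d)) <;> simp
  obtain ⟨i, j, l, c4, t3, t⟩ := tri_bool _ _ _ _ _ _ _ _ _ r o o2 fun i j l => cnt i j l ▸ hv _
  rw [← cnt] at c4
  rcases t with ⟨t1, t2, t4, t5, t6, t7, t8, t9⟩ | ⟨t1, t2, t6, t8⟩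
  · exact tri_gam hg k hv hi nz na nb c4 ((m1 i j l).2 t1) ((m2 i j l).2 t2) ((m3 i j l).2 t3)
      (by rw [m4, t4]; simp) (by rw [m5, t5]; simp) (by rw [m6, t6]; simp) (by rw [m7, t7]; simp)
      (by rw [m8, t8]; simp) (by rw [m9, t9]; simp)
  · have s1 : s(z, a) ∉ F.N (tri3 f z a b i j l) := by rw [m1, t1]; simp
    have s2 : s(z, b) ∉ F.N (tri3 f z a b i j l) := by rw [m2, t2]; simp
    have s3 := (m3 i j l).2 t3
    have s6 : s(a, a1) ∈ F.N (tri3 f z a b i j l) ↔ s(a, a2) ∉ F.N (tri3 f z a b i j l) := by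
      rw [m6, m7, t6]; simp
    have s8 : s(b, b1) ∈ F.N (tri3 f z a b i j l) ↔ s(b, b2) ∉ F.N (tri3 f z a b i j l) := by
      rw [m8, m9, t8]; simp
    by_cases e1 : s(a, a1) ∈ F.N (tri3 f z a b i j l) <;>
      by_cases e2 : s(b, b1) ∈ F.N (tri3 f z a b i j l)
    · exact tri_bet hb k hv hi na nb c4 s1 s2 s3 e1 (s6.1 e1) e2 (s8.1 e2)
    · exact tri_bet hb k hv hi na nb.s34 c4 s1 s2 s3 e1 (s6.1 e1) (by tauto) e2
    · exact tri_bet hb k hv hi na.s34 nb c4 s1 s2 s3 (by tauto) e1 e2 (s8.1 e2)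
    · exact tri_bet hb k hv hi na.s34 nb.s34 c4 s1 s2 s3 (by tauto) e1 (by tauto) e2

end Pool.Agent.Lib.MP_d7353d_co.T
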