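import Pool.Agent.Lib.MP_d7353d_co.TClean

/-! Uncrossing. -/

namespace Pool.Agent.Lib.MP_d7353d_co.T

set_option linter.unusedSectionVars false
set_option linter.unusedSimpArgs false

variable {V : Type} [DecidableEq V]

namespace SG

variable {F : SG V}

variable (F) in
/-- a cut with six edges through `y` that carries the negative edges -/
def Ustr (y : V) (g f : V → Bool) : Prop :=
  g y = false ∧ (F.X g).card ≤ 6 ∧ (∀ u v, s(u, v) ∈ F.N f → u ≠ y → v ≠ y → g u ≠ g v) ∧
    ∃ p p' q q', F.Nb y p p' q q' ∧ g p = true ∧ g p' = true ∧ g q = false ∧ g q' = false ∧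
      s(y, p) ∈ F.N f ∧ s(y, p') ∉ F.N f ∧ s(y, q) ∈ F.N f ∧ s(y, q') ∉ F.N f

theorem Ustr.tg6 (k : F.Ok) {y : V} {g f : V → Bool} (h : F.Ustr y g f) :
    (F.X (tg g y)).card ≤ 6 := by
  obtain ⟨h0, h1, -, p, p', q, q', n, a1, a2, a3, a4, -⟩ := h
  have := n.card_X_tg k g
  simp only [h0, a1, a2, a3, a4] at this
  simp at this
  omega

theorem Ustr.sw (k : F.Ok) {y : V} {g f : V → Bool} (h : F.Ustr y g f) :
    F.Ustr y (fun v => !tg g y v) f := by
  have h6 := h.tg6 k
  obtain ⟨h0, h1, h2, p, p', q, q', n, a1, a2, a3, a4, b1, b2, b3, b4⟩ := h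
  obtain ⟨-, -, -, -, -, n1, n2, n3, n4⟩ := n.mem k
  refine ⟨by simp [h0], by rwa [X_not], fun u v e hu hv => ?_, q, q', p, p', n.sw,
    by simp [tg_ne g n3.symm, a3], by simp [tg_ne g n4.symm, a4], by simp [tg_ne g n1.symm, a1],
    by simp [tg_ne g n2.symm, a2], b3, b4, b1, b2⟩
  simpa [tg_ne g hu, tg_ne g hv] using h2 u v e hu hv

theorem unc_ex (k : F.Ok) (hv : F.Hv)
    (H : ∀ y a b c d, F.Nb y a b c d → F.NB y a b c d → F.Light y a b) {y : V} (hy : y ∈ F.S) :
    ∃ g f, F.Ustr y g f := by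
  obtain ⟨a, b, c, d, n, t1, t2⟩ := k.two_NB hy
  obtain ⟨f, c1, a1, a2, a3, a4, -⟩ := (H _ _ _ _ _ n t1).sw k hv n
  obtain ⟨f2, c2, b1, b2, b3, b4, -⟩ := (H _ _ _ _ _ n.s23 t2).sw k hv n.s23
  obtain ⟨m0, m1, m2, m3, m4, n1, n2, n3, n4⟩ := n.mem k
  obtain ⟨d1, d2, d3, d4, d5, d6, -⟩ := id n
  obtain ⟨j1, j2, j3, j4⟩ := n.adj
  have key : ∀ g : V → Bool, g y = false → F.X g = F.X (fun v => f v ^^ f2 v) → F.Ustr y g f := by
    intro g g0 e
    have M : ∀ x, x ∈ F.X g ↔ ¬ (x ∈ F.N f ↔ x ∈ F.N f2) := fun x => by rw [e, mem_X_xor]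
    have g1 : g a = false := by simpa [mem_X, j1, g0, a1, b1] using M s(y, a)
    have g2 : g b = true := by simpa [mem_X, j2, g0, a2, b3] using M s(y, b)
    have g3 : g c = true := by simpa [mem_X, j3, g0, a3, b2] using M s(y, c)
    have g4 : g d = false := by simpa [mem_X, j4, g0, a4, b4] using M s(y, d)
    have h1 := card_X_xor (F := F) f f2
    rw [← e, c1, c2] at h1
    have h2 := k.c6 g (two_le_nc.2 ⟨b, m2, c, m3, d4, g2, g3⟩)
      (two_le_nc.2 ⟨a, m1, d, m4, d3, g1, g4⟩)
    have h3 : s(y, a) ∈ F.N f ∩ F.N f2 := Finset.mem_inter.2 ⟨a1, b1⟩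
    have h4 := Finset.card_pos.2 ⟨_, h3⟩
    refine ⟨g0, by omega, fun u v w hu hw => ?_, b, c, a, d, n.s12.s23, g2, g3, g1, g4, a2, a3, a1, a4⟩
    have h5 : s(u, v) ∉ F.N f2 := fun w2 => by
      have := Finset.card_le_one.1 (show (F.N f ∩ F.N f2).card ≤ 1 by omega) _ h3 _
        (Finset.mem_inter.2 ⟨w, w2⟩)
      rcases Sym2.eq_iff.1 this with t | t
      · exact hu t.1.symm
      · exact hw t.1.symm
    exact (mem_X.1 ((M _).2 (by simp [w, h5]))).2
  cases e : (f y ^^ f2 y)
  · exact ⟨_, _, key _ e rfl⟩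
  · exact ⟨_, _, key (fun v => !(f v ^^ f2 v)) (by simp only [e]; rfl) (X_not _)⟩

theorem Ustr.three (k : F.Ok) {y : V} {g f : V → Bool} (h : F.Ustr y g f)
    (T : ¬ ∃ z a b c d, F.Nb z a b c d ∧ F.OddT z a b ∧ F.Tri z a b c d) :
    ∃ t ∈ F.S, g t = true ∧ s(y, t) ∉ F.D := by
  obtain ⟨h0, h1, h2, p, p', q, q', n, a1, a2, a3, a4, b1, b2, b3, b4⟩ := h
  obtain ⟨m0, m1, m2, m3, m4, n1, n2, n3, n4⟩ := n.mem k
  obtain ⟨j1, j2, j3, j4⟩ := n.adj
  by_contra hh
  have t : ∀ v ∈ F.S, g v = true ↔ v = p ∨ v = p' := fun v hv => by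
    refine ⟨fun e => ?_, by rintro (rfl | rfl) <;> assumption⟩
    have w : s(y, v) ∈ F.D := by
      by_contra w
      exact hh ⟨v, hv, e, w⟩
    rcases (n.2.2.2.2.2.2 v).1 w with rfl | rfl | rfl | rfl
    · exact Or.inl rfl
    · exact Or.inr rfl
    · simp [a3] at e
    · simp [a4] at e
  have hp : s(p, p') ∈ F.D := by
    by_contra hn
    have := k.pair8 m1 m2 m0 n.1 n1 hn t
    omega
  have hq : s(p, p') ∉ F.N f := fun w => h2 _ _ w n1.symm n2.symm (a1.trans a2.symm)
  refine T ⟨y, p, p', q, q', n, oddT_of j1 j2 hp (f := f) (by simp [b1, b2, hq]), f, ?_⟩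
  have e : ((F.N f).filter fun e => y ∉ e ∧ p ∉ e ∧ p' ∉ e) = ∅ := by
    refine Finset.filter_eq_empty_iff.2 fun x hx => ?_
    induction x using Sym2.ind with
    | _ u v =>
      simp only [Sym2.mem_iff, not_or]
      rintro ⟨⟨r1, r2⟩, ⟨r3, r4⟩, r5, r6⟩
      have w := h2 u v hx (Ne.symm r1) (Ne.symm r2)
      obtain ⟨hu, hv, -⟩ := k.ins _ _ (N_sub f hx)
      have w1 := t u hu
      have w2 := t v hv
      simp only [Ne.symm r3, Ne.symm r4, Ne.symm r5, Ne.symm r6, or_self, iff_false] at w1 w2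
      exact w (by simp [w1, w2])
  simp [e, b3, b4]

theorem Ustr.nc3 (k : F.Ok) {y : V} {g f : V → Bool} (h : F.Ustr y g f)
    (T : ¬ ∃ z a b c d, F.Nb z a b c d ∧ F.OddT z a b ∧ F.Tri z a b c d) : 3 ≤ nc F.S g true := by
  obtain ⟨t, ht, gt, hn⟩ := h.three k T
  obtain ⟨h0, h1, h2, p, p', q, q', n, a1, a2, -⟩ := h
  obtain ⟨m0, m1, m2, -⟩ := n.mem k
  obtain ⟨j1, j2, -⟩ := n.adj
  exact three_le_nc.2 ⟨p, m1, p', m2, t, ht, n.1, fun e => hn (e ▸ j1), fun e => hn (e ▸ j2), a1, a2, gt⟩

theorem nc_two_false {S : Finset V} {u v : V → Bool} (h : 2 ≤ nc S u true)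
    (e : ∀ x, u x = true → v x = false) : 2 ≤ nc S v false := by
  obtain ⟨p, hp, q, hq, w, a1, a2⟩ := two_le_nc.1 h
  exact two_le_nc.2 ⟨p, hp, q, hq, w, e p a1, e q a2⟩

theorem Ustr.U (k : F.Ok) {p q : V} {g f g' f' : V → Bool} (h : F.Ustr p g f) (h' : F.Ustr q g' f')
    (hq : g q = true) (hA : 2 ≤ nc F.S (fun v => g v && g' v) true)
    (hB : 2 ≤ nc F.S (fun v => !g v && !g' v) true) : False := by
  have t6 := h'.tg6 k
  obtain ⟨h0, h1, h2, -⟩ := h
  obtain ⟨h0', h1', h2', p1, p2, q1, q2, n, a1, a2, a3, a4, b1, b2, -⟩ := h'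
  obtain ⟨m0, m1, m2, m3, m4, n1, n2, n3, n4⟩ := n.mem k
  obtain ⟨j1, j2, j3, j4⟩ := n.adj
  have s1 := submod (F := F) g g'
  have s2 := submod (F := F) g (tg g' q)
  have e1 : (fun v => !g v && !tg g' q v) = fun v => !g v && !g' v := by
    funext v
    by_cases e : v = q
    · simp [e, hq]
    · rw [tg_ne g' e]
  have e2 : (fun v => g v && tg g' q v) = tg (fun v => g v && g' v) q := by
    funext v
    by_cases e : v = q
    · simp [e, hq, h0']
    · rw [tg_ne g' e, tg_ne _ e]
  rw [e1, e2] at s2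
  have cB := k.c6 _ hB (nc_two_false hA fun x => by cases g x <;> simp)
  have cA := k.c6 _ hA (nc_two_false hB fun x => by cases g x <;> simp)
  have cA' := k.c6 (tg (fun v => g v && g' v) q)
    (by
      obtain ⟨x, hx, w, hw, d, r1, r2⟩ := two_le_nc.1 hA
      have x1 : x ≠ q := fun e => by simp [e, h0'] at r1
      have x2 : w ≠ q := fun e => by simp [e, h0'] at r2
      exact two_le_nc.2 ⟨x, hx, w, hw, d, by rwa [tg_ne _ x1], by rwa [tg_ne _ x2]⟩)
    (nc_two_false hB fun x r => by
      have x1 : x ≠ q := fun e => by simp [e, hq] at r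
      rw [tg_ne _ x1]
      revert r
      cases g x <;> simp)
  have c1 := n.card_X_tg k fun v => g v && g' v
  simp only [h0', a1, a2, a3, a4, Bool.and_false, Bool.and_true] at c1
  have g1 : g p1 = true ∧ g p2 = true := by
    revert c1
    cases g p1 <;> cases g p2 <;> simp <;> omega
  have np : ∀ x, g x = true → x ≠ p := fun x r e => by simp [e, h0] at r
  have nq : ∀ x, g' x = true → x ≠ q := fun x r e => by simp [e, h0'] at r
  have i1 : ∀ u v, g u = true → g v = true → s(u, v) ∉ F.N f := fun u v r1 r2 w =>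
    h2 u v w (np u r1) (np v r2) (r1.trans r2.symm)
  have i2 : ∀ u v, g' u = true → g' v = true → s(u, v) ∉ F.N f' := fun u v r1 r2 w =>
    h2' u v w (nq u r1) (nq v r2) (r1.trans r2.symm)
  set c : V → Bool := fun v => f v ^^ f' v with hc
  have M : ∀ x, x ∈ F.X c ↔ ¬ (x ∈ F.N f ↔ x ∈ F.N f') := fun x => mem_X_xor
  have w1 : c q ≠ c p1 := (mem_X.1 ((M s(q, p1)).2 (by simp [i1 q p1 hq g1.1, b1]))).2
  have w2 : c q = c p2 := by
    by_contra w
    exact (M s(q, p2)).1 (mem_X.2 ⟨j2, w⟩) (by simp [i1 q p2 hq g1.2, b2])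
  have I : ∀ u v, s(u, v) ∈ F.D → (g u && g' u) = true → (g v && g' v) = true → c u = c v := by
    intro u v w r1 r2
    simp only [Bool.and_eq_true] at r1 r2
    by_contra e
    exact (M s(u, v)).1 (mem_X.2 ⟨w, e⟩) (by simp [i1 u v r1.1 r2.1, i2 u v r1.2 r2.2])
  have K : ∀ β, (∃ x ∈ F.S, (g x && g' x) = true ∧ c x = β) →
      4 ≤ (F.X fun v => g v && g' v && (c v == β)).card := by
    rintro β ⟨x, hx, r1, r2⟩
    exact k.c4 _ (one_le_nc.2 ⟨x, hx, by simp [r1, r2]⟩) (one_le_nc.2 ⟨q, m0, by simp [h0']⟩)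
  have K1 := K (c p1) ⟨p1, m1, by simp [g1.1, a1], rfl⟩
  have K2 := K (c p2) ⟨p2, m2, by simp [g1.2, a2], rfl⟩
  have w3 : c p1 ≠ c p2 := fun e => w1 (w2.trans e.symm)
  have U1 : (F.X fun v => g v && g' v && (c v == c p1)) ∪ (F.X fun v => g v && g' v && (c v == c p2)) ⊆
      F.X fun v => g v && g' v := by
    intro x
    induction x using Sym2.ind with
    | _ u v =>
      simp only [Finset.mem_union, mem_X]
      intro r
      have w : s(u, v) ∈ F.D := r.elim And.left And.left
      have := I u v w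
      simp only [w, true_and] at r ⊢
      revert r this
      cases (g u && g' u) <;> cases (g v && g' v) <;> simp
      intro e
      simp [e]
  have U2 : Disjoint (F.X fun v => g v && g' v && (c v == c p1))
      (F.X fun v => g v && g' v && (c v == c p2)) := by
    refine Finset.disjoint_left.2 fun x => ?_
    induction x using Sym2.ind with
    | _ u v =>
      simp only [mem_X]
      rintro ⟨w, r1⟩ ⟨-, r2⟩
      have := I u v w
      revert r1 r2 this w3
      cases (g u && g' u) <;> cases (g v && g' v) <;> cases c u <;> cases c v <;> cases c p1 <;>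
        cases c p2 <;> simp
  have := Finset.card_le_card U1
  rw [Finset.card_union_of_disjoint U2] at this
  omega

theorem nc_split (S : Finset V) (u v : V → Bool) :
    nc S u true = nc S (fun x => v x && u x) true + nc S (fun x => !v x && u x) true := by
  unfold nc
  rw [← Finset.card_filter_add_card_filter_not (s := S.filter fun x => u x = true) fun x => v x = true]
  simp only [Finset.filter_filter]
  congr 2 <;> ext x <;> simp [and_comm]

theorem nc_mono {S : Finset V} {u v : V → Bool} (h : ∀ x, u x = true → v x = true) :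
    nc S u true ≤ nc S v true :=
  Finset.card_le_card fun x hx => by
    simp only [Finset.mem_filter] at hx ⊢
    exact ⟨hx.1, h x hx.2⟩

theorem Ok.tri8 (k : F.Ok) {z y c t : V} {g : V → Bool} (hz : z ∈ F.S) (hy : y ∈ F.S) (ht : t ∈ F.S)
    (hzy : z ≠ y) (h1 : t ≠ z) (hn : s(z, y) ∉ F.D) (g1 : g z = true) (g2 : g y = true)
    (hg : ∀ v ∈ F.S, g v = true → v = z ∨ v = y ∨ v = c) : 8 ≤ (F.X g).card := by
  by_cases hc : c ∈ F.S ∧ g c = true ∧ c ≠ z ∧ c ≠ y
  · obtain ⟨c0, c1, c2, c3⟩ := hc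
    have t : ∀ v ∈ F.S, tg g c v = true ↔ v = z ∨ v = y := fun v hv => by
      by_cases e : v = c
      · subst e; simp [c1, c2, c3]
      · rw [tg_ne g e]
        exact ⟨fun r => by have := hg v hv r; tauto, by rintro (rfl | rfl) <;> assumption⟩
    have h2 := k.pair8 hz hy ht hzy h1 hn t
    obtain ⟨a1, a2, a3, a4, n⟩ := k.nb c c0
    obtain ⟨-, m1, m2, m3, m4, n1, n2, n3, n4⟩ := n.mem k
    have h3 := n.card_X_tg k g
    obtain ⟨d1, d2, d3, d4, d5, d6, -⟩ := n
    have r1 := hg a1 m1
    have r2 := hg a2 m2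
    have r3 := hg a3 m3
    have r4 := hg a4 m4
    simp only [c1] at h3
    have : 2 ≤ (if true = g a1 then 0 else 1) + (if true = g a2 then 0 else 1) +
        (if true = g a3 then 0 else 1) + (if true = g a4 then 0 else 1) := by
      grind
    omega
  · refine k.pair8 (β := true) hz hy ht hzy h1 hn fun v hv => ⟨fun r => ?_, ?_⟩
    · have := hg v hv r
      grind
    · rintro (rfl | rfl) <;> assumption

end SG

open SG in
theorem unc : StUnc := by
  intro V _ F k hv hne H
  by_contra T
  have main : ∀ m, ∀ z g f, F.Ustr z g f → nc F.S g true ≠ m := by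
    intro m
    induction m using Nat.strong_induction_on with
    | _ m ih =>
    intro z g f h hm
    have L : ∀ z g f, F.Ustr z g f → m ≤ nc F.S g true := fun z g f h =>
      not_lt.1 fun w => ih _ w z g f h rfl
    obtain ⟨y, hy, gy, hn⟩ := h.three k T
    have h3 := h.nc3 k T
    have g0 := h.1
    have hzy : z ≠ y := fun e => by simp [← e, g0] at gy
    have hz : z ∈ F.S := by
      obtain ⟨-, -, -, p, p', q, q', n, -⟩ := h
      exact (n.mem k).1
    have key : ∀ g' f', F.Ustr y g' f' → g' z = false → False := by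
      intro g' f' h' gz
      have h'' := h'.sw k
      have y0 := h'.1
      set g'' : V → Bool := fun v => !tg g' y v with hg''
      have x1 : ∀ v, g'' v = true → g' v = false := fun v r => by
        by_cases e : v = y
        · rw [e, y0]
        · simpa [hg'', tg_ne g' e] using r
      have x2 : ∀ v, g' v = true → g'' v = false := fun v r => by
        by_contra w
        simp [x1 v (by simpa using w)] at r
      have l1 := L _ _ _ h'
      have l2 := L _ _ _ h''
      have s1 := nc_split F.S g' g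
      have s2 := nc_split F.S g'' g
      have s3 := nc_split F.S g g'
      have s4 := nc_split F.S (fun x => !g' x && g x) g''
      have e1 : nc F.S (fun x => g' x && g x) true = nc F.S (fun x => g x && g' x) true := by
        simp only [Bool.and_comm]
      have e2 : nc F.S (fun x => g'' x && (!g' x && g x)) true =
          nc F.S (fun x => g x && g'' x) true := by
        congr 1
        funext x
        have := x1 x
        revert this
        cases g'' x <;> cases g' x <;> cases g x <;> simp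
      have e3 : nc F.S (fun x => !g'' x && (!g' x && g x)) true = 1 := by
        refine Finset.card_eq_one.2 ⟨y, ?_⟩
        ext x
        by_cases e : x = y
        · simp [e, hy, gy, y0, hg'']
        · cases r : g' x <;> simp [e, hg'', tg_ne g' e, r]
      have m1 : nc F.S (fun x => !g x && g'' x) true ≤ nc F.S (fun x => !g x && !g' x) true :=
        nc_mono fun x => by have := x1 x; revert this; cases g'' x <;> cases g' x <;> simp
      have m2 : nc F.S (fun x => !g x && g' x) true ≤ nc F.S (fun x => !g x && !g'' x) true :=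
        nc_mono fun x => by have := x2 x; revert this; cases g'' x <;> cases g' x <;> simp
      have u1 : nc F.S (fun x => g x && g' x) true ≤ 1 := by
        by_contra w
        exact h.U k h' gy (by omega) (by omega)
      have u2 : nc F.S (fun x => g x && g'' x) true ≤ 1 := by
        by_contra w
        exact h.U k h'' gy (by omega) (by omega)
      have p1 := posimod (F := F) (tg g z) g'
      have t6 := h.tg6 k
      have t6' := h'.2.1
      have e4 : (fun v => !tg g z v && g' v) = fun v => !g v && g' v := by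
        funext v
        by_cases e : v = z
        · simp [e, gz]
        · rw [tg_ne g e]
      rw [e4] at p1
      have c1 := k.c6 (fun v => !g v && g' v) (by omega)
        (two_le_nc.2 ⟨z, hz, y, hy, hzy, by simp [gz], by simp [y0]⟩)
      have : Nonempty V := ⟨z⟩
      obtain ⟨c, hc⟩ := Finset.card_le_one_iff_subset_singleton.1 u2
      have c2 := k.tri8 (c := c) (g := fun v => tg g z v && !g' v) hz hy hy hzy hzy.symm hn
        (by simp [g0, gz]) (by simp [tg_ne g hzy.symm, gy, y0]) fun v hv r => by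
          by_cases e : v = z
          · exact Or.inl e
          by_cases e' : v = y
          · exact Or.inr (Or.inl e')
          refine Or.inr (Or.inr (Finset.mem_singleton.1 (hc (Finset.mem_filter.2 ⟨hv, ?_⟩))))
          simpa [tg_ne g e, hg'', tg_ne g' e'] using r
      omega
    obtain ⟨g', f', h'⟩ := unc_ex k hv H hy
    cases e : g' z
    · exact key g' f' h' e
    · exact key _ f' (h'.sw k) (by simp [tg_ne g' hzy, e])
  obtain ⟨y, hy⟩ := hne
  obtain ⟨g, f, h⟩ := unc_ex k hv H hy
  exact main _ y g f h rfl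

end Pool.Agent.Lib.MP_d7353d_co.T
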