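import Pool.Agent.Lib.MP_d7353d_co.TObs
import Pool.Agent.Lib.MP_d7353d_co.TFin
import Pool.Agent.Lib.MP_d7353d_co.TLink
import Pool.Agent.Lib.MP_d7353d_co.TComp
import Pool.Agent.Lib.MP_d7353d_co.TCut
import Pool.Agent.Lib.MP_d7353d_co.TChain
import Pool.Agent.Lib.MP_d7353d_co.TBixG
import Pool.Agent.Lib.MP_d7353d_co.TThread
import Pool.Agent.Lib.MP_d7353d_co.TSign
import Pool.Agent.Lib.MP_d7353d_co.TDraw
import Pool.Agent.Lib.MP_d7353d_co.TMove
import Pool.Agent.Lib.MP_d7353d_co.TLift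
import Pool.Agent.Lib.MP_d7353d_co.TSimple
import Pool.Agent.Lib.MP_d7353d_co.TChainF
import Pool.Agent.Lib.MP_d7353d_co.TClean
import Pool.Agent.Lib.MP_d7353d_co.TInfo
import Pool.Agent.Lib.MP_d7353d_co.TGam
import Pool.Agent.Lib.MP_d7353d_co.TBet
import Pool.Agent.Lib.MP_d7353d_co.TTri
import Pool.Agent.Lib.MP_d7353d_co.TBow
import Pool.Agent.Lib.MP_d7353d_co.TUnc

/-! A graph that is not a circle graph has `W5`, `W7` or `BW3` as a vertex-minor. -/

namespace Pool.Agent.Lib.MP_d7353d_co.T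

theorem obstruct : StObs :=
  obs comp (chain bixG thread) cutp sign draw reg smooth simple info (tri gam bet) bow unc
    (fin sign seg reg smooth move lift simple (chainF clean))

end Pool.Agent.Lib.MP_d7353d_co.T
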