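import Pool.Agent.Lib.MP_d7353d_co.T0

/-! Word algebra. -/

namespace Pool.Agent.Lib.MP_d7353d_co.T

set_option linter.unusedSectionVars false
set_option linter.unusedSimpArgs false

variable {V : Type} [DecidableEq V]

theorem par_append (A B : List V) (u : V) : par (A ++ B) u = (par A u ^^ par B u) := by
  induction A with
  | nil => simp [par]
  | cons a A ih => simp [par, ih]

theorem par_reverse (A : List V) (u : V) : par A.reverse u = par A u := by
  induction A with
  | nil => simp [par]
  | cons a A ih => simp [par, par_append, ih, Bool.xor_comm]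

theorem par_eq (A : List V) (u : V) : par A u = decide (A.count u % 2 = 1) := by
  induction A with
  | nil => simp [par]
  | cons a A ih =>
    rw [par, ih, List.count_cons]
    by_cases h : a = u
    · rcases Nat.mod_two_eq_zero_or_one (A.count u) with e | e <;> simp [h, e, Nat.add_mod]
    · simp [h]

theorem par_of_not_mem {A : List V} {u : V} (h : u ∉ A) : par A u = false := by
  simp [par_eq, List.count_eq_zero_of_not_mem h]

theorem inv_append (A B : List V) (u v : V) :
    inv (A ++ B) u v = (inv A u v ^^ inv B u v ^^ (par A u && par B v)) := by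
  induction A with
  | nil => simp [par, inv]
  | cons a A ih =>
    simp only [List.cons_append, inv, par, ih, par_append]
    cases decide (a = u) <;> cases par A v <;> cases par B v <;> cases par A u <;> cases inv A u v <;>
      cases inv B u v <;> rfl

theorem inv_reverse (A : List V) (u v : V) : inv A.reverse u v = inv A v u := by
  induction A with
  | nil => simp [inv]
  | cons a A ih =>
    simp only [List.reverse_cons, inv_append, ih, inv, par, par_reverse]
    cases decide (a = u) <;> cases decide (a = v) <;> cases par A u <;> cases inv A v u <;> rfl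

theorem inv_swap (A : List V) {u v : V} (h : u ≠ v) :
    inv A v u = (inv A u v ^^ (par A u && par A v)) := by
  induction A with
  | nil => simp [inv, par]
  | cons a A ih =>
    simp only [inv, par, ih]
    by_cases h1 : a = u
    · have h2 : ¬ a = v := fun e => h (h1.symm.trans e)
      simp only [h1, decide_true] at *
      simp only [h2, decide_false]
      cases par A v <;> cases par A u <;> cases inv A u v <;> rfl
    · simp only [h1, decide_false]
      cases decide (a = v) <;> cases par A v <;> cases par A u <;> cases inv A u v <;> rfl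

theorem inv_left {A : List V} {u : V} (h : u ∉ A) (v : V) : inv A u v = false := by
  induction A with
  | nil => rfl
  | cons a A ih =>
    have h1 : ¬ a = u := fun e => h (e ▸ List.mem_cons_self)
    simp [inv, h1, ih fun e => h (List.mem_cons_of_mem _ e)]

theorem inv_right {A : List V} {v : V} (h : v ∉ A) (u : V) : inv A u v = false := by
  induction A with
  | nil => rfl
  | cons a A ih =>
    have h1 : v ∉ A := fun e => h (List.mem_cons_of_mem _ e)
    simp [inv, par_of_not_mem h1, ih h1]

theorem par_filter (p : V → Bool) (A : List V) {u : V} (h : p u = true) :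
    par (A.filter p) u = par A u := by
  rw [par_eq, par_eq, List.count_filter h]

theorem inv_filter (p : V → Bool) (A : List V) {u v : V} (hu : p u = true) (hv : p v = true) :
    inv (A.filter p) u v = inv A u v := by
  induction A with
  | nil => rfl
  | cons a A ih =>
    by_cases h : p a = true
    · simp [List.filter_cons, h, inv, ih, par_filter p A hv]
    · have h1 : ¬ a = u := fun e => h (e ▸ hu)
      simp [List.filter_cons, h, inv, ih, h1]

theorem Dbl.par {S : Finset V} {W : List V} (h : Dbl S W) (u : V) : par W u = false := by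
  rw [par_eq, h u]; split_ifs <;> simp

theorem Dbl.mem {S : Finset V} {W : List V} (h : Dbl S W) {u : V} : u ∈ W ↔ u ∈ S := by
  rw [← List.count_pos_iff, h u]; split_ifs with e <;> simp [e]

theorem Dbl.perm {S : Finset V} {W W' : List V} (h : Dbl S W) (p : W.Perm W') : Dbl S W' :=
  fun v => by rw [← p.count_eq, h v]

theorem Dbl.length {S : Finset V} {W : List V} (h : Dbl S W) : W.length = 2 * S.card := by
  have h1 : W.toFinset = S := by ext v; simp [h.mem]
  rw [← List.sum_toFinset_count_eq_length, h1, Finset.sum_congr rfl (g := fun _ => 2)]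
  · simp [mul_comm]
  · intro v hv; rw [h v, if_pos hv]

/-- a word can be cut at the two occurrences of a letter -/
theorem Dbl.split {S : Finset V} {W : List V} (h : Dbl S W) {y : V} (hy : y ∈ S) :
    ∃ A B C, W = A ++ y :: B ++ y :: C ∧ y ∉ A ∧ y ∉ B ∧ y ∉ C := by
  obtain ⟨A, R, e, hA⟩ := List.eq_append_cons_of_mem (h.mem.2 hy)
  have c := h y
  rw [if_pos hy, e, List.count_append, List.count_cons_self, List.count_eq_zero_of_not_mem hA] at c
  have hR : y ∈ R := List.count_pos_iff.1 (by omega)
  obtain ⟨B, C, e', hB⟩ := List.eq_append_cons_of_mem hR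
  rw [e', List.count_append, List.count_cons_self, List.count_eq_zero_of_not_mem hB] at c
  exact ⟨A, B, C, by rw [e, e']; simp, hA, hB, List.count_eq_zero.1 (by omega)⟩

theorem Dbl.not_mem {S : Finset V} {A B : List V} {y : V} (h : Dbl S (y :: A ++ y :: B)) :
    y ∈ S ∧ y ∉ A ∧ y ∉ B := by
  have hy : y ∈ S := h.mem.1 (by simp)
  have c := h y
  simp only [if_pos hy, List.cons_append, List.count_cons_self, List.count_append] at c
  exact ⟨hy, List.count_eq_zero.1 (by omega), List.count_eq_zero.1 (by omega)⟩

theorem Rep.rot {G : Gr V} {S : Finset V} {A B : List V} (h : Rep G S (A ++ B)) :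
    Rep G S (B ++ A) := by
  refine ⟨h.1.perm List.perm_append_comm, fun u hu v hv huv => ?_⟩
  have h1 := h.1.par u
  have h2 := h.1.par v
  rw [h.2 u hu v hv huv, inv_append, inv_append]
  rw [par_append] at h1 h2
  revert h1 h2
  cases par A u <;> cases par A v <;> cases par B u <;> cases par B v <;> cases inv A u v <;>
    cases inv B u v <;> simp

theorem Rep.rev {G : Gr V} {S : Finset V} {A : List V} (h : Rep G S A) : Rep G S A.reverse := by
  refine ⟨h.1.perm (List.reverse_perm A).symm, fun u hu v hv huv => ?_⟩
  rw [h.2 u hu v hv huv, inv_reverse, inv_swap A huv, h.1.par u]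
  simp

/-- the neighbours of `y` are the letters occurring once between the two occurrences of `y` -/
theorem Rep.adj {G : Gr V} {S : Finset V} {A B : List V} {y : V} (h : Rep G S (y :: A ++ y :: B))
    {v : V} (hv : v ∈ S) (e : y ≠ v) : G y v = par A v := by
  obtain ⟨hy, hA, hB⟩ := h.1.not_mem
  rw [h.2 y hy v hv e]
  simp only [List.cons_append, inv, inv_append, par_append, par, inv_left hA, inv_left hB,
    par_of_not_mem hA, e, decide_true, decide_false]
  cases par A v <;> cases par B v <;> rfl

theorem Rep.lcs {G : Gr V} (hG : Sy G) {S : Finset V} {A B : List V} {y : V}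
    (h : Rep G S (y :: A ++ y :: B)) : Rep (lc G y) S (y :: A.reverse ++ y :: B) := by
  obtain ⟨hy, hA, hB⟩ := h.1.not_mem
  have hA' : y ∉ A.reverse := by simpa using hA
  refine ⟨h.1.perm (List.Perm.cons _ (List.Perm.append_right _ (List.reverse_perm A).symm)),
    fun u hu v hv huv => ?_⟩
  rw [lc, if_neg huv]
  by_cases e1 : y = u
  · subst e1
    rw [hG.2, h.adj hv huv]
    simp only [List.cons_append, inv, inv_append, par_append, par, inv_left hA', inv_left hB,
      par_of_not_mem hA, huv, decide_true, decide_false, par_reverse]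
    cases par A v <;> cases par B v <;> rfl
  by_cases e2 : y = v
  · subst e2
    rw [hG.2, hG.1 u y, h.adj hu e1]
    simp only [List.cons_append, inv, inv_append, par_append, par, inv_right hA', inv_right hB,
      par_of_not_mem hB, e1, decide_true, decide_false, par_reverse]
    cases par A u <;> rfl
  rw [hG.1 u y, h.adj hu e1, h.adj hv e2, h.2 u hu v hv huv]
  simp only [List.cons_append, inv, inv_append, par_append, par, e1, e2, decide_false, par_reverse,
    inv_reverse, inv_swap A huv]
  cases par A u <;> cases par A v <;> cases par B v <;> cases inv A u v <;> cases inv B u v <;> rfl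

theorem Dbl.sub {S S' : Finset V} {W : List V} (h : Dbl S W) (hs : S' ⊆ S) :
    Dbl S' (W.filter fun v => decide (v ∈ S')) := fun v => by
  by_cases hv : v ∈ S'
  · rw [List.count_filter (by simpa using hv), h v, if_pos hv, if_pos (hs hv)]
  · rw [if_neg hv, List.count_eq_zero]; simp [hv]

theorem Rep.sub {G : Gr V} {S S' : Finset V} {W : List V} (h : Rep G S W) (hs : S' ⊆ S) :
    Rep G S' (W.filter fun v => decide (v ∈ S')) :=
  ⟨h.1.sub hs, fun u hu v hv huv => by
    rw [inv_filter _ _ (by simpa using hu) (by simpa using hv), h.2 u (hs hu) v (hs hv) huv]⟩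

theorem Rep.erase {G : Gr V} {S : Finset V} {W : List V} (h : Rep G S W) (y : V) :
    Rep G (S.erase y) (W.filter fun v => decide (v ≠ y)) := by
  have := h.sub (S.erase_subset y)
  rwa [List.filter_congr (q := fun v => decide (v ≠ y))] at this
  intro v hv
  simp [h.1.mem.1 hv]

theorem Rep.congr {G H : Gr V} {S : Finset V} {W : List V} (h : Rep G S W)
    (e : ∀ u ∈ S, ∀ v ∈ S, u ≠ v → H u v = G u v) : Rep H S W :=
  ⟨h.1, fun u hu v hv huv => by rw [e u hu v hv huv, h.2 u hu v hv huv]⟩

theorem Circ.sub {G : Gr V} {S S' : Finset V} (h : Circ G S) (hs : S' ⊆ S) : Circ G S' :=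
  h.elim fun _ hW => ⟨_, hW.sub hs⟩

theorem Circ.congr {G H : Gr V} {S : Finset V} (h : Circ G S)
    (e : ∀ u ∈ S, ∀ v ∈ S, u ≠ v → H u v = G u v) : Circ H S :=
  h.elim fun _ hW => ⟨_, hW.congr e⟩

theorem Rep.at {G : Gr V} {S : Finset V} {W : List V} (h : Rep G S W) {y : V} (hy : y ∈ S) :
    ∃ A B, Rep G S (y :: A ++ y :: B) := by
  obtain ⟨A, B, C, e, -⟩ := h.1.split hy
  refine ⟨B, C ++ A, ?_⟩
  rw [e, List.append_assoc] at h
  simpa using h.rot

theorem Circ.lc {G : Gr V} (hG : Sy G) {S : Finset V} (h : Circ G S) {y : V} (hy : y ∈ S) :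
    Circ (lc G y) S := by
  obtain ⟨W, hW⟩ := h
  obtain ⟨A, B, h⟩ := hW.at hy
  exact ⟨_, h.lcs hG⟩

theorem Sy.lc {G : Gr V} (hG : Sy G) (y : V) : Sy (lc G y) := by
  refine ⟨fun u v => ?_, fun v => by simp [T.lc]⟩
  unfold T.lc
  by_cases h : u = v
  · simp [h]
  · rw [if_neg h, if_neg (Ne.symm h), hG.1 u v, hG.1 u y, hG.1 y v, Bool.and_comm]

theorem lc_left {G : Gr V} (hG : Sy G) (y v : V) : lc G y y v = G y v := by
  unfold lc
  by_cases h : y = v
  · simp [h, hG.2]
  · simp [h, hG.2]

theorem lc_right {G : Gr V} (hG : Sy G) (y v : V) : lc G y v y = G v y := by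
  rw [(hG.lc y).1, lc_left hG, hG.1]

theorem lc_lc {G : Gr V} (hG : Sy G) (y : V) : lc (lc G y) y = G := by
  funext u v
  rw [lc, lc_left hG, lc_right hG, lc]
  by_cases h : u = v
  · simp [h, hG.2]
  · simp [h]

theorem LE.sy {S : Finset V} {G H : Gr V} (h : LE S G H) (hG : Sy G) : Sy H := by
  induction h with
  | refl => exact hG
  | step y _ _ ih => exact ih.lc y

theorem LE.trans {S : Finset V} {G H K : Gr V} (h : LE S G H) (k : LE S H K) : LE S G K := by
  induction k with
  | refl => exact h
  | step y hy _ ih => exact .step y hy ih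

theorem LE.one {S : Finset V} (G : Gr V) {y : V} (hy : y ∈ S) : LE S G (lc G y) :=
  .step y hy .refl

theorem LE.symm {S : Finset V} {G H : Gr V} (h : LE S G H) (hG : Sy G) : LE S H G := by
  induction h with
  | refl => exact .refl
  | @step K y hy k ih =>
    refine LE.trans ?_ ih
    have := LE.one (lc K y) hy
    rwa [lc_lc (k.sy hG)] at this

theorem LE.mono {S S' : Finset V} {G H : Gr V} (h : LE S G H) (hs : S ⊆ S') : LE S' G H := by
  induction h with
  | refl => exact .refl
  | step y hy _ ih => exact .step y (hs hy) ih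

theorem Circ.le {S : Finset V} {G H : Gr V} (hG : Sy G) (h : LE S G H) (c : Circ G S) :
    Circ H S := by
  induction h with
  | refl => exact c
  | step y hy k ih => exact ih.lc (k.sy hG) hy

theorem Eqv.trans {A B C : List V} (h : Eqv A B) (k : Eqv B C) : Eqv A C := by
  induction k with
  | refl => exact h
  | rot X Y _ ih => exact .rot X Y ih
  | rev X _ ih => exact .rev X ih
  | lcs y X Y h1 h2 _ ih => exact .lcs y X Y h1 h2 ih

theorem Eqv.perm {A B : List V} (h : Eqv A B) : A.Perm B := by
  induction h with
  | refl => exact .refl _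
  | rot X Y _ ih => exact ih.trans List.perm_append_comm
  | rev X _ ih => exact ih.trans (List.reverse_perm X).symm
  | lcs y X Y _ _ _ ih =>
    exact ih.trans (List.Perm.cons _ (List.Perm.append_right _ (List.reverse_perm X).symm))

theorem HasO.up {S S' : Finset V} {G H : Gr V} (h : LE S G H) (hs : S' ⊆ S) (k : HasO H S') :
    HasO G S := by
  obtain ⟨K, k1, k2⟩ := k
  have m : ∀ n O, Emb K S' n O → Emb K S n O := fun n O ⟨σ, a, b⟩ => ⟨σ, fun i hi => hs (a i hi), b⟩
  exact ⟨K, h.trans (k1.mono hs), k2.imp (m _ _) (Or.imp (m _ _) (m _ _))⟩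

end Pool.Agent.Lib.MP_d7353d_co.T
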