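import Pool.Agent.Lib.MP_d7353d_co.TG

/-! Counting the edges of a set around a triangle. -/

namespace Pool.Agent.Lib.MP_d7353d_co.T

set_option linter.unusedSectionVars false
set_option linter.unusedSimpArgs false

variable {V : Type} [DecidableEq V]

namespace SG

variable {F : SG V}

/-- the nine edges meeting the triangle `z a b` and the others -/
theorem cardT (k : F.Ok) {z a b c d a1 a2 b1 b2 : V} (nz : F.Nb z a b c d) (na : F.Nb a z b a1 a2)
    (nb : F.Nb b z a b1 b2) {A : Finset (Sym2 V)} (hA : A ⊆ F.D) :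
    A.card = (if s(z, a) ∈ A then 1 else 0) + (if s(z, b) ∈ A then 1 else 0) +
      (if s(a, b) ∈ A then 1 else 0) + (if s(z, c) ∈ A then 1 else 0) + (if s(z, d) ∈ A then 1 else 0) +
      (if s(a, a1) ∈ A then 1 else 0) + (if s(a, a2) ∈ A then 1 else 0) +
      (if s(b, b1) ∈ A then 1 else 0) + (if s(b, b2) ∈ A then 1 else 0) +
      (A.filter fun e => z ∉ e ∧ a ∉ e ∧ b ∉ e).card := by
  have h1 := nz.card k hA
  have h2 := na.card k (A := A.filter fun e => z ∉ e) ((Finset.filter_subset _ _).trans hA)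
  have h3 := nb.card k (A := (A.filter fun e => z ∉ e).filter fun e => a ∉ e)
    ((Finset.filter_subset _ _).trans ((Finset.filter_subset _ _).trans hA))
  obtain ⟨-, -, -, -, -, z1, z2, z3, z4⟩ := nz.mem k
  obtain ⟨-, -, -, -, -, p1, p2, p3, p4⟩ := na.mem k
  obtain ⟨-, -, -, -, -, q1, q2, q3, q4⟩ := nb.mem k
  obtain ⟨u1, u2, u3, u4, u5, u6, -⟩ := na
  obtain ⟨v1, v2, v3, v4, v5, v6, -⟩ := nb
  have e : (((A.filter fun e => z ∉ e).filter fun e => a ∉ e).filter fun e => b ∉ e) =
      A.filter fun e => z ∉ e ∧ a ∉ e ∧ b ∉ e := by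
    ext x; simp only [Finset.mem_filter]; tauto
  rw [e] at h3
  simp only [Finset.mem_filter, Sym2.mem_iff, z1, z2, u2, u3, v2, v3, v4, v5, p2, or_true, true_or,
    not_true, and_false, false_and, if_false, or_self, not_false_eq_true, and_true, false_or, or_false] at h2 h3
  omega

end SG

end Pool.Agent.Lib.MP_d7353d_co.T
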