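import Pool.Agent.Lib.MP_d7353d_co.TS2

/-! Checkers for the tables on at most nine letters. -/

namespace Pool.Agent.Lib.MP_d7353d_co.T

set_option linter.unusedSectionVars false
set_option linter.unusedSimpArgs false

variable {V : Type} [DecidableEq V]

def allB : ℕ → (ℕ → Bool) → Bool
  | 0, _ => true
  | n + 1, p => p n && allB n p

theorem allB_spec {n : ℕ} {p : ℕ → Bool} (h : allB n p = true) : ∀ i < n, p i = true := by
  induction n with
  | zero => intro i hi; omega
  | succ n ih =>
    rw [allB, Bool.and_eq_true] at h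
    intro i hi
    rcases Nat.lt_succ_iff_lt_or_eq.1 hi with e | rfl
    · exact ih h.2 i e
    · exact h.1

/-- evaluate the number first -/
def seqN {α : Type} (n : ℕ) (k : ℕ → α) : α := Nat.rec (k 0) (fun m _ => k (m + 1)) n

theorem seqN_eq {α : Type} (n : ℕ) (k : ℕ → α) : seqN n k = k n := by cases n <;> rfl

def fld (c a b : ℕ) : ℕ := (c >>> a) % 2 ^ b

def digs (c w : ℕ) : ℕ → ℕ → List ℕ
  | 0, _ => []
  | n + 1, a => fld c a w :: digs c w n (a + w)

def rotW (r : ℕ) (W : List V) : List V := W.drop r ++ W.take r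

def lcW : List V → List V
  | [] => []
  | y :: R =>
    match R.dropWhile fun v => decide (v ≠ y) with
    | [] => y :: R
    | _ :: B => if y ∈ B then y :: R else y :: (R.takeWhile fun v => decide (v ≠ y)).reverse ++ y :: B

theorem eqv_rotW (r : ℕ) (W : List V) : Eqv W (rotW r W) :=
  .rot _ _ (by rw [List.take_append_drop]; exact .refl)

theorem eqv_lcW (W : List V) : Eqv W (lcW W) := by
  cases W with
  | nil => exact .refl
  | cons y R =>
    rw [lcW]
    split
    · exact .refl
    · rename_i z B e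
      split_ifs with h
      · exact .refl
      · have hz : z = y := by
          have := List.head_dropWhile_not (fun v => decide (v ≠ y)) (l := R) (by rw [e]; simp)
          simp only [e, List.head_cons] at this
          simpa using this
        refine .lcs y _ B (fun hy => ?_) h ?_
        · simpa using List.mem_takeWhile_imp hy
        · have := List.takeWhile_append_dropWhile (p := fun v => decide (v ≠ y)) (l := R)
          rw [e, hz] at this
          rw [List.cons_append, this]; exact .refl

def runW (W : List V) : List ℕ → List V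
  | [] => W
  | o :: l => runW (lcW (rotW o W)) l

theorem eqv_runW (l : List ℕ) : ∀ W : List V, Eqv W (runW W l) := by
  induction l with
  | nil => exact fun _ => .refl
  | cons o l ih => exact fun W => ((eqv_rotW o W).trans (eqv_lcW _)).trans (ih _)

def chW (f : V → Bool) : V → List V → V → ℕ
  | p, [], q => if (f p ^^ f q) = true then 1 else 0
  | p, a :: l, q => (if (f p ^^ f a) = true then 1 else 0) + chW f a l q

def cutW (f : V → Bool) : List V → ℕ
  | [] => 0
  | a :: l => chW f a l a

theorem fin_cut_wk (f : V → Bool) (l : List (V × Bool)) : ∀ p s q,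
    cut f (wk p s l q) = chW f p (l.map Prod.fst) q := by
  induction l with
  | nil => intro p s q; simp [cut, wk, chW, Multiset.countP_eq_card_filter, Multiset.filter_singleton]; split_ifs <;> simp
  | cons a l ih =>
    intro p s q
    have := ih a.1 a.2 q
    unfold cut at this
    simp only [cut, wk, chW, Multiset.countP_cons, List.map_cons, this]
    exact Nat.add_comm _ _

theorem cut_cyc (f : V → Bool) (L : List (V × Bool)) : cut f (cyc L) = cutW f (L.map Prod.fst) := by
  cases L with
  | nil => simp [cut, cyc, cutW]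
  | cons a l => exact fin_cut_wk f l _ _ _

theorem chW_map {U : Type} [DecidableEq U] (σ : U → V) (f : V → Bool) (g : U → Bool) (l : List U) :
    ∀ p q, (∀ u ∈ p :: q :: l, f (σ u) = g u) → chW f (σ p) (l.map σ) (σ q) = chW g p l q := by
  induction l with
  | nil => intro p q h; simp [chW, h]
  | cons a l ih =>
    intro p q h
    simp only [List.map_cons, chW]
    rw [ih a q fun u hu => h u (by simp at hu ⊢; tauto), h p (by simp), h a (by simp)]

theorem cutW_map {U : Type} [DecidableEq U] (σ : U → V) (f : V → Bool) (g : U → Bool) (l : List U)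
    (h : ∀ u ∈ l, f (σ u) = g u) : cutW f (l.map σ) = cutW g l := by
  cases l with
  | nil => rfl
  | cons a l => exact chW_map σ f g l a a fun u hu => h u (by simp at hu ⊢; tauto)

theorem par_map {U : Type} [DecidableEq U] {σ : U → V} {l : List U} {u : U}
    (h : ∀ a ∈ l, σ a = σ u → a = u) : par (l.map σ) (σ u) = par l u := by
  induction l with
  | nil => rfl
  | cons a l ih =>
    have : decide (σ a = σ u) = decide (a = u) :=
      decide_eq_decide.2 ⟨h a (by simp), fun e => by rw [e]⟩
    simp only [List.map_cons, par, this, ih fun b hb => h b (by simp [hb])]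

theorem inv_map {U : Type} [DecidableEq U] {σ : U → V} {l : List U} {u v : U}
    (h : ∀ a ∈ l, σ a = σ u → a = u) (k : ∀ a ∈ l, σ a = σ v → a = v) :
    inv (l.map σ) (σ u) (σ v) = inv l u v := by
  induction l with
  | nil => rfl
  | cons a l ih =>
    have : decide (σ a = σ u) = decide (a = u) :=
      decide_eq_decide.2 ⟨h a (by simp), fun e => by rw [e]⟩
    simp only [List.map_cons, inv, this, par_map fun b hb => k b (List.mem_cons_of_mem _ hb),
      ih (fun b hb => h b (by simp [hb])) fun b hb => k b (by simp [hb])]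

theorem count_map' {U : Type} [DecidableEq U] {σ : U → V} {l : List U} {u : U}
    (h : ∀ a ∈ l, σ a = σ u → a = u) : (l.map σ).count (σ u) = l.count u := by
  induction l with
  | nil => rfl
  | cons a l ih =>
    have : (σ a == σ u) = (a == u) := by
      rw [Bool.eq_iff_iff]; simp only [beq_iff_eq]; exact ⟨h a (by simp), fun e => by rw [e]⟩
    simp only [List.map_cons, List.count_cons, this, ih fun b hb => h b (by simp [hb])]

theorem Eqv.map {U : Type} [DecidableEq U] {σ : U → V} {A B : List U} (h : Eqv A B)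
    (i : ∀ a ∈ A, ∀ b ∈ A, σ a = σ b → a = b) : Eqv (A.map σ) (B.map σ) := by
  induction h with
  | refl => exact .refl
  | rot X Y _ ih => rw [List.map_append] at ih ⊢; exact .rot _ _ ih
  | rev X _ ih => rw [List.map_reverse]; exact .rev _ ih
  | lcs y X Y h1 h2 k ih =>
    have m : ∀ a ∈ y :: X ++ y :: Y, a ∈ A := fun a ha => k.perm.mem_iff.2 ha
    simp only [List.map_append, List.map_cons, List.map_reverse] at ih ⊢
    refine .lcs _ _ _ (fun e => ?_) (fun e => ?_) ih
    · obtain ⟨a, ha, e⟩ := List.mem_map.1 e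
      exact h1 (i a (m a (by simp [ha])) y (m y (by simp)) e ▸ ha)
    · obtain ⟨a, ha, e⟩ := List.mem_map.1 e
      exact h2 (i a (m a (by simp [ha])) y (m y (by simp)) e ▸ ha)

theorem count_add_le {U : Type} [DecidableEq U] {σ : U → V} (l : List U) {i j : U} (h : i ≠ j)
    (e : σ i = σ j) : l.count i + l.count j ≤ (l.map σ).count (σ i) := by
  induction l with
  | nil => simp
  | cons a l ih =>
    simp only [List.map_cons, List.count_cons, beq_iff_eq]
    split_ifs <;> first | omega | simp_all

/-- a renaming between double occurrence words is injective -/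
theorem Dbl.inj {U : Type} [DecidableEq U] {σ : U → V} {T : Finset U} {S : Finset V} {R : List U}
    (h : Dbl T R) (k : Dbl S (R.map σ)) {i j : U} (hi : i ∈ T) (hj : j ∈ T) (e : σ i = σ j) : i = j := by
  by_contra n
  have := count_add_le R n e
  rw [h i, h j, k (σ i), if_pos hi, if_pos hj] at this
  split_ifs at this <;> omega

def dblOk (k : ℕ) (R : List ℕ) : Bool :=
  allB k (fun i => R.count i == 2) && R.all fun a => decide (a < k)

theorem dbl_of {k : ℕ} {R : List ℕ} (h : dblOk k R = true) : Dbl (Finset.range k) R := by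
  rw [dblOk, Bool.and_eq_true, List.all_eq_true] at h
  intro v
  by_cases hv : v < k
  · simpa [hv] using allB_spec h.1 v hv
  · rw [if_neg (by simpa using hv), List.count_eq_zero]
    exact fun e => hv (by simpa using h.2 v e)

def ins (R : List ℕ) (i j k : ℕ) : List ℕ := R.take i ++ k :: (R.drop i).take (j - i) ++ k :: R.drop j

def stepOk (k : ℕ) (nx : List (List ℕ)) (W : List ℕ) (c : ℕ) : Bool :=
  if c % 2 = 0 then
    decide (4 ≤ k) && decide (2 ≤ (List.range (k + 1)).countP fun i => c.testBit (i + 1)) &&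
      decide (2 ≤ (List.range (k + 1)).countP fun i => !c.testBit (i + 1)) &&
      decide (cutW (fun i => c.testBit (i + 1)) W ≤ 5)
  else
    decide (fld c 1 5 < nx.length) &&
      decide (rotW (fld c 7 5) ((if fld c 6 1 = 1 then List.reverse else id)
        (runW W (digs c 5 (fld c 52 4) 56))) = (nx.getD (fld c 1 5) []).map fun s => fld c (12 + 4 * s) 4)

def stepAll (k : ℕ) (nx : List (List ℕ)) (R : List ℕ) (big : ℕ) : Bool :=
  decide (R.length = 2 * k) && allB (2 * k + 1) fun j => allB (j + 1) fun i =>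
    seqN (fld big (128 * (i * (2 * k + 1) + j)) 128) (stepOk k nx (ins R i j k))

/-- what one line of the first table says -/
def StepP (k : ℕ) (nx : List (List ℕ)) (R : List ℕ) : Prop :=
  ∀ A B C, R = A ++ B ++ C → (∃ T ∈ nx, ∃ π : ℕ → ℕ, Eqv (A ++ k :: B ++ k :: C) (T.map π)) ∨
    (4 ≤ k ∧ ∃ f, 2 ≤ nc (Finset.range (k + 1)) f true ∧ 2 ≤ nc (Finset.range (k + 1)) f false ∧
      cutW f (A ++ k :: B ++ k :: C) ≤ 5)

theorem nc_range (n : ℕ) (f : ℕ → Bool) (b : Bool) :
    nc (Finset.range n) f b = (List.range n).countP fun i => f i == b := by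
  rw [nc, List.countP_eq_length_filter]
  have : ((Finset.range n).filter fun v => f v = b) =
      ((List.range n).filter fun i => f i == b).toFinset := by ext; simp
  rw [this, List.toFinset_card_of_nodup (List.nodup_range.filter _)]

theorem stepP_of {k : ℕ} {nx : List (List ℕ)} {R : List ℕ} {big : ℕ}
    (h : stepAll k nx R big = true) : StepP k nx R := by
  rw [stepAll, Bool.and_eq_true, decide_eq_true_eq] at h
  rintro A B C rfl
  have hl := h.1
  simp only [List.length_append] at hl
  have := allB_spec (allB_spec h.2 (A.length + B.length) (by omega)) A.length (by omega)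
  rw [seqN_eq] at this
  have e : ins (A ++ B ++ C) A.length (A.length + B.length) k = A ++ k :: B ++ k :: C := by
    unfold ins
    rw [List.drop_left' (l₁ := A ++ B) (i := A.length + B.length) (by simp), List.append_assoc A B C,
      List.take_left, List.drop_left, Nat.add_sub_cancel_left, List.take_left]
  rw [e] at this
  generalize fld big _ 128 = c at this
  unfold stepOk at this
  split_ifs at this with h1 h2
  · simp only [Bool.and_eq_true, decide_eq_true_eq] at this
    refine Or.inr ⟨this.1.1.1, fun i => c.testBit (i + 1), ?_, ?_, this.2⟩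
    · rw [nc_range]; simpa using this.1.1.2
    · rw [nc_range]; simpa using this.1.2
  · simp only [Bool.and_eq_true, decide_eq_true_eq] at this
    refine Or.inl ⟨_, ?_, _, this.2 ▸ (Eqv.rev _ (eqv_runW _ _)).trans (eqv_rotW _ _)⟩
    rw [List.getD_eq_getElem _ _ this.1]; exact List.getElem_mem _
  · simp only [Bool.and_eq_true, decide_eq_true_eq] at this
    refine Or.inl ⟨_, ?_, _, this.2 ▸ (eqv_runW _ _).trans (eqv_rotW _ _)⟩
    rw [List.getD_eq_getElem _ _ this.1]; exact List.getElem_mem _

/-! matrices as numbers -/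

def am (M : ℕ) : Gr ℕ := fun i j => M.testBit (16 * i + j)

def rows (h : ℕ → ℕ) : ℕ → ℕ
  | 0 => 0
  | i + 1 => ((h i % 65536) <<< (16 * i)) ^^^ rows h i

theorem am_rows (h : ℕ → ℕ) (n a : ℕ) {b : ℕ} (hb : b < 16) :
    am (rows h n) a b = (decide (a < n) && (h a).testBit b) := by
  unfold am
  induction n with
  | zero => simp [rows]
  | succ n ih =>
    rw [rows, Nat.testBit_xor, ih, Nat.testBit_shiftLeft, show 65536 = 2 ^ 16 from rfl,
      Nat.testBit_mod_two_pow]
    rcases lt_trichotomy a n with e | rfl | e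
    · have : ¬ 16 * a + b ≥ 16 * n := by omega
      simp [this, e, Nat.lt_succ_of_lt e]
    · simp [hb]
    · have h1 : ¬ 16 * a + b - 16 * n < 16 := by omega
      have h2 : ¬ a < n + 1 := by omega
      have h3 : ¬ a < n := by omega
      simp [h1, h2, h3]

def lcM (n M y : ℕ) : ℕ :=
  seqN (M >>> (16 * y)) fun r => M ^^^ rows (fun i => if r.testBit i then r ^^^ 2 ^ i else 0) n

def addX (k M N : ℕ) : ℕ :=
  M ^^^ rows (fun i => if i = k then N else if N.testBit i then 2 ^ k else 0) (k + 1)

/-- `σ` maps the graph with matrix `M` on `0..n-1` to `G` on `S` -/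
structure Sim (G : Gr V) (S : Finset V) (σ : ℕ → V) (n M : ℕ) : Prop where
  sy : Sy G
  le : n ≤ 16
  mem : ∀ i < n, σ i ∈ S
  inj : ∀ i < n, ∀ j < n, σ i = σ j → i = j
  adj : ∀ i < n, ∀ j < n, G (σ i) (σ j) = am M i j

theorem Sim.lc {G : Gr V} {S : Finset V} {σ : ℕ → V} {n M y : ℕ} (h : Sim G S σ n M) (hy : y < n) :
    Sim (lc G (σ y)) S σ n (lcM n M y) := by
  refine ⟨h.sy.lc _, h.le, h.mem, h.inj, fun i hi j hj => ?_⟩
  have hn := h.le
  have e : ∀ a, (M >>> (16 * y)).testBit a = am M y a := fun a => by rw [Nat.testBit_shiftRight]; rfl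
  have : am (lcM n M y) i j = (am M i j ^^ (am M y i && (am M y j ^^ decide (i = j)))) := by
    rw [lcM, seqN_eq, am, Nat.testBit_xor]
    congr 1
    refine (am_rows _ n i (by omega)).trans ?_
    simp only [hi, decide_true, Bool.true_and, e]
    cases am M y i
    · simp
    · simp [Nat.testBit_xor, e, Nat.testBit_two_pow]
  rw [this, ← h.adj i hi j hj, ← h.adj y hy i hi, ← h.adj y hy j hj, T.lc]
  by_cases k : i = j
  · subst k; simp [h.sy.2]
  · rw [if_neg fun q => k (h.inj i hi j hj q), h.sy.1 (σ i) (σ y)]; simp [k]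

def runM (n : ℕ) (k : ℕ → Bool) : List ℕ → ℕ → Bool
  | [], M => k M
  | y :: l, M => decide (y < n) && seqN (lcM n M y) (runM n k l)

theorem Sim.run {S : Finset V} {σ : ℕ → V} {n : ℕ} {k : ℕ → Bool} (l : List ℕ) :
    ∀ {G : Gr V} {M : ℕ}, Sim G S σ n M → runM n k l M = true →
      ∃ H M', LE S G H ∧ Sim H S σ n M' ∧ k M' = true := by
  induction l with
  | nil => exact fun h e => ⟨_, _, .refl, h, e⟩
  | cons y l ih =>
    intro G M h e
    rw [runM, Bool.and_eq_true, decide_eq_true_eq, seqN_eq] at e
    obtain ⟨H, M', a, b⟩ := ih (h.lc e.1) e.2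
    exact ⟨H, M', (LE.one G (h.mem y e.1)).trans a, b⟩

def embOk (n m O c M : ℕ) : Bool :=
  allB m fun i => seqN (fld c (2 + 4 * i) 4) fun a => decide (a < n) && allB m fun j =>
    decide (i = j) || seqN (fld c (2 + 4 * j) 4) fun b => decide (a ≠ b) && (am M a b == am O i j)

theorem Sim.emb {G : Gr V} {S : Finset V} {σ : ℕ → V} {n M m O c : ℕ} {O' : Gr ℕ} (h : Sim G S σ n M)
    (e : embOk n m O c M = true) (hO : ∀ i < m, ∀ j < m, am O i j = O' i j) : Emb G S m O' := by
  have k : ∀ i < m, fld c (2 + 4 * i) 4 < n ∧ ∀ j < m, i ≠ j → fld c (2 + 4 * i) 4 ≠ fld c (2 + 4 * j) 4 ∧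
      am M (fld c (2 + 4 * i) 4) (fld c (2 + 4 * j) 4) = am O i j := fun i hi => by
    have := allB_spec e i hi
    rw [seqN_eq, Bool.and_eq_true, decide_eq_true_eq] at this
    refine ⟨this.1, fun j hj n => ?_⟩
    have := allB_spec this.2 j hj
    simpa [seqN_eq, n] using this
  refine ⟨fun i => σ (fld c (2 + 4 * i) 4), fun i hi => h.mem _ (k i hi).1, fun i hi j hj n => ?_⟩
  exact ⟨fun q => ((k i hi).2 j hj n).1 (h.inj _ (k i hi).1 _ (k j hj).1 q),
    by rw [h.adj _ (k i hi).1 _ (k j hj).1, ((k i hi).2 j hj n).2, hO i hi j hj]⟩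

def o5 : ℕ := 0x1f00290034002a00250032
def o7 : ℕ := 0x7f00a100d000a80094008a008500c2
def o3 : ℕ := 0x15001100680014004a00050062

theorem o5_eq : ∀ i < 6, ∀ j < 6, am o5 i j = wheel 5 (fun _ => true) i j := by decide +kernel
theorem o7_eq : ∀ i < 8, ∀ j < 8, am o7 i j = wheel 7 (fun _ => true) i j := by decide +kernel
theorem o3_eq : ∀ i < 7, ∀ j < 7, am o3 i j = wheel 6 (fun i => decide (i % 2 = 0)) i j := by
  decide +kernel

def obsOk (k : ℕ) (R : List ℕ) (M N c : ℕ) : Bool :=
  if c % 4 = 3 then
    decide (1 ≤ fld c 2 5) && allB k fun u => N.testBit u == par ((R.drop (fld c 2 5)).take (fld c 7 5)) u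
  else
    seqN (addX k M N) (runM (k + 1)
      (if c % 4 = 0 then embOk (k + 1) 6 o5 c else if c % 4 = 1 then embOk (k + 1) 8 o7 c
        else embOk (k + 1) 7 o3 c) (digs c 4 (fld c 34 5) 39))

def matOk (k : ℕ) (R : List ℕ) (M : ℕ) : Bool :=
  allB (k + 1) fun i => allB (k + 1) fun j => am M i j == (decide (i ≠ j) && inv R i j)

def obsAll (k : ℕ) (R : List ℕ) (M big lo n : ℕ) : Bool :=
  allB n fun N => seqN (fld big (128 * N) 128) (obsOk k R M (lo + N))

def cirOk (k M N c : ℕ) : Bool :=
  dblOk (k + 1) (digs c 4 (2 * k + 2) 0) && allB (k + 1) fun i => allB (k + 1) fun j =>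
    decide (i = j) || (am (addX k M N) i j == inv (digs c 4 (2 * k + 2) 0) i j)

def cirAll (k M big : ℕ) : Bool := allB (2 ^ k) fun N => seqN (fld big (128 * N) 128) (cirOk k M N)

theorem obs_of {k : ℕ} {R : List ℕ} {M N c : ℕ} (hR : R ≠ []) (h : obsOk k R M N c = true) :
    (∃ A B C, R = A ++ B ++ C ∧ A ≠ [] ∧ ∀ u < k, N.testBit u = par B u) ∨
      ∀ (G : Gr V) (S : Finset V) (σ : ℕ → V), Sim G S σ (k + 1) (addX k M N) → HasO G S := by
  unfold obsOk at h
  split_ifs at h with h1 h2 h3
  · rw [Bool.and_eq_true, decide_eq_true_eq] at h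
    refine Or.inl ⟨R.take (fld c 2 5), (R.drop (fld c 2 5)).take (fld c 7 5),
      (R.drop (fld c 2 5)).drop (fld c 7 5), ?_, ?_, fun u hu => by simpa using allB_spec h.2 u hu⟩
    · rw [List.append_assoc, List.take_append_drop, List.take_append_drop]
    · have := h.1
      simp only [ne_eq, List.take_eq_nil_iff, hR, or_false]; omega
  all_goals
    refine Or.inr fun G S σ s => ?_
    rw [seqN_eq] at h
    obtain ⟨H, M', a, b, e⟩ := s.run _ h
  · exact ⟨H, a, Or.inl (b.emb e o5_eq)⟩
  · exact ⟨H, a, Or.inr (Or.inl (b.emb e o7_eq))⟩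
  · exact ⟨H, a, Or.inr (Or.inr (b.emb e o3_eq))⟩

theorem cir_of {k M N c : ℕ} (h : cirOk k M N c = true) {G : Gr V} {S : Finset V} {σ : ℕ → V}
    (s : Sim G S σ (k + 1) (addX k M N)) (on : ∀ v ∈ S, ∃ i < k + 1, σ i = v) : Circ G S := by
  rw [cirOk, Bool.and_eq_true] at h
  have d := dbl_of h.1
  generalize digs c 4 (2 * k + 2) 0 = W at h d
  have i1 : ∀ i < k + 1, ∀ a ∈ W, σ a = σ i → a = i := fun i hi a ha =>
    s.inj a (by simpa using d.mem.1 ha) i hi
  refine ⟨W.map σ, fun v => ?_, fun u hu v hv n => ?_⟩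
  · by_cases hv : v ∈ S
    · obtain ⟨i, hi, rfl⟩ := on v hv
      rw [count_map' (i1 i hi), d i, if_pos hv, if_pos (by simpa using hi)]
    · rw [if_neg hv, List.count_eq_zero]
      intro e
      obtain ⟨a, ha, rfl⟩ := List.mem_map.1 e
      exact hv (s.mem a (by simpa using d.mem.1 ha))
  · obtain ⟨i, hi, rfl⟩ := on u hu
    obtain ⟨j, hj, rfl⟩ := on v hv
    have e : i ≠ j := fun e => n (by rw [e])
    rw [inv_map (i1 i hi) (i1 j hj), s.adj i hi j hj]
    simpa [e] using allB_spec (allB_spec h.2 i hi) j hj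

end Pool.Agent.Lib.MP_d7353d_co.T
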