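import Pool.Agent.Lib.MP_d7353d_co.TS

/-! Toolkit for simple signed 4-regular graphs. -/

namespace Pool.Agent.Lib.MP_d7353d_co.T

set_option linter.unusedSectionVars false
set_option linter.unusedSimpArgs false

variable {V : Type} [DecidableEq V]

@[simp] theorem cr_mk (f : V → Bool) (u v : V) : cr f s(u, v) = (f u ^^ f v) := rfl

@[simp] theorem mult_mk (y u v : V) :
    mult y s(u, v) = (if u = y then 1 else 0) + (if v = y then 1 else 0) := rfl

/-- change the colour of `y` -/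
def tg (f : V → Bool) (y : V) : V → Bool := fun v => if v = y then !f y else f v

@[simp] theorem tg_self (f : V → Bool) (y : V) : tg f y y = !f y := by simp [tg]

theorem tg_ne (f : V → Bool) {y v : V} (h : v ≠ y) : tg f y v = f v := by simp [tg, h]

theorem cr_congr {f g : V → Bool} {e : Sym2 V} (h : ∀ v ∈ e, f v = g v) : cr f e = cr g e := by
  induction e using Sym2.ind with
  | _ u v => rw [cr_mk, cr_mk, h u (by simp), h v (by simp)]

theorem cr_tg (f : V → Bool) {y : V} {e : Sym2 V} (h : y ∉ e) : cr (tg f y) e = cr f e :=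
  cr_congr fun _ hv => tg_ne f fun k => h (k ▸ hv)

theorem cr_not (f : V → Bool) (e : Sym2 V) : cr (fun v => !f v) e = cr f e := by
  induction e using Sym2.ind with
  | _ u v => simp

theorem cr_xor (f g : V → Bool) (e : Sym2 V) : cr (fun v => f v ^^ g v) e = (cr f e ^^ cr g e) := by
  induction e using Sym2.ind with
  | _ u v => simp only [cr_mk]; cases f u <;> cases f v <;> cases g u <;> cases g v <;> rfl

theorem one_le_nc {S : Finset V} {f : V → Bool} {b : Bool} :
    1 ≤ nc S f b ↔ ∃ p ∈ S, f p = b := by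
  simp [nc, Finset.one_le_card, Finset.Nonempty]

theorem two_le_nc {S : Finset V} {f : V → Bool} {b : Bool} :
    2 ≤ nc S f b ↔ ∃ p ∈ S, ∃ q ∈ S, p ≠ q ∧ f p = b ∧ f q = b := by
  rw [nc, ← Nat.lt_iff_add_one_le, Finset.one_lt_card]
  simp only [Finset.mem_filter]
  grind

theorem three_le_nc {S : Finset V} {f : V → Bool} {b : Bool} :
    3 ≤ nc S f b ↔ ∃ p ∈ S, ∃ q ∈ S, ∃ r ∈ S, p ≠ q ∧ p ≠ r ∧ q ≠ r ∧ f p = b ∧ f q = b ∧ f r = b := by
  rw [nc, ← Nat.lt_iff_add_one_le, Finset.two_lt_card]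
  simp only [Finset.mem_filter]
  grind

theorem nc_add (S : Finset V) (f : V → Bool) : nc S f true + nc S f false = S.card := by
  rw [nc, nc, ← Finset.card_filter_add_card_filter_not (s := S) (fun v => f v = true)]
  simp

theorem nc_not (S : Finset V) (f : V → Bool) (b : Bool) : nc S (fun v => !f v) b = nc S f (!b) := by
  unfold nc; congr 1; ext v; cases b <;> simp

namespace SG

variable {F : SG V}

theorem mem_N {f : V → Bool} {u v : V} :
    s(u, v) ∈ F.N f ↔ s(u, v) ∈ F.D ∧ (f u ^^ f v ^^ F.sg s(u, v)) = true :=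
  Finset.mem_filter

theorem mem_X {f : V → Bool} {u v : V} : s(u, v) ∈ F.X f ↔ s(u, v) ∈ F.D ∧ f u ≠ f v := by simp [X]

theorem N_sub (f : V → Bool) : F.N f ⊆ F.D := Finset.filter_subset _ _

theorem X_sub (f : V → Bool) : F.X f ⊆ F.D := Finset.filter_subset _ _

theorem X_not (f : V → Bool) : F.X (fun v => !f v) = F.X f := by simp [X, cr_not]

theorem N_not (f : V → Bool) : F.N (fun v => !f v) = F.N f := by simp [N, cr_not]

theorem mem_X_xor {f g : V → Bool} {e : Sym2 V} :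
    e ∈ F.X (fun v => f v ^^ g v) ↔ ¬ (e ∈ F.N f ↔ e ∈ F.N g) := by
  simp only [X, N, Finset.mem_filter, cr_xor]
  cases cr f e <;> cases cr g e <;> cases F.sg e <;> simp

/-- the cut between two signatures -/
theorem card_X_xor (f g : V → Bool) :
    (F.X fun v => f v ^^ g v).card + 2 * (F.N f ∩ F.N g).card = (F.N f).card + (F.N g).card := by
  have : (F.X fun v => f v ^^ g v) = (F.N f ∪ F.N g) \ (F.N f ∩ F.N g) := by
    ext e; rw [mem_X_xor]; simp only [Finset.mem_sdiff, Finset.mem_union, Finset.mem_inter]; tauto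
  rw [this, Finset.card_sdiff_of_subset Finset.inter_subset_union]
  have := Finset.card_union_add_card_inter (F.N f) (F.N g)
  have := Finset.card_le_card (Finset.inter_subset_union (s := F.N f) (t := F.N g))
  omega

theorem X_congr (h : F.Ok) {f g : V → Bool} (e : ∀ v ∈ F.S, f v = g v) : F.X f = F.X g := by
  ext x
  induction x using Sym2.ind with
  | _ u v =>
    rw [mem_X, mem_X]
    exact and_congr_right fun k => by rw [e u (h.ins u v k).1, e v (h.ins u v k).2.1]

theorem Nb.adj {y a b c d : V} (h : F.Nb y a b c d) :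
    s(y, a) ∈ F.D ∧ s(y, b) ∈ F.D ∧ s(y, c) ∈ F.D ∧ s(y, d) ∈ F.D := by
  simp [h.2.2.2.2.2.2]

theorem Nb.mem (k : F.Ok) {y a b c d : V} (h : F.Nb y a b c d) :
    y ∈ F.S ∧ a ∈ F.S ∧ b ∈ F.S ∧ c ∈ F.S ∧ d ∈ F.S ∧ y ≠ a ∧ y ≠ b ∧ y ≠ c ∧ y ≠ d := by
  obtain ⟨h1, h2, h3, h4⟩ := h.adj
  have := k.ins _ _ h1
  have := k.ins _ _ h2
  have := k.ins _ _ h3
  have := k.ins _ _ h4
  tauto

theorem Nb.s12 {y a b c d : V} (h : F.Nb y a b c d) : F.Nb y b a c d := by unfold Nb at *; grind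
theorem Nb.s23 {y a b c d : V} (h : F.Nb y a b c d) : F.Nb y a c b d := by unfold Nb at *; grind
theorem Nb.s34 {y a b c d : V} (h : F.Nb y a b c d) : F.Nb y a b d c := by unfold Nb at *; grind
theorem Nb.sw {y a b c d : V} (h : F.Nb y a b c d) : F.Nb y c d a b := by unfold Nb at *; grind

/-- two given neighbours can be put first -/
theorem Ok.nb2 (k : F.Ok) {y a b : V} (ha : s(y, a) ∈ F.D) (hb : s(y, b) ∈ F.D) (hab : a ≠ b) :
    ∃ c d, F.Nb y a b c d := by
  obtain ⟨p, q, r, s, h⟩ := k.nb y (k.ins _ _ ha).1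
  rw [h.2.2.2.2.2.2] at ha hb
  rcases ha with rfl | rfl | rfl | rfl <;> rcases hb with rfl | rfl | rfl | rfl <;>
    first
    | exact absurd rfl hab
    | exact ⟨_, _, h⟩ | exact ⟨_, _, h.s23⟩ | exact ⟨_, _, h.s34.s23⟩
    | exact ⟨_, _, h.s12⟩ | exact ⟨_, _, h.s12.s23⟩ | exact ⟨_, _, h.s12.s34.s23⟩
    | exact ⟨_, _, h.s23.s12⟩ | exact ⟨_, _, h.s12.s23.s12⟩ | exact ⟨_, _, h.sw⟩
    | exact ⟨_, _, h.s34.s23.s12⟩ | exact ⟨_, _, h.s12.s34.s23.s12⟩ | exact ⟨_, _, h.sw.s12⟩

/-- no five neighbours -/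
theorem Ok.five (k : F.Ok) {y a b c d e : V} (ha : s(y, a) ∈ F.D) (hb : s(y, b) ∈ F.D)
    (hc : s(y, c) ∈ F.D) (hd : s(y, d) ∈ F.D) (he : s(y, e) ∈ F.D) :
    a = b ∨ a = c ∨ a = d ∨ a = e ∨ b = c ∨ b = d ∨ b = e ∨ c = d ∨ c = e ∨ d = e := by
  obtain ⟨p, q, r, s, h⟩ := k.nb y (k.ins _ _ ha).1
  rw [h.2.2.2.2.2.2] at ha hb hc hd he
  grind

theorem mem_N_tg {f : V → Bool} {y : V} {e : Sym2 V} (h : y ∉ e) : e ∈ F.N (tg f y) ↔ e ∈ F.N f := by
  simp [N, cr_tg f h]

theorem mem_X_tg {f : V → Bool} {y : V} {e : Sym2 V} (h : y ∉ e) : e ∈ F.X (tg f y) ↔ e ∈ F.X f := by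
  simp [X, cr_tg f h]

theorem mem_N_tg' (k : F.Ok) {f : V → Bool} {y w : V} (h : s(y, w) ∈ F.D) :
    s(y, w) ∈ F.N (tg f y) ↔ s(y, w) ∉ F.N f := by
  rw [mem_N, mem_N, tg_self, tg_ne f (k.ins _ _ h).2.2.symm]
  cases f y <;> cases f w <;> cases F.sg s(y, w) <;> simp [h]

theorem mem_X_tg' (k : F.Ok) {f : V → Bool} {y w : V} (h : s(y, w) ∈ F.D) :
    s(y, w) ∈ F.X (tg f y) ↔ s(y, w) ∉ F.X f := by
  rw [mem_X, mem_X, tg_self, tg_ne f (k.ins _ _ h).2.2.symm]
  cases f y <;> cases f w <;> simp [h]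

/-- counting a set of edges: the four edges at `y` and the others -/
theorem Nb.card (k : F.Ok) {y a b c d : V} (h : F.Nb y a b c d) {A : Finset (Sym2 V)} (hA : A ⊆ F.D) :
    A.card = (if s(y, a) ∈ A then 1 else 0) + (if s(y, b) ∈ A then 1 else 0) +
      (if s(y, c) ∈ A then 1 else 0) + (if s(y, d) ∈ A then 1 else 0) + (A.filter fun e => y ∉ e).card := by
  rw [← Finset.card_filter_add_card_filter_not (s := A) (fun e => y ∈ e)]
  congr 1
  have e : (A.filter fun e => y ∈ e) =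
      ({s(y, a), s(y, b), s(y, c), s(y, d)} : Finset (Sym2 V)).filter fun e => e ∈ A := by
    ext x
    simp only [Finset.mem_filter, Finset.mem_insert, Finset.mem_singleton]
    constructor
    · rintro ⟨h1, h2⟩
      obtain ⟨w, rfl⟩ := Sym2.mem_iff_exists.1 h2
      refine ⟨?_, h1⟩
      rcases (h.2.2.2.2.2.2 w).1 (hA h1) with rfl | rfl | rfl | rfl <;> simp
    · rintro ⟨h1, h2⟩
      refine ⟨h2, ?_⟩
      rcases h1 with rfl | rfl | rfl | rfl <;> simp
  obtain ⟨-, -, -, -, -, n1, n2, n3, n4⟩ := h.mem k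
  obtain ⟨h1, h2, h3, h4, h5, h6, -⟩ := h
  rw [e, Finset.card_filter, Finset.sum_insert (by simp [h1, h2, h3, n1, n2, n3, n4]),
    Finset.sum_insert (by simp [h4, h5, n1, n2, n3, n4]),
    Finset.sum_insert (by simp [h6, n1, n2, n3, n4]), Finset.sum_singleton]
  omega

theorem Nb.card_N_tg (k : F.Ok) {y a b c d : V} (h : F.Nb y a b c d) (f : V → Bool) :
    (F.N (tg f y)).card + 2 * ((if s(y, a) ∈ F.N f then 1 else 0) + (if s(y, b) ∈ F.N f then 1 else 0) +
      (if s(y, c) ∈ F.N f then 1 else 0) + (if s(y, d) ∈ F.N f then 1 else 0)) = (F.N f).card + 4 := by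
  obtain ⟨h1, h2, h3, h4⟩ := h.adj
  have e : ((F.N (tg f y)).filter fun e => y ∉ e) = (F.N f).filter fun e => y ∉ e := by
    ext x
    simp only [Finset.mem_filter]
    exact and_congr_left fun hx => mem_N_tg hx
  rw [h.card k (N_sub (tg f y)), h.card k (N_sub f), e]
  simp only [mem_N_tg' k h1, mem_N_tg' k h2, mem_N_tg' k h3, mem_N_tg' k h4, ite_not]
  split_ifs <;> omega

theorem Nb.card_X_tg (k : F.Ok) {y a b c d : V} (h : F.Nb y a b c d) (f : V → Bool) :
    (F.X (tg f y)).card + 2 * ((if f y = f a then 0 else 1) + (if f y = f b then 0 else 1) +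
      (if f y = f c then 0 else 1) + (if f y = f d then 0 else 1)) = (F.X f).card + 4 := by
  obtain ⟨h1, h2, h3, h4⟩ := h.adj
  have e : ((F.X (tg f y)).filter fun e => y ∉ e) = (F.X f).filter fun e => y ∉ e := by
    ext x
    simp only [Finset.mem_filter]
    exact and_congr_left fun hx => mem_X_tg hx
  rw [h.card k (X_sub (tg f y)), h.card k (X_sub f), e]
  simp only [mem_X_tg' k h1, mem_X_tg' k h2, mem_X_tg' k h3, mem_X_tg' k h4]
  simp only [mem_X, h1, h2, h3, h4, true_and, ne_eq, ite_not]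
  split_ifs <;> omega

/-- the parity of a triangle does not depend on the signature -/
theorem OddT.par {y a b : V} (h : F.OddT y a b) (ha : s(y, a) ∈ F.D) (hb : s(y, b) ∈ F.D)
    (f : V → Bool) : (s(y, a) ∈ F.N f ↔ (s(y, b) ∈ F.N f ↔ s(a, b) ∈ F.N f)) := by
  obtain ⟨h1, h2⟩ := h
  simp only [mem_N, ha, hb, h1, true_and]
  revert h2
  cases f y <;> cases f a <;> cases f b <;> cases F.sg s(y, a) <;> cases F.sg s(y, b) <;>
    cases F.sg s(a, b) <;> simp

theorem oddT_of {y a b : V} (ha : s(y, a) ∈ F.D) (hb : s(y, b) ∈ F.D) (hc : s(a, b) ∈ F.D)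
    {f : V → Bool} (h : s(y, a) ∈ F.N f ↔ (s(y, b) ∈ F.N f ↔ s(a, b) ∈ F.N f)) : F.OddT y a b := by
  refine ⟨hc, ?_⟩
  simp only [mem_N, ha, hb, hc, true_and] at h
  revert h
  cases f y <;> cases f a <;> cases f b <;> cases F.sg s(y, a) <;> cases F.sg s(y, b) <;>
    cases F.sg s(a, b) <;> simp

theorem OddT.symm {y a b : V} (h : F.OddT y a b) : F.OddT y b a := by
  obtain ⟨h1, h2⟩ := h
  refine ⟨Sym2.eq_swap ▸ h1, ?_⟩
  rw [Sym2.eq_swap (a := b) (b := a), ← h2]
  cases F.sg s(y, a) <;> cases F.sg s(y, b) <;> rfl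

theorem card_X_le {f g p q : V → Bool}
    (h : ∀ u v, (if p u = p v then 0 else 1) + (if q u = q v then 0 else 1) ≤
      (if f u = f v then 0 else 1) + (if g u = g v then 0 else 1)) :
    (F.X p).card + (F.X q).card ≤ (F.X f).card + (F.X g).card := by
  simp only [X, Finset.card_filter, ← Finset.sum_add_distrib]
  refine Finset.sum_le_sum fun e _ => ?_
  induction e using Sym2.ind with
  | _ u v =>
    have := h u v
    have e : ∀ a b : Bool, (if (a ^^ b) = true then 1 else 0) = if a = b then 0 else 1 := by decide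
    exact (by simpa only [e] using this :
      (if (p u ^^ p v) = true then 1 else 0) + (if (q u ^^ q v) = true then 1 else 0) ≤
      (if (f u ^^ f v) = true then 1 else 0) + (if (g u ^^ g v) = true then 1 else 0))

/-- submodularity -/
theorem submod (f g : V → Bool) :
    (F.X fun v => f v && g v).card + (F.X fun v => !f v && !g v).card ≤ (F.X f).card + (F.X g).card :=
  card_X_le fun u v => by cases f u <;> cases f v <;> cases g u <;> cases g v <;> simp

theorem posimod (f g : V → Bool) :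
    (F.X fun v => f v && !g v).card + (F.X fun v => !f v && g v).card ≤ (F.X f).card + (F.X g).card :=
  card_X_le fun u v => by cases f u <;> cases f v <;> cases g u <;> cases g v <;> simp

theorem NB.s12 {y a b c d : V} (h : F.NB y a b c d) : F.NB y b a c d :=
  fun g h0 h1 h2 h3 h4 h5 => (h g h0 h2 h1 h3 h4 h5).imp (fun k v hv e => (k v hv e).symm) id

theorem NB.s34 {y a b c d : V} (h : F.NB y a b c d) : F.NB y a b d c :=
  fun g h0 h1 h2 h3 h4 h5 => (h g h0 h1 h2 h4 h3 h5).imp id fun k v hv e => by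
    have := k v hv e; tauto

theorem NB.sw (k : F.Ok) {y a b c d : V} (n : F.Nb y a b c d) (h : F.NB y a b c d) :
    F.NB y c d a b := by
  intro g h0 h1 h2 h3 h4 h5
  obtain ⟨-, -, -, -, -, n1, n2, n3, n4⟩ := n.mem k
  have c1 := n.card_X_tg k g
  simp only [h0, h1, h2, h3, h4] at c1
  have := h (fun v => !tg g y v) (by simp [h0]) (by simp [tg_ne g n1.symm, h3])
    (by simp [tg_ne g n2.symm, h4]) (by simp [tg_ne g n3.symm, h1]) (by simp [tg_ne g n4.symm, h2])
    (by rw [X_not]; simp at c1; omega)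
  rcases this with t | t
  · refine Or.inr fun v hv e => ?_
    by_cases hy : v = y
    · exact Or.inl hy
    · exact Or.inr (t v hv (by simp [tg_ne g hy, e]))
  · refine Or.inl fun v hv e => ?_
    have hy : v ≠ y := fun hy => by simp [hy, h0] at e
    exact (t v hv (by simp [tg_ne g hy, e])).resolve_left hy

theorem cut_E (f : V → Bool) : cut f F.E = (F.X f).card := by
  rw [cut, E, Multiset.countP_map]; rfl

theorem neg_E (f : V → Bool) : neg f F.E = (F.N f).card := by
  rw [neg, E, Multiset.countP_map]; rfl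

/-- the star decomposition at a vertex -/
theorem Nb.star (k : F.Ok) {y a b c d : V} (h : F.Nb y a b c d) :
    Star F.E y (a, F.sg s(y, a)) (b, F.sg s(y, b)) (c, F.sg s(y, c)) (d, F.sg s(y, d))
      ((F.D.filter fun e => y ∉ e).val.map fun e => (e, F.sg e)) := by
  obtain ⟨-, -, -, -, -, n1, n2, n3, n4⟩ := h.mem k
  refine ⟨fun e he => ?_, n1.symm, n2.symm, n3.symm, n4.symm, ?_⟩
  · obtain ⟨x, hx, rfl⟩ := Multiset.mem_map.1 he
    exact (Finset.mem_filter.1 hx).2
  have e : F.D = insert s(y, a) (insert s(y, b) (insert s(y, c) (insert s(y, d)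
      (F.D.filter fun e => y ∉ e)))) := by
    ext x
    simp only [Finset.mem_filter, Finset.mem_insert]
    constructor
    · intro hx
      by_cases hy : y ∈ x
      · obtain ⟨w, rfl⟩ := Sym2.mem_iff_exists.1 hy
        rcases (h.2.2.2.2.2.2 w).1 hx with rfl | rfl | rfl | rfl <;> simp
      · simp [hx, hy]
    · obtain ⟨h1, h2, h3, h4⟩ := h.adj
      rintro (rfl | rfl | rfl | rfl | hx) <;> first | assumption | exact hx.1
  obtain ⟨h1, h2, h3, h4, h5, h6, -⟩ := h
  rw [E]
  conv_lhs => rw [e]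
  rw [Finset.insert_val_of_notMem (by simp [h1, h2, h3, n1, n2, n3, n4]),
    Finset.insert_val_of_notMem (by simp [h4, h5, n1, n2, n3, n4]),
    Finset.insert_val_of_notMem (by simp [h6, n1, n2, n3, n4]), Finset.insert_val_of_notMem (by simp)]
  simp

end SG

/-- at most one transition at a vertex is big -/
theorem bix : StBix := by
  intro V _ F y a b c d k n
  by_contra hh
  rw [not_or] at hh
  obtain ⟨h1, h2⟩ := hh
  simp only [SG.NB, not_forall, not_or] at h1 h2
  obtain ⟨f, f0, f1, f2, f3, f4, f5, ⟨p, hp, fp, p1, p2⟩, q, hq, fq, q0, q1, q2⟩ := h1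
  obtain ⟨g, g0, g1, g2, g3, g4, g5, ⟨r, hr, gr, r1, r2⟩, s, hs, gs, s0, s1, s2⟩ := h2
  obtain ⟨m0, m1, m2, m3, m4, n1, n2, n3, n4⟩ := n.mem k
  obtain ⟨d1, d2, d3, d4, d5, d6, -⟩ := id n
  -- corners
  have key : ∀ (u v : V → Bool) (a b c d : V), F.Nb y a b c d → u y = false → v y = false →
      u a = true → u b = true → u c = false → u d = false → v a = true → v c = true → v b = false →
      v d = false → (F.X u).card ≤ 6 → (F.X v).card ≤ 6 →
      (∀ w ∈ F.S, u w = true → v w = true → w = a) ∨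
      (∀ w ∈ F.S, u w = false → v w = false → w = y ∨ w = d) := by
    intro u v a b c d n u0 v0 u1 u2 u3 u4 v1 v2 v3 v4 hu hv
    by_contra hh
    simp only [not_or, not_forall] at hh
    obtain ⟨⟨p, hp, p1, p2, p3⟩, q, hq, q1, q2, q3, q4⟩ := hh
    obtain ⟨m0, m1, m2, m3, m4, n1, n2, n3, n4⟩ := n.mem k
    obtain ⟨d1, d2, d3, d4, d5, d6, -⟩ := id n
    have s1 := SG.submod (F := F) u v
    have t1 := n.card_X_tg k (fun w => !u w && !v w)
    simp only [u0, v0, u1, u2, u3, u4, v1, v2, v3, v4] at t1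
    have c1 := k.c6 (fun w => u w && v w)
      (two_le_nc.2 ⟨a, m1, p, hp, Ne.symm p3, by simp [*], by simp [*]⟩)
      (two_le_nc.2 ⟨b, m2, c, m3, d4, by simp [*], by simp [*]⟩)
    have c2 := k.c6 (tg (fun w => !u w && !v w) y)
      (two_le_nc.2 ⟨d, m4, q, hq, Ne.symm q4, by simp [tg_ne _ n4.symm, *], by simp [tg_ne _ q3, *]⟩)
      (two_le_nc.2 ⟨b, m2, c, m3, d4, by simp [tg_ne _ n2.symm, *], by simp [tg_ne _ n3.symm, *]⟩)
    simp at t1
    omega
  have k1 := key f g a b c d n f0 g0 f1 f2 f3 f4 g1 g2 g3 g4 f5 g5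
  have t1 := n.card_X_tg k g
  simp only [g0, g1, g2, g3, g4] at t1
  have k2 := key f (fun v => !tg g y v) b a d c n.s12.s34 f0 (by simp [g0]) f2 f1 f4 f3
    (by simp [tg_ne g n2.symm, g3]) (by simp [tg_ne g n4.symm, g4]) (by simp [tg_ne g n1.symm, g1])
    (by simp [tg_ne g n3.symm, g2]) f5 (by rw [SG.X_not]; simp at t1; omega)
  have hpy : p ≠ y := fun e => by simp [e, f0] at fp
  have hry : r ≠ y := fun e => by simp [e, g0] at gr
  rcases k1 with k1 | k1 <;> rcases k2 with k2 | k2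
  · cases e : g p
    · exact p2 (k2 p hp fp (by simp [tg_ne g hpy, e]))
    · exact p1 (k1 p hp fp e)
  · cases e : f r
    · exact (k2 r hr e (by simp [tg_ne g hry, gr])).elim hry r2
    · exact r1 (k1 r hr e gr)
  · cases e : f s
    · exact (k1 s hs e gs).elim s0 s2
    · exact s1 (k2 s hs e (by simp [tg_ne g s0, gs]))
  · cases e : g q
    · exact (k1 q hq fq e).elim q0 q2
    · exact (k2 q hq fq (by simp [tg_ne g q0, e])).elim q0 q1

/-- two transitions that are not big -/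
theorem SG.Ok.two_NB {F : SG V} (k : F.Ok) {y : V} (hy : y ∈ F.S) :
    ∃ a b c d, F.Nb y a b c d ∧ F.NB y a b c d ∧ F.NB y a c b d := by
  obtain ⟨a, b, c, d, n⟩ := k.nb y hy
  rcases bix V F y a b c d k n with h1 | h1
  · rcases bix V F y a c d b k n.s23.s34 with h2 | h2
    · exact ⟨a, b, c, d, n, h1, h2.s34⟩
    · exact ⟨a, b, d, c, n.s34, h1.s34, h2.s34⟩
  · rcases bix V F y a b d c k n.s34 with h2 | h2
    · exact ⟨a, b, c, d, n, h2.s34, h1⟩
    · exact ⟨a, c, d, b, n.s23.s34, h1.s34, h2.s34⟩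

/-- a light pair and its complement -/
theorem SG.Light.sw {F : SG V} (k : F.Ok) (hv : F.Hv) {y a b c d : V} (n : F.Nb y a b c d)
    (h : F.Light y a b) : ∃ f, (F.N f).card = 4 ∧ s(y, a) ∈ F.N f ∧ s(y, b) ∈ F.N f ∧
      s(y, c) ∉ F.N f ∧ s(y, d) ∉ F.N f ∧ (F.N (tg f y)).card = 4 := by
  obtain ⟨f, h1, h2, h3⟩ := h
  have t := n.card_N_tg k f
  have := hv f
  have := hv (tg f y)
  simp only [h2, h3, if_true] at t
  refine ⟨f, by omega, h2, h3, fun e => ?_, fun e => ?_, ?_⟩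
  · simp only [e, if_true] at t; omega
  · simp only [e, if_true] at t; omega
  · split_ifs at t <;> omega

end Pool.Agent.Lib.MP_d7353d_co.T
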