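import Pool.Agent.Lib.MP_d7353d_co.TClean

/-! Contraction of digons in signed 4-regular multigraphs. -/

namespace Pool.Agent.Lib.MP_d7353d_co.T

set_option linter.unusedSectionVars false
set_option linter.unusedSimpArgs false

variable {V : Type} [DecidableEq V]

theorem info_cut_cons (g : V → Bool) (u v : V) (s : Bool) (R : Multiset (Ed V)) :
    cut g ((s(u, v), s) ::ₘ R) = cut g R + if g u = g v then 0 else 1 := by
  rw [cut, Multiset.countP_cons]
  by_cases h : g u = g v
  · simp [cut, h]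
  · have : (g u ^^ g v) = true := by simpa using h
    simp [cut, h, this]

theorem info_neg_cons (g : V → Bool) (u v : V) (s : Bool) (R : Multiset (Ed V)) :
    neg g ((s(u, v), s) ::ₘ R) = neg g R + if (g u ^^ g v ^^ s) = true then 1 else 0 := by
  rw [neg, Multiset.countP_cons]; rfl

theorem info_deg_cons (w u v : V) (s : Bool) (R : Multiset (Ed V)) :
    deg w ((s(u, v), s) ::ₘ R) =
      deg w R + ((if u = w then 1 else 0) + (if v = w then 1 else 0)) := by
  rw [deg, Multiset.map_cons, Multiset.sum_cons, Nat.add_comm]; rfl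

theorem info_cut_congr {f g : V → Bool} {R : Multiset (Ed V)}
    (h : ∀ e ∈ R, ∀ v ∈ e.1, f v = g v) : cut f R = cut g R :=
  Multiset.countP_congr rfl fun e he => by rw [cr_congr (h e he)]

theorem info_neg_congr {f g : V → Bool} {R : Multiset (Ed V)}
    (h : ∀ e ∈ R, ∀ v ∈ e.1, f v = g v) : neg f R = neg g R :=
  Multiset.countP_congr rfl fun e he => by rw [cr_congr (h e he)]

/-- negative edges with a property -/
def ngp (p : Sym2 V → Bool) (f : V → Bool) (E : Multiset (Ed V)) : ℕ :=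
  E.countP fun e => ((cr f e.1 ^^ e.2) && p e.1) = true

theorem ngp_cons (p : Sym2 V → Bool) (g : V → Bool) (u v : V) (s : Bool) (R : Multiset (Ed V)) :
    ngp p g ((s(u, v), s) ::ₘ R) =
      ngp p g R + if ((g u ^^ g v ^^ s) && p s(u, v)) = true then 1 else 0 := by
  rw [ngp, Multiset.countP_cons]; rfl

theorem ngp_congr (p : Sym2 V → Bool) {f g : V → Bool} {R : Multiset (Ed V)}
    (h : ∀ e ∈ R, ∀ v ∈ e.1, f v = g v) : ngp p f R = ngp p g R :=
  Multiset.countP_congr rfl fun e he => by rw [cr_congr (h e he)]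

theorem ngp_of (p : Sym2 V → Bool) (f : V → Bool) {R : Multiset (Ed V)}
    (h : ∀ e ∈ R, p e.1 = true) : ngp p f R = neg f R :=
  Multiset.countP_congr rfl fun e he => by rw [h e he, Bool.and_true]

theorem info_cut_le_deg (w : V) (R : Multiset (Ed V)) :
    cut (fun v => decide (v = w)) R ≤ deg w R := by
  induction R using Multiset.induction_on with
  | empty => simp [cut]
  | cons e R ih =>
    obtain ⟨e, s⟩ := e
    induction e using Sym2.ind with
    | _ u v =>
      rw [info_cut_cons, info_deg_cons]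
      by_cases h1 : u = w <;> by_cases h2 : v = w <;> simp [h1, h2] <;> omega

theorem info_deg_zero {w : V} {R : Multiset (Ed V)} (h : deg w R = 0) : ∀ e ∈ R, w ∉ e.1 := by
  intro e he hw
  obtain ⟨R', rfl⟩ := Multiset.exists_cons_of_mem he
  obtain ⟨e, s⟩ := e
  obtain ⟨v, rfl⟩ := Sym2.mem_iff_exists.1 hw
  rw [info_deg_cons] at h
  simp at h

theorem info_one {w : V} {R : Multiset (Ed V)} (h : 1 ≤ cut (fun v => decide (v = w)) R) :
    ∃ (x : V × Bool) (R' : Multiset (Ed V)), x.1 ≠ w ∧ R = (s(w, x.1), x.2) ::ₘ R' := by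
  obtain ⟨e, he, hc⟩ := Multiset.countP_pos.1 h
  obtain ⟨R', rfl⟩ := Multiset.exists_cons_of_mem he
  obtain ⟨e, s⟩ := e
  induction e using Sym2.ind with
  | _ u v =>
    by_cases h1 : u = w
    · subst h1
      exact ⟨(v, s), R', fun h2 => by simp [show v = u from h2] at hc, rfl⟩
    · have h2 : v = w := by simpa [h1] using hc
      subst h2
      exact ⟨(u, s), R', h1, by rw [Sym2.eq_swap]⟩

theorem info_two {w : V} {R : Multiset (Ed V)} (h : 2 ≤ cut (fun v => decide (v = w)) R)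
    (hd : deg w R = 2) : ∃ (x y : V × Bool) (R' : Multiset (Ed V)), x.1 ≠ w ∧ y.1 ≠ w ∧
      (∀ e ∈ R', w ∉ e.1) ∧ R = (s(w, x.1), x.2) ::ₘ (s(w, y.1), y.2) ::ₘ R' := by
  obtain ⟨x, R1, hx, rfl⟩ := info_one (le_trans (by omega) h)
  rw [info_cut_cons] at h
  obtain ⟨y, R2, hy, rfl⟩ := info_one (w := w) (R := R1) (by split_ifs at h <;> omega)
  refine ⟨x, y, R2, hx, hy, info_deg_zero ?_, rfl⟩
  rw [info_deg_cons, info_deg_cons] at hd
  simp only [if_true, hx, hy, if_false] at hd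
  omega

theorem info_xr (y a b s t : Bool) : (a ^^ b ^^ (s ^^ t)) = ((y ^^ a ^^ s) ^^ (y ^^ b ^^ t)) := by
  revert y a b s t; decide

theorem info_reg {S : Finset V} {E E' : Multiset (Ed V)} {y : V} (h : Reg S E)
    (k : Smooth y E E') : Reg (S.erase y) E' := by
  obtain ⟨h1, h2, h3, h4, R, ⟨r, n1, n2, n3, n4, rfl⟩, rfl⟩ := k
  obtain ⟨i, d, ev⟩ := h
  refine ⟨fun e he v hv => ?_, fun w hw => ?_, fun f => ?_⟩
  · have m1 := i (s(y, h1.1), h1.2) (by simp) h1.1 (by simp)
    have m2 := i (s(y, h2.1), h2.2) (by simp) h2.1 (by simp)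
    have m3 := i (s(y, h3.1), h3.2) (by simp) h3.1 (by simp)
    have m4 := i (s(y, h4.1), h4.2) (by simp) h4.1 (by simp)
    rw [Finset.mem_erase]
    simp only [Multiset.mem_cons] at he
    rcases he with rfl | rfl | he
    · rcases Sym2.mem_iff.1 hv with rfl | rfl <;> exact ⟨‹_›, ‹_›⟩
    · rcases Sym2.mem_iff.1 hv with rfl | rfl <;> exact ⟨‹_›, ‹_›⟩
    · exact ⟨fun e' => r e he (e' ▸ hv), i e (by simp [he]) v hv⟩
  · obtain ⟨hy, hw⟩ := Finset.mem_erase.1 hw
    have := d w hw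
    simp only [info_deg_cons, mg, if_neg (Ne.symm hy)] at this ⊢
    omega
  · have := ev f
    simp only [info_neg_cons, mg, Nat.even_iff] at this ⊢
    revert this
    rw [info_xr (f y) (f h1.1), info_xr (f y) (f h3.1)]
    generalize (f y ^^ f h1.1 ^^ h1.2) = p1
    generalize (f y ^^ f h2.1 ^^ h2.2) = p2
    generalize (f y ^^ f h3.1 ^^ h3.2) = p3
    generalize (f y ^^ f h4.1 ^^ h4.2) = p4
    cases p1 <;> cases p2 <;> cases p3 <;> cases p4 <;> simp <;> omega

theorem info_star {S : Finset V} {E : Multiset (Ed V)} {c d : V} {s t : Bool} (h : Reg S E)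
    (C : C4 S E) (hcd : c ≠ d) (hT : (s(c, d), s) ::ₘ {(s(c, d), t)} ≤ E) :
    c ∈ S ∧ d ∈ S ∧ ∃ x y R, Star E c (d, s) (d, t) x y R := by
  obtain ⟨R, rfl⟩ := Multiset.le_iff_exists_add.1 hT
  simp only [Multiset.cons_add, Multiset.singleton_add] at h C ⊢
  have hc : c ∈ S := h.1 (s(c, d), s) (by simp) c (by simp)
  have hd : d ∈ S := h.1 (s(c, d), s) (by simp) d (by simp)
  have h1 := h.2.1 c hc
  have h2 := C (fun v => decide (v = c)) (one_le_nc.2 ⟨c, hc, by simp⟩)
    (one_le_nc.2 ⟨d, hd, by simp [hcd.symm]⟩)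
  simp only [info_deg_cons, info_cut_cons, if_true, hcd.symm, if_false] at h1 h2
  obtain ⟨x, y, R', hx, hy, hR, rfl⟩ := info_two (w := c) (R := R) (by split_ifs at h2 <;> omega)
    (by omega)
  exact ⟨hc, hd, x, y, R', hR, hcd.symm, hcd.symm, hx, hy, rfl⟩

/-- one colour class is the pair -/
def Ex (u v : V) (S : Finset V) (f : V → Bool) : Prop := ∃ β, ∀ w ∈ S, f w = β ↔ w = u ∨ w = v

theorem Ex.symm {u v : V} {S : Finset V} {f : V → Bool} (h : Ex u v S f) : Ex v u S f :=
  h.imp fun _ k w hw => (k w hw).trans or_comm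

/-- weakly prime with exceptions -/
def WP (S : Finset V) (E : Multiset (Ed V)) (P : (V → Bool) → Prop) : Prop :=
  C4 S E ∧ ∀ f, 2 ≤ nc S f true → 2 ≤ nc S f false → 6 ≤ cut f E ∨ P f

theorem WP.mono {S : Finset V} {E : Multiset (Ed V)} {P Q : (V → Bool) → Prop} (h : WP S E P)
    (k : ∀ f, P f → Q f) : WP S E Q :=
  ⟨h.1, fun f a b => (h.2 f a b).imp id (k f)⟩

theorem info_smooth {E R : Multiset (Ed V)} {c : V} {p q x y : V × Bool}
    (st : Star E c p q x y R) : Smooth c E (mg p x ::ₘ mg q y ::ₘ R) := by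
  obtain ⟨r, n1, n2, n3, n4, e⟩ := st
  exact ⟨p, x, q, y, R, ⟨r, n1, n3, n2, n4, by rw [e, Multiset.cons_swap (s(c, q.1), q.2)]⟩, rfl⟩

theorem info_s12 {E R : Multiset (Ed V)} {c : V} {p q x y : V × Bool}
    (st : Star E c p q x y R) : Star E c q p x y R := by
  obtain ⟨r, n1, n2, n3, n4, e⟩ := st
  exact ⟨r, n2, n1, n3, n4, by rw [e, Multiset.cons_swap]⟩

theorem info_contr {S : Finset V} {E R : Multiset (Ed V)} {a b c d : V} {s t : Bool}
    {x y : V × Bool} {A : Prop} (st : Star E c (d, s) (d, t) x y R)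
    (h : WP S E fun f => (A ∧ Ex a b S f) ∨ Ex c d S f) :
    WP (S.erase c) (mg (d, s) x ::ₘ mg (d, t) y ::ₘ R) fun f => A ∧ Ex a b (S.erase c) f := by
  obtain ⟨r, n1, -, n3, n4, rfl⟩ := st
  have n1' : d ≠ c := n1
  have key : ∀ g : V → Bool, cut g (mg (d, s) x ::ₘ mg (d, t) y ::ₘ R) =
      cut (fun v => if v = c then g d else g v) ((s(c, d), s) ::ₘ (s(c, d), t) ::ₘ
        (s(c, x.1), x.2) ::ₘ (s(c, y.1), y.2) ::ₘ R) := by
    intro g
    have e : cut (fun v => if v = c then g d else g v) R = cut g R :=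
      info_cut_congr fun e he v hv => if_neg fun k : v = c => r e he (k ▸ hv)
    simp only [mg, info_cut_cons, e, if_true, n1', n3, n4, if_false]
    omega
  have le : ∀ (g : V → Bool) β, nc (S.erase c) g β ≤
      nc S (fun v => if v = c then g d else g v) β := by
    intro g β
    refine le_trans (le_of_eq ?_) (SG.nc_erase_le S c _ β)
    unfold nc
    congr 1
    exact Finset.filter_congr fun v hv => by simp only [if_neg (Finset.mem_erase.1 hv).1]
  refine ⟨fun g h1 h2 => ?_, fun g h1 h2 => ?_⟩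
  · rw [key]
    exact h.1 _ (h1.trans (le g _)) (h2.trans (le g _))
  · rw [key]
    rcases h.2 _ (h1.trans (le g _)) (h2.trans (le g _)) with k | ⟨k, β, k'⟩ | ⟨β, k⟩
    · exact Or.inl k
    · refine Or.inr ⟨k, β, fun w hw => ?_⟩
      rw [← k' w (Finset.mem_of_mem_erase hw)]
      simp only [if_neg (Finset.mem_erase.1 hw).1]
    · exfalso
      have h3 : 2 ≤ nc (S.erase c) g β := by cases β <;> assumption
      obtain ⟨p, hp, q, hq, pq, gp, gq⟩ := two_le_nc.1 h3
      obtain ⟨p1, p2⟩ := Finset.mem_erase.1 hp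
      obtain ⟨q1, q2⟩ := Finset.mem_erase.1 hq
      have e1 := ((k p p2).1 (by simp only [if_neg p1, gp])).resolve_left p1
      have e2 := ((k q q2).1 (by simp only [if_neg q1, gq])).resolve_left q1
      exact pq (e1.trans e2.symm)

theorem info_lift {E R : Multiset (Ed V)} {c d : V} {s : Bool} {x y : V × Bool}
    (st : Star E c (d, s) (d, s) x y R) (p : Sym2 V → Bool) (hp : ∀ w, p s(c, w) = p s(d, w))
    (f : V → Bool) : ∃ f', ngp p f' E = ngp p f (mg (d, s) x ::ₘ mg (d, s) y ::ₘ R) := by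
  obtain ⟨r, n1, -, n3, n4, rfl⟩ := st
  have n1' : d ≠ c := n1
  refine ⟨fun v => if v = c then (f d ^^ s) else f v, ?_⟩
  have e : ngp p (fun v => if v = c then (f d ^^ s) else f v) R = ngp p f R :=
    ngp_congr p fun e he v hv => if_neg fun k : v = c => r e he (k ▸ hv)
  simp only [mg, ngp_cons, e, if_true, n1', n3, n4, if_false, hp]
  cases f d <;> cases s <;> cases f x.1 <;> cases f y.1 <;> cases x.2 <;> cases y.2 <;>
    simp

end Pool.Agent.Lib.MP_d7353d_co.T
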