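import Pool.Agent.Lib.MP_d7353d_co.TInfoA

/-! The odd digon. -/

namespace Pool.Agent.Lib.MP_d7353d_co.T

set_option linter.unusedSectionVars false
set_option linter.unusedSimpArgs false

variable {V : Type} [DecidableEq V]

theorem info_cut_neg (f g : V → Bool) (κ : Bool) (R : Multiset (Ed V)) :
    cut (fun v => f v ^^ g v ^^ κ) R ≤ neg f R + neg g R := by
  induction R using Multiset.induction_on with
  | empty => simp [cut]
  | cons e R ih =>
    obtain ⟨e, s⟩ := e
    induction e using Sym2.ind with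
    | _ u v =>
      simp only [info_cut_cons, info_neg_cons]
      generalize cut (fun v => f v ^^ g v ^^ κ) R = m at ih ⊢
      cases f u <;> cases f v <;> cases g u <;> cases g v <;> cases s <;> cases κ <;> simp <;> omega

theorem info_regions (g h : V → Bool) (R : Multiset (Ed V)) :
    cut (fun v => g v && !h v) R + cut (fun v => g v && h v) R + cut (fun v => !g v && !h v) R +
      cut (fun v => !g v && h v) R ≤ cut g R + cut h R + cut (fun v => g v ^^ h v) R := by
  induction R using Multiset.induction_on with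
  | empty => simp [cut]
  | cons e R ih =>
    obtain ⟨e, s⟩ := e
    induction e using Sym2.ind with
    | _ u v =>
      simp only [info_cut_cons]
      cases g u <;> cases g v <;> cases h u <;> cases h v <;> simp <;> omega

theorem info_pre {S : Finset V} {E R : Multiset (Ed V)} {c d : V} {s t : Bool} {x y : V × Bool}
    (st : Star E c (d, s) (d, t) x y R) (hr : Reg S E) (hc : c ∈ S) (h : WP S E (Ex c d S))
    (H : ∀ y ∈ S, ∀ E', Smooth y E E' → PrE (S.erase y) E' → ∃ f, neg f E' ≤ 3) :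
    ∃ f, neg f (mg (d, s) x ::ₘ mg (d, t) y ::ₘ R) ≤ 2 := by
  have w := info_contr (A := False) (a := c) (b := c) st (h.mono fun f k => Or.inr k)
  obtain ⟨f, hf⟩ := H c hc _ (info_smooth st)
    ⟨w.1, fun f h1 h2 => (w.2 f h1 h2).resolve_right fun k => k.1⟩
  have := Nat.even_iff.1 ((info_reg hr (info_smooth st)).2.2 f)
  exact ⟨f, by omega⟩

theorem info_odd {S : Finset V} {E : Multiset (Ed V)} {a b : V} {s : Bool} (hr : Reg S E)
    (h : WP S E (Ex a b S)) (hab : a ≠ b) (hT : (s(a, b), s) ::ₘ {(s(a, b), !s)} ≤ E)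
    (hS : 8 ≤ S.card)
    (H : ∀ y ∈ S, ∀ E', Smooth y E E' → PrE (S.erase y) E' → ∃ f, neg f E' ≤ 3) :
    ∃ f, ngp (fun e => decide (a ∉ e ∧ b ∉ e)) f E ≤ 1 := by
  obtain ⟨ha, hb, x1, x2, Ra, sa⟩ := info_star hr h.1 hab hT
  obtain ⟨ra, -, -, n1, n2, e⟩ := id sa
  dsimp only at e
  obtain ⟨w0, hw0, hw1⟩ : ∃ w ∈ S, w ∉ ({a, b} : Finset V) :=
    Finset.exists_mem_notMem_of_card_lt_card (lt_of_le_of_lt Finset.card_le_two (by omega))
  simp only [Finset.mem_insert, Finset.mem_singleton, not_or] at hw1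
  have d1 := hr.2.1 b hb
  have d2 := h.1 (fun v => decide (v = a ∨ v = b)) (one_le_nc.2 ⟨a, ha, by simp⟩)
    (one_le_nc.2 ⟨w0, hw0, by simp [hw1]⟩)
  have d3 : cut (fun v => decide (v = a ∨ v = b)) Ra = cut (fun v => decide (v = b)) Ra :=
    info_cut_congr fun e he v hv => by
      have : v ≠ a := fun k => ra e he (k ▸ hv)
      simp [this]
  have d4 := info_cut_le_deg b Ra
  rw [e] at d1 d2
  simp only [info_deg_cons, info_cut_cons, d3, hab, n1, n2, if_true, if_false, true_or, or_true,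
    false_or, decide_true] at d1 d2
  have m1 : x1.1 ≠ b := by
    intro k
    simp only [k, if_true, decide_true] at d1 d2
    split_ifs at d1 d2 <;> omega
  have m2 : x2.1 ≠ b := by
    intro k
    simp only [k, if_true, decide_true] at d1 d2
    split_ifs at d1 d2 <;> omega
  simp only [m1, m2, if_false, decide_false] at d1 d2
  obtain ⟨y1, y2, R, m3, m4, rb, e2⟩ := info_two (w := b) (R := Ra)
    (by split_ifs at d2 <;> omega) (by omega)
  have n3 : y1.1 ≠ a := fun k => ra (s(b, y1.1), y1.2) (by simp [e2]) (by simp [k])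
  have n4 : y2.1 ≠ a := fun k => ra (s(b, y2.1), y2.2) (by simp [e2]) (by simp [k])
  have ra' : ∀ e ∈ R, a ∉ e.1 := fun e he => ra e (by simp [e2, he])
  have sb : Star E b (a, s) (a, !s) y1 y2
      ((s(a, x1.1), x1.2) ::ₘ (s(a, x2.1), x2.2) ::ₘ R) := by
    refine ⟨fun e he => ?_, hab, hab, m3, m4, ?_⟩
    · simp only [Multiset.mem_cons] at he
      rcases he with rfl | rfl | he
      · simp [hab.symm, m1.symm]
      · simp [hab.symm, m2.symm]
      · exact rb e he
    · rw [e, e2, Sym2.eq_swap (a := b) (b := a)]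
      simp only [← Multiset.singleton_add]
      abel
  obtain ⟨f1, h1⟩ := info_pre sa hr ha h H
  obtain ⟨f2, h2⟩ := info_pre (info_s12 sa) hr ha h H
  obtain ⟨f3, h3⟩ := info_pre sb hr hb (h.mono fun f k => k.symm) H
  by_contra hc
  push Not at hc
  have hc' : ∀ f, 2 ≤ neg f R := by
    intro f
    have := hc f
    rw [e, e2] at this
    simp only [ngp_cons] at this
    rw [ngp_of _ _ fun e he => by simp [ra' e he, rb e he]] at this
    simp at this
    omega
  have c1 := hc' f1
  have c2 := hc' f2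
  have c3 := hc' f3
  rw [e2] at h1 h2
  simp only [mg, info_neg_cons] at h1 h2 h3
  have z : ∀ (p : Bool) (k : ℕ), (k + if p = true then 1 else 0) ≤ 2 → 2 ≤ k → p = false ∧ k ≤ 2 := by
    intro p k; cases p <;> simp <;> omega
  obtain ⟨p1, h1⟩ := z _ _ h1 (by omega)
  obtain ⟨p2, h1⟩ := z _ _ h1 (by omega)
  obtain ⟨p3, h1⟩ := z _ _ h1 (by omega)
  obtain ⟨p4, h1⟩ := z _ _ h1 (by omega)
  obtain ⟨q1, h2⟩ := z _ _ h2 (by omega)
  obtain ⟨q2, h2⟩ := z _ _ h2 (by omega)
  obtain ⟨q3, h2⟩ := z _ _ h2 (by omega)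
  obtain ⟨q4, h2⟩ := z _ _ h2 (by omega)
  obtain ⟨r1, h3⟩ := z _ _ h3 (by omega)
  obtain ⟨r2, h3⟩ := z _ _ h3 (by omega)
  obtain ⟨r3, h3⟩ := z _ _ h3 (by omega)
  obtain ⟨r4, h3⟩ := z _ _ h3 (by omega)
  set G : V → Bool := fun v => f1 v ^^ f2 v ^^ (f1 y1.1 ^^ f2 y1.1) with hG
  set K : V → Bool := fun v => f1 v ^^ f3 v ^^ (f1 y1.1 ^^ f3 y1.1) with hK
  have g1 : G x1.1 = true := by
    simp only [hG]; revert p1 p3 q1 q3
    generalize f1 b = q0
    generalize f2 b = q1
    generalize f1 x1.1 = q2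
    generalize f2 x1.1 = q3
    generalize f1 y1.1 = q4
    generalize f2 y1.1 = q5
    generalize s = q6
    generalize x1.2 = q7
    generalize y1.2 = q8
    revert q0 q1 q2 q3 q4 q5 q6 q7 q8
    decide
  have g2 : G x2.1 = true := by
    simp only [hG]; revert p2 p3 q2 q3
    generalize f1 b = q0
    generalize f2 b = q1
    generalize f1 x2.1 = q2
    generalize f2 x2.1 = q3
    generalize f1 y1.1 = q4
    generalize f2 y1.1 = q5
    generalize s = q6
    generalize x2.2 = q7
    generalize y1.2 = q8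
    revert q0 q1 q2 q3 q4 q5 q6 q7 q8
    decide
  have g3 : G y1.1 = false := by simp only [hG]; cases f1 y1.1 <;> cases f2 y1.1 <;> rfl
  have g4 : G y2.1 = false := by
    simp only [hG]; revert p3 p4 q3 q4
    generalize f1 b = q0
    generalize f2 b = q1
    generalize f1 y2.1 = q2
    generalize f2 y2.1 = q3
    generalize f1 y1.1 = q4
    generalize f2 y1.1 = q5
    generalize y2.2 = q6
    generalize y1.2 = q7
    revert q0 q1 q2 q3 q4 q5 q6 q7
    decide
  have k1 : K x1.1 = false := by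
    simp only [hK]; revert p1 p3 r1 r3
    generalize f1 b = q0
    generalize f3 a = q1
    generalize f1 x1.1 = q2
    generalize f3 x1.1 = q3
    generalize f1 y1.1 = q4
    generalize f3 y1.1 = q5
    generalize s = q6
    generalize x1.2 = q7
    generalize y1.2 = q8
    revert q0 q1 q2 q3 q4 q5 q6 q7 q8
    decide
  have k2 : K x2.1 = true := by
    simp only [hK]; revert p2 p3 r1 r4
    generalize f1 b = q0
    generalize f3 a = q1
    generalize f1 x2.1 = q2
    generalize f3 x2.1 = q3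
    generalize f1 y1.1 = q4
    generalize f3 y1.1 = q5
    generalize s = q6
    generalize x2.2 = q7
    generalize y1.2 = q8
    revert q0 q1 q2 q3 q4 q5 q6 q7 q8
    decide
  have k3 : K y1.1 = false := by simp only [hK]; cases f1 y1.1 <;> cases f3 y1.1 <;> rfl
  have k4 : K y2.1 = true := by
    simp only [hK]; revert p3 p4 r1 r2
    generalize f1 b = q0
    generalize f3 a = q1
    generalize f1 y2.1 = q2
    generalize f3 y2.1 = q3
    generalize f1 y1.1 = q4
    generalize f3 y1.1 = q5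
    generalize s = q6
    generalize y2.2 = q7
    generalize y1.2 = q8
    revert q0 q1 q2 q3 q4 q5 q6 q7 q8
    decide
  have t1 : cut G R ≤ neg f1 R + neg f2 R := info_cut_neg _ _ _ _
  have t2 : cut K R ≤ neg f1 R + neg f3 R := info_cut_neg _ _ _ _
  have t3 : cut (fun v => G v ^^ K v) R ≤ neg f2 R + neg f3 R := by
    refine le_trans (le_of_eq ?_) (info_cut_neg f2 f3 (f2 y1.1 ^^ f3 y1.1) R)
    congr 1
    funext v
    simp only [hG, hK]
    generalize f1 v = q0
    generalize f2 v = q1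
    generalize f3 v = q2
    generalize f1 y1.1 = q3
    generalize f2 y1.1 = q4
    generalize f3 y1.1 = q5
    revert q0 q1 q2 q3 q4 q5
    decide
  have t4 := info_regions G K R
  have i1 : x1.1 ∈ S := hr.1 (s(a, x1.1), x1.2) (by simp [e]) _ (by simp)
  have i2 : x2.1 ∈ S := hr.1 (s(a, x2.1), x2.2) (by simp [e]) _ (by simp)
  have i3 : y1.1 ∈ S := hr.1 (s(b, y1.1), y1.2) (by simp [e, e2]) _ (by simp)
  have i4 : y2.1 ∈ S := hr.1 (s(b, y2.1), y2.2) (by simp [e, e2]) _ (by simp)
  have B : ∀ (u : V → Bool) (p q : V), p ∈ S → q ∈ S → p ≠ a → p ≠ b → q ≠ a → q ≠ b →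
      u p = true → u q = false →
      (if u x1.1 = true then 1 else 0) + (if u x2.1 = true then 1 else 0) +
        (if u y1.1 = true then 1 else 0) + (if u y2.1 = true then 1 else 0) = 1 →
      3 ≤ cut u R ∧ ∀ w ∈ S, w ≠ a → w ≠ b → w ≠ p → u w = true → 5 ≤ cut u R := by
    intro u p q hp hq pa pb qa qb up uq one
    set U : V → Bool := fun v => if v = a ∨ v = b then false else u v with hU
    have Ua : U a = false := by simp [hU]
    have Ub : U b = false := by simp [hU]
    have Uo : ∀ v, v ≠ a → v ≠ b → U v = u v := fun v h1 h2 => by simp [hU, h1, h2]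
    have eq : cut U E = cut u R + 1 := by
      have e3 : cut U R = cut u R := info_cut_congr fun e he v hv =>
        Uo v (fun k => ra' e he (k ▸ hv)) fun k => rb e he (k ▸ hv)
      rw [e, e2]
      simp only [info_cut_cons, e3, Ua, Ub, Uo _ n1 m1, Uo _ n2 m2, Uo _ n3 m3, Uo _ n4 m4]
      revert one
      cases u x1.1 <;> cases u x2.1 <;> cases u y1.1 <;> cases u y2.1 <;> simp
    have c4 := h.1 U (one_le_nc.2 ⟨p, hp, (Uo p pa pb).trans up⟩) (one_le_nc.2 ⟨a, ha, Ua⟩)
    refine ⟨by omega, fun w hw wa wb wp uw => ?_⟩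
    rcases h.2 U (two_le_nc.2 ⟨p, hp, w, hw, wp.symm, (Uo p pa pb).trans up, (Uo w wa wb).trans uw⟩)
      (two_le_nc.2 ⟨a, ha, b, hb, hab, Ua, Ub⟩) with k | ⟨β, k⟩
    · omega
    · have e4 : β = false := ((k a ha).2 (Or.inl rfl)).symm.trans Ua
      have := (k q hq).1 (by rw [e4, Uo q qa qb, uq])
      tauto
  obtain ⟨b1, b1'⟩ := B (fun v => G v && !K v) x1.1 x2.1 i1 i2 n1 m1 n2 m2 (by simp [g1, k1])
    (by simp [g2, k2]) (by simp [g1, g2, g3, g4, k1, k2, k3, k4])
  obtain ⟨b2, b2'⟩ := B (fun v => G v && K v) x2.1 x1.1 i2 i1 n2 m2 n1 m1 (by simp [g2, k2])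
    (by simp [g1, k1]) (by simp [g1, g2, g3, g4, k1, k2, k3, k4])
  obtain ⟨b3, b3'⟩ := B (fun v => !G v && !K v) y1.1 x1.1 i3 i1 n3 m3 n1 m1 (by simp [g3, k3])
    (by simp [g1, k1]) (by simp [g1, g2, g3, g4, k1, k2, k3, k4])
  obtain ⟨b4, b4'⟩ := B (fun v => !G v && K v) y2.1 x1.1 i4 i1 n4 m4 n1 m1 (by simp [g4, k4])
    (by simp [g1, k1]) (by simp [g1, g2, g3, g4, k1, k2, k3, k4])
  obtain ⟨w, hw, hw2⟩ : ∃ w ∈ S, w ∉ ({a, b, x1.1, x2.1, y1.1, y2.1} : Finset V) :=
    Finset.exists_mem_notMem_of_card_lt_card (lt_of_le_of_lt Finset.card_le_six (by omega))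
  simp only [Finset.mem_insert, Finset.mem_singleton, not_or] at hw2
  obtain ⟨w1, w2, w3, w4, w5, w6⟩ := hw2
  cases gw : G w <;> cases kw : K w
  · have := b3' w hw w1 w2 w5 (by simp [gw, kw]); omega
  · have := b4' w hw w1 w2 w6 (by simp [gw, kw]); omega
  · have := b1' w hw w1 w2 w3 (by simp [gw, kw]); omega
  · have := b2' w hw w1 w2 w4 (by simp [gw, kw]); omega

end Pool.Agent.Lib.MP_d7353d_co.T
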