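import Pool.Agent.Lib.MP_d7353d_co.TS

/-! Moves on words lift to a word with one more letter. -/

namespace Pool.Agent.Lib.MP_d7353d_co.T

theorem lift : StLift := by
  intro V _ v M W h
  induction h with
  | refl => exact ⟨M, .refl, rfl⟩
  | rot A B _ ih =>
    obtain ⟨M', h1, h2⟩ := ih
    obtain ⟨P, Q, rfl, e1, e2⟩ := List.filter_eq_append_iff.1 h2
    exact ⟨Q ++ P, .rot P Q h1, by rw [List.filter_append, e1, e2]⟩
  | rev A _ ih =>
    obtain ⟨M', h1, h2⟩ := ih
    exact ⟨M'.reverse, .rev M' h1, by rw [List.filter_reverse, h2]⟩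
  | lcs y A B hA hB _ ih =>
    obtain ⟨M', h1, h2⟩ := ih
    obtain ⟨P, Q, rfl, e1, e2⟩ := List.filter_eq_append_iff.1 h2
    obtain ⟨P1, P2, rfl, a1, a2, a3⟩ := List.filter_eq_cons_iff.1 e1
    obtain ⟨Q1, Q2, rfl, b1, -, b3⟩ := List.filter_eq_cons_iff.1 e2
    have n1 : y ∉ P2 ++ Q1 := by
      rw [List.mem_append, not_or]
      exact ⟨fun k => hA (a3 ▸ List.mem_filter.2 ⟨k, a2⟩), fun k => b1 y k a2⟩
    have n2 : y ∉ Q2 ++ P1 := by
      rw [List.mem_append, not_or]
      exact ⟨fun k => hB (b3 ▸ List.mem_filter.2 ⟨k, a2⟩), fun k => a1 y k a2⟩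
    have h3 : Eqv M (y :: (P2 ++ Q1) ++ y :: (Q2 ++ P1)) := by
      have := Eqv.rot P1 (y :: P2 ++ (Q1 ++ y :: Q2)) (by simpa using h1)
      simpa using this
    refine ⟨_, .lcs y _ _ n1 n2 h3, ?_⟩
    have f1 : P1.filter (fun u => decide (u ≠ v)) = [] := List.filter_eq_nil_iff.2 a1
    have f2 : Q1.filter (fun u => decide (u ≠ v)) = [] := List.filter_eq_nil_iff.2 b1
    have c : ∀ l, (y :: l).filter (fun u => decide (u ≠ v)) =
        y :: l.filter (fun u => decide (u ≠ v)) := fun l => List.filter_cons_of_pos a2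
    rw [List.filter_append, c, c, List.filter_reverse, List.filter_append, List.filter_append, f1, f2, a3, b3,
      List.append_nil, List.append_nil]

end Pool.Agent.Lib.MP_d7353d_co.T
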