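import Pool.Agent.Lib.MP_d7353d_co.TS2

/-! Assembly of the obstruction theorem from its pieces. -/

namespace Pool.Agent.Lib.MP_d7353d_co.T

variable {V : Type} [DecidableEq V]

theorem small (tri : StTri) (bow : StBow) (unc : StUnc) {F : SG V} (k : F.Ok) (hv : F.Hv)
    (hi : F.Info) : F.S.card ≤ 9 := by
  by_contra hn
  have no : ¬ ∃ z a b c d, F.Nb z a b c d ∧ F.OddT z a b ∧ F.Tri z a b c d :=
    fun ⟨z, a, b, c, d, h1, h2, h3⟩ => hn (tri V F z a b c d k hv hi h1 h2 h3)
  refine no (unc V F k hv (Finset.card_pos.1 (by omega)) fun y a b c d n nb => ?_)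
  by_cases h1 : F.OddT y a b <;> by_cases h2 : F.OddT y c d
  · exact absurd (bow V F y a b c d k hv hi (by omega) n nb h1 h2) no
  · exact absurd ⟨_, _, _, _, _, n, h1, (hi y a b c d n nb h2).2 h1⟩ no
  · exact absurd ⟨_, _, _, _, _, n.sw, h2, (hi y c d a b n.sw (nb.sw k n) h1).2 h2⟩ no
  · exact (hi y a b c d n nb h2).1 h1

theorem minor_real (smooth : StSmooth) {G : Gr V} {x : V} {S S' : Finset V} {L : List (V × Bool)}
    {E' : Multiset (Ed V)} (hG : Sy G) (hx : x ∉ S) (h : SR G x S L) (m : Minor S (cyc L) S' E') :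
    S' ⊆ S ∧ ∃ G' L', LE S G G' ∧ SR G' x S' L' ∧ cyc L' = E' := by
  induction m with
  | refl => exact ⟨subset_rfl, G, L, .refl, h, rfl⟩
  | @step S1 E1 E2 y _ hy c4 sm ih =>
    obtain ⟨hs, G1, L1, l1, r1, rfl⟩ := ih
    obtain ⟨G2, L2, -, l2, r2, e2, -⟩ :=
      smooth V G1 x y S1 L1 E2 (l1.sy hG) (fun e => hx (hs e)) r1 hy c4 sm
    exact ⟨(S1.erase_subset y).trans hs, G2, L2, l1.trans (l2.mono hs), r2, e2⟩

theorem descent (reg : StReg) (smooth : StSmooth) (simple : StSimple) (info : StInfo) (tri : StTri)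
    (bow : StBow) (unc : StUnc) (fin : StFin) (x : V) (n : ℕ) :
    ∀ (S : Finset V) (G : Gr V) (L : List (V × Bool)), S.card = n → Sy G → x ∉ S → SR G x S L →
      5 ≤ S.card → PrE S (cyc L) → Heavy (cyc L) → HasO G (insert x S) := by
  induction n using Nat.strong_induction_on with
  | _ n ih =>
    intro S G L hn hG hx h h5 hp hh
    by_cases h9 : S.card ≤ 9
    · exact (fin V G x S L hG hx h h9).2 h5 hp hh
    have hr := reg V S L h.1.1 h.2.2
    obtain ⟨F, e1, e2, k⟩ := simple V S (cyc L) hr hp (by omega)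
    have hv : F.Hv := fun f => by rw [← SG.neg_E, e2]; exact hh f
    by_contra hc
    refine h9 (e1 ▸ small tri bow unc k hv (info V F k (by rw [e1, e2]; exact hr) hv (by rw [e1]; omega)
      fun S' E' m lt h5' hp' => ?_))
    rw [e1, e2] at m
    rw [e1] at lt
    obtain ⟨hs, G', L', l, r, rfl⟩ := minor_real smooth hG hx h m
    by_contra hq
    refine hc (HasO.up (l.mono (Finset.subset_insert x S)) (Finset.insert_subset_insert x hs)
      (ih S'.card (by omega) S' G' L' rfl (l.sy hG) (fun e => hx (hs e)) r h5' hp' fun f => ?_))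
    by_contra hf
    exact hq ⟨f, by omega⟩

theorem obs (comp : StComp) (chain : StChain) (cutp : StCut) (sign : StSign) (draw : StDraw)
    (reg : StReg) (smooth : StSmooth) (simple : StSimple) (info : StInfo) (tri : StTri)
    (bow : StBow) (unc : StUnc) (fin : StFin) : StObs := by
  intro V _ G S
  induction hn : S.card using Nat.strong_induction_on generalizing G S with
  | _ n ih =>
    intro hG hc
    by_cases hm : ∃ H S', LE S G H ∧ S' ⊂ S ∧ ¬ Circ H S'
    · obtain ⟨H, S', l, s, c⟩ := hm
      exact HasO.up l s.1 (ih S'.card (hn ▸ Finset.card_lt_card s) H S' rfl (l.sy hG) c)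
    have all : ∀ H S', LE S G H → S' ⊂ S → Circ H S' := fun H S' l s => by
      by_contra c; exact hm ⟨H, S', l, s, c⟩
    by_cases h5 : S.card ≤ 5
    · exfalso
      rcases S.eq_empty_or_nonempty with rfl | ⟨x, hx⟩
      · exact hc ⟨[], fun v => by simp, fun u hu => by simp at hu⟩
      obtain ⟨W, hW⟩ := all G _ .refl (Finset.erase_ssubset hx)
      obtain ⟨L, -, r⟩ := sign V G x _ W hW
      have e := Finset.card_erase_of_mem hx
      have := (fin V G x _ L hG (Finset.notMem_erase x S) r (by omega)).1 (by omega)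
      exact hc (by rwa [Finset.insert_erase hx] at this)
    have hp : Prime G S := fun f s => hc (comp V G S f hG s fun S' s' => all G S' .refl s')
    obtain ⟨H, x, hx, l, p⟩ := chain V G S hG hp (by omega)
    obtain ⟨W, hW⟩ := all H _ l (Finset.erase_ssubset hx)
    obtain ⟨L, -, r⟩ := sign V H x _ W hW
    have e := Finset.card_erase_of_mem hx
    have hH := l.sy hG
    have := descent reg smooth simple info tri bow unc fin x _ _ H L rfl hH (Finset.notMem_erase x S) r
      (by omega) (cutp V H _ L hH r.1 p (by omega)) fun f => by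
        by_contra hf
        have := draw V H x _ L f hH (Finset.notMem_erase x S) r (by omega)
        rw [Finset.insert_erase hx] at this
        exact hc (this.le hH (l.symm hG))
    rw [Finset.insert_erase hx] at this
    exact HasO.up l subset_rfl this

end Pool.Agent.Lib.MP_d7353d_co.T
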