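import Pool.Agent.Lib.MP_d7353d_co.TB

/-! Statements of the pieces of the obstruction theorem. -/

namespace Pool.Agent.Lib.MP_d7353d_co.T

/-- B1: link with the geometric definition -/
def StLink : Prop := ∀ (V : Type) [Fintype V] [DecidableEq V] (G : SimpleGraph V) [DecidableRel G.Adj],
  IsCircle G ↔ Circ (fun u v => decide (G.Adj u v)) Finset.univ

/-- B3: split composition -/
def StComp : Prop := ∀ (V : Type) [DecidableEq V] (G : Gr V) (S : Finset V) (f : V → Bool),
  Sy G → Split G S f → (∀ S', S' ⊂ S → Circ G S') → Circ G S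

/-- A: chain theorem for prime graphs -/
def StChain : Prop := ∀ (V : Type) [DecidableEq V] (G : Gr V) (S : Finset V),
  Sy G → Prime G S → 6 ≤ S.card → ∃ H, ∃ x ∈ S, LE S G H ∧ Prime H (S.erase x)

/-- C1: a small cut of the word gives a split -/
def StCut : Prop := ∀ (V : Type) [DecidableEq V] (G : Gr V) (S : Finset V) (L : List (V × Bool)),
  Sy G → Rep G S (L.map Prod.fst) → Prime G S → 4 ≤ S.card → PrE S (cyc L)

/-- C2: signs exist -/
def StSign : Prop := ∀ (V : Type) [DecidableEq V] (G : Gr V) (x : V) (S : Finset V) (W : List V),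
  Rep G S W → ∃ L, L.map Prod.fst = W ∧ SR G x S L

/-- C3: at most two negative edges after resigning: the chord `x` can be drawn -/
def StDraw : Prop := ∀ (V : Type) [DecidableEq V] (G : Gr V) (x : V) (S : Finset V)
  (L : List (V × Bool)) (f : V → Bool),
  Sy G → x ∉ S → SR G x S L → neg f (cyc L) ≤ 3 → Circ G (insert x S)

/-- C4: if the chord `x` can be drawn around the segment `B`, the signature is small -/
def StSeg : Prop := ∀ (V : Type) [DecidableEq V] (G : Gr V) (x : V) (S : Finset V)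
  (L : List (V × Bool)) (A B C : List V),
  SR G x S L → L.map Prod.fst = A ++ B ++ C → A ≠ [] → (∀ u ∈ S, G u x = par B u) →
    ∃ f, neg f (cyc L) ≤ 2

/-- C5 -/
def StReg : Prop := ∀ (V : Type) [DecidableEq V] (S : Finset V) (L : List (V × Bool)),
  Dbl S (L.map Prod.fst) → tot L = false → Reg S (cyc L)

/-- C6: every smoothing is realised by a vertex-minor -/
def StSmooth : Prop := ∀ (V : Type) [DecidableEq V] (G : Gr V) (x y : V) (S : Finset V)
  (L : List (V × Bool)) (E' : Multiset (Ed V)),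
  Sy G → x ∉ S → SR G x S L → y ∈ S → C4 S (cyc L) → Smooth y (cyc L) E' →
    ∃ G' L' W', LE S G G' ∧ SR G' x (S.erase y) L' ∧ cyc L' = E' ∧ Eqv (L.map Prod.fst) W' ∧
      W'.filter (fun v => decide (v ≠ y)) = L'.map Prod.fst

/-- C7: signs follow the moves on words -/
def StMove : Prop := ∀ (V : Type) [DecidableEq V] (G : Gr V) (x : V) (S : Finset V)
  (L : List (V × Bool)) (W' : List V),
  Sy G → x ∉ S → SR G x S L → Eqv (L.map Prod.fst) W' →
    ∃ G' L', LE S G G' ∧ SR G' x S L' ∧ L'.map Prod.fst = W' ∧ cyc L' = cyc L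

/-- C8: moves lift to a word with one more letter -/
def StLift : Prop := ∀ (V : Type) [DecidableEq V] (v : V) (M W : List V),
  Eqv (M.filter fun u => decide (u ≠ v)) W →
    ∃ M', Eqv M M' ∧ M'.filter (fun u => decide (u ≠ v)) = W

/-- D0: a prime 4-regular multigraph is simple -/
def StSimple : Prop := ∀ (V : Type) [DecidableEq V] (S : Finset V) (E : Multiset (Ed V)),
  Reg S E → PrE S E → 4 ≤ S.card → ∃ F : SG V, F.S = S ∧ F.E = E ∧ F.Ok

/-- at most one transition at a vertex is big -/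
def StBix : Prop := ∀ (V : Type) [DecidableEq V] (F : SG V) (y a b c d : V),
  F.Ok → F.Nb y a b c d → F.NB y a b c d ∨ F.NB y a c b d

/-- chain theorem for prime 4-regular graphs -/
def StChainF : Prop := ∀ (V : Type) [DecidableEq V] (F : SG V), F.Ok → 6 ≤ F.S.card →
  ∃ y ∈ F.S, ∃ E', Smooth y F.E E' ∧ PrE (F.S.erase y) E'

/-- D1: information from the prime minors -/
def StInfo : Prop := ∀ (V : Type) [DecidableEq V] (F : SG V), F.Ok → Reg F.S F.E → F.Hv →
  10 ≤ F.S.card →
  (∀ S' E', Minor F.S F.E S' E' → S'.card < F.S.card → 5 ≤ S'.card → PrE S' E' →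
    ∃ f, neg f E' ≤ 3) → F.Info

/-- D2a: an odd triangle with all three edges negative and one more negative edge -/
def StGam : Prop := ∀ (V : Type) [DecidableEq V] (F : SG V) (z a b p q : V) (f : V → Bool),
  F.Ok → F.Hv → F.Info → p ∉ ({z, a, b} : Finset V) → q ∉ ({z, a, b} : Finset V) →
  F.N f = {s(z, a), s(z, b), s(a, b), s(p, q)} → F.S.card ≤ 9

/-- D2b: triangle `z a b`, negative edges `ab`, `a a1`, `b b1`, `p q` -/
def StBet : Prop := ∀ (V : Type) [DecidableEq V] (F : SG V) (z a b a1 a2 b1 b2 p q : V)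
  (f : V → Bool), F.Ok → F.Hv → F.Info → F.Nb a z b a1 a2 → F.Nb b z a b1 b2 →
  p ≠ a → p ≠ b → q ≠ a → q ≠ b →
  F.N f = {s(a, b), s(a, a1), s(b, b1), s(p, q)} → F.S.card ≤ 9

/-- D2c: normal forms -/
def StTri : Prop := ∀ (V : Type) [DecidableEq V] (F : SG V) (z a b c d : V),
  F.Ok → F.Hv → F.Info → F.Nb z a b c d → F.OddT z a b → F.Tri z a b c d → F.S.card ≤ 9

/-- D2d: two odd triangles at a transition that is not big -/
def StBow : Prop := ∀ (V : Type) [DecidableEq V] (F : SG V) (z a b c d : V),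
  F.Ok → F.Hv → F.Info → 10 ≤ F.S.card → F.Nb z a b c d → F.NB z a b c d → F.OddT z a b →
  F.OddT z c d → ∃ z' a' b' c' d', F.Nb z' a' b' c' d' ∧ F.OddT z' a' b' ∧ F.Tri z' a' b' c' d'

/-- D2e: uncrossing -/
def StUnc : Prop := ∀ (V : Type) [DecidableEq V] (F : SG V), F.Ok → F.Hv → F.S.Nonempty →
  (∀ y a b c d, F.Nb y a b c d → F.NB y a b c d → F.Light y a b) →
  ∃ z a b c d, F.Nb z a b c d ∧ F.OddT z a b ∧ F.Tri z a b c d

/-- E: at most nine letters -/
def StFin : Prop := ∀ (V : Type) [DecidableEq V] (G : Gr V) (x : V) (S : Finset V)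
  (L : List (V × Bool)), Sy G → x ∉ S → SR G x S L → S.card ≤ 9 →
  (S.card ≤ 4 → Circ G (insert x S)) ∧
  (5 ≤ S.card → PrE S (cyc L) → Heavy (cyc L) → HasO G (insert x S))

/-- the obstruction theorem -/
def StObs : Prop := ∀ (V : Type) [DecidableEq V] (G : Gr V) (S : Finset V),
  Sy G → ¬ Circ G S → HasO G S

end Pool.Agent.Lib.MP_d7353d_co.T
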