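import Pool.Agent.Lib.MP_d7353d_co.TG

/-! More stub statements. -/

namespace Pool.Agent.Lib.MP_d7353d_co.T

/-- a transition that is not big and has no triangle gives a prime graph -/
def StClean : Prop := ∀ (V : Type) [DecidableEq V] (F : SG V) (y a b c d : V), F.Ok →
  F.Nb y a b c d → F.NB y a b c d → s(a, b) ∉ F.D → s(c, d) ∉ F.D →
  ∃ E', Smooth y F.E E' ∧ PrE (F.S.erase y) E'

/-- Bixby type lemma for prime graphs -/
def StBixG : Prop := ∀ (V : Type) [DecidableEq V] (G : Gr V) (S : Finset V) (v : V) (f g : V → Bool),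
  Sy G → Prime G S → v ∈ S → Split G (S.erase v) f → Split (lc G v) (S.erase v) g →
  (∃ b, nc (S.erase v) f b = 2) ∨ ∃ b, nc (S.erase v) g b = 2

/-- two adjacent vertices of degree two -/
def StThread : Prop := ∀ (V : Type) [DecidableEq V] (G : Gr V) (S : Finset V) (u v w1 w2 : V),
  Sy G → Prime G S → 6 ≤ S.card → u ∈ S → v ∈ S → w1 ∈ S → w2 ∈ S →
  (∀ t ∈ S, G v t = true ↔ t = w1 ∨ t = u) → (∀ t ∈ S, G u t = true ↔ t = v ∨ t = w2) →
  ∃ H, ∃ x ∈ S, LE S G H ∧ Prime H (S.erase x)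

end Pool.Agent.Lib.MP_d7353d_co.T
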