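import Pool.Agent.Lib.MP_d7353d_co.Defs

/-! The list of all minimal non-circle graphs. -/

namespace Pool.Agent.Lib.MP_d7353d_co

/-- A graph on the vertices `0, ..., n-1` together with a set of marked pairs of vertices. -/
structure MG where
  n : ℕ
  adj : ℕ → ℕ → Bool
  mark : ℕ → ℕ → Bool

/-- The underlying simple graph. -/
def MG.graph (B : MG) : SimpleGraph (Fin B.n) :=
  SimpleGraph.fromRel fun i j => B.adj i j = true

/-- `{i, j} = {a, b}` -/
def pr (a b i j : ℕ) : Bool := decide ((i = a ∧ j = b) ∨ (i = b ∧ j = a))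

/-- Insertion at the pair `ab`: toggle the adjacency of `a` and `b`, add a new vertex `n` joined exactly
to `a` and `b`; the pairs `na`, `nb` are marked instead of `ab`. -/
def MG.ins (B : MG) (a b : ℕ) : MG where
  n := B.n + 1
  adj i j := if i = B.n then decide (j = a ∨ j = b) else if j = B.n then decide (i = a ∨ i = b)
    else (B.adj i j ^^ pr a b i j)
  mark i j := if i = B.n then decide (j = a ∨ j = b) else if j = B.n then decide (i = a ∨ i = b)
    else (B.mark i j && !pr a b i j)

/-- The set of pairs coded by `c`: the pair `i < j` has the binary digit number `j (j-1) / 2 + i`. -/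
def code (c i j : ℕ) : Bool := decide (i ≠ j) && c.testBit (max i j * (max i j - 1) / 2 + min i j)

/-- (number of vertices, code of the edges, code of the marked pairs) -/
def ofCode (x : ℕ × ℕ × ℕ) : MG := ⟨x.1, code x.2.1, code x.2.2⟩

def tab0 : List (ℕ × ℕ × ℕ) :=
  [(6, 7916, 1184), (6, 7916, 44), (6, 7916, 164),
   (6, 31980, 3072), (6, 31980, 8449), (7, 2054794, 130),
   (7, 1534284, 65544), (7, 1534284, 268), (7, 1969520, 368),
   (7, 2053748, 84), (7, 1829644, 4232), (7, 1829644, 65544),
   (7, 1693488, 5136), (7, 1693488, 1552), (7, 1693488, 4176),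
   (7, 374656, 1408), (7, 1423232, 392), (7, 1423232, 1408),
   (7, 1947520, 1432), (7, 1963904, 392), (7, 1963904, 1408),
   (7, 255648, 672), (7, 255648, 1184), (7, 1304224, 9248),
   (7, 1304224, 1184), (7, 1304224, 1296), (7, 1828512, 1184),
   (7, 1828512, 4232), (7, 2090656, 1184), (7, 2090656, 4232),
   (7, 1435556, 1312), (7, 1435556, 66592), (7, 1435556, 65576),
   (7, 2090660, 132128), (7, 2090660, 168), (7, 2090660, 1296),
   (7, 2090660, 65672), (7, 1564320, 512), (7, 1564320, 2048),
   (7, 1023648, 6656), (7, 1963916, 133120), (7, 1963916, 1152),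
   (7, 1693112, 0), (7, 1830668, 139264), (7, 1830668, 12),
   (7, 511756, 12), (7, 1940848, 80), (7, 1940848, 32800),
   (7, 1940848, 288)]

def tab1 : List (ℕ × ℕ × ℕ) :=
  [(7, 1940848, 98304), (7, 1830256, 1056), (7, 1830256, 3072),
   (7, 1830768, 2304), (7, 511344, 336), (7, 511344, 2320),
   (7, 1559920, 336), (7, 1043824, 80), (7, 2092400, 3072),
   (7, 2092400, 80), (7, 2092912, 80), (7, 1830772, 266368),
   (8, 98390092, 12), (8, 265637964, 12), (8, 266135714, 2050),
   (8, 265602724, 1184), (8, 265155744, 69632), (8, 63169696, 0),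
   (8, 265544864, 0), (8, 243159564, 12), (8, 117123848, 2304),
   (8, 251341576, 2304), (8, 230052048, 4112), (8, 264190288, 65600),
   (8, 217469520, 8388608), (8, 217469520, 512), (8, 217538784, 128),
   (8, 217533024, 512), (8, 179703456, 640), (8, 179703456, 131200),
   (8, 113050784, 1184), (8, 247268512, 17568), (8, 259925764, 1284),
   (8, 125699232, 1184), (8, 259916960, 1184), (8, 16516256, 1184),
   (8, 150733984, 1184), (8, 217842848, 1184), (8, 251397280, 1184),
   (8, 268174496, 1184), (8, 167319200, 4608), (8, 166421664, 16384),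
   (8, 268395680, 160), (8, 188013220, 32928), (8, 263844112, 272),
   (8, 263446688, 128), (8, 119905024, 264448), (8, 119778048, 2816),
   (8, 129354528, 2080)]

def tab2 : List (ℕ × ℕ × ℕ) :=
  [(8, 242151696, 272), (8, 250409232, 0), (8, 259977376, 131232),
   (8, 150003872, 32928), (8, 217899168, 160), (8, 216854688, 0),
   (8, 192191232, 256), (8, 41069312, 1048576), (8, 175287040, 512),
   (8, 242395904, 769), (8, 175303424, 33284), (8, 242920192, 8456960),
   (8, 242936576, 35584), (8, 158526208, 49408), (8, 259173120, 9472),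
   (8, 108702496, 133376), (8, 108702496, 141312), (8, 259443488, 2080),
   (8, 216582688, 34848), (8, 251447840, 2592), (8, 83667712, 10496),
   (8, 249867008, 35072), (8, 117222144, 2304), (8, 167291648, 2304),
   (8, 234146560, 82176), (8, 234146560, 33024), (8, 267184384, 34816),
   (8, 16042784, 8388608), (8, 250923808, 8651776), (8, 267701024, 0),
   (8, 251578912, 8391168), (8, 251578912, 8390144), (8, 66235136, 1048576),
   (8, 66235136, 33554432), (8, 65460736, 278528), (8, 258784004, 4194568),
   (8, 259979424, 0), (8, 201128096, 160), (8, 117368992, 4456448),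
   (8, 268101792, 0), (8, 183890080, 0), (8, 100393120, 17301504),
   (8, 267640992, 0), (8, 243063564, 0), (8, 242936588, 0),
   (8, 268229388, 0), (8, 245741792, 2097152), (8, 245741792, 128),
   (8, 217368944, 0)]

def tab3 : List (ℕ × ℕ × ℕ) :=
  [(8, 67041648, 80), (8, 268368240, 80), (8, 217508064, 64),
   (8, 66234592, 0), (8, 226158244, 4), (8, 259712676, 4),
   (8, 125757092, 1024), (8, 259974820, 1024), (8, 259974820, 4),
   (8, 16041636, 2097152), (8, 268351376, 0), (8, 234805168, 1040),
   (8, 157982368, 0), (8, 217878432, 32768), (8, 117345952, 0),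
   (8, 268078752, 0), (8, 251258160, 0), (8, 216643232, 512),
   (8, 217691808, 512), (8, 184153760, 0), (8, 15062688, 0),
   (8, 217437856, 0), (8, 82679456, 1184), (8, 216897184, 1184),
   (8, 183867040, 0), (8, 183883424, 32), (8, 250992288, 32),
   (8, 117298848, 0), (8, 251516576, 32), (8, 167351968, 4608),
   (8, 66164384, 70144), (8, 268031648, 0), (8, 267769504, 0),
   (8, 134076064, 128), (8, 268293792, 128), (8, 66975392, 160),
   (8, 201193120, 160), (8, 267253408, 0), (8, 268301984, 160),
   (9, 61780452512, 0), (9, 27880153184, 0), (9, 23011265696, 128),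
   (9, 53524956832, 512), (9, 38504405504, 524288), (9, 13735112704, 12288),
   (9, 22459544096, 8454656), (9, 2998100480, 0), (9, 8375324672, 1048576),
   (10, 761632915456, 0)]

/-- The table of 196 marked graphs. -/
def table : List (ℕ × ℕ × ℕ) := tab0 ++ tab1 ++ tab2 ++ tab3

/-- The cycle `0, 1, ..., m-1`. -/
def rim (m i j : ℕ) : Bool := decide (i < m ∧ j < m ∧ ((i + 1) % m = j ∨ (j + 1) % m = i))

/-- Adjacency of `i < j` in `seqG t m`. -/
def seqUp (t m i j : ℕ) : Bool :=
  if j < m then (if t = 1 ∨ t = 2 ∨ (3 ≤ t ∧ i = 0) then !rim m i j else rim m i j)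
  else if j = m then decide (i ≠ 0 ∨ t < 3 ∨ (m % 2 = 1 ↔ t = 3))
  else decide (i = 0 ∨ i = m)

/-- The five infinite sequences; the marked pairs are the consecutive pairs of the cycle `0, ..., m-1`. -/
def seqG (t m : ℕ) : MG where
  n := m + (if t = 1 then 0 else if t = 4 then 2 else 1)
  adj i j := decide (i ≠ j) && seqUp t m (min i j) (max i j)
  mark := rim m

/-- The admissible parameters. -/
def seqOk (t m : ℕ) : Prop :=
  (t = 0 ∧ 5 ≤ m) ∨ (t = 1 ∧ 6 ≤ m ∧ m % 2 = 0) ∨ (t = 2 ∧ 5 ≤ m ∧ m % 2 = 1) ∨ (t = 3 ∧ 6 ≤ m) ∨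
    (t = 4 ∧ 5 ≤ m)

/-- The table, the five sequences, and everything obtained by insertions at marked pairs. -/
inductive Listed : MG → Prop
  | tab (x : ℕ × ℕ × ℕ) : x ∈ table → Listed (ofCode x)
  | seq (t m : ℕ) : seqOk t m → Listed (seqG t m)
  | ins (B : MG) (a b : ℕ) : Listed B → a < B.n → b < B.n → B.mark a b = true → Listed (B.ins a b)

end Pool.Agent.Lib.MP_d7353d_co
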