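import Pool.Agent.Lib.MP_d7353d_co.TS
import Pool.Agent.Lib.MP_d7353d_co.UDefs

/-! Definitions for the proof that the list is sound and complete. -/

namespace Pool.Agent.Lib.MP_d7353d_co.U

open T

variable {V : Type} [DecidableEq V]

def Del (G : Gr V) (S : Finset V) : Prop := ∀ u ∈ S, Circ G (S.erase u)

def Mn (G : Gr V) (S : Finset V) : Prop := ¬ Circ G S ∧ Del G S

/-- all contractions by a local complementation are circle graphs -/
def Con (G : Gr V) (S : Finset V) : Prop := ∀ s ∈ S, Circ (lc G s) (S.erase s)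

def Pull (G : Gr V) (σ : ℕ → V) (n : ℕ) (A : Gr ℕ) : Prop :=
  ∀ i < n, ∀ j < n, i ≠ j → σ i ≠ σ j ∧ G (σ i) (σ j) = A i j

def im (σ : ℕ → V) (n : ℕ) : Finset V := (Finset.range n).image σ

def Lst (G : Gr V) (S : Finset V) : Prop :=
  ∃ B σ, Listed B ∧ Pull G σ B.n B.adj ∧ S = im σ B.n

/-! expansions -/

def ed (a b : V) : Gr V :=
  fun u v => (decide (u = a) && decide (v = b)) ^^ (decide (u = b) && decide (v = a))

/-- parity of the number of consecutive pairs of the list equal to `uv` -/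
def pe : List V → Gr V
  | a :: b :: l => fun u v => ed a b u v ^^ pe (b :: l) u v
  | _ => fun _ _ => false

/-- a chain: two indices of base vertices and the inner vertices of a path between them -/
abbrev Ch (V : Type) := ℕ × List V × ℕ

def px (σ : ℕ → V) : List (Ch V) → Gr V
  | [] => fun _ _ => false
  | t :: P => fun u v =>
      ed (σ t.1) (σ t.2.2) u v ^^ pe (σ t.1 :: t.2.1 ++ [σ t.2.2]) u v ^^ px σ P u v

def chv (P : List (Ch V)) : List V := P.flatMap fun t => t.2.1

def ends (P : List (Ch V)) : List (ℕ × ℕ) := P.map fun t => (t.1, t.2.2)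

/-- `G` on `S` is the graph `A` on `0..n-1` (placed by `σ`) with the chains `P` inserted -/
structure EX (G : Gr V) (S : Finset V) (σ : ℕ → V) (n : ℕ) (A : Gr ℕ) (P : List (Ch V)) : Prop where
  inj : ∀ i < n, ∀ j < n, σ i = σ j → i = j
  nd : (chv P).Nodup
  dj : ∀ i < n, σ i ∉ chv P
  en : ∀ t ∈ P, t.1 < n ∧ t.2.2 < n ∧ t.1 ≠ t.2.2
  cov : ∀ u, u ∈ S ↔ (∃ i < n, σ i = u) ∨ u ∈ chv P
  bb : ∀ i < n, ∀ j < n, i ≠ j → G (σ i) (σ j) = (A i j ^^ px σ P (σ i) (σ j))
  cb : ∀ u ∈ chv P, ∀ w ∈ S, G u w = px σ P u w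

/-- a new vertex `f` inserted at the pair `pq` -/
def insG (G : Gr V) (f p q : V) : Gr V := fun u w =>
  if u = f then decide (w = p ∨ w = q) else if w = f then decide (u = p ∨ u = q)
  else (G u w ^^ ed p q u w)

/-- distinct marked pairs -/
def Fits (mk : Gr ℕ) (J : List (ℕ × ℕ)) : Prop :=
  (∀ p ∈ J, mk p.1 p.2 = true) ∧ J.Pairwise fun p q => pr p.1 p.2 q.1 q.2 = false

/-- adjacency after an insertion -/
def insA (A : Gr ℕ) (n a b : ℕ) : Gr ℕ := (MG.ins ⟨n, A, A⟩ a b).adj

def mlist (B : MG) : List (ℕ × ℕ) :=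
  (List.range B.n).flatMap fun j => ((List.range j).filter fun i => B.mark i j).map fun i => (i, j)

def rimJ (m : ℕ) : List (ℕ × ℕ) := (List.range m).map fun i => (i, (i + 1) % m)

/-- the base graphs with the list of their marked pairs -/
def Base (B : MG) (J : List (ℕ × ℕ)) : Prop :=
  (∃ x ∈ table, B = ofCode x ∧ J = mlist B) ∨ ∃ t m, seqOk t m ∧ B = seqG t m ∧ J = rimJ m

/-! words: rim `y :: r`, letters `lam`, hub `h`, extra vertex `z` -/

def kap (t : ℕ) : Bool := decide (t = 1 ∨ t = 2)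

def ext (t : ℕ) (h z : V) : List V := if t = 1 then [] else if t = 4 then [h, z] else [h]

def al (t : ℕ) (h y u : V) : Bool :=
  (decide (t = 0 ∨ 3 ≤ t) && decide (u = h)) ^^ (decide (3 ≤ t) && decide (u = y))

def la (t : ℕ) (lam : V → Bool) (h z u : V) : Bool :=
  lam u ^^ (decide (t = 2) && decide (u = h)) ^^ (decide (t = 4) && decide (u = z))

def cy (y : V) (r : List V) : Gr V := pe (y :: r ++ [y])

def form (t : ℕ) (y : V) (r : List V) (lam : V → Bool) (h z : V) : Gr V := fun u w =>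
  cy y r u w ^^ (kap t && la t lam h z u && la t lam h z w) ^^ (al t h y u && la t lam h z w) ^^
    (al t h y w && la t lam h z u)

structure WF (t : ℕ) (G : Gr V) (S : Finset V) (y : V) (r : List V) (lam : V → Bool) (h z : V) :
    Prop where
  nd : (ext t h z ++ y :: r).Nodup
  cov : ∀ u, u ∈ S ↔ u ∈ ext t h z ++ y :: r
  sup : ∀ u ∈ ext t h z, lam u = false
  adj : ∀ u ∈ S, ∀ w ∈ S, u ≠ w → G u w = form t y r lam h z u w

/-- length of the rim after removing the letters `0` -/
def m0 (t : ℕ) (y : V) (r : List V) (lam : V → Bool) : ℕ :=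
  r.countP lam + (if t < 3 then (lam y).toNat else 1)

def thr (t : ℕ) : ℕ := if t = 1 ∨ t = 3 then 6 else 5

def okp (t c : ℕ) : Prop := t = 0 ∨ (c % 2 = 0 ↔ (t = 1 ∨ t = 4))

def Rich (t : ℕ) (y : V) (r : List V) (lam : V → Bool) : Prop :=
  t < 5 ∧ thr t ≤ m0 t y r lam ∧ okp t ((y :: r).countP lam)

def LW (G : Gr V) (S : Finset V) : Prop :=
  ∃ t y r lam h z, WF t G S y r lam h z ∧ Rich t y r lam

/-- contracting `v` in `H` gives a word graph -/
def HV (t : ℕ) (H : Gr V) (S : Finset V) (v y : V) (r : List V) (lam : V → Bool) (h z : V) : Prop :=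
  v ∈ S ∧ WF t (lc H v) (S.erase v) y r lam h z

/-- the letter of a rim vertex -/
def lt (H : Gr V) (v : V) (lam : V → Bool) (u : V) : ℕ := (lam u).toNat + 2 * (H v u).toNat

/-- no letter `0` in `r` -/
def ZF (H : Gr V) (v : V) (r : List V) (lam : V → Bool) : Prop := ∀ u ∈ r, (lam u || H v u) = true

/-- the five patterns for the neighbourhood of `v` -/
def PatV (t : ℕ) (H : Gr V) (S : Finset V) (v y : V) (r : List V) (lam : V → Bool) (h z : V) : Prop :=
  (∃ β x x', (β = true → kap t = false) ∧ cy y r x x' = true ∧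
    ∀ u ∈ S.erase v, H v u = (decide (u = x) ^^ decide (u = x') ^^ (β && al t h y u))) ∨
  (t = 1 ∧ ∀ u ∈ S.erase v, H v u = lam u) ∨
  (kap t = true ∧ ∃ q ∈ y :: r, ∀ u ∈ S.erase v, H v u = (la t lam h z u ^^ decide (u = q))) ∨
  (t = 3 ∧ ∀ u ∈ S.erase v, H v u = al t h y u) ∨
  (3 ≤ t ∧ ∃ p, cy y r y p = true ∧ (∀ u ∈ r, H v u = (lam u ^^ decide (u = p))) ∧
    (lam y ^^ H v y ^^ H v h) = true ∧ (t = 4 → H v z = true))

/-- consecutive pairs -/
def cp {α : Type} (l : List α) : List (α × α) := l.zip l.tail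

/-- number of neighbours of `v` in a chain, modulo 3 -/
def res (G : Gr V) (v : V) (c : List V) : ℕ := c.countP (G v) % 3

/-- change of the neighbourhood of `v` when all chains are contracted -/
def tg (G : Gr V) (v : V) : List (Ch V) → ℕ → Bool
  | [], _ => false
  | t :: P, i => (decide (res G v t.2.1 = 1) && (decide (i = t.1) ^^ decide (i = t.2.2))) ^^
      (decide (res G v t.2.1 = 2) && decide (i = t.2.2)) ^^ tg G v P i

end Pool.Agent.Lib.MP_d7353d_co.U
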