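import Pool.Agent.Lib.MP_d7353d_co.US
import Pool.Agent.Lib.MP_d7353d_co.TB

/-! Basic facts. -/

namespace Pool.Agent.Lib.MP_d7353d_co.U

open T

variable {V : Type} [DecidableEq V]

theorem frc_eq {α : Type} (n : ℕ) (k : ℕ → α) : frc n k = k n := by cases n <;> rfl

theorem an_eq (a b : Bool) : an a b = (a && b) := by cases a <;> rfl

theorem an_iff {a b : Bool} : an a b = true ↔ a = true ∧ b = true := by cases a <;> simp [an]

theorem iz_eq {α : Type} (n : ℕ) (a b : α) : iz n a b = if n = 0 then a else b := by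
  cases n <;> simp [iz]

theorem ib_eq {α : Type} (c : Bool) (a b : α) : ib c a b = if c = true then a else b := by
  cases c <;> simp [ib]

theorem chk_some {b : Bool} {o : Out} {ch : List St} : chk b o = some ch ↔ b = true ∧ o = some ch := by
  cases b <;> simp [chk]

theorem allN_spec {k : ℕ} {p : ℕ → Bool} (h : allN k p = true) : ∀ i < k, p i = true := by
  induction k with
  | zero => intro i hi; omega
  | succ k ih =>
    have h' : an (p k) (allN k p) = true := h
    rw [an_iff] at h'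
    intro i hi
    rcases Nat.lt_succ_iff_lt_or_eq.mp hi with h1 | h1
    · exact ih h'.2 i h1
    · exact h1 ▸ h'.1

theorem p2_eq (i : ℕ) : p2 i = 2 ^ i := Nat.one_shiftLeft i

theorem lo_eq (n : ℕ) : lo n = 2 ^ n - 1 := by
  show Nat.pred (1 <<< n) = _
  rw [Nat.one_shiftLeft]; rfl

theorem testBit_p2 (i j : ℕ) : (p2 i).testBit j = decide (i = j) := by
  rw [p2_eq, Nat.testBit_two_pow]

theorem testBit_lo (n j : ℕ) : (lo n).testBit j = decide (j < n) := by
  rw [lo_eq, Nat.testBit_two_pow_sub_one]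

theorem b1_eq (N i : ℕ) : b1 N i = (N.testBit i).toNat := by
  show (N >>> i) &&& 1 = _
  rw [Nat.and_one_is_mod, Nat.testBit, Nat.one_and_eq_mod_two]
  rcases Nat.mod_two_eq_zero_or_one (N >>> i) with h | h <;> simp [h]

theorem dg_lt (c i : ℕ) : dg c i < 32 := Nat.and_lt_two_pow _ (n := 5) (by decide)

theorem d0_eq (c : ℕ) : d0 c = dg c 0 := rfl

theorem d0_lt (c : ℕ) : d0 c < 32 := dg_lt c 0

theorem dg_tl (c k i : ℕ) : dg (tl c k) i = dg c (k + i) := by
  show (c >>> (5 * k)) >>> (5 * i) &&& 31 = c >>> (5 * (k + i)) &&& 31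
  rw [← Nat.shiftRight_add, Nat.mul_add]

theorem dg_sr (c i : ℕ) : dg (Nat.shiftRight c 5) i = dg c (i + 1) := by
  have := dg_tl c 1 i
  rw [Nat.add_comm] at this
  exact this

theorem mem_im {σ : ℕ → V} {n : ℕ} {u : V} : u ∈ im σ n ↔ ∃ i < n, σ i = u := by simp [im]

omit [DecidableEq V] in
theorem Pull.inj {G : Gr V} {σ : ℕ → V} {n : ℕ} {A : Gr ℕ} (h : Pull G σ n A) :
    ∀ i < n, ∀ j < n, σ i = σ j → i = j := fun i hi j hj e =>
  by_contra fun ne => (h i hi j hj ne).1 e

omit [DecidableEq V] in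
theorem Pull.congr {G : Gr V} {σ : ℕ → V} {n : ℕ} {A A' : Gr ℕ} (h : Pull G σ n A)
    (e : ∀ i < n, ∀ j < n, i ≠ j → A i j = A' i j) : Pull G σ n A' := fun i hi j hj ne =>
  ⟨(h i hi j hj ne).1, (h i hi j hj ne).2.trans (e i hi j hj ne)⟩

/-- proper vertex-minors of a graph with `Del` are circle graphs -/
theorem Del.minor {G G' : Gr V} {S S' T : Finset V} {u : V} (hG : Sy G) (h : Del G S)
    (l : LE T G G') (hT : T ⊆ S) (hS : S' ⊆ S) (hu : u ∈ S) (huT : u ∉ T) (huS : u ∉ S') :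
    Circ G' S' := by
  have t : T ⊆ S.erase u := fun x hx => Finset.mem_erase.mpr ⟨fun e => huT (e ▸ hx), hT hx⟩
  exact (Circ.le hG (l.mono t) (h u hu)).sub
    fun x hx => Finset.mem_erase.mpr ⟨fun e => huS (e ▸ hx), hS hx⟩

theorem Del.le {G G' : Gr V} {S T : Finset V} (hG : Sy G) (h : Del G S) (l : LE T G G')
    (hT : T ⊆ S) : Del G' (S \ T) := fun _ hu =>
  h.minor hG l hT ((Finset.erase_subset _ _).trans Finset.sdiff_subset)
    (Finset.mem_sdiff.mp hu).1 (Finset.mem_sdiff.mp hu).2 (Finset.notMem_erase _ _)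

theorem Del.lc {G : Gr V} {S : Finset V} {s : V} (hG : Sy G) (h : Del G S) (hs : s ∈ S) :
    Del (lc G s) (S.erase s) := by
  have := h.le hG (LE.one (S := {s}) G (Finset.mem_singleton_self s)) (by simpa using hs)
  rwa [← Finset.erase_eq] at this

theorem Del.congr {G H : Gr V} {S : Finset V} (h : Del G S)
    (e : ∀ u ∈ S, ∀ v ∈ S, u ≠ v → G u v = H u v) : Del H S := fun u hu =>
  (h u hu).congr fun a ha b hb ne =>
    (e a (Finset.mem_of_mem_erase ha) b (Finset.mem_of_mem_erase hb) ne).symm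

theorem circ_le_iff {G G' : Gr V} {S : Finset V} (hG : Sy G) (l : LE S G G') :
    Circ G S ↔ Circ G' S := ⟨Circ.le hG l, Circ.le (l.sy hG) (l.symm hG)⟩

/-- a graph with a non-circle vertex-minor is not a circle graph -/
theorem non_up {G G' : Gr V} {S S' T : Finset V} (hG : Sy G) (l : LE T G G') (hT : T ⊆ S)
    (hS : S' ⊆ S) (h : ¬ Circ G' S') : ¬ Circ G S :=
  fun c => h ((Circ.le hG (l.mono hT) c).sub hS)

/-- local complementations at non-adjacent vertices commute -/
theorem lc_comm {G : Gr V} (hG : Sy G) {s w : V} (h : G s w = false) :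
    lc (lc G s) w = lc (lc G w) s := by
  have h' : G w s = false := (hG.1 w s).trans h
  have a := hG.2 s
  have b := hG.2 w
  funext u x
  by_cases e : u = x
  · simp [lc, e]
  by_cases e1 : u = w <;> by_cases e2 : u = s <;> by_cases e3 : w = x <;> by_cases e4 : s = x <;>
    simp_all [lc] <;>
    cases G u x <;> cases G u s <;> cases G s x <;> cases G u w <;> cases G w x <;> simp

theorem Lst.congr {G H : Gr V} {S : Finset V} (h : Lst G S)
    (e : ∀ u ∈ S, ∀ v ∈ S, u ≠ v → G u v = H u v) : Lst H S := by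
  obtain ⟨B, σ, hB, p, rfl⟩ := h
  exact ⟨B, σ, hB, fun i hi j hj ne => ⟨(p i hi j hj ne).1,
    (e _ (mem_im.mpr ⟨i, hi, rfl⟩) _ (mem_im.mpr ⟨j, hj, rfl⟩) (p i hi j hj ne).1).symm.trans
      (p i hi j hj ne).2⟩, rfl⟩

end Pool.Agent.Lib.MP_d7353d_co.U
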