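import Pool.Agent.Lib.MP_d7353d_co.US

/-! Expansions, first part: neighbours of a chain vertex, suppression, collapse, insertion. -/

namespace Pool.Agent.Lib.MP_d7353d_co.U

open T

set_option linter.unusedSectionVars false
set_option linter.unusedSimpArgs false
set_option linter.unusedVariables false

variable {V : Type} [DecidableEq V]

theorem ex_ed_comm (a b u w : V) : ed a b u w = ed b a u w := by
  unfold ed; rw [Bool.xor_comm]

theorem ex_ed_symm (a b u w : V) : ed a b u w = ed a b w u := by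
  unfold ed
  cases decide (u = a) <;> cases decide (u = b) <;> cases decide (w = a) <;> cases decide (w = b) <;> rfl

theorem ex_ed_diag (a b u : V) : ed a b u u = false := by
  unfold ed
  cases decide (u = a) <;> cases decide (u = b) <;> rfl

theorem ex_ed_left {a b u : V} (h1 : u ≠ a) (h2 : u ≠ b) (w : V) : ed a b u w = false := by
  simp [ed, h1, h2]

theorem ex_ed_right {a b w : V} (h1 : w ≠ a) (h2 : w ≠ b) (u : V) : ed a b u w = false := by
  simp [ed, h1, h2]

theorem ex_ed_fst {a b : V} (h : a ≠ b) (w : V) : ed a b a w = decide (w = b) := by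
  simp [ed, h]

theorem ex_ed_snd {a b : V} (h : b ≠ a) (w : V) : ed a b b w = decide (w = a) := by
  simp [ed, h]

theorem ex_pe_cons (a b : V) (l : List V) (u w : V) :
    pe (a :: b :: l) u w = (ed a b u w ^^ pe (b :: l) u w) := rfl

theorem ex_pe_one (a u w : V) : pe [a] u w = false := rfl

theorem ex_pe_nil (u w : V) : pe ([] : List V) u w = false := rfl

theorem ex_pe_append (l1 : List V) (p : V) (l2 : List V) (u w : V) :
    pe (l1 ++ p :: l2) u w = (pe (l1 ++ [p]) u w ^^ pe (p :: l2) u w) := by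
  induction l1 with
  | nil => simp [ex_pe_one]
  | cons a l ih =>
    cases l with
    | nil => simp [ex_pe_cons, ex_pe_one]
    | cons b l =>
      simp only [List.cons_append, ex_pe_cons] at ih ⊢
      rw [ih, Bool.xor_assoc]

theorem ex_pe_symm (l : List V) (u w : V) : pe l u w = pe l w u := by
  induction l with
  | nil => rfl
  | cons a l ih =>
    cases l with
    | nil => rfl
    | cons b l => rw [ex_pe_cons, ex_pe_cons, ih, ex_ed_symm]

theorem ex_pe_diag (l : List V) (u : V) : pe l u u = false := by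
  induction l with
  | nil => rfl
  | cons a l ih =>
    cases l with
    | nil => rfl
    | cons b l => rw [ex_pe_cons, ih, ex_ed_diag]; rfl

theorem ex_pe_left {l : List V} {u : V} (h : u ∉ l) (w : V) : pe l u w = false := by
  induction l with
  | nil => rfl
  | cons a l ih =>
    cases l with
    | nil => rfl
    | cons b l =>
      simp only [List.mem_cons, not_or] at h
      rw [ex_pe_cons, ih (by simp [h.2.1, h.2.2]), ex_ed_left h.1 h.2.1]; rfl

theorem ex_pe_reverse (l : List V) (u w : V) : pe l.reverse u w = pe l u w := by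
  induction l with
  | nil => rfl
  | cons a l ih =>
    cases l with
    | nil => rfl
    | cons b l =>
      rw [ex_pe_cons, ← ih]
      simp only [List.reverse_cons, List.append_assoc, List.cons_append, List.nil_append]
      rw [ex_pe_append, ex_pe_cons, ex_pe_one, ex_ed_comm b a]
      cases ed a b u w <;> cases pe (l.reverse ++ [b]) u w <;> rfl

theorem ex_px_cons (σ : ℕ → V) (t : Ch V) (P : List (Ch V)) (u w : V) :
    px σ (t :: P) u w =
      (ed (σ t.1) (σ t.2.2) u w ^^ pe (σ t.1 :: t.2.1 ++ [σ t.2.2]) u w ^^ px σ P u w) := rfl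

theorem ex_px_nil (σ : ℕ → V) (u w : V) : px σ ([] : List (Ch V)) u w = false := rfl

theorem ex_px_append (σ : ℕ → V) (P Q : List (Ch V)) (u w : V) :
    px σ (P ++ Q) u w = (px σ P u w ^^ px σ Q u w) := by
  induction P with
  | nil => simp [ex_px_nil]
  | cons t P ih => simp only [List.cons_append, ex_px_cons, ih, Bool.xor_assoc]

theorem ex_px_symm (σ : ℕ → V) (P : List (Ch V)) (u w : V) : px σ P u w = px σ P w u := by
  induction P with
  | nil => rfl
  | cons t P ih => rw [ex_px_cons, ex_px_cons, ih, ex_ed_symm, ex_pe_symm]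

theorem ex_px_diag (σ : ℕ → V) (P : List (Ch V)) (u : V) : px σ P u u = false := by
  induction P with
  | nil => rfl
  | cons t P ih => rw [ex_px_cons, ih, ex_ed_diag, ex_pe_diag]; rfl

theorem ex_chv_cons (t : Ch V) (P : List (Ch V)) : chv (t :: P) = t.2.1 ++ chv P := by
  simp [chv]

theorem ex_chv_append (P Q : List (Ch V)) : chv (P ++ Q) = chv P ++ chv Q := by
  simp [chv]

theorem ex_chv_mid (P1 P2 : List (Ch V)) (a b : ℕ) (c : List V) :
    chv (P1 ++ (a, c, b) :: P2) = chv P1 ++ (c ++ chv P2) := by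
  rw [ex_chv_append, ex_chv_cons]

theorem ex_px_left {σ : ℕ → V} {P : List (Ch V)} {u : V}
    (h1 : ∀ t ∈ P, u ≠ σ t.1 ∧ u ≠ σ t.2.2) (h2 : u ∉ chv P) (w : V) : px σ P u w = false := by
  induction P with
  | nil => rfl
  | cons t P ih =>
    rw [ex_chv_cons, List.mem_append, not_or] at h2
    have k := h1 t List.mem_cons_self
    rw [ex_px_cons, ih (fun s hs => h1 s (List.mem_cons_of_mem _ hs)) h2.2, ex_ed_left k.1 k.2,
      ex_pe_left (by simp [k.1, k.2, h2.1])]
    rfl

theorem ex_px_empty {σ : ℕ → V} {P : List (Ch V)} (h : chv P = []) (u w : V) :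
    px σ P u w = false := by
  induction P with
  | nil => rfl
  | cons t P ih =>
    rw [ex_chv_cons, List.append_eq_nil_iff] at h
    rw [ex_px_cons, ih h.2, h.1]
    simp [ex_pe_cons, ex_pe_one]

/-- inserting `s` between `p` and `q` -/
theorem ex_px_ins (σ : ℕ → V) (P1 P2 : List (Ch V)) (a b : ℕ) {c1 c2 l1 l2 : List V} (s : V) {p q : V}
    (e1 : σ a :: c1 = l1 ++ [p]) (e2 : c2 ++ [σ b] = q :: l2) (u w : V) :
    px σ (P1 ++ (a, c1 ++ s :: c2, b) :: P2) u w =
      (px σ (P1 ++ (a, c1 ++ c2, b) :: P2) u w ^^ ed p q u w ^^ ed p s u w ^^ ed s q u w) := by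
  have f1 : σ a :: (c1 ++ s :: c2) ++ [σ b] = l1 ++ p :: s :: q :: l2 := by
    rw [List.cons_append, List.append_assoc, List.cons_append, e2, ← List.cons_append, e1]; simp
  have f2 : σ a :: (c1 ++ c2) ++ [σ b] = l1 ++ p :: q :: l2 := by
    rw [List.cons_append, List.append_assoc, e2, ← List.cons_append, e1]; simp
  simp only [ex_px_append, ex_px_cons]
  rw [f1, f2, ex_pe_append l1 p (s :: q :: l2), ex_pe_append l1 p (q :: l2)]
  simp only [ex_pe_cons]
  cases px σ P1 u w <;> cases ed (σ a) (σ b) u w <;> cases pe (l1 ++ [p]) u w <;>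
    cases ed p s u w <;> cases ed s q u w <;> cases ed p q u w <;> cases pe (q :: l2) u w <;>
    cases px σ P2 u w <;> rfl

theorem EX.sS {G : Gr V} {S σ n A P} (h : EX G S σ n A P) {i : ℕ} (hi : i < n) : σ i ∈ S :=
  (h.cov _).2 (Or.inl ⟨i, hi, rfl⟩)

theorem EX.cS {G : Gr V} {S σ n A P} (h : EX G S σ n A P) {u : V} (hu : u ∈ chv P) : u ∈ S :=
  (h.cov _).2 (Or.inr hu)

theorem EX.cne {G : Gr V} {S σ n A P} (h : EX G S σ n A P) {u : V} (hu : u ∈ chv P) {i : ℕ}
    (hi : i < n) : u ≠ σ i := fun e => h.dj i hi (e ▸ hu)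

/-- the path of a chain has different vertices, all in `S` -/
theorem EX.path {G : Gr V} {S σ n A P1 P2 a b c} (h : EX G S σ n A (P1 ++ (a, c, b) :: P2)) :
    (σ a :: c ++ [σ b]).Nodup ∧ ∀ u ∈ σ a :: c ++ [σ b], u ∈ S := by
  obtain ⟨ha, hb, hab⟩ := h.en (a, c, b) (by simp)
  have hn := h.nd
  have m : ∀ u ∈ c, u ∈ chv (P1 ++ (a, c, b) :: P2) := fun u hu => by
    rw [ex_chv_mid]; simp [hu]
  rw [ex_chv_mid] at hn
  have hc : c.Nodup := (List.nodup_append.1 (List.nodup_append.1 hn).2.1).1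
  refine ⟨?_, fun u hu => ?_⟩
  · have k1 : σ a ∉ c := fun e => h.dj a ha (m _ e)
    have k2 : σ b ∉ c := fun e => h.dj b hb (m _ e)
    have k3 : σ a ≠ σ b := fun e => hab (h.inj a ha b hb e)
    rw [List.cons_append, List.nodup_cons, List.nodup_append]
    refine ⟨by simp [k1, k3], hc, by simp, fun x hx y hy => ?_⟩
    rw [List.mem_singleton] at hy
    rintro rfl
    exact k2 (hy ▸ hx)
  · simp only [List.cons_append, List.mem_cons, List.mem_append, List.not_mem_nil, or_false] at hu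
    rcases hu with rfl | hu | rfl
    · exact h.sS ha
    · exact h.cS (m _ hu)
    · exact h.sS hb

theorem ex_pq {G : Gr V} {S σ n A P1 P2 a b c1 c2 l1 l2 p q}
    (h : EX G S σ n A (P1 ++ (a, c1 ++ c2, b) :: P2)) (e1 : σ a :: c1 = l1 ++ [p])
    (e2 : c2 ++ [σ b] = q :: l2) : p ≠ q ∧ p ∈ S ∧ q ∈ S := by
  obtain ⟨k1, k2⟩ := h.path
  have f2 : σ a :: (c1 ++ c2) ++ [σ b] = l1 ++ p :: q :: l2 := by
    rw [List.cons_append, List.append_assoc, e2, ← List.cons_append, e1]; simp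
  rw [f2] at k1 k2
  refine ⟨?_, k2 _ (by simp), k2 _ (by simp)⟩
  have := (List.nodup_append.1 k1).2.1
  simp only [List.nodup_cons, List.mem_cons, not_or] at this
  exact this.1.1

theorem ex_chv_perm (P1 P2 : List (Ch V)) (a b : ℕ) (c1 c2 : List V) (s : V) :
    (chv (P1 ++ (a, c1 ++ s :: c2, b) :: P2)).Perm (s :: chv (P1 ++ (a, c1 ++ c2, b) :: P2)) := by
  rw [ex_chv_mid, ex_chv_mid]
  have : chv P1 ++ (c1 ++ s :: c2 ++ chv P2) = (chv P1 ++ c1) ++ s :: (c2 ++ chv P2) := by simp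
  rw [this]
  refine List.perm_middle.trans ?_
  simp

theorem ex_en {n : ℕ} {P1 P2 : List (Ch V)} {a b : ℕ} {c : List V} (c' : List V)
    (h : ∀ t ∈ P1 ++ (a, c, b) :: P2, t.1 < n ∧ t.2.2 < n ∧ t.1 ≠ t.2.2) :
    ∀ t ∈ P1 ++ (a, c', b) :: P2, t.1 < n ∧ t.2.2 < n ∧ t.1 ≠ t.2.2 := by
  intro t ht
  simp only [List.mem_append, List.mem_cons] at ht
  rcases ht with ht | rfl | ht
  · exact h t (by simp [ht])
  · exact h (a, c, b) (by simp)
  · exact h t (by simp [ht])

theorem ex_nbr {G : Gr V} {S σ n A P1 P2 a b c1 c2 s l1 l2 p q}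
    (h : EX G S σ n A (P1 ++ (a, c1 ++ s :: c2, b) :: P2)) (e1 : σ a :: c1 = l1 ++ [p])
    (e2 : c2 ++ [σ b] = q :: l2) :
    p ≠ q ∧ p ∈ S ∧ q ∈ S ∧ p ≠ s ∧ q ≠ s ∧
      ∀ w ∈ S, G s w = (decide (w = p) ^^ decide (w = q)) := by
  obtain ⟨k1, k2⟩ := h.path
  have f1 : σ a :: (c1 ++ s :: c2) ++ [σ b] = l1 ++ p :: s :: q :: l2 := by
    rw [List.cons_append, List.append_assoc, List.cons_append, e2, ← List.cons_append, e1]; simp
  rw [f1] at k1 k2
  have k3 := (List.nodup_append.1 k1).2.1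
  simp only [List.nodup_cons, List.mem_cons, not_or] at k3
  have pm := ex_chv_perm P1 P2 a b c1 c2 s
  have hs : s ∈ chv (P1 ++ (a, c1 ++ s :: c2, b) :: P2) := pm.mem_iff.2 List.mem_cons_self
  have hs' := (List.nodup_cons.1 (pm.nodup_iff.1 h.nd)).1
  have ps : s ≠ p := fun e => k3.1.1 e.symm
  have qs : s ≠ q := k3.2.1.1
  refine ⟨k3.1.2.1, k2 _ (by simp), k2 _ (by simp), k3.1.1, Ne.symm qs, fun w hw => ?_⟩
  rw [h.cb s hs w hw, ex_px_ins σ P1 P2 a b s e1 e2, ex_px_left _ hs', ex_ed_left ps qs,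
    ex_ed_snd ps, ex_ed_fst qs]
  · simp
  · intro t ht
    have := ex_en (c1 ++ c2) h.en t ht
    exact ⟨h.cne hs this.1, h.cne hs this.2.1⟩

theorem ex_last (x : V) (c : List V) : ∃ l p, x :: c = l ++ [p] :=
  ⟨(x :: c).dropLast, (x :: c).getLast (by simp), (List.dropLast_append_getLast _).symm⟩

theorem ex_first (c : List V) (x : V) : ∃ q l, c ++ [x] = q :: l := by
  cases c with
  | nil => exact ⟨x, [], rfl⟩
  | cons a c => exact ⟨a, c ++ [x], rfl⟩

theorem ex_sup {G : Gr V} {S σ n A P1 P2 a b c1 c2 s} (hG : Sy G)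
    (h : EX G S σ n A (P1 ++ (a, c1 ++ s :: c2, b) :: P2)) :
    EX (T.lc G s) (S.erase s) σ n A (P1 ++ (a, c1 ++ c2, b) :: P2) := by
  obtain ⟨l1, p, e1⟩ := ex_last (σ a) c1
  obtain ⟨q, l2, e2⟩ := ex_first c2 (σ b)
  obtain ⟨pq, -, -, -, -, nb⟩ := ex_nbr h e1 e2
  have pm := ex_chv_perm P1 P2 a b c1 c2 s
  have hs : s ∈ chv (P1 ++ (a, c1 ++ s :: c2, b) :: P2) := pm.mem_iff.2 List.mem_cons_self
  have nd := List.nodup_cons.1 (pm.nodup_iff.1 h.nd)
  have up : ∀ u ∈ chv (P1 ++ (a, c1 ++ c2, b) :: P2), u ∈ chv (P1 ++ (a, c1 ++ s :: c2, b) :: P2) :=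
    fun u hu => pm.mem_iff.2 (List.mem_cons_of_mem _ hu)
  have key : ∀ u ∈ S, ∀ w ∈ S, u ≠ s → w ≠ s → u ≠ w → ∀ x : Bool,
      G u w = (x ^^ px σ (P1 ++ (a, c1 ++ s :: c2, b) :: P2) u w) →
      T.lc G s u w = (x ^^ px σ (P1 ++ (a, c1 ++ c2, b) :: P2) u w) := by
    intro u hu w hw us ws uw x e
    rw [T.lc, if_neg uw, e, ex_px_ins σ P1 P2 a b s e1 e2, hG.1 u s, nb u hu, nb w hw]
    unfold ed
    simp only [us, ws, decide_false, Bool.false_and, Bool.and_false, Bool.xor_false]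
    by_cases h1 : u = p <;> by_cases h2 : u = q <;> by_cases h3 : w = p <;> by_cases h4 : w = q <;>
      simp_all
  refine ⟨h.inj, nd.2, fun i hi e => h.dj i hi (up _ e), ex_en _ h.en, fun u => ?_,
    fun i hi j hj ij => ?_, fun u hu w hw => ?_⟩
  · rw [Finset.mem_erase, h.cov, pm.mem_iff, List.mem_cons]
    constructor
    · rintro ⟨h1, h2 | h2 | h2⟩
      · exact Or.inl h2
      · exact absurd h2 h1
      · exact Or.inr h2
    · rintro (⟨i, hi, rfl⟩ | h2)
      · exact ⟨(h.cne hs hi).symm, Or.inl ⟨i, hi, rfl⟩⟩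
      · exact ⟨fun e => nd.1 (e ▸ h2), Or.inr (Or.inr h2)⟩
  · exact key _ (h.sS hi) _ (h.sS hj) (h.cne hs hi).symm (h.cne hs hj).symm
      (fun e => ij (h.inj i hi j hj e)) _ (h.bb i hi j hj ij)
  · rw [Finset.mem_erase] at hw
    by_cases uw : u = w
    · rw [uw, ex_px_diag, T.lc, if_pos rfl]
    · have := key u (h.cS (up u hu)) w hw.2 (fun e => nd.1 (e ▸ hu)) hw.1 uw false
        (by rw [h.cb u (up u hu) w hw.2]; simp)
      simpa using this

theorem ex_split (P : List (Ch V)) (h : chv P ≠ []) :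
    ∃ P1 P2 a b s c, P = P1 ++ (a, s :: c, b) :: P2 := by
  induction P with
  | nil => exact absurd rfl h
  | cons t P ih =>
    obtain ⟨a, c, b⟩ := t
    cases c with
    | nil =>
      obtain ⟨P1, P2, a', b', s, c, e⟩ := ih (by simpa [ex_chv_cons] using h)
      exact ⟨(a, [], b) :: P1, P2, a', b', s, c, by rw [e]; rfl⟩
    | cons s c => exact ⟨[], P, a, b, s, c, rfl⟩

theorem ex_col {σ : ℕ → V} {n A} : ∀ (k : ℕ) {G : Gr V} {S P}, (chv P).length = k → Sy G →
    EX G S σ n A P → ∃ G', LE (chv P).toFinset G G' ∧ Pull G' σ n A := by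
  intro k
  induction k with
  | zero =>
    intro G S P hk hG h
    refine ⟨G, .refl, fun i hi j hj ij => ⟨fun e => ij (h.inj i hi j hj e), ?_⟩⟩
    rw [h.bb i hi j hj ij, ex_px_empty (List.length_eq_zero_iff.1 hk)]
    simp
  | succ k ih =>
    intro G S P hk hG h
    obtain ⟨P1, P2, a, b, s, c, rfl⟩ := ex_split P (fun e => by rw [e] at hk; simp at hk)
    have pm := ex_chv_perm P1 P2 a b [] c s
    have h' := ex_sup (c1 := []) hG h
    obtain ⟨G', g1, g2⟩ := ih (by have := pm.length_eq; simp only [List.nil_append, List.length_cons] at this ⊢; omega)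
      (hG.lc s) h'
    refine ⟨G', (LE.one G (y := s) ?_).trans (g1.mono fun u hu => ?_), g2⟩
    · exact List.mem_toFinset.2 (pm.mem_iff.2 List.mem_cons_self)
    · exact List.mem_toFinset.2 (pm.mem_iff.2 (List.mem_cons_of_mem _ (List.mem_toFinset.1 hu)))

theorem ex_insr {G : Gr V} {S σ n A P1 P2 a b c1 c2 f l1 l2 p q} (hG : Sy G) (hf : f ∉ S)
    (h : EX G S σ n A (P1 ++ (a, c1 ++ c2, b) :: P2)) (e1 : σ a :: c1 = l1 ++ [p])
    (e2 : c2 ++ [σ b] = q :: l2) :
    Sy (insG G f p q) ∧ EX (insG G f p q) (insert f S) σ n A (P1 ++ (a, c1 ++ f :: c2, b) :: P2) ∧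
      ∀ u ∈ S, ∀ w ∈ S, T.lc (insG G f p q) f u w = G u w := by
  obtain ⟨pq, hp, hq⟩ := ex_pq h e1 e2
  have nf : ∀ u ∈ S, u ≠ f := fun u hu e => hf (e ▸ hu)
  have fp : f ≠ p := (nf p hp).symm
  have fq : f ≠ q := (nf q hq).symm
  have pm := ex_chv_perm P1 P2 a b c1 c2 f
  have fc : f ∉ chv (P1 ++ (a, c1 ++ c2, b) :: P2) := fun e => hf (h.cS e)
  have sy : Sy (insG G f p q) := by
    refine ⟨fun u w => ?_, fun u => ?_⟩
    · unfold insG
      by_cases h1 : u = f <;> by_cases h2 : w = f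
      · simp [h1, h2]
      · simp [h1, h2]
      · simp [h1, h2]
      · simp only [h1, h2, if_false]
        rw [hG.1 u w, ex_ed_symm]
    · unfold insG
      by_cases h1 : u = f
      · simp [h1, fp, fq]
      · simp [h1, hG.2, ex_ed_diag]
  have key : ∀ u ∈ S, ∀ w ∈ S, ∀ x : Bool,
      G u w = (x ^^ px σ (P1 ++ (a, c1 ++ c2, b) :: P2) u w) →
      insG G f p q u w = (x ^^ px σ (P1 ++ (a, c1 ++ f :: c2, b) :: P2) u w) := by
    intro u hu w hw x e
    rw [insG, if_neg (nf u hu), if_neg (nf w hw), e, ex_px_ins σ P1 P2 a b f e1 e2]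
    have k1 : ed p f u w = false := by simp [ed, nf u hu, nf w hw]
    have k2 : ed f q u w = false := by simp [ed, nf u hu, nf w hw]
    rw [k1, k2]
    simp
  have row : ∀ w, insG G f p q f w = px σ (P1 ++ (a, c1 ++ f :: c2, b) :: P2) f w := by
    intro w
    rw [insG, if_pos rfl, ex_px_ins σ P1 P2 a b f e1 e2, ex_px_left _ fc, ex_ed_left fp fq,
      ex_ed_snd fp, ex_ed_fst fq]
    · by_cases h1 : w = p <;> by_cases h2 : w = q <;> simp_all
    · intro t ht
      have := h.en t ht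
      exact ⟨(nf _ (h.sS this.1)).symm, (nf _ (h.sS this.2.1)).symm⟩
  refine ⟨sy, ⟨h.inj, pm.nodup_iff.2 (List.nodup_cons.2 ⟨fc, h.nd⟩), fun i hi e => ?_, ex_en _ h.en,
    fun u => ?_, fun i hi j hj ij => ?_, fun u hu w hw => ?_⟩, fun u hu w hw => ?_⟩
  · rcases List.mem_cons.1 (pm.mem_iff.1 e) with e | e
    · exact nf _ (h.sS hi) e
    · exact h.dj i hi e
  · rw [Finset.mem_insert, h.cov, pm.mem_iff, List.mem_cons]
    exact or_left_comm
  · exact key _ (h.sS hi) _ (h.sS hj) _ (h.bb i hi j hj ij)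
  · rcases List.mem_cons.1 (pm.mem_iff.1 hu) with e | e
    · rw [e, row]
    · rcases Finset.mem_insert.1 hw with e' | e'
      · rw [e', sy.1, row, ex_px_symm]
      · have := key u (h.cS e) w e' false (by rw [h.cb u e w e']; simp)
        simpa using this
  · unfold T.lc
    by_cases uw : u = w
    · rw [if_pos uw, uw, hG.2]
    · rw [if_neg uw]
      unfold insG ed
      simp only [nf u hu, nf w hw, if_false, if_true]
      by_cases h1 : u = p <;> by_cases h2 : u = q <;> by_cases h3 : w = p <;> by_cases h4 : w = q <;>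
        simp_all

end Pool.Agent.Lib.MP_d7353d_co.U
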