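import Pool.Agent.Lib.MP_d7353d_co.U1
import Pool.Agent.Lib.MP_d7353d_co.UEx1

/-! Cutting the rim into chains; word graphs are listed. -/

namespace Pool.Agent.Lib.MP_d7353d_co.U

open T

variable {V : Type} [DecidableEq V]

omit [DecidableEq V] in
theorem blk_cp (a b : V) (l : List V) : cp (a :: b :: l) = (a, b) :: cp (b :: l) := rfl

theorem blk_path (σ : ℕ → V) (nz : V → Bool) (e : V) : ∀ (r : List V) (x : V) (c : List V)
    (J : List (ℕ × ℕ)), J.map (Prod.map σ σ) = cp (x :: r.filter nz ++ [e]) →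
    ∃ P : List (Ch V), ends P = J ∧ chv P = c ++ r.filter (fun u => !nz u) ∧
      ∀ u w, px σ P u w = (pe (x :: r.filter nz ++ [e]) u w ^^ pe (x :: (c ++ r) ++ [e]) u w) := by
  intro r
  induction r with
  | nil =>
    intro x c J h
    have h' : J.map (Prod.map σ σ) = [(x, e)] := h
    obtain ⟨p, J', rfl, hp, hJ⟩ := List.map_eq_cons_iff.mp h'
    obtain rfl := List.map_eq_nil_iff.mp hJ
    obtain ⟨a, b⟩ := p
    obtain ⟨rfl, rfl⟩ := Prod.mk.inj hp
    refine ⟨[(a, c, b)], rfl, by simp [chv], fun u w => ?_⟩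
    simp [px, pe]
  | cons s r ih =>
    intro x c J h
    cases hs : nz s
    · have ef : (s :: r).filter nz = r.filter nz := List.filter_cons_of_neg (by simp [hs])
      rw [ef] at h ⊢
      obtain ⟨P, h1, h2, h3⟩ := ih x (c ++ [s]) J h
      refine ⟨P, h1, ?_, fun u w => ?_⟩
      · rw [h2, List.filter_cons_of_pos (by simp [hs])]; simp
      · rw [h3]; simp
    · rw [List.filter_cons_of_pos hs] at h ⊢
      have h' : J.map (Prod.map σ σ) = (x, s) :: cp (s :: r.filter nz ++ [e]) := h
      obtain ⟨p, J', rfl, hp, hJ⟩ := List.map_eq_cons_iff.mp h'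
      obtain ⟨a, b⟩ := p
      obtain ⟨rfl, rfl⟩ := Prod.mk.inj hp
      obtain ⟨P, h1, h2, h3⟩ := ih (σ b) [] J' hJ
      refine ⟨(a, c, b) :: P, by simp [ends] at h1 ⊢; exact h1, ?_, fun u w => ?_⟩
      · rw [ex_chv_cons, h2, List.filter_cons_of_neg (by simp [hs])]; simp
      · have e1 := ex_pe_append (σ a :: c) (σ b) (r ++ [e]) u w
        have e2 := ex_pe_cons (σ a) (σ b) (r.filter nz ++ [e]) u w
        have e3 : σ a :: (c ++ σ b :: r) ++ [e] = (σ a :: c) ++ σ b :: (r ++ [e]) := by simp
        rw [ex_px_cons, h3, e3, e1]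
        simp only [List.cons_append, List.nil_append] at e2 ⊢
        rw [e2]
        generalize ed (σ a) (σ b) u w = x1
        generalize pe (σ a :: (c ++ [σ b])) u w = x2
        generalize pe (σ b :: (r.filter nz ++ [e])) u w = x3
        generalize pe (σ b :: (r ++ [e])) u w = x4
        cases x1 <;> cases x2 <;> cases x3 <;> cases x4 <;> rfl

omit [DecidableEq V] in
theorem blk_ne (e : V) : ∀ (l : List V) (x : V), (x :: l).Nodup → e ∉ l → (l = [] → x ≠ e) →
    ∀ p ∈ cp (x :: l ++ [e]), p.1 ≠ p.2 := by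
  intro l
  induction l with
  | nil =>
    intro x _ _ h p hp
    have hp' : p ∈ [(x, e)] := hp
    obtain rfl := List.mem_singleton.mp hp'
    exact h rfl
  | cons s l ih =>
    intro x nd he _ p hp
    have hp' : p ∈ (x, s) :: cp (s :: l ++ [e]) := hp
    rcases List.mem_cons.mp hp' with rfl | hp'
    · exact fun (h : x = s) => (List.nodup_cons.mp nd).1 (h ▸ List.mem_cons_self)
    · exact ih s (List.nodup_cons.mp nd).2 (fun h => he (List.mem_cons_of_mem _ h))
        (fun _ h => he (h ▸ List.mem_cons_self)) p hp'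

theorem blk (V : Type) [DecidableEq V] : StBlk V := by
  intro G G0 S y r nz σ n A J nd h2 pl hJ hm cov out bb cb
  obtain ⟨P, h1, hc, hx⟩ := blk_path σ nz y r y [] J hm
  simp only [List.nil_append] at hc hx
  have mc : ∀ u, u ∈ chv P ↔ u ∈ r ∧ nz u = false := fun u => by simp [hc]
  have yr : y ∉ r := (List.nodup_cons.mp nd).1
  have nr : r.Nodup := (List.nodup_cons.mp nd).2
  refine ⟨P, ⟨pl.inj, hc ▸ nr.filter _, fun i hi h => ?_, fun t ht => ?_, fun u => ?_,
    fun i hi j hj ne => ?_, fun u hu w hw => ?_⟩, h1⟩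
  · exact out _ ((mc _).mp h).1 ((mc _).mp h).2 (mem_im.mpr ⟨i, hi, rfl⟩)
  · have hj : (t.1, t.2.2) ∈ J := h1 ▸ List.mem_map.mpr ⟨t, ht, rfl⟩
    refine ⟨(hJ _ hj).1, (hJ _ hj).2, fun e => ?_⟩
    have yf : y ∉ r.filter nz := fun h => yr (List.mem_filter.mp h).1
    refine blk_ne y (r.filter nz) y (List.nodup_cons.mpr ⟨yf, nr.filter _⟩) yf (fun e0 => ?_)
      (Prod.map σ σ (t.1, t.2.2)) (hm ▸ List.mem_map.mpr ⟨_, hj, rfl⟩) (congrArg σ e)
    rw [List.countP_eq_length_filter, e0] at h2
    simp at h2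
  · rw [cov, mc, mem_im]
  · have e := bb _ (mem_im.mpr ⟨i, hi, rfl⟩) _ (mem_im.mpr ⟨j, hj, rfl⟩) (pl i hi j hj ne).1
    rw [(pl i hi j hj ne).2] at e
    rw [hx]
    unfold cy at e
    revert e
    generalize G (σ i) (σ j) = x1
    generalize A i j = x2
    generalize pe (y :: r.filter nz ++ [y]) (σ i) (σ j) = x3
    generalize pe (y :: r ++ [y]) (σ i) (σ j) = x4
    cases x1 <;> cases x2 <;> cases x3 <;> cases x4 <;> simp
  · obtain ⟨ur, uz⟩ := (mc u).mp hu
    have uy : u ≠ y := fun e => yr (e ▸ ur)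
    have : u ∉ y :: r.filter nz ++ [y] := by simp [uy, uz]
    rw [cb u ur uz w hw, hx, ex_pe_left this]
    simp [cy]

theorem blk_fits {m : ℕ} (hm : 3 ≤ m) : Fits (rim m) (rimJ m) := by
  constructor
  · intro p hp
    obtain ⟨i, hi, rfl⟩ := List.mem_map.mp hp
    have hi' := List.mem_range.mp hi
    have := Nat.mod_lt (i + 1) (show 0 < m by omega)
    simp [rim, hi', this]
  · unfold rimJ
    rw [List.pairwise_map]
    refine (List.pairwise_lt_range (n := m)).imp_of_mem fun {i j} hi hj ij => ?_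
    have hj' := List.mem_range.mp hj
    have e1 : (i + 1) % m = i + 1 := Nat.mod_eq_of_lt (by omega)
    have e2 : (j + 1) % m = j + 1 ∨ (j + 1 = m ∧ (j + 1) % m = 0) := by
      rcases Nat.lt_or_ge (j + 1) m with h | h
      · exact Or.inl (Nat.mod_eq_of_lt h)
      · have : j + 1 = m := by omega
        exact Or.inr ⟨this, by rw [this, Nat.mod_self]⟩
    simp only [pr, decide_eq_false_iff_not]
    omega

theorem blk_core (full : StFull V) (bk : StBlk V) (good : StGood V) {t : ℕ} {G : Gr V}
    {S : Finset V} {y : V} {r : List V} {lam : V → Bool} {h z : V} (hG : Sy G)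
    (wf : WF t G S y r lam h z) (ri : Rich t y r lam) (hy : t < 3 → lam y = true) : Lst G S := by
  have nd := wf.nd
  have cf : (r.filter lam).countP lam = r.countP lam := by
    rw [List.countP_filter]; simp
  have wf0 : WF t (form t y (r.filter lam) lam h z) (ext t h z ++ y :: r.filter lam).toFinset y
      (r.filter lam) lam h z :=
    ⟨nd.sublist ((List.Sublist.refl _).append (List.filter_sublist.cons_cons y)),
      fun u => List.mem_toFinset, wf.sup, fun _ _ _ _ _ => rfl⟩
  have ri0 : Rich t y (r.filter lam) lam := by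
    obtain ⟨a, b, c⟩ := ri
    refine ⟨a, by unfold m0 at b ⊢; rw [cf]; exact b, ?_⟩
    rw [List.countP_cons] at c ⊢
    rw [cf]; exact c
  obtain ⟨ok, σ, pl, hS, hJ⟩ := full t _ _ y _ lam h z wf0 ri0
    (fun u hu => (List.mem_filter.mp hu).2) hy
  have c4 : 4 ≤ r.countP lam := by
    have b := ri.2.1
    have b1 : (lam y).toNat ≤ 1 := by cases lam y <;> simp
    unfold m0 thr at b
    split_ifs at b <;> omega
  have m5 : 5 ≤ (r.filter lam).length + 1 := by
    rw [← List.countP_eq_length_filter]; omega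
  have mi : ∀ u, u ∈ im σ (seqG t ((r.filter lam).length + 1)).n ↔
      u ∈ ext t h z ++ y :: r.filter lam := fun u => by rw [← hS, List.mem_toFinset]
  have nd2 : (y :: r).Nodup := (List.nodup_append.mp nd).2.1
  have dj : ∀ u ∈ r, u ∉ ext t h z ∧ u ≠ y := fun u hu =>
    ⟨fun h1 => (List.nodup_append.mp nd).2.2 u h1 u (List.mem_cons_of_mem _ hu) rfl,
      fun e => (List.nodup_cons.mp nd2).1 (e ▸ hu)⟩
  have sub : ∀ u, u ∈ ext t h z ++ y :: r.filter lam → u ∈ S := fun u hu =>
    (wf.cov u).mpr (((List.Sublist.refl _).append (List.filter_sublist.cons_cons y)).subset hu)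
  refine (bk G _ S y r lam σ _ _ _ nd2 (by omega) pl (fun p hp => ?_) hJ
    (fun u => ?_) (fun u hu hl => ?_) (fun u hu w hw ne => ?_) (fun u hu hl w hw => ?_)).elim
    fun P hP => good _ (Listed.seq t _ ok) G S σ P hG hP.1 (hP.2 ▸ blk_fits (by omega))
  · obtain ⟨i, hi, rfl⟩ := List.mem_map.mp hp
    have hi' := List.mem_range.mp hi
    have := Nat.mod_lt (i + 1) (show 0 < (r.filter lam).length + 1 by omega)
    simp only [seqG]
    omega
  · rw [wf.cov, mi]
    cases hl : lam u <;> simp [hl, or_assoc]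
  · rw [mi]
    simp [(dj u hu).1, (dj u hu).2, hl]
  · rw [wf.adj u (sub u ((mi u).mp hu)) w (sub w ((mi w).mp hw)) ne]
    unfold form
    generalize cy y r u w = x1
    generalize cy y (r.filter lam) u w = x2
    generalize (kap t && la t lam h z u && la t lam h z w) = x3
    generalize (al t h y u && la t lam h z w) = x4
    generalize (al t h y w && la t lam h z u) = x5
    cases x1 <;> cases x2 <;> cases x3 <;> cases x4 <;> cases x5 <;> rfl
  · by_cases e : u = w
    · subst e
      rw [hG.2]; exact (ex_pe_diag _ u).symm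
    have uS : u ∈ S := (wf.cov u).mpr (List.mem_append_right _ (List.mem_cons_of_mem _ hu))
    obtain ⟨d1, d2⟩ := dj u hu
    have l0 : la t lam h z u = false := by
      unfold ext at d1
      unfold la
      split_ifs at d1 with t1 t4
      · simp [hl, t1]
      · simp at d1; simp [hl, d1.1, d1.2]
      · simp at d1; simp [hl, d1, t4]
    have a0 : al t h y u = false := by
      unfold ext at d1
      unfold al
      split_ifs at d1 with t1 t4
      · simp [t1]
      · simp at d1; simp [d1.1, d2]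
      · simp at d1; simp [d1, d2]
    rw [wf.adj u uS w hw e]
    simp [form, l0, a0]

theorem lwLst (V : Type) [DecidableEq V] (full : StFull V) (bk : StBlk V) (good : StGood V)
    (wd : StWd V) : StLwLst V := by
  rintro G S hG ⟨t, y, r, lam, h, z, wf, ri⟩
  by_cases hy : t < 3 → lam y = true
  · exact blk_core full bk good hG wf ri hy
  push Not at hy
  obtain ⟨t3, ly⟩ := hy
  have ly' : lam y = false := by simpa using ly
  obtain ⟨a, b, c⟩ := ri
  have pos : 0 < r.countP lam := by
    unfold m0 thr at b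
    rw [if_pos t3, ly'] at b
    simp only [Bool.toNat_false] at b
    split_ifs at b <;> omega
  obtain ⟨q, hq, lq⟩ := List.countP_pos_iff.mp pos
  obtain ⟨r1, r2, rfl⟩ := List.append_of_mem hq
  refine blk_core full bk good hG (wd.rot t3 wf) ⟨a, ?_, ?_⟩ fun _ => lq
  · unfold m0 at b ⊢
    rw [if_pos t3] at b ⊢
    simp only [List.countP_append, List.countP_cons, ly', lq] at b ⊢
    simp at b ⊢
    omega
  · have : (q :: (r2 ++ y :: r1)).countP lam = (y :: (r1 ++ q :: r2)).countP lam := by
      simp only [List.countP_append, List.countP_cons]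
      omega
    rw [this]; exact c

end Pool.Agent.Lib.MP_d7353d_co.U
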