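import Pool.Agent.Lib.MP_d7353d_co.U1
import Pool.Agent.Lib.MP_d7353d_co.UEx1

/-! Long words are closed under one local complementation. -/

namespace Pool.Agent.Lib.MP_d7353d_co.U

open T

set_option linter.unusedSectionVars false
set_option linter.unusedSimpArgs false
set_option linter.unusedVariables false

variable {V : Type} [DecidableEq V]

/-- toggle at `p` -/
def tgl (f : V → Bool) (p : V) : V → Bool := fun u => f u ^^ decide (u = p)

theorem tgl_not {l : List V} {p : V} (f : V → Bool) (h : p ∉ l) : l.countP (tgl f p) = l.countP f :=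
  List.countP_congr fun u hu => by
    have : u ≠ p := fun e => h (e ▸ hu)
    simp [tgl, this]

theorem tgl_mem {l : List V} {p : V} (f : V → Bool) (nd : l.Nodup) (h : p ∈ l) :
    l.countP (tgl f p) + 1 = l.countP f ∨ l.countP (tgl f p) = l.countP f + 1 := by
  obtain ⟨a, b, rfl⟩ := List.append_of_mem h
  have n := List.nodup_middle.1 nd
  rw [List.nodup_cons, List.mem_append, not_or] at n
  simp only [List.countP_append, List.countP_cons, tgl_not f n.1.1, tgl_not f n.1.2]
  cases e : f p <;> simp [tgl, e] <;> omega

theorem tgl_le {l : List V} (p : V) (f : V → Bool) (nd : l.Nodup) :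
    l.countP f ≤ l.countP (tgl f p) + 1 := by
  by_cases h : p ∈ l
  · have := tgl_mem f nd h; omega
  · rw [tgl_not f h]; omega

theorem cw_pe_end {l : List V} {p s : V} (h : s ∉ l ++ [p]) (u : V) :
    pe (l ++ [p] ++ [s]) s u = decide (u = p) := by
  have e : l ++ [p] ++ [s] = l ++ p :: [s] := by simp
  have ne : s ≠ p := fun e => h (by simp [e])
  rw [e, ex_pe_append, ex_pe_left h, ex_pe_cons, ex_ed_snd ne, ex_pe_one]
  simp

theorem cw_pe_start {l : List V} {q s : V} (h : s ∉ q :: l) (u : V) :
    pe (s :: q :: l) s u = decide (u = q) := by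
  have ne : s ≠ q := fun e => h (by simp [e])
  rw [ex_pe_cons, ex_pe_left h, ex_ed_fst ne]
  simp

theorem cw_nb {y s p q : V} {r1 r2 l1 l2 : List V} (nd : (y :: (r1 ++ s :: r2)).Nodup)
    (e1 : y :: r1 = l1 ++ [p]) (e2 : r2 ++ [y] = q :: l2) (u : V) :
    cy y (r1 ++ s :: r2) s u = (decide (u = p) ^^ decide (u = q)) := by
  have e : y :: (r1 ++ s :: r2) ++ [y] = (l1 ++ [p]) ++ s :: q :: l2 := by
    rw [← e1, ← e2]; simp
  have n : s ∉ (y :: r1) ++ r2 := (List.nodup_cons.1 ((List.nodup_middle (l₁ := y :: r1)).1 nd)).1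
  rw [cy, e, ex_pe_append, cw_pe_end, cw_pe_start]
  · rw [← e2]; simp at n ⊢; tauto
  · rw [← e1]; simp at n ⊢; tauto

theorem cw_nby {y p q : V} {r l1 l2 : List V} (n : y ∉ r) (e1 : r = l1 ++ [p]) (e2 : r = q :: l2)
    (u : V) : cy y r y u = (decide (u = q) ^^ decide (u = p)) := by
  have ne : y ≠ q := fun e => n (by simp [e2, e])
  have e : y :: r ++ [y] = y :: q :: (l2 ++ [y]) := by rw [e2]; rfl
  have e' : q :: (l2 ++ [y]) = l1 ++ [p] ++ [y] := by rw [← e1, e2]; rfl
  rw [cy, e, ex_pe_cons, ex_ed_fst ne, e', cw_pe_end (e1 ▸ n)]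

theorem rich_of {t : ℕ} {y : V} {r : List V} {lam : V → Bool} (h1 : t < 5) (h2 : 6 ≤ r.countP lam)
    (h3 : okp t ((y :: r).countP lam)) : Rich t y r lam := by
  refine ⟨h1, ?_, h3⟩
  unfold thr m0
  split_ifs <;> omega

theorem m0_le (t : ℕ) (y : V) (r : List V) (lam : V → Bool) : m0 t y r lam ≤ r.countP lam + 1 := by
  unfold m0
  split_ifs
  · cases lam y <;> simp
  · omega

theorem WF.ndr {t : ℕ} {G : Gr V} {S : Finset V} {y : V} {r : List V} {lam : V → Bool} {h z : V}
    (w : WF t G S y r lam h z) : (y :: r).Nodup := (List.nodup_append.1 w.nd).2.1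

theorem cw_last (a : V) (l : List V) : ∃ l1 p, a :: l = l1 ++ [p] :=
  ⟨_, _, (List.dropLast_append_getLast (List.cons_ne_nil a l)).symm⟩

theorem cw_first (a : V) (l : List V) : ∃ q l2, l ++ [a] = q :: l2 := by
  cases l with
  | nil => exact ⟨a, [], rfl⟩
  | cons b l => exact ⟨b, l ++ [a], rfl⟩

/-- contraction at a vertex of `r`, when the letter is `0` or there is no complement -/
theorem cw_rim (wd : StWd V) (idS : StId V) {t : ℕ} {G : Gr V} {S : Finset V} {y s h z : V}
    {r1 r2 : List V} {lam : V → Bool} (hG : Sy G) (w : WF t G S y (r1 ++ s :: r2) lam h z)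
    (t5 : t < 5) (c : 9 ≤ (r1 ++ s :: r2).countP lam) (k : okp t ((y :: (r1 ++ s :: r2)).countP lam))
    (hk : lam s = true → kap t = false) : LW (lc G s) (S.erase s) := by
  cases e : lam s
  · refine ⟨t, y, _, lam, h, z, wd.zero hG w e, rich_of t5 ?_ ?_⟩
    · simp [List.countP_cons, e] at c ⊢; omega
    · simpa [List.countP_cons, e] using k
  · have w' := idS.i1 hG (hk e) w e
    obtain ⟨l1, p, e1⟩ := cw_last y r1
    obtain ⟨q, l2, e2⟩ := cw_first y r2
    have nd := w'.ndr
    have hp : p ∈ y :: (r1 ++ r2) := by
      have : p ∈ y :: r1 := by rw [e1]; simp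
      simp at this ⊢; tauto
    have hq : q ∈ y :: (r1 ++ r2) := by
      have : q ∈ r2 ++ [y] := by rw [e2]; simp
      simp at this ⊢; tauto
    have c' : (r1 ++ s :: r2).countP lam = (r1 ++ r2).countP lam + 1 := by
      simp [List.countP_cons, e]; omega
    have a1 := tgl_le p lam (List.nodup_cons.1 nd).2
    have a2 := tgl_le q (tgl lam p) (List.nodup_cons.1 nd).2
    by_cases t3 : 3 ≤ t
    · have f : (fun u => lam u ^^ cy y (r1 ++ s :: r2) s u ^^ (decide (3 ≤ t) && decide (u = y))) =
          tgl (tgl (tgl lam p) q) y := by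
        funext u; simp [tgl, cw_nb w.ndr e1 e2, t3]
      rw [f] at w'
      refine ⟨t, y, _, _, h, z, w', rich_of t5 ?_ ?_⟩
      · rw [tgl_not _ (List.nodup_cons.1 nd).1]; omega
      · have b1 := tgl_mem lam nd hp
        have b2 := tgl_mem (tgl lam p) nd hq
        have b3 := tgl_mem (tgl (tgl lam p) q) nd List.mem_cons_self
        have c2 : (y :: (r1 ++ s :: r2)).countP lam = (y :: (r1 ++ r2)).countP lam + 1 := by
          simp only [List.countP_cons, c']; omega
        rw [c2] at k
        unfold okp at k ⊢
        omega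
    · have f : (fun u => lam u ^^ cy y (r1 ++ s :: r2) s u ^^ (decide (3 ≤ t) && decide (u = y))) =
          tgl (tgl lam p) q := by
        funext u; simp [tgl, cw_nb w.ndr e1 e2, t3]
      rw [f] at w'
      refine ⟨t, y, _, _, h, z, w', rich_of t5 (by omega) (.inl ?_)⟩
      have := hk e
      simp [kap] at this
      omega

/-- contraction at the second vertex, with complement -/
theorem cw_kap (idS : StId V) {t : ℕ} {G : Gr V} {S : Finset V} {y s h z : V}
    {r : List V} {lam : V → Bool} (hG : Sy G) (w : WF t G S y (s :: r) lam h z)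
    (c : 9 ≤ (s :: r).countP lam) (k : okp t ((y :: s :: r).countP lam))
    (e : lam s = true) (hk : kap t = true) : LW (lc G s) (S.erase s) := by
  have len := List.countP_le_length (p := lam) (l := s :: r)
  match r, len with
  | [], len => simp at len c; omega
  | [_], len => simp only [List.length_cons, List.length_nil] at len; omega
  | [_, _], len => simp only [List.length_cons, List.length_nil] at len; omega
  | q :: a :: b :: r, _ =>
    have w' := idS.i2 hG hk (by simp) w e
    have nd := w.ndr
    have nb := cw_nb (r1 := [s]) (l1 := [y]) (p := s) (q := a) (l2 := b :: r ++ [y]) nd rfl rfl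
    have t12 : t = 1 ∨ t = 2 := by simpa [kap] using hk
    have nd' := nd
    simp only [List.nodup_cons] at nd'
    have cg : (a :: b :: r).countP (fun u => if u = y then !(lam y ^^ lam q) else
        if u = q then false else (lam u ^^ cy y (s :: q :: a :: b :: r) q u)) =
        (a :: b :: r).countP (tgl lam a) := List.countP_congr fun u hu => by
      have n1 : u ≠ y := fun x => nd'.1 (by rw [← x]; simp at hu ⊢; tauto)
      have n2 : u ≠ q := fun x => nd'.2.2.1 (x ▸ hu)
      have n3 : u ≠ s := fun x => nd'.2.1 (by rw [← x]; simp at hu ⊢; tauto)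
      have := nb u
      simp only [List.cons_append, List.nil_append] at this
      simp [n1, n2, n3, tgl, this]
    have b1 := tgl_mem lam (l := a :: b :: r) nd.of_cons.of_cons.of_cons List.mem_cons_self
    generalize a :: b :: r = R at *
    refine ⟨t + 2, y, _, _, q, h, w', rich_of (by omega) ?_ ?_⟩
    · rw [cg]
      simp only [List.countP_cons] at c
      split_ifs at c <;> omega
    · rw [List.countP_cons, cg]
      simp only [List.countP_cons, e] at k
      unfold okp at k ⊢
      revert k
      cases lam y <;> cases lam q <;> simp <;> omega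

theorem cw_rot (wd : StWd V) {t : ℕ} {G : Gr V} {S : Finset V} {y s h z : V} {r : List V}
    {lam : V → Bool} (t3 : t < 3) (w : WF t G S y r lam h z) (hr : r ≠ []) (hs : s ∈ y :: r) :
    ∃ y' r', WF t G S y' (s :: r') lam h z ∧ (y' :: s :: r').Perm (y :: r) := by
  rcases List.mem_cons.1 hs with rfl | hs
  · obtain ⟨r', x, rfl⟩ := (List.eq_nil_or_concat' r).resolve_left hr
    refine ⟨x, r', wd.rot (r2 := []) t3 w, ?_⟩
    exact (List.perm_append_comm (l₁ := [x]) (l₂ := s :: r'))
  · obtain ⟨r1, r2, rfl⟩ := List.append_of_mem hs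
    rcases List.eq_nil_or_concat' r1 with rfl | ⟨r', x, rfl⟩
    · exact ⟨y, r2, w, .refl _⟩
    · rw [List.append_assoc] at w
      refine ⟨x, r2 ++ y :: r', wd.rot t3 w, ?_⟩
      have := List.perm_append_comm (l₁ := x :: s :: r2) (l₂ := y :: r')
      simpa using this

theorem cw_z {G : Gr V} {S : Finset V} {y h z : V} {r : List V} {lam : V → Bool} (hG : Sy G)
    (w : WF 4 G S y r lam h z) : WF 3 (lc G z) (S.erase z) y r (tgl lam y) h z := by
  have nd := w.nd
  have cov := w.cov
  have sup := w.sup
  simp only [ext] at nd cov sup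
  simp at nd cov sup
  have hz : z ∈ S := (cov z).2 (by simp)
  have zn : z ∉ y :: r ++ [y] := by simp; tauto
  have row : ∀ u ∈ S.erase z, G z u = (decide (u = h) ^^ decide (u = y)) := fun u hu => by
    have n := Finset.ne_of_mem_erase hu
    rw [w.adj z hz u (Finset.mem_of_mem_erase hu) n.symm]
    have a : z ≠ h := fun e => nd.1.1 e.symm
    have b : cy y r z u = false := ex_pe_left zn u
    simp [form, b, kap, al, la, sup.2, a, nd.2.1.1]
  refine ⟨?_, fun u => ?_, fun u hu => ?_, fun u hu v hv ne => ?_⟩
  · simp [ext]; tauto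
  · rw [Finset.mem_erase, cov]
    simp [ext]
    constructor
    · tauto
    · rintro (rfl | rfl | x)
      · tauto
      · exact ⟨fun e => nd.2.1.1 e.symm, by tauto⟩
      · exact ⟨fun e => nd.2.1.2 (e ▸ x), by tauto⟩
  · simp [ext] at hu
    simp [tgl, hu, sup.1, nd.1.2.1]
  · have n1 := Finset.ne_of_mem_erase hu
    have n2 := Finset.ne_of_mem_erase hv
    rw [lc, if_neg ne, hG.1 u z, row u hu, row v hv,
      w.adj u (Finset.mem_of_mem_erase hu) v (Finset.mem_of_mem_erase hv) ne]
    have hy := nd.1.2.1
    have x1 : (decide (u = h) && decide (v = h)) = false := by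
      simp only [Bool.and_eq_false_iff, decide_eq_false_iff_not]
      by_contra x; push Not at x; exact ne (x.1.trans x.2.symm)
    have x2 : (decide (u = y) && decide (v = y)) = false := by
      simp only [Bool.and_eq_false_iff, decide_eq_false_iff_not]
      by_contra x; push Not at x; exact ne (x.1.trans x.2.symm)
    have x3 : ∀ a, (decide (a = h) && decide (a = y)) = false := fun a => by
      simp only [Bool.and_eq_false_iff, decide_eq_false_iff_not]
      by_contra x; push Not at x; exact hy (x.1.symm.trans x.2)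
    have x4 := x3 u
    have x5 := x3 v
    simp only [form, kap, al, la, tgl, n1, n2]
    revert x1 x2 x4 x5
    generalize cy y r u v = c
    generalize decide (u = h) = a1
    generalize decide (u = y) = a2
    generalize decide (v = h) = a3
    generalize decide (v = y) = a4
    generalize lam u = a5
    generalize lam v = a6
    revert c a1 a2 a3 a4 a5 a6
    decide

theorem cW (wd : StWd V) (idS : StId V) (nonW : StNonW V) : StCW V := by
  intro t G S y r lam h z w hG wf ⟨t5, _, k⟩ big hw mn _
  have kill : LW (lc G w) (S.erase w) → LW (lc G w) S := fun x =>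
    absurd (mn.2 w hw) (nonW _ _ (hG.lc w) x)
  have c : 9 ≤ r.countP lam := by have := m0_le t y r lam; omega
  have nd := wf.ndr
  have hr : r ≠ [] := by rintro rfl; simp at c
  have fl := tgl_mem lam nd List.mem_cons_self
  have fl' := tgl_not lam (List.nodup_cons.1 nd).1
  rcases List.mem_append.1 ((wf.cov w).1 hw) with x | x
  · have t' : t = 0 ∨ t = 1 ∨ t = 2 ∨ t = 3 ∨ t = 4 := by omega
    rcases t' with rfl | rfl | rfl | rfl | rfl
    · obtain rfl : w = h := by simpa [ext] using x
      have w2 := (idS.i5 hG).1 wf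
      by_cases ev : (y :: r).countP lam % 2 = 0
      · exact kill ⟨1, y, r, lam, w, z, (idS.i5 (hG.lc w)).2.2 w2,
          rich_of (by omega) (by omega) (by simp [okp, ev])⟩
      · exact ⟨2, y, r, lam, w, z, w2, rich_of (by omega) (by omega) (by simp [okp, ev])⟩
    · simp [ext] at x
    · obtain rfl : w = h := by simpa [ext] using x
      exact ⟨0, y, r, lam, w, z, (idS.i5 hG).2.1 wf, rich_of (by omega) (by omega) (.inl rfl)⟩
    · obtain rfl : w = h := by simpa [ext] using x
      refine kill ⟨1, y, r, tgl lam y, z, z, idS.i3 (t := 1) hG rfl wf,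
        rich_of (by omega) (by omega) ?_⟩
      unfold okp at k ⊢; omega
    · have x' : w = h ∨ w = z := by simpa [ext] using x
      rcases x' with rfl | rfl
      · refine kill ⟨2, y, r, tgl lam y, z, z, idS.i3 (t := 2) hG rfl wf,
          rich_of (by omega) (by omega) ?_⟩
        unfold okp at k ⊢; omega
      · refine kill ⟨3, y, r, tgl lam y, h, w, cw_z hG wf, rich_of (by omega) (by omega) ?_⟩
        unfold okp at k ⊢; omega
  · by_cases t3 : t < 3
    · obtain ⟨y', r', w', pm⟩ := cw_rot wd t3 wf hr x
      have pc := pm.countP_eq lam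
      have c' : 9 ≤ (w :: r').countP lam := by
        have : m0 t y r lam = (y :: r).countP lam := by
          rw [m0, if_pos t3, List.countP_cons]; cases lam y <;> rfl
        rw [this, ← pc, List.countP_cons] at big
        split_ifs at big <;> omega
      rw [← pc] at k
      by_cases b : lam w = true ∧ kap t = true
      · exact kill (cw_kap idS hG w' c' k b.1 b.2)
      · exact kill (cw_rim wd idS (r1 := []) hG w' t5 c' k fun e => by simpa [e] using b)
    · rcases List.mem_cons.1 x with rfl | x
      · obtain ⟨t0, rfl⟩ : ∃ t0, t = t0 + 2 := ⟨t - 2, by omega⟩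
        have hk : kap t0 = true := by simp [kap]; omega
        have w' := idS.i4 hG hk wf
        obtain ⟨q, l2, e2⟩ := List.exists_cons_of_ne_nil hr
        obtain ⟨l1, p, e1⟩ := (List.eq_nil_or_concat' r).resolve_left hr
        have nb := cw_nby (List.nodup_cons.1 nd).1 e1 e2
        have nh := (List.nodup_cons.1 w'.ndr).1
        have cg : r.countP (fun u => if u = h then !lam w else (lam u ^^ cy w r w u)) =
            r.countP (tgl (tgl lam q) p) := List.countP_congr fun u hu => by
          have n1 : u ≠ h := fun x => nh (x ▸ hu)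
          simp [n1, tgl, nb]
        have b1 := tgl_mem lam (List.nodup_cons.1 nd).2 (p := q) (by simp [e2])
        have b2 := tgl_mem (tgl lam q) (List.nodup_cons.1 nd).2 (p := p) (by simp [e1])
        refine kill ⟨t0, h, r, _, z, z, w', rich_of (by omega) (by rw [cg]; omega) ?_⟩
        rw [List.countP_cons, cg]
        simp only [List.countP_cons] at k
        unfold okp at k ⊢
        revert k
        cases lam w <;> simp <;> omega
      · obtain ⟨r1, r2, rfl⟩ := List.append_of_mem x
        exact kill (cw_rim wd idS hG wf t5 c k fun _ => by simp [kap]; omega)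

end Pool.Agent.Lib.MP_d7353d_co.U
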