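import Pool.Agent.Lib.MP_d7353d_co.UZ00
import Pool.Agent.Lib.MP_d7353d_co.UZ01
import Pool.Agent.Lib.MP_d7353d_co.UZ02
import Pool.Agent.Lib.MP_d7353d_co.UZ03
import Pool.Agent.Lib.MP_d7353d_co.UZ04
import Pool.Agent.Lib.MP_d7353d_co.UZ05
import Pool.Agent.Lib.MP_d7353d_co.UZ06
import Pool.Agent.Lib.MP_d7353d_co.UZ07
import Pool.Agent.Lib.MP_d7353d_co.UZ08
import Pool.Agent.Lib.MP_d7353d_co.UZ09
import Pool.Agent.Lib.MP_d7353d_co.UZ10
import Pool.Agent.Lib.MP_d7353d_co.UZ11
import Pool.Agent.Lib.MP_d7353d_co.UZ12
import Pool.Agent.Lib.MP_d7353d_co.UZ13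
import Pool.Agent.Lib.MP_d7353d_co.UZ14
import Pool.Agent.Lib.MP_d7353d_co.UZ15
import Pool.Agent.Lib.MP_d7353d_co.UZ16
import Pool.Agent.Lib.MP_d7353d_co.UZ17
import Pool.Agent.Lib.MP_d7353d_co.UZ18
import Pool.Agent.Lib.MP_d7353d_co.UZ19
import Pool.Agent.Lib.MP_d7353d_co.UZ20
import Pool.Agent.Lib.MP_d7353d_co.UZ21
import Pool.Agent.Lib.MP_d7353d_co.UZ22
import Pool.Agent.Lib.MP_d7353d_co.UZ23

/-! All certificates together. -/

namespace Pool.Agent.Lib.MP_d7353d_co.U

variable {V : Type} [DecidableEq V]

theorem certT (h : StStep V) : ∀ i < 196, ∀ s ∈ rootT i, Ok V s := by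
  intro i hi
  by_cases c0 : i < 2
  · exact rts_all (at0 h) i (by omega) (by omega)
  by_cases c2 : i < 4
  · exact rts_all (at2 h) i (by omega) (by omega)
  by_cases c4 : i < 7
  · exact rts_all (at4 h) i (by omega) (by omega)
  by_cases c7 : i < 10
  · exact rts_all (at7 h) i (by omega) (by omega)
  by_cases c10 : i < 13
  · exact rts_all (at10 h) i (by omega) (by omega)
  by_cases c13 : i < 16
  · exact rts_all (at13 h) i (by omega) (by omega)
  by_cases c16 : i < 18
  · exact rts_all (at16 h) i (by omega) (by omega)
  by_cases c18 : i < 20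
  · exact rts_all (at18 h) i (by omega) (by omega)
  by_cases c20 : i < 22
  · exact rts_all (at20 h) i (by omega) (by omega)
  by_cases c22 : i < 24
  · exact rts_all (at22 h) i (by omega) (by omega)
  by_cases c24 : i < 26
  · exact rts_all (at24 h) i (by omega) (by omega)
  by_cases c26 : i < 28
  · exact rts_all (at26 h) i (by omega) (by omega)
  by_cases c28 : i < 31
  · exact rts_all (at28 h) i (by omega) (by omega)
  by_cases c31 : i < 34
  · exact rts_all (at31 h) i (by omega) (by omega)
  by_cases c34 : i < 37
  · exact rts_all (at34 h) i (by omega) (by omega)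
  by_cases c37 : i < 41
  · exact rts_all (at37 h) i (by omega) (by omega)
  by_cases c41 : i < 46
  · exact rts_all (at41 h) i (by omega) (by omega)
  by_cases c46 : i < 51
  · exact rts_all (at46 h) i (by omega) (by omega)
  by_cases c51 : i < 55
  · exact rts_all (at51 h) i (by omega) (by omega)
  by_cases c55 : i < 60
  · exact rts_all (at55 h) i (by omega) (by omega)
  by_cases c60 : i < 64
  · exact rts_all (at60 h) i (by omega) (by omega)
  by_cases c64 : i < 70
  · exact rts_all (at64 h) i (by omega) (by omega)
  by_cases c70 : i < 76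
  · exact rts_all (at70 h) i (by omega) (by omega)
  by_cases c76 : i < 80
  · exact rts_all (at76 h) i (by omega) (by omega)
  by_cases c80 : i < 83
  · exact rts_all (at80 h) i (by omega) (by omega)
  by_cases c83 : i < 85
  · exact rts_all (at83 h) i (by omega) (by omega)
  by_cases c85 : i < 87
  · exact rts_all (at85 h) i (by omega) (by omega)
  by_cases c87 : i < 91
  · exact rts_all (at87 h) i (by omega) (by omega)
  by_cases c91 : i < 95
  · exact rts_all (at91 h) i (by omega) (by omega)
  by_cases c95 : i < 99
  · exact rts_all (at95 h) i (by omega) (by omega)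
  by_cases c99 : i < 103
  · exact rts_all (at99 h) i (by omega) (by omega)
  by_cases c103 : i < 108
  · exact rts_all (at103 h) i (by omega) (by omega)
  by_cases c108 : i < 110
  · exact rts_all (at108 h) i (by omega) (by omega)
  by_cases c110 : i < 112
  · exact rts_all (at110 h) i (by omega) (by omega)
  by_cases c112 : i < 115
  · exact rts_all (at112 h) i (by omega) (by omega)
  by_cases c115 : i < 118
  · exact rts_all (at115 h) i (by omega) (by omega)
  by_cases c118 : i < 122
  · exact rts_all (at118 h) i (by omega) (by omega)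
  by_cases c122 : i < 126
  · exact rts_all (at122 h) i (by omega) (by omega)
  by_cases c126 : i < 130
  · exact rts_all (at126 h) i (by omega) (by omega)
  by_cases c130 : i < 136
  · exact rts_all (at130 h) i (by omega) (by omega)
  by_cases c136 : i < 144
  · exact rts_all (at136 h) i (by omega) (by omega)
  by_cases c144 : i < 151
  · exact rts_all (at144 h) i (by omega) (by omega)
  by_cases c151 : i < 158
  · exact rts_all (at151 h) i (by omega) (by omega)
  by_cases c158 : i < 167
  · exact rts_all (at158 h) i (by omega) (by omega)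
  by_cases c167 : i < 174
  · exact rts_all (at167 h) i (by omega) (by omega)
  by_cases c174 : i < 181
  · exact rts_all (at174 h) i (by omega) (by omega)
  by_cases c181 : i < 188
  · exact rts_all (at181 h) i (by omega) (by omega)
  by_cases c188 : i < 192
  · exact rts_all (at188 h) i (by omega) (by omega)
  exact rts_all (at192 h) i (by omega) (by omega)

theorem certF (h : StStep V) : ∀ i < 27, ∀ s ∈ rootF i, Ok V s := by
  intro i hi
  by_cases c0 : i < 18
  · exact rts_all (af0 h) i (by omega) (by omega)
  exact rts_all (af18 h) i (by omega) (by omega)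

theorem certW (h : StStep V) : ∀ i < 80, ∀ s ∈ rootsW i, Ok V s := by
  intro i hi
  by_cases c0 : i < 5
  · exact rts_all (aw0 h) i (by omega) (by omega)
  by_cases c5 : i < 12
  · exact rts_all (aw5 h) i (by omega) (by omega)
  by_cases c12 : i < 13
  · exact rts_all (aw12 h) i (by omega) (by omega)
  by_cases c13 : i < 14
  · exact rts_all (aw13 h) i (by omega) (by omega)
  by_cases c14 : i < 20
  · exact rts_all (aw14 h) i (by omega) (by omega)
  by_cases c20 : i < 21
  · exact rts_all (aw20 h) i (by omega) (by omega)
  by_cases c21 : i < 28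
  · exact rts_all (aw21 h) i (by omega) (by omega)
  by_cases c28 : i < 29
  · exact rts_all (aw28 h) i (by omega) (by omega)
  by_cases c29 : i < 37
  · exact rts_all (aw29 h) i (by omega) (by omega)
  by_cases c37 : i < 44
  · exact rts_all (aw37 h) i (by omega) (by omega)
  by_cases c44 : i < 45
  · exact rts_all (aw44 h) i (by omega) (by omega)
  by_cases c45 : i < 48
  · exact rts_all (aw45 h) i (by omega) (by omega)
  by_cases c48 : i < 49
  · exact rts_all (aw48 h) i (by omega) (by omega)
  by_cases c49 : i < 52
  · exact rts_all (aw49 h) i (by omega) (by omega)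
  by_cases c52 : i < 53
  · exact rts_all (aw52 h) i (by omega) (by omega)
  by_cases c53 : i < 56
  · exact rts_all (aw53 h) i (by omega) (by omega)
  by_cases c56 : i < 57
  · exact rts_all (aw56 h) i (by omega) (by omega)
  by_cases c57 : i < 58
  · exact rts_all (aw57 h) i (by omega) (by omega)
  by_cases c58 : i < 61
  · exact rts_all (aw58 h) i (by omega) (by omega)
  by_cases c61 : i < 62
  · exact rts_all (aw61 h) i (by omega) (by omega)
  by_cases c62 : i < 66
  · exact rts_all (aw62 h) i (by omega) (by omega)
  by_cases c66 : i < 68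
  · exact rts_all (aw66 h) i (by omega) (by omega)
  by_cases c68 : i < 70
  · exact rts_all (aw68 h) i (by omega) (by omega)
  by_cases c70 : i < 72
  · exact rts_all (aw70 h) i (by omega) (by omega)
  by_cases c72 : i < 75
  · exact rts_all (aw72 h) i (by omega) (by omega)
  by_cases c75 : i < 77
  · exact rts_all (aw75 h) i (by omega) (by omega)
  by_cases c77 : i < 79
  · exact rts_all (aw77 h) i (by omega) (by omega)
  exact rts_all (aw79 h) i (by omega) (by omega)

theorem certX (h : StStep V) : ∀ i < 128, ∀ s ∈ rootsX i, Ok V s := by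
  intro i hi
  exact rts_all (ax0 h) i (by omega) (by omega)

theorem clsL_length : clsL.length = 128 := by decide +kernel

theorem cert (h : StStep V) : Cert V :=
  ⟨certT h, certF h, rts_all (ao0 h) 0 (by omega) (by omega), certW h, clsL_length ▸ certX h⟩

end Pool.Agent.Lib.MP_d7353d_co.U
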