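import Pool.Agent.Lib.MP_d7353d_co.U1

/-! Classification of the words without letter `0` from the roots. -/

namespace Pool.Agent.Lib.MP_d7353d_co.U

open T

theorem cls_bit : ∀ t < 5, ∀ mh mz ly my : Bool, ∀ i < ey t + 1, ∀ j < i,
    bit (toM (ey t + 1) (rootA t mh mz ly my)) i j = rootA t mh mz ly my i j ∧
    bit (toM (ey t + 1) (rootA t mh mz ly my)) j i = rootA t mh mz ly my i j := by
  decide +kernel

theorem cls_root : ∀ t < 5, ∀ mh mz ly my : Bool, (t < 3 → ly = true) → (t = 1 → mh = false) →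
    (t ≠ 4 → mz = false) → ∃ i < 80, rootsW i = [rootW t mh mz ly my] := by
  intro t ht mh mz ly my h1 h2 h3
  refine ⟨16 * t + mh.toNat + 2 * mz.toNat + 4 * ly.toNat + 8 * my.toNat, ?_, ?_⟩
  · cases mh <;> cases mz <;> cases ly <;> cases my <;> simp <;> omega
  · interval_cases t <;> cases mh <;> cases mz <;> cases ly <;> cases my <;>
      first
        | rfl
        | (exfalso; simp at h1 h2 h3)

theorem cls_L : ∀ t < 5, ∀ ly : Bool, (rootL t ly).testBit (ey t) = ly ∧
    (t ≠ 1 → (rootL t ly).testBit 1 = decide (t = 2)) ∧ (t = 4 → (rootL t ly).testBit 2 = true) ∧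
    (rootL t ly).testBit 0 = false ∧ rootL t ly < 2 ^ (ey t + 1) := by
  decide +kernel

theorem cls_N : ∀ t < 5, ∀ mh mz my : Bool, (rootN t mh mz my).testBit (ey t) = my ∧
    (t ≠ 1 → (rootN t mh mz my).testBit 1 = mh) ∧ (t = 4 → (rootN t mh mz my).testBit 2 = mz) ∧
    (rootN t mh mz my).testBit 0 = false ∧ rootN t mh mz my < 2 ^ (ey t + 1) := by
  decide +kernel

variable {V : Type} [DecidableEq V]

theorem cls_pe_l : ∀ (l : List V) (u w : V), u ∉ l → pe l u w = false
  | [], _, _, _ => rfl
  | [_], _, _, _ => rfl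
  | a :: b :: l, u, w, h => by
    have h1 : u ≠ a := fun e => h (by simp [e])
    have h2 : u ≠ b := fun e => h (by simp [e])
    have h3 : u ∉ b :: l := fun e => h (List.mem_cons_of_mem _ e)
    show (ed a b u w ^^ pe (b :: l) u w) = false
    rw [cls_pe_l (b :: l) u w h3]
    simp [ed, h1, h2]

theorem cls_pe_r : ∀ (l : List V) (u w : V), w ∉ l → pe l u w = false
  | [], _, _, _ => rfl
  | [_], _, _, _ => rfl
  | a :: b :: l, u, w, h => by
    have h1 : w ≠ a := fun e => h (by simp [e])
    have h2 : w ≠ b := fun e => h (by simp [e])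
    have h3 : w ∉ b :: l := fun e => h (List.mem_cons_of_mem _ e)
    show (ed a b u w ^^ pe (b :: l) u w) = false
    rw [cls_pe_r (b :: l) u w h3]
    simp [ed, h1, h2]

theorem cls_cy_l {y : V} {r : List V} {u : V} (w : V) (h : u ∉ y :: r) : cy y r u w = false :=
  cls_pe_l _ _ _ (by simp at h ⊢; tauto)

theorem cls_cy_r {y : V} {r : List V} (u : V) {w : V} (h : w ∉ y :: r) : cy y r u w = false :=
  cls_pe_r _ _ _ (by simp at h ⊢; tauto)

/-- the placement of `v`, `h`, `z`, `y` -/
def clsS (d : Wd V) (i : ℕ) : V :=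
  if i = 0 then d.v else if i = ey d.t then d.y else if i = 1 then d.h else d.z

theorem cls_mt (d : Wd V) (hd : d.Val) :
    d.Mt (clsS d) d.r (ey d.t + 1)
      (toM (ey d.t + 1) (rootA d.t (decide (d.t ≠ 1) && d.H d.v d.h) (decide (d.t = 4) && d.H d.v d.z)
        (d.lam d.y) (d.H d.v d.y)))
      (rootL d.t (d.lam d.y))
      (rootN d.t (decide (d.t ≠ 1) && d.H d.v d.h) (decide (d.t = 4) && d.H d.v d.z) (d.H d.v d.y))
      0 [] [] := by
  obtain ⟨t, H, S, v, y, r, lam, h, z⟩ := d
  obtain ⟨hH, ⟨hv, W⟩, ⟨ht, -⟩, -, -, -⟩ := hd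
  dsimp only at hH hv W ht ⊢
  have hvn : v ∉ ext t h z ++ y :: r := fun e => Finset.notMem_erase v S ((W.cov v).2 e)
  have hS : ∀ u ∈ ext t h z ++ y :: r, u ∈ S.erase v := fun u e => (W.cov u).2 e
  have hvr : v ∉ y :: r := fun e => hvn (List.mem_append_right _ e)
  have hvy : v ≠ y := fun e => hvr (by simp [e])
  have hyS : y ∈ S.erase v := hS y (by simp)
  have hvv := hH.2 v
  have sy := hH.1
  have key : ∀ u ∈ ext t h z, ∀ w ∈ ext t h z ++ y :: r, u ≠ w →
      H u w = (form t y r lam h z u w ^^ (H v u && H v w)) := by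
    intro u hu w hw ne
    have := W.adj u (hS u (List.mem_append_left _ hu)) w (hS w hw) ne
    rw [← this]
    simp only [lc, if_neg ne, sy u v]
    cases H u w <;> cases H v u <;> cases H v w <;> rfl
  have hnd := W.nd
  have hout : ∀ u ∈ ext t h z, u ∉ y :: r := fun u hu e =>
    (List.nodup_append.1 hnd).2.2 u hu u e rfl
  have hcy : ∀ u ∈ ext t h z, ∀ w, cy y r u w = false ∧ cy y r w u = false := fun u hu w =>
    ⟨cls_cy_l w (hout u hu), cls_cy_r w (hout u hu)⟩
  have hcv : ∀ w, cy y r v w = false ∧ cy y r w v = false := fun w =>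
    ⟨cls_cy_l w hvr, cls_cy_r w hvr⟩
  have hsup := W.sup
  have hb := cls_bit t ht (decide (t ≠ 1) && H v h) (decide (t = 4) && H v z) (lam y) (H v y)
  obtain ⟨L1, L2, L3, L4, L5⟩ := cls_L t ht (lam y)
  obtain ⟨N1, N2, N3, N4, N5⟩ := cls_N t ht (decide (t ≠ 1) && H v h) (decide (t = 4) && H v z) (H v y)
  have hmem : ∀ u ∈ ext t h z, u ∈ S ∧ u ≠ v ∧ u ≠ y := fun u hu =>
    ⟨Finset.mem_of_mem_erase (hS u (List.mem_append_left _ hu)),
      Finset.ne_of_mem_erase (hS u (List.mem_append_left _ hu)),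
      fun e => hout u hu (by simp [e])⟩
  have hyS' := Finset.mem_of_mem_erase hyS
  have main : (∀ i < ey t + 1, ∀ j < i,
      rootA t (decide (t ≠ 1) && H v h) (decide (t = 4) && H v z) (lam y) (H v y) i j =
        H (clsS ⟨t, H, S, v, y, r, lam, h, z⟩ j) (clsS ⟨t, H, S, v, y, r, lam, h, z⟩ i) ∧
      cy y r (clsS ⟨t, H, S, v, y, r, lam, h, z⟩ j) (clsS ⟨t, H, S, v, y, r, lam, h, z⟩ i) = false ∧
      cy y r (clsS ⟨t, H, S, v, y, r, lam, h, z⟩ i) (clsS ⟨t, H, S, v, y, r, lam, h, z⟩ j) = false ∧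
      clsS ⟨t, H, S, v, y, r, lam, h, z⟩ j ≠ clsS ⟨t, H, S, v, y, r, lam, h, z⟩ i) ∧
      (∀ i < ey t + 1, clsS ⟨t, H, S, v, y, r, lam, h, z⟩ i ∈ S ∧
        (0 < i → (rootL t (lam y)).testBit i = la t lam h z (clsS ⟨t, H, S, v, y, r, lam, h, z⟩ i)) ∧
        (rootN t (decide (t ≠ 1) && H v h) (decide (t = 4) && H v z) (H v y)).testBit i =
          H v (clsS ⟨t, H, S, v, y, r, lam, h, z⟩ i)) := by
    by_cases h1 : t = 1
    · subst h1
      constructor
      · intro i hi j hj
        have e : ey 1 = 1 := rfl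
        have : i = 1 := by omega
        have : j = 0 := by omega
        subst i j
        simp [clsS, ey, rootA, hcv, hvy]
      · intro i hi
        have e : ey 1 = 1 := rfl
        have : i = 0 ∨ i = 1 := by omega
        rw [e] at L1 N1
        rcases this with rfl | rfl
        · exact ⟨by simpa [clsS] using hv, by omega, by rw [N4]; simp [clsS, hvv]⟩
        · exact ⟨by simpa [clsS, ey] using hyS', fun _ => by rw [L1]; simp [clsS, ey, la],
            by rw [N1]; simp [clsS, ey]⟩
    have hh : h ∈ ext t h z := by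
      unfold ext; rw [if_neg h1]; split <;> simp
    obtain ⟨a1, a2, a3⟩ := hmem h hh
    have l1 := hsup h hh
    have k1 := key h hh y (by simp) a3
    have c1 := hcy h hh
    by_cases h4 : t = 4
    · subst h4
      have hz : z ∈ ext 4 h z := by simp [ext]
      obtain ⟨b1, b2, b3⟩ := hmem z hz
      have l2 := hsup z hz
      have hz' : h ≠ z := by
        have := (List.nodup_append.1 hnd).1
        simpa [ext] using this
      have k2 := key z hz y (by simp) b3
      have k3 := key h hh z (List.mem_append_left _ hz) hz'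
      have c2 := hcy z hz
      have e : ey 4 = 3 := rfl
      simp [form, kap, al, la, c1, c2, l1, l2, a3, a3.symm, b3, b3.symm, hz', hz'.symm] at k1 k2 k3
      constructor
      · intro i hi j hj
        have : i ≤ 3 := by omega
        interval_cases i <;> interval_cases j <;>
          simp [clsS, ey, rootA, hcv, c1, c2, hvy, a2.symm, b2.symm, a3, b3, hz', k1, k2, k3,
            Bool.and_comm, Bool.or_comm]
      · intro i hi
        have : i ≤ 3 := by omega
        rw [e] at L1 N1
        interval_cases i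
        · exact ⟨by simpa [clsS] using hv, by omega, by rw [N4]; simp [clsS, hvv]⟩
        · exact ⟨by simpa [clsS, ey] using a1, fun _ => by rw [L2 h1]; simp [clsS, ey, la, l1, hz'],
            by rw [N2 h1]; simp [clsS, ey]⟩
        · exact ⟨by simpa [clsS, ey] using b1, fun _ => by rw [L3 rfl]; simp [clsS, ey, la, l2],
            by rw [N3 rfl]; simp [clsS, ey]⟩
        · exact ⟨by simpa [clsS, ey] using hyS', fun _ => by rw [L1]; simp [clsS, ey, la, b3.symm],
            by rw [N1]; simp [clsS, ey]⟩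
    · have e : ey t = 2 := by simp [ey, h1, h4]
      have : t = 0 ∨ t = 2 ∨ t = 3 := by omega
      constructor
      · intro i hi j hj
        have : i ≤ 2 := by omega
        rcases ‹t = 0 ∨ t = 2 ∨ t = 3› with rfl | rfl | rfl <;>
          simp [form, kap, al, la, c1, l1, a3, a3.symm] at k1 <;>
          interval_cases i <;> interval_cases j <;>
          simp [clsS, ey, rootA, hcv, c1, hvy, a2.symm, a3, k1, Bool.and_comm]
      · intro i hi
        have : i ≤ 2 := by omega
        rw [e] at L1 N1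
        interval_cases i
        · exact ⟨by simpa [clsS] using hv, by omega, by rw [N4]; simp [clsS, hvv]⟩
        · exact ⟨by simpa [clsS, e] using a1, fun _ => by rw [L2 h1]; simp [clsS, e, la, l1, h4],
            by rw [N2 h1]; simp [clsS, e, h1]⟩
        · exact ⟨by simpa [clsS, e] using hyS',
            fun _ => by rw [L1]; simp [clsS, e, la, a3.symm, h4], by rw [N1]; simp [clsS, e]⟩
  have e0 : ey t ≠ 0 := by unfold ey; split_ifs <;> omega
  refine ⟨⟨rfl, fun h1 => ?_, fun h4 => ?_, ?_, Nat.lt_succ_self _, fun i hi j hj e => ?_,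
    fun i hi => (main.2 i hi).1, ?_, fun i hi => (main.2 i hi).2.1, fun i hi => (main.2 i hi).2.2⟩,
    by simp, by simp, by simp, fun i hi hi' => by dsimp only at hi hi'; omega, rfl,
    fun i hi j hj ne => ?_⟩
  · dsimp only at h1
    have : 1 ≠ ey t := by unfold ey; split_ifs <;> omega
    simp [clsS, this]
  · dsimp only at h4
    subst h4
    simp [clsS, ey]
  · simp [clsS, e0]
  · rcases lt_trichotomy i j with l | l | l
    · exact absurd e (main.1 j hj i l).2.2.2
    · exact l
    · exact absurd e.symm (main.1 i hi j l).2.2.2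
  · exact ⟨L5, N5, L4⟩
  · dsimp only at hi hj ⊢
    have p1 : ∀ u w, pe [y] u w = false := fun _ _ => rfl
    simp only [List.reverse_nil, List.map_nil, List.nil_append, p1, Bool.xor_false]
    rcases lt_or_gt_of_ne ne with l | l
    · obtain ⟨m1, m2, -, -⟩ := main.1 j hj i l
      rw [(hb j hj i l).2, m1, m2, Bool.xor_false]
    · obtain ⟨m1, -, m2, -⟩ := main.1 i hi j l
      rw [(hb i hi j l).1, m1, m2, Bool.xor_false, sy]

theorem cls (V : Type) [DecidableEq V] : StCls V := by
  intro hr
  have : ∀ n, ∀ d : Wd V, d.r.length = n → d.Val → d.Fin := by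
    intro n
    induction n using Nat.strong_induction_on with
    | _ n ih =>
      intro d hn hd
      obtain ⟨i, hi, e⟩ := cls_root d.t hd.2.2.1.1 (decide (d.t ≠ 1) && d.H d.v d.h)
        (decide (d.t = 4) && d.H d.v d.z) (d.lam d.y) (d.H d.v d.y) hd.2.2.2.2.1
        (fun h => by simp [h]) (fun h => by simp [h])
      have ok := hr i hi _ (by rw [e]; exact List.mem_singleton_self _)
      exact ok d (clsS d) d.r rfl hd (fun d' h' l => ih _ (hn ▸ l) d' rfl h') (cls_mt d hd)
  exact fun d => this _ d rfl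

end Pool.Agent.Lib.MP_d7353d_co.U
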