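import Pool.Agent.Lib.MP_d7353d_co.U1

/-! Every minimal non-circle graph is listed. -/

namespace Pool.Agent.Lib.MP_d7353d_co.U

open T

variable {V : Type} [DecidableEq V]

/-- a minimal graph that contains one of the three obstructions is equal to it -/
theorem comp_base (mat : StMat) (ex : StEx V) {n : ℕ} {O : Gr ℕ} (hn : n ≤ 32)
    (ok : Ok V (.R n (toM n O) [])) {H : Gr V} {S : Finset V} (hH : Sy H) (hM : Mn H S)
    (non : ∀ S', Emb H S' n O → ¬ Circ H S') (e : Emb H S n O) : Lst H S := by
  obtain ⟨σ, h1, h2⟩ := e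
  have hS : S = im σ n := by
    refine Finset.Subset.antisymm (fun u hu => ?_) fun u hu => ?_
    · by_contra k
      refine non (S.erase u) ⟨σ, fun i hi => Finset.mem_erase.2 ⟨fun x => k ?_, h1 i hi⟩, h2⟩
        (hM.2 u hu)
      exact mem_im.2 ⟨i, hi, x⟩
    · obtain ⟨i, hi, rfl⟩ := mem_im.1 hu
      exact h1 i hi
  have p : Pull H σ n (bit (toM n O)) := fun i hi j hj ne => by
    refine ⟨(h2 i hi j hj ne).1, ?_⟩
    rcases Nat.lt_or_gt_of_ne ne with l | l
    · rw [(mat.toM n O j i hn l hj).2, hH.1, (h2 j hj i hi ne.symm).2]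
    · rw [(mat.toM n O i j hn l hi).1, (h2 i hi j hj ne).2]
  exact ok H S σ [] hH (ex.base.2 ⟨p, hS⟩) rfl hM

theorem complete (cert : Cert V) (obstruct : StObs) (mat : StMat) (non : StNon) (ex : StEx V)
    (l1 : StL1 V) (cS : StC V) : StComplete V := by
  intro G S
  induction hk : S.card using Nat.strong_induction_on generalizing G S with
  | _ k ih =>
  intro hG hM
  obtain ⟨H, l, e⟩ := obstruct V G S hG hM.1
  have hH := l.sy hG
  have base : Mn H S → Lst H S := fun m => by
    rcases e with e | e | e
    · exact comp_base mat ex (by decide) (cert.o _ (by simp [rootO])) hH m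
        (fun S' x => non V H S' hH (Or.inl x)) e
    · exact comp_base mat ex (by decide) (cert.o _ (by simp [rootO])) hH m
        (fun S' x => non V H S' hH (Or.inr (Or.inl x))) e
    · exact comp_base mat ex (by decide) (cert.o _ (by simp [rootO])) hH m
        (fun S' x => non V H S' hH (Or.inr (Or.inr x))) e
  have all : ∀ K, LE S H K → Mn K S → Lst K S := by
    intro K k
    induction k with
    | refl => exact base
    | @step K y hy k ih2 =>
      intro m
      have hK := k.sy hH
      have hK' := hK.lc y
      by_cases c : Con (lc K y) S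
      · refine cS K S y hK hy (ih2 ⟨fun x => m.1 (x.lc hK hy), fun u hu => ?_⟩) m c
        by_cases uy : u = y
        · subst uy
          have := c u hu
          rwa [lc_lc hK] at this
        · have := (m.2 u hu).lc hK' (Finset.mem_erase.2 ⟨Ne.symm uy, hy⟩)
          rwa [lc_lc hK] at this
      · unfold Con at c
        push Not at c
        obtain ⟨v, hv, nc⟩ := c
        refine l1 _ S v hK' hv m (ih _ ?_ _ _ rfl (hK'.lc v) ⟨nc, m.2.lc hK' hv⟩)
        rw [← hk]
        exact Finset.card_erase_lt_of_mem hv
  exact all G (l.symm hG) hM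

end Pool.Agent.Lib.MP_d7353d_co.U
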