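import Pool.Agent.Lib.MP_d7353d_co.US
import Pool.Agent.Lib.MP_d7353d_co.TB

/-! Chains of any length, from chains of length two. -/

namespace Pool.Agent.Lib.MP_d7353d_co.U

open T

theorem delT_lc {V : Type} [DecidableEq V] {G : Gr V} (hG : Sy G) {S : Finset V} (h : Del G S)
    {s : V} (hs : s ∈ S) : Del (lc G s) (S.erase s) := fun u hu => by
  obtain ⟨h1, h2⟩ := Finset.mem_erase.1 hu
  refine ((h u h2).lc hG (Finset.mem_erase.2 ⟨h1.symm, hs⟩)).sub ?_
  rw [Finset.erase_right_comm]
  exact Finset.erase_subset _ _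

/-- distance of the lengths of the chains from two -/
def delT_ms (P : List (Ch ℕ)) : ℕ := (P.map fun t => (t.2.1.length - 2) + (2 - t.2.1.length)).sum

theorem delT (ex : StEx ℕ) (sub : StSub ℕ) : StDelT := by
  intro n M J ok G S σ P
  induction hk : delT_ms P using Nat.strong_induction_on generalizing G S P with
  | _ k ih =>
  intro hG hE hJ
  by_cases all : ∀ t ∈ P, t.2.1.length = 2
  · exact ok G S σ P hG hE hJ all
  push Not at all
  obtain ⟨⟨a, c, b⟩, ht, hl⟩ := all
  obtain ⟨P1, P2, rfl⟩ := List.append_of_mem ht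
  simp only at hl
  by_cases h3 : 3 ≤ c.length
  · obtain ⟨p, s, q, c', rfl⟩ : ∃ p s q c', c = p :: s :: q :: c' := by
      match c, h3 with
      | p :: s :: q :: c', _ => exact ⟨p, s, q, c', rfl⟩
    obtain ⟨b', l2, e2⟩ : ∃ b' l2, c' ++ [σ b] = b' :: l2 := by
      cases c' with
      | nil => exact ⟨_, _, rfl⟩
      | cons x l => exact ⟨x, l ++ [σ b], rfl⟩
    have ns := ex.nbr (c1 := [p]) (s := s) (c2 := q :: c') (l1 := [σ a]) (p := p) (q := q)
      (l2 := c' ++ [σ b]) hG (by simpa using hE) rfl rfl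
    have np := ex.nbr (c1 := []) (s := p) (c2 := s :: q :: c') (l1 := []) (p := σ a) (q := s)
      (l2 := q :: c' ++ [σ b]) hG (by simpa using hE) rfl rfl
    have nq := ex.nbr (c1 := [p, s]) (s := q) (c2 := c') (l1 := [σ a, p]) (p := s) (q := b')
      (l2 := l2) hG (by simpa using hE) rfl e2
    have hs := ex.sup (c1 := [p]) (s := s) (c2 := q :: c') hG (by simpa using hE)
    have qa : q ≠ σ a := fun x => by
      refine hE.dj a (hE.en _ ht).1 ?_
      rw [← x]
      simp [chv]
    refine sub G S (σ a) p s q b' hG ns.2.1 np.2.2.1 ns.2.2.1 ns.1 ns.2.2.2.2.2 ?_ ?_ ?_ ?_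
    · intro w hw g
      rw [np.2.2.2.2.2 w hw] at g
      by_contra x
      push Not at x
      simp [x.1, x.2] at g
    · intro w hw g
      rw [nq.2.2.2.2.2 w hw] at g
      by_contra x
      push Not at x
      simp [x.1, x.2] at g
    · rw [np.2.2.2.2.2 q ns.2.2.1]
      simp [qa, ns.2.2.2.2.1]
    · refine ih _ ?_ _ _ _ rfl (hG.lc s) hs (by simpa [ends] using hJ)
      rw [← hk]
      simp [delT_ms]
  · obtain ⟨f, hf⟩ : ∃ f, f ∉ S := Infinite.exists_notMem_finset S
    obtain ⟨q, l2, e2⟩ : ∃ q l2, c ++ [σ b] = q :: l2 := by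
      cases c with
      | nil => exact ⟨_, _, rfl⟩
      | cons x l => exact ⟨x, l ++ [σ b], rfl⟩
    obtain ⟨h1, h2, h4⟩ := ex.insr (c1 := []) (c2 := c) (l1 := []) (p := σ a) (q := q) (l2 := l2)
      hG hf (by simpa using hE) rfl e2
    have d := ih _ (by
      rw [← hk]
      simp only [delT_ms, List.map_append, List.map_cons, List.sum_append, List.sum_cons,
        List.nil_append, List.length_cons]
      omega) _ _ _ rfl h1 h2 (by simpa [ends] using hJ)
    have d2 := delT_lc h1 d (Finset.mem_insert_self f S)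
    rw [Finset.erase_insert hf] at d2
    intro u hu
    exact (d2 u hu).congr fun x hx y hy _ =>
      (h4 x (Finset.mem_of_mem_erase hx) y (Finset.mem_of_mem_erase hy)).symm

end Pool.Agent.Lib.MP_d7353d_co.U
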