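import Pool.Agent.Lib.MP_d7353d_co.UDelW1

/-! All vertex-deleted subgraphs of the word graphs are circle graphs. -/

namespace Pool.Agent.Lib.MP_d7353d_co.U

open T

set_option linter.unusedSimpArgs false

variable {V : Type} [DecidableEq V]

def bk (h y : V) (b : Bool) : List V := if b = true then [h, y] else [y, h]

omit [DecidableEq V] in
theorem bk_rev (h y : V) (b : Bool) : (bk h y b).reverse = bk h y (!b) := by cases b <;> rfl

theorem bk_par (h y : V) (b : Bool) (u : V) : par (bk h y b) u = (decide (h = u) ^^ decide (y = u)) := by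
  cases b <;> simp [bk, par, Bool.xor_comm]

theorem Op.any {G : Gr V} {S : Finset V} {h y : V} {b : Bool} (k : Op G S (bk h y b)) (c : Bool) :
    Op G S (bk h y c) := by
  by_cases x : c = b
  · exact x ▸ k
  · have := k.rev
    rw [bk_rev] at this
    rwa [show c = !b by cases c <;> cases b <;> simp_all]

theorem dw_two {G : Gr V} (hG : Sy G) {c d : V} (n : c ≠ d) :
    Rep G {c, d} ([c, d] ++ bk c d (G c d)) := by
  obtain ⟨X, k⟩ := op_one G d
  have k : Rep G {d} [d, d] := ⟨fun v => by
    by_cases e : v = d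
    · simp [e]
    · simp [e, List.count_eq_zero],
    fun u hu v hv n => absurd ((Finset.mem_singleton.1 hu).trans (Finset.mem_singleton.1 hv).symm) n⟩
  cases e : G c d
  · exact dw_add0 hG (B := [d, d]) (C := []) (by simpa using n) k fun w hw => by
      rw [Finset.mem_singleton.1 hw, e]; simp [par]
  · exact dw_add0 hG (B := [d]) (C := [d]) (by simpa using n) k fun w hw => by
      rw [Finset.mem_singleton.1 hw, e]; simp [par]

/-- the two hubs and the first vertex of the path -/
theorem dw_capL {G : Gr V} (hG : Sy G) {h y p : V} (n : h ≠ y) (n1 : p ≠ h) (n2 : p ≠ y)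
    (e : G p y = !G p h) : Op G (insert p {h, y}) (p :: bk h y (G p h ^^ G h y)) := by
  have m : p ∉ ({h, y} : Finset V) := by simp [n1, n2]
  cases e1 : G p h
  · have := dw_add hG m (X := [h]) (M := [y]) (dw_two hG n) fun w hw => by
      rcases Finset.mem_insert.1 hw with rfl | hw
      · simp [par, e1, n.symm]
      · rw [Finset.mem_singleton.1 hw]; simp [par, e, e1]
    exact ⟨[h, p, y], by simpa using this⟩
  · have t := dw_two hG n.symm
    rw [Finset.pair_comm, hG.1 y h] at t
    have := dw_add hG m (X := [y]) (M := [h]) t fun w hw => by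
      rcases Finset.mem_insert.1 hw with rfl | hw
      · simp [par, e1]
      · rw [Finset.mem_singleton.1 hw]; simp [par, e, e1, n]
    refine ⟨[y, p, h], ?_⟩
    revert this
    cases G h y <;> simp [bk]

theorem dw_armL {G : Gr V} (hG : Sy G) {h y p : V} {m : List V} (n : h ≠ y) (nd : (p :: m).Nodup)
    (nh : h ∉ p :: m) (ny : y ∉ p :: m) (e : ∀ a ∈ p :: m, ∀ b ∈ p :: m, a ≠ b → G a b = pe (p :: m) a b)
    (ey : ∀ a ∈ p :: m, G a y = (G a h ^^ decide (a = p))) :
    Op G ((p :: m).toFinset ∪ {h, y}) (lst p m :: bk h y (G h y ^^ odd (fun a => G a h) (p :: m))) := by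
  have n1 : p ≠ h := fun x => nh (by simp [x])
  have n2 : p ≠ y := fun x => ny (by simp [x])
  rw [List.nodup_cons] at nd
  have := Op.grow hG (bk_rev h y) (bk_par h y) (f := fun a => G a h) m
    (dw_capL hG n n1 n2 (by simpa using ey p (by simp))) nd.2 (fun q hq x => by
      simp only [Finset.mem_insert, Finset.mem_singleton] at x
      rcases x with rfl | rfl | rfl
      · exact nd.1 hq
      · exact nh (by simp [hq])
      · exact ny (by simp [hq])) fun q hq u hu ne => by
    by_cases x : u ∈ p :: m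
    · have a1 : ¬ h = u := fun z => nh (z ▸ x)
      have a2 : ¬ y = u := fun z => ny (z ▸ x)
      rw [e q (by simp [hq]) u x ne.symm]; simp [a1, a2]
    · have qp : q ≠ p := fun z => nd.1 (z ▸ hq)
      have : u = h ∨ u = y := by simp at hu x; tauto
      rw [dw_pe_right x]
      rcases this with rfl | rfl
      · simp [n.symm]
      · simp [n, ey q (by simp [hq]), qp]
  rw [show (p :: m).toFinset ∪ {h, y} = m.toFinset ∪ insert p {h, y} by ext; simp; tauto]
  rwa [odd, ← Bool.xor_assoc, Bool.xor_comm (G h y)]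

/-- the last vertex of the path -/
theorem dw_capR {G : Gr V} (hG : Sy G) {S : Finset V} {h y p : V} {M : List V} {l : Bool}
    (k : Op G S (M ++ bk h y l)) (hp : p ∉ S)
    (e : ∀ u ∈ S, G p u = (par M u ^^ ((l && decide (h = u)) ^^ (!l && decide (y = u))))) :
    Circ G (insert p S) := by
  cases l
  · exact (Op.cap hG (M := M ++ [y]) (B := [h]) (by simpa [bk] using k) hp fun w hw => by
      rw [e w hw]; simp [par_append, par]).circ
  · exact (Op.cap hG (M := M ++ [h]) (B := [y]) (by simpa [bk] using k) hp fun w hw => by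
      rw [e w hw]; simp [par_append, par]).circ

theorem dw_armR {G : Gr V} (hG : Sy G) {S : Finset V} {h y p : V} {l : List V} {f : V → Bool}
    (k : Op G S (bk h y true)) (nd : (l ++ [p]).Nodup) (hS : ∀ a ∈ l ++ [p], a ∉ S)
    (e : ∀ a ∈ l ++ [p], ∀ b ∈ l ++ [p], a ≠ b → G a b = pe (l ++ [p]) a b)
    (e' : ∀ a ∈ l ++ [p], ∀ u ∈ S,
      G a u = ((f a && decide (h = u)) ^^ ((f a ^^ decide (a = p)) && decide (y = u)))) :
    Circ G ((l ++ [p]).toFinset ∪ S) := by
  have hh : h ∈ S := k.mem (by simp [bk])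
  have hy : y ∈ S := k.mem (by simp [bk])
  have np : p ∉ l := fun x => by simpa using (List.nodup_append.1 nd).2.2 p x p
  have e2 : ∀ a ∈ l, ∀ u ∈ S, G a u = (f a && (decide (h = u) ^^ decide (y = u))) := fun a ha u hu => by
    have : a ≠ p := fun x => np (x ▸ ha)
    rw [e' a (by simp [ha]) u hu]
    cases f a <;> simp [this]
  cases l with
  | nil =>
    have := dw_capR hG (M := []) (k.any (f p)) (hS p (by simp)) fun u hu => by
      rw [e' p (by simp) u hu]; simp [par]
    simpa using this
  | cons q m =>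
    have nd' := List.nodup_cons.1 (List.nodup_append.1 nd).1
    have k1 := Op.start hG (bk_rev h y) (bk_par h y) k (hS q (by simp)) (e2 q (by simp))
      (f p ^^ odd f m)
    have k2 := Op.grow hG (bk_rev h y) (bk_par h y) (f := f) m k1 nd'.2 (fun a ha x => by
        rcases Finset.mem_insert.1 x with rfl | x
        · exact nd'.1 ha
        · exact hS a (by simp [ha]) x) fun a ha u hu ne => by
      by_cases x : u ∈ q :: m
      · have a1 : ¬ h = u := fun z => hS u (by simp at x ⊢; tauto) (z ▸ hh)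
        have a2 : ¬ y = u := fun z => hS u (by simp at x ⊢; tauto) (z ▸ hy)
        have a3 : a ≠ p := fun z => np (by simp [← z, ha])
        have a4 : u ≠ p := fun z => np (z ▸ x)
        rw [e a (by simp [ha]) u (by simp at x ⊢; tauto) ne.symm, dw_pe_concat _ a3 a4]
        simp [a1, a2]
      · rw [dw_pe_right x, e2 a (by simp [ha]) u (by simp at hu x; tauto)]; simp
    rw [Bool.xor_assoc, Bool.xor_self, Bool.xor_false] at k2
    have := dw_capR hG (M := [lst q m]) (p := p) k2 (by
      have := hS p (by simp)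
      simp at np ⊢; tauto) fun u hu => by
      by_cases x : u ∈ q :: m
      · have a1 : ¬ h = u := fun z => hS u (by simp at x ⊢; tauto) (z ▸ hh)
        have a2 : ¬ y = u := fun z => hS u (by simp at x ⊢; tauto) (z ▸ hy)
        have a3 : p ≠ u := fun z => np (z ▸ x)
        have a4 : p ≠ lst q m := fun z => np (z ▸ lst_mem m q)
        rw [e p (by simp) u (by simp at x ⊢; tauto) a3, dw_pe_snoc, dw_pe_left np]
        simp only [a1, a2, ed, par, a4, decide_false, decide_true]
        by_cases z : u = lst q m <;> simp [z, Ne.symm]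
      · have a4 : ¬ lst q m = u := fun z => x (z ▸ lst_mem m q)
        rw [e' p (by simp) u (by simp at hu x; tauto)]; simp [par, a4]
    rwa [show (q :: m ++ [p]).toFinset ∪ S = insert p (m.toFinset ∪ insert q S) by ext; simp; tauto]

theorem dw_cy_in {y a b : V} {r : List V} (ha : a ≠ y) (hb : b ≠ y) : cy y r a b = pe r a b := by
  rw [cy, List.cons_append, dw_pe_cons _ ha hb, dw_pe_concat _ ha hb]

theorem dw_cy_y {y a p : V} {m : List V} (ha : a ≠ y) (hy : y ∉ p :: m) :
    cy y (p :: m) a y = (decide (a = p) ^^ decide (a = lst p m)) := by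
  have h1 : y ≠ p := fun x => hy (by simp [x])
  have h2 : y ≠ lst p m := fun x => hy (x ▸ lst_mem m p)
  have := dw_pe_snoc m y a y p
  simp only [cy, List.cons_append, pe] at this ⊢
  rw [this, dw_pe_right hy]
  simp [ed, ha, h1, h2]

omit [DecidableEq V] in
theorem lst_concat (l : List V) (e : V) : ∀ p, lst p (l ++ [e]) = e := by
  induction l with
  | nil => intro p; rfl
  | cons q l ih => intro p; exact ih q

omit [DecidableEq V] in
theorem lst_append (l : List V) (u : V) (l2 : List V) : ∀ p, lst p (l ++ u :: l2) = lst u l2 := by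
  induction l with
  | nil => intro p; rfl
  | cons q l ih => intro p; exact ih q

/-- a path with two hubs which differ at its ends -/
structure TW (G : Gr V) (y : V) (r : List V) (lam : V → Bool) (h : V) : Prop where
  nd : (h :: y :: r).Nodup
  rr : ∀ a ∈ r, ∀ b ∈ r, a ≠ b → G a b = pe r a b
  rh : ∀ a ∈ r, G a h = lam a
  ry : ∀ a ∈ r, G a y = (lam a ^^ cy y r a y)
  hy : G h y = lam y

theorem TW.even {G : Gr V} (hG : Sy G) {y h : V} {r : List V} {lam : V → Bool} (w : TW G y r lam h)
    (l : 2 ≤ r.length) (c : odd lam (y :: r) = false) : Circ G (r.toFinset ∪ {h, y}) := by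
  obtain ⟨p, r', rfl⟩ : ∃ p r', r = p :: r' := by cases r <;> simp_all
  obtain ⟨m, e, rfl⟩ : ∃ m e, r' = m ++ [e] := by
    rcases List.eq_nil_or_concat' r' with rfl | x
    · simp at l
    · exact x
  have nd := w.nd
  simp only [List.nodup_cons (a := h), List.nodup_cons (a := y), List.mem_cons (b := y), not_or] at nd
  obtain ⟨⟨n, nh⟩, ny, nd⟩ := nd
  have nd' : (p :: m ++ [e]).Nodup := nd
  have ne : e ∉ p :: m := fun x => by
    simpa using (List.nodup_append.1 nd').2.2 e x e
  have s : ∀ a ∈ p :: m, a ∈ p :: (m ++ [e]) := fun a ha => by simp at ha ⊢; tauto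
  have ey : ∀ a ∈ p :: (m ++ [e]), G a y = (lam a ^^ (decide (a = p) ^^ decide (a = e))) := fun a ha => by
    have : a ≠ y := fun x => ny (x ▸ ha)
    rw [w.ry a ha, dw_cy_y this ny, lst_concat]
  have k := dw_armL hG n (List.nodup_append.1 nd').1 (fun x => nh (s _ x))
    (fun x => ny (s _ x)) (fun a ha b hb x => by
      rw [w.rr a (s a ha) b (s b hb) x]
      exact dw_pe_concat (p :: m) (fun z => ne (z ▸ ha)) fun z => ne (z ▸ hb)) fun a ha => by
      have : a ≠ e := fun z => ne (z ▸ ha)
      rw [ey a (s a ha), w.rh a (s a ha)]; simp [this]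
  have o : odd (fun a => G a h) (p :: m) = odd lam (p :: m) := by
    rw [odd_eq, odd_eq, List.countP_congr fun a ha => by rw [w.rh a (s a ha)]]
  have o2 : (G h y ^^ odd (fun a => G a h) (p :: m)) = lam e := by
    rw [o, w.hy]
    rw [odd, ← List.cons_append, odd_append] at c
    revert c
    simp only [odd]
    cases lam y <;> cases lam e <;> cases lam p <;> cases odd lam m <;> simp
  rw [o2] at k
  have he : e ∈ p :: (m ++ [e]) := by simp
  have := dw_capR hG (M := [lst p m]) (p := e) k (by
    have h1 : e ≠ h := fun x => nh (x ▸ he)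
    have h2 : e ≠ y := fun x => ny (x ▸ he)
    simp at ne ⊢; tauto) fun u hu => by
    have a4 : e ≠ lst p m := fun z => ne (z ▸ lst_mem m p)
    by_cases x : u ∈ p :: m
    · have a1 : ¬ h = u := fun z => nh (z ▸ s u x)
      have a2 : ¬ y = u := fun z => ny (z ▸ s u x)
      have a3 : e ≠ u := fun z => ne (z ▸ x)
      rw [w.rr e he u (s u x) a3, ← List.cons_append, dw_pe_snoc, dw_pe_left ne]
      simp only [a1, a2, ed, par, a4, decide_false, decide_true]
      by_cases z : u = lst p m <;> simp [z, Ne.symm]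
    · have a5 : ¬ lst p m = u := fun z => x (z ▸ lst_mem m p)
      have a6 : e ≠ p := fun z => ne (by simp [z])
      have : u = h ∨ u = y := by simp at hu x; tauto
      rcases this with rfl | rfl
      · simp [par, a5, w.rh e he, Ne.symm n]
      · simp [par, a5, ey e he, n, a6]
  exact this.sub fun x hx => by simp at hx ⊢; tauto

theorem TW.del {G : Gr V} (hG : Sy G) {y h u : V} {r1 r2 Z : List V} {lam : V → Bool}
    (w : TW G y (r1 ++ u :: r2) lam h) (hZ : Z = [] ∨ ∃ z, Z = [z] ∧ z ∉ h :: y :: (r1 ++ u :: r2) ∧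
      G z h = true ∧ G z y = true ∧ ∀ a ∈ r1 ++ u :: r2, G a z = false) :
    Circ G (r2.toFinset ∪ (Z.toFinset ∪ (r1.toFinset ∪ {h, y}))) := by
  have nd := w.nd
  simp only [List.nodup_cons (a := h), List.nodup_cons (a := y), List.mem_cons (b := y), not_or] at nd
  obtain ⟨⟨n, nh⟩, ny, nd⟩ := nd
  obtain ⟨d1, d2, d3⟩ := List.nodup_append.1 nd
  rw [List.nodup_cons] at d2
  have s1 : ∀ a ∈ r1, a ∈ r1 ++ u :: r2 := fun a ha => by simp [ha]
  have s2 : ∀ a ∈ r2, a ∈ r1 ++ u :: r2 := fun a ha => by simp [ha]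
  have u1 : ∀ a ∈ r1, a ≠ u := fun a ha => d3 a ha u (by simp)
  have u2 : ∀ a ∈ r2, a ≠ u := fun a ha x => d2.1 (x ▸ ha)
  have k1 : Op G (r1.toFinset ∪ {h, y}) (bk h y true) := by
    cases r1 with
    | nil => exact Op.any ⟨[h, y], by simpa using dw_two hG n⟩ _
    | cons p m =>
      refine (dw_armL hG n d1 (fun x => nh (s1 _ x)) (fun x => ny (s1 _ x)) (fun a ha b hb x => ?_)
        fun a ha => ?_).tail.any _
      · rw [w.rr a (s1 a ha) b (s1 b hb) x, dw_pe_split, dw_pe_concat _ (u1 a ha) (u1 b hb),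
          dw_pe_left fun z => d3 a ha a z rfl, Bool.xor_false]
      · have : a ≠ lst u r2 := d3 a ha _ (lst_mem r2 u)
        have ay : a ≠ y := fun x => ny (x ▸ s1 a ha)
        rw [w.ry a (s1 a ha), w.rh a (s1 a ha), List.cons_append,
          dw_cy_y (m := m ++ u :: r2) ay ny, lst_append]
        simp [this]
  have k2 : Op G (Z.toFinset ∪ (r1.toFinset ∪ {h, y})) (bk h y true) := by
    rcases hZ with rfl | ⟨z, rfl, z1, z2, z3, z4⟩
    · simpa using k1
    · have := k1.wrap hG (s := z) (by simp at z1 ⊢; tauto) fun a ha => by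
        rw [bk_par]
        by_cases x : a ∈ r1
        · have a1 : ¬ h = a := fun z => nh (z ▸ s1 a x)
          have a2 : ¬ y = a := fun z => ny (z ▸ s1 a x)
          rw [hG.1, z4 a (s1 a x)]; simp [a1, a2]
        · have : a = h ∨ a = y := by simp at ha; tauto
          rcases this with rfl | rfl
          · simp [z2, Ne.symm n]
          · simp [z3, n]
      rwa [show [z].toFinset ∪ (r1.toFinset ∪ {h, y}) = insert z (r1.toFinset ∪ {h, y}) by ext; simp; tauto]
  rcases List.eq_nil_or_concat' r2 with rfl | ⟨l, p, rfl⟩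
  · simpa using k2.circ
  have zz : ∀ a ∈ l ++ [p], a ∉ Z ∧ ∀ z ∈ Z, G a z = false ∧ ¬ h = z ∧ ¬ y = z := fun a ha => by
    rcases hZ with rfl | ⟨z, rfl, z1, z2, z3, z4⟩
    · simp
    · have := z4 a (s2 a ha)
      have : a ≠ z := fun x => z1 (by simp only [← x, List.mem_cons, s2 a ha, or_true])
      simp at z1 ⊢; tauto
  have pe2 : ∀ a ∈ l ++ [p], ∀ b, b ≠ u → pe (r1 ++ u :: (l ++ [p])) a b = pe (l ++ [p]) a b :=
    fun a ha b hb => by
      rw [dw_pe_split, dw_pe_cons _ (u2 a ha) hb, dw_pe_left, Bool.false_xor]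
      intro x
      rcases List.mem_append.1 x with x | x
      · exact d3 a x a (by simp only [List.mem_cons, ha, or_true]) rfl
      · exact u2 a ha (by simpa using x)
  refine dw_armR hG (f := lam) k2 d2.2 (fun a ha x => ?_) (fun a ha b hb x => ?_) fun a ha b hb => ?_
  · have a1 : a ≠ h := fun z => nh (z ▸ s2 a ha)
    have a2 : a ≠ y := fun z => ny (z ▸ s2 a ha)
    have a3 : a ∉ r1 := fun z => d3 a z a (by simp only [List.mem_cons, ha, or_true]) rfl
    have := (zz a ha).1
    simp at x; tauto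
  · rw [w.rr a (s2 a ha) b (s2 b hb) x, pe2 a ha b (u2 b hb)]
  · by_cases x : b ∈ Z
    · obtain ⟨a1, a2, a3⟩ := (zz a ha).2 b x
      simp [a1, a2, a3]
    by_cases x' : b ∈ r1
    · have a1 : ¬ h = b := fun z => nh (z ▸ s1 b x')
      have a2 : ¬ y = b := fun z => ny (z ▸ s1 b x')
      have a3 : b ∉ l ++ [p] := fun z => d3 b x' b (by simp only [List.mem_cons, z, or_true]) rfl
      rw [w.rr a (s2 a ha) b (s1 b x') (fun z => a3 (z ▸ ha)), pe2 a ha b (u1 b x'), dw_pe_right a3]
      simp [a1, a2]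
    have : b = h ∨ b = y := by simp at hb; tauto
    rcases this with rfl | rfl
    · simp [w.rh a (s2 a ha), Ne.symm n]
    · obtain ⟨q, m, e⟩ : ∃ q m, r1 ++ u :: (l ++ [p]) = q :: m ∧ a ≠ q ∧ lst q m = p := by
        cases r1 with
        | nil => exact ⟨u, _, rfl, u2 a ha, lst_concat _ _ _⟩
        | cons q m => exact ⟨q, _, rfl, fun z => d3 q (by simp) a
            (by simp only [List.mem_cons, ha, or_true]) z.symm, (lst_append m u _ q).trans (lst_concat _ _ _)⟩
      have ay : a ≠ b := fun x => ny (x ▸ s2 a ha)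
      rw [w.ry a (s2 a ha)]
      rw [e.1] at ny ⊢
      rw [dw_cy_y ay ny, e.2.2]
      simp [n, e.2.1]

/-- the graph given by the formula -/
def gf (t : ℕ) (y : V) (r : List V) (lam : V → Bool) (h z : V) : Gr V :=
  fun u w => if u = w then false else form t y r lam h z u w

theorem gf_sy (t : ℕ) (y : V) (r : List V) (lam : V → Bool) (h z : V) : Sy (gf t y r lam h z) := by
  refine ⟨fun u w => ?_, fun u => by simp [gf]⟩
  by_cases e : u = w
  · rw [e]
  · simp only [gf, e, Ne.symm e, if_false, form, cy, dw_pe_comm _ u w]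
    cases pe (y :: r ++ [y]) w u <;> cases kap t <;> cases la t lam h z u <;> cases la t lam h z w <;>
      cases al t h y u <;> cases al t h y w <;> rfl

theorem WF.tw {t : ℕ} {G : Gr V} {S : Finset V} {y h z : V} {r : List V} {lam : V → Bool}
    (w : WF t G S y r lam h z) (ht : t = 3 ∨ t = 4) : TW G y r lam h ∧ (t = 4 → z ∉ h :: y :: r ∧
      G z h = true ∧ G z y = true ∧ ∀ a ∈ r, G a z = false) := by
  have nd := w.nd
  have cv := w.cov
  have sp := w.sup
  have cl : ∀ a b, a ∉ y :: r → cy y r a b = false := fun a b x => dw_pe_left (by simp at x ⊢; tauto) b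
  have cr : ∀ a b, b ∉ y :: r → cy y r a b = false := fun a b x => dw_pe_right (by simp at x ⊢; tauto) a
  rcases ht with rfl | rfl
  all_goals
    simp only [ext, show (3 : ℕ) ≠ 1 by decide, show (3 : ℕ) ≠ 4 by decide, show (4 : ℕ) ≠ 1 by decide,
      if_true, if_false, List.cons_append, List.nil_append, List.nodup_cons, List.mem_cons, not_or,
      List.not_mem_nil, or_false, forall_eq, forall_eq_or_imp] at nd cv sp
    have n1 : ∀ a ∈ r, a ≠ h ∧ a ≠ y := fun a ha => ⟨fun x => by subst x; tauto, fun x => by subst x; tauto⟩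
  · refine ⟨⟨by simp; tauto, fun a ha b hb n => ?_, fun a ha => ?_, fun a ha => ?_, ?_⟩, by simp⟩
    · rw [w.adj a ((cv a).2 (by tauto)) b ((cv b).2 (by tauto)) n]
      simp [form, kap, al, n1 a ha, n1 b hb, dw_cy_in (n1 a ha).2 (n1 b hb).2]
    · rw [w.adj a ((cv a).2 (by tauto)) h ((cv h).2 (by tauto)) (n1 a ha).1]
      simp [form, kap, al, la, n1 a ha, cr a h (by simp; tauto), nd.1.1]
    · rw [w.adj a ((cv a).2 (by tauto)) y ((cv y).2 (by tauto)) (n1 a ha).2]
      simp [form, kap, al, la, n1 a ha, Ne.symm nd.1.1, Bool.xor_comm]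
    · rw [w.adj h ((cv h).2 (by tauto)) y ((cv y).2 (by tauto)) nd.1.1]
      simp [form, kap, al, la, cl h y (by simp; tauto), nd.1.1, Ne.symm nd.1.1, sp]
  · have n2 : ∀ a ∈ r, a ≠ z := fun a ha x => by subst x; tauto
    refine ⟨⟨by simp; tauto, fun a ha b hb n => ?_, fun a ha => ?_, fun a ha => ?_, ?_⟩,
      fun _ => ⟨by simp; tauto, ?_, ?_, fun a ha => ?_⟩⟩
    · rw [w.adj a ((cv a).2 (by tauto)) b ((cv b).2 (by tauto)) n]
      simp [form, kap, al, n1 a ha, n1 b hb, dw_cy_in (n1 a ha).2 (n1 b hb).2]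
    · rw [w.adj a ((cv a).2 (by tauto)) h ((cv h).2 (by tauto)) (n1 a ha).1]
      simp [form, kap, al, la, n1 a ha, n2 a ha, cr a h (by simp; tauto), nd.1.2.1]
    · rw [w.adj a ((cv a).2 (by tauto)) y ((cv y).2 (by tauto)) (n1 a ha).2]
      simp [form, kap, al, la, n1 a ha, n2 a ha, Ne.symm nd.1.2.1, Bool.xor_comm]
    · rw [w.adj h ((cv h).2 (by tauto)) y ((cv y).2 (by tauto)) nd.1.2.1]
      simp [form, kap, al, la, cl h y (by simp; tauto), nd.1.2.1, Ne.symm nd.1.2.1, sp, nd.1.1,
        Ne.symm nd.2.1.1]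
    · rw [w.adj z ((cv z).2 (by tauto)) h ((cv h).2 (by tauto)) (Ne.symm nd.1.1)]
      simp [form, kap, al, la, cl z h (by simp; tauto), nd.1.2.1, Ne.symm nd.1.1, sp, nd.2.1.1]
    · rw [w.adj z ((cv z).2 (by tauto)) y ((cv y).2 (by tauto)) nd.2.1.1]
      simp [form, kap, al, la, cl z y (by simp; tauto), Ne.symm nd.1.2.1, Ne.symm nd.1.1, sp, nd.2.1.1]
    · rw [w.adj a ((cv a).2 (by tauto)) z ((cv z).2 (by tauto)) (n2 a ha)]
      simp [form, kap, al, la, n1 a ha, cr a z (by simp; tauto), Ne.symm nd.1.1, nd.2.1.1]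

/-- a path and a hub -/
theorem dw_ph {G : Gr V} (hG : Sy G) {h : V} {P : List V} (nd : P.Nodup) (nh : h ∉ P)
    (e : ∀ a ∈ P, ∀ b ∈ P, a ≠ b → G a b = pe P a b) : Circ G (P.toFinset ∪ {h}) :=
  (op_one G h).path hG nd (fun _ hq x => nh (Finset.mem_singleton.1 x ▸ hq)) e
    fun _ _ _ hu n => absurd (Finset.mem_singleton.1 hu) n

/-- a path, a hub and a pendant vertex at the hub -/
theorem dw_phz {G : Gr V} (hG : Sy G) {h z : V} {P : List V} (nd : P.Nodup) (nh : h ∉ P) (nz : z ∉ P)
    (n : z ≠ h) (e : ∀ a ∈ P, ∀ b ∈ P, a ≠ b → G a b = pe P a b) (e1 : G z h = true)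
    (e2 : ∀ a ∈ P, G a z = false) : Circ G (P.toFinset ∪ {z, h}) :=
  ((op_one G h).wrap hG (s := z) (by simpa using n) fun w hw => by
    rw [Finset.mem_singleton.1 hw, e1]; simp [par]).path hG nd
    (fun q hq x => by
      rcases Finset.mem_insert.1 x with rfl | x
      · exact nz hq
      · exact nh (Finset.mem_singleton.1 x ▸ hq)) e fun a ha u hu n => by
    rcases Finset.mem_insert.1 hu with rfl | x
    · exact e2 a ha
    · exact absurd (Finset.mem_singleton.1 x) n

/-- a path with the adjacency toggled on a set, and a vertex joined to this set -/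
theorem dw_pk {G : Gr V} {f : V} {P : List V} {lam : V → Bool} (nd : P.Nodup) (nf : f ∉ P)
    {S : Finset V} (hS : ∀ a ∈ S, a ∈ P ∨ a = f)
    (e : ∀ a ∈ P, ∀ b ∈ P, a ≠ b → G a b = (pe P a b ^^ (lam a && lam b)))
    (e' : f ∈ S → ∀ a ∈ P, G a f = lam a ∧ G f a = lam a) : Circ G S := by
  let G0 : Gr V := fun u w => if u = w then false else if u = f then lam w else if w = f then lam u
    else pe P u w
  have h0 : Sy G0 := ⟨fun u w => by
    by_cases a : u = w <;> by_cases b : u = f <;> by_cases c : w = f <;>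
      simp_all [G0, dw_pe_comm P u w, eq_comm], fun u => by simp [G0]⟩
  have n : ∀ a ∈ P, a ≠ f := fun a ha x => nf (x ▸ ha)
  have := (dw_ph h0 nd nf fun a ha b hb x => by simp [G0, x, n a ha, n b hb]).lc h0 (y := f) (by simp)
  refine (this.sub (S' := S) fun a ha => by simpa [or_comm] using hS a ha).congr fun a ha b hb x => ?_
  rcases hS a ha with h1 | rfl <;> rcases hS b hb with h2 | rfl
  · rw [e a h1 b h2 x]; simp [lc, G0, x, n a h1, n b h2, Ne.symm (n b h2)]
  · rw [lc_right h0, (e' hb a h1).1]; simp [G0, x]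
  · rw [lc_left h0, (e' ha b h2).2]; simp [G0, x]
  · exact absurd rfl x

theorem dw_y {t : ℕ} {G : Gr V} (hG : Sy G) {S : Finset V} {y h z : V} {r : List V} {lam : V → Bool}
    (w : WF t G S y r lam h z) (ht : t < 3) : Circ G (S.erase y) := by
  have nd := w.nd
  have cv := w.cov
  have sp := w.sup
  have cr : ∀ a b, b ∉ y :: r → cy y r a b = false := fun a b x => dw_pe_right (by simp at x ⊢; tauto) a
  obtain rfl | rfl | rfl : t = 0 ∨ t = 1 ∨ t = 2 := by omega
  all_goals
    simp only [ext, show (0 : ℕ) ≠ 1 by decide, show (0 : ℕ) ≠ 4 by decide, show (2 : ℕ) ≠ 1 by decide,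
      show (2 : ℕ) ≠ 4 by decide,
      if_true, if_false, List.cons_append, List.nil_append, List.nodup_cons, List.mem_cons, not_or,
      List.not_mem_nil, or_false, forall_eq, forall_eq_or_imp] at nd cv sp
    have n1 : ∀ a ∈ r, a ≠ y := fun a ha x => by subst x; tauto
  · have n2 : ∀ a ∈ r, a ≠ h := fun a ha x => by subst x; tauto
    refine (dw_ph hG nd.2.2 nd.1.2 fun a ha b hb n => ?_).sub fun a ha => by
      rw [Finset.mem_erase, cv] at ha; simp; tauto
    rw [w.adj a ((cv a).2 (by tauto)) b ((cv b).2 (by tauto)) n]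
    simp [form, kap, al, n2 a ha, n2 b hb, dw_cy_in (n1 a ha) (n1 b hb)]
  · refine dw_pk (lam := lam) nd.2 nd.1 (fun a ha => ?_) (fun a ha b hb n => ?_) (by simp)
    · rw [Finset.mem_erase, cv] at ha; tauto
    · rw [w.adj a ((cv a).2 (by tauto)) b ((cv b).2 (by tauto)) n]
      simp [form, kap, al, la, dw_cy_in (n1 a ha) (n1 b hb)]
  · have n2 : ∀ a ∈ r, a ≠ h := fun a ha x => by subst x; tauto
    refine dw_pk (lam := lam) nd.2.2 nd.1.2 (fun a ha => ?_) (fun a ha b hb n => ?_) fun _ a ha => ?_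
    · rw [Finset.mem_erase, cv] at ha; tauto
    · rw [w.adj a ((cv a).2 (by tauto)) b ((cv b).2 (by tauto)) n]
      simp [form, kap, al, la, n2 a ha, n2 b hb, dw_cy_in (n1 a ha) (n1 b hb)]
    · rw [hG.1 h a, and_self, w.adj a ((cv a).2 (by tauto)) h ((cv h).2 (by tauto)) (n2 a ha)]
      simp [form, kap, al, la, n2 a ha, cr a h (by simp; tauto), sp]

/-- a cycle with the adjacency toggled on a set of odd size -/
theorem dw_odd {G : Gr V} {y h : V} {r : List V} {lam : V → Bool} (nd : (h :: y :: r).Nodup)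
    (l : 2 ≤ r.length) (c : odd lam (y :: r) = true) (sp : lam h = false) {S : Finset V}
    (hS : ∀ a ∈ S, a ∈ y :: r)
    (e : ∀ a ∈ S, ∀ b ∈ S, a ≠ b → G a b = (cy y r a b ^^ (lam a && lam b))) : Circ G S := by
  have nd' := nd
  simp only [List.nodup_cons, List.mem_cons, not_or] at nd'
  have w : WF 3 (gf 3 y r (fun u => lam u ^^ decide (u = y)) h h) (h :: y :: r).toFinset y r
      (fun u => lam u ^^ decide (u = y)) h h :=
    ⟨nd, fun u => by simp [ext], fun u hu => by
      have : u = h := by simpa [ext] using hu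
      simp [this, sp, nd'.1.1], fun u _ w _ n => by simp [gf, n]⟩
  have h0 := gf_sy 3 y r (fun u => lam u ^^ decide (u = y)) h h
  have := ((w.tw (Or.inl rfl)).1.even h0 l (by
    have : odd (fun u => lam u ^^ decide (u = y)) r = odd lam r := by
      rw [odd_eq, odd_eq, List.countP_congr (q := lam) fun a ha => by
        have : a ≠ y := fun x => nd'.2.1 (x ▸ ha)
        simp [this]]
    rw [odd] at c ⊢
    rw [this]
    revert c
    cases lam y <;> cases odd lam r <;> simp)).lc h0 (y := h) (by simp)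
  refine (this.sub (S' := S) fun a ha => by have := hS a ha; simp at this ⊢; tauto).congr
    fun a ha b hb x => ?_
  have n : ∀ a ∈ S, a ≠ h := fun a ha x => (List.nodup_cons.1 nd).1 (x ▸ hS a ha)
  have c1 : cy y r a h = false := dw_pe_right (by simp; tauto) a
  have c2 : cy y r h b = false := dw_pe_left (by simp; tauto) b
  rw [e a ha b hb x]
  simp only [lc, gf, x, n a ha, n b hb, Ne.symm (n b hb), if_false, form, kap, al, la, c1, c2, sp, nd'.1.1]
  by_cases a1 : a = y <;> by_cases a2 : b = y
  · exact absurd (a1.trans a2.symm) x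
  all_goals
    simp only [a1, a2]
    cases lam a <;> cases lam b <;> cases lam y <;> simp

theorem delW (V : Type) [DecidableEq V] (wd : StWd V) : StDelW V := by
  rintro G S hG ⟨t, y, r, lam, h, z, w, t5, hm, hp⟩ u hu
  have l : 2 ≤ r.length := by
    have := List.countP_le_length (p := lam) (l := r)
    have := Bool.toNat_le (lam y)
    unfold thr m0 at hm
    split_ifs at hm <;> omega
  have cv := w.cov
  have nd := w.nd
  by_cases ht : t < 3
  · rcases List.mem_append.1 ((cv u).1 hu) with x | x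
    · obtain rfl | rfl | rfl : t = 0 ∨ t = 1 ∨ t = 2 := by omega
      · obtain rfl : u = h := by simpa [ext] using x
        simp only [ext, show (0 : ℕ) ≠ 1 by decide, show (0 : ℕ) ≠ 4 by decide, if_false,
          List.cons_append, List.nil_append, List.nodup_cons, List.mem_cons, not_or] at nd cv
        have n1 : ∀ a ∈ r, a ≠ y ∧ a ≠ u := fun a ha =>
          ⟨fun x => by subst x; tauto, fun x => by subst x; tauto⟩
        refine (dw_ph hG nd.2.2 nd.2.1 fun a ha b hb n => ?_).sub fun a ha => by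
          rw [Finset.mem_erase, cv] at ha; simp; tauto
        rw [w.adj a ((cv a).2 (by tauto)) b ((cv b).2 (by tauto)) n]
        simp [form, kap, al, n1 a ha, n1 b hb, dw_cy_in (n1 a ha).1 (n1 b hb).1]
      · simp [ext] at x
      · obtain rfl : u = h := by simpa [ext] using x
        refine dw_odd (lam := lam) nd l ?_ (w.sup u x) (fun a ha => ?_) fun a ha b hb n => ?_
        · rw [odd_eq]; unfold okp at hp; simp only [decide_eq_true_eq]; omega
        · rw [Finset.mem_erase, cv] at ha; simp [ext] at ha ⊢; tauto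
        · rw [Finset.mem_erase] at ha hb
          rw [w.adj a ha.2 b hb.2 n]
          simp [form, kap, al, la, ha.1, hb.1]
    · rcases List.mem_cons.1 x with rfl | x
      · exact dw_y hG w ht
      · obtain ⟨r1, r2, rfl⟩ := List.append_of_mem x
        exact dw_y hG (wd.rot ht w) ht
  obtain ⟨w1, w2⟩ := w.tw (by omega)
  have n1 := w1.nd
  simp only [List.nodup_cons, List.mem_cons, not_or] at n1
  obtain rfl | rfl : t = 3 ∨ t = 4 := by omega
  all_goals
    simp only [ext, show (3 : ℕ) ≠ 1 by decide, show (3 : ℕ) ≠ 4 by decide, show (4 : ℕ) ≠ 1 by decide,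
      if_true, if_false, List.cons_append, List.nil_append, List.mem_cons] at cv
  · rcases (cv u).1 hu with rfl | rfl | x
    · exact (dw_ph hG n1.2.2 n1.2.1 w1.rr).sub fun a ha => by
        rw [Finset.mem_erase, cv] at ha; simp; tauto
    · exact (dw_ph hG n1.2.2 n1.1.2 w1.rr).sub fun a ha => by
        rw [Finset.mem_erase, cv] at ha; simp; tauto
    · obtain ⟨r1, r2, rfl⟩ := List.append_of_mem x
      exact (w1.del hG (Or.inl rfl)).sub fun a ha => by
        rw [Finset.mem_erase, cv] at ha; simp at ha ⊢; tauto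
  · obtain ⟨z1, z2, z3, z4⟩ := w2 rfl
    have z0 := z1
    simp only [List.mem_cons, not_or] at z0
    rcases (cv u).1 hu with rfl | rfl | rfl | x
    · exact (dw_phz hG n1.2.2 n1.2.1 z0.2.2 z0.2.1 w1.rr z3 z4).sub fun a ha => by
        rw [Finset.mem_erase, cv] at ha; simp; tauto
    · refine (w1.even hG l ?_).sub fun a ha => by
        rw [Finset.mem_erase, cv] at ha; simp; tauto
      rw [odd_eq]; unfold okp at hp; simp only [decide_eq_false_iff_not]; omega
    · exact (dw_phz hG n1.2.2 n1.1.2 z0.2.2 z0.1 w1.rr z2 z4).sub fun a ha => by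
        rw [Finset.mem_erase, cv] at ha; simp; tauto
    · obtain ⟨r1, r2, rfl⟩ := List.append_of_mem x
      exact (w1.del hG (Or.inr ⟨z, rfl, z1, z2, z3, z4⟩)).sub fun a ha => by
        rw [Finset.mem_erase, cv] at ha; simp at ha ⊢; tauto

end Pool.Agent.Lib.MP_d7353d_co.U
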