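import Pool.Agent.Lib.MP_d7353d_co.UEx1

/-! Expansions, second part: refinement, reordering, renaming; all fields together. -/

namespace Pool.Agent.Lib.MP_d7353d_co.U

open T

set_option linter.unusedSectionVars false
set_option linter.unusedSimpArgs false
set_option linter.unusedVariables false

variable {V : Type} [DecidableEq V]

theorem ex_px_congr {σ σ' : ℕ → V} {P : List (Ch V)}
    (h : ∀ t ∈ P, σ' t.1 = σ t.1 ∧ σ' t.2.2 = σ t.2.2) (u w : V) : px σ' P u w = px σ P u w := by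
  induction P with
  | nil => rfl
  | cons t P ih =>
    have k := h t List.mem_cons_self
    rw [ex_px_cons, ex_px_cons, ih fun s hs => h s (List.mem_cons_of_mem _ hs), k.1, k.2]

/-- cutting a chain at the vertex `σ n` -/
theorem ex_px_cut (σ : ℕ → V) (P1 P2 : List (Ch V)) (a b n : ℕ) (c1 c2 : List V) (u w : V) :
    px σ (P1 ++ (a, c1 ++ σ n :: c2, b) :: P2) u w =
      (px σ (P1 ++ (a, c1, n) :: (n, c2, b) :: P2) u w ^^ ed (σ a) (σ b) u w ^^
        ed (σ a) (σ n) u w ^^ ed (σ n) (σ b) u w) := by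
  have f1 : σ a :: (c1 ++ σ n :: c2) ++ [σ b] = (σ a :: c1) ++ σ n :: (c2 ++ [σ b]) := by simp
  simp only [ex_px_append, ex_px_cons]
  rw [f1, ex_pe_append (σ a :: c1) (σ n) (c2 ++ [σ b])]
  simp only [List.cons_append]
  cases px σ P1 u w <;> cases ed (σ a) (σ b) u w <;> cases pe (σ a :: (c1 ++ [σ n])) u w <;>
    cases ed (σ a) (σ n) u w <;> cases ed (σ n) (σ b) u w <;>
    cases pe (σ n :: (c2 ++ [σ b])) u w <;> cases px σ P2 u w <;> rfl

theorem ex_chv_cut (P1 P2 : List (Ch V)) (a b n : ℕ) (c1 c2 : List V) (s : V) :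
    (chv (P1 ++ (a, c1 ++ s :: c2, b) :: P2)).Perm
      (s :: chv (P1 ++ (a, c1, n) :: (n, c2, b) :: P2)) := by
  refine (ex_chv_perm P1 P2 a b c1 c2 s).trans (List.Perm.of_eq ?_)
  simp [chv]

theorem ex_insA_lt (A : Gr ℕ) {n a b i j : ℕ} (hi : i < n) (hj : j < n) :
    insA A n a b i j = (A i j ^^ pr a b i j) := by
  simp [insA, MG.ins, hi.ne, hj.ne]

theorem ex_insA_left (A : Gr ℕ) (n a b j : ℕ) : insA A n a b n j = decide (j = a ∨ j = b) := by
  simp [insA, MG.ins]

theorem ex_insA_right (A : Gr ℕ) {n i : ℕ} (a b : ℕ) (hi : i < n) :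
    insA A n a b i n = decide (i = a ∨ i = b) := by
  simp [insA, MG.ins, hi.ne]

theorem ex_ed_pr {σ : ℕ → V} {n a b i j : ℕ} (inj : ∀ i < n, ∀ j < n, σ i = σ j → i = j)
    (ha : a < n) (hb : b < n) (hab : a ≠ b) (hi : i < n) (hj : j < n) :
    ed (σ a) (σ b) (σ i) (σ j) = pr a b i j := by
  have e : ∀ x < n, ∀ y < n, (σ x = σ y) = (x = y) := fun x hx y hy =>
    propext ⟨inj x hx y hy, fun e => e ▸ rfl⟩
  unfold ed pr
  simp only [e i hi a ha, e i hi b hb, e j hj a ha, e j hj b hb]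
  by_cases h1 : i = a <;> by_cases h2 : i = b <;> by_cases h3 : j = a <;> by_cases h4 : j = b <;>
    simp_all

/-- the two descriptions of an expansion, for a placement which is injective on `0..n` -/
theorem ex_cut {G : Gr V} {S : Finset V} {σ : ℕ → V} {n : ℕ} {A : Gr ℕ} {P1 P2 : List (Ch V)}
    {a b : ℕ} {c1 c2 : List V} (hG : Sy G) (ha : a < n) (hb : b < n) (hab : a ≠ b)
    (hP : ∀ t ∈ P1 ++ P2, t.1 < n ∧ t.2.2 < n) :
    EX G S σ n A (P1 ++ (a, c1 ++ σ n :: c2, b) :: P2) ↔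
      EX G S σ (n + 1) (insA A n a b) (P1 ++ (a, c1, n) :: (n, c2, b) :: P2) := by
  have pm := ex_chv_cut P1 P2 a b n c1 c2 (σ n)
  have hs : σ n ∈ chv (P1 ++ (a, c1 ++ σ n :: c2, b) :: P2) := pm.mem_iff.2 List.mem_cons_self
  have up : ∀ u ∈ chv (P1 ++ (a, c1, n) :: (n, c2, b) :: P2),
      u ∈ chv (P1 ++ (a, c1 ++ σ n :: c2, b) :: P2) :=
    fun u hu => pm.mem_iff.2 (List.mem_cons_of_mem _ hu)
  have cut := ex_px_cut σ P1 P2 a b n c1 c2
  -- the three kinds of rows
  have r1 : (∀ i < n, ∀ j < n, σ i = σ j → i = j) → (∀ i < n, σ i ≠ σ n) → ∀ i < n, ∀ j < n,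
      (A i j ^^ px σ (P1 ++ (a, c1 ++ σ n :: c2, b) :: P2) (σ i) (σ j)) =
        (insA A n a b i j ^^ px σ (P1 ++ (a, c1, n) :: (n, c2, b) :: P2) (σ i) (σ j)) := by
    intro inj hn i hi j hj
    have k1 : ed (σ a) (σ n) (σ i) (σ j) = false := by simp [ed, hn i hi, hn j hj]
    have k2 : ed (σ n) (σ b) (σ i) (σ j) = false := by simp [ed, hn i hi, hn j hj]
    rw [cut, k1, k2, ex_ed_pr inj ha hb hab hi hj, ex_insA_lt A hi hj]
    cases A i j <;> cases pr a b i j <;> simp
  have r2 : (∀ i < n, ∀ j < n, σ i = σ j → i = j) → (∀ i < n, σ i ≠ σ n) → ∀ j < n,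
      px σ (P1 ++ (a, c1 ++ σ n :: c2, b) :: P2) (σ n) (σ j) =
        (decide (j = a ∨ j = b) ^^ px σ (P1 ++ (a, c1, n) :: (n, c2, b) :: P2) (σ n) (σ j)) := by
    intro inj hn j hj
    have e : ∀ y < n, (σ j = σ y) = (j = y) := fun y hy =>
      propext ⟨inj j hj y hy, fun e => e ▸ rfl⟩
    rw [cut, ex_ed_left (hn a ha).symm (hn b hb).symm, ex_ed_snd (hn a ha).symm,
      ex_ed_fst (hn b hb).symm]
    simp only [e a ha, e b hb]
    by_cases h3 : j = a <;> by_cases h4 : j = b <;> simp_all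
  have r3 : ∀ u, u ≠ σ a → u ≠ σ b → u ≠ σ n → ∀ w,
      px σ (P1 ++ (a, c1 ++ σ n :: c2, b) :: P2) u w =
        px σ (P1 ++ (a, c1, n) :: (n, c2, b) :: P2) u w := by
    intro u h1 h2 h3 w
    rw [cut, ex_ed_left h1 h2, ex_ed_left h1 h3, ex_ed_left h3 h2]
    simp
  constructor
  · intro h
    have nd := List.nodup_cons.1 (pm.nodup_iff.1 h.nd)
    have hn : ∀ i < n, σ i ≠ σ n := fun i hi => (h.cne hs hi).symm
    refine ⟨fun i hi j hj e => ?_, nd.2, fun i hi e => ?_, fun t ht => ?_, fun u => ?_,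
      fun i hi j hj ij => ?_, fun u hu w hw => ?_⟩
    · rcases Nat.lt_succ_iff_lt_or_eq.1 hi with hi | rfl <;>
        rcases Nat.lt_succ_iff_lt_or_eq.1 hj with hj | rfl
      · exact h.inj i hi j hj e
      · exact absurd e (hn i hi)
      · exact absurd e.symm (hn j hj)
      · rfl
    · rcases Nat.lt_succ_iff_lt_or_eq.1 hi with hi | rfl
      · exact h.dj i hi (up _ e)
      · exact nd.1 e
    · simp only [List.mem_append, List.mem_cons] at ht
      rcases ht with ht | rfl | rfl | ht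
      · have := h.en t (by simp [ht]); omega
      · simp only; omega
      · simp only; omega
      · have := h.en t (by simp [ht]); omega
    · rw [h.cov, pm.mem_iff, List.mem_cons]
      constructor
      · rintro (⟨i, hi, e⟩ | e | e)
        · exact Or.inl ⟨i, by omega, e⟩
        · exact Or.inl ⟨n, by omega, e.symm⟩
        · exact Or.inr e
      · rintro (⟨i, hi, e⟩ | e)
        · rcases Nat.lt_succ_iff_lt_or_eq.1 hi with hi | rfl
          · exact Or.inl ⟨i, hi, e⟩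
          · exact Or.inr (Or.inl e.symm)
        · exact Or.inr (Or.inr e)
    · rcases Nat.lt_succ_iff_lt_or_eq.1 hi with hi | rfl <;>
        rcases Nat.lt_succ_iff_lt_or_eq.1 hj with hj | rfl
      · rw [h.bb i hi j hj ij, r1 h.inj hn i hi j hj]
      · rw [hG.1, h.cb _ hs _ (h.sS hi), r2 h.inj hn i hi, ex_insA_right A a b hi, ex_px_symm]
      · rw [h.cb _ hs _ (h.sS hj), r2 h.inj hn j hj, ex_insA_left]
      · exact absurd rfl ij
    · rw [h.cb u (up u hu) w hw, r3 u (h.cne (up u hu) ha) (h.cne (up u hu) hb)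
        fun e => nd.1 (e ▸ hu)]
  · intro h
    have inj : ∀ i < n, ∀ j < n, σ i = σ j → i = j := fun i hi j hj =>
      h.inj i (by omega) j (by omega)
    have hn : ∀ i < n, σ i ≠ σ n := fun i hi e => hi.ne (h.inj i (by omega) n (by omega) e)
    refine ⟨inj, pm.nodup_iff.2 (List.nodup_cons.2 ⟨h.dj n (by omega), h.nd⟩), fun i hi e => ?_,
      fun t ht => ?_, fun u => ?_, fun i hi j hj ij => ?_, fun u hu w hw => ?_⟩
    · rcases List.mem_cons.1 (pm.mem_iff.1 e) with e | e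
      · exact hn i hi e
      · exact h.dj i (by omega) e
    · simp only [List.mem_append, List.mem_cons] at ht
      rcases ht with ht | rfl | ht
      · exact ⟨(hP t (by simp [ht])).1, (hP t (by simp [ht])).2, (h.en t (by simp [ht])).2.2⟩
      · exact ⟨ha, hb, hab⟩
      · exact ⟨(hP t (by simp [ht])).1, (hP t (by simp [ht])).2, (h.en t (by simp [ht])).2.2⟩
    · rw [h.cov, pm.mem_iff, List.mem_cons]
      constructor
      · rintro (⟨i, hi, e⟩ | e)
        · rcases Nat.lt_succ_iff_lt_or_eq.1 hi with hi | rfl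
          · exact Or.inl ⟨i, hi, e⟩
          · exact Or.inr (Or.inl e.symm)
        · exact Or.inr (Or.inr e)
      · rintro (⟨i, hi, e⟩ | e | e)
        · exact Or.inl ⟨i, by omega, e⟩
        · exact Or.inl ⟨n, by omega, e.symm⟩
        · exact Or.inr e
    · rw [h.bb i (by omega) j (by omega) ij, r1 inj hn i hi j hj]
    · have a' : a < n + 1 := by omega
      have b' : b < n + 1 := by omega
      have n' : n < n + 1 := by omega
      rcases List.mem_cons.1 (pm.mem_iff.1 hu) with e | e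
      · rw [e]
        rcases (h.cov w).1 hw with ⟨j, hj, rfl⟩ | hw'
        · rcases Nat.lt_succ_iff_lt_or_eq.1 hj with hj' | rfl
          · rw [h.bb n n' j hj hj'.ne', r2 inj hn j hj', ex_insA_left]
          · rw [hG.2, ex_px_diag]
        · rw [hG.1, h.cb w hw' _ (h.sS n'), ex_px_symm σ (P1 ++ (a, c1 ++ σ n :: c2, b) :: P2),
            r3 w (h.cne hw' a') (h.cne hw' b') (h.cne hw' n')]
      · rw [h.cb u e w hw, r3 u (h.cne e a') (h.cne e b') (h.cne e n')]

/-- only the values below `n` matter -/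
theorem EX.cgS {G : Gr V} {S σ n A P} (h : EX G S σ n A P) {σ' : ℕ → V}
    (e : ∀ i < n, σ' i = σ i) : EX G S σ' n A P := by
  have k := ex_px_congr (σ := σ) (σ' := σ') (P := P) fun t ht =>
    ⟨e _ (h.en t ht).1, e _ (h.en t ht).2.1⟩
  refine ⟨fun i hi j hj => ?_, h.nd, fun i hi => ?_, h.en, fun u => ?_, fun i hi j hj ij => ?_,
    fun u hu w hw => ?_⟩
  · rw [e i hi, e j hj]; exact h.inj i hi j hj
  · rw [e i hi]; exact h.dj i hi
  · rw [h.cov]
    refine or_congr_left ⟨?_, ?_⟩ <;> rintro ⟨i, hi, r⟩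
    · exact ⟨i, hi, (e i hi).trans r⟩
    · exact ⟨i, hi, (e i hi).symm.trans r⟩
  · rw [k, e i hi, e j hj]; exact h.bb i hi j hj ij
  · rw [k]; exact h.cb u hu w hw

theorem ex_ref {G : Gr V} {S σ n A P1 P2 a b c1 c2 s} (hG : Sy G)
    (h : EX G S σ n A (P1 ++ (a, c1 ++ s :: c2, b) :: P2)) :
    EX G S (Function.update σ n s) (n + 1) (insA A n a b)
      (P1 ++ (a, c1, n) :: (n, c2, b) :: P2) := by
  obtain ⟨ha, hb, hab⟩ := h.en (a, c1 ++ s :: c2, b) (by simp)
  refine (ex_cut hG ha hb hab fun t ht => ?_).1 ?_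
  · have := h.en t (by rcases List.mem_append.1 ht with e | e <;> simp [e])
    exact ⟨this.1, this.2.1⟩
  · rw [Function.update_self]
    exact h.cgS fun i hi => Function.update_of_ne hi.ne _ _

theorem ex_px_perm (σ : ℕ → V) {P P' : List (Ch V)} (p : P.Perm P') (u w : V) :
    px σ P u w = px σ P' u w := by
  induction p with
  | nil => rfl
  | cons t _ ih => rw [ex_px_cons, ex_px_cons, ih]
  | swap s t P =>
    simp only [ex_px_cons]
    generalize (ed (σ t.1) (σ t.2.2) u w ^^ pe (σ t.1 :: t.2.1 ++ [σ t.2.2]) u w) = x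
    generalize (ed (σ s.1) (σ s.2.2) u w ^^ pe (σ s.1 :: s.2.1 ++ [σ s.2.2]) u w) = y
    cases x <;> cases y <;> cases px σ P u w <;> rfl
  | trans _ _ i1 i2 => rw [i1, i2]

/-- change of the list of chains -/
theorem EX.chg {G : Gr V} {S σ n A P P'} (h : EX G S σ n A P) (p : (chv P).Perm (chv P'))
    (en : ∀ t ∈ P', t.1 < n ∧ t.2.2 < n ∧ t.1 ≠ t.2.2) (e : ∀ u w, px σ P u w = px σ P' u w) :
    EX G S σ n A P' :=
  ⟨h.inj, p.nodup_iff.1 h.nd, fun i hi k => h.dj i hi (p.mem_iff.2 k), en,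
    fun u => by rw [h.cov, p.mem_iff], fun i hi j hj ij => by rw [← e]; exact h.bb i hi j hj ij,
    fun u hu w hw => by rw [← e]; exact h.cb u (p.mem_iff.2 hu) w hw⟩

theorem ex_perm {G : Gr V} {S σ n A P P'} (p : P.Perm P') (h : EX G S σ n A P) :
    EX G S σ n A P' :=
  h.chg (p.flatMap_right _) (fun t ht => h.en t (p.mem_iff.2 ht)) (ex_px_perm σ p)

theorem ex_rev {G : Gr V} {S σ n A P1 P2 a b c} (h : EX G S σ n A (P1 ++ (a, c, b) :: P2)) :
    EX G S σ n A (P1 ++ (b, c.reverse, a) :: P2) := by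
  refine h.chg ?_ (fun t ht => ?_) fun u w => ?_
  · rw [ex_chv_mid, ex_chv_mid]
    exact ((List.reverse_perm c).symm.append_right _).append_left _
  · simp only [List.mem_append, List.mem_cons] at ht
    rcases ht with ht | rfl | ht
    · exact h.en t (by simp [ht])
    · have := h.en (a, c, b) (by simp)
      exact ⟨this.2.1, this.1, this.2.2.symm⟩
    · exact h.en t (by simp [ht])
  · simp only [ex_px_append, ex_px_cons]
    rw [← ex_pe_reverse (σ a :: c ++ [σ b]), ex_ed_comm (σ a) (σ b)]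
    simp

theorem ex_nil {G : Gr V} {S σ n A P1 P2 a b} : EX G S σ n A (P1 ++ (a, [], b) :: P2) ↔
    a < n ∧ b < n ∧ a ≠ b ∧ EX G S σ n A (P1 ++ P2) := by
  have p : chv (P1 ++ (a, [], b) :: P2) = chv (P1 ++ P2) := by simp [chv]
  have e : ∀ u w, px σ (P1 ++ (a, [], b) :: P2) u w = px σ (P1 ++ P2) u w := fun u w => by
    simp [ex_px_append, ex_px_cons, ex_pe_cons, ex_pe_one]
  constructor
  · intro h
    have := h.en (a, [], b) (by simp)
    exact ⟨this.1, this.2.1, this.2.2, h.chg (.of_eq p)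
      (fun t ht => h.en t (by rcases List.mem_append.1 ht with k | k <;> simp [k])) e⟩
  · rintro ⟨ha, hb, hab, h⟩
    refine h.chg (.of_eq p.symm) (fun t ht => ?_) fun u w => (e u w).symm
    simp only [List.mem_append, List.mem_cons] at ht
    rcases ht with ht | rfl | ht
    · exact h.en t (by simp [ht])
    · exact ⟨ha, hb, hab⟩
    · exact h.en t (by simp [ht])

theorem ex_px_map {σ σ' : ℕ → V} {π : ℕ → ℕ} {P : List (Ch V)}
    (h : ∀ t ∈ P, σ' (π t.1) = σ t.1 ∧ σ' (π t.2.2) = σ t.2.2) (u w : V) :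
    px σ' (P.map fun t => (π t.1, t.2.1, π t.2.2)) u w = px σ P u w := by
  induction P with
  | nil => rfl
  | cons t P ih =>
    have k := h t List.mem_cons_self
    rw [List.map_cons, ex_px_cons, ex_px_cons, ih fun s hs => h s (List.mem_cons_of_mem _ hs)]
    simp only [k.1, k.2]

theorem ex_rel {G : Gr V} {S σ n A A' P} (π : ℕ → ℕ) (h1 : ∀ i < n, π i < n)
    (h2 : ∀ i < n, ∀ j < n, π i = π j → i = j)
    (h3 : ∀ i < n, ∀ j < n, i ≠ j → A' (π i) (π j) = A i j) (h : EX G S σ n A P) :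
    ∃ σ', EX G S σ' n A' (P.map fun t => (π t.1, t.2.1, π t.2.2)) := by
  have sj : ∀ k < n, ∃ i < n, π i = k := by
    intro k hk
    obtain ⟨i, hi, e⟩ := Finset.surj_on_of_inj_on_of_card_le (s := Finset.range n)
      (t := Finset.range n) (fun i _ => π i) (fun i hi => by simpa using h1 i (by simpa using hi))
      (fun i j hi hj e => h2 i (by simpa using hi) j (by simpa using hj) e) le_rfl k (by simpa using hk)
    exact ⟨i, by simpa using hi, e.symm⟩
  choose! ρ r1 r2 using sj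
  have e : ∀ i < n, ρ (π i) = i := fun i hi => h2 _ (r1 _ (h1 i hi)) _ hi (r2 _ (h1 i hi))
  have c : chv (P.map fun t => (π t.1, t.2.1, π t.2.2)) = chv P := by
    simp [chv, List.flatMap_map]
  have k := ex_px_map (σ := σ) (σ' := fun k => σ (ρ k)) (π := π) (P := P) fun t ht => by
    simp only [e _ (h.en t ht).1, e _ (h.en t ht).2.1, and_self]
  refine ⟨fun k => σ (ρ k), fun i hi j hj r => ?_, by rw [c]; exact h.nd,
    fun i hi => by rw [c]; exact h.dj _ (r1 i hi), fun t ht => ?_, fun u => ?_,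
    fun i hi j hj ij => ?_, fun u hu w hw => ?_⟩
  · rw [← r2 i hi, ← r2 j hj, h.inj _ (r1 i hi) _ (r1 j hj) r]
  · obtain ⟨s, hs, rfl⟩ := List.mem_map.1 ht
    have := h.en s hs
    exact ⟨h1 _ this.1, h1 _ this.2.1, fun r => this.2.2 (h2 _ this.1 _ this.2.1 r)⟩
  · rw [c, h.cov]
    refine or_congr_left ⟨?_, ?_⟩ <;> rintro ⟨i, hi, r⟩
    · exact ⟨π i, h1 i hi, by simp only [e i hi, r]⟩
    · exact ⟨ρ i, r1 i hi, r⟩
  · have ij' : ρ i ≠ ρ j := fun r => ij (by rw [← r2 i hi, ← r2 j hj, r])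
    rw [k, h.bb _ (r1 i hi) _ (r1 j hj) ij', ← h3 _ (r1 i hi) _ (r1 j hj) ij', r2 i hi, r2 j hj]
  · rw [k]; exact h.cb u (c ▸ hu) w hw

theorem ex_base {G : Gr V} {S σ n A} : EX G S σ n A [] ↔ Pull G σ n A ∧ S = im σ n := by
  constructor
  · intro h
    refine ⟨fun i hi j hj ij => ⟨fun e => ij (h.inj i hi j hj e), ?_⟩, ?_⟩
    · rw [h.bb i hi j hj ij, ex_px_nil]; simp
    · ext u
      rw [h.cov]
      simp [im, chv]
  · rintro ⟨h, rfl⟩
    refine ⟨fun i hi j hj e => by_contra fun ij => (h i hi j hj ij).1 e, by simp [chv],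
      by simp [chv], by simp, fun u => by simp [im, chv], fun i hi j hj ij => ?_, by simp [chv]⟩
    rw [(h i hi j hj ij).2, ex_px_nil]; simp

theorem ex (V : Type) [DecidableEq V] : StEx V where
  nbr _ h e1 e2 := ex_nbr h e1 e2
  sup hG h := ex_sup hG h
  col hG h := ex_col _ rfl hG h
  ref hG h := ex_ref hG h
  unref hG ha hb hab hP h := (ex_cut hG ha hb hab hP).2 h
  insr hG hf h e1 e2 := ex_insr hG hf h e1 e2
  perm p h := ex_perm p h
  rev h := ex_rev h
  nil := ex_nil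
  cgA e h := ⟨h.inj, h.nd, h.dj, h.en, h.cov,
    fun i hi j hj ij => by rw [← e i hi j hj ij]; exact h.bb i hi j hj ij, h.cb⟩
  cgG e h := ⟨h.inj, h.nd, h.dj, h.en, h.cov,
    fun i hi j hj ij => by rw [← e _ (h.sS hi) _ (h.sS hj)]; exact h.bb i hi j hj ij,
    fun u hu w hw => by rw [← e _ (h.cS hu) _ hw]; exact h.cb u hu w hw⟩
  rel π h1 h2 h3 h := ex_rel π h1 h2 h3 h
  base := ex_base

end Pool.Agent.Lib.MP_d7353d_co.U
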