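import Pool.Agent.Lib.MP_d7353d_co.UEx1
import Pool.Agent.Lib.MP_d7353d_co.U1

/-! Words without letter `0` are the five sequences; expansions of the sequences are words. -/

namespace Pool.Agent.Lib.MP_d7353d_co.U

open T

set_option linter.unusedSectionVars false
set_option linter.unusedSimpArgs false
set_option linter.unusedVariables false

variable {V : Type} [DecidableEq V]

/-- the letter of `y` -/
def fuLy (t m : ℕ) : Bool := decide (t < 3 ∨ (m % 2 = 1 ↔ t = 3))

def fuLam (t m i : ℕ) : Bool := decide (i < m) && (decide (i ≠ 0) || fuLy t m)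

def fuLa (t m i : ℕ) : Bool :=
  fuLam t m i ^^ (decide (t = 2) && decide (i = m)) ^^ (decide (t = 4) && decide (i = m + 1))

def fuAl (t m i : ℕ) : Bool :=
  (decide (t = 0 ∨ 3 ≤ t) && decide (i = m)) ^^ (decide (3 ≤ t) && decide (i = 0))

theorem fu_rim_symm (m i j : ℕ) : rim m i j = rim m j i := by
  unfold rim
  apply decide_eq_decide.mpr
  constructor <;> rintro ⟨a, b, c⟩ <;> exact ⟨b, a, c.symm⟩

theorem fu_rim_ge {m i j : ℕ} (h : m ≤ j) : rim m i j = false := by
  unfold rim
  apply decide_eq_false
  omega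

theorem fu_up {t m i j : ℕ} (ht : t < 5) (hm : 0 < m) (hij : i < j) (hj : j < (seqG t m).n) :
    seqUp t m i j = (rim m i j ^^ (kap t && fuLa t m i && fuLa t m j) ^^
      (fuAl t m i && fuLa t m j) ^^ (fuAl t m j && fuLa t m i)) := by
  have hn : (seqG t m).n = m + (if t = 1 then 0 else if t = 4 then 2 else 1) := rfl
  rw [hn] at hj
  unfold seqUp fuLa fuAl fuLam fuLy kap
  rcases Nat.lt_trichotomy j m with h | h | h
  · have a1 : i < m := by omega
    have a2 : i ≠ m := by omega
    have a3 : j ≠ m := by omega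
    have a4 : i ≠ m + 1 := by omega
    have a5 : j ≠ m + 1 := by omega
    have a6 : j ≠ 0 := by omega
    by_cases a7 : i = 0
    · subst a7
      interval_cases t <;> simp [h, a1, a2, a3, a4, a5, a6]
    · interval_cases t <;> simp [h, a1, a2, a3, a4, a5, a6, a7]
  · subst h
    have a2 : i ≠ j := by omega
    have a4 : i ≠ j + 1 := by omega
    have a6 : j ≠ 0 := by omega
    rw [fu_rim_ge (le_refl j)]
    by_cases a7 : i = 0
    · subst a7
      interval_cases t <;> simp [hij, a2, a4, a6] at hj ⊢
    · interval_cases t <;> simp [hij, a2, a4, a6, a7] at hj ⊢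
  · have t4 : t = 4 := by
      by_contra ne
      rw [if_neg ne] at hj
      split at hj <;> omega
    subst t4
    have e : j = m + 1 := by simp at hj; omega
    subst e
    rw [fu_rim_ge (Nat.le_succ m)]
    have a1 : ¬ (m + 1 < m) := by omega
    have a4 : i ≠ m + 1 := by omega
    have a5 : m ≠ 0 := by omega
    by_cases a7 : i = 0
    · subst a7
      simp [a1, a4, hm, a5, a5.symm]
    · by_cases a8 : i = m
      · subst a8
        simp [a1, a4, a7]
      · simp [a1, a4, a7, a8]

theorem fu_adj {t m i j : ℕ} (ht : t < 5) (hm : 0 < m) (hij : i ≠ j) (hi : i < (seqG t m).n)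
    (hj : j < (seqG t m).n) :
    (seqG t m).adj i j = (rim m i j ^^ (kap t && fuLa t m i && fuLa t m j) ^^
      (fuAl t m i && fuLa t m j) ^^ (fuAl t m j && fuLa t m i)) := by
  have e : (seqG t m).adj i j = (decide (i ≠ j) && seqUp t m (min i j) (max i j)) := rfl
  rw [e, decide_eq_true hij, Bool.true_and]
  rcases Nat.lt_or_gt_of_ne hij with h | h
  · rw [min_eq_left h.le, max_eq_right h.le, fu_up ht hm h hj]
  · rw [min_eq_right h.le, max_eq_left h.le, fu_up ht hm h hi, fu_rim_symm m j i]
    cases rim m i j <;> cases kap t <;> cases fuLa t m i <;> cases fuLa t m j <;>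
      cases fuAl t m i <;> cases fuAl t m j <;> rfl

theorem fu_dec {σ : ℕ → V} {n : ℕ} (inj : ∀ i < n, ∀ j < n, σ i = σ j → i = j) {i j : ℕ}
    (hi : i < n) (hj : j < n) : decide (σ i = σ j) = decide (i = j) :=
  decide_eq_decide.mpr ⟨inj i hi j hj, fun e => e ▸ rfl⟩

theorem fu_xor (P R : Prop) [Decidable P] [Decidable R] :
    (decide P ^^ decide R) = decide (¬ (P ↔ R)) := by
  by_cases P <;> by_cases R <;> simp [*]

theorem fu_path {σ : ℕ → V} {n : ℕ} (inj : ∀ i < n, ∀ j < n, σ i = σ j → i = j) {i j : ℕ}
    (hi : i < n) (hj : j < n) : ∀ k < n, pe ((List.range k).map σ ++ [σ k]) (σ i) (σ j) =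
      decide ((i + 1 = j ∧ j ≤ k) ∨ (j + 1 = i ∧ i ≤ k)) := by
  intro k
  induction k with
  | zero =>
    intro _
    simp only [List.range_zero, List.map_nil, List.nil_append, ex_pe_one]
    symm
    apply decide_eq_false
    omega
  | succ k ih =>
    intro hk
    have hk' : k < n := by omega
    rw [List.range_succ, List.map_append, List.map_singleton, List.append_assoc,
      List.singleton_append, ex_pe_append, ih hk', ex_pe_cons, ex_pe_one, Bool.xor_false]
    unfold ed
    rw [fu_dec inj hi hk', fu_dec inj hj hk, fu_dec inj hi hk, fu_dec inj hj hk']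
    rw [← Bool.decide_and, ← Bool.decide_and, fu_xor, fu_xor]
    exact decide_eq_decide.mpr (by omega)

theorem fu_cyc {σ : ℕ → V} {n m : ℕ} (inj : ∀ i < n, ∀ j < n, σ i = σ j → i = j) {i j : ℕ}
    (hi : i < n) (hj : j < n) (hm : 3 ≤ m) (hn : m ≤ n) :
    pe ((List.range m).map σ ++ [σ 0]) (σ i) (σ j) = rim m i j := by
  obtain ⟨k, rfl⟩ : ∃ k, m = k + 1 := ⟨m - 1, by omega⟩
  have hk : k < n := by omega
  have h0 : 0 < n := by omega
  rw [List.range_succ, List.map_append, List.map_singleton, List.append_assoc,
    List.singleton_append, ex_pe_append, fu_path inj hi hj k hk, ex_pe_cons, ex_pe_one,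
    Bool.xor_false]
  unfold ed rim
  rw [fu_dec inj hi hk, fu_dec inj hj hk, fu_dec inj hi h0, fu_dec inj hj h0]
  have e : ∀ a b : ℕ, a < k + 1 → ((a + 1) % (k + 1) = b ↔ (a = k ∧ b = 0) ∨ (a < k ∧ b = a + 1)) := by
    intro a b ha
    rcases Nat.lt_or_ge a k with h | h
    · rw [Nat.mod_eq_of_lt (by omega)]; omega
    · have : a = k := by omega
      subst this
      rw [Nat.mod_self]; omega
  have e2 : (i < k + 1 ∧ j < k + 1 ∧ ((i + 1) % (k + 1) = j ∨ (j + 1) % (k + 1) = i)) ↔
      (((i + 1 = j ∧ j ≤ k) ∨ (j + 1 = i ∧ i ≤ k)) ∨ (i = k ∧ j = 0) ∨ (i = 0 ∧ j = k)) := by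
    constructor
    · rintro ⟨a, b, c⟩
      rw [e i j a, e j i b] at c
      omega
    · intro c
      have a : i < k + 1 := by omega
      have b : j < k + 1 := by omega
      rw [e i j a, e j i b]
      omega
  rw [← Bool.decide_and, ← Bool.decide_and, fu_xor, fu_xor]
  apply decide_eq_decide.mpr
  rw [e2]
  clear e e2
  omega

theorem fu_rimJ (σ : ℕ → V) {m : ℕ} (hm : 0 < m) :
    (rimJ m).map (Prod.map σ σ) = cp ((List.range m).map σ ++ [σ 0]) := by
  unfold rimJ cp
  apply List.ext_getElem
  · simp
  · intro i h1 h2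
    have hi : i < m := by simpa using h1
    simp only [List.getElem_map, List.getElem_range, Prod.map, List.getElem_zip, List.getElem_tail]
    rw [List.getElem_append_left (by simpa using hi)]
    simp only [List.getElem_map, List.getElem_range]
    congr 1
    rcases Nat.lt_or_ge (i + 1) m with h | h
    · rw [List.getElem_append_left (by simpa using h), Nat.mod_eq_of_lt h]
      simp
    · have e : i + 1 = m := by omega
      rw [List.getElem_append_right (by simpa using h)]
      simp [e]

theorem fu_n (t m : ℕ) : (seqG t m).n = m + (if t = 1 then 0 else if t = 4 then 2 else 1) := rfl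

theorem fu_form {t m : ℕ} {σ : ℕ → V} {y h z : V} {r : List V} {lam : V → Bool} (ht : t < 5)
    (hm : 3 ≤ m) (inj : ∀ i < (seqG t m).n, ∀ j < (seqG t m).n, σ i = σ j → i = j)
    (hy : σ 0 = y) (hh : t ≠ 1 → σ m = h) (hz : t = 4 → σ (m + 1) = z)
    (hl : ∀ i < (seqG t m).n, lam (σ i) = fuLam t m i) {i j : ℕ} (hi : i < (seqG t m).n)
    (hj : j < (seqG t m).n) (hij : i ≠ j) :
    form t y r lam h z (σ i) (σ j) = (cy y r (σ i) (σ j) ^^ rim m i j ^^ (seqG t m).adj i j) := by
  have hn := fu_n t m
  have h0 : 0 < (seqG t m).n := by omega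
  have eLa : ∀ a < (seqG t m).n, la t lam h z (σ a) = fuLa t m a := by
    intro a ha
    unfold la fuLa
    rw [hl a ha]
    congr 1
    · congr 1
      by_cases e : t = 2
      · rw [← hh (by omega), fu_dec inj ha (by rw [hn]; simp [e])]
      · simp [e]
    · by_cases e : t = 4
      · rw [← hz e, fu_dec inj ha (by rw [hn]; simp [e])]
      · simp [e]
  have eAl : ∀ a < (seqG t m).n, al t h y (σ a) = fuAl t m a := by
    intro a ha
    unfold al fuAl
    rw [← hy, fu_dec inj ha h0]
    congr 1
    by_cases e : t = 0 ∨ 3 ≤ t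
    · have t1 : t ≠ 1 := by omega
      rw [← hh t1, fu_dec inj ha (by rw [hn, if_neg t1]; split <;> omega)]
    · simp only [decide_eq_false e, Bool.false_and]
  unfold form
  rw [eLa i hi, eLa j hj, eAl i hi, eAl j hj, fu_adj ht (by omega) hij hi hj]
  generalize (kap t && fuLa t m i && fuLa t m j) = a
  generalize (fuAl t m i && fuLa t m j) = b
  generalize (fuAl t m j && fuLa t m i) = c
  cases cy y r (σ i) (σ j) <;> cases rim m i j <;> cases a <;> cases b <;> cases c <;> rfl

theorem fu_ext_len (t m : ℕ) (h z : V) : (seqG t m).n = m + (ext t h z).length := by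
  rw [fu_n]
  unfold ext
  split
  · rfl
  · split <;> rfl

theorem full (V : Type) [DecidableEq V] : StFull V := by
  intro t G S y r lam h z wf rich hr hy
  obtain ⟨ht, hthr, hok⟩ := rich
  have cr : r.countP lam = r.length := List.countP_eq_length.mpr hr
  obtain ⟨m, hm⟩ : ∃ m, m = r.length + 1 := ⟨_, rfl⟩
  rw [← hm]
  have hm0 : m0 t y r lam = m := by
    unfold m0
    rw [cr, hm]
    split
    · rename_i e
      rw [hy e]
      rfl
    · rfl
  have hc : (y :: r).countP lam = r.length + (lam y).toNat := by
    rw [List.countP_cons, cr]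
    cases lam y <;> rfl
  rw [hm0] at hthr
  rw [hc] at hok
  unfold thr at hthr
  unfold okp at hok
  have hly : lam y = fuLy t m := by
    unfold fuLy
    by_cases e : t < 3
    · rw [hy e, decide_eq_true (Or.inl e)]
    · cases e2 : lam y
      · rw [e2] at hok
        symm
        apply decide_eq_false
        simp only [Bool.toNat_false] at hok
        omega
      · rw [e2] at hok
        symm
        apply decide_eq_true
        simp only [Bool.toNat_true] at hok
        omega
  have m5 : 5 ≤ m := by split at hthr <;> omega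
  refine ⟨?_, ?_⟩
  · unfold seqOk
    by_cases e : t < 3
    · rw [hy e] at hok
      simp only [Bool.toNat_true] at hok
      split at hthr <;> omega
    · split at hthr <;> omega
  obtain ⟨L, hL⟩ : ∃ L, L = (y :: r) ++ ext t h z := ⟨_, rfl⟩
  have ln : L.length = (seqG t m).n := by
    rw [fu_ext_len t m h z, hL, List.length_append, List.length_cons, hm]
  have nd : L.Nodup := by
    rw [hL]
    exact List.perm_append_comm.nodup_iff.mp wf.nd
  have cov : ∀ u, u ∈ S ↔ u ∈ L := by
    intro u
    rw [wf.cov, hL]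
    exact List.perm_append_comm.mem_iff
  obtain ⟨σ, hσ⟩ : ∃ σ : ℕ → V, ∀ i (hi : i < L.length), σ i = L[i] :=
    ⟨fun i => L.getD i y, fun i hi => by simp [hi]⟩
  have inj : ∀ i < (seqG t m).n, ∀ j < (seqG t m).n, σ i = σ j → i = j := by
    intro i hi j hj e
    rw [← ln] at hi hj
    rw [hσ i hi, hσ j hj] at e
    exact (nd.getElem_inj_iff).mp e
  have mn : m ≤ (seqG t m).n := by rw [fu_n]; omega
  have lo : ∀ i (hi : i < (y :: r).length), σ i = (y :: r)[i] := by
    intro i hi
    have hi' : i < L.length := by rw [hL, List.length_append]; omega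
    rw [hσ i hi']
    subst hL
    exact List.getElem_append_left hi
  have up : ∀ i (hi : i < (ext t h z).length), σ (m + i) = (ext t h z)[i] := by
    intro i hi
    have hi' : m + i < L.length := by rw [hL, List.length_append, List.length_cons]; omega
    rw [hσ _ hi']
    subst hL
    rw [List.getElem_append_right (by rw [List.length_cons]; omega)]
    congr 1
    rw [List.length_cons]
    omega
  have rg : (List.range m).map σ = y :: r := by
    apply List.ext_getElem
    · simp [hm]
    · intro i h1 h2
      rw [List.getElem_map, List.getElem_range, lo i h2]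
  have s0 : σ 0 = y := lo 0 (by simp)
  have sh : t ≠ 1 → σ m = h := by
    intro e
    have k : ∃ l, ext t h z = h :: l := by
      unfold ext
      rw [if_neg e]
      split <;> exact ⟨_, rfl⟩
    obtain ⟨l, k⟩ := k
    have := up 0 (by simp [k])
    simpa [k] using this
  have sz : t = 4 → σ (m + 1) = z := by
    intro e
    have k : ext t h z = [h, z] := by simp [ext, e]
    have := up 1 (by simp [k])
    simpa [k] using this
  have hl : ∀ i < (seqG t m).n, lam (σ i) = fuLam t m i := by
    intro i hi
    unfold fuLam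
    by_cases e : i < m
    · rw [decide_eq_true e, Bool.true_and]
      cases i with
      | zero => simp [s0, hly]
      | succ i =>
        have hi2 : i < r.length := by omega
        rw [lo (i + 1) (by rw [List.length_cons]; omega), List.getElem_cons_succ,
          hr _ (List.getElem_mem hi2)]
        simp
    · rw [decide_eq_false e, Bool.false_and]
      obtain ⟨k, rfl⟩ : ∃ k, i = m + k := ⟨i - m, by omega⟩
      rw [fu_ext_len t m h z] at hi
      rw [up k (by omega)]
      exact wf.sup _ (List.getElem_mem _)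
  have mem : ∀ i < (seqG t m).n, σ i ∈ S := by
    intro i hi
    rw [← ln] at hi
    rw [cov, hσ i hi]
    exact List.getElem_mem hi
  refine ⟨σ, ?_, ?_, ?_⟩
  · intro i hi j hj hij
    have ne : σ i ≠ σ j := fun e => hij (inj i hi j hj e)
    refine ⟨ne, ?_⟩
    rw [wf.adj _ (mem i hi) _ (mem j hj) ne, fu_form ht (by omega) inj s0 sh sz hl hi hj hij]
    unfold cy
    rw [← rg, ← s0, fu_cyc inj hi hj (by omega) mn, Bool.xor_self, Bool.false_xor]
  · ext u
    rw [mem_im]
    constructor
    · intro hu
      obtain ⟨i, hi, e⟩ := List.getElem_of_mem ((cov u).mp hu)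
      exact ⟨i, ln ▸ hi, (hσ i hi).trans e⟩
    · rintro ⟨i, hi, rfl⟩
      exact mem i hi
  · rw [fu_rimJ σ (by omega), rg, s0]

/-! expansions of the sequences -/

/-- the rim of an expansion -/
def fuW (σ : ℕ → V) (P : List (Ch V)) : List V := P.flatMap fun t => σ t.1 :: t.2.1

/-- consecutive pairs from `a` to `e` -/
def fuLnk : ℕ → List (ℕ × ℕ) → ℕ → Prop
  | a, [], e => a = e
  | a, p :: J, e => p.1 = a ∧ fuLnk p.2 J e

theorem fu_W_cons (σ : ℕ → V) (t : Ch V) (P : List (Ch V)) :
    fuW σ (t :: P) = σ t.1 :: t.2.1 ++ fuW σ P := by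
  simp [fuW]

theorem fu_lnk_head (σ : ℕ → V) {P : List (Ch V)} {a e : ℕ} (h : fuLnk a (ends P) e) :
    (∃ l, fuW σ P ++ [σ e] = σ a :: l) ∧
      ∃ l, (ends P).map (fun p => σ p.1) ++ [σ e] = σ a :: l := by
  cases P with
  | nil =>
    have k : a = e := h
    subst k
    exact ⟨⟨[], rfl⟩, ⟨[], rfl⟩⟩
  | cons t P =>
    have k : t.1 = a := h.1
    subst k
    rw [fu_W_cons]
    exact ⟨⟨_, rfl⟩, ⟨_, rfl⟩⟩

theorem fu_px (σ : ℕ → V) (u w : V) (e : ℕ) : ∀ (P : List (Ch V)) (a : ℕ), fuLnk a (ends P) e →
    px σ P u w = (pe (fuW σ P ++ [σ e]) u w ^^ pe ((ends P).map (fun p => σ p.1) ++ [σ e]) u w) := by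
  intro P
  induction P with
  | nil => intro a _; rfl
  | cons t P ih =>
    intro a h
    have h2 : fuLnk t.2.2 (ends P) e := h.2
    obtain ⟨⟨l1, e1⟩, ⟨l2, e2⟩⟩ := fu_lnk_head σ h2
    have e3 : (ends (t :: P)).map (fun p => σ p.1) ++ [σ e] = σ t.1 :: σ t.2.2 :: l2 := by
      rw [← e2]; rfl
    rw [ex_px_cons, ih _ h2, fu_W_cons, List.append_assoc, e1, e2, e3, ex_pe_append _ _ l1,
      ex_pe_cons]
    generalize ed (σ t.1) (σ t.2.2) u w = a
    generalize pe (σ t.1 :: t.2.1 ++ [σ t.2.2]) u w = b
    generalize pe (σ t.2.2 :: l1) u w = c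
    generalize pe (σ t.2.2 :: l2) u w = d
    cases a <;> cases b <;> cases c <;> cases d <;> rfl

theorem fu_lnk_rim (m : ℕ) : ∀ j k, k + j ≤ m →
    fuLnk (k % m) ((List.range' k j).map fun i => (i, (i + 1) % m)) ((k + j) % m) := by
  intro j
  induction j with
  | zero => intro k _; rfl
  | succ j ih =>
    intro k hk
    rw [List.range'_succ, List.map_cons]
    refine ⟨(Nat.mod_eq_of_lt (by omega)).symm, ?_⟩
    have := ih (k + 1) (by omega)
    rwa [show k + 1 + j = k + (j + 1) by omega] at this

theorem fu_W_perm (σ : ℕ → V) (P : List (Ch V)) :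
    (fuW σ P).Perm ((ends P).map (fun p => σ p.1) ++ chv P) := by
  induction P with
  | nil => exact List.Perm.refl _
  | cons t P ih =>
    rw [fu_W_cons, ex_chv_cons]
    refine List.Perm.cons _ ?_
    exact (ih.append_left _).trans (List.perm_append_comm_assoc _ _ _)

theorem fu_form_symm (t : ℕ) (y : V) (r : List V) (lam : V → Bool) (h z u w : V) :
    form t y r lam h z u w = form t y r lam h z w u := by
  unfold form cy
  rw [ex_pe_symm]
  cases pe (y :: r ++ [y]) w u <;> cases kap t <;> cases la t lam h z u <;> cases la t lam h z w <;>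
    cases al t h y u <;> cases al t h y w <;> rfl

theorem fu_range (t m : ℕ) (σ : ℕ → V) : (List.range (seqG t m).n).map σ =
    (List.range m).map σ ++ ext t (σ m) (σ (m + 1)) := by
  rw [fu_n]
  unfold ext
  split
  · simp
  · split <;> simp [List.range_succ]

theorem famW (V : Type) [DecidableEq V] (ex : StEx V) : StFamW V := by
  intro t m G S σ P hG ok h hP
  have ht : t < 5 := by unfold seqOk at ok; omega
  have m5 : 5 ≤ m := by unfold seqOk at ok; omega
  have hn := fu_n t m
  have mn : m ≤ (seqG t m).n := by omega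
  have lk : fuLnk 0 (ends P) 0 := by
    have := fu_lnk_rim m m 0 (by omega)
    rw [Nat.zero_add, Nat.mod_self, Nat.zero_mod, ← List.range_eq_range'] at this
    rw [hP]
    exact this
  have eb : (ends P).map (fun p => σ p.1) = (List.range m).map σ := by
    rw [hP, rimJ, List.map_map]
    rfl
  obtain ⟨r, hr⟩ : ∃ r, fuW σ P = σ 0 :: r := by
    cases P with
    | nil =>
      have := congrArg List.length eb
      simp [ends] at this
      omega
    | cons c P =>
      have k : c.1 = 0 := lk.1
      rw [fu_W_cons, k]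
      exact ⟨_, rfl⟩
  have pm : (σ 0 :: r).Perm ((List.range m).map σ ++ chv P) := by
    rw [← hr, ← eb]
    exact fu_W_perm σ P
  have pm2 : (ext t (σ m) (σ (m + 1)) ++ σ 0 :: r).Perm
      ((List.range (seqG t m).n).map σ ++ chv P) := by
    rw [fu_range]
    refine (pm.append_left _).trans ?_
    rw [← List.append_assoc]
    exact List.perm_append_comm.append_right _
  have nb : ((List.range (seqG t m).n).map σ).Nodup :=
    List.Nodup.map_on (fun i hi j hj => h.inj i (List.mem_range.mp hi) j (List.mem_range.mp hj))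
      List.nodup_range
  have ecy : ∀ u w, cy (σ 0) r u w = (px σ P u w ^^ pe ((List.range m).map σ ++ [σ 0]) u w) := by
    intro u w
    unfold cy
    rw [fu_px σ u w 0 P 0 lk, hr, eb, Bool.xor_assoc, Bool.xor_self, Bool.xor_false]
  obtain ⟨lam, hlam⟩ : ∃ lam : V → Bool, ∀ u, lam u =
      (decide (u ∈ (List.range m).map σ) && (decide (u ≠ σ 0) || fuLy t m)) := ⟨_, fun _ => rfl⟩
  have hl : ∀ i < (seqG t m).n, lam (σ i) = fuLam t m i := by
    intro i hi
    rw [hlam]
    unfold fuLam
    congr 1
    · apply decide_eq_decide.mpr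
      constructor
      · intro k
        obtain ⟨j, hj, e⟩ := List.mem_map.mp k
        have hj' := List.mem_range.mp hj
        have := h.inj j (by omega) i hi e
        omega
      · intro k
        exact List.mem_map_of_mem (List.mem_range.mpr k)
    · congr 1
      apply decide_eq_decide.mpr
      exact not_congr ⟨h.inj i hi 0 (by omega), fun e => e ▸ rfl⟩
  have cn : ∀ u ∈ chv P, u ∉ (List.range m).map σ := by
    intro u hu k
    obtain ⟨j, hj, e⟩ := List.mem_map.mp k
    have hj' := List.mem_range.mp hj
    exact h.dj j (by omega) (e ▸ hu)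
  have cl : ∀ u ∈ chv P, lam u = false := by
    intro u hu
    rw [hlam, decide_eq_false (cn u hu), Bool.false_and]
  have ch : ∀ u ∈ chv P, ∀ w ∈ S, G u w = form t (σ 0) r lam (σ m) (σ (m + 1)) u w := by
    intro u hu w hw
    have ne : ∀ i < (seqG t m).n, decide (u = σ i) = false :=
      fun i hi => decide_eq_false fun e => h.dj i hi (e ▸ hu)
    have e1 : la t lam (σ m) (σ (m + 1)) u = false := by
      unfold la
      rw [cl u hu]
      by_cases a : t = 2
      · rw [ne m (by rw [hn]; simp [a])]
        simp [a]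
      · by_cases b : t = 4
        · rw [ne (m + 1) (by rw [hn]; simp [b])]
          simp [a]
        · simp [a, b]
    have e2 : al t (σ m) (σ 0) u = false := by
      unfold al
      rw [ne 0 (by omega)]
      by_cases a : t = 0 ∨ 3 ≤ t
      · have t1 : t ≠ 1 := by omega
        rw [ne m (by rw [hn, if_neg t1]; split <;> omega)]
        simp
      · rw [decide_eq_false a]
        simp
    have e3 : u ∉ (List.range m).map σ ++ [σ 0] := by
      rw [List.mem_append, List.mem_singleton]
      rintro (k | k)
      · exact cn u hu k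
      · exact h.dj 0 (by omega) (k ▸ hu)
    unfold form
    rw [e1, e2, ecy, ex_pe_left e3, h.cb u hu w hw]
    simp
  have ly : lam (σ 0) = fuLy t m := by
    rw [hl 0 (by omega)]
    unfold fuLam
    rw [decide_eq_true (show 0 < m by omega)]
    simp
  have cnt : r.countP lam + 1 = m := by
    have k := pm.countP_eq lam
    obtain ⟨q, rfl⟩ : ∃ q, m = q + 1 := ⟨m - 1, by omega⟩
    have k2 : (chv P).countP lam = 0 := List.countP_eq_zero.mpr fun u hu => by simp [cl u hu]
    have k3 : (((List.range q).map Nat.succ).map σ).countP lam = q := by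
      rw [List.countP_eq_length.mpr]
      · simp
      · intro u hu
        rw [List.map_map] at hu
        obtain ⟨j, hj, rfl⟩ := List.mem_map.mp hu
        have hj' := List.mem_range.mp hj
        have a : j + 1 < q + 1 := by omega
        show lam (σ (j + 1)) = true
        rw [hl (j + 1) (by omega)]
        unfold fuLam
        rw [decide_eq_true a]
        simp
    rw [List.countP_append, k2, List.range_succ_eq_map, List.map_cons, List.countP_cons,
      List.countP_cons, k3] at k
    omega
  have em : m0 t (σ 0) r lam = m := by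
    unfold m0
    split
    · rename_i e
      rw [ly]
      unfold fuLy
      rw [decide_eq_true (Or.inl e)]
      exact cnt
    · exact cnt
  refine ⟨σ 0, r, lam, σ m, σ (m + 1), ⟨?_, ?_, ?_, ?_⟩, ⟨ht, ?_, ?_⟩, em⟩
  · rw [pm2.nodup_iff, List.nodup_append]
    refine ⟨nb, h.nd, ?_⟩
    intro a ha b hb e
    obtain ⟨j, hj, rfl⟩ := List.mem_map.mp ha
    exact h.dj j (List.mem_range.mp hj) (e ▸ hb)
  · intro u
    rw [pm2.mem_iff, h.cov, List.mem_append, List.mem_map]
    simp only [List.mem_range]
  · intro u hu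
    rw [fu_range, List.nodup_append] at nb
    rw [hlam, decide_eq_false fun k => nb.2.2 u k u hu rfl, Bool.false_and]
  · intro u hu w hw ne
    rcases (h.cov u).mp hu with ⟨i, hi, rfl⟩ | cu
    · rcases (h.cov w).mp hw with ⟨j, hj, rfl⟩ | cw
      · have hij : i ≠ j := fun e => ne (e ▸ rfl)
        rw [h.bb i hi j hj hij, fu_form ht (by omega) h.inj rfl (fun _ => rfl) (fun _ => rfl) hl hi hj hij,
          ecy, fu_cyc h.inj hi hj (by omega) mn]
        cases (seqG t m).adj i j <;> cases px σ P (σ i) (σ j) <;> cases rim m i j <;> rfl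
      · rw [hG.1, fu_form_symm]
        exact ch w cw _ hu
    · exact ch u cu w hw
  · rw [em]
    unfold thr
    unfold seqOk at ok
    split <;> omega
  · rw [List.countP_cons, ly]
    unfold okp fuLy
    unfold seqOk at ok
    split
    · rename_i e
      have := of_decide_eq_true e
      omega
    · rename_i e
      have := of_decide_eq_false (Bool.not_eq_true _ ▸ e)
      omega

end Pool.Agent.Lib.MP_d7353d_co.U
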