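import Pool.Agent.Lib.MP_d7353d_co.U1

/-! Expansions of listed graphs are listed; listed graphs are expansions of base graphs. -/

namespace Pool.Agent.Lib.MP_d7353d_co.U

open T

variable {V : Type} [DecidableEq V]

theorem pr_iff {a b i j : ℕ} : pr a b i j = true ↔ (i = a ∧ j = b) ∨ (i = b ∧ j = a) := by
  simp [pr]

theorem pr_false {a b i j : ℕ} : pr a b i j = false ↔ ¬ ((i = a ∧ j = b) ∨ (i = b ∧ j = a)) := by
  simp [pr]

theorem mark_ne {B : MG} (hB : Listed B) : ∀ a, B.mark a a = false := by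
  induction hB with
  | tab x _ => intro a; simp [ofCode, code]
  | seq t m h =>
    intro a
    have hm : 5 ≤ m := by unfold seqOk at h; omega
    show rim m a a = false
    simp only [rim, decide_eq_false_iff_not, or_self, not_and]
    intro h1 _ h2
    rcases Nat.lt_or_ge (a + 1) m with h3 | h3
    · rw [Nat.mod_eq_of_lt h3] at h2; omega
    · have : a + 1 = m := by omega
      rw [this, Nat.mod_self] at h2; omega
  | ins B a b _ ha hb _ ih =>
    intro i
    by_cases e : i = B.n
    · have h1 : B.n ≠ a := by omega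
      have h2 : B.n ≠ b := by omega
      simp [MG.ins, e, h1, h2]
    · simp [MG.ins, e, ih i]

omit [DecidableEq V] in
theorem ends_append (P Q : List (Ch V)) : ends (P ++ Q) = ends P ++ ends Q := by simp [ends]

omit [DecidableEq V] in
theorem ends_cons (a b : ℕ) (c : List V) (P : List (Ch V)) :
    ends ((a, c, b) :: P) = (a, b) :: ends P := rfl

omit [DecidableEq V] in
theorem mem_ends {P : List (Ch V)} {p : ℕ × ℕ} (h : p ∈ ends P) :
    ∃ t ∈ P, p = (t.1, t.2.2) := by
  obtain ⟨t, ht, e⟩ := List.mem_map.mp h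
  exact ⟨t, ht, e.symm⟩

theorem EX.en' {G : Gr V} {S σ n A} {P : List (Ch V)} (h : EX G S σ n A P) :
    ∀ p ∈ ends P, p.1 < n ∧ p.2 < n ∧ p.1 ≠ p.2 := by
  intro p hp
  obtain ⟨t, ht, rfl⟩ := mem_ends hp
  exact h.en t ht

theorem drop_nil (ex : StEx V) {G : Gr V} {S σ n A} : ∀ P : List (Ch V), chv P = [] →
    EX G S σ n A P → EX G S σ n A []
  | [], _, h => h
  | (a, c, b) :: P, e, h => by
    have e' : c ++ chv P = [] := e
    obtain ⟨rfl, e2⟩ := List.append_eq_nil_iff.mp e'
    exact drop_nil ex P e2 ((ex.nil (P1 := [])).mp h).2.2.2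

omit [DecidableEq V] in
theorem split_ch : ∀ P : List (Ch V), chv P ≠ [] →
    ∃ P1 P2 a s c b, P = P1 ++ (a, s :: c, b) :: P2
  | [], h => absurd rfl h
  | (a, [], b) :: P, h => by
    obtain ⟨P1, P2, a', s, c, b', e⟩ := split_ch P h
    exact ⟨(a, [], b) :: P1, P2, a', s, c, b', by rw [e]; rfl⟩
  | (a, s :: c, b) :: P, _ => ⟨[], P, a, s, c, b, rfl⟩

theorem fits_ins {B : MG} {J1 J2 : List (ℕ × ℕ)} {a b : ℕ}
    (en : ∀ p ∈ J1 ++ (a, b) :: J2, p.1 < B.n ∧ p.2 < B.n ∧ p.1 ≠ p.2)
    (h : Fits B.mark (J1 ++ (a, b) :: J2)) :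
    Fits (B.ins a b).mark (J1 ++ (a, B.n) :: (B.n, b) :: J2) := by
  obtain ⟨ha, hb, hab⟩ : a < B.n ∧ b < B.n ∧ a ≠ b := en (a, b) (by simp)
  obtain ⟨h1, h2⟩ := h
  rw [List.pairwise_append, List.pairwise_cons] at h2
  obtain ⟨p1, ⟨p2, p3⟩, p4⟩ := h2
  have old : ∀ p ∈ J1 ++ (a, b) :: J2, pr a b p.1 p.2 = false →
      (B.ins a b).mark p.1 p.2 = true := by
    intro p hp e
    obtain ⟨x, y, _⟩ := en p hp
    simp [MG.ins, x.ne, y.ne, h1 p hp, e]
  refine ⟨?_, ?_⟩
  · intro p hp
    simp only [List.mem_append, List.mem_cons] at hp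
    rcases hp with hp | rfl | rfl | hp
    · refine old p (by simp [hp]) ?_
      have := p4 p hp (a, b) (by simp)
      rw [pr_false] at this ⊢
      simp only at this
      omega
    · simp [MG.ins, ha.ne]
    · simp [MG.ins]
    · exact old p (by simp [hp]) (p2 p hp)
  · rw [List.pairwise_append, List.pairwise_cons, List.pairwise_cons]
    refine ⟨p1, ⟨?_, ?_, p3⟩, ?_⟩
    · intro p hp
      rcases List.mem_cons.mp hp with rfl | hp
      · rw [pr_false]; simp only; omega
      · have := en p (by simp [hp])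
        rw [pr_false]; simp only; omega
    · intro p hp
      have := en p (by simp [hp])
      rw [pr_false]; simp only; omega
    · intro p hp q hq
      have := en p (by simp [hp])
      simp only [List.mem_cons] at hq
      rcases hq with rfl | rfl | hq
      · rw [pr_false]; simp only; omega
      · rw [pr_false]; simp only; omega
      · exact p4 p hp q (by simp [hq])

theorem good_aux (ex : StEx V) (G : Gr V) (S : Finset V) (hG : Sy G) : ∀ k B σ (P : List (Ch V)),
    (chv P).length = k → Listed B → EX G S σ B.n B.adj P → Fits B.mark (ends P) → Lst G S := by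
  intro k
  induction k with
  | zero =>
    intro B σ P e hB h _
    have := ex.base.mp (drop_nil ex P (List.length_eq_zero_iff.mp e) h)
    exact ⟨B, σ, hB, this.1, this.2⟩
  | succ k ih =>
    intro B σ P e hB h f
    obtain ⟨P1, P2, a, s, c, b, rfl⟩ := split_ch P (by intro x; rw [x] at e; simp at e)
    have en := h.en'
    rw [ends_append, ends_cons] at en f
    obtain ⟨ha, hb, _⟩ : a < B.n ∧ b < B.n ∧ a ≠ b := en (a, b) (by simp)
    refine ih (B.ins a b) _ (P1 ++ (a, [], B.n) :: (B.n, c, b) :: P2) ?_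
      (Listed.ins B a b hB ha hb (f.1 (a, b) (by simp))) (ex.ref (c1 := []) hG h) ?_
    · simp only [chv, List.flatMap_append, List.flatMap_cons, List.length_append,
        List.length_cons, List.length_nil] at e ⊢
      omega
    · rw [ends_append, ends_cons, ends_cons]
      exact fits_ins en f

theorem good (V : Type) [DecidableEq V] (ex : StEx V) : StGood V :=
  fun B hB G S σ P hG h f => good_aux ex G S hG _ B σ P rfl hB h f

/-- bring the chain at the pair `ab` to the front -/
theorem align (ex : StEx V) {G : Gr V} {S σ n A} {Q P : List (Ch V)} {a b : ℕ} (ha : a < n)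
    (hb : b < n) (hab : a ≠ b) (h : EX G S σ n A (Q ++ P))
    (pw : (ends P).Pairwise fun p q => pr p.1 p.2 q.1 q.2 = false) :
    ∃ c P', EX G S σ n A (Q ++ (a, c, b) :: P') ∧ (ends P').Sublist (ends P) ∧
      ∀ p ∈ ends P', pr a b p.1 p.2 = false := by
  by_cases hx : ∃ t ∈ P, pr a b t.1 t.2.2 = true
  · obtain ⟨⟨x, c, y⟩, ht, e⟩ := hx
    obtain ⟨P1, P2, rfl⟩ := List.append_of_mem ht
    have h' : EX G S σ n A (Q ++ (x, c, y) :: (P1 ++ P2)) :=
      ex.perm (List.Perm.append_left Q List.perm_middle) h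
    have sl : (ends (P1 ++ P2)).Sublist (ends (P1 ++ (x, c, y) :: P2)) := by
      rw [ends_append, ends_append, ends_cons]
      exact List.Sublist.append_left (List.sublist_cons_self _ _) _
    have ne : ∀ p ∈ ends (P1 ++ P2), pr a b p.1 p.2 = false := by
      rw [ends_append, ends_cons, List.pairwise_append, List.pairwise_cons] at pw
      intro p hp
      rw [ends_append] at hp
      rw [pr_iff] at e
      simp only at e
      rcases List.mem_append.mp hp with hp | hp
      · have := pw.2.2 p hp (x, y) (by simp)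
        rw [pr_false] at this ⊢
        simp only at this
        omega
      · have := pw.2.1.1 p hp
        rw [pr_false] at this ⊢
        simp only at this
        omega
    rcases pr_iff.mp e with ⟨e1, e2⟩ | ⟨e1, e2⟩
    · simp only at e1 e2
      subst e1 e2
      exact ⟨c, _, h', sl, ne⟩
    · simp only at e1 e2
      subst e1 e2
      exact ⟨c.reverse, _, ex.rev h', sl, ne⟩
  · refine ⟨[], P, ex.nil.mpr ⟨ha, hb, hab, h⟩, List.Sublist.refl _, ?_⟩
    intro p hp
    obtain ⟨t, ht, rfl⟩ := mem_ends hp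
    exact Bool.eq_false_iff.mpr fun e => hx ⟨t, ht, e⟩

theorem alignAll (ex : StEx V) {G : Gr V} {S σ n A} : ∀ (J : List (ℕ × ℕ)) (Q P : List (Ch V)),
    (∀ q ∈ J, q.1 < n ∧ q.2 < n ∧ q.1 ≠ q.2) → EX G S σ n A (Q ++ P) →
    ((ends P).Pairwise fun p q => pr p.1 p.2 q.1 q.2 = false) →
    (∀ p ∈ ends P, ∃ q ∈ J, pr q.1 q.2 p.1 p.2 = true) →
    ∃ P', EX G S σ n A (Q ++ P') ∧ ends P' = J
  | [], Q, [], _, h, _, _ => ⟨[], h, rfl⟩
  | [], _, t :: P, _, _, _, cv => by
    obtain ⟨q, hq, _⟩ := cv (t.1, t.2.2) (by simp [ends])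
    simp at hq
  | (a, b) :: J, Q, P, hJ, h, pw, cv => by
    obtain ⟨ha, hb, hab⟩ : a < n ∧ b < n ∧ a ≠ b := hJ (a, b) (by simp)
    obtain ⟨c, P0, h0, sl, ne⟩ := align ex ha hb hab h pw
    obtain ⟨P', h', e⟩ := alignAll ex J (Q ++ [(a, c, b)]) P0 (fun q hq => hJ q (by simp [hq]))
      (by simpa using h0) (pw.sublist sl) (by
        intro p hp
        obtain ⟨q, hq, e⟩ := cv p (sl.subset hp)
        rcases List.mem_cons.mp hq with rfl | hq
        · rw [ne p hp] at e; exact absurd e (by simp)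
        · exact ⟨q, hq, e⟩)
    exact ⟨(a, c, b) :: P', by simpa using h', by rw [ends_cons, e]⟩

theorem mem_mlist {B : MG} {q : ℕ × ℕ} :
    q ∈ mlist B ↔ q.2 < B.n ∧ q.1 < q.2 ∧ B.mark q.1 q.2 = true := by
  obtain ⟨i, j⟩ := q
  simp only [mlist, List.mem_flatMap, List.mem_range, List.mem_map, List.mem_filter, Prod.mk.injEq]
  constructor
  · rintro ⟨j', h1, i', ⟨h2, h3⟩, rfl, rfl⟩
    exact ⟨h1, h2, h3⟩
  · rintro ⟨h1, h2, h3⟩
    exact ⟨j, h1, i, ⟨h2, h3⟩, rfl, rfl⟩

theorem code_symm (c i j : ℕ) : code c i j = code c j i := by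
  simp only [code, max_comm i j, min_comm i j, ne_comm (a := i)]

theorem cases_aux (ex : StEx V) (G : Gr V) (S : Finset V) (hG : Sy G) {B : MG} (hB : Listed B) :
    ∀ σ (P : List (Ch V)), EX G S σ B.n B.adj P → Fits B.mark (ends P) →
      ∃ B J σ P, Base B J ∧ EX G S σ B.n B.adj P ∧ ends P = J := by
  induction hB with
  | tab x hx =>
    intro σ P h f
    obtain ⟨P', h', e⟩ := alignAll ex (mlist (ofCode x)) [] P
      (fun q hq => by have := mem_mlist.mp hq; omega) h f.2 (by
        intro p hp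
        obtain ⟨h1, h2, h3⟩ := h.en' p hp
        have m := f.1 p hp
        rcases Nat.lt_or_gt_of_ne h3 with l | l
        · exact ⟨p, mem_mlist.mpr ⟨h2, l, m⟩, pr_iff.mpr (Or.inl ⟨rfl, rfl⟩)⟩
        · exact ⟨(p.2, p.1), mem_mlist.mpr ⟨h1, l, (code_symm _ _ _).trans m⟩,
            pr_iff.mpr (Or.inr ⟨rfl, rfl⟩)⟩)
    exact ⟨_, _, σ, P', Or.inl ⟨x, hx, rfl, rfl⟩, h', e⟩
  | seq t m ok =>
    intro σ P h f
    have hm : 5 ≤ m := by unfold seqOk at ok; omega
    have hn : m ≤ (seqG t m).n := Nat.le_add_right _ _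
    obtain ⟨P', h', e⟩ := alignAll ex (rimJ m) [] P (by
        intro q hq
        obtain ⟨i, hi, rfl⟩ := List.mem_map.mp hq
        have hi := List.mem_range.mp hi
        have := Nat.mod_lt (i + 1) (show 0 < m by omega)
        refine ⟨by omega, by simp only; omega, ?_⟩
        simp only
        rcases Nat.lt_or_ge (i + 1) m with h3 | h3
        · rw [Nat.mod_eq_of_lt h3]; omega
        · have : i + 1 = m := by omega
          rw [this, Nat.mod_self]; omega) h f.2 (by
        intro p hp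
        have m1 : rim m p.1 p.2 = true := f.1 p hp
        simp only [rim, decide_eq_true_eq] at m1
        obtain ⟨h1, h2, h3 | h3⟩ := m1
        · exact ⟨(p.1, (p.1 + 1) % m), List.mem_map.mpr ⟨p.1, List.mem_range.mpr h1, rfl⟩,
            pr_iff.mpr (Or.inl ⟨rfl, h3.symm⟩)⟩
        · exact ⟨(p.2, (p.2 + 1) % m), List.mem_map.mpr ⟨p.2, List.mem_range.mpr h2, rfl⟩,
            pr_iff.mpr (Or.inr ⟨h3.symm, rfl⟩)⟩)
    exact ⟨_, _, σ, P', Or.inr ⟨t, m, ok, rfl, rfl⟩, h', e⟩
  | ins B a b hB ha hb mk ih =>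
    intro σ P h f
    have hab : a ≠ b := fun e => by rw [e, mark_ne hB] at mk; exact absurd mk (by simp)
    have hn : (B.ins a b).n = B.n + 1 := rfl
    obtain ⟨c1, P1, h1, s1, n1⟩ := align ex (Q := []) (a := a) (b := B.n) (by omega) (by omega)
      ha.ne h f.2
    obtain ⟨c2, P2, h2, s2, n2⟩ := align ex (Q := [(a, c1, B.n)]) (a := B.n) (b := b) (by omega)
      (by omega) hb.ne' h1 (f.2.sublist s1)
    have key : ∀ p ∈ ends P2, p.1 < B.n ∧ p.2 < B.n ∧ B.mark p.1 p.2 = true ∧
        pr a b p.1 p.2 = false := by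
      intro p hp
      have m := f.1 p (s1.subset (s2.subset hp))
      have x1 := pr_false.mp (n1 p (s2.subset hp))
      have x2 := pr_false.mp (n2 p hp)
      obtain ⟨l1, l2, l3⟩ := h.en' p (s1.subset (s2.subset hp))
      by_cases e1 : p.1 = B.n
      · simp [MG.ins, e1] at m; omega
      by_cases e2 : p.2 = B.n
      · simp [MG.ins, e1, e2] at m; omega
      simp only [MG.ins, e1, e2, if_false, Bool.and_eq_true, Bool.not_eq_true'] at m
      exact ⟨by omega, by omega, m.1, m.2⟩
    refine ih σ _ (ex.unref (P1 := []) hG ha hb hab (fun t ht => ?_) h2) ⟨?_, ?_⟩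
    · have := key (t.1, t.2.2) (List.mem_map.mpr ⟨t, ht, rfl⟩)
      exact ⟨this.1, this.2.1⟩
    · intro p hp
      rcases List.mem_cons.mp hp with rfl | hp
      · exact mk
      · exact (key p hp).2.2.1
    · exact List.pairwise_cons.mpr ⟨fun p hp => (key p hp).2.2.2, (f.2.sublist s1).sublist s2⟩

theorem cases (V : Type) [DecidableEq V] (ex : StEx V) : StCases V := by
  rintro G S hG ⟨B, σ, hB, p, e⟩
  exact cases_aux ex G S hG hB σ [] (ex.base.mpr ⟨p, e⟩) ⟨by simp [ends], by simp [ends]⟩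

theorem table_length : table.length = 196 := by decide +kernel

theorem fam_ok : ∀ i < 27, seqOk (famL.getD i (0, 0)).1 (famL.getD i (0, 0)).2 := by
  unfold seqOk
  decide +kernel

theorem fam_mem (t m : ℕ) (ok : seqOk t m) (hm : m ≤ 11) : (t, m) ∈ famL := by
  have h5 : 5 ≤ m := by unfold seqOk at ok; omega
  rcases ok with ⟨rfl, h⟩ | ⟨rfl, h⟩ | ⟨rfl, h⟩ | ⟨rfl, h⟩ | ⟨rfl, h⟩ <;>
    interval_cases m <;> first | decide | omega

theorem tabS : StTab where
  impl i hi := by
    refine ⟨?_, ?_⟩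
    · unfold baseG
      split_ifs with h
      · refine Listed.tab _ ?_
        rw [List.getD_eq_getElem _ _ (by rw [table_length]; exact h)]
        exact List.getElem_mem _
      · exact Listed.seq _ _ (fam_ok _ (by omega))
    · have h := allN_spec implAll i hi
      simp only [implOk, frc_eq, an_iff] at h
      refine ⟨Nat.eq_of_beq_eq_true h.1, fun a ha b hb _ => ?_⟩
      have := an_iff.mp (allN_spec (allN_spec h.2 a ha) b hb)
      exact ⟨eq_of_beq this.1, eq_of_beq this.2⟩
  tab x hx := by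
    obtain ⟨i, hi, e⟩ := List.mem_iff_getElem.mp hx
    have h : i < 196 := table_length ▸ hi
    have g : baseG i = ofCode x := by
      unfold baseG
      rw [if_pos h, List.getD_eq_getElem _ _ hi, e]
    exact ⟨i, h, g, by unfold baseJ; rw [if_pos h, g]⟩
  fam t m ok hm := by
    obtain ⟨i, hi, e0⟩ := List.mem_iff_getElem.mp (fam_mem t m ok hm)
    have e : famL.getD i (0, 0) = (t, m) := by rw [List.getD_eq_getElem _ _ hi, e0]
    refine ⟨i, hi, ?_, ?_⟩
    · unfold baseG
      rw [if_neg (by omega), Nat.add_sub_cancel_left, e]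
    · unfold baseJ
      rw [if_neg (by omega), Nat.add_sub_cancel_left, e]

end Pool.Agent.Lib.MP_d7353d_co.U
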