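import Pool.Agent.Lib.MP_d7353d_co.U1
import Pool.Agent.Lib.MP_d7353d_co.UEx1

/-! Contractions of word graphs. -/

namespace Pool.Agent.Lib.MP_d7353d_co.U

open T

variable {V : Type} [DecidableEq V]

theorem id_both {u w : V} (h : u ≠ w) (x : V) : (decide (u = x) && decide (w = x)) = false := by
  by_cases e : u = x
  · subst e; simp [h.symm]
  · simp [e]

theorem id_lc {G : Gr V} {s u w : V} (h : u ≠ w) : lc G s u w = (G u w ^^ (G u s && G s w)) := by
  simp [lc, h]

/-- the cycle as a path and the two edges at `y` -/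
theorem id_cy (r : List V) : ∃ e : V → Bool, (∀ u, u ∉ r → e u = false) ∧
    ∀ y u w, cy y r u w = (pe r u w ^^ (decide (u = y) && e w) ^^ (decide (w = y) && e u)) := by
  cases r with
  | nil =>
    refine ⟨fun _ => false, fun _ _ => rfl, fun y u w => ?_⟩
    show (ed y y u w ^^ false) = _
    simp [ed, ex_pe_nil]
  | cons a r =>
    obtain ⟨l, b, e⟩ := ex_last a r
    have hb : b ∈ a :: r := by rw [e]; simp
    refine ⟨fun u => decide (u = a) ^^ decide (u = b), fun u hu => ?_, fun y u w => ?_⟩
    · have h1 : u ≠ a := fun x => hu (x ▸ List.mem_cons_self)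
      have h2 : u ≠ b := fun x => hu (x ▸ hb)
      simp [h1, h2]
    · have h1 : cy y (a :: r) u w = (ed y a u w ^^ pe (a :: r ++ [y]) u w) := rfl
      have h2 : a :: r ++ [y] = l ++ b :: [y] := by rw [e]; simp
      rw [h1, h2, ex_pe_append, ← e, ex_pe_cons, ex_pe_one]
      unfold ed
      beta_reduce
      generalize pe (a :: r) u w = D
      cases D <;> cases decide (u = y) <;> cases decide (w = y) <;> cases decide (u = a) <;>
        cases decide (w = a) <;> cases decide (u = b) <;> cases decide (w = b) <;> rfl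

/-- the cycle with one more vertex -/
theorem id_ins (y : V) (r1 : List V) (s : V) (r2 : List V) : ∃ p q, p ∈ y :: r1 ∧ q ∈ y :: r2 ∧
    ∀ u w, cy y (r1 ++ s :: r2) u w =
      (cy y (r1 ++ r2) u w ^^ ed p q u w ^^ ed p s u w ^^ ed s q u w) := by
  obtain ⟨l1, p, e1⟩ := ex_last y r1
  obtain ⟨q, l2, e2⟩ := ex_first r2 y
  refine ⟨p, q, by rw [e1]; simp, ?_, fun u w => ?_⟩
  · have : q ∈ r2 ++ [y] := by rw [e2]; simp
    simpa [or_comm] using this
  · have h1 : y :: (r1 ++ s :: r2) ++ [y] = l1 ++ p :: s :: q :: l2 := by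
      rw [List.cons_append, List.append_assoc, ← List.cons_append, e1, List.cons_append, e2]; simp
    have h2 : y :: (r1 ++ r2) ++ [y] = l1 ++ p :: q :: l2 := by
      rw [List.cons_append, List.append_assoc, ← List.cons_append, e1, e2]; simp
    unfold cy
    rw [h1, h2, ex_pe_append, ex_pe_append l1 p (q :: l2), ex_pe_cons, ex_pe_cons, ex_pe_cons]
    cases pe (l1 ++ [p]) u w <;> cases pe (q :: l2) u w <;> cases ed p q u w <;> cases ed p s u w <;>
      cases ed s q u w <;> rfl

theorem id_b1 : ∀ C lu lw up uq wp wq A B uh wh uy wy : Bool, (up && wp) = false →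
    (uq && wq) = false → (uy && wy) = false → (uh && wh) = false → (B = true → A = true) →
    ((C ^^ ((up && wq) ^^ (uq && wp)) ^^ (((A && uh) ^^ (B && uy)) && lw) ^^
      (((A && wh) ^^ (B && wy)) && lu)) ^^
      ((up ^^ uq ^^ ((A && uh) ^^ (B && uy))) && (wp ^^ wq ^^ ((A && wh) ^^ (B && wy))))) =
    (C ^^ (((A && uh) ^^ (B && uy)) && (lw ^^ (wp ^^ wq) ^^ (B && wy))) ^^
      (((A && wh) ^^ (B && wy)) && (lu ^^ (up ^^ uq) ^^ (B && uy)))) := by decide

theorem id_i1 {t} {G : Gr V} {S y r1 s r2 lam h z} (hG : Sy G) (hk : kap t = false)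
    (W : WF t G S y (r1 ++ s :: r2) lam h z) (hs : lam s = true) :
    WF t (lc G s) (S.erase s) y (r1 ++ r2)
      (fun u => lam u ^^ cy y (r1 ++ s :: r2) s u ^^ (decide (3 ≤ t) && decide (u = y))) h z := by
  obtain ⟨p, q, hp, hq, hc⟩ := id_ins y r1 s r2
  have pm : (ext t h z ++ y :: (r1 ++ s :: r2)).Perm (s :: (ext t h z ++ y :: (r1 ++ r2))) := by
    have : ext t h z ++ y :: (r1 ++ s :: r2) = (ext t h z ++ y :: r1) ++ s :: r2 := by simp
    rw [this]
    refine List.perm_middle.trans ?_
    simp
  have nd := List.nodup_cons.mp (pm.nodup_iff.mp W.nd)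
  have ns := nd.1
  simp only [List.mem_append, List.mem_cons, not_or] at ns hp hq
  obtain ⟨se, sy, s1, s2⟩ := ns
  have t1 : t ≠ 1 ∧ t ≠ 2 := by simpa [kap] using hk
  have he : h ∈ ext t h z := by unfold ext; split_ifs <;> simp_all
  have sh : s ≠ h := fun x => se (x ▸ he)
  have sp : s ≠ p := by rintro rfl; tauto
  have sq : s ≠ q := by rintro rfl; tauto
  have sS : s ∈ S := (W.cov s).mpr (by simp)
  have cs : ∀ u, cy y (r1 ++ s :: r2) s u = (decide (u = p) ^^ decide (u = q)) := by
    intro u
    have : cy y (r1 ++ r2) s u = false := ex_pe_left (by simp [sy, s1, s2]) u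
    rw [hc, this, ex_ed_left sp sq, ex_ed_snd sp, ex_ed_fst sq]
    simp
  have ls : la t lam h z s = true := by
    have : (decide (t = 4) && decide (s = z)) = false := by
      by_cases e : t = 4
      · have : s ≠ z := fun x => se (by subst e; simp [ext, x])
        simp [this]
      · simp [e]
    simp [la, hs, this, t1.2]
  have as : al t h y s = false := by simp [al, sh, sy]
  have gs : ∀ u ∈ S, u ≠ s → G s u = (decide (u = p) ^^ decide (u = q) ^^ al t h y u) := by
    intro u hu ne
    rw [W.adj s sS u hu ne.symm]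
    simp [form, cs, hk, ls, as]
  refine ⟨nd.2, fun u => ?_, fun u hu => ?_, fun u hu w hw ne => ?_⟩
  · rw [Finset.mem_erase, W.cov, pm.mem_iff, List.mem_cons]
    constructor
    · rintro ⟨a, b | b⟩
      · exact absurd b a
      · exact b
    · exact fun a => ⟨fun x => nd.1 (x ▸ a), Or.inr a⟩
  · have dj := (List.nodup_append.mp nd.2).2.2 u hu
    have uy : u ≠ y := dj y (by simp)
    have up : u ≠ p := dj p (by simp; tauto)
    have uq : u ≠ q := dj q (by simp; tauto)
    simp [W.sup u hu, cs, uy, up, uq]
  · obtain ⟨us, hu⟩ := Finset.mem_erase.mp hu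
    obtain ⟨ws, hw⟩ := Finset.mem_erase.mp hw
    have la' : ∀ x, la t (fun u => lam u ^^ cy y (r1 ++ s :: r2) s u ^^
        (decide (3 ≤ t) && decide (u = y))) h z x = (la t lam h z x ^^
        (decide (x = p) ^^ decide (x = q)) ^^ (decide (3 ≤ t) && decide (x = y))) := by
      intro x
      simp only [la, cs]
      cases lam x <;> cases (decide (x = p) ^^ decide (x = q)) <;>
        cases (decide (3 ≤ t) && decide (x = y)) <;> cases (decide (t = 2) && decide (x = h)) <;>
        cases (decide (t = 4) && decide (x = z)) <;> rfl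
    rw [id_lc ne, hG.1 u s, gs u hu us, gs w hw ws, W.adj u hu w hw ne]
    unfold form
    rw [la', la', hc, hk, ex_ed_comm p s, ex_ed_symm s p, ex_ed_symm s q]
    have e1 : ed s p w u = false := by simp [ed, us, ws]
    have e2 : ed s q w u = false := by simp [ed, us, ws]
    rw [e1, e2]
    simp only [Bool.false_and, Bool.xor_false]
    exact id_b1 _ _ _ _ _ _ _ _ _ _ _ _ _ (id_both ne p) (id_both ne q) (id_both ne y) (id_both ne h)
      (by simp only [decide_eq_true_eq]; exact Or.inr)

theorem id_i2 {t} {G : Gr V} {S y s q r lam h z} (hG : Sy G) (hk : kap t = true)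
    (hr : 2 ≤ r.length) (W : WF t G S y (s :: q :: r) lam h z) (hs : lam s = true) :
    WF (t + 2) (lc G s) (S.erase s) y r (fun u => if u = y then !(lam y ^^ lam q) else
      if u = q then false else (lam u ^^ cy y (s :: q :: r) q u)) q h := by
  obtain ⟨a, r, rfl⟩ : ∃ a r', r = a :: r' := by
    cases r with
    | nil => simp at hr
    | cons a r => exact ⟨a, r, rfl⟩
  have tt : t = 1 ∨ t = 2 := by simpa [kap] using hk
  have hc : ∀ u w, cy y (s :: q :: a :: r) u w =
      (ed y s u w ^^ (ed s q u w ^^ (ed q a u w ^^ pe (a :: r ++ [y]) u w))) := fun _ _ => rfl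
  have hc' : ∀ u w, cy y (a :: r) u w = (ed y a u w ^^ pe (a :: r ++ [y]) u w) := fun _ _ => rfl
  have nd := W.nd
  have nd2 := (List.nodup_append.mp nd).2.1
  simp only [List.nodup_cons, List.mem_cons, not_or] at nd2
  obtain ⟨⟨ys, yq, ya, yr⟩, ⟨sq, sa, sr⟩, ⟨qa, qr⟩, ar, ndr⟩ := nd2
  have hh : t = 2 → h ∉ y :: s :: q :: a :: r ∧ lam h = false := by
    rintro rfl
    exact ⟨fun x => (List.nodup_append.mp nd).2.2 h (by simp [ext]) h x rfl, W.sup h (by simp [ext])⟩
  have sS : s ∈ S := (W.cov s).mpr (by simp)
  have a0 : ∀ u, al t h y u = false := by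
    intro u; rcases tt with rfl | rfl <;> simp [al]
  have Ds : ∀ u, pe (a :: r ++ [y]) s u = false :=
    fun u => ex_pe_left (by simp [sa, sr, Ne.symm ys]) u
  have Dq : ∀ u, pe (a :: r ++ [y]) q u = false :=
    fun u => ex_pe_left (by simp [qa, qr, Ne.symm yq]) u
  have l2 : ∀ x ∈ y :: s :: q :: a :: r, la t lam h z x = lam x := by
    intro x hx
    rcases tt with rfl | rfl
    · simp [la]
    · have : x ≠ h := fun e => (hh rfl).1 (e ▸ hx)
      simp [la, this]
  have gs : ∀ u ∈ S, u ≠ s → G s u = (decide (u = y) ^^ decide (u = q) ^^ la t lam h z u) := by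
    intro u hu ne
    rw [W.adj s sS u hu ne.symm]
    unfold form
    rw [hc, Ds, ex_ed_snd (Ne.symm ys), ex_ed_fst sq, ex_ed_left sq sa, l2 s (by simp), hs, hk, a0, a0]
    simp
  have cq : ∀ u, u ≠ s → cy y (s :: q :: a :: r) q u = decide (u = a) := by
    intro u ne
    rw [hc, Dq, ex_ed_left (Ne.symm yq) (Ne.symm sq), ex_ed_snd (Ne.symm sq), ex_ed_fst qa]
    simp [ne]
  refine ⟨?_, fun u => ?_, fun u hu => ?_, fun u hu w hw ne => ?_⟩
  · rcases tt with rfl | rfl
    · simp [ext, *, Ne.symm yq]
    · have := (hh rfl).1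
      simp only [List.mem_cons, not_or] at this
      simp [ext, *, Ne.symm yq, Ne.symm this.2.2.1]
  · rw [Finset.mem_erase, W.cov]
    by_cases e : u = s
    · subst e
      rcases tt with rfl | rfl
      · simp [ext, sq, sa, sr, Ne.symm ys]
      · have := (hh rfl).1
        simp only [List.mem_cons, not_or] at this
        simp [ext, sq, sa, sr, Ne.symm ys, Ne.symm this.2.1]
    · rcases tt with rfl | rfl <;> simp [ext, e] <;> tauto
  · rcases tt with rfl | rfl
    · have : u = q := by simpa [ext] using hu
      simp [this, Ne.symm yq]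
    · have k := (hh rfl).1
      simp only [List.mem_cons, not_or] at k
      have : u = q ∨ u = h := by simpa [ext] using hu
      rcases this with rfl | rfl
      · simp [Ne.symm yq]
      · simp [k.1, k.2.2.1, (hh rfl).2, cq u k.2.1, k.2.2.2.1]
  · obtain ⟨us, hu⟩ := Finset.mem_erase.mp hu
    obtain ⟨ws, hw⟩ := Finset.mem_erase.mp hw
    have la' : ∀ x, x ≠ s → la (t + 2) (fun u => if u = y then !(lam y ^^ lam q) else
        if u = q then false else (lam u ^^ cy y (s :: q :: a :: r) q u)) q h x =
        if x = y then !(lam y ^^ lam q) else if x = q then false else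
          (la t lam h z x ^^ decide (x = a)) := by
      intro x xs
      rcases tt with rfl | rfl
      · simp only [la]
        split_ifs <;> simp [cq x xs]
      · have k := (hh rfl).1
        simp only [List.mem_cons, not_or] at k
        simp only [la]
        split_ifs with e1 e2
        · simp [e1, Ne.symm k.1]
        · simp [e2, Ne.symm k.2.2.1]
        · rw [cq x xs]
          cases lam x <;> cases decide (x = a) <;> cases decide (x = h) <;> rfl
    have al' : ∀ x, al (t + 2) q y x = (decide (x = q) ^^ decide (x = y)) := by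
      intro x; rcases tt with rfl | rfl <;> simp [al]
    have k' : kap (t + 2) = false := by rcases tt with rfl | rfl <;> rfl
    rw [id_lc ne, hG.1 u s, gs u hu us, gs w hw ws, W.adj u hu w hw ne]
    unfold form
    rw [la' u us, la' w ws, al', al', k', hk, a0, a0, hc, hc']
    have ly := l2 y (by simp)
    have lq := l2 q (by simp)
    generalize pe (a :: r ++ [y]) u w = D
    unfold ed
    by_cases uy : u = y
    · subst uy
      by_cases wq : w = q
      · subst wq
        simp only [ly, lq, ne, ne.symm, us, ws, ya, qa, decide_true, decide_false, if_true, if_false]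
        cases D <;> cases lam u <;> cases lam w <;> rfl
      · simp only [ly, ne.symm, us, ws, ya, yq, wq, decide_true, decide_false, if_true, if_false]
        cases D <;> cases lam u <;> cases lam q <;> cases la t lam h z w <;> cases decide (w = a) <;> rfl
    by_cases uq : u = q
    · subst uq
      by_cases wy : w = y
      · subst wy
        simp only [ly, lq, ne, ne.symm, us, ws, ya, qa, decide_true, decide_false, if_true, if_false]
        cases D <;> cases lam u <;> cases lam w <;> rfl
      · simp only [lq, ne.symm, us, ws, qa, uy, wy, decide_true, decide_false, if_true, if_false]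
        cases D <;> cases lam u <;> cases la t lam h z w <;> cases decide (w = a) <;> rfl
    by_cases wy : w = y
    · subst wy
      simp only [ly, us, ws, ya, yq, uy, uq, decide_true, decide_false, if_true, if_false]
      cases D <;> cases lam w <;> cases lam q <;> cases la t lam h z u <;> cases decide (u = a) <;> rfl
    by_cases wq : w = q
    · subst wq
      simp only [lq, us, ws, qa, wy, uy, uq, decide_true, decide_false, if_true, if_false]
      cases D <;> cases lam w <;> cases la t lam h z u <;> cases decide (u = a) <;> rfl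
    simp only [us, ws, wy, wq, uy, uq, decide_false, if_false]
    cases D <;> cases la t lam h z w <;> cases la t lam h z u <;> cases decide (u = a) <;>
      cases decide (w = a) <;> rfl

/-- facts about the types `3` and `4` -/
theorem id_34 {t} {G : Gr V} {S y r lam h z} (hk : kap t = true) (W : WF (t + 2) G S y r lam h z) :
    h ∉ y :: r ∧ lam h = false ∧ kap (t + 2) = false ∧
    (∀ x, al (t + 2) h y x = (decide (x = h) ^^ decide (x = y))) ∧
    (∀ a b x : V, al t a b x = false) ∧
    (∀ x, la (t + 2) lam h z x = (lam x ^^ (decide (t = 2) && decide (x = z)))) ∧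
    (∀ (l : V → Bool) x, la t l z z x = (l x ^^ (decide (t = 2) && decide (x = z)))) ∧
    (t = 2 → z ∉ h :: y :: r ∧ lam z = false) ∧ ext (t + 2) h z = h :: ext t z z := by
  have tt : t = 1 ∨ t = 2 := by simpa [kap] using hk
  have nd := W.nd
  have sp := W.sup
  rcases tt with rfl | rfl
  · simp only [ext] at nd sp
    simp at nd sp
    simp [kap, al, la, ext, nd, sp]
  · simp only [ext] at nd sp
    simp at nd sp
    simp [kap, al, la, ext, nd, sp, Ne.symm nd.1.1]

omit [DecidableEq V] in
theorem id_ext {t} {z u : V} (hk : kap t = true) (hu : u ∈ ext t z z) : t = 2 ∧ u = z := by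
  have tt : t = 1 ∨ t = 2 := by simpa [kap] using hk
  rcases tt with rfl | rfl <;> simp_all [ext]

theorem id_i3 {t} {G : Gr V} {S y r lam h z} (hG : Sy G) (hk : kap t = true)
    (W : WF (t + 2) G S y r lam h z) :
    WF t (lc G h) (S.erase h) y r (fun u => lam u ^^ decide (u = y)) z z := by
  obtain ⟨hr, lh, k2, a2, a0, l2, l0, hz, ee⟩ := id_34 hk W
  have nd := W.nd
  rw [ee, List.cons_append, List.nodup_cons] at nd
  have hy : h ≠ y := fun x => hr (by simp [x])
  have zh : (decide (t = 2) && decide (h = z)) = false := by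
    by_cases e : t = 2
    · have : h ≠ z := fun x => (hz e).1 (by simp [x])
      simp [this]
    · simp [e]
  have hS : h ∈ S := (W.cov h).mpr (by simp [ee])
  have gs : ∀ u ∈ S, u ≠ h → G h u = (lam u ^^ (decide (t = 2) && decide (u = z))) := by
    intro u hu ne
    have : cy y r h u = false := ex_pe_left (by simpa [hy] using hr) u
    rw [W.adj h hS u hu ne.symm]
    unfold form
    rw [this, k2, a2, a2, l2, l2, lh, zh]
    simp [hy]
  refine ⟨nd.2, fun u => ?_, fun u hu => ?_, fun u hu w hw ne => ?_⟩
  · rw [Finset.mem_erase, W.cov, ee, List.cons_append, List.mem_cons]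
    constructor
    · rintro ⟨a, b | b⟩
      · exact absurd b a
      · exact b
    · exact fun a => ⟨fun x => nd.1 (x ▸ a), Or.inr a⟩
  · obtain ⟨e, rfl⟩ := id_ext hk hu
    have : u ≠ y := fun x => (hz e).1 (by simp [x])
    simp [this, (hz e).2]
  · obtain ⟨us, hu⟩ := Finset.mem_erase.mp hu
    obtain ⟨ws, hw⟩ := Finset.mem_erase.mp hw
    rw [id_lc ne, hG.1 u h, gs u hu us, gs w hw ws, W.adj u hu w hw ne]
    unfold form
    rw [k2, hk, a2, a2, a0, a0, l2, l2, l0, l0]
    have := id_both ne y
    simp only [us, ws, decide_false]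
    revert this
    cases cy y r u w <;> cases lam u <;> cases lam w <;> cases decide (u = y) <;>
      cases decide (w = y) <;> cases (decide (t = 2) && decide (u = z)) <;>
      cases (decide (t = 2) && decide (w = z)) <;> decide

theorem id_i4 {t} {G : Gr V} {S y r lam h z} (hG : Sy G) (hk : kap t = true)
    (W : WF (t + 2) G S y r lam h z) :
    WF t (lc G y) (S.erase y) h r (fun u => if u = h then !lam y else (lam u ^^ cy y r y u)) z z := by
  obtain ⟨hr, lh, k2, a2, a0, l2, l0, hz, ee⟩ := id_34 hk W
  obtain ⟨e, e0, he⟩ := id_cy r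
  have pm : (ext (t + 2) h z ++ y :: r).Perm (y :: (ext t z z ++ h :: r)) := by
    rw [ee]
    refine List.perm_middle.trans (List.Perm.cons _ ?_)
    exact List.perm_middle.symm
  have nd := List.nodup_cons.mp (pm.nodup_iff.mp W.nd)
  have hy : h ≠ y := fun x => hr (by simp [x])
  have hr' : h ∉ r := fun x => hr (by simp [x])
  have yr : y ∉ r := fun x => nd.1 (by simp [x])
  have zx : ∀ x ∈ h :: y :: r, (decide (t = 2) && decide (x = z)) = false := by
    intro x hx
    by_cases e : t = 2
    · have : x ≠ z := fun k => (hz e).1 (k ▸ hx)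
      simp [this]
    · simp [e]
  have yS : y ∈ S := (W.cov y).mpr (by simp)
  have cs : ∀ u, cy y r y u = e u := by
    intro u
    rw [he, ex_pe_left yr, e0 y yr]
    simp
  have gs : ∀ u ∈ S, u ≠ y → G y u = (e u ^^ (lam u ^^ (decide (t = 2) && decide (u = z))) ^^
      (decide (u = h) && lam y)) := by
    intro u hu ne
    rw [W.adj y yS u hu ne.symm]
    unfold form
    rw [cs, k2, a2, a2, l2, l2, zx y (by simp)]
    simp [ne, hy.symm]
  refine ⟨nd.2, fun u => ?_, fun u hu => ?_, fun u hu w hw ne => ?_⟩
  · rw [Finset.mem_erase, W.cov, pm.mem_iff, List.mem_cons]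
    constructor
    · rintro ⟨a, b | b⟩
      · exact absurd b a
      · exact b
    · exact fun a => ⟨fun x => nd.1 (x ▸ a), Or.inr a⟩
  · obtain ⟨k, rfl⟩ := id_ext hk hu
    have h1 : u ≠ h := fun x => (hz k).1 (by simp [x])
    have h2 : u ∉ r := fun x => (hz k).1 (by simp [x])
    simp [h1, (hz k).2, cs, e0 u h2]
  · obtain ⟨us, hu⟩ := Finset.mem_erase.mp hu
    obtain ⟨ws, hw⟩ := Finset.mem_erase.mp hw
    rw [id_lc ne, hG.1 u y, gs u hu us, gs w hw ws, W.adj u hu w hw ne]
    unfold form
    rw [k2, hk, a2, a2, a0, a0, l2, l2, l0, l0, he y, he h, cs, cs]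
    have z0 := zx h (by simp)
    have eh := e0 h hr'
    by_cases uh : u = h
    · subst uh
      rw [ex_pe_left hr', z0, eh, lh]
      simp only [us, ws, ne.symm, decide_true, decide_false, if_true, if_false]
      cases lam y <;> cases lam w <;> cases e w <;> cases (decide (t = 2) && decide (w = z)) <;> rfl
    by_cases wh : w = h
    · subst wh
      rw [ex_pe_symm, ex_pe_left hr', z0, eh, lh]
      simp only [us, ws, uh, decide_true, decide_false, if_true, if_false]
      cases lam y <;> cases lam u <;> cases e u <;> cases (decide (t = 2) && decide (u = z)) <;> rfl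
    simp only [us, ws, uh, wh, decide_false, if_false]
    cases pe r u w <;> cases lam u <;> cases lam w <;> cases e u <;> cases e w <;>
      cases (decide (t = 2) && decide (u = z)) <;> cases (decide (t = 2) && decide (w = z)) <;> rfl

theorem id_i5 {G : Gr V} {S y r lam h z} (hG : Sy G) :
    (WF 0 G S y r lam h z → WF 2 (lc G h) S y r lam h z) ∧
    (WF 2 G S y r lam h z → WF 0 (lc G h) S y r lam h z) ∧
    (WF 2 G S y r lam h z → WF 1 G (S.erase h) y r lam h z) := by
  have key : ∀ t, t = 0 ∨ t = 2 → WF t G S y r lam h z → WF (2 - t) (lc G h) S y r lam h z := by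
    intro t tt W
    have ee : ext t h z = [h] := by rcases tt with rfl | rfl <;> rfl
    have e2 : ext (2 - t) h z = [h] := by rcases tt with rfl | rfl <;> rfl
    have nd := W.nd
    have lh : lam h = false := W.sup h (by simp [ee])
    rw [ee, List.singleton_append, List.nodup_cons] at nd
    have hS : h ∈ S := (W.cov h).mpr (by simp [ee])
    have ch : ∀ u, cy y r h u = false := fun u => ex_pe_left (by have := nd.1; simp at this ⊢; tauto) u
    have gs : ∀ u ∈ S, u ≠ h → G h u = lam u := by
      intro u hu ne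
      rw [W.adj h hS u hu ne.symm]
      rcases tt with rfl | rfl <;> simp [form, ch, kap, al, la, lh, ne]
    refine ⟨by rw [e2, ← ee]; exact W.nd, by rw [e2, ← ee]; exact W.cov,
      by rw [e2, ← ee]; exact W.sup, fun u hu w hw ne => ?_⟩
    rw [id_lc ne]
    by_cases uh : u = h
    · subst uh
      rw [hG.2, gs w hw ne.symm]
      rcases tt with rfl | rfl <;> simp [form, ch, kap, al, la, lh, ne.symm]
    by_cases wh : w = h
    · subst wh
      have : cy y r u w = false := (ex_pe_symm _ _ _).trans (ch u)
      rw [hG.2, hG.1 u w, gs u hu ne]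
      rcases tt with rfl | rfl <;> simp [form, this, kap, al, la, lh, ne]
    rw [hG.1 u h, gs u hu uh, gs w hw wh, W.adj u hu w hw ne]
    rcases tt with rfl | rfl <;> simp [form, kap, al, la, uh, wh]
  refine ⟨key 0 (Or.inl rfl), key 2 (Or.inr rfl), fun W => ?_⟩
  have nd : (h :: y :: r).Nodup := W.nd
  rw [List.nodup_cons] at nd
  refine ⟨nd.2, fun u => ?_, fun u hu => by simp [ext] at hu, fun u hu w hw ne => ?_⟩
  · have : u ∈ S ↔ u ∈ h :: y :: r := W.cov u
    rw [Finset.mem_erase, this, List.mem_cons]
    constructor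
    · rintro ⟨a, b | b⟩
      · exact absurd b a
      · exact b
    · exact fun a => ⟨fun x => nd.1 (x ▸ a), Or.inr a⟩
  · obtain ⟨us, hu⟩ := Finset.mem_erase.mp hu
    obtain ⟨ws, hw⟩ := Finset.mem_erase.mp hw
    rw [W.adj u hu w hw ne]
    simp [form, kap, al, la, us, ws]

theorem idS (V : Type) [DecidableEq V] : StId V :=
  ⟨id_i1, id_i2, id_i3, id_i4, id_i5⟩

end Pool.Agent.Lib.MP_d7353d_co.U
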