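import Pool.Agent.Lib.MP_d7353d_co.U1

/-! Job R: a minimal graph whose contraction is a long word graph is listed. -/

namespace Pool.Agent.Lib.MP_d7353d_co.U

open T

variable {V : Type} [DecidableEq V]

theorem l1W_pe_left (l : List V) {u : V} (h : u ∉ l) (w : V) : pe l u w = false := by
  induction l with
  | nil => rfl
  | cons a l ih =>
    cases l with
    | nil => rfl
    | cons b l =>
      have ha : u ≠ a := fun e => h (by simp [e])
      have hb : u ≠ b := fun e => h (by simp [e])
      have := ih fun k => h (List.mem_cons_of_mem _ k)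
      simp [pe, ed, ha, hb, this]

theorem l1W_pe_right (l : List V) {w : V} (h : w ∉ l) (u : V) : pe l u w = false := by
  induction l with
  | nil => rfl
  | cons a l ih =>
    cases l with
    | nil => rfl
    | cons b l =>
      have ha : w ≠ a := fun e => h (by simp [e])
      have hb : w ≠ b := fun e => h (by simp [e])
      have := ih fun k => h (List.mem_cons_of_mem _ k)
      simp [pe, ed, ha, hb, this]

theorem l1W_pe_self (l : List V) (u : V) : pe l u u = false := by
  induction l with
  | nil => rfl
  | cons a l ih =>
    cases l with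
    | nil => rfl
    | cons b l =>
      simp only [pe, ed, ih]
      cases decide (u = a) <;> cases decide (u = b) <;> rfl

/-- suppress all letters `0` -/
theorem l1W_supp (wd : StWd V) {t : ℕ} {v y : V} {lam : V → Bool} {h z : V} (N : V → Bool)
    (r : List V) : ∀ (H : Gr V) (S : Finset V) (r1 : List V), Sy H → (∀ u, H v u = N u) →
    HV t H S v y (r1 ++ r) lam h z → Del H S →
    ∃ H' S', Sy H' ∧ (∀ u, H' v u = N u) ∧
      HV t H' S' v y (r1 ++ r.filter fun u => lam u || N u) lam h z ∧ Del H' S' := by
  induction r with
  | nil => intro H S r1 a b c d; exact ⟨H, S, a, b, c, d⟩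
  | cons s r ih =>
    intro H S r1 a b c d
    by_cases hs : (lam s || N s) = true
    · have c' : HV t H S v y ((r1 ++ [s]) ++ r) lam h z := by simpa using c
      obtain ⟨H', S', a', b', c'', d'⟩ := ih H S (r1 ++ [s]) a b c' d
      refine ⟨H', S', a', b', ?_, d'⟩
      rw [List.filter_cons_of_pos (by simpa using hs)]
      simpa using c''
    · have h1 : lam s = false := by cases hl : lam s <;> simp_all
      have h2 : N s = false := by cases hl : N s <;> simp_all
      obtain ⟨c1, c2⟩ := wd.zeroV a c h1 ((b s).trans h2)
      have hsS : s ∈ S := Finset.mem_of_mem_erase ((c.2.cov s).mpr (by simp))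
      obtain ⟨H', S', a', b', c'', d'⟩ := ih (lc H s) (S.erase s) r1 (a.lc s)
        (fun u => (c2 u).trans (b u)) c1 (d.lc a hsS)
      refine ⟨H', S', a', b', ?_, d'⟩
      rw [List.filter_cons_of_neg (by simpa using hs)]
      exact c''

theorem l1W_mem {t : ℕ} {H : Gr V} {S : Finset V} {v y : V} {r : List V} {lam : V → Bool} {h z : V}
    (c : HV t H S v y r lam h z) (u : V) : u ∈ S ↔ u = v ∨ u ∈ ext t h z ++ y :: r := by
  rw [← c.2.cov u, Finset.mem_erase]
  by_cases e : u = v
  · simp [e, c.1]
  · simp [e]

theorem l1W_v {t : ℕ} {H : Gr V} {S : Finset V} {v y : V} {r : List V} {lam : V → Bool} {h z : V}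
    (c : HV t H S v y r lam h z) : v ∉ y :: r ++ [y] := by
  intro k
  have : v ∈ S.erase v := (c.2.cov v).mpr (by
    simp only [List.cons_append, List.mem_cons, List.mem_append, List.not_mem_nil, or_false] at k ⊢
    tauto)
  simp at this

/-- `H + cycle` does not depend on the rim -/
theorem l1W_row {t : ℕ} {H : Gr V} {S : Finset V} {v y : V} {r : List V} {lam : V → Bool} {h z : V}
    (a : Sy H) (c : HV t H S v y r lam h z) {u w : V} (hu : u ∈ S) (hw : w ∈ S) (ne : u ≠ w) :
    (H u w ^^ cy y r u w) = if u = v then H v w else if w = v then H v u else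
      ((H v u && H v w) ^^ (kap t && la t lam h z u && la t lam h z w) ^^
        (al t h y u && la t lam h z w) ^^ (al t h y w && la t lam h z u)) := by
  by_cases e1 : u = v
  · subst e1
    rw [if_pos rfl, cy, l1W_pe_left _ (l1W_v c), Bool.xor_false]
  by_cases e2 : w = v
  · subst e2
    rw [if_neg e1, if_pos rfl, cy, l1W_pe_right _ (l1W_v c), Bool.xor_false, a.1 u w]
  have := c.2.adj u (Finset.mem_erase.mpr ⟨e1, hu⟩) w (Finset.mem_erase.mpr ⟨e2, hw⟩) ne
  simp only [lc, ne, if_false, form, a.1 u v] at this
  simp only [e1, e2, if_false]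
  revert this
  generalize (kap t && la t lam h z u && la t lam h z w) = x1
  generalize (al t h y u && la t lam h z w) = x2
  generalize (al t h y w && la t lam h z u) = x3
  generalize (H v u && H v w) = x4
  cases H u w <;> cases cy y r u w <;> cases x1 <;> cases x2 <;> cases x3 <;> cases x4 <;> simp

theorem l1W_main (wd : StWd V) (blk : StBlk V) (cls0 : Cls0 V) (lift : StLift V) (pat : StPat V)
    (lwLst : StLwLst V) {t : ℕ} {H : Gr V} {S : Finset V} {v y : V} {r : List V} {lam : V → Bool}
    {h z : V} (a : Sy H) (mn : Mn H S) (c : HV t H S v y r lam h z) (ri : Rich t y r lam)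
    (ly : t < 3 → lam y = true) : Lst H S := by
  by_cases h7 : 7 ≤ r.countP (fun u => lam u || H v u)
  · exact lwLst H S a (pat t H S v y r lam h z a c ri h7 (lift t H S v y r lam h z a c ri ly h7 mn.2))
  obtain ⟨H', S', a', b', c', d'⟩ := l1W_supp wd (H v) r H S [] a (fun _ => rfl) c mn.2
  rw [List.nil_append] at c'
  have hc : (r.filter fun u => lam u || H v u).countP lam = r.countP lam := by
    rw [List.countP_filter]
    congr 1
    funext u
    cases lam u <;> simp
  have ri' : Rich t y (r.filter fun u => lam u || H v u) lam := by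
    refine ⟨ri.1, ?_, ?_⟩
    · have := ri.2.1
      unfold m0 at this ⊢
      rwa [hc]
    · have := ri.2.2
      rw [List.countP_cons] at this ⊢
      rwa [hc]
  have val : (⟨t, H', S', v, y, r.filter fun u => lam u || H v u, lam, h, z⟩ : Wd V).Val := by
    refine ⟨a', c', ri', ?_, ly, d'⟩
    intro u hu
    have := (List.mem_filter.mp hu).2
    show (lam u || H' v u) = true
    rw [b']
    exact this
  rcases cls0 _ val with ⟨_, n, M, J, σ, rok, pl, hS, hJ, hm⟩ | ⟨h8, _⟩
  swap
  · exact absurd (by rw [List.countP_eq_length_filter]; exact h8) h7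
  dsimp only at pl hS hm
  have nd := c.2.nd
  have nd1 : (y :: r).Nodup := (List.nodup_append.mp nd).2.1
  have h2 : 2 ≤ r.countP (fun u => lam u || H v u) := by
    have h3 : r.countP lam ≤ r.countP (fun u => lam u || H v u) :=
      List.countP_mono_left fun u _ hu => by simp [hu]
    have h4 := ri.2.1
    have h5 : 5 ≤ thr t := by unfold thr; split_ifs <;> omega
    have h6 : (lam y).toNat ≤ 1 := Bool.toNat_le _
    unfold m0 at h4
    split_ifs at h4 <;> omega
  have hr : ∀ u ∈ r, u ∉ ext t h z ∧ u ≠ y ∧ u ≠ v := by
    intro u hu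
    refine ⟨fun k => (List.nodup_append.mp nd).2.2 u k u (List.mem_cons_of_mem _ hu) rfl,
      fun e => (List.nodup_cons.mp nd1).1 (e ▸ hu), fun e => l1W_v c (by simp [← e, hu])⟩
  have sub : ∀ u ∈ S', u ∈ S := by
    intro u hu
    rw [l1W_mem c'] at hu
    rw [l1W_mem c]
    simp only [List.mem_append, List.mem_cons, List.mem_filter] at hu ⊢
    tauto
  obtain ⟨P, ex, en⟩ := blk H H' S y r (fun u => lam u || H v u) σ n (bit M) J nd1 h2 pl hJ hm
    (by
      intro u
      rw [← hS, l1W_mem c', l1W_mem c]
      simp only [List.mem_append, List.mem_cons, List.mem_filter]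
      cases (lam u || H v u) <;> simp [or_assoc])
    (by
      intro u hu hz
      rw [← hS, l1W_mem c']
      obtain ⟨k1, k2, k3⟩ := hr u hu
      simp only [List.mem_append, List.mem_cons, List.mem_filter]
      simp only [hz, k1, k2, k3]
      simp)
    (by
      intro u hu w hw ne
      rw [← hS] at hu hw
      rw [l1W_row a c (sub u hu) (sub w hw) ne, l1W_row a' c' hu hw ne, b', b'])
    (by
      intro u hu hz w hw
      obtain ⟨k1, k2, k3⟩ := hr u hu
      have hz' : (lam u || H v u) = false := hz
      have h1 : lam u = false := by cases hl : lam u <;> simp_all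
      have h2 : H v u = false := by cases hl : H v u <;> simp_all
      by_cases e : u = w
      · subst e
        rw [a.2, cy, l1W_pe_self]
      have huS : u ∈ S := (l1W_mem c u).mpr (by simp [hu])
      have := l1W_row a c huS hw e
      have hla : la t lam h z u = false := by
        unfold la
        unfold ext at k1
        by_cases t2 : t = 2
        · subst t2
          have : u ≠ h := by simpa using k1
          simp [h1, this]
        by_cases t4 : t = 4
        · subst t4
          have : u ≠ z := fun e => k1 (by simp [e])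
          simp [h1, this]
        simp [h1, t2, t4]
      have hal : al t h y u = false := by
        unfold al
        unfold ext at k1
        by_cases t1 : t = 1
        · subst t1
          simp
        have : u ≠ h := fun e => k1 (by rw [if_neg t1]; split_ifs <;> simp [e])
        simp [this, k2]
      rw [if_neg k3, h2, hla, hal] at this
      revert this
      cases H u w <;> cases cy y r u w <;> simp)
  exact rok H S σ P a ex en mn

theorem l1W (V : Type) [DecidableEq V] (wd : StWd V) (blk : StBlk V) (cls0 : Cls0 V)
    (lift : StLift V) (pat : StPat V) (lwLst : StLwLst V) : StL1W V := by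
  rintro H S v a hv mn ⟨t, y, r, lam, h, z, wf, ri⟩
  by_cases ly : t < 3 → lam y = true
  · exact l1W_main wd blk cls0 lift pat lwLst a mn ⟨hv, wf⟩ ri ly
  have t3 : t < 3 := by by_contra k; exact ly fun k' => absurd k' k
  have l0 : lam y = false := by cases hl : lam y <;> simp_all
  have h4 := ri.2.1
  have h5 : 5 ≤ thr t := by unfold thr; split_ifs <;> omega
  unfold m0 at h4
  rw [if_pos t3, l0] at h4
  obtain ⟨q, hq, lq⟩ : ∃ q ∈ r, lam q = true := by
    rw [← List.countP_pos_iff]
    simp only [Bool.toNat_false] at h4
    omega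
  obtain ⟨r1, r2, rfl⟩ := List.append_of_mem hq
  refine l1W_main wd blk cls0 lift pat lwLst a mn ⟨hv, wd.rot t3 wf⟩ ⟨ri.1, ?_, ?_⟩ fun _ => lq
  · unfold m0
    rw [if_pos t3, lq]
    simp only [List.countP_append, List.countP_cons, l0, lq, Bool.toNat_false, Bool.toNat_true,
      if_true, Bool.false_eq_true, if_false] at h4 ⊢
    omega
  · have := ri.2.2
    have e : (q :: (r2 ++ y :: r1)).countP lam = (y :: (r1 ++ q :: r2)).countP lam := by
      simp only [List.countP_append, List.countP_cons]
      omega
    rwa [e]

end Pool.Agent.Lib.MP_d7353d_co.U
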