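import Pool.Agent.Lib.MP_d7353d_co.U1

/-! Job Q2: the patterns survive when letters `0` are put back. -/

namespace Pool.Agent.Lib.MP_d7353d_co.U

open T

variable {V : Type} [DecidableEq V]

omit [DecidableEq V] in
theorem lift_cp (b x x' : V) (r : List V) : ∀ a, (x, x') ∈ cp (a :: r ++ [b]) ↔
    ∃ R1 R2 l1 l2, r = R1 ++ R2 ∧ a :: R1 = l1 ++ [x] ∧ R2 ++ [b] = x' :: l2 := by
  induction r with
  | nil =>
    intro a
    constructor
    · intro h
      have h' : x = a ∧ x' = b := by simpa [cp] using h
      exact ⟨[], [], [], [], rfl, by simp [h'.1], by simp [h'.2]⟩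
    · rintro ⟨R1, R2, l1, l2, e, e1, e2⟩
      obtain ⟨rfl, rfl⟩ := List.append_eq_nil_iff.mp e.symm
      have a1 : a = x := by
        have := congrArg List.getLast? e1
        simpa using this
      have a2 : b = x' := by simpa using (List.cons.inj e2).1
      simp [cp, a1, a2]
  | cons c r ih =>
    intro a
    have e0 : cp (a :: (c :: r) ++ [b]) = (a, c) :: cp (c :: r ++ [b]) := rfl
    rw [e0, List.mem_cons, ih c]
    constructor
    · rintro (h | ⟨R1, R2, l1, l2, rfl, e1, e2⟩)
      · obtain ⟨rfl, rfl⟩ := Prod.mk.inj h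
        exact ⟨[], x' :: r, [], r ++ [b], rfl, rfl, rfl⟩
      · exact ⟨c :: R1, R2, a :: l1, l2, rfl, by rw [e1]; rfl, e2⟩
    · rintro ⟨R1, R2, l1, l2, e, e1, e2⟩
      cases R1 with
      | nil =>
        left
        have a1 : a = x := by
          have := congrArg List.getLast? e1
          simpa using this
        rw [List.nil_append] at e
        subst e
        rw [a1, (List.cons.inj e2).1]
      | cons c' R1 =>
        right
        obtain ⟨rfl, rfl⟩ := List.cons.inj e
        cases l1 with
        | nil => simp at e1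
        | cons a' l1 => exact ⟨R1, R2, l1, l2, rfl, (List.cons.inj e1).2, e2⟩

omit [DecidableEq V] in
/-- consecutive after filtering: consecutive before, or a removed letter lies between -/
theorem lift_gap (nz : V → Bool) {y x x' : V} {r : List V}
    (h : (x, x') ∈ cp (y :: r.filter nz ++ [y])) : (x, x') ∈ cp (y :: r ++ [y]) ∨
    ∃ R1 s R2 l1 l2, r = R1 ++ s :: R2 ∧ nz s = false ∧ y :: R1.filter nz = l1 ++ [x] ∧
      R2.filter nz ++ [y] = x' :: l2 := by
  obtain ⟨F1, F2, l1, l2, e, e1, e2⟩ := (lift_cp y x x' _ y).mp h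
  obtain ⟨R1, R2, rfl, rfl, rfl⟩ := List.filter_eq_append_iff.mp e
  by_cases c2 : ∃ s R, R2 = s :: R ∧ nz s = false
  · obtain ⟨s, R, rfl, hs⟩ := c2
    exact Or.inr ⟨R1, s, R, l1, l2, rfl, hs, e1, by simpa [List.filter_cons, hs] using e2⟩
  by_cases c1 : ∃ s R, R1 = R ++ [s] ∧ nz s = false
  · obtain ⟨s, R, rfl, hs⟩ := c1
    exact Or.inr ⟨R, s, R2, l1, l2, by simp, hs, by simpa [List.filter_cons, hs] using e1, e2⟩
  left
  have k2 : ∃ m2, R2 ++ [y] = x' :: m2 := by
    cases R2 with
    | nil => exact ⟨l2, e2⟩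
    | cons s R =>
      have hs : nz s = true := by
        by_contra k
        exact c2 ⟨s, R, rfl, by simpa using k⟩
      rw [List.filter_cons_of_pos hs] at e2
      exact ⟨R ++ [y], by rw [← (List.cons.inj e2).1]; rfl⟩
  have k1 : ∃ m1, y :: R1 = m1 ++ [x] := by
    rcases List.eq_nil_or_concat R1 with rfl | ⟨R, s, rfl⟩
    · exact ⟨l1, e1⟩
    · have hs : nz s = true := by
        by_contra k
        exact c1 ⟨s, R, by simp, by simpa using k⟩
      have : s = x := by
        have := congrArg List.getLast? e1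
        simpa [List.filter_cons, hs, List.getLast?_cons] using this
      exact ⟨y :: R, by simp [this]⟩
  obtain ⟨m1, k1⟩ := k1
  obtain ⟨m2, k2⟩ := k2
  exact (lift_cp y x x' _ y).mpr ⟨R1, R2, m1, m2, rfl, k1, k2⟩

/-- suppress the letters `0` of a segment -/
theorem lift_supp (wd : StWd V) {t : ℕ} {v y : V} {lam : V → Bool} {h z : V} (N : V → Bool)
    (r2 r : List V) : ∀ (H : Gr V) (S : Finset V) (r1 : List V), Sy H → (∀ u, H v u = N u) →
    HV t H S v y (r1 ++ (r ++ r2)) lam h z → Del H S →
    ∃ H' S', Sy H' ∧ (∀ u, H' v u = N u) ∧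
      HV t H' S' v y (r1 ++ ((r.filter fun u => lam u || N u) ++ r2)) lam h z ∧ Del H' S' := by
  induction r with
  | nil => intro H S r1 a b c d; exact ⟨H, S, a, b, c, d⟩
  | cons s r ih =>
    intro H S r1 a b c d
    by_cases hs : (lam s || N s) = true
    · have c' : HV t H S v y ((r1 ++ [s]) ++ (r ++ r2)) lam h z := by simpa using c
      obtain ⟨H', S', a', b', c'', d'⟩ := ih H S (r1 ++ [s]) a b c' d
      refine ⟨H', S', a', b', ?_, d'⟩
      rw [List.filter_cons_of_pos (by simpa using hs)]
      simpa using c''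
    · have h1 : lam s = false := by cases hl : lam s <;> simp_all
      have h2 : N s = false := by cases hl : N s <;> simp_all
      obtain ⟨c1, c2⟩ := wd.zeroV (r2 := r ++ r2) a c h1 ((b s).trans h2)
      have hsS : s ∈ S := Finset.mem_of_mem_erase ((c.2.cov s).mpr (by simp))
      obtain ⟨H', S', a', b', c'', d'⟩ := ih (lc H s) (S.erase s) r1 (a.lc s)
        (fun u => (c2 u).trans (b u)) c1 (d.lc a hsS)
      refine ⟨H', S', a', b', ?_, d'⟩
      rw [List.filter_cons_of_neg (by simpa using hs)]
      exact c''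

theorem lift_m1 {t : ℕ} {b ly : Bool} {x : ℕ} (ht : t < 5) (hb : b = true → kap t = false)
    (hl : t < 3 → ly = true) (hx : x = 2 ∨ x = 3) {k : Cls}
    (hk : k ∈ [(⟨t, b, false, ly, b && decide (3 ≤ t), 1, [x, 0, 2], false, false⟩ : Cls),
      ⟨t, b, false, ly, b && decide (3 ≤ t), 1, [x, 0, 3], false, false⟩,
      ⟨t, b, false, ly, !(b && decide (3 ≤ t)), 1, [0, x], true, false⟩,
      ⟨t, b, false, ly, !(b && decide (3 ≤ t)), 1, [x, 0], false, true⟩]) : k ∈ clsL := by
  refine List.mem_append_left _ (List.mem_flatMap.mpr ⟨t, List.mem_range.mpr ht,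
    List.mem_flatMap.mpr ⟨b, by cases b <;> simp, List.mem_flatMap.mpr ⟨ly, by cases ly <;> simp, ?_⟩⟩⟩)
  rw [if_pos ⟨hb, hl⟩]
  exact List.mem_flatMap.mpr ⟨x, by simpa using hx, hk⟩

theorem lift_m5 {t : ℕ} {mh my : Bool} {p : ℕ} (ht : t = 3 ∨ t = 4) (hp : p = 1 ∨ p = 2) {k : Cls}
    (hk : k ∈ [(⟨t, mh, decide (t = 4), !(my ^^ mh), my, 3, [0, p], true, false⟩ : Cls),
      ⟨t, mh, decide (t = 4), !(my ^^ mh), my, 3, [p, 0], false, true⟩]) : k ∈ clsL :=
  List.mem_append_right _ (List.mem_flatMap.mpr ⟨t, by simpa using ht,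
    List.mem_flatMap.mpr ⟨mh, by cases mh <;> simp, List.mem_flatMap.mpr ⟨my, by cases my <;> simp,
      List.mem_flatMap.mpr ⟨p, by simpa using hp, hk⟩⟩⟩⟩)

omit [DecidableEq V] in
theorem lift_word (f : V → ℕ) (c : ℕ) (A W B : List V) (hA : ∀ u ∈ A, f u = c)
    (hB : ∀ u ∈ B, f u = c) : (A ++ W ++ B).map f =
      List.replicate A.length c ++ W.map f ++ List.replicate B.length c := by
  have k : ∀ l : List V, (∀ u ∈ l, f u = c) → l.map f = List.replicate l.length c := by
    intro l hl
    induction l with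
    | nil => rfl
    | cons a l ih =>
      rw [List.map_cons, hl a (by simp), ih fun u hu => hl u (by simp [hu])]
      rfl
  rw [List.map_append, List.map_append, k A hA, k B hB]

theorem lift_al {t : ℕ} {h y z u : V} {r : List V} (nd : (ext t h z ++ y :: r).Nodup) (hu : u ∈ r) :
    al t h y u = false := by
  have a := List.nodup_append.mp nd
  have h1 : u ≠ y := fun e => (List.nodup_cons.mp a.2.1).1 (e ▸ hu)
  by_cases c : t = 1
  · simp [al, c]
  have h2 : u ≠ h := fun e => a.2.2 h (by unfold ext; split_ifs <;> simp) u (by simp [hu]) e.symm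
  simp [al, h1, h2]

theorem lift_aly {t : ℕ} {h y z : V} {r : List V} (nd : (ext t h z ++ y :: r).Nodup) :
    al t h y y = decide (3 ≤ t) := by
  have a := List.nodup_append.mp nd
  by_cases c : t = 1
  · simp [al, c]
  have h2 : y ≠ h := fun e => a.2.2 h (by unfold ext; split_ifs <;> simp) y (by simp) e.symm
  simp [al, h2]

/-- a letter `0` inside the window of the first pattern -/
theorem lift_bad1 (strip : Strip V) {t : ℕ} {H : Gr V} {S : Finset V} {v y s : V} {F1 F2 : List V}
    {lam : V → Bool} {h z x x' : V} {l1 l2 : List V} {β : Bool} (a : Sy H)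
    (c : HV t H S v y (F1 ++ s :: F2) lam h z) (ht : t < 5)
    (ok : okp t ((y :: (F1 ++ s :: F2)).countP lam)) (ly : t < 3 → lam y = true)
    (len : 7 ≤ F1.length + F2.length) (nz : ∀ u ∈ F1 ++ F2, (lam u || H v u) = true)
    (s1 : lam s = false) (s2 : H v s = false) (e1 : y :: F1 = l1 ++ [x]) (e2 : F2 ++ [y] = x' :: l2)
    (hb : β = true → kap t = false)
    (f : ∀ u ∈ ext t h z ++ y :: (F1 ++ F2),
      H v u = (decide (u = x) ^^ decide (u = x') ^^ (β && al t h y u))) : ¬ Del H S := by
  have nd := c.2.nd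
  have nd' := List.nodup_append.mp nd
  have hx : x ∈ y :: (F1 ++ s :: F2) := by
    have : x ∈ y :: F1 := by rw [e1]; simp
    simp only [List.mem_cons, List.mem_append] at this ⊢
    tauto
  have hx' : x' ∈ y :: (F1 ++ s :: F2) := by
    have : x' ∈ F2 ++ [y] := by rw [e2]; simp
    simp only [List.mem_cons, List.mem_append, List.not_mem_nil] at this ⊢
    tauto
  have g : ∀ u ∈ F1 ++ F2, H v u = (decide (u = x) ^^ decide (u = x')) := by
    intro u hu
    rw [f u (by simp only [List.mem_cons, List.mem_append] at hu ⊢; tauto),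
      lift_al nd (by simp only [List.mem_cons, List.mem_append] at hu ⊢; tauto)]
    simp
  have one : ∀ u ∈ F1 ++ F2, u ≠ x → u ≠ x' → lt H v lam u = 1 := by
    intro u hu n1 n2
    have k := g u hu
    have k2 := nz u hu
    simp only [n1, n2, decide_false, Bool.xor_false] at k
    simp only [k, Bool.or_false] at k2
    simp [lt, k, k2]
  have two : ∀ u, H v u = true → lt H v lam u = 2 ∨ lt H v lam u = 3 := by
    intro u k
    cases hl : lam u <;> simp [lt, k, hl]
  have ls : lt H v lam s = 0 := by simp [lt, s1, s2]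
  have gy : H v y = (decide (y = x) ^^ decide (y = x') ^^ (β && decide (3 ≤ t))) := by
    rw [f y (by simp), lift_aly nd]
  have gh : t ≠ 1 → H v h = β := by
    intro c1
    have m : h ∈ ext t h z := by unfold ext; rw [if_neg c1]; split_ifs <;> simp
    have n1 : h ≠ x := nd'.2.2 h m x hx
    have n2 : h ≠ x' := nd'.2.2 h m x' hx'
    have n3 : h ≠ y := nd'.2.2 h m y (by simp)
    rw [f h (by simp [m])]
    by_cases c2 : t = 2
    · have : β = false := by
        cases β
        · rfl
        · have := hb rfl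
          simp [kap, c2] at this
      simp [n1, n2, this]
    · have : t = 0 ∨ 3 ≤ t := by omega
      simp [n1, n2, n3, al, this]
  have gz : t = 4 → H v z = false := by
    intro c4
    have m : z ∈ ext t h z := by simp [ext, c4]
    have n1 : z ≠ x := nd'.2.2 z m x hx
    have n2 : z ≠ x' := nd'.2.2 z m x' hx'
    have n3 : z ≠ y := nd'.2.2 z m y (by simp)
    have n4 : z ≠ h := by
      have := nd'.1
      simp only [ext, c4] at this
      intro e
      simp [e] at this
    rw [f z (by simp [m])]
    simp [n1, n2, n3, n4, al]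
  have ndr := nd'.2.1
  rcases List.eq_nil_or_concat F1 with rfl | ⟨A, x0, rfl⟩
  · have ex : y = x := by
      have := congrArg List.getLast? e1
      simpa using this
    subst ex
    cases F2 with
    | nil => simp at len
    | cons x0 B =>
      obtain ⟨rfl, _⟩ := List.cons.inj e2
      simp only [List.nil_append, List.nodup_cons, List.mem_cons, not_or] at ndr
      have k : H v x0 = true := by
        rw [g x0 (by simp)]
        simp [Ne.symm ndr.1.2.1]
      refine strip _ (lift_m1 (ly := lam y) ht hb ly (two x0 k) (by right; right; left)) 0 B.length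
        (fun _ => rfl) (by simp) (by simp at len; omega) H S v y _ lam h z a c ok ?_ rfl ?_ gh gz
      · have := lift_word (lt H v lam) 1 [] [s, x0] B (by simp) fun u hu =>
          one u (by simp [hu]) (fun e => ndr.1.2.2 (e ▸ hu)) (fun e => ndr.2.2.1 (e ▸ hu))
        simpa [Cls.word, ls] using this
      · rw [gy]
        simp [ndr.1.2.1]
  · have ex : x0 = x := by
      have := congrArg List.getLast? e1
      simpa [List.getLast?_cons] using this
    subst ex
    simp only [List.concat_eq_append] at *
    cases F2 with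
    | nil =>
      obtain ⟨rfl, _⟩ := List.cons.inj e2
      have n1 : y ∉ A ∧ y ≠ x0 ∧ x0 ∉ A := by
        simp only [List.nodup_cons, List.nodup_append, List.mem_append, List.mem_cons] at ndr
        exact ⟨fun m => ndr.1 (by tauto), fun m => ndr.1 (by tauto),
          fun m => ndr.2.1.2.2 x0 m x0 (by simp) rfl⟩
      have k : H v x0 = true := by
        rw [g x0 (by simp)]
        simp [Ne.symm n1.2.1]
      refine strip _ (lift_m1 (ly := lam y) ht hb ly (two x0 k) (by right; right; right; left))
        A.length 0 (by simp) (fun _ => rfl) (by simp at len; omega) H S v y _ lam h z a c ok ?_ rfl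
        ?_ gh gz
      · have := lift_word (lt H v lam) 1 A [x0, s] [] (fun u hu =>
          one u (by simp [hu]) (fun e => n1.2.2 (e ▸ hu)) (fun e => n1.1 (e ▸ hu))) (by simp)
        simpa [Cls.word, ls] using this
      · rw [gy]
        simp [n1.2.1]
    | cons x1 B =>
      obtain ⟨rfl, _⟩ := List.cons.inj e2
      have n1 : y ≠ x0 ∧ y ≠ x1 ∧ x0 ≠ x1 ∧ x0 ∉ A ∧ x0 ∉ B ∧ x1 ∉ A ∧ x1 ∉ B := by
        simp only [List.nodup_cons, List.nodup_append, List.mem_append, List.mem_cons] at ndr
        exact ⟨fun m => ndr.1 (by tauto), fun m => ndr.1 (by tauto),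
          ndr.2.2.2 x0 (by simp) x1 (by simp), fun m => ndr.2.1.2.2 x0 m x0 (by simp) rfl,
          fun m => ndr.2.2.2 x0 (by simp) x0 (by simp [m]) rfl,
          fun m => ndr.2.2.2 x1 (by simp [m]) x1 (by simp) rfl, ndr.2.2.1.2.1⟩
      have k0 : H v x0 = true := by
        rw [g x0 (by simp)]
        simp [n1.2.2.1]
      have k1 : H v x1 = true := by
        rw [g x1 (by simp)]
        simp [Ne.symm n1.2.2.1]
      have w := lift_word (lt H v lam) 1 A [x0, s, x1] B (fun u hu =>
          one u (by simp [hu]) (fun e => n1.2.2.2.1 (e ▸ hu)) (fun e => n1.2.2.2.2.2.1 (e ▸ hu)))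
        fun u hu =>
          one u (by simp [hu]) (fun e => n1.2.2.2.2.1 (e ▸ hu)) (fun e => n1.2.2.2.2.2.2 (e ▸ hu))
      have my : H v y = (β && decide (3 ≤ t)) := by
        rw [gy]
        simp [n1.1, n1.2.1]
      rcases two x1 k1 with q | q
      · exact strip _ (lift_m1 (ly := lam y) ht hb ly (two x0 k0) (by left)) A.length B.length
          (by simp) (by simp) (by simp at len; omega) H S v y _ lam h z a c ok
          (by simpa [Cls.word, ls, q] using w) rfl my gh gz
      · exact strip _ (lift_m1 (ly := lam y) ht hb ly (two x0 k0) (by right; left)) A.length B.length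
          (by simp) (by simp) (by simp at len; omega) H S v y _ lam h z a c ok
          (by simpa [Cls.word, ls, q] using w) rfl my gh gz

/-- a letter `0` inside the window of the fifth pattern -/
theorem lift_bad5 (strip : Strip V) {t : ℕ} {H : Gr V} {S : Finset V} {v y s : V} {F1 F2 : List V}
    {lam : V → Bool} {h z p : V} (a : Sy H) (c : HV t H S v y (F1 ++ s :: F2) lam h z) (ht : t < 5)
    (ok : okp t ((y :: (F1 ++ s :: F2)).countP lam))
    (len : 7 ≤ F1.length + F2.length) (nz : ∀ u ∈ F1 ++ F2, (lam u || H v u) = true)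
    (s1 : lam s = false) (s2 : H v s = false)
    (e : (∃ l1 l2, y :: F1 = l1 ++ [y] ∧ F2 ++ [y] = p :: l2) ∨
      ∃ l1 l2, y :: F1 = l1 ++ [p] ∧ F2 ++ [y] = y :: l2)
    (h3 : 3 ≤ t) (f : ∀ u ∈ F1 ++ F2, H v u = (lam u ^^ decide (u = p)))
    (fy : (lam y ^^ H v y ^^ H v h) = true) (fz : t = 4 → H v z = true) : ¬ Del H S := by
  have ndr := (List.nodup_append.mp c.2.nd).2.1
  have three : ∀ u ∈ F1 ++ F2, u ≠ p → lt H v lam u = 3 := by
    intro u hu n1
    have k := f u hu
    have k2 := nz u hu
    simp only [n1, decide_false, Bool.xor_false] at k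
    rw [k, Bool.or_self] at k2
    simp [lt, k, k2]
  have lp : p ∈ F1 ++ F2 → lt H v lam p = 1 ∨ lt H v lam p = 2 := by
    intro hu
    have k := f p hu
    cases hl : lam p <;> simp [lt, k, hl]
  have ls : lt H v lam s = 0 := by simp [lt, s1, s2]
  have gy : lam y = !(H v y ^^ H v h) := by
    revert fy
    cases lam y <;> cases H v y <;> cases H v h <;> simp
  have gz : t = 4 → H v z = decide (t = 4) := fun c4 => by simp [fz c4, c4]
  have yn : y ∉ F1 ∧ y ∉ F2 := by
    simp only [List.nodup_cons, List.mem_append, List.mem_cons] at ndr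
    exact ⟨fun m => ndr.1 (by tauto), fun m => ndr.1 (by tauto)⟩
  rcases e with ⟨l1, l2, e1, e2⟩ | ⟨l1, l2, e1, e2⟩
  · have : F1 = [] := by
      rcases List.eq_nil_or_concat F1 with rfl | ⟨A, x0, rfl⟩
      · rfl
      · have := congrArg List.getLast? e1
        have ex : x0 = y := by simpa [List.getLast?_cons] using this
        exact absurd (by simp [ex]) yn.1
    subst this
    cases F2 with
    | nil => simp at len
    | cons x0 B =>
      obtain ⟨rfl, _⟩ := List.cons.inj e2
      simp only [List.nil_append, List.nodup_cons, List.mem_cons, not_or] at ndr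
      refine strip _ (lift_m5 (t := t) (mh := H v h) (my := H v y) (by omega) (lp (by simp))
        (by left)) 0 B.length (fun _ => rfl) (by simp) (by simp at len; omega) H S v y _ lam h z a c
        ok ?_ gy rfl (fun _ => rfl) gz
      have := lift_word (lt H v lam) 3 [] [s, x0] B (by simp) fun u hu =>
        three u (by simp [hu]) (fun e => ndr.2.2.1 (e ▸ hu))
      simpa [Cls.word, ls] using this
  · have : F2 = [] := by
      cases F2 with
      | nil => rfl
      | cons x0 B => exact absurd (by simp [(List.cons.inj e2).1]) yn.2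
    subst this
    rcases List.eq_nil_or_concat F1 with rfl | ⟨A, x0, rfl⟩
    · simp at len
    have ex : x0 = p := by
      have := congrArg List.getLast? e1
      simpa [List.getLast?_cons] using this
    subst ex
    simp only [List.concat_eq_append] at *
    have n1 : x0 ∉ A := by
      simp only [List.nodup_cons, List.nodup_append, List.mem_append, List.mem_cons] at ndr
      exact fun m => ndr.2.1.2.2 x0 m x0 (by simp) rfl
    refine strip _ (lift_m5 (t := t) (mh := H v h) (my := H v y) (by omega) (lp (by simp))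
      (by right; left)) A.length 0 (by simp) (fun _ => rfl) (by simp at len; omega) H S v y _ lam h z
      a c ok ?_ gy rfl (fun _ => rfl) gz
    have := lift_word (lt H v lam) 3 A [x0, s] [] (fun u hu =>
      three u (by simp [hu]) (fun e => n1 (e ▸ hu))) (by simp)
    simpa [Cls.word, ls] using this

omit [DecidableEq V] in
theorem lift_cnt (lam N : V → Bool) (r : List V) :
    (r.filter fun u => lam u || N u).countP lam = r.countP lam := by
  rw [List.countP_filter]
  congr 1
  funext u
  cases lam u <;> simp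

theorem lift (V : Type) [DecidableEq V] (wd : StWd V) (cls0 : Cls0 V) (strip : Strip V) :
    StLift V := by
  intro t H S v y r lam h z a c ri ly h7 d
  obtain ⟨H', S', a', b', c', d'⟩ := lift_supp wd (H v) [] r H S [] a (fun _ => rfl)
    (by simpa using c) d
  rw [List.nil_append, List.append_nil] at c'
  have len : 7 ≤ (r.filter fun u => lam u || H v u).length := by
    rwa [List.countP_eq_length_filter] at h7
  have len2 : 2 ≤ r.length := le_trans (by omega) (List.length_filter_le (fun u => lam u || H v u) r)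
  have pt : PatV t H' S' v y (r.filter fun u => lam u || H v u) lam h z := by
    have := cls0 ⟨t, H', S', v, y, r.filter fun u => lam u || H v u, lam, h, z⟩
      ⟨a', c', by simpa [Rich, m0, List.countP_cons, lift_cnt] using ri,
        fun u hu => by simpa [b'] using (List.mem_filter.mp hu).2, ly, d'⟩
    rcases this with k | k
    · exact absurd k.1 (by simpa using len)
    · exact k.2
  have nd := c.2.nd
  have nd' := List.nodup_append.mp nd
  have ndF := (List.nodup_append.mp c'.2.nd).2.1
  -- a vertex of the long word is a vertex of the short word or a letter `0`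
  have sp : ∀ u ∈ S.erase v, u ∈ S'.erase v ∨ (u ∈ r ∧ lam u = false ∧ H v u = false ∧
      u ∉ y :: (r.filter fun u => lam u || H v u)) := by
    intro u hu
    rw [c'.2.cov]
    have := (c.2.cov u).mp hu
    simp only [List.mem_append, List.mem_cons, List.mem_filter] at this ⊢
    rcases this with k | k | k
    · exact Or.inl (Or.inl k)
    · exact Or.inl (Or.inr (Or.inl k))
    · by_cases q : (lam u || H v u) = true
      · exact Or.inl (Or.inr (Or.inr ⟨k, q⟩))
      · have n : u ≠ y := fun e => (List.nodup_cons.mp nd'.2.1).1 (e ▸ k)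
        refine Or.inr ⟨k, ?_, ?_, ?_⟩
        · cases hl : lam u <;> simp_all
        · cases hl : H v u <;> simp_all
        · rintro (e | e)
          · exact n e
          · exact q e.2
  have cpm : ∀ {x x' : V} {l : List V}, (x, x') ∈ cp (y :: l ++ [y]) → x ∈ y :: l ∧ x' ∈ y :: l := by
    intro x x' l k
    obtain ⟨R1, R2, l1, l2, rfl, e1, e2⟩ := (lift_cp y x x' _ y).mp k
    have m1 : x ∈ y :: R1 := by rw [e1]; simp
    have m2 : x' ∈ R2 ++ [y] := by rw [e2]; simp
    simp only [List.mem_cons, List.mem_append, List.not_mem_nil] at m1 m2 ⊢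
    tauto
  -- keep one letter `0`
  have keep : ∀ R1 s R2, r = R1 ++ s :: R2 → (lam s || H v s) = false →
      ∃ H2 S2, Sy H2 ∧ (∀ u, H2 v u = H v u) ∧ Del H2 S2 ∧
        HV t H2 S2 v y ((R1.filter fun u => lam u || H v u) ++ s ::
          R2.filter fun u => lam u || H v u) lam h z ∧
        okp t ((y :: ((R1.filter fun u => lam u || H v u) ++ s ::
          R2.filter fun u => lam u || H v u)).countP lam) ∧
        7 ≤ (R1.filter fun u => lam u || H v u).length + (R2.filter fun u => lam u || H v u).length ∧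
        (∀ u ∈ (R1.filter fun u => lam u || H v u) ++ R2.filter fun u => lam u || H v u,
          (lam u || H2 v u) = true) ∧ lam s = false ∧ H2 v s = false ∧
        (r.filter fun u => lam u || H v u) =
          (R1.filter fun u => lam u || H v u) ++ R2.filter fun u => lam u || H v u := by
    rintro R1 s R2 rfl hs
    obtain ⟨H1, S1, a1, b1, c1, d1⟩ := lift_supp wd (H v) (s :: R2) R1 H S [] a (fun _ => rfl) c d
    obtain ⟨H2, S2, a2, b2, c2, d2⟩ := lift_supp wd (H v) [] R2 H1 S1
      ((R1.filter fun u => lam u || H v u) ++ [s]) a1 b1 (by simpa using c1) d1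
    have e : ((R1 ++ s :: R2).filter fun u => lam u || H v u) =
        (R1.filter fun u => lam u || H v u) ++ R2.filter fun u => lam u || H v u := by
      rw [List.filter_append, List.filter_cons_of_neg (by simpa using hs)]
    have hs' := Bool.or_eq_false_iff.mp hs
    refine ⟨H2, S2, a2, b2, d2, by simpa using c2, ?_, by rwa [e, List.length_append] at len, ?_,
      hs'.1, (b2 s).trans hs'.2, e⟩
    · have := ri.2.2
      simpa [List.countP_cons, lift_cnt] using this
    · intro u hu
      rw [← e] at hu
      rw [b2]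
      exact (List.mem_filter.mp hu).2
  rcases pt with ⟨β, x, x', hb, cyx, f⟩ | ⟨h1, f⟩ | ⟨hk, q, hq, f⟩ | ⟨h3, f⟩ | ⟨h3, p, cyp, f, fy, fz⟩
  · have key : ∀ x x' : V, (x, x') ∈ cp (y :: (r.filter fun u => lam u || H v u) ++ [y]) →
        (∀ u ∈ S'.erase v, H' v u = (decide (u = x) ^^ decide (u = x') ^^ (β && al t h y u))) →
        PatV t H S v y r lam h z := by
      intro x x' k f
      rcases lift_gap _ k with k' | ⟨R1, s, R2, l1, l2, e, hs, e1, e2⟩
      · refine Or.inl ⟨β, x, x', hb, (wd.adj nd'.2.1 len2).mpr (Or.inl k'), fun u hu => ?_⟩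
        rcases sp u hu with m | ⟨m, _, m2, m3⟩
        · rw [← b', f u m]
        · have n1 : u ≠ x := fun e => m3 (e ▸ (cpm k).1)
          have n2 : u ≠ x' := fun e => m3 (e ▸ (cpm k).2)
          simp [m2, n1, n2, lift_al nd m]
      · obtain ⟨H2, S2, a2, b2, d2, c2, ok, l7, nz, s1, s2, e'⟩ := keep R1 s R2 e hs
        refine absurd d2 (lift_bad1 strip a2 c2 ri.1 ok ly l7 nz s1 s2 e1 e2 hb fun u hu => ?_)
        rw [b2, ← b', f u ((c'.2.cov u).mpr (by rwa [e']))]
    rcases (wd.adj ndF (by omega)).mp cyx with k | k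
    · exact key x x' k f
    · exact key x' x k fun u hu => by rw [f u hu, Bool.xor_comm (decide (u = x))]
  · refine Or.inr (Or.inl ⟨h1, fun u hu => ?_⟩)
    rcases sp u hu with m | ⟨_, m1, m2, _⟩
    · rw [← b', f u m]
    · rw [m1, m2]
  · refine Or.inr (Or.inr (Or.inl ⟨hk, q, ?_, fun u hu => ?_⟩))
    · rcases List.mem_cons.mp hq with e | e
      · simp [e]
      · exact List.mem_cons_of_mem _ (List.mem_filter.mp e).1
    · rcases sp u hu with m | ⟨m, m1, m2, m3⟩
      · rw [← b', f u m]
      · have n1 : u ≠ q := fun e => m3 (e ▸ hq)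
        have t4 : t ≠ 4 := by intro e; simp [kap, e] at hk
        by_cases t2 : t = 2
        · have n2 : u ≠ h := fun e =>
            nd'.2.2 h (by simp [ext, t2]) u (by simp [m]) e.symm
          simp [la, m1, m2, n1, n2, t4]
        · simp [la, m1, m2, n1, t2, t4]
  · refine Or.inr (Or.inr (Or.inr (Or.inl ⟨h3, fun u hu => ?_⟩)))
    rcases sp u hu with m | ⟨m, _, m2, _⟩
    · rw [← b', f u m]
    · rw [m2, lift_al nd m]
  · rw [b', b'] at fy
    rw [b'] at fz
    have good : p ∈ y :: (r.filter fun u => lam u || H v u) → cy y r y p = true →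
        PatV t H S v y r lam h z := by
      intro hp k
      refine Or.inr (Or.inr (Or.inr (Or.inr ⟨h3, p, k, fun u hu => ?_, fy, fz⟩)))
      by_cases q : (lam u || H v u) = true
      · rw [← b', f u (List.mem_filter.mpr ⟨hu, q⟩)]
      · have n : u ≠ p := by
          rintro rfl
          rcases List.mem_cons.mp hp with e | e
          · exact (List.nodup_cons.mp nd'.2.1).1 (e ▸ hu)
          · exact q (List.mem_filter.mp e).2
        have q' := Bool.or_eq_false_iff.mp (Bool.eq_false_iff.mpr q)
        simp [q'.1, q'.2, n]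
    have bad : ∀ R1 s R2, r = R1 ++ s :: R2 → (lam s || H v s) = false →
        ((∃ l1 l2, y :: (R1.filter fun u => lam u || H v u) = l1 ++ [y] ∧
          (R2.filter fun u => lam u || H v u) ++ [y] = p :: l2) ∨
        ∃ l1 l2, y :: (R1.filter fun u => lam u || H v u) = l1 ++ [p] ∧
          (R2.filter fun u => lam u || H v u) ++ [y] = y :: l2) → False := by
      intro R1 s R2 e hs k
      obtain ⟨H2, S2, a2, b2, d2, c2, ok, l7, nz, s1, s2, e'⟩ := keep R1 s R2 e hs
      refine lift_bad5 strip a2 c2 ri.1 ok l7 nz s1 s2 k h3 (fun u hu => ?_) (by rwa [b2, b2])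
        (by rwa [b2]) d2
      rw [b2, ← b', f u (by rwa [e'])]
    rcases (wd.adj ndF (by omega)).mp cyp with k | k
    · rcases lift_gap _ k with k' | ⟨R1, s, R2, l1, l2, e, hs, e1, e2⟩
      · exact good (cpm k).2 ((wd.adj nd'.2.1 len2).mpr (Or.inl k'))
      · exact (bad R1 s R2 e hs (Or.inl ⟨l1, l2, e1, e2⟩)).elim
    · rcases lift_gap _ k with k' | ⟨R1, s, R2, l1, l2, e, hs, e1, e2⟩
      · exact good (cpm k).1 ((wd.adj nd'.2.1 len2).mpr (Or.inr k'))
      · exact (bad R1 s R2 e hs (Or.inr ⟨l1, l2, e1, e2⟩)).elim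

end Pool.Agent.Lib.MP_d7353d_co.U
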