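import Pool.Agent.Lib.MP_d7353d_co.UC
import Pool.Agent.Lib.MP_d7353d_co.TFin0

/-! Listed graphs are minimal non-circle graphs; the statement for simple graphs. -/

namespace Pool.Agent.Lib.MP_d7353d_co.U

open T

theorem sound (cert : Cert ℕ) (ex : StEx ℕ) (cases : StCases ℕ) (tab : StTab) (famW : StFamW ℕ)
    (lstNon : StLstNon ℕ) (delT : StDelT) (delW : StDelW ℕ) : StSound := by
  intro G S hG h
  refine ⟨lstNon G S hG h, ?_⟩
  obtain ⟨B, J, σ, P, hB, hE, hJ⟩ := cases G S hG h
  rcases hB with ⟨x, hx, rfl, rfl⟩ | ⟨t, m, hm, rfl, rfl⟩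
  · obtain ⟨i, hi, e, e'⟩ := tab.tab x hx
    rw [← e] at hE
    refine delT (bN i) (bM i) (baseJ i) (cert.t i hi _ ?_) G S σ P hG
      (exImpl ex tab (by omega) hE) (hJ.trans e'.symm)
    simp [rootT, frc_eq]
  · obtain ⟨y, r, lam, h', z, w1, w2, -⟩ := famW t m G S σ P hG hm hE hJ
    exact delW G S hG ⟨t, y, r, lam, h', z, w1, w2⟩

/-- renaming the vertices -/
theorem circ_map {U V : Type} [DecidableEq U] [DecidableEq V] {f : U → V}
    (hf : Function.Injective f) (G : Gr V) (S : Finset U) :
    Circ (fun u v => G (f u) (f v)) S ↔ Circ G (S.image f) := by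
  have key : ∀ W : List U, Rep (fun u v => G (f u) (f v)) S W ↔ Rep G (S.image f) (W.map f) := by
    intro W
    have c : ∀ u, (W.map f).count (f u) = W.count u := fun u => count_map' fun a _ e => hf e
    have m : ∀ u, f u ∈ S.image f ↔ u ∈ S := fun u => hf.mem_finset_image
    have i : ∀ u v, inv (W.map f) (f u) (f v) = inv W u v := fun u v =>
      inv_map (fun a _ e => hf e) fun a _ e => hf e
    constructor
    · rintro ⟨h1, h2⟩
      refine ⟨fun v => ?_, fun u hu v hv ne => ?_⟩
      · by_cases x : ∃ u, f u = v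
        · obtain ⟨u, rfl⟩ := x
          simp only [c, m, h1 u]
        · rw [if_neg, List.count_eq_zero]
          · intro k
            obtain ⟨u, -, e⟩ := List.mem_map.1 k
            exact x ⟨u, e⟩
          · intro k
            obtain ⟨u, -, e⟩ := Finset.mem_image.1 k
            exact x ⟨u, e⟩
      · obtain ⟨a, ha, rfl⟩ := Finset.mem_image.1 hu
        obtain ⟨b, hb, rfl⟩ := Finset.mem_image.1 hv
        rw [i]
        exact h2 a ha b hb fun e => ne (by rw [e])
    · rintro ⟨h1, h2⟩
      refine ⟨fun v => ?_, fun u hu v hv ne => ?_⟩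
      · have := h1 (f v)
        simpa only [c, m] using this
      · rw [← i]
        exact h2 _ ((m u).2 hu) _ ((m v).2 hv) fun e => ne (hf e)
  constructor
  · rintro ⟨W, h⟩
    exact ⟨_, (key W).1 h⟩
  · rintro ⟨W, h⟩
    have : ∀ x ∈ W, ∃ u, f u = x := fun x hx => by
      obtain ⟨u, -, e⟩ := Finset.mem_image.1 (h.1.mem.1 hx)
      exact ⟨u, e⟩
    obtain ⟨W0, rfl⟩ : ∃ W0 : List U, W0.map f = W := by
      clear h
      induction W with
      | nil => exact ⟨[], rfl⟩
      | cons a W ih =>
        obtain ⟨u, rfl⟩ := this a (by simp)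
        obtain ⟨W0, rfl⟩ := ih fun x hx => this x (List.mem_cons_of_mem _ hx)
        exact ⟨u :: W0, rfl⟩
    exact ⟨W0, (key W0).2 h⟩

theorem listed_symm {B : MG} (h : Listed B) : ∀ i j, B.adj i j = B.adj j i := by
  induction h with
  | tab x _ =>
    intro i j
    simp only [ofCode, code, max_comm i j, min_comm i j, ne_comm (a := i)]
  | seq t m _ =>
    intro i j
    simp only [seqG, max_comm i j, min_comm i j, ne_comm (a := i)]
  | ins B a b _ _ _ _ ih =>
    intro i j
    simp only [MG.ins]
    by_cases h1 : i = B.n <;> by_cases h2 : j = B.n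
    · simp [h1, h2]
    · simp [h1, h2]
    · simp [h1, h2]
    · simp only [h1, h2, if_false, ih i j]
      congr 1
      simp only [pr, decide_eq_decide]
      tauto

/-- minimality of a simple graph in terms of words -/
theorem min_iff (link : StLink) {V : Type} [Fintype V] [DecidableEq V] (G : SimpleGraph V)
    [DecidableRel G.Adj] :
    IsMinNonCircle G ↔ Mn (fun u v => decide (G.Adj u v)) Finset.univ := by
  unfold IsMinNonCircle Mn Del
  rw [link V G]
  refine and_congr Iff.rfl (forall_congr' fun x => ?_)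
  rw [link _ (G.induce {v | v ≠ x})]
  have e : (Finset.univ : Finset {v // v ∈ {v | v ≠ x}}).image Subtype.val =
      Finset.univ.erase x := by
    ext v
    simp
  rw [forall_prop_of_true (Finset.mem_univ x), ← e, ← circ_map Subtype.val_injective]
  exact ⟨fun c => c.congr fun u _ v _ _ => by simp, fun c => c.congr fun u _ v _ _ => by simp⟩

theorem mn_map {U V : Type} [DecidableEq U] [DecidableEq V] {f : U → V}
    (hf : Function.Injective f) (G : Gr V) (S : Finset U) (h : Mn G (S.image f)) :
    Mn (fun u v => G (f u) (f v)) S := by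
  refine ⟨fun c => h.1 ((circ_map hf G S).1 c), fun u hu => (circ_map hf G _).2 ?_⟩
  rw [Finset.image_erase hf]
  exact h.2 _ (Finset.mem_image_of_mem f hu)

theorem main (link : StLink) (complete : ∀ (V : Type) [DecidableEq V], StComplete V)
    (sound : StSound) : StMain := by
  intro V _ G
  classical
  rw [min_iff link]
  have hG : Sy (fun u v => decide (G.Adj u v)) :=
    ⟨fun u v => by simp only [G.adj_comm u v], fun v => by simp⟩
  constructor
  · intro h
    obtain ⟨B, σ, hB, p, e⟩ := complete V _ _ hG h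
    have bij : Function.Bijective fun i : Fin B.n => σ i := by
      refine ⟨fun i j x => Fin.ext (p.inj i i.2 j j.2 x), fun v => ?_⟩
      obtain ⟨i, hi, x⟩ := mem_im.1 (e ▸ Finset.mem_univ v)
      exact ⟨⟨i, hi⟩, x⟩
    refine ⟨B, hB, ⟨SimpleGraph.Iso.symm ⟨Equiv.ofBijective _ bij, fun {i j} => ?_⟩⟩⟩
    simp only [Equiv.ofBijective_apply, MG.graph, SimpleGraph.fromRel_adj]
    by_cases ne : i = j
    · simp [ne]
    · have := (p i i.2 j j.2 fun x => ne (Fin.ext x)).2
      rw [listed_symm hB j i, ← this]
      simp [ne]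
  · rintro ⟨B, hB, ⟨φ⟩⟩
    have s0 : Sy (fun i j : ℕ => decide (i ≠ j) && B.adj i j) :=
      ⟨fun i j => by simp only [ne_comm (a := i), listed_symm hB i j], fun i => by simp⟩
    have m := sound _ (im id B.n) s0 ⟨B, id, hB, fun i _ j _ ne => ⟨ne, by simp [ne]⟩, rfl⟩
    have hf : Function.Injective fun v : V => (φ v).val := fun u v x => φ.injective (Fin.ext x)
    have e : im id B.n = (Finset.univ : Finset V).image fun v => (φ v).val := by
      ext i
      simp only [mem_im, id, Finset.mem_image, Finset.mem_univ, true_and]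
      constructor
      · rintro ⟨j, hj, rfl⟩
        exact ⟨φ.symm ⟨j, hj⟩, by simp⟩
      · rintro ⟨v, rfl⟩
        exact ⟨_, (φ v).2, rfl⟩
    rw [e] at m
    have m2 := mn_map hf _ _ m
    have g : (fun u v => decide (G.Adj u v)) =
        fun u v : V => decide ((φ u).val ≠ (φ v).val) && B.adj (φ u).val (φ v).val := by
      funext u v
      rw [Bool.eq_iff_iff]
      simp only [decide_eq_true_eq, Bool.and_eq_true]
      rw [← φ.map_adj_iff]
      generalize φ u = i
      generalize φ v = j
      simp only [MG.graph, SimpleGraph.fromRel_adj, ne_eq, Fin.ext_iff]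
      rw [listed_symm hB j i, or_self]
    rw [g]
    exact m2

end Pool.Agent.Lib.MP_d7353d_co.U
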