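import Pool.Agent.Lib.MP_d7353d_co.UMat1

/-! Bit level meaning of the matrix operations, second part. -/

namespace Pool.Agent.Lib.MP_d7353d_co.U

open T

namespace Mat

theorem frc_eq {α : Type} (n : ℕ) (k : ℕ → α) : frc n k = k n := by cases n <;> rfl

/-- the sum modulo two of the first `n` values -/
noncomputable def xs (F : ℕ → ℕ) (n : ℕ) : ℕ := Nat.rec 0 (fun j ih => Nat.xor ih (F j)) n

theorem xs_zero (F : ℕ → ℕ) (k : ℕ) : ∀ n, (∀ j < n, (F j).testBit k = false) →
    (xs F n).testBit k = false
  | 0, _ => Nat.zero_testBit k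
  | n + 1, h => by
    show (xs F n ^^^ F n).testBit k = false
    rw [Nat.testBit_xor, xs_zero F k n fun j hj => h j (by omega), h n (by omega)]
    rfl

theorem xs_one (F : ℕ → ℕ) (k j : ℕ) : ∀ n, j < n → (∀ i < n, i ≠ j → (F i).testBit k = false) →
    (xs F n).testBit k = (F j).testBit k
  | 0, h, _ => absurd h (by omega)
  | n + 1, hj, h => by
    show (xs F n ^^^ F n).testBit k = _
    rw [Nat.testBit_xor]
    by_cases e : j = n
    · rw [xs_zero F k n fun i hi => h i (by omega) (by omega), e, Bool.false_xor]
    · rw [xs_one F k j n (by omega) fun i hi => h i (by omega), h n (by omega) (by omega),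
        Bool.xor_false]

theorem dg_lt (c i : ℕ) : dg c i < 32 := Nat.and_lt_two_pow _ (show 31 < 2 ^ 5 by norm_num)

theorem dg_zero (c : ℕ) : dg c 0 = d0 c := rfl

theorem dg_succ (c i : ℕ) : dg c (i + 1) = dg (Nat.shiftRight c 5) i := by
  show (c >>> (5 * (i + 1))) &&& 31 = ((c >>> 5) >>> (5 * i)) &&& 31
  rw [← Nat.shiftRight_add, show 5 * (i + 1) = 5 + 5 * i by ring]

theorem iz_b1 {A x : ℕ} {b : Bool} (h : iz (b1 A x) false b = true) :
    A.testBit x = true ∧ b = true := by
  have e : A.testBit x = (b1 A x != 0) := by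
    show _ = (((A >>> x) &&& 1) != 0)
    rw [Nat.and_comm]
    rfl
  rw [e]
  revert h
  cases b1 A x with
  | zero => intro h; exact absurd h (by simp [iz])
  | succ m => intro h; exact ⟨by simp, h⟩

theorem tk0 : ∀ (k A c : ℕ) (f : ℕ → Bool), tk k A c f = true →
    (∀ i < k, A.testBit (dg c i) = true) ∧ (∀ i < k, ∀ j < k, dg c i = dg c j → i = j) ∧
    ∃ A', f A' = true ∧ (∀ x, A.testBit x = false → A'.testBit x = false) ∧
      ∀ i < k, A'.testBit (dg c i) = false
  | 0, A, _, _, h => ⟨fun _ h => absurd h (by omega), fun _ h => absurd h (by omega), A, h,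
      fun _ h => h, fun _ h => absurd h (by omega)⟩
  | k + 1, A, c, f, h => by
    obtain ⟨h0, h1⟩ := iz_b1 (A := A) (x := d0 c)
      (b := tk k (A ^^^ p2 (d0 c)) (Nat.shiftRight c 5) f) h
    obtain ⟨a1, a2, A', a3, a4, a5⟩ := tk0 k _ _ f h1
    have z : (A ^^^ p2 (d0 c)).testBit (d0 c) = false := by
      rw [Nat.testBit_xor, h0, p2_bit]
      simp
    have ne : ∀ i < k, d0 c ≠ dg (Nat.shiftRight c 5) i := fun i hi e => by
      have := a1 i hi
      rw [← e, z] at this
      exact absurd this (by simp)
    refine ⟨fun i hi => ?_, fun i hi j hj e => ?_, A', a3, fun x hx => a4 x ?_, fun i hi => ?_⟩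
    · cases i with
      | zero => exact h0
      | succ i =>
        have := a1 i (by omega)
        rw [Nat.testBit_xor, p2_bit, decide_eq_false (ne i (by omega)), Bool.xor_false] at this
        rwa [dg_succ]
    · cases i with
      | zero =>
        cases j with
        | zero => rfl
        | succ j => exact absurd (e.trans (dg_succ c j)) (ne j (by omega))
      | succ i =>
        cases j with
        | zero => exact absurd (e.symm.trans (dg_succ c i)) (ne i (by omega))
        | succ j =>
          rw [dg_succ, dg_succ] at e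
          rw [a2 i (by omega) j (by omega) e]
    · rw [Nat.testBit_xor, hx, p2_bit, Bool.false_xor]
      refine decide_eq_false fun e => ?_
      rw [← e, h0] at hx
      exact absurd hx (by simp)
    · cases i with
      | zero => exact a4 _ z
      | succ i =>
        rw [dg_succ]
        exact a5 i (by omega)

theorem perm (n c M : ℕ) (hn : n ≤ 32) (inj : ∀ i < n, ∀ j < n, dg c i = dg c j → i = j)
    (i : ℕ) (hi : i < n) (j : ℕ) (hj : j < n) :
    bit (permM n c M) (dg c i) (dg c j) = bit M i j := by
  unfold permM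
  rw [frc_eq]
  show (xs (fun i => row (xs (fun j => col M j <<< dg c j) n) i <<< (32 * dg c i)) n).testBit
    (32 * dg c i + dg c j) = _
  have l := dg_lt c j
  rw [xs_one _ _ i n hi fun i' hi' ne => by
    have : dg c i' ≠ dg c i := fun e => ne (inj i' hi' i hi e)
    rw [Nat.testBit_shiftLeft, row_bit]
    by_contra q
    simp only [Bool.not_eq_false, Bool.and_eq_true, decide_eq_true_eq] at q
    omega]
  rw [Nat.testBit_shiftLeft, row_bit, show 32 * dg c i + dg c j - 32 * dg c i = dg c j by omega,
    xs_one _ _ j n hj fun j' hj' ne => by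
      have : dg c j' ≠ dg c j := fun e => ne (inj j' hj' j hj e)
      have := dg_lt c j'
      rw [Nat.testBit_shiftLeft, col_bit]
      by_contra q
      simp only [Bool.not_eq_false, Bool.and_eq_true, decide_eq_true_eq] at q
      have := cm_dvd _ q.2.2
      omega]
  rw [Nat.testBit_shiftLeft, col_bit, show 32 * i + dg c j - dg c j = 32 * i by omega,
    cm_bit i (by omega), add_comm j]
  simp [bit, l]

theorem toM (A : Gr ℕ) (i j : ℕ) (ji : j < i) : ∀ n, n ≤ 32 → i < n →
    bit (toM n A) i j = A i j ∧ bit (toM n A) j i = A i j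
  | 0, _, h => absurd h (by omega)
  | n + 1, hn, h => by
    have e : U.toM (n + 1) A = U.addv (U.toM n A) n (xs (fun j => ib (A n j) (p2 j) 0) n) := rfl
    rw [e, addv _ n _ i j (by omega) (by omega) (by omega) (by omega),
      addv _ n _ j i (by omega) (by omega) (by omega) (by omega), if_neg (show ¬j = n by omega),
      if_neg (show ¬j = n by omega)]
    by_cases q : i = n
    · subst q
      rw [if_pos rfl, if_pos rfl, and_self, xs_one _ _ j i ji fun k _ ne => by
        cases A i k
        · exact Nat.zero_testBit j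
        · exact (p2_bit k j).trans (decide_eq_false ne)]
      cases A i j
      · exact Nat.zero_testBit j
      · exact (p2_bit j j).trans (decide_eq_true rfl)
    · rw [if_neg q, if_neg q]
      exact toM A i j ji n (by omega) (by omega)

end Mat

theorem mat : StMat where
  lc := Mat.lc
  tog := Mat.tog
  clr := Mat.clr
  addv := Mat.addv
  ins := Mat.ins
  insJ := Mat.insJ
  tk k A c f h := by
    obtain ⟨a1, a2, A', a3, _, a5⟩ := Mat.tk0 k A c f h
    refine ⟨a1, a2, A', a3, fun i hi => ?_⟩
    rw [Nat.testBit_xor, a1 i hi, a5 i hi]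
    rfl
  perm := Mat.perm
  toM n A i j hn ji h := Mat.toM A i j ji n hn h
  pull := Mat.pull

end Pool.Agent.Lib.MP_d7353d_co.U
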