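import Pool.Agent.Lib.MP_d7353d_co.U1
import Pool.Agent.Lib.MP_d7353d_co.TFin0

/-! Soundness of the certificates for circle and non-circle graphs. -/

namespace Pool.Agent.Lib.MP_d7353d_co.U

open T

set_option linter.unusedSimpArgs false
set_option linter.unusedSectionVars false

variable {V : Type} [DecidableEq V]

theorem row_bit (M i : ℕ) {j : ℕ} (hj : j < 32) : (row M i).testBit j = bit M i j := by
  show ((M >>> (32 * i)) &&& (2 ^ 32 - 1)).testBit j = _
  rw [Nat.testBit_and, Nat.testBit_shiftRight, Nat.testBit_two_pow_sub_one]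
  simp [hj, bit]

def wf (k alt i j : ℕ) : Bool :=
  decide ((i + 1) % k = j) ^^ decide ((i + (k - 1)) % k = j) ^^ (alt.testBit i && decide (k = j))

theorem emb_spec (mat : StMat) {M A k alt c : ℕ} (h : emb M A k alt c = true) :
    (∀ i < k + 1, A.testBit (dg c i) = true) ∧
    (∀ i < k + 1, ∀ j < k + 1, dg c i = dg c j → i = j) ∧
    ∀ i < k, ∀ j < k + 1, bit M (dg c i) (dg c j) = wf k alt i j := by
  obtain ⟨h1, h2, A', h3, h4⟩ := mat.tk _ _ _ _ h
  refine ⟨h1, h2, fun i hi j hj => ?_⟩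
  rw [frc_eq, frc_eq] at h3
  have e := Nat.eq_of_beq_eq_true (allN_spec h3 i hi)
  have e' : (row M (dg c i) &&& (A ^^^ A')).testBit (dg c j) =
      ((p2 (dg c ((i + 1) % k)) ^^^ p2 (dg c ((i + (k - 1)) % k))) ^^^
        (p2 (dg c k) * b1 alt i)).testBit (dg c j) := congrArg (fun x => Nat.testBit x (dg c j)) e
  have d : ∀ a < k + 1, decide (dg c a = dg c j) = decide (a = j) := fun a ha =>
    decide_eq_decide.2 ⟨h2 a ha j hj, fun e => by rw [e]⟩
  have m : ∀ a, a % k < k + 1 := fun a => Nat.lt_succ_of_lt (Nat.mod_lt _ (by omega))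
  rw [Nat.testBit_and, h4 j hj, row_bit _ _ (dg_lt _ _), Bool.and_true, Nat.testBit_xor,
    Nat.testBit_xor, testBit_p2, testBit_p2, d _ (m _), d _ (m _), b1_eq] at e'
  rw [e', wf]
  cases alt.testBit i
  · simp
  · simp [testBit_p2, d k (by omega)]

theorem emb_to (mat : StMat) {G : Gr V} {S : Finset V} {σ : ℕ → V} {n M A k alt c : ℕ} {O : Gr ℕ}
    (hG : Sy G) (p : Pull G σ n (bit M)) (hA : ∀ i, A.testBit i = true → i < n ∧ σ i ∈ S)
    (hO : ∀ i < k, ∀ j < k + 1, i ≠ j → O i j = wf k alt i j ∧ O j i = wf k alt i j)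
    (h : emb M A k alt c = true) : Emb G S (k + 1) O := by
  obtain ⟨h1, h2, h3⟩ := emb_spec mat h
  have key : ∀ i < k, ∀ j < k + 1, i ≠ j →
      σ (dg c i) ≠ σ (dg c j) ∧ G (σ (dg c i)) (σ (dg c j)) = wf k alt i j := fun i hi j hj ne => by
    have := p _ (hA _ (h1 i (by omega))).1 _ (hA _ (h1 j hj)).1 fun e => ne (h2 i (by omega) j hj e)
    exact ⟨this.1, this.2.trans (h3 i hi j hj)⟩
  refine ⟨fun i => σ (dg c i), fun i hi => (hA _ (h1 i hi)).2, fun i hi j hj ne => ?_⟩
  by_cases hk : i < k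
  · exact ⟨(key i hk j hj ne).1, (key i hk j hj ne).2.trans (hO i hk j hj ne).1.symm⟩
  · have hj' : j < k := by omega
    exact ⟨(key j hj' i hi ne.symm).1.symm,
      ((hG.1 _ _).trans (key j hj' i hi ne.symm).2).trans (hO j hj' i hi ne.symm).2.symm⟩

theorem fin_non (mat : StMat) (non : StNon) {G : Gr V} {S : Finset V} {σ : ℕ → V} {n M A c : ℕ}
    (hG : Sy G) (p : Pull G σ n (bit M)) (hA : ∀ i, A.testBit i = true → i < n ∧ σ i ∈ S)
    (h : fin A M c = true) : ¬ Circ G S := by
  apply non V G S hG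
  unfold fin at h
  generalize d0 c = t at h
  rcases t with _ | _ | t
  · exact .inl (emb_to mat hG p hA (k := 5) (alt := 31) (by decide) h)
  · exact .inr (.inl (emb_to mat hG p hA (k := 7) (alt := 127) (by decide) h))
  · exact .inr (.inr (emb_to mat hG p hA (k := 6) (alt := 21) (by decide) h))

theorem lcs_non (mat : StMat) (non : StNon) {S : Finset V} {σ : ℕ → V} {n A : ℕ} (hn : n ≤ 32)
    (hA : ∀ i, A.testBit i = true → i < n ∧ σ i ∈ S) (k : ℕ) : ∀ (G : Gr V) M c, Sy G →
    Pull G σ n (bit M) → lcs A k M c = true → ¬ Circ G S := by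
  induction k with
  | zero => exact fun G M c hG p h => fin_non mat non hG p hA h
  | succ k ih =>
    intro G M c hG p h
    have h' : iz (b1 A (d0 c)) false
      (frc (lcM M (d0 c)) fun M' => lcs A k M' (Nat.shiftRight c 5)) = true := h
    rw [iz_eq, frc_eq, b1_eq] at h'
    have hb : A.testBit (d0 c) = true := by
      by_contra e
      simp [e] at h'
    rw [hb, if_neg (by decide)] at h'
    exact fun cc => ih _ _ _ (hG.lc _) (mat.pull V G σ n M _ hG p hn (hA _ hb).1) h'
      (cc.lc hG (hA _ hb).2)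

theorem ncS (mat : StMat) (non : StNon) : StNc := by
  refine ⟨fun V _ G S σ n M A c hG p hn hA h => lcs_non mat non hn hA _ G M _ hG p h,
    fun V _ G σ n M u c hG p h => ?_⟩
  rw [kl, an_iff, an_iff, frc_eq] at h
  obtain ⟨h1, h2, h3⟩ := h
  have hn : n ≤ 32 := Nat.le_of_ble_eq_true h1
  have hu : u < n := by simpa [Nat.blt_eq] using h2
  refine ⟨hu, hn, fun S hS => lcs_non mat non hn (fun i hi => ?_) _ G M _ hG p h3⟩
  have hi' : (lo n ^^^ p2 u).testBit i = true := hi
  rw [Nat.testBit_xor, testBit_lo, testBit_p2] at hi'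
  have : i < n ∧ i ≠ u := by
    by_cases e : u = i
    · simp [← e, hu] at hi'
    · exact ⟨by simpa [e] using hi', Ne.symm e⟩
  exact ⟨this.1, hS i this.1 this.2⟩

structure RdI (P : List ℕ) (o t acc : ℕ) : Prop where
  lt : ∀ a ∈ P, a < 32
  le : ∀ j, P.count j ≤ 2
  od : ∀ j, o.testBit j = par P j
  tw : ∀ j, t.testBit j = decide (P.count j = 2)
  ac : ∀ i, ∀ j < 32, bit acc i j = inv P j i

theorem RdI.step {P : List ℕ} {o t acc d : ℕ} (h : RdI P o t acc) (hd : d < 32)
    (ht : t.testBit d = false) :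
    RdI (P ++ [d]) (o ^^^ p2 d) (t ||| (o &&& p2 d)) (acc ^^^ (o <<< (32 * d))) := by
  have c2 : P.count d ≠ 2 := by simpa [h.tw] using ht
  have c1 := h.le d
  refine ⟨fun a ha => ?_, fun j => ?_, fun j => ?_, fun j => ?_, fun i j hj => ?_⟩
  · rcases List.mem_append.1 ha with e | e
    · exact h.lt a e
    · simp at e; omega
  · have := h.le j
    by_cases e : d = j
    · subst e; simp; omega
    · simp [List.count_cons, e, this]
  · rw [Nat.testBit_xor, h.od, testBit_p2, par_append]; simp [par]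
  · rw [Nat.testBit_or, Nat.testBit_and, h.od, h.tw, testBit_p2, par_eq]
    by_cases e : d = j
    · subst e
      rw [Bool.eq_iff_iff]; simp; omega
    · simp [List.count_cons, e]
  · have big : ∀ x, 32 ≤ x → o.testBit x = false := fun x hx => by
      rw [h.od]; exact par_of_not_mem fun e => by have := h.lt x e; omega
    have := h.ac i j hj
    unfold bit at this ⊢
    rw [Nat.testBit_xor, this, inv_append, Nat.testBit_shiftLeft]
    by_cases e : d = i
    · subst e; simp [inv, par, h.od]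
    · by_cases e' : 32 * i + j ≥ 32 * d
      · rw [big _ (by omega)]; simp [inv, par, e]
      · simp [inv, par, e, e']

theorem rd_spec (f : ℕ → ℕ → ℕ → Bool) (k : ℕ) : ∀ c o t acc P, RdI P o t acc →
    rd k c o t acc f = true → ∃ P o t acc, RdI P o t acc ∧ f o t acc = true := by
  induction k with
  | zero => exact fun c o t acc P h e => ⟨P, o, t, acc, h, e⟩
  | succ k ih =>
    intro c o t acc P h e
    have e' : iz (b1 t (d0 c)) (frc (acc ^^^ (o <<< (32 * d0 c))) fun acc' =>
      frc (o ^^^ p2 (d0 c)) fun o' => frc (t ||| (o &&& p2 (d0 c))) fun t' =>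
        rd k (Nat.shiftRight c 5) o' t' acc' f) false = true := e
    rw [iz_eq, frc_eq, frc_eq, frc_eq, b1_eq] at e'
    have hb : t.testBit (d0 c) = false := by
      by_contra x
      simp [eq_true_of_ne_false x] at e'
    rw [hb, if_pos (by decide)] at e'
    exact ih _ _ _ _ _ (h.step (d0_lt c) hb) e'

theorem cwS : StCw := by
  intro V _ G σ n M u c _ p hu h
  rw [cw, an_iff] at h
  have hn : n ≤ 32 := Nat.le_of_ble_eq_true h.1
  obtain ⟨P, o, t, acc, I, e⟩ := rd_spec _ _ _ _ _ _ []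
    ⟨by simp, by simp, by simp [par], by simp, by simp [bit, inv]⟩ h.2
  rw [an_iff, an_iff] at e
  obtain ⟨e1, e2, e3⟩ := e
  have e1 : o = 0 := Nat.eq_of_beq_eq_true e1
  have e2 : t = lo n ^^^ p2 u := Nat.eq_of_beq_eq_true e2
  have ev : ∀ j, par P j = false := fun j => by rw [← I.od, e1]; simp
  have tb : ∀ j, t.testBit j = decide (j < n ∧ j ≠ u) := fun j => by
    rw [e2, Nat.testBit_xor, testBit_lo, testBit_p2]
    by_cases x : u = j
    · simp [← x, hu]
    · simp [x, Ne.symm x]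
  have cn : ∀ j, P.count j = if j < n ∧ j ≠ u then 2 else 0 := fun j => by
    have a := ev j
    have b := I.le j
    have d := (I.tw j).symm.trans (tb j)
    rw [par_eq] at a
    have a : ¬ P.count j % 2 = 1 := by simpa using a
    have d : P.count j = 2 ↔ (j < n ∧ j ≠ u) := decide_eq_decide.1 d
    split_ifs with x
    · exact d.2 x
    · have := mt d.1 x; omega
  have mem : ∀ a ∈ P, a < n ∧ a ≠ u := fun a ha => by
    have := List.count_pos_iff.2 ha
    rw [cn] at this
    by_contra x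
    simp [x] at this
  have ij : ∀ j < n, ∀ a ∈ P, σ a = σ j → a = j := fun j hj a ha => p.inj a (mem a ha).1 j hj
  have ms : ∀ v, v ∈ (im σ n).erase (σ u) ↔ ∃ j, (j < n ∧ j ≠ u) ∧ σ j = v := fun v => by
    rw [Finset.mem_erase, mem_im]
    constructor
    · rintro ⟨x, j, hj, rfl⟩
      exact ⟨j, ⟨hj, fun y => x (by rw [y])⟩, rfl⟩
    · rintro ⟨j, ⟨hj, x⟩, rfl⟩
      exact ⟨fun y => x (p.inj j hj u hu y), j, hj, rfl⟩
  refine ⟨P.map σ, fun v => ?_, fun v hv w hw ne => ?_⟩
  · split_ifs with x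
    · obtain ⟨j, hj, rfl⟩ := (ms v).1 x
      rw [count_map' (ij j hj.1), cn, if_pos hj]
    · rw [List.count_eq_zero]
      intro y
      obtain ⟨a, ha, rfl⟩ := List.mem_map.1 y
      exact x ((ms _).2 ⟨a, mem a ha, rfl⟩)
  · obtain ⟨i, hi, rfl⟩ := (ms v).1 hv
    obtain ⟨j, hj, rfl⟩ := (ms w).1 hw
    have nij : i ≠ j := fun x => ne (by rw [x])
    rw [inv_map (ij i hi.1) (ij j hj.1), (p i hi.1 j hj.1 nij).2]
    have r := allN_spec e3 i hi.1
    rw [ib_eq, if_neg (fun x => hi.2 (Nat.eq_of_beq_eq_true x))] at r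
    have r' : ((row acc i ^^^ row M i) &&& (t ^^^ p2 i)).testBit j = Nat.testBit 0 j :=
      congrArg (fun x => Nat.testBit x j) (Nat.eq_of_beq_eq_true r)
    have j32 : j < 32 := by omega
    rw [Nat.testBit_and, Nat.testBit_xor, Nat.testBit_xor, row_bit _ _ j32, row_bit _ _ j32, tb,
      testBit_p2, I.ac i j j32, inv_swap P nij, ev] at r'
    revert r'
    cases inv P i j <;> cases bit M i j <;> simp [hj, nij]

end Pool.Agent.Lib.MP_d7353d_co.U
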