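import Pool.Agent.Lib.MP_d7353d_co.U1

/-! The three obstructions are not circle graphs (Naji equations on words). -/

namespace Pool.Agent.Lib.MP_d7353d_co.U

open T

set_option linter.unusedSimpArgs false

variable {V : Type} [DecidableEq V]

/-- parity of the number of occurrences of `u` before the first `v` -/
def be : List V → V → V → Bool
  | [], _, _ => false
  | a :: l, u, v => if a = v then false else (decide (a = u) ^^ be l u v)

section fm

variable {U : Type} [DecidableEq U] {g : V → Option U}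

theorem fm_count {u : V} {i : U} (h : ∀ a, g a = some i ↔ a = u) (W : List V) :
    (W.filterMap g).count i = W.count u := by
  induction W with
  | nil => rfl
  | cons a W ih =>
    have ha := h a
    rcases e : g a with _ | b
    · have : ¬ a = u := fun k => by simp [e, k] at ha; simp [← k, e] at ha
      simp [List.filterMap_cons, e, ih, List.count_cons, this]
    · have : b = i ↔ a = u := by simpa [e] using ha
      simp [List.filterMap_cons, e, ih, List.count_cons, this]

theorem fm_par {u : V} {i : U} (h : ∀ a, g a = some i ↔ a = u) (W : List V) :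
    par (W.filterMap g) i = par W u := by
  rw [par_eq, par_eq, fm_count h]

theorem fm_inv {u v : V} {i j : U} (h : ∀ a, g a = some i ↔ a = u) (k : ∀ a, g a = some j ↔ a = v)
    (W : List V) : inv (W.filterMap g) i j = inv W u v := by
  induction W with
  | nil => rfl
  | cons a W ih =>
    have ha := h a
    rcases e : g a with _ | b
    · have : ¬ a = u := fun k => by rw [e] at ha; exact absurd (ha.2 k) (by simp)
      simp [List.filterMap_cons, e, ih, inv, this]
    · have : b = i ↔ a = u := by simpa [e] using ha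
      simp [List.filterMap_cons, e, ih, inv, this, fm_par k]

theorem fm_be {u v : V} {i j : U} (h : ∀ a, g a = some i ↔ a = u) (k : ∀ a, g a = some j ↔ a = v)
    (W : List V) : be (W.filterMap g) i j = be W u v := by
  induction W with
  | nil => rfl
  | cons a W ih =>
    have ha := h a
    have ka := k a
    rcases e : g a with _ | b
    · have h1 : ¬ a = u := fun k => by rw [e] at ha; exact absurd (ha.2 k) (by simp)
      have h2 : ¬ a = v := fun k => by rw [e] at ka; exact absurd (ka.2 k) (by simp)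
      simp [List.filterMap_cons, e, ih, be, h1, h2]
    · have h1 : b = i ↔ a = u := by simpa [e] using ha
      have h2 : b = j ↔ a = v := by simpa [e] using ka
      simp [List.filterMap_cons, e, ih, be, h1, h2]

end fm

theorem len3 (L : List (Fin 3)) : L.length = L.count 0 + L.count 1 + L.count 2 := by
  induction L with
  | nil => rfl
  | cons a L ih =>
    simp only [List.length_cons, List.count_cons, ih]
    fin_cases a <;> simp <;> omega

def TriP (L : List (Fin 3)) : Prop :=
  (inv L 0 1 = false → inv L 0 2 = false → inv L 1 2 = true → (be L 0 1 ^^ be L 0 2) = false) ∧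
  (inv L 0 1 = true → inv L 0 2 = true → inv L 1 2 = false →
    (be L 0 1 ^^ be L 0 2 ^^ be L 1 2 ^^ be L 2 1) = true)

theorem tri6 : ∀ a b c d e f : Fin 3, [a, b, c, d, e, f].count 0 = 2 → [a, b, c, d, e, f].count 1 = 2 →
    TriP [a, b, c, d, e, f] := by
  unfold TriP
  decide +kernel

theorem tri3 (L : List (Fin 3)) (h0 : L.count 0 = 2) (h1 : L.count 1 = 2) (h2 : L.count 2 = 2) :
    TriP L := by
  have hl := len3 L
  rw [h0, h1, h2] at hl
  match L, hl with
  | [a, b, c, d, e, f], _ => exact tri6 a b c d e f h0 h1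

theorem triW {S : Finset V} {W : List V} (h : Dbl S W) {x v w : V} (hx : x ∈ S) (hv : v ∈ S)
    (hw : w ∈ S) (n1 : x ≠ v) (n2 : x ≠ w) (n3 : v ≠ w) :
    (inv W x v = false → inv W x w = false → inv W v w = true → (be W x v ^^ be W x w) = false) ∧
    (inv W x v = true → inv W x w = true → inv W v w = false →
      (be W x v ^^ be W x w ^^ be W v w ^^ be W w v) = true) := by
  let g : V → Option (Fin 3) := fun a =>
    if a = x then some 0 else if a = v then some 1 else if a = w then some 2 else none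
  have g0 : ∀ a, g a = some 0 ↔ a = x := fun a => by
    simp only [g]; split_ifs <;> simp_all
  have g1 : ∀ a, g a = some 1 ↔ a = v := fun a => by
    simp only [g]; split_ifs <;> simp_all
  have g2 : ∀ a, g a = some 2 ↔ a = w := fun a => by
    simp only [g]; split_ifs <;> simp_all
  have t := tri3 (W.filterMap g) (by rw [fm_count g0, h x, if_pos hx])
    (by rw [fm_count g1, h v, if_pos hv]) (by rw [fm_count g2, h w, if_pos hw])
  unfold TriP at t
  rwa [fm_inv g0 g1, fm_inv g0 g2, fm_inv g1 g2, fm_be g0 g1, fm_be g0 g2, fm_be g1 g2,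
    fm_be g2 g1] at t

def Naji (n : ℕ) (O : Gr ℕ) : Prop := ∃ g : ℕ → ℕ → ZMod 2,
  (∀ x v w, (x < n ∧ v < n ∧ w < n ∧ x ≠ v ∧ x ≠ w ∧ v ≠ w ∧
    O x v = false ∧ O x w = false ∧ O v w = true) → g x v + g x w = 0) ∧
  (∀ x v w, (x < n ∧ v < n ∧ w < n ∧ x ≠ v ∧ x ≠ w ∧ v ≠ w ∧
    O x v = true ∧ O x w = true ∧ O v w = false) → g x v + g x w + g v w + g w v = 1)

theorem naji {G : Gr V} {S : Finset V} {n : ℕ} {O : Gr ℕ} (h : Emb G S n O) (c : Circ G S) :
    Naji n O := by
  obtain ⟨σ, hs, he⟩ := h
  obtain ⟨W, hd, hW⟩ := c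
  have key : ∀ i < n, ∀ j < n, i ≠ j → inv W (σ i) (σ j) = O i j := fun i hi j hj ne => by
    rw [← hW _ (hs i hi) _ (hs j hj) (he i hi j hj ne).1, (he i hi j hj ne).2]
  refine ⟨fun i j => if be W (σ i) (σ j) then 1 else 0, ?_, ?_⟩
  · rintro x v w ⟨hx, hv, hw, n1, n2, n3, a, b, c⟩
    have t := (triW hd (hs x hx) (hs v hv) (hs w hw) (he x hx v hv n1).1 (he x hx w hw n2).1
      (he v hv w hw n3).1).1 (by rw [key x hx v hv n1, a]) (by rw [key x hx w hw n2, b])
      (by rw [key v hv w hw n3, c])
    revert t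
    dsimp only
    cases be W (σ x) (σ v) <;> cases be W (σ x) (σ w) <;> decide
  · rintro x v w ⟨hx, hv, hw, n1, n2, n3, a, b, c⟩
    have t := (triW hd (hs x hx) (hs v hv) (hs w hw) (he x hx v hv n1).1 (he x hx w hw n2).1
      (he v hv w hw n3).1).2 (by rw [key x hx v hv n1, a]) (by rw [key x hx w hw n2, b])
      (by rw [key v hv w hw n3, c])
    revert t
    dsimp only
    cases be W (σ x) (σ v) <;> cases be W (σ x) (σ w) <;> cases be W (σ v) (σ w) <;>
      cases be W (σ w) (σ v) <;> decide

theorem naji_w5 : ¬ Naji 6 (wheel 5 fun _ => true) := by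
  rintro ⟨g, e2, e3⟩
  have two : (2 : ZMod 2) = 0 := by decide
  have bad : (1 : ZMod 2) = 0 := by
    linear_combination (
      g 0 2 + g 0 3 + g 1 3 + g 1 4 + g 2 0 + g 2 4 + g 3 0 + g 3 1 +
      g 4 1 + g 4 2 + g 5 0 + g 5 1 + g 5 2 + g 5 3 + g 5 4 - 2) * two
      - e2 0 2 3 (by decide) - e2 1 3 4 (by decide) - e2 2 0 4 (by decide) - e2 3 0 1 (by decide)
      - e2 4 1 2 (by decide) - e3 5 0 2 (by decide) - e3 5 0 3 (by decide) - e3 5 1 3 (by decide)
      - e3 5 1 4 (by decide) - e3 5 2 4 (by decide)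
  exact absurd bad (by decide)

theorem naji_w7 : ¬ Naji 8 (wheel 7 fun _ => true) := by
  rintro ⟨g, e2, e3⟩
  have two : (2 : ZMod 2) = 0 := by decide
  have bad : (1 : ZMod 2) = 0 := by
    linear_combination (
      g 1 3 + g 1 4 + g 1 5 + g 1 6 + g 3 0 + g 3 1 + g 3 6 + g 6 1 +
      g 6 2 + g 6 3 + g 7 1 + g 7 3 + g 7 6 - 1) * two
      - e2 1 3 4 (by decide) - e2 1 4 5 (by decide) - e2 1 5 6 (by decide) - e2 3 0 1 (by decide)
      - e2 3 0 6 (by decide) - e2 6 1 2 (by decide) - e2 6 2 3 (by decide) - e3 7 1 3 (by decide)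
      - e3 7 1 6 (by decide) - e3 7 3 6 (by decide)
  exact absurd bad (by decide)

theorem naji_w3 : ¬ Naji 7 (wheel 6 fun i => decide (i % 2 = 0)) := by
  rintro ⟨g, e2, e3⟩
  have two : (2 : ZMod 2) = 0 := by decide
  have bad : (1 : ZMod 2) = 0 := by
    linear_combination (
      g 0 2 + g 0 3 + g 0 4 + g 2 0 + g 2 4 + g 2 5 + g 4 0 + g 4 1 +
      g 4 2 + g 6 0 + g 6 2 + g 6 4 - 1) * two
      - e2 0 2 3 (by decide) - e2 0 3 4 (by decide) - e2 2 0 5 (by decide) - e2 2 4 5 (by decide)
      - e2 4 0 1 (by decide) - e2 4 1 2 (by decide) - e3 6 0 2 (by decide) - e3 6 0 4 (by decide)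
      - e3 6 2 4 (by decide)
  exact absurd bad (by decide)

theorem non : StNon := by
  intro V _ G S _ h c
  rcases h with h | h | h
  · exact naji_w5 (naji h c)
  · exact naji_w7 (naji h c)
  · exact naji_w3 (naji h c)

end Pool.Agent.Lib.MP_d7353d_co.U
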