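import Pool.Agent.Lib.MP_d7353d_co.U1

/-! Word graphs are not circle graphs. -/

namespace Pool.Agent.Lib.MP_d7353d_co.U

open T

variable {V : Type} [DecidableEq V]

theorem famN (cert : Cert V) (tab : StTab) : FamN V := by
  intro t m ok hm G σ hG p
  obtain ⟨i, hi, e, _⟩ := tab.fam t m ok hm
  obtain ⟨_, e1, e2⟩ := tab.impl (196 + i) (by omega)
  rw [e] at e1 e2
  have h : Ok V (St.N (bN (196 + i)) (bM (196 + i))) :=
    cert.f i hi _ (by simp only [rootF, frc_eq]; exact List.mem_cons_self)
  rw [e1] at p ⊢
  exact h G σ hG (p.congr fun a ha b hb ne => (e2 a ha b hb ne).1)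

theorem nonW_aux (wd : StWd V) (full : StFull V) (fn : FamN V) (t : ℕ) (y : V) (lam : V → Bool)
    (h z : V) (hy : t < 3 → lam y = true) : ∀ k (r : List V) (G : Gr V) S, r.length = k → Sy G →
      WF t G S y r lam h z → Rich t y r lam → ¬ Circ G S := by
  intro k
  induction k using Nat.strong_induction_on with
  | _ k ih =>
    intro r G S e hG w ri
    have mem : ∀ u ∈ r, u ∈ S := fun u hu => (w.cov u).mpr (by simp [hu])
    by_cases hz : ∃ s ∈ r, lam s = false
    · obtain ⟨s, hs, ls⟩ := hz
      obtain ⟨r1, r2, rfl⟩ := List.append_of_mem hs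
      refine non_up hG (LE.one (S := S) G (mem s hs)) (Finset.Subset.refl _)
        (Finset.erase_subset s S)
        (ih _ ?_ (r1 ++ r2) _ _ rfl (hG.lc s) (wd.zero hG w ls) ?_)
      · rw [← e]; simp
      · simpa [Rich, m0, List.countP_cons, ls] using ri
    have one : ∀ u ∈ r, lam u = true := fun u hu => by
      by_contra x
      exact hz ⟨u, hu, by simpa using x⟩
    by_cases hl : r.length ≤ 10
    · obtain ⟨ok, σ, p, rfl, _⟩ := full t G S y r lam h z w ri one hy
      exact fn t _ ok (by omega) G σ hG p
    obtain ⟨p1, p2, p3, p4, p5, r2, rfl⟩ : ∃ p1 p2 p3 p4 p5 r2,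
        r = p1 :: p2 :: p3 :: p4 :: p5 :: r2 := by
      match r, hl with
      | p1 :: p2 :: p3 :: p4 :: p5 :: r2, _ => exact ⟨_, _, _, _, _, _, rfl⟩
      | [], hl | [_], hl | [_, _], hl | [_, _, _], hl | [_, _, _, _], hl => simp at hl
    have l1 := one p1 (by simp)
    have l2 := one p2 (by simp)
    have l3 := one p3 (by simp)
    have l4 := one p4 (by simp)
    have l5 := one p5 (by simp)
    obtain ⟨G', le, w'⟩ := wd.five (r1 := []) (r2 := r2) hG w (by simp [l1, l2, l3, l4, l5])
    have c2 : r2.countP lam = r2.length :=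
      List.countP_eq_length.mpr fun u hu => one u (by simp [hu])
    refine non_up hG le ?_ Finset.sdiff_subset
      (ih _ ?_ ([] ++ p3 :: r2) _ _ rfl (le.sy hG) w' ?_)
    · intro u hu
      simp only [Finset.mem_insert, Finset.mem_singleton] at hu
      rcases hu with rfl | rfl | rfl | rfl <;> exact mem _ (by simp)
    · rw [← e]; simp
    · obtain ⟨a, b, c⟩ := ri
      simp only [List.length_cons] at hl
      refine ⟨a, ?_, ?_⟩
      · have : thr t ≤ 6 := by unfold thr; split_ifs <;> omega
        simp only [m0, List.nil_append, List.countP_cons, l3, c2, if_true]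
        omega
      · simp only [okp, List.nil_append, List.countP_cons, l1, l2, l3, l4, l5, if_true] at c ⊢
        rcases c with c | c
        · exact Or.inl c
        · right
          rw [← c]
          omega

theorem nonW (V : Type) [DecidableEq V] (wd : StWd V) (full : StFull V) (fn : FamN V) :
    StNonW V := by
  rintro G S hG ⟨t, y, r, lam, h, z, w, ri⟩
  by_cases hy : t < 3 → lam y = true
  · exact nonW_aux wd full fn t y lam h z hy _ r G S rfl hG w ri
  have ht : t < 3 := by by_contra x; exact hy fun a => absurd a x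
  have ly : lam y = false := by
    by_contra x
    exact hy fun _ => by simpa using x
  obtain ⟨a, b, c⟩ := ri
  have pos : 0 < r.countP lam := by
    have : 5 ≤ thr t := by unfold thr; split_ifs <;> omega
    simp only [m0, ht, ly, if_true, Bool.toNat_false] at b
    omega
  obtain ⟨q, hq, lq⟩ := List.countP_pos_iff.mp pos
  obtain ⟨r1, r2, rfl⟩ := List.append_of_mem hq
  refine nonW_aux wd full fn t q lam h z (fun _ => lq) _ _ G S rfl hG (wd.rot ht w) ⟨a, ?_, ?_⟩
  · simp only [m0, ht, ly, lq, if_true, List.countP_append, List.countP_cons, Bool.toNat_false,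
      Bool.toNat_true, Bool.false_eq_true, if_false] at b ⊢
    omega
  · have : (q :: (r2 ++ y :: r1)).countP lam = (y :: (r1 ++ q :: r2)).countP lam := by
      simp only [List.countP_append, List.countP_cons]
      omega
    rwa [this]

end Pool.Agent.Lib.MP_d7353d_co.U
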