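import Pool.Agent.Lib.MP_d7353d_co.U1
import Pool.Agent.Lib.MP_d7353d_co.UEx1

/-! The five patterns give word graphs. -/

namespace Pool.Agent.Lib.MP_d7353d_co.U.Pat

open T

variable {V : Type} [DecidableEq V]

/-- the graph of a word -/
def can (t : ℕ) (y : V) (r : List V) (lam : V → Bool) (h z : V) : Gr V :=
  fun u w => if u = w then false else form t y r lam h z u w

theorem can_sy (t : ℕ) (y : V) (r : List V) (lam : V → Bool) (h z : V) : Sy (can t y r lam h z) := by
  refine ⟨fun u w => ?_, fun u => by simp [can]⟩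
  by_cases e : u = w
  · rw [e]
  · simp only [can, if_neg e, if_neg (Ne.symm e), form, cy]
    rw [ex_pe_symm _ u w]
    cases pe (y :: r ++ [y]) w u <;> cases kap t <;> cases la t lam h z u <;> cases la t lam h z w <;>
      cases al t h y u <;> cases al t h y w <;> rfl

theorem can_wf {t : ℕ} {S : Finset V} {y : V} {r : List V} {lam : V → Bool} {h z : V}
    (nd : (ext t h z ++ y :: r).Nodup) (cov : ∀ u, u ∈ S ↔ u ∈ ext t h z ++ y :: r)
    (sup : ∀ u ∈ ext t h z, lam u = false) : WF t (can t y r lam h z) S y r lam h z :=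
  ⟨nd, cov, sup, fun u _ w _ e => by simp [can, e]⟩

theorem inv_wf {t t' : ℕ} {H G : Gr V} {S : Finset V} {v y y' h z h' z' h1 z1 : V} {r r' : List V}
    {lam lam' lam1 : V → Bool} (hH : Sy H) (hG : Sy G)
    (w : WF t (lc H v) (S.erase v) y r lam h z) (w1 : WF t (lc G v) (S.erase v) y r lam1 h1 z1)
    (e : ∀ u ∈ S.erase v, la t lam1 h1 z1 u = la t lam h z u ∧ al t h1 y u = al t h y u)
    (row : ∀ u ∈ S.erase v, G v u = H v u) (w' : WF t' G S y' r' lam' h' z') :
    WF t' H S y' r' lam' h' z' := by
  refine ⟨w'.nd, w'.cov, w'.sup, fun a ha b hb ne => ?_⟩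
  rw [← w'.adj a ha b hb ne]
  by_cases e1 : a = v
  · subst e1
    exact (row b (Finset.mem_erase.mpr ⟨ne.symm, hb⟩)).symm
  by_cases e2 : b = v
  · subst e2
    rw [hH.1, hG.1]
    exact (row a (Finset.mem_erase.mpr ⟨ne, ha⟩)).symm
  have ha' : a ∈ S.erase v := Finset.mem_erase.mpr ⟨e1, ha⟩
  have hb' : b ∈ S.erase v := Finset.mem_erase.mpr ⟨e2, hb⟩
  have k : lc H v a b = lc G v a b := by
    rw [w.adj a ha' b hb' ne, w1.adj a ha' b hb' ne]
    simp only [form, (e a ha').1, (e a ha').2, (e b hb').1, (e b hb').2]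
  simp only [lc, if_neg ne] at k
  rw [hH.1 a v, hG.1 a v, row a ha', row b hb'] at k
  revert k
  cases H a b <;> cases G a b <;> cases (H v a && H v b) <;> simp

theorem pe_row {l1 l2 : List V} {a v b : V} (h1 : v ∉ l1 ++ [a]) (h2 : v ∉ b :: l2) (u : V) :
    pe (l1 ++ a :: v :: b :: l2) v u = (decide (u = a) ^^ decide (u = b)) := by
  have va : v ≠ a := fun e => h1 (by simp [e])
  have vb : v ≠ b := fun e => h2 (by simp [e])
  rw [ex_pe_append, ex_pe_cons, ex_pe_cons, ex_pe_left h1, ex_pe_left h2, ex_ed_snd va, ex_ed_fst vb]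
  simp

theorem cp_split {α : Type} {l : List α} {a b : α} (h : (a, b) ∈ cp l) :
    ∃ l1 l2, l = l1 ++ a :: b :: l2 := by
  induction l with
  | nil => simp [cp] at h
  | cons c l ih =>
    cases l with
    | nil => simp [cp] at h
    | cons d l =>
      have : (a, b) = (c, d) ∨ (a, b) ∈ cp (d :: l) := by simpa [cp] using h
      rcases this with e | e
      · obtain ⟨rfl, rfl⟩ := Prod.mk.inj e
        exact ⟨[], l, rfl⟩
      · obtain ⟨l1, l2, k⟩ := ih e
        exact ⟨c :: l1, l2, by rw [k]; rfl⟩

/-- inserting a new vertex between two consecutive vertices of the rim -/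
theorem cut {y v a b : V} {r : List V} (h : (a, b) ∈ cp (y :: r ++ [y])) (hv : v ∉ y :: r) :
    ∃ r1 r2, r = r1 ++ r2 ∧ a ∈ y :: r ∧ b ∈ y :: r ∧
      ∀ u, cy y (r1 ++ v :: r2) v u = (decide (u = a) ^^ decide (u = b)) := by
  obtain ⟨l1, l2, k⟩ := cp_split h
  have hm : ∀ u ∈ l1 ++ a :: b :: l2, u ∈ y :: r := by
    intro u hu
    rw [← k] at hu
    simp only [List.cons_append, List.mem_cons, List.mem_append, List.not_mem_nil, or_false] at hu ⊢
    tauto
  obtain ⟨r1, e1⟩ : ∃ r1, l1 ++ [a] = y :: r1 := by
    cases l1 with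
    | nil => exact ⟨[], by simp at k; simp [k.1]⟩
    | cons c l => exact ⟨l ++ [a], by simp at k; simp [k.1]⟩
  obtain ⟨r2, e2⟩ : ∃ r2, b :: l2 = r2 ++ [y] := by
    have k' := congrArg List.getLast? k
    rcases List.eq_nil_or_concat (b :: l2) with e | ⟨r2, c, e⟩
    · simp at e
    · have k2 : l1 ++ a :: b :: l2 = (l1 ++ a :: r2) ++ [c] := by rw [e]; simp
      rw [k2, List.getLast?_concat, List.getLast?_concat] at k'
      exact ⟨r2, by rw [e, Option.some.inj k']; simp⟩
  have k3 : y :: r ++ [y] = y :: (r1 ++ r2) ++ [y] := by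
    rw [k, show l1 ++ a :: b :: l2 = (l1 ++ [a]) ++ b :: l2 by simp, e1, e2]; simp
  refine ⟨r1, r2, List.append_cancel_right (List.cons.inj k3).2, hm a (by simp), hm b (by simp), fun u => ?_⟩
  have k4 : y :: (r1 ++ v :: r2) ++ [y] = l1 ++ a :: v :: b :: l2 := by
    rw [show l1 ++ a :: v :: b :: l2 = (l1 ++ [a]) ++ v :: b :: l2 by simp, e1, e2]; simp
  rw [cy, k4]
  exact pe_row (fun e => hv (hm v (by simp at e ⊢; tauto))) (fun e => hv (hm v (by simp at e ⊢; tauto))) u

theorem cy_out {y v : V} {r : List V} (h : v ∉ y :: r) (u : V) : cy y r v u = false :=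
  ex_pe_left (fun e => h (by simp at e ⊢; tauto)) u

omit [DecidableEq V] in
theorem cnt_congr {l : List V} {f g : V → Bool} (h : ∀ u ∈ l, f u = g u) : l.countP f = l.countP g :=
  List.countP_congr fun u hu => by rw [h u hu]

/-- flipping one letter -/
theorem cnt_flip {l : List V} (nd : l.Nodup) (f : V → Bool) {q : V} (hq : q ∈ l) :
    l.countP (fun u => f u ^^ decide (u = q)) + (f q).toNat = l.countP f + (!f q).toNat := by
  obtain ⟨l1, l2, rfl⟩ := List.append_of_mem hq
  have n1 : ∀ u ∈ l1, u ≠ q := fun u hu e => by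
    subst e; exact (List.nodup_append.mp nd).2.2 u hu u (by simp) rfl
  have n2 : ∀ u ∈ l2, u ≠ q := fun u hu e => by
    subst e; exact (List.nodup_cons.mp (List.nodup_append.mp nd).2.1).1 hu
  rw [List.countP_append, List.countP_append, List.countP_cons, List.countP_cons,
    cnt_congr (l := l1) (g := f) fun u hu => by simp [n1 u hu],
    cnt_congr (l := l2) (g := f) fun u hu => by simp [n2 u hu]]
  cases f q <;> simp <;> omega

theorem cnt_or {l : List V} (nd : l.Nodup) (f : V → Bool) (q : V) :
    l.countP (fun u => f u || decide (u = q)) ≤ l.countP f + 1 := by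
  induction l with
  | nil => simp
  | cons a l ih =>
    by_cases e : a = q
    · subst e
      rw [List.countP_cons, List.countP_cons, cnt_congr (l := l) (g := f) fun u hu => by
        have : u ≠ a := fun e => (List.nodup_cons.mp nd).1 (e ▸ hu)
        simp [this]]
      split_ifs <;> omega
    · have := ih (List.nodup_cons.mp nd).2
      rw [List.countP_cons, List.countP_cons]
      simp only [e, decide_false, Bool.or_false]
      omega

section
variable {t : ℕ} {H : Gr V} {S : Finset V} {v y h z : V} {r : List V} {lam : V → Bool}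

theorem nv (w : WF t H (S.erase v) y r lam h z) : v ∉ ext t h z ++ y :: r :=
  fun e => Finset.notMem_erase v S ((w.cov v).mpr e)

theorem covS (hv : v ∈ S) (w : WF t H (S.erase v) y r lam h z) (u : V) :
    u ∈ S ↔ u = v ∨ u ∈ ext t h z ++ y :: r := by
  rw [← w.cov u, Finset.mem_erase]
  by_cases e : u = v
  · simp [e, hv]
  · simp [e]

theorem al_v (w : WF t H (S.erase v) y r lam h z) : al t h y v = false := by
  have n := nv w
  have vy : v ≠ y := fun e => n (by simp [e])
  by_cases t1 : t = 1
  · simp [al, t1]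
  have vh : v ≠ h := fun e => n (by unfold ext; split_ifs <;> simp [e])
  simp [al, vy, vh]

theorem la_v (w : WF t H (S.erase v) y r lam h z) (f : V → Bool) : la t f h z v = f v := by
  have n := nv w
  by_cases t2 : t = 2
  · have vh : v ≠ h := fun e => n (by simp [ext, t2, e])
    simp [la, t2, vh]
  by_cases t4 : t = 4
  · have vz : v ≠ z := fun e => n (by simp [ext, t4, e])
    simp [la, t4, vz]
  simp [la, t2, t4]

theorem al_r {S : Finset V} (w : WF t H S y r lam h z) {u : V} (hu : u ∈ r) : al t h y u = false := by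
  have nd := List.nodup_append.mp w.nd
  have uy : u ≠ y := fun e => (List.nodup_cons.mp nd.2.1).1 (e ▸ hu)
  by_cases t1 : t = 1
  · simp [al, t1]
  have uh : u ≠ h := fun e => nd.2.2 h (by unfold ext; split_ifs <;> simp) u (by simp [hu]) e.symm
  simp [al, uy, uh]

theorem nd_ins {r1 r2 : List V} (w : WF t H (S.erase v) y (r1 ++ r2) lam h z) :
    (ext t h z ++ y :: (r1 ++ v :: r2)).Nodup := by
  have p : (ext t h z ++ y :: (r1 ++ v :: r2)).Perm (v :: (ext t h z ++ y :: (r1 ++ r2))) := by
    have := List.perm_middle (a := v) (l₁ := ext t h z ++ y :: r1) (l₂ := r2)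
    simpa using this
  exact p.nodup_iff.mpr (List.nodup_cons.mpr ⟨nv w, w.nd⟩)

theorem pat1 (wd : StWd V) (idS : StId V) (hH : Sy H) (hv : v ∈ S)
    (w : WF t (lc H v) (S.erase v) y r lam h z) (ri : Rich t y r lam)
    (h7 : 7 ≤ r.countP fun u => lam u || H v u) {β : Bool} {a b : V} (hb : β = true → kap t = false)
    (c : (a, b) ∈ cp (y :: r ++ [y]))
    (N : ∀ u ∈ S.erase v, H v u = (decide (u = a) ^^ decide (u = b) ^^ (β && al t h y u))) :
    LW H S := by
  have n := nv w
  obtain ⟨r1, r2, rfl, ha, hb', row⟩ := cut c (v := v) fun e => n (List.mem_append_right _ e)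
  have nd := List.nodup_append.mp w.nd
  have cov : ∀ u, u ∈ S ↔ u ∈ ext t h z ++ y :: (r1 ++ v :: r2) := fun u => by
    rw [covS hv w]; simp only [List.mem_append, List.mem_cons]; tauto
  have vr : ∀ u ∈ y :: (r1 ++ r2), u ≠ v := fun u hu e => n (List.mem_append_right _ (e ▸ hu))
  have ve : ∀ u ∈ ext t h z, u ≠ v := fun u hu e => n (List.mem_append_left _ (e ▸ hu))
  have pm : (y :: (r1 ++ v :: r2)).Perm (v :: y :: (r1 ++ r2)) := by
    simpa using List.perm_middle (a := v) (l₁ := y :: r1) (l₂ := r2)
  have pm' : (r1 ++ v :: r2).Perm (v :: (r1 ++ r2)) := List.perm_middle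
  cases β with
  | false =>
    let f : V → Bool := fun u => if u = v then false else lam u
    have fv : f v = false := by simp [f]
    have fu : ∀ u, u ≠ v → f u = lam u := fun u e => by simp [f, e]
    have w' := can_wf (lam := f) (nd_ins w) cov fun u hu => (fu u (ve u hu)).trans (w.sup u hu)
    refine ⟨t, y, _, f, h, z, inv_wf hH (can_sy ..) w (wd.zero (can_sy ..) w' fv) (fun u hu => ?_)
      (fun u hu => ?_) w', ri.1, ?_, ?_⟩
    · simp [la, fu u (Finset.ne_of_mem_erase hu)]
    · rw [N u hu]
      simp only [can, if_neg (Finset.ne_of_mem_erase hu).symm, form, row, al_v w, la_v w, fv]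
      simp
    · have := ri.2.1
      rw [m0] at this ⊢
      rw [pm'.countP_eq, List.countP_cons, fv, fu y (vr y (by simp)),
        cnt_congr (g := lam) fun u hu => fu u (vr u (by simp [hu]))]
      simpa using this
    · have := ri.2.2
      rw [pm.countP_eq, List.countP_cons, fv, cnt_congr (g := lam) fun u hu => fu u (vr u hu)]
      simpa using this
  | true =>
    have k := hb rfl
    let f : V → Bool := fun u => if u = v then true else
      (lam u ^^ decide (u = a) ^^ decide (u = b) ^^ (decide (3 ≤ t) && decide (u = y)))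
    have fv : f v = true := by simp [f]
    have fu : ∀ u, u ≠ v → f u = (lam u ^^ decide (u = a) ^^ decide (u = b) ^^
      (decide (3 ≤ t) && decide (u = y))) := fun u e => by simp [f, e]
    have w' := can_wf (lam := f) (nd_ins w) cov fun u hu => by
      have e : ∀ x ∈ y :: (r1 ++ r2), u ≠ x := fun x hx => nd.2.2 u hu x hx
      rw [fu u (ve u hu), w.sup u hu]
      simp [e a ha, e b hb', e y (by simp)]
    refine ⟨t, y, _, f, h, z, inv_wf hH (can_sy ..) w (idS.i1 (can_sy ..) k w' fv) (fun u hu => ?_)
      (fun u hu => ?_) w', ri.1, ?_, ?_⟩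
    · refine ⟨?_, rfl⟩
      simp only [la, fu u (Finset.ne_of_mem_erase hu), row]
      cases lam u <;> cases decide (u = a) <;> cases decide (u = b) <;>
        cases (decide (3 ≤ t) && decide (u = y)) <;> rfl
    · rw [N u hu]
      simp only [can, if_neg (Finset.ne_of_mem_erase hu).symm, form, row, al_v w, la_v w, fv, k]
      simp
    · have n2 := (List.nodup_cons.mp nd.2.1).2
      have h1 := cnt_or n2 f a
      have h2 := cnt_or n2 (fun u => f u || decide (u = a)) b
      have h3 : (r1 ++ r2).countP (fun u => lam u || H v u) ≤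
          (r1 ++ r2).countP fun u => (f u || decide (u = a)) || decide (u = b) := by
        refine List.countP_mono_left fun u hu => ?_
        have uy : u ≠ y := fun e => (List.nodup_cons.mp nd.2.1).1 (e ▸ hu)
        rw [N u ((w.cov u).mpr (by simp [hu])), al_r w hu, fu u (vr u (by simp [hu]))]
        cases lam u <;> cases decide (u = a) <;> cases decide (u = b) <;> simp [uy]
      have : thr t ≤ 6 := by unfold thr; split_ifs <;> omega
      rw [m0, pm'.countP_eq, List.countP_cons, fv]
      simp only [if_true]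
      omega
    · have o := ri.2.2
      by_cases t0 : t = 0
      · exact Or.inl t0
      have t3 : 3 ≤ t := by
        have : ¬ (t = 1 ∨ t = 2) := by simpa [kap] using k
        omega
      have h1 := cnt_flip nd.2.1 lam ha
      have h2 := cnt_flip nd.2.1 (fun u => lam u ^^ decide (u = a)) hb'
      have h3 := cnt_flip nd.2.1 (fun u => lam u ^^ decide (u = a) ^^ decide (u = b)) (q := y) (by simp)
      rw [pm.countP_eq, List.countP_cons, fv, cnt_congr
        (g := fun u => lam u ^^ decide (u = a) ^^ decide (u = b) ^^ decide (u = y))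
        fun u hu => by rw [fu u (vr u hu)]; simp [t3]]
      have b2 : ∀ x : Bool, (x.toNat + (!x).toNat) = 1 := fun x => by cases x <;> rfl
      have c1 := b2 (lam a)
      have c2 := b2 (lam b ^^ decide (b = a))
      have c3 := b2 (lam y ^^ decide (y = a) ^^ decide (y = b))
      simp only [if_true]
      unfold okp at o ⊢
      omega

theorem pat2 (hH : Sy H) (hv : v ∈ S) (idS : StId V)
    (w : WF 1 (lc H v) (S.erase v) y r lam h z) (ri : Rich 1 y r lam)
    (N : ∀ u ∈ S.erase v, H v u = lam u) : LW H S := by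
  have n : v ∉ y :: r := by simpa [ext] using nv w
  let f : V → Bool := fun u => if u = v then false else lam u
  have fv : f v = false := by simp [f]
  have fu : ∀ u, u ≠ v → f u = lam u := fun u e => by simp [f, e]
  have vr : ∀ u ∈ y :: r, u ≠ v := fun u hu e => n (e ▸ hu)
  have w' : WF 0 _ S y r f v z := can_wf
    (by simpa [ext] using And.intro (by simpa using n) (by simpa [ext] using w.nd))
    (fun u => by rw [covS hv w]; simp [ext]) (by simp [ext, fv])
  have w1 := (idS.i5 ((can_sy ..).lc v)).2.2 ((idS.i5 (can_sy ..)).1 w')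
  refine ⟨0, y, r, f, v, z, inv_wf hH (can_sy ..) w w1 (fun u hu => ?_) (fun u hu => ?_) w',
    by omega, ?_, Or.inl rfl⟩
  · simp [la, al, fu u (Finset.ne_of_mem_erase hu)]
  · have := Finset.ne_of_mem_erase hu
    have c : cy y r v u = false := cy_out n u
    rw [N u hu]
    simp [can, this, this.symm, form, c, kap, al, la, fu u this]
  · have := ri.2.1
    rw [m0] at this ⊢
    rw [fu y (vr y (by simp)), cnt_congr (g := lam) fun u hu => fu u (vr u (by simp [hu]))]
    simp [thr] at this ⊢
    omega

theorem pat3 (hH : Sy H) (hv : v ∈ S) (idS : StId V) (k : kap t = true)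
    (w : WF t (lc H v) (S.erase v) y r lam h z) (ri : Rich t y r lam)
    (N : ∀ u ∈ S.erase v, H v u = (la t lam h z u ^^ decide (u = y))) : LW H S := by
  have n := nv w
  have nd := List.nodup_append.mp w.nd
  have t12 : t = 1 ∨ t = 2 := by simpa [kap] using k
  have ex : ext (t + 2) v h = v :: ext t h z := by rcases t12 with rfl | rfl <;> simp [ext]
  let f : V → Bool := fun u => if u = v then false else (lam u ^^ decide (u = y))
  have fv : f v = false := by simp [f]
  have fu : ∀ u, u ≠ v → f u = (lam u ^^ decide (u = y)) := fun u e => by simp [f, e]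
  have vr : ∀ u ∈ y :: r, u ≠ v := fun u hu e => n (List.mem_append_right _ (e ▸ hu))
  have w' : WF (t + 2) _ S y r f v h := can_wf
    (by rw [ex]; exact List.nodup_cons.mpr ⟨n, w.nd⟩)
    (fun u => by rw [covS hv w, ex]; simp) (by
      rw [ex]
      intro u hu
      rcases List.mem_cons.mp hu with e | e
      · rw [e, fv]
      · rw [fu u fun e' => n (List.mem_append_left _ (e' ▸ e)), w.sup u e]
        simp [nd.2.2 u e y (by simp)])
  refine ⟨t + 2, y, r, f, v, h, inv_wf hH (can_sy ..) w (idS.i3 (can_sy ..) k w') (fun u hu => ?_)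
    (fun u hu => ?_) w', by omega, ?_, ?_⟩
  · have t4 : t ≠ 4 := by omega
    simp [la, fu u (Finset.ne_of_mem_erase hu), t4]
  · have uv := Finset.ne_of_mem_erase hu
    have c : cy y r v u = false := cy_out (fun e => n (List.mem_append_right _ e)) u
    have vy := (vr y (by simp)).symm
    rw [N u hu]
    rcases t12 with rfl | rfl
    · simp [can, uv.symm, form, c, kap, al, la, fu u uv, fv, vy]
    · have vh : v ≠ h := fun e => n (by simp [ext, e])
      simp only [can, if_neg uv.symm, form, c, kap, al, la, fu u uv, fv, vy, vh]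
      cases lam u <;> cases decide (u = y) <;> cases decide (u = h) <;> simp
  · have := ri.2.1
    rw [m0] at this ⊢
    rw [cnt_congr (g := lam) fun u hu => by
      have uy : u ≠ y := fun e => (List.nodup_cons.mp nd.2.1).1 (e ▸ hu)
      rw [fu u (vr u (by simp [hu]))]; simp [uy]]
    have := Bool.toNat_le (lam y)
    rcases t12 with rfl | rfl <;> simp [thr] at * <;> omega
  · have o := ri.2.2
    have h1 := cnt_flip nd.2.1 lam (q := y) (by simp)
    rw [cnt_congr (g := fun u => lam u ^^ decide (u = y)) fun u hu => fu u (vr u hu)]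
    have b2 : ((lam y).toNat + (!lam y).toNat) = 1 := by cases lam y <;> rfl
    unfold okp at o ⊢
    omega

theorem pat4 (hH : Sy H) (hv : v ∈ S)
    (w : WF 3 (lc H v) (S.erase v) y r lam h z) (ri : Rich 3 y r lam)
    (N : ∀ u ∈ S.erase v, H v u = al 3 h y u) : LW H S := by
  have n := nv w
  have nd := List.nodup_append.mp w.nd
  have hy : h ≠ y := nd.2.2 h (by simp [ext]) y (by simp)
  have vh : v ≠ h := fun e => n (by simp [ext, e])
  let f : V → Bool := fun u => if u = v then false else (lam u ^^ decide (u = y))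
  have fv : f v = false := by simp [f]
  have fu : ∀ u, u ≠ v → f u = (lam u ^^ decide (u = y)) := fun u e => by simp [f, e]
  have vr : ∀ u ∈ y :: r, u ≠ v := fun u hu e => n (List.mem_append_right _ (e ▸ hu))
  have vy := (vr y (by simp)).symm
  have c : ∀ u, cy y r v u = false := cy_out fun e => n (List.mem_append_right _ e)
  have rv : ∀ u ∈ S, u ≠ v → H v u = form 4 y r f h v v u := fun u hu uv => by
    rw [N u (Finset.mem_erase.mpr ⟨uv, hu⟩)]
    simp [form, c, kap, al, la, fv, vy, vh]
  refine ⟨4, y, r, f, h, v, ⟨?_, fun u => ?_, ?_, fun a ha b hb ne => ?_⟩, by omega, ?_, ?_⟩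
  · have p : (ext 4 h v ++ y :: r).Perm (v :: (ext 3 h z ++ y :: r)) := by
      simpa [ext] using List.Perm.swap v h (y :: r)
    exact p.nodup_iff.mpr (List.nodup_cons.mpr ⟨n, w.nd⟩)
  · rw [covS hv w]; simp only [ext]; simp; tauto
  · have := w.sup h (by simp [ext])
    simp [ext, fv, fu h vh.symm, this, hy]
  · by_cases e1 : a = v
    · subst e1
      exact rv b hb ne.symm
    by_cases e2 : b = v
    · subst e2
      have := (can_sy 4 y r f h b).1 a b
      simp only [can, if_neg ne, if_neg ne.symm] at this
      rw [hH.1, this]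
      exact rv a ha ne
    have ha' : a ∈ S.erase v := Finset.mem_erase.mpr ⟨e1, ha⟩
    have hb' : b ∈ S.erase v := Finset.mem_erase.mpr ⟨e2, hb⟩
    have k := w.adj a ha' b hb' ne
    simp only [lc, if_neg ne] at k
    rw [hH.1 a v, N a ha', N b hb'] at k
    simp only [form, kap, al, la, fu a e1, fu b e2, e1, e2] at k ⊢
    revert k
    by_cases ah : a = h <;> by_cases ay : a = y <;> by_cases bh : b = h <;> by_cases by' : b = y <;>
      simp_all
  · have := ri.2.1
    rw [m0] at this ⊢
    rw [cnt_congr (g := lam) fun u hu => by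
      have uy : u ≠ y := fun e => (List.nodup_cons.mp nd.2.1).1 (e ▸ hu)
      rw [fu u (vr u (by simp [hu]))]; simp [uy]]
    simp [thr] at this ⊢
    omega
  · have o := ri.2.2
    have h1 := cnt_flip nd.2.1 lam (q := y) (by simp)
    rw [cnt_congr (g := fun u => lam u ^^ decide (u = y)) fun u hu => fu u (vr u hu)]
    have b2 : ((lam y).toNat + (!lam y).toNat) = 1 := by cases lam y <;> rfl
    unfold okp at o ⊢
    omega

theorem pat5 (hH : Sy H) (hv : v ∈ S) (idS : StId V) (k : kap t = true) {p : V}
    (w : WF (t + 2) (lc H v) (S.erase v) y (p :: r) lam h z) (ri : Rich (t + 2) y (p :: r) lam)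
    (h7 : 7 ≤ (p :: r).countP fun u => lam u || H v u)
    (N : ∀ u ∈ p :: r, H v u = (lam u ^^ decide (u = p))) (Ny : (lam y ^^ H v y ^^ H v h) = true)
    (Nz : t + 2 = 4 → H v z = true) : LW H S := by
  have n := nv w
  have nd := List.nodup_append.mp w.nd
  have t12 : t = 1 ∨ t = 2 := by simpa [kap] using k
  have ex : ext (t + 2) h z = h :: ext t z z := by rcases t12 with rfl | rfl <;> simp [ext]
  have vr : ∀ u ∈ y :: p :: r, u ≠ v := fun u hu e => n (List.mem_append_right _ (e ▸ hu))
  have vh : h ≠ v := fun e => n (by rw [ex, ← e]; simp)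
  have hr : ∀ u ∈ y :: p :: r, u ≠ h := fun u hu e => nd.2.2 h (by simp [ex]) u hu e.symm
  have yr : ∀ u ∈ p :: r, u ≠ y := fun u hu e => (List.nodup_cons.mp nd.2.1).1 (e ▸ hu)
  have zz : t = 2 → z ≠ v ∧ z ≠ h ∧ (∀ u ∈ y :: p :: r, u ≠ z) ∧ lam z = false ∧ H v z = true := by
    rintro rfl
    refine ⟨fun e => n (by simp [ext, e]), fun e => ?_,
      fun u hu e => nd.2.2 z (by simp [ext]) u hu e.symm, w.sup z (by simp [ext]), Nz rfl⟩
    have := nd.1
    simp [ext, e] at this
  let f : V → Bool := fun u => if u = v then true else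
    (H v u ^^ decide (u = y) ^^ decide (u = h) ^^ (decide (t = 2) && decide (u = z)))
  have fv : f v = true := by simp [f]
  have fu : ∀ u, u ≠ v → f u = (H v u ^^ decide (u = y) ^^ decide (u = h) ^^
    (decide (t = 2) && decide (u = z))) := fun u e => by simp [f, e]
  have z2 : ∀ u ∈ y :: p :: r, (decide (t = 2) && decide (u = z)) = false := fun u hu => by
    by_cases e : t = 2
    · simp [(zz e).2.2.1 u hu]
    · simp [e]
  have fy : f y = !H v y := by
    rw [fu y (vr y (by simp)), z2 y (by simp)]; simp [hr y (by simp)]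
  have fh : f h = !H v h := by
    rw [fu h vh]
    by_cases e : t = 2
    · simp [(hr y (by simp)).symm, (zz e).2.1.symm]
    · simp [(hr y (by simp)).symm, e]
  have fr : ∀ u ∈ p :: r, f u = H v u := fun u hu => by
    rw [fu u (vr u (List.mem_cons_of_mem _ hu)), z2 u (List.mem_cons_of_mem _ hu)]
    simp [yr u hu, hr u (List.mem_cons_of_mem _ hu)]
  have fz : ∀ u ∈ ext t z z, u = z ∧ t = 2 ∧ f u = false := fun u hu => by
    rcases t12 with rfl | rfl
    · simp [ext] at hu
    · have e : u = z := by simpa [ext] using hu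
      obtain ⟨a, b, c, _, d⟩ := zz rfl
      rw [e, fu z a]
      simp [d, b, (c y (by simp)).symm]
  have pm : (ext t z z ++ y :: v :: h :: p :: r).Perm (v :: (ext (t + 2) h z ++ y :: p :: r)) := by
    rw [ex, List.perm_iff_count]
    intro a
    simp only [List.count_append, List.count_cons, List.cons_append]
    omega
  have w' : WF t _ S y (v :: h :: p :: r) f z z := can_wf
    (pm.nodup_iff.mpr (List.nodup_cons.mpr ⟨n, w.nd⟩))
    (fun u => by rw [covS hv w, pm.mem_iff, List.mem_cons]) fun u hu => (fz u hu).2.2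
  have len : 2 ≤ (p :: r).length := le_trans (by omega) (h7.trans List.countP_le_length)
  have rh : ∀ u, cy y (v :: h :: p :: r) h u = (decide (u = v) ^^ decide (u = p)) := fun u =>
    pe_row (l1 := [y]) (l2 := r ++ [y]) (by simp [vh, (hr y (by simp)).symm])
      (fun e => hr h (by simp at e ⊢; tauto) rfl) u
  have rv : ∀ u, cy y (v :: h :: p :: r) v u = (decide (u = y) ^^ decide (u = h)) := fun u =>
    pe_row (l1 := []) (l2 := p :: r ++ [y]) (by simp [(vr y (by simp)).symm])
      (fun e => by
        rcases List.mem_cons.mp e with e | e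
        · exact vh e.symm
        · exact vr v (by simp at e ⊢; tauto) rfl) u
  have c1 := cnt_flip (List.nodup_cons.mp nd.2.1).2 lam (q := p) (by simp)
  have c2 : (p :: r).countP f = (p :: r).countP fun u => lam u ^^ decide (u = p) :=
    cnt_congr fun u hu => (fr u hu).trans (N u hu)
  have cc : (y :: v :: h :: p :: r).countP f =
      (p :: r).countP f + (f h).toNat + 1 + (f y).toNat := by
    rw [List.countP_cons, List.countP_cons, List.countP_cons, fv]
    cases f h <;> cases f y <;> rfl
  refine ⟨t, y, _, f, z, z, inv_wf hH (can_sy ..) w (idS.i2 (can_sy ..) k len w' fv) (fun u hu => ?_)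
    (fun u hu => ?_) w', by omega, ?_, ?_⟩
  · refine ⟨?_, rfl⟩
    have uv := Finset.ne_of_mem_erase hu
    have : (if u = y then !(f y ^^ f h) else if u = h then false else
        (f u ^^ cy y (v :: h :: p :: r) h u)) = lam u := by
      have m := (w.cov u).mp hu
      rw [ex] at m
      split_ifs with e1 e2
      · rw [e1, fy, fh]
        revert Ny
        cases lam y <;> cases H v y <;> cases H v h <;> simp
      · rw [e2, w.sup h (by simp [ex])]
      · rw [rh]
        have m' : u ∈ ext t z z ∨ u ∈ p :: r := by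
          simp only [List.cons_append, List.mem_cons, List.mem_append] at m ⊢; tauto
        rcases m' with m' | m'
        · obtain ⟨a, b, c⟩ := fz u m'
          rw [c, a, (zz b).2.2.2.1]
          simp [(zz b).1, ((zz b).2.2.1 p (by simp)).symm]
        · rw [fr u m', N u m']
          simp [uv]
    simp only [la, this]
  · have uv := Finset.ne_of_mem_erase hu
    have lv : la t f z z v = true := by
      rcases t12 with rfl | rfl
      · simp [la, fv]
      · simp [la, fv, (zz rfl).1.symm]
    have a0 : ∀ x, al t z y x = false := fun x => by rcases t12 with rfl | rfl <;> simp [al]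
    have t4 : t ≠ 4 := by omega
    simp only [can, if_neg uv.symm, form, rv, lv, a0, k]
    simp only [la, fu u uv, t4]
    cases H v u <;> cases decide (u = y) <;> cases decide (u = h) <;>
      cases (decide (t = 2) && decide (u = z)) <;> simp
  · have h1 := cnt_or (List.nodup_cons.mp nd.2.1).2 f p
    have h3 : (p :: r).countP (fun u => lam u || H v u) ≤
        (p :: r).countP fun u => f u || decide (u = p) := by
      refine List.countP_mono_left fun u hu => ?_
      rw [fr u hu, N u hu]
      cases lam u <;> cases decide (u = p) <;> simp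
    have : thr t ≤ 6 := by unfold thr; split_ifs <;> omega
    rw [m0, List.countP_cons, List.countP_cons, fv]
    simp only [if_true]
    omega
  · have o := ri.2.2
    have c3 : (y :: p :: r).countP lam = (p :: r).countP lam + (lam y).toNat := by
      rw [List.countP_cons]; cases lam y <;> rfl
    have b2 : ((lam p).toNat + (!lam p).toNat) = 1 := by cases lam p <;> rfl
    have b3 : ((f h).toNat + (f y).toNat + (lam y).toNat) % 2 = 1 := by
      rw [fy, fh]
      revert Ny
      cases lam y <;> cases H v y <;> cases H v h <;> simp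
    rw [cc]
    rw [c3] at o
    unfold okp at o ⊢
    omega

end

theorem cy_y {y a b : V} {m : List V} (h : y ∉ a :: m ++ [b]) (u : V) :
    cy y (a :: m ++ [b]) y u = (decide (u = a) ^^ decide (u = b)) := by
  have ya : y ≠ a := fun e => h (by simp [e])
  have yb : y ≠ b := fun e => h (by simp [e])
  rw [cy, show y :: (a :: m ++ [b]) ++ [y] = y :: a :: (m ++ b :: [y]) by simp, ex_pe_cons,
    ← List.cons_append, ex_pe_append, ex_pe_left h, ex_pe_cons, ex_pe_one, ex_ed_fst ya, ex_ed_snd yb]
  simp

end Pool.Agent.Lib.MP_d7353d_co.U.Pat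

namespace Pool.Agent.Lib.MP_d7353d_co.U

open T Pat

theorem patS {V : Type} [DecidableEq V] (wd : StWd V) (idS : StId V) : StPat V := by
  intro t H S v y r lam h z hH hv ri h7 pv
  obtain ⟨hv, w⟩ := hv
  have nd := (List.nodup_append.mp w.nd).2.1
  have len : 2 ≤ r.length := le_trans (by omega) (h7.trans List.countP_le_length)
  rcases pv with ⟨β, a, b, hb, c, N⟩ | ⟨rfl, N⟩ | ⟨k, q, hq, N⟩ | ⟨rfl, N⟩ | ⟨t3, p, c, N, Ny, Nz⟩
  · rcases (wd.adj nd len).mp c with c | c
    · exact pat1 wd idS hH hv w ri h7 hb c N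
    · exact pat1 wd idS hH hv w ri h7 hb c fun u hu => by
        rw [N u hu, Bool.xor_comm (decide (u = a))]
  · exact pat2 hH hv idS w ri N
  · rcases List.mem_cons.mp hq with rfl | hq
    · exact pat3 hH hv idS k w ri N
    · obtain ⟨r1, r2, rfl⟩ := List.append_of_mem hq
      have t3 : t < 3 := by
        have : t = 1 ∨ t = 2 := by simpa [kap] using k
        omega
      have e : (q :: (r2 ++ y :: r1)).countP lam = (y :: (r1 ++ q :: r2)).countP lam := by
        simp only [List.countP_cons, List.countP_append]; omega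
      refine pat3 hH hv idS k (wd.rot t3 w) ⟨ri.1, ?_, e ▸ ri.2.2⟩ N
      have := ri.2.1
      simp only [m0, if_pos t3, List.countP_cons, List.countP_append] at this ⊢
      revert this
      cases lam q <;> cases lam y <;> simp <;> omega
  · exact pat4 hH hv w ri N
  · obtain ⟨t, rfl⟩ : ∃ s, t = s + 2 := ⟨t - 2, by omega⟩
    have k : kap t = true := by
      have := ri.1
      simp only [kap, decide_eq_true_eq]; omega
    obtain ⟨a, m, b, rfl⟩ : ∃ a m b, r = a :: m ++ [b] := by
      cases r with
      | nil => simp at len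
      | cons a l =>
        rcases List.eq_nil_or_concat l with e | ⟨m, b, e⟩
        · simp [e] at len
        · exact ⟨a, m, b, by simp [e]⟩
    rw [cy_y (List.nodup_cons.mp nd).1] at c
    by_cases e : p = a
    · subst e
      exact pat5 hH hv idS k w ri h7 N Ny Nz
    · have e' : p = b := by simpa [e] using c
      subst e'
      have rv : (a :: m ++ [p]).reverse = p :: (a :: m).reverse := by simp
      have pm : (p :: (a :: m).reverse).Perm (a :: m ++ [p]) := rv ▸ List.reverse_perm _
      refine pat5 (r := (a :: m).reverse) hH hv idS k (rv ▸ wd.rev w) ⟨ri.1, ?_, ?_⟩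
        (pm.countP_eq _ ▸ h7) (fun u hu => N u (pm.mem_iff.mp hu)) Ny Nz
      · have := ri.2.1
        rwa [m0, ← pm.countP_eq] at this
      · have := ri.2.2
        rwa [← (pm.cons y).countP_eq] at this

end Pool.Agent.Lib.MP_d7353d_co.U
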