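import Pool.Agent.Lib.MP_d7353d_co.URed

/-! Soundness of the steps for a new vertex. -/

namespace Pool.Agent.Lib.MP_d7353d_co.U

open T

variable {V : Type} [DecidableEq V]

theorem sb_xor (a b i : ℕ) : (Nat.xor a b).testBit i = (a.testBit i ^^ b.testBit i) :=
  Nat.testBit_xor a b i

theorem sb_land (a b i : ℕ) : (Nat.land a b).testBit i = (a.testBit i && b.testBit i) :=
  Nat.testBit_and a b i

theorem sb_lor (a b i : ℕ) : (Nat.lor a b).testBit i = (a.testBit i || b.testBit i) :=
  Nat.testBit_or a b i

theorem sb_shl (a n i : ℕ) : (Nat.shiftLeft a n).testBit i = (decide (n ≤ i) && a.testBit (i - n)) :=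
  Nat.testBit_shiftLeft a

omit [DecidableEq V] in
/-- cut a list at its first element with `p` -/
theorem sb_split (p : V → Bool) (c : List V) (h : 0 < c.countP p) :
    ∃ z s c', c = z ++ s :: c' ∧ (∀ u ∈ z, p u = false) ∧ p s = true ∧
      c.countP p = c'.countP p + 1 := by
  induction c with
  | nil => simp at h
  | cons x c ih =>
    cases e : p x
    · have h' : 0 < c.countP p := by simpa [List.countP_cons, e] using h
      obtain ⟨z, s, c', rfl, k1, k2, k3⟩ := ih h'
      refine ⟨x :: z, s, c', rfl, fun u hu => ?_, k2, ?_⟩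
      · rcases List.mem_cons.mp hu with rfl | hu
        · exact e
        · exact k1 u hu
      · rw [List.countP_cons, k3]; simp [e]
    · exact ⟨[], x, c, rfl, by simp, e, by simp [e]⟩

/-- the data carried through the refinements -/
structure SB (G : Gr V) (S : Finset V) (v : V) (σ : ℕ → V) (n M a : ℕ) (c : List V) (b : ℕ)
    (PU PZ : List (Ch V)) (Z : List (ℕ × ℕ)) : Prop where
  ex : EX G S σ n (bit M) ((a, c, b) :: PU ++ PZ)
  en : ends PZ = Z
  ze : ∀ u ∈ chv PZ, G v u = false

theorem SB.ref (mat : StMat) (ex : StEx V) {G : Gr V} {S : Finset V} {v : V} {σ : ℕ → V}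
    {n M a b : ℕ} {c : List V} {PU PZ : List (Ch V)} {Z : List (ℕ × ℕ)} (hG : Sy G) (hn : n ≤ 31)
    (h : SB G S v σ n M a c b PU PZ Z) (hc : 0 < c.countP (G v)) :
    ∃ σ' c' PZ', SB G S v σ' (n + 1) (insM M n a b) n c' b PU PZ' ((a, n) :: Z) ∧
      (∀ i < n, σ' i = σ i) ∧ G v (σ' n) = true ∧ c.countP (G v) = c'.countP (G v) + 1 := by
  obtain ⟨z, s, c', rfl, k1, k2, k3⟩ := sb_split (G v) c hc
  obtain ⟨ha, hb, hab⟩ := h.ex.en (a, z ++ s :: c', b) (by simp)
  have e := ex.ref (P1 := []) hG h.ex
  refine ⟨Function.update σ n s, c', (a, z, n) :: PZ, ⟨?_, ?_, ?_⟩, fun i hi => ?_, ?_, k3⟩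
  · refine ex.perm ?_ (ex.cgA (fun i hi j hj ne => ?_) e)
    · simp only [List.nil_append, List.cons_append]
      exact (List.Perm.swap _ _ _).trans (List.Perm.cons _ List.perm_middle.symm)
    · exact (mat.ins M n a b i j hn ha hb hab (by omega) (by omega) ne).symm
  · rw [← h.en]; rfl
  · intro u hu
    rw [ex_chv_cons] at hu
    rcases List.mem_append.mp hu with k | k
    · exact k1 u k
    · exact h.ze u k
  · exact Function.update_of_ne hi.ne _ _
  · rw [Function.update_self]; exact k2

/-- hand over to a child whose first chain has residue `0` -/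
theorem SB.child {G : Gr V} {S : Finset V} {v : V} {σ : ℕ → V} {n M nu D a b : ℕ} {c : List V}
    {PU PZ : List (Ch V)} {U : List (Bool × ℕ × ℕ)} {Z : List (ℕ × ℕ)} (hG : Sy G) (hv : v ∈ S)
    (ok : Ok V (.B n M nu D ((true, a, b) :: U) Z)) (h : SB G (S.erase v) v σ n M a c b PU PZ Z)
    (hU : ends PU = U.map Prod.snd)
    (fl : List.Forall₂ (fun (u : Bool × ℕ × ℕ) (t : Ch V) => u.1 = true → res G v t.2.1 = 0) U PU)
    (r : res G v c = 0)
    (hD : ∀ i < n, D.testBit i = true → G v (σ i) = (nu.testBit i ^^ tg G v PU i))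
    (hM : Mn (lc G v) S) : Lst (lc G v) S := by
  refine ok G S v σ ((a, c, b) :: PU) PZ hG hv h.ex ?_ h.en (List.Forall₂.cons (fun _ => r) fl)
    h.ze (fun i hi k => ?_) hM
  · rw [List.map_cons, ← hU]; rfl
  · rw [red_tg_cons, r, hD i hi k]; simp [tg1]

theorem sb_kill (mat : StMat) (nc : StNc) (red : StRed V) {G : Gr V} {S : Finset V} {v : V}
    {σ : ℕ → V} {n M nu u A c : ℕ} {P : List (Ch V)} (hG : Sy G) (hv : v ∈ S) (hn : n ≤ 28)
    (h : EX G (S.erase v) σ n (bit M) P) (hu : u < n)
    (hA : ∀ i, A.testBit i = true → i ≠ u ∧ i ≤ n ∧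
      (i < n → G v (σ i) = (nu.testBit i ^^ tg G v P i)))
    (k : U.nc (addv M n nu) A c = true) (hD : Del (lc G v) S) : False := by
  obtain ⟨G', l, p, r⟩ := red G S v σ n _ P hG h
  have hG' := l.sy hG
  have nv : ∀ i < n, σ i ≠ v := fun i hi => (Finset.mem_erase.mp (h.sS hi)).1
  let σ' := Function.update σ n v
  have s1 : ∀ i < n, σ' i = σ i := fun i hi => Function.update_of_ne hi.ne _ _
  have s2 : σ' n = v := Function.update_self _ _ _
  let N : V → Bool := fun y => decide (∃ i < n, σ i = y ∧ nu.testBit i = true)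
  have hN : ∀ i < n, N (σ i) = nu.testBit i := fun i hi => by
    rw [Bool.eq_iff_iff]
    simp only [N, decide_eq_true_eq]
    exact ⟨fun ⟨j, hj, e, t⟩ => h.inj j hj i hi e ▸ t, fun t => ⟨i, hi, rfl, t⟩⟩
  let K : Gr V := fun x y => if x = v then (if y = v then false else N y) else
    if y = v then N x else G' x y
  have hK : Sy K := by
    refine ⟨fun x y => ?_, fun x => ?_⟩
    · by_cases e1 : x = v <;> by_cases e2 : y = v <;> simp [K, e1, e2, hG'.1 x y]
    · by_cases e1 : x = v <;> simp [K, e1, hG'.2]
  have pK : Pull K σ' (n + 1) (bit (addv M n nu)) := by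
    intro i hi j hj ne
    rw [mat.addv M n nu i j (by omega) (by omega) (by omega) ne]
    by_cases e1 : i = n
    · have hj' : j < n := by omega
      rw [e1, s2, s1 j hj']
      exact ⟨(nv j hj').symm, by simp [K, nv j hj', hN j hj']⟩
    have hi' : i < n := by omega
    by_cases e2 : j = n
    · rw [e2, s2, s1 i hi']
      exact ⟨nv i hi', by simp [K, nv i hi', hN i hi', e1]⟩
    have hj' : j < n := by omega
    rw [s1 i hi', s1 j hj']
    exact ⟨(p i hi' j hj' ne).1, by simp [K, nv i hi', nv j hj', e1, e2, (p i hi' j hj' ne).2]⟩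
  let S' : Finset V := ((Finset.range (n + 1)).filter fun i => A.testBit i = true).image σ'
  have mS : ∀ x ∈ S', x = v ∨ ∃ i < n, A.testBit i = true ∧ σ i = x := fun x hx => by
    obtain ⟨i, hi, rfl⟩ := Finset.mem_image.mp hx
    obtain ⟨h1, h2⟩ := Finset.mem_filter.mp hi
    by_cases e : i = n
    · exact Or.inl (e ▸ s2)
    · have : i < n := by have := Finset.mem_range.mp h1; omega
      exact Or.inr ⟨i, this, h2, (s1 i this).symm⟩
  refine nc.nc V K S' σ' (n + 1) _ A c hK pK (by omega) (fun i t => ?_) k ?_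
  · have := (hA i t).2.1
    exact ⟨by omega, Finset.mem_image.mpr ⟨i, Finset.mem_filter.mpr
      ⟨Finset.mem_range.mpr (by omega), t⟩, rfl⟩⟩
  have l' : LE (insert v (chv P).toFinset) (lc G v) G' := by
    have := LE.one (S := insert v (chv P).toFinset) (lc G v) (Finset.mem_insert_self v _)
    rw [lc_lc hG] at this
    exact this.trans (l.mono (Finset.subset_insert _ _))
  have c1 : Circ G' S' := by
    refine hD.minor (u := σ u) (hG.lc v) l' (fun x hx => ?_) (fun x hx => ?_)
      (Finset.mem_of_mem_erase (h.sS hu)) (fun hx => ?_) fun hx => ?_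
    · rcases Finset.mem_insert.mp hx with rfl | hx
      · exact hv
      · exact Finset.mem_of_mem_erase (h.cS (List.mem_toFinset.mp hx))
    · rcases mS x hx with rfl | ⟨i, hi, -, rfl⟩
      · exact hv
      · exact Finset.mem_of_mem_erase (h.sS hi)
    · rcases Finset.mem_insert.mp hx with e | hx
      · exact nv u hu e
      · exact h.dj u hu (List.mem_toFinset.mp hx)
    · rcases mS _ hx with e | ⟨i, hi, t, e⟩
      · exact nv u hu e
      · exact (hA i t).1 (h.inj i hi u hu e)
  have row : ∀ i < n, A.testBit i = true → G' v (σ i) = N (σ i) := fun i hi t => by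
    rw [r i hi, (hA i t).2.2 hi, hN i hi]; simp
  refine c1.congr fun x hx y hy ne => ?_
  rcases mS x hx with rfl | ⟨i, hi, t, rfl⟩
  · rcases mS y hy with rfl | ⟨j, hj, t', rfl⟩
    · exact absurd rfl ne
    · simp [K, nv j hj, row j hj t']
  · rcases mS y hy with rfl | ⟨j, hj, t', rfl⟩
    · simp [K, nv i hi, hG'.1 (σ i) y, row i hi t]
    · simp [K, nv i hi, nv j hj]

theorem sb_fin (mat : StMat) {G : Gr V} {S : Finset V} {v : V} {σ : ℕ → V} {n M nu : ℕ}
    {P : List (Ch V)} (hG : Sy G) (hv : v ∈ S) (hn : n ≤ 28)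
    (h : EX G (S.erase v) σ n (bit M) P) (ze : ∀ u ∈ chv P, G v u = false)
    (r : ∀ i < n, G v (σ i) = nu.testBit i) :
    EX (lc G v) S (Function.update σ n v) (n + 1) (bit (lcM (addv M n nu) n)) P := by
  have nv : ∀ i < n, σ i ≠ v := fun i hi => (Finset.mem_erase.mp (h.sS hi)).1
  have cv : v ∉ chv P := fun k => (Finset.mem_erase.mp (h.cS k)).1 rfl
  have s1 : ∀ i < n, Function.update σ n v i = σ i := fun i hi => Function.update_of_ne hi.ne _ _
  have s2 : Function.update σ n v n = v := Function.update_self _ _ _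
  have e : ∀ u w, px (Function.update σ n v) P u w = px σ P u w :=
    ex_px_congr fun t ht => ⟨s1 _ (h.en t ht).1, s1 _ (h.en t ht).2.1⟩
  have pv : ∀ w, px σ P v w = false :=
    ex_px_left (fun t ht => ⟨(nv _ (h.en t ht).1).symm, (nv _ (h.en t ht).2.1).symm⟩) cv
  refine ⟨fun i hi j hj k => ?_, h.nd, fun i hi => ?_, fun t ht => ?_, fun u => ?_,
    fun i hi j hj ne => ?_, fun u hu w hw => ?_⟩
  · by_cases e1 : i = n <;> by_cases e2 : j = n
    · rw [e1, e2]
    · rw [e1, s2, s1 j (by omega)] at k; exact absurd k.symm (nv j (by omega))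
    · rw [e2, s2, s1 i (by omega)] at k; exact absurd k (nv i (by omega))
    · rw [s1 i (by omega), s1 j (by omega)] at k; exact h.inj i (by omega) j (by omega) k
  · by_cases e1 : i = n
    · rw [e1, s2]; exact cv
    · rw [s1 i (by omega)]; exact h.dj i (by omega)
  · obtain ⟨k1, k2, k3⟩ := h.en t ht
    exact ⟨by omega, by omega, k3⟩
  · constructor
    · intro hu
      by_cases e1 : u = v
      · exact Or.inl ⟨n, by omega, s2.trans e1.symm⟩
      · rcases (h.cov u).1 (Finset.mem_erase.mpr ⟨e1, hu⟩) with ⟨i, hi, k⟩ | k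
        · exact Or.inl ⟨i, by omega, (s1 i hi).trans k⟩
        · exact Or.inr k
    · rintro (⟨i, hi, rfl⟩ | k)
      · by_cases e1 : i = n
        · rw [e1, s2]; exact hv
        · rw [s1 i (by omega)]; exact Finset.mem_of_mem_erase (h.sS (by omega))
      · exact Finset.mem_of_mem_erase (h.cS k)
  · rw [e, mat.lc _ n i j (by omega) (by omega) (by omega) ne,
      mat.addv M n nu i j (by omega) (by omega) (by omega) ne]
    by_cases e1 : i = n
    · have hj' : j < n := by omega
      rw [e1, s2, s1 j hj', lc_left hG, pv, r j hj']; simp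
    have hi' : i < n := by omega
    by_cases e2 : j = n
    · rw [e2, s2, s1 i hi', lc_right hG, ex_px_symm, pv, hG.1, r i hi']; simp [e1]
    have hj' : j < n := by omega
    have ne' : σ i ≠ σ j := fun k => ne (h.inj i hi' j hj' k)
    rw [s1 i hi', s1 j hj', mat.addv M n nu i n (by omega) (by omega) (by omega) e1,
      mat.addv M n nu n j (by omega) (by omega) (by omega) (Ne.symm e2), lc, if_neg ne',
      h.bb i hi' j hj' ne, hG.1 (σ i) v, r i hi', r j hj']
    simp only [e1, e2, if_false, if_true, ne_eq, not_false_eq_true, decide_true, Bool.true_and]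
    cases bit M i j <;> cases px σ P (σ i) (σ j) <;> cases nu.testBit i <;>
      cases nu.testBit j <;> rfl
  · have k : lc G v u w = G u w := by
      by_cases e1 : u = w
      · simp [lc, e1, hG.2]
      · simp [lc, e1, hG.1 u v, ze u hu]
    rw [e, k]
    by_cases e1 : w = v
    · rw [e1, ex_px_symm, pv, hG.1, ze u hu]
    · exact h.cb u hu w (Finset.mem_erase.mpr ⟨e1, hw⟩)

theorem sb_exp (mat : StMat) (ex : StEx V) {n M nu D : ℕ} {U : List (Bool × ℕ × ℕ)}
    {Z : List (ℕ × ℕ)} (hn : n ≤ 28) : Snd V (expB n M nu D U Z) (.B n M nu D U Z) := by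
  intro ch e ok G S v σ PU PZ hG hv h hU hZ fl ze hD hM
  cases fl with
  | nil =>
    have e' : chk (Nat.beq (Nat.land D (lo n)) (lo n))
      (frc (lcM (addv M n nu) n) fun M' => some [St.R (Nat.succ n) M' Z]) = some ch := e
    rw [chk_some, frc_eq] at e'
    obtain ⟨e1, e2⟩ := e'
    obtain rfl := Option.some.inj e2
    have e3 := Nat.eq_of_beq_eq_true e1
    refine ok _ List.mem_cons_self (lc G v) S _ PZ (hG.lc v)
      (sb_fin mat hG hv hn h ze fun i hi => ?_) hZ hM
    have t : D.testBit i = true := by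
      have := congrArg (fun x => x.testBit i) e3
      simpa [sb_land, testBit_lo, hi] using this
    rw [hD i hi t]; simp [tg]
  | @cons p t U PU f0 fl =>
    obtain ⟨f, a, b⟩ := p
    obtain ⟨a', c, b'⟩ := t
    have hU' : (a', b') :: ends PU = (a, b) :: U.map Prod.snd := hU
    obtain ⟨k, hU''⟩ := List.cons.inj hU'
    obtain ⟨rfl, rfl⟩ := Prod.mk.inj k
    have sb : SB G (S.erase v) v σ n M a' c b' PU PZ Z := ⟨h, hZ, ze⟩
    obtain ⟨ha, hb, hab⟩ := h.en (a', c, b') (by simp)
    have ha : a' < n := ha
    have hb : b' < n := hb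
    have big : ∀ i, n ≤ i → tg G v PU i = false := fun i hi => red_tg_big
      (fun t ht => ⟨(h.en t (by simp [ht])).1, (h.en t (by simp [ht])).2.1⟩) hi
    simp only [expB, frc_eq, ib_eq] at e
    cases f with
    | true =>
      simp only [if_true] at e
      obtain rfl := Option.some.inj e
      have r0 : c.countP (G v) % 3 = 0 := f0 rfl
      have hD' : ∀ i < n, D.testBit i = true → G v (σ i) = (nu.testBit i ^^ tg G v PU i) :=
        fun i hi k => by rw [hD i hi k, red_tg_cons, res, r0]; simp [tg1]
      by_cases z : c.countP (G v) = 0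
      · refine ok _ List.mem_cons_self G S v σ PU ((a', c, b') :: PZ) hG hv
          (ex.perm List.perm_middle.symm h) hU'' (by rw [← hZ]; rfl) fl (fun u hu => ?_) hD' hM
        rw [ex_chv_cons] at hu
        rcases List.mem_append.mp hu with k | k
        · simpa using List.countP_eq_zero.mp z u k
        · exact ze u k
      · obtain ⟨σ1, c1, P1, s1, a1, b1, d1⟩ := sb.ref mat ex hG (by omega) (by omega)
        obtain ⟨σ2, c2, P2, s2, a2, b2, d2⟩ := s1.ref mat ex hG (by omega) (by omega)
        obtain ⟨σ3, c3, P3, s3, a3, b3, d3⟩ := s2.ref mat ex hG (by omega) (by omega)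
        refine SB.child hG hv (ok _ (List.mem_cons_of_mem _ List.mem_cons_self)) s3 hU'' fl
          (by rw [res]; omega) (fun i hi k => ?_) hM
        have hi : i < n + 3 := hi
        rw [sb_xor, sb_land, sb_shl, testBit_lo]
        rw [sb_lor, sb_shl] at k
        by_cases l : i < n
        · have l' : ¬ n ≤ i := by omega
          rw [a3 i (by omega), a2 i (by omega), a1 i l, hD' i l (by simpa [l'] using k)]
          simp [l, l']
        · have l' : n ≤ i := by omega
          rw [big i l']
          obtain rfl | rfl | rfl : i = n ∨ i = n + 1 ∨ i = n + 1 + 1 := by omega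
          · rw [a3 i (by omega), a2 i (by omega), b1]; simp
          · rw [a3 _ (by omega), b2]; simp [show Nat.testBit 7 1 = true by decide]
          · rw [b3]; simp [Nat.add_assoc, show Nat.testBit 7 2 = true by decide]
    | false =>
      simp only [Bool.false_eq_true, if_false] at e
      obtain rfl := Option.some.inj e
      obtain r | r | r : c.countP (G v) % 3 = 0 ∨ c.countP (G v) % 3 = 1 ∨
        c.countP (G v) % 3 = 2 := by omega
      · refine SB.child hG hv (ok _ List.mem_cons_self) sb hU'' fl r (fun i hi k => ?_) hM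
        rw [hD i hi k, red_tg_cons, res, r]; simp [tg1]
      · obtain ⟨σ1, c1, P1, s1, a1, b1, d1⟩ := sb.ref mat ex hG (by omega) (by omega)
        refine SB.child hG hv (ok _ (List.mem_cons_of_mem _ List.mem_cons_self)) s1 hU'' fl
          (by rw [res]; omega) (fun i hi k => ?_) hM
        have hi : i < n + 1 := hi
        rw [sb_xor, sb_xor, sb_xor, sb_land, testBit_lo, testBit_p2, testBit_p2, testBit_p2]
        rw [sb_lor, testBit_p2] at k
        by_cases l : i < n
        · have l' : ¬ n = i := by omega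
          rw [a1 i l, hD i l (by simpa [l'] using k), red_tg_cons, res, r]
          simp [l, l', tg1, eq_comm]
        · obtain rfl : i = n := by omega
          rw [big i le_rfl, b1]; simp [ha.ne, hb.ne]
      · obtain ⟨σ1, c1, P1, s1, a1, b1, d1⟩ := sb.ref mat ex hG (by omega) (by omega)
        obtain ⟨σ2, c2, P2, s2, a2, b2, d2⟩ := s1.ref mat ex hG (by omega) (by omega)
        refine SB.child hG hv
          (ok _ (List.mem_cons_of_mem _ (List.mem_cons_of_mem _ List.mem_cons_self))) s2 hU'' fl
          (by rw [res]; omega) (fun i hi k => ?_) hM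
        have hi : i < n + 2 := hi
        rw [sb_xor, sb_xor, sb_land, sb_shl, testBit_lo, testBit_p2]
        rw [sb_lor, sb_shl] at k
        by_cases l : i < n
        · have l' : ¬ n ≤ i := by omega
          rw [a2 i (by omega), a1 i l, hD i l (by simpa [l'] using k), red_tg_cons, res, r]
          simp [l, l', tg1, eq_comm]
        · have l' : n ≤ i := by omega
          have l2 : ¬ b' = i := by omega
          rw [big i l']
          obtain rfl | rfl : i = n ∨ i = n + 1 := by omega
          · rw [a2 i (by omega), b1]; simp [l2]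
          · rw [b2]; simp [l2, show Nat.testBit 3 1 = true by decide]

theorem stepB_ok (V : Type) [DecidableEq V] (mat : StMat) (nc : StNc) (ex : StEx V)
    (red : StRed V) : StStepB V := by
  intro n M nu D U Z c ch e ok
  rw [stepB, chk_some] at e
  obtain ⟨hn, e⟩ := e
  have hn : n ≤ 28 := Nat.le_of_ble_eq_true hn
  generalize d0 c = d at e
  match d, e with
  | 0, e =>
    intro G S v σ PU PZ hG hv h hU hZ fl ze hD hM
    simp only [Nat.rec_zero, chk_some, an_iff, frc_eq] at e
    obtain ⟨⟨hu, k⟩, -⟩ := e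
    have hu : dg c 1 < n := by simpa [Nat.blt_eq] using hu
    refine (sb_kill mat nc red hG hv hn h hu (fun i t => ?_) k hM.2).elim
    simp only [sb_xor, sb_land, sb_lor, testBit_lo, testBit_p2] at t
    refine ⟨fun e => ?_, ?_, fun hi => ?_⟩
    · simp [e] at t
    · by_contra l
      have l1 : ¬ i < n := by omega
      have l2 : ¬ n = i := by omega
      simp [l1, l2] at t
    · have l2 : ¬ n = i := by omega
      rw [red_tg_append, red_tg_zero ze, Bool.xor_false]
      refine hD i hi ?_
      revert t
      cases D.testBit i <;> simp [l2]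
  | 1, e =>
    intro G S v σ PU PZ hG hv h hU hZ fl ze hD hM
    simp only [iz, frc_eq] at e
    obtain rfl := Option.some.inj e
    by_cases k : G v (σ (dg c 1)) = (nu.testBit (dg c 1) ^^ tg G v PU (dg c 1))
    · refine ok _ List.mem_cons_self G S v σ PU PZ hG hv h hU hZ fl ze (fun i hi t => ?_) hM
      by_cases l : dg c 1 = i
      · exact l ▸ k
      · rw [sb_lor, testBit_p2] at t
        exact hD i hi (by simpa [l] using t)
    · refine ok _ (List.mem_cons_of_mem _ List.mem_cons_self) G S v σ PU PZ hG hv h hU hZ fl ze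
        (fun i hi t => ?_) hM
      rw [sb_xor, testBit_p2]
      by_cases l : dg c 1 = i
      · subst l
        revert k
        cases G v (σ (dg c 1)) <;> cases nu.testBit (dg c 1) <;> cases tg G v PU (dg c 1) <;> simp
      · rw [sb_lor, testBit_p2] at t
        rw [hD i hi (by simpa [l] using t)]; simp [l]
  | d + 2, e => exact sb_exp mat ex hn ch e ok

end Pool.Agent.Lib.MP_d7353d_co.U
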