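import Pool.Agent.Lib.MP_d7353d_co.U1

/-! The steps `C`, `S`, `N`, `X`, `Q` and the runner. -/

namespace Pool.Agent.Lib.MP_d7353d_co.U

open T

set_option linter.unusedSectionVars false
set_option linter.unusedSimpArgs false

variable {V : Type} [DecidableEq V]

theorem sc_ends_nil {P : List (Ch V)} (h : ends P = []) : P = [] := by simpa [ends] using h

theorem sc_ends_cons {P : List (Ch V)} {p : ℕ × ℕ} {J : List (ℕ × ℕ)} (h : ends P = p :: J) :
    ∃ c P', P = (p.1, c, p.2) :: P' ∧ ends P' = J := by
  match P, h with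
  | (a, c, b) :: P', h =>
    simp only [ends, List.map_cons, List.cons.injEq] at h
    exact ⟨c, P', by rw [← h.1], h.2⟩

/-- a chain vertex adjacent to a base vertex is an end of the chain -/
theorem sc_adj (ex : StEx V) {G : Gr V} {S : Finset V} {σ : ℕ → V} {n a b w : ℕ} {A : Gr ℕ}
    {c1 c2 : List V} {s : V} {P : List (Ch V)} (hG : Sy G)
    (e : EX G S σ n A ((a, c1 ++ s :: c2, b) :: P)) (hw : w < n) (h : G (σ w) s = true) :
    (c1 = [] ∧ w = a) ∨ (c2 = [] ∧ w = b) := by
  have en := e.en _ List.mem_cons_self
  have dj := e.dj w hw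
  simp only [chv, List.flatMap_cons, List.mem_append, List.mem_cons, not_or] at dj
  obtain ⟨l1, p, e1⟩ : ∃ l1 p, σ a :: c1 = l1 ++ [p] :=
    ⟨_, _, (List.dropLast_append_getLast (List.cons_ne_nil _ _)).symm⟩
  obtain ⟨q, l2, e2⟩ : ∃ q l2, c2 ++ [σ b] = q :: l2 := by
    cases c2 with
    | nil => exact ⟨_, _, rfl⟩
    | cons x l => exact ⟨_, _, rfl⟩
  have k := (ex.nbr (P1 := []) hG e e1 e2).2.2.2.2.2 (σ w) ((e.cov _).2 (.inl ⟨w, hw, rfl⟩))
  rw [hG.1, h] at k
  by_cases x : σ w = p
  · rcases List.eq_nil_or_concat' c1 with rfl | ⟨c, y, rfl⟩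
    · have : σ a = p := by
        cases l1 with
        | nil => simpa using e1
        | cons _ l => simp at e1
      exact .inl ⟨rfl, e.inj w hw a en.1 (x.trans this.symm)⟩
    · have : y = p := by
        have := List.append_inj' (s₁ := σ a :: c) e1 rfl
        simpa using this.2
      exact absurd (by simp [x, this]) dj.1.1
  · have x' : σ w = q := by simpa [x] using k
    cases c2 with
    | nil => exact .inr ⟨rfl, e.inj w hw b en.2.1 (x'.trans (List.cons.inj e2).1.symm)⟩
    | cons y l =>
      have : y = q := (List.cons.inj e2).1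
      exact absurd (by simp [x', this]) dj.1.2.2

/-- make the first vertex of the first chain a base vertex -/
theorem sc_ref (mat : StMat) (ex : StEx V) {G : Gr V} {S : Finset V} {σ : ℕ → V} {n M a b : ℕ}
    {c : List V} {s : V} {P : List (Ch V)} (hG : Sy G) (hn : n ≤ 31)
    (e : EX G S σ n (bit M) ((a, s :: c, b) :: P)) :
    EX G S (Function.update σ n s) (n + 1) (bit (insM M n a b)) ((n, c, b) :: P) := by
  have en := e.en _ List.mem_cons_self
  have r := ex.ref (P1 := []) (c1 := []) hG e
  exact ex.cgA (fun i hi j hj ne => (mat.ins M n a b i j hn en.1 en.2.1 en.2.2 (by omega) (by omega)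
    ne).symm) ((ex.nil (P1 := [])).1 r).2.2.2

theorem stepC_ok (V : Type) [DecidableEq V] (mat : StMat) (nc : StNc) (ex : StEx V) : StStepC V := by
  intro n M w J c ch h ok G S σ P hG e hP hw adj mn con
  cases J with
  | nil =>
    obtain rfl := sc_ends_nil hP
    obtain ⟨p, rfl⟩ := ex.base.1 e
    have h' : chk (Nat.ble n 32) (frc (lcM M w) fun M' =>
      iz (d0 c) (chk (frc (lcM M' (dg c 1)) fun M'' => kl n M'' (dg c 1) (tl c 2)) (some []))
        (some [St.R n M' []])) = some ch := h
    rw [chk_some, frc_eq, iz_eq, frc_eq] at h'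
    have hn : n ≤ 32 := Nat.le_of_ble_eq_true h'.1
    have p' := mat.pull V G σ n M w hG p hn hw
    have h2 := h'.2
    split_ifs at h2
    · have k := (chk_some.1 h2).1
      have hs : dg c 1 < n := by
        rw [kl, an_iff, an_iff] at k
        simpa [Nat.blt_eq] using k.2.1
      have p2 := mat.pull V _ σ n _ _ (hG.lc _) p' hn hs
      refine absurd (con _ (mem_im.2 ⟨_, hs, rfl⟩))
        ((nc.kl V _ σ n _ _ _ ((hG.lc _).lc _) p2 k).2.2 _ fun i hi ne => ?_)
      exact Finset.mem_erase.2 ⟨fun x => ne (p.inj _ hi _ hs x), mem_im.2 ⟨i, hi, rfl⟩⟩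
    · obtain rfl := Option.some.inj h2
      exact ok _ List.mem_cons_self _ _ σ [] (hG.lc _) (ex.base.2 ⟨p', rfl⟩) rfl mn
  | cons p J =>
    obtain ⟨k, P, rfl, hP'⟩ := sc_ends_cons hP
    have h' : ib (Nat.beq w p.1 || Nat.beq w p.2)
      (chk (Nat.ble n 30) (frc (insM M n p.1 p.2) fun M' =>
        some [St.C n M w J, St.C (Nat.succ n) M' w J])) (some [St.C n M w J]) = some ch := h
    rw [ib_eq, frc_eq] at h'
    have adj' : ∀ s ∈ chv P, G (σ w) s = true := fun s hs =>
      adj s (by simp only [chv, List.flatMap_cons, List.mem_append]; exact .inr hs)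
    have adj2 : ∀ s ∈ k, G (σ w) s = true := fun s hs =>
      adj s (by simp only [chv, List.flatMap_cons, List.mem_append]; exact .inl hs)
    have en := e.en _ List.mem_cons_self
    match k, e, adj2 with
    | [], e, _ =>
      have m : St.C n M w J ∈ ch := by
        split_ifs at h'
        · obtain rfl := Option.some.inj (chk_some.1 h').2
          simp
        · obtain rfl := Option.some.inj h'
          simp
      exact ok _ m G S σ P hG ((ex.nil (P1 := [])).1 e).2.2.2 hP' hw adj' mn con
    | [s], e, adj2 =>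
      have x := sc_adj ex (c1 := []) hG e hw (adj2 s (by simp))
      rw [if_pos (by rcases x with x | x <;> simp [x.2]), chk_some] at h'
      have hn : n ≤ 30 := Nat.le_of_ble_eq_true h'.1
      obtain rfl := Option.some.inj h'.2
      have r := ((ex.nil (P1 := [])).1 (sc_ref mat ex hG (by omega) e)).2.2.2
      have u : Function.update σ n s w = σ w := Function.update_of_ne (by omega) _ _
      have := ok (St.C (n + 1) (insM M n p.1 p.2) w J) (by simp) G S _ P hG r hP' (by omega)
      rw [u] at this
      exact this adj' mn con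
    | s :: s' :: k, e, adj2 =>
      have x := sc_adj ex (c1 := []) hG e hw (adj2 s (by simp))
      obtain ⟨l, y, e1⟩ : ∃ l y, s' :: k = l ++ [y] :=
        ⟨_, _, (List.dropLast_append_getLast (List.cons_ne_nil _ _)).symm⟩
      rw [e1] at e adj2
      have y' := sc_adj ex (c1 := s :: l) hG e hw (adj2 y (by simp))
      simp at x y' en
      omega

theorem stepS_ok (V : Type) [DecidableEq V] (mat : StMat) (ex : StEx V) : StStepS V := by
  intro n M J ch h ok G S σ P hG e hP len
  cases J with
  | nil =>
    obtain rfl := sc_ends_nil hP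
    obtain ⟨p, rfl⟩ := ex.base.1 e
    have m : ∀ k, ∀ u < k, St.Q n M u ∈
        (Nat.rec [] (fun u ih => St.Q n M u :: ih) k : List St) := fun k => by
      induction k with
      | zero => intro u hu; omega
      | succ k ih =>
        intro u hu
        rcases Nat.lt_succ_iff_lt_or_eq.1 hu with x | rfl
        · exact List.mem_cons_of_mem _ (ih u x)
        · exact List.mem_cons_self
    obtain rfl := Option.some.inj h
    intro u hu
    obtain ⟨i, hi, rfl⟩ := mem_im.1 hu
    exact ok _ (m n i hi) G σ hG p hi
  | cons p J =>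
    obtain ⟨k, P, rfl, hP'⟩ := sc_ends_cons hP
    have h' : chk (Nat.ble n 29) (frc (insM (insM M n p.1 p.2) (Nat.succ n) n p.2) fun M' =>
      some [St.S (Nat.add n 2) M' J]) = some ch := h
    rw [chk_some, frc_eq] at h'
    have hn : n ≤ 29 := Nat.le_of_ble_eq_true h'.1
    obtain rfl := Option.some.inj h'.2
    have l2 := len _ List.mem_cons_self
    match k, e, l2 with
    | [s, s'], e, _ =>
      have r := ((ex.nil (P1 := [])).1
        (sc_ref mat ex hG (by omega) (sc_ref mat ex hG (by omega) e))).2.2.2
      exact ok _ List.mem_cons_self G S _ P hG r hP' fun t ht => len t (List.mem_cons_of_mem _ ht)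

theorem step_ok (V : Type) [DecidableEq V] (nc : StNc) (cw : StCw) (r : StStepR V) (b : StStepB V)
    (c : StStepC V) (s : StStepS V) (w : StStepW V) (k : StStepK V) :
    ∀ st e, Snd V (step st e) st := by
  intro st e
  cases st with
  | N n M =>
    intro ch h _ G σ hG p
    have h' := an_iff.1 (chk_some.1 h).1
    refine nc.nc V G _ σ n M _ _ hG p (Nat.le_of_ble_eq_true h'.1) (fun i hi => ?_) h'.2
    have : i < n := by simpa [testBit_lo] using hi
    exact ⟨this, mem_im.2 ⟨i, this, rfl⟩⟩
  | X n M =>
    intro ch h _ G σ hG p d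
    obtain ⟨hu, -, x⟩ := nc.kl V G σ n M _ _ hG p (chk_some.1 h).1
    exact x _ (fun i hi ne => Finset.mem_erase.2
      ⟨fun y => ne (p.inj _ hi _ hu y), mem_im.2 ⟨i, hi, rfl⟩⟩) (d _ (mem_im.2 ⟨_, hu, rfl⟩))
  | Q n M u => exact fun ch h _ G σ hG p hu => cw V G σ n M u e hG p hu (chk_some.1 h).1
  | S n M J => exact s n M J
  | R n M J => exact r n M J e
  | C n M w J => exact c n M w J e
  | B n M nu D U Z => exact b n M nu D U Z e
  | W t n M Lm Nm k A B => exact w t n M Lm Nm k A B e
  | K t n M Lm Nm len J => exact k t n M Lm Nm len J e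

theorem run_spec (ok : ∀ st e, Snd V (step st e) st) (fuel : ℕ) :
    ∀ e st, run fuel e st = true → ∀ s ∈ st, Ok V s := by
  induction fuel with
  | zero => intro e st h; exact absurd h (by simp [run])
  | succ fuel ih =>
    intro e st h
    cases st with
    | nil => simp
    | cons s rest =>
      have h' : (frc (Nat.mul 5 (Nat.land e 63)) fun w =>
        frc (Nat.land (Nat.shiftRight e 6) (lo w)) fun c =>
          frc (Nat.shiftRight e (Nat.add w 6)) fun e' =>
            (Option.rec false (fun ch => run fuel e' (ch ++ rest)) (step s c) : Bool)) = true := h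
      rw [frc_eq, frc_eq, frc_eq] at h'
      generalize Nat.land (Nat.shiftRight e 6) _ = c at h'
      rcases x : step s c with _ | ch
      · rw [x] at h'; exact absurd h' (by simp)
      · rw [x] at h'
        have := ih _ _ h'
        intro t ht
        rcases List.mem_cons.1 ht with rfl | ht
        · exact ok _ c ch x fun s' hs => this s' (List.mem_append_left _ hs)
        · exact this t (List.mem_append_right _ ht)

theorem run_ok (V : Type) [DecidableEq V] (nc : StNc) (cw : StCw) (r : StStepR V) (b : StStepB V)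
    (c : StStepC V) (s : StStepS V) (w : StStepW V) (k : StStepK V) : StRun V := by
  intro f l
  induction l with
  | nil => intro i _ j h1 h2; simp at h2; omega
  | cons e l ih =>
    intro i h j h1 h2
    have h' : an (run 1000000 e (f i)) (runs f l (i + 1)) = true := h
    rw [an_iff] at h'
    rcases Nat.eq_or_lt_of_le h1 with rfl | x
    · exact run_spec (step_ok V nc cw r b c s w k) _ _ _ h'.1
    · exact ih _ h'.2 j x (by simp at h2; omega)

end Pool.Agent.Lib.MP_d7353d_co.U
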