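import Pool.Agent.Lib.MP_d7353d_co.U1

/-! Soundness of the step for the states `R`. -/

namespace Pool.Agent.Lib.MP_d7353d_co.U

open T

variable {V : Type} [DecidableEq V]

/-- the diagonal is empty -/
def Dz (n J : ℕ) : Prop := ∀ x < n, bit J x x = false

theorem dz_base : allN 223 (fun i => frc (bJ i) fun J => allN 16 fun a => !bit J a a) = true := by
  decide +kernel

theorem bN_lt (i : ℕ) : bN i < 16 := Nat.and_lt_two_pow _ (n := 4) (by decide)

theorem dz_bJ {i : ℕ} (hi : i < 223) : Dz (bN i) (bJ i) := by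
  intro x hx
  have h := allN_spec dz_base i hi
  rw [frc_eq] at h
  have := allN_spec h x (hx.trans (bN_lt i))
  simpa using this

theorem dz_add : allN 31 (fun n => an (!(msk n).testBit (32 * n + n)) (allN n fun a => allN n fun b =>
    frc (addv 0 n (Nat.xor (p2 a) (p2 b))) fun X => Nat.beq (Nat.land X NDG) X)) = true := by
  decide +kernel

theorem dz_ndg : allN 32 (fun x => !NDG.testBit (32 * x + x)) = true := by decide +kernel

theorem addv_split (M n N k : ℕ) : (addv M n N).testBit k =
    ((M.testBit k && (msk n).testBit k) ^^ (addv 0 n N).testBit k) := by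
  show ((M &&& msk n) ^^^ _ ^^^ _).testBit k = (_ ^^ (((0 &&& msk n) ^^^ _ ^^^ _).testBit k))
  simp only [Nat.testBit_xor, Nat.testBit_and, Nat.zero_testBit, Bool.false_and, Bool.false_xor,
    Bool.xor_assoc]

theorem dz_ins (mat : StMat) {n J a b : ℕ} (hn : n ≤ 30) (ha : a < n) (hb : b < n) (h : Dz n J) :
    Dz (n + 1) (insJ J n a b) := by
  intro x hx
  have h1 := allN_spec dz_add n (by omega)
  rw [an_iff] at h1
  have h2 := allN_spec (allN_spec h1.2 a ha) b hb
  rw [frc_eq] at h2
  have h3 : addv 0 n (Nat.xor (p2 a) (p2 b)) &&& NDG = addv 0 n (Nat.xor (p2 a) (p2 b)) :=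
    Nat.eq_of_beq_eq_true h2
  have h4 : NDG.testBit (32 * x + x) = false := by
    simpa using allN_spec dz_ndg x (by omega)
  show (addv (clr J a b) n (Nat.xor (p2 a) (p2 b))).testBit (32 * x + x) = false
  rw [addv_split, ← h3, Nat.testBit_and, h4, Bool.and_false, Bool.xor_false]
  rcases Nat.lt_succ_iff_lt_or_eq.mp hx with e | e
  · have h5 := mat.clr J a b x x (by omega) (by omega) (by omega) (by omega)
    rw [h x e, Bool.false_and] at h5
    have h6 : (clr J a b).testBit (32 * x + x) = false := h5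
    rw [h6, Bool.false_and]
  · subst e
    have h7 : (msk x).testBit (32 * x + x) = false := by simpa using h1.1
    rw [h7, Bool.and_false]

theorem b1_bit {J a b : ℕ} (h : Nat.beq (b1 J (Nat.add (Nat.mul 32 a) b)) 1 = true) :
    bit J a b = true := by
  have h1 := Nat.eq_of_beq_eq_true h
  rw [b1_eq] at h1
  have h2 : (J.testBit (32 * a + b)).toNat = 1 := h1
  show J.testBit (32 * a + b) = true
  revert h2
  cases J.testBit (32 * a + b) <;> simp

theorem tgt_ok (mat : StMat) (k : ℕ) : ∀ (c n M J : ℕ) (f : ℕ → ℕ → ℕ → Out) (ch : List St) (B : MG),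
    Listed B → Impl B n M J → Dz n J → tgt k c n M J f = some ch →
    ∃ B' n' M' J', Listed B' ∧ Impl B' n' M' J' ∧ f n' M' J' = some ch := by
  induction k with
  | zero => exact fun c n M J f ch B hB hI _ h => ⟨B, n, M, J, hB, hI, h⟩
  | succ k ih =>
    intro c n M J f ch B hB hI hD h
    have h' : chk (an (Nat.ble n 30) (an (Nat.blt (d0 c) n) (an (Nat.blt (dg c 1) n)
          (Nat.beq (b1 J (Nat.add (Nat.mul 32 (d0 c)) (dg c 1))) 1))))
        (frc (insM M n (d0 c) (dg c 1)) fun M' => frc (insJ J n (d0 c) (dg c 1)) fun J' =>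
          tgt k (tl c 2) (Nat.succ n) M' J' f) = some ch := h
    rw [chk_some, an_iff, an_iff, an_iff, frc_eq, frc_eq] at h'
    obtain ⟨⟨h1, h2, h3, h4⟩, h5⟩ := h'
    have hn : n ≤ 30 := Nat.le_of_ble_eq_true h1
    have ha : d0 c < n := Nat.blt_eq.mp h2
    have hb : dg c 1 < n := Nat.blt_eq.mp h3
    have hm := b1_bit h4
    generalize d0 c = a at *
    generalize dg c 1 = b at *
    have ne : a ≠ b := by
      rintro rfl
      rw [hD a ha] at hm
      exact Bool.noConfusion hm
    obtain ⟨e, hI⟩ := hI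
    refine ih _ _ _ _ f ch (B.ins a b) (Listed.ins B a b hB (e ▸ ha) (e ▸ hb)
      ((hI a ha b hb ne).2.trans hm)) ⟨by show B.n + 1 = n + 1; rw [e], ?_⟩ (dz_ins mat hn ha hb hD) h5
    intro i hi j hj nij
    have hi' : i ≤ n := Nat.lt_succ_iff.mp hi
    have hj' : j ≤ n := Nat.lt_succ_iff.mp hj
    rw [mat.ins M n a b i j (by omega) ha hb ne hi' hj' nij,
      mat.insJ J n a b i j (bit M) (by omega) ha hb ne hi' hj' nij]
    simp only [insA, MG.ins, e]
    by_cases e1 : i = n
    · simp [e1]
    by_cases e2 : j = n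
    · simp [e1, e2]
    have := hI i (by omega) j (by omega) nij
    simp [e1, e2, this.1, this.2]

theorem pr_symm (a b i j : ℕ) : pr a b i j = pr i j a b := by
  unfold pr
  apply decide_eq_decide.mpr
  omega

theorem idl_ok (mat : StMat) (ex : StEx V) (good : StGood V) {n M q : ℕ} {B : MG} (hn : n ≤ 30)
    (hB : Listed B) (e : B.n = n) (lt : ∀ i < n, dg q i < n)
    (inj : ∀ i < n, ∀ j < n, dg q i = dg q j → i = j)
    (adj : ∀ i < n, ∀ j < n, i ≠ j → B.adj (dg q i) (dg q j) = bit M i j)
    {G : Gr V} {S : Finset V} {σ : ℕ → V} (hG : Sy G) (hM : Mn G S) (Pr : List (Ch V)) :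
    ∀ (Pa : List (Ch V)) (J' c : ℕ) (ch : List St),
    idl n M q (ends Pr) (ends Pa) J' c = some ch → (∀ s ∈ ch, Ok V s) →
    EX G S σ n (bit M) (Pa ++ Pr) →
    Fits B.mark ((ends Pa).map (Prod.map (dg q) (dg q))) →
    (∀ i < n, ∀ j < n, i ≠ j → bit J' i j = true → B.mark i j = true ∧
      ∀ p ∈ ends Pa, pr (dg q p.1) (dg q p.2) i j = false) → Lst G S := by
  induction Pr with
  | nil =>
    intro Pa J' c ch _ _ hE hF _
    rw [List.append_nil] at hE
    obtain ⟨σ', hE'⟩ := ex.rel (A' := B.adj) (dg q) lt inj adj hE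
    refine good B hB G S σ' _ hG (e ▸ hE') ?_
    have : ends (Pa.map fun t => (dg q t.1, t.2.1, dg q t.2.2)) =
        (ends Pa).map (Prod.map (dg q) (dg q)) := by
      simp [ends, Function.comp_def]
    rwa [this]
  | cons t Pr ih =>
    obtain ⟨a, c0, b⟩ := t
    intro Pa J' c ch h hch hE hF hJ
    obtain ⟨ha, hb, ne⟩ := hE.en (a, c0, b) (by simp)
    dsimp only at ha hb ne
    have h' : Nat.rec (motive := fun _ => Out)
        (chk (Nat.beq (b1 J' (Nat.add (Nat.mul 32 (dg q a)) (dg q b))) 1)
          (frc (clr J' (dg q a) (dg q b)) fun J'' =>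
            idl n M q (ends Pr) ((a, b) :: ends Pa) J'' (tl c 1)))
        (fun e _ => Option.rec (motive := fun _ => Out) none
          (fun l => frc (insM M n a b) fun M' =>
            some (St.R (Nat.succ n) M' (ends Pa ++ iz e (n, b) (a, n) :: ends Pr) :: l))
          (idl n M q (ends Pr) (ends Pa) J' (tl c 1))) (d0 c) = some ch := h
    generalize d0 c = d at h'
    cases d with
    | zero =>
      have h2 : chk (Nat.beq (b1 J' (Nat.add (Nat.mul 32 (dg q a)) (dg q b))) 1)
          (frc (clr J' (dg q a) (dg q b)) fun J'' =>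
            idl n M q (ends Pr) ((a, b) :: ends Pa) J'' (tl c 1)) = some ch := h'
      rw [chk_some, frc_eq] at h2
      have hm := hJ _ (lt a ha) _ (lt b hb) (fun x => ne (inj a ha b hb x)) (b1_bit h2.1)
      refine ih ((a, c0, b) :: Pa) _ _ ch h2.2 hch (ex.perm List.perm_middle hE) ⟨?_, ?_⟩ ?_
      · intro p hp
        rcases List.mem_cons.mp hp with rfl | hp
        · exact hm.1
        · exact hF.1 p hp
      · refine List.pairwise_cons.mpr ⟨?_, hF.2⟩
        intro p hp
        obtain ⟨p', hp', rfl⟩ := List.mem_map.mp hp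
        exact (pr_symm _ _ _ _).trans (hm.2 p' hp')
      · intro i hi j hj nij hb'
        rw [mat.clr J' _ _ i j (dg_lt _ _) (dg_lt _ _) (by omega) (by omega), Bool.and_eq_true] at hb'
        have := hJ i hi j hj nij hb'.1
        refine ⟨this.1, fun p hp => ?_⟩
        rcases List.mem_cons.mp hp with rfl | hp
        · simpa using hb'.2
        · exact this.2 p hp
    | succ d =>
      have h2 : Option.rec (motive := fun _ => Out) none
          (fun l => frc (insM M n a b) fun M' =>
            some (St.R (Nat.succ n) M' (ends Pa ++ iz d (n, b) (a, n) :: ends Pr) :: l))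
          (idl n M q (ends Pr) (ends Pa) J' (tl c 1)) = some ch := h'
      cases hl : idl n M q (ends Pr) (ends Pa) J' (tl c 1) with
      | none => rw [hl] at h2; exact absurd h2 (by simp)
      | some l =>
        rw [hl] at h2
        have h3 : (frc (insM M n a b) fun M' =>
            some (St.R (Nat.succ n) M' (ends Pa ++ iz d (n, b) (a, n) :: ends Pr) :: l)) = some ch := h2
        rw [frc_eq] at h3
        have h4 := Option.some.inj h3
        subst h4
        have hR : Rok V (n + 1) (insM M n a b) (ends Pa ++ iz d (n, b) (a, n) :: ends Pr) :=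
          hch _ List.mem_cons_self
        have cg : ∀ i < n + 1, ∀ j < n + 1, i ≠ j →
            insA (bit M) n a b i j = bit (insM M n a b) i j := fun i hi j hj nij =>
          (mat.ins M n a b i j (by omega) ha hb ne (by omega) (by omega) nij).symm
        by_cases h0 : c0 = []
        · subst h0
          exact ih Pa J' _ l hl (fun s hs => hch s (List.mem_cons_of_mem _ hs))
            (ex.nil.mp hE).2.2.2 hF hJ
        cases d with
        | zero =>
          obtain ⟨s, c2, rfl⟩ := List.exists_cons_of_ne_nil h0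
          have h5 := (ex.nil.mp (ex.ref (c1 := []) hG hE)).2.2.2
          exact hR G S _ _ hG (ex.cgA cg h5) (by simp [ends, iz]) hM
        | succ d =>
          obtain ⟨c1, s, rfl⟩ : ∃ c1 s, c0 = c1 ++ [s] :=
            ⟨_, _, (List.dropLast_append_getLast h0).symm⟩
          have h5 := ex.ref (c2 := []) hG hE
          rw [← List.singleton_append, ← List.append_assoc] at h5
          have h6 := (ex.nil.mp h5).2.2.2
          exact hR G S _ _ hG (ex.cgA cg h6) (by simp [ends, iz]) hM

theorem stepR_ok (V : Type) [DecidableEq V] (mat : StMat) (nc : StNc) (ex : StEx V)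
    (good : StGood V) (tab : StTab) : StStepR V := by
  intro n M J c ch h hch G S σ P hG hE hP hM
  unfold stepR at h
  rw [iz_eq] at h
  split_ifs at h with h0
  · rw [chk_some] at h
    obtain ⟨G', l, p⟩ := ex.col hG hE
    obtain ⟨hu, _, k⟩ := nc.kl V G' σ n M _ _ (l.sy hG) p h.1
    refine absurd (hM.2.minor hG l (fun x hx => (hE.cov x).mpr (Or.inr (List.mem_toFinset.mp hx)))
      (Finset.erase_subset (σ (dg c 1)) S) ((hE.cov _).mpr (Or.inl ⟨_, hu, rfl⟩))
      (fun hx => hE.dj _ hu (List.mem_toFinset.mp hx)) (Finset.notMem_erase _ _)) (k _ ?_)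
    exact fun i hi ne => Finset.mem_erase.mpr
      ⟨fun x => ne (hE.inj i hi _ hu x), (hE.cov _).mpr (Or.inl ⟨i, hi, rfl⟩)⟩
  · unfold ident at h
    rw [frc_eq, frc_eq, chk_some, an_iff] at h
    obtain ⟨⟨h1, h2⟩, h3⟩ := h
    have hi := Nat.blt_eq.mp h1
    have hn : n ≤ 30 := Nat.le_of_ble_eq_true h2
    obtain ⟨B, n', M', J', hB, hI, h4⟩ := tgt_ok mat _ _ _ _ _ _ ch _ (tab.impl _ hi).1
      (tab.impl _ hi).2 (dz_bJ hi) h3
    rw [frc_eq, chk_some, an_iff, an_iff] at h4
    obtain ⟨⟨h5, h6, h7⟩, h8⟩ := h4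
    have e1 := Nat.eq_of_beq_eq_true h5
    have e2 := Nat.eq_of_beq_eq_true h7
    subst e1
    obtain ⟨t1, t2, -⟩ := mat.tk _ _ _ _ h6
    have lt : ∀ i < n', dg _ i < n' := fun i hi => by
      have := t1 i hi
      rw [testBit_lo] at this
      exact of_decide_eq_true this
    subst hP
    refine idl_ok mat ex good hn hB hI.1 lt t2 ?_ hG hM P [] J' _ ch h8 hch hE
      ⟨by simp [ends], by simp [ends]⟩ ?_
    · intro i hi j hj ne
      rw [(hI.2 _ (lt i hi) _ (lt j hj) fun x => ne (t2 i hi j hj x)).1, ← e2]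
      exact mat.perm _ _ M (by omega) t2 i hi j hj
    · intro i hi j hj ne hb
      exact ⟨(hI.2 i hi j hj ne).2.trans hb, by simp [ends]⟩

end Pool.Agent.Lib.MP_d7353d_co.U
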