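import Pool.Agent.Lib.MP_d7353d_co.UStepW1

/-! The step on open words. -/

namespace Pool.Agent.Lib.MP_d7353d_co.U

open T

variable {V : Type} [DecidableEq V]

namespace StepW

theorem mat_eq {σ : ℕ → V} {e : ℕ} {y : V} (hy : σ e = y) (A B : List (ℕ × ℕ)) (rest : List V)
    (X : Bool) (u w : V) :
    (X ^^ cy y (A.reverse.map (fun p => σ p.1) ++ rest ++ B.map fun p => σ p.1) u w ^^
      pe (y :: A.reverse.map fun p => σ p.1) u w ^^ pe (B.map (fun p => σ p.1) ++ [y]) u w) =
      (X ^^ pe (σ (hdI e A) :: rest ++ [σ (hdI e B)]) u w) := by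
  obtain ⟨l1, h1⟩ : ∃ l, y :: A.reverse.map (fun p => σ p.1) = l ++ [σ (hdI e A)] := by
    cases A with
    | nil => exact ⟨[], by simp [hdI, hy]⟩
    | cons p A => exact ⟨y :: A.reverse.map fun p => σ p.1, by simp [hdI]⟩
  obtain ⟨l2, h2⟩ : ∃ l, B.map (fun p => σ p.1) ++ [y] = σ (hdI e B) :: l := by
    cases B with
    | nil => exact ⟨[], by simp [hdI, hy]⟩
    | cons p B => exact ⟨B.map (fun p => σ p.1) ++ [y], by simp [hdI]⟩
  have h3 : y :: (A.reverse.map (fun p => σ p.1) ++ rest ++ B.map fun p => σ p.1) ++ [y] =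
      l1 ++ σ (hdI e A) :: (rest ++ σ (hdI e B) :: l2) := by
    rw [← h2, List.append_cons l1, ← h1]
    simp
  rw [cy, h3, h1, h2, pe_app, ← List.cons_append, pe_app (σ (hdI e A) :: rest)]
  cases X <;> cases pe (l1 ++ [σ (hdI e A)]) u w <;> cases pe (σ (hdI e B) :: l2) u w <;>
    cases pe (σ (hdI e A) :: rest ++ [σ (hdI e B)]) u w <;> rfl

theorem nrow_bit (t Lm Nm p j : ℕ) (l e : Bool) :
    (nrow t Lm Nm p (l.toNat + 2 * e.toNat)).testBit j =
      (decide (p = j) ^^ (l && if kap t = true then Lm.testBit j else (alM t).testBit j) ^^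
        (e && (Nm.testBit j ^^ decide (0 = j)))) := by
  have k : (nrow t Lm Nm p (l.toNat + 2 * e.toNat)) =
      p2 p ^^^ l.toNat * ib (kap t) Lm (alM t) ^^^ e.toNat * (Nm ^^^ 2 ^ 0) := by
    cases l <;> cases e <;> rfl
  have o : Nat.testBit 1 j = decide (0 = j) := Nat.testBit_two_pow (n := 0)
  rw [k, Nat.testBit_xor, Nat.testBit_xor, testBit_p2, ib_eq]
  cases l <;> cases e <;> cases kap t <;> simp [Nat.testBit_xor, o]

theorem tog_bit (N n i : ℕ) (b : Bool) :
    (N ^^^ b.toNat <<< n).testBit i = (N.testBit i ^^ (b && decide (n = i))) := by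
  cases b
  · simp
  · simp [Nat.one_shiftLeft, Nat.testBit_xor, Nat.testBit_two_pow]

theorem tog_lt {N n : ℕ} (h : N < 2 ^ n) (b : Bool) : N ^^^ b.toNat <<< n < 2 ^ (n + 1) := by
  refine Nat.xor_lt_two_pow (h.trans (Nat.pow_lt_pow_right (by decide) (by omega))) ?_
  cases b
  · simp
  · simp [Nat.one_shiftLeft, Nat.pow_lt_pow_right]

theorem cnt_le {σ : ℕ → V} {A B : List (ℕ × ℕ)} (rest : List V) {g : ℕ × ℕ → Bool}
    {f : V → Bool} (h : ∀ p ∈ A ++ B, g p = true → f (σ p.1) = true) :
    (A ++ B).countP g ≤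
      (A.reverse.map (fun p => σ p.1) ++ rest ++ B.map fun p => σ p.1).countP f := by
  have := List.countP_mono_left (q := fun p : ℕ × ℕ => f (σ p.1)) h
  simp only [List.countP_append, List.countP_map, List.countP_reverse, Function.comp_def] at this ⊢
  omega

section
variable {d : Wd V} {σ : ℕ → V} {rest : List V} {n M Lm Nm k : ℕ} {A B : List (ℕ × ℕ)}

theorem mat2 (mt : d.Mt σ rest n M Lm Nm k A B) {i j : ℕ} (hi : i < n) (hj : j < n)
    (ne : i ≠ j) : bit M i j = (d.H (σ i) (σ j) ^^
      pe (σ (hdI (ey d.t) A) :: rest ++ [σ (hdI (ey d.t) B)]) (σ i) (σ j)) := by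
  rw [mt.mat i hi j hj ne, ← mat_eq mt.pl.y A B rest, ← mt.r]

theorem hd_lt (mt : d.Mt σ rest n M Lm Nm k A B) {C : List (ℕ × ℕ)} (h : C ⊆ A ++ B) :
    0 < hdI (ey d.t) C ∧ hdI (ey d.t) C < n ∧ σ (hdI (ey d.t) C) ∈ d.y :: d.r := by
  cases C with
  | nil => exact ⟨ey_pos _, mt.pl.lt, by simp [hdI, mt.pl.y]⟩
  | cons p C =>
    have m := h List.mem_cons_self
    have := mt.ab p m
    refine ⟨by simp only [hdI]; omega, this.2.1, List.mem_cons_of_mem _ ?_⟩
    rw [mt.r]
    simp only [List.mem_append, List.mem_map, List.mem_reverse] at m ⊢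
    rcases m with m | m
    · exact .inl (.inl ⟨p, m, rfl⟩)
    · exact .inr ⟨p, m, rfl⟩

theorem rest_sub (mt : d.Mt σ rest n M Lm Nm k A B) {s : V} (h : s ∈ rest) : s ∈ d.r := by
  rw [mt.r]; simp [h]

theorem not_rest (hv : d.Val) (mt : d.Mt σ rest n M Lm Nm k A B) {i : ℕ} (hi : i < n) :
    σ i ∉ rest := by
  intro h
  obtain ⟨p, hp, rfl⟩ := List.mem_map.1 (mt.sur i hi (low hv mt.pl (rest_sub mt h)))
  have nd := (List.nodup_cons.1 (nd_r hv)).2
  rw [mt.r] at nd
  rcases List.mem_append.1 hp with m | m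
  · exact (List.nodup_append.1 (List.nodup_append.1 nd).1).2.2 _
      (List.mem_map.2 ⟨p, List.mem_reverse.2 m, rfl⟩) _ h rfl
  · exact (List.nodup_append.1 nd).2.2 _ (List.mem_append_right _ h) _
      (List.mem_map.2 ⟨p, m, rfl⟩) rfl

theorem pull_open (hv : d.Val) (mt : d.Mt σ rest n M Lm Nm k A B) (h : rest ≠ []) :
    Pull d.H σ n (bit M) := fun i hi j hj ne =>
  ⟨fun e => ne (mt.pl.inj i hi j hj e), by
    rw [mat2 mt hi hj ne, pe_mid h _ _ (not_rest hv mt hi) (not_rest hv mt hj), Bool.xor_false]⟩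

theorem k_le (mt : d.Mt σ rest n M Lm Nm k A B) : k ≤ d.r.countP d.lam := by
  rw [mt.k, mt.r]
  refine cnt_le rest fun p hp g => ?_
  have := (mt.ab p hp).2.2
  rw [← this, lt] at g
  revert g
  cases d.lam (σ p.1) <;> cases d.H d.v (σ p.1) <;> simp

theorem mz_eq (hv : d.Val) (mt : d.Mt σ rest n M Lm Nm k A B) :
    mz d.t Lm k + d.r.countP d.lam = m0 d.t d.y d.r d.lam + k := by
  have : mz d.t Lm k = k + ib (Nat.blt d.t 3) (b1 Lm (ey d.t)) 1 := rfl
  rw [this, ib_eq, b1_eq, lm_y hv mt.pl, m0]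
  simp only [Nat.blt_eq]
  omega

theorem clos_sub (t : ℕ) (l : List St) {s : St} (h : s ∈ l) : s ∈ clos t n M Lm Nm k A B l := by
  unfold clos
  rw [ib_eq]
  split_ifs
  · exact List.mem_cons_of_mem _ h
  · exact h

theorem clos_ok (mat : StMat) (hv : d.Val) (mt : d.Mt σ [] n M Lm Nm k A B) (n30 : n ≤ 30)
    (l : List St) (ok : ∀ s ∈ clos d.t n M Lm Nm k A B l, Ok V s) : d.Fin := by
  have hr : d.r = (A.reverse.map Prod.fst ++ B.map Prod.fst).map σ := by
    rw [mt.r]; simp [Function.comp_def]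
  have hk : k = d.r.countP d.lam := by
    refine le_antisymm (k_le mt) ?_
    rw [mt.k, mt.r]
    simp only [List.append_nil, List.countP_append, List.countP_map, List.countP_reverse]
    rw [← List.countP_append]
    rw [← List.countP_append]
    refine List.countP_mono_left fun p hp g => ?_
    have := (mt.ab p hp).2.2
    rw [← this, lt]
    revert g
    simp only [Function.comp]
    cases d.lam (σ p.1) <;> cases d.H d.v (σ p.1) <;> simp
  have t1 : thr d.t ≤ mz d.t Lm k := by
    have := mz_eq hv mt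
    have := hv.2.2.1.2.1
    omega
  have t2 : parOk d.t (Nat.add k (b1 Lm (ey d.t))) = true := by
    have := hv.2.2.1.2.2
    have e : (d.y :: d.r).countP d.lam = Nat.add k (b1 Lm (ey d.t)) := by
      rw [b1_eq, lm_y hv mt.pl, hk, List.countP_cons]
      cases d.lam d.y <;> rfl
    rw [e] at this
    rcases this with h | h
    · simp [parOk, h]
    · simp only [parOk, Bool.or_eq_true, beq_iff_eq, decide_eq_decide]
      exact .inr h
  unfold clos at ok
  rw [Nat.ble_eq_true_of_le t1, t2] at ok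
  obtain ⟨-, a2, -⟩ := hd_lt mt (List.subset_append_left A B)
  obtain ⟨-, b2, -⟩ := hd_lt mt (List.subset_append_right A B)
  have bd : ∀ x ∈ ey d.t :: (A.reverse.map Prod.fst ++ B.map Prod.fst) ++ [ey d.t], x < n := by
    intro x hx
    simp only [List.cons_append, List.mem_cons, List.mem_append, List.mem_map, List.mem_reverse,
      List.not_mem_nil, or_false] at hx
    rcases hx with rfl | (⟨p, m, rfl⟩ | ⟨p, m, rfl⟩) | rfl
    · exact mt.pl.lt
    · exact (mt.ab p (List.mem_append_left _ m)).2.1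
    · exact (mt.ab p (List.mem_append_right _ m)).2.1
    · exact mt.pl.lt
  refine ok _ List.mem_cons_self d σ rfl hv mt.pl (fun i hi j hj ne =>
    ⟨fun e => ne (mt.pl.inj i hi j hj e), ?_⟩) ?_ (fun p hp => ?_) ?_ ?_
  · rw [mat.tog _ _ _ _ _ (by omega) (by omega) (by omega) (by omega), mat2 mt hi hj ne]
    simp only [List.append_nil, List.cons_append, List.nil_append, pe, ed, Bool.xor_false,
      dec mt.pl hi a2, dec mt.pl hi b2, dec mt.pl hj a2, dec mt.pl hj b2, @eq_comm _ i,
      @eq_comm _ j, Bool.xor_assoc, Bool.xor_self]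
  · ext u
    rw [mem_im]
    refine ⟨fun h => ?_, fun ⟨i, hi, e⟩ => e ▸ mt.pl.mem i hi⟩
    have l := mt.pl.lt
    by_cases uv : u = d.v
    · exact ⟨0, by omega, uv ▸ mt.pl.v⟩
    rcases List.mem_append.1 ((hv.2.1.2.cov u).1 (Finset.mem_erase.2 ⟨uv, h⟩)) with m | m
    · unfold ey at l
      unfold ext at m
      split_ifs at l m with t1 t4
      · simp at m
      · rcases List.mem_cons.1 m with rfl | m
        · exact ⟨1, by omega, mt.pl.h t1⟩
        · exact ⟨2, by omega, (List.mem_singleton.1 m) ▸ mt.pl.z t4⟩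
      · exact ⟨1, by omega, (List.mem_singleton.1 m) ▸ mt.pl.h t1⟩
    · rcases List.mem_cons.1 m with rfl | m
      · exact ⟨_, l, mt.pl.y⟩
      · rw [hr] at m
        obtain ⟨x, hx, rfl⟩ := List.mem_map.1 m
        exact ⟨x, bd x (by simp only [List.cons_append, List.mem_cons, List.mem_append] at hx ⊢
                           tauto), rfl⟩
  · have := List.of_mem_zip hp
    exact ⟨bd _ this.1, bd _ (List.mem_of_mem_tail this.2)⟩
  · rw [cp_map, hr]
    simp [mt.pl.y]
  · have := mt.len
    rw [hr]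
    simp only [List.length_map, List.length_append, List.length_reverse, Nat.sub_eq,
      Nat.succ_eq_add_one]
    omega

theorem five_ok (wd : StWd V) (ex : StExt V) (hv : d.Val)
    (ih : ∀ d' : Wd V, d'.Val → d'.r.length < d.r.length → d'.Fin) {r1 r2 : List V}
    {p1 p2 p3 p4 p5 : V} (hr : d.r = r1 ++ [p1, p2, p3, p4, p5] ++ r2)
    (same : ∀ u ∈ [p2, p3, p4, p5], d.lam u = d.lam p1 ∧ d.H d.v u = d.H d.v p1)
    (len : 11 ≤ d.r.length) (c1 : d.lam p1 = true → thr d.t + 4 ≤ m0 d.t d.y d.r d.lam)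
    (c2 : d.H d.v p1 = true → 7 ≤ d.r.countP (d.H d.v))
    (c3 : d.lam p1 ≠ d.H d.v p1 → 6 ≤ d.r.countP fun u => d.lam u ^^ d.H d.v u) : d.Fin := by
  obtain ⟨sy, hH, ri, zf, ly, del⟩ := hv
  have hH' := hH
  rw [hr] at hH'
  obtain ⟨H', le, hv', row⟩ := wd.fiveV sy hH' same
  have cnt : ∀ f : V → Bool, (∀ u ∈ [p2, p3, p4, p5], f u = f p1) →
      d.r.countP f = (r1 ++ p3 :: r2).countP f + 4 * (f p1).toNat := by
    intro f hf
    simp only [List.mem_cons, List.not_mem_nil, or_false, forall_eq_or_imp, forall_eq] at hf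
    obtain ⟨a, b, c, e⟩ := hf
    rw [hr]
    simp only [List.countP_append, List.countP_cons, List.countP_nil, a, b, c, e]
    cases f p1 <;> simp <;> omega
  have l' : d.r.length = (r1 ++ p3 :: r2).length + 4 := by
    rw [hr]; simp; omega
  have sub : ∀ u ∈ r1 ++ p3 :: r2, u ∈ d.r := fun u hu => by
    rw [hr]
    simp only [List.mem_append, List.mem_cons] at hu ⊢
    tauto
  have k1 := cnt d.lam fun u hu => (same u hu).1
  have k2 := cnt (d.H d.v) fun u hu => (same u hu).2
  have k3 := cnt (fun u => d.lam u ^^ d.H d.v u) fun u hu => by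
    simp only [(same u hu).1, (same u hu).2]
  have fin := ih ⟨d.t, H', d.S \ {p1, p2, p4, p5}, d.v, d.y, r1 ++ p3 :: r2, d.lam, d.h, d.z⟩
    ⟨le.sy sy, hv', ⟨ri.1, ?_, ?_⟩, fun u hu => ?_, ly, del.le sy le fun u hu => ?_⟩
    (by simp only; omega)
  · rcases fin with ⟨l, -⟩ | ⟨-, pt⟩
    · simp only at l
      omega
    · refine .inr ⟨by omega, ?_⟩
      rw [hr]
      refine ex _ _ H' _ _ _ _ _ _ _ _ _ _ _ _ _ hH' (by omega) same row (fun e => ?_)
        (fun e => ?_) pt
      · have := c2 e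
        rw [e] at k2
        simp only [Bool.toNat_true] at k2
        omega
      · have := c3 e
        have := Bool.toNat_le (d.lam p1 ^^ d.H d.v p1)
        omega
  · have := ri.2.1
    simp only [m0] at this c1 ⊢
    cases e : d.lam p1
    · rw [e] at k1
      simp only [Bool.toNat_false] at k1
      omega
    · have := c1 e
      rw [e] at k1
      simp only [Bool.toNat_true] at k1
      omega
  · have := ri.2.2
    simp only [okp, List.countP_cons] at this ⊢
    rw [k1] at this
    refine this.imp_right fun h => Iff.trans ?_ h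
    omega
  · have m := Finset.mem_of_mem_erase ((hv'.2.cov u).2
      (List.mem_append_right _ (List.mem_cons_of_mem _ hu)))
    simp only [row u m]
    exact zf u (sub u hu)
  · refine Finset.mem_of_mem_erase ((hH.2.cov u).2
      (List.mem_append_right _ (List.mem_cons_of_mem _ ?_)))
    rw [hr]
    simp only [Finset.mem_insert, Finset.mem_singleton, List.mem_append, List.mem_cons] at hu ⊢
    tauto

theorem lt_inj {H : Gr V} {v u w : V} {lam : V → Bool} (h : lt H v lam u = lt H v lam w) :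
    lam u = lam w ∧ H v u = H v w := by
  unfold lt at h
  revert h
  cases lam u <;> cases lam w <;> cases H v u <;> cases H v w <;> simp

theorem redu_ok (wd : StWd V) (ex : StExt V) (hv : d.Val)
    (ih : ∀ d' : Wd V, d'.Val → d'.r.length < d.r.length → d'.Fin)
    (mt : d.Mt σ rest n M Lm Nm k A B) {c : ℕ} (h : redu d.t n Lm k A B c = true) : d.Fin := by
  unfold redu at h
  split at h
  swap
  · simp at h
  rename_i x x2 x3 x4 x5 tl e
  obtain ⟨rfl, rfl, rfl, rfl, h1, h2, h3, h4⟩ := of_decide_eq_true h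
  obtain ⟨C1, q1, q2, q3, q4, q5, C2, hC, e1, e2, e3, e4, e5⟩ : ∃ C1 q1 q2 q3 q4 q5 C2,
      iz (d0 c) A B = C1 ++ [q1, q2, q3, q4, q5] ++ C2 ∧ q1.2 = x5 ∧ q2.2 = x5 ∧ q3.2 = x5 ∧
        q4.2 = x5 ∧ q5.2 = x5 := by
    simp only [List.map_eq_cons_iff] at e
    obtain ⟨q1, _, e, e1, q2, _, rfl, e2, q3, _, rfl, e3, q4, _, rfl, e4, q5, C2, rfl, e5, -⟩ := e
    refine ⟨(iz (d0 c) A B).take (dg c 1), q1, q2, q3, q4, q5, C2, ?_, e1, e2, e3, e4, e5⟩
    rw [List.append_assoc]
    exact (List.take_append_drop _ _).symm.trans (congrArg _ e)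
  have len : 11 ≤ d.r.length := by
    have := mt.len
    rw [mt.r]
    simp only [List.length_append, List.length_map, List.length_reverse]
    omega
  have lts : ∀ q ∈ [q1, q2, q3, q4, q5], lt d.H d.v d.lam (σ q.1) = x5 := by
    intro q hq
    have m : q ∈ A ++ B := by
      have : q ∈ iz (d0 c) A B := by rw [hC]; simp only [List.mem_append]; tauto
      rw [iz_eq] at this
      split_ifs at this <;> simp [this]
    rw [(mt.ab q m).2.2]
    simp only [List.mem_cons, List.not_mem_nil, or_false] at hq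
    rcases hq with rfl | rfl | rfl | rfl | rfl <;> assumption
  have fin : ∀ {r1 r2 : List V} {p1 p2 p3 p4 p5 : V}, d.r = r1 ++ [p1, p2, p3, p4, p5] ++ r2 →
      (∀ u ∈ [p1, p2, p3, p4, p5], lt d.H d.v d.lam u = x5) → d.Fin := by
    intro r1 r2 p1 p2 p3 p4 p5 hr hl
    have l1 := hl p1 List.mem_cons_self
    refine five_ok wd ex hv ih hr
      (fun u hu => lt_inj ((hl u (List.mem_cons_of_mem _ hu)).trans l1.symm)) len
      (fun e => ?_) (fun e => ?_) fun e => ?_
    · have := h2 (by rw [← l1, lt, e]; simp)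
      have := mz_eq hv mt
      have := k_le mt
      omega
    · refine (h3 (by rw [← l1, lt, e]; simp)).trans ?_
      rw [mt.r]
      refine cnt_le rest fun p hp g => ?_
      rw [← (mt.ab p hp).2.2, lt] at g
      revert g
      cases d.lam (σ p.1) <;> cases d.H d.v (σ p.1) <;> simp
    · refine (h4 (by
        rw [← l1, lt]
        revert e
        cases d.lam p1 <;> cases d.H d.v p1 <;> simp)).trans ?_
      have zf := hv.2.2.2.1
      rw [mt.r] at zf ⊢
      refine cnt_le rest fun p hp g => ?_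
      have z := zf (σ p.1) (by
        simp only [List.mem_append, List.mem_map, List.mem_reverse] at hp ⊢
        rcases hp with m | m
        · exact .inl (.inl ⟨p, m, rfl⟩)
        · exact .inr ⟨p, m, rfl⟩)
      rw [← (mt.ab p hp).2.2, lt] at g
      revert g z
      cases d.lam (σ p.1) <;> cases d.H d.v (σ p.1) <;> simp
  simp only [List.mem_cons, List.not_mem_nil, or_false, forall_eq_or_imp, forall_eq] at lts
  rw [iz_eq] at hC
  split_ifs at hC
  · refine fin (r1 := C2.reverse.map fun p => σ p.1) (p1 := σ q5.1) (p2 := σ q4.1) (p3 := σ q3.1)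
      (p4 := σ q2.1) (p5 := σ q1.1)
      (r2 := C1.reverse.map (fun p => σ p.1) ++ rest ++ B.map fun p => σ p.1)
      (by rw [mt.r, hC]; simp) (by simp [lts])
  · refine fin (r1 := A.reverse.map (fun p => σ p.1) ++ rest ++ C1.map fun p => σ p.1)
      (p1 := σ q1.1) (p2 := σ q2.1) (p3 := σ q3.1) (p4 := σ q4.1) (p5 := σ q5.1)
      (r2 := C2.map fun p => σ p.1) (by rw [mt.r, hC]; simp) (by simp [lts])

theorem row_new (hv : d.Val) (mt : d.Mt σ rest n M Lm Nm k A B) {s : V} (hs : s ∈ rest)
    {p j : ℕ} (p0 : 0 < p) (hp : p < n) (hj : j < n) :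
    (nrow d.t Lm Nm p (lt d.H d.v d.lam s)).testBit j = (d.H s (σ j) ^^
      (pe (σ (hdI (ey d.t) A) :: rest ++ [σ (hdI (ey d.t) B)]) s (σ j) ^^
        ed (σ p) s s (σ j))) := by
  have sr := rest_sub mt hs
  have sS := mem_S hv (List.mem_cons_of_mem _ sr)
  have ns : ∀ i < n, σ i ≠ s := fun i hi e => not_rest hv mt hi (e ▸ hs)
  have e1 : ed (σ p) s s (σ j) = decide (p = j) := by
    simp [ed, (ns p hp).symm, dec mt.pl hj hp]
  rw [lt, nrow_bit, e1]
  by_cases j0 : j = 0
  · subst j0
    have nv : ∀ u ∈ d.y :: d.r, u ≠ d.v := fun u hu => (Finset.mem_erase.1 (mem_S hv hu)).1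
    have e2 : pe (σ (hdI (ey d.t) A) :: rest ++ [σ (hdI (ey d.t) B)]) s (σ 0) = false := by
      rw [pe_symm, mt.pl.v]
      refine pe_not (fun m => ?_) _
      simp only [List.cons_append, List.mem_cons, List.mem_append, List.not_mem_nil,
        or_false] at m
      rcases m with m | m | m
      · exact nv _ (hd_lt mt (List.subset_append_left A B)).2.2 m.symm
      · exact nv _ (List.mem_cons_of_mem _ (rest_sub mt m)) rfl
      · exact nv _ (hd_lt mt (List.subset_append_right A B)).2.2 m.symm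
    have e3 : (alM d.t).testBit 0 = false := by unfold alM; split_ifs <;> rfl
    rw [e2, e3, mt.pl.l0.2.2, mt.pl.nm 0 hj, mt.pl.v, hv.1.2, hv.1.1 s]
    simp [p0.ne']
  · have uS : σ j ∈ d.S.erase d.v := Finset.mem_erase.2
      ⟨fun e => j0 (mt.pl.inj j hj 0 (by omega) (e.trans mt.pl.v.symm)), mt.pl.mem j hj⟩
    have f := hv.2.1.2.adj s sS (σ j) uS (ns j hj).symm
    have g := mat_eq mt.pl.y A B rest false s (σ j)
    have nd := nd_r hv
    have nd' := (List.nodup_cons.1 nd).2
    have sy : s ≠ d.y := fun e => (List.nodup_cons.1 nd).1 (e ▸ sr)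
    rw [mt.r] at nd'
    rw [← mt.r, pe_not (l := d.y :: _) (fun m => by
        rcases List.mem_cons.1 m with m | m
        · exact sy m
        · exact (List.nodup_append.1 (List.nodup_append.1 nd').1).2.2 _ m _ hs rfl),
      pe_not (l := _ ++ [d.y]) (fun m => by
        rcases List.mem_append.1 m with m | m
        · exact (List.nodup_append.1 nd').2.2 _ (List.mem_append_right _ hs) _ m rfl
        · exact sy (List.mem_singleton.1 m))] at g
    simp only [Bool.false_xor, Bool.xor_false] at g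
    rw [lc, if_neg (ns j hj).symm, form, g, al_r hv sr, la_rim hv (List.mem_cons_of_mem _ sr),
      hv.1.1 s d.v] at f
    have ka : kap d.t = true → al d.t d.h d.y (σ j) = false := fun e => by
      have : d.t = 1 ∨ d.t = 2 := of_decide_eq_true e
      rcases this with t | t <;> simp [al, t]
    rw [mt.pl.lm j hj (by omega), mt.pl.nm j hj, alM_bit hv mt.pl hj,
      decide_eq_false (Ne.symm j0)]
    revert f ka
    generalize pe (σ (hdI (ey d.t) A) :: rest ++ [σ (hdI (ey d.t) B)]) s (σ j) = X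
    cases X <;> cases kap d.t <;> cases d.H s (σ j) <;> cases d.lam s <;> cases d.H d.v s <;>
      cases d.H d.v (σ j) <;> cases la d.t d.lam d.h d.z (σ j) <;>
      cases al d.t d.h d.y (σ j) <;> simp

theorem new_mt (mat : StMat) (hv : d.Val) (mt : d.Mt σ rest n M Lm Nm k A B) (n30 : n ≤ 30)
    {s : V} (hs : s ∈ rest) {p : ℕ} (p0 : 0 < p) (hp : p < n) {A' B' : List (ℕ × ℕ)}
    {rest' : List V} (pm : (A' ++ B').Perm ((n, lt d.H d.v d.lam s) :: (A ++ B)))
    (hr : d.r = A'.reverse.map (fun q => Function.update σ n s q.1) ++ rest' ++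
      B'.map fun q => Function.update σ n s q.1)
    (hpe : ∀ u w, pe (Function.update σ n s (hdI (ey d.t) A') :: rest' ++
      [Function.update σ n s (hdI (ey d.t) B')]) u w =
      (pe (σ (hdI (ey d.t) A) :: rest ++ [σ (hdI (ey d.t) B)]) u w ^^ ed (σ p) s u w)) :
    d.Mt (Function.update σ n s) rest' (n + 1)
      (addv M n (nrow d.t Lm Nm p (lt d.H d.v d.lam s))) (Lm ^^^ (d.lam s).toNat <<< n)
      (Nm ^^^ (d.H d.v s).toNat <<< n) (k + (d.lam s).toNat) A' B' := by
  have sr := rest_sub mt hs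
  have sS := mem_S hv (List.mem_cons_of_mem _ sr)
  have ns : ∀ i < n, σ i ≠ s := fun i hi e => not_rest hv mt hi (e ▸ hs)
  have old : ∀ i < n, Function.update σ n s i = σ i := fun i hi => Function.update_of_ne hi.ne _ _
  have new : Function.update σ n s n = s := Function.update_self _ _ _
  have l := mt.pl.lt
  have e0 := ey_pos d.t
  have cs : ∀ i < n + 1, i < n ∨ i = n := fun i hi => by omega
  have hy : Function.update σ n s (ey d.t) = d.y := (old _ l).trans mt.pl.y
  refine ⟨⟨(old 0 (by omega)).trans mt.pl.v, fun t => (old 1 ?_).trans (mt.pl.h t),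
    fun t => (old 2 ?_).trans (mt.pl.z t), hy, by omega, fun i hi j hj e => ?_, fun i hi => ?_,
    ⟨tog_lt mt.pl.l0.1 _, tog_lt mt.pl.l0.2.1 _, ?_⟩, fun i hi i0 => ?_, fun i hi => ?_⟩, hr, ?_,
    fun q hq => ?_, fun i hi g => ?_, ?_, fun i hi j hj ne => ?_⟩
  · unfold ey at l
    split_ifs at l <;> omega
  · rw [t] at l
    exact lt_trans (by decide) l
  · rcases cs i hi with a | rfl <;> rcases cs j hj with b | rfl
    · exact mt.pl.inj i a j b (by rwa [old i a, old j b] at e)
    · exact absurd (by rwa [old i a, new] at e) (ns i a)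
    · exact absurd (by rw [old j b, new] at e; exact e.symm) (ns j b)
    · rfl
  · rcases cs i hi with a | rfl
    · rw [old i a]; exact mt.pl.mem i a
    · rw [new]; exact Finset.mem_of_mem_erase sS
  · rw [tog_bit, mt.pl.l0.2.2, decide_eq_false (by omega)]
    simp
  · rw [tog_bit]
    rcases cs i hi with a | rfl
    · rw [old i a, mt.pl.lm i a i0, decide_eq_false (by omega)]
      simp
    · rw [new, Nat.testBit_lt_two_pow mt.pl.l0.1, la_rim hv (List.mem_cons_of_mem _ sr)]
      simp
  · rw [tog_bit]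
    rcases cs i hi with a | rfl
    · rw [old i a, mt.pl.nm i a, decide_eq_false (by omega)]
      simp
    · rw [new, Nat.testBit_lt_two_pow mt.pl.l0.2.1]
      simp
  · have := pm.length_eq
    have := mt.len
    simp only [List.length_append, List.length_cons] at *
    omega
  · rcases List.mem_cons.1 (pm.subset hq) with rfl | m
    · exact ⟨l, by omega, by rw [new]⟩
    · obtain ⟨a, b, c⟩ := mt.ab q m
      exact ⟨a, by omega, by rw [old _ b, c]⟩
  · refine (pm.map Prod.fst).symm.subset ?_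
    rcases cs i hi with a | rfl
    · exact List.mem_cons_of_mem _ (mt.sur i a g)
    · exact List.mem_cons_self
  · rw [pm.countP_eq, List.countP_cons, ← mt.k, lt]
    cases d.lam s <;> cases d.H d.v s <;> simp
  · rw [hr, mat_eq hy, hpe, mat.addv _ _ _ _ _ (by omega) (by omega) (by omega) ne]
    rcases cs i hi with a | rfl <;> rcases cs j hj with b | rfl
    · rw [if_neg a.ne, if_neg b.ne, old i a, old j b, mat2 mt a b ne, ed_right (ns i a) (ns j b),
        Bool.xor_false]
    · rw [if_neg a.ne, if_pos rfl, old i a, new, row_new hv mt hs p0 hp a, hv.1.1 s, pe_symm,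
        ed_symm]
    · rw [if_pos rfl, old j b, new, row_new hv mt hs p0 hp b]
    · exact absurd rfl ne

theorem app_ok (mat : StMat) (hv : d.Val) (mt : d.Mt σ rest n M Lm Nm k A B) (n30 : n ≤ 30)
    (h : rest ≠ []) (side : Bool) : ∃ x, (x = 1 ∨ x = 2 ∨ x = 3) ∧ ∃ σ' rest',
      d.Mt σ' rest' (n + 1) (addv M n (nrow d.t Lm Nm (hdI (ey d.t) (ib side B A)) x))
        (Nat.xor Lm (Nat.shiftLeft (Nat.land x 1) n))
        (Nat.xor Nm (Nat.shiftLeft (Nat.shiftRight x 1) n)) (Nat.add k (Nat.land x 1))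
        (ib side A ((n, x) :: A)) (ib side ((n, x) :: B) B) := by
  obtain ⟨a1, a2, -⟩ := hd_lt mt (List.subset_append_left A B)
  obtain ⟨b1, b2, -⟩ := hd_lt mt (List.subset_append_right A B)
  have key : ∀ s ∈ rest, (lt d.H d.v d.lam s = 1 ∨ lt d.H d.v d.lam s = 2 ∨
      lt d.H d.v d.lam s = 3) ∧ Nat.land (lt d.H d.v d.lam s) 1 = (d.lam s).toNat ∧
      Nat.shiftRight (lt d.H d.v d.lam s) 1 = (d.H d.v s).toNat := by
    intro s hs
    have z := hv.2.2.2.1 s (rest_sub mt hs)
    unfold lt
    revert z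
    cases d.lam s <;> cases d.H d.v s <;> decide
  have mp : ∀ s (C : List (ℕ × ℕ)), C ⊆ A ++ B →
      C.map (fun q => Function.update σ n s q.1) = C.map fun q => σ q.1 := fun s C hC =>
    List.map_congr_left fun q hq => Function.update_of_ne (mt.ab q (hC hq)).2.1.ne _ _
  have mA := fun s => mp s A.reverse fun q hq => List.mem_append_left _ (List.mem_reverse.1 hq)
  have mB := fun s => mp s B (List.subset_append_right A B)
  cases side
  · obtain ⟨s, rest', rfl⟩ := List.exists_cons_of_ne_nil h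
    obtain ⟨k1, k2, k3⟩ := key s List.mem_cons_self
    refine ⟨_, k1, Function.update σ n s, rest', ?_⟩
    rw [k2, k3]
    refine new_mt mat hv mt n30 List.mem_cons_self a1 a2 (List.Perm.refl _) ?_ fun u w => ?_
    · simp only [ib, List.reverse_cons, List.map_append, mA, mB, List.map_cons, List.map_nil,
        Function.update_self]
      rw [mt.r]
      simp
    · simp only [ib, hdI, Function.update_self, List.cons_append]
      rw [pe_cons]
      have := Function.update_of_ne b2.ne s σ
      simp only [hdI] at this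
      rw [this, Bool.xor_comm (ed _ _ _ _), Bool.xor_assoc, Bool.xor_self, Bool.xor_false]
  · obtain ⟨rest', s, rfl⟩ : ∃ l s, rest = l ++ [s] :=
      ⟨_, _, (List.dropLast_append_getLast h).symm⟩
    have hs : s ∈ rest' ++ [s] := by simp
    obtain ⟨k1, k2, k3⟩ := key s hs
    refine ⟨_, k1, Function.update σ n s, rest', ?_⟩
    rw [k2, k3]
    refine new_mt mat hv mt n30 hs b1 b2 List.perm_middle ?_ fun u w => ?_
    · simp only [ib, mA, mB, List.map_cons, Function.update_self]
      rw [mt.r]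
      simp
    · have := Function.update_of_ne a2.ne s σ
      have e : σ (hdI (ey d.t) A) :: (rest' ++ [s]) ++ [σ (hdI (ey d.t) B)] =
          (σ (hdI (ey d.t) A) :: rest') ++ s :: [σ (hdI (ey d.t) B)] := by simp
      rw [e, pe_app (σ (hdI (ey d.t) A) :: rest') s]
      simp only [hdI] at this
      simp only [ib, hdI, Function.update_self, this, pe, Bool.xor_false]
      rw [ed_comm s, Bool.xor_assoc, Bool.xor_self, Bool.xor_false]

end

end StepW

open StepW in
theorem stepW_ok (V : Type) [DecidableEq V] (mat : StMat) (nc : StNc) (wd : StWd V)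
    (ex : StExt V) : StStepW V := by
  intro t n M Lm Nm k A B c ch e ok d σ rest ht hv ih mt
  subst ht
  unfold stepW at e
  rw [chk_some] at e
  obtain ⟨n30, e⟩ := e
  have n30 := Nat.le_of_ble_eq_true n30
  rcases h0 : d0 c with _ | _ | s <;> rw [h0] at e
  · have e' : chk (redu d.t n Lm k A B (tl c 1)) (some []) = some ch := e
    rw [chk_some] at e'
    exact redu_ok wd ex hv ih mt e'.1
  · have e' : chk (U.nc M (lo n) (tl c 1)) (some (clos d.t n M Lm Nm k A B [])) = some ch := e
    rw [chk_some] at e'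
    obtain ⟨e1, e2⟩ := e'
    obtain rfl := Option.some.inj e2
    by_cases h : rest = []
    · subst h
      exact clos_ok mat hv mt n30 _ ok
    · obtain ⟨s, hs⟩ := List.exists_mem_of_ne_nil _ h
      refine absurd (hv.2.2.2.2.2 s (Finset.mem_of_mem_erase
        (mem_S hv (List.mem_cons_of_mem _ (rest_sub mt hs)))))
        (nc.nc V d.H _ σ n M _ _ hv.1 (pull_open hv mt h) (by omega) (fun i hi => ?_) e1)
      rw [testBit_lo, decide_eq_true_eq] at hi
      exact ⟨hi, Finset.mem_erase.2 ⟨fun q => not_rest hv mt hi (q ▸ hs), mt.pl.mem i hi⟩⟩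
  · have e' : (app d.t n M Lm Nm k A B (iz s false true) 1 fun s1 =>
        app d.t n M Lm Nm k A B (iz s false true) 2 fun s2 =>
          app d.t n M Lm Nm k A B (iz s false true) 3 fun s3 =>
            some (clos d.t n M Lm Nm k A B [s1, s2, s3])) = some ch := e
    simp only [app, frc_eq] at e'
    obtain rfl := Option.some.inj e'
    by_cases h : rest = []
    · subst h
      exact clos_ok mat hv mt n30 _ ok
    · obtain ⟨x, hx, σ', rest', mt'⟩ := app_ok mat hv mt n30 h (iz s false true)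
      rcases hx with rfl | rfl | rfl
      · exact ok _ (clos_sub _ _ List.mem_cons_self) d σ' rest' rfl hv ih mt'
      · exact ok _ (clos_sub _ _ (List.mem_cons_of_mem _ List.mem_cons_self)) d σ' rest' rfl hv
          ih mt'
      · exact ok _ (clos_sub _ _ (List.mem_cons_of_mem _ (List.mem_cons_of_mem _
          List.mem_cons_self))) d σ' rest' rfl hv ih mt'

end Pool.Agent.Lib.MP_d7353d_co.U
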