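import Pool.Agent.Lib.MP_d7353d_co.U1

/-! Words with a letter `0` inside the window. -/

namespace Pool.Agent.Lib.MP_d7353d_co.U

open T

variable {V : Type} [DecidableEq V]

theorem Strip_mul (b : Bool) (X j : ℕ) : (Nat.mul b.toNat X).testBit j = (b && X.testBit j) := by
  cases b <;> simp

theorem Strip_shl (b : Bool) (n j : ℕ) :
    (Nat.shiftLeft b.toNat n).testBit j = (b && decide (n = j)) := by
  cases b
  · simp
  · exact testBit_p2 n j

theorem Strip_xor (a b j : ℕ) : (Nat.xor a b).testBit j = (a.testBit j ^^ b.testBit j) :=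
  Nat.testBit_xor a b j

theorem Strip_clW (mat : StMat) (t : ℕ) (L N : ℕ → Bool) (T : Gr ℕ) (m : ℕ) (hm : m ≤ 31)
    (sy : ∀ i j, T i j = T j i)
    (hT : ∀ i < m, ey t < i → ∀ j < i, T i j = (decide (i - 1 = j) ^^
      (L i && if kap t = true then L j else (alM t).testBit j) ^^ (N i && (N j ^^ decide (0 = j)))))
    (k : ℕ) : ∀ n M Lm Nm p, ey t < n → n + k = m → p + 1 = n →
      (∀ i, Lm.testBit i = (decide (i < n) && L i)) →
      (∀ i, Nm.testBit i = (decide (i < n) && N i)) →
      (∀ i < n, ∀ j < n, i ≠ j → bit M i j = T i j) →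
      ∃ M', clW t ((List.range' n k).map fun i => (L i).toNat + 2 * (N i).toNat) n M Lm Nm p =
        St.X m M' ∧ ∀ i < m, ∀ j < m, i ≠ j → bit M' i j = (T i j ^^ ed (m - 1) (ey t) i j) := by
  induction k with
  | zero =>
    intro n M Lm Nm p e1 e2 e3 _ _ hM
    obtain rfl : n = m := e2
    obtain rfl : p = n - 1 := by omega
    refine ⟨togM M (n - 1) (ey t), rfl, fun i hi j hj ne => ?_⟩
    rw [mat.tog _ _ _ _ _ (by omega) (by omega) (by omega) (by omega), hM i hi j hj ne]
  | succ k ih =>
    intro n M Lm Nm p e1 e2 e3 hL hN hM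
    have a1 : Nat.land ((L n).toNat + 2 * (N n).toNat) 1 = (L n).toNat := by
      cases L n <;> cases N n <;> rfl
    have a2 : Nat.shiftRight ((L n).toNat + 2 * (N n).toNat) 1 = (N n).toNat := by
      cases L n <;> cases N n <;> rfl
    have row : ∀ j < n, (nrow t Lm Nm p ((L n).toNat + 2 * (N n).toNat)).testBit j = T n j := by
      intro j hj
      have o : (1 : ℕ).testBit j = decide (0 = j) := testBit_p2 0 j
      have q : p = n - 1 := by omega
      rw [hT n (by omega) e1 j hj, nrow, a1, a2, Strip_xor, Strip_xor, Strip_mul, Strip_mul,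
        Strip_xor, testBit_p2, ib_eq, o, hN, q]
      split_ifs <;> simp [hL, hj]
    rw [List.range'_succ, List.map_cons]
    show ∃ M', frc _ (fun M' => clW t _ (n + 1) M' _ _ n) = _ ∧ _
    rw [frc_eq, a1, a2]
    refine ih (n + 1) _ _ _ n (by omega) (by omega) rfl (fun i => ?_) (fun i => ?_)
      fun i hi j hj ne => ?_
    · rw [Strip_xor, Strip_shl, hL]
      rcases lt_trichotomy i n with h | rfl | h
      · simp [h, h.ne', h.le]
      · simp
      · simp [h.ne, h.not_gt, h.not_ge]
    · rw [Strip_xor, Strip_shl, hN]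
      rcases lt_trichotomy i n with h | rfl | h
      · simp [h, h.ne', h.le]
      · simp
      · simp [h.ne, h.not_gt, h.not_ge]
    · rw [mat.addv _ _ _ _ _ (by omega) (by omega) (by omega) ne]
      split_ifs with h1 h2
      · rw [h1, row j (by omega)]
      · rw [h2, row i (by omega), sy]
      · exact hM i (by omega) j (by omega) ne

theorem Strip_range (i j m : ℕ) : ∀ s, pe (List.range' s m) i j =
    decide (s ≤ i ∧ s ≤ j ∧ i < s + m ∧ j < s + m ∧ (i + 1 = j ∨ j + 1 = i)) := by
  induction m with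
  | zero => intro s; simp [pe]; omega
  | succ m ih =>
    intro s
    cases m with
    | zero => simp [pe]; omega
    | succ m =>
      have := ih (s + 1)
      rw [List.range'_succ] at this
      rw [List.range'_succ, List.range'_succ]
      show (ed s (s + 1) i j ^^ _) = _
      rw [this, ed, ← Bool.decide_and, ← Bool.decide_and]
      by_cases h1 : i = s ∧ j = s + 1
      · rw [decide_eq_true h1, decide_eq_false (by omega), decide_eq_false (by omega),
          decide_eq_true (by omega)]
        rfl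
      by_cases h2 : i = s + 1 ∧ j = s
      · rw [decide_eq_false h1, decide_eq_true h2, decide_eq_false (by omega),
          decide_eq_true (by omega)]
        rfl
      rw [decide_eq_false h1, decide_eq_false h2, Bool.false_xor, Bool.false_xor, decide_eq_decide]
      omega

theorem Strip_snoc (a b : V) (u w : V) : ∀ l : List V,
    pe (l ++ [a, b]) u w = (pe (l ++ [a]) u w ^^ ed a b u w)
  | [] => by simp [pe]
  | [c] => by simp [pe]
  | c :: d :: l => by
    have := Strip_snoc a b u w (d :: l)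
    simp only [List.cons_append, pe] at this ⊢
    rw [this, Bool.xor_assoc]

theorem Strip_ed {σ : ℕ → V} {n : ℕ} (inj : ∀ i < n, ∀ j < n, σ i = σ j → i = j) {a b i j : ℕ}
    (ha : a < n) (hb : b < n) (hi : i < n) (hj : j < n) :
    ed (σ a) (σ b) (σ i) (σ j) = ed a b i j := by
  have e : ∀ i < n, ∀ j < n, σ i = σ j ↔ i = j := fun i hi j hj => ⟨inj i hi j hj, congrArg σ⟩
  simp only [ed, e _ hi _ ha, e _ hi _ hb, e _ hj _ ha, e _ hj _ hb]

theorem Strip_map {σ : ℕ → V} {n : ℕ} (inj : ∀ i < n, ∀ j < n, σ i = σ j → i = j) {i j : ℕ}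
    (hi : i < n) (hj : j < n) : ∀ l : List ℕ, (∀ a ∈ l, a < n) →
      pe (l.map σ) (σ i) (σ j) = pe l i j
  | [], _ => rfl
  | [_], _ => rfl
  | a :: b :: l, h => by
    have := Strip_map inj hi hj (b :: l) fun x hx => h x (List.mem_cons_of_mem _ hx)
    simp only [List.map_cons, pe] at this ⊢
    rw [this, Strip_ed inj (h a (by simp)) (h b (by simp)) hi hj]

theorem Strip_alM {t : ℕ} (ht : t < 5) (i : ℕ) : (alM t).testBit i =
    ((decide (t = 0 ∨ 3 ≤ t) && decide (i = 1)) ^^ (decide (3 ≤ t) && decide (i = ey t))) := by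
  have b : ∀ a, (2 ^ a).testBit i = decide (i = a) := fun a => by
    rw [Nat.testBit_two_pow]; simp [eq_comm]
  have b1 : (2 : ℕ).testBit i = decide (i = 1) := b 1
  have b2 : (6 : ℕ).testBit i = (decide (i = 1) ^^ decide (i = 2)) := by
    rw [← b, ← b, ← Nat.testBit_xor]; rfl
  have b3 : (10 : ℕ).testBit i = (decide (i = 1) ^^ decide (i = 3)) := by
    rw [← b, ← b, ← Nat.testBit_xor]; rfl
  interval_cases t <;> simp [alM, ey, b1, b2, b3]

theorem Strip_small {a n : ℕ} {f : ℕ → Bool} (h : a < 2 ^ n) (e : ∀ i < n, a.testBit i = f i)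
    (i : ℕ) : a.testBit i = (decide (i < n) && f i) := by
  by_cases c : i < n
  · simp [c, e i c]
  · simpa [c] using Nat.testBit_lt_two_pow
      (h.trans_le (Nat.pow_le_pow_right two_pos (not_lt.1 c)))

theorem Strip_root : ∀ t < 5, ∀ mh mz ly my : Bool, rootL t ly < 2 ^ (ey t + 1) ∧
    rootN t mh mz my < 2 ^ (ey t + 1) ∧
    (∀ i < ey t + 1, (rootL t ly).testBit i = (decide (0 < i) && ((decide (i = ey t) && ly) ^^
      (decide (t = 2) && decide (i = 1)) ^^ (decide (t = 4) && decide (i = 2))))) ∧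
    (∀ i < ey t + 1, (rootN t mh mz my).testBit i =
      if i = 0 then false else if i = ey t then my else if i = 1 then mh else mz) ∧
    ∀ i < ey t + 1, ∀ j < i, rootA t mh mz ly my i j =
      if j = 0 then (rootN t mh mz my).testBit i else
        ((kap t && (rootL t ly).testBit i && (rootL t ly).testBit j) ^^
          ((alM t).testBit i && (rootL t ly).testBit j) ^^
          ((alM t).testBit j && (rootL t ly).testBit i) ^^
          ((rootN t mh mz my).testBit i && (rootN t mh mz my).testBit j)) := by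
  decide +kernel

theorem Strip_b0 : ∀ N a b L κ L' : Bool, (N ^^ ((a && false) ^^ (b && false))) =
    (false ^^ (L && if κ = true then (false && L') else false) ^^ (N && (false ^^ true))) := by
  decide

theorem Strip_b1 : ∀ d x κ L L' a N N' : Bool, (κ = true → a = false) →
    (d ^^ x ^^ (κ && L && L') ^^ (false && L') ^^ (a && L) ^^ (N && N') ^^ x) =
      (d ^^ ((true && L) && if κ = true then (true && L') else a) ^^ (N && (N' ^^ false))) := by
  decide

theorem Strip_pull (mat : StMat) {t : ℕ} (ht : t < 5) {H : Gr V} (sH : Sy H) {σ : ℕ → V}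
    {lam : V → Bool} {h z : V} {k : ℕ} (k1 : 1 ≤ k) (k2 : k ≤ 20)
    (inj : ∀ i < ey t + 1 + k, ∀ j < ey t + 1 + k, σ i = σ j → i = j)
    (s1 : t ≠ 1 → σ 1 = h) (s2 : t = 4 → σ 2 = z) (sup : ∀ u ∈ ext t h z, lam u = false)
    (adj : ∀ i < ey t + 1 + k, ∀ j < ey t + 1 + k, 0 < i → 0 < j → i ≠ j →
      lc H (σ 0) (σ i) (σ j) =
        form t (σ (ey t)) ((List.range' (ey t + 1) k).map σ) lam h z (σ i) (σ j))
    {mh mz : Bool} (e1 : t ≠ 1 → H (σ 0) h = mh) (e2 : t = 4 → H (σ 0) z = mz) :
    ∃ M, closedW t mh mz (lam (σ (ey t))) (H (σ 0) (σ (ey t)))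
      (((List.range' (ey t + 1) k).map σ).map (lt H (σ 0) lam)) = St.X (ey t + 1 + k) M ∧
      Pull H σ (ey t + 1 + k) (bit M) := by
  have e0 : 1 ≤ ey t ∧ ey t ≤ 3 ∧ (t ≠ 1 → 2 ≤ ey t) ∧ (t = 4 → ey t = 3) ∧
      (t ≠ 4 → ey t ≤ 2) ∧ (t = 1 → ey t = 1) := by
    interval_cases t <;> simp [ey]
  have e : ∀ i < ey t + 1 + k, ∀ j < ey t + 1 + k, σ i = σ j ↔ i = j :=
    fun i hi j hj => ⟨inj i hi j hj, congrArg σ⟩
  have hla : ∀ i < ey t + 1 + k, la t lam h z (σ i) = (lam (σ i) ^^
      (decide (t = 2) && decide (i = 1)) ^^ (decide (t = 4) && decide (i = 2))) := by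
    intro i hi
    unfold la
    congr 1
    · congr 1
      by_cases c : t = 2
      · rw [← s1 (by omega), decide_eq_decide.2 (e i hi 1 (by omega))]
      · rw [decide_eq_false c]
        rfl
    · by_cases c : t = 4
      · rw [← s2 c, decide_eq_decide.2 (e i hi 2 (by omega))]
      · rw [decide_eq_false c]
        rfl
  have hal : ∀ i < ey t + 1 + k, al t h (σ (ey t)) (σ i) = (alM t).testBit i := by
    intro i hi
    rw [Strip_alM ht, al]
    congr 1
    · by_cases c : t = 1
      · rw [decide_eq_false (show ¬(t = 0 ∨ 3 ≤ t) by omega)]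
        rfl
      · rw [← s1 c, decide_eq_decide.2 (e i hi 1 (by omega))]
    · rw [decide_eq_decide.2 (e i hi (ey t) (by omega))]
  have hcy : ∀ i < ey t + 1 + k, ∀ j < i,
      cy (σ (ey t)) ((List.range' (ey t + 1) k).map σ) (σ i) (σ j) =
        (decide (ey t ≤ j ∧ j + 1 = i) ^^ ed (ey t + 1 + k - 1) (ey t) i j) := by
    intro i hi j hj
    have q : σ (ey t) :: (List.range' (ey t + 1) k).map σ ++ [σ (ey t)] =
        (List.range' (ey t) k ++ [ey t + k, ey t]).map σ := by
      rw [← List.map_cons, ← List.range'_succ, List.range'_1_concat]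
      simp
    rw [cy, q, Strip_map inj hi (hj.trans hi), Strip_snoc, ← List.range'_1_concat, Strip_range]
    · congr 1
      · rw [decide_eq_decide]
        omega
      · congr 1
        omega
    · intro a ha
      simp only [List.mem_append, List.mem_range'_1, List.mem_cons, List.not_mem_nil,
        or_false] at ha
      omega
  have hH : ∀ i < ey t + 1 + k, ∀ j < i, 0 < j → H (σ i) (σ j) =
      (form t (σ (ey t)) ((List.range' (ey t + 1) k).map σ) lam h z (σ i) (σ j) ^^
        (H (σ 0) (σ i) && H (σ 0) (σ j))) := by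
    intro i hi j hj j0
    rw [← adj i hi j (by omega) (by omega) j0 hj.ne', lc,
      if_neg fun c => hj.ne' (inj i hi j (by omega) c), sH.1 (σ i) (σ 0), Bool.xor_assoc,
      Bool.xor_self, Bool.xor_false]
  have hed : ∀ i ≤ ey t, ∀ j ≤ ey t, ed (ey t + 1 + k - 1) (ey t) i j = false := by
    intro i hi j hj
    have a : i ≠ ey t + 1 + k - 1 := by omega
    have b : j ≠ ey t + 1 + k - 1 := by omega
    rw [ed, decide_eq_false a, decide_eq_false b, Bool.and_false]
    rfl
  have lh : t ≠ 1 → lam (σ 1) = false := fun c => by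
    rw [s1 c]
    refine sup h ?_
    rw [ext, if_neg c]
    split_ifs <;> exact List.mem_cons_self
  have lz : t = 4 → lam (σ 2) = false := fun c => by
    rw [s2 c]
    exact sup z (by simp [ext, c])
  have nh : t ≠ 1 → H (σ 0) (σ 1) = mh := fun c => by rw [s1 c, e1 c]
  have nz : t = 4 → H (σ 0) (σ 2) = mz := fun c => by rw [s2 c, e2 c]
  obtain ⟨-, -, r1, r2, r3⟩ := Strip_root t ht mh mz (lam (σ (ey t))) (H (σ 0) (σ (ey t)))
  have rL : ∀ i < ey t + 1, (rootL t (lam (σ (ey t)))).testBit i =
      (decide (0 < i) && la t lam h z (σ i)) := by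
    intro i hi
    rw [r1 i hi, hla i (by omega)]
    rcases Nat.eq_zero_or_pos i with rfl | i0
    · rfl
    congr 3
    by_cases c : i = ey t
    · rw [decide_eq_true c, Bool.true_and, ← c]
    · rw [decide_eq_false c, Bool.false_and]
      rcases (by omega : i = 1 ∨ i = 2) with rfl | rfl
      · exact (lh (by omega)).symm
      · exact (lz (by omega)).symm
  have rN : ∀ i < ey t + 1, (rootN t mh mz (H (σ 0) (σ (ey t)))).testBit i = H (σ 0) (σ i) := by
    intro i hi
    rw [r2 i hi]
    split_ifs with c1 c2 c3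
    · rw [c1, sH.2]
    · rw [← c2]
    · rw [c3, nh (by omega)]
    · rw [show i = 2 by omega, nz (by omega)]
  have rA : ∀ i < ey t + 1, ∀ j < i,
      rootA t mh mz (lam (σ (ey t))) (H (σ 0) (σ (ey t))) i j = H (σ i) (σ j) := by
    intro i hi j hj
    rw [r3 i hi j hj, rL i hi, rL j (by omega), rN i hi, rN j (by omega)]
    split_ifs with c
    · rw [c, sH.1]
    · have j0 : 0 < j := by omega
      have i0 : 0 < i := by omega
      have d : ¬(ey t ≤ j ∧ j + 1 = i) := by omega
      rw [hH i (by omega) j hj j0, form, hcy i (by omega) j hj, hal i (by omega), hal j (by omega),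
        hed i (by omega) j (by omega), decide_eq_true j0, decide_eq_true i0, decide_eq_false d,
        Bool.true_and, Bool.true_and, Bool.xor_false, Bool.false_xor]
  obtain ⟨M, hM, hb⟩ := Strip_clW mat t (fun i => decide (0 < i) && la t lam h z (σ i))
    (fun i => H (σ 0) (σ i)) (fun i j => H (σ i) (σ j) ^^ ed (ey t + 1 + k - 1) (ey t) i j)
    (ey t + 1 + k) (by omega)
    (fun i j => by
      show (_ ^^ _) = (_ ^^ _)
      rw [sH.1, ed, ed, Bool.xor_comm (_ && _), Bool.and_comm, Bool.and_comm (decide (i = _))])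
    (fun i hi h1 j hj => by
      have i1 : i ≠ 1 := by omega
      have i2 : t = 4 → i ≠ 2 := by omega
      have i3 : i ≠ ey t := by omega
      have ai : (alM t).testBit i = false := by
        rw [Strip_alM ht, decide_eq_false i1, decide_eq_false i3, Bool.and_false, Bool.and_false]
        rfl
      rcases Nat.eq_zero_or_pos j with rfl | j0
      · have a : (0 : ℕ) ≠ ey t := by omega
        have b : (0 : ℕ) ≠ ey t + 1 + k - 1 := by omega
        have c : i - 1 ≠ 0 := by omega
        have d : (alM t).testBit 0 = false := by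
          rw [Strip_alM ht, decide_eq_false a, Bool.and_false, Bool.xor_false]
          exact Bool.and_false _
        show (_ ^^ _) = _
        rw [ed, decide_eq_false a, decide_eq_false b, decide_eq_false c, d, sH.2, sH.1 (σ i),
          decide_eq_false (lt_irrefl 0), decide_eq_true rfl]
        exact Strip_b0 _ _ _ _ _ _
      · have c : (ey t ≤ j ∧ j + 1 = i) ↔ i - 1 = j := by omega
        have i0 : 0 < i := by omega
        show (_ ^^ _) = _
        rw [hH i hi j hj j0, form, hcy i hi j hj, hal i hi, hal j (hj.trans hi), ai,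
          decide_eq_decide.2 c, decide_eq_true j0, decide_eq_true i0, decide_eq_false j0.ne]
        refine Strip_b1 _ _ _ _ _ _ _ _ fun g => ?_
        have : t = 1 ∨ t = 2 := of_decide_eq_true g
        rcases this with rfl | rfl <;> exact Nat.zero_testBit j)
    k (ey t + 1) (toM (ey t + 1) (rootA t mh mz (lam (σ (ey t))) (H (σ 0) (σ (ey t)))))
    (rootL t (lam (σ (ey t)))) (rootN t mh mz (H (σ 0) (σ (ey t)))) (ey t) (by omega) rfl rfl
    (Strip_small (Strip_root t ht mh mz _ false).1 rL) (Strip_small (Strip_root t ht mh mz false _).2.1 rN)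
    (fun i hi j hj ne => by
      rcases ne.lt_or_gt with c | c
      · rw [(mat.toM _ _ j i (by omega) c hj).2, rA j hj i c, hed i (by omega) j (by omega),
          Bool.xor_false, sH.1]
      · rw [(mat.toM _ _ i j (by omega) c hi).1, rA i hi j c, hed i (by omega) j (by omega),
          Bool.xor_false])
  refine ⟨M, ?_, fun i hi j hj ne => ⟨fun c => ne (inj i hi j hj c), ?_⟩⟩
  · rw [← hM, closedW, List.map_map]
    congr 1
    refine List.map_congr_left fun i hi => ?_
    rw [List.mem_range'_1] at hi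
    have i1 : i ≠ 1 := by omega
    have i2 : t = 4 → i ≠ 2 := by omega
    have i0 : 0 < i := by omega
    show lt H (σ 0) lam (σ i) = _
    rw [lt, hla i (by omega), decide_eq_false i1, decide_eq_true i0, Bool.and_false,
      Bool.xor_false, Bool.true_and, ← Bool.decide_and,
      decide_eq_false (show ¬(t = 4 ∧ i = 2) by omega), Bool.xor_false]
  · rw [hb i hi j hj ne, Bool.xor_assoc, Bool.xor_self, Bool.xor_false]

theorem Strip_key (mat : StMat) {t : ℕ} (ht : t < 5) {H : Gr V} (sH : Sy H) {S : Finset V}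
    {v y h z : V} {r : List V} {lam : V → Bool} (hv : HV t H S v y r lam h z)
    (k1 : 1 ≤ r.length) (k2 : r.length ≤ 20) {mh mz : Bool} (e1 : t ≠ 1 → H v h = mh)
    (e2 : t = 4 → H v z = mz) : ∃ n M σ,
    closedW t mh mz (lam y) (H v y) (r.map (lt H v lam)) = St.X n M ∧
      Pull H σ n (bit M) ∧ S = im σ n := by
  obtain ⟨hv, w⟩ := hv
  have le : ey t = (ext t h z).length + 1 := by
    unfold ey ext
    split_ifs <;> rfl
  have nd : (v :: (ext t h z ++ y :: r)).Nodup :=
    List.nodup_cons.2 ⟨fun c => Finset.notMem_erase v S ((w.cov v).2 c), w.nd⟩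
  obtain ⟨σ, hσ⟩ : ∃ σ : ℕ → V, ∀ i, σ i = (v :: (ext t h z ++ y :: r)).getD i v := ⟨_, fun _ => rfl⟩
  have len : (v :: (ext t h z ++ y :: r)).length = ey t + 1 + r.length := by
    simp [le]
    omega
  have g : ∀ i (hi : i < (v :: (ext t h z ++ y :: r)).length),
      σ i = (v :: (ext t h z ++ y :: r))[i] := fun i hi => by rw [hσ, List.getD_eq_getElem _ _ hi]
  have s0 : σ 0 = v := hσ 0
  have sy : σ (ey t) = y := by simp [hσ, le]
  have hr : (List.range' (ey t + 1) r.length).map σ = r := by
    refine List.ext_getElem (by simp) fun i h1 h2 => ?_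
    have : (ext t h z).length + 1 + 1 + i = ((ext t h z).length + (i + 1)) + 1 := by omega
    simp [hσ, le, this, h2]
  have inj : ∀ i < ey t + 1 + r.length, ∀ j < ey t + 1 + r.length, σ i = σ j → i = j := by
    intro i hi j hj e
    rw [g i (len ▸ hi), g j (len ▸ hj)] at e
    exact (List.Nodup.getElem_inj_iff nd).1 e
  have mem : ∀ u, u ∈ S ↔ ∃ i < ey t + 1 + r.length, σ i = u := by
    intro u
    have : u ∈ S ↔ u ∈ v :: (ext t h z ++ y :: r) := by
      rw [List.mem_cons, ← w.cov, Finset.mem_erase]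
      by_cases c : u = v <;> simp [c, hv]
    rw [this, List.mem_iff_getElem]
    exact ⟨fun ⟨i, hi, e⟩ => ⟨i, len ▸ hi, (g i hi).trans e⟩,
      fun ⟨i, hi, e⟩ => ⟨i, len ▸ hi, (g i _).symm.trans e⟩⟩
  have me : ∀ i < ey t + 1 + r.length, 0 < i → σ i ∈ S.erase v := fun i hi i0 =>
    Finset.mem_erase.2 ⟨fun c => i0.ne' (inj i hi 0 (by omega) (c.trans s0.symm)),
      (mem _).2 ⟨i, hi, rfl⟩⟩
  obtain ⟨M, a, b⟩ := Strip_pull mat ht sH (lam := lam) (h := h) (z := z) k1 k2 inj
    (fun c => by
      rw [hσ, ext, if_neg c]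
      split_ifs <;> rfl) (fun c => by rw [hσ, c]; rfl) w.sup
    (fun i hi j hj i0 j0 ne => by
      rw [s0, sy, hr]
      exact w.adj _ (me i hi i0) _ (me j hj j0) fun c => ne (inj i hi j hj c))
    (s0 ▸ e1) (s0 ▸ e2)
  rw [s0, sy, hr] at a
  exact ⟨_, M, σ, a, b, Finset.ext fun u => (mem u).trans mem_im.symm⟩

theorem Strip_cls : ∀ k ∈ clsL, k.t < 5 ∧ k.win.length ≤ 3 := by decide +kernel

omit [DecidableEq V] in
theorem Strip_cnt (H : Gr V) (v : V) (lam : V → Bool) (r : List V) :
    ((r.map (lt H v lam)).countP fun x => decide (x % 2 = 1)) = r.countP lam := by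
  rw [List.countP_map]
  refine List.countP_congr fun u _ => ?_
  cases a : lam u <;> cases b : H v u <;> simp [lt, a, b]

theorem Strip_mem {l : List Cls} {k : Cls} (hk : k ∈ l) :
    ∃ n < l.length, ((l.drop n).take 1).flatMap Cls.roots = k.roots := by
  obtain ⟨n, hn, rfl⟩ := List.mem_iff_getElem.1 hk
  refine ⟨n, hn, ?_⟩
  rw [List.drop_eq_getElem_cons hn, List.take_succ_cons, List.take_zero, List.flatMap_singleton]

omit [DecidableEq V] in
theorem Strip_lt {H : Gr V} {v : V} {lam : V → Bool} {u w : V} (e : lt H v lam u = lt H v lam w) :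
    lam u = lam w ∧ H v u = H v w := by
  unfold lt at e
  revert e
  cases lam u <;> cases H v u <;> cases lam w <;> cases H v w <;> simp

theorem Strip_red (wd : StWd V) {t : ℕ} {H : Gr V} (sH : Sy H) {S : Finset V} {v y h z : V}
    {r : List V} {lam : V → Bool} (hv : HV t H S v y r lam h z) (ok : okp t ((y :: r).countP lam))
    (d : Del H S) {w1 w2 : List ℕ} {x : ℕ}
    (e : r.map (lt H v lam) = w1 ++ [x, x, x, x, x] ++ w2) :
    ∃ H' S' r', Sy H' ∧ HV t H' S' v y r' lam h z ∧ okp t ((y :: r').countP lam) ∧ Del H' S' ∧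
      r'.map (lt H' v lam) = w1 ++ x :: w2 ∧ ∀ u ∈ ext t h z ++ [y], H' v u = H v u := by
  obtain ⟨q, r2, rfl, e1, rfl⟩ := List.map_eq_append_iff.1 e
  obtain ⟨r1, q, rfl, rfl, e2⟩ := List.map_eq_append_iff.1 e1
  obtain ⟨p1, q, rfl, a1, e2⟩ := List.map_eq_cons_iff.1 e2
  obtain ⟨p2, q, rfl, a2, e2⟩ := List.map_eq_cons_iff.1 e2
  obtain ⟨p3, q, rfl, a3, e2⟩ := List.map_eq_cons_iff.1 e2
  obtain ⟨p4, q, rfl, a4, e2⟩ := List.map_eq_cons_iff.1 e2
  obtain ⟨p5, q, rfl, a5, e2⟩ := List.map_eq_cons_iff.1 e2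
  obtain rfl := List.map_eq_nil_iff.1 e2
  have b : ∀ u ∈ [p2, p3, p4, p5], lam u = lam p1 ∧ H v u = H v p1 := by
    intro u hu
    refine Strip_lt ?_
    simp only [List.mem_cons, List.not_mem_nil, or_false] at hu
    rcases hu with rfl | rfl | rfl | rfl <;> simp only [a1, a2, a3, a4, a5]
  obtain ⟨H', l, hv', c⟩ := wd.fiveV sH hv b
  have c' : ∀ u ∈ ext t h z ++ y :: (r1 ++ p3 :: r2), H' v u = H v u := fun u hu =>
    c u (Finset.mem_of_mem_erase ((hv'.2.cov u).2 hu))
  refine ⟨H', _, _, l.sy sH, hv', ?_, d.le sH l fun u hu => ?_, ?_, fun u hu => c' u ?_⟩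
  · have b2 := (b p2 (by simp)).1
    have b3 := (b p3 (by simp)).1
    have b4 := (b p4 (by simp)).1
    have b5 := (b p5 (by simp)).1
    unfold okp at ok ⊢
    simp only [List.countP_cons, List.countP_append, List.countP_nil, b2, b3, b4, b5] at ok ⊢
    rcases ok with ok | ok
    · exact Or.inl ok
    · refine Or.inr (Iff.trans ?_ ok)
      split_ifs <;> omega
  · refine Finset.mem_of_mem_erase ((hv.2.cov u).2 ?_)
    simp only [Finset.mem_insert, Finset.mem_singleton] at hu
    rcases hu with rfl | rfl | rfl | rfl <;> simp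
  · rw [← a3, ← List.map_cons, ← List.map_append]
    refine List.map_congr_left fun u hu => ?_
    rw [lt, lt, c' u (List.mem_append_right _ (List.mem_cons_of_mem _ hu))]
  · simp only [List.mem_append, List.mem_cons, List.not_mem_nil, or_false] at hu ⊢
    tauto

theorem strip (V : Type) [DecidableEq V] (mat : StMat) (wd : StWd V) : StStrip V := by
  intro X k hk
  obtain ⟨k5, k3⟩ := Strip_cls k hk
  obtain ⟨n, hn, R⟩ := Strip_mem hk
  replace X := X n hn
  rw [rootsX, R] at X
  clear R hn hk
  suffices A : ∀ s i j, i + j = s → (k.fi = true → i = 0) → (k.fj = true → j = 0) → 5 ≤ i + j →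
      ∀ (H : Gr V) S v y r lam h z, Sy H → HV k.t H S v y r lam h z →
      okp k.t ((y :: r).countP lam) → r.map (lt H v lam) = k.word i j → lam y = k.ly →
      H v y = k.my → (k.t ≠ 1 → H v h = k.mh) → (k.t = 4 → H v z = k.mz) → ¬ Del H S from
    fun i j => A _ i j rfl
  intro s
  induction s using Nat.strong_induction_on with
  | _ s ih =>
  intro i j hs fi fj h5 H S v y r lam h z sH hv ok e e1 e2 e3 e4 d
  have hh : k.t ≠ 1 → h ∈ ext k.t h z ++ [y] := fun c => by
    rw [ext, if_neg c]
    split_ifs <;> exact List.mem_cons_self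
  have hz : k.t = 4 → z ∈ ext k.t h z ++ [y] := fun c => by simp [ext, c]
  have red : ∀ (w1 w2 : List ℕ) i' j', i' + j' + 4 = s → i' ≤ i → j' ≤ j → 5 ≤ i' + j' →
      k.word i j = w1 ++ [k.x, k.x, k.x, k.x, k.x] ++ w2 → k.word i' j' = w1 ++ k.x :: w2 →
      False := by
    intro w1 w2 i' j' a b c g q q'
    obtain ⟨H', S', r', sH', hv', ok', d', e', c'⟩ := Strip_red wd sH hv ok d (e.trans q)
    exact ih _ (by omega) i' j' rfl (fun o => by have := fi o; omega)
      (fun o => by have := fj o; omega) g H' S' v y r' lam h z sH' hv' ok' (e'.trans q'.symm) e1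
      ((c' y (by simp)).trans e2) (fun o => (c' h (hh o)).trans (e3 o))
      (fun o => (c' z (hz o)).trans (e4 o)) d'
  by_cases c : i + j ≤ 8
  · have len : r.length = i + k.win.length + j := by
      simpa [Cls.word, Nat.add_assoc] using congrArg List.length e
    obtain ⟨n, M, σ, a, b, rfl⟩ := Strip_key mat k5 sH hv (by omega) (by omega) e3 e4
    have m : St.X n M ∈ k.roots := by
      have pk : parOk k.t (k.ly.toNat + (k.word i j).countP fun x => decide (x % 2 = 1)) = true := by
        rw [← e, Strip_cnt, ← e1]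
        have : (y :: r).countP lam = (lam y).toNat + r.countP lam := by
          rw [List.countP_cons, Nat.add_comm]
          cases lam y <;> rfl
        rw [this, okp] at ok
        rw [parOk, Bool.or_eq_true, decide_eq_true_eq, beq_iff_eq, decide_eq_decide]
        exact ok
      rw [← a, e1, e2, e]
      refine List.mem_flatMap.2 ⟨i, List.mem_range.2 (by omega), List.mem_flatMap.2
        ⟨j, List.mem_range.2 (by omega), ?_⟩⟩
      rw [if_pos ⟨fi, fj, h5, c, pk⟩]
      exact List.mem_singleton_self _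
    exact X _ m H σ sH b d
  by_cases c' : 5 ≤ i
  · obtain ⟨i, rfl⟩ : ∃ a, i = a + 5 := ⟨i - 5, by omega⟩
    exact red [] (List.replicate i k.x ++ k.win ++ List.replicate j k.x) (i + 1) j (by omega)
      (by omega) le_rfl (by omega) (by simp [Cls.word, List.replicate_succ])
      (by simp [Cls.word, List.replicate_succ])
  · obtain ⟨j, rfl⟩ : ∃ a, j = a + 5 := ⟨j - 5, by omega⟩
    exact red (List.replicate i k.x ++ k.win) (List.replicate j k.x) i (j + 1) (by omega)
      le_rfl (by omega) (by omega) (by simp [Cls.word, List.replicate_succ])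
      (by simp [Cls.word, List.replicate_succ])

end Pool.Agent.Lib.MP_d7353d_co.U
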