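import Pool.Agent.Lib.MP_d7353d_co.US
import Pool.Agent.Lib.MP_d7353d_co.TB

/-! Subdividing the edge between two vertices of degree at most two. -/

namespace Pool.Agent.Lib.MP_d7353d_co.U

open T

variable {V : Type} [DecidableEq V]

/-- a new letter around the part `B` of the word -/
theorem sub_add {G : Gr V} (hG : Sy G) {T : Finset V} {B C : List V} {s : V} (hs : s ∉ T)
    (h : Rep G T (B ++ C)) (e : ∀ w ∈ T, G s w = par B w) : Circ G (insert s T) := by
  have hB : s ∉ B := fun m => hs (h.1.mem.1 (by simp [m]))
  have hC : s ∉ C := fun m => hs (h.1.mem.1 (by simp [m]))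
  refine ⟨s :: B ++ s :: C, fun v => ?_, fun u hu v hv huv => ?_⟩
  · have c := h.1 v
    by_cases hv : v = s
    · subst hv
      simp [List.count_eq_zero_of_not_mem hB, List.count_eq_zero_of_not_mem hC]
    · have hv' : ¬ s = v := fun x => hv x.symm
      simp only [List.count_append] at c
      simp only [List.cons_append, List.count_cons, List.count_append, Finset.mem_insert, hv,
        false_or, beq_iff_eq, hv', if_false, add_zero]
      exact c
  · have key : ∀ w ∈ T, inv (s :: B ++ s :: C) s w = par B w := fun w hw => by
      have hw' : ¬ s = w := fun x => hs (x ▸ hw)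
      simp only [List.cons_append, inv, inv_append, par_append, par, inv_left hB, inv_left hC,
        par_of_not_mem hB, hw', decide_true, decide_false]
      cases par B w <;> cases par C w <;> rfl
    rcases Finset.mem_insert.1 hu with rfl | hu1
    · have hv' : v ∈ T := (Finset.mem_insert.1 hv).resolve_left fun x => huv x.symm
      rw [key v hv', e v hv']
    · rcases Finset.mem_insert.1 hv with rfl | hv1
      · have hu' : ¬ v = u := fun x => hs (x ▸ hu1)
        rw [hG.1, e u hu1]
        have p0 := h.1.par u
        rw [par_append] at p0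
        simp only [List.cons_append, inv, inv_append, par_append, par, inv_right hB, inv_right hC,
          par_of_not_mem hB, par_of_not_mem hC, hu', decide_true, decide_false]
        cases par B u <;> rfl
      · have hu' : ¬ s = u := fun x => hs (x ▸ hu1)
        have hv' : ¬ s = v := fun x => hs (x ▸ hv1)
        rw [h.2 u hu1 v hv1 huv]
        simp only [List.cons_append, inv, inv_append, par_append, par, hu', hv', decide_false]
        simp

/-- a pendant vertex -/
theorem sub_pend {G : Gr V} (hG : Sy G) {T : Finset V} {s q : V} (hs : s ∉ T) (hq : q ∈ T)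
    (h : Circ G T) (e : ∀ w ∈ T, G s w = decide (w = q)) : Circ G (insert s T) := by
  obtain ⟨W, hW⟩ := h
  obtain ⟨A, B, h⟩ := hW.at hq
  refine sub_add hG hs (B := [q]) (C := A ++ q :: B) (by simpa using h) fun w hw => ?_
  rw [e w hw]
  simp [par, eq_comm]

/-- an isolated vertex -/
theorem sub_isol {G : Gr V} (hG : Sy G) {T : Finset V} {s : V} (hs : s ∉ T)
    (h : Circ G T) (e : ∀ w ∈ T, G s w = false) : Circ G (insert s T) := by
  obtain ⟨W, hW⟩ := h
  exact sub_add hG hs (B := []) (C := W) (by simpa using hW) fun w hw => by rw [e w hw]; rfl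

theorem sub_par_le (A : List V) (x : V) : (par A x).toNat ≤ A.count x := by
  rw [par_eq]
  by_cases h : A.count x % 2 = 1
  · simp only [h, decide_true, Bool.toNat_true]; omega
  · simp [h]

/-- a vertex joined to both ends of an edge between vertices of degree at most two -/
theorem sub_tri {G : Gr V} (hG : Sy G) {T : Finset V} {s p q a b : V} (hs : s ∉ T) (hp : p ∈ T)
    (hq : q ∈ T) (hpq : G p q = true) (np : ∀ w ∈ T, G p w = true → w = a ∨ w = q)
    (nq : ∀ w ∈ T, G q w = true → w = p ∨ w = b) (h : Circ G T)
    (e : ∀ w ∈ T, G s w = (decide (w = p) ^^ decide (w = q))) : Circ G (insert s T) := by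
  have ne : p ≠ q := fun x => by rw [x, hG.2] at hpq; exact absurd hpq (by simp)
  obtain ⟨W, hW⟩ := h
  obtain ⟨X, Y, h⟩ := hW.at hp
  have pX : par X q = true := by rw [← h.adj hq ne, hpq]
  have pY : par Y q = true := by
    have := h.1.par q
    simp only [List.cons_append, par, par_append, pX, ne, decide_false] at this
    revert this
    cases par Y q <;> simp
  have mX : q ∈ X := by
    by_contra m
    rw [par_of_not_mem m] at pX
    exact absurd pX (by simp)
  have mY : q ∈ Y := by
    by_contra m
    rw [par_of_not_mem m] at pY
    exact absurd pY (by simp)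
  obtain ⟨A, B, rfl⟩ := List.append_of_mem mX
  obtain ⟨C, D, rfl⟩ := List.append_of_mem mY
  have cnt : ∀ x, x ≠ p → x ≠ q → A.count x + B.count x + C.count x + D.count x ≤ 2 := by
    intro x h1 h2
    have c := h.1 x
    have h1' : ¬ p = x := fun y => h1 y.symm
    have h2' : ¬ q = x := fun y => h2 y.symm
    simp only [List.cons_append, List.count_cons, List.count_append, beq_iff_eq, h1', h2',
      if_false, add_zero] at c
    split_ifs at c <;> omega
  have cp : A.count p = 0 ∧ B.count p = 0 ∧ C.count p = 0 ∧ D.count p = 0 := by
    have c := h.1 p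
    have h2' : ¬ q = p := fun y => ne y.symm
    simp only [List.cons_append, List.count_cons, List.count_append, beq_iff_eq, h2', hp,
      if_false, if_true, add_zero] at c
    omega
  have cq : A.count q = 0 ∧ B.count q = 0 ∧ C.count q = 0 ∧ D.count q = 0 := by
    have c := h.1 q
    simp only [List.cons_append, List.count_cons, List.count_append, beq_iff_eq, ne, hq,
      if_false, if_true, add_zero] at c
    omega
  have pp : par A p = false ∧ par B p = false ∧ par C p = false ∧ par D p = false := by
    simp [par_eq, cp]
  have pq : par A q = false ∧ par B q = false ∧ par C q = false ∧ par D q = false := by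
    simp [par_eq, cq]
  have h2 : Rep G T (q :: (B ++ p :: C) ++ q :: (D ++ p :: A)) := by
    have := Rep.rot (A := p :: A) (B := q :: B ++ p :: C ++ q :: D) (by simpa using h)
    simpa using this
  have tot : ∀ x, (par A x ^^ par B x ^^ par C x ^^ par D x) = false := fun x => by
    have := h.1.par x
    simp only [List.cons_append, par, par_append] at this
    revert this
    cases decide (p = x) <;> cases decide (q = x) <;> cases par A x <;> cases par B x <;>
      cases par C x <;> cases par D x <;> simp
  have f1 : ∀ x ∈ T, x ≠ p → x ≠ q → x ≠ a → par A x = par B x := fun x hx h1 h2' h3 => by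
    have g := h.adj hx h1.symm
    have g0 : G p x = false := by
      by_contra k
      rcases np x hx (by simpa using k) with k | k
      · exact h3 k
      · exact h2' k
    have h4 : ¬ q = x := fun y => h2' y.symm
    rw [g0] at g
    simp only [par_append, par, h4, decide_false] at g
    revert g
    cases par A x <;> cases par B x <;> simp
  have f2 : ∀ x ∈ T, x ≠ p → x ≠ q → x ≠ b → par B x = par C x := fun x hx h1 h2' h3 => by
    have g := h2.adj hx h2'.symm
    have g0 : G q x = false := by
      by_contra k
      rcases nq x hx (by simpa using k) with k | k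
      · exact h1 k
      · exact h3 k
    have h4 : ¬ p = x := fun y => h1 y.symm
    rw [g0] at g
    simp only [par_append, par, h4, decide_false] at g
    revert g
    cases par B x <;> cases par C x <;> simp
  have f3 : ∀ x, x ≠ p → x ≠ q →
      (par A x).toNat + (par B x).toNat + (par C x).toNat + (par D x).toNat ≤ 2 := fun x h1 h2' => by
    have := cnt x h1 h2'
    have := sub_par_le A x
    have := sub_par_le B x
    have := sub_par_le C x
    have := sub_par_le D x
    omega
  have f4 : ∀ x ∈ T, x ≠ a → x ≠ b →
      par A x = false ∧ par B x = false ∧ par C x = false ∧ par D x = false := by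
    intro x hx h3 h4
    by_cases h1 : x = p
    · rw [h1]; exact pp
    by_cases h2' : x = q
    · rw [h2']; exact pq
    have k1 := f1 x hx h1 h2' h3
    have k2 := f2 x hx h1 h2' h4
    have k3 := f3 x h1 h2'
    have k4 := tot x
    revert k1 k2 k3 k4
    cases par A x <;> cases par B x <;> cases par C x <;> cases par D x <;> simp
  have out : ∀ x, x ∉ T →
      par A x = false ∧ par B x = false ∧ par C x = false ∧ par D x = false := by
    intro x hx
    have m : x ∉ p :: (A ++ q :: B) ++ p :: (C ++ q :: D) := fun m => hx (h.1.mem.1 m)
    simp only [List.cons_append, List.mem_cons, List.mem_append, not_or] at m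
    exact ⟨par_of_not_mem m.2.1.1, par_of_not_mem m.2.1.2.2, par_of_not_mem m.2.2.2.1,
      par_of_not_mem m.2.2.2.2.2⟩
  have ga : a ≠ b → par B a = par C a := fun ab => by
    by_cases hx : a ∈ T
    · by_cases h1 : a = p
      · rw [h1, pp.2.1, pp.2.2.1]
      by_cases h2' : a = q
      · rw [h2', pq.2.1, pq.2.2.1]
      exact f2 a hx h1 h2' ab
    · rw [(out a hx).2.1, (out a hx).2.2.1]
  have gb : a ≠ b → par A b = par B b := fun ab => by
    by_cases hx : b ∈ T
    · by_cases h1 : b = p
      · rw [h1, pp.2.1, pp.1]
      by_cases h2' : b = q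
      · rw [h2', pq.2.1, pq.1]
      exact f1 b hx h1 h2' ab.symm
    · rw [(out b hx).2.1, (out b hx).1]
  have f5 : ∀ x, (par A x).toNat + (par B x).toNat + (par C x).toNat + (par D x).toNat ≤ 2 := by
    intro x
    by_cases h1 : x = p
    · simp [h1, pp]
    by_cases h2' : x = q
    · simp [h2', pq]
    exact f3 x h1 h2'
  have one : (par A a = false ∧ par A b = false) ∨ (par B a = false ∧ par B b = false) ∨
      (par C a = false ∧ par C b = false) ∨ (par D a = false ∧ par D b = false) := by
    by_cases ab : a = b
    · subst ab
      have := f5 a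
      revert this
      cases par A a <;> cases par B a <;> cases par C a <;> cases par D a <;> simp
    · have h1 := ga ab
      have h2' := gb ab
      have h3 := f5 a
      have h4 := f5 b
      have h5 := tot a
      have h6 := tot b
      revert h1 h2' h3 h4 h5 h6
      cases par A a <;> cases par B a <;> cases par C a <;> cases par D a <;>
        cases par A b <;> cases par B b <;> cases par C b <;> cases par D b <;> simp
  have all : ∀ (Z : List V), (∀ x ∈ T, x ≠ a → x ≠ b → par Z x = false) → par Z a = false →
      par Z b = false → ∀ x ∈ T, par Z x = false := fun Z k ka kb x hx => by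
    by_cases h1 : x = a
    · rw [h1, ka]
    by_cases h2' : x = b
    · rw [h2', kb]
    exact k x hx h1 h2'
  have dc : ∀ x y : V, decide (x = y) = decide (y = x) := fun x y => by simp [eq_comm]
  rcases one with k | k | k | k
  · have z := all A (fun x hx h1 h2' => (f4 x hx h1 h2').1) k.1 k.2
    refine sub_add hG hs (B := p :: A ++ [q]) (C := B ++ p :: (C ++ q :: D)) (by simpa using h)
      fun w hw => ?_
    simp [e w hw, par, par_append, z w hw, dc w]
  · have z := all B (fun x hx h1 h2' => (f4 x hx h1 h2').2.1) k.1 k.2
    refine sub_add hG hs (B := q :: B ++ [p]) (C := C ++ q :: (D ++ p :: A)) (by simpa using h2)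
      fun w hw => ?_
    simp [e w hw, par, par_append, z w hw, dc w, Bool.xor_comm]
  · have z := all C (fun x hx h1 h2' => (f4 x hx h1 h2').2.2.1) k.1 k.2
    have h3 := Rep.rot (A := p :: (A ++ q :: B)) (B := p :: (C ++ q :: D)) (by simpa using h)
    refine sub_add hG hs (B := p :: C ++ [q]) (C := D ++ p :: (A ++ q :: B)) (by simpa using h3)
      fun w hw => ?_
    simp [e w hw, par, par_append, z w hw, dc w]
  · have z := all D (fun x hx h1 h2' => (f4 x hx h1 h2').2.2.2) k.1 k.2
    have h3 := Rep.rot (A := q :: (B ++ p :: C)) (B := q :: (D ++ p :: A)) (by simpa using h2)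
    refine sub_add hG hs (B := q :: D ++ [p]) (C := A ++ q :: (B ++ p :: C)) (by simpa using h3)
      fun w hw => ?_
    simp [e w hw, par, par_append, z w hw, dc w, Bool.xor_comm]

theorem sub (V : Type) [DecidableEq V] : StSub V := by
  intro G S a p s q b hG hp hs hq ne es np nq hpq hD
  have sp : s ≠ p := fun x => by
    have := es s hs
    rw [hG.2, x] at this
    simp [ne] at this
  have sq : s ≠ q := fun x => by
    have := es s hs
    rw [hG.2, x] at this
    simp [ne.symm] at this
  have ag : ∀ x, x = p ∨ x = q → ∀ u ∈ (S.erase s).erase x, ∀ v ∈ (S.erase s).erase x, u ≠ v →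
      G u v = lc G s u v := by
    intro x hx u hu v hv huv
    simp only [Finset.mem_erase] at hu hv
    simp only [lc, huv, if_false]
    rw [hG.1 u s, es u hu.2.2, es v hv.2.2]
    rcases hx with rfl | rfl
    · by_cases h : u = q
      · have : ¬ v = q := fun y => huv (h.trans y.symm)
        simp [this, hv.1]
      · simp [h, hu.1]
    · by_cases h : u = p
      · have : ¬ v = p := fun y => huv (h.trans y.symm)
        simp [this, hv.1]
      · simp [h, hu.1]
  have cp : Circ G ((S.erase s).erase p) :=
    (hD p (Finset.mem_erase.2 ⟨sp.symm, hp⟩)).congr (ag p (Or.inl rfl))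
  have cq : Circ G ((S.erase s).erase q) :=
    (hD q (Finset.mem_erase.2 ⟨sq.symm, hq⟩)).congr (ag q (Or.inr rfl))
  intro u hu
  by_cases h1 : u = s
  · subst h1
    have e : S.erase u = insert p ((S.erase u).erase p) :=
      (Finset.insert_erase (Finset.mem_erase.2 ⟨sp.symm, hp⟩)).symm
    rw [e]
    by_cases k : a ∈ (S.erase u).erase p ∧ G p a = true
    · refine sub_pend hG (by simp) k.1 cp fun w hw => ?_
      simp only [Finset.mem_erase] at hw
      by_cases x : w = a
      · simp [x, k.2]
      · by_contra y
        rcases np w hw.2.2 (by simpa [x] using y) with z | z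
        · exact x z
        · exact hw.2.1 z
    · refine sub_isol hG (by simp) cp fun w hw => ?_
      by_contra y
      have y' : G p w = true := by simpa using y
      rcases np w (Finset.mem_of_mem_erase (Finset.mem_of_mem_erase hw)) y' with z | z
      · exact k ⟨z ▸ hw, z ▸ y'⟩
      · simp [z] at hw
  have e : S.erase u = insert s ((S.erase s).erase u) := by
    rw [Finset.erase_right_comm]
    exact (Finset.insert_erase (Finset.mem_erase.2 ⟨fun x => h1 x.symm, hs⟩)).symm
  by_cases h2 : u = p
  · subst h2
    rw [e]
    refine sub_pend hG (by simp) (q := q) (by simp [ne.symm, sq.symm, hq]) cp fun w hw => ?_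
    simp only [Finset.mem_erase] at hw
    simp [es w hw.2.2, hw.1]
  by_cases h3 : u = q
  · subst h3
    rw [e]
    refine sub_pend hG (by simp) (q := p) (by simp [ne, sp.symm, hp]) cq fun w hw => ?_
    simp only [Finset.mem_erase] at hw
    simp [es w hw.2.2, hw.1]
  have c := hD u (Finset.mem_erase.2 ⟨h1, hu⟩)
  have mp : p ∈ (S.erase s).erase u := by simp [Ne.symm h2, sp.symm, hp]
  have mq : q ∈ (S.erase s).erase u := by simp [Ne.symm h3, sq.symm, hq]
  have gp : G p s = true := by rw [hG.1, es p hp]; simp [ne]
  have gq : G q s = true := by rw [hG.1, es q hq]; simp [ne.symm]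
  have c2 : Circ (lc G s) (insert s ((S.erase s).erase u)) := by
    refine sub_tri (hG.lc s) (a := a) (b := b) (by simp) mp mq ?_ ?_ ?_ c ?_
    · simp [lc, ne, hpq, gp, hG.1 s q, gq]
    · intro w hw g
      simp only [Finset.mem_erase] at hw
      by_cases x : w = q
      · exact Or.inr x
      by_cases y : p = w
      · simp [lc, y] at g
      have y' : ¬ w = p := fun z => y z.symm
      simp only [lc, y, if_false, es w hw.2.2, x, y', decide_false, Bool.xor_false, Bool.and_false] at g
      exact Or.inl ((np w hw.2.2 g).resolve_right hw.2.1)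
    · intro w hw g
      simp only [Finset.mem_erase] at hw
      by_cases x : w = p
      · exact Or.inl x
      by_cases y : q = w
      · simp [lc, y] at g
      have y' : ¬ w = q := fun z => y z.symm
      simp only [lc, y, if_false, es w hw.2.2, x, y', decide_false, Bool.xor_false, Bool.and_false] at g
      exact Or.inr ((nq w hw.2.2 g).resolve_left hw.2.1)
    · intro w hw
      rw [lc_left hG, es w (Finset.mem_of_mem_erase (Finset.mem_of_mem_erase hw))]
  have c3 := c2.lc (hG.lc s) (Finset.mem_insert_self s _)
  rw [lc_lc hG] at c3
  rwa [e]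

end Pool.Agent.Lib.MP_d7353d_co.U
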