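import Pool.Agent.Lib.MP_d7353d_co.U1
import Pool.Agent.Lib.MP_d7353d_co.UEx1

/-! Moves on words. -/

namespace Pool.Agent.Lib.MP_d7353d_co.U

open T

variable {V : Type} [DecidableEq V]

theorem wd_last (y : V) (r : List V) : ∃ l p, y :: r = l ++ [p] :=
  ⟨_, _, (List.dropLast_append_getLast (List.cons_ne_nil y r)).symm⟩

theorem wd_head (y : V) (r : List V) : ∃ q l, r ++ [y] = q :: l := by
  cases r with
  | nil => exact ⟨_, _, rfl⟩
  | cons x l => exact ⟨x, l ++ [y], rfl⟩

/-- the cycle cut at the neighbours of a block `m` -/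
theorem wd_cy {y p q : V} {r1 r2 l1 l2 : List V} (e1 : y :: r1 = l1 ++ [p]) (e2 : r2 ++ [y] = q :: l2)
    (m : List V) (u w : V) : cy y (r1 ++ m ++ r2) u w =
      (pe (y :: r1) u w ^^ pe (p :: m ++ [q]) u w ^^ pe (r2 ++ [y]) u w) := by
  have e : y :: (r1 ++ m ++ r2) ++ [y] = l1 ++ p :: (m ++ q :: l2) := by
    rw [← e2]
    simp only [List.cons_append, List.append_assoc]
    rw [← List.cons_append, e1]
    simp
  unfold cy
  rw [e, ex_pe_append, ← List.cons_append, ex_pe_append (p :: m), ← e1, ← e2, Bool.xor_assoc]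

/-- rim vertices other than `y` are not in the sets `al` and have `la = lam` -/
theorem WF.rim {t : ℕ} {G : Gr V} {S : Finset V} {y : V} {r : List V} {lam : V → Bool} {h z : V}
    (k : WF t G S y r lam h z) {s : V} (hs : s ∈ r) :
    s ∈ S ∧ al t h y s = false ∧ la t lam h z s = lam s := by
  have nd := k.nd
  have e : s ∉ ext t h z := fun m =>
    (List.nodup_append.1 nd).2.2 s m s (List.mem_cons_of_mem _ hs) rfl
  have sy : s ≠ y := fun x => (List.nodup_cons.1 (List.nodup_append.1 nd).2.1).1 (x ▸ hs)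
  refine ⟨(k.cov s).2 (by simp [hs]), ?_, ?_⟩
  · unfold al
    by_cases h1 : t = 1
    · simp [h1]
    · have : s ≠ h := fun x => e (by unfold ext; split_ifs <;> simp [x])
      simp [this, sy]
  · unfold la
    by_cases h2 : t = 2
    · have : s ≠ h := fun x => e (by simp [ext, h2, x])
      simp [h2, this]
    by_cases h4 : t = 4
    · have : s ≠ z := fun x => e (by simp [ext, h4, x])
      simp [h4, this]
    simp [h2, h4]

theorem wd_rot {t : ℕ} {G : Gr V} {S : Finset V} {y : V} {r1 : List V} {q : V} {r2 : List V}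
    {lam : V → Bool} {h z : V} (ht : t < 3) (k : WF t G S y (r1 ++ q :: r2) lam h z) :
    WF t G S q (r2 ++ y :: r1) lam h z := by
  have p : (ext t h z ++ y :: (r1 ++ q :: r2)).Perm (ext t h z ++ q :: (r2 ++ y :: r1)) :=
    List.Perm.append_left _ (List.perm_append_comm (l₁ := y :: r1) (l₂ := q :: r2))
  refine ⟨p.nodup_iff.1 k.nd, fun u => (k.cov u).trans p.mem_iff, k.sup, fun u hu w hw ne => ?_⟩
  rw [k.adj u hu w hw ne]
  have a : ∀ x, al t h y x = al t h q x := fun x => by simp [al, show ¬ 3 ≤ t by omega]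
  have c : cy y (r1 ++ q :: r2) u w = cy q (r2 ++ y :: r1) u w := by
    unfold cy
    rw [show y :: (r1 ++ q :: r2) ++ [y] = (y :: r1) ++ q :: (r2 ++ [y]) by simp,
      show q :: (r2 ++ y :: r1) ++ [q] = (q :: r2) ++ y :: (r1 ++ [q]) by simp,
      ex_pe_append, ex_pe_append (q :: r2), Bool.xor_comm]
    rfl
  simp only [form, a, c]

theorem wd_rev {t : ℕ} {G : Gr V} {S : Finset V} {y : V} {r : List V} {lam : V → Bool} {h z : V}
    (k : WF t G S y r lam h z) : WF t G S y r.reverse lam h z := by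
  have p : (ext t h z ++ y :: r).Perm (ext t h z ++ y :: r.reverse) :=
    List.Perm.append_left _ (List.Perm.cons _ (List.reverse_perm r).symm)
  refine ⟨p.nodup_iff.1 k.nd, fun u => (k.cov u).trans p.mem_iff, k.sup, fun u hu w hw ne => ?_⟩
  rw [k.adj u hu w hw ne]
  have c : cy y r u w = cy y r.reverse u w := by
    unfold cy
    rw [← ex_pe_reverse]
    simp
  simp only [form, c]

/-- a block inside the rim: the facts on membership -/
theorem WF.blk {t : ℕ} {G : Gr V} {S : Finset V} {y : V} {r1 m r2 : List V} {lam : V → Bool} {h z : V}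
    (k : WF t G S y (r1 ++ m ++ r2) lam h z) :
    m.Nodup ∧ (∀ s ∈ m, s ∉ y :: r1 ∧ s ∉ r2 ++ [y] ∧ s ∉ ext t h z) ∧
      (∀ u ∈ y :: r1, u ∈ S) ∧ ∀ u ∈ r2 ++ [y], u ∈ S := by
  have nd := k.nd
  simp only [List.nodup_append, List.nodup_cons, List.mem_append, List.mem_cons, not_or] at nd
  obtain ⟨-, ⟨⟨⟨-, h1⟩, -⟩, ⟨-, h2, h3⟩, -, h4⟩, h5⟩ := nd
  refine ⟨h2, fun s hs => ⟨?_, ?_, ?_⟩, fun u hu => (k.cov u).2 ?_, fun u hu => (k.cov u).2 ?_⟩
  · simp only [List.mem_cons, not_or]
    exact ⟨fun e => h1 (e ▸ hs), fun m => h3 s m s hs rfl⟩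
  · simp only [List.mem_append, List.mem_singleton, not_or]
    exact ⟨fun m => h4 s (Or.inr hs) s m rfl, fun e => h1 (e ▸ hs)⟩
  · exact fun m => h5 s m s (Or.inr (Or.inl (Or.inr hs))) rfl
  · simp only [List.mem_cons, List.mem_append] at hu ⊢
    tauto
  · simp only [List.mem_cons, List.mem_append, List.not_mem_nil, or_false] at hu ⊢
    tauto

theorem wd_zero {t : ℕ} {G : Gr V} {S : Finset V} {y : V} {r1 : List V} {s : V} {r2 : List V}
    {lam : V → Bool} {h z : V} (hG : Sy G) (k : WF t G S y (r1 ++ s :: r2) lam h z)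
    (hl : lam s = false) : WF t (lc G s) (S.erase s) y (r1 ++ r2) lam h z := by
  obtain ⟨l1, p, e1⟩ := wd_last y r1
  obtain ⟨q, l2, e2⟩ := wd_head y r2
  have k' : WF t G S y (r1 ++ [s] ++ r2) lam h z := by simpa using k
  obtain ⟨-, b, -, -⟩ := k'.blk
  obtain ⟨b1, b2, b3⟩ := b s (by simp)
  obtain ⟨sS, a1, a2⟩ := k.rim (s := s) (by simp)
  have sp : s ≠ p := fun x => b1 (by rw [e1, x]; simp)
  have sq : s ≠ q := fun x => b2 (by rw [e2, x]; simp)
  have row : ∀ w ∈ S, w ≠ s → G s w = (decide (w = p) ^^ decide (w = q)) := fun w hw ne => by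
    rw [k'.adj s sS w hw ne.symm]
    simp only [form, a1, a2, hl, wd_cy e1 e2, ex_pe_left b1, ex_pe_left b2]
    simp [pe, ed, sp, sq]
  refine ⟨k.nd.sublist (List.Sublist.append_left (List.Sublist.cons₂ _
    (List.Sublist.append_left (List.sublist_cons_self _ _) _)) _), fun u => ?_, k.sup,
    fun u hu w hw ne => ?_⟩
  · rw [Finset.mem_erase, k.cov u]
    simp only [List.mem_append, List.mem_cons, List.not_mem_nil, or_false, not_or] at b1 b2 ⊢
    constructor
    · tauto
    · rintro (x | x | x | x)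
      · exact ⟨fun e => b3 (e ▸ x), Or.inl x⟩
      · exact ⟨fun e => b1.1 (e.symm.trans x), Or.inr (Or.inl x)⟩
      · exact ⟨fun e => b1.2 (e ▸ x), Or.inr (Or.inr (Or.inl x))⟩
      · exact ⟨fun e => b2.1 (e ▸ x), Or.inr (Or.inr (Or.inr (Or.inr x)))⟩
  · obtain ⟨us, hu⟩ := Finset.mem_erase.1 hu
    obtain ⟨ws, hw⟩ := Finset.mem_erase.1 hw
    have c0 := wd_cy e1 e2 [] u w
    rw [List.append_nil] at c0
    simp only [lc, ne, if_false]
    rw [hG.1 u s, row u hu us, row w hw ws, k'.adj u hu w hw ne]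
    have cp : (decide (u = p) && decide (w = p)) = false := by
      by_cases x : u = p
      · simp [x, show ¬ w = p from fun e => ne (x.trans e.symm)]
      · simp [x]
    have cq : (decide (u = q) && decide (w = q)) = false := by
      by_cases x : u = q
      · simp [x, show ¬ w = q from fun e => ne (x.trans e.symm)]
      · simp [x]
    simp only [form, c0, wd_cy e1 e2, List.cons_append, List.nil_append, pe, ed, us, ws,
      decide_false]
    revert cp cq
    generalize pe (y :: r1) u w = x0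
    generalize pe (r2 ++ [y]) u w = x1
    generalize (kap t && la t lam h z u && la t lam h z w) = x2
    generalize (al t h y u && la t lam h z w) = x3
    generalize (al t h y w && la t lam h z u) = x4
    generalize decide (u = p) = x5
    generalize decide (u = q) = x6
    generalize decide (w = p) = x7
    generalize decide (w = q) = x8
    revert x0 x1 x2 x3 x4 x5 x6 x7 x8
    decide

theorem wd_zeroV {t : ℕ} {H : Gr V} {S : Finset V} {v y : V} {r1 : List V} {s : V} {r2 : List V}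
    {lam : V → Bool} {h z : V} (hH : Sy H) (k : HV t H S v y (r1 ++ s :: r2) lam h z)
    (hl : lam s = false) (hv : H v s = false) :
    HV t (lc H s) (S.erase s) v y (r1 ++ r2) lam h z ∧ ∀ u, lc H s v u = H v u := by
  have k2 := wd_zero (hH.lc v) k.2 hl
  have sS := (k.2.rim (s := s) (by simp)).1
  rw [lc_comm hH hv, Finset.erase_right_comm] at k2
  refine ⟨⟨Finset.mem_erase.2 ⟨(Finset.mem_erase.1 sS).1.symm, k.1⟩, k2⟩, fun u => ?_⟩
  unfold lc
  by_cases e : v = u
  · simp [e, hH.2]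
  · simp [e, hv]

/-- the rows of the five vertices -/
theorem wd_rows {t : ℕ} {G : Gr V} {S : Finset V} {y : V} {r1 : List V} {p1 p2 p3 p4 p5 : V}
    {r2 l1 l2 : List V} {a b : V} {lam : V → Bool} {h z : V}
    (k : WF t G S y (r1 ++ [p1, p2, p3, p4, p5] ++ r2) lam h z)
    (e1 : y :: r1 = l1 ++ [a]) (e2 : r2 ++ [y] = b :: l2)
    (hl : ∀ u ∈ [p2, p3, p4, p5], lam u = lam p1) :
    [p1, p2, p3, p4, p5].Nodup ∧ a ∉ [p1, p2, p3, p4, p5] ∧ b ∉ [p1, p2, p3, p4, p5] ∧
      (∀ u ∈ [a, p1, p2, p3, p4, p5, b], u ∈ S) ∧ ∃ φ : V → Bool,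
      (∀ u ∈ [p2, p3, p4, p5], φ u = φ p1) ∧ ∀ p ∈ [p1, p2, p3, p4, p5], ∀ u ∈ S, u ≠ p →
        G p u = (pe [a, p1, p2, p3, p4, p5, b] p u ^^ φ u) := by
  obtain ⟨nd, b0, s1, s2⟩ := k.blk
  have rim : ∀ p ∈ [p1, p2, p3, p4, p5], p ∈ S ∧ al t h y p = false ∧ la t lam h z p = lam p1 := by
    intro p hp
    obtain ⟨x1, x2, x3⟩ := k.rim (s := p) (by simp only [List.mem_append]; exact Or.inl (Or.inr hp))
    refine ⟨x1, x2, x3.trans ?_⟩
    rcases List.mem_cons.1 hp with e | e
    · rw [e]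
    · exact hl p e
  refine ⟨nd, fun m => (b0 a m).1 (by rw [e1]; simp), fun m => (b0 b m).2.1 (by rw [e2]; simp),
    fun u hu => ?_, fun u => lam p1 && ((kap t && la t lam h z u) ^^ al t h y u), fun u hu => ?_,
    fun p hp u hu ne => ?_⟩
  · rcases List.mem_cons.1 hu with e | e
    · exact s1 u (by rw [e1, e]; simp)
    · have : u ∈ [p1, p2, p3, p4, p5] ∨ u = b := by
        simp only [List.mem_cons, List.not_mem_nil, or_false] at e ⊢
        tauto
      rcases this with x | x
      · exact (rim u x).1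
      · exact s2 u (by rw [e2, x]; simp)
  · obtain ⟨-, x1, x2⟩ := rim u (List.mem_cons_of_mem _ hu)
    obtain ⟨-, x3, x4⟩ := rim p1 (by simp)
    simp only [x1, x2, x3, x4]
  · obtain ⟨x0, x1, x2⟩ := rim p hp
    rw [k.adj p x0 u hu ne.symm]
    simp only [form, x1, x2, wd_cy e1 e2, ex_pe_left (b0 p hp).1, ex_pe_left (b0 p hp).2.1,
      List.cons_append, List.nil_append]
    cases pe [a, p1, p2, p3, p4, p5, b] p u <;> cases lam p1 <;> cases kap t <;>
      cases la t lam h z u <;> cases al t h y u <;> rfl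

/-- the word after the replacement -/
theorem wd_short {t : ℕ} {G G' : Gr V} {S : Finset V} {y : V} {r1 : List V} {p1 p2 p3 p4 p5 : V}
    {r2 l1 l2 : List V} {a b : V} {lam : V → Bool} {h z : V}
    (k : WF t G S y (r1 ++ [p1, p2, p3, p4, p5] ++ r2) lam h z)
    (e1 : y :: r1 = l1 ++ [a]) (e2 : r2 ++ [y] = b :: l2)
    (e : ∀ u ∈ S \ {p1, p2, p4, p5}, ∀ w ∈ S \ {p1, p2, p4, p5}, u ≠ w →
      G' u w = (G u w ^^ ed a p3 u w ^^ ed p3 b u w)) :
    WF t G' (S \ {p1, p2, p4, p5}) y (r1 ++ p3 :: r2) lam h z := by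
  obtain ⟨nd, b0, -, -⟩ := k.blk
  have sl : List.Sublist (r1 ++ p3 :: r2) (r1 ++ [p1, p2, p3, p4, p5] ++ r2) := by
    rw [List.append_assoc]
    exact List.Sublist.append_left (.cons _ (.cons _ (.cons₂ _ (.cons _ (.cons _ (.refl _)))))) _
  refine ⟨k.nd.sublist (List.Sublist.append_left (List.Sublist.cons₂ _ sl) _), fun u => ?_, k.sup,
    fun u hu w hw ne => ?_⟩
  · rw [Finset.mem_sdiff, k.cov u]
    simp only [List.nodup_cons, List.mem_cons, List.not_mem_nil, or_false, not_or] at nd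
    obtain ⟨⟨n12, n13, n14, n15⟩, ⟨n23, n24, n25⟩, ⟨n34, n35⟩, n45, -⟩ := nd
    have o : ∀ x, x ∈ ext t h z ∨ x = y ∨ x ∈ r1 ∨ x ∈ r2 → x ≠ p1 ∧ x ≠ p2 ∧ x ≠ p4 ∧ x ≠ p5 := by
      intro x hx
      have : x ∉ [p1, p2, p3, p4, p5] := fun m => by
        obtain ⟨c1, c2, c3⟩ := b0 x m
        simp only [List.mem_cons, List.mem_append, List.not_mem_nil, or_false, not_or] at c1 c2
        tauto
      simp only [List.mem_cons, List.not_mem_nil, or_false, not_or] at this
      tauto
    simp only [List.mem_append, List.mem_cons, List.not_mem_nil, or_false, Finset.mem_insert,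
      Finset.mem_singleton, not_or]
    constructor
    · tauto
    · intro hx
      by_cases x3 : u = p3
      · subst x3
        exact ⟨by tauto, Ne.symm n13, Ne.symm n23, n34, n35⟩
      · exact ⟨by tauto, o u (by tauto)⟩
  · rw [e u hu w hw ne]
    simp only [Finset.mem_sdiff, Finset.mem_insert, Finset.mem_singleton, not_or] at hu hw
    obtain ⟨su, u1, u2, u4, u5⟩ := hu
    obtain ⟨sw, w1, w2, w4, w5⟩ := hw
    have c := wd_cy e1 e2 [p3] u w
    rw [show r1 ++ [p3] ++ r2 = r1 ++ p3 :: r2 by simp] at c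
    rw [k.adj u su w sw ne]
    simp only [form, c, wd_cy e1 e2, List.cons_append, List.nil_append, pe]
    have z1 : ed a p1 u w = false := by simp [ed, u1, w1]
    have z2 : ed p1 p2 u w = false := by simp [ed, u1, w1]
    have z3 : ed p2 p3 u w = false := by simp [ed, u2, w2]
    have z4 : ed p3 p4 u w = false := by simp [ed, u4, w4]
    have z5 : ed p4 p5 u w = false := by simp [ed, u4, w4]
    have z6 : ed p5 b u w = false := by simp [ed, u5, w5]
    rw [z1, z2, z3, z4, z5, z6]
    generalize pe (y :: r1) u w = x0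
    generalize pe (r2 ++ [y]) u w = x1
    generalize (kap t && la t lam h z u && la t lam h z w) = x2
    generalize (al t h y u && la t lam h z w) = x3
    generalize (al t h y w && la t lam h z u) = x4
    generalize ed a p3 u w = x5
    generalize ed p3 b u w = x6
    revert x0 x1 x2 x3 x4 x5 x6
    decide

theorem wd_path {l : List V} (nd : l.Nodup) (x x' : V) :
    pe l x x' = true ↔ (x, x') ∈ cp l ∨ (x', x) ∈ cp l := by
  induction l with
  | nil => simp [pe, cp]
  | cons a l ih =>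
    cases l with
    | nil => simp [pe, cp]
    | cons b l =>
      obtain ⟨n1, n2⟩ := List.nodup_cons.1 nd
      have ab : a ≠ b := fun e => n1 (by simp [e])
      have c : cp (a :: b :: l) = (a, b) :: cp (b :: l) := rfl
      rw [ex_pe_cons, c]
      simp only [List.mem_cons, Prod.mk.injEq]
      rw [or_or_or_comm, ← ih n2]
      by_cases h1 : x = a
      · subst h1
        simp [ex_pe_left n1, ed, ab]
      by_cases h2 : x' = a
      · subst h2
        rw [ex_pe_symm, ex_pe_left n1]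
        simp [ed, h1, ab]
      simp [ed, h1, h2]

theorem wd_adj {y : V} {r : List V} {x x' : V} (nd : (y :: r).Nodup) (hr : 2 ≤ r.length) :
    cy y r x x' = true ↔ (x, x') ∈ cp (y :: r ++ [y]) ∨ (x', x) ∈ cp (y :: r ++ [y]) := by
  obtain ⟨b, c, l, rfl⟩ : ∃ b c l, r = b :: c :: l := by
    match r, hr with
    | b :: c :: l, _ => exact ⟨b, c, l, rfl⟩
  have nd2 : (b :: c :: l ++ [y]).Nodup :=
    (List.perm_append_comm (l₁ := [y]) (l₂ := b :: c :: l)).nodup_iff.1 nd
  have n1 : b ∉ c :: (l ++ [y]) := (List.nodup_cons.1 nd2).1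
  have yb : y ≠ b := fun e => (List.nodup_cons.1 nd).1 (by simp [e])
  have yc : y ≠ c := fun e => (List.nodup_cons.1 nd).1 (by simp [e])
  have bc : b ≠ c := fun e => n1 (by simp [e])
  have z : pe (b :: c :: l ++ [y]) b y = false := by
    rw [List.cons_append, List.cons_append, ex_pe_cons, ex_pe_left n1]
    simp [ed, yc, bc]
  have c1 : cp (y :: b :: c :: l ++ [y]) = (y, b) :: cp (b :: c :: l ++ [y]) := rfl
  have c2 : cy y (b :: c :: l) x x' = (ed y b x x' ^^ pe (b :: c :: l ++ [y]) x x') := rfl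
  rw [c1, c2]
  simp only [List.mem_cons, Prod.mk.injEq]
  rw [or_or_or_comm, ← wd_path nd2]
  by_cases h1 : x = y ∧ x' = b
  · rw [h1.1, h1.2, ex_pe_symm, z]
    simp [ed, yb]
  by_cases h2 : x' = y ∧ x = b
  · rw [h2.1, h2.2, z]
    simp [ed, yb]
  have : ed y b x x' = false := by
    unfold ed
    have k1 : (decide (x = y) && decide (x' = b)) = false := by simpa using fun a b => h1 ⟨a, b⟩
    have k2 : (decide (x = b) && decide (x' = y)) = false := by simpa using fun a b => h2 ⟨b, a⟩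
    rw [k1, k2]; rfl
  simp [this, h1, h2]

theorem wd (x5 : StX5 V) : StWd V where
  rot := wd_rot
  rev := wd_rev
  zero := wd_zero
  zeroV := wd_zeroV
  five := by
    intro t G S y r1 p1 p2 p3 p4 p5 r2 lam h z hG k hl
    obtain ⟨l1, a, e1⟩ := wd_last y r1
    obtain ⟨b, l2, e2⟩ := wd_head y r2
    obtain ⟨nd, ha, hb, hS, φ, f1, f2⟩ := wd_rows k e1 e2 hl
    obtain ⟨G', l, e⟩ := x5 G S a p1 p2 p3 p4 p5 b φ hG nd ha hb hS f1 f2
    exact ⟨G', l, wd_short k e1 e2 e⟩
  fiveV := by
    intro t H S v y r1 p1 p2 p3 p4 p5 r2 lam h z hH k hl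
    obtain ⟨l1, a, e1⟩ := wd_last y r1
    obtain ⟨b, l2, e2⟩ := wd_head y r2
    obtain ⟨nd, ha, hb, hS, φ, f1, f2⟩ := wd_rows k.2 e1 e2 fun u hu => (hl u hu).1
    have nv : ∀ u ∈ [a, p1, p2, p3, p4, p5, b], u ≠ v := fun u hu => (Finset.mem_erase.1 (hS u hu)).1
    have vn : v ∉ [a, p1, p2, p3, p4, p5, b] := fun m => nv v m rfl
    have hn : ∀ p ∈ [p1, p2, p3, p4, p5], p ≠ v ∧ H v p = H v p1 := by
      intro p hp
      refine ⟨nv p (by simp only [List.mem_cons, List.not_mem_nil, or_false] at hp ⊢; tauto), ?_⟩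
      rcases List.mem_cons.1 hp with e | e
      · rw [e]
      · exact (hl p e).2
    obtain ⟨H', l, e⟩ := x5 H S a p1 p2 p3 p4 p5 b
      (fun u => if u = v then H v p1 else (φ u ^^ (H v p1 && H v u))) hH nd ha hb
      (fun u hu => Finset.mem_of_mem_erase (hS u hu))
      (fun u hu => by
        obtain ⟨x1, x2⟩ := hn u (List.mem_cons_of_mem _ hu)
        simp only [x1, (hn p1 (by simp)).1, if_false, x2, f1 u hu])
      (fun p hp u hu ne => by
        obtain ⟨x1, x2⟩ := hn p hp
        by_cases uv : u = v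
        · subst uv
          rw [ex_pe_symm, ex_pe_left vn, hH.1, x2]
          simp
        · have := f2 p hp u (Finset.mem_erase.2 ⟨uv, hu⟩) ne
          simp only [lc, ne.symm, if_false, hH.1 p v, x2] at this
          simp only [uv, if_false]
          rw [← Bool.xor_assoc, ← this]
          cases H p u <;> cases (H v p1 && H v u) <;> rfl)
    have vS : v ∈ S \ {p1, p2, p4, p5} := by
      simp only [List.mem_cons, List.not_mem_nil, or_false, not_or] at vn
      simp only [Finset.mem_sdiff, Finset.mem_insert, Finset.mem_singleton, not_or]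
      exact ⟨k.1, vn.2.1, vn.2.2.1, vn.2.2.2.2.1, vn.2.2.2.2.2.1⟩
    have hv : ∀ u ∈ S \ {p1, p2, p4, p5}, H' v u = H v u := by
      intro u hu
      by_cases uv : v = u
      · rw [← uv, (l.sy hH).2, hH.2]
      · rw [e v vS u hu uv, ex_ed_left (nv a (by simp)).symm (nv p3 (by simp)).symm,
          ex_ed_left (nv p3 (by simp)).symm (nv b (by simp)).symm]
        simp
    refine ⟨H', l, ⟨vS, ?_⟩, hv⟩
    have es : (S \ {p1, p2, p4, p5}).erase v = S.erase v \ {p1, p2, p4, p5} := by
      ext u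
      simp only [Finset.mem_erase, Finset.mem_sdiff]
      tauto
    rw [es]
    refine wd_short k.2 e1 e2 fun u hu w hw ne => ?_
    rw [← es] at hu hw
    have hu' := Finset.mem_of_mem_erase hu
    have hw' := Finset.mem_of_mem_erase hw
    simp only [lc, ne, if_false]
    rw [e u hu' w hw' ne, (l.sy hH).1 u v, hv u hu', hv w hw', hH.1 u v]
    cases H u w <;> cases (H v u && H v w) <;> cases ed a p3 u w <;> cases ed p3 b u w <;> rfl
  adj := wd_adj

end Pool.Agent.Lib.MP_d7353d_co.U
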