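import Pool.Agent.Lib.MP_d7353d_co.U1

/-! Five equal letters can be replaced by one: the local computation. -/

namespace Pool.Agent.Lib.MP_d7353d_co.U

open T

variable {V : Type} [DecidableEq V]

theorem x5_core {G : Gr V} (hG : Sy G) {u w p1 p2 p4 p5 : V} (nd : [u, w, p1, p2, p4, p5].Nodup)
    (e : Bool) (h12 : G p1 p2 = !e) (h14 : G p1 p4 = e) (h15 : G p1 p5 = e) (h24 : G p2 p4 = e)
    (h25 : G p2 p5 = e) (h45 : G p4 p5 = !e) (hu : G p4 u = G p2 u) (hw : G p4 w = G p2 w) :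
    (if e = true then lc (lc (lc (lc (lc G p2) p4) p2) p1) p5 else lc (lc (lc (lc G p2) p4) p1) p5)
      u w = (G u w ^^ ((G p1 u ^^ G p5 u) && G p2 w) ^^ ((G p1 w ^^ G p5 w) && G p2 u) ^^
        (G p1 u && G p1 w) ^^ (G p5 u && G p5 w)) := by
  simp only [List.nodup_cons, List.mem_cons, List.not_mem_nil, or_false, not_or] at nd
  obtain ⟨⟨n1, n2, n3, n4, n5⟩, ⟨n6, n7, n8, n9⟩, ⟨n10, n11, n12⟩, ⟨n13, n14⟩, n15, -⟩ := nd
  have d := hG.2
  have k21 := (hG.1 p2 p1).trans h12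
  have k41 := (hG.1 p4 p1).trans h14
  have k51 := (hG.1 p5 p1).trans h15
  have k42 := (hG.1 p4 p2).trans h24
  have k52 := (hG.1 p5 p2).trans h25
  have k54 := (hG.1 p5 p4).trans h45
  have u1 := hG.1 u p1
  have u2 := hG.1 u p2
  have u4 := (hG.1 u p4).trans hu
  have u5 := hG.1 u p5
  cases e <;>
  · simp only [lc, n1, n2, n3, n4, n5, n6, n7, n8, n9, n10, n11, n12, n13, n14, n15, Ne.symm n2,
      Ne.symm n3, Ne.symm n4, Ne.symm n5, Ne.symm n6, Ne.symm n7, Ne.symm n8, Ne.symm n9,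
      Ne.symm n10, Ne.symm n11, Ne.symm n12, Ne.symm n13, Ne.symm n14, Ne.symm n15, if_false,
      if_true, d, h12, h14, h15, h24, h25, h45, k21, k41, k51, k42, k52, k54, u1, u2, u4, u5, hu,
      hw, Bool.false_eq_true]
    generalize G u w = x0
    generalize G p1 u = x1
    generalize G p2 u = x2
    generalize G p5 u = x3
    generalize G p1 w = x4
    generalize G p2 w = x5
    generalize G p5 w = x6
    revert x0 x1 x2 x3 x4 x5 x6
    decide

theorem x5 (V : Type) [DecidableEq V] : StX5 V := by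
  intro G S a p1 p2 p3 p4 p5 b φ hG nd ha hb hS hφ hr
  have nd' := nd
  simp only [List.nodup_cons, List.mem_cons, List.not_mem_nil, or_false, not_or] at nd' ha hb
  obtain ⟨⟨n12, n13, n14, n15⟩, ⟨n23, n24, n25⟩, ⟨n34, n35⟩, n45, -⟩ := nd'
  obtain ⟨a1, a2, a3, a4, a5⟩ := ha
  obtain ⟨b1, b2, b3, b4, b5⟩ := hb
  have f2 := hφ p2 (by simp)
  have f3 := hφ p3 (by simp)
  have f4 := hφ p4 (by simp)
  have f5 := hφ p5 (by simp)
  have r1 : ∀ u ∈ S, u ≠ p1 → G p1 u = (decide (u = a) ^^ decide (u = p2) ^^ φ u) := by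
    intro u hu ne
    rw [hr p1 (by simp) u hu ne]
    simp [pe, ed, n12, n13, n14, n15, Ne.symm a1, Ne.symm b1]
  have r2 : ∀ u ∈ S, u ≠ p2 → G p2 u = (decide (u = p1) ^^ decide (u = p3) ^^ φ u) := by
    intro u hu ne
    rw [hr p2 (by simp) u hu ne]
    simp [pe, ed, Ne.symm n12, n23, n24, n25, Ne.symm a2, Ne.symm b2]
  have r4 : ∀ u ∈ S, u ≠ p4 → G p4 u = (decide (u = p3) ^^ decide (u = p5) ^^ φ u) := by
    intro u hu ne
    rw [hr p4 (by simp) u hu ne]
    simp [pe, ed, Ne.symm n14, Ne.symm n24, Ne.symm n34, n45, Ne.symm a4, Ne.symm b4]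
  have r5 : ∀ u ∈ S, u ≠ p5 → G p5 u = (decide (u = p4) ^^ decide (u = b) ^^ φ u) := by
    intro u hu ne
    rw [hr p5 (by simp) u hu ne]
    simp [pe, ed, Ne.symm n15, Ne.symm n25, Ne.symm n35, Ne.symm n45, Ne.symm a5, Ne.symm b5]
  have s2 := hS p2 (by simp)
  have s4 := hS p4 (by simp)
  have s5 := hS p5 (by simp)
  have m1 : p1 ∈ ({p1, p2, p4, p5} : Finset V) := by simp
  have m2 : p2 ∈ ({p1, p2, p4, p5} : Finset V) := by simp
  have m4 : p4 ∈ ({p1, p2, p4, p5} : Finset V) := by simp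
  have m5 : p5 ∈ ({p1, p2, p4, p5} : Finset V) := by simp
  refine ⟨if φ p1 = true then lc (lc (lc (lc (lc G p2) p4) p2) p1) p5
    else lc (lc (lc (lc G p2) p4) p1) p5, ?_, fun u hu w hw ne => ?_⟩
  · split_ifs
    · exact .step _ m5 (.step _ m1 (.step _ m2 (.step _ m4 (.step _ m2 .refl))))
    · exact .step _ m5 (.step _ m1 (.step _ m4 (.step _ m2 .refl)))
  simp only [Finset.mem_sdiff, Finset.mem_insert, Finset.mem_singleton, not_or] at hu hw
  obtain ⟨su, u1, u2, u4, u5⟩ := hu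
  obtain ⟨sw, w1, w2, w4, w5⟩ := hw
  rw [x5_core hG (by simp [ne, u1, u2, u4, u5, w1, w2, w4, w5, n12, n14, n15, n24, n25, n45]) (φ p1)
    (by simp [r1 p2 s2 (Ne.symm n12), Ne.symm a2, f2])
    (by simp [r1 p4 s4 (Ne.symm n14), Ne.symm a4, Ne.symm n24, f4])
    (by simp [r1 p5 s5 (Ne.symm n15), Ne.symm a5, Ne.symm n25, f5])
    (by simp [r2 p4 s4 (Ne.symm n24), Ne.symm n14, Ne.symm n34, f4])
    (by simp [r2 p5 s5 (Ne.symm n25), Ne.symm n15, Ne.symm n35, f5])
    (by simp [r4 p5 s5 (Ne.symm n45), Ne.symm n35, f5])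
    (by simp [r4 u su u4, r2 u su u2, u1, u5]) (by simp [r4 w sw w4, r2 w sw w2, w1, w5]),
    r1 u su u1, r1 w sw w1, r2 u su u2, r2 w sw w2, r5 u su u5, r5 w sw w5]
  have ca : (decide (u = a) && decide (w = a)) = false := by
    by_cases k : u = a
    · simp [k, show ¬ w = a from fun x => ne (k.trans x.symm)]
    · simp [k]
  have cb : (decide (u = b) && decide (w = b)) = false := by
    by_cases k : u = b
    · simp [k, show ¬ w = b from fun x => ne (k.trans x.symm)]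
    · simp [k]
  simp only [ed, u1, u2, u4, w1, w2, w4, decide_false]
  revert ca cb
  generalize G u w = x0
  generalize decide (u = a) = x1
  generalize decide (u = b) = x2
  generalize decide (u = p3) = x3
  generalize decide (w = a) = x4
  generalize decide (w = b) = x5
  generalize decide (w = p3) = x6
  generalize φ u = x7
  generalize φ w = x8
  revert x0 x1 x2 x3 x4 x5 x6 x7 x8
  decide

end Pool.Agent.Lib.MP_d7353d_co.U
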