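import Pool.Agent.Lib.MP_d7353d_co.TAll
import Pool.Agent.Lib.MP_d7353d_co.UMat
import Pool.Agent.Lib.MP_d7353d_co.UNon
import Pool.Agent.Lib.MP_d7353d_co.UNc
import Pool.Agent.Lib.MP_d7353d_co.UEx
import Pool.Agent.Lib.MP_d7353d_co.UGood
import Pool.Agent.Lib.MP_d7353d_co.UStepR
import Pool.Agent.Lib.MP_d7353d_co.UStepB
import Pool.Agent.Lib.MP_d7353d_co.UStepC
import Pool.Agent.Lib.MP_d7353d_co.USub
import Pool.Agent.Lib.MP_d7353d_co.UDelT
import Pool.Agent.Lib.MP_d7353d_co.UL1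
import Pool.Agent.Lib.MP_d7353d_co.UComp
import Pool.Agent.Lib.MP_d7353d_co.UMain
import Pool.Agent.Lib.MP_d7353d_co.UX5
import Pool.Agent.Lib.MP_d7353d_co.UWd
import Pool.Agent.Lib.MP_d7353d_co.UId
import Pool.Agent.Lib.MP_d7353d_co.UCW
import Pool.Agent.Lib.MP_d7353d_co.UPat
import Pool.Agent.Lib.MP_d7353d_co.UBlk
import Pool.Agent.Lib.MP_d7353d_co.UFull
import Pool.Agent.Lib.MP_d7353d_co.UNonW
import Pool.Agent.Lib.MP_d7353d_co.UDelW
import Pool.Agent.Lib.MP_d7353d_co.UExt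
import Pool.Agent.Lib.MP_d7353d_co.UStepW
import Pool.Agent.Lib.MP_d7353d_co.UCls
import Pool.Agent.Lib.MP_d7353d_co.UStrip
import Pool.Agent.Lib.MP_d7353d_co.ULift
import Pool.Agent.Lib.MP_d7353d_co.UL1W
import Pool.Agent.Lib.MP_d7353d_co.UCert

/-! Assembly. -/

namespace Pool.Agent.Lib.MP_d7353d_co.U

open T

theorem certAll (V : Type) [DecidableEq V] : Cert V :=
  have nc : StNc := ncS mat non
  cert (step_ok V nc cwS (stepR_ok V mat nc (ex V) (good V (ex V)) tabS)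
    (stepB_ok V mat nc (ex V) (red V (ex V))) (stepC_ok V mat nc (ex V)) (stepS_ok V mat (ex V))
    (stepW_ok V mat nc (wd (x5 V)) (extS V)) (stepK_ok V mat nc))

theorem mainAll : StMain := by
  have w : ∀ (V : Type) [DecidableEq V], StWd V := fun V _ => wd (x5 V)
  have fw : ∀ (V : Type) [DecidableEq V], StFamW V := fun V _ => famW V (ex V)
  have nw : ∀ (V : Type) [DecidableEq V], StNonW V := fun V _ =>
    nonW V (w V) (full V) (famN (certAll V) tabS)
  have lw : ∀ (V : Type) [DecidableEq V], StLwLst V := fun V _ =>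
    lwLst V (full V) (blk V) (good V (ex V)) (w V)
  refine main link (fun V _ => ?_) (sound (certAll ℕ) (ex ℕ) (cases ℕ (ex ℕ)) tabS (fw ℕ)
    (lstNon (certAll ℕ) (ex ℕ) (cases ℕ (ex ℕ)) tabS (fw ℕ) (nw ℕ)) (delT (ex ℕ) (sub ℕ))
    (delW ℕ (w ℕ)))
  have c0 : Cls0 V := cls V (certAll V).w
  exact complete (certAll V) obstruct mat non (ex V)
    (l1 (certAll V) (ex V) (cases V (ex V)) tabS (fw V)
      (l1W V (w V) (blk V) c0 (lift V (w V) c0 (strip V mat (w V) (certAll V).x))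
        (patS (w V) (idS V)) (lw V)))
    (cS (certAll V) (ex V) (cases V (ex V)) tabS (fw V) (cW (w V) (idS V) (nw V)) (lw V) (nw V))

end Pool.Agent.Lib.MP_d7353d_co.U
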