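import Pool.Agent.Lib.MP_d7353d_co.U1

/-! Listed graphs are not circle graphs; closure under one local complementation. -/

namespace Pool.Agent.Lib.MP_d7353d_co.U

open T

variable {V : Type} [DecidableEq V]

/-- an expansion of base graph number `i`, over the packed matrix -/
theorem exImpl (ex : StEx V) (tab : StTab) {i : ℕ} (hi : i < 223) {G : Gr V} {S : Finset V}
    {σ : ℕ → V} {P : List (Ch V)} (h : EX G S σ (baseG i).n (baseG i).adj P) :
    EX G S σ (bN i) (bit (bM i)) P := by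
  obtain ⟨-, e, k⟩ := tab.impl i hi
  rw [e] at h
  exact ex.cgA (fun a ha b hb ne => (k a ha b hb ne).1) h

theorem exN (ex : StEx V) {n M : ℕ} (ok : Ok V (.N n M)) {G : Gr V} {S : Finset V} {σ : ℕ → V}
    {P : List (Ch V)} (hG : Sy G) (h : EX G S σ n (bit M) P) : ¬ Circ G S := by
  obtain ⟨G', l, p⟩ := ex.col hG h
  refine non_up hG l (fun u hu => (h.cov u).2 (Or.inr (List.mem_toFinset.1 hu)))
    (fun u hu => (h.cov u).2 (Or.inl (mem_im.1 hu))) (ok G' σ (l.sy hG) p)

/-- expansions of base graphs are not circle graphs -/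
theorem exNon (cert : Cert V) (ex : StEx V) (tab : StTab) (famW : StFamW V) (nonW : StNonW V)
    {B : MG} {J : List (ℕ × ℕ)} (hB : Base B J) {G : Gr V} {S : Finset V} {σ : ℕ → V}
    {P : List (Ch V)} (hG : Sy G) (h : EX G S σ B.n B.adj P) (hJ : ends P = J) : ¬ Circ G S := by
  rcases hB with ⟨x, hx, rfl, -⟩ | ⟨t, m, hm, rfl, rfl⟩
  · obtain ⟨i, hi, e, -⟩ := tab.tab x hx
    rw [← e] at h
    refine exN ex (cert.t i hi _ ?_) hG (exImpl ex tab (by omega) h)
    simp [rootT, frc_eq]
  · obtain ⟨y, r, lam, h', z, w1, w2, -⟩ := famW t m G S σ P hG hm h hJ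
    exact nonW G S hG ⟨t, y, r, lam, h', z, w1, w2⟩

theorem lstNon (cert : Cert V) (ex : StEx V) (cases : StCases V) (tab : StTab) (famW : StFamW V)
    (nonW : StNonW V) : StLstNon V := by
  intro G S hG h
  obtain ⟨B, J, σ, P, hB, hE, hJ⟩ := cases G S hG h
  exact exNon cert ex tab famW nonW hB hG hE hJ

theorem cS (cert : Cert V) (ex : StEx V) (cases : StCases V) (tab : StTab) (famW : StFamW V)
    (cW : StCW V) (lwLst : StLwLst V) (nonW : StNonW V) : StC V := by
  intro G S w hG hw hL hM hC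
  obtain ⟨B, J, σ, P, hB, hE, hJ⟩ := cases G S hG hL
  have key : ∀ s ∈ chv P, s ≠ w ∧ G w s = true := by
    intro s hs
    have sS : s ∈ S := (hE.cov s).2 (Or.inr hs)
    obtain ⟨⟨a, c, b⟩, ht, hc⟩ := List.mem_flatMap.1 hs
    obtain ⟨P1, P2, rfl⟩ := List.append_of_mem ht
    obtain ⟨c1, c2, rfl⟩ := List.append_of_mem hc
    have non := exNon cert ex tab famW nonW hB (hG.lc s) (ex.sup hG hE)
      (by simpa [ends] using hJ)
    have ne : s ≠ w := fun e => non (by subst e; exact hM.2 s sS)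
    refine ⟨ne, ?_⟩
    by_contra k
    have k' : G w s = false := by simpa using k
    have c := hC s sS
    rw [lc_comm hG k'] at c
    have c2 := c.lc ((hG.lc s).lc w) (Finset.mem_erase.2 ⟨ne.symm, hw⟩)
    rw [lc_lc (hG.lc s)] at c2
    exact non c2
  obtain ⟨k, hk, rfl⟩ : ∃ k < B.n, σ k = w :=
    ((hE.cov w).1 hw).resolve_right fun m => (key w m).1 rfl
  have adj : ∀ s ∈ chv P, G (σ k) s = true := fun s hs => (key s hs).2
  rcases hB with ⟨x, hx, rfl, rfl⟩ | ⟨t, m, hm, rfl, rfl⟩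
  · obtain ⟨i, hi, e, e'⟩ := tab.tab x hx
    rw [← e] at hE hk
    have hk' : k < bN i := by rw [← (tab.impl i (by omega)).2.1]; exact hk
    have ok : Ok V (.C (bN i) (bM i) k (baseJ i)) := by
      refine cert.t i hi _ ?_
      simp only [rootT, frc_eq, List.mem_cons, List.mem_map, List.mem_range]
      exact Or.inr (Or.inr (Or.inr ⟨k, hk', rfl⟩))
    exact ok G S σ P hG (exImpl ex tab (by omega) hE) (hJ.trans e'.symm) hk' adj hM hC
  · by_cases h11 : m ≤ 11
    · obtain ⟨i, hi, e, e'⟩ := tab.fam t m hm h11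
      rw [← e] at hE hk
      have hk' : k < bN (196 + i) := by rw [← (tab.impl (196 + i) (by omega)).2.1]; exact hk
      have ok : Ok V (.C (bN (196 + i)) (bM (196 + i)) k (baseJ (196 + i))) := by
        refine cert.f i hi _ ?_
        simp only [rootF, frc_eq, List.mem_cons, List.mem_map, List.mem_range]
        exact Or.inr ⟨k, hk', rfl⟩
      exact ok G S σ P hG (exImpl ex tab (by omega) hE) (hJ.trans e'.symm) hk' adj hM hC
    · obtain ⟨y, r, lam, h', z, w1, w2, w3⟩ := famW t m G S σ P hG hm hE hJ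
      exact lwLst _ S (hG.lc _) (cW t G S y r lam h' z _ hG w1 w2 (by omega) hw hM hC)

end Pool.Agent.Lib.MP_d7353d_co.U
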