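import Pool.Agent.Lib.MP_d7353d_co.U1

/-! Words for a path with one or two hubs. -/

namespace Pool.Agent.Lib.MP_d7353d_co.U

open T

set_option linter.unusedSimpArgs false

variable {V : Type} [DecidableEq V]

theorem dw_add0 {G : Gr V} (hG : Sy G) {T : Finset V} {B C : List V} {s : V} (hs : s ∉ T)
    (h : Rep G T (B ++ C)) (e : ∀ w ∈ T, G s w = par B w) : Rep G (insert s T) (s :: B ++ s :: C) := by
  have hB : s ∉ B := fun m => hs (h.1.mem.1 (by simp [m]))
  have hC : s ∉ C := fun m => hs (h.1.mem.1 (by simp [m]))
  refine ⟨fun v => ?_, fun u hu v hv huv => ?_⟩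
  · have c := h.1 v
    by_cases hv : v = s
    · subst hv
      simp [List.count_eq_zero_of_not_mem hB, List.count_eq_zero_of_not_mem hC]
    · have hv' : ¬ s = v := fun x => hv x.symm
      simp only [List.count_append] at c
      simp only [List.cons_append, List.count_cons, List.count_append, Finset.mem_insert, hv,
        false_or, beq_iff_eq, hv', if_false, add_zero]
      exact c
  · rcases Finset.mem_insert.1 hu with rfl | hu1
    · have hv' : v ∈ T := (Finset.mem_insert.1 hv).resolve_left fun x => huv x.symm
      rw [e v hv']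
      simp only [List.cons_append, inv, inv_append, par_append, par, inv_left hB, inv_left hC,
        par_of_not_mem hB, huv, decide_true, decide_false]
      cases par B v <;> cases par C v <;> rfl
    · rcases Finset.mem_insert.1 hv with rfl | hv1
      · have hu' : ¬ v = u := fun x => hs (x ▸ hu1)
        rw [hG.1, e u hu1]
        simp only [List.cons_append, inv, inv_append, par_append, par, inv_right hB, inv_right hC,
          par_of_not_mem hB, par_of_not_mem hC, hu', decide_true, decide_false]
        cases par B u <;> rfl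
      · have hu' : ¬ s = u := fun x => hs (x ▸ hu1)
        have hv' : ¬ s = v := fun x => hs (x ▸ hv1)
        rw [h.2 u hu1 v hv1 huv]
        simp only [List.cons_append, inv, inv_append, par_append, par, hu', hv', decide_false]
        simp

theorem dw_add {G : Gr V} (hG : Sy G) {T : Finset V} {X M Y : List V} {s : V} (hs : s ∉ T)
    (h : Rep G T (X ++ (M ++ Y))) (e : ∀ w ∈ T, G s w = par M w) :
    Rep G (insert s T) (X ++ (s :: M ++ s :: Y)) := by
  have := dw_add0 hG hs (B := M) (C := Y ++ X) (by simpa using h.rot) e
  exact Rep.rot (by simpa using this)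

/-- there is a word ending with `B` -/
def Op (G : Gr V) (S : Finset V) (B : List V) : Prop := ∃ X, Rep G S (X ++ B)

theorem Op.circ {G : Gr V} {S : Finset V} {B : List V} (h : Op G S B) : Circ G S :=
  h.elim fun _ k => ⟨_, k⟩

theorem Op.rev {G : Gr V} {S : Finset V} {B : List V} (h : Op G S B) : Op G S B.reverse :=
  h.elim fun X k => ⟨X.reverse, Rep.rot (by simpa using k.rev)⟩

theorem Op.tail {G : Gr V} {S : Finset V} {B : List V} {p : V} (h : Op G S (p :: B)) : Op G S B :=
  h.elim fun X k => ⟨X ++ [p], by simpa using k⟩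

theorem Op.mem {G : Gr V} {S : Finset V} {B : List V} (h : Op G S B) {u : V} (hu : u ∈ B) : u ∈ S :=
  h.elim fun _ k => k.1.mem.1 (by simp [hu])

/-- a new letter around an initial part of the end -/
theorem Op.cap {G : Gr V} (hG : Sy G) {S : Finset V} {M B : List V} {s : V} (h : Op G S (M ++ B))
    (hs : s ∉ S) (e : ∀ w ∈ S, G s w = par M w) : Op G (insert s S) (s :: M ++ s :: B) :=
  h.elim fun X k => ⟨X, dw_add hG hs k e⟩

theorem Op.suf {G : Gr V} {S : Finset V} {M B : List V} (h : Op G S (M ++ B)) : Op G S B :=
  h.elim fun X k => ⟨X ++ M, by simpa using k⟩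

/-- a new letter around everything else -/
theorem Op.wrap {G : Gr V} (hG : Sy G) {S : Finset V} {B : List V} {s : V} (h : Op G S B)
    (hs : s ∉ S) (e : ∀ w ∈ S, G s w = par B w) : Op G (insert s S) B := by
  obtain ⟨X, k⟩ := h
  refine ⟨s :: X ++ [s], ?_⟩
  have := dw_add0 hG hs k fun w hw => by
    have := k.1.par w
    rw [par_append] at this
    rw [e w hw]
    revert this
    cases par X w <;> cases par B w <;> simp
  simpa using this

/-- a new letter around the whole end -/
theorem Op.flip {G : Gr V} (hG : Sy G) {S : Finset V} {M B : List V} {s : V} (h : Op G S (M ++ B))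
    (hs : s ∉ S) (e : ∀ w ∈ S, G s w = (par M w ^^ par B w)) : Op G (insert s S) (s :: B.reverse) := by
  obtain ⟨X, k⟩ := h
  have := dw_add hG hs (M := M ++ B) (Y := []) (by simpa using k) fun w hw => by
    rw [e w hw, par_append]
  refine ⟨M.reverse ++ s :: X.reverse, Rep.rot ?_⟩
  simpa using this.rev

def lst : V → List V → V
  | p, [] => p
  | _, q :: r => lst q r

def odd (f : V → Bool) : List V → Bool
  | [] => false
  | a :: l => f a ^^ odd f l

omit [DecidableEq V] in
theorem odd_append (f : V → Bool) (A B : List V) : odd f (A ++ B) = (odd f A ^^ odd f B) := by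
  induction A with
  | nil => simp [odd]
  | cons a A ih => simp [odd, ih]

omit [DecidableEq V] in
theorem odd_eq (f : V → Bool) (A : List V) : odd f A = decide (A.countP f % 2 = 1) := by
  induction A with
  | nil => simp [odd]
  | cons a A ih =>
    rw [odd, ih, List.countP_cons]
    cases f a
    · simp
    · rcases Nat.mod_two_eq_zero_or_one (A.countP f) with e | e <;> simp [e, Nat.add_mod]

omit [DecidableEq V] in
theorem lst_mem (r : List V) : ∀ p, lst p r ∈ p :: r := by
  induction r with
  | nil => simp [lst]
  | cons q r ih => exact fun p => List.mem_cons_of_mem _ (ih q)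

theorem dw_ed_comm (a b u w : V) : ed a b u w = ed a b w u := by
  unfold ed
  cases decide (u = a) <;> cases decide (w = b) <;> cases decide (u = b) <;> cases decide (w = a) <;> rfl

theorem dw_pe_comm (l : List V) (u w : V) : pe l u w = pe l w u := by
  induction l with
  | nil => rfl
  | cons a l ih => cases l with
    | nil => rfl
    | cons b l => simp only [pe, ih, dw_ed_comm a b u w]

theorem dw_pe_left {l : List V} {u : V} (h : u ∉ l) (w : V) : pe l u w = false := by
  induction l with
  | nil => rfl
  | cons a l ih => cases l with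
    | nil => rfl
    | cons b l =>
      simp only [List.mem_cons, not_or] at h ih
      simp [pe, ih h.2, ed, h.1, h.2.1]

theorem dw_pe_right {l : List V} {w : V} (h : w ∉ l) (u : V) : pe l u w = false := by
  rw [dw_pe_comm, dw_pe_left h]

theorem dw_pe_cons (l : List V) {a u w : V} (hu : u ≠ a) (hw : w ≠ a) : pe (a :: l) u w = pe l u w := by
  cases l with
  | nil => rfl
  | cons b l => simp [pe, ed, hu, hw]

theorem dw_pe_split (l1 l2 : List V) (p u w : V) :
    pe (l1 ++ p :: l2) u w = (pe (l1 ++ [p]) u w ^^ pe (p :: l2) u w) := by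
  induction l1 with
  | nil => simp [pe]
  | cons a l ih => cases l with
    | nil => simp [pe]
    | cons b l =>
      simp only [List.cons_append, pe] at ih ⊢
      rw [ih, Bool.xor_assoc]

theorem dw_pe_snoc (r : List V) (e u w : V) : ∀ p,
    pe (p :: r ++ [e]) u w = (pe (p :: r) u w ^^ ed (lst p r) e u w) := by
  induction r with
  | nil => intro p; simp [pe, lst]
  | cons q r ih =>
    intro p
    have := ih q
    simp only [List.cons_append, pe, lst] at this ⊢
    rw [this, Bool.xor_assoc]

theorem dw_pe_concat (l : List V) {e u w : V} (hu : u ≠ e) (hw : w ≠ e) :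
    pe (l ++ [e]) u w = pe l u w := by
  cases l with
  | nil => rfl
  | cons p r => rw [dw_pe_snoc]; simp [ed, hu, hw]

/-- growing a path along a block of letters -/
theorem Op.grow {G : Gr V} (hG : Sy G) {Bk : Bool → List V} (hB : ∀ b, (Bk b).reverse = Bk (!b))
    {pb : V → Bool} (hp : ∀ b u, par (Bk b) u = pb u) {f : V → Bool} (r : List V) :
    ∀ {S : Finset V} {p : V} {b : Bool}, Op G S (p :: Bk b) → r.Nodup → (∀ q ∈ r, q ∉ S) →
      (∀ q ∈ r, ∀ u, u ∈ S ∨ u ∈ r → u ≠ q → G q u = (pe (p :: r) q u ^^ (f q && pb u))) →
      Op G (r.toFinset ∪ S) (lst p r :: Bk (b ^^ odd f r)) := by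
  induction r with
  | nil => intro S p b h _ _ _; simpa [lst, odd] using h
  | cons q r ih =>
    intro S p b h nd hS e
    have hq := hS q (by simp)
    have hpS : p ∈ S := h.mem (by simp)
    have pq : q ≠ p := fun x => hq (x ▸ hpS)
    rw [List.nodup_cons] at nd
    have e1 : ∀ w ∈ S, G q w = (par [p] w ^^ (f q && pb w)) := fun w hw => by
      have wq : w ≠ q := fun x => hq (x ▸ hw)
      have : w ∉ q :: r := fun m => hS w m hw
      rw [e q (by simp) w (Or.inl hw) wq]
      simp only [pe, dw_pe_right this]
      by_cases x : w = p <;> simp [ed, par, pq, wq, x, Ne.symm]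
    have k : Op G (insert q S) (q :: Bk (b ^^ f q)) := by
      cases hf : f q
      · have := Op.cap hG (M := [p]) h hq fun w hw => by rw [e1 w hw, hf]; simp
        simpa using Op.suf (M := [q, p]) this
      · have := Op.flip hG (M := [p]) h hq fun w hw => by rw [e1 w hw, hf, hp]; simp
        rw [hB] at this
        simpa using this
    have := ih k nd.2 (fun x hx m => by
      rcases Finset.mem_insert.1 m with rfl | m
      · exact nd.1 hx
      · exact hS x (by simp [hx]) m) fun x hx u hu ne => by
      have x1 : x ≠ p := fun m => hS x (by simp [hx]) (m ▸ hpS)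
      have x2 : x ≠ q := fun m => nd.1 (m ▸ hx)
      rw [e x (by simp [hx]) u (by simp at hu ⊢; tauto) ne, pe]
      simp [ed, x1, x2]
    rw [show (q :: r).toFinset ∪ S = r.toFinset ∪ insert q S by ext; simp]
    simpa [lst, odd, Bool.xor_assoc] using this

/-- the first vertex of a path -/
theorem Op.start {G : Gr V} (hG : Sy G) {Bk : Bool → List V} (hB : ∀ b, (Bk b).reverse = Bk (!b))
    {pb : V → Bool} (hp : ∀ b u, par (Bk b) u = pb u) {S : Finset V} {b : Bool} (h : Op G S (Bk b))
    {q : V} {l : Bool} (hq : q ∉ S) (e : ∀ w ∈ S, G q w = (l && pb w)) (c : Bool) :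
    Op G (insert q S) (q :: Bk c) := by
  have h' : ∀ c, Op G S (Bk c) := fun c => by
    by_cases x : c = b
    · exact x ▸ h
    · have := h.rev
      rw [hB] at this
      rwa [show c = !b by cases c <;> cases b <;> simp_all]
  cases l
  · have := Op.cap hG (M := []) (h' c) hq fun w hw => by rw [e w hw]; rfl
    exact Op.suf (M := [q]) this
  · have := Op.flip hG (M := []) (h' (!c)) hq fun w hw => by rw [e w hw, hp]; simp [par]
    rw [hB] at this
    simpa using this

theorem op_one (G : Gr V) (h : V) : Op G {h} [h] :=
  ⟨[h], fun v => by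
    by_cases e : v = h
    · simp [e]
    · simp [e, List.count_eq_zero],
    fun u hu v hv n => absurd ((Finset.mem_singleton.1 hu).trans (Finset.mem_singleton.1 hv).symm) n⟩

/-- a path with a hub -/
theorem Op.path {G : Gr V} (hG : Sy G) {S : Finset V} {h : V} (k : Op G S [h]) {P : List V}
    (nd : P.Nodup) (hS : ∀ q ∈ P, q ∉ S) (e : ∀ a ∈ P, ∀ b ∈ P, a ≠ b → G a b = pe P a b)
    (e' : ∀ a ∈ P, ∀ u ∈ S, u ≠ h → G a u = false) : Circ G (P.toFinset ∪ S) := by
  cases P with
  | nil => simpa using k.circ
  | cons p r =>
    have hh : h ∈ S := k.mem (by simp)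
    have e1 : ∀ a ∈ p :: r, ∀ u ∈ S, G a u = (G a h && decide (h = u)) := fun a ha u hu => by
      by_cases x : h = u
      · simp [x]
      · simp [x, e' a ha u hu fun y => x y.symm]
    have hp : ∀ (b : Bool) u, par ((fun _ => [h]) b) u = decide (h = u) := fun _ _ => by simp [par]
    have k1 := Op.start hG (Bk := fun _ => [h]) (fun _ => rfl) hp (b := true) k (hS p (by simp))
      (e1 p (by simp)) true
    rw [List.nodup_cons] at nd
    have := Op.grow hG (Bk := fun _ => [h]) (fun _ => rfl) hp (f := fun a => G a h) r (b := true) k1 nd.2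
      (fun q hq m => by
        rcases Finset.mem_insert.1 m with rfl | m
        · exact nd.1 hq
        · exact hS q (by simp [hq]) m) fun q hq u hu ne => by
      by_cases m : u ∈ p :: r
      · have : ¬ h = u := fun x => hS u m (x ▸ hh)
        rw [e q (by simp [hq]) u m ne.symm]; simp [this]
      · rw [dw_pe_right m, e1 q (by simp [hq]) u (by simp at hu m; tauto)]; simp
    rw [show (p :: r).toFinset ∪ S = r.toFinset ∪ insert p S by ext; simp]
    exact this.circ

end Pool.Agent.Lib.MP_d7353d_co.U
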