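import Pool.Agent.Lib.MP_d7353d_co.UL1W

/-! Job P1: the patterns survive when one letter is replaced by five. -/

namespace Pool.Agent.Lib.MP_d7353d_co.U

open T

variable {V : Type} [DecidableEq V]

theorem ext_pe_cons {a u w : V} (hu : u ≠ a) (hw : w ≠ a) (l : List V) :
    pe (a :: l) u w = pe l u w := by
  cases l with
  | nil => rfl
  | cons b l => simp [pe, ed, hu, hw]

theorem ext_pe_cut {a u w : V} (hu : u ≠ a) (hw : w ≠ a) (l1 l2 : List V) :
    pe (l1 ++ a :: l2) u w = (pe l1 u w ^^ pe l2 u w) := by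
  induction l1 with
  | nil => simp [ext_pe_cons hu hw, pe]
  | cons b l1 ih =>
    cases l1 with
    | nil =>
      have := ext_pe_cons hu hw l2
      simp [pe, ed, hu, hw, this]
    | cons c l1 =>
      simp only [List.cons_append, pe] at ih ⊢
      rw [ih, Bool.xor_assoc]

theorem ext_cy {y p1 p2 p3 p4 p5 u w : V} {r1 r2 : List V} (hu : u ∉ [p1, p2, p3, p4, p5])
    (hw : w ∉ [p1, p2, p3, p4, p5]) :
    cy y (r1 ++ [p1, p2, p3, p4, p5] ++ r2) u w = cy y (r1 ++ p3 :: r2) u w := by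
  simp only [List.mem_cons, List.not_mem_nil, or_false, not_or] at hu hw
  obtain ⟨u1, u2, u3, u4, u5⟩ := hu
  obtain ⟨w1, w2, w3, w4, w5⟩ := hw
  have e1 : y :: (r1 ++ [p1, p2, p3, p4, p5] ++ r2) ++ [y] =
      (y :: r1) ++ p1 :: p2 :: p3 :: p4 :: p5 :: (r2 ++ [y]) := by simp
  have e2 : y :: (r1 ++ p3 :: r2) ++ [y] = (y :: r1) ++ p3 :: (r2 ++ [y]) := by simp
  unfold cy
  rw [e1, e2, ext_pe_cut u1 w1, ext_pe_cut u3 w3, ext_pe_cons u2 w2, ext_pe_cons u3 w3,
    ext_pe_cons u4 w4, ext_pe_cons u5 w5]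

omit [DecidableEq V] in
theorem ext_cnt {l k : List V} (nd : l.Nodup) {f : V → Bool} (h : ∀ u ∈ l, f u = true → u ∈ k) :
    l.countP f ≤ k.length := by
  rw [List.countP_eq_length_filter]
  exact (List.subperm_of_subset (nd.filter _) fun u hu =>
    h u (List.mem_filter.mp hu).1 (List.mem_filter.mp hu).2).length_le

theorem ext_la {t : ℕ} {lam : V → Bool} {h z u : V} (k : u ∉ ext t h z) : la t lam h z u = lam u := by
  unfold la
  unfold ext at k
  by_cases t2 : t = 2
  · subst t2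
    have : u ≠ h := by simpa using k
    simp [this]
  by_cases t4 : t = 4
  · subst t4
    have : u ≠ z := fun e => k (by simp [e])
    simp [this]
  simp [t2, t4]

theorem ext_al {t : ℕ} {h y z u : V} (k : u ∉ ext t h z) (k2 : u ≠ y) : al t h y u = false := by
  unfold al
  unfold ext at k
  by_cases t1 : t = 1
  · subst t1
    simp
  have : u ≠ h := fun e => k (by rw [if_neg t1]; split_ifs <;> simp [e])
  simp [this, k2]

theorem extS (V : Type) [DecidableEq V] : StExt V := by
  intro t H H' S v y r1 p1 p2 p3 p4 p5 r2 lam h z c _ eq hH c3 c2 pt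
  have nd := c.2.nd
  have nd1 : (y :: (r1 ++ [p1, p2, p3, p4, p5] ++ r2)).Nodup := (List.nodup_append.mp nd).2.1
  have hr : ∀ u ∈ r1 ++ [p1, p2, p3, p4, p5] ++ r2, u ∉ ext t h z ∧ u ≠ y ∧ u ≠ v := by
    intro u hu
    refine ⟨fun k => (List.nodup_append.mp nd).2.2 u k u (List.mem_cons_of_mem _ hu) rfl,
      fun e => (List.nodup_cons.mp nd1).1 (e ▸ hu), fun e => l1W_v c ?_⟩
    rw [← e]
    exact List.mem_append_left _ (List.mem_cons_of_mem _ hu)
  have pm : (y :: (r1 ++ [p1, p2, p3, p4, p5] ++ r2)).Perm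
      ([p1, p2, p4, p5] ++ y :: (r1 ++ p3 :: r2)) := by
    rw [List.perm_iff_count]
    intro a
    simp only [List.count_cons, List.count_append, List.count_nil]
    omega
  have nd2 := List.nodup_append.mp (pm.nodup_iff.mp nd1)
  have nd3 : (r1 ++ p3 :: r2).Nodup := (List.nodup_cons.mp nd2.2.1).2
  have sub : ∀ u ∈ r1 ++ p3 :: r2, u ∈ r1 ++ [p1, p2, p3, p4, p5] ++ r2 := by
    intro u hu
    simp only [List.mem_append, List.mem_cons] at hu ⊢
    tauto
  have subp : ∀ u ∈ [p1, p2, p4, p5], u ∈ r1 ++ [p1, p2, p3, p4, p5] ++ r2 := by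
    intro u hu
    simp only [List.mem_append, List.mem_cons] at hu ⊢
    tauto
  have dj : ∀ u ∈ y :: (r1 ++ p3 :: r2), u ∉ [p1, p2, p4, p5] := fun u hu k => nd2.2.2 u k u hu rfl
  have mS : ∀ u ∈ S, u ∉ [p1, p2, p4, p5] → u ∈ S \ {p1, p2, p4, p5} := by
    intro u hu k
    refine Finset.mem_sdiff.mpr ⟨hu, ?_⟩
    simpa using k
  have mE : ∀ u ∈ S.erase v, u ∉ [p1, p2, p4, p5] → u ∈ (S \ {p1, p2, p4, p5}).erase v :=
    fun u hu k => Finset.mem_erase.mpr ⟨(Finset.mem_erase.mp hu).1, mS u (Finset.mem_of_mem_erase hu) k⟩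
  have mR : ∀ u ∈ r1 ++ p3 :: r2, u ∈ (S \ {p1, p2, p4, p5}).erase v := by
    intro u hu
    refine mE u ((c.2.cov u).mpr ?_) (dj u (List.mem_cons_of_mem _ hu))
    exact List.mem_append_right _ (List.mem_cons_of_mem _ (sub u hu))
  have hE : ∀ u ∈ (S \ {p1, p2, p4, p5}).erase v, H' v u = H v u :=
    fun u hu => hH u (Finset.mem_of_mem_erase hu)
  have m3 : p3 ∈ r1 ++ p3 :: r2 := by simp
  have e3 := eq p3 (by simp)
  have ep : ∀ u ∈ [p1, p2, p4, p5], lam u = lam p3 ∧ H v u = H v p3 := by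
    intro u hu
    rw [e3.1, e3.2]
    simp only [List.mem_cons, List.not_mem_nil, or_false] at hu
    rcases hu with rfl | hu
    · exact ⟨rfl, rfl⟩
    · exact eq u (by simp only [List.mem_cons]; tauto)
  have five : ∀ u ∈ y :: (r1 ++ p3 :: r2), u ≠ p3 → u ∉ [p1, p2, p3, p4, p5] := by
    intro u hu ne k
    have := dj u hu
    simp only [List.mem_cons, List.not_mem_nil, or_false] at k this
    tauto
  have cyl : ∀ {a b : V}, cy y (r1 ++ p3 :: r2) a b = true →
      a ∈ y :: (r1 ++ p3 :: r2) ∧ b ∈ y :: (r1 ++ p3 :: r2) ∧ a ≠ b := by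
    intro a b k
    have e : ∀ u ∈ y :: (r1 ++ p3 :: r2) ++ [y], u ∈ y :: (r1 ++ p3 :: r2) := by
      intro u hu
      rcases List.mem_append.mp hu with hu | hu
      · exact hu
      · rw [List.mem_singleton.mp hu]; exact List.mem_cons_self
    refine ⟨e a ?_, e b ?_, ?_⟩
    · by_contra n; rw [cy, l1W_pe_left _ n] at k; exact Bool.noConfusion k
    · by_contra n; rw [cy, l1W_pe_right _ n] at k; exact Bool.noConfusion k
    · rintro rfl; rw [cy, l1W_pe_self] at k; exact Bool.noConfusion k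
  have one : ∀ q, (∀ u ∈ r1 ++ p3 :: r2, H v u = (lam u ^^ decide (u = q))) → p3 ≠ q := by
    intro q hq e
    have a1 := hq p3 m3
    have : 2 ≤ (r1 ++ p3 :: r2).countP fun u => lam u ^^ H v u := by
      apply c2
      rw [← e3.1, ← e3.2, a1]
      simp [e]
    have b : ((r1 ++ p3 :: r2).countP fun u => lam u ^^ H v u) ≤ [q].length := by
      apply ext_cnt nd3
      intro u hu k
      rw [hq u hu] at k
      revert k
      cases lam u <;> simp
    simp only [List.length_singleton] at b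
    omega
  rcases pt with ⟨β, x, x', k1, k2, k3⟩ | ⟨k1, k2⟩ | ⟨k1, q, k2, k3⟩ | ⟨k1, k2⟩ |
    ⟨k1, p, k2, k3, k4, k5⟩
  · obtain ⟨mx, mx', ne⟩ := cyl k2
    have row : ∀ u ∈ r1 ++ p3 :: r2, H v u = (decide (u = x) ^^ decide (u = x')) := by
      intro u hu
      obtain ⟨a1, a2, _⟩ := hr u (sub u hu)
      rw [← hE u (mR u hu), k3 u (mR u hu), ext_al a1 a2]
      simp
    have n3 : H v p3 = false := by
      by_contra n
      have n' : H v p1 = true := by rw [← e3.2]; simpa using n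
      have a := c3 n'
      have b : (r1 ++ p3 :: r2).countP (H v) ≤ [x, x'].length := by
        apply ext_cnt nd3
        intro u hu k
        rw [row u hu] at k
        by_contra m
        simp only [List.mem_cons, List.not_mem_nil, or_false, not_or] at m
        simp [m.1, m.2] at k
      simp only [List.length_cons, List.length_nil] at b
      omega
    have r3 := row p3 m3
    rw [n3] at r3
    have x3 : x ≠ p3 := by
      rintro rfl
      simp [ne] at r3
    have x3' : x' ≠ p3 := by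
      rintro rfl
      simp [ne.symm] at r3
    refine Or.inl ⟨β, x, x', k1, by rw [ext_cy (five x mx x3) (five x' mx' x3')]; exact k2, ?_⟩
    intro u hu
    by_cases m : u ∈ [p1, p2, p4, p5]
    · obtain ⟨a1, a2, _⟩ := hr u (subp u m)
      have b1 : u ≠ x := fun e => dj x mx (e ▸ m)
      have b2 : u ≠ x' := fun e => dj x' mx' (e ▸ m)
      rw [(ep u m).2, n3, ext_al a1 a2]
      simp [b1, b2]
    · rw [← hE u (mE u hu m), k3 u (mE u hu m)]
  · refine Or.inr (Or.inl ⟨k1, fun u hu => ?_⟩)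
    by_cases m : u ∈ [p1, p2, p4, p5]
    · rw [(ep u m).1, (ep u m).2, ← hE p3 (mR p3 m3), k2 p3 (mR p3 m3)]
    · rw [← hE u (mE u hu m), k2 u (mE u hu m)]
  · have row : ∀ u ∈ r1 ++ p3 :: r2, H v u = (lam u ^^ decide (u = q)) := by
      intro u hu
      rw [← hE u (mR u hu), k3 u (mR u hu), ext_la (hr u (sub u hu)).1]
    have q3 := one q row
    refine Or.inr (Or.inr (Or.inl ⟨k1, q, ?_, fun u hu => ?_⟩))
    · rcases List.mem_cons.mp k2 with e | e
      · rw [e]; exact List.mem_cons_self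
      · exact List.mem_cons_of_mem _ (sub q e)
    by_cases m : u ∈ [p1, p2, p4, p5]
    · have b1 : u ≠ q := fun e => dj q k2 (e ▸ m)
      rw [ext_la (hr u (subp u m)).1, (ep u m).1, (ep u m).2, row p3 m3]
      simp [b1, q3]
    · rw [← hE u (mE u hu m), k3 u (mE u hu m)]
  · refine Or.inr (Or.inr (Or.inr (Or.inl ⟨k1, fun u hu => ?_⟩)))
    by_cases m : u ∈ [p1, p2, p4, p5]
    · obtain ⟨a1, a2, _⟩ := hr u (subp u m)
      obtain ⟨b1, b2, _⟩ := hr p3 (sub p3 m3)
      rw [(ep u m).2, ← hE p3 (mR p3 m3), k2 p3 (mR p3 m3), ext_al a1 a2, ext_al b1 b2]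
    · rw [← hE u (mE u hu m), k2 u (mE u hu m)]
  · obtain ⟨my, mp, _⟩ := cyl k2
    have row : ∀ u ∈ r1 ++ p3 :: r2, H v u = (lam u ^^ decide (u = p)) := by
      intro u hu
      rw [← hE u (mR u hu), k3 u hu]
    have q3 := one p row
    have ex : ∀ u ∈ ext t h z, H' v u = H v u := by
      intro u hu
      refine hE u (mE u ((c.2.cov u).mpr (List.mem_append_left _ hu)) fun m => ?_)
      exact (hr u (subp u m)).1 hu
    have t1 : t ≠ 1 := by omega
    have hy : H' v y = H v y :=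
      hE y (mE y ((c.2.cov y).mpr (List.mem_append_right _ List.mem_cons_self)) (dj y my))
    have hh : H' v h = H v h := ex h (by unfold ext; rw [if_neg t1]; split_ifs <;> simp)
    refine Or.inr (Or.inr (Or.inr (Or.inr ⟨k1, p, ?_, fun u hu => ?_, ?_, fun t4 => ?_⟩)))
    · rw [ext_cy (five y my (hr p3 (sub p3 m3)).2.1.symm) (five p mp q3.symm)]
      exact k2
    · by_cases m : u ∈ [p1, p2, p4, p5]
      · have b1 : u ≠ p := fun e => dj p mp (e ▸ m)
        rw [(ep u m).1, (ep u m).2, row p3 m3]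
        simp [b1, q3]
      · apply row
        simp only [List.mem_append, List.mem_cons, List.not_mem_nil, or_false, not_or] at hu m ⊢
        tauto
    · rw [← hy, ← hh]; exact k4
    · rw [← ex z (by subst t4; simp [ext])]; exact k5 t4

end Pool.Agent.Lib.MP_d7353d_co.U
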