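import Pool.Agent.Lib.MP_d7353d_co.U0

/-! The certificate checker. All functions use the raw operations on natural numbers. -/

namespace Pool.Agent.Lib.MP_d7353d_co.U

open T

noncomputable section

def bit (M : ℕ) : Gr ℕ := fun i j => M.testBit (32 * i + j)

/-- evaluate the number first -/
def frc {α : Type} (n : ℕ) (k : ℕ → α) : α := Nat.rec (k 0) (fun m _ => k (Nat.succ m)) n

def an (a b : Bool) : Bool := Bool.rec false b a

/-- `a` if `n = 0`, else `b` -/
def iz {α : Type} (n : ℕ) (a b : α) : α := Nat.rec a (fun _ _ => b) n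

def ib {α : Type} (c : Bool) (a b : α) : α := Bool.rec b a c

def allN (k : ℕ) (p : ℕ → Bool) : Bool := Nat.rec true (fun i ih => an (p i) ih) k

def p2 (i : ℕ) : ℕ := Nat.shiftLeft 1 i

def lo (n : ℕ) : ℕ := Nat.pred (Nat.shiftLeft 1 n)

def b1 (N i : ℕ) : ℕ := Nat.land (Nat.shiftRight N i) 1

/-- digit number `i` -/
def dg (c i : ℕ) : ℕ := Nat.land (Nat.shiftRight c (Nat.mul 5 i)) 31

def d0 (c : ℕ) : ℕ := Nat.land c 31

def tl (c k : ℕ) : ℕ := Nat.shiftRight c (Nat.mul 5 k)

/-- bits `32 i`, `i < 32` -/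
def CM : ℕ := 0x100000001000000010000000100000001000000010000000100000001000000010000000100000001000000010000000100000001000000010000000100000001000000010000000100000001000000010000000100000001000000010000000100000001000000010000000100000001000000010000000100000001

/-- all bits below 1024 but `33 i` -/
def NDG : ℕ := 0x7fffffffbfffffffdfffffffeffffffff7fffffffbfffffffdfffffffeffffffff7fffffffbfffffffdfffffffeffffffff7fffffffbfffffffdfffffffeffffffff7fffffffbfffffffdfffffffeffffffff7fffffffbfffffffdfffffffeffffffff7fffffffbfffffffdfffffffeffffffff7fffffffbfffffffdfffffffe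

/-- bits `31 i`, `i < 32` -/
def KK : ℕ := 0x2000000040000000800000010000000200000004000000080000001000000020000000400000008000000100000002000000040000000800000010000000200000004000000080000001000000020000000400000008000000100000002000000040000000800000010000000200000004000000080000001

def row (M i : ℕ) : ℕ := Nat.land (Nat.shiftRight M (Nat.mul 32 i)) 4294967295

def col (M j : ℕ) : ℕ := Nat.land (Nat.shiftRight M j) CM

def lcM0 (M y : ℕ) : ℕ := Nat.xor M (Nat.land (Nat.mul (row M y) (col M y)) NDG)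

def lcM (M y : ℕ) : ℕ := lcM0 (Nat.land M NDG) y

def togM (M a b : ℕ) : ℕ :=
  Nat.xor (Nat.xor M (p2 (Nat.add (Nat.mul 32 a) b))) (p2 (Nat.add (Nat.mul 32 b) a))

def clr (M a b : ℕ) : ℕ :=
  Nat.xor M (Nat.land M (Nat.lor (p2 (Nat.add (Nat.mul 32 a) b)) (p2 (Nat.add (Nat.mul 32 b) a))))

def msk (n : ℕ) : ℕ := Nat.mul (lo n) (Nat.land CM (lo (Nat.mul 32 n)))

def addv (M n N : ℕ) : ℕ :=
  Nat.xor (Nat.xor (Nat.land M (msk n)) (Nat.shiftLeft (Nat.land N (lo n)) (Nat.mul 32 n)))
    (Nat.shiftLeft (Nat.land (Nat.mul (Nat.land N (lo n)) KK) CM) n)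

def insM (M n a b : ℕ) : ℕ := addv (togM M a b) n (Nat.xor (p2 a) (p2 b))

/-- marks after an insertion -/
def insJ (J n a b : ℕ) : ℕ := addv (clr J a b) n (Nat.xor (p2 a) (p2 b))

/-- the first `k` digits of `c` are different elements of `A` -/
def tk (k : ℕ) : ℕ → ℕ → (ℕ → Bool) → Bool :=
  Nat.rec (fun A _ f => f A)
    (fun _ ih A c f => iz (b1 A (d0 c)) false (ih (Nat.xor A (p2 (d0 c))) (Nat.shiftRight c 5) f)) k

/-- digits `0..k-1` form a cycle, digit `k` is a hub joined to the positions in `alt` -/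
def emb (M A k alt c : ℕ) : Bool :=
  tk (Nat.succ k) A c fun A' => frc (Nat.xor A A') fun X => frc (p2 (dg c k)) fun hb =>
    allN k fun i => Nat.beq (Nat.land (row M (dg c i)) X)
      (Nat.xor (Nat.xor (p2 (dg c (Nat.mod (Nat.succ i) k)))
        (p2 (dg c (Nat.mod (Nat.add i (Nat.pred k)) k)))) (Nat.mul hb (b1 alt i)))

def fin (A M c : ℕ) : Bool :=
  Nat.rec (emb M A 5 31 (Nat.shiftRight c 5))
    (fun t _ => iz t (emb M A 7 127 (Nat.shiftRight c 5)) (emb M A 6 21 (Nat.shiftRight c 5))) (d0 c)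

def lcs (A k : ℕ) : ℕ → ℕ → Bool :=
  Nat.rec (fin A) (fun _ ih M c => iz (b1 A (d0 c)) false
    (frc (lcM M (d0 c)) fun M' => ih M' (Nat.shiftRight c 5))) k

/-- certificate that the graph `M` on the set `A` is not a circle graph -/
def nc (M A c : ℕ) : Bool := lcs A (d0 c) M (Nat.shiftRight c 5)

/-- not a circle graph after deleting `u` -/
def kl (n M u c : ℕ) : Bool :=
  an (Nat.ble n 32) (an (Nat.blt u n) (frc (Nat.xor (lo n) (p2 u)) fun A => nc M A c))

/-- read a word: `o` letters seen once, `t` letters seen twice, `acc` interlacement so far -/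
def rd (k : ℕ) : ℕ → ℕ → ℕ → ℕ → (ℕ → ℕ → ℕ → Bool) → Bool :=
  Nat.rec (fun _ o t acc f => f o t acc)
    (fun _ ih c o t acc f => iz (b1 t (d0 c))
      (frc (Nat.xor acc (Nat.shiftLeft o (Nat.mul 32 (d0 c)))) fun acc' =>
        frc (Nat.xor o (p2 (d0 c))) fun o' => frc (Nat.lor t (Nat.land o (p2 (d0 c)))) fun t' =>
          ih (Nat.shiftRight c 5) o' t' acc' f) false) k

/-- certificate that the graph `M` on `0..n-1` without `u` is a circle graph -/
def cw (n M u c : ℕ) : Bool :=
  an (Nat.ble n 32) (rd (Nat.mul 2 (Nat.pred n)) c 0 0 0 fun o t acc =>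
    an (Nat.beq o 0) (an (Nat.beq t (Nat.xor (lo n) (p2 u)))
      (allN n fun i => ib (Nat.beq i u) true
        (Nat.beq (Nat.land (Nat.xor (row acc i) (row M i)) (Nat.xor t (p2 i))) 0))))

/-- rename the vertices: `i` becomes digit number `i` of `c` -/
def permM (n c M : ℕ) : ℕ :=
  frc (Nat.rec 0 (fun j ih => Nat.xor ih (Nat.shiftLeft (col M j) (dg c j))) n) fun M' =>
    Nat.rec 0 (fun i ih => Nat.xor ih (Nat.shiftLeft (row M' i) (Nat.mul 32 (dg c i)))) n

end

end Pool.Agent.Lib.MP_d7353d_co.U
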