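import Pool.Agent.Lib.MP_d7353d_co.UKT

/-! States of the search trees, steps, and the meaning of the states. -/

namespace Pool.Agent.Lib.MP_d7353d_co.U

open T

noncomputable section

inductive St
  | N (n M : ℕ)
  | X (n M : ℕ)
  | Q (n M u : ℕ)
  | S (n M : ℕ) (J : List (ℕ × ℕ))
  | R (n M : ℕ) (J : List (ℕ × ℕ))
  | C (n M w : ℕ) (J : List (ℕ × ℕ))
  | B (n M nu D : ℕ) (U : List (Bool × ℕ × ℕ)) (Z : List (ℕ × ℕ))
  | W (t n M Lm Nm k : ℕ) (A B : List (ℕ × ℕ))
  | K (t n M Lm Nm len : ℕ) (J : List (ℕ × ℕ))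

abbrev Out := Option (List St)

def chk (b : Bool) (o : Out) : Out := Bool.rec none o b

def stepN (n M c : ℕ) : Out := chk (an (Nat.ble n 32) (nc M (lo n) c)) (some [])

def stepX (n M c : ℕ) : Out := chk (kl n M (d0 c) (tl c 1)) (some [])

def stepQ (n M u c : ℕ) : Out := chk (cw n M u c) (some [])

def stepS (n M : ℕ) (J : List (ℕ × ℕ)) : Out :=
  List.rec (some (Nat.rec [] (fun u ih => St.Q n M u :: ih) n))
    (fun p J' _ => chk (Nat.ble n 29)
      (frc (insM (insM M n p.1 p.2) (Nat.succ n) n p.2) fun M' => some [St.S (Nat.add n 2) M' J'])) J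

/-- `k` insertions at marked pairs read from `c` -/
def tgt (k : ℕ) : ℕ → ℕ → ℕ → ℕ → (ℕ → ℕ → ℕ → Out) → Out :=
  Nat.rec (fun _ n M J f => f n M J)
    (fun _ ih c n M J f =>
      chk (an (Nat.ble n 30) (an (Nat.blt (d0 c) n) (an (Nat.blt (dg c 1) n)
          (Nat.beq (b1 J (Nat.add (Nat.mul 32 (d0 c)) (dg c 1))) 1))))
        (frc (insM M n (d0 c) (dg c 1)) fun M' => frc (insJ J n (d0 c) (dg c 1)) fun J' =>
          ih (tl c 2) (Nat.succ n) M' J' f)) k

/-- go through the marked pairs: digit `0` the image is marked in the target, otherwise a child;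
`acc` are the free pairs so far (last first), `J'` the unused marks of the target, `q` the renaming -/
def idl (n M q : ℕ) (J : List (ℕ × ℕ)) : List (ℕ × ℕ) → ℕ → ℕ → Out :=
  List.rec (fun _ _ _ => some [])
    (fun p Jr ih acc J' c =>
      Nat.rec
        (chk (Nat.beq (b1 J' (Nat.add (Nat.mul 32 (dg q p.1)) (dg q p.2))) 1)
          (frc (clr J' (dg q p.1) (dg q p.2)) fun J'' => ih (p :: acc) J'' (tl c 1)))
        (fun e _ => Option.rec none
          (fun l => frc (insM M n p.1 p.2) fun M' =>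
            some (St.R (Nat.succ n) M' (acc ++ iz e (n, p.2) (p.1, n) :: Jr) :: l))
          (ih acc J' (tl c 1))) (d0 c)) J

def ident (n M : ℕ) (J : List (ℕ × ℕ)) (c : ℕ) : Out :=
  frc (Nat.add (d0 c) (Nat.mul 32 (dg c 1))) fun i => frc (dg c 2) fun k =>
    chk (an (Nat.blt i 223) (Nat.ble n 30))
      (tgt k (tl c 3) (bN i) (bM i) (bJ i) fun n' M' J' =>
        frc (tl c (Nat.add 3 (Nat.mul 2 k))) fun q =>
          chk (an (Nat.beq n' n) (an (tk n (lo n) q fun _ => true) (Nat.beq (permM n q M) M')))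
            (idl n M q J [] J' (tl q n)))

def stepR (n M : ℕ) (J : List (ℕ × ℕ)) (c : ℕ) : Out :=
  iz (d0 c) (chk (kl n M (dg c 1) (tl c 2)) (some [])) (ident n M J (tl c 1))

def stepC (n M w : ℕ) (J : List (ℕ × ℕ)) (c : ℕ) : Out :=
  List.rec
    (chk (Nat.ble n 32) (frc (lcM M w) fun M' =>
      iz (d0 c) (chk (frc (lcM M' (dg c 1)) fun M'' => kl n M'' (dg c 1) (tl c 2)) (some []))
        (some [St.R n M' []])))
    (fun p J' _ => ib (Nat.beq w p.1 || Nat.beq w p.2)
      (chk (Nat.ble n 30) (frc (insM M n p.1 p.2) fun M' =>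
        some [St.C n M w J', St.C (Nat.succ n) M' w J']))
      (some [St.C n M w J'])) J

def expB (n M nu D : ℕ) (U : List (Bool × ℕ × ℕ)) (Z : List (ℕ × ℕ)) : Out :=
  List.rec
    (chk (Nat.beq (Nat.land D (lo n)) (lo n))
      (frc (lcM (addv M n nu) n) fun M' => some [St.R (Nat.succ n) M' Z]))
    (fun p U' _ => frc (insM M n p.2.1 p.2.2) fun M1 =>
      frc (insM M1 (Nat.succ n) n p.2.2) fun M2 => frc (Nat.land nu (lo n)) fun nu0 =>
      ib p.1
        (frc (insM M2 (Nat.add n 2) (Nat.succ n) p.2.2) fun M3 =>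
          frc (Nat.xor nu0 (Nat.shiftLeft 7 n)) fun nu3 => frc (Nat.lor D (Nat.shiftLeft 7 n)) fun D3 =>
          some [St.B n M nu D U' ((p.2.1, p.2.2) :: Z),
            St.B (Nat.add n 3) M3 nu3 D3 ((true, Nat.add n 2, p.2.2) :: U')
              ((Nat.succ n, Nat.add n 2) :: (n, Nat.succ n) :: (p.2.1, n) :: Z)])
        (frc (Nat.xor (Nat.xor nu0 (Nat.xor (p2 p.2.1) (p2 p.2.2))) (p2 n)) fun nu1 =>
          frc (Nat.xor (Nat.xor nu0 (p2 p.2.2)) (Nat.shiftLeft 3 n)) fun nu2 =>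
          frc (Nat.lor D (p2 n)) fun D1 => frc (Nat.lor D (Nat.shiftLeft 3 n)) fun D2 =>
          some [St.B n M nu D ((true, p.2.1, p.2.2) :: U') Z,
            St.B (Nat.succ n) M1 nu1 D1 ((true, n, p.2.2) :: U') ((p.2.1, n) :: Z),
            St.B (Nat.add n 2) M2 nu2 D2 ((true, Nat.succ n, p.2.2) :: U')
              ((n, Nat.succ n) :: (p.2.1, n) :: Z)])) U

def stepB (n M nu D : ℕ) (U : List (Bool × ℕ × ℕ)) (Z : List (ℕ × ℕ)) (c : ℕ) : Out :=
  chk (Nat.ble n 28) (Nat.rec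
    (chk (an (Nat.blt (dg c 1) n) (frc (Nat.lor (Nat.land D (lo n)) (p2 n)) fun A =>
      frc (Nat.xor A (Nat.land A (p2 (dg c 1)))) fun A' => frc (addv M n nu) fun M' =>
        nc M' A' (tl c 2))) (some []))
    (fun e _ => iz e
      (frc (Nat.lor D (p2 (dg c 1))) fun D' => frc (Nat.xor nu (p2 (dg c 1))) fun nu' =>
        some [St.B n M nu D' U Z, St.B n M nu' D' U Z])
      (expB n M nu D U Z)) (d0 c))

/-- index of the vertex `y`: `0` is `v`, then `h`, then `z` -/
def ey (t : ℕ) : ℕ := if t = 1 then 1 else if t = 4 then 3 else 2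

/-- the set `al` -/
def alM (t : ℕ) : ℕ := if t = 0 then 2 else if t = 3 then 6 else if t = 4 then 10 else 0

def hdI (e : ℕ) (A : List (ℕ × ℕ)) : ℕ := List.rec e (fun p _ _ => p.1) A

/-- row of a new rim vertex with letter `x` after the vertex `p` -/
def nrow (t Lm Nm p x : ℕ) : ℕ :=
  Nat.xor (Nat.xor (p2 p) (Nat.mul (Nat.land x 1) (ib (kap t) Lm (alM t))))
    (Nat.mul (Nat.shiftRight x 1) (Nat.xor Nm 1))

def app (t n M Lm Nm k : ℕ) (A B : List (ℕ × ℕ)) (side : Bool) (x : ℕ) (f : St → Out) : Out :=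
  frc (addv M n (nrow t Lm Nm (hdI (ey t) (ib side B A)) x)) fun M' =>
    frc (Nat.xor Lm (Nat.shiftLeft (Nat.land x 1) n)) fun L' =>
      frc (Nat.xor Nm (Nat.shiftLeft (Nat.shiftRight x 1) n)) fun N' =>
        frc (Nat.add k (Nat.land x 1)) fun k' =>
          f (St.W t (Nat.succ n) M' L' N' k' (ib side A ((n, x) :: A)) (ib side ((n, x) :: B) B))

def mz (t Lm k : ℕ) : ℕ := Nat.add k (ib (Nat.blt t 3) (b1 Lm (ey t)) 1)

def parOk (t c : ℕ) : Bool := decide (t = 0) || (decide (c % 2 = 0) == decide (t = 1 ∨ t = 4))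

/-- the word ends here -/
def clos (t n M Lm Nm k : ℕ) (A B : List (ℕ × ℕ)) (l : List St) : List St :=
  ib (an (Nat.ble (thr t) (mz t Lm k)) (parOk t (Nat.add k (b1 Lm (ey t)))))
    (St.K t n (togM M (hdI (ey t) A) (hdI (ey t) B)) Lm Nm (Nat.sub n (Nat.succ (ey t)))
      (cp (ey t :: (A.reverse.map Prod.fst ++ B.map Prod.fst) ++ [ey t])) :: l) l

/-- five equal letters which can be replaced by one -/
def redu (t n Lm k : ℕ) (A B : List (ℕ × ℕ)) (c : ℕ) : Bool :=
  match ((iz (d0 c) A B).drop (dg c 1)).map Prod.snd with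
  | x :: x2 :: x3 :: x4 :: x5 :: _ =>
    decide (x2 = x ∧ x3 = x ∧ x4 = x ∧ x5 = x ∧ ey t + 12 ≤ n ∧ (x % 2 = 1 → thr t + 4 ≤ mz t Lm k) ∧
      (2 ≤ x → 7 ≤ (A ++ B).countP fun p => decide (2 ≤ p.2)) ∧
      (x ≠ 3 → 6 ≤ (A ++ B).countP fun p => decide (p.2 ≠ 3)))
  | _ => false

def stepW (t n M Lm Nm k : ℕ) (A B : List (ℕ × ℕ)) (c : ℕ) : Out :=
  chk (Nat.ble n 30) (Nat.rec (chk (redu t n Lm k A B (tl c 1)) (some []))
    (fun e _ => Nat.rec (chk (nc M (lo n) (tl c 1)) (some (clos t n M Lm Nm k A B [])))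
      (fun s _ => app t n M Lm Nm k A B (iz s false true) 1 fun s1 =>
        app t n M Lm Nm k A B (iz s false true) 2 fun s2 =>
          app t n M Lm Nm k A B (iz s false true) 3 fun s3 =>
            some (clos t n M Lm Nm k A B [s1, s2, s3])) e) (d0 c))

def pat (t Lm Nm : ℕ) (J : List (ℕ × ℕ)) (c : ℕ) : Bool :=
  match J.drop (dg c 1) with
  | [] => false
  | p :: _ =>
    decide ((d0 c = 0 ∧ Nm = 2 ^ p.1 ^^^ 2 ^ p.2) ∨
      (d0 c = 1 ∧ kap t = false ∧ Nm = 2 ^ p.1 ^^^ 2 ^ p.2 ^^^ alM t) ∨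
      (d0 c = 2 ∧ t = 1 ∧ Nm = Lm) ∨
      (d0 c = 3 ∧ kap t = true ∧ Nm = Lm ^^^ 2 ^ p.1) ∨
      (d0 c = 4 ∧ t = 3 ∧ Nm = 6) ∨
      (d0 c = 5 ∧ 3 ≤ t ∧ (p.1 = ey t ∨ p.2 = ey t) ∧
        (Nm ^^^ Lm ^^^ 2 ^ p.1 ^^^ 2 ^ p.2) >>> (ey t + 1) = 0 ∧
        (Lm.testBit (ey t) ^^ Nm.testBit (ey t) ^^ Nm.testBit 1) = true ∧
        (t = 4 → Nm.testBit 2 = true)))

def stepK (t n M Lm Nm len : ℕ) (J : List (ℕ × ℕ)) (c : ℕ) : Out :=
  Nat.rec (chk (frc M fun M' => kl n M' (dg c 1) (tl c 2)) (some []))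
    (fun e _ => iz e (chk (Nat.blt len 7) (frc M fun M' => some [St.R n M' J]))
      (chk (an (Nat.ble 7 len) (pat t Lm Nm J (tl c 1))) (some []))) (d0 c)

def step (s : St) (c : ℕ) : Out :=
  St.rec (fun n M => stepN n M c) (fun n M => stepX n M c) (fun n M u => stepQ n M u c)
    (fun n M J => stepS n M J) (fun n M J => stepR n M J c) (fun n M w J => stepC n M w J c)
    (fun n M nu D U Z => stepB n M nu D U Z c) (fun t n M Lm Nm k A B => stepW t n M Lm Nm k A B c)
    (fun t n M Lm Nm len J => stepK t n M Lm Nm len J c) s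

/-- work through the stack; the number `e` holds the certificates, each preceded by its length -/
def run (fuel : ℕ) : ℕ → List St → Bool :=
  Nat.rec (fun _ _ => false)
    (fun _ ih e st => List.rec true
      (fun s rest _ => frc (Nat.mul 5 (Nat.land e 63)) fun w =>
        frc (Nat.land (Nat.shiftRight e 6) (lo w)) fun c =>
          frc (Nat.shiftRight e (Nat.add w 6)) fun e' =>
            Option.rec false (fun ch => ih e' (ch ++ rest)) (step s c)) st) fuel

def runs (f : ℕ → List St) (l : List ℕ) : ℕ → Bool :=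
  List.rec (fun _ => true) (fun e _ ih i => an (run 1000000 e (f i)) (ih (Nat.succ i))) l

/-! the roots -/

def rootT (i : ℕ) : List St :=
  frc (bN i) fun n => frc (bM i) fun M =>
    St.N n M :: St.S n M (baseJ i) :: St.B n M 0 0 ((baseJ i).map fun p => (false, p)) [] ::
      (List.range n).map fun w => St.C n M w (baseJ i)

def rootF (i : ℕ) : List St :=
  frc (bN (196 + i)) fun n => frc (bM (196 + i)) fun M =>
    St.N n M :: (List.range n).map fun w => St.C n M w (baseJ (196 + i))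

/-- matrix of a graph on `0..n-1` -/
def toM (n : ℕ) (A : Gr ℕ) : ℕ :=
  Nat.rec 0 (fun i ih => addv ih i (Nat.rec 0 (fun j r => Nat.xor r (ib (A i j) (p2 j) 0)) i)) n

def rootO : List St :=
  [St.R 6 (toM 6 (wheel 5 fun _ => true)) [], St.R 8 (toM 8 (wheel 7 fun _ => true)) [],
    St.R 7 (toM 7 (wheel 6 fun i => decide (i % 2 = 0))) []]

/-- adjacency of `j < i` among `v`, `h`, `z`, `y` -/
def rootA (t : ℕ) (mh mz ly my : Bool) : Gr ℕ := fun i j =>
  if i = ey t then (if j = 0 then my else if j = 1 then (ly ^^ (my && mh)) else (true ^^ (my && mz)))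
  else if i = 1 then mh else if j = 0 then mz else (true ^^ (mh && mz))

def rootL (t : ℕ) (ly : Bool) : ℕ :=
  (if t = 2 then 2 else 0) + (if t = 4 then 4 else 0) + ly.toNat * 2 ^ ey t

def rootN (t : ℕ) (mh mz my : Bool) : ℕ :=
  (if t = 1 then 0 else 2 * mh.toNat) + (if t = 4 then 4 * mz.toNat else 0) + my.toNat * 2 ^ ey t

def rootW (t : ℕ) (mh mz ly my : Bool) : St :=
  St.W t (ey t + 1) (toM (ey t + 1) (rootA t mh mz ly my)) (rootL t ly) (rootN t mh mz my) 0 [] []

/-- number `i < 80` of a root: `t = i / 16`, the four bits are `i % 16` -/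
def rootsW (i : ℕ) : List St :=
  if (i / 16 < 3 → i.testBit 2 = true) ∧ (i / 16 = 1 → i.testBit 0 = false) ∧
      (i / 16 ≠ 4 → i.testBit 1 = false) then
    [rootW (i / 16) (i.testBit 0) (i.testBit 1) (i.testBit 2) (i.testBit 3)] else []

/-- the closed word with letters `w` after `y` -/
def clW (t : ℕ) (w : List ℕ) : ℕ → ℕ → ℕ → ℕ → ℕ → St :=
  List.rec (fun n M _ _ p => St.X n (togM M p (ey t)))
    (fun x _ ih n M Lm Nm p => frc (addv M n (nrow t Lm Nm p x)) fun M' =>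
      ih (Nat.succ n) M' (Nat.xor Lm (Nat.shiftLeft (Nat.land x 1) n))
        (Nat.xor Nm (Nat.shiftLeft (Nat.shiftRight x 1) n)) n) w

def closedW (t : ℕ) (mh mz ly my : Bool) (w : List ℕ) : St :=
  clW t w (ey t + 1) (toM (ey t + 1) (rootA t mh mz ly my)) (rootL t ly) (rootN t mh mz my) (ey t)

/-- a class of words `x^i win x^j`; `fi`: `i = 0`, `fj`: `j = 0` -/
structure Cls where
  t : ℕ
  mh : Bool
  mz : Bool
  ly : Bool
  my : Bool
  x : ℕ
  win : List ℕ
  fi : Bool
  fj : Bool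

def Cls.word (k : Cls) (i j : ℕ) : List ℕ := List.replicate i k.x ++ k.win ++ List.replicate j k.x

def Cls.roots (k : Cls) : List St :=
  (List.range 9).flatMap fun i => (List.range 9).flatMap fun j =>
    if (k.fi = true → i = 0) ∧ (k.fj = true → j = 0) ∧ 5 ≤ i + j ∧ i + j ≤ 8 ∧
        parOk k.t (k.ly.toNat + (k.word i j).countP fun x => decide (x % 2 = 1)) = true then
      [closedW k.t k.mh k.mz k.ly k.my (k.word i j)] else []

/-- the classes with a letter `0` inside the window -/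
def clsL : List Cls :=
  ((List.range 5).flatMap fun t => [false, true].flatMap fun b => [false, true].flatMap fun ly =>
    if (b = true → kap t = false) ∧ (t < 3 → ly = true) then
      [2, 3].flatMap fun x =>
        [⟨t, b, false, ly, b && decide (3 ≤ t), 1, [x, 0, 2], false, false⟩,
          ⟨t, b, false, ly, b && decide (3 ≤ t), 1, [x, 0, 3], false, false⟩,
          ⟨t, b, false, ly, !(b && decide (3 ≤ t)), 1, [0, x], true, false⟩,
          ⟨t, b, false, ly, !(b && decide (3 ≤ t)), 1, [x, 0], false, true⟩]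
    else []) ++
  ([3, 4].flatMap fun t => [false, true].flatMap fun mh => [false, true].flatMap fun my =>
    [1, 2].flatMap fun p =>
      [⟨t, mh, decide (t = 4), !(my ^^ mh), my, 3, [0, p], true, false⟩,
        ⟨t, mh, decide (t = 4), !(my ^^ mh), my, 3, [p, 0], false, true⟩])

def rootsX (i : ℕ) : List St := ((clsL.drop i).take 1).flatMap Cls.roots

end

end Pool.Agent.Lib.MP_d7353d_co.U
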