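import Pool.Agent.Lib.MP_d7353d_co.U1

/-! Splitting the search trees into pieces. -/

namespace Pool.Agent.Lib.MP_d7353d_co.U

open T

noncomputable section

/-- as `run`; a record of length `63` puts the state aside -/
def runF (fuel : ℕ) : ℕ → List St → List St → Option (List St) :=
  Nat.rec (fun _ _ _ => none)
    (fun _ ih e st acc => List.rec (some acc)
      (fun s rest _ => frc (Nat.land e 63) fun k =>
        ib (Nat.beq k 63) (frc (Nat.shiftRight e 6) fun e' => ih e' rest (s :: acc))
          (frc (Nat.mul 5 k) fun w => frc (Nat.land (Nat.shiftRight e 6) (lo w)) fun c =>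
            frc (Nat.shiftRight e (Nat.add w 6)) fun e' =>
              Option.rec none (fun ch => ih e' (ch ++ rest) acc) (step s c))) st) fuel

def fr (st : List St) (e : ℕ) : List St := Option.rec st (fun l => l) (runF 1000000 e st [])

/-- every number treats as many states as its lowest ten bits say -/
def runG (l : List ℕ) : List St → Bool :=
  List.rec (fun st => List.rec true (fun _ _ _ => false) st)
    (fun e _ ih st => frc (Nat.land e 1023) fun k => frc (Nat.shiftRight e 10) fun e' =>
      an (run 1000000 e' (st.take k)) (ih (st.drop k))) l

def rts (f : ℕ → List St) (a k : ℕ) : List St := (List.range' a k).flatMap f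

end

variable {V : Type} [DecidableEq V]

def All (V : Type) [DecidableEq V] (l : List St) : Prop := ∀ s ∈ l, Ok V s

def StStep (V : Type) [DecidableEq V] : Prop := ∀ s c, Snd V (step s c) s

theorem All.cons {s : St} {l : List St} (a : Ok V s) (b : All V l) : All V (s :: l) :=
  fun x hx => (List.mem_cons.mp hx).elim (fun e => e ▸ a) (b x)

theorem All.app {l l' : List St} : All V (l ++ l') ↔ All V l ∧ All V l' :=
  ⟨fun h => ⟨fun x hx => h x (List.mem_append_left _ hx), fun x hx => h x (List.mem_append_right _ hx)⟩,
    fun h x hx => (List.mem_append.mp hx).elim (h.1 x) (h.2 x)⟩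

theorem All.split {l : List St} (k : ℕ) (a : All V (l.take k)) (b : All V (l.drop k)) : All V l := by
  rw [← List.take_append_drop k l]; exact All.app.mpr ⟨a, b⟩

theorem run_all (h : StStep V) (fuel : ℕ) : ∀ e st, run fuel e st = true → All V st := by
  induction fuel with
  | zero => intro e st r; exact absurd r (by simp [run])
  | succ f ih =>
    intro e st r
    cases st with
    | nil => exact fun _ hx => absurd hx List.not_mem_nil
    | cons s rest =>
      have r' : (frc (Nat.mul 5 (Nat.land e 63)) fun w =>
        frc (Nat.land (Nat.shiftRight e 6) (lo w)) fun c =>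
          frc (Nat.shiftRight e (Nat.add w 6)) fun e' =>
            (Option.rec false (fun ch => run f e' (ch ++ rest)) (step s c) : Bool)) = true := r
      simp only [frc_eq] at r'
      generalize hc : Nat.land (Nat.shiftRight e 6) _ = c at r'
      cases ho : step s c with
      | none => rw [ho] at r'; exact absurd r' (by simp)
      | some ch =>
        rw [ho] at r'
        have := All.app.mp (ih _ _ r')
        exact All.cons (h s c ch ho this.1) this.2

theorem runF_all (h : StStep V) (fuel : ℕ) : ∀ e st acc l, runF fuel e st acc = some l → All V l →
    All V st ∧ All V acc := by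
  induction fuel with
  | zero => intro e st acc l r; exact absurd r (by simp [runF])
  | succ f ih =>
    intro e st acc l r hl
    cases st with
    | nil =>
      have r' : some acc = some l := r
      exact ⟨fun _ hx => absurd hx List.not_mem_nil, Option.some.inj r' ▸ hl⟩
    | cons s rest =>
      have r' : (frc (Nat.land e 63) fun k =>
        ib (Nat.beq k 63) (frc (Nat.shiftRight e 6) fun e' => runF f e' rest (s :: acc))
          (frc (Nat.mul 5 k) fun w => frc (Nat.land (Nat.shiftRight e 6) (lo w)) fun c =>
            frc (Nat.shiftRight e (Nat.add w 6)) fun e' =>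
              (Option.rec none (fun ch => runF f e' (ch ++ rest) acc) (step s c) :
                Option (List St)))) = some l := r
      simp only [frc_eq, ib_eq] at r'
      split at r'
      · have := ih _ _ _ _ r' hl
        exact ⟨All.cons (this.2 s List.mem_cons_self) this.1,
          fun x hx => this.2 x (List.mem_cons_of_mem _ hx)⟩
      · generalize hc : Nat.land (Nat.shiftRight e 6) _ = c at r'
        cases ho : step s c with
        | none => rw [ho] at r'; exact absurd r' (by simp)
        | some ch =>
          rw [ho] at r'
          have := ih _ _ _ _ r' hl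
          have t := All.app.mp this.1
          exact ⟨All.cons (h s c ch ho t.1) t.2, this.2⟩

theorem fr_all (h : StStep V) {st : List St} {e : ℕ} (a : All V (fr st e)) : All V st := by
  unfold fr at a
  cases ho : runF 1000000 e st [] with
  | none => rw [ho] at a; exact a
  | some l => rw [ho] at a; exact (runF_all h _ _ _ _ _ ho a).1

theorem runG_all (h : StStep V) (l : List ℕ) : ∀ st, runG l st = true → All V st := by
  induction l with
  | nil =>
    intro st r
    cases st with
    | nil => exact fun _ hx => absurd hx List.not_mem_nil
    | cons s rest => exact absurd r (by simp [runG])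
  | cons e l ih =>
    intro st r
    have r' : (frc (Nat.land e 1023) fun k => frc (Nat.shiftRight e 10) fun e' =>
      an (run 1000000 e' (st.take k)) (runG l (st.drop k))) = true := r
    simp only [frc_eq, an_iff] at r'
    exact All.split _ (run_all h _ _ _ r'.1) (ih _ r'.2)

theorem rts_all {f : ℕ → List St} {a k : ℕ} (h : All V (rts f a k)) :
    ∀ i, a ≤ i → i < a + k → ∀ s ∈ f i, Ok V s := fun i h1 h2 s hs =>
  h s (List.mem_flatMap.mpr ⟨i, List.mem_range'_1.mpr ⟨h1, h2⟩, hs⟩)

end Pool.Agent.Lib.MP_d7353d_co.U
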