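import Pool.Agent.Lib.MP_d7353d_co.UC

/-! A minimal graph with a listed contraction is listed. -/

namespace Pool.Agent.Lib.MP_d7353d_co.U

open T

variable {V : Type} [DecidableEq V]

theorem l1 (cert : Cert V) (ex : StEx V) (cases : StCases V) (tab : StTab) (famW : StFamW V)
    (l1W : StL1W V) : StL1 V := by
  intro H S v hH hv hM hL
  have hG := hH.lc v
  obtain ⟨B, J, σ, P, hB, hE, hJ⟩ := cases _ _ hG hL
  rcases hB with ⟨x, hx, rfl, rfl⟩ | ⟨t, m, hm, rfl, rfl⟩
  · obtain ⟨i, hi, e, e'⟩ := tab.tab x hx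
    rw [← e] at hE
    have ok : Ok V (.B (bN i) (bM i) 0 0 ((baseJ i).map fun p => (false, p)) []) := by
      refine cert.t i hi _ ?_
      simp [rootT, frc_eq]
    have f : ∀ Q : List (Ch V), List.Forall₂
        (fun (u : Bool × ℕ × ℕ) (t : Ch V) => u.1 = true → res (lc H v) v t.2.1 = 0)
        ((ends Q).map fun p => (false, p)) Q := fun Q => by
      induction Q with
      | nil => exact .nil
      | cons t Q ih => exact .cons (fun k => absurd k (by simp)) ih
    have := ok (lc H v) S v σ P [] hG hv (by simpa using exImpl ex tab (by omega) hE)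
      (by simp [hJ, e', Function.comp_def]) rfl (by rw [e', ← hJ]; exact f P) (by simp [chv])
      (by simp) (by rwa [lc_lc hH])
    rwa [lc_lc hH] at this
  · obtain ⟨y, r, lam, h', z, w1, w2, -⟩ := famW t m _ _ σ P hG hm hE hJ
    exact l1W H S v hH hv hM ⟨t, y, r, lam, h', z, w1, w2⟩

end Pool.Agent.Lib.MP_d7353d_co.U
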