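import Pool.Agent.Lib.MP_d7353d_co.US

/-! Bit level meaning of the matrix operations, first part. -/

namespace Pool.Agent.Lib.MP_d7353d_co.U

open T

namespace Mat

theorem mul_bit {w r : ℕ} (hr : r < 2 ^ w) {j : ℕ} (hj : j < w) (i : ℕ) : ∀ c : ℕ,
    (∀ k, c.testBit k = true → w ∣ k) →
    (r * c).testBit (w * i + j) = (r.testBit j && c.testBit (w * i)) := by
  have key : ∀ c : ℕ, (∀ k, c.testBit k = true → w ∣ k) →
      r * c = 2 ^ w * (r * (c / 2 ^ w)) + (if c.testBit 0 = true then r else 0) := fun c hc => by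
    have e : c % 2 ^ w = if c.testBit 0 = true then 1 else 0 := by
      refine Nat.eq_of_testBit_eq fun k => ?_
      rw [Nat.testBit_mod_two_pow]
      rcases Nat.eq_zero_or_pos k with rfl | k0
      · have : 0 < w := by omega
        cases h : c.testBit 0 <;> simp [this]
      · have a : (decide (k < w) && c.testBit k) = false := by
          by_contra q
          simp only [Bool.not_eq_false, Bool.and_eq_true, decide_eq_true_eq] at q
          exact absurd (Nat.le_of_dvd k0 (hc k q.2)) (by omega)
        rw [a]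
        split_ifs
        · exact (Nat.testBit_one_eq_true_iff_self_eq_zero.not.2 (by omega) |> Bool.eq_false_iff.2).symm
        · simp
    conv_lhs => rw [← Nat.div_add_mod c (2 ^ w), e]
    split_ifs <;> ring
  have lt : ∀ c : ℕ, (if c.testBit 0 = true then r else 0) < 2 ^ w := fun c => by
    split_ifs
    · exact hr
    · positivity
  induction i with
  | zero =>
    intro c hc
    rw [key c hc, Nat.testBit_two_pow_mul_add _ (lt c), if_pos (by omega)]
    cases c.testBit 0 <;> simp
  | succ i ih =>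
    intro c hc
    rw [key c hc, Nat.testBit_two_pow_mul_add _ (lt c), if_neg (by rw [Nat.mul_succ]; omega),
      show w * (i + 1) + j - w = w * i + j by rw [Nat.mul_succ]; omega, ih, Nat.testBit_div_two_pow,
      Nat.mul_succ]
    intro k hk
    rw [Nat.testBit_div_two_pow] at hk
    exact (Nat.dvd_add_left (dvd_refl w)).1 (hc _ hk)

theorem cm_dvd (k : ℕ) (h : CM.testBit k = true) : 32 ∣ k := by
  by_cases l : k < 1024
  · have : ∀ k < 1024, CM.testBit k = true → 32 ∣ k := by decide +kernel
    exact this k l h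
  · have a : CM < 2 ^ 1024 := by decide +kernel
    rw [Nat.testBit_lt_two_pow (a.trans_le (Nat.pow_le_pow_right (by norm_num) (by omega)))] at h
    exact absurd h (by simp)

theorem cm_bit : ∀ i < 32, CM.testBit (32 * i) = true := by decide +kernel

theorem kk_dvd (k : ℕ) (h : KK.testBit k = true) : 31 ∣ k := by
  by_cases l : k < 1024
  · have : ∀ k < 1024, KK.testBit k = true → 31 ∣ k := by decide +kernel
    exact this k l h
  · have a : KK < 2 ^ 1024 := by decide +kernel
    rw [Nat.testBit_lt_two_pow (a.trans_le (Nat.pow_le_pow_right (by norm_num) (by omega)))] at h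
    exact absurd h (by simp)

theorem kk_bit : ∀ i < 32, KK.testBit (31 * i) = true := by decide +kernel

theorem ndg_bit : ∀ i < 32, ∀ j < 32, NDG.testBit (32 * i + j) = decide (i ≠ j) := by
  decide +kernel

theorem p2_eq (i : ℕ) : p2 i = 2 ^ i := Nat.one_shiftLeft i

theorem p2_bit (i k : ℕ) : (p2 i).testBit k = decide (i = k) := by
  rw [p2_eq, Nat.testBit_two_pow]

theorem lo_eq (n : ℕ) : lo n = 2 ^ n - 1 := by
  show (1 <<< n).pred = _
  rw [Nat.one_shiftLeft, Nat.pred_eq_sub_one]

theorem lo_bit (n k : ℕ) : (lo n).testBit k = decide (k < n) := by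
  rw [lo_eq, Nat.testBit_two_pow_sub_one]

theorem lo_lt {n w : ℕ} (h : n ≤ w) : lo n < 2 ^ w := by
  have := Nat.pow_le_pow_right (show 0 < 2 by norm_num) h
  have := Nat.two_pow_pos n
  rw [lo_eq]
  omega

theorem row_bit (M i k : ℕ) : (row M i).testBit k = (M.testBit (32 * i + k) && decide (k < 32)) := by
  show ((M >>> (32 * i)) &&& (2 ^ 32 - 1)).testBit k = _
  rw [Nat.testBit_and, Nat.testBit_shiftRight, Nat.testBit_two_pow_sub_one]

theorem row_lt (M i : ℕ) : row M i < 2 ^ 32 :=
  Nat.and_lt_two_pow _ (show 4294967295 < 2 ^ 32 by norm_num)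

theorem col_bit (M j k : ℕ) : (col M j).testBit k = (M.testBit (j + k) && CM.testBit k) := by
  show ((M >>> j) &&& CM).testBit k = _
  rw [Nat.testBit_and, Nat.testBit_shiftRight]

theorem lc (M y i j : ℕ) (hy : y < 32) (hi : i < 32) (hj : j < 32) (ij : i ≠ j) :
    bit (lcM M y) i j =
      (bit M i j ^^ (decide (i ≠ y) && decide (j ≠ y) && bit M i y && bit M y j)) := by
  show ((M &&& NDG) ^^^ ((row (M &&& NDG) y * col (M &&& NDG) y) &&& NDG)).testBit (32 * i + j) = _
  rw [Nat.testBit_xor, Nat.testBit_and, Nat.testBit_and, mul_bit (row_lt _ _) hj i _ fun k hk => by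
    rw [col_bit, Bool.and_eq_true] at hk
    exact cm_dvd k hk.2, row_bit, col_bit, Nat.testBit_and, Nat.testBit_and, add_comm y,
    ndg_bit i hi j hj, ndg_bit y hy j hj, ndg_bit i hi y hy, cm_bit i hi]
  unfold bit
  have : decide (y ≠ j) = decide (j ≠ y) := by simp [eq_comm]
  rw [this, decide_eq_true ij, decide_eq_true hj]
  generalize M.testBit (32 * i + j) = a
  generalize M.testBit (32 * y + j) = b
  generalize M.testBit (32 * i + y) = c
  generalize decide (j ≠ y) = d
  generalize decide (i ≠ y) = e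
  revert a b c d e
  decide

theorem pos {a b i j : ℕ} (hb : b < 32) (hj : j < 32) :
    decide (32 * a + b = 32 * i + j) = (decide (i = a) && decide (j = b)) := by
  rw [← Bool.decide_and]
  exact decide_eq_decide.2 (by omega)

theorem tog (M a b i j : ℕ) (ha : a < 32) (hb : b < 32) (_hi : i < 32) (hj : j < 32) :
    bit (togM M a b) i j = (bit M i j ^^ ed a b i j) := by
  show ((M ^^^ p2 (32 * a + b)) ^^^ p2 (32 * b + a)).testBit (32 * i + j) = _
  rw [Nat.testBit_xor, Nat.testBit_xor, p2_bit, p2_bit, pos hb hj, pos ha hj, Bool.xor_assoc]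
  rfl

theorem clr (M a b i j : ℕ) (ha : a < 32) (hb : b < 32) (_hi : i < 32) (hj : j < 32) :
    bit (clr M a b) i j = (bit M i j && !pr a b i j) := by
  show (M ^^^ (M &&& (p2 (32 * a + b) ||| p2 (32 * b + a)))).testBit (32 * i + j) = _
  rw [Nat.testBit_xor, Nat.testBit_and, Nat.testBit_or, p2_bit, p2_bit, pos hb hj, pos ha hj]
  unfold bit pr
  rw [Bool.decide_or, Bool.decide_and, Bool.decide_and]
  generalize M.testBit (32 * i + j) = x
  generalize (decide (i = a) && decide (j = b) || decide (i = b) && decide (j = a)) = y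
  revert x y
  decide

theorem addv (M n N i j : ℕ) (hn : n ≤ 31) (hi : i ≤ n) (hj : j ≤ n) (ij : i ≠ j) :
    bit (addv M n N) i j =
      if i = n then N.testBit j else if j = n then N.testBit i else bit M i j := by
  show (((M &&& (lo n * (CM &&& lo (32 * n)))) ^^^ ((N &&& lo n) <<< (32 * n))) ^^^
    ((((N &&& lo n) * KK) &&& CM) <<< n)).testBit (32 * i + j) = _
  rw [Nat.testBit_xor, Nat.testBit_xor, Nat.testBit_and,
    mul_bit (lo_lt (show n ≤ 32 by omega)) (show j < 32 by omega) i _ fun k hk => by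
      rw [Nat.testBit_and, Bool.and_eq_true] at hk
      exact cm_dvd k hk.1, Nat.testBit_and, lo_bit, lo_bit, cm_bit i (by omega),
    Nat.testBit_shiftLeft, Nat.testBit_shiftLeft, Nat.testBit_and, Nat.testBit_and, lo_bit]
  have c : j ≠ n → (decide (32 * i + j ≥ n) && (((N &&& lo n) * KK).testBit (32 * i + j - n) &&
      CM.testBit (32 * i + j - n))) = false := fun h => by
    by_contra q
    simp only [Bool.not_eq_false, Bool.and_eq_true, decide_eq_true_eq] at q
    have := cm_dvd _ q.2.2
    omega
  split_ifs with h1 h2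
  · rw [c (by omega), show 32 * i + j - 32 * n = j by omega,
      decide_eq_false (show ¬32 * i < 32 * n by omega), decide_eq_true (show j < n by omega),
      decide_eq_true (show 32 * i + j ≥ 32 * n by omega)]
    simp
  · rw [show 32 * i + j - n = 32 * i by omega, cm_bit i (by omega),
      show 32 * i = 31 * i + i by omega,
      mul_bit (Nat.and_lt_two_pow _ (lo_lt hn)) (show i < 31 by omega) i _ kk_dvd,
      kk_bit i (by omega), Nat.testBit_and, lo_bit, decide_eq_false (show ¬j < n by omega),
      decide_eq_true (show i < n by omega),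
      decide_eq_false (show ¬31 * i + i + j ≥ 32 * n by omega),
      decide_eq_true (show 31 * i + i + j ≥ n by omega)]
    simp
  · rw [c h2, decide_eq_true (show j < n by omega), decide_eq_true (show 32 * i < 32 * n by omega),
      decide_eq_false (show ¬32 * i + j ≥ 32 * n by omega)]
    simp [bit]

theorem two_bit {a b : ℕ} (ab : a ≠ b) (j : ℕ) :
    (Nat.xor (p2 a) (p2 b)).testBit j = decide (j = a ∨ j = b) := by
  show (p2 a ^^^ p2 b).testBit j = _
  rw [Nat.testBit_xor, p2_bit, p2_bit]
  by_cases h1 : a = j <;> by_cases h2 : b = j <;> simp [h1, h2, eq_comm] <;> omega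

theorem ed_pr {a b : ℕ} (ab : a ≠ b) (i j : ℕ) : ed a b i j = pr a b i j := by
  unfold ed pr
  by_cases h1 : i = a <;> by_cases h2 : j = b <;> by_cases h3 : i = b <;> by_cases h4 : j = a <;>
    simp [h1, h2, h3, h4, ab, ab.symm]

theorem ins (M n a b i j : ℕ) (hn : n ≤ 31) (ha : a < n) (hb : b < n) (ab : a ≠ b) (hi : i ≤ n)
    (hj : j ≤ n) (ij : i ≠ j) : bit (insM M n a b) i j = insA (bit M) n a b i j := by
  unfold insM
  rw [addv _ n _ i j hn hi hj ij, two_bit ab, two_bit ab,
    tog M a b i j (by omega) (by omega) (by omega) (by omega), ed_pr ab]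
  rfl

theorem insJ (J n a b i j : ℕ) (A : Gr ℕ) (hn : n ≤ 31) (ha : a < n) (hb : b < n) (ab : a ≠ b)
    (hi : i ≤ n) (hj : j ≤ n) (ij : i ≠ j) :
    bit (insJ J n a b) i j = (MG.ins ⟨n, A, bit J⟩ a b).mark i j := by
  unfold U.insJ
  rw [addv _ n _ i j hn hi hj ij, two_bit ab, two_bit ab,
    clr J a b i j (by omega) (by omega) (by omega) (by omega)]
  rfl

theorem pull (V : Type) [DecidableEq V] (G : Gr V) (σ : ℕ → V) (n M y : ℕ) (s : Sy G)
    (P : Pull G σ n (bit M)) (hn : n ≤ 32) (hy : y < n) :
    Pull (T.lc G (σ y)) σ n (bit (lcM M y)) := by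
  intro i hi j hj ij
  obtain ⟨a, b⟩ := P i hi j hj ij
  refine ⟨a, ?_⟩
  rw [lc M y i j (by omega) (by omega) (by omega) ij]
  unfold T.lc
  rw [if_neg a, b]
  by_cases h1 : i = y
  · subst h1
    simp [s.2]
  by_cases h2 : j = y
  · subst h2
    simp [s.2]
  rw [(P i hi y hy h1).2, (P y hy j hj (Ne.symm h2)).2]
  simp [h1, h2]

end Mat

end Pool.Agent.Lib.MP_d7353d_co.U
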