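import Pool.Agent.Lib.MP_d7353d_co.UEx
import Pool.Agent.Lib.MP_d7353d_co.U1

/-! Contraction of all chains, with the change of the neighbourhood of an outer vertex. -/

namespace Pool.Agent.Lib.MP_d7353d_co.U

open T

variable {V : Type} [DecidableEq V]

/-- the contribution of one chain -/
def tg1 (r a b i : ℕ) : Bool :=
  (decide (r = 1) && (decide (i = a) ^^ decide (i = b))) ^^ (decide (r = 2) && decide (i = b))

omit [DecidableEq V] in
theorem red_tg_cons (G : Gr V) (v : V) (a b : ℕ) (c : List V) (P : List (Ch V)) (i : ℕ) :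
    tg G v ((a, c, b) :: P) i = (tg1 (res G v c) a b i ^^ tg G v P i) := rfl

omit [DecidableEq V] in
theorem red_tg_append (G : Gr V) (v : V) (P Q : List (Ch V)) (i : ℕ) :
    tg G v (P ++ Q) i = (tg G v P i ^^ tg G v Q i) := by
  induction P with
  | nil => simp [tg]
  | cons t P ih =>
    obtain ⟨a, c, b⟩ := t
    rw [List.cons_append, red_tg_cons, red_tg_cons, ih, Bool.xor_assoc]

omit [DecidableEq V] in
theorem red_cnt {G G' : Gr V} {v : V} {c : List V} (h : ∀ u ∈ c, G' v u = G v u) :
    c.countP (G' v) = c.countP (G v) :=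
  List.countP_congr fun u hu => by rw [h u hu]

theorem red_tg_congr {G G' : Gr V} {v : V} {P : List (Ch V)} (h : ∀ u ∈ chv P, G' v u = G v u)
    (i : ℕ) : tg G' v P i = tg G v P i := by
  induction P with
  | nil => rfl
  | cons t P ih =>
    obtain ⟨a, c, b⟩ := t
    rw [ex_chv_cons] at h
    rw [red_tg_cons, red_tg_cons, ih fun u hu => h u (List.mem_append_right _ hu), res, res,
      red_cnt fun u hu => h u (List.mem_append_left _ hu)]

theorem red_tg_zero {G : Gr V} {v : V} {P : List (Ch V)} (h : ∀ u ∈ chv P, G v u = false)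
    (i : ℕ) : tg G v P i = false := by
  induction P with
  | nil => rfl
  | cons t P ih =>
    obtain ⟨a, c, b⟩ := t
    rw [ex_chv_cons] at h
    have e : c.countP (G v) = 0 := List.countP_eq_zero.mpr fun u hu => by
      simp [h u (List.mem_append_left _ hu)]
    rw [red_tg_cons, ih fun u hu => h u (List.mem_append_right _ hu), res, e]
    simp [tg1]

omit [DecidableEq V] in
theorem red_tg_big {G : Gr V} {v : V} {P : List (Ch V)} {n i : ℕ}
    (h : ∀ t ∈ P, t.1 < n ∧ t.2.2 < n) (hi : n ≤ i) : tg G v P i = false := by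
  induction P with
  | nil => rfl
  | cons t P ih =>
    obtain ⟨a, c, b⟩ := t
    obtain ⟨h1, h2⟩ := h (a, c, b) (by simp)
    have e1 : i ≠ a := by simp at h1; omega
    have e2 : i ≠ b := by simp at h2; omega
    rw [red_tg_cons, ih fun t ht => h t (List.mem_cons_of_mem _ ht)]
    simp [tg1, e1, e2]

/-- one suppression -/
theorem red_step (ex : StEx V) {G : Gr V} {S : Finset V} {v : V} {σ : ℕ → V} {n : ℕ} {A : Gr ℕ}
    {P1 P2 : List (Ch V)} {a b : ℕ} {c1 c2 : List V} {s : V} (hG : Sy G)
    (h : EX G S σ n A (P1 ++ (a, c1 ++ s :: c2, b) :: P2))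
    (ih : EX (lc G s) (S.erase s) σ n A (P1 ++ (a, c1 ++ c2, b) :: P2) →
      ∃ G', LE (chv (P1 ++ (a, c1 ++ c2, b) :: P2)).toFinset (lc G s) G' ∧ Pull G' σ n A ∧
      ∀ i < n, G' v (σ i) = (lc G s v (σ i) ^^ tg (lc G s) v (P1 ++ (a, c1 ++ c2, b) :: P2) i))
    (o : ∀ u ∈ chv P1 ++ chv P2, lc G s v u = G v u)
    (k : ∀ i < n, (lc G s v (σ i) ^^ tg1 (res (lc G s) v (c1 ++ c2)) a b i) =
      (G v (σ i) ^^ tg1 (res G v (c1 ++ s :: c2)) a b i)) :
    ∃ G', LE (chv (P1 ++ (a, c1 ++ s :: c2, b) :: P2)).toFinset G G' ∧ Pull G' σ n A ∧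
      ∀ i < n, G' v (σ i) = (G v (σ i) ^^ tg G v (P1 ++ (a, c1 ++ s :: c2, b) :: P2) i) := by
  obtain ⟨G', l, p, r⟩ := ih (ex.sup hG h)
  have pm := ex_chv_perm P1 P2 a b c1 c2 s
  refine ⟨G', (LE.one G (y := s) ?_).trans (l.mono ?_), p, fun i hi => ?_⟩
  · exact List.mem_toFinset.mpr (pm.mem_iff.mpr List.mem_cons_self)
  · intro x hx
    exact List.mem_toFinset.mpr (pm.mem_iff.mpr (List.mem_cons_of_mem _ (List.mem_toFinset.mp hx)))
  · have k' := k i hi
    rw [r i hi, red_tg_append, red_tg_append, red_tg_cons, red_tg_cons,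
      red_tg_congr (fun u hu => o u (List.mem_append_left _ hu)),
      red_tg_congr (fun u hu => o u (List.mem_append_right _ hu))]
    revert k'
    cases lc G s v (σ i) <;> cases G v (σ i) <;> cases tg G v P1 i <;> cases tg G v P2 i <;>
      cases tg1 (res (lc G s) v (c1 ++ c2)) a b i <;>
      cases tg1 (res G v (c1 ++ s :: c2)) a b i <;> simp

theorem red_row {G : Gr V} {S : Finset V} {v s w : V} (hv : v ∉ S) (hw : w ∈ S) :
    lc G s v w = (G v w ^^ (G v s && G s w)) := by
  have : v ≠ w := fun e => hv (e ▸ hw)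
  simp [lc, this]

theorem red_aux (ex : StEx V) (v : V) (σ : ℕ → V) (n : ℕ) (A : Gr ℕ) (N : ℕ) :
    ∀ (G : Gr V) (S : Finset V) (P : List (Ch V)), (chv P).length = N → Sy G → v ∉ S →
      EX G S σ n A P → ∃ G', LE (chv P).toFinset G G' ∧ Pull G' σ n A ∧
        ∀ i < n, G' v (σ i) = (G v (σ i) ^^ tg G v P i) := by
  induction N with
  | zero =>
    intro G S P hN hG hv h
    have e : chv P = [] := List.length_eq_zero_iff.mp hN
    obtain ⟨G', l, p⟩ := ex.col hG h
    have e' : G' = G := by
      cases l with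
      | refl => rfl
      | step y hy _ => simp [e] at hy
    subst e'
    exact ⟨G', LE.refl, p, fun i _ => by rw [red_tg_zero (by simp [e])]; simp⟩
  | succ N ih =>
    intro G S P hN hG hv h
    have IH : ∀ {P1 P2 : List (Ch V)} {a b : ℕ} {c1 c2 : List V} {s : V},
        (chv (P1 ++ (a, c1 ++ s :: c2, b) :: P2)).length = N + 1 →
        EX (lc G s) (S.erase s) σ n A (P1 ++ (a, c1 ++ c2, b) :: P2) →
        ∃ G', LE (chv (P1 ++ (a, c1 ++ c2, b) :: P2)).toFinset (lc G s) G' ∧ Pull G' σ n A ∧
        ∀ i < n, G' v (σ i) =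
          (lc G s v (σ i) ^^ tg (lc G s) v (P1 ++ (a, c1 ++ c2, b) :: P2) i) := by
      intro P1 P2 a b c1 c2 s hl h'
      refine ih _ _ _ ?_ (hG.lc s) (fun k => hv (Finset.mem_of_mem_erase k)) h'
      have := (ex_chv_perm P1 P2 a b c1 c2 s).length_eq
      rw [List.length_cons] at this
      omega
    obtain ⟨x, hx⟩ : ∃ x, x ∈ chv P := List.exists_mem_of_length_pos (by omega)
    obtain ⟨t, ht, hxt⟩ := List.mem_flatMap.mp hx
    obtain ⟨P1, P2, rfl⟩ := List.append_of_mem ht
    obtain ⟨a, c, b⟩ := t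
    have oS : ∀ u ∈ chv P1 ++ chv P2, u ∈ S := fun u hu => h.cS (by
      rw [ex_chv_mid]
      rcases List.mem_append.mp hu with k | k <;> simp [k])
    have cS : ∀ u ∈ c, u ∈ S := fun u hu => h.cS (by rw [ex_chv_mid]; simp [hu])
    have nd := h.nd
    rw [ex_chv_mid] at nd
    have oc : ∀ u ∈ chv P1 ++ chv P2, u ∉ c := fun u hu k => by
      rw [List.nodup_append, List.nodup_append] at nd
      rcases List.mem_append.mp hu with k' | k'
      · exact nd.2.2 u k' u (List.mem_append_left _ k) rfl
      · exact nd.2.1.2.2 u k u k' rfl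
    have ndc : c.Nodup := by
      rw [List.nodup_append, List.nodup_append] at nd
      exact nd.2.1.1
    have oσ : ∀ u ∈ chv P1 ++ chv P2, ∀ i < n, u ≠ σ i := fun u hu i hi => h.cne (by
      rw [ex_chv_mid]
      rcases List.mem_append.mp hu with k | k <;> simp [k]) hi
    have cσ : ∀ u ∈ c, ∀ i < n, σ i ≠ u := fun u hu i hi =>
      (h.cne (by rw [ex_chv_mid]; simp [hu]) hi).symm
    obtain ⟨ha, hb, hab⟩ := h.en (a, c, b) (by simp)
    have inj : ∀ i < n, ∀ j < n, (σ i = σ j) = (i = j) := fun i hi j hj =>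
      propext ⟨h.inj i hi j hj, fun e => e ▸ rfl⟩
    by_cases z : ∃ s ∈ c, G v s = false
    · obtain ⟨s, hs, hz⟩ := z
      obtain ⟨c1, c2, rfl⟩ := List.append_of_mem hs
      have row : ∀ w ∈ S, lc G s v w = G v w := fun w hw => by rw [red_row hv hw, hz]; simp
      refine red_step ex hG h (IH hN) (fun u hu => row u (oS u hu)) fun i hi => ?_
      rw [row _ (h.sS hi), res, res, red_cnt (G := G) fun u hu => row u (cS u (by
        rcases List.mem_append.mp hu with k | k <;> simp [k]))]
      simp [List.countP_append, hz]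
    have all : ∀ s ∈ c, G v s = true := fun s hs => by
      by_contra k
      exact z ⟨s, hs, by simpa using k⟩
    match c, hxt with
    | [s], _ =>
      obtain ⟨-, -, -, -, -, nb⟩ := ex.nbr (c1 := []) (c2 := []) (l1 := []) (l2 := []) hG h rfl rfl
      have hs := all s (by simp)
      have row : ∀ w ∈ S, lc G s v w = (G v w ^^ (decide (w = σ a) ^^ decide (w = σ b))) :=
        fun w hw => by rw [red_row hv hw, hs, nb w hw]; simp
      refine red_step (c1 := []) (c2 := []) ex hG h (IH (c1 := []) hN) (fun u hu => ?_)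
        fun i hi => ?_
      · rw [row u (oS u hu)]; simp [oσ u hu a ha, oσ u hu b hb]
      · rw [row _ (h.sS hi)]
        simp [res, tg1, hs, inj i hi a ha, inj i hi b hb]
    | [x, s], _ =>
      obtain ⟨-, -, -, -, -, nb⟩ :=
        ex.nbr (c1 := [x]) (c2 := []) (l1 := [σ a]) (l2 := []) hG h rfl rfl
      have hs := all s (by simp)
      have hx := all x (by simp)
      have row : ∀ w ∈ S, lc G s v w = (G v w ^^ (decide (w = x) ^^ decide (w = σ b))) :=
        fun w hw => by rw [red_row hv hw, hs, nb w hw]; simp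
      refine red_step (c1 := [x]) (c2 := []) ex hG h (IH (c1 := [x]) hN) (fun u hu => ?_)
        fun i hi => ?_
      · have : u ≠ x := fun e => oc u hu (by simp [e])
        rw [row u (oS u hu)]; simp [this, oσ u hu b hb]
      · have e : lc G s v x = false := by
          rw [row x (cS x (by simp)), hx]; simp [(cσ x (by simp) b hb).symm]
        rw [row _ (h.sS hi)]
        simp [res, tg1, hs, hx, e, inj i hi b hb, cσ x (by simp) i hi]
    | x :: s :: y :: r, _ =>
      obtain ⟨hxy, -, -, -, -, nb⟩ :=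
        ex.nbr (c1 := [x]) (c2 := y :: r) (l1 := [σ a]) (l2 := r ++ [σ b]) hG h rfl rfl
      have hs := all s (by simp)
      have hx := all x (by simp)
      have hy := all y (by simp)
      have row : ∀ w ∈ S, lc G s v w = (G v w ^^ (decide (w = x) ^^ decide (w = y))) :=
        fun w hw => by rw [red_row hv hw, hs, nb w hw]; simp
      refine red_step (c1 := [x]) (c2 := y :: r) ex hG h (IH (c1 := [x]) hN) (fun u hu => ?_)
        fun i hi => ?_
      · have e1 : u ≠ x := fun e => oc u hu (by simp [e])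
        have e2 : u ≠ y := fun e => oc u hu (by simp [e])
        rw [row u (oS u hu)]; simp [e1, e2]
      · have e1 : lc G s v x = false := by
          rw [row x (cS x (by simp)), hx]; simp [hxy]
        have e2 : lc G s v y = false := by
          rw [row y (cS y (by simp)), hy]; simp [hxy.symm]
        have e3 : r.countP (lc G s v) = r.countP (G v) := red_cnt fun u hu => by
          have k1 : u ≠ x := fun e => by subst e; simp [hu] at ndc
          have k2 : u ≠ y := fun e => by subst e; simp [hu] at ndc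
          rw [row u (cS u (by simp [hu]))]; simp [k1, k2]
        have e4 : res (lc G s) v ([x] ++ y :: r) = res G v ([x] ++ s :: y :: r) := by
          simp only [res, List.cons_append, List.nil_append, List.countP_cons, e1, e2, e3, hs, hx, hy]
          simp only [Bool.false_eq_true, if_false, if_true]
          omega
        rw [row _ (h.sS hi), e4]
        simp [cσ x (by simp) i hi, cσ y (by simp) i hi]

theorem red (V : Type) [DecidableEq V] (ex : StEx V) : StRed V := fun G S v σ n A P hG h =>
  red_aux ex v σ n A _ G _ P rfl hG (Finset.notMem_erase v S) h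

end Pool.Agent.Lib.MP_d7353d_co.U
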