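import Pool.Agent.Lib.MP_d7353d_co.UK1

/-! Meaning of the states and statements of the pieces. -/

namespace Pool.Agent.Lib.MP_d7353d_co.U

open T

section
variable (V : Type) [DecidableEq V]

/-- every minimal expansion is listed -/
def Rok (n M : ℕ) (J : List (ℕ × ℕ)) : Prop :=
  ∀ (G : Gr V) S σ P, Sy G → EX G S σ n (bit M) P → ends P = J → Mn G S → Lst G S

/-- a graph `H` whose contraction at `v` is a word graph -/
structure Wd where
  t : ℕ
  H : Gr V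
  S : Finset V
  v : V
  y : V
  r : List V
  lam : V → Bool
  h : V
  z : V

variable {V}

def Wd.Val (d : Wd V) : Prop :=
  Sy d.H ∧ HV d.t d.H d.S d.v d.y d.r d.lam d.h d.z ∧ Rich d.t d.y d.r d.lam ∧
    ZF d.H d.v d.r d.lam ∧ (d.t < 3 → d.lam d.y = true) ∧ Del d.H d.S

def Wd.Short (d : Wd V) : Prop :=
  ∃ n M J σ, Rok V n M J ∧ Pull d.H σ n (bit M) ∧ d.S = im σ n ∧ (∀ p ∈ J, p.1 < n ∧ p.2 < n) ∧
    J.map (Prod.map σ σ) = cp (d.y :: d.r ++ [d.y])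

def Wd.Fin (d : Wd V) : Prop :=
  (d.r.length < 7 ∧ d.Short) ∨ (7 ≤ d.r.length ∧ PatV d.t d.H d.S d.v d.y d.r d.lam d.h d.z)

/-- `σ` places `v`, `h`, `z`, `y`; `Lm`, `Nm` are the sets `la` and the neighbourhood of `v` -/
structure Wd.Pl (d : Wd V) (σ : ℕ → V) (n Lm Nm : ℕ) : Prop where
  v : σ 0 = d.v
  h : d.t ≠ 1 → σ 1 = d.h
  z : d.t = 4 → σ 2 = d.z
  y : σ (ey d.t) = d.y
  lt : ey d.t < n
  inj : ∀ i < n, ∀ j < n, σ i = σ j → i = j
  mem : ∀ i < n, σ i ∈ d.S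
  l0 : Lm < 2 ^ n ∧ Nm < 2 ^ n ∧ Lm.testBit 0 = false
  lm : ∀ i < n, 0 < i → Lm.testBit i = la d.t d.lam d.h d.z (σ i)
  nm : ∀ i < n, Nm.testBit i = d.H d.v (σ i)

/-- the known parts `A` (start, last first) and `B` (end) of the word -/
structure Wd.Mt (d : Wd V) (σ : ℕ → V) (rest : List V) (n M Lm Nm k : ℕ) (A B : List (ℕ × ℕ)) :
    Prop where
  pl : d.Pl σ n Lm Nm
  r : d.r = A.reverse.map (fun p => σ p.1) ++ rest ++ B.map fun p => σ p.1
  len : n = ey d.t + 1 + A.length + B.length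
  ab : ∀ p ∈ A ++ B, ey d.t < p.1 ∧ p.1 < n ∧ lt d.H d.v d.lam (σ p.1) = p.2
  sur : ∀ i < n, ey d.t < i → i ∈ (A ++ B).map Prod.fst
  k : k = (A ++ B).countP fun p => decide (p.2 % 2 = 1)
  mat : ∀ i < n, ∀ j < n, i ≠ j → bit M i j = (d.H (σ i) (σ j) ^^ cy d.y d.r (σ i) (σ j) ^^
    pe (d.y :: A.reverse.map fun p => σ p.1) (σ i) (σ j) ^^
    pe (B.map (fun p => σ p.1) ++ [d.y]) (σ i) (σ j))

variable (V)

def Ok : St → Prop
  | .N n M => ∀ (G : Gr V) σ, Sy G → Pull G σ n (bit M) → ¬ Circ G (im σ n)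
  | .X n M => ∀ (G : Gr V) σ, Sy G → Pull G σ n (bit M) → ¬ Del G (im σ n)
  | .Q n M u => ∀ (G : Gr V) σ, Sy G → Pull G σ n (bit M) → u < n → Circ G ((im σ n).erase (σ u))
  | .S n M J => ∀ (G : Gr V) S σ P, Sy G → EX G S σ n (bit M) P → ends P = J →
      (∀ t ∈ P, t.2.1.length = 2) → Del G S
  | .R n M J => Rok V n M J
  | .C n M w J => ∀ (G : Gr V) S σ P, Sy G → EX G S σ n (bit M) P → ends P = J → w < n →
      (∀ s ∈ chv P, G (σ w) s = true) → Mn (lc G (σ w)) S → Con (lc G (σ w)) S → Lst (lc G (σ w)) S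
  | .B n M nu D U Z => ∀ (G : Gr V) S v σ PU PZ, Sy G → v ∈ S →
      EX G (S.erase v) σ n (bit M) (PU ++ PZ) → ends PU = U.map Prod.snd → ends PZ = Z →
      List.Forall₂ (fun (u : Bool × ℕ × ℕ) (t : Ch V) => u.1 = true → res G v t.2.1 = 0) U PU →
      (∀ u ∈ chv PZ, G v u = false) →
      (∀ i < n, D.testBit i = true → G v (σ i) = (nu.testBit i ^^ tg G v PU i)) →
      Mn (lc G v) S → Lst (lc G v) S
  | .W t n M Lm Nm k A B => ∀ (d : Wd V) σ rest, d.t = t → d.Val →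
      (∀ d' : Wd V, d'.Val → d'.r.length < d.r.length → d'.Fin) → d.Mt σ rest n M Lm Nm k A B → d.Fin
  | .K t n M Lm Nm len J => ∀ (d : Wd V) σ, d.t = t → d.Val → d.Pl σ n Lm Nm →
      Pull d.H σ n (bit M) → d.S = im σ n → (∀ p ∈ J, p.1 < n ∧ p.2 < n) →
      J.map (Prod.map σ σ) = cp (d.y :: d.r ++ [d.y]) → d.r.length = len → d.Fin

/-- a step is sound -/
def Snd (o : Out) (s : St) : Prop := ∀ ch, o = some ch → (∀ s' ∈ ch, Ok V s') → Ok V s

end

/-- A: the operations on matrices -/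
structure StMat : Prop where
  lc : ∀ M y i j, y < 32 → i < 32 → j < 32 → i ≠ j → bit (lcM M y) i j =
    (bit M i j ^^ (decide (i ≠ y) && decide (j ≠ y) && bit M i y && bit M y j))
  tog : ∀ M a b i j, a < 32 → b < 32 → i < 32 → j < 32 →
    bit (togM M a b) i j = (bit M i j ^^ ed a b i j)
  clr : ∀ M a b i j, a < 32 → b < 32 → i < 32 → j < 32 →
    bit (clr M a b) i j = (bit M i j && !pr a b i j)
  addv : ∀ M n N i j, n ≤ 31 → i ≤ n → j ≤ n → i ≠ j → bit (addv M n N) i j =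
    if i = n then N.testBit j else if j = n then N.testBit i else bit M i j
  ins : ∀ M n a b i j, n ≤ 31 → a < n → b < n → a ≠ b → i ≤ n → j ≤ n → i ≠ j →
    bit (insM M n a b) i j = insA (bit M) n a b i j
  insJ : ∀ J n a b i j A, n ≤ 31 → a < n → b < n → a ≠ b → i ≤ n → j ≤ n → i ≠ j →
    bit (insJ J n a b) i j = (MG.ins ⟨n, A, bit J⟩ a b).mark i j
  tk : ∀ k A c f, tk k A c f = true → (∀ i < k, A.testBit (dg c i) = true) ∧
    (∀ i < k, ∀ j < k, dg c i = dg c j → i = j) ∧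
    ∃ A', f A' = true ∧ ∀ i < k, (A ^^^ A').testBit (dg c i) = true
  perm : ∀ n c M, n ≤ 32 → (∀ i < n, ∀ j < n, dg c i = dg c j → i = j) →
    ∀ i < n, ∀ j < n, bit (permM n c M) (dg c i) (dg c j) = bit M i j
  toM : ∀ n A i j, n ≤ 32 → j < i → i < n → bit (toM n A) i j = A i j ∧ bit (toM n A) j i = A i j
  pull : ∀ (V : Type) [DecidableEq V] (G : Gr V) σ n M y, Sy G → Pull G σ n (bit M) → n ≤ 32 → y < n →
    Pull (T.lc G (σ y)) σ n (bit (lcM M y))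

/-- B: the three obstructions are not circle graphs -/
def StNon : Prop := ∀ (V : Type) [DecidableEq V] (G : Gr V) (S : Finset V), Sy G →
  (Emb G S 6 (wheel 5 fun _ => true) ∨ Emb G S 8 (wheel 7 fun _ => true) ∨
    Emb G S 7 (wheel 6 fun i => decide (i % 2 = 0))) → ¬ Circ G S

/-- C: certificates -/
structure StNc : Prop where
  nc : ∀ (V : Type) [DecidableEq V] (G : Gr V) S σ n M A c, Sy G → Pull G σ n (bit M) → n ≤ 32 →
    (∀ i, A.testBit i = true → i < n ∧ σ i ∈ S) → nc M A c = true → ¬ Circ G S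
  kl : ∀ (V : Type) [DecidableEq V] (G : Gr V) σ n M u c, Sy G → Pull G σ n (bit M) →
    kl n M u c = true → u < n ∧ n ≤ 32 ∧ ∀ S, (∀ i < n, i ≠ u → σ i ∈ S) → ¬ Circ G S

def StCw : Prop := ∀ (V : Type) [DecidableEq V] (G : Gr V) σ n M u c, Sy G → Pull G σ n (bit M) →
  u < n → cw n M u c = true → Circ G ((im σ n).erase (σ u))

/-- D: expansions -/
structure StEx (V : Type) [DecidableEq V] : Prop where
  nbr : ∀ {G : Gr V} {S σ n A P1 P2 a b c1 c2 s l1 l2 p q}, Sy G →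
    EX G S σ n A (P1 ++ (a, c1 ++ s :: c2, b) :: P2) → σ a :: c1 = l1 ++ [p] → c2 ++ [σ b] = q :: l2 →
    p ≠ q ∧ p ∈ S ∧ q ∈ S ∧ p ≠ s ∧ q ≠ s ∧ ∀ w ∈ S, G s w = (decide (w = p) ^^ decide (w = q))
  sup : ∀ {G : Gr V} {S σ n A P1 P2 a b c1 c2 s}, Sy G →
    EX G S σ n A (P1 ++ (a, c1 ++ s :: c2, b) :: P2) →
    EX (T.lc G s) (S.erase s) σ n A (P1 ++ (a, c1 ++ c2, b) :: P2)
  col : ∀ {G : Gr V} {S σ n A P}, Sy G → EX G S σ n A P →
    ∃ G', LE (chv P).toFinset G G' ∧ Pull G' σ n A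
  ref : ∀ {G : Gr V} {S σ n A P1 P2 a b c1 c2 s}, Sy G →
    EX G S σ n A (P1 ++ (a, c1 ++ s :: c2, b) :: P2) →
    EX G S (Function.update σ n s) (n + 1) (insA A n a b) (P1 ++ (a, c1, n) :: (n, c2, b) :: P2)
  unref : ∀ {G : Gr V} {S σ n A P1 P2 a b c1 c2}, Sy G → a < n → b < n → a ≠ b →
    (∀ t ∈ P1 ++ P2, t.1 < n ∧ t.2.2 < n) →
    EX G S σ (n + 1) (insA A n a b) (P1 ++ (a, c1, n) :: (n, c2, b) :: P2) →
    EX G S σ n A (P1 ++ (a, c1 ++ σ n :: c2, b) :: P2)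
  insr : ∀ {G : Gr V} {S σ n A P1 P2 a b c1 c2 f l1 l2 p q}, Sy G → f ∉ S →
    EX G S σ n A (P1 ++ (a, c1 ++ c2, b) :: P2) → σ a :: c1 = l1 ++ [p] → c2 ++ [σ b] = q :: l2 →
    Sy (insG G f p q) ∧ EX (insG G f p q) (insert f S) σ n A (P1 ++ (a, c1 ++ f :: c2, b) :: P2) ∧
      ∀ u ∈ S, ∀ w ∈ S, T.lc (insG G f p q) f u w = G u w
  perm : ∀ {G : Gr V} {S σ n A P P'}, P.Perm P' → EX G S σ n A P → EX G S σ n A P'
  rev : ∀ {G : Gr V} {S σ n A P1 P2 a b c}, EX G S σ n A (P1 ++ (a, c, b) :: P2) →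
    EX G S σ n A (P1 ++ (b, c.reverse, a) :: P2)
  nil : ∀ {G : Gr V} {S σ n A P1 P2 a b}, EX G S σ n A (P1 ++ (a, [], b) :: P2) ↔
    a < n ∧ b < n ∧ a ≠ b ∧ EX G S σ n A (P1 ++ P2)
  cgA : ∀ {G : Gr V} {S σ n A A' P}, (∀ i < n, ∀ j < n, i ≠ j → A i j = A' i j) →
    EX G S σ n A P → EX G S σ n A' P
  cgG : ∀ {G G' : Gr V} {S σ n A P}, (∀ u ∈ S, ∀ w ∈ S, G u w = G' u w) →
    EX G S σ n A P → EX G' S σ n A P
  rel : ∀ {G : Gr V} {S σ n A A' P} (π : ℕ → ℕ), (∀ i < n, π i < n) →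
    (∀ i < n, ∀ j < n, π i = π j → i = j) → (∀ i < n, ∀ j < n, i ≠ j → A' (π i) (π j) = A i j) →
    EX G S σ n A P → ∃ σ', EX G S σ' n A' (P.map fun t => (π t.1, t.2.1, π t.2.2))
  base : ∀ {G : Gr V} {S σ n A}, EX G S σ n A [] ↔ Pull G σ n A ∧ S = im σ n

/-- E: expansions of listed graphs -/
def StGood (V : Type) [DecidableEq V] : Prop := ∀ B, Listed B → ∀ (G : Gr V) S σ P, Sy G →
  EX G S σ B.n B.adj P → Fits B.mark (ends P) → Lst G S

def StCases (V : Type) [DecidableEq V] : Prop := ∀ (G : Gr V) S, Sy G → Lst G S →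
  ∃ B J σ P, Base B J ∧ EX G S σ B.n B.adj P ∧ ends P = J

/-- the packed table -/
structure StTab : Prop where
  impl : ∀ i < 223, Listed (baseG i) ∧ Impl (baseG i) (bN i) (bM i) (bJ i)
  tab : ∀ x ∈ table, ∃ i < 196, baseG i = ofCode x ∧ baseJ i = mlist (ofCode x)
  fam : ∀ t m, seqOk t m → m ≤ 11 → ∃ i < 27, baseG (196 + i) = seqG t m ∧ baseJ (196 + i) = rimJ m

/-- F, G, H, P: the steps -/
def StStepR (V : Type) [DecidableEq V] : Prop := ∀ n M J c, Snd V (stepR n M J c) (.R n M J)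

def StStepB (V : Type) [DecidableEq V] : Prop :=
  ∀ n M nu D U Z c, Snd V (stepB n M nu D U Z c) (.B n M nu D U Z)

def StStepC (V : Type) [DecidableEq V] : Prop := ∀ n M w J c, Snd V (stepC n M w J c) (.C n M w J)

def StStepS (V : Type) [DecidableEq V] : Prop := ∀ n M J, Snd V (stepS n M J) (.S n M J)

def StStepW (V : Type) [DecidableEq V] : Prop :=
  ∀ t n M Lm Nm k A B c, Snd V (stepW t n M Lm Nm k A B c) (.W t n M Lm Nm k A B)

def StStepK (V : Type) [DecidableEq V] : Prop :=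
  ∀ t n M Lm Nm len J c, Snd V (stepK t n M Lm Nm len J c) (.K t n M Lm Nm len J)

/-- contraction of all chains -/
def StRed (V : Type) [DecidableEq V] : Prop := ∀ (G : Gr V) (S : Finset V) v σ n A P, Sy G →
  EX G (S.erase v) σ n A P → ∃ G', LE (chv P).toFinset G G' ∧ Pull G' σ n A ∧
    ∀ i < n, G' v (σ i) = (G v (σ i) ^^ tg G v P i)

def StRun (V : Type) [DecidableEq V] : Prop := ∀ f l i, runs f l i = true →
  ∀ j, i ≤ j → j < i + l.length → ∀ s ∈ f j, Ok V s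

/-- I: subdividing the edge between two vertices of degree at most two -/
def StSub (V : Type) [DecidableEq V] : Prop := ∀ (G : Gr V) (S : Finset V) (a p s q b : V), Sy G →
  p ∈ S → s ∈ S → q ∈ S → p ≠ q → (∀ w ∈ S, G s w = (decide (w = p) ^^ decide (w = q))) →
  (∀ w ∈ S, G p w = true → w = a ∨ w = s) → (∀ w ∈ S, G q w = true → w = s ∨ w = b) →
  G p q = false → Del (lc G s) (S.erase s) → Del G S

def StDelT : Prop := ∀ n M J, Ok ℕ (.S n M J) → ∀ (G : Gr ℕ) S σ P, Sy G →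
  EX G S σ n (bit M) P → ends P = J → Del G S

/-- J: five equal letters can be replaced by one -/
def StX5 (V : Type) [DecidableEq V] : Prop :=
  ∀ (G : Gr V) (S : Finset V) (a p1 p2 p3 p4 p5 b : V) (φ : V → Bool), Sy G →
  [p1, p2, p3, p4, p5].Nodup → a ∉ [p1, p2, p3, p4, p5] → b ∉ [p1, p2, p3, p4, p5] →
  (∀ u ∈ [a, p1, p2, p3, p4, p5, b], u ∈ S) → (∀ u ∈ [p2, p3, p4, p5], φ u = φ p1) →
  (∀ p ∈ [p1, p2, p3, p4, p5], ∀ u ∈ S, u ≠ p →
    G p u = (pe [a, p1, p2, p3, p4, p5, b] p u ^^ φ u)) →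
  ∃ G', LE {p1, p2, p4, p5} G G' ∧ ∀ u ∈ S \ {p1, p2, p4, p5}, ∀ w ∈ S \ {p1, p2, p4, p5}, u ≠ w →
    G' u w = (G u w ^^ ed a p3 u w ^^ ed p3 b u w)

/-- J: moves on words -/
structure StWd (V : Type) [DecidableEq V] : Prop where
  rot : ∀ {t} {G : Gr V} {S y r1 q r2 lam h z}, t < 3 → WF t G S y (r1 ++ q :: r2) lam h z →
    WF t G S q (r2 ++ y :: r1) lam h z
  rev : ∀ {t} {G : Gr V} {S y r lam h z}, WF t G S y r lam h z → WF t G S y r.reverse lam h z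
  zero : ∀ {t} {G : Gr V} {S y r1 s r2 lam h z}, Sy G → WF t G S y (r1 ++ s :: r2) lam h z →
    lam s = false → WF t (lc G s) (S.erase s) y (r1 ++ r2) lam h z
  zeroV : ∀ {t} {H : Gr V} {S v y r1 s r2 lam h z}, Sy H → HV t H S v y (r1 ++ s :: r2) lam h z →
    lam s = false → H v s = false →
    HV t (lc H s) (S.erase s) v y (r1 ++ r2) lam h z ∧ ∀ u, lc H s v u = H v u
  five : ∀ {t} {G : Gr V} {S y r1 p1 p2 p3 p4 p5 r2 lam h z}, Sy G →
    WF t G S y (r1 ++ [p1, p2, p3, p4, p5] ++ r2) lam h z →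
    (∀ u ∈ [p2, p3, p4, p5], lam u = lam p1) →
    ∃ G', LE {p1, p2, p4, p5} G G' ∧ WF t G' (S \ {p1, p2, p4, p5}) y (r1 ++ p3 :: r2) lam h z
  fiveV : ∀ {t} {H : Gr V} {S v y r1 p1 p2 p3 p4 p5 r2 lam h z}, Sy H →
    HV t H S v y (r1 ++ [p1, p2, p3, p4, p5] ++ r2) lam h z →
    (∀ u ∈ [p2, p3, p4, p5], lam u = lam p1 ∧ H v u = H v p1) →
    ∃ H', LE {p1, p2, p4, p5} H H' ∧ HV t H' (S \ {p1, p2, p4, p5}) v y (r1 ++ p3 :: r2) lam h z ∧
      ∀ u ∈ S \ {p1, p2, p4, p5}, H' v u = H v u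
  adj : ∀ {y : V} {r x x'}, (y :: r).Nodup → 2 ≤ r.length → (cy y r x x' = true ↔
    (x, x') ∈ cp (y :: r ++ [y]) ∨ (x', x) ∈ cp (y :: r ++ [y]))

/-- K: contractions of word graphs -/
structure StId (V : Type) [DecidableEq V] : Prop where
  i1 : ∀ {t} {G : Gr V} {S y r1 s r2 lam h z}, Sy G → kap t = false →
    WF t G S y (r1 ++ s :: r2) lam h z → lam s = true →
    WF t (lc G s) (S.erase s) y (r1 ++ r2)
      (fun u => lam u ^^ cy y (r1 ++ s :: r2) s u ^^ (decide (3 ≤ t) && decide (u = y))) h z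
  i2 : ∀ {t} {G : Gr V} {S y s q r lam h z}, Sy G → kap t = true → 2 ≤ r.length →
    WF t G S y (s :: q :: r) lam h z → lam s = true →
    WF (t + 2) (lc G s) (S.erase s) y r (fun u => if u = y then !(lam y ^^ lam q) else
      if u = q then false else (lam u ^^ cy y (s :: q :: r) q u)) q h
  i3 : ∀ {t} {G : Gr V} {S y r lam h z}, Sy G → kap t = true → WF (t + 2) G S y r lam h z →
    WF t (lc G h) (S.erase h) y r (fun u => lam u ^^ decide (u = y)) z z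
  i4 : ∀ {t} {G : Gr V} {S y r lam h z}, Sy G → kap t = true → WF (t + 2) G S y r lam h z →
    WF t (lc G y) (S.erase y) h r (fun u => if u = h then !lam y else (lam u ^^ cy y r y u)) z z
  i5 : ∀ {G : Gr V} {S y r lam h z}, Sy G →
    (WF 0 G S y r lam h z → WF 2 (lc G h) S y r lam h z) ∧
    (WF 2 G S y r lam h z → WF 0 (lc G h) S y r lam h z) ∧
    (WF 2 G S y r lam h z → WF 1 G (S.erase h) y r lam h z)

/-- M: words and the five sequences -/
def StFull (V : Type) [DecidableEq V] : Prop := ∀ t (G : Gr V) S y r lam h z,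
  WF t G S y r lam h z → Rich t y r lam → (∀ u ∈ r, lam u = true) → (t < 3 → lam y = true) →
  seqOk t (r.length + 1) ∧ ∃ σ, Pull G σ (seqG t (r.length + 1)).n (seqG t (r.length + 1)).adj ∧
    S = im σ (seqG t (r.length + 1)).n ∧
    (rimJ (r.length + 1)).map (Prod.map σ σ) = cp (y :: r ++ [y])

/-- cutting the rim at the vertices with `nz` -/
def StBlk (V : Type) [DecidableEq V] : Prop :=
  ∀ (G G0 : Gr V) (S : Finset V) y r (nz : V → Bool) σ n A (J : List (ℕ × ℕ)), (y :: r).Nodup →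
  2 ≤ r.countP nz → Pull G0 σ n A → (∀ p ∈ J, p.1 < n ∧ p.2 < n) →
  J.map (Prod.map σ σ) = cp (y :: r.filter nz ++ [y]) →
  (∀ u, u ∈ S ↔ u ∈ im σ n ∨ (u ∈ r ∧ nz u = false)) → (∀ u ∈ r, nz u = false → u ∉ im σ n) →
  (∀ u ∈ im σ n, ∀ w ∈ im σ n, u ≠ w →
    (G u w ^^ cy y r u w) = (G0 u w ^^ cy y (r.filter nz) u w)) →
  (∀ u ∈ r, nz u = false → ∀ w ∈ S, G u w = cy y r u w) →
  ∃ P, EX G S σ n A P ∧ ends P = J

def StLwLst (V : Type) [DecidableEq V] : Prop := ∀ (G : Gr V) S, Sy G → LW G S → Lst G S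

def StFamW (V : Type) [DecidableEq V] : Prop := ∀ t m (G : Gr V) S σ P, Sy G → seqOk t m →
  EX G S σ (seqG t m).n (seqG t m).adj P → ends P = rimJ m →
  ∃ y r lam h z, WF t G S y r lam h z ∧ Rich t y r lam ∧ m0 t y r lam = m

/-- the short members of the five sequences are not circle graphs -/
def FamN (V : Type) [DecidableEq V] : Prop := ∀ t m, seqOk t m → m ≤ 11 → ∀ (G : Gr V) σ, Sy G →
  Pull G σ (seqG t m).n (seqG t m).adj → ¬ Circ G (im σ (seqG t m).n)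

/-- N -/
def StNonW (V : Type) [DecidableEq V] : Prop := ∀ (G : Gr V) S, Sy G → LW G S → ¬ Circ G S

/-- O -/
def StDelW (V : Type) [DecidableEq V] : Prop := ∀ (G : Gr V) S, Sy G → LW G S → Del G S

/-- K: closure under one local complementation, long words -/
def StCW (V : Type) [DecidableEq V] : Prop := ∀ t (G : Gr V) S y r lam h z w, Sy G →
  WF t G S y r lam h z → Rich t y r lam → 10 ≤ m0 t y r lam → w ∈ S → Mn (lc G w) S →
  Con (lc G w) S → LW (lc G w) S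

/-- L: the patterns give word graphs -/
def StPat (V : Type) [DecidableEq V] : Prop := ∀ t (H : Gr V) S v y r lam h z, Sy H →
  HV t H S v y r lam h z → Rich t y r lam → 7 ≤ r.countP (fun u => lam u || H v u) →
  PatV t H S v y r lam h z → LW H S

/-- P: the patterns survive when one letter is replaced by five -/
def StExt (V : Type) [DecidableEq V] : Prop :=
  ∀ t (H H' : Gr V) S v y r1 p1 p2 p3 p4 p5 r2 lam h z,
  HV t H S v y (r1 ++ [p1, p2, p3, p4, p5] ++ r2) lam h z → 2 ≤ (r1 ++ p3 :: r2).length →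
  (∀ u ∈ [p2, p3, p4, p5], lam u = lam p1 ∧ H v u = H v p1) →
  (∀ u ∈ S \ {p1, p2, p4, p5}, H' v u = H v u) →
  (H v p1 = true → 3 ≤ (r1 ++ p3 :: r2).countP (H v)) →
  (lam p1 ≠ H v p1 → 2 ≤ (r1 ++ p3 :: r2).countP fun u => lam u ^^ H v u) →
  PatV t H' (S \ {p1, p2, p4, p5}) v y (r1 ++ p3 :: r2) lam h z →
  PatV t H S v y (r1 ++ [p1, p2, p3, p4, p5] ++ r2) lam h z

/-- classification of the words without letter `0` -/
def Cls0 (V : Type) [DecidableEq V] : Prop := ∀ d : Wd V, d.Val → d.Fin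

def StCls (V : Type) [DecidableEq V] : Prop := (∀ i < 80, ∀ s ∈ rootsW i, Ok V s) → Cls0 V

/-- Q: a letter `0` inside the window -/
def Strip (V : Type) [DecidableEq V] : Prop := ∀ k ∈ clsL, ∀ i j, (k.fi = true → i = 0) →
  (k.fj = true → j = 0) → 5 ≤ i + j → ∀ (H : Gr V) S v y r lam h z, Sy H →
  HV k.t H S v y r lam h z → okp k.t ((y :: r).countP lam) → r.map (lt H v lam) = k.word i j →
  lam y = k.ly → H v y = k.my → (k.t ≠ 1 → H v h = k.mh) → (k.t = 4 → H v z = k.mz) → ¬ Del H S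

def StStrip (V : Type) [DecidableEq V] : Prop :=
  (∀ i < clsL.length, ∀ s ∈ rootsX i, Ok V s) → Strip V

def StLift (V : Type) [DecidableEq V] : Prop := ∀ t (H : Gr V) S v y r lam h z, Sy H →
  HV t H S v y r lam h z → Rich t y r lam → (t < 3 → lam y = true) →
  7 ≤ r.countP (fun u => lam u || H v u) → Del H S → PatV t H S v y r lam h z

/-- R -/
def StL1W (V : Type) [DecidableEq V] : Prop := ∀ (H : Gr V) S v, Sy H → v ∈ S → Mn H S →
  LW (lc H v) (S.erase v) → Lst H S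

/-- what the certificates give -/
structure Cert (V : Type) [DecidableEq V] : Prop where
  t : ∀ i < 196, ∀ s ∈ rootT i, Ok V s
  f : ∀ i < 27, ∀ s ∈ rootF i, Ok V s
  o : ∀ s ∈ rootO, Ok V s
  w : ∀ i < 80, ∀ s ∈ rootsW i, Ok V s
  x : ∀ i < clsL.length, ∀ s ∈ rootsX i, Ok V s

/-- S: the three main lemmas -/
def StL1 (V : Type) [DecidableEq V] : Prop := ∀ (H : Gr V) S v, Sy H → v ∈ S → Mn H S →
  Lst (lc H v) (S.erase v) → Lst H S

def StC (V : Type) [DecidableEq V] : Prop := ∀ (G : Gr V) S w, Sy G → w ∈ S → Lst G S →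
  Mn (lc G w) S → Con (lc G w) S → Lst (lc G w) S

def StLstNon (V : Type) [DecidableEq V] : Prop := ∀ (G : Gr V) S, Sy G → Lst G S → ¬ Circ G S

def StComplete (V : Type) [DecidableEq V] : Prop := ∀ (G : Gr V) S, Sy G → Mn G S → Lst G S

def StSound : Prop := ∀ (G : Gr ℕ) S, Sy G → Lst G S → Mn G S

def StMain : Prop := ∀ (V : Type) [Fintype V] (G : SimpleGraph V),
  IsMinNonCircle G ↔ ∃ B, Listed B ∧ Nonempty (G ≃g B.graph)

end Pool.Agent.Lib.MP_d7353d_co.U
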