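import Pool.Agent.Lib.MP_d7353d_co.U1

/-! Tools for the steps on words, and the step on closed words. -/

namespace Pool.Agent.Lib.MP_d7353d_co.U

open T

variable {V : Type} [DecidableEq V]

namespace StepW

theorem ed_symm (a b u w : V) : ed a b u w = ed a b w u := by
  simp only [ed]
  rw [Bool.xor_comm, Bool.and_comm, Bool.and_comm (decide (u = a))]

theorem ed_comm (a b u w : V) : ed a b u w = ed b a u w := by
  simp only [ed]
  rw [Bool.xor_comm]

theorem ed_left {a b u w : V} (h : u ≠ a) (h' : w ≠ a) : ed a b u w = false := by simp [ed, h, h']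

theorem ed_right {a b u w : V} (h : u ≠ b) (h' : w ≠ b) : ed a b u w = false := by simp [ed, h, h']

theorem pe_cons (a b : V) (l : List V) (u w : V) :
    pe (a :: b :: l) u w = (ed a b u w ^^ pe (b :: l) u w) := rfl

theorem pe_symm (l : List V) (u w : V) : pe l u w = pe l w u := by
  induction l with
  | nil => rfl
  | cons a l ih =>
    cases l with
    | nil => rfl
    | cons b l => rw [pe_cons, pe_cons, ih, ed_symm]

theorem pe_not {l : List V} {u : V} (h : u ∉ l) (w : V) : pe l u w = false := by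
  induction l with
  | nil => rfl
  | cons a l ih =>
    cases l with
    | nil => rfl
    | cons b l =>
      simp only [List.mem_cons, not_or] at h ih
      rw [pe_cons, ih h.2]
      simp [ed, h.1, h.2.1]

theorem pe_app (l1 : List V) (p : V) (l2 : List V) (u w : V) :
    pe (l1 ++ p :: l2) u w = (pe (l1 ++ [p]) u w ^^ pe (p :: l2) u w) := by
  induction l1 with
  | nil => simp [pe]
  | cons a l ih =>
    cases l with
    | nil => simp [pe]
    | cons b l =>
      simp only [List.cons_append] at ih ⊢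
      rw [pe_cons, pe_cons, ih, Bool.xor_assoc]

theorem pe_mid {l : List V} (h : l ≠ []) (a b : V) {u w : V} (hu : u ∉ l) (hw : w ∉ l) :
    pe (a :: l ++ [b]) u w = false := by
  induction l generalizing a with
  | nil => exact absurd rfl h
  | cons s l ih =>
    simp only [List.mem_cons, not_or] at hu hw
    simp only [List.cons_append] at ih ⊢
    rw [pe_cons, ed_right hu.1 hw.1]
    cases l with
    | nil => simp [pe, ed_left hu.1 hw.1]
    | cons s' l => simpa using ih (by simp) s hu.2 hw.2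

theorem pe_cp {l : List V} (h : l.Nodup) {x x' : V} (m : (x, x') ∈ cp l) : pe l x x' = true := by
  induction l with
  | nil => simp [cp] at m
  | cons a l ih =>
    cases l with
    | nil => simp [cp] at m
    | cons b l =>
      rw [List.nodup_cons] at h
      have m' : (x, x') = (a, b) ∨ (x, x') ∈ cp (b :: l) := by simpa [cp] using m
      rw [pe_cons]
      rcases m' with e | m'
      · obtain ⟨rfl, rfl⟩ := Prod.mk.inj e
        have : x ≠ x' := fun e => h.1 (e ▸ List.mem_cons_self)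
        rw [pe_not h.1]
        simp [ed, this]
      · have := List.of_mem_zip m'
        rw [ih h.2 m', ed_left (fun e : x = a => h.1 (e ▸ this.1))
          (fun e : x' = a => h.1 (e ▸ List.mem_of_mem_tail this.2))]
        rfl

theorem cy_cp {y : V} {r : List V} (h : (y :: r).Nodup) (l : 2 ≤ r.length) {x x' : V}
    (m : (x, x') ∈ cp (y :: r ++ [y])) : cy y r x x' = true := by
  obtain ⟨q, q', r, rfl⟩ : ∃ q q' r', r = q :: q' :: r' := by
    rcases r with _ | ⟨q, _ | ⟨q', r⟩⟩
    · simp at l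
    · simp at l
    · exact ⟨_, _, _, rfl⟩
  have nd : (q :: q' :: r ++ [y]).Nodup := (List.perm_append_singleton y _).nodup_iff.2 h
  simp only [List.nodup_cons, List.mem_cons, not_or] at h
  have k : pe (q :: q' :: r ++ [y]) q y = false := by
    have : q ∉ q' :: (r ++ [y]) := (List.nodup_cons.1 nd).1
    simp only [List.cons_append]
    rw [pe_cons, pe_not this, ed_right h.2.1.1 h.1.2.1]
    rfl
  have m' : (x, x') = (y, q) ∨ (x, x') ∈ cp (q :: q' :: r ++ [y]) := by simpa [cp] using m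
  show (ed y q x x' ^^ pe (q :: q' :: r ++ [y]) x x') = true
  rcases m' with e | m'
  · obtain ⟨rfl, rfl⟩ := Prod.mk.inj e
    rw [pe_symm, k]
    simp [ed, h.1.1]
  · have k' := pe_cp nd m'
    rw [k']
    by_cases a : x = y ∧ x' = q
    · rw [a.1, a.2, pe_symm, k] at k'
      simp at k'
    by_cases b : x = q ∧ x' = y
    · rw [b.1, b.2, k] at k'
      simp at k'
    · simp only [ed, ← Bool.decide_and, a, b]
      rfl

theorem cp_map {α β : Type} (f : α → β) (l : List α) :
    (cp l).map (Prod.map f f) = cp (l.map f) := by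
  simp only [cp, ← List.map_tail, List.zip_map]

theorem ey_pos (t : ℕ) : 0 < ey t := by unfold ey; split_ifs <;> omega

section
variable {d : Wd V} {σ : ℕ → V} {n Lm Nm : ℕ}

theorem nd_r (hv : d.Val) : (d.y :: d.r).Nodup := (List.nodup_append.1 hv.2.1.2.nd).2.1

theorem mem_S (hv : d.Val) {u : V} (h : u ∈ d.y :: d.r) : u ∈ d.S.erase d.v :=
  (hv.2.1.2.cov u).2 (List.mem_append_right _ h)

theorem not_ext (hv : d.Val) {u : V} (h : u ∈ d.y :: d.r) : u ∉ ext d.t d.h d.z :=
  fun k => (List.nodup_append.1 hv.2.1.2.nd).2.2 u k u h rfl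

theorem ne_h (hv : d.Val) {u : V} (h : u ∈ d.y :: d.r) (t : d.t ≠ 1) : u ≠ d.h := by
  intro e
  apply not_ext hv h
  unfold ext
  split_ifs <;> simp_all

theorem ne_z (hv : d.Val) {u : V} (h : u ∈ d.y :: d.r) (t : d.t = 4) : u ≠ d.z := by
  intro e
  apply not_ext hv h
  simp [ext, t, e]

theorem la_rim (hv : d.Val) {u : V} (h : u ∈ d.y :: d.r) : la d.t d.lam d.h d.z u = d.lam u := by
  have a := ne_h hv h
  have b := ne_z hv h
  unfold la
  by_cases t2 : d.t = 2
  · simp [t2, a (by omega)]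
  by_cases t4 : d.t = 4
  · simp [t4, b t4]
  · simp [t2, t4]

theorem al_r (hv : d.Val) {u : V} (h : u ∈ d.r) : al d.t d.h d.y u = false := by
  have a := ne_h hv (List.mem_cons_of_mem _ h)
  have b : u ≠ d.y := fun e => (List.nodup_cons.1 (nd_r hv)).1 (e ▸ h)
  unfold al
  by_cases t : d.t = 1
  · simp [t]
  · simp [a t, b]

theorem low (hv : d.Val) (pl : d.Pl σ n Lm Nm) {i : ℕ} (h : σ i ∈ d.r) : ey d.t < i := by
  by_contra k
  have m := List.mem_cons_of_mem d.y h
  by_cases i0 : i = 0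
  · exact (Finset.mem_erase.1 (mem_S hv m)).1 (i0 ▸ pl.v)
  by_cases i1 : i = ey d.t
  · exact (List.nodup_cons.1 (nd_r hv)).1 (pl.y ▸ i1 ▸ h)
  unfold ey at k i1
  split_ifs at k i1 with t1 t4
  · omega
  · rcases (show i = 1 ∨ i = 2 by omega) with rfl | rfl
    · exact ne_h hv m t1 (pl.h t1)
    · exact ne_z hv m t4 (pl.z t4)
  · obtain rfl : i = 1 := by omega
    exact ne_h hv m t1 (pl.h t1)

theorem dec (pl : d.Pl σ n Lm Nm) {i j : ℕ} (hi : i < n) (hj : j < n) :
    decide (σ i = σ j) = decide (j = i) :=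
  decide_eq_decide.2 ⟨fun e => (pl.inj i hi j hj e).symm, fun e => e ▸ rfl⟩

theorem alM_bit (hv : d.Val) (pl : d.Pl σ n Lm Nm) {i : ℕ} (hi : i < n) :
    (alM d.t).testBit i = al d.t d.h d.y (σ i) := by
  have t5 := hv.2.2.1.1
  have l := pl.lt
  have y := pl.y
  have e2 : (2 : ℕ) = 2 ^ 1 := rfl
  have e6 : (6 : ℕ) = 2 ^ 1 ^^^ 2 ^ 2 := rfl
  have e10 : (10 : ℕ) = 2 ^ 1 ^^^ 2 ^ 3 := rfl
  rcases (show d.t = 0 ∨ d.t = 1 ∨ d.t = 2 ∨ d.t = 3 ∨ d.t = 4 by omega) with t | t | t | t | t
  · have h := pl.h (by omega)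
    simp only [t, ey] at l
    rw [← h, al, dec pl hi (by simp at l; omega), t, show alM 0 = 2 ^ 1 from rfl,
      Nat.testBit_two_pow]
    simp
  · simp [t, alM, al]
  · simp [t, alM, al]
  · have h := pl.h (by omega)
    rw [t] at y l
    change σ 2 = _ at y
    change 2 < n at l
    rw [← h, ← y, al, dec pl hi (by omega), dec pl hi l, t,
      show alM 3 = 2 ^ 1 ^^^ 2 ^ 2 from rfl, Nat.testBit_xor, Nat.testBit_two_pow,
      Nat.testBit_two_pow]
    simp
  · have h := pl.h (by omega)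
    rw [t] at y l
    change σ 3 = _ at y
    change 3 < n at l
    rw [← h, ← y, al, dec pl hi (by omega), dec pl hi l, t,
      show alM 4 = 2 ^ 1 ^^^ 2 ^ 3 from rfl, Nat.testBit_xor, Nat.testBit_two_pow,
      Nat.testBit_two_pow]
    simp

theorem lm_y (hv : d.Val) (pl : d.Pl σ n Lm Nm) : Lm.testBit (ey d.t) = d.lam d.y := by
  rw [pl.lm _ pl.lt (ey_pos _), pl.y, la_rim hv List.mem_cons_self]

theorem pat_ok (hv : d.Val) (pl : d.Pl σ n Lm Nm) (hS : d.S = im σ n) {J : List (ℕ × ℕ)}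
    (hb : ∀ p ∈ J, p.1 < n ∧ p.2 < n) (hJ : J.map (Prod.map σ σ) = cp (d.y :: d.r ++ [d.y]))
    (l : 2 ≤ d.r.length) {c : ℕ} (h : pat d.t Lm Nm J c = true) :
    PatV d.t d.H d.S d.v d.y d.r d.lam d.h d.z := by
  unfold pat at h
  split at h
  · simp at h
  rename_i p tl e
  have pJ : p ∈ J := List.mem_of_mem_drop (e ▸ List.mem_cons_self)
  obtain ⟨p1, p2⟩ := hb p pJ
  have m : (σ p.1, σ p.2) ∈ cp (d.y :: d.r ++ [d.y]) := hJ ▸ List.mem_map.2 ⟨p, pJ, rfl⟩
  have cyp := cy_cp (nd_r hv) l m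
  have all : ∀ {f : V → Bool}, (∀ i < n, 0 < i → Nm.testBit i = f (σ i)) →
      ∀ u ∈ d.S.erase d.v, d.H d.v u = f u := by
    intro f hf u hu
    obtain ⟨u1, u2⟩ := Finset.mem_erase.1 hu
    obtain ⟨i, hi, rfl⟩ := mem_im.1 (hS ▸ u2)
    rw [← pl.nm i hi, hf i hi (Nat.pos_of_ne_zero fun e => u1 (e ▸ pl.v))]
  rcases of_decide_eq_true h with ⟨-, h⟩ | ⟨-, k, h⟩ | ⟨-, k, h⟩ | ⟨-, k, h⟩ | ⟨-, k, h⟩ |
    ⟨-, k, h1, h2, h3, h4⟩
  · refine .inl ⟨false, _, _, by simp, cyp, all fun i hi _ => ?_⟩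
    simp only [h, Nat.testBit_xor, Nat.testBit_two_pow, dec pl hi p1, dec pl hi p2,
      Bool.false_and, Bool.xor_false]
  · refine .inl ⟨true, _, _, fun _ => k, cyp, all fun i hi _ => ?_⟩
    simp only [h, Nat.testBit_xor, Nat.testBit_two_pow, dec pl hi p1, dec pl hi p2,
      Bool.true_and, alM_bit hv pl hi]
  · refine .inr (.inl ⟨k, all fun i hi i0 => ?_⟩)
    simp [h, pl.lm i hi i0, la, k]
  · refine .inr (.inr (.inl ⟨k, σ p.1, ?_, all fun i hi i0 => ?_⟩))
    · have := (List.of_mem_zip m).1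
      simp only [List.cons_append, List.mem_cons, List.mem_append, List.not_mem_nil,
        or_false] at this ⊢
      tauto
    · simp only [h, Nat.testBit_xor, Nat.testBit_two_pow, dec pl hi p1, pl.lm i hi i0]
  · refine .inr (.inr (.inr (.inl ⟨k, all fun i hi _ => ?_⟩)))
    rw [← alM_bit hv pl hi, h, k]
    rfl
  · have t1 : d.t ≠ 1 := by omega
    have l1 : 1 < n := by
      have := pl.lt
      unfold ey at this
      split_ifs at this <;> omega
    have key : ∀ u ∈ d.r, d.H d.v u = (d.lam u ^^ (decide (u = σ p.1) ^^ decide (u = σ p.2))) := by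
      intro u hu
      have m := List.mem_cons_of_mem d.y hu
      obtain ⟨i, hi, rfl⟩ := mem_im.1 (hS ▸ Finset.mem_of_mem_erase (mem_S hv m))
      have g := low hv pl hu
      have b := congrArg (fun x => Nat.testBit x (i - (ey d.t + 1))) h2
      simp only [Nat.testBit_shiftRight, Nat.zero_testBit, Nat.testBit_xor, Nat.testBit_two_pow,
        show ey d.t + 1 + (i - (ey d.t + 1)) = i by omega] at b
      rw [pl.nm i hi, pl.lm i hi (by omega), la_rim hv m] at b
      rw [dec pl hi p1, dec pl hi p2]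
      revert b
      cases d.H d.v (σ i) <;> cases d.lam (σ i) <;> cases decide (p.1 = i) <;>
        cases decide (p.2 = i) <;> simp
    have ny : ∀ u ∈ d.r, decide (u = d.y) = false := fun u hu =>
      decide_eq_false fun e => (List.nodup_cons.1 (nd_r hv)).1 (e ▸ hu)
    rw [lm_y hv pl, pl.nm _ pl.lt, pl.y, pl.nm 1 l1, pl.h t1] at h3
    have h5 : d.t = 4 → d.H d.v d.z = true := fun t4 => by
      have := pl.lt
      rw [t4] at this
      rw [← pl.z t4, ← pl.nm 2 (lt_trans (by decide) this)]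
      exact h4 t4
    refine .inr (.inr (.inr (.inr ⟨k, ?_⟩)))
    rcases h1 with h1 | h1
    · refine ⟨σ p.2, by rwa [h1, pl.y] at cyp, fun u hu => ?_, h3, h5⟩
      rw [key u hu, h1, pl.y, ny u hu, Bool.false_xor]
    · refine ⟨σ p.1, ?_, fun u hu => ?_, h3, h5⟩
      · rw [h1, pl.y, cy, pe_symm] at cyp
        exact cyp
      · rw [key u hu, h1, pl.y, ny u hu, Bool.xor_false]

end

end StepW

open StepW in
theorem stepK_ok (V : Type) [DecidableEq V] (_ : StMat) (nc : StNc) : StStepK V := by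
  intro t n M Lm Nm len J c ch e ok d σ ht hv pl pu hS hb hJ hl
  subst ht hl
  unfold stepK at e
  rcases h0 : d0 c with _ | _ | s <;> rw [h0] at e
  · have e' : chk (frc M fun M' => kl n M' (dg c 1) (tl c 2)) (some []) = some ch := e
    rw [chk_some, frc_eq] at e'
    obtain ⟨u, -, k⟩ := nc.kl V d.H σ n M _ _ hv.1 pu e'.1
    exact absurd (hv.2.2.2.2.2 _ (pl.mem _ u)) (k _ fun i hi ne =>
      Finset.mem_erase.2 ⟨fun q => ne (pl.inj _ hi _ u q), pl.mem i hi⟩)
  · have e' : chk (Nat.blt d.r.length 7) (frc M fun M' => some [St.R n M' J]) = some ch := e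
    rw [chk_some, frc_eq] at e'
    obtain ⟨l, e'⟩ := e'
    obtain rfl := Option.some.inj e'
    exact .inl ⟨Nat.blt_eq.mp l, n, M, J, σ, ok _ List.mem_cons_self, pu, hS, hb, hJ⟩
  · have e' : chk (an (Nat.ble 7 d.r.length) (pat d.t Lm Nm J (tl c 1))) (some []) = some ch := e
    rw [chk_some, an_iff] at e'
    have l := Nat.le_of_ble_eq_true e'.1.1
    exact .inr ⟨l, pat_ok hv pl hS hb hJ (by omega) e'.1.2⟩

end Pool.Agent.Lib.MP_d7353d_co.U
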